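import Mathlib

open ArithmeticFunction Finset

namespace Pool.Agent.MP0016c7

/-- real arithmetic function attached to a (quadratic) character -/
noncomputable def rchar {q : ℕ} (χ : DirichletCharacter ℂ q) : ArithmeticFunction ℝ :=
  ⟨fun n => if n = 0 then 0 else (χ (n : ZMod q)).re, by simp⟩

lemma rchar_apply {q : ℕ} (χ : DirichletCharacter ℂ q) {n : ℕ} (hn : n ≠ 0) :
    rchar χ n = (χ (n : ZMod q)).re := by
  simp [rchar, hn]

lemma quad_cases {q : ℕ} {χ : DirichletCharacter ℂ q} (hχ : χ ^ 2 = 1) (a : ZMod q) :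
    χ a = 0 ∨ χ a = 1 ∨ χ a = -1 :=
  MulChar.isQuadratic_iff_sq_eq_one.mpr hχ a

lemma ofReal_rchar {q : ℕ} {χ : DirichletCharacter ℂ q} (hχ : χ ^ 2 = 1) {n : ℕ} (hn : n ≠ 0) :
    ((rchar χ n : ℝ) : ℂ) = χ (n : ZMod q) := by
  rw [rchar_apply χ hn]
  rcases quad_cases hχ (n : ZMod q) with h | h | h <;> simp [h]

lemma rchar_cases {q : ℕ} {χ : DirichletCharacter ℂ q} (hχ : χ ^ 2 = 1) (n : ℕ) :
    rchar χ n = 0 ∨ rchar χ n = 1 ∨ rchar χ n = -1 := by
  rcases eq_or_ne n 0 with rfl | hn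
  · left; simp
  · rw [rchar_apply χ hn]
    rcases quad_cases hχ (n : ZMod q) with h | h | h <;> simp [h]

lemma abs_rchar_le {q : ℕ} {χ : DirichletCharacter ℂ q} (hχ : χ ^ 2 = 1) (n : ℕ) :
    |rchar χ n| ≤ 1 := by
  rcases rchar_cases hχ n with h | h | h <;> simp [h]

lemma rchar_one {q : ℕ} (χ : DirichletCharacter ℂ q) : rchar χ 1 = 1 := by
  rw [rchar_apply χ one_ne_zero]; simp

lemma rchar_mul {q : ℕ} {χ : DirichletCharacter ℂ q} (hχ : χ ^ 2 = 1) (m n : ℕ) :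
    rchar χ (m * n) = rchar χ m * rchar χ n := by
  rcases eq_or_ne m 0 with rfl | hm
  · simp
  rcases eq_or_ne n 0 with rfl | hn
  · simp
  rw [rchar_apply χ hm, rchar_apply χ hn, rchar_apply χ (mul_ne_zero hm hn)]
  push_cast
  rw [map_mul]
  rcases quad_cases hχ (m : ZMod q) with h | h | h <;> simp [h]

lemma rchar_pow {q : ℕ} {χ : DirichletCharacter ℂ q} (hχ : χ ^ 2 = 1) (n k : ℕ) :
    rchar χ (n ^ k) = rchar χ n ^ k := by
  induction k with
  | zero => simp [rchar_one]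
  | succ k ih => rw [pow_succ, pow_succ, rchar_mul hχ, ih]

lemma isMultiplicative_rchar {q : ℕ} {χ : DirichletCharacter ℂ q} (hχ : χ ^ 2 = 1) :
    (rchar χ).IsMultiplicative :=
  ⟨rchar_one χ, fun {m n} _ => rchar_mul hχ m n⟩

/-- value of a Dirichlet convolution at a prime power -/
lemma mul_apply_prime_pow {f g : ArithmeticFunction ℝ} {p : ℕ} (hp : p.Prime) (k : ℕ) :
    (f * g) (p ^ k) = ∑ i ∈ range (k + 1), f (p ^ i) * g (p ^ (k - i)) := by
  rw [ArithmeticFunction.mul_apply, Nat.sum_divisorsAntidiagonal (fun a b => f a * g b),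
    Nat.sum_divisors_prime_pow hp]
  refine Finset.sum_congr rfl fun i hi => ?_
  rw [Finset.mem_range] at hi
  rw [Nat.pow_div (by omega) hp.pos]

/-- geometric sums of a quadratic value are nonnegative -/
lemma geom_nonneg {y : ℝ} (hy : y = 0 ∨ y = 1 ∨ y = -1) (k : ℕ) :
    0 ≤ ∑ i ∈ range (k + 1), y ^ i := by
  rcases hy with rfl | rfl | rfl
  · exact Finset.sum_nonneg fun i _ => by positivity
  · exact Finset.sum_nonneg fun i _ => by positivity
  · rw [neg_one_geom_sum]; split_ifs <;> norm_num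

/-- local nonnegativity of `f * g` if `f(p^i) = x^i`, `g(p^i)=y^i`, one of the values being 1 or
both being zero -/
lemma pair_nonneg {f g : ArithmeticFunction ℝ} {p : ℕ} (hp : p.Prime) {x y : ℝ}
    (hf : ∀ i, f (p ^ i) = x ^ i) (hg : ∀ i, g (p ^ i) = y ^ i)
    (hxy : (x = 1 ∧ (y = 0 ∨ y = 1 ∨ y = -1)) ∨ (y = 1 ∧ (x = 0 ∨ x = 1 ∨ x = -1)) ∨
      (x = 0 ∧ y = 0)) (k : ℕ) :
    0 ≤ (f * g) (p ^ k) := by
  rw [mul_apply_prime_pow hp]
  rcases hxy with ⟨rfl, hy⟩ | ⟨rfl, hx⟩ | ⟨rfl, rfl⟩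
  · have : ∑ i ∈ range (k + 1), f (p ^ i) * g (p ^ (k - i)) = ∑ i ∈ range (k + 1), y ^ i := by
      rw [← Finset.sum_range_reflect (fun i => y ^ i)]
      refine Finset.sum_congr rfl fun i hi => ?_
      rw [hf, hg, one_pow, one_mul]
      congr 1
    rw [this]
    exact geom_nonneg hy k
  · have : ∑ i ∈ range (k + 1), f (p ^ i) * g (p ^ (k - i)) = ∑ i ∈ range (k + 1), x ^ i := by
      refine Finset.sum_congr rfl fun i hi => ?_
      rw [hf, hg, one_pow, mul_one]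
    rw [this]
    exact geom_nonneg hx k
  · refine Finset.sum_nonneg fun i _ => ?_
    rw [hf, hg]; positivity

/-- a multiplicative function which is nonnegative at prime powers is nonnegative -/
lemma nonneg_of_prime_pow {f : ArithmeticFunction ℝ} (hf : f.IsMultiplicative)
    (h : ∀ p : ℕ, p.Prime → ∀ k, 0 ≤ f (p ^ k)) (n : ℕ) : 0 ≤ f n := by
  rcases eq_or_ne n 0 with rfl | hn
  · simp
  · rw [hf.multiplicative_factorization _ hn]
    exact Finset.prod_nonneg fun p hp => h p (Nat.prime_of_mem_primeFactors hp) _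

/-- product of two locally nonnegative functions is locally nonnegative -/
lemma mul_prime_pow_nonneg {f g : ArithmeticFunction ℝ} {p : ℕ} (hp : p.Prime)
    (hf : ∀ k, 0 ≤ f (p ^ k)) (hg : ∀ k, 0 ≤ g (p ^ k)) (k : ℕ) : 0 ≤ (f * g) (p ^ k) := by
  rw [mul_apply_prime_pow hp]
  exact Finset.sum_nonneg fun i _ => mul_nonneg (hf _) (hg _)

/-- the real `zeta` arithmetic function -/
noncomputable def rzeta : ArithmeticFunction ℝ := ((ArithmeticFunction.zeta : ArithmeticFunction ℕ) :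
  ArithmeticFunction ℝ)

lemma rzeta_apply {n : ℕ} (hn : n ≠ 0) : rzeta n = 1 := by
  simp [rzeta, hn]

lemma isMultiplicative_rzeta : rzeta.IsMultiplicative := isMultiplicative_zeta.natCast

lemma rzeta_prime_pow {p : ℕ} (hp : p.Prime) (i : ℕ) : rzeta (p ^ i) = (1 : ℝ) ^ i := by
  rw [rzeta_apply (pow_ne_zero _ hp.ne_zero), one_pow]

/-- D1: `r = 1 * χ` -/
noncomputable def coeff1 {q : ℕ} (χ : DirichletCharacter ℂ q) : ArithmeticFunction ℝ :=
  rzeta * rchar χ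

lemma coeff1_nonneg {q : ℕ} {χ : DirichletCharacter ℂ q} (hχ : χ ^ 2 = 1) (n : ℕ) :
    0 ≤ coeff1 χ n := by
  refine nonneg_of_prime_pow (isMultiplicative_rzeta.mul (isMultiplicative_rchar hχ)) ?_ n
  intro p hp k
  exact pair_nonneg hp (rzeta_prime_pow hp) (fun i => rchar_pow hχ p i)
    (Or.inl ⟨rfl, rchar_cases hχ p⟩) k

lemma coeff1_one {q : ℕ} (χ : DirichletCharacter ℂ q) : coeff1 χ 1 = 1 := by
  rw [coeff1, ArithmeticFunction.mul_apply_one, rzeta_apply one_ne_zero, rchar_one, mul_one]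

/-- the local compatibility of a triple of quadratic characters -/
def LocalTriple {q₁ q₂ q₁₂ : ℕ} (χ₁ : DirichletCharacter ℂ q₁) (χ₂ : DirichletCharacter ℂ q₂)
    (χ₁₂ : DirichletCharacter ℂ q₁₂) : Prop :=
  ∀ p : ℕ, p.Prime →
    (χ₁ (p : ZMod q₁) ≠ 0 → χ₂ (p : ZMod q₂) ≠ 0 →
      χ₁₂ (p : ZMod q₁₂) = χ₁ (p : ZMod q₁) * χ₂ (p : ZMod q₂)) ∧
    (χ₁ (p : ZMod q₁) = 0 → χ₂ (p : ZMod q₂) ≠ 0 → χ₁₂ (p : ZMod q₁₂) = 0) ∧
    (χ₁ (p : ZMod q₁) ≠ 0 → χ₂ (p : ZMod q₂) = 0 → χ₁₂ (p : ZMod q₁₂) = 0)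

/-- D2: `a = 1 * χ₁ * χ₂ * χ₁₂` -/
noncomputable def coeff3 {q₁ q₂ q₁₂ : ℕ} (χ₁ : DirichletCharacter ℂ q₁)
    (χ₂ : DirichletCharacter ℂ q₂) (χ₁₂ : DirichletCharacter ℂ q₁₂) : ArithmeticFunction ℝ :=
  rzeta * rchar χ₁ * rchar χ₂ * rchar χ₁₂

lemma coeff3_one {q₁ q₂ q₁₂ : ℕ} (χ₁ : DirichletCharacter ℂ q₁)
    (χ₂ : DirichletCharacter ℂ q₂) (χ₁₂ : DirichletCharacter ℂ q₁₂) :
    coeff3 χ₁ χ₂ χ₁₂ 1 = 1 := by
  simp only [coeff3, ArithmeticFunction.mul_apply_one, rzeta_apply one_ne_zero, rchar_one, mul_one]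

lemma coeff3_nonneg {q₁ q₂ q₁₂ : ℕ} {χ₁ : DirichletCharacter ℂ q₁}
    {χ₂ : DirichletCharacter ℂ q₂} {χ₁₂ : DirichletCharacter ℂ q₁₂}
    (h₁ : χ₁ ^ 2 = 1) (h₂ : χ₂ ^ 2 = 1) (h₁₂ : χ₁₂ ^ 2 = 1) (hloc : LocalTriple χ₁ χ₂ χ₁₂)
    (n : ℕ) : 0 ≤ coeff3 χ₁ χ₂ χ₁₂ n := by
  refine nonneg_of_prime_pow (((isMultiplicative_rzeta.mul (isMultiplicative_rchar h₁)).mul
    (isMultiplicative_rchar h₂)).mul (isMultiplicative_rchar h₁₂)) ?_ n
  intro p hp k
  have hz := rzeta_prime_pow hp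
  have e₁ : ∀ i, rchar χ₁ (p ^ i) = rchar χ₁ p ^ i := fun i => rchar_pow h₁ p i
  have e₂ : ∀ i, rchar χ₂ (p ^ i) = rchar χ₂ p ^ i := fun i => rchar_pow h₂ p i
  have e₃ : ∀ i, rchar χ₁₂ (p ^ i) = rchar χ₁₂ p ^ i := fun i => rchar_pow h₁₂ p i
  have c₁ := rchar_cases h₁ p
  have c₂ := rchar_cases h₂ p
  have c₃ := rchar_cases h₁₂ p
  have hp0 := hp.ne_zero
  obtain ⟨l₁, l₂, l₃⟩ := hloc p hp
  -- transfer to real values
  have t₁ : rchar χ₁ p = (χ₁ (p : ZMod q₁)).re := rchar_apply χ₁ hp0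
  have t₂ : rchar χ₂ p = (χ₂ (p : ZMod q₂)).re := rchar_apply χ₂ hp0
  have t₃ : rchar χ₁₂ p = (χ₁₂ (p : ZMod q₁₂)).re := rchar_apply χ₁₂ hp0
  by_cases z₁ : χ₁ (p : ZMod q₁) = 0
  · by_cases z₂ : χ₂ (p : ZMod q₂) = 0
    · -- both zero: (1 * χ₁₂) * (χ₁ * χ₂)
      have r₁ : rchar χ₁ p = 0 := by rw [t₁, z₁]; simp
      have r₂ : rchar χ₂ p = 0 := by rw [t₂, z₂]; simp
      have : coeff3 χ₁ χ₂ χ₁₂ = (rzeta * rchar χ₁₂) * (rchar χ₁ * rchar χ₂) := by
        rw [coeff3]; ring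
      change 0 ≤ coeff3 χ₁ χ₂ χ₁₂ (p ^ k)
      rw [this]
      exact mul_prime_pow_nonneg hp (pair_nonneg hp hz e₃ (Or.inl ⟨rfl, c₃⟩))
        (pair_nonneg hp e₁ e₂ (Or.inr (Or.inr ⟨r₁, r₂⟩))) k
    · have r₁ : rchar χ₁ p = 0 := by rw [t₁, z₁]; simp
      have r₃ : rchar χ₁₂ p = 0 := by rw [t₃, l₂ z₁ z₂]; simp
      have : coeff3 χ₁ χ₂ χ₁₂ = (rzeta * rchar χ₂) * (rchar χ₁ * rchar χ₁₂) := by
        rw [coeff3]; ring
      change 0 ≤ coeff3 χ₁ χ₂ χ₁₂ (p ^ k)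
      rw [this]
      exact mul_prime_pow_nonneg hp (pair_nonneg hp hz e₂ (Or.inl ⟨rfl, c₂⟩))
        (pair_nonneg hp e₁ e₃ (Or.inr (Or.inr ⟨r₁, r₃⟩))) k
  · by_cases z₂ : χ₂ (p : ZMod q₂) = 0
    · have r₂ : rchar χ₂ p = 0 := by rw [t₂, z₂]; simp
      have r₃ : rchar χ₁₂ p = 0 := by rw [t₃, l₃ z₁ z₂]; simp
      have : coeff3 χ₁ χ₂ χ₁₂ = (rzeta * rchar χ₁) * (rchar χ₂ * rchar χ₁₂) := by
        rw [coeff3]; ring
      change 0 ≤ coeff3 χ₁ χ₂ χ₁₂ (p ^ k)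
      rw [this]
      exact mul_prime_pow_nonneg hp (pair_nonneg hp hz e₁ (Or.inl ⟨rfl, c₁⟩))
        (pair_nonneg hp e₂ e₃ (Or.inr (Or.inr ⟨r₂, r₃⟩))) k
    · have hprod := l₁ z₁ z₂
      have r₃ : rchar χ₁₂ p = rchar χ₁ p * rchar χ₂ p := by
        have : ((rchar χ₁₂ p : ℝ) : ℂ) = ((rchar χ₁ p * rchar χ₂ p : ℝ) : ℂ) := by
          push_cast
          rw [ofReal_rchar h₁ hp0, ofReal_rchar h₂ hp0, ofReal_rchar h₁₂ hp0, hprod]
        exact_mod_cast this
      have n₁ : rchar χ₁ p ≠ 0 := by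
        intro h
        apply z₁
        rw [← ofReal_rchar h₁ hp0, h]; simp
      have n₂ : rchar χ₂ p ≠ 0 := by
        intro h
        apply z₂
        rw [← ofReal_rchar h₂ hp0, h]; simp
      change 0 ≤ coeff3 χ₁ χ₂ χ₁₂ (p ^ k)
      rcases c₁ with h | h | h
      · exact absurd h n₁
      · -- χ₁(p) = 1: (1 * χ₂) * (χ₁ * χ₁₂)
        have : coeff3 χ₁ χ₂ χ₁₂ = (rzeta * rchar χ₂) * (rchar χ₁ * rchar χ₁₂) := by
          rw [coeff3]; ring
        rw [this]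
        exact mul_prime_pow_nonneg hp (pair_nonneg hp hz e₂ (Or.inl ⟨rfl, c₂⟩))
          (pair_nonneg hp e₁ e₃ (Or.inl ⟨h, c₃⟩)) k
      · rcases c₂ with h' | h' | h'
        · exact absurd h' n₂
        · -- χ₁ = -1, χ₂ = 1: (1 * χ₁) * (χ₂ * χ₁₂)
          have : coeff3 χ₁ χ₂ χ₁₂ = (rzeta * rchar χ₁) * (rchar χ₂ * rchar χ₁₂) := by
            rw [coeff3]; ring
          rw [this]
          exact mul_prime_pow_nonneg hp (pair_nonneg hp hz e₁ (Or.inl ⟨rfl, Or.inr (Or.inr h)⟩))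
            (pair_nonneg hp e₂ e₃ (Or.inl ⟨h', c₃⟩)) k
        · -- χ₁ = χ₂ = -1, χ₁₂ = 1
          have r : rchar χ₁₂ p = 1 := by rw [r₃, h, h']; norm_num
          have : coeff3 χ₁ χ₂ χ₁₂ = (rzeta * rchar χ₁) * (rchar χ₁₂ * rchar χ₂) := by
            rw [coeff3]; ring
          rw [this]
          exact mul_prime_pow_nonneg hp (pair_nonneg hp hz e₁ (Or.inl ⟨rfl, Or.inr (Or.inr h)⟩))
            (pair_nonneg hp e₃ e₂ (Or.inl ⟨r, Or.inr (Or.inr h')⟩)) k


section product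

open DirichletCharacter

lemma changeLevel_sq {q M : ℕ} {χ : DirichletCharacter ℂ q} (hχ : χ ^ 2 = 1) (h : q ∣ M) :
    (changeLevel h χ) ^ 2 = 1 := by
  rw [← map_pow, hχ, map_one]

lemma apply_ne_zero_iff_not_dvd {q : ℕ} (χ : DirichletCharacter ℂ q) {p : ℕ} (hp : p.Prime) :
    χ (p : ZMod q) ≠ 0 ↔ ¬ p ∣ q := by
  have := DirichletCharacter.apply_ne_zero_iff χ (p : ℤ)
  rw [Int.cast_natCast] at this
  rw [this, Nat.isCoprime_iff_coprime, hp.coprime_iff_not_dvd]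

/-- existence and local description of the primitive character inducing `χ₁ χ₂`. -/
theorem exists_prod_char {q₁ q₂ : ℕ} [NeZero q₁] [NeZero q₂] (χ₁ : DirichletCharacter ℂ q₁)
    (χ₂ : DirichletCharacter ℂ q₂) (p₁ : χ₁.IsPrimitive) (p₂ : χ₂.IsPrimitive)
    (h₁ : χ₁ ^ 2 = 1) (h₂ : χ₂ ^ 2 = 1)
    (hne : ¬ (q₁ = q₂ ∧ ∀ n : ℕ, χ₁ (n : ZMod q₁) = χ₂ (n : ZMod q₂))) :
    ∃ (q₁₂ : ℕ) (χ₁₂ : DirichletCharacter ℂ q₁₂), q₁₂ ≠ 0 ∧ χ₁₂.IsPrimitive ∧ χ₁₂ ≠ 1 ∧
      χ₁₂ ^ 2 = 1 ∧ q₁₂ ∣ Nat.lcm q₁ q₂ ∧ LocalTriple χ₁ χ₂ χ₁₂ := by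
  set M := Nat.lcm q₁ q₂ with hM
  have hM0 : M ≠ 0 := Nat.lcm_ne_zero (NeZero.ne q₁) (NeZero.ne q₂)
  have : NeZero M := ⟨hM0⟩
  have d₁ : q₁ ∣ M := Nat.dvd_lcm_left _ _
  have d₂ : q₂ ∣ M := Nat.dvd_lcm_right _ _
  let Ψ₁ : DirichletCharacter ℂ M := changeLevel d₁ χ₁
  let Ψ₂ : DirichletCharacter ℂ M := changeLevel d₂ χ₂
  let ψ : DirichletCharacter ℂ M := Ψ₁ * Ψ₂
  have hΨ₁ : Ψ₁ ^ 2 = 1 := changeLevel_sq h₁ d₁
  have hΨ₂ : Ψ₂ ^ 2 = 1 := changeLevel_sq h₂ d₂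
  have hψ : ψ ^ 2 = 1 := by
    change (Ψ₁ * Ψ₂) ^ 2 = 1
    rw [mul_pow, hΨ₁, hΨ₂, one_mul]
  have hc0 : ψ.conductor ≠ 0 := conductor_ne_zero ψ
  have hcd : ψ.conductor ∣ M := ψ.conductor_dvd_level
  have hcl : changeLevel hcd ψ.primitiveCharacter = ψ := changeLevel_primitiveCharacter ψ
  have : NeZero ψ.conductor := ⟨hc0⟩
  have hprimsq : ψ.primitiveCharacter ^ 2 = 1 := by
    apply changeLevel_injective (m := M) hcd
    rw [map_pow, hcl, hψ, map_one]
  have hψne : ψ ≠ 1 := by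
    intro h
    have hΨ : Ψ₁ = Ψ₂ := by
      have e1 : Ψ₁ * Ψ₂ = Ψ₂ * Ψ₂ := by
        rw [← sq, hΨ₂]; exact h
      exact mul_right_cancel e1
    have hcond : χ₁.conductor = χ₂.conductor := by
      rw [← conductor_changeLevel χ₁ d₁, ← conductor_changeLevel χ₂ d₂]
      exact congrArg _ hΨ
    have hq : q₁ = q₂ := by
      rw [← (isPrimitive_def χ₁).mp p₁, hcond, (isPrimitive_def χ₂).mp p₂]
    apply hne
    refine ⟨hq, ?_⟩
    subst hq
    have : χ₁ = χ₂ := changeLevel_injective (m := M) d₁ hΨ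
    intro n
    rw [this]
  refine ⟨ψ.conductor, ψ.primitiveCharacter, hc0, primitiveCharacter_isPrimitive ψ, ?_, hprimsq,
    hcd, ?_⟩
  · intro h
    apply hψne
    rw [← hcl, h, map_one]
  · intro p hp
    refine ⟨?_, ?_, ?_⟩
    · intro n₁ n₂
      rw [apply_ne_zero_iff_not_dvd χ₁ hp] at n₁
      rw [apply_ne_zero_iff_not_dvd χ₂ hp] at n₂
      have hpM : IsCoprime (p : ℤ) (M : ℤ) := by
        rw [Nat.isCoprime_iff_coprime, hp.coprime_iff_not_dvd]
        intro h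
        have : p ∣ q₁ * q₂ := h.trans (Nat.lcm_dvd_mul q₁ q₂)
        rcases hp.dvd_mul.mp this with h | h
        · exact n₁ h
        · exact n₂ h
      have e := primitiveCharacter_apply_of_isCoprime ψ hpM
      have e1 := changeLevel_eq_cast_of_dvd' χ₁ d₁ hpM
      have e2 := changeLevel_eq_cast_of_dvd' χ₂ d₂ hpM
      rw [Int.cast_natCast, Int.cast_natCast] at e e1 e2
      rw [e, ← e1, ← e2]
      rfl
    · intro z₁ n₂
      by_contra hne0
      have z₁' : p ∣ q₁ := by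
        by_contra hcon
        exact (apply_ne_zero_iff_not_dvd χ₁ hp).mpr hcon z₁
      rw [apply_ne_zero_iff_not_dvd χ₂ hp] at n₂
      have n₃ : ¬ p ∣ ψ.conductor := (apply_ne_zero_iff_not_dvd _ hp).mp hne0
      -- Ψ₁ = ψ * Ψ₂ factors through lcm
      have hΨ : Ψ₁ = ψ * Ψ₂ := by
        change Ψ₁ = Ψ₁ * Ψ₂ * Ψ₂
        rw [mul_assoc, ← sq, hΨ₂, mul_one]
      have h1 : (ψ * Ψ₂).conductor ∣ ψ.conductor.lcm Ψ₂.conductor :=
        conductor_mul_dvd_lcm_conductor ψ Ψ₂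
      rw [← hΨ] at h1
      have c1 : Ψ₁.conductor = q₁ := by
        rw [show Ψ₁ = changeLevel d₁ χ₁ from rfl, conductor_changeLevel, (isPrimitive_def χ₁).mp p₁]
      have c2 : Ψ₂.conductor = q₂ := by
        rw [show Ψ₂ = changeLevel d₂ χ₂ from rfl, conductor_changeLevel, (isPrimitive_def χ₂).mp p₂]
      rw [c1, c2] at h1
      have : p ∣ ψ.conductor * q₂ := (z₁'.trans h1).trans (Nat.lcm_dvd_mul _ _)
      rcases hp.dvd_mul.mp this with h | h
      · exact n₃ h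
      · exact n₂ h
    · intro n₁ z₂
      by_contra hne0
      have z₂' : p ∣ q₂ := by
        by_contra hcon
        exact (apply_ne_zero_iff_not_dvd χ₂ hp).mpr hcon z₂
      rw [apply_ne_zero_iff_not_dvd χ₁ hp] at n₁
      have n₃ : ¬ p ∣ ψ.conductor := (apply_ne_zero_iff_not_dvd _ hp).mp hne0
      have hΨ : Ψ₂ = ψ * Ψ₁ := by
        change Ψ₂ = Ψ₁ * Ψ₂ * Ψ₁
        rw [mul_comm Ψ₁ Ψ₂, mul_assoc, ← sq, hΨ₁, mul_one]
      have h1 : (ψ * Ψ₁).conductor ∣ ψ.conductor.lcm Ψ₁.conductor :=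
        conductor_mul_dvd_lcm_conductor ψ Ψ₁
      rw [← hΨ] at h1
      have c1 : Ψ₁.conductor = q₁ := by
        rw [show Ψ₁ = changeLevel d₁ χ₁ from rfl, conductor_changeLevel, (isPrimitive_def χ₁).mp p₁]
      have c2 : Ψ₂.conductor = q₂ := by
        rw [show Ψ₂ = changeLevel d₂ χ₂ from rfl, conductor_changeLevel, (isPrimitive_def χ₂).mp p₂]
      rw [c1, c2] at h1
      have : p ∣ ψ.conductor * q₁ := (z₂'.trans h1).trans (Nat.lcm_dvd_mul _ _)
      rcases hp.dvd_mul.mp this with h | h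
      · exact n₃ h
      · exact n₁ h

end product

section squares

/-- indicator of the positive squares -/
noncomputable def sqInd : ArithmeticFunction ℝ :=
  ⟨fun n => if n ≠ 0 ∧ IsSquare n then 1 else 0, by simp⟩

/-- indicator of the squarefree numbers -/
noncomputable def sfInd : ArithmeticFunction ℝ :=
  ⟨fun n => if Squarefree n then 1 else 0, by simp⟩

lemma sqInd_apply (n : ℕ) : sqInd n = if n ≠ 0 ∧ IsSquare n then 1 else 0 := rfl
lemma sfInd_apply (n : ℕ) : sfInd n = if Squarefree n then 1 else 0 := rfl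

lemma isMultiplicative_sfInd : sfInd.IsMultiplicative := by
  refine ⟨by simp [sfInd_apply], fun {m n} h => ?_⟩
  simp only [sfInd_apply]
  have key := Nat.squarefree_mul_iff (m := m) (n := n)
  by_cases hm : Squarefree m <;> by_cases hn : Squarefree n <;> simp [hm, hn, h, key]

lemma isMultiplicative_sqInd : sqInd.IsMultiplicative := by
  refine ⟨by simp [sqInd_apply], fun {m n} h => ?_⟩
  simp only [sqInd_apply]
  rcases eq_or_ne m 0 with rfl | hm
  · simp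
  rcases eq_or_ne n 0 with rfl | hn
  · simp
  have key : IsSquare (m * n) ↔ IsSquare m ∧ IsSquare n := by
    constructor
    · intro hs
      obtain ⟨c, hc⟩ := hs
      have hu : IsUnit (gcd m n) := by
        have : gcd m n = 1 := h
        rw [this]; exact isUnit_one
      have hu' : IsUnit (gcd n m) := by
        have : gcd n m = 1 := h.symm
        rw [this]; exact isUnit_one
      obtain ⟨d, hd⟩ := exists_eq_pow_of_mul_eq_pow hu (k := 2) (c := c) (by rw [hc, sq])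
      obtain ⟨e, he⟩ := exists_eq_pow_of_mul_eq_pow hu' (k := 2) (c := c)
        (by rw [mul_comm, hc, sq])
      exact ⟨⟨d, by rw [hd, sq]⟩, ⟨e, by rw [he, sq]⟩⟩
    · rintro ⟨ha, hb⟩
      exact ha.mul hb
  by_cases h1 : IsSquare m <;> by_cases h2 : IsSquare n <;> simp [hm, hn, h1, h2, key]

lemma sqInd_prime_pow {p : ℕ} (hp : p.Prime) (k : ℕ) :
    sqInd (p ^ k) = if Even k then 1 else 0 := by
  rw [sqInd_apply]
  have h0 : p ^ k ≠ 0 := pow_ne_zero _ hp.ne_zero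
  have key : IsSquare (p ^ k) ↔ Even k := by
    constructor
    · rintro ⟨c, hc⟩
      have hc0 : c ≠ 0 := by
        rintro rfl
        simp at hc
        exact hp.ne_zero hc.1
      have h := congrArg (fun m => m.factorization p) hc
      simp only [hp.factorization_pow, Finsupp.single_eq_same,
        Nat.factorization_mul hc0 hc0, Finsupp.add_apply] at h
      exact ⟨_, h⟩
    · rintro ⟨c, hc⟩
      exact ⟨p ^ c, by rw [hc, pow_add]⟩
  simp only [ne_eq, h0, not_false_eq_true, true_and, key]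

lemma sfInd_prime_pow {p : ℕ} (hp : p.Prime) (k : ℕ) :
    sfInd (p ^ k) = if k ≤ 1 then 1 else 0 := by
  rw [sfInd_apply]
  have key : Squarefree (p ^ k) ↔ k ≤ 1 := by
    constructor
    · intro h
      by_contra hk
      push Not at hk
      have : p * p ∣ p ^ k := by
        rw [← sq]; exact pow_dvd_pow p hk
      have := h p this
      exact hp.not_isUnit this
    · intro h
      interval_cases k
      · simp
      · simpa using hp.prime.squarefree
  simp [key]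

lemma sqInd_mul_sfInd : sqInd * sfInd = rzeta := by
  rw [ArithmeticFunction.IsMultiplicative.eq_iff_eq_on_prime_powers _
    (isMultiplicative_sqInd.mul isMultiplicative_sfInd) _ isMultiplicative_rzeta]
  intro p k hp
  rw [mul_apply_prime_pow hp, rzeta_prime_pow hp, one_pow]
  rcases Nat.even_or_odd k with hk | hk
  · rw [Finset.sum_eq_single k]
    · rw [sqInd_prime_pow hp, sfInd_prime_pow hp]; simp [hk]
    · intro i hi hik
      rw [Finset.mem_range] at hi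
      rw [sqInd_prime_pow hp, sfInd_prime_pow hp]
      by_cases he : Even i
      · have : ¬ (k - i ≤ 1) := by
          intro h
          obtain ⟨a, ha⟩ := hk
          obtain ⟨b, hb⟩ := he
          omega
        simp [this]
      · simp [he]
    · intro h; simp at h
  · have hk1 : 1 ≤ k := hk.pos
    rw [Finset.sum_eq_single (k - 1)]
    · rw [sqInd_prime_pow hp, sfInd_prime_pow hp]
      have : Even (k - 1) := by
        obtain ⟨a, ha⟩ := hk
        exact ⟨a, by omega⟩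
      have h2 : k - (k - 1) ≤ 1 := by omega
      simp [this, h2]
    · intro i hi hik
      rw [Finset.mem_range] at hi
      rw [sqInd_prime_pow hp, sfInd_prime_pow hp]
      by_cases he : Even i
      · have : ¬ (k - i ≤ 1) := by
          intro h
          obtain ⟨a, ha⟩ := hk
          obtain ⟨b, hb⟩ := he
          omega
        simp [this]
      · simp [he]
    · intro h
      exfalso
      apply h
      rw [Finset.mem_range]; omega

/-- D3: `rstar = μ² * χ` -/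
noncomputable def rstar {q : ℕ} (χ : DirichletCharacter ℂ q) : ArithmeticFunction ℝ :=
  sfInd * rchar χ

lemma coeff1_eq_sqInd_mul_rstar {q : ℕ} (χ : DirichletCharacter ℂ q) :
    coeff1 χ = sqInd * rstar χ := by
  rw [coeff1, rstar, ← mul_assoc, sqInd_mul_sfInd]

lemma rstar_one {q : ℕ} (χ : DirichletCharacter ℂ q) : rstar χ 1 = 1 := by
  rw [rstar, ArithmeticFunction.mul_apply_one, rchar_one, mul_one, sfInd_apply]
  simp

lemma rstar_nonneg {q : ℕ} {χ : DirichletCharacter ℂ q} (hχ : χ ^ 2 = 1) (n : ℕ) :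
    0 ≤ rstar χ n := by
  refine nonneg_of_prime_pow (isMultiplicative_sfInd.mul (isMultiplicative_rchar hχ)) ?_ n
  intro p hp k
  rw [mul_apply_prime_pow hp]
  rcases k with _ | k
  · simp [sfInd_apply, rchar_one]
  · rw [Finset.sum_range_succ', Finset.sum_range_succ']
    have h0 : ∑ i ∈ range k, sfInd (p ^ (i + 1 + 1)) * rchar χ (p ^ (k + 1 - (i + 1 + 1))) = 0 := by
      refine Finset.sum_eq_zero fun i _ => ?_
      rw [sfInd_prime_pow hp]
      simp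
    rw [h0]
    simp only [zero_add, pow_one, pow_zero]
    rw [show sfInd p = 1 by
      have := sfInd_prime_pow hp 1
      simpa using this, show sfInd 1 = 1 by simp [sfInd_apply]]
    have e1 : k + 1 - 1 = k := by omega
    have e2 : k + 1 - 0 = k + 1 := by omega
    rw [e1, e2, one_mul, one_mul, rchar_pow hχ, rchar_pow hχ, pow_succ]
    rcases rchar_cases hχ p with h | h | h
    · rw [h]; simp
    · rw [h]; simp
    · rw [h]; ring_nf; simp

end squares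

end Pool.Agent.MP0016c7
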