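import Mathlib

open Real Set MeasureTheory Filter Topology

namespace Pool.Agent.MP0016c7.Ros

lemma card_le_of_diam {E : Finset ℕ} {R : ℝ} (hR : 0 ≤ R)
    (h : ∀ m ∈ E, ∀ n ∈ E, m ≤ n → (n : ℝ) - m ≤ R) : (E.card : ℝ) ≤ R + 1 := by
  rcases E.eq_empty_or_nonempty with rfl | hne
  · simp; linarith
  set m := E.min' hne with hm
  have hm' : m ∈ E := E.min'_mem hne
  have hsub : E ⊆ Finset.Icc m (m + ⌊R⌋₊) := by
    intro n hn
    have hmn : m ≤ n := E.min'_le n hn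
    rw [Finset.mem_Icc]
    refine ⟨hmn, ?_⟩
    have h1 := h m hm' n hn hmn
    have h2 : ((n - m : ℕ) : ℝ) ≤ R := by
      rw [Nat.cast_sub hmn]; exact h1
    have h3 := Nat.le_floor h2
    omega
  have h1 := Finset.card_le_card hsub
  rw [Nat.card_Icc] at h1
  have h2 : E.card ≤ ⌊R⌋₊ + 1 := by omega
  calc (E.card : ℝ) ≤ ((⌊R⌋₊ + 1 : ℕ) : ℝ) := by exact_mod_cast h2
    _ = ⌊R⌋₊ + 1 := by push_cast; ring
    _ ≤ R + 1 := by linarith [Nat.floor_le hR]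

end Pool.Agent.MP0016c7.Ros
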