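import Mathlib

open Real Set MeasureTheory Filter Topology

namespace Pool.Agent.MP0016c7.Ros

/-! ### Unimodular exponentials -/

/-- `ex x = exp(i x)` -/
noncomputable def ex (x : ℝ) : ℂ := Complex.exp (x * Complex.I)

lemma ex_add (x y : ℝ) : ex (x + y) = ex x * ex y := by
  unfold ex; rw [← Complex.exp_add]; push_cast; ring_nf

@[simp] lemma ex_zero : ex 0 = 1 := by simp [ex]

@[simp] lemma norm_ex (x : ℝ) : ‖ex x‖ = 1 := by unfold ex; exact Complex.norm_exp_ofReal_mul_I x

lemma ex_neg_mul (x : ℝ) : ex (-x) * ex x = 1 := by rw [← ex_add]; simp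

@[fun_prop] lemma continuous_ex : Continuous ex := by unfold ex; fun_prop

lemma ex_re (x : ℝ) : (ex x).re = cos x := by
  unfold ex; rw [Complex.exp_ofReal_mul_I_re]

lemma ex_im (x : ℝ) : (ex x).im = sin x := by
  unfold ex; rw [Complex.exp_ofReal_mul_I_im]

lemma ex_sum {ι : Type*} (s : Finset ι) (f : ι → ℝ) : ex (∑ i ∈ s, f i) = ∏ i ∈ s, ex (f i) := by
  classical
  induction s using Finset.induction_on with
  | empty => simp
  | insert a s ha ih => rw [Finset.sum_insert ha, Finset.prod_insert ha, ex_add, ih]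

lemma norm_one_sub_ex_sq (x : ℝ) : ‖1 - ex x‖ ^ 2 = 2 - 2 * cos x := by
  rw [← Complex.normSq_eq_norm_sq, Complex.normSq_apply]
  simp only [Complex.sub_re, Complex.one_re, Complex.sub_im, Complex.one_im, ex_re, ex_im]
  nlinarith only [sin_sq_add_cos_sq x]

lemma norm_one_sub_ex_le (x : ℝ) : ‖1 - ex x‖ ≤ |x| := by
  have h := norm_one_sub_ex_sq x
  have h2 : 2 - 2 * cos x ≤ x ^ 2 := by
    have := one_sub_sq_div_two_le_cos (x := x)
    linarith only [this]
  have h3 : ‖1 - ex x‖ ^ 2 ≤ |x| ^ 2 := by rw [h, sq_abs]; exact h2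
  exact (sq_le_sq₀ (norm_nonneg _) (abs_nonneg _)).mp h3

lemma norm_one_sub_ex_le_two (x : ℝ) : ‖1 - ex x‖ ≤ 2 := by
  calc ‖1 - ex x‖ ≤ ‖(1 : ℂ)‖ + ‖ex x‖ := norm_sub_le _ _
    _ = 2 := by rw [norm_ex]; norm_num

/-! ### The band limited kernel -/

/-- parabola bump -/
noncomputable def psi0 (a : ℝ) : ℝ := max (1 - a ^ 2) 0

lemma psi0_nonneg (a : ℝ) : 0 ≤ psi0 a := le_max_right _ _
lemma psi0_le_one (a : ℝ) : psi0 a ≤ 1 := max_le (by nlinarith only [sq_nonneg a]) zero_le_one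
@[fun_prop] lemma continuous_psi0 : Continuous psi0 := by unfold psi0; fun_prop

lemma psi0_eq_zero {a : ℝ} (h : 1 ≤ |a|) : psi0 a = 0 := by
  unfold psi0
  apply max_eq_right
  have : 1 ≤ a ^ 2 := by rw [← sq_abs]; nlinarith
  linarith

lemma psi0_eq {a : ℝ} (h : |a| ≤ 1) : psi0 a = 1 - a ^ 2 := by
  unfold psi0
  apply max_eq_left
  have : a ^ 2 ≤ 1 := by rw [← sq_abs]; nlinarith only [h, abs_nonneg a]
  linarith

lemma psi0_neg (a : ℝ) : psi0 (-a) = psi0 a := by unfold psi0; simp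

lemma hasCompactSupport_psi0 : HasCompactSupport psi0 := by
  apply HasCompactSupport.intro (isCompact_Icc (a := (-1 : ℝ)) (b := 1))
  intro x hx
  apply psi0_eq_zero
  rw [mem_Icc, not_and_or] at hx
  rcases hx with h | h
  · rw [le_abs]; right; linarith
  · rw [le_abs]; left; linarith

lemma integrable_psi0 : Integrable psi0 :=
  continuous_psi0.integrable_of_hasCompactSupport hasCompactSupport_psi0

/-- The kernel `F`. -/
noncomputable def Fk (w : ℝ) : ℝ := ∫ a in (-1 : ℝ)..1, (1 - a ^ 2) * cos (a * w)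

lemma integral_psi0_ex (w : ℝ) : ∫ a, (psi0 a : ℂ) * ex (a * w) = (Fk w : ℂ) := by
  have h1 : ∫ a, (psi0 a : ℂ) * ex (a * w) = ∫ a in (-1 : ℝ)..1, (psi0 a : ℂ) * ex (a * w) := by
    rw [intervalIntegral.integral_of_le (by norm_num)]
    symm
    apply setIntegral_eq_integral_of_forall_compl_eq_zero
    intro x hx
    have : psi0 x = 0 := by
      apply psi0_eq_zero
      rw [mem_Ioc, not_and_or, not_lt, not_le] at hx
      rcases hx with h | h
      · rw [le_abs]; right; linarith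
      · rw [le_abs]; left; linarith
    rw [this]; simp
  rw [h1]
  have h2 : ∫ a in (-1 : ℝ)..1, (psi0 a : ℂ) * ex (a * w) =
      ∫ a in (-1 : ℝ)..1, (((1 - a ^ 2) * cos (a * w) : ℝ) : ℂ) +
        (((1 - a ^ 2) * sin (a * w) : ℝ) : ℂ) * Complex.I := by
    apply intervalIntegral.integral_congr
    intro a ha
    rw [uIcc_of_le (by norm_num)] at ha
    have ha' : |a| ≤ 1 := abs_le.mpr ⟨ha.1, ha.2⟩
    simp only
    rw [psi0_eq ha']
    unfold ex
    rw [Complex.exp_mul_I]
    push_cast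
    ring
  rw [h2, intervalIntegral.integral_add, intervalIntegral.integral_mul_const,
    intervalIntegral.integral_ofReal, intervalIntegral.integral_ofReal]
  · have h3 : ∫ a in (-1 : ℝ)..1, (1 - a ^ 2) * sin (a * w) = 0 := by
      have h4 : ∫ a in (-1 : ℝ)..1, (1 - a ^ 2) * sin (a * w) =
          ∫ a in (-1 : ℝ)..1, (1 - (-a) ^ 2) * sin (-a * w) := by
        rw [intervalIntegral.integral_comp_neg (fun a => (1 - a ^ 2) * sin (a * w))]
        simp
      have h5 : ∫ a in (-1 : ℝ)..1, (1 - (-a) ^ 2) * sin (-a * w) =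
          - ∫ a in (-1 : ℝ)..1, (1 - a ^ 2) * sin (a * w) := by
        rw [← intervalIntegral.integral_neg]
        apply intervalIntegral.integral_congr
        intro a _
        simp only [neg_mul, sin_neg]
        ring
      linarith
    rw [h3]
    unfold Fk
    simp
  · apply Continuous.intervalIntegrable; fun_prop
  · apply Continuous.intervalIntegrable; fun_prop

lemma Fk_closed {w : ℝ} (hw : w ≠ 0) : Fk w = 4 * (sin w - w * cos w) / w ^ 3 := by
  have hd : ∀ a : ℝ, HasDerivAt (fun a : ℝ => (1 - a ^ 2) * (sin (a * w) / w) -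
      2 * (a * cos (a * w)) / w ^ 2 + 2 * sin (a * w) / w ^ 3) ((1 - a ^ 2) * cos (a * w)) a := by
    intro a
    have h1 : HasDerivAt (fun a : ℝ => a * w) w a := by simpa using (hasDerivAt_id' a).mul_const w
    have h2 : HasDerivAt (fun a : ℝ => sin (a * w)) (cos (a * w) * w) a :=
      (Real.hasDerivAt_sin _).comp a h1
    have h3 : HasDerivAt (fun a : ℝ => cos (a * w)) (-sin (a * w) * w) a :=
      (Real.hasDerivAt_cos _).comp a h1
    have h4 : HasDerivAt (fun a : ℝ => 1 - a ^ 2) (-(2 * a)) a := by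
      simpa using ((hasDerivAt_id' a).fun_pow 2).const_sub 1
    have h5 := h4.fun_mul (h2.div_const w)
    have h6 := (((hasDerivAt_id' a).fun_mul h3).const_mul 2).div_const (w ^ 2)
    have h7 := (h2.const_mul 2).div_const (w ^ 3)
    refine ((h5.fun_sub h6).fun_add h7).congr_deriv ?_
    field_simp
    ring
  unfold Fk
  rw [intervalIntegral.integral_eq_sub_of_hasDerivAt (fun a _ => hd a)
    (by apply Continuous.intervalIntegrable; fun_prop)]
  simp only [neg_mul, one_mul, sin_neg, cos_neg]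
  field_simp
  ring

lemma Fk_abs_le (w : ℝ) : |Fk w| ≤ 4 / 3 := by
  unfold Fk
  have h1 : |∫ a in (-1 : ℝ)..1, (1 - a ^ 2) * cos (a * w)| ≤
      ∫ a in (-1 : ℝ)..1, |(1 - a ^ 2) * cos (a * w)| :=
    intervalIntegral.abs_integral_le_integral_abs (by norm_num)
  refine h1.trans ?_
  have h2 : ∫ a in (-1 : ℝ)..1, |(1 - a ^ 2) * cos (a * w)| ≤
      ∫ a in (-1 : ℝ)..1, (1 - a ^ 2) := by
    apply intervalIntegral.integral_mono_on (by norm_num)
    · apply Continuous.intervalIntegrable; fun_prop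
    · apply Continuous.intervalIntegrable; fun_prop
    · intro a ha
      have h3 : 0 ≤ 1 - a ^ 2 := by nlinarith [ha.1, ha.2]
      rw [abs_mul, abs_of_nonneg h3]
      have := abs_cos_le_one (a * w)
      nlinarith only [h3, this]
  refine h2.trans (le_of_eq ?_)
  rw [intervalIntegral.integral_sub (by simp) (by simp)]
  simp
  norm_num

lemma Fk_abs_mul_sq_le (w : ℝ) : |Fk w| * w ^ 2 ≤ 8 := by
  rcases eq_or_ne w 0 with rfl | hw
  · simp
  · rw [Fk_closed hw, abs_div, abs_mul, abs_pow]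
    have hw' : 0 < |w| := abs_pos.mpr hw
    have h1 : |sin w - w * cos w| ≤ 2 * |w| := by
      calc |sin w - w * cos w| ≤ |sin w| + |w * cos w| := abs_sub _ _
        _ ≤ |w| + |w| * 1 := by
            apply add_le_add abs_sin_le_abs
            rw [abs_mul]
            exact mul_le_mul_of_nonneg_left (abs_cos_le_one w) hw'.le
        _ = 2 * |w| := by ring
    have h2 : w ^ 2 = |w| ^ 2 := (sq_abs w).symm
    rw [h2, abs_of_pos (by norm_num : (0 : ℝ) < 4), div_mul_eq_mul_div, div_le_iff₀ (by positivity)]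
    have h3 : 4 * |sin w - w * cos w| * |w| ^ 2 ≤ 4 * (2 * |w|) * |w| ^ 2 := by gcongr
    calc 4 * |sin w - w * cos w| * |w| ^ 2 ≤ 4 * (2 * |w|) * |w| ^ 2 := h3
      _ = 8 * |w| ^ 3 := by ring

lemma Fk_ge_one {w : ℝ} (hw : |w| ≤ 1) : 1 ≤ Fk w := by
  unfold Fk
  have h1 : ∫ a in (-1 : ℝ)..1, (1 - a ^ 2) * (1 - (a * w) ^ 2 / 2) ≤
      ∫ a in (-1 : ℝ)..1, (1 - a ^ 2) * cos (a * w) := by
    apply intervalIntegral.integral_mono_on (by norm_num)
    · apply Continuous.intervalIntegrable; fun_prop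
    · apply Continuous.intervalIntegrable; fun_prop
    · intro a ha
      have h3 : 0 ≤ 1 - a ^ 2 := by nlinarith [ha.1, ha.2]
      exact mul_le_mul_of_nonneg_left one_sub_sq_div_two_le_cos h3
  refine le_trans ?_ h1
  have h2 : ∀ a : ℝ, (1 - a ^ 2) * (1 - (a * w) ^ 2 / 2) =
      1 - (1 + w ^ 2 / 2) * a ^ 2 + w ^ 2 / 2 * a ^ 4 := by intro a; ring
  simp_rw [h2]
  have hc1 : IntervalIntegrable (fun a : ℝ => 1 - (1 + w ^ 2 / 2) * a ^ 2) volume (-1) 1 := by
    apply Continuous.intervalIntegrable; fun_prop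
  have hc2 : IntervalIntegrable (fun a : ℝ => w ^ 2 / 2 * a ^ 4) volume (-1) 1 := by
    apply Continuous.intervalIntegrable; fun_prop
  have hc3 : IntervalIntegrable (fun a : ℝ => (1 + w ^ 2 / 2) * a ^ 2) volume (-1) 1 := by
    apply Continuous.intervalIntegrable; fun_prop
  rw [intervalIntegral.integral_add hc1 hc2, intervalIntegral.integral_sub (by simp) hc3,
    intervalIntegral.integral_const_mul, intervalIntegral.integral_const_mul, integral_pow,
    integral_pow]
  simp
  have hw2 : w ^ 2 ≤ 1 := by rw [← sq_abs]; nlinarith only [hw, abs_nonneg w]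
  norm_num
  linarith

lemma continuous_Fk : Continuous Fk := by
  unfold Fk
  apply intervalIntegral.continuous_parametric_intervalIntegral_of_continuous'
  fun_prop

/-- The nonnegative band limited kernel `K = F²`. -/
noncomputable def Kk (w : ℝ) : ℝ := Fk w ^ 2

@[fun_prop] lemma continuous_Kk : Continuous Kk := by unfold Kk; exact continuous_Fk.pow 2

lemma Kk_nonneg (w : ℝ) : 0 ≤ Kk w := sq_nonneg _

lemma Kk_ge_one {w : ℝ} (hw : |w| ≤ 1) : 1 ≤ Kk w := by
  unfold Kk; have := Fk_ge_one hw; nlinarith only [this]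

lemma Kk_le_two (w : ℝ) : Kk w ≤ 2 := by
  unfold Kk
  have := Fk_abs_le w
  rw [← sq_abs]
  nlinarith only [this, abs_nonneg (Fk w)]

lemma Kk_bound (w : ℝ) : Kk w * (1 + w ^ 2) ^ 2 ≤ 88 := by
  have h1 := Fk_abs_le w
  have h2 := Fk_abs_mul_sq_le w
  have h0 := abs_nonneg (Fk w)
  have h3 : Kk w = |Fk w| ^ 2 := by unfold Kk; rw [sq_abs]
  rw [h3]
  have h4 : (|Fk w| * (1 + w ^ 2)) ^ 2 ≤ (4 / 3 + 8) ^ 2 := by
    apply pow_le_pow_left₀ (by positivity)
    nlinarith only [h1, h2]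
  have h5 : (|Fk w| * (1 + w ^ 2)) ^ 2 = |Fk w| ^ 2 * (1 + w ^ 2) ^ 2 := by ring
  rw [← h5]
  nlinarith only [h4, mul_nonneg h0 (sq_nonneg w)]

lemma Kk_le (w : ℝ) : Kk w ≤ 88 / (1 + w ^ 2) ^ 2 := by
  rw [le_div_iff₀ (by positivity)]; exact Kk_bound w

lemma Kk_le' (w : ℝ) : Kk w ≤ 88 * (1 + w ^ 2)⁻¹ := by
  have h1 : (1 : ℝ) ≤ 1 + w ^ 2 := by nlinarith [sq_nonneg w]
  have h2 := Kk_bound w
  rw [← div_eq_mul_inv, le_div_iff₀ (by positivity)]
  have h3 : Kk w * (1 + w ^ 2) ≤ Kk w * (1 + w ^ 2) ^ 2 := by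
    apply mul_le_mul_of_nonneg_left _ (Kk_nonneg w)
    nlinarith
  linarith

lemma sq_mul_Kk_le (w : ℝ) : w ^ 2 * Kk w ≤ 88 * (1 + w ^ 2)⁻¹ := by
  have h1 : (1 : ℝ) ≤ 1 + w ^ 2 := by nlinarith only [sq_nonneg w]
  have h2 := Kk_bound w
  rw [← div_eq_mul_inv, le_div_iff₀ (by positivity)]
  have h3 : w ^ 2 * Kk w * (1 + w ^ 2) ≤ Kk w * (1 + w ^ 2) ^ 2 := by
    have : w ^ 2 * (1 + w ^ 2) ≤ (1 + w ^ 2) ^ 2 := by nlinarith
    calc w ^ 2 * Kk w * (1 + w ^ 2) = Kk w * (w ^ 2 * (1 + w ^ 2)) := by ring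
      _ ≤ _ := mul_le_mul_of_nonneg_left this (Kk_nonneg w)
  linarith

lemma integrable_Kk : Integrable Kk := by
  refine Integrable.mono' (integrable_inv_one_add_sq.const_mul 88)
    continuous_Kk.aestronglyMeasurable ?_
  filter_upwards with w
  rw [Real.norm_eq_abs, abs_of_nonneg (Kk_nonneg w)]
  exact Kk_le' w

lemma integrable_sq_Kk : Integrable (fun w => w ^ 2 * Kk w) := by
  refine Integrable.mono' (integrable_inv_one_add_sq.const_mul 88)
    (by fun_prop) ?_
  filter_upwards with w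
  rw [Real.norm_eq_abs, abs_of_nonneg (mul_nonneg (sq_nonneg w) (Kk_nonneg w))]
  exact sq_mul_Kk_le w

/-- mass of `K` -/
noncomputable def cK : ℝ := ∫ w, Kk w

lemma cK_ge : 2 ≤ cK := by
  unfold cK
  have h1 : ∫ w in Icc (-1 : ℝ) 1, Kk w ≤ ∫ w, Kk w :=
    setIntegral_le_integral integrable_Kk (Filter.Eventually.of_forall Kk_nonneg)
  have h2 : ∫ w in Icc (-1 : ℝ) 1, (1 : ℝ) ≤ ∫ w in Icc (-1 : ℝ) 1, Kk w := by
    apply setIntegral_mono_on (by simp) integrable_Kk.integrableOn measurableSet_Icc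
    intro w hw
    exact Kk_ge_one (abs_le.mpr ⟨hw.1, hw.2⟩)
  have h3 : ∫ w in Icc (-1 : ℝ) 1, (1 : ℝ) = 2 := by simp; norm_num
  linarith

lemma cK_pos : 0 < cK := by have := cK_ge; linarith

/-- The transform of `K`. -/
noncomputable def gk (x : ℝ) : ℝ := ∫ a, psi0 a * psi0 (x - a)

lemma integrable_psi_mul (x : ℝ) : Integrable fun a => psi0 a * psi0 (x - a) := by
  refine Integrable.mono' integrable_psi0 (by fun_prop) ?_
  filter_upwards with a
  rw [Real.norm_eq_abs, abs_of_nonneg (mul_nonneg (psi0_nonneg _) (psi0_nonneg _))]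
  exact mul_le_of_le_one_right (psi0_nonneg _) (psi0_le_one _)

lemma gk_nonneg (x : ℝ) : 0 ≤ gk x :=
  integral_nonneg fun a => mul_nonneg (psi0_nonneg _) (psi0_nonneg _)

lemma integral_psi0 : ∫ a, psi0 a = 4 / 3 := by
  have h := integral_psi0_ex 0
  simp only [mul_zero, ex_zero, mul_one] at h
  rw [integral_complex_ofReal] at h
  have h2 : ∫ a, psi0 a = Fk 0 := by exact_mod_cast h
  rw [h2]
  unfold Fk
  simp only [mul_zero, cos_zero, mul_one]
  rw [intervalIntegral.integral_sub (by simp) (by simp)]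
  simp
  norm_num

lemma gk_le (x : ℝ) : gk x ≤ 4 / 3 := by
  rw [← integral_psi0]
  unfold gk
  apply integral_mono (integrable_psi_mul x) integrable_psi0
  intro a
  exact mul_le_of_le_one_right (psi0_nonneg _) (psi0_le_one _)

lemma gk_eq_zero {x : ℝ} (hx : 2 ≤ |x|) : gk x = 0 := by
  unfold gk
  have : ∀ a, psi0 a * psi0 (x - a) = 0 := by
    intro a
    rcases le_or_gt 1 |a| with h | h
    · rw [psi0_eq_zero h, zero_mul]
    · have : 1 ≤ |x - a| := by
        have := abs_sub_abs_le_abs_sub x a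
        linarith
      rw [psi0_eq_zero this, mul_zero]
  simp [this]

lemma gk_zero_pos : 0 < gk 0 := by
  unfold gk
  rw [integral_pos_iff_support_of_nonneg (fun a => mul_nonneg (psi0_nonneg _) (psi0_nonneg _))
    (integrable_psi_mul 0)]
  have h : Ioo (-1 : ℝ) 1 ⊆ Function.support fun a => psi0 a * psi0 (0 - a) := by
    intro a ha
    rw [Function.mem_support, zero_sub, psi0_neg, psi0_eq (abs_le.mpr ⟨ha.1.le, ha.2.le⟩)]
    have : 0 < 1 - a ^ 2 := by nlinarith only [ha, ha.1, ha.2]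
    positivity
  refine lt_of_lt_of_le ?_ (measure_mono h)
  rw [Real.volume_Ioo]
  norm_num

@[fun_prop] lemma continuous_gk : Continuous gk := by
  have h : gk = MeasureTheory.convolution psi0 psi0 (ContinuousLinearMap.mul ℝ ℝ) volume := by
    ext x; rfl
  rw [h]
  exact hasCompactSupport_psi0.continuous_convolution_right _
    integrable_psi0.locallyIntegrable continuous_psi0

lemma hasCompactSupport_gk : HasCompactSupport gk := by
  apply HasCompactSupport.intro (isCompact_Icc (a := (-2 : ℝ)) (b := 2))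
  intro x hx
  apply gk_eq_zero
  rw [mem_Icc, not_and_or, not_le, not_le] at hx
  rcases hx with h | h
  · rw [le_abs]; right; linarith
  · rw [le_abs]; left; linarith

lemma integrable_gk : Integrable gk :=
  continuous_gk.integrable_of_hasCompactSupport hasCompactSupport_gk

lemma integral_gk_ex (w : ℝ) : ∫ x, (gk x : ℂ) * ex (x * w) = (Kk w : ℂ) := by
  have hf : Integrable fun a : ℝ => (psi0 a : ℂ) * ex (a * w) := by
    refine (integrable_psi0.ofReal (𝕜 := ℂ)).mul_bdd (c := 1) (by fun_prop) ?_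
    filter_upwards with a
    simp
  have h1 := MeasureTheory.integral_convolution (L := ContinuousLinearMap.mul ℂ ℂ)
    (μ := (volume : Measure ℝ)) (ν := (volume : Measure ℝ)) hf hf
  have h2 : ∀ x : ℝ, MeasureTheory.convolution (fun a : ℝ => (psi0 a : ℂ) * ex (a * w))
      (fun a : ℝ => (psi0 a : ℂ) * ex (a * w)) (ContinuousLinearMap.mul ℂ ℂ) volume x =
      (gk x : ℂ) * ex (x * w) := by
    intro x
    unfold MeasureTheory.convolution
    simp only [ContinuousLinearMap.mul_apply']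
    have h3 : ∀ a : ℝ, (psi0 a : ℂ) * ex (a * w) * ((psi0 (x - a) : ℂ) * ex ((x - a) * w)) =
        ((psi0 a * psi0 (x - a) : ℝ) : ℂ) * ex (x * w) := by
      intro a
      have : ex (x * w) = ex (a * w) * ex ((x - a) * w) := by
        rw [← ex_add]; congr 1; ring
      rw [this]; push_cast; ring
    simp_rw [h3]
    rw [integral_mul_const, integral_complex_ofReal]
    rfl
  simp_rw [h2] at h1
  rw [h1, integral_psi0_ex]
  unfold Kk
  simp
  ring

end Pool.Agent.MP0016c7.Ros
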