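import Mathlib
import Pool.Agent.Lib.MP_0016c7_nt.RosKernel

open Real Set MeasureTheory Filter Topology

namespace Pool.Agent.MP0016c7.Ros

/-! ### The product measure on subsets -/

variable (P : Finset ℕ) (x l : ℕ → ℝ)

/-- weight -/
noncomputable def Wt (A : Finset ℕ) : ℝ := ∏ p ∈ A, x p

/-- sum of logarithms -/
noncomputable def Sm (A : Finset ℕ) : ℝ := ∑ p ∈ A, l p

/-- normalisation -/
noncomputable def Zt : ℝ := ∏ p ∈ P, (1 + x p)

/-- expectation -/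
noncomputable def Ef (f : ℝ → ℝ) : ℝ := (∑ A ∈ P.powerset, Wt x A * f (Sm l A)) / Zt P x

/-- characteristic function -/
noncomputable def phi (ξ : ℝ) : ℂ := ∏ p ∈ P, ((1 + x p * ex (-(ξ * l p))) / (1 + x p))

/-- logarithmic derivative -/
noncomputable def mm (ξ : ℝ) : ℂ :=
  ∑ p ∈ P, l p * (x p * ex (-(ξ * l p))) / (1 + x p * ex (-(ξ * l p)))

/-- mean -/
noncomputable def Xm : ℝ := ∑ p ∈ P, l p * x p / (1 + x p)

/-- variance -/
noncomputable def Vm : ℝ := ∑ p ∈ P, l p ^ 2 * x p / (1 + x p) ^ 2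

variable {P x l}

lemma Wt_pos (hx : ∀ p, 0 < x p) (A : Finset ℕ) : 0 < Wt x A := Finset.prod_pos fun p _ => hx p

lemma Zt_pos (hx : ∀ p, 0 < x p) : 0 < Zt P x :=
  Finset.prod_pos fun p _ => by linarith [hx p]

lemma sum_Wt : ∑ A ∈ P.powerset, Wt x A = Zt P x := by
  unfold Wt Zt
  rw [Finset.prod_one_add]

lemma Ef_const (hx : ∀ p, 0 < x p) (c : ℝ) : Ef P x l (fun _ => c) = c := by
  unfold Ef
  rw [← Finset.sum_mul, sum_Wt, mul_div_assoc, mul_comm, div_mul_cancel₀ _ (Zt_pos hx).ne']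

lemma Ef_mono (hx : ∀ p, 0 < x p) {f g : ℝ → ℝ} (h : ∀ s, f s ≤ g s) :
    Ef P x l f ≤ Ef P x l g := by
  unfold Ef
  apply div_le_div_of_nonneg_right _ (Zt_pos hx).le
  exact Finset.sum_le_sum fun A _ => mul_le_mul_of_nonneg_left (h _) (Wt_pos hx A).le

lemma Ef_nonneg (hx : ∀ p, 0 < x p) {f : ℝ → ℝ} (h : ∀ s, 0 ≤ f s) : 0 ≤ Ef P x l f := by
  unfold Ef
  apply div_nonneg _ (Zt_pos hx).le
  exact Finset.sum_nonneg fun A _ => mul_nonneg (Wt_pos hx A).le (h _)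

lemma Ef_add (f g : ℝ → ℝ) : Ef P x l (fun s => f s + g s) = Ef P x l f + Ef P x l g := by
  unfold Ef
  rw [← add_div, ← Finset.sum_add_distrib]
  simp_rw [mul_add]

lemma Ef_const_mul (c : ℝ) (f : ℝ → ℝ) : Ef P x l (fun s => c * f s) = c * Ef P x l f := by
  unfold Ef
  rw [← mul_div_assoc, Finset.mul_sum]
  congr 1
  apply Finset.sum_congr rfl
  intro A _
  ring

lemma Ef_neg (f : ℝ → ℝ) : Ef P x l (fun s => - f s) = - Ef P x l f := by
  have := Ef_const_mul (P := P) (x := x) (l := l) (-1) f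
  simpa using this

lemma Ef_sub (f g : ℝ → ℝ) : Ef P x l (fun s => f s - g s) = Ef P x l f - Ef P x l g := by
  simp_rw [sub_eq_add_neg]
  rw [Ef_add, Ef_neg]

lemma abs_Ef_le (hx : ∀ p, 0 < x p) (f : ℝ → ℝ) : |Ef P x l f| ≤ Ef P x l (fun s => |f s|) := by
  rw [abs_le]
  constructor
  · rw [← Ef_neg]
    exact Ef_mono hx fun s => neg_abs_le _
  · exact Ef_mono hx fun s => le_abs_self _

/-- Cauchy-Schwarz -/
lemma Ef_sq_le (hx : ∀ p, 0 < x p) (f g : ℝ → ℝ) :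
    (Ef P x l (fun s => f s * g s)) ^ 2 ≤
      Ef P x l (fun s => f s ^ 2) * Ef P x l (fun s => g s ^ 2) := by
  have hZ := Zt_pos (P := P) hx
  unfold Ef
  rw [div_pow, div_mul_div_comm, ← sq (Zt P x)]
  apply div_le_div_of_nonneg_right _ (sq_nonneg _)
  have h := Finset.sum_mul_sq_le_sq_mul_sq P.powerset (fun A => √(Wt x A) * f (Sm l A))
    (fun A => √(Wt x A) * g (Sm l A))
  have e : ∀ A, √(Wt x A) * √(Wt x A) = Wt x A := fun A => mul_self_sqrt (Wt_pos hx A).le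
  calc (∑ A ∈ P.powerset, Wt x A * (f (Sm l A) * g (Sm l A))) ^ 2
      = (∑ A ∈ P.powerset, √(Wt x A) * f (Sm l A) * (√(Wt x A) * g (Sm l A))) ^ 2 := by
        congr 1
        apply Finset.sum_congr rfl
        intro A _
        linear_combination -(f (Sm l A) * g (Sm l A)) * e A
    _ ≤ _ := h
    _ = _ := by
        congr 1
        · apply Finset.sum_congr rfl
          intro A _
          rw [mul_pow, sq (√(Wt x A)), e A]
        · apply Finset.sum_congr rfl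
          intro A _
          rw [mul_pow, sq (√(Wt x A)), e A]

lemma ex_neg_mul_Sm (ξ : ℝ) (A : Finset ℕ) : ex (-(ξ * Sm l A)) = ∏ p ∈ A, ex (-(ξ * l p)) := by
  unfold Sm
  rw [← ex_sum]
  congr 1
  rw [Finset.mul_sum, Finset.sum_neg_distrib]

lemma char_sum (ξ : ℝ) :
    (∑ A ∈ P.powerset, (Wt x A : ℂ) * ex (-(ξ * Sm l A))) / Zt P x = phi P x l ξ := by
  unfold phi
  rw [Finset.prod_div_distrib, Finset.prod_one_add]
  congr 1
  · apply Finset.sum_congr rfl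
    intro A _
    rw [ex_neg_mul_Sm, Finset.prod_mul_distrib]
    unfold Wt
    push_cast
    rfl
  · unfold Zt
    push_cast
    rfl

lemma sum_powerset_mul_sum (f : ℕ → ℂ) (P : Finset ℕ) (hf : ∀ p ∈ P, 1 + f p ≠ 0) :
    ∑ A ∈ P.powerset, (∏ p ∈ A, f p) * ((∑ p ∈ A, l p : ℝ) : ℂ) =
      (∏ p ∈ P, (1 + f p)) * ∑ p ∈ P, l p * f p / (1 + f p) := by
  classical
  induction P using Finset.induction_on with
  | empty => simp
  | insert a P ha ih =>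
    have ih := ih fun p hp => hf p (Finset.mem_insert_of_mem hp)
    rw [Finset.sum_powerset_insert ha, ih, Finset.prod_insert ha, Finset.sum_insert ha]
    have h1 : ∑ A ∈ P.powerset, (∏ p ∈ insert a A, f p) * ((∑ p ∈ insert a A, l p : ℝ) : ℂ) =
        f a * l a * (∏ p ∈ P, (1 + f p)) +
        f a * ∑ A ∈ P.powerset, (∏ p ∈ A, f p) * ((∑ p ∈ A, l p : ℝ) : ℂ) := by
      rw [Finset.prod_one_add, Finset.mul_sum, Finset.mul_sum, ← Finset.sum_add_distrib]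
      apply Finset.sum_congr rfl
      intro A hA
      have ha' : a ∉ A := fun h => ha (Finset.mem_powerset.mp hA h)
      rw [Finset.prod_insert ha', Finset.sum_insert ha']
      push_cast
      ring
    rw [h1, ih]
    have := hf a (Finset.mem_insert_self a P)
    field_simp
    ring

lemma norm_x_ex (hx : ∀ p, 0 < x p) (ξ : ℝ) (p : ℕ) : ‖(x p : ℂ) * ex (-(ξ * l p))‖ = x p := by
  rw [norm_mul, norm_ex, mul_one, Complex.norm_real, Real.norm_eq_abs, abs_of_pos (hx p)]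

lemma one_add_ne_zero (hx : ∀ p, 0 < x p) (ξ : ℝ) (p : ℕ) (hx1 : x p < 1) :
    1 + (x p : ℂ) * ex (-(ξ * l p)) ≠ 0 := by
  intro h
  have h1 : (x p : ℂ) * ex (-(ξ * l p)) = -1 := by linear_combination h
  have h2 := norm_x_ex (l := l) hx ξ p
  rw [h1, norm_neg, norm_one] at h2
  linarith

/-- size bias identity -/
lemma char_sum_S (hx : ∀ p, 0 < x p) (hx1 : ∀ p ∈ P, x p < 1) (ξ : ℝ) :
    (∑ A ∈ P.powerset, (Wt x A : ℂ) * ((Sm l A : ℝ) : ℂ) * ex (-(ξ * Sm l A))) / Zt P x =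
      phi P x l ξ * mm P x l ξ := by
  have h := sum_powerset_mul_sum (l := l) (fun p => (x p : ℂ) * ex (-(ξ * l p))) P
    (fun p hp => one_add_ne_zero hx ξ p (hx1 p hp))
  have e1 : ∑ A ∈ P.powerset, (Wt x A : ℂ) * ((Sm l A : ℝ) : ℂ) * ex (-(ξ * Sm l A)) =
      ∑ A ∈ P.powerset, (∏ p ∈ A, (x p : ℂ) * ex (-(ξ * l p))) * ((∑ p ∈ A, l p : ℝ) : ℂ) := by
    apply Finset.sum_congr rfl
    intro A _
    rw [ex_neg_mul_Sm, Finset.prod_mul_distrib]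
    unfold Wt Sm
    push_cast
    ring
  rw [e1, h]
  unfold phi mm Zt
  rw [Finset.prod_div_distrib]
  push_cast
  ring

/-! ### Bounds for the characteristic function -/

lemma norm_one_add_ex_sq (y θ : ℝ) :
    ‖1 + (y : ℂ) * ex (-θ)‖ ^ 2 = (1 + y) ^ 2 - 2 * y * (1 - cos θ) := by
  rw [← Complex.normSq_eq_norm_sq, Complex.normSq_apply]
  simp only [Complex.add_re, Complex.one_re, Complex.mul_re, Complex.ofReal_re, Complex.ofReal_im,
    zero_mul, sub_zero, Complex.add_im, Complex.one_im, Complex.mul_im, add_zero, zero_add,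
    ex_re, ex_im, cos_neg, sin_neg]
  linear_combination y ^ 2 * sin_sq_add_cos_sq θ

lemma norm_factor_le {y : ℝ} (hy : 0 < y) (θ : ℝ) :
    ‖(1 + (y : ℂ) * ex (-θ)) / (1 + y)‖ ≤ rexp (-(y * (1 - cos θ) / (1 + y) ^ 2)) := by
  have h1 : ‖(1 + (y : ℂ) * ex (-θ)) / (1 + y)‖ ^ 2 ≤
      rexp (-(y * (1 - cos θ) / (1 + y) ^ 2)) ^ 2 := by
    have e1 : ‖(1 : ℂ) + y‖ = 1 + y := by
      rw [← Complex.ofReal_one, ← Complex.ofReal_add, Complex.norm_real, Real.norm_eq_abs,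
        abs_of_pos (by linarith)]
    rw [norm_div, div_pow, norm_one_add_ex_sq, e1, ← exp_nat_mul]
    have e2 : ((1 + y) ^ 2 - 2 * y * (1 - cos θ)) / (1 + y) ^ 2 =
        -(2 * (y * (1 - cos θ) / (1 + y) ^ 2)) + 1 := by
      have : (1 + y) ≠ 0 := by linarith
      field_simp
      ring
    rw [e2]
    have := add_one_le_exp (-(2 * (y * (1 - cos θ) / (1 + y) ^ 2)))
    refine this.trans (le_of_eq ?_)
    congr 1
    push_cast
    ring
  exact (sq_le_sq₀ (norm_nonneg _) (exp_pos _).le).mp h1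

lemma norm_phi_le (hx : ∀ p, 0 < x p) (ξ : ℝ) :
    ‖phi P x l ξ‖ ≤ rexp (-∑ p ∈ P, x p * (1 - cos (ξ * l p)) / (1 + x p) ^ 2) := by
  unfold phi
  rw [norm_prod, ← Finset.sum_neg_distrib, exp_sum]
  apply Finset.prod_le_prod
  · intro p _; exact norm_nonneg _
  · intro p _; exact norm_factor_le (hx p) _

lemma norm_phi_le_one (hx : ∀ p, 0 < x p) (ξ : ℝ) : ‖phi P x l ξ‖ ≤ 1 := by
  refine (norm_phi_le hx ξ).trans ?_
  rw [exp_le_one_iff, neg_nonpos]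
  apply Finset.sum_nonneg
  intro p _
  have := hx p
  have := cos_le_one (ξ * l p)
  have : 0 ≤ 1 - cos (ξ * l p) := by linarith
  positivity

lemma norm_phi_gauss (hx : ∀ p, 0 < x p) {ξ : ℝ} (h : ∀ p ∈ P, |ξ * l p| ≤ π) :
    ‖phi P x l ξ‖ ≤ rexp (-(2 / π ^ 2 * Vm P x l * ξ ^ 2)) := by
  refine (norm_phi_le hx ξ).trans ?_
  rw [exp_le_exp, neg_le_neg_iff]
  unfold Vm
  rw [Finset.mul_sum, Finset.sum_mul]
  apply Finset.sum_le_sum
  intro p hp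
  have h1 := cos_le_one_sub_mul_cos_sq (h p hp)
  have h2 := hx p
  have h3 : 2 / π ^ 2 * (ξ * l p) ^ 2 ≤ 1 - cos (ξ * l p) := by linarith only [h1]
  have h4 : 2 / π ^ 2 * (l p ^ 2 * x p / (1 + x p) ^ 2) * ξ ^ 2 =
      x p * (2 / π ^ 2 * (ξ * l p) ^ 2) / (1 + x p) ^ 2 := by ring
  rw [h4]
  apply div_le_div_of_nonneg_right _ (by positivity)
  exact mul_le_mul_of_nonneg_left h3 h2.le

section bounded

variable {xb : ℝ}

lemma norm_one_add_ge (hx : ∀ p, 0 < x p) (p : ℕ) (ξ : ℝ) (hp : x p ≤ xb) :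
    1 - xb ≤ ‖1 + (x p : ℂ) * ex (-(ξ * l p))‖ := by
  have h1 := norm_x_ex (l := l) hx ξ p
  have h2 : ‖(1 : ℂ)‖ - ‖-((x p : ℂ) * ex (-(ξ * l p)))‖ ≤
      ‖(1 : ℂ) - (-((x p : ℂ) * ex (-(ξ * l p))))‖ := norm_sub_norm_le _ _
  rw [norm_one, norm_neg, h1, sub_neg_eq_add] at h2
  linarith

lemma norm_mm_le (hx : ∀ p, 0 < x p) (hl : ∀ p, 0 ≤ l p) (hb : xb < 1)
    (hxb : ∀ p ∈ P, x p ≤ xb) (ξ : ℝ) :
    ‖mm P x l ξ‖ ≤ (1 - xb)⁻¹ * ∑ p ∈ P, l p * x p := by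
  unfold mm
  refine (norm_sum_le _ _).trans ?_
  rw [Finset.mul_sum]
  apply Finset.sum_le_sum
  intro p hp
  rw [norm_div, norm_mul, norm_x_ex hx, Complex.norm_real, Real.norm_eq_abs, abs_of_nonneg (hl p),
    div_eq_mul_inv, mul_comm]
  apply mul_le_mul_of_nonneg_right _ (mul_nonneg (hl p) (hx p).le)
  exact inv_anti₀ (by linarith) (norm_one_add_ge hx p ξ (hxb p hp))

lemma sum_lx_le (hx : ∀ p, 0 < x p) (hl : ∀ p, 0 ≤ l p) (hxb : ∀ p ∈ P, x p ≤ xb) :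
    ∑ p ∈ P, l p * x p ≤ (1 + xb) * Xm P x l := by
  unfold Xm
  rw [Finset.mul_sum]
  apply Finset.sum_le_sum
  intro p hp
  have h1 := hx p
  have h2 := hxb p hp
  rw [← mul_div_assoc, le_div_iff₀ (by linarith)]
  have h3 : 0 ≤ l p * x p := mul_nonneg (hl p) h1.le
  nlinarith only [h2, h3]

lemma Xm_le_sum (hx : ∀ p, 0 < x p) (hl : ∀ p, 0 ≤ l p) : Xm P x l ≤ ∑ p ∈ P, l p * x p := by
  unfold Xm
  apply Finset.sum_le_sum
  intro p _
  apply div_le_self (mul_nonneg (hl p) (hx p).le)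
  linarith [hx p]

lemma norm_mm_sub_le (hx : ∀ p, 0 < x p) (hl : ∀ p, 0 ≤ l p) (hb : xb < 1)
    (hxb : ∀ p ∈ P, x p ≤ xb) (ξ : ℝ) :
    ‖mm P x l ξ - Xm P x l‖ ≤ (1 + xb) * (1 - xb)⁻¹ * (|ξ| * Vm P x l) := by
  unfold mm Xm Vm
  rw [Complex.ofReal_sum, ← Finset.sum_sub_distrib]
  refine (norm_sum_le _ _).trans ?_
  rw [← mul_assoc, Finset.mul_sum]
  apply Finset.sum_le_sum
  intro p hp
  have h0 := hx p
  have h1 := hxb p hp
  have hne : 1 + (x p : ℂ) * ex (-(ξ * l p)) ≠ 0 := by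
    intro h
    have := norm_one_add_ge (l := l) hx p ξ h1
    rw [h, norm_zero] at this
    linarith
  have hne2 : (1 : ℂ) + x p ≠ 0 := by
    rw [← Complex.ofReal_one, ← Complex.ofReal_add]
    exact_mod_cast (by linarith : (1 : ℝ) + x p ≠ 0)
  have e1 : (l p : ℂ) * (x p * ex (-(ξ * l p))) / (1 + x p * ex (-(ξ * l p))) -
      ((l p * x p / (1 + x p) : ℝ) : ℂ) =
      (l p * x p / (1 + x p) : ℝ) * ((ex (-(ξ * l p)) - 1) / (1 + x p * ex (-(ξ * l p)))) := by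
    push_cast
    field_simp
    ring
  have h3 : ‖ex (-(ξ * l p)) - 1‖ ≤ |ξ| * l p := by
    rw [norm_sub_rev]
    refine (norm_one_sub_ex_le _).trans (le_of_eq ?_)
    rw [abs_neg, abs_mul, abs_of_nonneg (hl p)]
  rw [e1, norm_mul, norm_div, Complex.norm_real, Real.norm_eq_abs,
    abs_of_nonneg (div_nonneg (mul_nonneg (hl p) h0.le) (by linarith))]
  have h4 : ‖ex (-(ξ * l p)) - 1‖ / ‖1 + (x p : ℂ) * ex (-(ξ * l p))‖ ≤
      (|ξ| * l p) * (1 - xb)⁻¹ := by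
    rw [div_eq_mul_inv]
    apply mul_le_mul h3 (inv_anti₀ (by linarith) (norm_one_add_ge hx p ξ h1))
      (inv_nonneg.mpr (norm_nonneg _)) (mul_nonneg (abs_nonneg _) (hl p))
  have h5 : 0 ≤ l p * x p / (1 + x p) := div_nonneg (mul_nonneg (hl p) h0.le) (by linarith)
  have h6 : 0 < (1 - xb)⁻¹ := inv_pos.mpr (by linarith)
  calc l p * x p / (1 + x p) * (‖ex (-(ξ * l p)) - 1‖ / ‖1 + (x p : ℂ) * ex (-(ξ * l p))‖)
      ≤ l p * x p / (1 + x p) * ((|ξ| * l p) * (1 - xb)⁻¹) := mul_le_mul_of_nonneg_left h4 h5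
    _ = (1 + x p) * ((1 - xb)⁻¹ * |ξ| * (l p ^ 2 * x p / (1 + x p) ^ 2)) := by
        field_simp
    _ ≤ (1 + xb) * ((1 - xb)⁻¹ * |ξ| * (l p ^ 2 * x p / (1 + x p) ^ 2)) := by
        apply mul_le_mul_of_nonneg_right (by linarith)
        (clear * - hb h0; positivity)
    _ = _ := by ring

end bounded

/-! ### Gaussian approximation -/

lemma norm_prod_sub_prod_le' (f g : ℕ → ℂ) (P : Finset ℕ) (hf : ∀ p ∈ P, ‖f p‖ ≤ 1)
    (hg : ∀ p ∈ P, ‖g p‖ ≤ 1) :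
    ‖∏ p ∈ P, f p - ∏ p ∈ P, g p‖ ≤ ∑ p ∈ P, ‖f p - g p‖ := by
  classical
  induction P using Finset.induction_on with
  | empty => simp
  | insert a P ha ih =>
    have hf' : ∀ p ∈ P, ‖f p‖ ≤ 1 := fun p hp => hf p (Finset.mem_insert_of_mem hp)
    have hg' : ∀ p ∈ P, ‖g p‖ ≤ 1 := fun p hp => hg p (Finset.mem_insert_of_mem hp)
    rw [Finset.prod_insert ha, Finset.prod_insert ha, Finset.sum_insert ha]
    have e : f a * ∏ p ∈ P, f p - g a * ∏ p ∈ P, g p =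
        (f a - g a) * ∏ p ∈ P, f p + g a * (∏ p ∈ P, f p - ∏ p ∈ P, g p) := by ring
    rw [e]
    have h1 : ‖∏ p ∈ P, f p‖ ≤ 1 := by
      rw [norm_prod]
      exact Finset.prod_le_one (fun p _ => norm_nonneg _) hf'
    calc _ ≤ ‖(f a - g a) * ∏ p ∈ P, f p‖ + ‖g a * (∏ p ∈ P, f p - ∏ p ∈ P, g p)‖ :=
          norm_add_le _ _
      _ ≤ ‖f a - g a‖ * 1 + 1 * ∑ p ∈ P, ‖f p - g p‖ := by
          rw [norm_mul, norm_mul]
          exact add_le_add (mul_le_mul_of_nonneg_left h1 (norm_nonneg _))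
            (mul_le_mul (hg a (Finset.mem_insert_self a P)) (ih hf' hg') (norm_nonneg _)
              zero_le_one)
      _ = _ := by ring

lemma ex_taylor {t : ℝ} (ht : |t| ≤ 1) :
    ‖ex t - (1 + t * Complex.I - t ^ 2 / 2)‖ ≤ |t| ^ 3 * (2 / 9) := by
  have h := Complex.exp_bound (x := (t : ℂ) * Complex.I) (by
    rw [norm_mul, Complex.norm_I, mul_one, Complex.norm_real, Real.norm_eq_abs]; exact ht)
    (n := 3) (by norm_num)
  have e1 : ∑ m ∈ Finset.range 3, ((t : ℂ) * Complex.I) ^ m / (m.factorial : ℂ) =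
      1 + t * Complex.I - t ^ 2 / 2 := by
    simp only [Finset.sum_range_succ, Finset.sum_range_zero, Nat.factorial]
    have : Complex.I ^ 2 = -1 := Complex.I_sq
    push_cast
    linear_combination (t : ℂ) ^ 2 / 2 * this
  rw [e1, norm_mul, Complex.norm_I, mul_one, Complex.norm_real, Real.norm_eq_abs] at h
  refine h.trans (le_of_eq ?_)
  norm_num [Nat.factorial]

lemma factor_gauss {y : ℝ} (hy : 0 < y) {θ : ℝ} (hθ : |θ| ≤ 1) :
    ‖(1 + (y : ℂ) * ex (-θ)) / (1 + y) * ex (θ * (y / (1 + y))) -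
      (rexp (-(y / (1 + y) ^ 2 * θ ^ 2 / 2)) : ℂ)‖ ≤ 1 / 3 * (y / (1 + y) ^ 2) * |θ| ^ 3 := by
  set ρ := y / (1 + y) with hρ
  have hy1 : (0 : ℝ) < 1 + y := by linarith
  have hρ0 : 0 < ρ := div_pos hy hy1
  have hρ1 : ρ < 1 := by rw [hρ, div_lt_one hy1]; linarith
  have hv : y / (1 + y) ^ 2 = ρ * (1 - ρ) := by
    rw [hρ]; field_simp; ring
  have hne : (1 : ℂ) + y ≠ 0 := by
    rw [← Complex.ofReal_one, ← Complex.ofReal_add]
    exact_mod_cast hy1.ne'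
  have e1 : (1 + (y : ℂ) * ex (-θ)) / (1 + y) * ex (θ * ρ) =
      (1 - ρ) * ex (θ * ρ) + ρ * ex (-(θ * (1 - ρ))) := by
    have h1 : ex (-(θ * (1 - ρ))) = ex (-θ) * ex (θ * ρ) := by
      rw [← ex_add]; congr 1; ring
    have h2 : (ρ : ℂ) = y / (1 + y) := by rw [hρ]; push_cast; rfl
    rw [h1, h2]
    field_simp
    ring
  rw [e1, hv]
  set v := ρ * (1 - ρ) with hvdef
  have hv0 : 0 < v := mul_pos hρ0 (by linarith)
  have hv4 : v ≤ 1 / 4 := by rw [hvdef]; nlinarith only [sq_nonneg (ρ - 1 / 2)]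
  have hθ0 := abs_nonneg θ
  have b1 : |θ * ρ| ≤ 1 := by
    rw [abs_mul, abs_of_pos hρ0]; nlinarith only [hρ1, hθ, hρ0]
  have b2 : |-(θ * (1 - ρ))| ≤ 1 := by
    rw [abs_neg, abs_mul, abs_of_pos (by linarith : 0 < 1 - ρ)]; nlinarith only [hρ0, hθ, hρ1]
  have t1 := ex_taylor b1
  have t2 := ex_taylor b2
  have t3 : ‖(rexp (-(v * θ ^ 2 / 2)) : ℂ) - (1 - v * θ ^ 2 / 2 : ℝ)‖ ≤ v * |θ| ^ 3 * (3 / 64) := by
    rw [← Complex.ofReal_sub, Complex.norm_real, Real.norm_eq_abs]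
    have hy0 : 0 ≤ v * θ ^ 2 / 2 := by positivity
    have hθ2 : θ ^ 2 ≤ 1 := by rw [← sq_abs]; nlinarith only [hθ, hθ0]
    have hy1' : v * θ ^ 2 / 2 ≤ 1 := by nlinarith only [hv0, hv4, hθ2]
    have h3 := Real.exp_bound (x := -(v * θ ^ 2 / 2)) (by
      rw [abs_neg, abs_of_nonneg hy0]; exact hy1') (n := 2) (by norm_num)
    simp only [Finset.sum_range_succ, Finset.sum_range_zero, Nat.factorial] at h3
    have h4 : rexp (-(v * θ ^ 2 / 2)) - (1 - v * θ ^ 2 / 2) =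
        rexp (-(v * θ ^ 2 / 2)) - (0 + (-(v * θ ^ 2 / 2)) ^ 0 / (1 : ℕ) +
          (-(v * θ ^ 2 / 2)) ^ 1 / (((0 + 1) * 1 : ℕ) : ℝ)) := by
      norm_num
      ring
    rw [h4]
    refine h3.trans ?_
    rw [abs_neg, abs_of_nonneg hy0]
    have h5 : θ ^ 2 = |θ| ^ 2 := (sq_abs θ).symm
    rw [h5]
    have h6 : |θ| ^ 4 ≤ |θ| ^ 3 := pow_le_pow_of_le_one hθ0 hθ (by norm_num)
    have h7 : (v * |θ| ^ 2 / 2) ^ 2 = v * v * |θ| ^ 4 / 4 := by ring
    rw [h7]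
    have h8 : v * v * |θ| ^ 4 ≤ v * (1 / 4) * |θ| ^ 3 := by
      apply mul_le_mul (mul_le_mul_of_nonneg_left hv4 hv0.le) h6 (by positivity) (by positivity)
    norm_num
    nlinarith only [h8, mul_nonneg hv0.le (pow_nonneg hθ0 3)]
  have e2 : (1 - (ρ : ℂ)) * ex (θ * ρ) + ρ * ex (-(θ * (1 - ρ))) -
      (rexp (-(v * θ ^ 2 / 2)) : ℂ) =
      (1 - (ρ : ℂ)) * (ex (θ * ρ) - (1 + (θ * ρ : ℝ) * Complex.I - (θ * ρ : ℝ) ^ 2 / 2)) +
      ρ * (ex (-(θ * (1 - ρ))) - (1 + (-(θ * (1 - ρ)) : ℝ) * Complex.I -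
        (-(θ * (1 - ρ)) : ℝ) ^ 2 / 2)) -
      ((rexp (-(v * θ ^ 2 / 2)) : ℂ) - (1 - v * θ ^ 2 / 2 : ℝ)) := by
    rw [hvdef]
    push_cast
    ring
  have n1 : ‖(1 : ℂ) - ρ‖ = 1 - ρ := by
    rw [← Complex.ofReal_one, ← Complex.ofReal_sub, Complex.norm_real, Real.norm_eq_abs,
      abs_of_pos (by linarith only [hρ1])]
  have n2 : ‖(ρ : ℂ)‖ = ρ := by rw [Complex.norm_real, Real.norm_eq_abs, abs_of_pos hρ0]
  rw [e2]
  refine (norm_sub_le _ _).trans ?_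
  refine (add_le_add_left (norm_add_le _ _) _).trans ?_
  rw [norm_mul, norm_mul, n1, n2]
  rw [abs_mul, abs_of_pos hρ0] at t1
  rw [abs_neg, abs_mul, abs_of_pos (by linarith only [hρ1] : 0 < 1 - ρ)] at t2
  have hρ' : 0 < 1 - ρ := by linarith only [hρ1]
  have m1 := mul_le_mul_of_nonneg_left t1 hρ'.le
  have m2 := mul_le_mul_of_nonneg_left t2 hρ0.le
  have h9 : (1 - ρ) * ((|θ| * ρ) ^ 3 * (2 / 9)) + ρ * ((|θ| * (1 - ρ)) ^ 3 * (2 / 9)) =
      (2 / 9) * |θ| ^ 3 * (v * (1 - 2 * v)) := by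
    rw [hvdef]; ring
  have h10 : (2 / 9) * |θ| ^ 3 * (v * (1 - 2 * v)) ≤ (2 / 9) * |θ| ^ 3 * v := by
    apply mul_le_mul_of_nonneg_left _ (by positivity)
    nlinarith only [hρ0, hρ1, hv0]
  have h11 : 0 ≤ |θ| ^ 3 * v := by positivity
  linarith only [t3, m1, m2, h10, h11]

/-- Gaussian approximation on the main lobe -/
lemma phi_gauss (hx : ∀ p, 0 < x p) {Λ ξ : ℝ} (hl : ∀ p ∈ P, 0 ≤ l p ∧ l p ≤ Λ)
    (hξ : |ξ| * Λ ≤ 1) :
    ‖phi P x l ξ * ex (ξ * Xm P x l) - (rexp (-(Vm P x l * ξ ^ 2 / 2)) : ℂ)‖ ≤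
      1 / 3 * (Vm P x l * Λ) * |ξ| ^ 3 := by
  have e1 : phi P x l ξ * ex (ξ * Xm P x l) =
      ∏ p ∈ P, ((1 + (x p : ℂ) * ex (-(ξ * l p))) / (1 + x p) *
        ex ((ξ * l p) * (x p / (1 + x p)))) := by
    rw [Finset.prod_mul_distrib, ← ex_sum]
    unfold phi Xm
    rw [Finset.mul_sum]
    congr 3
    ext p
    ring
  have e2 : (rexp (-(Vm P x l * ξ ^ 2 / 2)) : ℂ) =
      ∏ p ∈ P, (rexp (-(x p / (1 + x p) ^ 2 * (ξ * l p) ^ 2 / 2)) : ℂ) := by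
    rw [← Complex.ofReal_prod, ← exp_sum]
    congr 2
    unfold Vm
    rw [Finset.sum_neg_distrib, Finset.sum_mul, Finset.sum_div]
    congr 1
    apply Finset.sum_congr rfl
    intro p _
    ring
  rw [e1, e2]
  refine (norm_prod_sub_prod_le' _ _ P ?_ ?_).trans ?_
  · intro p _
    rw [norm_mul, norm_ex, mul_one]
    refine (norm_factor_le (hx p) _).trans ?_
    rw [exp_le_one_iff, neg_nonpos]
    have h1 := cos_le_one (ξ * l p)
    have h2 := hx p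
    have : 0 ≤ 1 - cos (ξ * l p) := by linarith
    positivity
  · intro p _
    rw [Complex.norm_real, Real.norm_eq_abs, abs_of_pos (exp_pos _), exp_le_one_iff, neg_nonpos]
    have h2 := hx p
    positivity
  · have h3 : ∀ p ∈ P, ‖(1 + (x p : ℂ) * ex (-(ξ * l p))) / (1 + x p) *
        ex ((ξ * l p) * (x p / (1 + x p))) -
        (rexp (-(x p / (1 + x p) ^ 2 * (ξ * l p) ^ 2 / 2)) : ℂ)‖ ≤
        1 / 3 * (l p ^ 2 * x p / (1 + x p) ^ 2 * Λ) * |ξ| ^ 3 := by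
      intro p hp
      obtain ⟨hl0, hl1⟩ := hl p hp
      have h4 : |ξ * l p| ≤ 1 := by
        rw [abs_mul, abs_of_nonneg hl0]
        exact (mul_le_mul_of_nonneg_left hl1 (abs_nonneg _)).trans hξ
      refine (factor_gauss (hx p) h4).trans ?_
      rw [abs_mul, abs_of_nonneg hl0]
      have h2 := hx p
      calc 1 / 3 * (x p / (1 + x p) ^ 2) * (|ξ| * l p) ^ 3
          = 1 / 3 * (l p ^ 2 * x p / (1 + x p) ^ 2 * l p) * |ξ| ^ 3 := by ring
        _ ≤ 1 / 3 * (l p ^ 2 * x p / (1 + x p) ^ 2 * Λ) * |ξ| ^ 3 := by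
            apply mul_le_mul_of_nonneg_right _ (by positivity)
            apply mul_le_mul_of_nonneg_left _ (by norm_num)
            exact mul_le_mul_of_nonneg_left hl1 (by positivity)
    refine (Finset.sum_le_sum h3).trans (le_of_eq ?_)
    unfold Vm
    rw [← Finset.sum_mul, ← Finset.mul_sum, ← Finset.sum_mul]

end Pool.Agent.MP0016c7.Ros
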