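import Mathlib
import Pool.Agent.Lib.MP_0016c7_nt.RosTilt

open Real

namespace Pool.Agent.MP0016c7.Ros

section EE

variable {E : Type*} [NormedAddCommGroup E] [NormedSpace ℝ E]

/-- expectation over the subsets of `P` -/
noncomputable def EE (P : Finset ℕ) (x : ℕ → ℝ) (F : Finset ℕ → E) : E :=
  (Zt P x)⁻¹ • ∑ A ∈ P.powerset, Wt x A • F A

variable {P : Finset ℕ} {x l : ℕ → ℝ}

lemma Ef_eq_EE (f : ℝ → ℝ) : Ef P x l f = EE P x fun A => f (Sm l A) := by
  unfold Ef EE
  rw [smul_eq_mul, div_eq_inv_mul]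
  rfl

lemma EE_const (hx : ∀ p, 0 < x p) (c : E) : EE P x (fun _ => c) = c := by
  unfold EE
  rw [← Finset.sum_smul, sum_Wt, smul_smul, inv_mul_cancel₀ (Zt_pos hx).ne', one_smul]

lemma EE_add (F G : Finset ℕ → E) :
    EE P x (fun A => F A + G A) = EE P x F + EE P x G := by
  unfold EE
  rw [← smul_add, ← Finset.sum_add_distrib]
  simp_rw [smul_add]

lemma EE_neg (F : Finset ℕ → E) : EE P x (fun A => - F A) = - EE P x F := by
  unfold EE
  simp_rw [smul_neg, Finset.sum_neg_distrib, smul_neg]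

lemma EE_sub (F G : Finset ℕ → E) :
    EE P x (fun A => F A - G A) = EE P x F - EE P x G := by
  simp_rw [sub_eq_add_neg]
  rw [EE_add, EE_neg]

lemma EE_smul (c : ℝ) (F : Finset ℕ → E) : EE P x (fun A => c • F A) = c • EE P x F := by
  unfold EE
  have h : ∑ A ∈ P.powerset, Wt x A • c • F A = c • ∑ A ∈ P.powerset, Wt x A • F A := by
    rw [Finset.smul_sum]
    exact Finset.sum_congr rfl fun A _ => smul_comm _ _ _
  rw [h, smul_comm]

lemma EE_mul (c : ℝ) (F : Finset ℕ → ℝ) : EE P x (fun A => c * F A) = c * EE P x F :=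
  EE_smul c F

lemma EE_cmul (c : ℂ) (F : Finset ℕ → ℂ) : EE P x (fun A => c * F A) = c * EE P x F := by
  unfold EE
  have h : ∑ A ∈ P.powerset, Wt x A • (c * F A) = c * ∑ A ∈ P.powerset, Wt x A • F A := by
    rw [Finset.mul_sum]
    exact Finset.sum_congr rfl fun A _ => (mul_smul_comm _ _ _).symm
  rw [h, mul_smul_comm]

lemma EE_sum {ι : Type*} (s : Finset ι) (F : ι → Finset ℕ → E) :
    EE P x (fun A => ∑ i ∈ s, F i A) = ∑ i ∈ s, EE P x (F i) := by
  unfold EE
  simp_rw [Finset.smul_sum]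
  rw [Finset.sum_comm]

lemma EE_congr {F G : Finset ℕ → E} (h : ∀ A, A ⊆ P → F A = G A) : EE P x F = EE P x G := by
  unfold EE
  congr 1
  apply Finset.sum_congr rfl
  intro A hA
  rw [h A (Finset.mem_powerset.mp hA)]

lemma EE_mono (hx : ∀ p, 0 < x p) {F G : Finset ℕ → ℝ} (h : ∀ A, A ⊆ P → F A ≤ G A) :
    EE P x F ≤ EE P x G := by
  unfold EE
  rw [smul_eq_mul, smul_eq_mul]
  apply mul_le_mul_of_nonneg_left _ (inv_nonneg.mpr (Zt_pos hx).le)
  apply Finset.sum_le_sum
  intro A hA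
  rw [smul_eq_mul, smul_eq_mul]
  exact mul_le_mul_of_nonneg_left (h A (Finset.mem_powerset.mp hA)) (Wt_pos hx A).le

lemma EE_nonneg (hx : ∀ p, 0 < x p) {F : Finset ℕ → ℝ} (h : ∀ A, A ⊆ P → 0 ≤ F A) :
    0 ≤ EE P x F := by
  have := EE_mono (P := P) hx (F := fun _ => 0) (G := F) h
  rwa [EE_const hx] at this

lemma norm_EE_le (hx : ∀ p, 0 < x p) (F : Finset ℕ → E) :
    ‖EE P x F‖ ≤ EE P x (fun A => ‖F A‖) := by
  unfold EE
  rw [norm_smul, Real.norm_eq_abs, abs_of_pos (inv_pos.mpr (Zt_pos hx)), smul_eq_mul]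
  apply mul_le_mul_of_nonneg_left _ (inv_nonneg.mpr (Zt_pos hx).le)
  refine (norm_sum_le _ _).trans (Finset.sum_le_sum fun A _ => ?_)
  rw [norm_smul, Real.norm_eq_abs, abs_of_pos (Wt_pos hx A), smul_eq_mul]

/-- removing a prime from a random set -/
lemma EE_erase (hx : ∀ p, 0 < x p) {p : ℕ} (hp : p ∈ P) (F : Finset ℕ → E) :
    EE P x (fun A => if p ∈ A then ((1 + x p) / x p) • F (A.erase p) else 0) =
      EE P x (fun A => if p ∈ A then 0 else (1 + x p) • F A) := by
  classical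
  unfold EE
  congr 1
  have e1 : ∀ A : Finset ℕ, Wt x A • (if p ∈ A then ((1 + x p) / x p) • F (A.erase p) else 0) =
      if p ∈ A then Wt x A • (((1 + x p) / x p) • F (A.erase p)) else 0 := by
    intro A; split_ifs <;> simp
  have e2 : ∀ A : Finset ℕ, Wt x A • (if p ∈ A then 0 else (1 + x p) • F A) =
      if ¬ p ∈ A then Wt x A • ((1 + x p) • F A) else 0 := by
    intro A; split_ifs <;> simp
  simp_rw [e1, e2]
  rw [← Finset.sum_filter, ← Finset.sum_filter]
  refine Finset.sum_nbij' (fun A => A.erase p) (fun A => insert p A) ?_ ?_ ?_ ?_ ?_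
  · intro A hA
    rw [Finset.mem_filter, Finset.mem_powerset] at hA ⊢
    exact ⟨(Finset.erase_subset _ _).trans hA.1, Finset.notMem_erase p A⟩
  · intro A hA
    rw [Finset.mem_filter, Finset.mem_powerset] at hA ⊢
    exact ⟨Finset.insert_subset hp hA.1, Finset.mem_insert_self p A⟩
  · intro A hA
    rw [Finset.mem_filter] at hA
    exact Finset.insert_erase hA.2
  · intro A hA
    rw [Finset.mem_filter] at hA
    exact Finset.erase_insert hA.2
  · intro A hA
    rw [Finset.mem_filter] at hA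
    have h1 : Wt x A = x p * Wt x (A.erase p) := by
      unfold Wt
      rw [Finset.mul_prod_erase A x hA.2]
    rw [h1, smul_smul, smul_smul]
    congr 1
    have := (hx p).ne'
    field_simp

/-- product formula -/
lemma EE_prod (u v : ℕ → ℝ) :
    EE P x (fun A => ∏ p ∈ P, if p ∈ A then u p else v p) =
      ∏ p ∈ P, ((x p * u p + v p) / (1 + x p)) := by
  classical
  unfold EE
  rw [Finset.prod_div_distrib, Finset.prod_add, smul_eq_mul, div_eq_inv_mul]
  congr 1
  apply Finset.sum_congr rfl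
  intro A hA
  rw [Finset.mem_powerset] at hA
  have h1 : (∏ p ∈ P, if p ∈ A then u p else v p) = (∏ p ∈ A, u p) * ∏ p ∈ P \ A, v p := by
    rw [Finset.prod_ite, Finset.filter_mem_eq_inter, Finset.inter_eq_right.mpr hA]
    congr 1
    apply Finset.prod_congr _ (fun _ _ => rfl)
    ext p
    simp
  simp only
  rw [h1, smul_eq_mul, Wt, Finset.prod_mul_distrib]
  ring

/-- independence of two disjoint parts -/
lemma EE_union {P₀ P₁ : Finset ℕ} (hd : Disjoint P₀ P₁) (f g : Finset ℕ → ℝ) :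
    EE (P₀ ∪ P₁) x (fun A => f (A ∩ P₀) * g (A ∩ P₁)) = EE P₀ x f * EE P₁ x g := by
  classical
  unfold EE
  have hZ : Zt (P₀ ∪ P₁) x = Zt P₀ x * Zt P₁ x := by
    unfold Zt; rw [Finset.prod_union hd]
  rw [hZ, smul_eq_mul, smul_eq_mul, smul_eq_mul, mul_inv, mul_mul_mul_comm]
  congr 1
  rw [Finset.sum_mul_sum, ← Finset.sum_product']
  refine Finset.sum_nbij' (fun A => (A ∩ P₀, A ∩ P₁)) (fun q => q.1 ∪ q.2) ?_ ?_ ?_ ?_ ?_
  · intro A _
    rw [Finset.mem_product, Finset.mem_powerset, Finset.mem_powerset]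
    exact ⟨Finset.inter_subset_right, Finset.inter_subset_right⟩
  · intro q hq
    rw [Finset.mem_product, Finset.mem_powerset, Finset.mem_powerset] at hq
    rw [Finset.mem_powerset]
    exact Finset.union_subset_union hq.1 hq.2
  · intro A hA
    rw [Finset.mem_powerset] at hA
    rw [← Finset.inter_union_distrib_left]
    exact Finset.inter_eq_left.mpr hA
  · intro q hq
    rw [Finset.mem_product, Finset.mem_powerset, Finset.mem_powerset] at hq
    obtain ⟨h1, h2⟩ := hq
    have d1 : q.2 ∩ P₀ = ∅ := by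
      rw [← Finset.disjoint_iff_inter_eq_empty]
      exact (hd.mono_right h2).symm
    have d2 : q.1 ∩ P₁ = ∅ := by
      rw [← Finset.disjoint_iff_inter_eq_empty]
      exact hd.mono_left h1
    ext1
    · simp only
      rw [Finset.union_inter_distrib_right, d1, Finset.union_empty]
      exact Finset.inter_eq_left.mpr h1
    · simp only
      rw [Finset.union_inter_distrib_right, d2, Finset.empty_union]
      exact Finset.inter_eq_left.mpr h2
  · intro A hA
    rw [Finset.mem_powerset] at hA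
    have h1 : Wt x A = Wt x (A ∩ P₀) * Wt x (A ∩ P₁) := by
      unfold Wt
      rw [← Finset.prod_union, ← Finset.inter_union_distrib_left, Finset.inter_eq_left.mpr hA]
      exact Finset.disjoint_of_subset_left Finset.inter_subset_right
        (Finset.disjoint_of_subset_right Finset.inter_subset_right hd)
    rw [h1]
    simp only [smul_eq_mul]
    ring

end EE

/-! ### Exponential concentration -/

lemma exp_le_add_exp_sq (t : ℝ) : rexp t ≤ t + rexp (t ^ 2) := by
  rcases le_or_gt |t| 1 with h | h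
  · have h1 := Real.abs_exp_sub_one_sub_id_le h
    have h2 := (abs_le.mp h1).2
    have h3 := add_one_le_exp (t ^ 2)
    linarith
  · rcases le_total 0 t with h0 | h0
    · rw [abs_of_nonneg h0] at h
      have : rexp t ≤ rexp (t ^ 2) := by
        rw [exp_le_exp]; nlinarith
      linarith
    · rw [abs_of_nonpos h0] at h
      have h1 : rexp t ≤ 1 := by rwa [exp_le_one_iff]
      have h2 : 1 - t ≤ rexp (t ^ 2) := by
        have h3 := add_one_le_exp (t ^ 2)
        nlinarith
      linarith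

lemma bern_mgf {y : ℝ} (hy : 0 < y) (t : ℝ) :
    (y * rexp (t * (1 - y / (1 + y))) + rexp (t * (0 - y / (1 + y)))) / (1 + y) ≤
      rexp (t ^ 2) := by
  have h1y : 0 < 1 + y := by linarith
  rw [div_le_iff₀ h1y]
  set π' := y / (1 + y) with hπ
  have hπ0 : 0 ≤ π' := by positivity
  have hπ1 : π' ≤ 1 := by rw [hπ, div_le_one h1y]; linarith
  have a1 := exp_le_add_exp_sq (t * (1 - π'))
  have a2 := exp_le_add_exp_sq (t * (0 - π'))
  have b1 : rexp ((t * (1 - π')) ^ 2) ≤ rexp (t ^ 2) := by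
    rw [exp_le_exp, mul_pow]
    have : (1 - π') ^ 2 ≤ 1 := by nlinarith
    nlinarith [sq_nonneg t]
  have b2 : rexp ((t * (0 - π')) ^ 2) ≤ rexp (t ^ 2) := by
    rw [exp_le_exp, mul_pow]
    have : (0 - π') ^ 2 ≤ 1 := by nlinarith
    nlinarith [sq_nonneg t]
  have c1 := mul_le_mul_of_nonneg_left (a1.trans (add_le_add_right b1 _)) hy.le
  have e : y * (t * (1 - π')) + t * (0 - π') = 0 := by
    have : π' * (1 + y) = y := by rw [hπ]; field_simp
    linear_combination (-t) * this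
  linarith

section conc

variable {P : Finset ℕ} {x : ℕ → ℝ}

/-- centred linear statistic -/
noncomputable def lin (P : Finset ℕ) (x : ℕ → ℝ) (a : ℕ → ℝ) (A : Finset ℕ) : ℝ :=
  ∑ p ∈ P, a p * ((if p ∈ A then 1 else 0) - x p / (1 + x p))

lemma EE_exp_lin (hx : ∀ p, 0 < x p) (a : ℕ → ℝ) (t : ℝ) :
    EE P x (fun A => rexp (t * lin P x a A)) ≤ rexp (t ^ 2 * ∑ p ∈ P, a p ^ 2) := by
  have h1 : EE P x (fun A => rexp (t * lin P x a A)) =
      EE P x (fun A => ∏ p ∈ P, if p ∈ A then rexp (t * a p * (1 - x p / (1 + x p))) else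
        rexp (t * a p * (0 - x p / (1 + x p)))) := by
    apply EE_congr
    intro A _
    unfold lin
    rw [Finset.mul_sum, exp_sum]
    apply Finset.prod_congr rfl
    intro p _
    split_ifs <;> · congr 1; ring
  rw [h1, EE_prod, Finset.mul_sum, exp_sum]
  apply Finset.prod_le_prod
  · intro p _
    have := hx p
    positivity
  · intro p _
    refine (bern_mgf (hx p) (t * a p)).trans (le_of_eq ?_)
    rw [mul_pow]

open Classical in
/-- probability of an event -/
noncomputable def Pr (P : Finset ℕ) (x : ℕ → ℝ) (S : Finset ℕ → Prop) : ℝ :=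
  EE P x fun A => if S A then 1 else 0

lemma EE_ite_eq_Pr (S : Finset ℕ → Prop) [∀ A, Decidable (S A)] :
    EE P x (fun A => if S A then (1 : ℝ) else 0) = Pr P x S := by
  unfold Pr
  congr 1
  ext A
  by_cases h : S A <;> simp [h]

lemma Pr_nonneg (hx : ∀ p, 0 < x p) (S : Finset ℕ → Prop) : 0 ≤ Pr P x S :=
  EE_nonneg hx fun A _ => by split_ifs <;> norm_num

lemma Pr_mono (hx : ∀ p, 0 < x p) {S S' : Finset ℕ → Prop} (h : ∀ A, A ⊆ P → S A → S' A) :
    Pr P x S ≤ Pr P x S' := by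
  unfold Pr
  apply EE_mono hx
  intro A hA
  by_cases hS : S A
  · rw [if_pos hS, if_pos (h A hA hS)]
  · rw [if_neg hS]; split_ifs <;> norm_num

lemma Pr_le_one (hx : ∀ p, 0 < x p) (S : Finset ℕ → Prop) : Pr P x S ≤ 1 := by
  have := EE_mono (P := P) hx (F := fun A => @ite ℝ (S A) (Classical.dec _) 1 0)
    (G := fun _ => 1) (fun A _ => by split_ifs <;> norm_num)
  rw [EE_const hx] at this
  exact this

lemma Pr_or (hx : ∀ p, 0 < x p) (S S' : Finset ℕ → Prop) :
    Pr P x (fun A => S A ∨ S' A) ≤ Pr P x S + Pr P x S' := by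
  unfold Pr
  rw [← EE_add]
  apply EE_mono hx
  intro A _
  by_cases h1 : S A <;> by_cases h2 : S' A <;> simp [h1, h2]

open Classical in
lemma Pr_exists {ι : Type*} (hx : ∀ p, 0 < x p) (I : Finset ι) (S : ι → Finset ℕ → Prop) :
    Pr P x (fun A => ∃ i ∈ I, S i A) ≤ ∑ i ∈ I, Pr P x (S i) := by
  unfold Pr
  rw [← EE_sum]
  apply EE_mono hx
  intro A _
  by_cases h : ∃ i ∈ I, S i A
  · rw [if_pos h]
    obtain ⟨i, hi, hS⟩ := h
    have h1 : (1 : ℝ) = (if S i A then 1 else 0) := by rw [if_pos hS]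
    refine le_trans (le_of_eq h1) ?_
    exact Finset.single_le_sum (f := fun i => if S i A then (1 : ℝ) else 0)
      (fun j _ => by split_ifs <;> norm_num) hi
  · rw [if_neg h]
    exact Finset.sum_nonneg fun j _ => by split_ifs <;> norm_num

/-- Chernoff bound -/
lemma Pr_lin_gt (hx : ∀ p, 0 < x p) (a : ℕ → ℝ) {η S₂ : ℝ} (hη : 0 < η) (hS : 0 < S₂)
    (ha : ∑ p ∈ P, a p ^ 2 ≤ S₂) :
    Pr P x (fun A => η < lin P x a A) ≤ rexp (-(η ^ 2 / (4 * S₂))) := by
  set t := η / (2 * S₂) with ht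
  have ht0 : 0 < t := by positivity
  have h1 : Pr P x (fun A => η < lin P x a A) ≤
      EE P x (fun A => rexp (-(t * η)) * rexp (t * lin P x a A)) := by
    unfold Pr
    apply EE_mono hx
    intro A _
    split_ifs with h
    · rw [← exp_add]
      apply one_le_exp
      nlinarith
    · positivity
  refine h1.trans ?_
  rw [EE_mul]
  refine (mul_le_mul_of_nonneg_left (EE_exp_lin hx a t) (exp_pos _).le).trans ?_
  rw [← exp_add, exp_le_exp]
  have h2 : t ^ 2 * ∑ p ∈ P, a p ^ 2 ≤ t ^ 2 * S₂ := mul_le_mul_of_nonneg_left ha (sq_nonneg t)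
  have h3 : -(t * η) + t ^ 2 * S₂ = -(η ^ 2 / (4 * S₂)) := by
    rw [ht]; field_simp; ring
  linarith

lemma lin_neg (a : ℕ → ℝ) (A : Finset ℕ) : lin P x (fun p => - a p) A = - lin P x a A := by
  unfold lin
  rw [← Finset.sum_neg_distrib]
  apply Finset.sum_congr rfl
  intro p _
  ring

lemma Pr_abs_lin_gt (hx : ∀ p, 0 < x p) (a : ℕ → ℝ) {η S₂ : ℝ} (hη : 0 < η) (hS : 0 < S₂)
    (ha : ∑ p ∈ P, a p ^ 2 ≤ S₂) :
    Pr P x (fun A => η < |lin P x a A|) ≤ 2 * rexp (-(η ^ 2 / (4 * S₂))) := by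
  have h1 := Pr_lin_gt hx a hη hS ha
  have h2 := Pr_lin_gt hx (fun p => - a p) hη hS (by simpa using ha)
  have h3 := Pr_or (P := P) hx (fun A => η < lin P x a A) (fun A => η < lin P x (fun p => - a p) A)
  have h4 : Pr P x (fun A => η < |lin P x a A|) ≤
      Pr P x (fun A => η < lin P x a A ∨ η < lin P x (fun p => - a p) A) := by
    apply Pr_mono hx
    intro A _ h
    rw [lin_neg]
    exact lt_abs.mp h
  linarith

/-- uniform version over a finite family -/
lemma Pr_family {ι : Type*} (hx : ∀ p, 0 < x p) (I : Finset ι) (a : ι → ℕ → ℝ) {η S₂ : ℝ}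
    (hη : 0 < η) (hS : 0 < S₂) (ha : ∀ i ∈ I, ∑ p ∈ P, a i p ^ 2 ≤ S₂) :
    Pr P x (fun A => ∃ i ∈ I, η < |lin P x (a i) A|) ≤
      I.card * (2 * rexp (-(η ^ 2 / (4 * S₂)))) := by
  refine (Pr_exists hx I _).trans ?_
  rw [← nsmul_eq_mul, ← Finset.sum_const]
  exact Finset.sum_le_sum fun i hi => Pr_abs_lin_gt hx (a i) hη hS (ha i hi)

end conc

end Pool.Agent.MP0016c7.Ros
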