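import Mathlib
import Pool.Agent.Lib.MP_0016c7_nt.RosKernel

open Real Set MeasureTheory Filter Topology

namespace Pool.Agent.MP0016c7.Ros

/-- `q_u(η) = ∫_0^u e^{iηv} dv` -/
noncomputable def qu (u η : ℝ) : ℂ := ∫ v in (0 : ℝ)..u, ex (η * v)

lemma norm_qu_le {u : ℝ} (hu : 0 ≤ u) (η : ℝ) : ‖qu u η‖ ≤ u := by
  unfold qu
  have h := intervalIntegral.norm_integral_le_of_norm_le_const (a := 0) (b := u) (C := 1)
    (f := fun v => ex (η * v)) (fun v _ => by simp)
  rw [sub_zero, abs_of_nonneg hu, one_mul] at h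
  exact h

@[fun_prop] lemma continuous_qu (u : ℝ) : Continuous (qu u) := by
  unfold qu
  apply intervalIntegral.continuous_parametric_intervalIntegral_of_continuous'
  fun_prop

lemma mul_norm_qu_le (u η : ℝ) : |η| * ‖qu u η‖ ≤ 2 := by
  rcases eq_or_ne η 0 with rfl | hη
  · simp
  · have h1 : qu u η = (ex (η * u) - 1) / (η * Complex.I) := by
      unfold qu ex
      have h2 : ∀ v : ℝ, Complex.exp (((η * v : ℝ) : ℂ) * Complex.I) =
          Complex.exp ((η * Complex.I) * v) := by
        intro v; push_cast; ring_nf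
      simp_rw [h2]
      rw [integral_exp_mul_complex]
      · simp
      · simp [hη]
    rw [h1, norm_div, norm_mul, Complex.norm_I, mul_one, Complex.norm_real, Real.norm_eq_abs]
    have h3 : ‖ex (η * u) - 1‖ ≤ 2 := by
      rw [norm_sub_rev]; exact norm_one_sub_ex_le_two _
    have h4 : 0 < |η| := abs_pos.mpr hη
    rw [mul_div_cancel₀ _ h4.ne']
    exact h3

/-- smoothed cutoff -/
noncomputable def kapu (u w : ℝ) : ℝ := ∫ v in (0 : ℝ)..u, Kk (v - w)

lemma kapu_fourier {u : ℝ} (w : ℝ) :
    (kapu u w : ℂ) = ∫ η, (gk η : ℂ) * qu u η * ex (-(η * w)) := by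
  unfold kapu
  rw [← intervalIntegral.integral_ofReal]
  have h1 : ∀ v : ℝ, ((Kk (v - w) : ℝ) : ℂ) = ∫ η, (gk η : ℂ) * ex (η * v) * ex (-(η * w)) := by
    intro v
    rw [← integral_gk_ex]
    congr 1
    ext η
    rw [mul_assoc, ← ex_add]
    congr 2
    ring
  simp_rw [h1]
  rw [intervalIntegral_integral_swap]
  · congr 1
    ext η
    rw [intervalIntegral.integral_mul_const, intervalIntegral.integral_const_mul]
    rfl
  · have hdom : Integrable (fun z : ℝ × ℝ => (1 : ℝ) * gk z.2)
        ((volume.restrict (uIoc 0 u)).prod volume) :=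
      Integrable.mul_prod (f := fun _ : ℝ => (1 : ℝ))
        (integrableOn_const (by rw [uIoc]; simp)) integrable_gk
    refine Integrable.mono' hdom ?_ ?_
    · apply Continuous.aestronglyMeasurable
      unfold Function.uncurry
      fun_prop
    · filter_upwards with z
      simp only [Function.uncurry, norm_mul, norm_ex, mul_one, one_mul, Complex.norm_real,
        Real.norm_eq_abs, abs_of_nonneg (gk_nonneg _)]
      exact le_refl _

lemma continuous_kapu (u : ℝ) : Continuous (kapu u) := by
  unfold kapu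
  apply intervalIntegral.continuous_parametric_intervalIntegral_of_continuous'
  fun_prop

lemma kapu_nonneg {u : ℝ} (hu : 0 ≤ u) (w : ℝ) : 0 ≤ kapu u w :=
  intervalIntegral.integral_nonneg hu fun _ _ => Kk_nonneg _

lemma kapu_le {u : ℝ} (hu : 0 ≤ u) (w : ℝ) : kapu u w ≤ cK := by
  unfold kapu cK
  rw [intervalIntegral.integral_of_le hu, ← integral_sub_right_eq_self (fun v => Kk v) w]
  apply setIntegral_le_integral (integrable_Kk.comp_sub_right w)
  filter_upwards with v
  exact Kk_nonneg _

/-- second moment constant -/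
noncomputable def mK : ℝ := ∫ w, (1 + w ^ 2) * Kk w

lemma integrable_mK : Integrable fun w => (1 + w ^ 2) * Kk w := by
  have := integrable_Kk.add integrable_sq_Kk
  refine this.congr ?_
  filter_upwards with w
  simp only [Pi.add_apply]
  ring

lemma mK_nonneg : 0 ≤ mK := integral_nonneg fun w => mul_nonneg (by positivity) (Kk_nonneg w)

/-- tails of `K` over sets where `|w| ≥ r`. -/
lemma tail_le {r : ℝ} {s : Set ℝ} (hs : MeasurableSet s) (h : ∀ w ∈ s, r ^ 2 ≤ w ^ 2) :
    ∫ w in s, Kk w ≤ mK / (1 + r ^ 2) := by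
  rw [le_div_iff₀ (by positivity), ← integral_mul_const]
  calc ∫ w in s, Kk w * (1 + r ^ 2) ≤ ∫ w in s, (1 + w ^ 2) * Kk w := by
        apply setIntegral_mono_on (integrable_Kk.integrableOn.mul_const _)
          integrable_mK.integrableOn hs
        intro w hw
        have := h w hw
        have := Kk_nonneg w
        nlinarith
    _ ≤ mK := by
        apply setIntegral_le_integral integrable_mK
        filter_upwards with w
        exact mul_nonneg (by positivity) (Kk_nonneg w)

lemma kapu_eq_Ioc {u : ℝ} (hu : 0 ≤ u) (w : ℝ) : kapu u w = ∫ x in Ioc (-w) (u - w), Kk x := by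
  unfold kapu
  rw [intervalIntegral.integral_comp_sub_right (fun x => Kk x) w, zero_sub,
    intervalIntegral.integral_of_le (by linarith)]

/-- comparison of the smoothed cutoff with the sharp cutoff. -/
lemma kapu_approx {u w : ℝ} (hu : 0 ≤ u) (hw : 0 ≤ w) :
    |kapu u w - cK * (if w ≤ u then 1 else 0)| ≤ mK / (1 + w ^ 2) + mK / (1 + (w - u) ^ 2) := by
  have hp1 : 0 ≤ mK / (1 + w ^ 2) := div_nonneg mK_nonneg (by positivity)
  have hp2 : 0 ≤ mK / (1 + (w - u) ^ 2) := div_nonneg mK_nonneg (by positivity)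
  split_ifs with h
  · have h1 : cK = (∫ x in Iic (-w), Kk x) + kapu u w + ∫ x in Ioi (u - w), Kk x := by
      have h2 : ∫ x in Iic (u - w), Kk x = (∫ x in Iic (-w), Kk x) + ∫ x in Ioc (-w) (u - w), Kk x := by
        rw [← setIntegral_union _ measurableSet_Ioc integrable_Kk.integrableOn
          integrable_Kk.integrableOn, Iic_union_Ioc_eq_Iic (by linarith)]
        rw [Set.disjoint_left]
        intro x hx hx'
        exact not_lt.mpr hx hx'.1
      unfold cK
      rw [← intervalIntegral.integral_Iic_add_Ioi (b := u - w) integrable_Kk.integrableOn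
        integrable_Kk.integrableOn, h2, kapu_eq_Ioc hu]
    have h3 : ∫ x in Iic (-w), Kk x ≤ mK / (1 + w ^ 2) := by
      apply tail_le measurableSet_Iic
      intro x hx
      have : x ≤ -w := hx
      nlinarith only [hw, this]
    have h4 : ∫ x in Ioi (u - w), Kk x ≤ mK / (1 + (w - u) ^ 2) := by
      apply tail_le measurableSet_Ioi
      intro x hx
      have : u - w < x := hx
      nlinarith only [h, this]
    have h5 : 0 ≤ ∫ x in Iic (-w), Kk x := setIntegral_nonneg measurableSet_Iic fun x _ => Kk_nonneg x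
    have h6 : 0 ≤ ∫ x in Ioi (u - w), Kk x :=
      setIntegral_nonneg measurableSet_Ioi fun x _ => Kk_nonneg x
    rw [abs_le]
    constructor <;> linarith
  · have h1 : kapu u w ≤ mK / (1 + (w - u) ^ 2) := by
      rw [kapu_eq_Ioc hu]
      apply tail_le measurableSet_Ioc
      intro x hx
      have h2 : x ≤ u - w := hx.2
      nlinarith only [h, h2, not_le.mp h]
    have h2 := kapu_nonneg hu w
    rw [mul_zero, sub_zero, abs_of_nonneg h2]
    linarith

/-- The window condition for a nonnegative sequence. -/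
def Window (a : ℕ → ℝ) (C : ℝ) : Prop :=
  ∀ (v : ℝ) (F : Finset ℕ), (∀ n ∈ F, 1 ≤ n ∧ v ≤ Real.log n ∧ Real.log n ≤ v + 1) →
    ∑ n ∈ F, a n / n ≤ C

lemma summable_int_inv : Summable fun j : ℤ => 3 / (1 + (j : ℝ) ^ 2) := by
  have h1 : Summable fun j : ℤ => 1 / (1 + (j : ℝ) ^ 2) := by
    have h2 : Summable fun j : ℤ => 1 / (j : ℝ) ^ 2 :=
      Real.summable_one_div_int_pow.mpr (by norm_num)
    have h3 : Summable fun j : ℤ => 1 / (j : ℝ) ^ 2 + (if j = 0 then 1 else 0) := by
      apply h2.add
      exact (hasSum_ite_eq (0 : ℤ) (1 : ℝ)).summable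
    refine Summable.of_nonneg_of_le (fun j => by positivity) (fun j => ?_) h3
    by_cases hj : j = 0
    · subst hj; simp
    · rw [if_neg hj, add_zero]
      have hj' : (j : ℝ) ≠ 0 := by exact_mod_cast hj
      apply one_div_le_one_div_of_le
      · positivity
      · linarith
  have := h1.mul_left 3
  refine this.congr fun j => ?_
  ring

/-- window sums against `1/(1+(log n - u)²)` -/
lemma window_sum {a : ℕ → ℝ} {C : ℝ} (ha : ∀ n, 0 ≤ a n) (hw : Window a C) (u : ℝ)
    (F : Finset ℕ) (hF : ∀ n ∈ F, 1 ≤ n) :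
    ∑ n ∈ F, a n / n * (1 / (1 + (Real.log n - u) ^ 2)) ≤
      C * ∑' j : ℤ, 3 / (1 + (j : ℝ) ^ 2) := by
  classical
  have hC : 0 ≤ C := by
    have := hw 0 ∅ (by simp)
    simpa using this
  set jf : ℕ → ℤ := fun n => ⌊Real.log n - u⌋ with hjf
  rw [← Finset.sum_fiberwise_of_maps_to (g := jf) (t := F.image jf)
    (fun n hn => Finset.mem_image_of_mem jf hn)]
  have h1 : ∀ j ∈ F.image jf, ∑ n ∈ F with jf n = j, a n / n * (1 / (1 + (Real.log n - u) ^ 2)) ≤
      C * (3 / (1 + (j : ℝ) ^ 2)) := by
    intro j _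
    have h2 : ∀ n ∈ F.filter (fun n => jf n = j), a n / n * (1 / (1 + (Real.log n - u) ^ 2)) ≤
        a n / n * (3 / (1 + (j : ℝ) ^ 2)) := by
      intro n hn
      rw [Finset.mem_filter] at hn
      have h3 := Int.floor_le (Real.log n - u)
      have h4 := Int.lt_floor_add_one (Real.log n - u)
      have h5 : (⌊Real.log n - u⌋ : ℤ) = j := hn.2
      rw [h5] at h3 h4
      apply mul_le_mul_of_nonneg_left _ (div_nonneg (ha n) (Nat.cast_nonneg n))
      rw [div_le_div_iff₀ (by positivity) (by positivity)]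
      nlinarith only [h4, h3, sq_nonneg (Real.log n - u), sq_nonneg (Real.log n - u - j),
        sq_nonneg (2 * (Real.log n - u) - j), sq_nonneg (Real.log n - u - j - 1)]
    refine (Finset.sum_le_sum h2).trans ?_
    rw [← Finset.sum_mul]
    apply mul_le_mul_of_nonneg_right _ (by positivity)
    apply hw (u + j)
    intro n hn
    rw [Finset.mem_filter] at hn
    have h3 := Int.floor_le (Real.log n - u)
    have h4 := Int.lt_floor_add_one (Real.log n - u)
    have h5 : (⌊Real.log n - u⌋ : ℤ) = j := hn.2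
    rw [h5] at h3 h4
    exact ⟨hF n hn.1, by linarith, by linarith⟩
  refine (Finset.sum_le_sum h1).trans ?_
  rw [← Finset.mul_sum]
  apply mul_le_mul_of_nonneg_left _ hC
  exact summable_int_inv.sum_le_tsum _ (fun j _ => by positivity)

end Pool.Agent.MP0016c7.Ros
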