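import Mathlib
import Pool.Agent.Lib.MP_0016c7_nt.RosTauber

open Real Set MeasureTheory Filter Topology

namespace Pool.Agent.MP0016c7.Ros

/-- the kernel weight `g(η) q_u(η)` -/
noncomputable def gq (u η : ℝ) : ℂ := (gk η : ℂ) * qu u η

@[fun_prop] lemma continuous_gq (u : ℝ) : Continuous (gq u) := by unfold gq; fun_prop

lemma norm_gq_le {u : ℝ} (hu : 0 ≤ u) (η : ℝ) : ‖gq u η‖ ≤ gk η * u := by
  unfold gq
  rw [norm_mul, Complex.norm_real, Real.norm_eq_abs, abs_of_nonneg (gk_nonneg _)]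
  exact mul_le_mul_of_nonneg_left (norm_qu_le hu η) (gk_nonneg _)

lemma integrable_gq {u : ℝ} (hu : 0 ≤ u) : Integrable (gq u) := by
  refine Integrable.mono' (integrable_gk.mul_const u) (by fun_prop) ?_
  filter_upwards with η
  exact norm_gq_le hu η

lemma integrable_norm_gq {u : ℝ} (hu : 0 ≤ u) : Integrable fun η => ‖gq u η‖ :=
  (integrable_gq hu).norm

lemma integral_gq (u : ℝ) : ∫ η, gq u η = (kapu u 0 : ℂ) := by
  rw [kapu_fourier]
  simp [gq]

lemma gq_eq_zero {η : ℝ} (u : ℝ) (h : 2 ≤ |η|) : gq u η = 0 := by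
  unfold gq; rw [gk_eq_zero h]; simp

lemma abs_mul_norm_gq_le (u η : ℝ) : ‖gq u η‖ * |η| ≤ 2 * gk η := by
  unfold gq
  rw [norm_mul, Complex.norm_real, Real.norm_eq_abs, abs_of_nonneg (gk_nonneg _)]
  have := mul_norm_qu_le u η
  have h2 := gk_nonneg η
  nlinarith

lemma integral_gk_le : ∫ η, gk η ≤ 2 := by
  have h := integral_gk_ex 0
  simp only [mul_zero, ex_zero, mul_one] at h
  rw [integral_complex_ofReal] at h
  have h2 : ∫ η, gk η = Kk 0 := by exact_mod_cast h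
  rw [h2]
  exact Kk_le_two 0

/-- step (a): a discrete sum against the smoothed cutoff as a frequency integral -/
lemma sum_kapu {c : ℕ → ℝ} (hc : ∀ n, 0 ≤ c n) (hs : Summable c) {u : ℝ} (hu : 0 ≤ u) (ξ : ℝ) :
    HasSum (fun n : ℕ => (c n : ℂ) * ex (-(ξ * Real.log n)) * (kapu u (Real.log n) : ℂ))
      (∫ η, gq u η * ∑' n : ℕ, (c n : ℂ) * ex (-((ξ + η) * Real.log n))) := by
  have hF : ∀ n : ℕ, Integrable fun η : ℝ =>
      gq u η * ((c n : ℂ) * ex (-((ξ + η) * Real.log n))) := by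
    intro n
    refine (integrable_gq hu).mul_bdd (c := c n) (by fun_prop) ?_
    filter_upwards with η
    rw [norm_mul, norm_ex, mul_one, Complex.norm_real, Real.norm_eq_abs, abs_of_nonneg (hc n)]
  have h1 := hasSum_integral_of_summable_integral_norm hF (by
    have : ∀ n : ℕ, ∫ η : ℝ, ‖gq u η * ((c n : ℂ) * ex (-((ξ + η) * Real.log n)))‖ =
        (∫ η, ‖gq u η‖) * c n := by
      intro n
      rw [← integral_mul_const]
      congr 1
      ext η
      rw [norm_mul, norm_mul, norm_ex, mul_one, Complex.norm_real, Real.norm_eq_abs,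
        abs_of_nonneg (hc n)]
    simp_rw [this]
    exact hs.mul_left _)
  have e : ∀ n : ℕ, ∫ η : ℝ, gq u η * ((c n : ℂ) * ex (-((ξ + η) * Real.log n))) =
      (c n : ℂ) * ex (-(ξ * Real.log n)) * (kapu u (Real.log n) : ℂ) := by
    intro n
    rw [kapu_fourier, ← integral_const_mul]
    congr 1
    ext η
    have : ex (-((ξ + η) * Real.log n)) = ex (-(ξ * Real.log n)) * ex (-(η * Real.log n)) := by
      rw [← ex_add]; congr 1; ring
    rw [this]
    unfold gq
    ring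
  simp_rw [e, tsum_mul_left] at h1
  exact h1

lemma integral_exp_ex {ε : ℝ} (hε : 0 < ε) (t : ℝ) :
    ∫ w in Ioi (0 : ℝ), (rexp (-(ε * w)) : ℂ) * ex (-(t * w)) = 1 / ((ε : ℂ) + t * Complex.I) := by
  have h1 : ∀ w : ℝ, (rexp (-(ε * w)) : ℂ) * ex (-(t * w)) =
      Complex.exp (-((ε : ℂ) + t * Complex.I) * w) := by
    intro w
    unfold ex
    rw [Complex.ofReal_exp, ← Complex.exp_add]
    congr 1
    push_cast
    ring
  simp_rw [h1]
  rw [integral_exp_mul_complex_Ioi (by simp [hε])]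
  simp only [Complex.ofReal_zero, mul_zero, Complex.exp_zero]
  rw [neg_div_neg_eq]

/-- step (c): the continuous analogue -/
lemma integral_kapu {ε : ℝ} (hε : 0 < ε) {u : ℝ} (hu : 0 ≤ u) (ξ : ℝ) :
    ∫ w in Ioi (0 : ℝ), (rexp (-(ε * w)) : ℂ) * ex (-(ξ * w)) * (kapu u w : ℂ) =
      ∫ η, gq u η * (1 / ((ε : ℂ) + (ξ + η : ℝ) * Complex.I)) := by
  have h1 : ∀ w : ℝ, (rexp (-(ε * w)) : ℂ) * ex (-(ξ * w)) * (kapu u w : ℂ) =
      ∫ η, gq u η * ((rexp (-(ε * w)) : ℂ) * ex (-((ξ + η) * w))) := by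
    intro w
    rw [kapu_fourier, ← integral_const_mul]
    congr 1
    ext η
    have : ex (-((ξ + η) * w)) = ex (-(ξ * w)) * ex (-(η * w)) := by
      rw [← ex_add]; congr 1; ring
    rw [this]
    unfold gq
    ring
  simp_rw [h1]
  rw [integral_integral_swap]
  · congr 1
    ext η
    rw [integral_const_mul, integral_exp_ex hε]
  · have hdom : Integrable (fun z : ℝ × ℝ => rexp (-ε * z.1) * (gk z.2 * u))
        ((volume.restrict (Ioi (0 : ℝ))).prod volume) :=
      Integrable.mul_prod (f := fun w : ℝ => rexp (-ε * w)) (g := fun η => gk η * u)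
        (integrableOn_exp_mul_Ioi (by linarith) 0) (integrable_gk.mul_const u)
    refine Integrable.mono' hdom ?_ ?_
    · apply Continuous.aestronglyMeasurable
      unfold Function.uncurry
      fun_prop
    · filter_upwards with z
      simp only [Function.uncurry, norm_mul, norm_ex, mul_one, Complex.norm_real,
        Real.norm_eq_abs, abs_of_pos (exp_pos _)]
      have := norm_gq_le hu z.2
      have h3 := exp_pos (-(ε * z.1))
      rw [neg_mul]
      nlinarith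

/-- step (d) -/
lemma integral_gq_H {u : ℝ} (hu : 0 ≤ u) {ξ T M L : ℝ} (hξ : |ξ| ≤ T) {H : ℝ → ℂ}
    (hM : ∀ t, |t| ≤ T + 2 → ‖H t‖ ≤ M) (hL0 : 0 ≤ L)
    (hL : ∀ t t', |t| ≤ T + 2 → |t'| ≤ T + 2 → ‖H t - H t'‖ ≤ L * |t - t'|)
    (hint : Integrable fun η => gq u η * H (ξ + η)) :
    ‖∫ η, gq u η * H (ξ + η)‖ ≤ M * cK + 4 * L := by
  have h1 : ∫ η, gq u η * H (ξ + η) =
      (∫ η, gq u η * (H (ξ + η) - H ξ)) + (kapu u 0 : ℂ) * H ξ := by
    rw [← integral_gq, ← integral_mul_const, ← integral_add]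
    · congr 1
      ext η
      ring
    · have := hint.sub ((integrable_gq hu).mul_const (H ξ))
      refine this.congr ?_
      filter_upwards with η
      simp only [Pi.sub_apply]
      ring
    · exact (integrable_gq hu).mul_const _
  rw [h1]
  have h2 : ‖∫ η, gq u η * (H (ξ + η) - H ξ)‖ ≤ ∫ η, 2 * L * gk η := by
    apply norm_integral_le_of_norm_le (integrable_gk.const_mul _)
    filter_upwards with η
    rcases le_or_gt 2 |η| with h | h
    · rw [gq_eq_zero u h, zero_mul, norm_zero]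
      exact mul_nonneg (by positivity) (gk_nonneg _)
    · rw [norm_mul]
      have h3 : |ξ + η| ≤ T + 2 := (abs_add_le _ _).trans (by linarith)
      have h4 := hL (ξ + η) ξ h3 (by linarith)
      have h5 : ξ + η - ξ = η := by ring
      rw [h5] at h4
      calc ‖gq u η‖ * ‖H (ξ + η) - H ξ‖ ≤ ‖gq u η‖ * (L * |η|) :=
            mul_le_mul_of_nonneg_left h4 (norm_nonneg _)
        _ = L * (‖gq u η‖ * |η|) := by ring
        _ ≤ L * (2 * gk η) := mul_le_mul_of_nonneg_left (abs_mul_norm_gq_le u η) hL0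
        _ = _ := by ring
  rw [integral_const_mul] at h2
  have h3 := integral_gk_le
  have h4 : ‖(kapu u 0 : ℂ) * H ξ‖ ≤ cK * M := by
    rw [norm_mul, Complex.norm_real, Real.norm_eq_abs, abs_of_nonneg (kapu_nonneg hu 0)]
    exact mul_le_mul (kapu_le hu 0) (hM ξ (by linarith)) (norm_nonneg _) cK_pos.le
  calc _ ≤ ‖∫ η, gq u η * (H (ξ + η) - H ξ)‖ + ‖(kapu u 0 : ℂ) * H ξ‖ := norm_add_le _ _
    _ ≤ 2 * L * 2 + cK * M := add_le_add (h2.trans (mul_le_mul_of_nonneg_left h3 (by positivity))) h4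
    _ = _ := by ring

/-- hypothesis of the abstract theorem -/
structure TMdata (a : ℕ → ℝ) (ρ T M L C : ℝ) (H : ℝ → ℝ → ℂ) : Prop where
  nonneg : ∀ n, 0 ≤ a n
  win : Window a C
  summ : ∀ ε, 0 < ε → Summable fun n : ℕ => a n / n * rexp (-(ε * Real.log n))
  dir : ∀ ε, 0 < ε → ε ≤ 1 → ∀ t, |t| ≤ T + 2 →
    ∑' n : ℕ, ((a n / n * rexp (-(ε * Real.log n)) : ℝ) : ℂ) * ex (-(t * Real.log n)) =
      ρ * (1 / ((ε : ℂ) + t * Complex.I)) + H ε t
  bdd : ∀ ε, 0 < ε → ε ≤ 1 → ∀ t, |t| ≤ T + 2 → ‖H ε t‖ ≤ M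
  L0 : 0 ≤ L
  lip : ∀ ε, 0 < ε → ε ≤ 1 → ∀ t t', |t| ≤ T + 2 → |t'| ≤ T + 2 →
    ‖H ε t - H ε t'‖ ≤ L * |t - t'|

variable {a : ℕ → ℝ} {ρ T M L C : ℝ} {H : ℝ → ℝ → ℂ}

/-- smoothed form of the theorem -/
lemma TMdata.smooth (h : TMdata a ρ T M L C H) {ε : ℝ} (hε : 0 < ε) (hε1 : ε ≤ 1) {ξ u : ℝ}
    (hξ : |ξ| ≤ T) (hu : 0 ≤ u) :
    ‖(∑' n : ℕ, ((a n / n * rexp (-(ε * Real.log n)) : ℝ) : ℂ) * ex (-(ξ * Real.log n)) *
        (kapu u (Real.log n) : ℂ)) -
      ρ * ∫ w in Ioi (0 : ℝ), (rexp (-(ε * w)) : ℂ) * ex (-(ξ * w)) * (kapu u w : ℂ)‖ ≤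
      M * cK + 4 * L := by
  have hc : ∀ n : ℕ, 0 ≤ a n / n * rexp (-(ε * Real.log n)) := fun n =>
    mul_nonneg (div_nonneg (h.nonneg n) (Nat.cast_nonneg n)) (exp_pos _).le
  have h1 := (sum_kapu hc (h.summ ε hε) hu ξ)
  rw [h1.tsum_eq, integral_kapu hε hu ξ, ← integral_const_mul]
  have hI1 : Integrable fun η : ℝ => gq u η *
      ∑' n : ℕ, ((a n / n * rexp (-(ε * Real.log n)) : ℝ) : ℂ) *
        ex (-((ξ + η) * Real.log n)) := by
    refine (integrable_gq hu).mul_bdd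
      (c := ∑' n : ℕ, a n / n * rexp (-(ε * Real.log n))) ?_ ?_
    · apply Continuous.aestronglyMeasurable
      refine continuous_tsum (fun n => by fun_prop) (h.summ ε hε) ?_
      intro n η
      rw [norm_mul, norm_ex, mul_one, Complex.norm_real, Real.norm_eq_abs, abs_of_nonneg (hc n)]
    · filter_upwards with η
      refine (norm_tsum_le_tsum_norm ?_).trans (le_of_eq ?_)
      · refine (h.summ ε hε).congr fun n => ?_
        rw [norm_mul, norm_ex, mul_one, Complex.norm_real, Real.norm_eq_abs, abs_of_nonneg (hc n)]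
      · congr 1
        ext n
        rw [norm_mul, norm_ex, mul_one, Complex.norm_real, Real.norm_eq_abs, abs_of_nonneg (hc n)]
  have hI2 : Integrable fun η : ℝ => (ρ : ℂ) * (gq u η *
      (1 / ((ε : ℂ) + (ξ + η : ℝ) * Complex.I))) := by
    refine ((integrable_gq hu).mul_bdd (c := 1 / ε) ?_ ?_).const_mul _
    · apply Continuous.aestronglyMeasurable
      apply Continuous.div continuous_const (by fun_prop)
      intro η h0
      have := congrArg Complex.re h0
      simp at this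
      linarith
    · filter_upwards with η
      rw [norm_div, norm_one]
      apply one_div_le_one_div_of_le hε
      have h3 := Complex.abs_re_le_norm ((ε : ℂ) + (ξ + η : ℝ) * Complex.I)
      simp at h3
      rw [abs_of_pos hε] at h3
      simpa using h3
  have hpt : ∀ η : ℝ, gq u η *
      (∑' n : ℕ, ((a n / n * rexp (-(ε * Real.log n)) : ℝ) : ℂ) *
        ex (-((ξ + η) * Real.log n))) - (ρ : ℂ) * (gq u η *
      (1 / ((ε : ℂ) + (ξ + η : ℝ) * Complex.I))) = gq u η * H ε (ξ + η) := by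
    intro η
    rcases le_or_gt 2 |η| with h2 | h2
    · rw [gq_eq_zero u h2]; ring
    · have h3 : |ξ + η| ≤ T + 2 := (abs_add_le _ _).trans (by linarith)
      rw [h.dir ε hε hε1 _ h3]
      ring
  rw [← integral_sub hI1 hI2]
  simp_rw [hpt]
  refine integral_gq_H hu hξ (fun t ht => h.bdd ε hε hε1 t ht) h.L0
    (fun t t' ht ht' => h.lip ε hε hε1 t t' ht ht') ?_
  refine (hI1.sub hI2).congr ?_
  filter_upwards with η
  exact hpt η

/-- error function of the smoothed cutoff -/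
lemma kapu_err_nonneg (u w : ℝ) : 0 ≤ mK / (1 + w ^ 2) + mK / (1 + (w - u) ^ 2) :=
  add_nonneg (div_nonneg mK_nonneg (by positivity)) (div_nonneg mK_nonneg (by positivity))

/-- the window constant -/
noncomputable def sJ : ℝ := ∑' j : ℤ, 3 / (1 + (j : ℝ) ^ 2)

lemma tsum_window_le {a : ℕ → ℝ} {C : ℝ} (ha : ∀ n, 0 ≤ a n) (hw : Window a C) (u : ℝ) :
    Summable (fun n : ℕ => a n / n * (1 / (1 + (Real.log n - u) ^ 2))) ∧
    ∑' n : ℕ, a n / n * (1 / (1 + (Real.log n - u) ^ 2)) ≤ C * sJ := by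
  have h0 : ∀ n : ℕ, 0 ≤ a n / n * (1 / (1 + (Real.log n - u) ^ 2)) := fun n =>
    mul_nonneg (div_nonneg (ha n) (Nat.cast_nonneg n)) (by positivity)
  have h1 : ∀ F : Finset ℕ, ∑ n ∈ F, a n / n * (1 / (1 + (Real.log n - u) ^ 2)) ≤ C * sJ := by
    intro F
    have h2 := window_sum ha hw u (F.filter fun n => 1 ≤ n) (by simp)
    refine le_trans (le_of_eq ?_) h2
    rw [Finset.sum_filter]
    apply Finset.sum_congr rfl
    intro n _
    split_ifs with h
    · rfl
    · have : n = 0 := by omega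
      subst this
      simp
  exact ⟨summable_of_sum_le h0 h1, Real.tsum_le_of_sum_le h0 h1⟩

/-- natural numbers `1 ≤ n ≤ e^u` -/
noncomputable def Nu (u : ℝ) : Finset ℕ := Finset.Icc 1 ⌊rexp u⌋₊

lemma mem_Nu {u : ℝ} {n : ℕ} : n ∈ Nu u ↔ 1 ≤ n ∧ Real.log n ≤ u := by
  unfold Nu
  rw [Finset.mem_Icc]
  constructor
  · rintro ⟨h1, h2⟩
    refine ⟨h1, ?_⟩
    have h3 : (n : ℝ) ≤ rexp u := (Nat.le_floor_iff (exp_pos u).le).mp h2
    have h4 : (0 : ℝ) < n := by exact_mod_cast h1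
    rw [← Real.log_exp u]
    exact Real.log_le_log h4 h3
  · rintro ⟨h1, h2⟩
    refine ⟨h1, ?_⟩
    rw [Nat.le_floor_iff (exp_pos u).le]
    have h4 : (0 : ℝ) < n := by exact_mod_cast h1
    exact (Real.log_le_iff_le_exp h4).mp h2

lemma kapu_err_discrete {a : ℕ → ℝ} {C : ℝ} (ha : ∀ n, 0 ≤ a n) (hw : Window a C) {u : ℝ}
    (hu : 0 ≤ u) {ε : ℝ} (hε : 0 < ε)
    (hs : Summable fun n : ℕ => a n / n * rexp (-(ε * Real.log n))) (ξ : ℝ) :
    ‖(∑' n : ℕ, ((a n / n * rexp (-(ε * Real.log n)) : ℝ) : ℂ) * ex (-(ξ * Real.log n)) *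
        (kapu u (Real.log n) : ℂ)) -
      cK * ∑ n ∈ Nu u, ((a n / n * rexp (-(ε * Real.log n)) : ℝ) : ℂ) *
        ex (-(ξ * Real.log n))‖ ≤ 2 * mK * (C * sJ) := by
  have hc : ∀ n : ℕ, 0 ≤ a n / n * rexp (-(ε * Real.log n)) := fun n =>
    mul_nonneg (div_nonneg (ha n) (Nat.cast_nonneg n)) (exp_pos _).le
  have hnorm : ∀ n : ℕ, ‖((a n / n * rexp (-(ε * Real.log n)) : ℝ) : ℂ) *
      ex (-(ξ * Real.log n))‖ = a n / n * rexp (-(ε * Real.log n)) := by
    intro n
    rw [norm_mul, norm_ex, mul_one, Complex.norm_real, Real.norm_eq_abs, abs_of_nonneg (hc n)]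
  set f : ℕ → ℂ := fun n => ((a n / n * rexp (-(ε * Real.log n)) : ℝ) : ℂ) *
      ex (-(ξ * Real.log n)) with hf
  have h1 : (cK : ℂ) * ∑ n ∈ Nu u, f n =
      ∑' n : ℕ, f n * ((cK * (if Real.log n ≤ u then 1 else 0) : ℝ) : ℂ) := by
    rw [Finset.mul_sum, tsum_eq_sum (s := Nu u)]
    · apply Finset.sum_congr rfl
      intro n hn
      rw [if_pos (mem_Nu.mp hn).2]
      push_cast
      ring
    · intro n hn
      rw [mem_Nu, not_and_or] at hn
      rcases hn with h | h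
      · have : n = 0 := by omega
        subst this
        simp [hf]
      · rw [if_neg h]; simp
  have hsum1 : Summable fun n : ℕ => f n * (kapu u (Real.log n) : ℂ) := by
    refine Summable.of_norm_bounded (hs.mul_right cK) fun n => ?_
    rw [norm_mul, hnorm, Complex.norm_real, Real.norm_eq_abs, abs_of_nonneg (kapu_nonneg hu _)]
    exact mul_le_mul_of_nonneg_left (kapu_le hu _) (hc n)
  have hsum2 : Summable fun n : ℕ =>
      f n * ((cK * (if Real.log n ≤ u then 1 else 0) : ℝ) : ℂ) := by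
    refine Summable.of_norm_bounded (hs.mul_right cK) fun n => ?_
    rw [norm_mul, hnorm, Complex.norm_real, Real.norm_eq_abs]
    apply mul_le_mul_of_nonneg_left _ (hc n)
    have := cK_pos
    split_ifs
    · rw [mul_one, abs_of_pos this]
    · simp only [mul_zero, abs_zero]; linarith
  rw [h1, ← hsum1.tsum_sub hsum2]
  obtain ⟨w1, w2⟩ := tsum_window_le ha hw 0
  obtain ⟨w3, w4⟩ := tsum_window_le ha hw u
  have hb : ∀ n : ℕ, ‖f n * (kapu u (Real.log n) : ℂ) -
      f n * ((cK * (if Real.log n ≤ u then 1 else 0) : ℝ) : ℂ)‖ ≤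
      mK * (a n / n * (1 / (1 + (Real.log n - 0) ^ 2))) +
      mK * (a n / n * (1 / (1 + (Real.log n - u) ^ 2))) := by
    intro n
    rw [← mul_sub, norm_mul, hnorm, ← Complex.ofReal_sub, Complex.norm_real, Real.norm_eq_abs]
    have h2 := kapu_approx hu (Real.log_natCast_nonneg n)
    have h3 : a n / n * rexp (-(ε * Real.log n)) ≤ a n / n := by
      apply mul_le_of_le_one_right (div_nonneg (ha n) (Nat.cast_nonneg n))
      rw [exp_le_one_iff]
      have := mul_nonneg hε.le (Real.log_natCast_nonneg n)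
      linarith
    calc _ ≤ a n / n * (mK / (1 + Real.log n ^ 2) + mK / (1 + (Real.log n - u) ^ 2)) :=
          mul_le_mul h3 h2 (abs_nonneg _) (div_nonneg (ha n) (Nat.cast_nonneg n))
      _ = _ := by rw [sub_zero]; ring
  refine (tsum_of_norm_bounded ((w1.mul_left mK).add (w3.mul_left mK)).hasSum hb).trans ?_
  rw [(w1.mul_left mK).tsum_add (w3.mul_left mK), tsum_mul_left, tsum_mul_left]
  have := mK_nonneg
  nlinarith only [w2, this, w4]

lemma integral_Ioi_err (u : ℝ) :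
    IntegrableOn (fun w : ℝ => mK / (1 + w ^ 2) + mK / (1 + (w - u) ^ 2)) (Ioi 0) ∧
    ∫ w in Ioi (0 : ℝ), (mK / (1 + w ^ 2) + mK / (1 + (w - u) ^ 2)) ≤ 2 * π * mK := by
  have h1 : Integrable fun w : ℝ => mK / (1 + w ^ 2) := by
    refine (integrable_inv_one_add_sq.const_mul mK).congr ?_
    filter_upwards with w
    rw [div_eq_mul_inv]
  have h2 : Integrable fun w : ℝ => mK / (1 + (w - u) ^ 2) := h1.comp_sub_right u
  have h3 : ∫ w : ℝ, mK / (1 + w ^ 2) = mK * π := by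
    have : ∀ w : ℝ, mK / (1 + w ^ 2) = mK * (1 + w ^ 2)⁻¹ := fun w => div_eq_mul_inv _ _
    simp_rw [this]
    rw [integral_const_mul, integral_univ_inv_one_add_sq]
  refine ⟨(h1.add h2).integrableOn, ?_⟩
  calc ∫ w in Ioi (0 : ℝ), (mK / (1 + w ^ 2) + mK / (1 + (w - u) ^ 2))
      ≤ ∫ w : ℝ, (mK / (1 + w ^ 2) + mK / (1 + (w - u) ^ 2)) := by
        apply setIntegral_le_integral (h1.add h2)
        filter_upwards with w
        exact kapu_err_nonneg u w
    _ = 2 * π * mK := by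
        rw [integral_add h1 h2, integral_sub_right_eq_self (fun w => mK / (1 + w ^ 2)) u, h3]
        ring

lemma kapu_err_cont {u : ℝ} (hu : 0 ≤ u) {ε : ℝ} (hε : 0 < ε) (ξ : ℝ) :
    ‖(∫ w in Ioi (0 : ℝ), (rexp (-(ε * w)) : ℂ) * ex (-(ξ * w)) * (kapu u w : ℂ)) -
      cK * ∫ w in (0 : ℝ)..u, (rexp (-(ε * w)) : ℂ) * ex (-(ξ * w))‖ ≤ 2 * π * mK := by
  have hexp : IntegrableOn (fun w : ℝ => rexp (-(ε * w))) (Ioi 0) := by
    have := integrableOn_exp_mul_Ioi (a := -ε) (by linarith) 0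
    refine this.congr_fun (fun w _ => ?_) measurableSet_Ioi
    simp only [neg_mul]
  have hi1 : IntegrableOn (fun w : ℝ => (rexp (-(ε * w)) : ℂ) * ex (-(ξ * w)) *
      (kapu u w : ℂ)) (Ioi 0) := by
    refine Integrable.mono' (hexp.mul_const cK) ?_ ?_
    · have := continuous_kapu u
      apply Continuous.aestronglyMeasurable
      fun_prop
    · filter_upwards with w
      rw [norm_mul, norm_mul, norm_ex, mul_one, Complex.norm_real, Complex.norm_real,
        Real.norm_eq_abs, Real.norm_eq_abs, abs_of_pos (exp_pos _),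
        abs_of_nonneg (kapu_nonneg hu _)]
      exact mul_le_mul_of_nonneg_left (kapu_le hu _) (exp_pos _).le
  have e1 : (cK : ℂ) * ∫ w in (0 : ℝ)..u, (rexp (-(ε * w)) : ℂ) * ex (-(ξ * w)) =
      ∫ w in Ioi (0 : ℝ), (rexp (-(ε * w)) : ℂ) * ex (-(ξ * w)) *
        ((cK * (if w ≤ u then 1 else 0) : ℝ) : ℂ) := by
    rw [intervalIntegral.integral_of_le hu, ← integral_const_mul]
    have : Ioc 0 u = Ioi 0 ∩ Iic u := by ext; simp
    rw [this, ← setIntegral_indicator measurableSet_Iic]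
    congr 1
    ext w
    by_cases h : w ≤ u
    · rw [indicator_of_mem (show w ∈ Iic u from h), if_pos h]
      push_cast
      ring
    · rw [indicator_of_notMem (show w ∉ Iic u from h), if_neg h]
      simp
  have hi2 : IntegrableOn (fun w : ℝ => (rexp (-(ε * w)) : ℂ) * ex (-(ξ * w)) *
        ((cK * (if w ≤ u then 1 else 0) : ℝ) : ℂ)) (Ioi 0) := by
    refine Integrable.mono' (hexp.mul_const cK) ?_ ?_
    · apply Measurable.aestronglyMeasurable
      apply Measurable.mul (by fun_prop)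
      apply Complex.measurable_ofReal.comp
      apply Measurable.const_mul
      exact Measurable.ite (measurableSet_Iic) measurable_const measurable_const
    · filter_upwards with w
      rw [norm_mul, norm_mul, norm_ex, mul_one, Complex.norm_real, Complex.norm_real,
        Real.norm_eq_abs, Real.norm_eq_abs, abs_of_pos (exp_pos _)]
      apply mul_le_mul_of_nonneg_left _ (exp_pos _).le
      have := cK_pos
      split_ifs
      · rw [mul_one, abs_of_pos this]
      · simp only [mul_zero, abs_zero]; linarith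
  rw [e1, ← integral_sub hi1 hi2]
  obtain ⟨w1, w2⟩ := integral_Ioi_err u
  refine (norm_integral_le_of_norm_le w1 ?_).trans w2
  filter_upwards [ae_restrict_mem measurableSet_Ioi] with w hw
  have hw0 : (0 : ℝ) < w := hw
  rw [← mul_sub, norm_mul, norm_mul, norm_ex, mul_one, ← Complex.ofReal_sub, Complex.norm_real,
    Complex.norm_real, Real.norm_eq_abs, Real.norm_eq_abs, abs_of_pos (exp_pos _)]
  have h2 := kapu_approx hu hw0.le
  have h3 : rexp (-(ε * w)) ≤ 1 := by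
    rw [exp_le_one_iff]
    have := mul_pos hε hw0
    linarith
  calc _ ≤ 1 * (mK / (1 + w ^ 2) + mK / (1 + (w - u) ^ 2)) :=
        mul_le_mul h3 h2 (abs_nonneg _) zero_le_one
    _ = _ := one_mul _

/-- **Abstract theorem.** -/
theorem TMdata.main {a : ℕ → ℝ} {ρ T M L C : ℝ} {H : ℝ → ℝ → ℂ} (h : TMdata a ρ T M L C H) :
    ∃ B : ℝ, ∀ ξ u : ℝ, |ξ| ≤ T → 0 ≤ u →
      ‖(∑ n ∈ Nu u, ((a n / n : ℝ) : ℂ) * ex (-(ξ * Real.log n))) -
        ρ * ∫ w in (0 : ℝ)..u, ex (-(ξ * w))‖ ≤ B := by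
  set B := M * cK + 4 * L + 2 * mK * (C * sJ) + |ρ| * (2 * π * mK) with hB
  refine ⟨B / cK, fun ξ u hξ hu => ?_⟩
  have hcK := cK_pos
  have key : ∀ ε : ℝ, 0 < ε → ε ≤ 1 →
      ‖(cK : ℂ) * ((∑ n ∈ Nu u, ((a n / n * rexp (-(ε * Real.log n)) : ℝ) : ℂ) *
        ex (-(ξ * Real.log n))) -
        ρ * ∫ w in (0 : ℝ)..u, (rexp (-(ε * w)) : ℂ) * ex (-(ξ * w)))‖ ≤ B := by
    intro ε hε hε1
    have h1 := h.smooth hε hε1 hξ hu
    have h2 := kapu_err_discrete h.nonneg h.win hu hε (h.summ ε hε) ξ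
    have h3 := kapu_err_cont hu hε ξ
    set A1 := ∑' n : ℕ, ((a n / n * rexp (-(ε * Real.log n)) : ℝ) : ℂ) *
      ex (-(ξ * Real.log n)) * (kapu u (Real.log n) : ℂ)
    set A2 := ∑ n ∈ Nu u, ((a n / n * rexp (-(ε * Real.log n)) : ℝ) : ℂ) *
        ex (-(ξ * Real.log n))
    set I1 := ∫ w in Ioi (0 : ℝ), (rexp (-(ε * w)) : ℂ) * ex (-(ξ * w)) * (kapu u w : ℂ)
    set I2 := ∫ w in (0 : ℝ)..u, (rexp (-(ε * w)) : ℂ) * ex (-(ξ * w))
    have e : (cK : ℂ) * (A2 - ρ * I2) = (A1 - ρ * I1) - (A1 - cK * A2) + ρ * (I1 - cK * I2) := by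
      ring
    rw [e]
    calc _ ≤ ‖A1 - ρ * I1‖ + ‖A1 - cK * A2‖ + ‖(ρ : ℂ) * (I1 - cK * I2)‖ :=
          (norm_add_le _ _).trans (add_le_add_left (norm_sub_le _ _) _)
      _ ≤ (M * cK + 4 * L) + 2 * mK * (C * sJ) + |ρ| * (2 * π * mK) := by
          rw [norm_mul, Complex.norm_real, Real.norm_eq_abs]
          exact add_le_add (add_le_add h1 h2) (mul_le_mul_of_nonneg_left h3 (abs_nonneg _))
  have hcont : Continuous fun ε : ℝ =>
      ‖(cK : ℂ) * ((∑ n ∈ Nu u, ((a n / n * rexp (-(ε * Real.log n)) : ℝ) : ℂ) *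
        ex (-(ξ * Real.log n))) -
        ρ * ∫ w in (0 : ℝ)..u, (rexp (-(ε * w)) : ℂ) * ex (-(ξ * w)))‖ := by
    have h1 : Continuous fun ε : ℝ =>
        ∫ w in (0 : ℝ)..u, (rexp (-(ε * w)) : ℂ) * ex (-(ξ * w)) := by
      apply intervalIntegral.continuous_parametric_intervalIntegral_of_continuous'
      unfold Function.uncurry
      fun_prop
    fun_prop
  have hlim := (hcont.tendsto 0).mono_left (nhdsWithin_le_nhds (s := Ioi 0))
  have hle := le_of_tendsto hlim (by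
    filter_upwards [Ioc_mem_nhdsGT (zero_lt_one : (0 : ℝ) < 1)] with ε hε
    exact key ε hε.1 hε.2)
  simp only [zero_mul, neg_zero, exp_zero, mul_one, Complex.ofReal_one, one_mul] at hle
  rw [norm_mul, Complex.norm_real, Real.norm_eq_abs, abs_of_pos hcK] at hle
  rw [le_div_iff₀ hcK, mul_comm]
  exact hle

end Pool.Agent.MP0016c7.Ros
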