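import Mathlib
import Pool.Agent.Lib.MP_0016c7_nt.RosTM
import Pool.Agent.Lib.MP_0016c7_nt.Arith

open Real Set MeasureTheory Filter Topology
open scoped ArithmeticFunction

namespace Pool.Agent.MP0016c7.Ros

open DirichletCharacter ArithmeticFunction

/-! ### Windows for the von Mangoldt function -/

/-- the non-prime part of `Λ(n)/n` -/
noncomputable def npL (n : ℕ) : ℝ := (if n.Prime then 0 else vonMangoldt n) / n

lemma npL_nonneg (n : ℕ) : 0 ≤ npL n := by
  unfold npL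
  split_ifs
  · simp
  · exact div_nonneg vonMangoldt_nonneg (Nat.cast_nonneg n)

lemma summable_npL : Summable npL := by
  have h := vonMangoldt.summable_residueClass_non_primes_div (0 : ZMod 1)
  refine h.congr fun n => ?_
  unfold npL
  congr 2
  rw [vonMangoldt.residueClass, indicator_of_mem]
  exact Subsingleton.elim _ _

lemma window_primes (v : ℝ) (F : Finset ℕ)
    (hF : ∀ n ∈ F, n.Prime ∧ v ≤ Real.log n ∧ Real.log n ≤ v + 1) :
    ∑ p ∈ F, Real.log p / p ≤ rexp 1 * Real.log 4 := by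
  have h1 : ∀ p ∈ F, Real.log p / p ≤ rexp (-v) * Real.log p := by
    intro p hp
    obtain ⟨hp1, hp2, hp3⟩ := hF p hp
    have hp0 : (0 : ℝ) < p := by exact_mod_cast hp1.pos
    have h2 : rexp v ≤ p := (Real.le_log_iff_exp_le hp0).mp hp2
    rw [div_eq_mul_inv, mul_comm]
    apply mul_le_mul_of_nonneg_right _ (Real.log_natCast_nonneg p)
    rw [exp_neg]
    exact inv_anti₀ (exp_pos v) h2
  refine (Finset.sum_le_sum h1).trans ?_
  rw [← Finset.mul_sum]
  have h2 : ∑ p ∈ F, Real.log p ≤ Chebyshev.theta (rexp (v + 1)) := by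
    unfold Chebyshev.theta
    apply Finset.sum_le_sum_of_subset_of_nonneg
    · intro p hp
      obtain ⟨hp1, hp2, hp3⟩ := hF p hp
      have hp0 : (0 : ℝ) < p := by exact_mod_cast hp1.pos
      rw [Finset.mem_filter, Finset.mem_Ioc]
      refine ⟨⟨hp1.pos, ?_⟩, hp1⟩
      rw [Nat.le_floor_iff (exp_pos _).le]
      exact (Real.log_le_iff_le_exp hp0).mp hp3
    · intro p _ _
      exact Real.log_natCast_nonneg p
  have h3 := Chebyshev.theta_le_log4_mul_x (exp_pos (v + 1)).le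
  calc rexp (-v) * ∑ p ∈ F, Real.log p ≤ rexp (-v) * (Real.log 4 * rexp (v + 1)) :=
        mul_le_mul_of_nonneg_left (h2.trans h3) (exp_pos _).le
    _ = (rexp (-v) * rexp (v + 1)) * Real.log 4 := by ring
    _ = rexp 1 * Real.log 4 := by rw [← exp_add]; congr 2; ring

/-- window constant for `Λ` -/
noncomputable def cW : ℝ := rexp 1 * Real.log 4 + ∑' n, npL n

lemma cW_pos : 0 < cW := by
  have h1 : 0 ≤ ∑' n, npL n := tsum_nonneg npL_nonneg
  have h2 : 0 < Real.log 4 := Real.log_pos (by norm_num)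
  have h3 := exp_pos 1
  unfold cW
  positivity

lemma window_vonMangoldt {a : ℕ → ℝ} (ha : ∀ n, a n ≤ vonMangoldt n) : Window a cW := by
  intro v F hF
  classical
  have h1 : ∑ n ∈ F, a n / n ≤ ∑ n ∈ F, vonMangoldt n / n :=
    Finset.sum_le_sum fun n _ => div_le_div_of_nonneg_right (ha n) (Nat.cast_nonneg n)
  refine h1.trans ?_
  have h2 : ∑ n ∈ F, vonMangoldt n / n =
      ∑ n ∈ F with n.Prime, Real.log n / n + ∑ n ∈ F, npL n := by
    rw [Finset.sum_filter, ← Finset.sum_add_distrib]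
    apply Finset.sum_congr rfl
    intro n _
    unfold npL
    split_ifs with h
    · rw [vonMangoldt_apply_prime h]; simp
    · simp
  rw [h2]
  unfold cW
  apply add_le_add
  · apply window_primes v
    intro n hn
    rw [Finset.mem_filter] at hn
    exact ⟨hn.2, (hF n hn.1).2⟩
  · exact summable_npL.sum_le_tsum F fun n _ => npL_nonneg n

variable {N : ℕ} [NeZero N] (χ : DirichletCharacter ℂ N)

/-- the sequence whose prime part is the set of inert primes -/
noncomputable def aI (n : ℕ) : ℝ :=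
  vonMangoldt n * ((rchar (1 : DirichletCharacter ℂ N) n - rchar χ n) / 2)

omit [NeZero N] in
lemma rchar_one_char {n : ℕ} (hn : n ≠ 0) :
    rchar (1 : DirichletCharacter ℂ N) n = if n.Coprime N then 1 else 0 := by
  rw [rchar_apply _ hn]
  split_ifs with h
  · rw [MulChar.one_apply ((ZMod.isUnit_iff_coprime n N).mpr h)]; simp
  · rw [MulChar.map_nonunit _ (fun h' => h ((ZMod.isUnit_iff_coprime n N).mp h'))]; simp

omit [NeZero N] in
lemma rchar_not_coprime {n : ℕ} (h : ¬ n.Coprime N) : rchar χ n = 0 := by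
  rcases eq_or_ne n 0 with rfl | hn
  · simp
  · rw [rchar_apply _ hn, MulChar.map_nonunit _ (fun h' => h ((ZMod.isUnit_iff_coprime n N).mp h'))]
    simp

omit [NeZero N] in
lemma aI_factor (h2 : χ ^ 2 = 1) (n : ℕ) :
    0 ≤ (rchar (1 : DirichletCharacter ℂ N) n - rchar χ n) / 2 ∧
    (rchar (1 : DirichletCharacter ℂ N) n - rchar χ n) / 2 ≤ 1 := by
  rcases eq_or_ne n 0 with rfl | hn
  · simp
  · have h1 := abs_rchar_le h2 n
    rw [abs_le] at h1
    by_cases h : n.Coprime N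
    · rw [rchar_one_char hn, if_pos h]
      constructor <;> linarith [h1.1, h1.2]
    · rw [rchar_one_char hn, if_neg h, rchar_not_coprime χ h]
      norm_num

omit [NeZero N] in
lemma aI_nonneg (h2 : χ ^ 2 = 1) (n : ℕ) : 0 ≤ aI χ n :=
  mul_nonneg vonMangoldt_nonneg (aI_factor χ h2 n).1

omit [NeZero N] in
lemma aI_le (h2 : χ ^ 2 = 1) (n : ℕ) : aI χ n ≤ vonMangoldt n :=
  mul_le_of_le_one_right vonMangoldt_nonneg (aI_factor χ h2 n).2

/-- the analytic function -/
noncomputable def HI (s : ℂ) : ℂ :=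
  (deriv (LFunction χ) s / LFunction χ s -
    deriv (LFunctionTrivChar₁ N) s / LFunctionTrivChar₁ N s) / 2

/-- the region where it is analytic -/
def UI : Set ℂ := {s | LFunction χ s ≠ 0 ∧ LFunctionTrivChar₁ N s ≠ 0}

lemma mem_UI (hne : χ ≠ 1) {s : ℂ} (hs : 1 ≤ s.re) : s ∈ UI χ := by
  refine ⟨LFunction_ne_zero_of_one_le_re χ (Or.inl hne) hs, ?_⟩
  rcases eq_or_ne s 1 with rfl | h1
  · exact LFunctionTrivChar₁_apply_one_ne_zero N
  · rw [LFunctionTrivChar₁, Function.update_of_ne h1]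
    exact mul_ne_zero (sub_ne_zero.mpr h1) (LFunction_ne_zero_of_one_le_re 1 (Or.inr h1) hs)

lemma isOpen_UI (hne : χ ≠ 1) : IsOpen (UI χ) := by
  apply IsOpen.and
  · exact isOpen_ne_fun (differentiable_LFunction hne).continuous continuous_const
  · exact isOpen_ne_fun (differentiable_LFunctionTrivChar₁ N).continuous continuous_const

lemma differentiableOn_HI (hne : χ ≠ 1) : DifferentiableOn ℂ (HI χ) (UI χ) := by
  have h1 := differentiable_LFunction hne
  have h2 := differentiable_LFunctionTrivChar₁ N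
  have h3 : Differentiable ℂ (deriv (LFunction χ)) := h1.deriv
  have h4 : Differentiable ℂ (deriv (LFunctionTrivChar₁ N)) := h2.deriv
  unfold HI
  apply DifferentiableOn.div_const
  apply DifferentiableOn.sub
  · exact h3.differentiableOn.div h1.differentiableOn fun s hs => hs.1
  · exact h4.differentiableOn.div h2.differentiableOn fun s hs => hs.2

lemma HI_bounds (hne : χ ≠ 1) {T : ℝ} (hT : 0 ≤ T) : ∃ M K : ℝ, 0 ≤ K ∧
    (∀ ε : ℝ, 0 < ε → ε ≤ 1 → ∀ t : ℝ, |t| ≤ T + 2 → ‖HI χ (1 + ε + t * Complex.I)‖ ≤ M) ∧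
    (∀ ε : ℝ, 0 < ε → ε ≤ 1 → ∀ t t' : ℝ, |t| ≤ T + 2 → |t'| ≤ T + 2 →
      ‖HI χ (1 + ε + t * Complex.I) - HI χ (1 + ε + t' * Complex.I)‖ ≤ K * |t - t'|) := by
  set R : Set ℂ := Icc (1 : ℝ) 2 ×ℂ Icc (-(T + 2)) (T + 2) with hR
  have hRc : IsCompact R := isCompact_Icc.reProdIm isCompact_Icc
  have hRU : R ⊆ UI χ := by
    intro s hs
    rw [hR, Complex.mem_reProdIm] at hs
    exact mem_UI χ hne hs.1.1
  have hconv : Convex ℝ R :=
    ((convex_Icc (1 : ℝ) 2).linear_preimage Complex.reLm).inter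
      ((convex_Icc (-(T + 2)) (T + 2)).linear_preimage Complex.imLm)
  have hopen := isOpen_UI χ hne
  have hd := differentiableOn_HI χ hne
  have hdd : DifferentiableOn ℂ (deriv (HI χ)) (UI χ) := hd.deriv hopen
  obtain ⟨M, hM⟩ := hRc.exists_bound_of_continuousOn (hd.continuousOn.mono hRU)
  obtain ⟨K, hL⟩ := hRc.exists_bound_of_continuousOn (hdd.continuousOn.mono hRU)
  have hmem : ∀ ε, 0 < ε → ε ≤ 1 → ∀ t, |t| ≤ T + 2 →
      ((1 : ℂ) + (ε : ℝ) + (t : ℝ) * Complex.I) ∈ R := by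
    intro ε hε hε1 t ht
    rw [hR, Complex.mem_reProdIm]
    rw [abs_le] at ht
    simp only [Complex.add_re, Complex.one_re, Complex.ofReal_re, Complex.mul_re, Complex.I_re,
      mul_zero, Complex.ofReal_im, Complex.I_im, mul_one, sub_self, add_zero, Complex.add_im,
      Complex.one_im, Complex.mul_im, zero_add]
    exact ⟨⟨by linarith, by linarith⟩, ⟨by linarith [ht.1], by linarith [ht.2]⟩⟩
  have h0mem := hmem 1 one_pos le_rfl 0 (by rw [abs_zero]; linarith)
  have hL0 : 0 ≤ K := (norm_nonneg _).trans (hL _ h0mem)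
  refine ⟨M, K, hL0, fun ε hε hε1 t ht => hM _ (hmem ε hε hε1 t ht), ?_⟩
  intro ε hε hε1 t t' ht ht'
  have h1 := hconv.norm_image_sub_le_of_norm_deriv_le (f := HI χ)
    (fun x hx => (hd.differentiableAt (hopen.mem_nhds (hRU hx)))) hL
    (hmem ε hε hε1 t' ht') (hmem ε hε hε1 t ht)
  refine h1.trans (le_of_eq ?_)
  congr 1
  have : (1 : ℂ) + (ε : ℝ) + (t : ℝ) * Complex.I - (1 + (ε : ℝ) + (t' : ℝ) * Complex.I) =
      ((t - t' : ℝ) : ℂ) * Complex.I := by push_cast; ring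
  rw [this, norm_mul, Complex.norm_I, mul_one, Complex.norm_real, Real.norm_eq_abs]

lemma term_eq (a : ℕ → ℝ) (ε t : ℝ) (n : ℕ) :
    LSeries.term (fun n => (a n : ℂ)) ((1 : ℂ) + (ε : ℝ) + (t : ℝ) * Complex.I) n =
      ((a n / n * rexp (-(ε * Real.log n)) : ℝ) : ℂ) * ex (-(t * Real.log n)) := by
  rcases Nat.eq_zero_or_pos n with rfl | hn
  · simp
  · have hn' : (0 : ℝ) < n := by exact_mod_cast hn
    have hnc : (n : ℂ) ≠ 0 := by exact_mod_cast hn.ne'
    rw [LSeries.term_of_ne_zero hn.ne', Complex.cpow_def_of_ne_zero hnc]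
    unfold ex
    push_cast
    have e1 : Complex.log n * (1 + (ε : ℂ) + t * Complex.I) =
        Complex.log n + ((ε : ℂ) * Complex.log n + t * Complex.log n * Complex.I) := by ring
    rw [e1, Complex.exp_add, Complex.exp_log hnc]
    have e2 : Complex.exp (-((ε : ℂ) * Complex.log n)) *
        Complex.exp (-(t * Complex.log n) * Complex.I) =
        (Complex.exp ((ε : ℂ) * Complex.log n + t * Complex.log n * Complex.I))⁻¹ := by
      rw [← Complex.exp_add, ← Complex.exp_neg]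
      congr 1
      ring
    calc _ = (a n : ℂ) / n * (Complex.exp ((ε : ℂ) * Complex.log n +
          t * Complex.log n * Complex.I))⁻¹ := by
          rw [div_eq_mul_inv, mul_inv, div_eq_mul_inv]; ring
      _ = _ := by rw [← e2]; ring

omit [NeZero N] in
lemma aI_coe (h2 : χ ^ 2 = 1) {n : ℕ} (hn : n ≠ 0) :
    ((aI χ n : ℝ) : ℂ) =
      (1 / 2 : ℂ) * (((fun n : ℕ => ((1 : DirichletCharacter ℂ N) (n : ZMod N) : ℂ)) *
        (fun n : ℕ => ((vonMangoldt n : ℝ) : ℂ))) n) -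
      (1 / 2 : ℂ) * (((fun n : ℕ => (χ (n : ZMod N) : ℂ)) *
        (fun n : ℕ => ((vonMangoldt n : ℝ) : ℂ))) n) := by
  unfold aI
  push_cast
  rw [ofReal_rchar h2 hn, ofReal_rchar (one_pow 2) hn]
  simp only [Pi.mul_apply]
  ring

omit [NeZero N] in
lemma summable_aI (h2 : χ ^ 2 = 1) {s : ℂ} (hs : 1 < s.re) :
    LSeriesSummable (fun n => ((aI χ n : ℝ) : ℂ)) s := by
  have h1 := (LSeriesSummable_twist_vonMangoldt (1 : DirichletCharacter ℂ N) hs).smul (1 / 2 : ℂ)
  have h3 := (LSeriesSummable_twist_vonMangoldt χ hs).smul (1 / 2 : ℂ)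
  refine (LSeriesSummable_congr s fun {n} hn => ?_).mpr (h1.sub h3)
  rw [aI_coe χ h2 hn]
  simp

lemma LSeries_aI (h2 : χ ^ 2 = 1) {s : ℂ} (hs : 1 < s.re) :
    LSeries (fun n => ((aI χ n : ℝ) : ℂ)) s = (1 / 2 : ℝ) * (1 / (s - 1)) + HI χ s := by
  have h1 := (LSeriesSummable_twist_vonMangoldt (1 : DirichletCharacter ℂ N) hs)
  have h3 := (LSeriesSummable_twist_vonMangoldt χ hs)
  have e1 : LSeries (fun n => ((aI χ n : ℝ) : ℂ)) s =
      LSeries ((1 / 2 : ℂ) • ((fun n : ℕ => ((1 : DirichletCharacter ℂ N) (n : ZMod N) : ℂ)) *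
        (fun n : ℕ => ((vonMangoldt n : ℝ) : ℂ))) -
        (1 / 2 : ℂ) • ((fun n : ℕ => (χ (n : ZMod N) : ℂ)) *
        (fun n : ℕ => ((vonMangoldt n : ℝ) : ℂ)))) s := by
    refine LSeries_congr (fun {n} hn => ?_) s
    rw [aI_coe χ h2 hn]
    simp
  rw [e1, LSeries_sub (h1.smul _) (h3.smul _), LSeries_smul, LSeries_smul,
    LSeries_twist_vonMangoldt_eq _ hs, LSeries_twist_vonMangoldt_eq _ hs,
    ← deriv_LFunction_eq_deriv_LSeries _ hs, ← LFunction_eq_LSeries _ hs,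
    ← deriv_LFunction_eq_deriv_LSeries _ hs, ← LFunction_eq_LSeries _ hs]
  have hs1 : s ≠ 1 := fun h => by rw [h] at hs; simp at hs
  have hs1' : s - 1 ≠ 0 := sub_ne_zero.mpr hs1
  have hne0 : LFunction (1 : DirichletCharacter ℂ N) s ≠ 0 :=
    LFunction_ne_zero_of_one_le_re 1 (Or.inr hs1) hs.le
  unfold HI
  rw [deriv_LFunctionTrivChar₁_apply_of_ne_one N hs1, LFunctionTrivChar₁,
    Function.update_of_ne hs1]
  change _ = _ + (_ - ((s - 1) * deriv (LFunction (1 : DirichletCharacter ℂ N)) s +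
    LFunction (1 : DirichletCharacter ℂ N) s) /
      ((s - 1) * LFunction (1 : DirichletCharacter ℂ N) s)) / 2
  rw [add_div, mul_div_mul_left _ _ hs1', div_mul_cancel_right₀ hne0]
  push_cast
  ring

lemma tmdata (h2 : χ ^ 2 = 1) (hne : χ ≠ 1) {T : ℝ} (hT : 0 ≤ T) :
    ∃ M K : ℝ, TMdata (aI χ) (1 / 2) T M K cW
      (fun ε t => HI χ ((1 : ℂ) + (ε : ℝ) + (t : ℝ) * Complex.I)) := by
  obtain ⟨M, K, hK0, hM, hK⟩ := HI_bounds χ hne hT
  have hre : ∀ ε t : ℝ, ((1 : ℂ) + (ε : ℝ) + (t : ℝ) * Complex.I).re = 1 + ε := by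
    intro ε t; simp
  refine ⟨M, K, ?_⟩
  exact
  { nonneg := aI_nonneg χ h2
    win := window_vonMangoldt (aI_le χ h2)
    summ := by
      intro ε hε
      have h1 := (summable_aI χ h2 (s := (1 : ℂ) + (ε : ℝ) + (0 : ℝ) * Complex.I)
        (by rw [hre]; linarith)).norm
      refine h1.congr fun n => ?_
      rw [term_eq, norm_mul, norm_ex, mul_one, Complex.norm_real, Real.norm_eq_abs,
        abs_of_nonneg (mul_nonneg (div_nonneg (aI_nonneg χ h2 n) (Nat.cast_nonneg n))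
          (exp_pos _).le)]
    dir := by
      intro ε hε _ t _
      have h1 := LSeries_aI χ h2 (s := (1 : ℂ) + (ε : ℝ) + (t : ℝ) * Complex.I)
        (by rw [hre]; linarith)
      unfold LSeries at h1
      simp_rw [term_eq] at h1
      rw [h1]
      congr 3
      ring
    bdd := fun ε hε hε1 t ht => hM ε hε hε1 t ht
    L0 := hK0
    lip := fun ε hε hε1 t t' ht ht' => hK ε hε hε1 t t' ht ht' }

/-- inert primes up to `e^u` -/
noncomputable def iP (u : ℝ) : Finset ℕ :=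
  (Nu u).filter fun p => p.Prime ∧ rchar χ p = -1

lemma mem_iP {u : ℝ} {p : ℕ} : p ∈ iP χ u ↔ p.Prime ∧ rchar χ p = -1 ∧ Real.log p ≤ u := by
  unfold iP
  rw [Finset.mem_filter, mem_Nu]
  constructor
  · rintro ⟨⟨h1, h2⟩, h3, h4⟩; exact ⟨h3, h4, h2⟩
  · rintro ⟨h1, h2, h3⟩; exact ⟨⟨h1.one_lt.le, h3⟩, h1, h2⟩

lemma coprime_of_rchar {p : ℕ} (h : rchar χ p = -1) : p.Coprime N := by
  by_contra hc
  rw [rchar_not_coprime χ hc] at h
  norm_num at h

lemma aI_prime {p : ℕ} (hp : p.Prime) (h2 : χ ^ 2 = 1) :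
    aI χ p = if rchar χ p = -1 then Real.log p else 0 := by
  unfold aI
  rw [rchar_one_char hp.ne_zero, vonMangoldt_apply_prime hp]
  by_cases hc : p.Coprime N
  · rw [if_pos hc]
    have hne0 : rchar χ p ≠ 0 := by
      intro h0
      have h1 := ofReal_rchar h2 hp.ne_zero
      rw [h0, Complex.ofReal_zero] at h1
      exact MulChar.apply_ne_zero_iff.mpr ((ZMod.isUnit_iff_coprime p N).mpr hc) h1.symm
    rcases rchar_cases h2 p with h | h | h
    · exact absurd h hne0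
    · rw [h]; norm_num
    · rw [h]; norm_num
  · rw [if_neg hc, rchar_not_coprime χ hc]
    norm_num

/-- **Mertens type theorem for inert primes with twists.** -/
theorem mertens_twist (h2 : χ ^ 2 = 1) (hne : χ ≠ 1) {T : ℝ} (hT : 0 ≤ T) :
    ∃ B : ℝ, ∀ ξ u : ℝ, |ξ| ≤ T → 0 ≤ u →
      ‖(∑ p ∈ iP χ u, ((Real.log p / p : ℝ) : ℂ) * ex (-(ξ * Real.log p))) -
        (1 / 2 : ℝ) * ∫ w in (0 : ℝ)..u, ex (-(ξ * w))‖ ≤ B := by
  obtain ⟨M, K, hD⟩ := tmdata χ h2 hne hT
  obtain ⟨B, hB⟩ := hD.main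
  refine ⟨B + ∑' n, npL n, fun ξ u hξ hu => ?_⟩
  have h1 := hB ξ u hξ hu
  have h3 : ∑ n ∈ Nu u, ((aI χ n / n : ℝ) : ℂ) * ex (-(ξ * Real.log n)) =
      ∑ p ∈ iP χ u, ((Real.log p / p : ℝ) : ℂ) * ex (-(ξ * Real.log p)) +
      ∑ n ∈ Nu u with ¬ n.Prime, ((aI χ n / n : ℝ) : ℂ) * ex (-(ξ * Real.log n)) := by
    rw [← Finset.sum_filter_add_sum_filter_not (Nu u) (fun n => n.Prime)]
    congr 1
    unfold iP
    rw [Finset.sum_filter, Finset.sum_filter]
    apply Finset.sum_congr rfl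
    intro n _
    by_cases hp : n.Prime
    · rw [if_pos hp, aI_prime χ hp h2]
      by_cases hr : rchar χ n = -1
      · rw [if_pos hr, if_pos ⟨hp, hr⟩]
      · rw [if_neg hr, if_neg (fun h => hr h.2)]; simp
    · rw [if_neg hp, if_neg (fun h => hp h.1)]
  have h4 : ‖∑ n ∈ Nu u with ¬ n.Prime, ((aI χ n / n : ℝ) : ℂ) * ex (-(ξ * Real.log n))‖ ≤
      ∑' n, npL n := by
    refine (norm_sum_le _ _).trans ?_
    refine le_trans (Finset.sum_le_sum (g := npL) ?_)
      (summable_npL.sum_le_tsum _ fun n _ => npL_nonneg n)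
    intro n hn
    rw [Finset.mem_filter] at hn
    rw [norm_mul, norm_ex, mul_one, Complex.norm_real, Real.norm_eq_abs,
      abs_of_nonneg (div_nonneg (aI_nonneg χ h2 n) (Nat.cast_nonneg n))]
    unfold npL
    rw [if_neg hn.2]
    exact div_le_div_of_nonneg_right (aI_le χ h2 n) (Nat.cast_nonneg n)
  rw [h3] at h1
  set S1 := ∑ p ∈ iP χ u, ((Real.log p / p : ℝ) : ℂ) * ex (-(ξ * Real.log p))
  set S2 := ∑ n ∈ Nu u with ¬ n.Prime, ((aI χ n / n : ℝ) : ℂ) * ex (-(ξ * Real.log n))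
  set I := ((1 / 2 : ℝ) : ℂ) * ∫ w in (0 : ℝ)..u, ex (-(ξ * w))
  have e : S1 - I = (S1 + S2 - I) - S2 := by ring
  rw [e]
  exact (norm_sub_le _ _).trans (add_le_add h1 h4)

end Pool.Agent.MP0016c7.Ros
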