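import Mathlib
import Pool.Agent.Lib.MP_0016c7_nt.RosInert

open Real Set MeasureTheory Filter Topology

namespace Pool.Agent.MP0016c7.Ros

/-- logarithm as a function of a natural number -/
noncomputable def lg (p : ℕ) : ℝ := Real.log p

lemma lg_nonneg (p : ℕ) : 0 ≤ lg p := Real.log_natCast_nonneg p

/-- the tilted weight `p^{-σ}` -/
noncomputable def xs (σ : ℝ) (p : ℕ) : ℝ := rexp (-(σ * lg p))

lemma xs_pos (σ : ℝ) (p : ℕ) : 0 < xs σ p := exp_pos _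

/-- Mertens data for a set of primes -/
structure MDat (P : ℝ → Finset ℕ) (C₀ : ℝ) (C₁ Cs : ℝ → ℝ) : Prop where
  prime : ∀ u, ∀ p ∈ P u, p.Prime
  le : ∀ u, ∀ p ∈ P u, lg p ≤ u
  mem : ∀ u v, v ≤ u → P v = (P u).filter fun p => lg p ≤ v
  C0 : 0 ≤ C₀
  C1 : ∀ T, 0 ≤ C₁ T
  t0 : ∀ u, 0 ≤ u → |∑ p ∈ P u, lg p / p - u / 2| ≤ C₀
  t1 : ∀ T ξ u, 0 < |ξ| → |ξ| ≤ T → 0 ≤ u →
    ‖∑ p ∈ P u, ((lg p / p : ℝ) : ℂ) * ex (-(ξ * lg p))‖ ≤ C₁ T / |ξ|
  summ : ∀ σ, 0 < σ → ∀ u, ∑ p ∈ P u, lg p / p * rexp (-(σ * lg p)) ≤ Cs σ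

/-- The inert primes of a quadratic character give Mertens data. -/
theorem exists_mdat {N : ℕ} [NeZero N] (χ : DirichletCharacter ℂ N) (h2 : χ ^ 2 = 1)
    (hne : χ ≠ 1) : ∃ C₀ C₁ Cs, MDat (iP χ) C₀ C₁ Cs := by
  have h0 := mertens_twist χ h2 hne le_rfl
  obtain ⟨B0, hB0⟩ := h0
  have h1 : ∀ T : ℝ, ∃ B : ℝ, ∀ ξ u : ℝ, 0 < |ξ| → |ξ| ≤ T → 0 ≤ u →
      ‖∑ p ∈ iP χ u, ((lg p / p : ℝ) : ℂ) * ex (-(ξ * lg p))‖ ≤ B / |ξ| := by
    intro T
    rcases lt_or_ge T 0 with hT | hT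
    · exact ⟨0, fun ξ u h0 h1 => absurd (h0.trans_le h1) (not_lt.mpr hT.le)⟩
    · obtain ⟨B, hB⟩ := mertens_twist χ h2 hne hT
      refine ⟨|B| * T + 1, fun ξ u h0 h1 hu => ?_⟩
      have h3 := hB ξ u h1 hu
      have h4 : ‖(((1 / 2 : ℝ) : ℂ)) * ∫ w in (0 : ℝ)..u, ex (-(ξ * w))‖ ≤ 1 / |ξ| := by
        have h5 := mul_norm_qu_le u (-ξ)
        unfold qu at h5
        simp only [neg_mul, abs_neg] at h5
        rw [norm_mul, Complex.norm_real, Real.norm_eq_abs, abs_of_pos (by norm_num),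
          le_div_iff₀ h0]
        linarith
      have h6 : ‖∑ p ∈ iP χ u, ((lg p / p : ℝ) : ℂ) * ex (-(ξ * lg p))‖ ≤ B + 1 / |ξ| := by
        have e : ∑ p ∈ iP χ u, ((lg p / p : ℝ) : ℂ) * ex (-(ξ * lg p)) =
          ((∑ p ∈ iP χ u, ((Real.log p / p : ℝ) : ℂ) * ex (-(ξ * Real.log p))) -
            ((1 / 2 : ℝ) : ℂ) * ∫ w in (0 : ℝ)..u, ex (-(ξ * w))) +
            ((1 / 2 : ℝ) : ℂ) * ∫ w in (0 : ℝ)..u, ex (-(ξ * w)) := by
          unfold lg; ring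
        rw [e]
        exact (norm_add_le _ _).trans (add_le_add h3 h4)
      refine h6.trans ?_
      rw [add_div]
      apply add_le_add_left
      rw [le_div_iff₀ h0]
      calc B * |ξ| ≤ |B| * |ξ| := mul_le_mul_of_nonneg_right (le_abs_self B) h0.le
        _ ≤ |B| * T := mul_le_mul_of_nonneg_left h1 (abs_nonneg B)
  choose C1 hC1 using h1
  have hs : ∀ σ : ℝ, ∃ C, 0 < σ → ∀ u, ∑ p ∈ iP χ u, lg p / p * rexp (-(σ * lg p)) ≤ C := by
    intro σ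
    by_cases hσ : 0 < σ
    · obtain ⟨M, K, hD⟩ := tmdata χ h2 hne le_rfl
      have hsum := hD.summ σ hσ
      refine ⟨∑' n : ℕ, aI χ n / n * rexp (-(σ * Real.log n)), fun _ u => ?_⟩
      refine le_trans (le_of_eq ?_) (hsum.sum_le_tsum (iP χ u) fun n _ =>
        mul_nonneg (div_nonneg (aI_nonneg χ h2 n) (Nat.cast_nonneg n)) (exp_pos _).le)
      apply Finset.sum_congr rfl
      intro p hp
      obtain ⟨h3, h4, h5⟩ := (mem_iP χ).mp hp
      rw [aI_prime χ h3 h2, if_pos h4]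
      rfl
    · exact ⟨0, fun h => absurd h hσ⟩
  choose Cs hCs using hs
  refine ⟨|B0|, fun T => |C1 T|, Cs, ?_⟩
  exact
  { prime := fun u p hp => ((mem_iP χ).mp hp).1
    le := fun u p hp => ((mem_iP χ).mp hp).2.2
    mem := by
      intro u v huv
      ext p
      rw [Finset.mem_filter, mem_iP, mem_iP]
      unfold lg
      constructor
      · rintro ⟨h3, h4, h5⟩; exact ⟨⟨h3, h4, h5.trans huv⟩, h5⟩
      · rintro ⟨⟨h3, h4, _⟩, h5⟩; exact ⟨h3, h4, h5⟩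
    C0 := abs_nonneg _
    C1 := fun T => abs_nonneg _
    t0 := by
      intro u hu
      have h3 := hB0 0 u (by simp) hu
      simp only [zero_mul, neg_zero, ex_zero, mul_one] at h3
      have h4 : (∑ p ∈ iP χ u, ((Real.log p / p : ℝ) : ℂ)) -
          ((1 / 2 : ℝ) : ℂ) * ∫ _w in (0 : ℝ)..u, (1 : ℂ) =
          ((∑ p ∈ iP χ u, lg p / p - u / 2 : ℝ) : ℂ) := by
        rw [intervalIntegral.integral_const]
        unfold lg
        push_cast
        simp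
        ring
      rw [h4, Complex.norm_real, Real.norm_eq_abs] at h3
      exact h3.trans (le_abs_self _)
    t1 := by
      intro T ξ u h0 h1 hu
      refine (hC1 T ξ u h0 h1 hu).trans ?_
      exact div_le_div_of_nonneg_right (le_abs_self _) (abs_nonneg _)
    summ := fun σ hσ u => hCs σ hσ u }

end Pool.Agent.MP0016c7.Ros
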