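import Mathlib
import Pool.Agent.Lib.MP_0016c7_nt.CdlEE
import Pool.Agent.Lib.MP_0016c7_nt.RosEst

open Real

namespace Pool.Agent.MP0016c7.Ros

/-- additive character with period `1` -/
noncomputable def eu (t : ℝ) : ℂ := ex (2 * π * t)

lemma norm_eu (t : ℝ) : ‖eu t‖ = 1 := norm_ex _

lemma eu_add (s t : ℝ) : eu (s + t) = eu s * eu t := by
  unfold eu; rw [← ex_add]; congr 1; ring

@[simp] lemma eu_zero : eu 0 = 1 := by unfold eu; simp

lemma eu_int (n : ℤ) : eu n = 1 := by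
  unfold eu ex
  rw [Complex.exp_eq_one_iff]
  exact ⟨n, by push_cast; ring⟩

lemma eu_nat (n : ℕ) : eu n = 1 := by exact_mod_cast eu_int n

lemma eu_re (t : ℝ) : (eu t).re = cos (2 * π * t) := ex_re _
lemma eu_im (t : ℝ) : (eu t).im = sin (2 * π * t) := ex_im _

lemma norm_eu_sub_le (s t : ℝ) : ‖eu s - eu t‖ ≤ 2 * π * |s - t| := by
  have h2 : eu s * eu (-(s - t)) = eu t := by rw [← eu_add]; congr 1; ring
  have h3 : eu s - eu t = eu s * (1 - eu (-(s - t))) := by rw [mul_sub, h2, mul_one]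
  rw [h3, norm_mul, norm_eu, one_mul]
  refine (norm_one_sub_ex_le _).trans (le_of_eq ?_)
  rw [abs_mul, abs_neg, abs_of_pos (by positivity : 0 < 2 * π)]

/-- the weight ratio -/
noncomputable def ww (x : ℕ → ℝ) (p : ℕ) : ℝ := (1 + x p) / x p

/-- weights on a narrow block of primes -/
structure Blk (P : Finset ℕ) (ω : ℕ → ℝ) (N J wm ε : ℝ) : Prop where
  nn : ∀ p, 0 ≤ ω p
  mem : ∀ p, ω p ≠ 0 → p ∈ P
  near : ∀ p, ω p ≠ 0 → |lg p - Real.log N| ≤ ε
  le : ∀ p, ω p ≤ wm
  sum : ∑ p ∈ P, ω p = J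

variable {P : Finset ℕ} {x ω : ℕ → ℝ} {N J wm ε : ℝ}

/-- the total weight of the block primes outside `A` -/
noncomputable def Wb (P : Finset ℕ) (x ω : ℕ → ℝ) (J : ℝ) (A : Finset ℕ) : ℝ :=
  (∑ p ∈ P, ω p * ((1 + x p) * (if p ∈ A then 0 else 1))) / J

/-- deviation of a weighted sum over the block primes in `A` -/
noncomputable def Ub (P : Finset ℕ) (x ω : ℕ → ℝ) (J : ℝ) (g : ℕ → ℝ) (A : Finset ℕ) : ℝ :=
  (∑ p ∈ P, ω p * (ww x p * (if p ∈ A then 1 else 0) - 1) * g p) / J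

lemma Ub_eq_lin (hx : ∀ p, 0 < x p) (g : ℕ → ℝ) (A : Finset ℕ) :
    Ub P x ω J g A = lin P x (fun p => ω p * ww x p * g p / J) A := by
  unfold Ub lin
  rw [Finset.sum_div]
  apply Finset.sum_congr rfl
  intro p _
  have h1 := (hx p).ne'
  have h2 : (1 : ℝ) + x p ≠ 0 := by have := hx p; positivity
  have h3 : ww x p * (x p / (1 + x p)) = 1 := by unfold ww; field_simp
  linear_combination (ω p * g p / J) * h3

lemma Wb_sub_one_eq_lin (hx : ∀ p, 0 < x p) (hJ : 0 < J) (hs : ∑ p ∈ P, ω p = J)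
    (A : Finset ℕ) :
    Wb P x ω J A - 1 = lin P x (fun p => -(ω p * (1 + x p) / J)) A := by
  have h0 : Wb P x ω J A - 1 = (∑ p ∈ P, ω p * ((1 + x p) * (if p ∈ A then 0 else 1)) -
      ∑ p ∈ P, ω p) / J := by
    unfold Wb
    rw [sub_div, hs, div_self hJ.ne']
  rw [h0]
  unfold lin
  rw [← Finset.sum_sub_distrib, Finset.sum_div]
  apply Finset.sum_congr rfl
  intro p _
  have h2 : (1 : ℝ) + x p ≠ 0 := by have := hx p; positivity
  split_ifs
  · field_simp
    ring
  · field_simp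
    ring

lemma sum_sq_le {a : ℕ → ℝ} {wb B : ℝ} (hb : Blk P ω N J wm ε) (hJ : 0 < J)
    (hwb : 0 ≤ wb) (hB : 0 ≤ B) (hwm : 0 ≤ wm) (ha : ∀ p ∈ P, |a p| ≤ ω p * wb * B / J) :
    ∑ p ∈ P, a p ^ 2 ≤ B ^ 2 * wb ^ 2 * wm / J := by
  have h1 : ∀ p ∈ P, a p ^ 2 ≤ (B ^ 2 * wb ^ 2 * wm / J ^ 2) * ω p := by
    intro p hp
    have h2 := ha p hp
    have h3 := hb.nn p
    have h4 := hb.le p
    calc a p ^ 2 = |a p| ^ 2 := (sq_abs _).symm
      _ ≤ (ω p * wb * B / J) ^ 2 := pow_le_pow_left₀ (abs_nonneg _) h2 2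
      _ = (B ^ 2 * wb ^ 2 / J ^ 2) * (ω p * ω p) := by ring
      _ ≤ (B ^ 2 * wb ^ 2 / J ^ 2) * (wm * ω p) := by
          apply mul_le_mul_of_nonneg_left _ (by positivity)
          exact mul_le_mul_of_nonneg_right h4 h3
      _ = _ := by ring
  refine (Finset.sum_le_sum h1).trans ?_
  rw [← Finset.mul_sum, hb.sum]
  apply le_of_eq
  field_simp

/-- concentration for a finite family of test functions -/
lemma Pr_Ub_family {ι : Type*} (hx : ∀ p, 0 < x p) (hb : Blk P ω N J wm ε) (hJ : 0 < J)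
    {wb B : ℝ} (hwb : 0 < wb) (hw : ∀ p ∈ P, ww x p ≤ wb) (hB : 0 < B) (hwm : 0 < wm)
    (I : Finset ι) (g : ι → ℕ → ℝ) (hg : ∀ i ∈ I, ∀ p ∈ P, |g i p| ≤ B) {η : ℝ} (hη : 0 < η) :
    Pr P x (fun A => ∃ i ∈ I, η < |Ub P x ω J (g i) A|) ≤
      I.card * (2 * rexp (-(η ^ 2 * J / (4 * (B ^ 2 * wb ^ 2 * wm))))) := by
  have h1 := Pr_family (P := P) (x := x) hx I (fun i p => ω p * ww x p * g i p / J) (η := η)
    (S₂ := B ^ 2 * wb ^ 2 * wm / J) hη (by positivity) (by
      intro i hi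
      apply sum_sq_le hb hJ hwb.le hB.le hwm.le
      intro p hp
      have h2 := hb.nn p
      have h3 : 0 < ww x p := by unfold ww; have := hx p; positivity
      rw [abs_div, abs_mul, abs_mul, abs_of_nonneg h2, abs_of_pos h3, abs_of_pos hJ]
      apply div_le_div_of_nonneg_right _ hJ.le
      apply mul_le_mul _ (hg i hi p hp) (abs_nonneg _) (by positivity)
      exact mul_le_mul_of_nonneg_left (hw p hp) h2)
  have h2 : Pr P x (fun A => ∃ i ∈ I, η < |Ub P x ω J (g i) A|) =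
      Pr P x (fun A => ∃ i ∈ I, η < |lin P x (fun p => ω p * ww x p * g i p / J) A|) := by
    congr 1
    ext A
    simp_rw [Ub_eq_lin hx]
  rw [h2]
  refine h1.trans (le_of_eq ?_)
  congr 4
  field_simp

lemma Pr_Wb (hx : ∀ p, 0 < x p) (hx1 : ∀ p ∈ P, x p ≤ 1) (hb : Blk P ω N J wm ε) (hJ : 0 < J)
    (hwm : 0 < wm) {η : ℝ} (hη : 0 < η) :
    Pr P x (fun A => η < |Wb P x ω J A - 1|) ≤ 2 * rexp (-(η ^ 2 * J / (16 * wm))) := by
  have h1 := Pr_abs_lin_gt (P := P) hx (fun p => -(ω p * (1 + x p) / J)) (η := η)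
    (S₂ := 1 ^ 2 * 2 ^ 2 * wm / J) hη (by positivity) (by
      apply sum_sq_le hb hJ (by norm_num) (by norm_num) hwm.le
      intro p hp
      have h2 := hb.nn p
      have h3 := hx p
      have h4 := hx1 p hp
      rw [abs_neg, abs_of_nonneg (by positivity)]
      apply div_le_div_of_nonneg_right _ hJ.le
      rw [mul_one]
      exact mul_le_mul_of_nonneg_left (by linarith) h2)
  have h2 : Pr P x (fun A => η < |Wb P x ω J A - 1|) =
      Pr P x (fun A => η < |lin P x (fun p => -(ω p * (1 + x p) / J)) A|) := by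
    congr 1
    ext A
    rw [Wb_sub_one_eq_lin hx hJ hb.sum]
  rw [h2]
  refine h1.trans (le_of_eq ?_)
  congr 3
  field_simp
  norm_num

/-- the good event for a block -/
def Gd (P : Finset ℕ) (x ω : ℕ → ℝ) (J η : ℝ) (A : Finset ℕ) : Prop :=
  |Wb P x ω J A - 1| ≤ η ∧ ∀ t : ℝ, |Ub P x ω J (fun p => cos (2 * π * (p * t))) A| ≤ η ∧
    |Ub P x ω J (fun p => sin (2 * π * (p * t))) A| ≤ η

/-- a Lipschitz bound -/
lemma Ub_lip (hx : ∀ p, 0 < x p) (hb : Blk P ω N J wm ε) (hJ : 0 < J) {wb M : ℝ}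
    (hwb : 1 ≤ wb) (hw : ∀ p ∈ P, ww x p ≤ wb) (hM : ∀ p, ω p ≠ 0 → (p : ℝ) ≤ M)
    {g g' : ℕ → ℝ} {δ : ℝ} (hδ : 0 ≤ δ) (hg : ∀ p : ℕ, |g p - g' p| ≤ p * δ) (A : Finset ℕ) :
    |Ub P x ω J g A - Ub P x ω J g' A| ≤ wb * M * δ := by
  unfold Ub
  rw [← sub_div, ← Finset.sum_sub_distrib, abs_div, abs_of_pos hJ, div_le_iff₀ hJ]
  have h1 : ∀ p ∈ P, |ω p * (ww x p * (if p ∈ A then 1 else 0) - 1) * g p -
      ω p * (ww x p * (if p ∈ A then 1 else 0) - 1) * g' p| ≤ (wb * M * δ) * ω p := by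
    intro p hp
    rw [← mul_sub, abs_mul, abs_mul, abs_of_nonneg (hb.nn p)]
    by_cases h0 : ω p = 0
    · rw [h0]; simp
    have h2 : |ww x p * (if p ∈ A then 1 else 0) - 1| ≤ wb := by
      have h3 : 1 ≤ ww x p := by
        unfold ww
        rw [le_div_iff₀ (hx p)]
        linarith
      have h4 := hw p hp
      rw [abs_le]
      split_ifs <;> constructor <;> linarith
    have h5 : |g p - g' p| ≤ M * δ :=
      (hg p).trans (mul_le_mul_of_nonneg_right (hM p h0) hδ)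
    have h6 := hb.nn p
    calc ω p * |ww x p * (if p ∈ A then 1 else 0) - 1| * |g p - g' p| ≤ ω p * wb * (M * δ) := by
          apply mul_le_mul _ h5 (abs_nonneg _) (by positivity)
          exact mul_le_mul_of_nonneg_left h2 h6
      _ = _ := by ring
  refine (Finset.abs_sum_le_sum_abs _ _).trans ((Finset.sum_le_sum h1).trans ?_)
  rw [← Finset.mul_sum, hb.sum]

lemma cos_nat_mul_fract (p : ℕ) (t : ℝ) :
    cos (2 * π * (p * t)) = cos (2 * π * (p * Int.fract t)) ∧
      sin (2 * π * (p * t)) = sin (2 * π * (p * Int.fract t)) := by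
  have h : eu (p * t) = eu (p * Int.fract t) := by
    have h1 : (p : ℝ) * t = p * Int.fract t + ((p * ⌊t⌋ : ℤ) : ℝ) := by
      push_cast
      rw [← mul_add, Int.fract_add_floor]
    rw [h1, eu_add, eu_int, mul_one]
  constructor
  · rw [← eu_re, ← eu_re, h]
  · rw [← eu_im, ← eu_im, h]

/-- **The good event has overwhelming probability.** -/
theorem Pr_not_Gd (hx : ∀ p, 0 < x p) (hx1 : ∀ p ∈ P, x p ≤ 1) (hb : Blk P ω N J wm ε)
    (hJ : 0 < J) {wb M : ℝ} (hwb : 2 ≤ wb) (hw : ∀ p ∈ P, ww x p ≤ wb)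
    (hM : ∀ p, ω p ≠ 0 → (p : ℝ) ≤ M) (hM0 : 0 ≤ M) (hwm : 0 < wm) {η : ℝ} (hη : 0 < η) {R : ℕ}
    (hR0 : 0 < R) (hR : 14 * (wb * M) ≤ η * R) :
    Pr P x (fun A => ¬ Gd P x ω J η A) ≤
      (2 + 4 * R) * rexp (-(η ^ 2 * J / (16 * wb ^ 2 * wm))) := by
  have hwb0 : 0 < wb := by linarith
  -- the two families
  have f1 := Pr_Ub_family (B := 1) hx hb hJ hwb0 hw one_pos hwm (Finset.range R)
    (fun (j : ℕ) p => cos (2 * π * (p * (j / R)))) (fun i _ p _ => abs_cos_le_one _)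
    (by linarith : 0 < η / 2)
  have f2 := Pr_Ub_family (B := 1) hx hb hJ hwb0 hw one_pos hwm (Finset.range R)
    (fun (j : ℕ) p => sin (2 * π * (p * (j / R)))) (fun i _ p _ => abs_sin_le_one _)
    (by linarith : 0 < η / 2)
  have f3 := Pr_Wb hx hx1 hb hJ hwm hη
  rw [Finset.card_range] at f1 f2
  set Ex := rexp (-(η ^ 2 * J / (16 * wb ^ 2 * wm))) with hEx
  have e1 : rexp (-((η / 2) ^ 2 * J / (4 * (1 ^ 2 * wb ^ 2 * wm)))) = Ex := by
    rw [hEx]; congr 2; field_simp; norm_num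
  have e3 : rexp (-(η ^ 2 * J / (16 * wm))) ≤ Ex := by
    rw [hEx, exp_le_exp, neg_le_neg_iff]
    apply div_le_div_of_nonneg_left (by positivity) (by positivity)
    have : 1 ≤ wb ^ 2 := by nlinarith only [hwb]
    nlinarith only [hwm, this]
  rw [e1] at f1 f2
  have hsub : Pr P x (fun A => ¬ Gd P x ω J η A) ≤ Pr P x (fun A =>
      (η < |Wb P x ω J A - 1| ∨
      (∃ i ∈ Finset.range R, η / 2 < |Ub P x ω J (fun p => cos (2 * π * (p * (i / R)))) A|)) ∨
      (∃ i ∈ Finset.range R, η / 2 < |Ub P x ω J (fun p => sin (2 * π * (p * (i / R)))) A|)) := by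
    apply Pr_mono hx
    intro A _ hA
    by_contra hc
    rw [not_or, not_or] at hc
    obtain ⟨⟨c1, c2⟩, c3⟩ := hc
    push Not at c1 c2 c3
    apply hA
    refine ⟨c1, fun t => ?_⟩
    set u := Int.fract t with hu
    have hu0 := Int.fract_nonneg t
    have hu1 := Int.fract_lt_one t
    rw [← hu] at hu0 hu1
    have hRr : (0 : ℝ) < R := by exact_mod_cast hR0
    set j := ⌊u * R⌋₊ with hj
    have hj1 : (j : ℝ) ≤ u * R := Nat.floor_le (by positivity)
    have hj2 : u * R < j + 1 := Nat.lt_floor_add_one _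
    have hjR : j < R := by
      have : (j : ℝ) < R := by nlinarith only [hj1, hu1, hRr]
      exact_mod_cast this
    have hd : |u - j / R| ≤ 1 / R := by
      rw [abs_le]
      have h1 : (j : ℝ) / R ≤ u := by rw [div_le_iff₀ hRr]; exact hj1
      have h2 : u ≤ j / R + 1 / R := by
        rw [← add_div, le_div_iff₀ hRr]; exact hj2.le
      constructor <;> linarith only [h1, h2]
    have hlip : ∀ p : ℕ, ‖eu (p * u) - eu (p * (j / R))‖ ≤ p * (7 / R) := by
      intro p
      refine (norm_eu_sub_le _ _).trans ?_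
      rw [← mul_sub, abs_mul, Nat.abs_cast]
      have h1 : 2 * π ≤ 7 := by linarith only [pi_lt_d2]
      calc 2 * π * (p * |u - j / R|) ≤ 7 * (p * (1 / R)) := by
            apply mul_le_mul h1 _ (by (clear * -; positivity)) (by norm_num)
            exact mul_le_mul_of_nonneg_left hd (Nat.cast_nonneg p)
        _ = _ := by ring
    have hδ : wb * M * (7 / R) ≤ η / 2 := by
      rw [mul_div_assoc', div_le_iff₀ hRr]
      linarith only [hR]
    constructor
    · have h1 : Ub P x ω J (fun p => cos (2 * π * (p * t))) A =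
          Ub P x ω J (fun p => cos (2 * π * (p * u))) A := by
        congr 1
        ext p
        exact (cos_nat_mul_fract p t).1
      rw [h1]
      have h2 := Ub_lip (δ := 7 / R) hx hb hJ (by linarith only [hwb]) hw hM
        (g := fun p => cos (2 * π * (p * u)))
        (g' := fun p => cos (2 * π * (p * (j / R)))) (by positivity) (fun p => by
          have h3 := hlip p
          have h4 := Complex.abs_re_le_norm (eu (p * u) - eu (p * (j / R)))
          rw [Complex.sub_re, eu_re, eu_re] at h4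
          exact h4.trans h3) A
      have h3 := c2 j (Finset.mem_range.mpr hjR)
      have h4 := abs_sub_abs_le_abs_sub (Ub P x ω J (fun p => cos (2 * π * (p * u))) A)
        (Ub P x ω J (fun p => cos (2 * π * (p * (j / R)))) A)
      linarith only [hδ, h2, h3, h4]
    · have h1 : Ub P x ω J (fun p => sin (2 * π * (p * t))) A =
          Ub P x ω J (fun p => sin (2 * π * (p * u))) A := by
        congr 1
        ext p
        exact (cos_nat_mul_fract p t).2
      rw [h1]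
      have h2 := Ub_lip (δ := 7 / R) hx hb hJ (by linarith only [hwb]) hw hM
        (g := fun p => sin (2 * π * (p * u)))
        (g' := fun p => sin (2 * π * (p * (j / R)))) (by positivity) (fun p => by
          have h3 := hlip p
          have h4 := Complex.abs_im_le_norm (eu (p * u) - eu (p * (j / R)))
          rw [Complex.sub_im, eu_im, eu_im] at h4
          exact h4.trans h3) A
      have h3 := c3 j (Finset.mem_range.mpr hjR)
      have h4 := abs_sub_abs_le_abs_sub (Ub P x ω J (fun p => sin (2 * π * (p * u))) A)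
        (Ub P x ω J (fun p => sin (2 * π * (p * (j / R)))) A)
      linarith only [hδ, h2, h3, h4]
  refine hsub.trans ?_
  refine (Pr_or hx _ _).trans ?_
  have h5 := Pr_or (P := P) hx (fun A => η < |Wb P x ω J A - 1|) (fun A => ∃ i ∈ Finset.range R,
    η / 2 < |Ub P x ω J (fun p => cos (2 * π * (p * ((i : ℕ) / R)))) A|)
  have hEx0 : 0 < Ex := exp_pos _
  linarith only [f3, f2, f1, e3, h5]

end Pool.Agent.MP0016c7.Ros
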