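import Mathlib
import Pool.Agent.Lib.MP_0da313_nt.BV.DefsL
import Pool.Agent.Lib.MP_89da58_nt.Bv

open Real Filter

namespace Pool.Agent.MP0016c7.Ros

open Pool.Agent.BVall (OmL psiXL psiAPL)
open Pool.Agent.MP89da58 (tri cX tri_nonneg tri_le_one cX_bounds pos_of_log)
open ArithmeticFunction (vonMangoldt)
open DirichletCharacter

/-- The prime number theorem in arithmetic progressions, for moduli up to a power of the
logarithm, in smoothed form. -/
def SWd : Prop := ∀ lam : ℝ, 1 ≤ lam → (∀ A B : ℕ, ∀ᶠ X : ℝ in atTop, ∀ m : ℕ, m ≠ 0 →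
    (m : ℝ) ≤ (Real.log X) ^ B → ∀ r : ℕ, r.Coprime m →
    |psiAPL lam X m r - psiXL lam X / (Nat.totient m : ℝ)| ≤ X / (Real.log X) ^ A) ∧
  ∀ᶠ X : ℝ in atTop, X / (24 * lam) ≤ psiXL lam X

lemma OmL_nonneg (lam : ℝ) {X : ℝ} (hX : 0 ≤ X) (n : ℕ) : 0 ≤ OmL lam X n :=
  mul_nonneg (Real.rpow_nonneg (div_nonneg hX (Nat.cast_nonneg n)) _) (tri_nonneg _)

lemma OmL_le {lam : ℝ} (hlam : 1 ≤ lam) {X : ℝ} (hX0 : 0 ≤ X) (hX : 1 ≤ Real.log X) (n : ℕ) :
    OmL lam X n ≤ 8 := by
  have hXp := pos_of_log hX0 hX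
  obtain ⟨hc1, hc2⟩ := cX_bounds hX
  unfold OmL
  rcases Nat.eq_zero_or_pos n with h0 | hn
  · subst h0
    simp only [Nat.cast_zero, div_zero]
    rw [Real.zero_rpow (by linarith)]
    norm_num
  · have hn' : (0 : ℝ) < n := Nat.cast_pos.2 hn
    have hq : 0 < X / n := div_pos hXp hn'
    by_cases ht : 1 ≤ |Real.log (n / X)|
    · have : tri (lam * Real.log (n / X)) = 0 := by
        apply max_eq_left
        rw [abs_mul, abs_of_nonneg (by linarith)]
        nlinarith only [hlam, ht]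
      rw [this, mul_zero]
      norm_num
    · push Not at ht
      have h1 : Real.log (X / n) < 1 := by
        have : Real.log (X / n) = - Real.log (n / X) := by
          rw [← Real.log_inv, inv_div]
        rw [this]
        have := neg_abs_le (Real.log ((n : ℝ) / X))
        linarith only [ht, this]
      have h2 : (X / n) ^ cX X ≤ Real.exp 2 := by
        rw [Real.rpow_def_of_pos hq]
        apply Real.exp_le_exp.2
        rcases le_or_gt (Real.log (X / n)) 0 with h | h
        · nlinarith only [hc2, h1, hc1]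
        · nlinarith only [hc2, h1, hc1]
      have h3 : Real.exp 2 ≤ 8 := by
        have h4 := Real.exp_one_lt_d9
        have h5 : Real.exp 2 = Real.exp 1 * Real.exp 1 := by rw [← Real.exp_add]; norm_num
        rw [h5]
        have h6 := Real.exp_pos 1
        nlinarith only [h4, h6]
      calc (X / n) ^ cX X * tri (lam * Real.log (n / X)) ≤ (X / n) ^ cX X * 1 :=
            mul_le_mul_of_nonneg_left (tri_le_one _) (Real.rpow_nonneg hq.le _)
        _ ≤ 8 := by rw [mul_one]; exact h2.trans h3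

variable {N : ℕ} [NeZero N] (χ : DirichletCharacter ℂ N)

open Classical in
/-- smooth weight on the inert primes near `X` -/
noncomputable def ob (lam X : ℝ) (p : ℕ) : ℝ :=
  if p.Prime ∧ χ (p : ZMod N) = -1 then Real.log p * OmL lam X p else 0

/-- total weight -/
noncomputable def Jb (lam X : ℝ) : ℝ := ∑ p ∈ Finset.Icc 1 ⌊3 * X⌋₊, ob χ lam X p

lemma OmL_support {lam X : ℝ} (hlam : 1 ≤ lam) (hX : 0 < X) {n : ℕ} (hn : 1 ≤ n)
    (h : OmL lam X n ≠ 0) : |Real.log n - Real.log X| ≤ 1 / lam := by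
  have hlam0 : 0 < lam := by linarith
  have hn0 : (0 : ℝ) < n := by exact_mod_cast hn
  unfold OmL at h
  have h1 := right_ne_zero_of_mul h
  unfold tri at h1
  have h2 : 0 < 1 - |lam * Real.log (n / X)| := by
    by_contra hc
    exact h1 (max_eq_left (not_lt.mp hc))
  rw [Real.log_div hn0.ne' hX.ne', abs_mul, abs_of_pos hlam0] at h2
  rw [le_div_iff₀ hlam0]
  linarith

variable {χ}

omit [NeZero N] in
lemma ob_nonneg {lam X : ℝ} (hX : 0 ≤ X) (p : ℕ) : 0 ≤ ob χ lam X p := by
  unfold ob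
  split_ifs
  · exact mul_nonneg (Real.log_natCast_nonneg p) (OmL_nonneg lam hX p)
  · exact le_rfl

omit [NeZero N] in
lemma ob_ne_zero {lam X : ℝ} (hlam : 1 ≤ lam) (hX : 0 < X) {p : ℕ} (h : ob χ lam X p ≠ 0) :
    p.Prime ∧ χ (p : ZMod N) = -1 ∧ |Real.log p - Real.log X| ≤ 1 / lam ∧ (p : ℝ) ≤ 3 * X := by
  unfold ob at h
  split_ifs at h with h1
  · have h2 := OmL_support hlam hX h1.1.one_lt.le (right_ne_zero_of_mul h)
    have hp0 : (0 : ℝ) < p := by exact_mod_cast h1.1.pos
    refine ⟨h1.1, h1.2, h2, ?_⟩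
    have h3 : Real.log p ≤ Real.log X + 1 := by
      have h4 := (abs_le.mp h2).2
      have h5 : 1 / lam ≤ 1 := by rw [div_le_one (by linarith)]; exact hlam
      linarith
    rw [Real.log_le_iff_le_exp hp0, exp_add, exp_log hX] at h3
    have h6 := Real.exp_one_lt_d9
    nlinarith only [hX, h3, h6]
  · exact absurd rfl h

omit [NeZero N] in
lemma ob_le {lam X : ℝ} (hlam : 1 ≤ lam) (hX : 0 < X) (hl : 1 ≤ Real.log X) (p : ℕ) :
    ob χ lam X p ≤ 16 * Real.log X := by
  by_cases h : ob χ lam X p = 0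
  · rw [h]; linarith
  · obtain ⟨h1, h2, h3, h4⟩ := ob_ne_zero hlam hX h
    unfold ob
    rw [if_pos ⟨h1, h2⟩]
    have h5 := OmL_le hlam hX.le hl p
    have h6 : Real.log p ≤ Real.log X + 1 := by
      have h4 := (abs_le.mp h3).2
      have h5 : 1 / lam ≤ 1 := by rw [div_le_one (by linarith)]; exact hlam
      linarith
    calc Real.log p * OmL lam X p ≤ (2 * Real.log X) * 8 := by
          apply mul_le_mul (by linarith) h5 (OmL_nonneg lam hX.le p) (by linarith)
      _ = _ := by ring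

open Classical in
/-- weight in a residue class -/
noncomputable def Ac (χ : DirichletCharacter ℂ N) (lam X : ℝ) (m : ℕ) (a : ZMod m) : ℝ :=
  ∑ p ∈ (Finset.Icc 1 ⌊3 * X⌋₊).filter (fun p : ℕ => (p : ZMod m) = a), ob χ lam X p

lemma nonprime_le {lam X : ℝ} (hlam : 1 ≤ lam) (hX : 1 ≤ X) (hl : 1 ≤ Real.log X) :
    ∑ n ∈ (Finset.Icc 1 ⌊3 * X⌋₊).filter (fun n => ¬ n.Prime), vonMangoldt n * OmL lam X n ≤
      16 * √(3 * X) * Real.log (3 * X) := by
  have h1 : ∑ n ∈ (Finset.Icc 1 ⌊3 * X⌋₊).filter (fun n => ¬ n.Prime),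
      vonMangoldt n * OmL lam X n ≤
      8 * ∑ n ∈ (Finset.Icc 1 ⌊3 * X⌋₊).filter (fun n => ¬ n.Prime), vonMangoldt n := by
    rw [Finset.mul_sum]
    apply Finset.sum_le_sum
    intro n _
    rw [mul_comm]
    exact mul_le_mul_of_nonneg_right (OmL_le hlam (by linarith) hl n)
      ArithmeticFunction.vonMangoldt_nonneg
  have h2 : ∑ n ∈ (Finset.Icc 1 ⌊3 * X⌋₊).filter (fun n => ¬ n.Prime), vonMangoldt n =
      Chebyshev.psi (3 * X) - Chebyshev.theta (3 * X) := by
    unfold Chebyshev.psi Chebyshev.theta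
    have e : Finset.Ioc 0 ⌊3 * X⌋₊ = Finset.Icc 1 ⌊3 * X⌋₊ := by
      ext n; simp [Finset.mem_Ioc, Finset.mem_Icc, Nat.succ_le_iff]
    rw [e, ← Finset.sum_filter_add_sum_filter_not (Finset.Icc 1 ⌊3 * X⌋₊) Nat.Prime
      (fun n => vonMangoldt n)]
    have h3 : ∑ n ∈ (Finset.Icc 1 ⌊3 * X⌋₊).filter Nat.Prime, vonMangoldt n =
        ∑ p ∈ (Finset.Icc 1 ⌊3 * X⌋₊).filter Nat.Prime, Real.log p := by
      apply Finset.sum_congr rfl
      intro p hp
      rw [Finset.mem_filter] at hp
      exact ArithmeticFunction.vonMangoldt_apply_prime hp.2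
    rw [h3]
    ring
  have h3 := (abs_le.mp (Chebyshev.abs_psi_sub_theta_le_sqrt_mul_log (x := 3 * X) (by linarith))).2
  rw [h2] at h1
  linarith

lemma eventually_sqrt_log (A : ℕ) : ∀ᶠ X : ℝ in atTop,
    16 * √(3 * X) * Real.log (3 * X) ≤ X / (Real.log X) ^ A := by
  have h1 : (fun X : ℝ => (Real.log X) ^ (A + 1)) =o[atTop] fun X => X ^ (1 / 2 : ℝ) := by
    have := isLittleO_log_rpow_rpow_atTop (s := 1 / 2) ((A : ℝ) + 1) (by norm_num)
    refine this.congr_left fun X => ?_
    rw [← Real.rpow_natCast]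
    push_cast
    rfl
  have h2 := h1.bound (show (0 : ℝ) < 1 / 64 by norm_num)
  filter_upwards [h2, eventually_gt_atTop 3] with X hX h3
  have hX0 : 0 < X := by linarith
  have hl : 1 ≤ Real.log X := by
    rw [Real.le_log_iff_exp_le hX0]
    linarith only [h3, Real.exp_one_lt_d9]
  rw [Real.norm_eq_abs, Real.norm_eq_abs, abs_of_nonneg (by positivity),
    abs_of_nonneg (by positivity), ← sqrt_eq_rpow] at hX
  have hl3 : Real.log (3 * X) ≤ 2 * Real.log X := by
    rw [Real.log_mul (by norm_num) hX0.ne']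
    have : Real.log 3 ≤ Real.log X := Real.log_le_log (by norm_num) h3.le
    linarith
  have hs3 : √(3 * X) ≤ 2 * √X := by
    rw [Real.sqrt_mul (by norm_num)]
    apply mul_le_mul_of_nonneg_right _ (sqrt_nonneg _)
    rw [sqrt_le_left (by norm_num)]; norm_num
  rw [le_div_iff₀ (by positivity)]
  have hl30 : 0 ≤ Real.log (3 * X) := Real.log_nonneg (by linarith)
  calc 16 * √(3 * X) * Real.log (3 * X) * Real.log X ^ A ≤
        16 * (2 * √X) * (2 * Real.log X) * Real.log X ^ A := by (clear * - hs3 hl3 hl30 h3 hl; gcongr)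
    _ = 64 * √X * (Real.log X) ^ (A + 1) := by ring
    _ ≤ 64 * √X * (1 / 64 * √X) := by gcongr
    _ = √X * √X := by ring
    _ = X := mul_self_sqrt hX0.le

/-- **Siegel-Walfisz for the inert primes.** -/
theorem sw_class (hSW : SWd) {lam : ℝ} (hlam : 1 ≤ lam) (A B : ℕ) : ∀ᶠ X : ℝ in atTop,
    ∀ m : ℕ, m ≠ 0 →
    (m : ℝ) ≤ (Real.log X) ^ B → ∀ h : N ∣ m, ∀ a : ZMod m, changeLevel h χ a = -1 →
    |Ac χ lam X m a - psiXL lam X / (Nat.totient m : ℝ)| ≤ 2 * (X / (Real.log X) ^ A) := by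
  filter_upwards [(hSW lam hlam).1 A B, eventually_sqrt_log A, eventually_gt_atTop 3]
    with X hX0 hsl hX3 m hm hmB h a ha
  have hXp : 0 < X := by linarith
  have hl : 1 ≤ Real.log X := by
    rw [Real.le_log_iff_exp_le hXp]
    linarith only [hX3, Real.exp_one_lt_d9]
  have : NeZero m := ⟨hm⟩
  have hau : IsUnit a := by
    by_contra hc
    rw [MulChar.map_nonunit _ hc] at ha
    norm_num at ha
  set r := a.val with hr
  have hra : (r : ZMod m) = a := ZMod.natCast_zmod_val a
  have hrc : r.Coprime m := by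
    rw [← ZMod.isUnit_iff_coprime, hra]; exact hau
  have h1 := hX0 m hm hmB r hrc
  -- compare the two sums
  have hsplit : psiAPL lam X m r = Ac χ lam X m a +
      ∑ n ∈ ((Finset.Icc 1 ⌊3 * X⌋₊).filter (fun n => n ≡ r [MOD m])).filter
        (fun n => ¬ n.Prime), vonMangoldt n * OmL lam X n := by
    unfold psiAPL Ac
    rw [← Finset.sum_filter_add_sum_filter_not
      ((Finset.Icc 1 ⌊3 * X⌋₊).filter (fun n => n ≡ r [MOD m])) (fun n => n.Prime)]
    congr 1
    have e2 : (Finset.Icc 1 ⌊3 * X⌋₊).filter (fun p : ℕ => (p : ZMod m) = a) =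
        (Finset.Icc 1 ⌊3 * X⌋₊).filter (fun n => n ≡ r [MOD m]) := by
      ext n
      rw [Finset.mem_filter, Finset.mem_filter, ← ZMod.natCast_eq_natCast_iff, hra]
    rw [e2, ← Finset.sum_filter_add_sum_filter_not
      ((Finset.Icc 1 ⌊3 * X⌋₊).filter (fun n => n ≡ r [MOD m])) (fun n => n.Prime)
      (fun p => ob χ lam X p)]
    have z0 : ∑ p ∈ ((Finset.Icc 1 ⌊3 * X⌋₊).filter (fun n => n ≡ r [MOD m])).filter
        (fun n => ¬ n.Prime), ob χ lam X p = 0 := by
      apply Finset.sum_eq_zero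
      intro n hn
      rw [Finset.mem_filter] at hn
      unfold ob
      rw [if_neg (fun hc => hn.2 hc.1)]
    rw [z0, add_zero]
    apply Finset.sum_congr rfl
    intro p hp
    rw [Finset.mem_filter, Finset.mem_filter, ← ZMod.natCast_eq_natCast_iff, hra] at hp
    obtain ⟨⟨-, hp2⟩, hp3⟩ := hp
    have hpc : p.Coprime m := by
      rw [← ZMod.isUnit_iff_coprime, hp2]; exact hau
    have hχ : χ (p : ZMod N) = -1 := by
      have h3 := changeLevel_eq_cast_of_dvd' χ h (a := (p : ℤ))
        (by exact_mod_cast Nat.isCoprime_iff_coprime.mpr hpc)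
      rw [Int.cast_natCast, Int.cast_natCast, hp2, ha] at h3
      exact h3.symm
    unfold ob
    rw [if_pos ⟨hp3, hχ⟩, ArithmeticFunction.vonMangoldt_apply_prime hp3]
  have hnp := nonprime_le hlam (by linarith only [hX3]) hl
  set E := ∑ n ∈ ((Finset.Icc 1 ⌊3 * X⌋₊).filter (fun n => n ≡ r [MOD m])).filter
        (fun n => ¬ n.Prime), vonMangoldt n * OmL lam X n with hE
  have hE0 : 0 ≤ E := Finset.sum_nonneg fun n _ =>
    mul_nonneg ArithmeticFunction.vonMangoldt_nonneg (OmL_nonneg lam hXp.le n)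
  have hE1 : E ≤ X / (Real.log X) ^ A := by
    refine le_trans ?_ (hnp.trans hsl)
    apply Finset.sum_le_sum_of_subset_of_nonneg
    · intro n hn
      rw [Finset.mem_filter, Finset.mem_filter] at hn
      rw [Finset.mem_filter]
      exact ⟨hn.1.1, hn.2⟩
    · intro n _ _
      exact mul_nonneg ArithmeticFunction.vonMangoldt_nonneg (OmL_nonneg lam hXp.le n)
  rw [hsplit] at h1
  rw [abs_le] at h1 ⊢
  constructor <;> linarith only [h1, hE1, hE0, h1.1, h1.2]

/-- averages over the classes where the character takes the value `s` -/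
noncomputable def mu {N m : ℕ} [NeZero m] (χ : DirichletCharacter ℂ N) (h : N ∣ m)
    (f : ZMod m → ℝ) (s : ℂ) : ℝ :=
  2 / (Nat.totient m : ℝ) * ∑ a : ZMod m, @ite ℝ (changeLevel h χ a = s) (Classical.dec _) (f a) 0

open Classical in
/-- half of the classes are inert -/
lemma card_inert {m : ℕ} [NeZero m] (h : N ∣ m) (h2 : χ ^ 2 = 1) (hne : χ ≠ 1) :
    ((Finset.univ.filter fun a : ZMod m => changeLevel h χ a = -1).card : ℝ) =
      (Nat.totient m : ℝ) / 2 := by
  set ψ := changeLevel h χ with hψ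
  have hψne : ψ ≠ 1 := by
    rw [hψ, Ne, changeLevel_eq_one_iff]; exact hne
  have hψ2 : ψ ^ 2 = 1 := by rw [hψ, ← map_pow, h2, map_one]
  have hsum : ∑ a : ZMod m, ψ a = 0 := MulChar.sum_eq_zero_of_ne_one hψne
  have hval : ∀ a : ZMod m, IsUnit a → ψ a = 1 ∨ ψ a = -1 := by
    intro a ha
    have h3 : ψ a ^ 2 = 1 := by
      rw [← MulChar.pow_apply' _ two_ne_zero, hψ2, MulChar.one_apply ha]
    have h4 : (ψ a - 1) * (ψ a + 1) = 0 := by linear_combination h3
    rcases mul_eq_zero.mp h4 with h5 | h5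
    · left; linear_combination h5
    · right; linear_combination h5
  have hsplit : ∑ a : ZMod m, ψ a = ((Finset.univ.filter fun a : ZMod m => ψ a = 1).card : ℂ) -
      ((Finset.univ.filter fun a : ZMod m => ψ a = -1).card : ℂ) := by
    have e : ∀ a : ZMod m, ψ a = (if ψ a = 1 then (1 : ℂ) else 0) - (if ψ a = -1 then 1 else 0) := by
      intro a
      by_cases ha : IsUnit a
      · rcases hval a ha with h3 | h3
        · rw [h3, if_pos rfl, if_neg (by norm_num), sub_zero]
        · rw [h3, if_neg (by norm_num), if_pos rfl, zero_sub]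
      · rw [MulChar.map_nonunit _ ha, if_neg (by norm_num), if_neg (by norm_num), sub_zero]
    rw [Finset.sum_congr rfl fun a _ => e a, Finset.sum_sub_distrib, Finset.sum_boole,
      Finset.sum_boole]
  have hunits : (Nat.totient m) = (Finset.univ.filter fun a : ZMod m => ψ a = 1).card +
      (Finset.univ.filter fun a : ZMod m => ψ a = -1).card := by
    rw [← ZMod.card_units_eq_totient, ← Finset.card_union_of_disjoint]
    · have hci := Finset.card_image_of_injective (Finset.univ : Finset (ZMod m)ˣ)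
        (Units.val_injective (α := ZMod m))
      rw [← Finset.card_univ, ← hci]
      congr 1
      ext a
      simp only [Finset.mem_image, Finset.mem_univ, true_and, Finset.mem_union, Finset.mem_filter]
      constructor
      · rintro ⟨u, rfl⟩
        exact hval _ u.isUnit
      · intro h3
        have ha : IsUnit a := by
          by_contra hc
          rw [MulChar.map_nonunit _ hc] at h3
          rcases h3 with h3 | h3 <;> norm_num at h3
        exact ⟨ha.unit, rfl⟩
    · rw [Finset.disjoint_filter]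
      intro a _ h3 h4
      rw [h3] at h4
      norm_num at h4
  rw [hsum] at hsplit
  have h5 : ((Finset.univ.filter fun a : ZMod m => ψ a = 1).card : ℂ) =
      ((Finset.univ.filter fun a : ZMod m => ψ a = -1).card : ℂ) := by
    linear_combination -hsplit
  have h6 : (Finset.univ.filter fun a : ZMod m => ψ a = 1).card =
      (Finset.univ.filter fun a : ZMod m => ψ a = -1).card := by exact_mod_cast h5
  rw [hunits, h6]
  push_cast
  ring

/-! ### Averages over residue classes -/

omit [NeZero N] in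
lemma ob_zero_of_class {m : ℕ} [NeZero m] (h : N ∣ m) {lam X : ℝ} (hlam : 1 ≤ lam) (hX : 0 < X)
    (hm : (m : ℝ) < X / 3) {p : ℕ} (hp : changeLevel h χ (p : ZMod m) ≠ -1) :
    ob χ lam X p = 0 := by
  by_contra hc
  obtain ⟨h1, h2, h3, h4⟩ := ob_ne_zero hlam hX hc
  have hp0 : (0 : ℝ) < p := by exact_mod_cast h1.pos
  have hpX : X / 3 ≤ p := by
    have h5 := (abs_le.mp h3).1
    have h6 : 1 / lam ≤ 1 := by rw [div_le_one (by linarith)]; exact hlam
    have h7 : Real.log X ≤ Real.log p + 1 := by linarith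
    rw [Real.log_le_iff_le_exp hX, exp_add, exp_log hp0] at h7
    have h8 := Real.exp_one_lt_d9
    nlinarith only [hp0, h7, h8]
  have hpm : m < p := by
    have : (m : ℝ) < p := by linarith
    exact_mod_cast this
  have hpc : p.Coprime m := by
    rw [Nat.Prime.coprime_iff_not_dvd h1]
    intro hd
    exact absurd (Nat.le_of_dvd (NeZero.pos m) hd) (not_le.mpr hpm)
  apply hp
  have h9 := changeLevel_eq_cast_of_dvd' χ h (a := (p : ℤ))
    (by exact_mod_cast Nat.isCoprime_iff_coprime.mpr hpc)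
  rw [Int.cast_natCast, Int.cast_natCast] at h9
  rw [h9, h2]

omit [NeZero N] in
lemma Ac_eq_zero {m : ℕ} [NeZero m] (h : N ∣ m) {lam X : ℝ} (hlam : 1 ≤ lam) (hX : 0 < X)
    (hm : (m : ℝ) < X / 3) {a : ZMod m} (ha : changeLevel h χ a ≠ -1) :
    Ac χ lam X m a = 0 := by
  unfold Ac
  apply Finset.sum_eq_zero
  intro p hp
  rw [Finset.mem_filter] at hp
  apply ob_zero_of_class h hlam hX hm
  rw [hp.2]; exact ha

omit [NeZero N] in
lemma sum_ob_class {m : ℕ} [NeZero m] (lam X : ℝ) (f : ZMod m → ℝ) :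
    ∑ p ∈ Finset.Icc 1 ⌊3 * X⌋₊, ob χ lam X p * f (p : ZMod m) =
      ∑ a : ZMod m, Ac χ lam X m a * f a := by
  classical
  unfold Ac
  simp_rw [Finset.sum_mul]
  rw [← Finset.sum_fiberwise_of_maps_to (s := Finset.Icc 1 ⌊3 * X⌋₊) (t := Finset.univ)
    (g := fun p : ℕ => (p : ZMod m)) (fun _ _ => Finset.mem_univ _)]
  apply Finset.sum_congr rfl
  intro a _
  apply Finset.sum_congr rfl
  intro p hp
  rw [Finset.mem_filter] at hp
  rw [hp.2]

lemma abs_mu_le {m : ℕ} [NeZero m] (h : N ∣ m) (h2 : χ ^ 2 = 1) (hne : χ ≠ 1) {f : ZMod m → ℝ}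
    (hf : ∀ a, |f a| ≤ 1) : |mu χ h f (-1)| ≤ 1 := by
  classical
  have hφ : (0 : ℝ) < Nat.totient m := by exact_mod_cast Nat.totient_pos.mpr (NeZero.pos m)
  unfold mu
  rw [abs_mul, abs_of_pos (by positivity : (0 : ℝ) < 2 / (Nat.totient m : ℝ))]
  have h3 : |∑ a : ZMod m, @ite ℝ (changeLevel h χ a = -1) (Classical.dec _) (f a) 0| ≤
      (Nat.totient m : ℝ) / 2 := by
    rw [← card_inert h h2 hne]
    refine (Finset.abs_sum_le_sum_abs _ _).trans ?_
    rw [Finset.card_filter]
    push_cast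
    apply Finset.sum_le_sum
    intro a _
    by_cases h4 : changeLevel h χ a = -1
    · rw [if_pos h4, if_pos h4]; exact hf a
    · rw [if_neg h4, if_neg h4, abs_zero]
  calc 2 / (Nat.totient m : ℝ) *
        |∑ a : ZMod m, @ite ℝ (changeLevel h χ a = -1) (Classical.dec _) (f a) 0| ≤
        2 / (Nat.totient m : ℝ) * ((Nat.totient m : ℝ) / 2) :=
        mul_le_mul_of_nonneg_left h3 (by positivity)
    _ = 1 := by field_simp

/-- the average of a function of the residue class over a block -/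
theorem ob_mean (hSW : SWd) (h2 : χ ^ 2 = 1) (hne : χ ≠ 1) {lam : ℝ} (hlam : 1 ≤ lam) (A B : ℕ) :
    ∀ᶠ X : ℝ in atTop, ∀ (m : ℕ) [NeZero m], (m : ℝ) ≤ (Real.log X) ^ B → ∀ h : N ∣ m,
    ∀ f : ZMod m → ℝ, (∀ a, |f a| ≤ 1) →
    |∑ p ∈ Finset.Icc 1 ⌊3 * X⌋₊, ob χ lam X p * f (p : ZMod m) -
      psiXL lam X / 2 * mu χ h f (-1)| ≤ X / (Real.log X) ^ A := by
  classical
  have e1 : ∀ᶠ X : ℝ in atTop, (Real.log X) ^ B ≤ X ^ (1 / 2 : ℝ) := by
    have h1 := isLittleO_log_rpow_rpow_atTop (s := 1 / 2) (B : ℝ) (by norm_num)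
    have h2 := h1.bound one_pos
    filter_upwards [h2, eventually_gt_atTop 3] with X hX h3
    have hX0 : 0 < X := by linarith
    have hl : 0 ≤ Real.log X := Real.log_nonneg (by linarith)
    rw [Real.norm_eq_abs, Real.norm_eq_abs, abs_of_nonneg (by positivity),
      abs_of_nonneg (by positivity), Real.rpow_natCast, one_mul] at hX
    exact hX
  filter_upwards [sw_class (χ := χ) hSW hlam (A + B) B, e1, eventually_gt_atTop 9] with X hsw hXB hX9
    m _ hmB h f hf
  have hm : m ≠ 0 := NeZero.ne m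
  have hX0 : 0 < X := by linarith
  have hl : 1 ≤ Real.log X := by
    rw [Real.le_log_iff_exp_le hX0]
    linarith [Real.exp_one_lt_d9]
  have hm3 : (m : ℝ) < X / 3 := by
    have h5 : X ^ (1 / 2 : ℝ) < X / 3 := by
      rw [← sqrt_eq_rpow, sqrt_lt' (by positivity)]
      nlinarith only [hX9]
    linarith
  have hφ : (0 : ℝ) < Nat.totient m := by exact_mod_cast Nat.totient_pos.mpr (NeZero.pos m)
  rw [sum_ob_class]
  have e2 : psiXL lam X / 2 * mu χ h f (-1) = ∑ a : ZMod m,
      (if changeLevel h χ a = -1 then psiXL lam X / (Nat.totient m : ℝ) else 0) * f a := by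
    unfold mu
    rw [Finset.mul_sum, Finset.mul_sum]
    apply Finset.sum_congr rfl
    intro a _
    by_cases h4 : changeLevel h χ a = -1
    · rw [if_pos h4, if_pos h4]; field_simp
    · rw [if_neg h4, if_neg h4]; ring
  rw [e2, ← Finset.sum_sub_distrib]
  have e3 : ∀ a ∈ (Finset.univ : Finset (ZMod m)), |Ac χ lam X m a * f a -
      (if changeLevel h χ a = -1 then psiXL lam X / (Nat.totient m : ℝ) else 0) * f a| ≤
      (2 * (X / (Real.log X) ^ (A + B))) * (if changeLevel h χ a = -1 then 1 else 0) := by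
    intro a _
    by_cases h4 : changeLevel h χ a = -1
    · rw [if_pos h4, if_pos h4, ← sub_mul, abs_mul, mul_one]
      have h5 := hsw m hm hmB h a h4
      calc _ ≤ (2 * (X / (Real.log X) ^ (A + B))) * 1 :=
            mul_le_mul h5 (hf a) (abs_nonneg _) (by positivity)
        _ = _ := mul_one _
    · rw [if_neg h4, if_neg h4, Ac_eq_zero h hlam hX0 hm3 h4]
      simp
  refine (Finset.abs_sum_le_sum_abs _ _).trans ((Finset.sum_le_sum e3).trans ?_)
  rw [← Finset.mul_sum, Finset.sum_boole, card_inert h h2 hne]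
  have h6 : (Nat.totient m : ℝ) ≤ (Real.log X) ^ B :=
    le_trans (by exact_mod_cast Nat.totient_le m) hmB
  have h7 : 0 < (Real.log X) ^ A := by positivity
  have h8 : 0 < (Real.log X) ^ B := by positivity
  calc 2 * (X / (Real.log X) ^ (A + B)) * ((Nat.totient m : ℝ) / 2) =
        (X / (Real.log X) ^ (A + B)) * (Nat.totient m : ℝ) := by ring
    _ ≤ (X / (Real.log X) ^ (A + B)) * (Real.log X) ^ B :=
        mul_le_mul_of_nonneg_left h6 (by positivity)
    _ = X / (Real.log X) ^ A := by rw [pow_add]; field_simp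

lemma mu_one {m : ℕ} [NeZero m] (h : N ∣ m) (h2 : χ ^ 2 = 1) (hne : χ ≠ 1) :
    mu χ h (fun _ => 1) (-1) = 1 := by
  classical
  have hφ : (0 : ℝ) < Nat.totient m := by exact_mod_cast Nat.totient_pos.mpr (NeZero.pos m)
  unfold mu
  have e : ∑ a : ZMod m, @ite ℝ (changeLevel h χ a = -1) (Classical.dec _) 1 0 =
      (Nat.totient m : ℝ) / 2 := by
    rw [← card_inert h h2 hne, Finset.card_filter]
    push_cast
    apply Finset.sum_congr rfl
    intro a _
    by_cases h4 : changeLevel h χ a = -1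
    · rw [if_pos h4]
    · rw [if_neg h4]
  rw [e]
  field_simp

end Pool.Agent.MP0016c7.Ros
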