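import Mathlib
import Pool.Agent.Lib.MP_0016c7_nt.CdlBlk
import Pool.Agent.Lib.MP_0016c7_nt.CdlPnt

open Real Filter

namespace Pool.Agent.MP0016c7.Ros

open Pool.Agent.BVall (OmL psiXL)
open DirichletCharacter

variable {N : ℕ} [NeZero N] (χ : DirichletCharacter ℂ N)

/-- block weights avoiding the divisors of `b` -/
noncomputable def obx (b : ℕ) (X : ℝ) (p : ℕ) : ℝ := if p ∣ b then 0 else ob χ 1 X p

/-- total weight -/
noncomputable def Jx (b : ℕ) (X : ℝ) : ℝ := ∑ p ∈ Finset.Icc 1 ⌊3 * X⌋₊, obx χ b X p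

variable {χ}

omit [NeZero N] in
lemma obx_nonneg {X : ℝ} (hX : 0 ≤ X) (b p : ℕ) : 0 ≤ obx χ b X p := by
  unfold obx
  split_ifs
  · exact le_rfl
  · exact ob_nonneg hX p

omit [NeZero N] in
lemma obx_ne_zero {X : ℝ} (hX : 0 < X) {b p : ℕ} (h : obx χ b X p ≠ 0) :
    p.Prime ∧ χ (p : ZMod N) = -1 ∧ |Real.log p - Real.log X| ≤ 1 ∧ (p : ℝ) ≤ 3 * X ∧ ¬ p ∣ b := by
  unfold obx at h
  split_ifs at h with h1
  · exact absurd rfl h
  · obtain ⟨a1, a2, a3, a4⟩ := ob_ne_zero le_rfl hX h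
    rw [one_div, inv_one] at a3
    exact ⟨a1, a2, a3, a4, h1⟩

omit [NeZero N] in
lemma obx_le {X : ℝ} (hX : 0 < X) (hl : 1 ≤ Real.log X) (b p : ℕ) :
    obx χ b X p ≤ 16 * Real.log X := by
  unfold obx
  split_ifs
  · linarith
  · exact ob_le le_rfl hX hl p

/-- the removed weight -/
lemma removed_le {X : ℝ} (hX : 0 < X) (hl : 1 ≤ Real.log X) {b : ℕ} (hb : b ≠ 0) :
    ∑ p ∈ (Finset.Icc 1 ⌊3 * X⌋₊).filter (fun p => p ∣ b), ob χ 1 X p ≤
      24 * Real.log b * Real.log X := by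
  classical
  have h1 : ∑ p ∈ (Finset.Icc 1 ⌊3 * X⌋₊).filter (fun p => p ∣ b), ob χ 1 X p ≤
      ∑ p ∈ b.primeFactors, 16 * Real.log X := by
    have h2 : ∑ p ∈ (Finset.Icc 1 ⌊3 * X⌋₊).filter (fun p => p ∣ b), ob χ 1 X p =
        ∑ p ∈ ((Finset.Icc 1 ⌊3 * X⌋₊).filter (fun p => p ∣ b)).filter
          (fun p => ob χ 1 X p ≠ 0), ob χ 1 X p := by
      rw [Finset.sum_filter_ne_zero]
    rw [h2]
    refine (Finset.sum_le_sum fun p _ => ob_le le_rfl hX hl p).trans ?_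
    apply Finset.sum_le_sum_of_subset_of_nonneg
    · intro p hp
      rw [Finset.mem_filter, Finset.mem_filter] at hp
      rw [Nat.mem_primeFactors]
      exact ⟨(ob_ne_zero le_rfl hX hp.2).1, hp.1.2, hb⟩
    · intro _ _ _; linarith
  refine h1.trans ?_
  rw [Finset.sum_const, nsmul_eq_mul]
  have h3 : (b.primeFactors.card : ℝ) * Real.log 2 ≤ Real.log b := by
    have h4 : 2 ^ b.primeFactors.card ≤ b := by
      calc 2 ^ b.primeFactors.card = ∏ _p ∈ b.primeFactors, 2 := by rw [Finset.prod_const]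
        _ ≤ ∏ p ∈ b.primeFactors, p := Finset.prod_le_prod' fun p hp =>
            (Nat.prime_of_mem_primeFactors hp).two_le
        _ ≤ b := Nat.le_of_dvd (Nat.pos_of_ne_zero hb) (Nat.prod_primeFactors_dvd b)
    have h5 : ((2 : ℝ)) ^ b.primeFactors.card ≤ b := by exact_mod_cast h4
    rw [← Real.log_pow]
    exact Real.log_le_log (by positivity) h5
  have h6 := Real.log_two_gt_d9
  have h7 : (0 : ℝ) ≤ b.primeFactors.card := Nat.cast_nonneg _
  have h8 : (b.primeFactors.card : ℝ) ≤ 3 / 2 * Real.log b := by nlinarith only [h3, h6]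
  calc (b.primeFactors.card : ℝ) * (16 * Real.log X) ≤ (3 / 2 * Real.log b) * (16 * Real.log X) :=
        mul_le_mul_of_nonneg_right h8 (by linarith)
    _ = _ := by ring

omit [NeZero N] in
lemma sum_obx (b : ℕ) (X : ℝ) (f : ℕ → ℝ) :
    ∑ p ∈ Finset.Icc 1 ⌊3 * X⌋₊, obx χ b X p * f p =
      ∑ p ∈ Finset.Icc 1 ⌊3 * X⌋₊, ob χ 1 X p * f p -
      ∑ p ∈ (Finset.Icc 1 ⌊3 * X⌋₊).filter (fun p => p ∣ b), ob χ 1 X p * f p := by
  rw [Finset.sum_filter, ← Finset.sum_sub_distrib]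
  apply Finset.sum_congr rfl
  intro p _
  unfold obx
  split_ifs <;> ring

/-- polynomials in `log X` are small -/
lemma eventually_log_pow_le (c : ℝ) (A B : ℕ) : ∀ᶠ X : ℝ in atTop,
    c * (Real.log X) ^ B ≤ X / (Real.log X) ^ A := by
  have h1 := isLittleO_log_rpow_rpow_atTop (s := 1) ((A + B + 1 : ℕ) : ℝ) (by norm_num)
  have h2 := h1.bound one_pos
  filter_upwards [h2, eventually_gt_atTop 3, Real.tendsto_log_atTop.eventually_ge_atTop (|c|)]
    with X hX h3 hc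
  have hX0 : 0 < X := by linarith
  have hl : 1 ≤ Real.log X := by
    rw [Real.le_log_iff_exp_le hX0]
    linarith [Real.exp_one_lt_d9]
  rw [Real.norm_eq_abs, Real.norm_eq_abs, abs_of_nonneg (by positivity),
    abs_of_nonneg (by positivity), Real.rpow_natCast, one_mul, Real.rpow_one] at hX
  rw [le_div_iff₀ (by positivity)]
  calc c * Real.log X ^ B * Real.log X ^ A ≤ Real.log X * Real.log X ^ B * Real.log X ^ A := by
        apply mul_le_mul_of_nonneg_right _ (by positivity)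
        exact mul_le_mul_of_nonneg_right ((le_abs_self c).trans hc) (by positivity)
    _ = Real.log X ^ (A + B + 1) := by ring
    _ ≤ X := hX

/-- the blocks are large and equidistributed -/
theorem obx_ok (hSW : SWd) (h2 : χ ^ 2 = 1) (hne : χ ≠ 1) (A B : ℕ) : ∀ᶠ X : ℝ in atTop,
    ∀ b : ℕ, b ≠ 0 →
    Real.log b ≤ (Real.log X) ^ B → X / 100 ≤ Jx χ b X ∧
    ∀ (m : ℕ) [NeZero m], (m : ℝ) ≤ (Real.log X) ^ B → ∀ h : N ∣ m, ∀ f : ZMod m → ℝ,
    (∀ a, |f a| ≤ 1) → |∑ p ∈ Finset.Icc 1 ⌊3 * X⌋₊, obx χ b X p * f (p : ZMod m) -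
      Jx χ b X * mu χ h f (-1)| ≤ Jx χ b X / (Real.log X) ^ A := by
  filter_upwards [ob_mean hSW h2 hne le_rfl (A + 1) B, ob_mean hSW h2 hne le_rfl (A + 1) 1,
    (hSW 1 le_rfl).2, eventually_log_pow_le 24 (A + 1) (B + 1), eventually_gt_atTop 3,
    Real.tendsto_log_atTop.eventually_ge_atTop (400 + (N : ℝ))]
    with X hmB hm1 hpsi hrem hX3 hlogX b hb hbX
  have hN : (0 : ℝ) ≤ N := Nat.cast_nonneg N
  have hX0 : 0 < X := by linarith
  have hl : 400 ≤ Real.log X := by linarith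
  have hl1 : 1 ≤ Real.log X := by linarith
  set E := X / (Real.log X) ^ (A + 1) with hE
  have hE0 : 0 ≤ E := by positivity
  have hpow : (Real.log X) ≤ (Real.log X) ^ (A + 1) := by
    calc Real.log X = Real.log X ^ 1 := (pow_one _).symm
      _ ≤ _ := pow_le_pow_right₀ hl1 (by omega)
  have hEs : E ≤ X / 400 := div_le_div_of_nonneg_left hX0.le (by norm_num) (hl.trans hpow)
  -- removed mass
  have hR := removed_le (χ := χ) hX0 hl1 hb
  set R := ∑ p ∈ (Finset.Icc 1 ⌊3 * X⌋₊).filter (fun p => p ∣ b), ob χ 1 X p with hRd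
  have hR1 : R ≤ E := by
    refine hR.trans (le_trans ?_ hrem)
    calc 24 * Real.log b * Real.log X ≤ 24 * (Real.log X) ^ B * Real.log X := by
          apply mul_le_mul_of_nonneg_right _ (by linarith)
          linarith
      _ = _ := by ring
  have hR0 : 0 ≤ R := Finset.sum_nonneg fun p _ => ob_nonneg hX0.le p
  -- total mass
  have hJ : |Jb χ 1 X - psiXL 1 X / 2| ≤ E := by
    have := hm1 N (by rw [pow_one]; linarith) dvd_rfl (fun _ => 1) (fun _ => by simp)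
    rw [mu_one dvd_rfl h2 hne, mul_one] at this
    simp only [mul_one] at this
    exact this
  have hJx : Jx χ b X = Jb χ 1 X - R := by
    have := sum_obx (χ := χ) b X (fun _ => 1)
    simp only [mul_one] at this
    exact this
  obtain ⟨j1, j2⟩ := abs_le.mp hJ
  have hJlow : X / 100 ≤ Jx χ b X := by
    rw [mul_one] at hpsi
    rw [hJx]
    linarith
  refine ⟨hJlow, fun m _ hm h f hf => ?_⟩
  have k1 := hmB m hm h f hf
  have k2 : |∑ p ∈ (Finset.Icc 1 ⌊3 * X⌋₊).filter (fun p => p ∣ b),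
      ob χ 1 X p * f (p : ZMod m)| ≤ R := by
    refine (Finset.abs_sum_le_sum_abs _ _).trans (Finset.sum_le_sum fun p _ => ?_)
    rw [abs_mul, abs_of_nonneg (ob_nonneg hX0.le p)]
    calc _ ≤ ob χ 1 X p * 1 := mul_le_mul_of_nonneg_left (hf _) (ob_nonneg hX0.le p)
      _ = _ := mul_one _
  have k3 : |(psiXL 1 X / 2 - Jb χ 1 X + R) * mu χ h f (-1)| ≤ 2 * E := by
    rw [abs_mul]
    have q1 : |psiXL 1 X / 2 - Jb χ 1 X + R| ≤ 2 * E := by
      rw [abs_le]; constructor <;> linarith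
    calc _ ≤ (2 * E) * 1 := mul_le_mul q1 (abs_mu_le h h2 hne hf) (abs_nonneg _) (by linarith)
      _ = _ := mul_one _
  rw [sum_obx b X (fun p => f (p : ZMod m)), hJx]
  have k4 : 4 * E ≤ (Jb χ 1 X - R) / (Real.log X) ^ A := by
    rw [← hJx, le_div_iff₀ (by positivity), hE, pow_succ]
    have : 4 * (X / (Real.log X ^ A * Real.log X)) * Real.log X ^ A = 4 * X / Real.log X := by
      field_simp
    rw [this, div_le_iff₀ (by linarith)]
    nlinarith only [hpsi, hX3, hlogX, hEs, hR1, hJx, j1]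
  refine le_trans ?_ k4
  set U := ∑ p ∈ Finset.Icc 1 ⌊3 * X⌋₊, ob χ 1 X p * f (p : ZMod m) with hU
  set V := ∑ p ∈ (Finset.Icc 1 ⌊3 * X⌋₊).filter (fun p => p ∣ b),
      ob χ 1 X p * f (p : ZMod m) with hV
  have e : U - V - (Jb χ 1 X - R) * mu χ h f (-1) = (U - psiXL 1 X / 2 * mu χ h f (-1)) - V +
      (psiXL 1 X / 2 - Jb χ 1 X + R) * mu χ h f (-1) := by ring
  rw [e]
  have t1 := abs_add_le (U - psiXL 1 X / 2 * mu χ h f (-1) - V)
    ((psiXL 1 X / 2 - Jb χ 1 X + R) * mu χ h f (-1))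
  have t2 := abs_sub (U - psiXL 1 X / 2 * mu χ h f (-1)) V
  linarith

lemma sum_P_obx {Λ X : ℝ} (hX : 0 < X) (hXΛ : 3 * X ≤ rexp Λ) (b : ℕ) (f : ℕ → ℝ) :
    ∑ p ∈ iP χ Λ, obx χ b X p * f p = ∑ p ∈ Finset.Icc 1 ⌊3 * X⌋₊, obx χ b X p * f p := by
  apply Finset.sum_congr_of_eq_on_inter
  · intro p _ hp2
    by_cases h0 : obx χ b X p = 0
    · rw [h0, zero_mul]
    · exfalso
      obtain ⟨a1, a2, a3, a4, a5⟩ := obx_ne_zero hX h0
      apply hp2
      rw [Finset.mem_Icc]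
      exact ⟨a1.one_lt.le, Nat.le_floor a4⟩
  · intro p _ hp2
    by_cases h0 : obx χ b X p = 0
    · rw [h0, zero_mul]
    · exfalso
      obtain ⟨a1, a2, a3, a4, a5⟩ := obx_ne_zero hX h0
      apply hp2
      rw [mem_iP]
      have hp0 : (0 : ℝ) < p := by exact_mod_cast a1.pos
      refine ⟨a1, ?_, ?_⟩
      · rw [rchar_apply χ a1.ne_zero, a2]; simp
      · rw [Real.log_le_iff_le_exp hp0]; linarith
  · intro p _ _; rfl

lemma obx_blk {Λ X : ℝ} (hX : 0 < X) (hXΛ : 3 * X ≤ rexp Λ) (hl : 1 ≤ Real.log X)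
    (hlΛ : Real.log X ≤ Λ) (b : ℕ) :
    Blk (iP χ Λ) (obx χ b X) X (Jx χ b X) (16 * Λ) 1 := by
  refine ⟨fun p => obx_nonneg hX.le b p, fun p hp => ?_, fun p hp => ?_, fun p => ?_, ?_⟩
  · obtain ⟨a1, a2, a3, a4, a5⟩ := obx_ne_zero hX hp
    rw [mem_iP]
    have hp0 : (0 : ℝ) < p := by exact_mod_cast a1.pos
    refine ⟨a1, ?_, ?_⟩
    · rw [rchar_apply χ a1.ne_zero, a2]; simp
    · rw [Real.log_le_iff_le_exp hp0]; linarith
  · exact (obx_ne_zero hX hp).2.2.1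
  · refine (obx_le hX hl b p).trans ?_
    linarith
  · have := sum_P_obx (χ := χ) hX hXΛ b (fun _ => 1)
    simp only [mul_one] at this
    exact this

end Pool.Agent.MP0016c7.Ros
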