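import Mathlib
import Pool.Agent.Lib.MP_0016c7_nt.RosSeries

open Real Set MeasureTheory Filter Topology

namespace Pool.Agent.MP0016c7.Ros

section periodic

variable {N : ℕ} [NeZero N] {χ : DirichletCharacter ℂ N}

omit [NeZero N] in
lemma modulus_ne_one (hne : χ ≠ 1) : N ≠ 1 := by
  rintro rfl
  exact hne (DirichletCharacter.level_one χ)

omit [NeZero N] in
lemma rchar_add_N (hN : N ≠ 1) (n : ℕ) : rchar χ (n + N) = rchar χ n := by
  have h0 : rchar χ N = 0 := by
    rcases Nat.eq_zero_or_pos N with h | h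
    · subst h; simp
    · rw [rchar_apply χ h.ne', ZMod.natCast_self, χ.map_zero' hN, Complex.zero_re]
  rcases Nat.eq_zero_or_pos n with rfl | hn
  · rw [zero_add, h0]; simp
  · rw [rchar_apply χ (by omega), rchar_apply χ hn.ne']
    push_cast
    rw [ZMod.natCast_self, add_zero]

lemma sum_rchar_range (hne : χ ≠ 1) : ∑ k ∈ Finset.range N, rchar χ k = 0 := by
  have hN := modulus_ne_one hne
  have h1 : ∑ n ∈ Finset.range N, rchar χ n =
      (∑ k ∈ Finset.range N, χ ((0 + k : ℕ) : ZMod N)).re := by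
    rw [Complex.re_sum]
    apply Finset.sum_congr rfl
    intro k _
    rw [zero_add]
    rcases Nat.eq_zero_or_pos k with rfl | hk
    · rw [Nat.cast_zero, χ.map_zero' hN]; simp
    · rw [rchar_apply χ hk.ne']
  rw [h1, sum_period hne, Complex.zero_re]

/-- partial sums -/
noncomputable def pS (χ : DirichletCharacter ℂ N) (n : ℕ) : ℝ :=
  ∑ k ∈ Finset.range (n + 1), rchar χ k

/-- numerator polynomial -/
noncomputable def Ap (χ : DirichletCharacter ℂ N) : Polynomial ℝ :=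
  ∑ n ∈ Finset.range N, Polynomial.C (pS χ n) * Polynomial.X ^ n

/-- denominator polynomial -/
noncomputable def Dp (N : ℕ) : Polynomial ℝ := ∑ n ∈ Finset.range N, Polynomial.X ^ n

omit [NeZero N] in
lemma Ap_eval (x : ℝ) : (Ap χ).eval x = ∑ n ∈ Finset.range N, pS χ n * x ^ n := by
  unfold Ap
  rw [Polynomial.eval_finsetSum]
  simp

lemma Dp_eval (N : ℕ) (x : ℝ) : (Dp N).eval x = ∑ n ∈ Finset.range N, x ^ n := by
  unfold Dp
  rw [Polynomial.eval_finsetSum]
  simp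

lemma Dp_ge {x : ℝ} (hx : 0 ≤ x) : 1 ≤ (Dp N).eval x := by
  rw [Dp_eval]
  have h0 : 0 ∈ Finset.range N := Finset.mem_range.mpr (NeZero.pos N)
  have := Finset.single_le_sum (f := fun n => x ^ n) (fun n _ => pow_nonneg hx n) h0
  simpa using this

omit [NeZero N] in
lemma parts (x : ℝ) (m : ℕ) : ∑ n ∈ Finset.range (m + 1), rchar χ n * x ^ n =
    (1 - x) * (∑ n ∈ Finset.range (m + 1), pS χ n * x ^ n) + pS χ m * x ^ (m + 1) := by
  induction m with
  | zero => unfold pS; simp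
  | succ m ih =>
    rw [Finset.sum_range_succ, ih, Finset.sum_range_succ _ (m + 1)]
    have : pS χ (m + 1) = pS χ m + rchar χ (m + 1) := by
      unfold pS
      rw [Finset.sum_range_succ]
    rw [this]
    ring

omit [NeZero N] in
lemma summable_rchar (h2 : χ ^ 2 = 1) {x : ℝ} (hx0 : 0 ≤ x) (hx1 : x < 1) :
    Summable fun n : ℕ => rchar χ n * x ^ n := by
  refine Summable.of_norm_bounded (summable_geometric_of_lt_one hx0 hx1) fun n => ?_
  rw [Real.norm_eq_abs, abs_mul, abs_of_nonneg (pow_nonneg hx0 n)]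
  calc |rchar χ n| * x ^ n ≤ 1 * x ^ n :=
        mul_le_mul_of_nonneg_right (abs_rchar_le h2 n) (pow_nonneg hx0 n)
    _ = _ := one_mul _

/-- The rational function representing the power series. -/
noncomputable def Rf (χ : DirichletCharacter ℂ N) (x : ℝ) : ℝ := (Ap χ).eval x / (Dp N).eval x

theorem tsum_rchar (hne : χ ≠ 1) (h2 : χ ^ 2 = 1) {x : ℝ} (hx0 : 0 ≤ x) (hx1 : x < 1) :
    ∑' n : ℕ, rchar χ n * x ^ n = Rf χ x := by
  have hN := modulus_ne_one hne
  have hs := summable_rchar (χ := χ) h2 hx0 hx1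
  set F := ∑' n : ℕ, rchar χ n * x ^ n with hF
  have e1 : F = (1 - x) * (Ap χ).eval x + x ^ N * F := by
    have h1 := hs.sum_add_tsum_nat_add N
    have h3 : ∑' n : ℕ, rchar χ (n + N) * x ^ (n + N) = x ^ N * F := by
      rw [hF, ← tsum_mul_left]
      congr 1
      ext n
      rw [rchar_add_N hN, pow_add]
      ring
    rw [h3, ← hF] at h1
    obtain ⟨m, hm⟩ := Nat.exists_eq_succ_of_ne_zero (NeZero.ne N)
    have h6 : Finset.range N = Finset.range (m + 1) := by rw [hm]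
    have h4 := parts (χ := χ) x m
    have h5 : pS χ m = 0 := by
      unfold pS
      have := sum_rchar_range hne
      rwa [h6] at this
    rw [h5, zero_mul, add_zero, ← h6, ← Ap_eval] at h4
    rw [h4] at h1
    exact h1.symm
  have e3 : (Dp N).eval x * (1 - x) = 1 - x ^ N := by
    rw [Dp_eval]; exact geom_sum_mul_neg x N
  have hD := Dp_ge (N := N) hx0
  unfold Rf
  rw [eq_div_iff (by linarith)]
  have h7 : (1 - x) * (F * (Dp N).eval x) = (1 - x) * (Ap χ).eval x := by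
    linear_combination F * e3 + e1
  exact mul_left_cancel₀ (by linarith) h7

/-! ### Bounds on `[0, 1]` -/

/-- quotient by the denominator -/
noncomputable def qB (N : ℕ) (B : Polynomial ℝ) (x : ℝ) : ℝ := B.eval x / (Dp N).eval x

/-- its derivative -/
noncomputable def qB' (N : ℕ) (B : Polynomial ℝ) (x : ℝ) : ℝ :=
  (B.derivative.eval x * (Dp N).eval x - B.eval x * (Dp N).derivative.eval x) /
    ((Dp N).eval x) ^ 2

lemma hasDerivAt_qB (B : Polynomial ℝ) {x : ℝ} (hx : 0 ≤ x) :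
    HasDerivAt (qB N B) (qB' N B x) x := by
  have hD := Dp_ge (N := N) hx
  exact (B.hasDerivAt x).div ((Dp N).hasDerivAt x) (by linarith)

lemma continuousOn_qB' (B : Polynomial ℝ) : ContinuousOn (qB' N B) (Icc 0 1) := by
  unfold qB'
  apply ContinuousOn.div
  · exact (((B.derivative.continuous).mul (Dp N).continuous).sub
      (B.continuous.mul (Dp N).derivative.continuous)).continuousOn
  · exact ((Dp N).continuous.pow 2).continuousOn
  · intro x hx
    have hD := Dp_ge (N := N) hx.1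
    positivity

lemma qB_bounds (N : ℕ) [NeZero N] (B : Polynomial ℝ) : ∃ C : ℝ, 0 ≤ C ∧
    (∀ x ∈ Icc (0 : ℝ) 1, |qB' N B x| ≤ C) ∧ (∀ x ∈ Icc (0 : ℝ) 1, |qB N B x| ≤ C) ∧
    ∀ x ∈ Icc (0 : ℝ) 1, ∀ y ∈ Icc (0 : ℝ) 1, |qB N B x - qB N B y| ≤ C * |x - y| := by
  obtain ⟨C₁, hC₁⟩ := isCompact_Icc.exists_bound_of_continuousOn (continuousOn_qB' (N := N) B)
  have hc : ContinuousOn (qB N B) (Icc 0 1) := fun x hx =>
    (hasDerivAt_qB B hx.1).continuousAt.continuousWithinAt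
  obtain ⟨C₂, hC₂⟩ := isCompact_Icc.exists_bound_of_continuousOn hc
  have h0 : (0 : ℝ) ∈ Icc (0 : ℝ) 1 := ⟨le_rfl, zero_le_one⟩
  have hC₁0 : 0 ≤ C₁ := (norm_nonneg _).trans (hC₁ 0 h0)
  refine ⟨max C₁ C₂, hC₁0.trans (le_max_left _ _),
    fun x hx => (hC₁ x hx).trans (le_max_left _ _), fun x hx => (hC₂ x hx).trans (le_max_right _ _),
    fun x hx y hy => ?_⟩
  have h := Convex.norm_image_sub_le_of_norm_hasDerivWithin_le (f := qB N B) (f' := qB' N B)
    (C := C₁) (s := Icc 0 1) (x := y) (y := x)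
    (fun z hz => (hasDerivAt_qB B hz.1).hasDerivWithinAt) (fun z hz => hC₁ z hz)
    (convex_Icc 0 1) hy hx
  rw [Real.norm_eq_abs, Real.norm_eq_abs] at h
  exact h.trans (mul_le_mul_of_nonneg_right (le_max_left _ _) (abs_nonneg _))

lemma Rf_le : ∃ C : ℝ, 0 ≤ C ∧ ∀ x ∈ Icc (0 : ℝ) 1, |Rf χ x| ≤ C * x := by
  refine ⟨∑ n ∈ Finset.range N, |pS χ n|, Finset.sum_nonneg fun n _ => abs_nonneg _,
    fun x hx => ?_⟩
  have hD := Dp_ge (N := N) hx.1
  unfold Rf
  rw [abs_div, abs_of_pos (by linarith : 0 < (Dp N).eval x), div_le_iff₀ (by linarith), Ap_eval]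
  have h1 : |∑ n ∈ Finset.range N, pS χ n * x ^ n| ≤ (∑ n ∈ Finset.range N, |pS χ n|) * x := by
    rw [Finset.sum_mul]
    refine (Finset.abs_sum_le_sum_abs _ _).trans (Finset.sum_le_sum fun n _ => ?_)
    rw [abs_mul, abs_of_nonneg (pow_nonneg hx.1 n)]
    rcases Nat.eq_zero_or_pos n with rfl | hn
    · have : pS χ 0 = 0 := by unfold pS; simp
      rw [this]; simp
    · apply mul_le_mul_of_nonneg_left _ (abs_nonneg _)
      calc x ^ n ≤ x ^ 1 := pow_le_pow_of_le_one hx.1 hx.2 hn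
        _ = x := pow_one x
  refine h1.trans ?_
  have h2 : 0 ≤ (∑ n ∈ Finset.range N, |pS χ n|) * x :=
    mul_nonneg (Finset.sum_nonneg fun n _ => abs_nonneg _) hx.1
  calc _ = (∑ n ∈ Finset.range N, |pS χ n|) * x * 1 := (mul_one _).symm
    _ ≤ _ := mul_le_mul_of_nonneg_left hD h2

end periodic

/-! ### The kernel function -/

section kernel

variable {N : ℕ} [NeZero N] {χ : DirichletCharacter ℂ N}

/-- `t = e^{-y}` -/
noncomputable def tt (y : ℝ) : ℝ := rexp (-y)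

/-- `x = e^{-t}` -/
noncomputable def xx (y : ℝ) : ℝ := rexp (-tt y)

lemma tt_pos (y : ℝ) : 0 < tt y := exp_pos _
lemma xx_pos (y : ℝ) : 0 < xx y := exp_pos _
lemma xx_lt_one (y : ℝ) : xx y < 1 := by
  unfold xx
  rw [exp_lt_one_iff]
  have := tt_pos y
  linarith
lemma xx_mem (y : ℝ) : xx y ∈ Icc (0 : ℝ) 1 := ⟨(xx_pos y).le, (xx_lt_one y).le⟩

lemma one_sub_xx_le (y : ℝ) : 1 - xx y ≤ tt y := by
  unfold xx
  have := add_one_le_exp (-tt y)
  linarith

lemma hasDerivAt_xx (y : ℝ) : HasDerivAt xx (xx y * tt y) y := by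
  unfold xx tt
  have h1 : HasDerivAt (fun y : ℝ => rexp (-y)) (rexp (-y) * (-1)) y := (hasDerivAt_neg y).exp
  have h2 := h1.neg.exp
  refine h2.congr_deriv ?_
  simp only [Pi.neg_apply]
  ring

/-- `g(y) = ∑ χ(n) e^{-n e^{-y}}` in closed form -/
noncomputable def gS (χ : DirichletCharacter ℂ N) (y : ℝ) : ℝ := Rf χ (xx y)

/-- its derivative -/
noncomputable def gS' (χ : DirichletCharacter ℂ N) (y : ℝ) : ℝ :=
  qB' N (Ap χ) (xx y) * (xx y * tt y)

lemma hasDerivAt_gS (y : ℝ) : HasDerivAt (gS χ) (gS' χ y) y :=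
  (hasDerivAt_qB (N := N) (Ap χ) (xx_pos y).le).comp y (hasDerivAt_xx y)

theorem gS_eq (hne : χ ≠ 1) (h2 : χ ^ 2 = 1) (y : ℝ) :
    gS χ y = ∑' n : ℕ, rchar χ n * rexp (-(n * tt y)) := by
  unfold gS
  rw [← tsum_rchar hne h2 (xx_pos y).le (xx_lt_one y)]
  congr 1
  ext n
  unfold xx
  rw [← exp_nat_mul]
  congr 2
  ring

theorem gS_bound : ∃ C : ℝ, 0 ≤ C ∧ ∀ y, |gS χ y| + |gS' χ y| ≤ C * ((1 + tt y) * xx y) := by
  obtain ⟨C₁, hC₁, h1⟩ := Rf_le (χ := χ)
  obtain ⟨C₂, hC₂, h2, _, _⟩ := qB_bounds N (Ap χ)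
  refine ⟨C₁ + C₂, by positivity, fun y => ?_⟩
  have hx := xx_mem y
  have ht := tt_pos y
  have hx0 := xx_pos y
  have q1 := h1 _ hx
  have q2 : |gS' χ y| ≤ C₂ * (xx y * tt y) := by
    unfold gS'
    rw [abs_mul, abs_of_pos (by positivity : 0 < xx y * tt y)]
    exact mul_le_mul_of_nonneg_right (h2 _ hx) (by positivity)
  have q3 : |gS χ y| ≤ C₁ * xx y := q1
  have n1 : 0 ≤ C₁ * (tt y * xx y) := by positivity
  have n2 : 0 ≤ C₂ * xx y := by positivity
  calc _ ≤ C₁ * xx y + C₂ * (xx y * tt y) := add_le_add q3 q2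
    _ ≤ _ := by nlinarith only [n1, n2]

/-- behaviour as `y → ∞` -/
theorem gS_asymp {κ : ℕ} (hκ : κ ≤ 1) {B : Polynomial ℝ}
    (hB : Ap χ = (1 - Polynomial.X) ^ κ * B) : ∃ C : ℝ, 0 ≤ C ∧ ∀ y, 0 ≤ y →
    |gS χ y - qB N B 1 * rexp (-(κ * y))| ≤ C * rexp (-((κ + 1) * y)) := by
  obtain ⟨C, hC, _, h2, h3⟩ := qB_bounds N B
  have hone : (1 : ℝ) ∈ Icc (0 : ℝ) 1 := ⟨zero_le_one, le_rfl⟩
  have hg : ∀ y, gS χ y = (1 - xx y) ^ κ * qB N B (xx y) := by
    intro y
    unfold gS Rf qB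
    rw [hB]
    simp only [Polynomial.eval_mul, Polynomial.eval_pow, Polynomial.eval_sub,
      Polynomial.eval_one, Polynomial.eval_X]
    rw [mul_div_assoc]
  refine ⟨2 * C, by positivity, fun y hy => ?_⟩
  have hx := xx_mem y
  have hx1 := xx_lt_one y
  have ht := tt_pos y
  have ht1 : tt y ≤ 1 := by unfold tt; rw [exp_le_one_iff]; linarith only [hy]
  have h4 : |qB N B (xx y) - qB N B 1| ≤ C * tt y := by
    refine (h3 _ hx 1 hone).trans ?_
    apply mul_le_mul_of_nonneg_left _ hC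
    rw [abs_sub_comm, abs_of_pos (by linarith)]
    exact one_sub_xx_le y
  have h5 := h2 1 hone
  rw [hg]
  interval_cases κ
  · simp only [pow_zero, one_mul, Nat.cast_zero, zero_mul, neg_zero, exp_zero, mul_one, zero_add]
    refine h4.trans ?_
    have : rexp (-y) = tt y := rfl
    rw [this]
    nlinarith only [hC, ht]
  · simp only [pow_one, Nat.cast_one, one_mul]
    have e1 : rexp (-y) = tt y := rfl
    have e2 : rexp (-((1 + 1) * y)) = tt y * tt y := by
      unfold tt; rw [← exp_add]; congr 1; ring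
    rw [e1, e2]
    have h6 : |(1 - xx y) - tt y| ≤ tt y * tt y := by
      have h7 := Real.abs_exp_sub_one_sub_id_le (x := -tt y) (by rw [abs_neg, abs_of_pos ht]; exact ht1)
      have h8 : (1 - xx y) - tt y = -(rexp (-tt y) - 1 - (-tt y)) := by unfold xx; ring
      rw [h8, abs_neg]
      refine h7.trans (le_of_eq ?_)
      ring
    have h9 : (1 - xx y) * qB N B (xx y) - qB N B 1 * tt y =
        (1 - xx y) * (qB N B (xx y) - qB N B 1) + qB N B 1 * ((1 - xx y) - tt y) := by ring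
    rw [h9]
    refine (abs_add_le _ _).trans ?_
    rw [abs_mul, abs_mul, abs_of_pos (by linarith : 0 < 1 - xx y)]
    have h10 : (1 - xx y) * |qB N B (xx y) - qB N B 1| ≤ tt y * (C * tt y) :=
      mul_le_mul (one_sub_xx_le y) h4 (abs_nonneg _) ht.le
    have h11 : |qB N B 1| * |(1 - xx y) - tt y| ≤ C * (tt y * tt y) :=
      mul_le_mul h5 h6 (abs_nonneg _) hC
    nlinarith only [h10, h11]

end kernel

end Pool.Agent.MP0016c7.Ros
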