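import Mathlib
import Pool.Agent.Lib.MP_0016c7_nt.RosEst
import Pool.Agent.Lib.MP_0016c7_nt.RosTilt

open Real Set MeasureTheory Filter Topology

namespace Pool.Agent.MP0016c7.Ros

variable {P : ℝ → Finset ℕ} {C₀ : ℝ} {C₁ Cs : ℝ → ℝ}

lemma xs_eq (σ : ℝ) {p : ℕ} (hp : 0 < p) : xs σ p = 1 / p * rexp ((1 - σ) * lg p) := by
  have hp' : (0 : ℝ) < p := by exact_mod_cast hp
  have h1 : (1 : ℝ) / p = rexp (-lg p) := by
    unfold lg
    rw [exp_neg, exp_log hp', one_div]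
  rw [h1, ← exp_add]
  unfold xs
  congr 1
  ring

lemma xs_le_one {σ : ℝ} (hσ : 0 ≤ σ) (p : ℕ) : xs σ p ≤ 1 := by
  unfold xs
  rw [exp_le_one_iff, neg_nonpos]
  exact mul_nonneg hσ (lg_nonneg p)

lemma lg_two_le {p : ℕ} (hp : p.Prime) : Real.log 2 ≤ lg p := by
  unfold lg
  exact Real.log_le_log (by norm_num) (by exact_mod_cast hp.two_le)

lemma xs_le {σ σ₂ : ℝ} (hσ : σ₂ ≤ σ) (h0 : 0 < σ₂) {p : ℕ} (hp : p.Prime) :
    xs σ p ≤ rexp (-(σ₂ * Real.log 2)) := by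
  unfold xs
  rw [exp_le_exp, neg_le_neg_iff]
  have h1 := lg_two_le hp
  have h2 := Real.log_pos one_lt_two
  nlinarith only [hσ, h1, h2, h0]

namespace MDat

variable (hM : MDat P C₀ C₁ Cs)
include hM

/-- block of primes -/
lemma sum_split {E : Type*} [AddCommMonoid E] (F : ℕ → E) {u v : ℝ} (huv : v ≤ u) :
    ∑ p ∈ P u, F p = ∑ p ∈ P v, F p + ∑ p ∈ P u with ¬ (lg p ≤ v), F p := by
  rw [hM.mem u v huv, Finset.sum_filter_add_sum_filter_not]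

lemma blk_t0 {u v : ℝ} (hv : 0 ≤ v) (huv : v ≤ u) :
    (u - v) / 2 - 2 * C₀ ≤ ∑ p ∈ P u with ¬ (lg p ≤ v), lg p / p := by
  have h1 := hM.sum_split (fun p => lg p / p) huv
  have h2 := abs_le.mp (hM.t0 u (hv.trans huv))
  have h3 := abs_le.mp (hM.t0 v hv)
  linarith only [h1, h2, h3, h2.1, h3.2]

lemma blk_t0_le {u v : ℝ} (hv : 0 ≤ v) (huv : v ≤ u) :
    ∑ p ∈ P u with ¬ (lg p ≤ v), lg p / p ≤ (u - v) / 2 + 2 * C₀ := by
  have h1 := hM.sum_split (fun p => lg p / p) huv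
  have h2 := abs_le.mp (hM.t0 u (hv.trans huv))
  have h3 := abs_le.mp (hM.t0 v hv)
  linarith only [h1, h2, h3, h2.2, h3.1]

lemma blk_t1 {T ξ u v : ℝ} (hξ : 0 < |ξ|) (hT : |ξ| ≤ T) (hv : 0 ≤ v) (huv : v ≤ u) :
    ∑ p ∈ P u with ¬ (lg p ≤ v), lg p / p * cos (ξ * lg p) ≤ 2 * C₁ T / |ξ| := by
  have h1 := hM.sum_split (fun p => ((lg p / p : ℝ) : ℂ) * ex (-(ξ * lg p))) huv
  have h2 := hM.t1 T ξ u hξ hT (hv.trans huv)
  have h3 := hM.t1 T ξ v hξ hT hv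
  have h4 : ∑ p ∈ P u with ¬ (lg p ≤ v), lg p / p * cos (ξ * lg p) =
      (∑ p ∈ P u with ¬ (lg p ≤ v), ((lg p / p : ℝ) : ℂ) * ex (-(ξ * lg p))).re := by
    rw [Complex.re_sum]
    apply Finset.sum_congr rfl
    intro p _
    rw [Complex.re_ofReal_mul, ex_re, cos_neg]
  rw [h4]
  refine (Complex.re_le_norm _).trans ?_
  have e : ∑ p ∈ P u with ¬ (lg p ≤ v), ((lg p / p : ℝ) : ℂ) * ex (-(ξ * lg p)) =
      ∑ p ∈ P u, ((lg p / p : ℝ) : ℂ) * ex (-(ξ * lg p)) -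
      ∑ p ∈ P v, ((lg p / p : ℝ) : ℂ) * ex (-(ξ * lg p)) := by rw [h1]; ring
  rw [e]
  refine (norm_sub_le _ _).trans ((add_le_add h2 h3).trans (le_of_eq ?_))
  ring

lemma pos_of_mem {u : ℝ} {p : ℕ} (hp : p ∈ P u) : (0 : ℝ) < p := by
  exact_mod_cast (hM.prime u p hp).pos

/-- weighted block sums -/
lemma blk_xs {σ u v : ℝ} (hσ : σ ≤ 1) (hv : 0 ≤ v) (huv : v ≤ u) :
    rexp ((1 - σ) * v) * ((u - v) / 2 - 2 * C₀) ≤
      ∑ p ∈ P u with ¬ (lg p ≤ v), lg p * xs σ p := by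
  refine (mul_le_mul_of_nonneg_left (hM.blk_t0 hv huv) (exp_pos _).le).trans ?_
  rw [Finset.mul_sum]
  apply Finset.sum_le_sum
  intro p hp
  rw [Finset.mem_filter, not_le] at hp
  rw [xs_eq σ (hM.prime u p hp.1).pos]
  have h1 : rexp ((1 - σ) * v) ≤ rexp ((1 - σ) * lg p) := by
    rw [exp_le_exp]
    exact mul_le_mul_of_nonneg_left hp.2.le (by linarith)
  have h2 : 0 ≤ lg p / p := div_nonneg (lg_nonneg p) (Nat.cast_nonneg p)
  calc rexp ((1 - σ) * v) * (lg p / p) ≤ rexp ((1 - σ) * lg p) * (lg p / p) :=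
        mul_le_mul_of_nonneg_right h1 h2
    _ = _ := by ring

lemma sum_xs_le {σ Λ : ℝ} (hσ : σ ≤ 1) (hΛ : 2 * C₀ ≤ Λ) :
    ∑ p ∈ P Λ, lg p * xs σ p ≤ rexp ((1 - σ) * Λ) * Λ := by
  have hC := hM.C0
  have h1 := (abs_le.mp (hM.t0 Λ (by linarith))).2
  have h2 : ∑ p ∈ P Λ, lg p * xs σ p ≤ ∑ p ∈ P Λ, rexp ((1 - σ) * Λ) * (lg p / p) := by
    apply Finset.sum_le_sum
    intro p hp
    rw [xs_eq σ (hM.prime Λ p hp).pos]
    have h3 : rexp ((1 - σ) * lg p) ≤ rexp ((1 - σ) * Λ) := by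
      rw [exp_le_exp]
      exact mul_le_mul_of_nonneg_left (hM.le Λ p hp) (by linarith)
    have h4 : 0 ≤ lg p / p := div_nonneg (lg_nonneg p) (Nat.cast_nonneg p)
    calc lg p * (1 / p * rexp ((1 - σ) * lg p)) = rexp ((1 - σ) * lg p) * (lg p / p) := by ring
      _ ≤ _ := mul_le_mul_of_nonneg_right h3 h4
  rw [← Finset.mul_sum] at h2
  refine h2.trans (mul_le_mul_of_nonneg_left ?_ (exp_pos _).le)
  linarith

end MDat

/-- shorthand: mean, variance, characteristic function of the tilted measure -/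
noncomputable def XX (P : ℝ → Finset ℕ) (σ Λ : ℝ) : ℝ := Xm (P Λ) (xs σ) lg
noncomputable def VV (P : ℝ → Finset ℕ) (σ Λ : ℝ) : ℝ := Vm (P Λ) (xs σ) lg
noncomputable def ph (P : ℝ → Finset ℕ) (σ Λ ξ : ℝ) : ℂ := phi (P Λ) (xs σ) lg ξ
noncomputable def mf (P : ℝ → Finset ℕ) (σ Λ ξ : ℝ) : ℂ := mm (P Λ) (xs σ) lg ξ

namespace MDat

variable (hM : MDat P C₀ C₁ Cs)
include hM

lemma VV_ge {σ Λ : ℝ} (h0 : 0 ≤ σ) (hσ : σ ≤ 1) (hΛ : 16 * C₀ ≤ Λ) :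
    Λ ^ 2 * rexp ((1 - σ) * Λ / 2) / 64 ≤ VV P σ Λ := by
  have hC := hM.C0
  have h1 := hM.blk_xs (σ := σ) (u := Λ) (v := Λ / 2) hσ (by linarith) (by linarith)
  have h2 : ∑ p ∈ P Λ with ¬ (lg p ≤ Λ / 2), (Λ / 8) * (lg p * xs σ p) ≤ VV P σ Λ := by
    unfold VV Vm
    refine le_trans (Finset.sum_le_sum (g := fun p => lg p ^ 2 * xs σ p / (1 + xs σ p) ^ 2) ?_)
      (Finset.sum_le_sum_of_subset_of_nonneg (Finset.filter_subset _ _) ?_)
    · intro p hp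
      rw [Finset.mem_filter, not_le] at hp
      have h3 := xs_pos σ p
      have h4 := xs_le_one h0 p
      have h5 := lg_nonneg p
      rw [le_div_iff₀ (by positivity)]
      have h6 : (1 + xs σ p) ^ 2 ≤ 4 := by nlinarith only [h4, h3]
      have h7 : 0 ≤ lg p * xs σ p := mul_nonneg h5 h3.le
      have h8 : 0 ≤ Λ / 8 * (lg p * xs σ p) := mul_nonneg (by linarith) h7
      calc Λ / 8 * (lg p * xs σ p) * (1 + xs σ p) ^ 2 ≤ Λ / 8 * (lg p * xs σ p) * 4 :=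
            mul_le_mul_of_nonneg_left h6 h8
        _ = (Λ / 2) * (lg p * xs σ p) := by ring
        _ ≤ lg p * (lg p * xs σ p) := mul_le_mul_of_nonneg_right hp.2.le h7
        _ = _ := by ring
    · intro p _ _
      have h3 := xs_pos σ p
      (clear * - h3; positivity)
  rw [← Finset.mul_sum] at h2
  refine le_trans ?_ h2
  have h9 : rexp ((1 - σ) * (Λ / 2)) * (Λ / 8) ≤
      rexp ((1 - σ) * (Λ / 2)) * ((Λ - Λ / 2) / 2 - 2 * C₀) :=
    mul_le_mul_of_nonneg_left (by linarith) (exp_pos _).le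
  have h10 : (1 - σ) * Λ / 2 = (1 - σ) * (Λ / 2) := by ring
  rw [h10]
  have h11 : 0 ≤ Λ / 8 := by linarith only [hΛ, hC]
  calc Λ ^ 2 * rexp ((1 - σ) * (Λ / 2)) / 64 = Λ / 8 * (rexp ((1 - σ) * (Λ / 2)) * (Λ / 8)) := by
        ring
    _ ≤ _ := mul_le_mul_of_nonneg_left (h9.trans h1) h11

lemma VV_le {σ Λ : ℝ} (hΛ : 0 ≤ Λ) : VV P σ Λ ≤ Λ * XX P σ Λ := by
  unfold VV XX Vm Xm
  rw [Finset.mul_sum]
  apply Finset.sum_le_sum
  intro p hp
  have h3 := xs_pos σ p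
  have h5 := lg_nonneg p
  have h6 := hM.le Λ p hp
  rw [div_le_iff₀ (by positivity)]
  have e : Λ * (lg p * xs σ p / (1 + xs σ p)) * (1 + xs σ p) ^ 2 =
      Λ * (lg p * xs σ p) * (1 + xs σ p) := by
    field_simp
  rw [e]
  have h7 : 0 ≤ lg p * xs σ p := mul_nonneg h5 h3.le
  calc lg p ^ 2 * xs σ p = lg p * (lg p * xs σ p) * 1 := by ring
    _ ≤ Λ * (lg p * xs σ p) * (1 + xs σ p) := by
        apply mul_le_mul (mul_le_mul_of_nonneg_right h6 h7) (by linarith) zero_le_one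
        exact mul_nonneg hΛ h7

lemma XX_le {σ Λ : ℝ} (hσ : σ ≤ 1) (hΛ : 2 * C₀ ≤ Λ) : XX P σ Λ ≤ rexp ((1 - σ) * Λ) * Λ :=
  (Xm_le_sum (fun p => xs_pos σ p) lg_nonneg).trans (hM.sum_xs_le hσ hΛ)

lemma VV_pos {σ Λ : ℝ} (h0 : 0 ≤ σ) (hσ : σ ≤ 1) (hΛ : 16 * C₀ ≤ Λ) (hΛ0 : 0 < Λ) :
    0 < VV P σ Λ := lt_of_lt_of_le (by positivity) (hM.VV_ge h0 hσ hΛ)

lemma XX_pos {σ Λ : ℝ} (h0 : 0 ≤ σ) (hσ : σ ≤ 1) (hΛ : 16 * C₀ ≤ Λ) (hΛ0 : 0 < Λ) :
    0 < XX P σ Λ := by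
  have h1 := hM.VV_pos h0 hσ hΛ hΛ0
  have h2 := hM.VV_le (σ := σ) hΛ0.le
  exact pos_of_mul_pos_right (h1.trans_le h2) hΛ0.le

/-- `X / √V ≥ e^{b/4}/8` -/
lemma XX_div_sqrt_ge {σ Λ : ℝ} (h0 : 0 ≤ σ) (hσ : σ ≤ 1) (hΛ : 16 * C₀ ≤ Λ) (hΛ0 : 0 < Λ) :
    rexp ((1 - σ) * Λ / 4) / 8 ≤ XX P σ Λ / √(VV P σ Λ) := by
  have h1 := hM.VV_pos h0 hσ hΛ hΛ0
  have h2 := hM.VV_le (σ := σ) hΛ0.le
  have h3 := hM.VV_ge h0 hσ hΛ
  have h4 : Λ * rexp ((1 - σ) * Λ / 4) / 8 ≤ √(VV P σ Λ) := by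
    apply le_sqrt_of_sq_le
    refine le_trans (le_of_eq ?_) h3
    have : rexp ((1 - σ) * Λ / 2) = rexp ((1 - σ) * Λ / 4) * rexp ((1 - σ) * Λ / 4) := by
      rw [← exp_add]; ring_nf
    rw [this]; ring
  have h5 : 0 < √(VV P σ Λ) := sqrt_pos.mpr h1
  rw [le_div_iff₀ h5]
  have h6 : √(VV P σ Λ) * √(VV P σ Λ) = VV P σ Λ := mul_self_sqrt h1.le
  have h7 : √(VV P σ Λ) * (Λ * rexp ((1 - σ) * Λ / 4) / 8) ≤ Λ * XX P σ Λ := by
    refine le_trans (mul_le_mul_of_nonneg_left h4 h5.le) ?_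
    rw [h6]
    exact h2
  have h8 : Λ * (rexp ((1 - σ) * Λ / 4) / 8 * √(VV P σ Λ)) ≤ Λ * XX P σ Λ := by
    refine le_trans (le_of_eq ?_) h7
    ring
  exact le_of_mul_le_mul_left h8 hΛ0

/-- the exponent sum -/
lemma blk_cos {σ T ξ v : ℝ} (hσ : σ ≤ 1) (hξ : 0 < |ξ|) (hT : |ξ| ≤ T) (hv : 0 < v)
    (hbig : 2 * C₀ + 2 * C₁ T / |ξ| ≤ v / 4) :
    rexp ((1 - σ) * v) / 8 ≤
      ∑ p ∈ P (2 * v) with ¬ (lg p ≤ v), xs σ p * (1 - cos (ξ * lg p)) := by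
  have h1 := hM.blk_t0 (u := 2 * v) (v := v) hv.le (by linarith)
  have h2 := hM.blk_t1 (u := 2 * v) (v := v) hξ hT hv.le (by linarith)
  have h3 : v / 4 ≤ ∑ p ∈ P (2 * v) with ¬ (lg p ≤ v), lg p / p * (1 - cos (ξ * lg p)) := by
    have : ∑ p ∈ P (2 * v) with ¬ (lg p ≤ v), lg p / p * (1 - cos (ξ * lg p)) =
        ∑ p ∈ P (2 * v) with ¬ (lg p ≤ v), lg p / p -
        ∑ p ∈ P (2 * v) with ¬ (lg p ≤ v), lg p / p * cos (ξ * lg p) := by
      rw [← Finset.sum_sub_distrib]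
      apply Finset.sum_congr rfl
      intro p _; ring
    rw [this]
    linarith only [hbig, h1, h2]
  have h4 : rexp ((1 - σ) * v) / (2 * v) *
      ∑ p ∈ P (2 * v) with ¬ (lg p ≤ v), lg p / p * (1 - cos (ξ * lg p)) ≤
      ∑ p ∈ P (2 * v) with ¬ (lg p ≤ v), xs σ p * (1 - cos (ξ * lg p)) := by
    rw [Finset.mul_sum]
    apply Finset.sum_le_sum
    intro p hp
    rw [Finset.mem_filter, not_le] at hp
    have hle := hM.le _ p hp.1
    have hp0 := hM.pos_of_mem hp.1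
    have hc : 0 ≤ 1 - cos (ξ * lg p) := by linarith only [cos_le_one (ξ * lg p)]
    rw [xs_eq σ (hM.prime _ p hp.1).pos, ← mul_assoc]
    apply mul_le_mul_of_nonneg_right _ hc
    have h5 : rexp ((1 - σ) * v) ≤ rexp ((1 - σ) * lg p) := by
      rw [exp_le_exp]
      exact mul_le_mul_of_nonneg_left hp.2.le (by linarith only [hσ])
    have h6 : lg p / (2 * v) ≤ 1 := by rw [div_le_one (by linarith only [hv])]; exact hle
    have h7 : 0 ≤ lg p / (2 * v) := div_nonneg (lg_nonneg p) (by linarith)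
    calc rexp ((1 - σ) * v) / (2 * v) * (lg p / p)
        = (1 / p) * (rexp ((1 - σ) * v) * (lg p / (2 * v))) := by ring
      _ ≤ (1 / p) * (rexp ((1 - σ) * lg p) * 1) := by
          apply mul_le_mul_of_nonneg_left _ (by positivity)
          exact mul_le_mul h5 h6 h7 (exp_pos _).le
      _ = _ := by ring
  refine le_trans ?_ h4
  calc rexp ((1 - σ) * v) / 8 = rexp ((1 - σ) * v) / (2 * v) * (v / 4) := by field_simp; ring
    _ ≤ _ := mul_le_mul_of_nonneg_left h3 (by positivity)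

lemma Phi_blocks {σ T ξ Λ : ℝ} (hσ : σ ≤ 1) (hξ : 0 < |ξ|) (hT : |ξ| ≤ T) (hΛ : 0 < Λ) (n : ℕ)
    (hbig : 2 * C₀ + 2 * C₁ T / |ξ| ≤ Λ / 2 ^ (n + 1) / 4) :
    (rexp ((1 - σ) * (Λ / 2)) + n) / 8 ≤
      ∑ p ∈ P Λ with ¬ (lg p ≤ Λ / 2 ^ (n + 1)), xs σ p * (1 - cos (ξ * lg p)) := by
  induction n with
  | zero =>
    have h := hM.blk_cos (σ := σ) (v := Λ / 2) hσ hξ hT (by linarith) (by simpa using hbig)
    simp only [zero_add, pow_one, Nat.cast_zero, add_zero]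
    have e : 2 * (Λ / 2) = Λ := by ring
    rw [e] at h
    exact h
  | succ n ih =>
    have hpow : (0 : ℝ) < 2 ^ (n + 1) := by positivity
    have hle : Λ / 2 ^ (n + 1 + 1) ≤ Λ / 2 ^ (n + 1) := by
      apply div_le_div_of_nonneg_left hΛ.le hpow
      rw [pow_succ 2 (n + 1)]; linarith
    have hle2 : Λ / 2 ^ (n + 1) ≤ Λ := by
      apply div_le_self hΛ.le
      exact one_le_pow₀ (by norm_num)
    have ih' := ih (hbig.trans (by linarith only [hle]))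
    have e1 : 2 * (Λ / 2 ^ (n + 1 + 1)) = Λ / 2 ^ (n + 1) := by
      rw [pow_succ 2 (n + 1)]; field_simp
    have hpos : 0 < Λ / 2 ^ (n + 1 + 1) := by positivity
    have h := hM.blk_cos (σ := σ) (v := Λ / 2 ^ (n + 1 + 1)) hσ hξ hT hpos hbig
    rw [e1] at h
    have s1 := hM.sum_split (fun p => xs σ p * (1 - cos (ξ * lg p))) hle2
    have s2 := hM.sum_split (fun p => xs σ p * (1 - cos (ξ * lg p))) hle
    have s3 := hM.sum_split (fun p => xs σ p * (1 - cos (ξ * lg p))) (hle.trans hle2)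
    have h8 : 1 ≤ rexp ((1 - σ) * (Λ / 2 ^ (n + 1 + 1))) := by
      rw [one_le_exp_iff]
      exact mul_nonneg (by linarith only [hσ]) hpos.le
    push_cast
    linarith only [ih', h, s1, s2, s3, h8]

/-- near zone -/
lemma Phi_near {σ ξ Λ : ℝ} (hσ : σ ≤ 1) (hξ : 0 < |ξ|) (h1 : π / |ξ| ≤ Λ)
    (h2 : 16 * C₀ ≤ π / |ξ|) :
    rexp ((1 - σ) * (π / |ξ| / 2)) / 8 ≤ ∑ p ∈ P Λ, xs σ p * (1 - cos (ξ * lg p)) := by
  set w := π / |ξ| with hw
  have hw0 : 0 < w := div_pos pi_pos hξ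
  have hnn : ∀ p : ℕ, 0 ≤ xs σ p * (1 - cos (ξ * lg p)) := fun p =>
    mul_nonneg (xs_pos σ p).le (by linarith [cos_le_one (ξ * lg p)])
  have s1 := hM.sum_split (fun p => xs σ p * (1 - cos (ξ * lg p))) h1
  have s2 := hM.sum_split (fun p => xs σ p * (1 - cos (ξ * lg p)))
    (by linarith : w / 2 ≤ w)
  have n1 : 0 ≤ ∑ p ∈ P Λ with ¬ (lg p ≤ w), xs σ p * (1 - cos (ξ * lg p)) :=
    Finset.sum_nonneg fun p _ => hnn p
  have n2 : 0 ≤ ∑ p ∈ P (w / 2), xs σ p * (1 - cos (ξ * lg p)) :=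
    Finset.sum_nonneg fun p _ => hnn p
  have h3 := hM.blk_xs (σ := σ) (u := w) (v := w / 2) hσ (by linarith) (by linarith only [hw0])
  have hξw : |ξ| * w = π := by rw [hw]; field_simp
  have h4 : ∑ p ∈ P w with ¬ (lg p ≤ w / 2), (2 / π ^ 2 * ξ ^ 2 * (w / 2)) * (lg p * xs σ p) ≤
      ∑ p ∈ P w with ¬ (lg p ≤ w / 2), xs σ p * (1 - cos (ξ * lg p)) := by
    apply Finset.sum_le_sum
    intro p hp
    rw [Finset.mem_filter, not_le] at hp
    have hle := hM.le _ p hp.1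
    have hl0 := lg_nonneg p
    have habs : |ξ * lg p| ≤ π := by
      rw [abs_mul, abs_of_nonneg hl0, ← hξw]
      exact mul_le_mul_of_nonneg_left hle (abs_nonneg _)
    have h5 := cos_le_one_sub_mul_cos_sq habs
    have h6 : 2 / π ^ 2 * (ξ * lg p) ^ 2 ≤ 1 - cos (ξ * lg p) := by linarith only [h5]
    calc (2 / π ^ 2 * ξ ^ 2 * (w / 2)) * (lg p * xs σ p)
        = xs σ p * (2 / π ^ 2 * ξ ^ 2 * lg p * (w / 2)) := by ring
      _ ≤ xs σ p * (2 / π ^ 2 * ξ ^ 2 * lg p * lg p) := by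
          apply mul_le_mul_of_nonneg_left _ (xs_pos σ p).le
          apply mul_le_mul_of_nonneg_left hp.2.le
          positivity
      _ = xs σ p * (2 / π ^ 2 * (ξ * lg p) ^ 2) := by ring
      _ ≤ _ := mul_le_mul_of_nonneg_left h6 (xs_pos σ p).le
  rw [← Finset.mul_sum] at h4
  have h7 : rexp ((1 - σ) * (w / 2)) * (w / 8) ≤
      ∑ p ∈ P w with ¬ (lg p ≤ w / 2), lg p * xs σ p := by
    refine le_trans ?_ h3
    apply mul_le_mul_of_nonneg_left _ (exp_pos _).le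
    linarith only [h2]
  have h8 : 2 / π ^ 2 * ξ ^ 2 * (w / 2) * (rexp ((1 - σ) * (w / 2)) * (w / 8)) =
      rexp ((1 - σ) * (w / 2)) / 8 := by
    have h9 : ξ ^ 2 * w ^ 2 = π ^ 2 := by rw [← hξw, mul_pow, sq_abs]
    have : 2 / π ^ 2 * ξ ^ 2 * (w / 2) * (rexp ((1 - σ) * (w / 2)) * (w / 8)) =
        (ξ ^ 2 * w ^ 2) * rexp ((1 - σ) * (w / 2)) / (8 * π ^ 2) := by field_simp
    rw [this, h9]
    field_simp
  have h10 := mul_le_mul_of_nonneg_left h7 (by positivity : 0 ≤ 2 / π ^ 2 * ξ ^ 2 * (w / 2))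
  rw [h8] at h10
  linarith only [s1, s2, n1, n2, h4, h10]

lemma norm_ph_le {σ ξ Λ : ℝ} (h0 : 0 ≤ σ) :
    ‖ph P σ Λ ξ‖ ≤ rexp (-(∑ p ∈ P Λ, xs σ p * (1 - cos (ξ * lg p))) / 4) := by
  unfold ph
  refine (norm_phi_le (fun p => xs_pos σ p) ξ).trans ?_
  rw [exp_le_exp, neg_div, neg_le_neg_iff, Finset.sum_div]
  apply Finset.sum_le_sum
  intro p _
  have h3 := xs_pos σ p
  have h4 := xs_le_one h0 p
  have hc : 0 ≤ 1 - cos (ξ * lg p) := by linarith [cos_le_one (ξ * lg p)]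
  apply div_le_div_of_nonneg_left (mul_nonneg h3.le hc) (by positivity)
  nlinarith only [h4, h3]

end MDat

/-- frequency constant -/
noncomputable def KT (C₀ : ℝ) (C₁ : ℝ → ℝ) (T : ℝ) : ℝ := 8 * (C₀ * T + C₁ T) + 4

namespace MDat

variable (hM : MDat P C₀ C₁ Cs)
include hM

lemma KT_ge {T : ℝ} (hT : 0 ≤ T) : 4 ≤ KT C₀ C₁ T := by
  have h1 := hM.C0
  have h2 := hM.C1 T
  unfold KT
  have := mul_nonneg h1 hT
  linarith

/-- **Decay of the characteristic function away from the main lobe.** -/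
theorem ph_far {σ ξ Λ T : ℝ} (h0 : 0 ≤ σ) (hσ : σ ≤ 1) (hΛ0 : 0 < Λ)
    (hΛ : 16 * C₀ * KT C₀ C₁ T ≤ Λ) (hξ : π / Λ ≤ |ξ|) (hT : |ξ| ≤ T) :
    ‖ph P σ Λ ξ‖ ≤ 2 * (2 * KT C₀ C₁ T) ^ (1 / 32 : ℝ) * (Λ * |ξ|) ^ (-(1 / 32) : ℝ) *
      rexp (-(1 / 32) * rexp ((1 - σ) * Λ / (2 * KT C₀ C₁ T))) := by
  have hξ0 : 0 < |ξ| := lt_of_lt_of_le (div_pos pi_pos hΛ0) hξ
  have hT0 : 0 < T := hξ0.trans_le hT
  have hK := hM.KT_ge (T := T) hT0.le
  set K := KT C₀ C₁ T with hKdef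
  have hC0 := hM.C0
  have hy0 : 0 < Λ * |ξ| := mul_pos hΛ0 hξ0
  have hπy : π ≤ Λ * |ξ| := by rw [div_le_iff₀ hΛ0] at hξ; linarith
  have e1 : (2 * K) ^ (1 / 32 : ℝ) * (Λ * |ξ|) ^ (-(1 / 32) : ℝ) =
      rexp ((Real.log (2 * K) - Real.log (Λ * |ξ|)) / 32) := by
    rw [rpow_def_of_pos (by linarith), rpow_def_of_pos hy0, ← exp_add]
    congr 1; ring
  refine (hM.norm_ph_le h0).trans ?_
  have e2 : 2 * (2 * K) ^ (1 / 32 : ℝ) * (Λ * |ξ|) ^ (-(1 / 32) : ℝ) *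
      rexp (-(1 / 32) * rexp ((1 - σ) * Λ / (2 * K))) =
      2 * rexp ((Real.log (2 * K) - Real.log (Λ * |ξ|)) / 32 -
        (1 / 32) * rexp ((1 - σ) * Λ / (2 * K))) := by
    rw [mul_assoc 2, e1, mul_assoc, ← exp_add]
    congr 2
    ring
  rw [e2]
  rcases le_or_gt (2 * K) (Λ * |ξ|) with hcase | hcase
  · -- blocks
    have hy1 : 2 ≤ Λ * |ξ| / K := by rw [le_div_iff₀ (by linarith only [hK])]; exact hcase
    set m := Nat.log 2 ⌊Λ * |ξ| / K⌋₊ with hm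
    have hfl : 2 ≤ ⌊Λ * |ξ| / K⌋₊ := by
      rw [Nat.le_floor_iff (by linarith only [hy1])]
      exact_mod_cast hy1
    have hm1 : 1 ≤ m := by
      rw [hm]
      exact (Nat.le_log_iff_pow_le (by norm_num) (by omega)).mpr (by simpa using hfl)
    obtain ⟨n, hn⟩ : ∃ n, m = n + 1 := ⟨m - 1, by omega⟩
    have h2m : (2 : ℝ) ^ (n + 1) ≤ Λ * |ξ| / K := by
      have h3 : 2 ^ (n + 1) ≤ ⌊Λ * |ξ| / K⌋₊ := by
        rw [← hn]
        exact Nat.pow_log_le_self 2 (by omega)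
      have h4 : ((2 ^ (n + 1) : ℕ) : ℝ) ≤ Λ * |ξ| / K :=
        (Nat.le_floor_iff (by linarith only [hy1])).mp h3
      exact_mod_cast h4
    have hlt : Λ * |ξ| / K < 2 ^ (n + 2) := by
      have h3 : ⌊Λ * |ξ| / K⌋₊ < 2 ^ (n + 2) := by
        have := Nat.lt_pow_succ_log_self (b := 2) (by norm_num) ⌊Λ * |ξ| / K⌋₊
        rw [← hm, hn] at this
        exact this
      have h4 := Nat.lt_floor_add_one (Λ * |ξ| / K)
      have h5 : ((⌊Λ * |ξ| / K⌋₊ + 1 : ℕ) : ℝ) ≤ ((2 ^ (n + 2) : ℕ) : ℝ) := by exact_mod_cast h3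
      push_cast at h5
      linarith only [h4, h5]
    have hbig : 2 * C₀ + 2 * C₁ T / |ξ| ≤ Λ / 2 ^ (n + 1) / 4 := by
      have h3 : K / |ξ| ≤ Λ / 2 ^ (n + 1) := by
        rw [div_le_div_iff₀ hξ0 (by positivity)]
        rw [le_div_iff₀ (by linarith only [hK])] at h2m
        linarith only [h2m]
      have h4 : 2 * C₀ + 2 * C₁ T / |ξ| ≤ K / |ξ| / 4 := by
        rw [div_div, mul_comm |ξ| 4, ← div_div, ← sub_nonneg]
        have : K / 4 / |ξ| - (2 * C₀ + 2 * C₁ T / |ξ|) =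
            (K / 4 - 2 * C₀ * |ξ| - 2 * C₁ T) / |ξ| := by field_simp; ring
        rw [this]
        apply div_nonneg _ hξ0.le
        rw [hKdef]
        unfold KT
        have := mul_le_mul_of_nonneg_left hT hC0
        linarith only [this]
      linarith only [h3, h4]
    have h5 := hM.Phi_blocks (σ := σ) hσ hξ0 hT hΛ0 n hbig
    have h6 : ∑ p ∈ P Λ with ¬ (lg p ≤ Λ / 2 ^ (n + 1)), xs σ p * (1 - cos (ξ * lg p)) ≤
        ∑ p ∈ P Λ, xs σ p * (1 - cos (ξ * lg p)) := by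
      apply Finset.sum_le_sum_of_subset_of_nonneg (Finset.filter_subset _ _)
      intro p _ _
      exact mul_nonneg (xs_pos σ p).le (by linarith only [cos_le_one (ξ * lg p)])
    have h7 : Real.log (Λ * |ξ|) ≤ Real.log K + (n + 2) := by
      have h8 : Real.log (Λ * |ξ| / K) ≤ Real.log (2 ^ (n + 2)) :=
        Real.log_le_log (by positivity) hlt.le
      rw [Real.log_div hy0.ne' (by linarith only [hK]), Real.log_pow] at h8
      have h9 : Real.log 2 ≤ 1 := by linarith only [Real.log_two_lt_d9]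
      push_cast at h8
      have h10 : ((n : ℝ) + 2) * Real.log 2 ≤ (n + 2) * 1 :=
        mul_le_mul_of_nonneg_left h9 (by positivity)
      linarith only [h8, h10]
    have h8 : Real.log (2 * K) = Real.log 2 + Real.log K := Real.log_mul (by norm_num) (by linarith only [hK])
    have h9 : rexp ((1 - σ) * Λ / (2 * K)) ≤ rexp ((1 - σ) * (Λ / 2)) := by
      rw [exp_le_exp, ← mul_div_assoc]
      apply div_le_div_of_nonneg_left (mul_nonneg (by linarith only [hσ]) hΛ0.le) (by norm_num)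
      linarith only [hK]
    have h10 : -(∑ p ∈ P Λ, xs σ p * (1 - cos (ξ * lg p))) / 4 ≤
        Real.log 2 + ((Real.log (2 * K) - Real.log (Λ * |ξ|)) / 32 -
        (1 / 32) * rexp ((1 - σ) * Λ / (2 * K))) := by
      have h11 : 0 < Real.log 2 := Real.log_pos one_lt_two
      have h12 : (0.69 : ℝ) ≤ Real.log 2 := by linarith only [h11, Real.log_two_gt_d9]
      linarith only [h5, h6, h7, h8, h9, h11, h12]
    calc _ ≤ rexp (Real.log 2 + ((Real.log (2 * K) - Real.log (Λ * |ξ|)) / 32 -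
        (1 / 32) * rexp ((1 - σ) * Λ / (2 * K)))) := exp_le_exp.mpr h10
      _ = _ := by rw [exp_add, exp_log (by norm_num)]
  · -- near zone
    have hw : π / |ξ| ≤ Λ := by rw [div_le_iff₀ hξ0]; exact hπy
    have hw2 : Λ / K ≤ π / |ξ| := by
      rw [div_le_div_iff₀ (by linarith) hξ0]
      have := pi_gt_three
      nlinarith only [hK, hcase, this]
    have hw3 : 16 * C₀ ≤ π / |ξ| := by
      refine le_trans ?_ hw2
      rw [le_div_iff₀ (by linarith only [hK])]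
      exact hΛ
    have h5 := hM.Phi_near (σ := σ) hσ hξ0 hw hw3
    have h6 : rexp ((1 - σ) * Λ / (2 * K)) ≤ rexp ((1 - σ) * (π / |ξ| / 2)) := by
      rw [exp_le_exp, mul_div_assoc]
      apply mul_le_mul_of_nonneg_left _ (by linarith only [hσ])
      have : Λ / (2 * K) = Λ / K / 2 := by field_simp
      rw [this]
      linarith only [hw2]
    have h7 : Real.log (Λ * |ξ|) ≤ Real.log (2 * K) := Real.log_le_log hy0 hcase.le
    calc _ ≤ 1 * rexp ((Real.log (2 * K) - Real.log (Λ * |ξ|)) / 32 -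
        (1 / 32) * rexp ((1 - σ) * Λ / (2 * K))) := by
          rw [one_mul, exp_le_exp]
          linarith only [h5, h6, h7]
      _ ≤ _ := mul_le_mul_of_nonneg_right (by norm_num) (exp_pos _).le

end MDat

end Pool.Agent.MP0016c7.Ros
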