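import Mathlib
import Pool.Agent.Lib.MP_0016c7_nt.RosEst
import Pool.Agent.Lib.MP_0016c7_nt.RosTilt

open Real Set MeasureTheory Filter Topology

namespace Pool.Agent.MP0016c7.Ros

/-- one sided exponential -/
noncomputable def kt (τ w : ℝ) : ℝ := if 0 ≤ w then rexp (-(τ * w)) else 0

lemma kt_nonneg (τ w : ℝ) : 0 ≤ kt τ w := by unfold kt; split_ifs <;> positivity

lemma kt_le_one {τ : ℝ} (hτ : 0 ≤ τ) (w : ℝ) : kt τ w ≤ 1 := by
  unfold kt
  split_ifs with h
  · rw [exp_le_one_iff, neg_nonpos]; exact mul_nonneg hτ h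
  · exact zero_le_one

lemma kt_shift {τ h : ℝ} (hh : 0 ≤ h) (w : ℝ) : rexp (-(τ * h)) * kt τ w ≤ kt τ (w + h) := by
  unfold kt
  by_cases hw : 0 ≤ w
  · rw [if_pos hw, if_pos (by linarith), ← exp_add]
    apply le_of_eq
    congr 1
    ring
  · rw [if_neg hw, mul_zero]
    split_ifs <;> positivity

lemma measurable_kt (τ : ℝ) : Measurable (kt τ) := by
  unfold kt
  exact Measurable.ite measurableSet_Ici (by fun_prop) measurable_const

variable {P : Finset ℕ} {x l : ℕ → ℝ}

lemma size_bias_ge (hx : ∀ p, 0 < x p) (hl : ∀ p, 0 ≤ l p) {f : ℝ → ℝ} (hf0 : ∀ s, 0 ≤ f s)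
    (hf1 : ∀ s, f s ≤ 1) {F : Finset ℕ} (hF : F ⊆ P) :
    ∑ p ∈ F, l p * x p * (Ef P x l (fun s => f (s + l p)) - x p) ≤
      Ef P x l (fun s => s * f s) := by
  classical
  have hZ := Zt_pos (P := P) hx
  have e1 : Ef P x l (fun s => s * f s) =
      (∑ p ∈ P, l p * ∑ A ∈ P.powerset with p ∈ A, Wt x A * f (Sm l A)) / Zt P x := by
    unfold Ef
    congr 1
    have h1 : ∀ A ∈ P.powerset, Wt x A * (Sm l A * f (Sm l A)) =
        ∑ p ∈ P, if p ∈ A then l p * (Wt x A * f (Sm l A)) else 0 := by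
      intro A hA
      rw [← Finset.sum_filter, Finset.filter_mem_eq_inter,
        Finset.inter_eq_right.mpr (Finset.mem_powerset.mp hA), ← Finset.sum_mul]
      unfold Sm
      ring
    rw [Finset.sum_congr rfl h1, Finset.sum_comm]
    apply Finset.sum_congr rfl
    intro p _
    rw [Finset.mul_sum, Finset.sum_filter]
  have h2 : ∀ p ∈ P, l p * x p * (Ef P x l (fun s => f (s + l p)) - x p) ≤
      (l p * ∑ A ∈ P.powerset with p ∈ A, Wt x A * f (Sm l A)) / Zt P x := by
    intro p hp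
    set P' := P.erase p with hP'
    have hpP' : p ∉ P' := Finset.notMem_erase p P
    have hins : insert p P' = P := Finset.insert_erase hp
    have s1 : ∑ A ∈ P.powerset with p ∈ A, Wt x A * f (Sm l A) =
        x p * ∑ A ∈ P'.powerset, Wt x A * f (Sm l A + l p) := by
      rw [Finset.sum_filter]
      nth_rewrite 1 [← hins]
      rw [Finset.sum_powerset_insert hpP']
      have z1 : ∑ t ∈ P'.powerset, (if p ∈ t then Wt x t * f (Sm l t) else 0) = 0 := by
        apply Finset.sum_eq_zero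
        intro t ht
        rw [if_neg (fun h => hpP' (Finset.mem_powerset.mp ht h))]
      rw [z1, zero_add, Finset.mul_sum]
      apply Finset.sum_congr rfl
      intro t ht
      have hpt : p ∉ t := fun h => hpP' (Finset.mem_powerset.mp ht h)
      rw [if_pos (Finset.mem_insert_self p t)]
      unfold Wt Sm
      rw [Finset.prod_insert hpt, Finset.sum_insert hpt, add_comm (l p)]
      ring
    have s2 : ∑ A ∈ P.powerset, Wt x A * f (Sm l A + l p) ≤
        ∑ A ∈ P'.powerset, Wt x A * f (Sm l A + l p) + x p * Zt P x := by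
      nth_rewrite 1 [← hins]
      rw [Finset.sum_powerset_insert hpP']
      apply add_le_add le_rfl
      calc ∑ t ∈ P'.powerset, Wt x (insert p t) * f (Sm l (insert p t) + l p)
          ≤ ∑ t ∈ P'.powerset, x p * Wt x t := by
            apply Finset.sum_le_sum
            intro t ht
            have hpt : p ∉ t := fun h => hpP' (Finset.mem_powerset.mp ht h)
            have : Wt x (insert p t) = x p * Wt x t := by
              unfold Wt; rw [Finset.prod_insert hpt]
            rw [this]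
            exact mul_le_of_le_one_right (mul_pos (hx p) (Wt_pos hx t)).le (hf1 _)
        _ = x p * Zt P' x := by rw [← Finset.mul_sum, sum_Wt]
        _ ≤ x p * Zt P x := by
            apply mul_le_mul_of_nonneg_left _ (hx p).le
            have : Zt P x = (1 + x p) * Zt P' x := by
              unfold Zt
              rw [← hins, Finset.prod_insert hpP']
            rw [this]
            have hZ' := Zt_pos (P := P') hx
            nlinarith [hx p]
    rw [s1, le_div_iff₀ hZ]
    have s3 : Ef P x l (fun s => f (s + l p)) * Zt P x =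
        ∑ A ∈ P.powerset, Wt x A * f (Sm l A + l p) := by
      unfold Ef
      rw [div_mul_cancel₀ _ hZ.ne']
    have s4 : (Ef P x l (fun s => f (s + l p)) - x p) * Zt P x ≤
        ∑ A ∈ P'.powerset, Wt x A * f (Sm l A + l p) := by
      rw [sub_mul, s3]; linarith
    calc l p * x p * (Ef P x l (fun s => f (s + l p)) - x p) * Zt P x
        = l p * x p * ((Ef P x l (fun s => f (s + l p)) - x p) * Zt P x) := by ring
      _ ≤ l p * x p * ∑ A ∈ P'.powerset, Wt x A * f (Sm l A + l p) :=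
          mul_le_mul_of_nonneg_left s4 (mul_nonneg (hl p) (hx p).le)
      _ = _ := by ring
  have h3 : ∀ p ∈ P, 0 ≤ (l p * ∑ A ∈ P.powerset with p ∈ A, Wt x A * f (Sm l A)) / Zt P x := by
    intro p _
    apply div_nonneg _ hZ.le
    apply mul_nonneg (hl p)
    apply Finset.sum_nonneg
    intro A _
    exact mul_nonneg (Wt_pos hx A).le (hf0 _)
  rw [e1, Finset.sum_div]
  exact (Finset.sum_le_sum fun p hp => h2 p (hF hp)).trans
    (Finset.sum_le_sum_of_subset_of_nonneg hF fun p hp _ => h3 p hp)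

/-- the mean -/
lemma Ef_id (hx : ∀ p, 0 < x p) (hx1 : ∀ p ∈ P, x p < 1) : Ef P x l (fun s => s) = Xm P x l := by
  have h := char_sum_S (P := P) (l := l) hx hx1 0
  have h1 : phi P x l 0 = 1 := by
    unfold phi
    apply Finset.prod_eq_one
    intro p _
    have hne : (1 : ℂ) + x p ≠ 0 := by
      rw [← Complex.ofReal_one, ← Complex.ofReal_add]
      have := hx p
      exact_mod_cast (by linarith : (1 : ℝ) + x p ≠ 0)
    simp only [zero_mul, neg_zero, ex_zero, mul_one]
    exact div_self hne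
  have h2 : mm P x l 0 = (Xm P x l : ℂ) := by
    unfold mm Xm
    simp only [zero_mul, neg_zero, ex_zero, mul_one]
    push_cast
    rfl
  rw [h1, h2, one_mul] at h
  simp only [zero_mul, neg_zero, ex_zero, mul_one] at h
  unfold Ef
  exact_mod_cast h

lemma Sm_nonneg (hl : ∀ p, 0 ≤ l p) (A : Finset ℕ) : 0 ≤ Sm l A :=
  Finset.sum_nonneg fun p _ => hl p

lemma Ef_mono_nonneg (hx : ∀ p, 0 < x p) (hl : ∀ p, 0 ≤ l p) {f g : ℝ → ℝ}
    (h : ∀ s, 0 ≤ s → f s ≤ g s) : Ef P x l f ≤ Ef P x l g := by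
  unfold Ef
  apply div_le_div_of_nonneg_right _ (Zt_pos hx).le
  exact Finset.sum_le_sum fun A _ =>
    mul_le_mul_of_nonneg_left (h _ (Sm_nonneg hl A)) (Wt_pos hx A).le

lemma Ef_sum {ι : Type*} (F : Finset ι) (c : ι → ℝ) (f : ι → ℝ → ℝ) :
    Ef P x l (fun s => ∑ i ∈ F, c i * f i s) = ∑ i ∈ F, c i * Ef P x l (f i) := by
  classical
  induction F using Finset.induction_on with
  | empty => simp [Ef]
  | insert a F ha ih =>
    simp_rw [Finset.sum_insert ha]
    rw [Ef_add, Ef_const_mul, ih]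

/-- the one sided density -/
noncomputable def al (P : ℝ → Finset ℕ) (τ σ Λ y : ℝ) : ℝ :=
  Ef (P Λ) (xs σ) lg (fun s => kt τ (y - s))

lemma al_nonneg (P : ℝ → Finset ℕ) (τ σ Λ y : ℝ) : 0 ≤ al P τ σ Λ y :=
  Ef_nonneg (fun p => xs_pos σ p) fun _ => kt_nonneg _ _

lemma al_le_one (P : ℝ → Finset ℕ) {τ : ℝ} (hτ : 0 ≤ τ) (σ Λ y : ℝ) : al P τ σ Λ y ≤ 1 := by
  unfold al
  calc _ ≤ Ef (P Λ) (xs σ) lg (fun _ => 1) :=
        Ef_mono (fun p => xs_pos σ p) fun _ => kt_le_one hτ _
    _ = 1 := Ef_const (fun p => xs_pos σ p) 1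

lemma al_shift (P : ℝ → Finset ℕ) (τ σ Λ y : ℝ) {h : ℝ} (hh : 0 ≤ h) :
    rexp (-(τ * h)) * al P τ σ Λ y ≤ al P τ σ Λ (y + h) := by
  unfold al
  rw [← Ef_const_mul]
  apply Ef_mono (fun p => xs_pos σ p)
  intro s
  have := kt_shift (τ := τ) hh (y - s)
  have e : y - s + h = y + h - s := by ring
  rwa [e] at this

lemma size_bias_al {P : ℝ → Finset ℕ} {τ σ Λ y : ℝ} (hτ : 0 ≤ τ) {F : Finset ℕ}
    (hF : F ⊆ P Λ) :
    ∑ p ∈ F, lg p * xs σ p * (al P τ σ Λ (y - lg p) - xs σ p) ≤ y * al P τ σ Λ y := by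
  have h1 := size_bias_ge (P := P Λ) (x := xs σ) (l := lg) (fun p => xs_pos σ p) lg_nonneg
    (f := fun s => kt τ (y - s)) (fun _ => kt_nonneg _ _) (fun _ => kt_le_one hτ _) hF
  have h2 : Ef (P Λ) (xs σ) lg (fun s => s * kt τ (y - s)) ≤ y * al P τ σ Λ y := by
    unfold al
    rw [← Ef_const_mul]
    apply Ef_mono (fun p => xs_pos σ p)
    intro s
    by_cases hs : s ≤ y
    · exact mul_le_mul_of_nonneg_right hs (kt_nonneg _ _)
    · have : kt τ (y - s) = 0 := by unfold kt; rw [if_neg (by linarith)]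
      rw [this, mul_zero, mul_zero]
  refine le_trans (le_of_eq ?_) (h1.trans h2)
  apply Finset.sum_congr rfl
  intro p _
  unfold al
  have e : (fun s => kt τ (y - lg p - s)) = fun s => kt τ (y - (s + lg p)) := by
    ext s; congr 1; ring
  rw [e]

end Pool.Agent.MP0016c7.Ros
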