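import Mathlib
import Pool.Agent.Lib.MP_0016c7_nt.RosBd
import Pool.Agent.Lib.MP_0016c7_nt.RosLow
import Pool.Agent.Lib.MP_0016c7_nt.RosSeries

open Real Set MeasureTheory Filter Topology

namespace Pool.Agent.MP0016c7.Ros

/-! ### The sieve identity -/

/-- sifted sum -/
noncomputable def Fs (f : ℕ → ℝ) (P : Finset ℕ) (K : ℕ) : ℝ :=
  ∑ n ∈ Finset.Icc 1 K with ∀ p ∈ P, ¬ p ∣ n, f n

lemma Fs_empty (f : ℕ → ℝ) (K : ℕ) : Fs f ∅ K = ∑ n ∈ Finset.Icc 1 K, f n := by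
  unfold Fs
  simp

lemma Fs_insert {f : ℕ → ℝ} (hf : ∀ m n, f (m * n) = f m * f n) {P : Finset ℕ} {q : ℕ}
    (hq : q.Prime) (hP : ∀ p ∈ P, p.Prime) (hqP : q ∉ P) (K : ℕ) :
    Fs f P K = Fs f (insert q P) K + f q * Fs f P (K / q) := by
  classical
  have hq0 : 0 < q := hq.pos
  unfold Fs
  rw [← Finset.sum_filter_add_sum_filter_not _ (fun n => ¬ q ∣ n)]
  congr 1
  · rw [Finset.filter_filter]
    apply Finset.sum_congr _ (fun _ _ => rfl)
    apply Finset.filter_congr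
    intro n _
    constructor
    · rintro ⟨h1, h2⟩ p hp
      rcases Finset.mem_insert.mp hp with rfl | hp
      · exact h2
      · exact h1 p hp
    · intro h
      exact ⟨fun p hp => h p (Finset.mem_insert_of_mem hp), h q (Finset.mem_insert_self q P)⟩
  · rw [Finset.filter_filter, Finset.mul_sum]
    refine Finset.sum_nbij' (fun n => n / q) (fun m => q * m) ?_ ?_ ?_ ?_ ?_
    · intro n hn
      rw [Finset.mem_filter, Finset.mem_Icc, not_not] at hn
      obtain ⟨⟨h1, h2⟩, h3, h4⟩ := hn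
      obtain ⟨m, rfl⟩ := h4
      rw [Nat.mul_div_cancel_left _ hq0, Finset.mem_filter, Finset.mem_Icc]
      refine ⟨⟨Nat.pos_of_mul_pos_left h1 |> fun h => ?_, ?_⟩, ?_⟩
      · exact Nat.pos_of_ne_zero (by rintro rfl; simp at h1)
      · rw [Nat.le_div_iff_mul_le hq0, mul_comm]; exact h2
      · intro p hp hd
        exact h3 p hp (Dvd.dvd.mul_left hd q)
    · intro m hm
      rw [Finset.mem_filter, Finset.mem_Icc] at hm
      obtain ⟨⟨h1, h2⟩, h3⟩ := hm
      rw [Finset.mem_filter, Finset.mem_Icc, not_not]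
      refine ⟨⟨Nat.mul_pos hq0 h1, ?_⟩, ?_, Dvd.intro m rfl⟩
      · rw [Nat.le_div_iff_mul_le hq0, mul_comm] at h2; exact h2
      · intro p hp hd
        rcases (hP p hp).dvd_mul.mp hd with h | h
        · rw [(Nat.prime_dvd_prime_iff_eq (hP p hp) hq)] at h
          subst h
          exact hqP hp
        · exact h3 p hp h
    · intro n hn
      rw [Finset.mem_filter, not_not] at hn
      exact Nat.mul_div_cancel' hn.2.2
    · intro m _
      exact Nat.mul_div_cancel_left m hq0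
    · intro n hn
      rw [Finset.mem_filter, not_not] at hn
      rw [← hf, Nat.mul_div_cancel' hn.2.2]

theorem Fs_eq {f x : ℕ → ℝ} (hf : ∀ m n, f (m * n) = f m * f n) {P : Finset ℕ}
    (hP : ∀ p ∈ P, p.Prime) (hx : ∀ p ∈ P, f p = - x p) (K : ℕ) :
    Fs f P K = ∑ A ∈ P.powerset, Wt x A * Fs f ∅ (K / ∏ p ∈ A, p) := by
  classical
  induction P using Finset.induction_on generalizing K with
  | empty => simp [Wt]
  | insert q P hqP ih =>
    have hq := hP q (Finset.mem_insert_self q P)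
    have hP' : ∀ p ∈ P, p.Prime := fun p hp => hP p (Finset.mem_insert_of_mem hp)
    have hx' : ∀ p ∈ P, f p = - x p := fun p hp => hx p (Finset.mem_insert_of_mem hp)
    have h1 := Fs_insert hf hq hP' hqP K
    rw [hx q (Finset.mem_insert_self q P)] at h1
    have h2 : Fs f (insert q P) K = Fs f P K + x q * Fs f P (K / q) := by linarith only [h1]
    rw [h2, ih hP' hx' K, ih hP' hx' (K / q), Finset.sum_powerset_insert hqP, Finset.mul_sum]
    congr 1
    apply Finset.sum_congr rfl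
    intro A hA
    have hqA : q ∉ A := fun h => hqP (Finset.mem_powerset.mp hA h)
    rw [Finset.prod_insert hqA, Nat.div_div_eq_div_mul]
    unfold Wt
    rw [Finset.prod_insert hqA]
    ring

/-! ### Exponential weights -/

lemma Wt_xs (s : ℝ) (A : Finset ℕ) : Wt (xs s) A = rexp (-(s * Sm lg A)) := by
  unfold Wt xs Sm
  rw [← exp_sum]
  congr 1
  rw [Finset.mul_sum, Finset.sum_neg_distrib]

lemma lg_mul {m n : ℕ} (hm : 1 ≤ m) (hn : 1 ≤ n) : lg (m * n) = lg m + lg n := by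
  unfold lg
  push_cast
  apply Real.log_mul
  · have : (0 : ℝ) < m := by exact_mod_cast hm
    exact this.ne'
  · have : (0 : ℝ) < n := by exact_mod_cast hn
    exact this.ne'

lemma xs_mul (s : ℝ) {m n : ℕ} (hm : 1 ≤ m) (hn : 1 ≤ n) : xs s (m * n) = xs s m * xs s n := by
  unfold xs
  rw [lg_mul hm hn, ← exp_add]
  congr 1
  ring

lemma lg_prod {A : Finset ℕ} (hA : ∀ p ∈ A, p.Prime) :
    1 ≤ ∏ p ∈ A, p ∧ lg (∏ p ∈ A, p) = Sm lg A := by
  classical
  induction A using Finset.induction_on with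
  | empty => simp [Sm, lg]
  | insert q A hq ih =>
    obtain ⟨h1, h2⟩ := ih fun p hp => hA p (Finset.mem_insert_of_mem hp)
    have h3 : 1 ≤ q := (hA q (Finset.mem_insert_self q A)).one_lt.le
    rw [Finset.prod_insert hq]
    refine ⟨Nat.mul_pos h3 h1, ?_⟩
    rw [lg_mul h3 h1, h2]
    unfold Sm
    rw [Finset.sum_insert hq]

/-- truncated sum over the divisors -/
noncomputable def A1 (P : Finset ℕ) (s y : ℝ) : ℝ :=
  ∑ A ∈ P.powerset, if Sm lg A ≤ y then Wt (xs s) A else 0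

lemma A1_nonneg (P : Finset ℕ) (s y : ℝ) : 0 ≤ A1 P s y := by
  unfold A1
  apply Finset.sum_nonneg
  intro A _
  split_ifs
  · exact (Wt_pos (fun p => xs_pos s p) A).le
  · exact le_rfl

lemma A1_mono (P : Finset ℕ) (s : ℝ) {y y' : ℝ} (h : y ≤ y') : A1 P s y ≤ A1 P s y' := by
  unfold A1
  apply Finset.sum_le_sum
  intro A _
  have hW := (Wt_pos (fun p => xs_pos s p) A).le
  split_ifs with h1 h2 h2
  · exact le_rfl
  · exact absurd (h1.trans h) h2
  · exact hW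
  · exact le_rfl

lemma A1_ge (P : Finset ℕ) (s : ℝ) {y : ℝ} (h : ∀ p ∈ P, lg p ≤ y) :
    ∑ p ∈ P, xs s p ≤ A1 P s y := by
  classical
  have hinj : Set.InjOn (fun p : ℕ => ({p} : Finset ℕ)) (P : Set ℕ) := fun a _ b _ hab =>
    Finset.singleton_injective hab
  have hsub : P.image (fun p : ℕ => ({p} : Finset ℕ)) ⊆ P.powerset := by
    intro A hA
    obtain ⟨p, hp, rfl⟩ := Finset.mem_image.mp hA
    exact Finset.mem_powerset.mpr (Finset.singleton_subset_iff.mpr hp)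
  unfold A1
  calc ∑ p ∈ P, xs s p = ∑ A ∈ P.image (fun p : ℕ => ({p} : Finset ℕ)),
        (if Sm lg A ≤ y then Wt (xs s) A else 0) := by
        rw [Finset.sum_image hinj]
        apply Finset.sum_congr rfl
        intro p hp
        have : Sm lg {p} ≤ y := by unfold Sm; simpa using h p hp
        rw [if_pos this]
        unfold Wt
        simp
    _ ≤ _ := by
        apply Finset.sum_le_sum_of_subset_of_nonneg hsub
        intro A _ _
        split_ifs
        · exact (Wt_pos (fun p => xs_pos s p) A).le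
        · exact le_rfl

lemma A1_eq (P : ℝ → Finset ℕ) (s σ Λ y : ℝ) :
    A1 (P Λ) s y = Zt (P Λ) (xs σ) * (rexp ((σ - s) * y) * al P (σ - s) σ Λ y) := by
  have hZ := Zt_pos (P := P Λ) fun p => xs_pos σ p
  unfold al Ef A1
  rw [mul_div_assoc', mul_div_cancel₀ _ hZ.ne', Finset.mul_sum]
  apply Finset.sum_congr rfl
  intro A _
  unfold kt
  change _ = rexp ((σ - s) * y) * (Wt (xs σ) A *
    (if 0 ≤ y - Sm lg A then rexp (-((σ - s) * (y - Sm lg A))) else 0))
  by_cases h : Sm lg A ≤ y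
  · rw [if_pos h, if_pos (by linarith), Wt_xs, Wt_xs, ← exp_add, ← exp_add]
    congr 1
    ring
  · rw [if_neg h, if_neg (by linarith)]
    simp

/-- counting condition -/
lemma count_iff {X : ℝ} {A : Finset ℕ} (hA : ∀ p ∈ A, p.Prime) {m : ℕ} (hm : 1 ≤ m) :
    m ≤ ⌊rexp X⌋₊ / ∏ p ∈ A, p ↔ Sm lg A ≤ X - lg m := by
  obtain ⟨h1, h2⟩ := lg_prod hA
  rw [Nat.le_div_iff_mul_le h1, Nat.le_floor_iff (exp_pos X).le, ← h2, le_sub_iff_add_le,
    add_comm, ← lg_mul hm h1]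
  unfold lg
  have h3 : (0 : ℝ) < ((m * ∏ p ∈ A, p : ℕ) : ℝ) := by exact_mod_cast Nat.mul_pos hm h1
  rw [Real.log_le_iff_le_exp h3]

/-- swapping the order of summation -/
theorem swap_sum {f : ℕ → ℝ} {P : Finset ℕ} (hP : ∀ p ∈ P, p.Prime) (s X : ℝ) :
    ∑ A ∈ P.powerset, Wt (xs s) A * Fs f ∅ (⌊rexp X⌋₊ / ∏ p ∈ A, p) =
      ∑ m ∈ Finset.Icc 1 ⌊rexp X⌋₊, f m * A1 P s (X - lg m) := by
  classical
  have h1 : ∀ A ∈ P.powerset, Wt (xs s) A * Fs f ∅ (⌊rexp X⌋₊ / ∏ p ∈ A, p) =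
      ∑ m ∈ Finset.Icc 1 ⌊rexp X⌋₊, f m * (if Sm lg A ≤ X - lg m then Wt (xs s) A else 0) := by
    intro A hA
    have hA' : ∀ p ∈ A, p.Prime := fun p hp => hP p (Finset.mem_powerset.mp hA hp)
    have h2 : Finset.Icc 1 (⌊rexp X⌋₊ / ∏ p ∈ A, p) =
        (Finset.Icc 1 ⌊rexp X⌋₊).filter fun m => Sm lg A ≤ X - lg m := by
      ext m
      rw [Finset.mem_filter, Finset.mem_Icc, Finset.mem_Icc]
      constructor
      · rintro ⟨h3, h4⟩
        exact ⟨⟨h3, h4.trans (Nat.div_le_self _ _)⟩, (count_iff hA' h3).mp h4⟩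
      · rintro ⟨⟨h3, _⟩, h5⟩
        exact ⟨h3, (count_iff hA' h3).mpr h5⟩
    rw [Fs_empty, h2, Finset.sum_filter, Finset.mul_sum]
    apply Finset.sum_congr rfl
    intro m _
    split_ifs <;> ring
  rw [Finset.sum_congr rfl h1, Finset.sum_comm]
  apply Finset.sum_congr rfl
  intro m _
  unfold A1
  rw [Finset.mul_sum]

/-! ### Rankin -/

section rankin

variable {N : ℕ} [NeZero N] {χ : DirichletCharacter ℂ N}

/-- the coefficient function -/
noncomputable def fc (χ : DirichletCharacter ℂ N) (s : ℝ) (n : ℕ) : ℝ := rchar χ n * xs s n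

omit [NeZero N] in
lemma fc_mul (h2 : χ ^ 2 = 1) (s : ℝ) (m n : ℕ) : fc χ s (m * n) = fc χ s m * fc χ s n := by
  unfold fc
  rcases Nat.eq_zero_or_pos m with rfl | hm
  · simp
  rcases Nat.eq_zero_or_pos n with rfl | hn
  · simp
  rw [rchar_mul h2, xs_mul s hm hn]
  ring

lemma xs_floor_le {s θ X : ℝ} (hθ : 0 ≤ θ) (hθs : θ ≤ s) {A : Finset ℕ}
    (hA : ∀ p ∈ A, p.Prime) :
    xs s (⌊rexp X⌋₊ / (∏ p ∈ A, p) + 1) ≤ rexp (-(θ * (X - Sm lg A))) := by
  set n := ⌊rexp X⌋₊ / (∏ p ∈ A, p) + 1 with hn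
  have h1 : X - Sm lg A ≤ lg n := by
    by_contra h
    rw [not_le] at h
    have h2 := (count_iff (X := X) hA (m := n) (Nat.le_add_left 1 _)).mpr (by linarith only [h])
    rw [hn] at h2
    exact absurd h2 (Nat.not_succ_le_self _)
  have h0 := lg_nonneg n
  unfold xs
  rw [exp_le_exp, neg_le_neg_iff]
  calc θ * (X - Sm lg A) ≤ θ * lg n := mul_le_mul_of_nonneg_left h1 hθ
    _ ≤ s * lg n := mul_le_mul_of_nonneg_right hθs h0

theorem rankin (hne : χ ≠ 1) (h2 : χ ^ 2 = 1) {P : Finset ℕ} (hP : ∀ p ∈ P, p.Prime)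
    (hin : ∀ p ∈ P, rchar χ p = -1) {s θ X : ℝ} (hs : 0 < s) (hθ : 0 ≤ θ) (hθs : θ ≤ s) :
    |Fs (fc χ s) P ⌊rexp X⌋₊ - (DirichletCharacter.LFunction χ s).re * Zt P (xs s)| ≤
      N * (rexp (-(θ * X)) * Zt P (xs (s - θ))) := by
  set L := (DirichletCharacter.LFunction χ s).re with hL
  rw [Fs_eq (x := xs s) (fc_mul h2 s) hP (fun p hp => by unfold fc; rw [hin p hp]; ring),
    ← sum_Wt, Finset.mul_sum, ← Finset.sum_sub_distrib, ← sum_Wt, Finset.mul_sum, Finset.mul_sum]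
  refine (Finset.abs_sum_le_sum_abs _ _).trans (Finset.sum_le_sum fun A hA => ?_)
  have hA' : ∀ p ∈ A, p.Prime := fun p hp => hP p (Finset.mem_powerset.mp hA hp)
  have hW := Wt_pos (fun p => xs_pos s p) A
  have h3 : Wt (xs s) A * Fs (fc χ s) ∅ (⌊rexp X⌋₊ / ∏ p ∈ A, p) - L * Wt (xs s) A =
      Wt (xs s) A * (Fs (fc χ s) ∅ (⌊rexp X⌋₊ / ∏ p ∈ A, p) - L) := by ring
  rw [h3, abs_mul, abs_of_pos hW, Fs_empty]
  have h4 := abs_partial_sub hne h2 hs (⌊rexp X⌋₊ / ∏ p ∈ A, p)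
  have h5 := xs_floor_le (X := X) hθ hθs hA'
  have hN : (0 : ℝ) ≤ N := Nat.cast_nonneg N
  calc Wt (xs s) A * |∑ n ∈ Finset.Icc 1 (⌊rexp X⌋₊ / ∏ p ∈ A, p), fc χ s n - L|
      ≤ Wt (xs s) A * (N * rexp (-(θ * (X - Sm lg A)))) := by
        apply mul_le_mul_of_nonneg_left _ hW.le
        exact h4.trans (mul_le_mul_of_nonneg_left h5 hN)
    _ = N * (rexp (-(θ * X)) * Wt (xs (s - θ)) A) := by
        rw [Wt_xs, Wt_xs]
        have : rexp (-(s * Sm lg A)) * rexp (-(θ * (X - Sm lg A))) =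
            rexp (-(θ * X)) * rexp (-((s - θ) * Sm lg A)) := by
          rw [← exp_add, ← exp_add]
          congr 1
          ring
        linear_combination (N : ℝ) * this

end rankin

/-! ### The gap -/

lemma one_add_sum_le {P : Finset ℕ} {f : ℕ → ℝ} (hf : ∀ p ∈ P, 0 ≤ f p) :
    1 + ∑ p ∈ P, f p ≤ ∏ p ∈ P, (1 + f p) := by
  classical
  induction P using Finset.induction_on with
  | empty => simp
  | insert q P hq ih =>
    rw [Finset.prod_insert hq, Finset.sum_insert hq]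
    have h1 := ih fun p hp => hf p (Finset.mem_insert_of_mem hp)
    have h2 := hf q (Finset.mem_insert_self q P)
    have h3 : 0 ≤ ∑ p ∈ P, f p :=
      Finset.sum_nonneg fun p hp => hf p (Finset.mem_insert_of_mem hp)
    nlinarith only [h1, h2, h3]

lemma factor_gap {x θl : ℝ} (hx : 0 < x) (hx1 : x ≤ 1) (hθ : 0 ≤ θl) :
    (1 + x) * rexp (-(θl * (x / (1 + x)))) * (1 + if 4 ≤ θl then x / (1 + x) else 0) ≤
      1 + x * rexp (-θl) := by
  set ρ := x / (1 + x) with hρ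
  have h1 : 0 < 1 + x := by linarith
  have hρ0 : 0 < ρ := div_pos hx h1
  have hρ2 : ρ ≤ 1 / 2 := by rw [hρ, div_le_div_iff₀ h1 (by norm_num)]; linarith
  have e : 1 + x * rexp (-θl) = (1 + x) * (1 - ρ + ρ * rexp (-θl)) := by
    rw [hρ]; field_simp; ring
  rw [e, mul_assoc]
  apply mul_le_mul_of_nonneg_left _ h1.le
  by_cases h : 4 ≤ θl
  · rw [if_pos h]
    -- (1 + ρ) e^{-θlρ} ≤ 1 - ρ
    have h3 : (1 + ρ) ≤ (1 - ρ) * rexp (θl * ρ) := by
      have h4 : 1 + θl * ρ ≤ rexp (θl * ρ) := by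
        have := add_one_le_exp (θl * ρ); linarith
      have h5 := mul_le_mul_of_nonneg_left h4 (by linarith : 0 ≤ 1 - ρ)
      refine le_trans ?_ h5
      have h6 : 4 * ρ ≤ θl * ρ := mul_le_mul_of_nonneg_right h hρ0.le
      nlinarith only [h6, hρ0, hρ2]
    have h7 : rexp (θl * ρ) * rexp (-(θl * ρ)) = 1 := by rw [← exp_add]; simp
    have h8 := mul_le_mul_of_nonneg_right h3 (exp_pos (-(θl * ρ))).le
    rw [mul_assoc, h7, mul_one] at h8
    have h9 : 0 ≤ ρ * rexp (-θl) := by positivity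
    calc rexp (-(θl * ρ)) * (1 + ρ) = (1 + ρ) * rexp (-(θl * ρ)) := by ring
      _ ≤ 1 - ρ := h8
      _ ≤ _ := by linarith
  · rw [if_neg h, add_zero, mul_one]
    have hc := convexOn_exp.2 (mem_univ (0 : ℝ)) (mem_univ (-θl)) (by linarith : 0 ≤ 1 - ρ) hρ0.le
      (by ring)
    simp only [smul_eq_mul, mul_zero, zero_add, exp_zero, mul_one] at hc
    refine le_trans (le_of_eq ?_) hc
    congr 1
    ring

theorem Zt_gap (P : Finset ℕ) {σ₂ θ : ℝ} (h0 : 0 ≤ σ₂) (hθ : 0 ≤ θ) :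
    Zt P (xs σ₂) * rexp (-(θ * Xm P (xs σ₂) lg)) *
      (1 + ∑ p ∈ P with 4 ≤ θ * lg p, xs σ₂ p / 2) ≤ Zt P (xs (σ₂ + θ)) := by
  have h1 : ∏ p ∈ P, ((1 + xs σ₂ p) * rexp (-(θ * lg p * (xs σ₂ p / (1 + xs σ₂ p)))) *
      (1 + if 4 ≤ θ * lg p then xs σ₂ p / (1 + xs σ₂ p) else 0)) ≤ Zt P (xs (σ₂ + θ)) := by
    unfold Zt
    apply Finset.prod_le_prod
    · intro p _
      have := xs_pos σ₂ p
      split_ifs <;> positivity
    · intro p _
      have h2 := factor_gap (xs_pos σ₂ p) (xs_le_one h0 p) (mul_nonneg hθ (lg_nonneg p))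
      refine h2.trans (le_of_eq ?_)
      unfold xs
      rw [← exp_add]
      congr 2
      ring
  refine le_trans ?_ h1
  rw [Finset.prod_mul_distrib, Finset.prod_mul_distrib, ← exp_sum]
  have e1 : ∑ p ∈ P, -(θ * lg p * (xs σ₂ p / (1 + xs σ₂ p))) = -(θ * Xm P (xs σ₂) lg) := by
    unfold Xm
    rw [Finset.sum_neg_distrib, Finset.mul_sum]
    congr 1
    apply Finset.sum_congr rfl
    intro p _
    ring
  rw [e1]
  apply mul_le_mul_of_nonneg_left
  · have h3 : ∀ p ∈ P, 0 ≤ (if 4 ≤ θ * lg p then xs σ₂ p / (1 + xs σ₂ p) else 0) := by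
      intro p _
      have := xs_pos σ₂ p
      split_ifs <;> positivity
    have h4 := one_add_sum_le h3
    refine le_trans ?_ h4
    apply add_le_add le_rfl
    rw [Finset.sum_filter]
    apply Finset.sum_le_sum
    intro p _
    split_ifs with h5
    · have h6 := xs_pos σ₂ p
      have h7 := xs_le_one h0 p
      apply div_le_div_of_nonneg_left h6.le (by linarith) (by linarith)
    · exact le_rfl
  · exact mul_nonneg (Zt_pos fun p => xs_pos σ₂ p).le (exp_pos _).le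

end Pool.Agent.MP0016c7.Ros
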