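import Mathlib
import Pool.Agent.Lib.MP_0016c7_nt.RosComb

open Real Set MeasureTheory Filter Topology

namespace Pool.Agent.MP0016c7.Ros

variable {N : ℕ} [NeZero N] {χ : DirichletCharacter ℂ N}

/-- real value of the L-function -/
noncomputable def Lr (χ : DirichletCharacter ℂ N) (s : ℝ) : ℝ :=
  (DirichletCharacter.LFunction χ s).re

lemma continuous_Lr (hne : χ ≠ 1) : Continuous (Lr χ) := by
  unfold Lr
  exact Complex.continuous_re.comp
    ((DirichletCharacter.differentiable_LFunction hne).continuous.comp Complex.continuous_ofReal)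

lemma Lr_one_pos (hne : χ ≠ 1) (h2 : χ ^ 2 = 1) {σ₀ : ℝ} (h1 : σ₀ < 1)
    (hL : ∀ s, σ₀ ≤ s → s < 1 → 0 < Lr χ s) : 0 < Lr χ 1 := by
  have h3 : 0 ≤ Lr χ 1 := by
    have h4 : Tendsto (Lr χ) (𝓝[<] 1) (𝓝 (Lr χ 1)) :=
      ((continuous_Lr hne).tendsto 1).mono_left nhdsWithin_le_nhds
    refine ge_of_tendsto h4 ?_
    have : Ioo σ₀ 1 ∈ 𝓝[<] (1 : ℝ) := Ioo_mem_nhdsLT h1
    filter_upwards [this] with s hs
    exact (hL s hs.1.le hs.2).le
  refine lt_of_le_of_ne h3 fun h0 => ?_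
  apply DirichletCharacter.LFunction_apply_one_ne_zero hne
  apply Complex.ext
  · unfold Lr at h0
    rw [Complex.ofReal_one] at h0
    rw [← h0, Complex.zero_re]
  · have := LFunction_im hne h2 (s := 1) one_pos
    rw [Complex.ofReal_one] at this
    rw [this, Complex.zero_im]

lemma exists_region (hne : χ ≠ 1) (h2 : χ ^ 2 = 1) {σ₀ : ℝ} (h0 : 0 < σ₀) (h1 : σ₀ < 1)
    (hL : ∀ s, σ₀ ≤ s → s < 1 → 0 < Lr χ s) :
    ∃ σ₂, 0 < σ₂ ∧ σ₂ < σ₀ ∧ ∃ ℓ, 0 < ℓ ∧ ∀ s, σ₂ ≤ s → s ≤ 1 → ℓ ≤ Lr χ s := by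
  have hc := continuous_Lr hne
  have hpos : ∀ᶠ s in 𝓝 σ₀, 0 < Lr χ s :=
    hc.continuousAt.eventually (lt_mem_nhds (hL σ₀ le_rfl h1))
  obtain ⟨δ, hδ, hδ'⟩ := Metric.eventually_nhds_iff.mp hpos
  set σ₂ := max (σ₀ / 2) (σ₀ - δ / 2) with hσ₂
  have h3 : 0 < σ₂ := lt_of_lt_of_le (by linarith only [h0]) (le_max_left _ _)
  have h4 : σ₂ < σ₀ := max_lt (by linarith) (by linarith)
  have h5 : ∀ s ∈ Icc σ₂ 1, 0 < Lr χ s := by
    intro s hs
    rcases lt_or_ge s σ₀ with h | h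
    · apply hδ'
      rw [Real.dist_eq, abs_lt]
      have : σ₀ - δ / 2 ≤ σ₂ := le_max_right _ _
      constructor <;> linarith [hs.1]
    · rcases hs.2.lt_or_eq with h' | h'
      · exact hL s h h'
      · rw [h']; exact Lr_one_pos hne h2 h1 hL
  obtain ⟨s₀, hs₀, hmin⟩ := isCompact_Icc.exists_isMinOn (nonempty_Icc.mpr (by linarith : σ₂ ≤ 1))
    hc.continuousOn
  exact ⟨σ₂, h3, h4, Lr χ s₀, h5 s₀ hs₀, fun s hs hs1 => hmin ⟨hs, hs1⟩⟩

/-! ### Growth -/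

lemma MDat.growth {P : ℝ → Finset ℕ} {C₀ : ℝ} {C₁ Cs : ℝ → ℝ} (hM : MDat P C₀ C₁ Cs)
    {s : ℝ} (hs : s < 1) (B : ℝ) : ∃ Λ₀ : ℝ, 1 ≤ Λ₀ ∧ ∀ Λ, Λ₀ ≤ Λ →
    B ≤ ∑ p ∈ P Λ with ¬ (lg p ≤ Λ / 2), xs s p := by
  have hC0 := hM.C0
  have hs' : 0 < 1 - s := by linarith
  refine ⟨1 + 16 * C₀ + 16 * |B| / (1 - s), ?_, fun Λ hΛ => ?_⟩
  · have : 0 ≤ 16 * |B| / (1 - s) := by (clear * - hs; positivity)
    linarith
  have hB : 0 ≤ 16 * |B| / (1 - s) := by positivity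
  have hΛ0 : 0 < Λ := by linarith
  have h1 := hM.blk_xs (σ := s) (u := Λ) (v := Λ / 2) hs.le (by linarith only [hC0, hΛ, hB]) (by linarith)
  have h2 : ∑ p ∈ P Λ with ¬ (lg p ≤ Λ / 2), lg p * xs s p ≤
      Λ * ∑ p ∈ P Λ with ¬ (lg p ≤ Λ / 2), xs s p := by
    rw [Finset.mul_sum]
    apply Finset.sum_le_sum
    intro p hp
    rw [Finset.mem_filter] at hp
    exact mul_le_mul_of_nonneg_right (hM.le Λ p hp.1) (xs_pos s p).le
  have h3 : Λ * (((1 - s) * (Λ / 2)) / 8) ≤ rexp ((1 - s) * (Λ / 2)) * ((Λ - Λ / 2) / 2 - 2 * C₀) := by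
    have h4 : (1 - s) * (Λ / 2) ≤ rexp ((1 - s) * (Λ / 2)) := by
      have := add_one_le_exp ((1 - s) * (Λ / 2)); linarith only [this]
    have h5 : Λ / 8 ≤ (Λ - Λ / 2) / 2 - 2 * C₀ := by linarith only [hΛ, hB]
    calc Λ * (((1 - s) * (Λ / 2)) / 8) = (1 - s) * (Λ / 2) * (Λ / 8) := by ring
      _ ≤ _ := mul_le_mul h4 h5 (by positivity) (exp_pos _).le
  have h6 := le_of_mul_le_mul_left ((h3.trans h1).trans h2) hΛ0
  refine le_trans ?_ h6
  have h7 : 16 * |B| / (1 - s) ≤ Λ := by linarith only [hC0, hΛ]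
  rw [div_le_iff₀ hs'] at h7
  have h8 := le_abs_self B
  linarith only [h7, h8]

/-! ### Small range -/

omit [NeZero N] in
lemma rchar_nonneg_of (h2 : χ ^ 2 = 1) (n : ℕ) (h : ∀ p : ℕ, p.Prime → p ∣ n → 0 ≤ rchar χ p) :
    0 ≤ rchar χ n := by
  induction n using Nat.strong_induction_on with
  | _ n ih =>
    rcases Nat.eq_zero_or_pos n with rfl | hn
    · simp
    rcases Nat.eq_or_lt_of_le hn with h1 | h1
    · have h1' : n = 1 := h1.symm
      rw [h1', rchar_one]; exact zero_le_one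
    · have hp := Nat.minFac_prime (n := n) (by omega)
      have hd := Nat.minFac_dvd n
      have hlt : n / n.minFac < n := Nat.div_lt_self hn hp.one_lt
      have h3 := ih (n / n.minFac) hlt fun p hpp hpd =>
        h p hpp (hpd.trans (Nat.div_dvd_of_dvd hd))
      have h4 := h _ hp hd
      have e : rchar χ n = rchar χ n.minFac * rchar χ (n / n.minFac) := by
        rw [← rchar_mul h2, Nat.mul_div_cancel' hd]
      rw [e]
      exact mul_nonneg h4 h3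

lemma small_range (h2 : χ ^ 2 = 1) (s : ℝ) {Λ X : ℝ} (h0 : 0 ≤ X) (hX : X ≤ Λ) :
    1 ≤ Fs (fc χ s) (iP χ Λ) ⌊rexp X⌋₊ := by
  have hK : 1 ≤ ⌊rexp X⌋₊ := by
    rw [Nat.one_le_floor_iff]
    exact one_le_exp h0
  have hnn : ∀ n ∈ (Finset.Icc 1 ⌊rexp X⌋₊).filter (fun n => ∀ p ∈ iP χ Λ, ¬ p ∣ n),
      0 ≤ fc χ s n := by
    intro n hn
    rw [Finset.mem_filter, Finset.mem_Icc] at hn
    obtain ⟨⟨hn1, hn2⟩, hn3⟩ := hn
    unfold fc
    apply mul_nonneg _ (xs_pos s n).le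
    apply rchar_nonneg_of h2
    intro p hp hpn
    rcases rchar_cases h2 p with h | h | h
    · rw [h]
    · rw [h]; exact zero_le_one
    · exfalso
      apply hn3 p _ hpn
      rw [mem_iP]
      refine ⟨hp, h, ?_⟩
      have hpn' : p ≤ n := Nat.le_of_dvd hn1 hpn
      have h3 : (p : ℝ) ≤ rexp X := by
        have : (n : ℝ) ≤ rexp X := (Nat.le_floor_iff (exp_pos X).le).mp hn2
        exact le_trans (by exact_mod_cast hpn') this
      have h4 : Real.log p ≤ X := by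
        rw [Real.log_le_iff_le_exp (by exact_mod_cast hp.pos)]
        exact h3
      exact h4.trans hX
  have h1mem : 1 ∈ (Finset.Icc 1 ⌊rexp X⌋₊).filter (fun n => ∀ p ∈ iP χ Λ, ¬ p ∣ n) := by
    rw [Finset.mem_filter, Finset.mem_Icc]
    refine ⟨⟨le_rfl, hK⟩, fun p hp hd => ?_⟩
    have := ((mem_iP χ).mp hp).1.one_lt
    rw [Nat.dvd_one] at hd
    omega
  have h3 := Finset.single_le_sum hnn h1mem
  unfold Fs
  refine le_trans (le_of_eq ?_) h3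
  unfold fc xs lg
  rw [rchar_one]
  simp

/-! ### Main range -/

lemma iP_prime {Λ : ℝ} {p : ℕ} (hp : p ∈ iP χ Λ) : p.Prime := ((mem_iP χ).mp hp).1

lemma Fs_swap (h2 : χ ^ 2 = 1) (s Λ X : ℝ) :
    Fs (fc χ s) (iP χ Λ) ⌊rexp X⌋₊ =
      ∑ m ∈ Finset.Icc 1 ⌊rexp X⌋₊, fc χ s m * A1 (iP χ Λ) s (X - lg m) := by
  rw [Fs_eq (x := xs s) (fc_mul h2 s) (fun p hp => iP_prime hp) (fun p hp => by
    unfold fc; rw [((mem_iP χ).mp hp).2.1]; ring), swap_sum (fun p hp => iP_prime hp)]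

lemma main_arith {E G L ℓ q e M a S T : ℝ} (hE : 0 < E) (hG : 0 < G) (hL : ℓ ≤ L) (hℓ : 0 < ℓ)
    (hq : 3 * q ≤ ℓ / 4) (he : e * M ≤ ℓ / 4)
    (hS : E * (G * (L - q) - e * G * M) ≤ S) (hT : -(2 * q * (E * G)) ≤ T)
    (ha : a ≤ 2 * (E * G)) : ℓ / 4 * a ≤ S + T := by
  have hEG : 0 < E * G := mul_pos hE hG
  have h1 : E * (G * (L - q) - e * G * M) = E * G * (L - q - e * M) := by ring
  have h2 : E * G * (ℓ - 3 * q - e * M) ≤ S + T := by
    have h3 : E * G * (ℓ - q - e * M) ≤ E * G * (L - q - e * M) :=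
      mul_le_mul_of_nonneg_left (by linarith) hEG.le
    rw [h1] at hS
    have h4 : E * G * (ℓ - 3 * q - e * M) = E * G * (ℓ - q - e * M) - 2 * q * (E * G) := by ring
    linarith
  have h5 : E * G * (ℓ / 2) ≤ E * G * (ℓ - 3 * q - e * M) :=
    mul_le_mul_of_nonneg_left (by linarith) hEG.le
  have h6 := mul_le_mul_of_nonneg_left ha (by positivity : 0 ≤ ℓ / 4)
  have h7 : ℓ / 4 * (2 * (E * G)) = E * G * (ℓ / 2) := by ring
  linarith only [h2, h5, h6]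

theorem main_range (hne : χ ≠ 1) (h2 : χ ^ 2 = 1) {σ₁ σ₂ σ ℓ ε G Λ X : ℝ} {M₀ : ℕ}
    (h1 : 0 ≤ σ₁) (h12 : σ₁ < σ₂) (hσ : σ₂ ≤ σ) (hσ1 : σ ≤ 1) (hℓ : 0 < ℓ)
    (hL : ∀ s, σ₂ ≤ s → s ≤ 1 → ℓ ≤ Lr χ s) (hG : 0 < G) (hε1 : ε ≤ 1)
    (hM : 3 * (N * xs σ₂ (M₀ + 1)) ≤ ℓ / 4) (hε : ε * M₀ ≤ ℓ / 4)
    (hX : lg (M₀ + 1) ≤ X)
    (hgood : ∀ u, 0 ≤ u → u ≤ lg (M₀ + 1) →
      |al (iP χ) (σ - σ₁) σ Λ (X - u) - G| ≤ ε * G) :
    ℓ / 4 * A1 (iP χ Λ) σ₁ X ≤ Fs (fc χ σ₁) (iP χ Λ) ⌊rexp X⌋₊ := by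
  set P := iP χ with hP
  set K := ⌊rexp X⌋₊ with hK
  have hM0K : M₀ + 1 ≤ K := by
    rw [hK, Nat.le_floor_iff (exp_pos X).le]
    have h3 : (0 : ℝ) < ((M₀ + 1 : ℕ) : ℝ) := by positivity
    rw [← Real.log_le_iff_le_exp h3]
    exact hX
  set Z := Zt (P Λ) (xs σ) with hZ
  have hZ0 : 0 < Z := Zt_pos fun p => xs_pos σ p
  set E := Z * rexp ((σ - σ₁) * X) with hE
  have hE0 : 0 < E := by (clear * - hZ0; positivity)
  have hA1 : ∀ m : ℕ, xs σ₁ m * A1 (P Λ) σ₁ (X - lg m) =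
      E * (xs σ m * al P (σ - σ₁) σ Λ (X - lg m)) := by
    intro m
    rw [A1_eq P σ₁ σ Λ (X - lg m)]
    have e : xs σ₁ m * rexp ((σ - σ₁) * (X - lg m)) = rexp ((σ - σ₁) * X) * xs σ m := by
      unfold xs
      rw [← exp_add, ← exp_add]
      congr 1
      ring
    rw [hE, ← hZ]
    linear_combination (Z * al P (σ - σ₁) σ Λ (X - lg m)) * e
  have hsplit : Fs (fc χ σ₁) (P Λ) K =
      ∑ m ∈ Finset.Ico 1 (M₀ + 1), rchar χ m * (xs σ₁ m * A1 (P Λ) σ₁ (X - lg m)) +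
      ∑ m ∈ Finset.Ico (M₀ + 1) (K + 1), rchar χ m * (xs σ₁ m * A1 (P Λ) σ₁ (X - lg m)) := by
    rw [Finset.sum_Ico_consecutive _ (by omega) (by omega), hK, Fs_swap h2,
      Finset.Ico_add_one_right_eq_Icc]
    apply Finset.sum_congr rfl
    intro m _
    unfold fc
    ring
  have hlgmono : ∀ m : ℕ, 1 ≤ m → m ≤ M₀ + 1 → lg m ≤ lg (M₀ + 1) := by
    intro m hm hm'
    unfold lg
    exact Real.log_le_log (by exact_mod_cast hm) (by exact_mod_cast hm')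
  have hxs12 : xs σ (M₀ + 1) ≤ xs σ₂ (M₀ + 1) := by
    unfold xs
    rw [exp_le_exp, neg_le_neg_iff]
    exact mul_le_mul_of_nonneg_right hσ (lg_nonneg _)
  have hNx : N * xs σ (M₀ + 1) ≤ N * xs σ₂ (M₀ + 1) :=
    mul_le_mul_of_nonneg_left hxs12 (Nat.cast_nonneg N)
  rw [hsplit]
  refine main_arith (E := E) (G := G) (L := Lr χ σ) (q := N * xs σ₂ (M₀ + 1)) (e := ε) (M := M₀)
    hE0 hG (hL σ hσ hσ1) hℓ hM hε ?_ ?_ ?_
  · -- head
    have hs0 : 0 < σ := by linarith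
    have h3 := abs_le.mp (abs_partial_sub hne h2 hs0 M₀)
    have h4 : ∑ m ∈ Finset.Ico 1 (M₀ + 1), rchar χ m * (xs σ₁ m * A1 (P Λ) σ₁ (X - lg m)) =
        E * (G * ∑ m ∈ Finset.Ico 1 (M₀ + 1), rchar χ m * xs σ m +
          ∑ m ∈ Finset.Ico 1 (M₀ + 1), rchar χ m * xs σ m *
            (al P (σ - σ₁) σ Λ (X - lg m) - G)) := by
      rw [Finset.mul_sum, ← Finset.sum_add_distrib, Finset.mul_sum]
      apply Finset.sum_congr rfl
      intro m _
      rw [hA1]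
      ring
    have h5 : |∑ m ∈ Finset.Ico 1 (M₀ + 1), rchar χ m * xs σ m *
            (al P (σ - σ₁) σ Λ (X - lg m) - G)| ≤ ε * G * M₀ := by
      calc _ ≤ ∑ m ∈ Finset.Ico 1 (M₀ + 1), |rchar χ m * xs σ m *
            (al P (σ - σ₁) σ Λ (X - lg m) - G)| := Finset.abs_sum_le_sum_abs _ _
        _ ≤ ∑ _m ∈ Finset.Ico 1 (M₀ + 1), ε * G := by
            apply Finset.sum_le_sum
            intro m hm
            rw [Finset.mem_Ico] at hm
            rw [abs_mul, abs_mul, abs_of_pos (xs_pos σ m)]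
            have q1 := hgood (lg m) (lg_nonneg m) (hlgmono m hm.1 hm.2.le)
            have q2 := abs_rchar_le h2 m
            have q3 := xs_le_one hs0.le m
            have q4 : |rchar χ m| * xs σ m ≤ 1 := mul_le_one₀ q2 (xs_pos σ m).le q3
            calc _ ≤ 1 * (ε * G) := mul_le_mul q4 q1 (abs_nonneg _) zero_le_one
              _ = ε * G := one_mul _
        _ = ε * G * M₀ := by
            rw [Finset.sum_const, Nat.card_Ico, Nat.add_sub_cancel, nsmul_eq_mul]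
            ring
    rw [h4]
    apply mul_le_mul_of_nonneg_left _ hE0.le
    have h6 := (abs_le.mp h5).1
    rw [← Finset.Ico_add_one_right_eq_Icc] at h3
    have h7 : G * (Lr χ σ - N * xs σ₂ (M₀ + 1)) ≤
        G * ∑ m ∈ Finset.Ico 1 (M₀ + 1), rchar χ m * xs σ m := by
      apply mul_le_mul_of_nonneg_left _ hG.le
      unfold Lr
      linarith [h3.1]
    linarith
  · -- tail
    have h3 := abel_le (c := rchar χ) (w := fun m => xs σ₁ m * A1 (P Λ) σ₁ (X - lg m))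
      (a := M₀ + 1) (b := K + 1) (B := N) (fun n => abs_block hne (by omega) n)
      (fun n hn => by
        apply mul_le_mul (xs_anti h1 (by omega) (by omega)) _ (A1_nonneg _ _ _) (xs_pos _ _).le
        apply A1_mono
        have : lg n ≤ lg (n + 1) := by
          unfold lg
          have hn0 : (0 : ℝ) < n := by exact_mod_cast (by omega : 0 < n)
          apply Real.log_le_log hn0
          push_cast
          linarith
        linarith)
      (fun n _ => mul_nonneg (xs_pos _ _).le (A1_nonneg _ _ _))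
    rw [hA1] at h3
    have h4 := (abs_le.mp (hgood (lg (M₀ + 1)) (lg_nonneg _) le_rfl)).2
    have h5 : al P (σ - σ₁) σ Λ (X - lg (M₀ + 1)) ≤ 2 * G := by
      have : ε * G ≤ 1 * G := mul_le_mul_of_nonneg_right hε1 hG.le
      linarith
    have h6 : (N : ℝ) * (E * (xs σ (M₀ + 1) * al P (σ - σ₁) σ Λ (X - lg (M₀ + 1)))) ≤
        2 * (N * xs σ₂ (M₀ + 1)) * (E * G) := by
      have hx0 := xs_pos σ (M₀ + 1)
      have ha0 := al_nonneg P (σ - σ₁) σ Λ (X - lg (M₀ + 1))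
      calc _ = (N * xs σ (M₀ + 1)) * (E * al P (σ - σ₁) σ Λ (X - lg (M₀ + 1))) := by ring
        _ ≤ (N * xs σ₂ (M₀ + 1)) * (E * (2 * G)) := by
            apply mul_le_mul hNx (mul_le_mul_of_nonneg_left h5 hE0.le) (by (clear * - hZ0 ha0; positivity))
            exact mul_nonneg (Nat.cast_nonneg N) (xs_pos _ _).le
        _ = _ := by ring
    have h7 := (abs_le.mp (h3.trans h6)).1
    exact h7
  · -- the truncated sum
    have h3 := A1_eq P σ₁ σ Λ X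
    have h4 := (abs_le.mp (hgood 0 le_rfl (lg_nonneg _))).2
    rw [sub_zero] at h4
    have h5 : al P (σ - σ₁) σ Λ X ≤ 2 * G := by
      have : ε * G ≤ 1 * G := mul_le_mul_of_nonneg_right hε1 hG.le
      linarith
    rw [h3, ← hZ]
    calc Z * (rexp ((σ - σ₁) * X) * al P (σ - σ₁) σ Λ X) =
          E * al P (σ - σ₁) σ Λ X := by rw [hE]; ring
      _ ≤ E * (2 * G) := mul_le_mul_of_nonneg_left h5 hE0.le
      _ = _ := by ring

end Pool.Agent.MP0016c7.Ros
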