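import Mathlib
import Pool.Agent.Lib.MP_0016c7_nt.RosTM
import Pool.Agent.Lib.MP_0016c7_nt.RosTilt

open Real Set MeasureTheory Filter Topology

namespace Pool.Agent.MP0016c7.Ros

/-- scaled transform -/
noncomputable def gT (T ξ : ℝ) : ℝ := gk (ξ / T) / T

lemma gT_nonneg {T : ℝ} (hT : 0 < T) (ξ : ℝ) : 0 ≤ gT T ξ := div_nonneg (gk_nonneg _) hT.le

lemma gT_le {T : ℝ} (hT : 0 < T) (ξ : ℝ) : gT T ξ ≤ 4 / 3 / T :=
  div_le_div_of_nonneg_right (gk_le _) hT.le

lemma gT_eq_zero {T : ℝ} (hT : 0 < T) {ξ : ℝ} (h : 2 * T ≤ |ξ|) : gT T ξ = 0 := by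
  unfold gT
  rw [gk_eq_zero, zero_div]
  rw [abs_div, abs_of_pos hT, le_div_iff₀ hT]
  exact h

lemma continuous_gT (T : ℝ) : Continuous (gT T) := by
  unfold gT
  fun_prop

lemma integrable_gT {T : ℝ} (hT : 0 < T) : Integrable (gT T) := by
  unfold gT
  exact (integrable_gk.comp_div hT.ne').div_const T

lemma integral_gT_ex {T : ℝ} (hT : 0 < T) (y : ℝ) :
    ∫ ξ, (gT T ξ : ℂ) * ex (ξ * y) = (Kk (T * y) : ℂ) := by
  have h := integral_gk_ex (T * y)
  have h2 := Measure.integral_comp_div (fun x : ℝ => (gk x : ℂ) * ex (x * (T * y))) T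
  rw [h, abs_of_pos hT] at h2
  have h3 : ∀ ξ : ℝ, (gT T ξ : ℂ) * ex (ξ * y) =
      (T : ℂ)⁻¹ * ((gk (ξ / T) : ℂ) * ex (ξ / T * (T * y))) := by
    intro ξ
    unfold gT
    have e : ξ / T * (T * y) = ξ * y := by field_simp
    rw [e]
    push_cast
    ring
  simp_rw [h3]
  rw [integral_const_mul, h2]
  have hTc : (T : ℂ) ≠ 0 := by exact_mod_cast hT.ne'
  rw [Complex.real_smul, ← mul_assoc, inv_mul_cancel₀ hTc, one_mul]

/-- smoothed exponential kernel -/
noncomputable def kk (τ T w : ℝ) : ℝ := ∫ v in Ioi (0 : ℝ), rexp (-(τ * v)) * Kk (T * (w - v))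

/-- its transform -/
noncomputable def wk (τ T ξ : ℝ) : ℂ := (gT T ξ : ℂ) * (1 / ((τ : ℂ) + ξ * Complex.I))

lemma norm_inv_le {τ : ℝ} (hτ : 0 < τ) (ξ : ℝ) : ‖1 / ((τ : ℂ) + ξ * Complex.I)‖ ≤ 1 / τ := by
  rw [norm_div, norm_one]
  apply one_div_le_one_div_of_le hτ
  have h3 := Complex.abs_re_le_norm ((τ : ℂ) + ξ * Complex.I)
  simp at h3
  rw [abs_of_pos hτ] at h3
  exact h3

lemma norm_wk_le {τ T : ℝ} (hτ : 0 < τ) (hT : 1 ≤ T) (ξ : ℝ) : ‖wk τ T ξ‖ ≤ 2 / τ := by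
  unfold wk
  have hT0 : 0 < T := by linarith
  rw [norm_mul, Complex.norm_real, Real.norm_eq_abs, abs_of_nonneg (gT_nonneg hT0 ξ)]
  have h1 := gT_le hT0 ξ
  have h2 : 4 / 3 / T ≤ 2 := by
    rw [div_le_iff₀ hT0]; linarith
  calc gT T ξ * ‖1 / ((τ : ℂ) + ξ * Complex.I)‖ ≤ 2 * (1 / τ) :=
        mul_le_mul (h1.trans h2) (norm_inv_le hτ ξ) (norm_nonneg _) (by norm_num)
    _ = _ := by ring

lemma wk_eq_zero {τ T : ℝ} (hT : 0 < T) {ξ : ℝ} (h : 2 * T < |ξ|) : wk τ T ξ = 0 := by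
  unfold wk; rw [gT_eq_zero hT h.le]; simp

lemma continuous_wk {τ : ℝ} (hτ : 0 < τ) (T : ℝ) : Continuous (wk τ T) := by
  unfold wk
  apply Continuous.mul
  · exact Complex.continuous_ofReal.comp (continuous_gT T)
  · apply Continuous.div continuous_const (by fun_prop)
    intro ξ h0
    have := congrArg Complex.re h0
    simp at this
    linarith

lemma integrable_wk {τ T : ℝ} (hτ : 0 < τ) (hT : 0 < T) : Integrable (wk τ T) := by
  unfold wk
  refine ((integrable_gT hT).ofReal (𝕜 := ℂ)).mul_bdd (c := 1 / τ) ?_ ?_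
  · apply Continuous.aestronglyMeasurable
    apply Continuous.div continuous_const (by fun_prop)
    intro ξ h0
    have := congrArg Complex.re h0
    simp at this
    linarith
  · filter_upwards with ξ
    exact norm_inv_le hτ ξ

lemma integrableOn_exp_neg {τ : ℝ} (hτ : 0 < τ) :
    IntegrableOn (fun v : ℝ => rexp (-(τ * v))) (Ioi 0) := by
  have := integrableOn_exp_mul_Ioi (a := -τ) (by linarith) 0
  refine this.congr_fun (fun w _ => ?_) measurableSet_Ioi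
  simp only [neg_mul]

lemma integral_exp_neg' {τ : ℝ} (hτ : 0 < τ) :
    ∫ v in Ioi (0 : ℝ), rexp (-(τ * v)) = 1 / τ := by
  have h := integral_exp_mul_Ioi (a := -τ) (by linarith) 0
  simp only [neg_mul, mul_zero, exp_zero] at h
  rw [h, neg_div_neg_eq]

lemma kk_fourier {τ T : ℝ} (hτ : 0 < τ) (hT : 0 < T) (w : ℝ) :
    (kk τ T w : ℂ) = ∫ ξ, wk τ T ξ * ex (ξ * w) := by
  unfold kk
  rw [← integral_complex_ofReal]
  have h1 : ∀ v : ℝ, ((rexp (-(τ * v)) * Kk (T * (w - v)) : ℝ) : ℂ) =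
      ∫ ξ, (rexp (-(τ * v)) : ℂ) * ((gT T ξ : ℂ) * ex (ξ * (w - v))) := by
    intro v
    rw [integral_const_mul, integral_gT_ex hT]
    push_cast
    rfl
  simp_rw [h1]
  rw [integral_integral_swap]
  · congr 1
    ext ξ
    have h2 : ∀ v : ℝ, (rexp (-(τ * v)) : ℂ) * ((gT T ξ : ℂ) * ex (ξ * (w - v))) =
        ((gT T ξ : ℂ) * ex (ξ * w)) * ((rexp (-(τ * v)) : ℂ) * ex (-(ξ * v))) := by
      intro v
      have : ex (ξ * (w - v)) = ex (ξ * w) * ex (-(ξ * v)) := by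
        rw [← ex_add]; congr 1; ring
      rw [this]; ring
    simp_rw [h2]
    rw [integral_const_mul, integral_exp_ex hτ]
    unfold wk
    ring
  · have hdom : Integrable (fun z : ℝ × ℝ => rexp (-(τ * z.1)) * gT T z.2)
        ((volume.restrict (Ioi (0 : ℝ))).prod volume) :=
      Integrable.mul_prod (f := fun w : ℝ => rexp (-(τ * w))) (g := gT T)
        (integrableOn_exp_neg hτ) (integrable_gT hT)
    have hc := continuous_gT T
    refine Integrable.mono' hdom ?_ ?_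
    · apply Continuous.aestronglyMeasurable
      unfold Function.uncurry
      fun_prop
    · filter_upwards with z
      simp only [Function.uncurry, norm_mul, norm_ex, mul_one, Complex.norm_real,
        Real.norm_eq_abs, abs_of_pos (exp_pos _), abs_of_nonneg (gT_nonneg hT _)]
      exact le_refl _

lemma kk_nonneg (τ T w : ℝ) : 0 ≤ kk τ T w :=
  setIntegral_nonneg measurableSet_Ioi fun v _ => mul_nonneg (exp_pos _).le (Kk_nonneg _)

lemma integrableOn_kk {τ : ℝ} (hτ : 0 < τ) (T w : ℝ) :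
    IntegrableOn (fun v => rexp (-(τ * v)) * Kk (T * (w - v))) (Ioi 0) := by
  refine (integrableOn_exp_neg hτ).mul_bdd (c := 2) (by fun_prop) ?_
  filter_upwards with v
  rw [Real.norm_eq_abs, abs_of_nonneg (Kk_nonneg _)]
  exact Kk_le_two _

lemma kk_le {τ : ℝ} (hτ : 0 < τ) (T w : ℝ) : kk τ T w ≤ 2 / τ := by
  unfold kk
  calc _ ≤ ∫ v in Ioi (0 : ℝ), rexp (-(τ * v)) * 2 := by
        apply setIntegral_mono_on (integrableOn_kk hτ T w)
          ((integrableOn_exp_neg hτ).mul_const 2) measurableSet_Ioi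
        intro v _
        exact mul_le_mul_of_nonneg_left (Kk_le_two _) (exp_pos _).le
    _ = _ := by rw [integral_mul_const, integral_exp_neg' hτ]; ring

lemma sq_mul_Kk_le' (T y : ℝ) (hT : 1 ≤ T) : y ^ 2 * Kk (T * y) ≤ 88 := by
  have h1 := Kk_bound (T * y)
  have h0 := Kk_nonneg (T * y)
  have h2 : y ^ 2 ≤ (1 + (T * y) ^ 2) ^ 2 := by
    have h3 : y ^ 2 ≤ (T * y) ^ 2 := by
      rw [mul_pow]
      have : 1 ≤ T ^ 2 := by nlinarith
      nlinarith [sq_nonneg y]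
    nlinarith [sq_nonneg (T * y), sq_nonneg y]
  calc y ^ 2 * Kk (T * y) ≤ (1 + (T * y) ^ 2) ^ 2 * Kk (T * y) :=
        mul_le_mul_of_nonneg_right h2 h0
    _ ≤ 88 := by linarith

lemma sq_mul_kk_le {τ T : ℝ} (hτ : 0 < τ) (hT : 1 ≤ T) (w : ℝ) :
    w ^ 2 * kk τ T w ≤ 64 / τ ^ 3 + 176 / τ := by
  unfold kk
  rw [← integral_const_mul]
  have hdom : IntegrableOn (fun v : ℝ => 32 / τ ^ 2 * rexp (-(τ / 2 * v)) +
      176 * rexp (-(τ * v))) (Ioi 0) :=
    ((integrableOn_exp_neg (by linarith : 0 < τ / 2)).const_mul _).add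
      ((integrableOn_exp_neg hτ).const_mul _)
  have hpt : ∀ v ∈ Ioi (0 : ℝ), w ^ 2 * (rexp (-(τ * v)) * Kk (T * (w - v))) ≤
      32 / τ ^ 2 * rexp (-(τ / 2 * v)) + 176 * rexp (-(τ * v)) := by
    intro v hv
    have hv0 : (0 : ℝ) < v := hv
    have h1 : w ^ 2 ≤ 2 * v ^ 2 + 2 * (w - v) ^ 2 := by nlinarith [sq_nonneg (w - 2 * v)]
    have h2 := sq_mul_Kk_le' T (w - v) hT
    have h3 := Kk_le_two (T * (w - v))
    have h0 := Kk_nonneg (T * (w - v))
    have h4 : w ^ 2 * Kk (T * (w - v)) ≤ 4 * v ^ 2 + 176 := by nlinarith [sq_nonneg v]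
    have h5 : v ^ 2 ≤ 8 / τ ^ 2 * rexp (τ / 2 * v) := by
      have h6 := Real.quadratic_le_exp_of_nonneg (x := τ / 2 * v) (by positivity)
      have h7 : (τ / 2 * v) ^ 2 / 2 ≤ rexp (τ / 2 * v) := by
        have : 0 ≤ τ / 2 * v := by positivity
        linarith
      rw [div_mul_eq_mul_div, le_div_iff₀ (by positivity)]
      nlinarith
    have h8 : rexp (τ / 2 * v) * rexp (-(τ * v)) = rexp (-(τ / 2 * v)) := by
      rw [← exp_add]; congr 1; ring
    calc w ^ 2 * (rexp (-(τ * v)) * Kk (T * (w - v)))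
        = (w ^ 2 * Kk (T * (w - v))) * rexp (-(τ * v)) := by ring
      _ ≤ (4 * v ^ 2 + 176) * rexp (-(τ * v)) := mul_le_mul_of_nonneg_right h4 (exp_pos _).le
      _ ≤ (4 * (8 / τ ^ 2 * rexp (τ / 2 * v)) + 176) * rexp (-(τ * v)) := by
          apply mul_le_mul_of_nonneg_right _ (exp_pos _).le
          linarith
      _ = 32 / τ ^ 2 * (rexp (τ / 2 * v) * rexp (-(τ * v))) + 176 * rexp (-(τ * v)) := by ring
      _ = _ := by rw [h8]
  calc _ ≤ ∫ v in Ioi (0 : ℝ), (32 / τ ^ 2 * rexp (-(τ / 2 * v)) + 176 * rexp (-(τ * v))) :=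
        setIntegral_mono_on ((integrableOn_kk hτ T w).const_mul _) hdom measurableSet_Ioi hpt
    _ = _ := by
        rw [integral_add ((integrableOn_exp_neg (by linarith : 0 < τ / 2)).const_mul _)
          ((integrableOn_exp_neg hτ).const_mul _), integral_const_mul, integral_const_mul,
          integral_exp_neg' (by linarith), integral_exp_neg' hτ]
        field_simp
        ring

/-! ### Expectations of the kernel -/

variable {P : Finset ℕ} {x l : ℕ → ℝ}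

lemma integrable_wk_mul {τ T : ℝ} (hτ : 0 < τ) (hT : 0 < T) {f : ℝ → ℂ} {c : ℝ}
    (hf : Continuous f) (hb : ∀ ξ, ‖f ξ‖ ≤ c) : Integrable fun ξ => wk τ T ξ * f ξ := by
  refine (integrable_wk hτ hT).mul_bdd (c := c) hf.aestronglyMeasurable ?_
  filter_upwards with ξ
  exact hb ξ

lemma Ef_kk {τ T : ℝ} (hτ : 0 < τ) (hT : 0 < T) (z : ℝ) :
    ((Ef P x l (fun s => kk τ T (z - s)) : ℝ) : ℂ) =
      ∫ ξ, wk τ T ξ * (phi P x l ξ * ex (ξ * z)) := by
  unfold Ef
  push_cast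
  have h1 : ∀ A ∈ P.powerset, (Wt x A : ℂ) * (kk τ T (z - Sm l A) : ℂ) =
      ∫ ξ, wk τ T ξ * ((Wt x A : ℂ) * ex (-(ξ * Sm l A)) * ex (ξ * z)) := by
    intro A _
    rw [kk_fourier hτ hT, ← integral_const_mul]
    congr 1
    ext ξ
    have : ex (ξ * (z - Sm l A)) = ex (-(ξ * Sm l A)) * ex (ξ * z) := by
      rw [← ex_add]; congr 1; ring
    rw [this]; ring
  rw [Finset.sum_congr rfl h1, ← integral_finsetSum]
  · rw [← integral_div]
    congr 1
    ext ξ
    rw [← char_sum, ← Finset.mul_sum, ← Finset.sum_mul]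
    ring
  · intro A _
    apply integrable_wk_mul hτ hT (c := |Wt x A|)
    · fun_prop
    · intro ξ
      rw [norm_mul, norm_mul, norm_ex, norm_ex, mul_one, mul_one, Complex.norm_real,
        Real.norm_eq_abs]

lemma Ef_S_kk {τ T : ℝ} (hτ : 0 < τ) (hT : 0 < T) (hx : ∀ p, 0 < x p) (hx1 : ∀ p ∈ P, x p < 1)
    (z : ℝ) :
    ((Ef P x l (fun s => s * kk τ T (z - s)) : ℝ) : ℂ) =
      ∫ ξ, wk τ T ξ * (phi P x l ξ * mm P x l ξ * ex (ξ * z)) := by
  unfold Ef
  push_cast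
  have h1 : ∀ A ∈ P.powerset, (Wt x A : ℂ) * ((Sm l A : ℂ) * (kk τ T (z - Sm l A) : ℂ)) =
      ∫ ξ, wk τ T ξ * ((Wt x A : ℂ) * (Sm l A : ℂ) * ex (-(ξ * Sm l A)) * ex (ξ * z)) := by
    intro A _
    rw [kk_fourier hτ hT, ← integral_const_mul, ← integral_const_mul]
    congr 1
    ext ξ
    have : ex (ξ * (z - Sm l A)) = ex (-(ξ * Sm l A)) * ex (ξ * z) := by
      rw [← ex_add]; congr 1; ring
    rw [this]; ring
  rw [Finset.sum_congr rfl h1, ← integral_finsetSum]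
  · rw [← integral_div]
    congr 1
    ext ξ
    rw [← char_sum_S hx hx1, ← Finset.mul_sum, ← Finset.sum_mul]
    ring
  · intro A _
    apply integrable_wk_mul hτ hT (c := |Wt x A| * |Sm l A|)
    · fun_prop
    · intro ξ
      rw [norm_mul, norm_mul, norm_mul, norm_ex, norm_ex, mul_one, mul_one, Complex.norm_real,
        Real.norm_eq_abs, Complex.norm_real, Real.norm_eq_abs]

end Pool.Agent.MP0016c7.Ros
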