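import Mathlib

open Real Set MeasureTheory Filter Topology

namespace Pool.Agent.MP0016c7.Ros

lemma integrable_comp_abs' {g : ℝ → ℝ} (hg : IntegrableOn g (Ioi 0)) :
    Integrable fun x : ℝ => g |x| := by
  have h1 : IntegrableOn (fun x : ℝ => g |x|) (Ioi 0) := by
    refine hg.congr_fun (fun x hx => ?_) measurableSet_Ioi
    rw [abs_of_pos (show (0 : ℝ) < x from hx)]
  have h2 : IntegrableOn (fun x : ℝ => g |x|) (Iio 0) := by
    have h3 : IntegrableOn (fun x : ℝ => g (-x)) (Iio 0) := by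
      have hg' : IntegrableOn g (Ioi (-0)) := by rwa [neg_zero]
      exact hg'.comp_neg_Iio
    refine h3.congr_fun (fun x hx => ?_) measurableSet_Iio
    simp only
    rw [abs_of_neg (show x < (0 : ℝ) from hx)]
  have h4 : IntegrableOn (fun x : ℝ => g |x|) (Iic 0) := integrableOn_Iic_iff_integrableOn_Iio (by finiteness) |>.mpr h2
  have h5 := h4.union h1
  rwa [Iic_union_Ioi, integrableOn_univ] at h5

/-- Gaussian integral with the constant of the main lobe -/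
lemma int_gauss {V : ℝ} (hV : 0 < V) :
    Integrable (fun ξ : ℝ => rexp (-(2 / π ^ 2 * V * ξ ^ 2))) ∧
    ∫ ξ : ℝ, rexp (-(2 / π ^ 2 * V * ξ ^ 2)) ≤ 4 / √V := by
  have hb : 0 < 2 / π ^ 2 * V := by positivity
  have e : ∀ ξ : ℝ, rexp (-(2 / π ^ 2 * V * ξ ^ 2)) = rexp (-(2 / π ^ 2 * V) * ξ ^ 2) := by
    intro ξ; congr 1; ring
  simp_rw [e]
  refine ⟨integrable_exp_neg_mul_sq hb, ?_⟩
  rw [integral_gaussian]
  have h1 : π / (2 / π ^ 2 * V) ≤ 16 / V := by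
    rw [div_le_div_iff₀ hb hV]
    have h3 : π ^ 3 ≤ 32 := by
      have h4 := pi_lt_d2
      have h5 := pi_pos
      calc π ^ 3 ≤ 3.15 ^ 3 := by gcongr
        _ ≤ 32 := by norm_num
    have h6 : 16 * (2 / π ^ 2 * V) = 32 / π ^ 2 * V := by ring
    rw [h6]
    apply mul_le_mul_of_nonneg_right _ hV.le
    rw [le_div_iff₀ (by positivity)]
    calc π * π ^ 2 = π ^ 3 := by ring
      _ ≤ 32 := h3
  calc √(π / (2 / π ^ 2 * V)) ≤ √(16 / V) := sqrt_le_sqrt h1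
    _ = 4 / √V := by
        rw [sqrt_div (by norm_num)]
        congr 1
        rw [show (16 : ℝ) = 4 ^ 2 by norm_num]
        exact sqrt_sq (by norm_num)

lemma abs_mul_gauss_le {b ξ : ℝ} (hb : 0 < b) :
    |ξ| * rexp (-(b * ξ ^ 2)) ≤ 1 / √b * rexp (-(b / 2) * ξ ^ 2) := by
  have h1 : rexp (-(b * ξ ^ 2)) = rexp (-(b * ξ ^ 2 / 2)) * rexp (-(b / 2) * ξ ^ 2) := by
    rw [← exp_add]; congr 1; ring
  rw [h1, ← mul_assoc]
  apply mul_le_mul_of_nonneg_right _ (exp_pos _).le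
  have hs : 0 < √b := sqrt_pos.mpr hb
  rw [le_div_iff₀ hs]
  set y := √b * |ξ| with hy
  have h2 : b * ξ ^ 2 / 2 = y ^ 2 / 2 := by
    rw [hy, mul_pow, sq_sqrt hb.le, sq_abs]
  rw [h2]
  have h3 : y ≤ rexp (y ^ 2 / 2) := by
    have := add_one_le_exp (y ^ 2 / 2)
    nlinarith only [this, sq_nonneg (y - 1)]
  calc |ξ| * rexp (-(y ^ 2 / 2)) * √b = y * rexp (-(y ^ 2 / 2)) := by rw [hy]; ring
    _ ≤ rexp (y ^ 2 / 2) * rexp (-(y ^ 2 / 2)) := mul_le_mul_of_nonneg_right h3 (exp_pos _).le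
    _ = 1 := by rw [← exp_add]; simp

lemma int_abs_gauss {V : ℝ} (hV : 0 < V) :
    Integrable (fun ξ : ℝ => |ξ| * rexp (-(2 / π ^ 2 * V * ξ ^ 2))) ∧
    ∫ ξ : ℝ, |ξ| * rexp (-(2 / π ^ 2 * V * ξ ^ 2)) ≤ 16 / V := by
  have hb : 0 < 2 / π ^ 2 * V := by positivity
  set b := 2 / π ^ 2 * V with hbdef
  have hdom : Integrable fun ξ : ℝ => 1 / √b * rexp (-(b / 2) * ξ ^ 2) :=
    (integrable_exp_neg_mul_sq (by linarith only [hb] : 0 < b / 2)).const_mul _
  have hint : Integrable fun ξ : ℝ => |ξ| * rexp (-(b * ξ ^ 2)) := by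
    refine Integrable.mono' hdom (by fun_prop) ?_
    filter_upwards with ξ
    rw [Real.norm_eq_abs, abs_of_nonneg (by positivity)]
    exact abs_mul_gauss_le hb
  refine ⟨hint, ?_⟩
  calc ∫ ξ : ℝ, |ξ| * rexp (-(b * ξ ^ 2)) ≤ ∫ ξ : ℝ, 1 / √b * rexp (-(b / 2) * ξ ^ 2) :=
        integral_mono hint hdom fun ξ => abs_mul_gauss_le hb
    _ = 1 / √b * √(π / (b / 2)) := by rw [integral_const_mul, integral_gaussian]
    _ = √(2 * π) / b := by
        have : π / (b / 2) = 2 * π / b := by field_simp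
        rw [this, sqrt_div (by positivity), div_mul_div_comm, one_mul, mul_self_sqrt hb.le]
    _ ≤ 16 / V := by
        have h2 : √(2 * π) ≤ 2.52 := by
          apply sqrt_le_iff.mpr
          constructor
          · norm_num
          · have := pi_lt_d2; norm_num; linarith only [this]
        rw [div_le_div_iff₀ hb hV, hbdef]
        have h3 : (2.52 : ℝ) * V ≤ 16 * (2 / π ^ 2 * V) := by
          have h6 : 16 * (2 / π ^ 2 * V) = 32 / π ^ 2 * V := by ring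
          rw [h6]
          apply mul_le_mul_of_nonneg_right _ hV.le
          rw [le_div_iff₀ (by positivity)]
          have h4 := pi_lt_d2
          have h5 := pi_pos
          have : π ^ 2 ≤ 3.15 ^ 2 := by gcongr
          nlinarith only [this]
        exact (mul_le_mul_of_nonneg_right h2 hV.le).trans h3

/-- the slowly decaying factor, localised -/
noncomputable def rA (Λ T ξ : ℝ) : ℝ := if |ξ| ≤ T then (Λ * |ξ|) ^ (-(1 / 32) : ℝ) else 0

/-- the far factor -/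
noncomputable def rB (Λ ξ : ℝ) : ℝ :=
  if π / Λ < |ξ| then (Λ * |ξ|) ^ (-(1 / 32) : ℝ) / |ξ| else 0

lemma rA_nonneg {Λ T : ℝ} (hΛ : 0 ≤ Λ) (ξ : ℝ) : 0 ≤ rA Λ T ξ := by
  unfold rA; split_ifs <;> positivity

lemma rB_nonneg {Λ : ℝ} (hΛ : 0 ≤ Λ) (ξ : ℝ) : 0 ≤ rB Λ ξ := by
  unfold rB; split_ifs <;> positivity

lemma int_rA {Λ T : ℝ} (hΛ : 0 < Λ) (hT : 0 < T) :
    Integrable (rA Λ T) ∧ ∫ ξ, rA Λ T ξ ≤ 3 * (T + 1) * Λ ^ (-(1 / 32) : ℝ) := by
  set g : ℝ → ℝ := fun x => (Iic T).indicator (fun x => (Λ * x) ^ (-(1 / 32) : ℝ)) x with hg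
  have e1 : rA Λ T = fun ξ => g |ξ| := by
    ext ξ
    unfold rA
    rw [hg]
    by_cases h : |ξ| ≤ T
    · rw [if_pos h]; simp only; rw [indicator_of_mem (show |ξ| ∈ Iic T from h)]
    · rw [if_neg h]; simp only; rw [indicator_of_notMem (show |ξ| ∉ Iic T from h)]
  have hii : IntervalIntegrable (fun x : ℝ => Λ ^ (-(1 / 32) : ℝ) * x ^ (-(1 / 32) : ℝ))
      volume 0 T := by
    apply IntervalIntegrable.const_mul
    exact intervalIntegral.intervalIntegrable_rpow' (by norm_num)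
  have e2 : ∀ x ∈ Ioc (0 : ℝ) T, Λ ^ (-(1 / 32) : ℝ) * x ^ (-(1 / 32) : ℝ) =
      (Λ * x) ^ (-(1 / 32) : ℝ) := fun x hx => (mul_rpow hΛ.le hx.1.le).symm
  have hio : IntegrableOn (fun x : ℝ => (Λ * x) ^ (-(1 / 32) : ℝ)) (Ioc 0 T) := by
    rw [intervalIntegrable_iff_integrableOn_Ioc_of_le hT.le] at hii
    exact hii.congr_fun e2 measurableSet_Ioc
  have hset : Ioi (0 : ℝ) ∩ Iic T = Ioc 0 T := by ext; simp
  have h1 : IntegrableOn g (Ioi 0) := by
    rw [hg]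
    rw [integrableOn_indicator_iff measurableSet_Iic, inter_comm, hset]
    exact hio
  have h2 : ∫ x in Ioi (0 : ℝ), g x = Λ ^ (-(1 / 32) : ℝ) * (T ^ (31 / 32 : ℝ) / (31 / 32)) := by
    rw [hg]
    rw [setIntegral_indicator measurableSet_Iic, hset, ← setIntegral_congr_fun measurableSet_Ioc e2,
      ← intervalIntegral.integral_of_le hT.le, intervalIntegral.integral_const_mul,
      integral_rpow (Or.inl (by norm_num))]
    norm_num
  rw [e1]
  refine ⟨integrable_comp_abs' h1, ?_⟩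
  rw [integral_comp_abs (f := g), h2]
  have h3 : T ^ (31 / 32 : ℝ) ≤ T + 1 := by
    rcases le_total T 1 with h | h
    · have := rpow_le_one hT.le h (by norm_num : (0 : ℝ) ≤ 31 / 32)
      linarith only [hT, this]
    · calc T ^ (31 / 32 : ℝ) ≤ T ^ (1 : ℝ) := rpow_le_rpow_of_exponent_le h (by norm_num)
        _ = T := rpow_one T
        _ ≤ _ := by linarith
  have h4 : 0 < Λ ^ (-(1 / 32) : ℝ) := rpow_pos_of_pos hΛ _
  have h5 : T ^ (31 / 32 : ℝ) / (31 / 32) ≤ 3 / 2 * (T + 1) := by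
    rw [div_le_iff₀ (by norm_num)]
    nlinarith only [hT, h3]
  calc 2 * (Λ ^ (-(1 / 32) : ℝ) * (T ^ (31 / 32 : ℝ) / (31 / 32)))
      ≤ 2 * (Λ ^ (-(1 / 32) : ℝ) * (3 / 2 * (T + 1))) := by gcongr
    _ = _ := by ring

lemma int_rB {Λ : ℝ} (hΛ : 0 < Λ) : Integrable (rB Λ) ∧ ∫ ξ, rB Λ ξ ≤ 64 := by
  set g : ℝ → ℝ := fun x => (Ioi (π / Λ)).indicator
    (fun x => (Λ * x) ^ (-(1 / 32) : ℝ) / x) x with hg
  have e1 : rB Λ = fun ξ => g |ξ| := by
    ext ξ
    unfold rB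
    rw [hg]
    by_cases h : π / Λ < |ξ|
    · rw [if_pos h]; simp only; rw [indicator_of_mem (show |ξ| ∈ Ioi (π / Λ) from h)]
    · rw [if_neg h]; simp only; rw [indicator_of_notMem (show |ξ| ∉ Ioi (π / Λ) from h)]
  have hc : 0 < π / Λ := div_pos pi_pos hΛ
  have e2 : ∀ x ∈ Ioi (π / Λ), Λ ^ (-(1 / 32) : ℝ) * x ^ (-(33 / 32) : ℝ) =
      (Λ * x) ^ (-(1 / 32) : ℝ) / x := by
    intro x hx
    have hx0 : 0 < x := hc.trans hx
    rw [mul_rpow hΛ.le hx0.le, mul_div_assoc]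
    congr 1
    rw [eq_div_iff hx0.ne']
    nth_rewrite 2 [← rpow_one x]
    rw [← rpow_add hx0]
    norm_num
  have hio : IntegrableOn (fun x : ℝ => (Λ * x) ^ (-(1 / 32) : ℝ) / x) (Ioi (π / Λ)) := by
    have : IntegrableOn (fun x : ℝ => Λ ^ (-(1 / 32) : ℝ) * x ^ (-(33 / 32) : ℝ)) (Ioi (π / Λ)) :=
      (integrableOn_Ioi_rpow_of_lt (by norm_num) hc).const_mul (Λ ^ (-(1 / 32) : ℝ))
    exact this.congr_fun e2 measurableSet_Ioi
  have hset : Ioi (0 : ℝ) ∩ Ioi (π / Λ) = Ioi (π / Λ) := by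
    ext x; simp only [mem_inter_iff, mem_Ioi]
    exact ⟨fun h => h.2, fun h => ⟨hc.trans h, h⟩⟩
  have h1 : IntegrableOn g (Ioi 0) := by
    rw [hg]
    rw [integrableOn_indicator_iff measurableSet_Ioi, inter_comm, hset]
    exact hio
  have h2 : ∫ x in Ioi (0 : ℝ), g x = 32 * π ^ (-(1 / 32) : ℝ) := by
    rw [hg]
    rw [setIntegral_indicator measurableSet_Ioi, hset, ← setIntegral_congr_fun measurableSet_Ioi e2,
      integral_const_mul, integral_Ioi_rpow_of_lt (by norm_num) hc]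
    have h3 : (-(33 / 32) + 1 : ℝ) = -(1 / 32) := by norm_num
    rw [h3, div_rpow pi_pos.le hΛ.le]
    have h4 : 0 < Λ ^ (-(1 / 32) : ℝ) := rpow_pos_of_pos hΛ _
    field_simp
  rw [e1]
  refine ⟨integrable_comp_abs' h1, ?_⟩
  rw [integral_comp_abs (f := g), h2]
  have h3 : π ^ (-(1 / 32) : ℝ) ≤ 1 :=
    rpow_le_one_of_one_le_of_nonpos (by linarith only [pi_gt_three]) (by norm_num)
  linarith only [h3]

end Pool.Agent.MP0016c7.Ros
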