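import Mathlib
import Pool.Agent.Lib.MP_0016c7_nt.RosBd

open Real Set MeasureTheory Filter Topology

namespace Pool.Agent.MP0016c7.Ros

variable {P : ℝ → Finset ℕ} {C₀ : ℝ} {C₁ Cs : ℝ → ℝ}

/-- Abel summation with an increasing exponential weight -/
lemma abel_exp (F : Finset ℕ) (c : ℕ → ℂ) (l : ℕ → ℝ) {κ b M : ℝ} (hκ : 0 ≤ κ) (hb : 0 ≤ b)
    (hl : ∀ p ∈ F, 0 ≤ l p ∧ l p ≤ b)
    (hM : ∀ u, 0 ≤ u → u ≤ b → ‖∑ p ∈ F with l p ≤ u, c p‖ ≤ M) :
    ‖∑ p ∈ F, c p * (rexp (κ * l p) : ℂ)‖ ≤ 2 * M * rexp (κ * b) := by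
  have hM0 : 0 ≤ M := (norm_nonneg _).trans (hM 0 le_rfl hb)
  have h1 : ∀ p ∈ F, c p * (rexp (κ * l p) : ℂ) = c p * (rexp (κ * b) : ℂ) -
      ∫ v in (0 : ℝ)..b, (if l p ≤ v then c p else 0) * ((κ * rexp (κ * v) : ℝ) : ℂ) := by
    intro p hp
    obtain ⟨hl0, hl1⟩ := hl p hp
    have h2 : ∫ v in (0 : ℝ)..b, (if l p ≤ v then c p else 0) * ((κ * rexp (κ * v) : ℝ) : ℂ) =
        ∫ v in (l p)..b, c p * ((κ * rexp (κ * v) : ℝ) : ℂ) := by
      rw [intervalIntegral.integral_of_le hb, intervalIntegral.integral_of_le hl1]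
      have e : ∀ v : ℝ, (if l p ≤ v then c p else 0) * ((κ * rexp (κ * v) : ℝ) : ℂ) =
          (Ici (l p)).indicator (fun v => c p * ((κ * rexp (κ * v) : ℝ) : ℂ)) v := by
        intro v
        by_cases hv : l p ≤ v
        · rw [if_pos hv, indicator_of_mem (show v ∈ Ici (l p) from hv)]
        · rw [if_neg hv, indicator_of_notMem (show v ∉ Ici (l p) from hv), zero_mul]
      simp_rw [e]
      rw [setIntegral_indicator measurableSet_Ici]
      apply setIntegral_congr_set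
      have h3 : (Ioc 0 b ∩ Ici (l p) : Set ℝ) =ᵐ[volume] (Ioc 0 b ∩ Ioi (l p) : Set ℝ) :=
        (ae_eq_refl _).inter Ioi_ae_eq_Ici.symm
      refine h3.trans ?_
      have : (Ioc 0 b ∩ Ioi (l p) : Set ℝ) = Ioc (l p) b := by
        ext v
        simp only [mem_inter_iff, mem_Ioc, mem_Ioi]
        constructor
        · rintro ⟨⟨_, h5⟩, h6⟩; exact ⟨h6, h5⟩
        · rintro ⟨h6, h5⟩; exact ⟨⟨lt_of_le_of_lt hl0 h6, h5⟩, h6⟩
      exact Filter.EventuallyEq.of_eq this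
    rw [h2, intervalIntegral.integral_const_mul, intervalIntegral.integral_ofReal]
    have h3 : ∫ v in (l p)..b, κ * rexp (κ * v) = rexp (κ * b) - rexp (κ * l p) := by
      have hd : ∀ v ∈ uIcc (l p) b, HasDerivAt (fun v => rexp (κ * v)) (κ * rexp (κ * v)) v := by
        intro v _
        have := ((hasDerivAt_id' v).const_mul κ).exp
        refine this.congr_deriv ?_
        ring
      rw [intervalIntegral.integral_eq_sub_of_hasDerivAt hd
        (by apply Continuous.intervalIntegrable; fun_prop)]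
    rw [h3]
    push_cast
    ring
  rw [Finset.sum_congr rfl h1, Finset.sum_sub_distrib, ← Finset.sum_mul]
  have hint : ∀ p ∈ F, IntervalIntegrable
      (fun v => (if l p ≤ v then c p else 0) * ((κ * rexp (κ * v) : ℝ) : ℂ)) volume 0 b := by
    intro p _
    have h2 : IntervalIntegrable (fun v : ℝ => c p * ((κ * rexp (κ * v) : ℝ) : ℂ)) volume 0 b := by
      apply Continuous.intervalIntegrable
      fun_prop
    rw [intervalIntegrable_iff] at h2 ⊢
    have e : (fun v : ℝ => (if l p ≤ v then c p else 0) * ((κ * rexp (κ * v) : ℝ) : ℂ)) =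
        (Ici (l p)).indicator (fun v => c p * ((κ * rexp (κ * v) : ℝ) : ℂ)) := by
      ext v
      by_cases hv : l p ≤ v
      · rw [if_pos hv, indicator_of_mem (show v ∈ Ici (l p) from hv)]
      · rw [if_neg hv, indicator_of_notMem (show v ∉ Ici (l p) from hv), zero_mul]
    rw [e]
    exact h2.indicator measurableSet_Ici
  rw [← intervalIntegral.integral_finsetSum hint]
  have h4 : ‖(∑ p ∈ F, c p) * (rexp (κ * b) : ℂ)‖ ≤ M * rexp (κ * b) := by
    rw [norm_mul, Complex.norm_real, Real.norm_eq_abs, abs_of_pos (exp_pos _)]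
    apply mul_le_mul_of_nonneg_right _ (exp_pos _).le
    have := hM b hb le_rfl
    rwa [Finset.filter_true_of_mem (fun p hp => (hl p hp).2)] at this
  have h5 : ‖∫ v in (0 : ℝ)..b, ∑ p ∈ F, (if l p ≤ v then c p else 0) *
      ((κ * rexp (κ * v) : ℝ) : ℂ)‖ ≤ ∫ v in (0 : ℝ)..b, M * (κ * rexp (κ * v)) := by
    apply intervalIntegral.norm_integral_le_of_norm_le hb
    · filter_upwards with v hv
      rw [← Finset.sum_mul, ← Finset.sum_filter, norm_mul, Complex.norm_real, Real.norm_eq_abs,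
        abs_of_nonneg (by positivity)]
      exact mul_le_mul_of_nonneg_right (hM v hv.1.le hv.2) (by positivity)
    · apply Continuous.intervalIntegrable
      fun_prop
  have h6 : ∫ v in (0 : ℝ)..b, M * (κ * rexp (κ * v)) = M * (rexp (κ * b) - 1) := by
    rw [intervalIntegral.integral_const_mul]
    have hd : ∀ v ∈ uIcc 0 b, HasDerivAt (fun v => rexp (κ * v)) (κ * rexp (κ * v)) v := by
      intro v _
      have := ((hasDerivAt_id' v).const_mul κ).exp
      refine this.congr_deriv ?_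
      ring
    rw [intervalIntegral.integral_eq_sub_of_hasDerivAt hd
      (by apply Continuous.intervalIntegrable; fun_prop)]
    simp
  rw [h6] at h5
  refine (norm_sub_le _ _).trans ((add_le_add h4 h5).trans ?_)
  nlinarith only [hM0]

namespace MDat

variable (hM : MDat P C₀ C₁ Cs)
include hM

/-- decay of `m` -/
theorem mf_far {σ σ₂ ξ Λ T : ℝ} (h0 : 0 < σ₂) (h2 : σ₂ ≤ σ) (hσ : σ ≤ 1) (hΛ0 : 0 ≤ Λ)
    (hξ : 0 < |ξ|) (hT : |ξ| ≤ T) :
    ‖mf P σ Λ ξ‖ ≤ (2 * C₁ T + T * (1 - rexp (-(σ₂ * Real.log 2)))⁻¹ * Cs σ₂) *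
      rexp ((1 - σ) * Λ) / |ξ| := by
  set xb := rexp (-(σ₂ * Real.log 2)) with hxb
  have hxb1 : xb < 1 := by
    rw [hxb, exp_lt_one_iff, neg_lt_zero]
    exact mul_pos h0 (Real.log_pos one_lt_two)
  have e1 : mf P σ Λ ξ = ∑ p ∈ P Λ, (((lg p / p : ℝ) : ℂ) * ex (-(ξ * lg p))) *
      (rexp ((1 - σ) * lg p) : ℂ) -
      ∑ p ∈ P Λ, (lg p : ℂ) * (xs σ p * ex (-(ξ * lg p))) ^ 2 /
        (1 + xs σ p * ex (-(ξ * lg p))) := by
    unfold mf mm
    rw [← Finset.sum_sub_distrib]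
    apply Finset.sum_congr rfl
    intro p hp
    have hne := one_add_ne_zero (l := lg) (fun p => xs_pos σ p) ξ p
      (lt_of_le_of_lt (xs_le h2 h0 (hM.prime Λ p hp)) hxb1)
    have e2 : ((lg p / p : ℝ) : ℂ) * ex (-(ξ * lg p)) * (rexp ((1 - σ) * lg p) : ℂ) =
        lg p * (xs σ p * ex (-(ξ * lg p))) := by
      rw [xs_eq σ (hM.prime Λ p hp).pos]
      push_cast
      ring
    rw [e2]
    field_simp
    ring
  have h3 : ‖∑ p ∈ P Λ, (((lg p / p : ℝ) : ℂ) * ex (-(ξ * lg p))) *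
      (rexp ((1 - σ) * lg p) : ℂ)‖ ≤ 2 * (C₁ T / |ξ|) * rexp ((1 - σ) * Λ) := by
    apply abel_exp (P Λ) (fun p => ((lg p / p : ℝ) : ℂ) * ex (-(ξ * lg p))) lg (by linarith) hΛ0
    · intro p hp
      exact ⟨lg_nonneg p, hM.le Λ p hp⟩
    · intro u hu0 hu
      rw [← hM.mem Λ u hu]
      exact hM.t1 T ξ u hξ hT hu0
  have h4 : ‖∑ p ∈ P Λ, (lg p : ℂ) * (xs σ p * ex (-(ξ * lg p))) ^ 2 /
        (1 + xs σ p * ex (-(ξ * lg p)))‖ ≤ rexp ((1 - σ) * Λ) * ((1 - xb)⁻¹ * Cs σ₂) := by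
    refine (norm_sum_le _ _).trans ?_
    have h5 := mul_le_mul_of_nonneg_left (hM.summ σ₂ h0 Λ)
      (by
        have : 0 < 1 - xb := by linarith
        positivity : 0 ≤ rexp ((1 - σ) * Λ) * (1 - xb)⁻¹)
    refine le_trans ?_ (h5.trans (le_of_eq (by ring)))
    rw [Finset.mul_sum]
    apply Finset.sum_le_sum
    intro p hp
    have hp1 := hM.prime Λ p hp
    have hp0 := hM.pos_of_mem hp
    have h6 := norm_one_add_ge (l := lg) (fun p => xs_pos σ p) p ξ (xs_le h2 h0 hp1)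
    have h7 := norm_x_ex (l := lg) (fun p => xs_pos σ p) ξ p
    rw [norm_div, norm_mul, norm_pow, h7, Complex.norm_real, Real.norm_eq_abs,
      abs_of_nonneg (lg_nonneg p), div_eq_mul_inv]
    have h8 : ‖1 + (xs σ p : ℂ) * ex (-(ξ * lg p))‖⁻¹ ≤ (1 - xb)⁻¹ :=
      inv_anti₀ (by linarith) h6
    have h9 : xs σ p ^ 2 ≤ rexp ((1 - σ) * Λ) * (1 / p * rexp (-(σ₂ * lg p))) := by
      rw [sq]
      nth_rewrite 1 [xs_eq σ hp1.pos]
      have h10 : rexp ((1 - σ) * lg p) ≤ rexp ((1 - σ) * Λ) := by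
        rw [exp_le_exp]
        exact mul_le_mul_of_nonneg_left (hM.le Λ p hp) (by linarith)
      have h11 : xs σ p ≤ rexp (-(σ₂ * lg p)) := by
        unfold xs
        rw [exp_le_exp, neg_le_neg_iff]
        exact mul_le_mul_of_nonneg_right h2 (lg_nonneg p)
      calc 1 / p * rexp ((1 - σ) * lg p) * xs σ p ≤ 1 / p * rexp ((1 - σ) * Λ) *
          rexp (-(σ₂ * lg p)) := by
            apply mul_le_mul _ h11 (xs_pos σ p).le (by positivity)
            exact mul_le_mul_of_nonneg_left h10 (by positivity)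
        _ = _ := by ring
    calc lg p * xs σ p ^ 2 * ‖1 + (xs σ p : ℂ) * ex (-(ξ * lg p))‖⁻¹
        ≤ lg p * (rexp ((1 - σ) * Λ) * (1 / p * rexp (-(σ₂ * lg p)))) * (1 - xb)⁻¹ := by
          apply mul_le_mul (mul_le_mul_of_nonneg_left h9 (lg_nonneg p)) h8
            (inv_nonneg.mpr (norm_nonneg _))
          have := lg_nonneg p
          positivity
      _ = _ := by ring
  rw [e1]
  refine (norm_sub_le _ _).trans ((add_le_add h3 h4).trans ?_)
  have hCs : 0 ≤ Cs σ₂ := by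
    refine le_trans ?_ (hM.summ σ₂ h0 0)
    apply Finset.sum_nonneg
    intro p _
    have := lg_nonneg p
    positivity
  have hxb2 : 0 < 1 - xb := by linarith
  rw [le_div_iff₀ hξ]
  have h12 : rexp ((1 - σ) * Λ) * ((1 - xb)⁻¹ * Cs σ₂) * |ξ| ≤
      rexp ((1 - σ) * Λ) * ((1 - xb)⁻¹ * Cs σ₂) * T :=
    mul_le_mul_of_nonneg_left hT (by positivity)
  have h13 : 2 * (C₁ T / |ξ|) * rexp ((1 - σ) * Λ) * |ξ| = 2 * C₁ T * rexp ((1 - σ) * Λ) := by
    field_simp
  rw [add_mul, h13]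
  linarith only [h12]

end MDat

end Pool.Agent.MP0016c7.Ros
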