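import Mathlib
import Pool.Agent.Lib.MP_0016c7_nt.RosMm
import Pool.Agent.Lib.MP_0016c7_nt.RosInt

open Real Set MeasureTheory Filter Topology

namespace Pool.Agent.MP0016c7.Ros

/-- `f` is majorised on `[-T, T]` by an integrable function with integral at most `B`. -/
def Maj (f : ℝ → ℝ) (T B : ℝ) : Prop :=
  ∃ M : ℝ → ℝ, Integrable M ∧ (∀ ξ, 0 ≤ M ξ) ∧ (∀ ξ, |ξ| ≤ T → f ξ ≤ M ξ) ∧ ∫ ξ, M ξ ≤ B

lemma Maj.mono {f : ℝ → ℝ} {T B B' : ℝ} (h : Maj f T B) (hB : B ≤ B') : Maj f T B' := by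
  obtain ⟨M, h1, h2, h3, h4⟩ := h
  exact ⟨M, h1, h2, h3, h4.trans hB⟩

lemma Maj.bound {f : ℝ → ℝ} {T B W : ℝ} (h : Maj f T B) {G : ℝ → ℂ} (hW : 0 ≤ W)
    (hG : ∀ ξ, |ξ| ≤ T → ‖G ξ‖ ≤ W * f ξ) (hG0 : ∀ ξ, T < |ξ| → G ξ = 0) :
    ‖∫ ξ, G ξ‖ ≤ W * B := by
  obtain ⟨M, h1, h2, h3, h4⟩ := h
  refine (norm_integral_le_of_norm_le (h1.const_mul W) ?_).trans ?_
  · filter_upwards with ξ
    rcases le_or_gt |ξ| T with hξ | hξ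
    · exact (hG ξ hξ).trans (mul_le_mul_of_nonneg_left (h3 ξ hξ) hW)
    · rw [hG0 ξ hξ, norm_zero]
      exact mul_nonneg hW (h2 ξ)
  · rw [integral_const_mul]
    exact mul_le_mul_of_nonneg_left h4 hW

/-- super-exponential decay beats exponentials -/
lemma exp_decay {K : ℝ} (hK : 0 < K) : ∃ CE : ℝ, 0 < CE ∧ ∀ b : ℝ, 0 ≤ b →
    rexp b * rexp (-(1 / 32) * rexp (b / (2 * K))) ≤ CE * rexp (-b) := by
  set n := ⌈4 * K⌉₊ with hn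
  refine ⟨n.factorial * 32 ^ n, by positivity, fun b hb => ?_⟩
  have hn4 : 4 * K ≤ n := Nat.le_ceil _
  set y := (1 / 32 : ℝ) * rexp (b / (2 * K)) with hy
  have hy0 : 0 < y := by positivity
  have h1 := Real.pow_div_factorial_le_exp y hy0.le n
  have h2 : (32 : ℝ)⁻¹ ^ n * rexp (2 * b) ≤ y ^ n := by
    rw [hy, mul_pow, ← exp_nat_mul]
    have e1 : (1 / 32 : ℝ) = 32⁻¹ := by norm_num
    rw [e1]
    apply mul_le_mul_of_nonneg_left _ (by positivity)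
    rw [exp_le_exp]
    rw [← mul_div_assoc, le_div_iff₀ (by linarith only [hK])]
    nlinarith only [hb, hn4]
  have hf : (0 : ℝ) < n.factorial := by exact_mod_cast Nat.factorial_pos n
  have h3 : (32 : ℝ)⁻¹ ^ n * rexp (2 * b) / n.factorial ≤ rexp y :=
    (div_le_div_of_nonneg_right h2 hf.le).trans h1
  have h4 : -(1 / 32 : ℝ) * rexp (b / (2 * K)) = -y := by rw [hy]; ring
  rw [h4, exp_neg, inv_pow, div_le_iff₀ hf] at *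
  rw [← div_eq_mul_inv, div_le_iff₀ (exp_pos y)]
  have h5 : rexp (2 * b) ≤ 32 ^ n * (rexp y * n.factorial) := by
    have h6 := mul_le_mul_of_nonneg_left h3 (by positivity : (0 : ℝ) ≤ 32 ^ n)
    rwa [← mul_assoc, mul_inv_cancel₀ (by positivity), one_mul] at h6
  have h7 : rexp b = rexp (2 * b) * rexp (-b) := by rw [← exp_add]; ring_nf
  calc rexp b = rexp (2 * b) * rexp (-b) := h7
    _ ≤ (32 ^ n * (rexp y * n.factorial)) * rexp (-b) :=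
        mul_le_mul_of_nonneg_right h5 (exp_pos _).le
    _ = _ := by ring

variable {P : ℝ → Finset ℕ} {C₀ : ℝ} {C₁ Cs : ℝ → ℝ}

namespace MDat

variable (hM : MDat P C₀ C₁ Cs)
include hM

lemma Cs_nonneg {σ : ℝ} (h0 : 0 < σ) : 0 ≤ Cs σ := by
  refine le_trans ?_ (hM.summ σ h0 0)
  apply Finset.sum_nonneg
  intro p _
  have := lg_nonneg p
  positivity

/-- main lobe bound for `φ` -/
lemma ph_lobe {σ ξ Λ : ℝ} (hΛ : 0 < Λ) (hξ : |ξ| ≤ π / Λ) :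
    ‖ph P σ Λ ξ‖ ≤ rexp (-(2 / π ^ 2 * VV P σ Λ * ξ ^ 2)) := by
  unfold ph VV
  apply norm_phi_gauss (fun p => xs_pos σ p)
  intro p hp
  rw [abs_mul, abs_of_nonneg (lg_nonneg p)]
  rw [le_div_iff₀ hΛ] at hξ
  exact (mul_le_mul_of_nonneg_left (hM.le Λ p hp) (abs_nonneg _)).trans hξ

lemma mf_le {σ σ₂ ξ Λ : ℝ} (h0 : 0 < σ₂) (h2 : σ₂ ≤ σ) :
    ‖mf P σ Λ ξ‖ ≤ 2 * (1 - rexp (-(σ₂ * Real.log 2)))⁻¹ * XX P σ Λ := by
  set xb := rexp (-(σ₂ * Real.log 2)) with hxb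
  have hxb1 : xb < 1 := by
    rw [hxb, exp_lt_one_iff, neg_lt_zero]
    exact mul_pos h0 (Real.log_pos one_lt_two)
  have hxs : ∀ p ∈ P Λ, xs σ p ≤ xb := fun p hp => xs_le h2 h0 (hM.prime Λ p hp)
  have h1 := norm_mm_le (P := P Λ) (l := lg) (fun p => xs_pos σ p) lg_nonneg hxb1 hxs ξ
  have h3 := sum_lx_le (P := P Λ) (l := lg) (fun p => xs_pos σ p) lg_nonneg hxs
  have h4 : 0 < (1 - xb)⁻¹ := inv_pos.mpr (by linarith)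
  have h5 : 0 ≤ XX P σ Λ := by
    unfold XX Xm
    apply Finset.sum_nonneg
    intro p _
    have := lg_nonneg p
    have := xs_pos σ p
    positivity
  unfold mf
  refine h1.trans ?_
  calc (1 - xb)⁻¹ * ∑ p ∈ P Λ, lg p * xs σ p ≤ (1 - xb)⁻¹ * ((1 + xb) * Xm (P Λ) (xs σ) lg) :=
        mul_le_mul_of_nonneg_left h3 h4.le
    _ ≤ (1 - xb)⁻¹ * (2 * XX P σ Λ) := by
        apply mul_le_mul_of_nonneg_left _ h4.le
        exact mul_le_mul_of_nonneg_right (by linarith) h5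
    _ = _ := by ring

end MDat

/-- constant of the far region for `φ` -/
noncomputable def cA (C₀ : ℝ) (C₁ : ℝ → ℝ) (T : ℝ) : ℝ := 2 * (2 * KT C₀ C₁ T) ^ (1 / 32 : ℝ)

/-- constant for `m` -/
noncomputable def cM (C₁ Cs : ℝ → ℝ) (σ₂ T : ℝ) : ℝ :=
  2 * C₁ T + T * (1 - rexp (-(σ₂ * Real.log 2)))⁻¹ * Cs σ₂

/-- constant for `m` on the main lobe -/
noncomputable def cX (σ₂ : ℝ) : ℝ := 2 * (1 - rexp (-(σ₂ * Real.log 2)))⁻¹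

lemma cX_pos {σ₂ : ℝ} (h0 : 0 < σ₂) : 0 < cX σ₂ := by
  have hxb1 : rexp (-(σ₂ * Real.log 2)) < 1 := by
    rw [exp_lt_one_iff, neg_lt_zero]
    exact mul_pos h0 (Real.log_pos one_lt_two)
  unfold cX
  have : 0 < (1 - rexp (-(σ₂ * Real.log 2)))⁻¹ := inv_pos.mpr (by linarith)
  positivity

namespace MDat

variable (hM : MDat P C₀ C₁ Cs)
include hM

lemma cA_pos {T : ℝ} (hT : 0 ≤ T) : 0 < cA C₀ C₁ T := by
  have := hM.KT_ge hT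
  unfold cA
  positivity

lemma cM_nonneg {σ₂ T : ℝ} (h0 : 0 < σ₂) (hT : 0 ≤ T) : 0 ≤ cM C₁ Cs σ₂ T := by
  have h1 := hM.C1 T
  have h2 := hM.Cs_nonneg h0
  have h3 := cX_pos h0
  unfold cX at h3
  unfold cM
  have h4 : 0 < (1 - rexp (-(σ₂ * Real.log 2)))⁻¹ := by linarith
  positivity

/-- pointwise bound of `φ` -/
lemma ph_le {σ Λ T ξ : ℝ} (h0 : 0 ≤ σ) (hσ : σ ≤ 1) (hΛ0 : 0 < Λ)
    (hΛ : 16 * C₀ * KT C₀ C₁ T ≤ Λ) (hT : |ξ| ≤ T) :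
    ‖ph P σ Λ ξ‖ ≤ rexp (-(2 / π ^ 2 * VV P σ Λ * ξ ^ 2)) + cA C₀ C₁ T * rA Λ T ξ := by
  have hT0 : 0 ≤ T := (abs_nonneg ξ).trans hT
  have hA := hM.cA_pos hT0
  have hr := rA_nonneg (T := T) hΛ0.le ξ
  rcases le_or_gt |ξ| (π / Λ) with h | h
  · have := hM.ph_lobe (σ := σ) hΛ0 h
    have := mul_nonneg hA.le hr
    linarith
  · have h1 := hM.ph_far h0 hσ hΛ0 hΛ h.le hT
    have h2 : rexp (-(1 / 32) * rexp ((1 - σ) * Λ / (2 * KT C₀ C₁ T))) ≤ 1 := by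
      rw [exp_le_one_iff]
      have := exp_pos ((1 - σ) * Λ / (2 * KT C₀ C₁ T))
      linarith only [this]
    have h3 : rA Λ T ξ = (Λ * |ξ|) ^ (-(1 / 32) : ℝ) := by
      unfold rA; rw [if_pos hT]
    have h4 := exp_pos (-(2 / π ^ 2 * VV P σ Λ * ξ ^ 2))
    rw [h3]
    rw [h3] at hr
    refine h1.trans ?_
    have h5 : 2 * (2 * KT C₀ C₁ T) ^ (1 / 32 : ℝ) = cA C₀ C₁ T := rfl
    rw [h5]
    have h6 : 0 ≤ cA C₀ C₁ T * (Λ * |ξ|) ^ (-(1 / 32) : ℝ) := mul_nonneg hA.le hr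
    linarith only [mul_le_mul_of_nonneg_right h2 h6, h4]

/-- (A) -/
theorem majA {T : ℝ} (hT : 0 < T) : ∃ C : ℝ, 0 < C ∧ ∃ Λ₀ : ℝ, 1 ≤ Λ₀ ∧ ∀ σ Λ : ℝ, 0 ≤ σ →
    σ ≤ 1 → Λ₀ ≤ Λ → Maj (fun ξ => ‖ph P σ Λ ξ‖) T (C * Λ ^ (-(1 / 32) : ℝ)) := by
  have hA := hM.cA_pos hT.le
  have hK := hM.KT_ge hT.le
  have hC0 := hM.C0
  refine ⟨32 + cA C₀ C₁ T * (3 * (T + 1)), by positivity,
    1 + 16 * C₀ + 16 * C₀ * KT C₀ C₁ T, ?_, fun σ Λ h0 hσ hΛ => ?_⟩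
  · have : 0 ≤ 16 * C₀ * KT C₀ C₁ T := by positivity
    linarith
  have hpos : 0 ≤ 16 * C₀ * KT C₀ C₁ T := by positivity
  have hΛ1 : 1 ≤ Λ := by linarith
  have hΛ0 : 0 < Λ := by linarith
  have hV := hM.VV_pos h0 hσ (by linarith) hΛ0
  obtain ⟨g1, g2⟩ := int_gauss hV
  obtain ⟨r1, r2⟩ := int_rA hΛ0 hT
  refine ⟨fun ξ => rexp (-(2 / π ^ 2 * VV P σ Λ * ξ ^ 2)) + cA C₀ C₁ T * rA Λ T ξ,
    g1.add (r1.const_mul _), fun ξ => ?_, fun ξ hξ => ?_, ?_⟩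
  · have := rA_nonneg (T := T) hΛ0.le ξ
    positivity
  · exact hM.ph_le h0 hσ hΛ0 (by linarith) hξ
  · rw [integral_add g1 (r1.const_mul _), integral_const_mul]
    have h1 : 4 / √(VV P σ Λ) ≤ 32 * Λ ^ (-(1 / 32) : ℝ) := by
      have h2 := hM.VV_ge h0 hσ (by linarith : 16 * C₀ ≤ Λ)
      have h3 : (Λ / 8) ≤ √(VV P σ Λ) := by
        apply le_sqrt_of_sq_le
        refine le_trans ?_ h2
        have : 1 ≤ rexp ((1 - σ) * Λ / 2) := by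
          rw [one_le_exp_iff]
          have := mul_nonneg (by linarith : 0 ≤ 1 - σ) hΛ0.le
          linarith
        linarith only [mul_le_mul_of_nonneg_left this (sq_nonneg Λ)]
      have h4 : 4 / √(VV P σ Λ) ≤ 4 / (Λ / 8) :=
        div_le_div_of_nonneg_left (by norm_num) (by linarith) h3
      have h5 : Λ ^ (-1 : ℝ) ≤ Λ ^ (-(1 / 32) : ℝ) :=
        rpow_le_rpow_of_exponent_le hΛ1 (by norm_num)
      rw [rpow_neg_one] at h5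
      calc 4 / √(VV P σ Λ) ≤ 4 / (Λ / 8) := h4
        _ = 32 * Λ⁻¹ := by field_simp; norm_num
        _ ≤ _ := mul_le_mul_of_nonneg_left h5 (by norm_num)
    have h6 := mul_le_mul_of_nonneg_left r2 hA.le
    calc _ ≤ 32 * Λ ^ (-(1 / 32) : ℝ) + cA C₀ C₁ T * (3 * (T + 1) * Λ ^ (-(1 / 32) : ℝ)) :=
          add_le_add (g2.trans h1) h6
      _ = _ := by ring

/-- pointwise bound of `φ m` -/
lemma phm_le {σ σ₂ Λ T ξ CE : ℝ} (h02 : 0 < σ₂) (h2 : σ₂ ≤ σ) (hσ : σ ≤ 1) (hΛ0 : 0 < Λ)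
    (hΛ : 16 * C₀ * KT C₀ C₁ T ≤ Λ) (hT : |ξ| ≤ T) (hCE0 : 0 < CE)
    (hCE : ∀ b : ℝ, 0 ≤ b → rexp b * rexp (-(1 / 32) * rexp (b / (2 * KT C₀ C₁ T))) ≤
      CE * rexp (-b)) (hξ : π / Λ < |ξ|) :
    ‖ph P σ Λ ξ‖ * ‖mf P σ Λ ξ‖ ≤
      cA C₀ C₁ T * cM C₁ Cs σ₂ T * CE * rexp (-((1 - σ) * Λ)) * rB Λ ξ := by
  have hT0 : 0 ≤ T := (abs_nonneg ξ).trans hT
  have hξ0 : 0 < |ξ| := lt_trans (div_pos pi_pos hΛ0) hξ
  have hA := hM.cA_pos hT0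
  have hm := hM.cM_nonneg h02 hT0
  have h1 := hM.ph_far (by linarith : 0 ≤ σ) hσ hΛ0 hΛ hξ.le hT
  have h3 := hM.mf_far h02 h2 hσ hΛ0.le hξ0 hT
  have h4 := hCE ((1 - σ) * Λ) (mul_nonneg (by linarith only [hσ]) hΛ0.le)
  have h5 : rB Λ ξ = (Λ * |ξ|) ^ (-(1 / 32) : ℝ) / |ξ| := by unfold rB; rw [if_pos hξ]
  have hr : 0 ≤ (Λ * |ξ|) ^ (-(1 / 32) : ℝ) := by positivity
  have e1 : 2 * (2 * KT C₀ C₁ T) ^ (1 / 32 : ℝ) = cA C₀ C₁ T := rfl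
  have e2 : (2 * C₁ T + T * (1 - rexp (-(σ₂ * Real.log 2)))⁻¹ * Cs σ₂) = cM C₁ Cs σ₂ T := rfl
  rw [e1] at h1
  rw [e2] at h3
  rw [h5]
  calc ‖ph P σ Λ ξ‖ * ‖mf P σ Λ ξ‖
      ≤ (cA C₀ C₁ T * (Λ * |ξ|) ^ (-(1 / 32) : ℝ) *
          rexp (-(1 / 32) * rexp ((1 - σ) * Λ / (2 * KT C₀ C₁ T)))) *
        (cM C₁ Cs σ₂ T * rexp ((1 - σ) * Λ) / |ξ|) :=
        mul_le_mul h1 h3 (norm_nonneg _) (by positivity)
    _ = cA C₀ C₁ T * cM C₁ Cs σ₂ T * ((Λ * |ξ|) ^ (-(1 / 32) : ℝ) / |ξ|) *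
        (rexp ((1 - σ) * Λ) * rexp (-(1 / 32) * rexp ((1 - σ) * Λ / (2 * KT C₀ C₁ T)))) := by ring
    _ ≤ cA C₀ C₁ T * cM C₁ Cs σ₂ T * ((Λ * |ξ|) ^ (-(1 / 32) : ℝ) / |ξ|) *
        (CE * rexp (-((1 - σ) * Λ))) := mul_le_mul_of_nonneg_left h4 (by positivity)
    _ = _ := by ring

lemma phm_lobe {σ σ₂ Λ ξ : ℝ} (h02 : 0 < σ₂) (h2 : σ₂ ≤ σ) (hΛ0 : 0 < Λ)
    (hξ : |ξ| ≤ π / Λ) :
    ‖ph P σ Λ ξ‖ * ‖mf P σ Λ ξ‖ ≤
      cX σ₂ * XX P σ Λ * rexp (-(2 / π ^ 2 * VV P σ Λ * ξ ^ 2)) := by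
  have h1 := hM.ph_lobe (σ := σ) hΛ0 hξ
  have h3 := hM.mf_le (ξ := ξ) (Λ := Λ) h02 h2
  calc ‖ph P σ Λ ξ‖ * ‖mf P σ Λ ξ‖ ≤ rexp (-(2 / π ^ 2 * VV P σ Λ * ξ ^ 2)) *
      (2 * (1 - rexp (-(σ₂ * Real.log 2)))⁻¹ * XX P σ Λ) :=
        mul_le_mul h1 h3 (norm_nonneg _) (exp_pos _).le
    _ = _ := by unfold cX; ring

/-- (B) -/
theorem majB {T σ₂ : ℝ} (hT : 0 < T) (h02 : 0 < σ₂) : ∃ C : ℝ, 0 < C ∧ ∃ Λ₀ : ℝ, 1 ≤ Λ₀ ∧
    ∀ σ Λ : ℝ, σ₂ ≤ σ → σ ≤ 1 → Λ₀ ≤ Λ →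
    Maj (fun ξ => ‖ph P σ Λ ξ‖ * ‖mf P σ Λ ξ‖) T (C * (1 + XX P σ Λ / √(VV P σ Λ))) := by
  have hA := hM.cA_pos hT.le
  have hm := hM.cM_nonneg h02 hT.le
  have hK := hM.KT_ge hT.le
  have hC0 := hM.C0
  have hX := cX_pos h02
  obtain ⟨CE, hCE0, hCE⟩ := exp_decay (by linarith : 0 < KT C₀ C₁ T)
  set D := cA C₀ C₁ T * cM C₁ Cs σ₂ T * CE with hD
  have hD0 : 0 ≤ D := by positivity
  refine ⟨4 * cX σ₂ + 64 * D, by positivity, 1 + 16 * C₀ + 16 * C₀ * KT C₀ C₁ T, ?_,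
    fun σ Λ h2 hσ hΛ => ?_⟩
  · have : 0 ≤ 16 * C₀ * KT C₀ C₁ T := by positivity
    linarith
  have hpos : 0 ≤ 16 * C₀ * KT C₀ C₁ T := by positivity
  have hΛ1 : 1 ≤ Λ := by linarith
  have hΛ0 : 0 < Λ := by linarith
  have h0 : 0 ≤ σ := by linarith
  have hV := hM.VV_pos h0 hσ (by linarith) hΛ0
  have hXX := hM.XX_pos h0 hσ (by linarith) hΛ0
  obtain ⟨g1, g2⟩ := int_gauss hV
  obtain ⟨r1, r2⟩ := int_rB hΛ0
  refine ⟨fun ξ => cX σ₂ * XX P σ Λ * rexp (-(2 / π ^ 2 * VV P σ Λ * ξ ^ 2)) + D * rB Λ ξ,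
    (g1.const_mul _).add (r1.const_mul _), fun ξ => ?_, fun ξ hξ => ?_, ?_⟩
  · have := rB_nonneg hΛ0.le ξ
    positivity
  · have hr := rB_nonneg hΛ0.le ξ
    rcases le_or_gt |ξ| (π / Λ) with h | h
    · have h1 := hM.phm_lobe (ξ := ξ) h02 h2 hΛ0 h
      have h3 : 0 ≤ D * rB Λ ξ := mul_nonneg hD0 hr
      simp only
      linarith
    · have h1 := hM.phm_le (ξ := ξ) h02 h2 hσ hΛ0 (by linarith) hξ hCE0 hCE h
      have h3 : 0 ≤ cX σ₂ * XX P σ Λ * rexp (-(2 / π ^ 2 * VV P σ Λ * ξ ^ 2)) := by positivity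
      have h4 : rexp (-((1 - σ) * Λ)) ≤ 1 := by
        rw [exp_le_one_iff, neg_nonpos]
        exact mul_nonneg (by linarith) hΛ0.le
      have h5 : D * rexp (-((1 - σ) * Λ)) * rB Λ ξ ≤ D * 1 * rB Λ ξ := by (clear * - h4 hA hm hCE0 hr; gcongr)
      simp only
      rw [← hD] at h1
      linarith
  · rw [integral_add (g1.const_mul _) (r1.const_mul _), integral_const_mul, integral_const_mul]
    have hsq : 0 < √(VV P σ Λ) := sqrt_pos.mpr hV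
    have e : cX σ₂ * XX P σ Λ * (4 / √(VV P σ Λ)) = 4 * cX σ₂ * (XX P σ Λ / √(VV P σ Λ)) := by
      ring
    have h1 := mul_le_mul_of_nonneg_left g2 (by positivity : 0 ≤ cX σ₂ * XX P σ Λ)
    have h3 := mul_le_mul_of_nonneg_left r2 hD0
    have h4 : 0 ≤ XX P σ Λ / √(VV P σ Λ) := by positivity
    rw [e] at h1
    calc _ ≤ 4 * cX σ₂ * (XX P σ Λ / √(VV P σ Λ)) + D * 64 := add_le_add h1 h3
      _ ≤ _ := by linarith only [hX, hD0, h4, mul_nonneg hD0 h4]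

/-- (C) -/
theorem majC {T σ₂ : ℝ} (hT : 0 < T) (h02 : 0 < σ₂) : ∃ C : ℝ, 0 < C ∧ ∃ Λ₀ : ℝ, 1 ≤ Λ₀ ∧
    ∀ σ Λ : ℝ, σ₂ ≤ σ → σ ≤ 1 → Λ₀ ≤ Λ →
    Maj (fun ξ => ‖ph P σ Λ ξ‖ * ‖mf P σ Λ ξ‖ * |ξ|) T
      (C * Λ ^ (-(1 / 32) : ℝ) * (1 + XX P σ Λ / √(VV P σ Λ))) := by
  have hA := hM.cA_pos hT.le
  have hm := hM.cM_nonneg h02 hT.le
  have hK := hM.KT_ge hT.le
  have hC0 := hM.C0
  have hX := cX_pos h02
  obtain ⟨CE, hCE0, hCE⟩ := exp_decay (by linarith : 0 < KT C₀ C₁ T)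
  set D := cA C₀ C₁ T * cM C₁ Cs σ₂ T * CE with hD
  have hD0 : 0 ≤ D := by positivity
  refine ⟨128 * cX σ₂ + D * (3 * (T + 1)), by positivity,
    1 + 16 * C₀ + 16 * C₀ * KT C₀ C₁ T, ?_, fun σ Λ h2 hσ hΛ => ?_⟩
  · have : 0 ≤ 16 * C₀ * KT C₀ C₁ T := by positivity
    linarith
  have hpos : 0 ≤ 16 * C₀ * KT C₀ C₁ T := by positivity
  have hΛ1 : 1 ≤ Λ := by linarith
  have hΛ0 : 0 < Λ := by linarith
  have h0 : 0 ≤ σ := by linarith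
  have hV := hM.VV_pos h0 hσ (by linarith) hΛ0
  have hXX := hM.XX_pos h0 hσ (by linarith) hΛ0
  obtain ⟨g1, g2⟩ := int_abs_gauss hV
  obtain ⟨r1, r2⟩ := int_rA hΛ0 hT
  refine ⟨fun ξ => cX σ₂ * XX P σ Λ * (|ξ| * rexp (-(2 / π ^ 2 * VV P σ Λ * ξ ^ 2))) +
    D * rA Λ T ξ, (g1.const_mul _).add (r1.const_mul _), fun ξ => ?_, fun ξ hξ => ?_, ?_⟩
  · have := rA_nonneg (T := T) hΛ0.le ξ
    (clear * - hX hXX hA hm hCE0 this; positivity)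
  · have hr := rA_nonneg (T := T) hΛ0.le ξ
    rcases le_or_gt |ξ| (π / Λ) with h | h
    · have h1 := hM.phm_lobe (ξ := ξ) h02 h2 hΛ0 h
      have h3 : 0 ≤ D * rA Λ T ξ := mul_nonneg hD0 hr
      have h4 := mul_le_mul_of_nonneg_right h1 (abs_nonneg ξ)
      simp only
      linarith only [h3, h4]
    · have h1 := hM.phm_le (ξ := ξ) h02 h2 hσ hΛ0 (by linarith) hξ hCE0 hCE h
      have h3 : 0 ≤ cX σ₂ * XX P σ Λ * (|ξ| * rexp (-(2 / π ^ 2 * VV P σ Λ * ξ ^ 2))) := by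
        positivity
      have h4 : rexp (-((1 - σ) * Λ)) ≤ 1 := by
        rw [exp_le_one_iff, neg_nonpos]
        exact mul_nonneg (by linarith) hΛ0.le
      have hξ0 : 0 < |ξ| := lt_trans (div_pos pi_pos hΛ0) h
      have h6 : rB Λ ξ * |ξ| = rA Λ T ξ := by
        unfold rB rA
        rw [if_pos h, if_pos hξ, div_mul_cancel₀ _ hξ0.ne']
      have h5 : D * rexp (-((1 - σ) * Λ)) * rB Λ ξ * |ξ| ≤ D * 1 * (rB Λ ξ * |ξ|) := by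
        have hr2 := rB_nonneg hΛ0.le ξ
        calc D * rexp (-((1 - σ) * Λ)) * rB Λ ξ * |ξ| =
            D * rexp (-((1 - σ) * Λ)) * (rB Λ ξ * |ξ|) := by ring
          _ ≤ _ := by (clear * - h4 hA hm hCE0 hr2 hξ0; gcongr)
      rw [← hD] at h1
      have h7 := mul_le_mul_of_nonneg_right h1 (abs_nonneg ξ)
      rw [h6] at h5
      simp only
      linarith only [h3, h5, h7]
  · rw [integral_add (g1.const_mul _) (r1.const_mul _), integral_const_mul, integral_const_mul]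
    have hsq : 0 < √(VV P σ Λ) := sqrt_pos.mpr hV
    have hL : 0 < Λ ^ (-(1 / 32) : ℝ) := rpow_pos_of_pos hΛ0 _
    have h4 : 0 ≤ XX P σ Λ / √(VV P σ Λ) := by positivity
    have h5 : Λ ^ (-1 : ℝ) ≤ Λ ^ (-(1 / 32) : ℝ) :=
      rpow_le_rpow_of_exponent_le hΛ1 (by norm_num)
    rw [rpow_neg_one] at h5
    have h6 : Λ / 8 ≤ √(VV P σ Λ) := by
      apply le_sqrt_of_sq_le
      refine le_trans ?_ (hM.VV_ge h0 hσ (by linarith only [hΛ, hpos] : 16 * C₀ ≤ Λ))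
      have : 1 ≤ rexp ((1 - σ) * Λ / 2) := by
        rw [one_le_exp_iff]
        have := mul_nonneg (by linarith : 0 ≤ 1 - σ) hΛ0.le
        linarith
      linarith only [mul_le_mul_of_nonneg_left this (sq_nonneg Λ)]
    have h7 : 1 / √(VV P σ Λ) ≤ 8 * Λ ^ (-(1 / 32) : ℝ) := by
      calc 1 / √(VV P σ Λ) ≤ 1 / (Λ / 8) := one_div_le_one_div_of_le (by linarith only [hC0, hΛ, hpos]) h6
        _ = 8 * Λ⁻¹ := by field_simp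
        _ ≤ _ := mul_le_mul_of_nonneg_left h5 (by norm_num)
    have e : cX σ₂ * XX P σ Λ * (16 / VV P σ Λ) =
        16 * cX σ₂ * (XX P σ Λ / √(VV P σ Λ)) * (1 / √(VV P σ Λ)) := by
      have : VV P σ Λ = √(VV P σ Λ) * √(VV P σ Λ) := (mul_self_sqrt hV.le).symm
      nth_rewrite 1 [this]
      field_simp
    have h1 := mul_le_mul_of_nonneg_left g2 (by positivity : 0 ≤ cX σ₂ * XX P σ Λ)
    rw [e] at h1
    have h8 : 16 * cX σ₂ * (XX P σ Λ / √(VV P σ Λ)) * (1 / √(VV P σ Λ)) ≤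
        16 * cX σ₂ * (XX P σ Λ / √(VV P σ Λ)) * (8 * Λ ^ (-(1 / 32) : ℝ)) := by gcongr
    have h3 := mul_le_mul_of_nonneg_left r2 hD0
    calc _ ≤ 16 * cX σ₂ * (XX P σ Λ / √(VV P σ Λ)) * (8 * Λ ^ (-(1 / 32) : ℝ)) +
          D * (3 * (T + 1) * Λ ^ (-(1 / 32) : ℝ)) := add_le_add (h1.trans h8) h3
      _ = (128 * cX σ₂ * (XX P σ Λ / √(VV P σ Λ)) + D * (3 * (T + 1))) *
          Λ ^ (-(1 / 32) : ℝ) := by ring
      _ ≤ ((128 * cX σ₂ + D * (3 * (T + 1))) * (1 + XX P σ Λ / √(VV P σ Λ))) *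
          Λ ^ (-(1 / 32) : ℝ) := by
          apply mul_le_mul_of_nonneg_right _ hL.le
          have h9 : 0 ≤ D * (3 * (T + 1)) := by positivity
          linarith only [hX, h9, h4, mul_nonneg h9 h4]
      _ = _ := by ring

end MDat

end Pool.Agent.MP0016c7.Ros
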