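import Mathlib
import Pool.Agent.Lib.MP_0016c7_nt.RosJ
import Pool.Agent.Lib.MP_0016c7_nt.RosMaj

open Real Set MeasureTheory Filter Topology

namespace Pool.Agent.MP0016c7.Ros

/-- smoothed density -/
noncomputable def JJ (P : ℝ → Finset ℕ) (τ T σ Λ z : ℝ) : ℝ :=
  Ef (P Λ) (xs σ) lg (fun s => kk τ T (z - s))

variable {P : ℝ → Finset ℕ} {C₀ : ℝ} {C₁ Cs : ℝ → ℝ}

lemma JJ_nonneg (P : ℝ → Finset ℕ) (τ T σ Λ z : ℝ) : 0 ≤ JJ P τ T σ Λ z :=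
  Ef_nonneg (fun p => xs_pos σ p) fun s => kk_nonneg _ _ _

/-- second moment constant -/
noncomputable def cw (τ : ℝ) : ℝ := 64 / τ ^ 3 + 176 / τ

lemma cw_pos {τ : ℝ} (hτ : 0 < τ) : 0 < cw τ := by unfold cw; positivity

lemma cw_anti {τ₀ τ : ℝ} (h0 : 0 < τ₀) (h : τ₀ ≤ τ) : cw τ ≤ cw τ₀ := by
  unfold cw
  apply add_le_add
  · apply div_le_div_of_nonneg_left (by norm_num) (by positivity)
    exact pow_le_pow_left₀ h0.le h 3
  · exact div_le_div_of_nonneg_left (by norm_num) h0 h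

/-- the linear moment -/
lemma abs_Ef_lin_le {τ T : ℝ} (hτ : 0 < τ) (hT : 1 ≤ T) (σ Λ z : ℝ) :
    |Ef (P Λ) (xs σ) lg (fun s => (z - s) * kk τ T (z - s))| ≤
      √(JJ P τ T σ Λ z * cw τ) := by
  have hx : ∀ p, 0 < xs σ p := fun p => xs_pos σ p
  apply Real.abs_le_sqrt
  have h := Ef_sq_le (P := P Λ) (l := lg) hx (fun s => √(kk τ T (z - s)))
    (fun s => (z - s) * √(kk τ T (z - s)))
  have e1 : (fun s => √(kk τ T (z - s)) * ((z - s) * √(kk τ T (z - s)))) =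
      fun s => (z - s) * kk τ T (z - s) := by
    ext s
    have := mul_self_sqrt (kk_nonneg τ T (z - s))
    linear_combination (z - s) * this
  have e2 : (fun s => √(kk τ T (z - s)) ^ 2) = fun s => kk τ T (z - s) := by
    ext s; exact sq_sqrt (kk_nonneg _ _ _)
  rw [e1, e2] at h
  refine h.trans ?_
  apply mul_le_mul_of_nonneg_left _ (JJ_nonneg P τ T σ Λ z)
  calc Ef (P Λ) (xs σ) lg (fun s => ((z - s) * √(kk τ T (z - s))) ^ 2)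
      ≤ Ef (P Λ) (xs σ) lg (fun _ => cw τ) := by
        apply Ef_mono hx
        intro s
        rw [mul_pow, sq_sqrt (kk_nonneg _ _ _)]
        exact sq_mul_kk_le hτ hT _
    _ = cw τ := Ef_const hx _

lemma JJ_split {τ T σ Λ z : ℝ} :
    z * JJ P τ T σ Λ z = Ef (P Λ) (xs σ) lg (fun s => s * kk τ T (z - s)) +
      Ef (P Λ) (xs σ) lg (fun s => (z - s) * kk τ T (z - s)) := by
  unfold JJ
  rw [← Ef_const_mul, ← Ef_add]
  congr 1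
  ext s
  ring

lemma JR_arith {q u r k a C C' S D1 D2 B : ℝ} (hq : 0 ≤ q) (hu : 0 ≤ u) (hr : 0 ≤ r)
    (hk : 0 ≤ k) (hC : 0 ≤ C) (hC' : 0 ≤ C') (ha : 0 ≤ a)
    (hS : |S| ≤ a * u * (C * q * (1 + r))) (h1 : |D1| ≤ k * q) (h2 : |D2| ≤ k * q)
    (hB : |B| ≤ u * (C' * q)) :
    |S + D1 - D2 - B| ≤ (a * C + C' + 2 * k) * q * (1 + u) * (1 + r) := by
  have h9 : |S + D1 - D2 - B| ≤ |S| + |D1| + |D2| + |B| := by
    calc |S + D1 - D2 - B| ≤ |S + D1 - D2| + |B| := abs_sub _ _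
      _ ≤ |S + D1| + |D2| + |B| := by gcongr; exact abs_sub _ _
      _ ≤ _ := by gcongr; exact abs_add_le _ _
  have e1 : q * (1 + u) * (1 + r) = q + q * u + q * r + q * u * r := by ring
  have n1 : 0 ≤ q * u := mul_nonneg hq hu
  have n2 : 0 ≤ q * r := mul_nonneg hq hr
  have n3 : 0 ≤ q * u * r := mul_nonneg n1 hr
  have t1 : q ≤ q * (1 + u) * (1 + r) := by rw [e1]; linarith
  have t2 : u * (C' * q) ≤ C' * (q * (1 + u) * (1 + r)) := by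
    calc u * (C' * q) = C' * (q * u) := by ring
      _ ≤ _ := mul_le_mul_of_nonneg_left (by rw [e1]; linarith) hC'
  have t3 : a * u * (C * q * (1 + r)) ≤ a * C * (q * (1 + u) * (1 + r)) := by
    calc a * u * (C * q * (1 + r)) = a * C * (q * u + q * u * r) := by ring
      _ ≤ _ := mul_le_mul_of_nonneg_left (by rw [e1]; linarith) (mul_nonneg ha hC)
  have t4 := mul_le_mul_of_nonneg_left t1 hk
  calc _ ≤ a * C * (q * (1 + u) * (1 + r)) + k * (q * (1 + u) * (1 + r)) +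
      k * (q * (1 + u) * (1 + r)) + C' * (q * (1 + u) * (1 + r)) := by linarith
    _ = _ := by ring

namespace MDat

variable (hM : MDat P C₀ C₁ Cs)
include hM

lemma xs_lt_one {σ Λ : ℝ} (hσ : 0 < σ) : ∀ p ∈ P Λ, xs σ p < 1 := by
  intro p hp
  have h1 := xs_le (le_refl σ) hσ (hM.prime Λ p hp)
  refine lt_of_le_of_lt h1 ?_
  rw [exp_lt_one_iff, neg_lt_zero]
  exact mul_pos hσ (Real.log_pos one_lt_two)

/-- uniform smallness of the density -/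
theorem JA {T : ℝ} (hT : 1 ≤ T) {τ₀ : ℝ} (hτ₀ : 0 < τ₀) : ∃ C : ℝ, 0 < C ∧ ∃ Λ₀ : ℝ, 1 ≤ Λ₀ ∧
    ∀ σ Λ τ z : ℝ, 0 ≤ σ → σ ≤ 1 → Λ₀ ≤ Λ → τ₀ ≤ τ →
    JJ P τ T σ Λ z ≤ C * Λ ^ (-(1 / 32) : ℝ) := by
  have hT0 : 0 < T := by linarith
  obtain ⟨C, hC, Λ₀, hΛ₀, h⟩ := hM.majA (T := 2 * T) (by linarith)
  refine ⟨2 / τ₀ * C, by positivity, Λ₀, hΛ₀, fun σ Λ τ z h0 hσ hΛ hτ => ?_⟩
  have hτ0 : 0 < τ := by linarith
  have hm := h σ Λ h0 hσ hΛ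
  have e := Ef_kk (P := P Λ) (x := xs σ) (l := lg) hτ0 hT0 z
  have hb := hm.bound (W := 2 / τ₀) (by positivity)
    (G := fun ξ => wk τ T ξ * (phi (P Λ) (xs σ) lg ξ * ex (ξ * z)))
    (fun ξ _ => by
      rw [norm_mul, norm_mul, norm_ex, mul_one]
      apply mul_le_mul_of_nonneg_right _ (norm_nonneg _)
      exact (norm_wk_le hτ0 hT ξ).trans (div_le_div_of_nonneg_left (by norm_num) hτ₀ hτ))
    (fun ξ hξ => by rw [wk_eq_zero hT0 hξ, zero_mul])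
  rw [← e, Complex.norm_real, Real.norm_eq_abs] at hb
  calc JJ P τ T σ Λ z ≤ |JJ P τ T σ Λ z| := le_abs_self _
    _ ≤ _ := hb
    _ = _ := by ring

/-- upper bound for the density -/
theorem JU {T : ℝ} (hT : 1 ≤ T) {τ₀ σ₂ : ℝ} (hτ₀ : 0 < τ₀) (hσ₂ : 0 < σ₂) :
    ∃ C : ℝ, 0 < C ∧ ∃ Λ₀ : ℝ, 1 ≤ Λ₀ ∧
    ∀ σ Λ τ z : ℝ, σ₂ ≤ σ → σ ≤ 1 → Λ₀ ≤ Λ → τ₀ ≤ τ →
    |z| * JJ P τ T σ Λ z ≤ C * (1 + XX P σ Λ / √(VV P σ Λ)) := by
  have hT0 : 0 < T := by linarith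
  have hC0 := hM.C0
  obtain ⟨C, hC, Λ₀, hΛ₀, h⟩ := hM.majB (T := 2 * T) (σ₂ := σ₂) (by linarith) hσ₂
  refine ⟨2 / τ₀ * C + √(2 / τ₀ * cw τ₀), by positivity, Λ₀ + 16 * C₀, by linarith,
    fun σ Λ τ z h2 hσ hΛ hτ => ?_⟩
  have hτ0 : 0 < τ := by linarith
  have hs0 : 0 < σ := by linarith
  have hm := h σ Λ h2 hσ (by linarith)
  have e := Ef_S_kk (P := P Λ) (x := xs σ) (l := lg) hτ0 hT0 (fun p => xs_pos σ p)
    (hM.xs_lt_one hs0) z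
  have hb := hm.bound (W := 2 / τ₀) (by positivity)
    (G := fun ξ => wk τ T ξ * (phi (P Λ) (xs σ) lg ξ * mm (P Λ) (xs σ) lg ξ * ex (ξ * z)))
    (fun ξ _ => by
      rw [norm_mul, norm_mul, norm_ex, mul_one, norm_mul]
      apply mul_le_mul_of_nonneg_right _ (by positivity)
      exact (norm_wk_le hτ0 hT ξ).trans (div_le_div_of_nonneg_left (by norm_num) hτ₀ hτ))
    (fun ξ hξ => by rw [wk_eq_zero hT0 hξ, zero_mul])
  rw [← e, Complex.norm_real, Real.norm_eq_abs] at hb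
  have hlin := abs_Ef_lin_le (P := P) hτ0 hT σ Λ z
  have hJ0 := JJ_nonneg P τ T σ Λ z
  have hJ2 : JJ P τ T σ Λ z ≤ 2 / τ₀ := by
    unfold JJ
    calc _ ≤ Ef (P Λ) (xs σ) lg (fun _ => 2 / τ₀) := by
          apply Ef_mono (fun p => xs_pos σ p)
          intro s
          exact (kk_le hτ0 T _).trans (div_le_div_of_nonneg_left (by norm_num) hτ₀ hτ)
      _ = _ := Ef_const (fun p => xs_pos σ p) _
  have hlin2 : √(JJ P τ T σ Λ z * cw τ) ≤ √(2 / τ₀ * cw τ₀) := by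
    apply sqrt_le_sqrt
    exact mul_le_mul hJ2 (cw_anti hτ₀ hτ) (cw_pos hτ0).le (by positivity)
  have hr : 0 ≤ XX P σ Λ / √(VV P σ Λ) := by
    have := hM.XX_pos (σ := σ) (Λ := Λ) hs0.le hσ (by linarith) (by linarith)
    positivity
  have h3 : |z| * JJ P τ T σ Λ z = |z * JJ P τ T σ Λ z| := by
    rw [abs_mul, abs_of_nonneg hJ0]
  rw [h3, JJ_split]
  refine (abs_add_le _ _).trans ?_
  have h4 : 0 ≤ √(2 / τ₀ * cw τ₀) := sqrt_nonneg _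
  calc _ ≤ 2 / τ₀ * (C * (1 + XX P σ Λ / √(VV P σ Λ))) + √(2 / τ₀ * cw τ₀) :=
        add_le_add hb (hlin.trans hlin2)
    _ ≤ _ := by nlinarith [mul_nonneg h4 hr]

/-- regularity of the density -/
theorem JR {T : ℝ} (hT : 1 ≤ T) {τ₀ σ₂ : ℝ} (hτ₀ : 0 < τ₀) (hσ₂ : 0 < σ₂) :
    ∃ C : ℝ, 0 < C ∧ ∃ Λ₀ : ℝ, 1 ≤ Λ₀ ∧
    ∀ σ Λ τ z u : ℝ, σ₂ ≤ σ → σ ≤ 1 → Λ₀ ≤ Λ → τ₀ ≤ τ →
    |z| * |JJ P τ T σ Λ z - JJ P τ T σ Λ (z - u)| ≤
      C * Λ ^ (-(1 / 64) : ℝ) * (1 + |u|) * (1 + XX P σ Λ / √(VV P σ Λ)) := by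
  have hT0 : 0 < T := by linarith
  have hC0 := hM.C0
  obtain ⟨C, hC, Λ₀, hΛ₀, h⟩ := hM.majC (T := 2 * T) (σ₂ := σ₂) (by linarith) hσ₂
  obtain ⟨C', hC', Λ₀', hΛ₀', hA⟩ := hM.JA hT hτ₀
  refine ⟨2 / τ₀ * C + C' + 2 * √(C' * cw τ₀), by positivity, Λ₀ + Λ₀' + 16 * C₀, by linarith,
    fun σ Λ τ z u h2 hσ hΛ hτ => ?_⟩
  have hτ0 : 0 < τ := by linarith
  have hs0 : 0 < σ := by linarith
  have hΛ1 : 1 ≤ Λ := by linarith
  have hm := h σ Λ h2 hσ (by linarith)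
  have hcw := cw_pos hτ0
  have e1 := Ef_S_kk (P := P Λ) (x := xs σ) (l := lg) hτ0 hT0 (fun p => xs_pos σ p)
    (hM.xs_lt_one hs0) z
  have e2 := Ef_S_kk (P := P Λ) (x := xs σ) (l := lg) hτ0 hT0 (fun p => xs_pos σ p)
    (hM.xs_lt_one hs0) (z - u)
  set J1 := JJ P τ T σ Λ z with hJ1
  set J2 := JJ P τ T σ Λ (z - u) with hJ2
  set S1 := Ef (P Λ) (xs σ) lg (fun s => s * kk τ T (z - s)) with hS1
  set S2 := Ef (P Λ) (xs σ) lg (fun s => s * kk τ T (z - u - s)) with hS2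
  have hpn : ∀ ξ : ℝ, ‖phi (P Λ) (xs σ) lg ξ‖ ≤ 1 := norm_phi_le_one (fun p => xs_pos σ p)
  have hcphi : Continuous (phi (P Λ) (xs σ) lg) := by
    unfold phi
    fun_prop
  have hcmm : Continuous (mm (P Λ) (xs σ) lg) := by
    unfold mm
    apply continuous_finsetSum
    intro p hp
    apply Continuous.div (by fun_prop) (by fun_prop)
    intro ξ
    exact one_add_ne_zero (fun p => xs_pos σ p) ξ p (hM.xs_lt_one hs0 p hp)
  have hmmb : ∀ ξ : ℝ, ‖mm (P Λ) (xs σ) lg ξ‖ ≤ cX σ₂ * XX P σ Λ := by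
    intro ξ
    have := hM.mf_le (ξ := ξ) (Λ := Λ) hσ₂ h2
    unfold cX
    exact this
  have hi : ∀ y : ℝ, Integrable fun ξ =>
      wk τ T ξ * (phi (P Λ) (xs σ) lg ξ * mm (P Λ) (xs σ) lg ξ * ex (ξ * y)) := by
    intro y
    apply integrable_wk_mul hτ0 hT0 (c := cX σ₂ * XX P σ Λ)
    · fun_prop
    · intro ξ
      rw [norm_mul, norm_ex, mul_one, norm_mul]
      calc _ ≤ 1 * (cX σ₂ * XX P σ Λ) :=
            mul_le_mul (hpn ξ) (hmmb ξ) (norm_nonneg _) zero_le_one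
        _ = _ := one_mul _
  have hd : ((S1 - S2 : ℝ) : ℂ) = ∫ ξ, wk τ T ξ *
      (phi (P Λ) (xs σ) lg ξ * mm (P Λ) (xs σ) lg ξ * ex (ξ * z)) * (1 - ex (-(ξ * u))) := by
    rw [Complex.ofReal_sub, e1, e2, ← integral_sub (hi z) (hi (z - u))]
    congr 1
    ext ξ
    have : ex (ξ * (z - u)) = ex (ξ * z) * ex (-(ξ * u)) := by
      rw [← ex_add]; congr 1; ring
    rw [this]; ring
  have hb := hm.bound (W := 2 / τ₀ * |u|) (by positivity)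
    (G := fun ξ => wk τ T ξ *
      (phi (P Λ) (xs σ) lg ξ * mm (P Λ) (xs σ) lg ξ * ex (ξ * z)) * (1 - ex (-(ξ * u))))
    (fun ξ _ => by
      rw [norm_mul, norm_mul, norm_mul, norm_ex, mul_one, norm_mul]
      have h5 : ‖1 - ex (-(ξ * u))‖ ≤ |ξ| * |u| := by
        refine (norm_one_sub_ex_le _).trans (le_of_eq ?_)
        rw [abs_neg, abs_mul]
      have h6 : ‖wk τ T ξ‖ ≤ 2 / τ₀ :=
        (norm_wk_le hτ0 hT ξ).trans (div_le_div_of_nonneg_left (by norm_num) hτ₀ hτ)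
      calc ‖wk τ T ξ‖ * (‖phi (P Λ) (xs σ) lg ξ‖ * ‖mm (P Λ) (xs σ) lg ξ‖) * ‖1 - ex (-(ξ * u))‖
          ≤ 2 / τ₀ * (‖phi (P Λ) (xs σ) lg ξ‖ * ‖mm (P Λ) (xs σ) lg ξ‖) * (|ξ| * |u|) := by
            apply mul_le_mul _ h5 (norm_nonneg _) (by positivity)
            exact mul_le_mul_of_nonneg_right h6 (by positivity)
        _ = 2 / τ₀ * |u| * (‖ph P σ Λ ξ‖ * ‖mf P σ Λ ξ‖ * |ξ|) := by unfold ph mf; ring)
    (fun ξ hξ => by rw [wk_eq_zero hT0 hξ, zero_mul, zero_mul])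
  rw [← hd, Complex.norm_real, Real.norm_eq_abs] at hb
  have hl1 := abs_Ef_lin_le (P := P) hτ0 hT σ Λ z
  have hl2 := abs_Ef_lin_le (P := P) hτ0 hT σ Λ (z - u)
  have s1 := JJ_split (P := P) (τ := τ) (T := T) (σ := σ) (Λ := Λ) (z := z)
  have s2 := JJ_split (P := P) (τ := τ) (T := T) (σ := σ) (Λ := Λ) (z := z - u)
  rw [← hJ1, ← hS1] at s1
  rw [← hJ2, ← hS2] at s2
  rw [← hJ1] at hl1
  rw [← hJ2] at hl2
  set D1 := Ef (P Λ) (xs σ) lg (fun s => (z - s) * kk τ T (z - s)) with hD1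
  set D2 := Ef (P Λ) (xs σ) lg (fun s => (z - u - s) * kk τ T (z - u - s)) with hD2
  have hA1 := hA σ Λ τ z hs0.le hσ (by linarith) hτ
  have hA2 := hA σ Λ τ (z - u) hs0.le hσ (by linarith) hτ
  rw [← hJ1] at hA1
  rw [← hJ2] at hA2
  have hJ2n : 0 ≤ J2 := JJ_nonneg P τ T σ Λ (z - u)
  have key : z * (J1 - J2) = (S1 - S2) + D1 - D2 - u * J2 := by linear_combination s1 - s2
  have hL32 : 0 < Λ ^ (-(1 / 32) : ℝ) := rpow_pos_of_pos (by linarith) _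
  have hL64 : 0 < Λ ^ (-(1 / 64) : ℝ) := rpow_pos_of_pos (by linarith) _
  have hLL : Λ ^ (-(1 / 32) : ℝ) ≤ Λ ^ (-(1 / 64) : ℝ) :=
    rpow_le_rpow_of_exponent_le hΛ1 (by norm_num)
  have hsq : ∀ J : ℝ, 0 ≤ J → J ≤ C' * Λ ^ (-(1 / 32) : ℝ) →
      √(J * cw τ) ≤ √(C' * cw τ₀) * Λ ^ (-(1 / 64) : ℝ) := by
    intro J _ hJ
    have e5 : √(C' * cw τ₀) * Λ ^ (-(1 / 64) : ℝ) =
        √((C' * cw τ₀) * Λ ^ (-(1 / 32) : ℝ)) := by
      have e6 : Λ ^ (-(1 / 32) : ℝ) = (Λ ^ (-(1 / 64) : ℝ)) ^ 2 := by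
        rw [← rpow_natCast, ← rpow_mul (by linarith)]
        norm_num
      have hcc : 0 ≤ C' * cw τ₀ := by have := cw_pos hτ₀; positivity
      rw [e6, sqrt_mul hcc, sqrt_sq hL64.le]
    rw [e5]
    apply sqrt_le_sqrt
    calc J * cw τ ≤ (C' * Λ ^ (-(1 / 32) : ℝ)) * cw τ₀ :=
          mul_le_mul hJ (cw_anti hτ₀ hτ) hcw.le (by positivity)
      _ = _ := by ring
  have hd1 := hl1.trans (hsq J1 (JJ_nonneg P τ T σ Λ z) hA1)
  have hd2 := hl2.trans (hsq J2 hJ2n hA2)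
  have hr : 0 ≤ XX P σ Λ / √(VV P σ Λ) := by
    have := hM.XX_pos (σ := σ) (Λ := Λ) hs0.le hσ (by linarith) (by linarith)
    positivity
  rw [← abs_mul, key]
  have h7 : |u * J2| ≤ |u| * (C' * Λ ^ (-(1 / 64) : ℝ)) := by
    rw [abs_mul, abs_of_nonneg hJ2n]
    apply mul_le_mul_of_nonneg_left _ (abs_nonneg u)
    exact hA2.trans (mul_le_mul_of_nonneg_left hLL hC'.le)
  have h8 : |S1 - S2| ≤
      2 / τ₀ * |u| * (C * Λ ^ (-(1 / 64) : ℝ) * (1 + XX P σ Λ / √(VV P σ Λ))) := by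
    refine hb.trans ?_
    apply mul_le_mul_of_nonneg_left _ (by positivity)
    apply mul_le_mul_of_nonneg_right _ (by linarith)
    exact mul_le_mul_of_nonneg_left hLL hC.le
  exact JR_arith hL64.le (abs_nonneg u) hr (sqrt_nonneg _) hC.le hC'.le (by positivity) h8 hd1 hd2 h7

end MDat

end Pool.Agent.MP0016c7.Ros
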