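import Mathlib
import Pool.Agent.Lib.MP_0016c7_nt.RosJ2
import Pool.Agent.Lib.MP_0016c7_nt.RosLow

open Real Set MeasureTheory Filter Topology

namespace Pool.Agent.MP0016c7.Ros

variable {P : ℝ → Finset ℕ} {C₀ : ℝ} {C₁ Cs : ℝ → ℝ}

lemma integrable_KT {T : ℝ} (hT : 0 < T) : Integrable fun t => Kk (T * t) :=
  integrable_Kk.comp_mul_left' hT.ne'

lemma integral_KT {T : ℝ} (hT : 0 < T) : ∫ t, Kk (T * t) = cK / T := by
  have h := Measure.integral_comp_mul_left Kk T
  rw [h, abs_of_pos (by positivity), smul_eq_mul]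
  unfold cK
  field_simp

/-- tail mass -/
lemma tail_KT {T r : ℝ} (hT : 0 < T) (hr : 0 ≤ r) :
    ∫ t in (Icc (-r) r)ᶜ, Kk (T * t) ≤ mK / (1 + (T * r) ^ 2) / T := by
  set s : Set ℝ := (Icc (-(T * r)) (T * r))ᶜ with hs
  have hsm : MeasurableSet s := measurableSet_Icc.compl
  have h1 : ∫ t in (Icc (-r) r)ᶜ, Kk (T * t) = ∫ t, s.indicator Kk (T * t) := by
    rw [← integral_indicator measurableSet_Icc.compl]
    congr 1
    ext t
    have hiff : t ∈ (Icc (-r) r)ᶜ ↔ T * t ∈ s := by
      rw [hs, mem_compl_iff, mem_compl_iff, not_iff_not, mem_Icc, mem_Icc]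
      constructor
      · rintro ⟨h1, h2⟩
        constructor <;> nlinarith
      · rintro ⟨h1, h2⟩
        constructor
        · by_contra h; rw [not_le] at h
          have := mul_lt_mul_of_pos_left h hT
          linarith
        · by_contra h; rw [not_le] at h
          have := mul_lt_mul_of_pos_left h hT
          linarith
    by_cases h : t ∈ (Icc (-r) r)ᶜ
    · rw [indicator_of_mem h, indicator_of_mem (hiff.mp h)]
    · rw [indicator_of_notMem h, indicator_of_notMem (fun h' => h (hiff.mpr h'))]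
  rw [h1, Measure.integral_comp_mul_left (fun y => s.indicator Kk y) T,
    abs_of_pos (by positivity), smul_eq_mul, integral_indicator hsm]
  have h2 := tail_le (r := T * r) hsm (fun w hw => by
    rw [hs, mem_compl_iff, mem_Icc, not_and_or, not_le, not_le] at hw
    have hTr : 0 ≤ T * r := by positivity
    rcases hw with h | h <;> nlinarith)
  rw [inv_mul_eq_div]
  exact div_le_div_of_nonneg_right h2 hT.le

lemma measurable_al (P : ℝ → Finset ℕ) (τ σ Λ : ℝ) : Measurable (al P τ σ Λ) := by
  unfold al Ef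
  apply Measurable.div_const
  apply Finset.measurable_sum
  intro A _
  apply Measurable.const_mul
  exact (measurable_kt τ).comp (by fun_prop)

lemma kk_eq_conv {τ T : ℝ} (w : ℝ) : kk τ T w = ∫ t, kt τ (w - t) * Kk (T * t) := by
  have h1 : ∫ t, kt τ (w - t) * Kk (T * t) = ∫ v, kt τ v * Kk (T * (w - v)) := by
    rw [← integral_sub_left_eq_self (fun v => kt τ v * Kk (T * (w - v))) volume w]
    congr 1
    ext t
    congr 2
    ring
  rw [h1]
  unfold kk
  rw [← integral_indicator measurableSet_Ioi]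
  apply integral_congr_ae
  have hne : ∀ᵐ v : ℝ, v ≠ 0 := by
    have : ({0} : Set ℝ)ᶜ ∈ ae volume := by
      rw [mem_ae_iff, compl_compl]; exact measure_singleton 0
    filter_upwards [this] with v hv
    exact hv
  filter_upwards [hne] with v hv
  unfold kt
  by_cases h : 0 < v
  · rw [indicator_of_mem (show v ∈ Ioi (0 : ℝ) from h), if_pos h.le]
  · have h' : ¬ (0 ≤ v) := fun h'' => h (lt_of_le_of_ne h'' (Ne.symm hv))
    rw [indicator_of_notMem (show v ∉ Ioi (0 : ℝ) from h), if_neg h', zero_mul]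

lemma integrable_al_KT (P : ℝ → Finset ℕ) {τ T : ℝ} (hτ : 0 ≤ τ) (hT : 0 < T) (σ Λ z : ℝ) :
    Integrable fun t => al P τ σ Λ (z - t) * Kk (T * t) := by
  have h := (integrable_KT hT).bdd_mul (c := 1) (f := fun t => al P τ σ Λ (z - t))
    (((measurable_al P τ σ Λ).comp (by fun_prop)).aestronglyMeasurable) (by
      filter_upwards with t
      rw [Real.norm_eq_abs, abs_of_nonneg (al_nonneg P τ σ Λ _)]
      exact al_le_one P hτ σ Λ _)
  exact h

lemma JJ_eq_conv (P : ℝ → Finset ℕ) {τ T : ℝ} (hτ : 0 ≤ τ) (hT : 0 < T) (σ Λ z : ℝ) :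
    JJ P τ T σ Λ z = ∫ t, al P τ σ Λ (z - t) * Kk (T * t) := by
  unfold JJ al Ef
  simp_rw [kk_eq_conv, div_mul_eq_mul_div, Finset.sum_mul]
  rw [integral_div, integral_finsetSum]
  · congr 1
    apply Finset.sum_congr rfl
    intro A _
    rw [← integral_const_mul]
    congr 1
    ext t
    have : z - Sm lg A - t = z - t - Sm lg A := by ring
    rw [this]
    ring
  · intro A _
    have h := (integrable_KT hT).bdd_mul (c := 1) (f := fun t => kt τ (z - t - Sm lg A))
      (((measurable_kt τ).comp (by fun_prop)).aestronglyMeasurable) (by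
        filter_upwards with t
        rw [Real.norm_eq_abs, abs_of_nonneg (kt_nonneg _ _)]
        exact kt_le_one hτ _)
    refine (h.const_mul (Wt (xs σ) A)).congr ?_
    filter_upwards with t
    ring

/-- upper comparison -/
lemma al_le_JJ (P : ℝ → Finset ℕ) {τ T δ : ℝ} (hτ : 0 ≤ τ) (hτ1 : τ ≤ 1) (hT : 0 < T)
    (hδ : 0 ≤ δ) (σ Λ y : ℝ) :
    rexp (-(2 * δ)) * al P τ σ Λ y * ∫ t in Icc (-δ) δ, Kk (T * t) ≤ JJ P τ T σ Λ (y + δ) := by
  rw [JJ_eq_conv P hτ hT, ← integral_const_mul]
  have hi := integrable_al_KT P hτ hT σ Λ (y + δ)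
  calc ∫ t in Icc (-δ) δ, rexp (-(2 * δ)) * al P τ σ Λ y * Kk (T * t)
      ≤ ∫ t in Icc (-δ) δ, al P τ σ Λ (y + δ - t) * Kk (T * t) := by
        apply setIntegral_mono_on ((integrable_KT hT).const_mul _).integrableOn
          hi.integrableOn measurableSet_Icc
        intro t ht
        apply mul_le_mul_of_nonneg_right _ (Kk_nonneg _)
        have h1 := al_shift P τ σ Λ y (h := δ - t) (by linarith [ht.2])
        have e : y + (δ - t) = y + δ - t := by ring
        rw [e] at h1
        refine le_trans ?_ h1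
        apply mul_le_mul_of_nonneg_right _ (al_nonneg P τ σ Λ y)
        rw [exp_le_exp, neg_le_neg_iff]
        have h3 : 0 ≤ δ - t := by linarith [ht.2]
        have h4 : δ - t ≤ 2 * δ := by linarith [ht.1]
        nlinarith
    _ ≤ _ := by
        apply setIntegral_le_integral hi
        filter_upwards with t
        exact mul_nonneg (al_nonneg _ _ _ _ _) (Kk_nonneg _)

/-- lower comparison -/
lemma JJ_le_al (P : ℝ → Finset ℕ) {τ T δ : ℝ} (hτ : 0 ≤ τ) (hτ1 : τ ≤ 1) (hT : 0 < T)
    (hδ : 0 ≤ δ) (σ Λ y : ℝ) :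
    JJ P τ T σ Λ (y - δ) ≤ rexp (2 * δ) * al P τ σ Λ y * (cK / T) +
      ∫ t in (Icc (-δ) δ)ᶜ, al P τ σ Λ (y - δ - t) * Kk (T * t) := by
  have hi := integrable_al_KT P hτ hT σ Λ (y - δ)
  rw [JJ_eq_conv P hτ hT, ← integral_add_compl measurableSet_Icc hi]
  apply add_le_add _ le_rfl
  rw [← integral_KT hT, ← integral_const_mul]
  calc ∫ t in Icc (-δ) δ, al P τ σ Λ (y - δ - t) * Kk (T * t)
      ≤ ∫ t in Icc (-δ) δ, rexp (2 * δ) * al P τ σ Λ y * Kk (T * t) := by
        apply setIntegral_mono_on hi.integrableOn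
          ((integrable_KT hT).const_mul _).integrableOn measurableSet_Icc
        intro t ht
        apply mul_le_mul_of_nonneg_right _ (Kk_nonneg _)
        have h1 := al_shift P τ σ Λ (y - δ - t) (h := δ + t) (by linarith [ht.1])
        have e : y - δ - t + (δ + t) = y := by ring
        rw [e] at h1
        have h3 : 0 ≤ δ + t := by linarith [ht.1]
        have h4 : δ + t ≤ 2 * δ := by linarith [ht.2]
        have h5 : rexp (-(2 * δ)) ≤ rexp (-(τ * (δ + t))) := by
          rw [exp_le_exp, neg_le_neg_iff]; nlinarith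
        have h6 := mul_le_mul_of_nonneg_right h5 (al_nonneg P τ σ Λ (y - δ - t))
        have h7 : rexp (2 * δ) * (rexp (-(2 * δ)) * al P τ σ Λ (y - δ - t)) ≤
            rexp (2 * δ) * al P τ σ Λ y :=
          mul_le_mul_of_nonneg_left (h6.trans h1) (exp_pos _).le
        rwa [← mul_assoc, ← exp_add, add_neg_cancel, exp_zero, one_mul] at h7
    _ ≤ _ := by
        apply setIntegral_le_integral ((integrable_KT hT).const_mul _)
        filter_upwards with t
        have := al_nonneg P τ σ Λ y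
        have := Kk_nonneg (T * t)
        positivity

/-- tail estimate -/
lemma tail_al (P : ℝ → Finset ℕ) {τ T δ z D : ℝ} (hτ : 0 ≤ τ) (hT : 0 < T)
    (hδ : 0 ≤ δ) (hz : 0 < z) {σ Λ : ℝ} (hD : ∀ y, 0 < y → al P τ σ Λ y ≤ D / y) (hD0 : 0 ≤ D) :
    ∫ t in (Icc (-δ) δ)ᶜ, al P τ σ Λ (z - t) * Kk (T * t) ≤
      2 * D / z * (mK / (1 + (T * δ) ^ 2) / T) + mK / (1 + (T * (z / 2)) ^ 2) / T := by
  have hi := integrable_al_KT P hτ hT σ Λ z
  have hK := integrable_KT hT
  have hpt : ∀ t : ℝ, al P τ σ Λ (z - t) * Kk (T * t) ≤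
      2 * D / z * Kk (T * t) + (Icc (-(z / 2)) (z / 2))ᶜ.indicator (fun t => Kk (T * t)) t := by
    intro t
    have hk := Kk_nonneg (T * t)
    by_cases h : t ∈ Icc (-(z / 2)) (z / 2)
    · rw [indicator_of_notMem (by rw [mem_compl_iff, not_not]; exact h), add_zero]
      apply mul_le_mul_of_nonneg_right _ hk
      have h1 : z / 2 ≤ z - t := by linarith [h.2]
      refine (hD (z - t) (by linarith)).trans ?_
      calc D / (z - t) ≤ D / (z / 2) := div_le_div_of_nonneg_left hD0 (by linarith) h1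
        _ = _ := by field_simp
    · rw [indicator_of_mem (by rw [mem_compl_iff]; exact h)]
      have h1 := al_le_one P hτ σ Λ (z - t)
      have h2 : 0 ≤ 2 * D / z * Kk (T * t) := by positivity
      nlinarith
  have hind : Integrable ((Icc (-(z / 2)) (z / 2))ᶜ.indicator fun t => Kk (T * t)) :=
    hK.indicator measurableSet_Icc.compl
  calc ∫ t in (Icc (-δ) δ)ᶜ, al P τ σ Λ (z - t) * Kk (T * t)
      ≤ ∫ t in (Icc (-δ) δ)ᶜ, (2 * D / z * Kk (T * t) +
        (Icc (-(z / 2)) (z / 2))ᶜ.indicator (fun t => Kk (T * t)) t) := by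
        apply setIntegral_mono_on hi.integrableOn
          ((hK.const_mul _).add hind).integrableOn measurableSet_Icc.compl
        intro t _
        exact hpt t
    _ = 2 * D / z * (∫ t in (Icc (-δ) δ)ᶜ, Kk (T * t)) +
        ∫ t in (Icc (-δ) δ)ᶜ, (Icc (-(z / 2)) (z / 2))ᶜ.indicator (fun t => Kk (T * t)) t := by
        rw [integral_add (hK.const_mul _).integrableOn hind.integrableOn, integral_const_mul]
    _ ≤ _ := by
        apply add_le_add
        · exact mul_le_mul_of_nonneg_left (tail_KT hT hδ) (by positivity)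
        · calc ∫ t in (Icc (-δ) δ)ᶜ, (Icc (-(z / 2)) (z / 2))ᶜ.indicator (fun t => Kk (T * t)) t
              ≤ ∫ t, (Icc (-(z / 2)) (z / 2))ᶜ.indicator (fun t => Kk (T * t)) t := by
                apply setIntegral_le_integral hind
                filter_upwards with t
                exact indicator_nonneg (fun t _ => Kk_nonneg _) t
            _ = ∫ t in (Icc (-(z / 2)) (z / 2))ᶜ, Kk (T * t) :=
                integral_indicator measurableSet_Icc.compl
            _ ≤ _ := tail_KT hT (by linarith)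

lemma mass_ge {T r : ℝ} (hT : 0 < T) (hr : 0 ≤ r) :
    (cK - mK / (1 + (T * r) ^ 2)) / T ≤ ∫ t in Icc (-r) r, Kk (T * t) := by
  have h1 := integral_add_compl (measurableSet_Icc (a := -r) (b := r)) (integrable_KT hT)
  rw [integral_KT hT] at h1
  have h2 := tail_KT hT hr
  rw [sub_div]
  linarith

lemma mass_ge_two {T : ℝ} (hT : 0 < T) : 2 / T ≤ ∫ t in Icc (-(1 / T)) (1 / T), Kk (T * t) := by
  calc 2 / T = ∫ _t in Icc (-(1 / T)) (1 / T), (1 : ℝ) := by
        rw [setIntegral_const, Measure.real, Real.volume_Icc, ENNReal.toReal_ofReal (by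
          have : 0 < 1 / T := by positivity
          linarith)]
        simp only [smul_eq_mul]
        ring
    _ ≤ _ := by
        apply setIntegral_mono_on (by simp) (integrable_KT hT).integrableOn measurableSet_Icc
        intro t ht
        apply Kk_ge_one
        rw [abs_mul, abs_of_pos hT]
        have h1 : |t| ≤ 1 / T := abs_le.mpr ⟨ht.1, ht.2⟩
        calc T * |t| ≤ T * (1 / T) := mul_le_mul_of_nonneg_left h1 hT.le
          _ = 1 := by field_simp

end Pool.Agent.MP0016c7.Ros
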