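import Mathlib
import Pool.Agent.Lib.MP_0016c7_nt.RosJ2

open Real Set MeasureTheory Filter Topology

namespace Pool.Agent.MP0016c7.Ros

lemma psi0_eq_min (a : ℝ) : psi0 a = 1 - min |a| 1 ^ 2 := by
  rcases le_total |a| 1 with h | h
  · rw [psi0_eq h, min_eq_left h, sq_abs]
  · rw [psi0_eq_zero h, min_eq_right h]; norm_num

lemma psi0_lip (a b : ℝ) : |psi0 a - psi0 b| ≤ 2 * |a - b| := by
  rw [psi0_eq_min, psi0_eq_min]
  have h1 : |min |a| 1 - min |b| 1| ≤ |a - b| := by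
    have h2 := abs_min_sub_min_le_max |a| 1 |b| 1
    rw [sub_self, abs_zero, max_eq_left (abs_nonneg _)] at h2
    exact h2.trans (abs_abs_sub_abs_le a b)
  have h3 : 0 ≤ min |a| 1 := le_min (abs_nonneg _) zero_le_one
  have h4 : 0 ≤ min |b| 1 := le_min (abs_nonneg _) zero_le_one
  have h5 : min |a| 1 ≤ 1 := min_le_right _ _
  have h6 : min |b| 1 ≤ 1 := min_le_right _ _
  have e : 1 - min |a| 1 ^ 2 - (1 - min |b| 1 ^ 2) =
      -((min |a| 1 - min |b| 1) * (min |a| 1 + min |b| 1)) := by ring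
  rw [e, abs_neg, abs_mul, abs_of_nonneg (by linarith : 0 ≤ min |a| 1 + min |b| 1)]
  have h7 := abs_nonneg (min |a| 1 - min |b| 1)
  nlinarith only [h1, h5, h7, h6]

lemma gk_lip (x : ℝ) : |gk x - gk 0| ≤ 3 * |x| := by
  unfold gk
  rw [← integral_sub (integrable_psi_mul x) (integrable_psi_mul 0)]
  have h1 : ∀ a : ℝ, ‖psi0 a * psi0 (x - a) - psi0 a * psi0 (0 - a)‖ ≤ 2 * |x| * psi0 a := by
    intro a
    rw [← mul_sub, Real.norm_eq_abs, abs_mul, abs_of_nonneg (psi0_nonneg a)]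
    have h2 := psi0_lip (x - a) (0 - a)
    have e : x - a - (0 - a) = x := by ring
    rw [e] at h2
    calc psi0 a * |psi0 (x - a) - psi0 (0 - a)| ≤ psi0 a * (2 * |x|) :=
          mul_le_mul_of_nonneg_left h2 (psi0_nonneg a)
      _ = _ := by ring
  have h3 := norm_integral_le_of_norm_le (integrable_psi0.const_mul (2 * |x|))
    (Filter.Eventually.of_forall h1)
  rw [integral_const_mul, integral_psi0, Real.norm_eq_abs] at h3
  refine h3.trans ?_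
  have := abs_nonneg x
  linarith only [this]

lemma wk_lip {τ : ℝ} (hτ : 0 < τ) (ξ : ℝ) :
    ‖wk τ 1 ξ - ((gk 0 / τ : ℝ) : ℂ)‖ ≤ (3 / τ + 2 / τ ^ 2) * |ξ| := by
  have h1 := gk_lip ξ
  have h2 := norm_inv_le hτ ξ
  have hne : (τ : ℂ) + ξ * Complex.I ≠ 0 := by
    intro h0
    have := congrArg Complex.re h0
    simp at this
    linarith
  have hτc : (τ : ℂ) ≠ 0 := by exact_mod_cast hτ.ne'
  have e : wk τ 1 ξ - ((gk 0 / τ : ℝ) : ℂ) =
      ((gk ξ - gk 0 : ℝ) : ℂ) * (1 / ((τ : ℂ) + ξ * Complex.I)) -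
      ((gk 0 / τ : ℝ) : ℂ) * (((ξ : ℝ) : ℂ) * Complex.I) * (1 / ((τ : ℂ) + ξ * Complex.I)) := by
    unfold wk gT
    rw [div_one, div_one]
    push_cast
    field_simp
    ring
  rw [e]
  refine (norm_sub_le _ _).trans ?_
  rw [norm_mul, norm_mul, norm_mul, norm_mul, Complex.norm_I, mul_one, Complex.norm_real,
    Complex.norm_real, Complex.norm_real, Real.norm_eq_abs, Real.norm_eq_abs, Real.norm_eq_abs]
  have h3 : |gk 0 / τ| ≤ 2 / τ := by
    rw [abs_div, abs_of_nonneg (gk_nonneg 0), abs_of_pos hτ]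
    exact div_le_div_of_nonneg_right (by have := gk_le 0; linarith) hτ.le
  have h4 := abs_nonneg ξ
  calc |gk ξ - gk 0| * ‖1 / ((τ : ℂ) + ξ * Complex.I)‖ +
        |gk 0 / τ| * |ξ| * ‖1 / ((τ : ℂ) + ξ * Complex.I)‖
      ≤ 3 * |ξ| * (1 / τ) + 2 / τ * |ξ| * (1 / τ) := by
        apply add_le_add
        · exact mul_le_mul h1 h2 (norm_nonneg _) (by positivity)
        · apply mul_le_mul _ h2 (norm_nonneg _) (by positivity)
          exact mul_le_mul_of_nonneg_right h3 h4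
    _ = _ := by ring

variable {P : ℝ → Finset ℕ} {C₀ : ℝ} {C₁ Cs : ℝ → ℝ}

/-- real main term integral -/
lemma main_term_ge {V R h₀ : ℝ} (hV : 0 < V) (hR : 1 ≤ R) (hh : 0 ≤ h₀) :
    Integrable (fun ξ : ℝ => if |ξ| ≤ R / √V then h₀ * rexp (-(V * ξ ^ 2 / 2)) else 0) ∧
    h₀ / √V ≤ ∫ ξ : ℝ, (if |ξ| ≤ R / √V then h₀ * rexp (-(V * ξ ^ 2 / 2)) else 0) := by
  have hs : 0 < √V := sqrt_pos.mpr hV
  set r := R / √V with hr
  have hr0 : 0 < r := by positivity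
  have hset : ∀ ξ : ℝ, |ξ| ≤ r ↔ ξ ∈ Icc (-r) r := fun ξ => by rw [abs_le, mem_Icc]
  have e1 : (fun ξ : ℝ => if |ξ| ≤ r then h₀ * rexp (-(V * ξ ^ 2 / 2)) else 0) =
      (Icc (-r) r).indicator fun ξ => h₀ * rexp (-(V * ξ ^ 2 / 2)) := by
    ext ξ
    by_cases h : |ξ| ≤ r
    · rw [if_pos h, indicator_of_mem ((hset ξ).mp h)]
    · rw [if_neg h, indicator_of_notMem (fun h' => h ((hset ξ).mpr h'))]
  have hi : IntegrableOn (fun ξ : ℝ => h₀ * rexp (-(V * ξ ^ 2 / 2))) (Icc (-r) r) := by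
    apply Continuous.integrableOn_Icc
    fun_prop
  rw [e1]
  refine ⟨hi.integrable_indicator measurableSet_Icc, ?_⟩
  rw [integral_indicator measurableSet_Icc]
  have hsub : Icc (-(1 / √V)) (1 / √V) ⊆ Icc (-r) r := by
    have : 1 / √V ≤ r := by rw [hr]; exact div_le_div_of_nonneg_right hR hs.le
    exact Icc_subset_Icc (by linarith) this
  calc h₀ / √V = ∫ _ξ in Icc (-(1 / √V)) (1 / √V), h₀ / 2 := by
        rw [setIntegral_const, Measure.real, Real.volume_Icc, ENNReal.toReal_ofReal (by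
          have : 0 < 1 / √V := by positivity
          linarith)]
        simp only [smul_eq_mul]
        ring
    _ ≤ ∫ ξ in Icc (-(1 / √V)) (1 / √V), h₀ * rexp (-(V * ξ ^ 2 / 2)) := by
        apply setIntegral_mono_on (by simp) (hi.mono_set hsub) measurableSet_Icc
        intro ξ hξ
        have h1 : V * ξ ^ 2 ≤ 1 := by
          have h2 : |ξ| ≤ 1 / √V := abs_le.mpr ⟨hξ.1, hξ.2⟩
          have h3 : ξ ^ 2 ≤ (1 / √V) ^ 2 := by
            rw [← sq_abs]; exact pow_le_pow_left₀ (abs_nonneg _) h2 2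
          rw [div_pow, sq_sqrt hV.le, one_pow] at h3
          rw [le_div_iff₀ hV] at h3
          linarith
        have h4 := add_one_le_exp (-(V * ξ ^ 2 / 2))
        calc h₀ / 2 = h₀ * (1 / 2) := by ring
          _ ≤ _ := mul_le_mul_of_nonneg_left (by linarith) hh
    _ ≤ _ := by
        apply setIntegral_mono_set hi _ (Filter.Eventually.of_forall hsub)
        filter_upwards with ξ
        positivity

lemma ind_integral (r c : ℝ) (hr : 0 ≤ r) :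
    Integrable (fun ξ : ℝ => if |ξ| ≤ r then c else 0) ∧
    ∫ ξ : ℝ, (if |ξ| ≤ r then c else 0) = 2 * r * c := by
  have hset : ∀ ξ : ℝ, |ξ| ≤ r ↔ ξ ∈ Icc (-r) r := fun ξ => by rw [abs_le, mem_Icc]
  have e1 : (fun ξ : ℝ => if |ξ| ≤ r then c else 0) =
      (Icc (-r) r).indicator fun _ => c := by
    ext ξ
    by_cases h : |ξ| ≤ r
    · rw [if_pos h, indicator_of_mem ((hset ξ).mp h)]
    · rw [if_neg h, indicator_of_notMem (fun h' => h ((hset ξ).mpr h'))]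
  rw [e1]
  refine ⟨(integrableOn_const (by simp)).integrable_indicator measurableSet_Icc, ?_⟩
  rw [integral_indicator measurableSet_Icc, setIntegral_const, Measure.real, Real.volume_Icc,
    ENNReal.toReal_ofReal (by linarith)]
  simp only [smul_eq_mul]
  ring

lemma integral_four {f1 f2 f3 f4 : ℝ → ℝ} (h1 : Integrable f1) (h2 : Integrable f2)
    (h3 : Integrable f3) (h4 : Integrable f4) :
    ∫ ξ, (f1 ξ + f2 ξ + f3 ξ + f4 ξ) = (∫ ξ, f1 ξ) + (∫ ξ, f2 ξ) + (∫ ξ, f3 ξ) + ∫ ξ, f4 ξ := by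
  have h12 : Integrable fun ξ => f1 ξ + f2 ξ := h1.add h2
  have h123 : Integrable fun ξ => f1 ξ + f2 ξ + f3 ξ := h12.add h3
  rw [integral_add h123 h4, integral_add h12 h3, integral_add h1 h2]

namespace MDat

variable (hM : MDat P C₀ C₁ Cs)
include hM

lemma mf_sub_le {σ σ₂ ξ Λ : ℝ} (h0 : 0 < σ₂) (h2 : σ₂ ≤ σ) :
    ‖mf P σ Λ ξ - (XX P σ Λ : ℂ)‖ ≤ cX σ₂ * (|ξ| * VV P σ Λ) := by
  set xb := rexp (-(σ₂ * Real.log 2)) with hxb
  have hxb1 : xb < 1 := by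
    rw [hxb, exp_lt_one_iff, neg_lt_zero]
    exact mul_pos h0 (Real.log_pos one_lt_two)
  have hxs : ∀ p ∈ P Λ, xs σ p ≤ xb := fun p hp => xs_le h2 h0 (hM.prime Λ p hp)
  have h1 := norm_mm_sub_le (P := P Λ) (l := lg) (fun p => xs_pos σ p) lg_nonneg hxb1 hxs ξ
  have h4 : 0 < (1 - xb)⁻¹ := inv_pos.mpr (by linarith)
  have h5 : 0 ≤ VV P σ Λ := by
    unfold VV Vm
    apply Finset.sum_nonneg
    intro p _
    have := lg_nonneg p
    have := xs_pos σ p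
    positivity
  unfold mf XX
  refine h1.trans ?_
  unfold cX
  rw [← hxb]
  apply mul_le_mul_of_nonneg_right _ (by unfold VV at h5; positivity)
  apply mul_le_mul_of_nonneg_right _ h4.le
  linarith

/-- core lower bound -/
theorem JL_core {σ₂ τ₀ CE : ℝ} (hσ₂ : 0 < σ₂) (hτ₀ : 0 < τ₀) (hCE0 : 0 < CE)
    (hCE : ∀ b : ℝ, 0 ≤ b → rexp b * rexp (-(1 / 32) * rexp (b / (2 * KT C₀ C₁ 2))) ≤
      CE * rexp (-b)) {σ Λ τ z R M' : ℝ}
    (h2 : σ₂ ≤ σ) (hσ : σ ≤ 1) (hΛ1 : 1 ≤ Λ) (hΛ16 : 16 * C₀ ≤ Λ)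
    (hΛ : 16 * C₀ * KT C₀ C₁ 2 ≤ Λ) (hτ : τ₀ ≤ τ) (hR : 1 ≤ R)
    (hRV : R * Λ ≤ √(VV P σ Λ)) (hz : |z - XX P σ Λ| ≤ M') :
    gk 0 / τ * XX P σ Λ / √(VV P σ Λ) -
      (2 * (R / √(VV P σ Λ)) * (gk 0 / τ * XX P σ Λ * (1 / 3 * (VV P σ Λ * Λ) *
          (R / √(VV P σ Λ)) ^ 3)) +
        (((3 / τ₀ + 2 / τ₀ ^ 2) * cX σ₂ + 2 / τ₀ * M') * XX P σ Λ +
          2 / τ₀ * cX σ₂ * VV P σ Λ) * (16 / VV P σ Λ) +
        2 / τ * cX σ₂ * XX P σ Λ * rexp (-(R ^ 2 / π ^ 2)) * (4 / √(VV P σ Λ / 2)) +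
        2 / τ₀ * (cA C₀ C₁ 2 * cM C₁ Cs σ₂ 2 * CE) * 64) - √(2 / τ₀ * cw τ₀) ≤
      z * JJ P τ 1 σ Λ z := by
  have hC0 := hM.C0
  have hτ0 : 0 < τ := by linarith
  have hs0 : 0 < σ := by linarith
  have hΛ0 : 0 < Λ := by linarith
  have hV := hM.VV_pos hs0.le hσ hΛ16 hΛ0
  have hXp := hM.XX_pos hs0.le hσ hΛ16 hΛ0
  have hA := hM.cA_pos (T := 2) (by norm_num)
  have hm := hM.cM_nonneg (T := 2) hσ₂ (by norm_num)
  have hcX := cX_pos hσ₂
  have hM'0 : 0 ≤ M' := (abs_nonneg _).trans hz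
  set V := VV P σ Λ with hVdef
  set X := XX P σ Λ with hXdef
  set r := R / √V with hr
  have hsV : 0 < √V := sqrt_pos.mpr hV
  have hr0 : 0 < r := by positivity
  have hrΛ : r * Λ ≤ 1 := by
    rw [hr, div_mul_eq_mul_div, div_le_one hsV]; exact hRV
  have hrπ : r ≤ π / Λ := by
    rw [le_div_iff₀ hΛ0]; linarith [pi_gt_three]
  set h₀ := gk 0 / τ * X with hh₀
  have hg0 := gk_zero_pos
  have hh₀0 : 0 < h₀ := by positivity
  set D := cA C₀ C₁ 2 * cM C₁ Cs σ₂ 2 * CE with hD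
  have hD0 : 0 ≤ D := by positivity
  set A2 := ((3 / τ₀ + 2 / τ₀ ^ 2) * cX σ₂ + 2 / τ₀ * M') * X + 2 / τ₀ * cX σ₂ * V with hA2
  have hA20 : 0 ≤ A2 := by positivity
  have h2τ : 2 / τ ≤ 2 / τ₀ := div_le_div_of_nonneg_left (by norm_num) hτ₀ hτ
  have hpn : ∀ ξ : ℝ, ‖phi (P Λ) (xs σ) lg ξ‖ ≤ 1 := norm_phi_le_one (fun p => xs_pos σ p)
  -- the integrand
  set F : ℝ → ℂ := fun ξ => wk τ 1 ξ *
    (phi (P Λ) (xs σ) lg ξ * mm (P Λ) (xs σ) lg ξ * ex (ξ * z)) with hF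
  have e := Ef_S_kk (P := P Λ) (x := xs σ) (l := lg) hτ0 one_pos (fun p => xs_pos σ p)
    (hM.xs_lt_one hs0) z
  set G : ℝ → ℝ := fun ξ => if |ξ| ≤ R / √V then h₀ * rexp (-(V * ξ ^ 2 / 2)) else 0 with hG
  obtain ⟨hGi, hGge⟩ := main_term_ge hV hR hh₀0.le
  obtain ⟨i1, j1⟩ := ind_integral r (h₀ * (1 / 3 * (V * Λ) * r ^ 3)) hr0.le
  obtain ⟨i2, j2⟩ := int_abs_gauss hV
  obtain ⟨i3, j3⟩ := int_gauss (by linarith only [hV] : 0 < V / 2)
  obtain ⟨i4, j4⟩ := int_rB hΛ0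
  have hFi : Integrable F := by
    apply integrable_wk_mul hτ0 one_pos (c := cX σ₂ * X)
    · have hcphi : Continuous (phi (P Λ) (xs σ) lg) := by
        unfold phi
        fun_prop
      have hcmm : Continuous (mm (P Λ) (xs σ) lg) := by
        unfold mm
        apply continuous_finsetSum
        intro p hp
        apply Continuous.div (by fun_prop) (by fun_prop)
        intro ξ
        exact one_add_ne_zero (fun p => xs_pos σ p) ξ p (hM.xs_lt_one hs0 p hp)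
      fun_prop
    · intro ξ
      rw [norm_mul, norm_ex, mul_one, norm_mul]
      have h5 := hM.mf_le (ξ := ξ) (Λ := Λ) hσ₂ h2
      calc _ ≤ 1 * (cX σ₂ * X) :=
            mul_le_mul (hpn ξ) h5 (norm_nonneg _) zero_le_one
        _ = _ := one_mul _
  have hpt : ∀ ξ : ℝ, ‖F ξ - (G ξ : ℂ)‖ ≤
      (if |ξ| ≤ r then h₀ * (1 / 3 * (V * Λ) * r ^ 3) else 0) +
      A2 * (|ξ| * rexp (-(2 / π ^ 2 * V * ξ ^ 2))) +
      2 / τ * cX σ₂ * X * rexp (-(R ^ 2 / π ^ 2)) *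
        rexp (-(2 / π ^ 2 * (V / 2) * ξ ^ 2)) +
      2 / τ₀ * D * rB Λ ξ := by
    intro ξ
    have hr4 := rB_nonneg hΛ0.le ξ
    rcases le_or_gt |ξ| r with hξ | hξ
    · -- inside
      have hξπ : |ξ| ≤ π / Λ := hξ.trans hrπ
      rw [if_pos hξ]
      have n3 : 0 ≤ 2 / τ * cX σ₂ * X * rexp (-(R ^ 2 / π ^ 2)) *
        rexp (-(2 / π ^ 2 * (V / 2) * ξ ^ 2)) := by positivity
      have n4 : 0 ≤ 2 / τ₀ * D * rB Λ ξ := by (clear * - hτ₀ hA hm hCE0 hr4; positivity)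
      have hg := phi_gauss (P := P Λ) (l := lg) (fun p => xs_pos σ p) (Λ := Λ) (ξ := ξ)
        (fun p hp => ⟨lg_nonneg p, hM.le Λ p hp⟩)
        ((mul_le_mul_of_nonneg_right hξ hΛ0.le).trans hrΛ)
      have hlobe := hM.ph_lobe (σ := σ) hΛ0 hξπ
      have e1 : F ξ - (G ξ : ℂ) =
          (wk τ 1 ξ * mf P σ Λ ξ * ex (ξ * (z - X)) - (h₀ : ℂ)) *
            (ph P σ Λ ξ * ex (ξ * X)) +
          (h₀ : ℂ) * (ph P σ Λ ξ * ex (ξ * X) - (rexp (-(V * ξ ^ 2 / 2)) : ℂ)) := by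
        have e2 : (G ξ : ℂ) = (h₀ : ℂ) * (rexp (-(V * ξ ^ 2 / 2)) : ℂ) := by
          rw [hG]; simp only; rw [if_pos hξ]; push_cast; rfl
        have e3 : ex (ξ * z) = ex (ξ * (z - X)) * ex (ξ * X) := by
          rw [← ex_add]; congr 1; ring
        rw [e2, hF]
        simp only
        rw [e3]
        unfold ph mf
        ring
      rw [e1]
      have b1 : ‖wk τ 1 ξ * mf P σ Λ ξ * ex (ξ * (z - X)) - (h₀ : ℂ)‖ ≤ A2 * |ξ| := by
        have e4 : wk τ 1 ξ * mf P σ Λ ξ * ex (ξ * (z - X)) - (h₀ : ℂ) =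
            (wk τ 1 ξ - ((gk 0 / τ : ℝ) : ℂ)) * mf P σ Λ ξ * ex (ξ * (z - X)) +
            ((gk 0 / τ : ℝ) : ℂ) * (mf P σ Λ ξ - (X : ℂ)) * ex (ξ * (z - X)) -
            ((gk 0 / τ : ℝ) : ℂ) * (X : ℂ) * (1 - ex (ξ * (z - X))) := by
          rw [hh₀]; push_cast; ring
        rw [e4]
        have c1 := wk_lip hτ0 ξ
        have c2 := hM.mf_le (ξ := ξ) (Λ := Λ) hσ₂ h2
        have c3 := hM.mf_sub_le (ξ := ξ) (Λ := Λ) hσ₂ h2
        have c4 := norm_one_sub_ex_le (ξ * (z - X))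
        have c5 : ‖((gk 0 / τ : ℝ) : ℂ)‖ ≤ 2 / τ₀ := by
          rw [Complex.norm_real, Real.norm_eq_abs, abs_of_pos (by positivity)]
          refine le_trans ?_ h2τ
          exact div_le_div_of_nonneg_right (by have := gk_le 0; linarith only [this]) hτ0.le
        have c6 : (3 / τ + 2 / τ ^ 2) ≤ (3 / τ₀ + 2 / τ₀ ^ 2) := by
          apply add_le_add
          · exact div_le_div_of_nonneg_left (by norm_num) hτ₀ hτ
          · apply div_le_div_of_nonneg_left (by norm_num) (by positivity)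
            exact pow_le_pow_left₀ hτ₀.le hτ 2
        have c7 : ‖1 - ex (ξ * (z - X))‖ ≤ |ξ| * M' := by
          refine c4.trans ?_
          rw [abs_mul]
          exact mul_le_mul_of_nonneg_left hz (abs_nonneg _)
        have hξ0 := abs_nonneg ξ
        refine (norm_sub_le _ _).trans ?_
        refine (add_le_add_left (norm_add_le _ _) _).trans ?_
        rw [norm_mul, norm_mul, norm_ex, mul_one, norm_mul, norm_mul, norm_ex, mul_one,
          norm_mul, norm_mul]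
        have d1 : ‖wk τ 1 ξ - ((gk 0 / τ : ℝ) : ℂ)‖ * ‖mf P σ Λ ξ‖ ≤
            ((3 / τ₀ + 2 / τ₀ ^ 2) * |ξ|) * (cX σ₂ * X) :=
          mul_le_mul (c1.trans (mul_le_mul_of_nonneg_right c6 hξ0)) c2 (norm_nonneg _)
            (by positivity)
        have d2 : ‖((gk 0 / τ : ℝ) : ℂ)‖ * ‖mf P σ Λ ξ - (X : ℂ)‖ ≤
            2 / τ₀ * (cX σ₂ * (|ξ| * V)) :=
          mul_le_mul c5 c3 (norm_nonneg _) (by positivity)
        have d3 : ‖((gk 0 / τ : ℝ) : ℂ)‖ * ‖(X : ℂ)‖ * ‖1 - ex (ξ * (z - X))‖ ≤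
            2 / τ₀ * X * (|ξ| * M') := by
          apply mul_le_mul _ c7 (norm_nonneg _) (by positivity)
          have hXn : ‖(X : ℂ)‖ = X := by
            rw [Complex.norm_real, Real.norm_eq_abs, abs_of_pos hXp]
          rw [hXn]
          exact mul_le_mul_of_nonneg_right c5 hXp.le
        calc _ ≤ ((3 / τ₀ + 2 / τ₀ ^ 2) * |ξ|) * (cX σ₂ * X) +
              2 / τ₀ * (cX σ₂ * (|ξ| * V)) + 2 / τ₀ * X * (|ξ| * M') :=
              add_le_add (add_le_add d1 d2) d3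
          _ = _ := by rw [hA2]; ring
      have b2 : ‖ph P σ Λ ξ * ex (ξ * X)‖ ≤ rexp (-(2 / π ^ 2 * V * ξ ^ 2)) := by
        rw [norm_mul, norm_ex, mul_one]; exact hlobe
      have b3 : ‖(h₀ : ℂ) * (ph P σ Λ ξ * ex (ξ * X) - (rexp (-(V * ξ ^ 2 / 2)) : ℂ))‖ ≤
          h₀ * (1 / 3 * (V * Λ) * r ^ 3) := by
        rw [norm_mul, Complex.norm_real, Real.norm_eq_abs, abs_of_pos hh₀0]
        apply mul_le_mul_of_nonneg_left _ hh₀0.le
        refine hg.trans ?_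
        have : |ξ| ^ 3 ≤ r ^ 3 := pow_le_pow_left₀ (abs_nonneg _) hξ 3
        exact mul_le_mul_of_nonneg_left this (by positivity)
      have b4 : ‖(wk τ 1 ξ * mf P σ Λ ξ * ex (ξ * (z - X)) - (h₀ : ℂ)) *
            (ph P σ Λ ξ * ex (ξ * X))‖ ≤ A2 * (|ξ| * rexp (-(2 / π ^ 2 * V * ξ ^ 2))) := by
        rw [norm_mul]
        calc _ ≤ (A2 * |ξ|) * rexp (-(2 / π ^ 2 * V * ξ ^ 2)) :=
              mul_le_mul b1 b2 (norm_nonneg _) (by (clear * - hτ₀ hcX hM'0 hXp hV; positivity))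
          _ = _ := by ring
      refine (norm_add_le _ _).trans ?_
      linarith only [n3, n4, b3, b4]
    · -- outside
      have hG0 : G ξ = 0 := by rw [hG]; simp only; rw [if_neg (not_le.mpr hξ)]
      rw [if_neg (not_le.mpr hξ), hG0, Complex.ofReal_zero, sub_zero, zero_add]
      have n2 : 0 ≤ A2 * (|ξ| * rexp (-(2 / π ^ 2 * V * ξ ^ 2))) := by (clear * - hτ₀ hcX hM'0 hXp hV; positivity)
      have n3 : 0 ≤ 2 / τ * cX σ₂ * X * rexp (-(R ^ 2 / π ^ 2)) *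
        rexp (-(2 / π ^ 2 * (V / 2) * ξ ^ 2)) := by positivity
      have n4 : 0 ≤ 2 / τ₀ * D * rB Λ ξ := by (clear * - hτ₀ hA hm hCE0 hr4; positivity)
      have hFn : ‖F ξ‖ = ‖wk τ 1 ξ‖ * (‖ph P σ Λ ξ‖ * ‖mf P σ Λ ξ‖) := by
        rw [hF]; simp only
        rw [norm_mul, norm_mul, norm_ex, mul_one, norm_mul]
        rfl
      rw [hFn]
      rcases le_or_gt |ξ| (π / Λ) with h | h
      · have h1 := hM.phm_lobe (ξ := ξ) hσ₂ h2 hΛ0 h
        have h3 : rexp (-(2 / π ^ 2 * V * ξ ^ 2)) ≤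
            rexp (-(R ^ 2 / π ^ 2)) * rexp (-(2 / π ^ 2 * (V / 2) * ξ ^ 2)) := by
          rw [← exp_add, exp_le_exp]
          have h4 : R ^ 2 ≤ V * ξ ^ 2 := by
            have h5 : r ^ 2 ≤ ξ ^ 2 := by
              rw [← sq_abs ξ]; exact pow_le_pow_left₀ hr0.le hξ.le 2
            rw [hr, div_pow, sq_sqrt hV.le, div_le_iff₀ hV] at h5
            linarith only [h5]
          have h6 : R ^ 2 / π ^ 2 ≤ V * ξ ^ 2 / π ^ 2 := div_le_div_of_nonneg_right h4 (by positivity)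
          have h7 : 2 / π ^ 2 * V * ξ ^ 2 = V * ξ ^ 2 / π ^ 2 + 2 / π ^ 2 * (V / 2) * ξ ^ 2 := by
            ring
          linarith only [h6, h7]
        have h8 : ‖wk τ 1 ξ‖ * (‖ph P σ Λ ξ‖ * ‖mf P σ Λ ξ‖) ≤
            2 / τ * (cX σ₂ * X * (rexp (-(R ^ 2 / π ^ 2)) *
              rexp (-(2 / π ^ 2 * (V / 2) * ξ ^ 2)))) := by
          apply mul_le_mul (norm_wk_le hτ0 le_rfl ξ) _ (by positivity) (by positivity)
          exact h1.trans (mul_le_mul_of_nonneg_left h3 (by positivity))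
        have h9 : 2 / τ * (cX σ₂ * X * (rexp (-(R ^ 2 / π ^ 2)) *
              rexp (-(2 / π ^ 2 * (V / 2) * ξ ^ 2)))) =
            2 / τ * cX σ₂ * X * rexp (-(R ^ 2 / π ^ 2)) *
              rexp (-(2 / π ^ 2 * (V / 2) * ξ ^ 2)) := by ring
        rw [h9] at h8
        linarith only [n2, n4, h8]
      · rcases le_or_gt |ξ| 2 with h2' | h2'
        · have h1 := hM.phm_le (ξ := ξ) hσ₂ h2 hσ hΛ0 hΛ h2' hCE0 hCE h
          rw [← hD] at h1
          have h4 : rexp (-((1 - σ) * Λ)) ≤ 1 := by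
            rw [exp_le_one_iff, neg_nonpos]
            exact mul_nonneg (by linarith only [hσ]) hΛ0.le
          have h5 : D * rexp (-((1 - σ) * Λ)) * rB Λ ξ ≤ D * 1 * rB Λ ξ := by (clear * - h4 hA hm hCE0 hr4; gcongr)
          have h8 : ‖wk τ 1 ξ‖ * (‖ph P σ Λ ξ‖ * ‖mf P σ Λ ξ‖) ≤ 2 / τ₀ * (D * rB Λ ξ) := by
            apply mul_le_mul ((norm_wk_le hτ0 le_rfl ξ).trans h2τ) _ (by positivity)
              (by positivity)
            linarith only [h1, h5]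
          have h9 : 2 / τ₀ * (D * rB Λ ξ) = 2 / τ₀ * D * rB Λ ξ := by ring
          rw [h9] at h8
          linarith only [n2, n3, h8]
        · rw [wk_eq_zero one_pos (by linarith only [h2']), norm_zero, zero_mul]
          (clear * - hτ₀ hcX hM'0 hXp hV h2' hτ0 hA hm hCE0 hr4; positivity)
  have hMi : Integrable fun ξ : ℝ => (if |ξ| ≤ r then h₀ * (1 / 3 * (V * Λ) * r ^ 3) else 0) +
      A2 * (|ξ| * rexp (-(2 / π ^ 2 * V * ξ ^ 2))) +
      2 / τ * cX σ₂ * X * rexp (-(R ^ 2 / π ^ 2)) *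
        rexp (-(2 / π ^ 2 * (V / 2) * ξ ^ 2)) +
      2 / τ₀ * D * rB Λ ξ :=
    ((i1.add (i2.const_mul _)).add (i3.const_mul _)).add (i4.const_mul _)
  have hbd := norm_integral_le_of_norm_le hMi (Filter.Eventually.of_forall hpt)
  have hint : ∫ ξ : ℝ, ((if |ξ| ≤ r then h₀ * (1 / 3 * (V * Λ) * r ^ 3) else 0) +
      A2 * (|ξ| * rexp (-(2 / π ^ 2 * V * ξ ^ 2))) +
      2 / τ * cX σ₂ * X * rexp (-(R ^ 2 / π ^ 2)) *
        rexp (-(2 / π ^ 2 * (V / 2) * ξ ^ 2)) +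
      2 / τ₀ * D * rB Λ ξ) ≤ 2 * r * (h₀ * (1 / 3 * (V * Λ) * r ^ 3)) + A2 * (16 / V) +
        2 / τ * cX σ₂ * X * rexp (-(R ^ 2 / π ^ 2)) * (4 / √(V / 2)) + 2 / τ₀ * D * 64 := by
    rw [integral_four i1 (i2.const_mul _) (i3.const_mul _) (i4.const_mul _),
      integral_const_mul, integral_const_mul, integral_const_mul, j1]
    apply add_le_add
    · apply add_le_add
      · apply add_le_add le_rfl
        exact mul_le_mul_of_nonneg_left j2 hA20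
      · exact mul_le_mul_of_nonneg_left j3 (by positivity)
    · exact mul_le_mul_of_nonneg_left j4 (by positivity)
  have hGc : Integrable fun ξ : ℝ => (G ξ : ℂ) := hGi.ofReal
  rw [integral_sub hFi hGc, integral_complex_ofReal, ← e, ← Complex.ofReal_sub,
    Complex.norm_real, Real.norm_eq_abs] at hbd
  have hlin := abs_Ef_lin_le (P := P) hτ0 le_rfl σ Λ z
  have hJ2 : JJ P τ 1 σ Λ z ≤ 2 / τ₀ := by
    unfold JJ
    calc _ ≤ Ef (P Λ) (xs σ) lg (fun _ => 2 / τ₀) := by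
          apply Ef_mono (fun p => xs_pos σ p)
          intro s
          exact (kk_le hτ0 1 _).trans h2τ
      _ = _ := Ef_const (fun p => xs_pos σ p) _
  have hlin2 : √(JJ P τ 1 σ Λ z * cw τ) ≤ √(2 / τ₀ * cw τ₀) := by
    apply sqrt_le_sqrt
    exact mul_le_mul hJ2 (cw_anti hτ₀ hτ) (cw_pos hτ0).le (by positivity)
  rw [JJ_split]
  have a1 := (abs_le.mp hbd).1
  have a2 := (abs_le.mp (hlin.trans hlin2)).1
  linarith only [hGge, hint, a1, a2]

end MDat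

end Pool.Agent.MP0016c7.Ros
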