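import Mathlib
import Pool.Agent.Lib.MP_0016c7_nt.RosJ3

open Real Set MeasureTheory Filter Topology

namespace Pool.Agent.MP0016c7.Ros

variable {P : ℝ → Finset ℕ} {C₀ : ℝ} {C₁ Cs : ℝ → ℝ}

lemma JL_arith {g τ R V Λ X ρ q c1 cx cτ D' E M' s : ℝ} (hg : 0 < g) (hτ : 0 < τ) (hτ1 : τ ≤ 1)
    (hs : 0 < s) (hV : V = s * s) (hρ : ρ = X / s) (hX : 0 < X) (hΛ : 0 < Λ)
    (hcx : 0 < cx) (hc1 : 0 ≤ c1) (hcτ : 0 ≤ cτ) (hM' : 0 ≤ M')
    (hR : 1 ≤ R) (hsq : Λ / s ≤ 8 * q) (hsΛ : 1 / s ≤ 8 / Λ) (hρq : 1 ≤ 8 * q * ρ)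
    (hE : 12 * cx * E ≤ g / 8)
    (hq1 : 16 / 3 * R ^ 4 * q ≤ 1 / 8)
    (hq3 : 8 * q * (cτ * cx * 16 + D') ≤ g / 8)
    (hD' : 0 ≤ D') (hΛ2 : 128 * (c1 * cx + cτ * M') / Λ ≤ g / 8) :
    g / 2 * ρ ≤ g / τ * X / s -
      (2 * (R / s) * (g / τ * X * (1 / 3 * (V * Λ) * (R / s) ^ 3)) +
        ((c1 * cx + cτ * M') * X + cτ * cx * V) * (16 / V) +
        2 / τ * cx * X * E * (6 / s)) - D' := by
  have hρ0 : 0 < ρ := by rw [hρ]; positivity
  have hX' : X = ρ * s := by rw [hρ]; field_simp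
  have t1 : 2 * (R / s) * (g / τ * X * (1 / 3 * (V * Λ) * (R / s) ^ 3)) =
      2 / 3 * (g / τ) * R ^ 4 * ρ * (Λ / s) := by
    rw [hX', hV]; field_simp
  have t2 : ((c1 * cx + cτ * M') * X + cτ * cx * V) * (16 / V) =
      16 * (c1 * cx + cτ * M') * ρ * (1 / s) + cτ * cx * 16 := by
    rw [hX', hV]; field_simp
  have t3 : 2 / τ * cx * X * E * (6 / s) = 12 * cx * E / τ * ρ := by
    rw [hX']; field_simp; ring
  have t4 : g / τ * X / s = g / τ * ρ := by rw [hX']; field_simp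
  rw [t1, t2, t3, t4]
  have u1 : 2 / 3 * (g / τ) * R ^ 4 * ρ * (Λ / s) ≤ 2 / 3 * (g / τ) * R ^ 4 * ρ * (8 * q) :=
    mul_le_mul_of_nonneg_left hsq (by positivity)
  have u1' : 2 / 3 * (g / τ) * R ^ 4 * ρ * (8 * q) = (g / τ * ρ) * (16 / 3 * R ^ 4 * q) := by ring
  have u1'' : (g / τ * ρ) * (16 / 3 * R ^ 4 * q) ≤ (g / τ * ρ) * (1 / 8) :=
    mul_le_mul_of_nonneg_left hq1 (by positivity)
  have u2 : 16 * (c1 * cx + cτ * M') * ρ * (1 / s) ≤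
      16 * (c1 * cx + cτ * M') * ρ * (8 / Λ) :=
    mul_le_mul_of_nonneg_left hsΛ (by positivity)
  have u2' : 16 * (c1 * cx + cτ * M') * ρ * (8 / Λ) =
      (128 * (c1 * cx + cτ * M') / Λ) * ρ := by ring
  have u2'' : (128 * (c1 * cx + cτ * M') / Λ) * ρ ≤ g / 8 * ρ :=
    mul_le_mul_of_nonneg_right hΛ2 hρ0.le
  have u3 : 12 * cx * E / τ * ρ ≤ g / 8 / τ * ρ := by
    apply mul_le_mul_of_nonneg_right _ hρ0.le
    exact div_le_div_of_nonneg_right hE hτ.le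
  have u4 : (cτ * cx * 16 + D') ≤ g / 8 * ρ := by
    have h1 : 0 ≤ cτ * cx * 16 + D' := by positivity
    calc (cτ * cx * 16 + D') = (cτ * cx * 16 + D') * 1 := (mul_one _).symm
      _ ≤ (cτ * cx * 16 + D') * (8 * q * ρ) := mul_le_mul_of_nonneg_left hρq h1
      _ = (8 * q * (cτ * cx * 16 + D')) * ρ := by ring
      _ ≤ g / 8 * ρ := mul_le_mul_of_nonneg_right hq3 hρ0.le
  have u5 : g ≤ g / τ := by rw [le_div_iff₀ hτ]; nlinarith only [hg, hτ1]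
  have u6 : g / 8 / τ * ρ = 1 / 8 * (g / τ * ρ) := by ring
  have u7 : g * ρ ≤ g / τ * ρ := mul_le_mul_of_nonneg_right u5 hρ0.le
  have e9 : g / 2 * ρ = 1 / 2 * (g * ρ) := by ring
  have e10 : g / 8 * ρ = 1 / 8 * (g * ρ) := by ring
  rw [e9]
  rw [e10] at u2'' u4
  rw [u1'] at u1
  rw [u2'] at u2
  rw [u6] at u3
  have n0 : 0 < g * ρ := mul_pos hg hρ0
  linarith only [u1, u1'', u2, u2'', u3, u4, u7]

namespace MDat

variable (hM : MDat P C₀ C₁ Cs)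
include hM

/-- lower bound for the smoothed density near the mean when the tilt is not too small -/
theorem JL {σ₂ τ₀ : ℝ} (hσ₂ : 0 < σ₂) (hτ₀ : 0 < τ₀) {M' : ℝ} (hM' : 0 ≤ M') :
    ∃ b₀ : ℝ, 0 ≤ b₀ ∧ ∃ Λ₀ : ℝ, 1 ≤ Λ₀ ∧ ∀ σ Λ τ z : ℝ,
      σ₂ ≤ σ → σ ≤ 1 → Λ₀ ≤ Λ → b₀ ≤ (1 - σ) * Λ → τ₀ ≤ τ → τ ≤ 1 →
      |z - XX P σ Λ| ≤ M' →
      gk 0 / 2 * (XX P σ Λ / √(VV P σ Λ)) ≤ z * JJ P τ 1 σ Λ z := by
  have hC0 := hM.C0
  have hK := hM.KT_ge (T := 2) (by norm_num)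
  have hA := hM.cA_pos (T := 2) (by norm_num)
  have hm := hM.cM_nonneg (T := 2) hσ₂ (by norm_num)
  have hcX := cX_pos hσ₂
  have hg0 := gk_zero_pos
  obtain ⟨CE, hCE0, hCE⟩ := exp_decay (by linarith : 0 < KT C₀ C₁ 2)
  set g := gk 0 with hg
  set L := max 0 (Real.log (96 * cX σ₂ / g)) with hL
  have hL0 : 0 ≤ L := le_max_left _ _
  set R := 1 + π ^ 2 * L with hR
  have hR1 : 1 ≤ R := by
    have : 0 ≤ π ^ 2 * L := by positivity
    linarith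
  set E := rexp (-(R ^ 2 / π ^ 2)) with hE
  have hE1 : 12 * cX σ₂ * E ≤ g / 8 := by
    have h1 : L ≤ R ^ 2 / π ^ 2 := by
      rw [le_div_iff₀ (by positivity)]
      have h2 : L * π ^ 2 ≤ R := by rw [hR]; linarith
      have h3 : R ≤ R ^ 2 := by nlinarith only [hR1]
      linarith
    have h4 : E ≤ rexp (-L) := by rw [hE, exp_le_exp]; linarith
    have h5 : 96 * cX σ₂ / g ≤ rexp L := by
      rw [← Real.log_le_iff_le_exp (by positivity)]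
      exact le_max_right _ _
    have h6 : rexp (-L) ≤ g / (96 * cX σ₂) := by
      rw [exp_neg, inv_le_comm₀ (exp_pos _) (by positivity), inv_div]
      exact h5
    calc 12 * cX σ₂ * E ≤ 12 * cX σ₂ * (g / (96 * cX σ₂)) :=
          mul_le_mul_of_nonneg_left (h4.trans h6) (by positivity)
      _ = g / 8 := by field_simp; norm_num
  set D' := 2 / τ₀ * (cA C₀ C₁ 2 * cM C₁ Cs σ₂ 2 * CE) * 64 + √(2 / τ₀ * cw τ₀) with hD'
  have hD'0 : 0 ≤ D' := by positivity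
  set cτ := 2 / τ₀ with hcτ
  have hcτ0 : 0 < cτ := by positivity
  set c1 := 3 / τ₀ + 2 / τ₀ ^ 2 with hc1
  have hc10 : 0 < c1 := by positivity
  set q₀ := min (min 1 (1 / (8 * R))) (min (3 / (128 * R ^ 4))
    (g / (64 * (cτ * cX σ₂ * 16 + D' + 1)))) with hq₀
  have hR0 : 0 < R := by linarith
  have hq₀0 : 0 < q₀ := by
    rw [hq₀]
    refine lt_min (lt_min one_pos (by positivity)) (lt_min (by positivity) (by positivity))
  have hq₀1 : q₀ ≤ 1 := (min_le_left _ _).trans (min_le_left _ _)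
  have hq₀2 : q₀ ≤ 1 / (8 * R) := (min_le_left _ _).trans (min_le_right _ _)
  have hq₀3 : q₀ ≤ 3 / (128 * R ^ 4) := (min_le_right _ _).trans (min_le_left _ _)
  have hq₀4 : q₀ ≤ g / (64 * (cτ * cX σ₂ * 16 + D' + 1)) :=
    (min_le_right _ _).trans (min_le_right _ _)
  refine ⟨-4 * Real.log q₀, ?_,
    1 + 16 * C₀ + 16 * C₀ * KT C₀ C₁ 2 + 1024 * (c1 * cX σ₂ + cτ * M') / g, ?_, ?_⟩
  · have := Real.log_nonpos hq₀0.le hq₀1
    linarith
  · have h1 : 0 ≤ 16 * C₀ * KT C₀ C₁ 2 := by positivity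
    have h2 : 0 ≤ 1024 * (c1 * cX σ₂ + cτ * M') / g := by positivity
    linarith
  intro σ Λ τ z h2 hσ hΛ hb hτ hτ1 hz
  have n1 : 0 ≤ 16 * C₀ * KT C₀ C₁ 2 := by positivity
  have n2 : 0 ≤ 1024 * (c1 * cX σ₂ + cτ * M') / g := by positivity
  have hΛ1 : 1 ≤ Λ := by linarith
  have hΛ0 : 0 < Λ := by linarith
  have hs0 : 0 < σ := by linarith
  have hτ0 : 0 < τ := by linarith
  have hV := hM.VV_pos hs0.le hσ (by linarith only [hΛ, n1, n2]) hΛ0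
  have hXp := hM.XX_pos hs0.le hσ (by linarith only [hΛ, n1, n2]) hΛ0
  have hVge := hM.VV_ge hs0.le hσ (by linarith : 16 * C₀ ≤ Λ)
  have hρ := hM.XX_div_sqrt_ge hs0.le hσ (by linarith only [hΛ, n1, n2] : 16 * C₀ ≤ Λ) hΛ0
  set q := rexp (-((1 - σ) * Λ / 4)) with hq
  have hq0 : 0 < q := exp_pos _
  have hqq : q ≤ q₀ := by
    rw [hq, ← Real.le_log_iff_exp_le hq₀0]
    linarith only [hb]
  have hqinv : rexp ((1 - σ) * Λ / 4) = 1 / q := by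
    rw [hq, exp_neg, one_div, inv_inv]
  have hsV : 0 < √(VV P σ Λ) := sqrt_pos.mpr hV
  have hs1 : Λ / (8 * q) ≤ √(VV P σ Λ) := by
    apply le_sqrt_of_sq_le
    refine le_trans (le_of_eq ?_) hVge
    have : rexp ((1 - σ) * Λ / 2) = (1 / q) * (1 / q) := by
      rw [← hqinv, ← exp_add]; ring_nf
    rw [this]
    field_simp
    norm_num
  have hsq : Λ / √(VV P σ Λ) ≤ 8 * q := by
    rw [div_le_iff₀ hsV]
    rw [div_le_iff₀ (by positivity)] at hs1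
    linarith only [hs1]
  have hsΛ : 1 / √(VV P σ Λ) ≤ 8 / Λ := by
    rw [div_le_div_iff₀ hsV hΛ0]
    rw [div_le_iff₀ (by positivity)] at hs1
    have : √(VV P σ Λ) * (8 * q) ≤ √(VV P σ Λ) * (8 * 1) := by gcongr; linarith only [hq₀1, hqq]
    linarith only [hs1, this]
  have hρq : 1 ≤ 8 * q * (XX P σ Λ / √(VV P σ Λ)) := by
    rw [hqinv] at hρ
    have h3 := mul_le_mul_of_nonneg_left hρ (by positivity : 0 ≤ 8 * q)
    have h4 : 8 * q * (1 / q / 8) = 1 := by field_simp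
    linarith only [h3, h4]
  have hRV : R * Λ ≤ √(VV P σ Λ) := by
    refine le_trans ?_ hs1
    rw [le_div_iff₀ (by positivity)]
    have h3 : q * (8 * R) ≤ 1 := by
      have := hqq.trans hq₀2
      rwa [le_div_iff₀ (by positivity)] at this
    calc R * Λ * (8 * q) = Λ * (q * (8 * R)) := by ring
      _ ≤ Λ * 1 := mul_le_mul_of_nonneg_left h3 hΛ0.le
      _ = Λ := mul_one _
  have hcore := hM.JL_core hσ₂ hτ₀ hCE0 hCE h2 hσ hΛ1 (by linarith only [hΛ, n1, n2]) (by linarith only [hC0, hΛ, n2]) hτ hR1 hRV hz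
  have hhalf : 4 / √(VV P σ Λ / 2) ≤ 6 / √(VV P σ Λ) := by
    rw [sqrt_div hV.le, div_div_eq_mul_div]
    apply div_le_div_of_nonneg_right _ hsV.le
    have : √2 ≤ 1.5 := by
      rw [sqrt_le_left (by norm_num)]; norm_num
    linarith only [this]
  have harith := JL_arith (g := g) (τ := τ) (R := R) (V := VV P σ Λ) (Λ := Λ) (X := XX P σ Λ)
    (ρ := XX P σ Λ / √(VV P σ Λ)) (q := q) (c1 := c1) (cx := cX σ₂) (cτ := cτ) (D' := D')
    (E := E) (M' := M') (s := √(VV P σ Λ)) hg0 hτ0 hτ1 hsV (mul_self_sqrt hV.le).symm rfl hXp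
    hΛ0 hcX hc10.le hcτ0.le hM' hR1 hsq hsΛ hρq hE1
    (by
      have h3 := hqq.trans hq₀3
      rw [le_div_iff₀ (by positivity)] at h3
      linarith only [h3])
    (by
      have h3 := hqq.trans hq₀4
      rw [le_div_iff₀ (by (clear * - hτ₀ hcX hA hm hCE0; positivity))] at h3
      linarith only [hq0, h3])
    hD'0
    (by
      rw [div_le_iff₀ hΛ0]
      have h3 : 1024 * (c1 * cX σ₂ + cτ * M') / g ≤ Λ := by linarith only [hC0, hΛ, n1]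
      rw [div_le_iff₀ hg0] at h3
      linarith only [h3])
  refine le_trans harith (le_trans ?_ hcore)
  have h5 : 2 / τ * cX σ₂ * XX P σ Λ * E * (4 / √(VV P σ Λ / 2)) ≤
      2 / τ * cX σ₂ * XX P σ Λ * E * (6 / √(VV P σ Λ)) :=
    mul_le_mul_of_nonneg_left hhalf (by positivity)
  linarith only [h5]

end MDat

end Pool.Agent.MP0016c7.Ros
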