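import Mathlib
import Pool.Agent.Lib.MP_0016c7_nt.RosGood
import Pool.Agent.Lib.MP_0016c7_nt.RosJ4

open Real Set MeasureTheory Filter Topology

namespace Pool.Agent.MP0016c7.Ros

variable {P : ℝ → Finset ℕ} {C₀ : ℝ} {C₁ Cs : ℝ → ℝ}

/-- the ratio `1 + X/√V` -/
noncomputable def RR (P : ℝ → Finset ℕ) (σ Λ : ℝ) : ℝ := 1 + XX P σ Λ / √(VV P σ Λ)

namespace MDat

variable (hM : MDat P C₀ C₁ Cs)
include hM

lemma RR_ge {σ Λ : ℝ} (h0 : 0 ≤ σ) (hσ : σ ≤ 1) (hΛ : 16 * C₀ ≤ Λ) (hΛ0 : 0 < Λ) :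
    1 ≤ RR P σ Λ ∧ RR P σ Λ ≤ 9 * (XX P σ Λ / √(VV P σ Λ)) := by
  have h1 := hM.XX_div_sqrt_ge h0 hσ hΛ hΛ0
  have h2 : 1 ≤ rexp ((1 - σ) * Λ / 4) := by
    apply one_le_exp
    have : 0 ≤ (1 - σ) * Λ := mul_nonneg (by linarith only [hσ]) hΛ0.le
    linarith only [this]
  unfold RR
  constructor <;> linarith

/-- upper bound for the one sided density -/
theorem UBa {τ₀ σ₂ : ℝ} (hτ₀ : 0 < τ₀) (hσ₂ : 0 < σ₂) : ∃ D : ℝ, 0 < D ∧ ∃ Λ₀ : ℝ, 1 ≤ Λ₀ ∧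
    ∀ σ Λ τ y : ℝ, σ₂ ≤ σ → σ ≤ 1 → Λ₀ ≤ Λ → τ₀ ≤ τ → τ ≤ 1 → 0 < y →
    al P τ σ Λ y ≤ D * RR P σ Λ / y := by
  obtain ⟨C, hC, Λ₀, hΛ₀, h⟩ := hM.JU (T := 1) le_rfl hτ₀ hσ₂
  have hC0 := hM.C0
  refine ⟨rexp 2 * C, by positivity, Λ₀ + 16 * C₀, by linarith,
    fun σ Λ τ y h2 hσ hΛ hτ hτ1 hy => ?_⟩
  have hτ0 : 0 ≤ τ := by linarith
  have h1 := h σ Λ τ (y + 1) h2 hσ (by linarith) hτ
  have hR := hM.RR_ge (σ := σ) (Λ := Λ) (by linarith) hσ (by linarith) (by linarith)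
  have h3 := al_le_JJ P hτ0 hτ1 one_pos zero_le_one σ Λ y
  have h4 := mass_ge_two one_pos
  simp only [div_one, mul_one] at h3 h4
  rw [abs_of_pos (by linarith)] at h1
  have ha := al_nonneg P τ σ Λ y
  have h5 : rexp (-2) * al P τ σ Λ y * 2 ≤ JJ P τ 1 σ Λ (y + 1) := by
    refine le_trans ?_ h3
    exact mul_le_mul_of_nonneg_left h4 (by positivity)
  rw [le_div_iff₀ hy]
  have h6 : y * (rexp (-2) * al P τ σ Λ y * 2) ≤ C * RR P σ Λ := by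
    have hJ := JJ_nonneg P τ 1 σ Λ (y + 1)
    have h7 : y * (rexp (-2) * al P τ σ Λ y * 2) ≤ (y + 1) * JJ P τ 1 σ Λ (y + 1) := by
      have := mul_le_mul_of_nonneg_left h5 hy.le
      nlinarith only [hJ, this]
    exact h7.trans h1
  have h8 : rexp 2 * rexp (-2) = 1 := by rw [← exp_add]; norm_num
  have h9 := mul_le_mul_of_nonneg_left h6 (exp_pos 2).le
  have h10 : rexp 2 * (y * (rexp (-2) * al P τ σ Λ y * 2)) = 2 * (al P τ σ Λ y * y) := by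
    calc _ = (rexp 2 * rexp (-2)) * (2 * (al P τ σ Λ y * y)) := by ring
      _ = _ := by rw [h8, one_mul]
  rw [h10] at h9
  have h11 : 0 ≤ al P τ σ Λ y * y := mul_nonneg ha hy.le
  nlinarith only [h9, h11]

lemma XX_ge {σ Λ : ℝ} (h0 : 0 ≤ σ) (hσ : σ ≤ 1) (hΛ : 16 * C₀ ≤ Λ) (hΛ0 : 0 < Λ) :
    Λ / 64 ≤ XX P σ Λ := by
  have h1 := hM.VV_ge h0 hσ hΛ
  have h2 := hM.VV_le (σ := σ) hΛ0.le
  have h3 : 1 ≤ rexp ((1 - σ) * Λ / 2) := by
    apply one_le_exp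
    have : 0 ≤ (1 - σ) * Λ := mul_nonneg (by linarith) hΛ0.le
    linarith
  have h4 : Λ ^ 2 / 64 ≤ Λ * XX P σ Λ := by
    refine le_trans ?_ (h1.trans h2)
    have : 0 ≤ Λ ^ 2 := sq_nonneg Λ
    nlinarith only [h3]
  have h5 : Λ * (Λ / 64) ≤ Λ * XX P σ Λ := by
    calc _ = Λ ^ 2 / 64 := by ring
      _ ≤ _ := h4
  exact le_of_mul_le_mul_left h5 hΛ0

omit hM in
lemma LBa_arith1 {D R m g ρ z k : ℝ} (hz : 0 < z) (hD : 0 < D) (hk : 0 ≤ k) (hρ : 0 ≤ ρ)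
    (hR9 : R ≤ 9 * ρ) (hm2 : 144 * D * k ≤ g * (1 + m ^ 2)) :
    z * (2 * (D * R) / z * (k / (1 + m ^ 2))) ≤ g / 8 * ρ := by
  have hm0 : 0 < 1 + m ^ 2 := by positivity
  have e : z * (2 * (D * R) / z * (k / (1 + m ^ 2))) = 2 * D * k * R / (1 + m ^ 2) := by
    field_simp
  rw [e, div_le_iff₀ hm0]
  have q1 : 2 * D * k * R ≤ 2 * D * k * (9 * ρ) := by
    apply mul_le_mul_of_nonneg_left hR9; positivity
  have q2 := mul_le_mul_of_nonneg_right hm2 hρ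
  calc 2 * D * k * R ≤ 2 * D * k * (9 * ρ) := q1
    _ = 144 * D * k * ρ / 8 := by ring
    _ ≤ g * (1 + m ^ 2) * ρ / 8 := div_le_div_of_nonneg_right q2 (by norm_num)
    _ = _ := by ring

omit hM in
lemma LBa_arith2 {g ρ z k : ℝ} (hz : 0 < z) (hg : 0 < g) (hk : 0 ≤ k) (hρ8 : 1 / 9 ≤ ρ)
    (hzb : 288 * k / g ≤ z) :
    z * (k / (1 + (z / 2) ^ 2)) ≤ g / 8 * ρ := by
  have q1 : 288 * k ≤ g * z := by
    rw [div_le_iff₀ hg] at hzb
    linarith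
  have q2 : z * (k / (1 + (z / 2) ^ 2)) ≤ 4 * k / z := by
    rw [← mul_div_assoc, div_le_div_iff₀ (by positivity) hz]
    calc z * k * z ≤ z * k * z + 4 * k := by linarith
      _ = _ := by ring
  refine q2.trans ?_
  rw [div_le_iff₀ hz]
  have q3 : g * z * (1 / 9) ≤ g * z * ρ := mul_le_mul_of_nonneg_left hρ8 (by positivity)
  calc 4 * k = 288 * k * (1 / 9) / 8 := by ring
    _ ≤ g * z * (1 / 9) / 8 := by
        apply div_le_div_of_nonneg_right _ (by norm_num)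
        exact mul_le_mul_of_nonneg_right q1 (by norm_num)
    _ ≤ g * z * ρ / 8 := div_le_div_of_nonneg_right q3 (by norm_num)
    _ = _ := by ring

/-- lower bound for the one sided density at the mean -/
theorem LBa {τ₀ σ₂ : ℝ} (hτ₀ : 0 < τ₀) (hσ₂ : 0 < σ₂) : ∃ c : ℝ, 0 < c ∧ ∃ b₀ : ℝ, 0 ≤ b₀ ∧
    ∃ Λ₀ : ℝ, 1 ≤ Λ₀ ∧
    ∀ σ Λ τ y : ℝ, σ₂ ≤ σ → σ ≤ 1 → Λ₀ ≤ Λ → b₀ ≤ (1 - σ) * Λ → τ₀ ≤ τ → τ ≤ 1 →
    |y - XX P σ Λ| ≤ 1 → c * RR P σ Λ / XX P σ Λ ≤ al P τ σ Λ y := by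
  obtain ⟨D, hD, Λ₁, hΛ₁, hU⟩ := hM.UBa hτ₀ hσ₂
  have hC0 := hM.C0
  have hg := gk_zero_pos
  set g := gk 0 with hgdef
  have hmK := mK_nonneg
  have hcK := cK_pos
  -- the choice of m
  set m : ℝ := 1 + 144 * D * mK / g with hm
  have hm1 : 1 ≤ m := by
    rw [hm]; have : 0 ≤ 144 * D * mK / g := by positivity
    linarith
  have hm2 : 144 * D * mK ≤ g * (1 + m ^ 2) := by
    have h1 : g * m = g + 144 * D * mK := by rw [hm]; field_simp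
    nlinarith only [hg, h1, hm1, mul_pos hg (by linarith : 0 < m)]
  obtain ⟨b₀, hb₀, Λ₂, hΛ₂, hL⟩ := hM.JL hσ₂ hτ₀ (M' := m + 1) (by linarith)
  refine ⟨rexp (-(2 * m)) / cK * (g / 4) / 18, by positivity, b₀, hb₀,
    Λ₁ + Λ₂ + 16 * C₀ + 64 * (288 * mK / g + 2 * m + 2), ?_, ?_⟩
  · have : 0 ≤ 288 * mK / g := by positivity
    linarith
  intro σ Λ τ y h2 hσ hΛ hb hτ hτ1 hy
  have hp : 0 ≤ 288 * mK / g := by positivity
  have hΛ0 : 0 < Λ := by linarith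
  have hΛ16 : 16 * C₀ ≤ Λ := by linarith
  have hX := hM.XX_ge (σ := σ) (by linarith) hσ hΛ16 hΛ0
  obtain ⟨hR1, hR9⟩ := hM.RR_ge (σ := σ) (by linarith) hσ hΛ16 hΛ0
  have hXbig : 288 * mK / g + 2 * m + 2 ≤ XX P σ Λ := by linarith only [hΛ₁, hC0, hΛ₂, hΛ, hX]
  set X := XX P σ Λ with hXdef
  set ρ := X / √(VV P σ Λ) with hρ
  set R := RR P σ Λ with hRdef
  have hρ8 : 1 / 9 ≤ ρ := by linarith only [hR1, hR9]
  obtain ⟨hy1, hy2⟩ := abs_le.mp hy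
  set z := y - m with hz
  have hz0 : 0 < z := by rw [hz]; linarith only [hΛ₁, hC0, hm1, hΛ₂, hΛ, hp, hX, hy1]
  have hzX : z ≤ X := by rw [hz]; linarith
  have hzbig : 288 * mK / g + 1 ≤ z := by rw [hz]; linarith
  have h3 := hL σ Λ τ z h2 hσ (by linarith) hb hτ hτ1 (by
    rw [abs_le]; constructor <;> (rw [hz]; linarith))
  have h4 := JJ_le_al P (by linarith : 0 ≤ τ) hτ1 one_pos (by linarith : 0 ≤ m) σ Λ y
  have h5 := tail_al P (by linarith : 0 ≤ τ) one_pos (by linarith : 0 ≤ m) hz0 (D := D * R)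
    (σ := σ) (Λ := Λ) (fun y' hy' => hU σ Λ τ y' h2 hσ (by linarith) hτ hτ1 hy')
    (by have : 0 ≤ R := by linarith
        positivity)
  simp only [one_mul, div_one] at h4 h5
  rw [← hz] at h4
  -- the three pieces, multiplied by z
  have ha := al_nonneg P τ σ Λ y
  have h6 := LBa_arith1 (R := R) hz0 hD hmK (by linarith : 0 ≤ ρ) hR9 hm2
  have h7 := LBa_arith2 hz0 hg hmK hρ8 (by linarith only [hΛ₁, hC0, hm1, hΛ₂, hΛ, hX, hy1])
  have h8 : z * JJ P τ 1 σ Λ z ≤ z * (rexp (2 * m) * al P τ σ Λ y * cK) + g / 8 * ρ + g / 8 * ρ := by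
    calc z * JJ P τ 1 σ Λ z ≤ z * (rexp (2 * m) * al P τ σ Λ y * cK +
          (2 * (D * R) / z * (mK / (1 + m ^ 2)) + mK / (1 + (z / 2) ^ 2))) :=
        mul_le_mul_of_nonneg_left (h4.trans (add_le_add le_rfl h5)) hz0.le
      _ = z * (rexp (2 * m) * al P τ σ Λ y * cK) + z * (2 * (D * R) / z * (mK / (1 + m ^ 2))) +
          z * (mK / (1 + (z / 2) ^ 2)) := by ring
      _ ≤ _ := by linarith only [h6, h7]
  have h9 : g / 4 * ρ ≤ z * (rexp (2 * m) * al P τ σ Λ y * cK) := by linarith only [h3, h8]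
  have hea : 0 ≤ rexp (2 * m) * al P τ σ Λ y * cK :=
    mul_nonneg (mul_nonneg (exp_pos _).le ha) hcK.le
  have h10 : z * (rexp (2 * m) * al P τ σ Λ y * cK) ≤ X * (rexp (2 * m) * al P τ σ Λ y * cK) :=
    mul_le_mul_of_nonneg_right hzX hea
  have hX0 : 0 < X := by linarith only [hΛ₁, hC0, hm1, hΛ₂, hΛ, hp, hX]
  rw [div_le_iff₀ hX0]
  have h11 : rexp (-(2 * m)) * rexp (2 * m) = 1 := by rw [← exp_add]; norm_num
  calc rexp (-(2 * m)) / cK * (g / 4) / 18 * R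
      ≤ rexp (-(2 * m)) / cK * (g / 4) / 18 * (9 * ρ) :=
        mul_le_mul_of_nonneg_left hR9 (by positivity)
    _ ≤ rexp (-(2 * m)) / cK * (g / 4 * ρ) := by
        have hρ0 : 0 ≤ ρ := by linarith only [hR1, hR9]
        have : 0 ≤ rexp (-(2 * m)) / cK * (g / 4) * ρ := by positivity
        nlinarith only [this]
    _ ≤ rexp (-(2 * m)) / cK * (X * (rexp (2 * m) * al P τ σ Λ y * cK)) :=
        mul_le_mul_of_nonneg_left (h9.trans h10) (by positivity)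
    _ = (rexp (-(2 * m)) * rexp (2 * m)) * (al P τ σ Λ y * X) := by
        field_simp
    _ = al P τ σ Λ y * X := by rw [h11, one_mul]

end MDat

/-- arithmetic of the upper half -/
lemma up_arith {a G δ η e₁ ε J J' κ : ℝ} (hε : 0 < ε) (hε1 : ε ≤ 1) (hG : 0 < G) (hκ : 0 < κ)
    (hδ : δ = ε / 16) (hη : η ≤ ε / 16) (he : e₁ ≤ ε / 16)
    (h1 : rexp (-(2 * δ)) * a * ((1 - η) * κ) ≤ J') (h2 : J' ≤ J + e₁ * (G * κ))
    (h3 : J = G * κ) : a ≤ (1 + ε) * G := by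
  have h4 : rexp (-(2 * δ)) * a * ((1 - η) * κ) ≤ (1 + e₁) * G * κ := by
    calc _ ≤ _ := h1.trans h2
      _ = _ := by rw [h3]; ring
  have h5 : rexp (-(2 * δ)) * a * (1 - η) ≤ (1 + e₁) * G := by
    have : rexp (-(2 * δ)) * a * (1 - η) * κ ≤ (1 + e₁) * G * κ := by linarith
    exact le_of_mul_le_mul_right this hκ
  have h6 : 1 - 2 * δ ≤ rexp (-(2 * δ)) := by
    have := add_one_le_exp (-(2 * δ)); linarith
  by_contra hcon
  rw [not_le] at hcon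
  have ha0 : 0 < a := lt_trans (by positivity) hcon
  have h7 : (1 - ε / 8) * (1 - ε / 16) * a ≤ rexp (-(2 * δ)) * a * (1 - η) := by
    have q1 : (1 - ε / 8) * (1 - ε / 16) ≤ rexp (-(2 * δ)) * (1 - η) := by
      apply mul_le_mul _ (by linarith) (by linarith) (exp_pos _).le
      rw [hδ] at h6 ⊢
      linarith
    calc _ ≤ rexp (-(2 * δ)) * (1 - η) * a := mul_le_mul_of_nonneg_right q1 ha0.le
      _ = _ := by ring
  have h8 : (1 - ε / 8) * (1 - ε / 16) * ((1 + ε) * G) < (1 - ε / 8) * (1 - ε / 16) * a := by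
    apply mul_lt_mul_of_pos_left hcon
    apply mul_pos <;> linarith
  have h9 : (1 + e₁) * G ≤ (1 + ε / 16) * G := mul_le_mul_of_nonneg_right (by linarith only [he]) hG.le
  have h10 : (1 - ε / 8) * (1 - ε / 16) * ((1 + ε) * G) < (1 + ε / 16) * G := by linarith only [h5, h7, h8, h9]
  have h11 : (1 + ε / 16) ≤ (1 - ε / 8) * (1 - ε / 16) * (1 + ε) := by
    nlinarith only [hε, hε1, mul_pos hε hε, mul_nonneg hε.le (by linarith only [hε1] : 0 ≤ 1 - ε),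
      mul_nonneg (mul_nonneg hε.le hε.le) (by linarith only [hε1] : 0 ≤ 1 - ε)]
  have h12 := mul_le_mul_of_nonneg_right h11 hG.le
  linarith only [h5, h7, h8, h9, h12]

/-- arithmetic of the lower half -/
lemma lo_arith {a G δ e₁ e₂ e₃ ε J J' κ Tl : ℝ} (hε : 0 < ε) (hε1 : ε ≤ 1) (hG : 0 < G)
    (hκ : 0 < κ) (ha0 : 0 ≤ a)
    (hδ : δ = ε / 16) (he : e₁ ≤ ε / 16) (he2 : e₂ ≤ ε / 16) (he3 : e₃ ≤ ε / 16)
    (h1 : J' ≤ rexp (2 * δ) * a * κ + Tl) (hTl : Tl ≤ (e₂ + e₃) * (G * κ))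
    (h2 : J - e₁ * (G * κ) ≤ J')
    (h3 : J = G * κ) : (1 - ε) * G ≤ a := by
  have h4 : (1 - e₁ - e₂ - e₃) * G * κ ≤ rexp (2 * δ) * a * κ := by
    have : (1 - e₁ - e₂ - e₃) * G * κ = J - e₁ * (G * κ) - (e₂ + e₃) * (G * κ) := by
      rw [h3]; ring
    rw [this]
    linarith
  have h5 : (1 - e₁ - e₂ - e₃) * G ≤ rexp (2 * δ) * a := le_of_mul_le_mul_right h4 hκ
  have h6 : rexp (2 * δ) ≤ 1 + 4 * δ := by
    have q1 : |2 * δ| ≤ 1 := by rw [hδ, abs_of_pos (by positivity)]; linarith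
    have q2 := Real.abs_exp_sub_one_le q1
    rw [abs_of_pos (a := 2 * δ) (by rw [hδ]; positivity)] at q2
    have := (abs_le.mp q2).2
    linarith
  have h7 : (1 - 3 * (ε / 16)) * G ≤ (1 - e₁ - e₂ - e₃) * G :=
    mul_le_mul_of_nonneg_right (by linarith) hG.le
  have h8 : rexp (2 * δ) * a ≤ (1 + ε / 4) * a := by
    apply mul_le_mul_of_nonneg_right _ ha0
    rw [hδ] at h6 ⊢; linarith only [h6]
  have h9 : (1 - 3 * (ε / 16)) * G ≤ (1 + ε / 4) * a := by linarith only [h5, h7, h8]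
  have h10 : (1 - ε) * (1 + ε / 4) ≤ 1 - 3 * (ε / 16) := by nlinarith only [hε, mul_pos hε hε]
  have h11 := mul_le_mul_of_nonneg_right h10 hG.le
  have h12 : (1 + ε / 4) * ((1 - ε) * G) ≤ (1 + ε / 4) * a := by
    calc _ = (1 - ε) * (1 + ε / 4) * G := by ring
      _ ≤ _ := h11.trans h9
  exact le_of_mul_le_mul_left h12 (by linarith only [hε])

end Pool.Agent.MP0016c7.Ros
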