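import Mathlib
import Pool.Agent.Lib.MP_0016c7_nt.RosBd
import Pool.Agent.Lib.MP_0016c7_nt.RosLow

open Real Set MeasureTheory Filter Topology

namespace Pool.Agent.MP0016c7.Ros

variable {P : ℝ → Finset ℕ} {C₀ : ℝ} {C₁ Cs : ℝ → ℝ}

lemma mul_exp_neg_le {c Λ : ℝ} (hc : 0 < c) (hΛ : 512 / c ≤ Λ) : Λ * rexp (-(Λ / 16)) ≤ c := by
  have hΛ0 : 0 < Λ := lt_of_lt_of_le (by positivity) hΛ
  have h1 := Real.quadratic_le_exp_of_nonneg (x := Λ / 16) (by positivity)
  have h2 : Λ ^ 2 / 512 ≤ rexp (Λ / 16) := by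
    have : (Λ / 16) ^ 2 / 2 = Λ ^ 2 / 512 := by ring
    rw [this] at h1
    have : 0 ≤ Λ / 16 := by positivity
    linarith only [hΛ0, h1]
  rw [exp_neg, ← div_eq_mul_inv, div_le_iff₀ (exp_pos _)]
  rw [div_le_iff₀ hc] at hΛ
  have h3 : c * (Λ ^ 2 / 512) ≤ c * rexp (Λ / 16) := mul_le_mul_of_nonneg_left h2 hc.le
  have h4 : Λ ≤ c * (Λ ^ 2 / 512) := by
    have : c * (Λ ^ 2 / 512) = (Λ * c) * Λ / 512 := by ring
    rw [this, le_div_iff₀ (by norm_num)]
    nlinarith only [hΛ, hc]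
  linarith only [h3, h4]

lemma xs_one {p : ℕ} (hp : 0 < p) : xs 1 p = 1 / p := by
  rw [xs_eq 1 hp]; simp

namespace MDat

variable (hM : MDat P C₀ C₁ Cs)
include hM

/-- positive probability of moderate values at tilt one -/
lemma prob_le {Λ : ℝ} (hΛ0 : 0 < Λ) (hΛ : 16 * C₀ ≤ Λ) :
    1 / 4 ≤ Ef (P Λ) (xs 1) lg (fun s => if s ≤ 3 * Λ / 4 then 1 else 0) := by
  have hx : ∀ p, 0 < xs 1 p := fun p => xs_pos 1 p
  have hC0 := hM.C0
  have hx1 : ∀ p ∈ P Λ, xs 1 p < 1 := by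
    intro p hp
    rw [xs_one (hM.prime Λ p hp).pos, div_lt_one (hM.pos_of_mem hp)]
    exact_mod_cast (hM.prime Λ p hp).one_lt
  have h1 : Ef (P Λ) (xs 1) lg (fun s => 1 - (3 * Λ / 4)⁻¹ * s) ≤
      Ef (P Λ) (xs 1) lg (fun s => if s ≤ 3 * Λ / 4 then 1 else 0) := by
    apply Ef_mono_nonneg hx lg_nonneg
    intro s hs
    split_ifs with h
    · have : 0 ≤ (3 * Λ / 4)⁻¹ * s := by positivity
      linarith only [this]
    · rw [not_le] at h
      have : 1 ≤ (3 * Λ / 4)⁻¹ * s := by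
        rw [inv_mul_eq_div, le_div_iff₀ (by positivity)]; linarith
      linarith
  refine le_trans ?_ h1
  rw [Ef_sub (fun _ => (1 : ℝ)) (fun s => (3 * Λ / 4)⁻¹ * s), Ef_const hx, Ef_const_mul,
    Ef_id hx hx1]
  have h2 : Xm (P Λ) (xs 1) lg ≤ Λ / 2 + C₀ := by
    refine (Xm_le_sum hx lg_nonneg).trans ?_
    have h3 := (abs_le.mp (hM.t0 Λ hΛ0.le)).2
    have h4 : ∑ p ∈ P Λ, lg p * xs 1 p = ∑ p ∈ P Λ, lg p / p := by
      apply Finset.sum_congr rfl
      intro p hp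
      rw [xs_one (hM.prime Λ p hp).pos]; ring
    rw [h4]
    linarith
  have h5 : (3 * Λ / 4)⁻¹ * Xm (P Λ) (xs 1) lg ≤ 3 / 4 := by
    rw [inv_mul_eq_div, div_le_iff₀ (by positivity)]
    linarith only [hΛ, h2]
  linarith only [h5]

/-- first range -/
lemma low_base {Λ τ y : ℝ} (hτ : 0 ≤ τ) (hτ1 : τ ≤ 1) (hΛ16 : 16 * C₀ ≤ Λ) (hΛ1 : 1 ≤ Λ)
    (hΛ2 : 512 / (rexp (-(4 * C₀ + 1)) / 16) ≤ Λ)
    (hy1 : 7 * Λ / 8 + (4 * C₀ + 1) ≤ y) (hy2 : y ≤ Λ) :
    rexp (-(4 * C₀ + 1)) / 16 / Λ ≤ al P τ 1 Λ y := by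
  have hC0 := hM.C0
  have hΛ0 : 0 < Λ := by linarith only [hy1, hy2, hC0]
  set h := 4 * C₀ + 1 with hh
  have hh0 : 0 < h := by rw [hh]; linarith only [hC0]
  have hx : ∀ p, 0 < xs 1 p := fun p => xs_pos 1 p
  set F := (P Λ).filter fun p => ¬ (lg p ≤ Λ / 8) with hF
  have hFs : F ⊆ P Λ := Finset.filter_subset _ _
  have h1 := size_bias_al (P := P) (σ := 1) (Λ := Λ) (y := y) hτ hFs
  have h2 : ∑ p ∈ F, lg p * xs 1 p * (al P τ 1 Λ (y - lg p) - xs 1 p) =
      Ef (P Λ) (xs 1) lg (fun s => ∑ p ∈ F, lg p / p * kt τ (y - lg p - s)) -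
      ∑ p ∈ F, lg p / p * (1 / p) := by
    rw [Ef_sum, ← Finset.sum_sub_distrib]
    apply Finset.sum_congr rfl
    intro p hp
    rw [xs_one (hM.prime Λ p (hFs hp)).pos]
    unfold al
    ring
  have h3 : ∑ p ∈ F, lg p / p * (1 / p) ≤ Λ * rexp (-(Λ / 16)) := by
    have h4 : ∀ p ∈ F, lg p / p * (1 / p) ≤ rexp (-(Λ / 16)) * (lg p / p) := by
      intro p hp
      have hp' := hp
      rw [hF, Finset.mem_filter, not_le] at hp'
      have hp0 := hM.pos_of_mem hp'.1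
      have h5 : (1 : ℝ) / p ≤ rexp (-(Λ / 16)) := by
        have : (1 : ℝ) / p = rexp (-lg p) := by
          unfold lg; rw [exp_neg, exp_log hp0, one_div]
        rw [this, exp_le_exp]
        linarith only [hy2, hC0, hy1, hp', hp'.2]
      rw [mul_comm]
      exact mul_le_mul_of_nonneg_right h5 (div_nonneg (lg_nonneg p) hp0.le)
    refine (Finset.sum_le_sum h4).trans ?_
    rw [← Finset.mul_sum, mul_comm Λ]
    apply mul_le_mul_of_nonneg_left _ (exp_pos _).le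
    have h5 := (abs_le.mp (hM.t0 Λ hΛ0.le)).2
    have h6 : ∑ p ∈ F, lg p / p ≤ ∑ p ∈ P Λ, lg p / p :=
      Finset.sum_le_sum_of_subset_of_nonneg hFs fun p _ _ =>
        div_nonneg (lg_nonneg p) (Nat.cast_nonneg p)
    linarith only [hy2, hC0, hy1, h5, h6]
  have h4 : rexp (-h) / 2 * Ef (P Λ) (xs 1) lg (fun s => if s ≤ 3 * Λ / 4 then 1 else 0) ≤
      Ef (P Λ) (xs 1) lg (fun s => ∑ p ∈ F, lg p / p * kt τ (y - lg p - s)) := by
    rw [← Ef_const_mul]
    apply Ef_mono_nonneg hx lg_nonneg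
    intro s hs
    have hnn : ∀ p ∈ F, 0 ≤ lg p / p * kt τ (y - lg p - s) := fun p _ =>
      mul_nonneg (div_nonneg (lg_nonneg p) (Nat.cast_nonneg p)) (kt_nonneg _ _)
    split_ifs with hs2
    · rw [mul_one]
      set G := (P (y - s)).filter fun p => ¬ (lg p ≤ y - s - h) with hG
      have hw := hM.blk_t0 (u := y - s) (v := y - s - h) (by linarith only [hy2, hC0, hy1, hs2]) (by linarith)
      have hGF : G ⊆ F := by
        intro p hp
        rw [hG, Finset.mem_filter, not_le] at hp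
        rw [hF, Finset.mem_filter, not_le]
        have hmem : p ∈ P Λ := by
          have := hM.mem Λ (y - s) (by linarith only [hy2, hs])
          rw [this, Finset.mem_filter] at hp
          exact hp.1.1
        exact ⟨hmem, by linarith only [hy1, hs2, hp, hp.2]⟩
      have hsum : ∑ p ∈ G, rexp (-h) * (lg p / p) ≤
          ∑ p ∈ F, lg p / p * kt τ (y - lg p - s) := by
        refine le_trans (Finset.sum_le_sum ?_) (Finset.sum_le_sum_of_subset_of_nonneg hGF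
          fun p hp _ => hnn p hp)
        intro p hp
        have hp' := hp
        rw [hG, Finset.mem_filter, not_le] at hp'
        have hle := hM.le _ p hp'.1
        rw [mul_comm]
        apply mul_le_mul_of_nonneg_left _ (div_nonneg (lg_nonneg p) (Nat.cast_nonneg p))
        unfold kt
        rw [if_pos (by linarith only [hle]), exp_le_exp, neg_le_neg_iff]
        have h5 : y - lg p - s ≤ h := by linarith only [hp', hp'.2]
        have h6 : 0 ≤ y - lg p - s := by linarith only [hle]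
        nlinarith only [hτ1, hτ, hp', hC0]
      refine le_trans ?_ hsum
      rw [← Finset.mul_sum]
      have : (1 : ℝ) / 2 ≤ ∑ p ∈ G, lg p / p := by
        refine le_trans (le_of_eq ?_) hw
        rw [hh]; ring
      calc rexp (-h) / 2 = rexp (-h) * (1 / 2) := by ring
        _ ≤ _ := mul_le_mul_of_nonneg_left this (exp_pos _).le
    · rw [mul_zero]
      exact Finset.sum_nonneg hnn
  have h5 := hM.prob_le hΛ0 hΛ16
  have h6 : rexp (-h) / 8 ≤ rexp (-h) / 2 *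
      Ef (P Λ) (xs 1) lg (fun s => if s ≤ 3 * Λ / 4 then 1 else 0) := by
    have := exp_pos (-h)
    nlinarith only [h5, this]
  have h7 := mul_exp_neg_le (c := rexp (-h) / 16) (by positivity) hΛ2
  have h8 : rexp (-h) / 16 ≤ y * al P τ 1 Λ y := by
    rw [h2] at h1
    linarith only [h1, h3, h4, h6, h7]
  have hy0 : 0 < y := by linarith only [hy2, hC0, hy1]
  have h9 : y * al P τ 1 Λ y ≤ Λ * al P τ 1 Λ y :=
    mul_le_mul_of_nonneg_right hy2 (al_nonneg P τ 1 Λ y)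
  rw [div_le_iff₀ hΛ0]
  linarith only [h1, h2, h3, h4, h6, h7, h9]

/-- induction step -/
lemma low_step {Λ τ y c V₀ b : ℝ} (hτ : 0 ≤ τ) (hΛ1 : 1 ≤ Λ) (hV₀ : 1 ≤ V₀)
    (hΛ3 : 32 * (4 * C₀ + 1) + 128 * C₀ ≤ Λ) (hc : 0 < c) (hΛ2 : 512 / (c / 2) ≤ Λ)
    (hb1 : Λ ≤ b) (hprev : ∀ y', 7 * Λ / 8 + (4 * C₀ + 1) ≤ y' → y' ≤ b →
      c / Λ ≤ al P τ 1 Λ y')
    (hy1 : b ≤ y) (hy2 : y ≤ b + Λ / 16) (hy3 : y ≤ (V₀ + 1) * Λ) :
    c / (128 * (V₀ + 1)) / Λ ≤ al P τ 1 Λ y := by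
  have hC0 := hM.C0
  have hΛ0 : 0 < Λ := by linarith only [hΛ3, hC0]
  set h := 4 * C₀ + 1 with hh
  have hh0 : 0 < h := by rw [hh]; linarith
  set F := (P (Λ / 8 - h)).filter fun p => ¬ (lg p ≤ Λ / 16) with hF
  have hsub : P (Λ / 8 - h) ⊆ P Λ := by
    rw [hM.mem Λ (Λ / 8 - h) (by linarith)]
    exact Finset.filter_subset _ _
  have hFs : F ⊆ P Λ := (Finset.filter_subset _ _).trans hsub
  have h1 := size_bias_al (P := P) (σ := 1) (Λ := Λ) (y := y) hτ hFs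
  have hw := hM.blk_t0 (u := Λ / 8 - h) (v := Λ / 16) (by linarith) (by linarith)
  have h7 := mul_exp_neg_le (c := c / 2) (by positivity) hΛ2
  have h8 : rexp (-(Λ / 16)) ≤ c / 2 / Λ := by
    rw [le_div_iff₀ hΛ0]; linarith only [h7]
  have h9 : ∑ p ∈ F, (c / 2 / Λ) * (lg p / p) ≤
      ∑ p ∈ F, lg p * xs 1 p * (al P τ 1 Λ (y - lg p) - xs 1 p) := by
    apply Finset.sum_le_sum
    intro p hp
    have hp' := hp
    rw [hF, Finset.mem_filter, not_le] at hp'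
    have hle := hM.le _ p hp'.1
    have hp0 := hM.pos_of_mem (hFs hp)
    have h10 := hprev (y - lg p) (by linarith only [hb1, hy1, hle]) (by linarith only [hy2, hp', hp'.2])
    have h11 : xs 1 p ≤ rexp (-(Λ / 16)) := by
      unfold xs
      rw [exp_le_exp]
      linarith only [hp', hp'.2]
    rw [xs_one (hM.prime Λ p (hFs hp)).pos] at h11 ⊢
    have h12 : 0 ≤ lg p / p := div_nonneg (lg_nonneg p) hp0.le
    have h13 : c / 2 / Λ ≤ al P τ 1 Λ (y - lg p) - 1 / p := by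
      have e : c / Λ = c / 2 / Λ + c / 2 / Λ := by ring
      linarith only [h8, h10, h11, e]
    calc (c / 2 / Λ) * (lg p / p) ≤ (al P τ 1 Λ (y - lg p) - 1 / p) * (lg p / p) :=
          mul_le_mul_of_nonneg_right h13 h12
      _ = _ := by ring
  rw [← Finset.mul_sum] at h9
  have h10 : Λ / 64 ≤ ∑ p ∈ F, lg p / p := by
    refine le_trans ?_ hw
    linarith only [hΛ3]
  have h11 : c / 128 ≤ y * al P τ 1 Λ y := by
    have h12 : c / 2 / Λ * (Λ / 64) ≤ c / 2 / Λ * ∑ p ∈ F, lg p / p :=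
      mul_le_mul_of_nonneg_left h10 (by positivity)
    have h13 : c / 2 / Λ * (Λ / 64) = c / 128 := by field_simp; norm_num
    linarith only [h1, h9, h12, h13]
  have h12 : y * al P τ 1 Λ y ≤ ((V₀ + 1) * Λ) * al P τ 1 Λ y :=
    mul_le_mul_of_nonneg_right hy3 (al_nonneg P τ 1 Λ y)
  rw [div_div, div_le_iff₀ (by positivity)]
  linarith only [h11, h12]

/-- **Lower bound for the density at tilt one.** -/
theorem low {V₀ : ℝ} (hV₀ : 1 ≤ V₀) : ∃ c : ℝ, 0 < c ∧ ∃ Λ₀ : ℝ, 1 ≤ Λ₀ ∧ ∀ Λ τ y : ℝ,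
    Λ₀ ≤ Λ → 0 ≤ τ → τ ≤ 1 → 7 * Λ / 8 + (4 * C₀ + 1) ≤ y → y ≤ (V₀ + 1) * Λ →
    c / Λ ≤ al P τ 1 Λ y := by
  have hC0 := hM.C0
  set c₀ := rexp (-(4 * C₀ + 1)) / 16 with hc₀
  have hc₀0 : 0 < c₀ := by positivity
  set θ := 1 / (128 * (V₀ + 1)) with hθ
  have hθ0 : 0 < θ := by positivity
  have hθ1 : θ ≤ 1 := by
    rw [hθ, div_le_one (by positivity)]; linarith
  set K := ⌈16 * V₀⌉₊ with hK
  have hcK : 0 < c₀ * θ ^ K := by positivity
  refine ⟨c₀ * θ ^ K, hcK, 1 + 16 * C₀ + (32 * (4 * C₀ + 1) + 128 * C₀) +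
    512 / (c₀ * θ ^ K / 2), ?_, ?_⟩
  · have : 0 < 512 / (c₀ * θ ^ K / 2) := by positivity
    linarith only [hC0, this]
  intro Λ τ y hΛ hτ hτ1 hy1 hy2
  have n1 : 0 < 512 / (c₀ * θ ^ K / 2) := by positivity
  have hΛ1 : 1 ≤ Λ := by linarith only [hC0, hΛ, n1]
  have hΛ0 : 0 < Λ := by linarith only [hC0, hΛ, n1]
  have hpow : ∀ k ≤ K, c₀ * θ ^ K ≤ c₀ * θ ^ k := by
    intro k hk
    exact mul_le_mul_of_nonneg_left (pow_le_pow_of_le_one hθ0.le hθ1 hk) hc₀0.le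
  have key : ∀ k ≤ K, ∀ y', 7 * Λ / 8 + (4 * C₀ + 1) ≤ y' → y' ≤ Λ + k * (Λ / 16) →
      y' ≤ (V₀ + 1) * Λ → c₀ * θ ^ k / Λ ≤ al P τ 1 Λ y' := by
    intro k
    induction k with
    | zero =>
      intro _ y' h1 h2 _
      rw [pow_zero, mul_one]
      apply hM.low_base hτ hτ1 (by linarith only [hC0, hΛ, n1]) hΛ1 _ h1 (by simpa using h2)
      rw [← hc₀]
      have h3 : 512 / c₀ ≤ 512 / (c₀ * θ ^ K / 2) := by
        apply div_le_div_of_nonneg_left (by norm_num) (by positivity)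
        have := hpow 0 (Nat.zero_le K)
        rw [pow_zero, mul_one] at this
        linarith only [hc₀0, this]
      linarith only [hC0, hΛ, h3]
    | succ k ih =>
      intro hk y' h1 h2 h3
      have ih' := ih (by omega)
      rcases le_or_gt y' (Λ + k * (Λ / 16)) with h4 | h4
      · refine le_trans ?_ (ih' y' h1 h4 h3)
        apply div_le_div_of_nonneg_right _ hΛ0.le
        apply mul_le_mul_of_nonneg_left _ hc₀0.le
        exact pow_le_pow_of_le_one hθ0.le hθ1 (by omega)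
      · have hk0 : (0 : ℝ) ≤ k * (Λ / 16) := by positivity
        have hpk := hpow k (by omega)
        have h5 : 512 / (c₀ * θ ^ k / 2) ≤ 512 / (c₀ * θ ^ K / 2) := by
          apply div_le_div_of_nonneg_left (by norm_num) (by positivity)
          linarith only [hpk]
        have h6 := hM.low_step (c := c₀ * θ ^ k) (b := Λ + k * (Λ / 16)) hτ hΛ1 hV₀
          (by linarith only [hC0, hΛ, n1]) (by positivity) (by linarith only [hC0, hΛ, h5]) (by linarith only [hk0])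
          (fun y'' h7 h8 => ih' y'' h7 h8 (by linarith only [h3, h4, h8])) h4.le
          (by push_cast at h2; linarith only [h2]) h3
        refine le_trans (le_of_eq ?_) h6
        rw [pow_succ, hθ]
        ring
  apply key K le_rfl y hy1 _ hy2
  have hKge : 16 * V₀ ≤ K := Nat.le_ceil _
  refine hy2.trans ?_
  nlinarith only [hKge, hV₀, hC0, hy1, hy2]

end MDat

end Pool.Agent.MP0016c7.Ros
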