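import Mathlib
import Pool.Agent.Lib.MP_0016c7_nt.RosGood2
import Pool.Agent.Lib.MP_0016c7_nt.RosLow2

open Real Set MeasureTheory Filter Topology

namespace Pool.Agent.MP0016c7.Ros

variable {P : ℝ → Finset ℕ} {C₀ : ℝ} {C₁ Cs : ℝ → ℝ}

lemma exists_rpow_small {a : ℝ} (ha : 0 < a) :
    ∃ B : ℝ, ∀ Λ, B ≤ Λ → Λ ^ (-(1 / 64) : ℝ) ≤ a := by
  have h := tendsto_rpow_neg_atTop (y := (1 / 64 : ℝ)) (by norm_num)
  have h2 := (h.eventually (gt_mem_nhds ha))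
  obtain ⟨B, hB⟩ := Filter.eventually_atTop.mp h2
  exact ⟨B, fun Λ hΛ => (hB Λ hΛ).le⟩

lemma tail_arith {D R z X k e T c G κ cc : ℝ} (hX : 0 < X) (hz : X / 2 ≤ z) (hT : 1 ≤ T)
    (hk : 0 ≤ k) (he : 0 ≤ e) (hD : 0 < D) (hc : 0 < c) (hR : 1 ≤ R)
    (hG : c / 2 * R / X ≤ G) (hcc : 0 < cc) (hκ : κ = cc / T) :
    2 * (D * R) / z * (e / T) + k / (1 + (T * (z / 2)) ^ 2) / T ≤
      (8 * D / c * e / cc + 32 * k / (c * X * cc)) * (G * κ) := by
  have hT0 : 0 < T := by linarith only [hT]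
  have hz0 : 0 < z := by linarith only [hX, hz]
  have hRX : R / X ≤ 2 / c * G := by
    have : R / X = 2 / c * (c / 2 * R / X) := by field_simp
    rw [this]
    exact mul_le_mul_of_nonneg_left hG (by positivity)
  have h1 : 2 * (D * R) / z ≤ 4 * D * (R / X) := by
    have q1 : 2 * (D * R) / z ≤ 2 * (D * R) / (X / 2) :=
      div_le_div_of_nonneg_left (by positivity) (by positivity) hz
    refine q1.trans (le_of_eq ?_)
    field_simp
    ring
  have h2 : 2 * (D * R) / z ≤ 8 * D / c * G := by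
    refine h1.trans ?_
    have := mul_le_mul_of_nonneg_left hRX (by positivity : 0 ≤ 4 * D)
    refine this.trans (le_of_eq ?_)
    ring
  have h3 : 2 * (D * R) / z * (e / T) ≤ 8 * D / c * e / cc * (G * κ) := by
    have q1 := mul_le_mul_of_nonneg_right h2 (by positivity : 0 ≤ e / T)
    refine q1.trans (le_of_eq ?_)
    rw [hκ]
    field_simp
  have h4 : k / (1 + (T * (z / 2)) ^ 2) ≤ 16 * k / X * (1 / X) := by
    have q1 : X ^ 2 / 16 ≤ 1 + (T * (z / 2)) ^ 2 := by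
      have q2 : X / 4 ≤ T * (z / 2) := by nlinarith only [hz, hX, hT]
      have q3 : (X / 4) ^ 2 ≤ (T * (z / 2)) ^ 2 := pow_le_pow_left₀ (by positivity) q2 2
      have q4 : (X / 4) ^ 2 = X ^ 2 / 16 := by ring
      linarith only [q3]
    have q5 : k / (1 + (T * (z / 2)) ^ 2) ≤ k / (X ^ 2 / 16) :=
      div_le_div_of_nonneg_left hk (by positivity) q1
    refine q5.trans (le_of_eq ?_)
    field_simp
  have h5 : 1 / X ≤ 2 / c * G := by
    refine le_trans ?_ hRX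
    exact div_le_div_of_nonneg_right hR hX.le
  have h6 : k / (1 + (T * (z / 2)) ^ 2) / T ≤ 32 * k / (c * X * cc) * (G * κ) := by
    have q1 := mul_le_mul_of_nonneg_left h5 (by positivity : 0 ≤ 16 * k / X)
    have q2 := div_le_div_of_nonneg_right (h4.trans q1) hT0.le
    refine q2.trans (le_of_eq ?_)
    rw [hκ]
    field_simp
    ring
  rw [add_mul]
  exact add_le_add h3 h6

namespace MDat

variable (hM : MDat P C₀ C₁ Cs)
include hM

/-- slow variation of the density -/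
theorem slow {τ₀ σ₂ : ℝ} (hτ₀ : 0 < τ₀) (hσ₂ : 0 < σ₂) {c ε U : ℝ} (hc : 0 < c) (hε : 0 < ε)
    (hε1 : ε ≤ 1) (hU : 0 ≤ U) : ∃ Λ₀ : ℝ, 1 ≤ Λ₀ ∧
    ∀ σ Λ τ X₀ : ℝ, σ₂ ≤ σ → σ ≤ 1 → Λ₀ ≤ Λ → τ₀ ≤ τ → τ ≤ 1 → Λ ≤ X₀ →
    (∀ y, |y - X₀| ≤ 1 → c * RR P σ Λ / X₀ ≤ al P τ σ Λ y) →
    ∃ G, 0 < G ∧ ∀ u, 0 ≤ u → u ≤ U → |al P τ σ Λ (X₀ - u) - G| ≤ ε * G := by
  obtain ⟨D, hD, Λ₁, hΛ₁, hUB⟩ := hM.UBa hτ₀ hσ₂
  have hC0 := hM.C0
  have hmK := mK_nonneg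
  have hcK := cK_pos
  set δ := ε / 16 with hδ
  have hδ0 : 0 < δ := by positivity
  have hδ1 : δ ≤ 1 := by rw [hδ]; linarith only [hε1]
  set tg := cK * (ε / 16) * (1 / (1 + 8 * D / c)) with htg
  have htg0 : 0 < tg := by (clear * - hcK hε hD hc; positivity)
  set T := 1 + mK / tg / δ with hT
  have hT1 : 1 ≤ T := by
    rw [hT]; have : 0 ≤ mK / tg / δ := by (clear * - hmK hcK hε hD hc; positivity)
    linarith only [this]
  have hT0 : 0 < T := by linarith only [hT1]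
  have hTδ : mK / (1 + (T * δ) ^ 2) ≤ tg := by
    have q1 : mK / tg ≤ T * δ := by
      rw [hT, add_mul, div_mul_cancel₀ _ hδ0.ne']; linarith only [hδ0]
    have q2 : T * δ ≤ 1 + (T * δ) ^ 2 := by nlinarith only [sq_nonneg (T * δ - 1), sq_nonneg (T * δ)]
    rw [div_le_iff₀ (by (clear * - hmK hcK hε hD hc; positivity))]
    rw [div_le_iff₀ htg0] at q1
    have := mul_le_mul_of_nonneg_left q2 htg0.le
    linarith only [q1, this]
  obtain ⟨C, hC, Λ₂, hΛ₂, hREG⟩ := hM.JR hT1 hτ₀ hσ₂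
  -- smallness of the regularity error
  obtain ⟨B, hB⟩ := exists_rpow_small (a := ε / 16 * (c * (cK / T)) / (2 * C * (U + 2)))
    (by (clear * - hε hc hcK hmK hD hC hU; positivity))
  refine ⟨Λ₁ + Λ₂ + |B| + 16 * C₀ + 2 * (U + 1) + 32 * mK / (c * cK) * (16 / ε), ?_, ?_⟩
  · have h1 := abs_nonneg B
    have h2 : 0 ≤ 32 * mK / (c * cK) * (16 / ε) := by (clear * - hmK hc hcK hε; positivity)
    linarith only [hU, hΛ₁, hC0, hΛ₂, h1, h2]
  intro σ Λ τ X₀ h2 hσ hΛ hτ hτ1 hX hlow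
  have hB0 := abs_nonneg B
  have hp : 0 ≤ 32 * mK / (c * cK) * (16 / ε) := by positivity
  have hBB := le_abs_self B
  have hΛ0 : 0 < Λ := by linarith only [hU, hΛ₁, hC0, hΛ₂, hΛ, hB0, hp]
  have hX0 : 0 < X₀ := by linarith only [hU, hΛ₁, hC0, hΛ₂, hΛ, hX, hB0, hp]
  have hΛ16 : 16 * C₀ ≤ Λ := by linarith only [hU, hΛ₁, hΛ₂, hΛ, hB0, hp]
  have hsig0 : 0 ≤ σ := by linarith only [hσ₂, h2]
  have hτ0 : 0 ≤ τ := by linarith only [hτ₀, hτ]
  obtain ⟨hR1, hR9⟩ := hM.RR_ge (σ := σ) hsig0 hσ hΛ16 hΛ0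
  set R := RR P σ Λ with hR
  set κ := cK / T with hκ
  have hκ0 : 0 < κ := by positivity
  set J := JJ P τ T σ Λ X₀ with hJ
  set G := J / κ with hG
  have hJG : J = G * κ := by rw [hG]; field_simp
  set η := mK / (1 + (T * δ) ^ 2) / cK with hη
  have hη1 : η ≤ ε / 16 := by
    rw [hη, div_le_iff₀ hcK]
    refine hTδ.trans ?_
    rw [htg]
    have q1 : 1 / (1 + 8 * D / c) ≤ 1 := by
      rw [div_le_one (by positivity)]
      have : 0 < 8 * D / c := by positivity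
      linarith only [this]
    have := mul_le_mul_of_nonneg_left q1 (by positivity : 0 ≤ cK * (ε / 16))
    linarith only [this]
  have hmass : (1 - η) * κ ≤ ∫ t in Icc (-δ) δ, Kk (T * t) := by
    refine le_trans (le_of_eq ?_) (mass_ge hT0 hδ0.le)
    rw [hη, hκ]
    field_simp
  have hη15 : 0 ≤ 1 - η := by linarith only [hε1, hη1]
  have hexp : 7 / 8 ≤ rexp (-(2 * δ)) := by
    have := add_one_le_exp (-(2 * δ))
    rw [hδ] at this ⊢
    linarith only [hε1, this]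
  -- lower bound for G
  have hGlow : c / 2 * R / X₀ ≤ G := by
    have q1 := al_le_JJ P hτ0 hτ1 hT0 hδ0.le σ Λ (X₀ - δ)
    rw [sub_add_cancel] at q1
    have q2 := hlow (X₀ - δ) (by rw [abs_le]; constructor <;> linarith only [hε1, hδ, hδ0])
    have hcR : 0 ≤ c * R / X₀ := by positivity
    have q3 : 7 / 8 * (c * R / X₀) * ((1 - η) * κ) ≤ J := by
      refine le_trans ?_ q1
      apply mul_le_mul _ hmass (by (clear * - hη15 hcK hmK hε hD hc; positivity))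
        (mul_nonneg (exp_pos _).le (al_nonneg _ _ _ _ _))
      exact mul_le_mul hexp q2 hcR (exp_pos _).le
    rw [hG, le_div_iff₀ hκ0]
    refine le_trans ?_ q3
    have q4 : (15 : ℝ) / 16 ≤ 1 - η := by linarith only [hε1, hη1]
    have q5 : c / 2 * R / X₀ * κ = (c * R / X₀ * κ) * (1 / 2) := by ring
    have q6 : 7 / 8 * (c * R / X₀) * ((1 - η) * κ) = (c * R / X₀ * κ) * (7 / 8 * (1 - η)) := by
      ring
    rw [q5, q6]
    apply mul_le_mul_of_nonneg_left _ (by (clear * - hc hR1 hX0 hcK hmK hε hD; positivity))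
    linarith only [hε1, hη1]
  have hG0 : 0 < G := lt_of_lt_of_le (by positivity) hGlow
  refine ⟨G, hG0, ?_⟩
  -- regularity
  have hreg : ∀ v, |v| ≤ U + 1 → |J - JJ P τ T σ Λ (X₀ - v)| ≤ ε / 16 * (G * κ) := by
    intro v hv
    have q1 := hREG σ Λ τ X₀ v h2 hσ (by linarith only [hU, hΛ₁, hC0, hΛ, hB0, hp]) hτ
    rw [abs_of_pos hX0] at q1
    have q2 := hB Λ (by linarith only [hU, hΛ₁, hC0, hΛ₂, hΛ, hp, hBB])
    have e : 1 + XX P σ Λ / √(VV P σ Λ) = R := rfl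
    rw [e] at q1
    have q3 : C * Λ ^ (-(1 / 64) : ℝ) * (1 + |v|) * R ≤ ε / 16 * (c * κ) / 2 * R := by
      apply mul_le_mul_of_nonneg_right _ (by linarith only [hε1, hδ, hδ0, hR9, e])
      have hΛp : 0 ≤ Λ ^ (-(1 / 64) : ℝ) := by positivity
      calc C * Λ ^ (-(1 / 64) : ℝ) * (1 + |v|)
          ≤ C * (ε / 16 * (c * κ) / (2 * C * (U + 2))) * (U + 2) := by
            apply mul_le_mul _ (by linarith only [hv]) (by (clear * -; positivity)) (by (clear * - hC hε hc hcK hmK hD hU; positivity))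
            exact mul_le_mul_of_nonneg_left q2 hC.le
        _ = ε / 16 * (c * κ) / 2 := by field_simp
    have q4 : X₀ * |J - JJ P τ T σ Λ (X₀ - v)| ≤ X₀ * (ε / 16 * (G * κ)) := by
      refine q1.trans (q3.trans ?_)
      have q5 : c / 2 * R ≤ G * X₀ := by rwa [div_le_iff₀ hX0] at hGlow
      calc ε / 16 * (c * κ) / 2 * R = ε / 16 * κ * (c / 2 * R) := by ring
        _ ≤ ε / 16 * κ * (G * X₀) := mul_le_mul_of_nonneg_left q5 (by (clear * - hε hcK hmK hD hc; positivity))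
        _ = _ := by ring
    exact le_of_mul_le_mul_left q4 hX0
  intro u hu0 hu1
  have ha := al_nonneg P τ σ Λ (X₀ - u)
  have hup : al P τ σ Λ (X₀ - u) ≤ (1 + ε) * G := by
    have q1 := al_le_JJ P hτ0 hτ1 hT0 hδ0.le σ Λ (X₀ - u)
    have e : X₀ - u + δ = X₀ - (u - δ) := by ring
    rw [e] at q1
    have q2 : rexp (-(2 * δ)) * al P τ σ Λ (X₀ - u) * ((1 - η) * κ) ≤
        JJ P τ T σ Λ (X₀ - (u - δ)) := by
      refine le_trans ?_ q1
      exact mul_le_mul_of_nonneg_left hmass (mul_nonneg (exp_pos _).le ha)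
    have q3 := (abs_le.mp (hreg (u - δ) (by rw [abs_le]; constructor <;> linarith only [hε1, hU, hδ, hu0, hδ0, hu1]))).1
    exact up_arith hε hε1 hG0 hκ0 hδ hη1 le_rfl q2 (by linarith only [q3]) hJG
  have hlo : (1 - ε) * G ≤ al P τ σ Λ (X₀ - u) := by
    have q1 := JJ_le_al P hτ0 hτ1 hT0 hδ0.le σ Λ (X₀ - u)
    have e : X₀ - u - δ = X₀ - (u + δ) := by ring
    rw [e] at q1
    have q3 := (abs_le.mp (hreg (u + δ) (by rw [abs_le]; constructor <;> linarith only [hU, hδ0, hu0, hε1, hδ, hu1]))).2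
    have hz : X₀ / 2 ≤ X₀ - (u + δ) := by linarith only [hε1, hΛ₁, hC0, hδ, hδ0, hΛ₂, hΛ, hX, hB0, hp, hu1]
    have q4 := tail_al P hτ0 hT0 hδ0.le (by linarith only [hε1, hU, hΛ₁, hC0, hδ, hδ0, hΛ₂, hΛ, hX, hB0, hp, hu1] : 0 < X₀ - (u + δ)) (D := D * R)
      (σ := σ) (Λ := Λ) (fun y hy => hUB σ Λ τ y h2 hσ (by linarith only [hU, hC0, hΛ₂, hΛ, hB0, hp]) hτ hτ1 hy)
      (by positivity)
    have q5 := tail_arith (e := mK / (1 + (T * δ) ^ 2)) hX0 hz hT1 hmK (by (clear * - hmK hcK hε hD hc; positivity)) hD hc hR1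
      hGlow hcK hκ
    refine lo_arith (e₂ := 8 * D / c * (mK / (1 + (T * δ) ^ 2)) / cK)
      (e₃ := 32 * mK / (c * X₀ * cK)) hε hε1 hG0 hκ0 ha hδ (le_refl (ε / 16)) ?_ ?_ q1
      (q4.trans q5) (by linarith only [q3]) hJG
    · rw [div_le_iff₀ hcK]
      have r1 := mul_le_mul_of_nonneg_left hTδ (by positivity : 0 ≤ 8 * D / c)
      refine r1.trans ?_
      rw [htg]
      have r2 : 8 * D / c * (1 / (1 + 8 * D / c)) ≤ 1 := by
        rw [mul_one_div, div_le_one (by positivity)]; linarith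
      calc 8 * D / c * (cK * (ε / 16) * (1 / (1 + 8 * D / c)))
          = cK * (ε / 16) * (8 * D / c * (1 / (1 + 8 * D / c))) := by ring
        _ ≤ cK * (ε / 16) * 1 := mul_le_mul_of_nonneg_left r2 (by positivity)
        _ = _ := by ring
    · rw [div_le_iff₀ (by positivity)]
      have r1 : 32 * mK / (c * cK) * (16 / ε) ≤ X₀ := by linarith only [hU, hΛ₁, hC0, hΛ₂, hΛ, hX, hB0]
      have r2 := mul_le_mul_of_nonneg_left r1 (by positivity : 0 ≤ c * cK * (ε / 16))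
      have r3 : c * cK * (ε / 16) * (32 * mK / (c * cK) * (16 / ε)) = 32 * mK := by
        field_simp
      rw [r3] at r2
      calc 32 * mK ≤ _ := r2
        _ = _ := by ring
  rw [abs_le]
  constructor <;> linarith only [hlo, hup]

lemma continuous_XX (Λ : ℝ) : Continuous fun σ => XX P σ Λ := by
  unfold XX Xm xs
  apply continuous_finsetSum
  intro p _
  apply Continuous.div (by fun_prop) (by fun_prop)
  intro σ
  positivity

/-- for every target there is a tilt at which the density varies slowly -/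
theorem good {σ₁ σ₂ : ℝ} (h1 : 0 ≤ σ₁) (h12 : σ₁ < σ₂) (hσ₂ : σ₂ ≤ 1) {ε U : ℝ} (hε : 0 < ε)
    (hε1 : ε ≤ 1) (hU : 0 ≤ U) : ∃ Λ₀ : ℝ, 1 ≤ Λ₀ ∧
    ∀ Λ X₀ : ℝ, Λ₀ ≤ Λ → Λ ≤ X₀ → X₀ ≤ XX P σ₂ Λ →
    ∃ σ, σ₂ ≤ σ ∧ σ ≤ 1 ∧ ∃ G, 0 < G ∧
      ∀ u, 0 ≤ u → u ≤ U → |al P (σ - σ₁) σ Λ (X₀ - u) - G| ≤ ε * G := by
  have hC0 := hM.C0
  have hs2 : 0 < σ₂ := by linarith
  have hτ₀ : 0 < σ₂ - σ₁ := by linarith
  obtain ⟨c, hc, b₀, hb₀, Λ₁, hΛ₁, hL⟩ := hM.LBa hτ₀ hs2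
  obtain ⟨c', hc', Λ₂, hΛ₂, hL'⟩ := hM.low (V₀ := rexp b₀) (one_le_exp hb₀)
  obtain ⟨Λ₃, hΛ₃, hS⟩ := hM.slow hτ₀ hs2 hc hε hε1 hU
  obtain ⟨Λ₄, hΛ₄, hS'⟩ := hM.slow hτ₀ hs2 (c := c' / 9) (by positivity) hε hε1 hU
  refine ⟨Λ₁ + Λ₂ + Λ₃ + Λ₄ + 16 * C₀ + 8 * (4 * C₀ + 2), by linarith only [hC0, hΛ₁, hΛ₂, hΛ₃, hΛ₄],
    fun Λ X₀ hΛ hX hX2 => ?_⟩
  have hΛ0 : 0 < Λ := by linarith only [hC0, hΛ₁, hΛ₂, hΛ₃, hΛ₄, hΛ]
  have hΛ16 : 16 * C₀ ≤ Λ := by linarith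
  have hX1 := hM.XX_le (σ := 1) (Λ := Λ) le_rfl (by linarith)
  rw [sub_self, zero_mul, exp_zero, one_mul] at hX1
  rcases le_total X₀ (rexp b₀ * Λ) with hcase | hcase
  · -- first regime
    refine ⟨1, hσ₂, le_rfl, ?_⟩
    apply hS' 1 Λ (1 - σ₁) X₀ hσ₂ le_rfl (by linarith) (by linarith) (by linarith) hX
    intro y hy
    obtain ⟨hy1, hy2⟩ := abs_le.mp hy
    have q1 := hL' Λ (1 - σ₁) y (by linarith) (by linarith) (by linarith) (by linarith) (by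
      rw [add_mul]; linarith)
    refine le_trans ?_ q1
    -- R ≤ 9
    have hR : RR P 1 Λ ≤ 9 := by
      have q2 := hM.VV_ge (σ := 1) zero_le_one le_rfl hΛ16
      rw [sub_self, zero_mul, zero_div, exp_zero, mul_one] at q2
      have q3 : Λ / 8 ≤ √(VV P 1 Λ) := by
        apply le_sqrt_of_sq_le
        refine le_trans (le_of_eq ?_) q2
        ring
      unfold RR
      have q4 : XX P 1 Λ / √(VV P 1 Λ) ≤ 8 := by
        rw [div_le_iff₀ (by linarith only [hC0, hΛ₁, hΛ₂, hΛ₃, hΛ₄, hΛ, q3])]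
        linarith
      linarith only [q4]
    have hR0 : 0 ≤ RR P 1 Λ := by
      have := (hM.RR_ge (σ := 1) (Λ := Λ) zero_le_one le_rfl hΛ16 hΛ0).1
      linarith
    calc c' / 9 * RR P 1 Λ / X₀ ≤ c' / 9 * 9 / Λ := by
          apply div_le_div₀ (by positivity) _ hΛ0 hX
          exact mul_le_mul_of_nonneg_left hR (by positivity)
      _ = c' / Λ := by ring
  · -- second regime
    have hXb : Λ ≤ rexp b₀ * Λ := by
      have := one_le_exp hb₀
      nlinarith only [this, hC0, hΛ₁, hΛ₂, hΛ₃, hΛ₄, hΛ]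
    obtain ⟨σ, hσ, hσX⟩ := intermediate_value_Icc' (f := fun σ => XX P σ Λ) hσ₂
      (hM.continuous_XX Λ).continuousOn ⟨hX1.trans (hXb.trans hcase), hX2⟩
    simp only at hσX
    have hb : b₀ ≤ (1 - σ) * Λ := by
      have q1 := hM.XX_le (σ := σ) (Λ := Λ) hσ.2 (by linarith)
      rw [hσX] at q1
      have q2 := le_of_mul_le_mul_right (hcase.trans q1) hΛ0
      exact exp_le_exp.mp q2
    refine ⟨σ, hσ.1, hσ.2, ?_⟩
    apply hS σ Λ (σ - σ₁) X₀ hσ.1 hσ.2 (by linarith) (by linarith [hσ.1]) (by linarith [hσ.2]) hX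
    intro y hy
    have q1 := hL σ Λ (σ - σ₁) y hσ.1 hσ.2 (by linarith only [hC0, hΛ₂, hΛ₃, hΛ₄, hΛ]) hb (by linarith [hσ.1])
      (by linarith only [h1, hσ, hσ.2]) (by rw [hσX]; exact hy)
    rwa [hσX] at q1

end MDat

end Pool.Agent.MP0016c7.Ros
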