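import Mathlib
import Pool.Agent.Lib.MP_0016c7_nt.RosAsm
import Pool.Agent.Lib.MP_0016c7_nt.RosGood3

open Real Set MeasureTheory Filter Topology

namespace Pool.Agent.MP0016c7.Ros

variable {N : ℕ} [NeZero N] {χ : DirichletCharacter ℂ N}

lemma tendsto_xs {s : ℝ} (hs : 0 < s) : Tendsto (fun n : ℕ => xs s (n + 1)) atTop (𝓝 0) := by
  unfold xs lg
  have h1 : Tendsto (fun n : ℕ => Real.log ((n + 1 : ℕ) : ℝ)) atTop atTop :=
    Real.tendsto_log_atTop.comp (tendsto_natCast_atTop_atTop.comp (tendsto_add_atTop_nat 1))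
  have h2 : Tendsto (fun n : ℕ => s * Real.log ((n + 1 : ℕ) : ℝ)) atTop atTop :=
    h1.const_mul_atTop hs
  exact Real.tendsto_exp_neg_atTop_nhds_zero.comp h2

/-- changing the exponent by summation by parts -/
lemma raise_exponent (f : ℕ → ℝ) (P : Finset ℕ) {s t : ℝ} (hst : s ≤ t) {K : ℕ} (hK : 1 ≤ K)
    (h : ∀ k, 1 ≤ k → k ≤ K → 1 ≤ Fs (fun n => f n * xs s n) P k) :
    1 ≤ Fs (fun n => f n * xs t n) P K := by
  classical
  set c : ℕ → ℝ := fun n => if ∀ p ∈ P, ¬ p ∣ n then f n * xs s n else 0 with hc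
  have hFs : ∀ k, Fs (fun n => f n * xs s n) P k = ∑ n ∈ Finset.Ico 1 (k + 1), c n := by
    intro k
    unfold Fs
    rw [Finset.sum_filter, Finset.Ico_add_one_right_eq_Icc]
  have h1 := abel_ge (c := c) (w := fun n => xs (t - s) n) (a := 1) (b := K + 1) (by omega)
    (fun n hn hn' => by
      obtain ⟨k, rfl⟩ := Nat.exists_eq_add_of_le' hn.le
      rw [← hFs]
      exact h k (by omega) (by omega))
    (fun n hn => xs_anti (by linarith) hn (by omega)) (fun n _ => (xs_pos _ n).le)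
  have h2 : xs (t - s) 1 = 1 := by unfold xs lg; simp
  have h3 : ∑ n ∈ Finset.Ico 1 (K + 1), c n * xs (t - s) n = Fs (fun n => f n * xs t n) P K := by
    unfold Fs
    rw [Finset.sum_filter, Finset.Ico_add_one_right_eq_Icc]
    apply Finset.sum_congr rfl
    intro n _
    rw [hc]
    simp only
    split_ifs
    · have e : xs s n * xs (t - s) n = xs t n := by
        unfold xs
        rw [← exp_add]
        congr 1
        ring
      rw [mul_assoc, e]
    · rw [zero_mul]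
  rw [h2, h3] at h1
  exact h1

lemma floor_exp_lg {k : ℕ} (hk : 1 ≤ k) : ⌊rexp (lg k)⌋₊ = k := by
  unfold lg
  rw [Real.exp_log (by exact_mod_cast hk), Nat.floor_natCast]

/-- The induced character method succeeds on every interval free of zeros. -/
theorem forward (hne : χ ≠ 1) (h2 : χ ^ 2 = 1) {σ₀ : ℝ} (h0 : 0 < σ₀) (h1 : σ₀ < 1)
    (hL : ∀ s, σ₀ ≤ s → s < 1 → 0 < Lr χ s) :
    ∃ Λ₀ : ℝ, ∀ Λ, Λ₀ ≤ Λ → ∀ K : ℕ, 1 ≤ K → 1 ≤ Fs (fc χ σ₀) (iP χ Λ) K := by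
  obtain ⟨C₀, C₁, Cs, hM⟩ := exists_mdat χ h2 hne
  obtain ⟨σ₂, hσ₂, hσ₂₀, ℓ, hℓ, hLℓ⟩ := exists_region hne h2 h0 h1 hL
  have hN : (0 : ℝ) ≤ N := Nat.cast_nonneg N
  -- the parameters
  obtain ⟨M₀, hM₀⟩ : ∃ M₀ : ℕ, 3 * (N * xs σ₂ (M₀ + 1)) ≤ ℓ / 4 := by
    have h3 : Tendsto (fun n : ℕ => 3 * ((N : ℝ) * xs σ₂ (n + 1))) atTop (𝓝 0) := by
      have := ((tendsto_xs hσ₂).const_mul (N : ℝ)).const_mul 3
      simpa using this
    have h4 := h3.eventually (gt_mem_nhds (by positivity : 0 < ℓ / 4))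
    obtain ⟨M, hM'⟩ := h4.exists
    exact ⟨M, hM'.le⟩
  set ε : ℝ := min 1 (ℓ / 4 / (M₀ + 1)) with hε
  have hε0 : 0 < ε := lt_min one_pos (by positivity)
  have hε1 : ε ≤ 1 := min_le_left _ _
  have hεM : ε * M₀ ≤ ℓ / 4 := by
    have h3 : ε ≤ ℓ / 4 / (M₀ + 1) := min_le_right _ _
    have h4 : (0 : ℝ) < M₀ + 1 := by positivity
    rw [le_div_iff₀ h4] at h3
    have h5 : ε * M₀ ≤ ε * (M₀ + 1) := mul_le_mul_of_nonneg_left (by linarith) hε0.le
    linarith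
  obtain ⟨Λ₁, hΛ₁, hgood⟩ := hM.good (σ₁ := σ₂ / 2) (σ₂ := σ₂) (by linarith) (by linarith)
    (by linarith) hε0 hε1 (lg_nonneg (M₀ + 1))
  set θ := σ₀ - σ₂ with hθ
  have hθ0 : 0 < θ := by rw [hθ]; linarith
  set L₀ := Lr χ σ₀ with hL₀
  have hL₀pos : 0 < L₀ := hL σ₀ le_rfl h1
  obtain ⟨Λ₂, hΛ₂, hg1⟩ := hM.growth (s := σ₂ / 2) (by linarith) (4 / ℓ)
  obtain ⟨Λ₃, hΛ₃, hg2⟩ := hM.growth (s := σ₂) (by linarith) (4 * N / L₀)
  obtain ⟨Λ₄, hΛ₄, hg3⟩ := hM.growth (s := σ₀) h1 (2 / L₀)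
  refine ⟨Λ₁ + Λ₂ + Λ₃ + Λ₄ + lg (M₀ + 1) + 8 / θ, fun Λ hΛ K hK => ?_⟩
  have hp1 := lg_nonneg (M₀ + 1)
  have hp2 : 0 < 8 / θ := by positivity
  have hΛ0 : 0 < Λ := by linarith
  set X := lg K with hX
  have hX0 : 0 ≤ X := lg_nonneg K
  have hKX : ⌊rexp X⌋₊ = K := floor_exp_lg hK
  rcases le_total X (XX (iP χ) σ₂ Λ) with hcase | hcase
  · -- below the mean
    have hlow : ∀ k, 1 ≤ k → k ≤ K → 1 ≤ Fs (fc χ (σ₂ / 2)) (iP χ Λ) k := by
      intro k hk hkK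
      have hkX : lg k ≤ X := by
        unfold X lg
        exact Real.log_le_log (by exact_mod_cast hk) (by exact_mod_cast hkK)
      rw [← floor_exp_lg hk]
      rcases le_total (lg k) Λ with hs | hs
      · exact small_range h2 _ (lg_nonneg k) hs
      · obtain ⟨σ, hσ, hσ1, G, hG, hG'⟩ := hgood Λ (lg k) (by linarith) hs (hkX.trans hcase)
        have h5 := main_range hne h2 (σ₁ := σ₂ / 2) (by linarith) (by linarith) hσ hσ1 hℓ hLℓ hG
          hε1 hM₀ hεM (by linarith) hG'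
        refine le_trans ?_ h5
        have h6 : 4 / ℓ ≤ A1 (iP χ Λ) (σ₂ / 2) (lg k) := by
          refine (hg1 Λ (by linarith)).trans ?_
          refine le_trans ?_ (A1_ge (iP χ Λ) (σ₂ / 2) fun p hp => ((mem_iP χ).mp hp).2.2.trans hs)
          exact Finset.sum_le_sum_of_subset_of_nonneg (Finset.filter_subset _ _)
            fun p _ _ => (xs_pos _ p).le
        have h7 := mul_le_mul_of_nonneg_left h6 (by positivity : 0 ≤ ℓ / 4)
        have h8 : ℓ / 4 * (4 / ℓ) = 1 := by field_simp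
        linarith
    exact raise_exponent (rchar χ) (iP χ Λ) (by linarith) hK hlow
  · -- above the mean
    have h3 := rankin (P := iP χ Λ) hne h2 (fun p hp => iP_prime hp)
      (fun p hp => ((mem_iP χ).mp hp).2.1) (s := σ₀) (θ := θ) (X := X) h0 hθ0.le
      (by rw [hθ]; linarith)
    rw [hKX] at h3
    have e1 : σ₀ - θ = σ₂ := by rw [hθ]; ring
    rw [e1] at h3
    have h4 := Zt_gap (iP χ Λ) (σ₂ := σ₂) (θ := θ) hσ₂.le hθ0.le
    have e2 : σ₂ + θ = σ₀ := by rw [hθ]; ring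
    rw [e2] at h4
    set Z₀ := Zt (iP χ Λ) (xs σ₀) with hZ₀
    set Z₂ := Zt (iP χ Λ) (xs σ₂) with hZ₂
    have hZ₂0 : 0 < Z₂ := Zt_pos fun p => xs_pos σ₂ p
    have hXX : Xm (iP χ Λ) (xs σ₂) lg = XX (iP χ) σ₂ Λ := rfl
    rw [hXX] at h4
    set S := ∑ p ∈ iP χ Λ with 4 ≤ θ * lg p, xs σ₂ p / 2 with hS
    have hSge : 2 * N / L₀ ≤ S := by
      have h5 := hg2 Λ (by linarith)
      have h6 : ∑ p ∈ iP χ Λ with ¬ (lg p ≤ Λ / 2), xs σ₂ p / 2 ≤ S := by
        apply Finset.sum_le_sum_of_subset_of_nonneg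
        · intro p hp
          rw [Finset.mem_filter, not_le] at hp
          rw [Finset.mem_filter]
          refine ⟨hp.1, ?_⟩
          have h7 : 8 / θ ≤ Λ := by linarith
          rw [div_le_iff₀ hθ0] at h7
          have h8 : θ * (Λ / 2) ≤ θ * lg p := mul_le_mul_of_nonneg_left hp.2.le hθ0.le
          linarith
        · intro p _ _
          have := xs_pos σ₂ p
          positivity
      rw [← Finset.sum_div] at h6
      have h7 : 4 * N / L₀ = 2 * (2 * N / L₀) := by ring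
      linarith
    have hE : rexp (-(θ * X)) ≤ rexp (-(θ * XX (iP χ) σ₂ Λ)) := by
      rw [exp_le_exp, neg_le_neg_iff]
      exact mul_le_mul_of_nonneg_left hcase hθ0.le
    have hZ₀ge : 2 / L₀ ≤ Z₀ := by
      have h5 := hg3 Λ (by linarith)
      have h6 := one_add_sum_le (P := iP χ Λ) (f := xs σ₀) fun p _ => (xs_pos σ₀ p).le
      have h7 : ∑ p ∈ iP χ Λ with ¬ (lg p ≤ Λ / 2), xs σ₀ p ≤ ∑ p ∈ iP χ Λ, xs σ₀ p :=
        Finset.sum_le_sum_of_subset_of_nonneg (Finset.filter_subset _ _)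
            fun p _ _ => (xs_pos _ p).le
      have h8 : Z₀ = ∏ p ∈ iP χ Λ, (1 + xs σ₀ p) := rfl
      rw [h8]
      linarith
    have hS0 : 0 ≤ S := le_trans (by positivity) hSge
    -- error term
    set W := rexp (-(θ * XX (iP χ) σ₂ Λ)) * Z₂ with hW
    have hW0 : 0 < W := by positivity
    have h9 : W * (1 + S) ≤ Z₀ := by
      calc W * (1 + S) = Z₂ * rexp (-(θ * XX (iP χ) σ₂ Λ)) * (1 + S) := by rw [hW]; ring
        _ ≤ Z₀ := h4
    have h10 : N * (rexp (-(θ * X)) * Z₂) ≤ N * W := by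
      apply mul_le_mul_of_nonneg_left _ hN
      exact mul_le_mul_of_nonneg_right hE hZ₂0.le
    have h11 : N * W ≤ L₀ / 2 * Z₀ := by
      have q1 : (N : ℝ) ≤ L₀ / 2 * (1 + S) := by
        have q2 := mul_le_mul_of_nonneg_left hSge (by positivity : 0 ≤ L₀ / 2)
        have q3 : L₀ / 2 * (2 * N / L₀) = N := by field_simp
        rw [q3] at q2
        have : 0 < L₀ / 2 := by positivity
        linarith
      calc N * W ≤ L₀ / 2 * (1 + S) * W := mul_le_mul_of_nonneg_right q1 hW0.le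
        _ = L₀ / 2 * (W * (1 + S)) := by ring
        _ ≤ _ := mul_le_mul_of_nonneg_left h9 (by positivity)
    have h12 := (abs_le.mp (h3.trans (h10.trans h11))).1
    have h13 : (DirichletCharacter.LFunction χ σ₀).re = L₀ := rfl
    rw [h13] at h12
    have h14 : L₀ / 2 * Z₀ ≤ Fs (fc χ σ₀) (iP χ Λ) K := by linarith
    refine le_trans ?_ h14
    have h15 := mul_le_mul_of_nonneg_left hZ₀ge (by positivity : 0 ≤ L₀ / 2)
    have h16 : L₀ / 2 * (2 / L₀) = 1 := by field_simp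
    linarith

end Pool.Agent.MP0016c7.Ros
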