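import Mathlib
import Pool.Agent.Lib.MP_0016c7_nt.RosForward
import Pool.Agent.Lib.MP_0016c7_nt.FekSer

open Real Set MeasureTheory Filter Topology

namespace Pool.Agent.MP0016c7.Ros

open DirichletCharacter

variable {N : ℕ} [NeZero N] {χ : DirichletCharacter ℂ N}

/-- partial sums of the character -/
noncomputable def Sn (χ : DirichletCharacter ℂ N) (n : ℕ) : ℝ := ∑ k ∈ Finset.Icc 1 n, rchar χ k

/-- mean value of the partial sums -/
noncomputable def Sbar (χ : DirichletCharacter ℂ N) : ℝ := (∑ k ∈ Finset.range N, Sn χ k) / N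

omit [NeZero N] in
@[simp] lemma Sn_zero : Sn χ 0 = 0 := by simp [Sn]

omit [NeZero N] in
lemma Sn_succ (n : ℕ) : Sn χ (n + 1) = Sn χ n + rchar χ (n + 1) := by
  unfold Sn
  rw [Finset.sum_Icc_succ_top (by omega)]

omit [NeZero N] in
lemma Sn_eq_Ico (n : ℕ) : Sn χ n = ∑ k ∈ Finset.Ico 1 (n + 1), rchar χ k := by
  unfold Sn
  rw [Finset.Ico_add_one_right_eq_Icc]

lemma abs_Sn_le (hne : χ ≠ 1) (n : ℕ) : |Sn χ n| ≤ N := by
  rw [Sn_eq_Ico]
  exact abs_block hne le_rfl _

omit [NeZero N] in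
lemma Sn_sub_range (n : ℕ) (hr0 : rchar χ 0 = 0) : Sn χ n = ∑ k ∈ Finset.range (n + 1), rchar χ k := by
  rw [Finset.sum_range_succ', hr0, add_zero, Sn_eq_Ico, Finset.sum_Ico_eq_sum_range]
  simp only [Nat.add_sub_cancel]
  exact Finset.sum_congr rfl fun k _ => by rw [add_comm]

lemma Sn_add_N (hne : χ ≠ 1) (n : ℕ) : Sn χ (n + N) = Sn χ n := by
  have hN := modulus_ne_one hne
  have hr0 : rchar χ 0 = 0 := by simp
  induction n with
  | zero =>
    rw [zero_add, Sn_zero]
    have h1 := sum_rchar_range hne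
    have h2 := Sn_sub_range (χ := χ) (N - 1) hr0
    have hN1 : N - 1 + 1 = N := Nat.succ_pred_eq_of_pos (NeZero.pos N)
    rw [hN1, h1] at h2
    have h3 := Sn_succ (χ := χ) (N - 1)
    rw [hN1, h2, zero_add] at h3
    rw [h3]
    have h4 := rchar_add_N (χ := χ) hN 0
    rw [zero_add, hr0] at h4
    exact h4
  | succ n ih =>
    have e : n + 1 + N = (n + N) + 1 := by ring
    rw [e, Sn_succ, ih, Sn_succ]
    congr 1
    have e2 : n + N + 1 = (n + 1) + N := by ring
    rw [e2, rchar_add_N hN]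

lemma Sn_mod (hne : χ ≠ 1) (n : ℕ) : Sn χ (n % N) = Sn χ n := by
  have h : ∀ k, Sn χ (n % N + N * k) = Sn χ (n % N) := by
    intro k
    induction k with
    | zero => simp
    | succ k ih =>
      rw [← ih]
      have : n % N + N * (k + 1) = (n % N + N * k) + N := by ring
      rw [this, Sn_add_N hne]
  have := h (n / N)
  rw [Nat.mod_add_div] at this
  exact this.symm

/-- centred partial sums -/
noncomputable def cs (χ : DirichletCharacter ℂ N) (n : ℕ) : ℝ := Sn χ n - Sbar χ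

lemma cs_period (hne : χ ≠ 1) (a : ℕ) : ∑ k ∈ Finset.range N, cs χ (a + k) = 0 := by
  have hN0 : (N : ℝ) ≠ 0 := by exact_mod_cast NeZero.ne N
  induction a with
  | zero =>
    unfold cs
    simp only [zero_add]
    rw [Finset.sum_sub_distrib, Finset.sum_const, Finset.card_range, nsmul_eq_mul]
    unfold Sbar
    field_simp
    ring
  | succ a ih =>
    have h1 := Finset.sum_range_succ (fun k => cs χ (a + k)) N
    have h2 := Finset.sum_range_succ' (fun k => cs χ (a + k)) N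
    have h3 : cs χ (a + N) = cs χ a := by unfold cs; rw [Sn_add_N hne]
    rw [h1, ih, h3, zero_add] at h2
    have h4 : ∑ k ∈ Finset.range N, cs χ (a + 1 + k) = ∑ k ∈ Finset.range N, cs χ (a + (k + 1)) :=
      Finset.sum_congr rfl fun k _ => by congr 1; ring
    rw [h4]
    simp only [add_zero] at h2
    linarith

lemma abs_Sbar_le (hne : χ ≠ 1) : |Sbar χ| ≤ N := by
  have hN0 : (0 : ℝ) < N := by exact_mod_cast NeZero.pos N
  unfold Sbar
  rw [abs_div, abs_of_pos hN0, div_le_iff₀ hN0]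
  refine (Finset.abs_sum_le_sum_abs _ _).trans ?_
  calc ∑ k ∈ Finset.range N, |Sn χ k| ≤ ∑ _k ∈ Finset.range N, (N : ℝ) :=
        Finset.sum_le_sum fun k _ => abs_Sn_le hne k
    _ = _ := by rw [Finset.sum_const, Finset.card_range, nsmul_eq_mul]

lemma abs_cs_le (hne : χ ≠ 1) (n : ℕ) : |cs χ n| ≤ 2 * N := by
  unfold cs
  have h1 := abs_Sn_le hne n
  have h2 := abs_Sbar_le hne
  have := abs_sub (Sn χ n) (Sbar χ)
  linarith

lemma abs_sum_cs_le (hne : χ ≠ 1) (n : ℕ) :
    |∑ k ∈ Finset.Ico 1 n, cs χ k| ≤ 2 * (N : ℝ) ^ 2 := by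
  induction n using Nat.strong_induction_on with
  | _ n ih =>
    rcases lt_or_ge n (N + 1) with h | h
    · refine (Finset.abs_sum_le_sum_abs _ _).trans ?_
      calc ∑ k ∈ Finset.Ico 1 n, |cs χ k| ≤ ∑ _k ∈ Finset.Ico 1 n, (2 * (N : ℝ)) :=
            Finset.sum_le_sum fun k _ => abs_cs_le hne k
        _ = ((n - 1 : ℕ) : ℝ) * (2 * N) := by
            rw [Finset.sum_const, Nat.card_Ico, nsmul_eq_mul]
        _ ≤ N * (2 * N) := by
            apply mul_le_mul_of_nonneg_right _ (by positivity)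
            exact_mod_cast (by omega : n - 1 ≤ N)
        _ = _ := by ring
    · have hN := NeZero.pos N
      have h1 := ih (n - N) (by omega)
      have h2 : ∑ k ∈ Finset.Ico 1 n, cs χ k = ∑ k ∈ Finset.Ico 1 (n - N), cs χ k +
          ∑ k ∈ Finset.Ico (n - N) n, cs χ k :=
        (Finset.sum_Ico_consecutive _ (by omega) (by omega)).symm
      have h3 : ∑ k ∈ Finset.Ico (n - N) n, cs χ k = 0 := by
        rw [Finset.sum_Ico_eq_sum_range]
        have : n - (n - N) = N := by omega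
        rw [this]
        exact cs_period hne (n - N)
      rw [h2, h3, add_zero]
      exact h1

/-- tail weights -/
noncomputable def wt (s : ℝ) (M n : ℕ) : ℝ := ∫ u in (lg n)..(lg (M + 1)), rexp (-(s * u))

/-- the weighted integral of the partial sums up to `M` -/
noncomputable def Jq (χ : DirichletCharacter ℂ N) (s : ℝ) (M : ℕ) : ℝ :=
  ∑ n ∈ Finset.Icc 1 M, rchar χ n * wt s M n

/-- increments -/
noncomputable def dl (s : ℝ) (n : ℕ) : ℝ := ∫ u in (lg n)..(lg (n + 1)), rexp (-(s * u))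

lemma intervalIntegrable_exp (s a b : ℝ) :
    IntervalIntegrable (fun u => rexp (-(s * u))) volume a b := by
  apply Continuous.intervalIntegrable
  fun_prop

lemma wt_sub (s : ℝ) (M n : ℕ) : wt s M n - wt s M (n + 1) = dl s n := by
  unfold wt dl
  have h := intervalIntegral.integral_add_adjacent_intervals (intervalIntegrable_exp s (lg n)
    (lg (n + 1))) (intervalIntegrable_exp s (lg (n + 1)) (lg (M + 1)))
  linarith

lemma wt_self (s : ℝ) (M : ℕ) : wt s M (M + 1) = 0 := by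
  unfold wt; exact intervalIntegral.integral_same

lemma lg_mono {m n : ℕ} (hm : 1 ≤ m) (h : m ≤ n) : lg m ≤ lg n := by
  unfold lg
  exact Real.log_le_log (by exact_mod_cast hm) (by exact_mod_cast h)

lemma lg_one : lg 1 = 0 := by simp [lg]

lemma dl_nonneg (s : ℝ) {n : ℕ} (hn : 1 ≤ n) : 0 ≤ dl s n := by
  unfold dl
  apply intervalIntegral.integral_nonneg (lg_mono hn (by omega))
  intro u _
  positivity

lemma dl_bounds {s : ℝ} (hs : 0 ≤ s) {n : ℕ} (hn : 1 ≤ n) :
    (lg (n + 1) - lg n) * rexp (-(s * lg (n + 1))) ≤ dl s n ∧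
      dl s n ≤ (lg (n + 1) - lg n) * rexp (-(s * lg n)) := by
  have hle := lg_mono hn (Nat.le_succ n)
  unfold dl
  constructor
  · have h := intervalIntegral.integral_mono_on (μ := volume) hle
      (f := fun _ => rexp (-(s * lg (n + 1)))) (g := fun u => rexp (-(s * u)))
      intervalIntegrable_const (intervalIntegrable_exp s _ _) (fun u hu => by
        rw [exp_le_exp, neg_le_neg_iff]
        exact mul_le_mul_of_nonneg_left hu.2 hs)
    rw [intervalIntegral.integral_const, smul_eq_mul] at h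
    exact h
  · have h := intervalIntegral.integral_mono_on (μ := volume) hle
      (g := fun _ => rexp (-(s * lg n))) (f := fun u => rexp (-(s * u)))
      (intervalIntegrable_exp s _ _) intervalIntegrable_const (fun u hu => by
        rw [exp_le_exp, neg_le_neg_iff]
        exact mul_le_mul_of_nonneg_left hu.1 hs)
    rw [intervalIntegral.integral_const, smul_eq_mul] at h
    exact h

lemma lg_gap_anti {n : ℕ} (hn : 1 ≤ n) : lg (n + 1 + 1) - lg (n + 1) ≤ lg (n + 1) - lg n := by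
  unfold lg
  have h0 : (0 : ℝ) < n := by exact_mod_cast hn
  push_cast
  rw [← Real.log_div (by positivity) (by positivity), ← Real.log_div (by positivity) h0.ne']
  apply Real.log_le_log (by positivity)
  rw [div_le_div_iff₀ (by positivity) h0]
  nlinarith

lemma dl_anti {s : ℝ} (hs : 0 ≤ s) {n : ℕ} (hn : 1 ≤ n) : dl s (n + 1) ≤ dl s n := by
  have h1 := (dl_bounds hs (n := n + 1) (by omega)).2
  have h2 := (dl_bounds hs hn).1
  have h3 := lg_gap_anti hn
  refine h1.trans (le_trans ?_ h2)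
  exact mul_le_mul_of_nonneg_right h3 (exp_pos _).le

lemma dl_one_le {s : ℝ} (hs : 0 ≤ s) : dl s 1 ≤ 1 := by
  have h := (dl_bounds hs (n := 1) le_rfl).2
  rw [lg_one, mul_zero, neg_zero, exp_zero, mul_one, sub_zero] at h
  refine h.trans ?_
  unfold lg
  have := Real.log_two_lt_d9
  push_cast
  norm_num
  linarith

lemma Jq_eq (s : ℝ) (M : ℕ) : Jq χ s M = ∑ n ∈ Finset.Ico 1 (M + 1), Sn χ n * dl s n := by
  unfold Jq
  rw [← Finset.Ico_add_one_right_eq_Icc, abel_id (fun n => rchar χ n) (fun n => wt s M n)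
    (by omega), wt_self, mul_zero, zero_add]
  apply Finset.sum_congr rfl
  intro n _
  rw [wt_sub, Sn_eq_Ico]

lemma sum_dl (s : ℝ) (M : ℕ) : ∑ n ∈ Finset.Ico 1 (M + 1), dl s n = wt s M 1 := by
  have h : ∀ n ∈ Finset.Ico 1 (M + 1), dl s n = -(wt s M (n + 1)) - -(wt s M n) := by
    intro n _
    rw [← wt_sub s M n]; ring
  rw [Finset.sum_congr rfl h, Finset.sum_Ico_sub (fun n => -(wt s M n)) (by omega), wt_self]
  ring

/-- the weighted integral against its mean -/
theorem Jq_mean (hne : χ ≠ 1) {s : ℝ} (hs : 0 ≤ s) (M : ℕ) :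
    |Jq χ s M - Sbar χ * wt s M 1| ≤ 2 * (N : ℝ) ^ 2 := by
  have h1 : Jq χ s M - Sbar χ * wt s M 1 = ∑ n ∈ Finset.Ico 1 (M + 1), cs χ n * dl s n := by
    rw [Jq_eq, ← sum_dl, Finset.mul_sum, ← Finset.sum_sub_distrib]
    apply Finset.sum_congr rfl
    intro n _
    unfold cs
    ring
  rw [h1]
  have h2 := abel_le (c := cs χ) (w := dl s) (a := 1) (b := M + 1) (abs_sum_cs_le hne)
    (fun n hn => dl_anti hs hn) (fun n hn => dl_nonneg s hn)
  refine h2.trans ?_
  have h3 := dl_one_le hs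
  have : 0 ≤ 2 * (N : ℝ) ^ 2 := by positivity
  nlinarith

lemma wt_formula {s : ℝ} (hs : 0 < s) (M n : ℕ) : wt s M n = (xs s n - xs s (M + 1)) / s := by
  unfold wt xs
  have h : ∀ u : ℝ, HasDerivAt (fun u => -(rexp (-(s * u)) / s)) (rexp (-(s * u))) u := by
    intro u
    have h1 : HasDerivAt (fun u : ℝ => -(s * u)) (-(s * 1)) u :=
      ((hasDerivAt_id u).const_mul s).fun_neg
    have h2 := (h1.exp.div_const s).fun_neg
    have e : rexp (-(s * u)) = -(rexp (-(s * u)) * -(s * 1) / s) := by field_simp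
    rw [e]
    exact h2
  rw [intervalIntegral.integral_eq_sub_of_hasDerivAt (fun u _ => h u)
    (intervalIntegrable_exp s _ _)]
  ring

/-- the weighted integral and the L-function -/
theorem Jq_Lr (hne : χ ≠ 1) (h2 : χ ^ 2 = 1) {s : ℝ} (hs : 0 < s) (M : ℕ) :
    |s * Jq χ s M - Lr χ s| ≤ 2 * (N * xs s (M + 1)) := by
  have h1 : s * Jq χ s M = ∑ n ∈ Finset.Icc 1 M, rchar χ n * xs s n - xs s (M + 1) * Sn χ M := by
    unfold Jq Sn
    rw [Finset.mul_sum, Finset.mul_sum, ← Finset.sum_sub_distrib]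
    apply Finset.sum_congr rfl
    intro n _
    rw [wt_formula hs]
    field_simp
  have h3 := abs_partial_sub hne h2 hs M
  have h4 := abs_Sn_le hne M
  have hx := xs_pos s (M + 1)
  have h5 : s * Jq χ s M - Lr χ s = (∑ n ∈ Finset.Icc 1 M, rchar χ n * xs s n -
      (LFunction χ s).re) - xs s (M + 1) * Sn χ M := by
    rw [h1]; unfold Lr; ring
  rw [h5]
  refine (abs_sub _ _).trans ?_
  rw [abs_mul, abs_of_pos hx]
  have h6 := mul_le_mul_of_nonneg_left h4 hx.le
  linarith

/-- the L-function at small arguments -/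
theorem Lr_near_zero (hne : χ ≠ 1) (h2 : χ ^ 2 = 1) {s : ℝ} (hs : 0 < s) :
    |Lr χ s - Sbar χ| ≤ 2 * (N : ℝ) ^ 2 * s := by
  have hN : (0 : ℝ) ≤ N := Nat.cast_nonneg N
  have hlim := tendsto_xs hs
  have hb : ∀ M : ℕ, |Lr χ s - Sbar χ| ≤ 2 * (N : ℝ) ^ 2 * s + 3 * N * xs s (M + 1) := by
    intro M
    have h1 := Jq_mean hne hs.le M
    have h3 := Jq_Lr hne h2 hs M
    have h4 : Sbar χ * (s * wt s M 1) = Sbar χ - Sbar χ * xs s (M + 1) := by
      rw [wt_formula hs]
      have : xs s 1 = 1 := by unfold xs; rw [lg_one]; simp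
      rw [this]
      field_simp
    have h5 : |s * Jq χ s M - Sbar χ * (s * wt s M 1)| ≤ 2 * (N : ℝ) ^ 2 * s := by
      have : s * Jq χ s M - Sbar χ * (s * wt s M 1) = (Jq χ s M - Sbar χ * wt s M 1) * s := by ring
      rw [this, abs_mul, abs_of_pos hs]
      exact mul_le_mul_of_nonneg_right h1 hs.le
    have h6 : |Sbar χ * xs s (M + 1)| ≤ N * xs s (M + 1) := by
      rw [abs_mul, abs_of_pos (xs_pos s _)]
      exact mul_le_mul_of_nonneg_right (abs_Sbar_le hne) (xs_pos s _).le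
    rw [h4] at h5
    rw [abs_le] at h3 h5 h6 ⊢
    constructor <;> linarith [h3.1, h3.2, h5.1, h5.2, h6.1, h6.2]
  have hlim2 : Tendsto (fun M : ℕ => 2 * (N : ℝ) ^ 2 * s + 3 * N * xs s (M + 1)) atTop
      (𝓝 (2 * (N : ℝ) ^ 2 * s)) := by
    have := (hlim.const_mul (3 * (N : ℝ))).const_add (2 * (N : ℝ) ^ 2 * s)
    simpa using this
  exact ge_of_tendsto' hlim2 hb

theorem Lr_zero_eq (hne : χ ≠ 1) (h2 : χ ^ 2 = 1) : Lr χ 0 = Sbar χ := by
  have hc := (continuous_Lr hne).tendsto 0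
  have h1 : Tendsto (fun s => Lr χ s) (𝓝[>] 0) (𝓝 (Lr χ 0)) := hc.mono_left nhdsWithin_le_nhds
  have h3 : Tendsto (fun s => Lr χ s) (𝓝[>] (0 : ℝ)) (𝓝 (Sbar χ)) := by
    rw [tendsto_iff_norm_sub_tendsto_zero]
    have h4 : Tendsto (fun s : ℝ => 2 * (N : ℝ) ^ 2 * s) (𝓝[>] (0 : ℝ)) (𝓝 0) := by
      have : Tendsto (fun s : ℝ => 2 * (N : ℝ) ^ 2 * s) (𝓝 (0 : ℝ)) (𝓝 (2 * (N : ℝ) ^ 2 * 0)) :=
        (continuous_const.mul continuous_id).tendsto 0
      rw [mul_zero] at this
      exact this.mono_left nhdsWithin_le_nhds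
    refine squeeze_zero' (Eventually.of_forall fun s => norm_nonneg _) ?_ h4
    filter_upwards [self_mem_nhdsWithin] with s hs
    exact Lr_near_zero hne h2 hs
  exact tendsto_nhds_unique h1 h3

end Pool.Agent.MP0016c7.Ros
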