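import Mathlib

open Complex HurwitzZeta Filter Topology Asymptotics Set MeasureTheory
open scoped Real

namespace Pool.Agent.MP0016c7

/-! ### Sums over residue classes of integers -/

lemma hasSum_int_residue {q : ℕ} [NeZero q] (Φ : ZMod q → ℂ) (f : ℤ → ℂ) (S : ZMod q → ℂ)
    (h : ∀ j : ZMod q, HasSum (fun m : ℤ => f (q * m + j.val)) (S j)) :
    HasSum (fun n : ℤ => Φ n * f n) (∑ j : ZMod q, Φ j * S j) := by
  have h1 : ∀ j : ZMod q, HasSum (fun n : ℤ => if (n : ZMod q) = j then Φ j * f n else 0)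
      (Φ j * S j) := by
    intro j
    have hinj : Function.Injective (fun m : ℤ => (q : ℤ) * m + (j.val : ℤ)) := by
      intro a b hab
      have hq : (q : ℤ) ≠ 0 := by exact_mod_cast (NeZero.ne q)
      have hab' : (q : ℤ) * a = (q : ℤ) * b := by
        have := hab
        simp only at this
        linarith
      exact mul_left_cancel₀ hq hab'
    rw [← hinj.hasSum_iff]
    · refine (((h j).mul_left (Φ j))).congr_fun ?_
      intro m
      simp [Function.comp]
    · intro n hn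
      rw [if_neg]
      intro hnj
      apply hn
      have hd : (q : ℤ) ∣ (n - j.val) := by
        rw [← ZMod.intCast_zmod_eq_zero_iff_dvd]
        push_cast
        rw [hnj]
        simp
      obtain ⟨m, hm⟩ := hd
      exact ⟨m, by simp only; linarith⟩
  have h2 := hasSum_sum (s := Finset.univ) (fun j _ => h1 j)
  refine h2.congr_fun ?_
  intro n
  simp

section Kernels

variable {q : ℕ} [NeZero q] (χ : DirichletCharacter ℂ q)

/-- The even theta kernel of `χ`: equal to `∑_{n ∈ ℤ} χ(n) exp(-π n² t / q)` for `t > 0`. -/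
noncomputable def thE (t : ℝ) : ℂ :=
  ∑ j : ZMod q, χ j * (evenKernel (ZMod.toAddCircle j) (q * t) : ℂ)

/-- The odd theta kernel of `χ`: equal to `∑_{n ∈ ℤ} χ(n) n exp(-π n² t / q)` for `t > 0`. -/
noncomputable def thO (t : ℝ) : ℂ :=
  q * ∑ j : ZMod q, χ j * (oddKernel (ZMod.toAddCircle j) (q * t) : ℂ)

lemma hasSum_thE {t : ℝ} (ht : 0 < t) :
    HasSum (fun n : ℤ => χ n * (rexp (-π * n ^ 2 * t / q) : ℂ)) (thE χ t) := by
  have hq : (0 : ℝ) < q := by exact_mod_cast (NeZero.pos q)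
  refine hasSum_int_residue (fun j => χ j) (fun n : ℤ => (rexp (-π * n ^ 2 * t / q) : ℂ)) _ ?_
  intro j
  have h := hasSum_int_evenKernel ((j.val : ℝ) / q) (t := q * t) (by positivity)
  rw [ZMod.toAddCircle_apply]
  have h' := hasSum_ofReal.mpr h
  refine h'.congr_fun ?_
  intro m
  congr 2
  push_cast
  field_simp

lemma hasSum_thO {t : ℝ} (ht : 0 < t) :
    HasSum (fun n : ℤ => χ n * ((n : ℝ) * rexp (-π * n ^ 2 * t / q) : ℝ)) (thO χ t) := by
  have hq : (0 : ℝ) < q := by exact_mod_cast (NeZero.pos q)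
  have hS : thO χ t = ∑ j : ZMod q, χ j * (q * (oddKernel (ZMod.toAddCircle j) (q * t) : ℂ)) := by
    rw [thO, Finset.mul_sum]
    refine Finset.sum_congr rfl fun j _ => by ring
  rw [hS]
  refine hasSum_int_residue (fun j => χ j)
    (fun n : ℤ => (((n : ℝ) * rexp (-π * n ^ 2 * t / q) : ℝ) : ℂ)) _ ?_
  intro j
  have h := (hasSum_int_oddKernel ((j.val : ℝ) / q) (x := q * t) (by positivity)).mul_left (q : ℝ)
  rw [ZMod.toAddCircle_apply]
  have h' := hasSum_ofReal.mpr h
  push_cast at h' ⊢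
  refine h'.congr_fun ?_
  intro m
  have h2 : (-(π : ℂ) * ((q : ℂ) * m + (j.val : ℂ)) ^ 2 * t / q)
      = (-(π : ℂ) * ((m : ℂ) + (j.val : ℂ) / q) ^ 2 * (q * t)) := by
    have : (q : ℂ) ≠ 0 := by exact_mod_cast (NeZero.ne q)
    field_simp
  rw [h2]
  have : (q : ℂ) ≠ 0 := by exact_mod_cast (NeZero.ne q)
  field_simp

/-- The exponential sum of a primitive character. -/
lemma sum_char_mul_exp (hχ : χ.IsPrimitive) (n : ℤ) :
    ∑ j : ZMod q, χ j * cexp (2 * π * I * ((j.val : ℝ) / q : ℝ) * n) =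
      χ⁻¹ n * gaussSum χ ZMod.stdAddChar := by
  rw [← gaussSum_mulShift_of_isPrimitive ZMod.stdAddChar hχ (n : ZMod q), gaussSum]
  refine Finset.sum_congr rfl fun j _ => ?_
  congr 1
  rw [AddChar.mulShift_apply]
  have : ((n : ZMod q) * j) = ((n * (j.val : ℤ) : ℤ) : ZMod q) := by
    push_cast
    rw [ZMod.natCast_zmod_val]
  rw [this, ZMod.stdAddChar_coe]
  congr 1
  push_cast
  ring

lemma thE_fe (hχ : χ.IsPrimitive) {t : ℝ} (ht : 0 < t) :
    thE χ t = ((q * t) ^ (-(1 / 2) : ℝ) : ℝ) * gaussSum χ ZMod.stdAddChar * thE χ⁻¹ (1 / t) := by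
  have hq : (0 : ℝ) < q := by exact_mod_cast (NeZero.pos q)
  have hy : 0 < 1 / (q * t) := by positivity
  have h1 : ∀ j : ZMod q, HasSum (fun n : ℤ => χ j * (cexp (2 * π * I * ((j.val : ℝ) / q : ℝ) * n)
      * (rexp (-π * n ^ 2 * (1 / (q * t))) : ℂ)))
      (χ j * (cosKernel (ZMod.toAddCircle j) (1 / (q * t)) : ℂ)) := by
    intro j
    rw [ZMod.toAddCircle_apply]
    exact (hasSum_int_cosKernel ((j.val : ℝ) / q) hy).mul_left _
  have h2 := hasSum_sum (s := Finset.univ) (fun j _ => h1 j)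
  have h3 : HasSum (fun n : ℤ => gaussSum χ ZMod.stdAddChar *
      (χ⁻¹ n * (rexp (-π * n ^ 2 * (1 / t) / q) : ℂ)))
      (∑ j : ZMod q, χ j * (cosKernel (ZMod.toAddCircle j) (1 / (q * t)) : ℂ)) := by
    refine h2.congr_fun ?_
    intro n
    simp_rw [← mul_assoc]
    rw [← Finset.sum_mul, sum_char_mul_exp χ hχ n]
    have : (-π * n ^ 2 * (1 / t) / q) = (-π * n ^ 2 * (1 / (q * t))) := by field_simp
    rw [this]
    ring
  have h4 := (hasSum_thE χ⁻¹ (t := 1 / t) (by positivity)).mul_left (gaussSum χ ZMod.stdAddChar)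
  have h5 := h3.unique h4
  rw [thE]
  calc ∑ j : ZMod q, χ j * (evenKernel (ZMod.toAddCircle j) (q * t) : ℂ)
      = ∑ j : ZMod q, ((q * t) ^ (-(1 / 2) : ℝ) : ℝ) *
          (χ j * (cosKernel (ZMod.toAddCircle j) (1 / (q * t)) : ℂ)) := by
        refine Finset.sum_congr rfl fun j _ => ?_
        rw [evenKernel_functional_equation, Real.rpow_neg (by positivity)]
        push_cast
        ring
    _ = _ := by rw [← Finset.mul_sum, h5]; ring

lemma thO_fe (hχ : χ.IsPrimitive) {t : ℝ} (ht : 0 < t) :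
    thO χ t = q * ((q * t) ^ (-(3 / 2) : ℝ) : ℝ) * (-I * gaussSum χ ZMod.stdAddChar) *
      thO χ⁻¹ (1 / t) := by
  have hq : (0 : ℝ) < q := by exact_mod_cast (NeZero.pos q)
  have hy : 0 < 1 / (q * t) := by positivity
  have h1 : ∀ j : ZMod q, HasSum (fun n : ℤ => χ j * (-I * n *
      cexp (2 * π * I * ((j.val : ℝ) / q : ℝ) * n)
      * (rexp (-π * n ^ 2 * (1 / (q * t))) : ℂ)))
      (χ j * (sinKernel (ZMod.toAddCircle j) (1 / (q * t)) : ℂ)) := by
    intro j
    rw [ZMod.toAddCircle_apply]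
    exact (hasSum_int_sinKernel ((j.val : ℝ) / q) hy).mul_left _
  have h2 := hasSum_sum (s := Finset.univ) (fun j _ => h1 j)
  have h3 : HasSum (fun n : ℤ => (-I * gaussSum χ ZMod.stdAddChar) *
      (χ⁻¹ n * ((n : ℝ) * rexp (-π * n ^ 2 * (1 / t) / q) : ℝ)))
      (∑ j : ZMod q, χ j * (sinKernel (ZMod.toAddCircle j) (1 / (q * t)) : ℂ)) := by
    refine h2.congr_fun ?_
    intro n
    have e1 : ∀ j : ZMod q, χ j * (-I * n * cexp (2 * π * I * ((j.val : ℝ) / q : ℝ) * n)
      * (rexp (-π * n ^ 2 * (1 / (q * t))) : ℂ)) =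
      (χ j * cexp (2 * π * I * ((j.val : ℝ) / q : ℝ) * n)) * (-I * n *
        (rexp (-π * n ^ 2 * (1 / (q * t))) : ℂ)) := fun j => by ring
    rw [Finset.sum_congr rfl fun j _ => e1 j, ← Finset.sum_mul, sum_char_mul_exp χ hχ n]
    have : (-π * n ^ 2 * (1 / t) / q) = (-π * n ^ 2 * (1 / (q * t))) := by field_simp
    rw [this]
    push_cast
    ring
  have h4 := (hasSum_thO χ⁻¹ (t := 1 / t) (by positivity)).mul_left
    (-I * gaussSum χ ZMod.stdAddChar)
  have h5 := h3.unique h4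
  rw [thO]
  calc (q : ℂ) * ∑ j : ZMod q, χ j * (oddKernel (ZMod.toAddCircle j) (q * t) : ℂ)
      = q * ∑ j : ZMod q, ((q * t) ^ (-(3 / 2) : ℝ) : ℝ) *
          (χ j * (sinKernel (ZMod.toAddCircle j) (1 / (q * t)) : ℂ)) := by
        congr 1
        refine Finset.sum_congr rfl fun j _ => ?_
        rw [oddKernel_functional_equation, Real.rpow_neg (by positivity)]
        push_cast
        ring
    _ = _ := by rw [← Finset.mul_sum, h5]; ring

end Kernels

section Pairs

variable {q : ℕ} [NeZero q] (χ : DirichletCharacter ℂ q)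

lemma isBigO_scale {f : ℝ → ℝ} {p : ℝ} (hp : 0 < p) (hf : f =O[atTop] (fun x => rexp (-p * x)))
    (q : ℝ) (hq : 0 < q) (r : ℝ) :
    (fun t : ℝ => ((f (q * t) : ℝ) : ℂ)) =O[atTop] (fun t : ℝ => t ^ r) := by
  rw [isBigO_ofReal_left]
  have h1 : Tendsto (fun t : ℝ => q * t) atTop atTop := tendsto_id.const_mul_atTop hq
  have h2 := hf.comp_tendsto h1
  have h3 : (fun t : ℝ => rexp (-(p * q) * t)) =O[atTop] (fun t : ℝ => t ^ r) :=
    (isLittleO_exp_neg_mul_rpow_atTop (mul_pos hp hq) r).isBigO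
  refine (h2.congr_right ?_).trans h3
  intro t
  simp only [Function.comp]
  congr 1
  ring

lemma thE_top (hq1 : q ≠ 1) (r : ℝ) : (thE χ) =O[atTop] (fun t : ℝ => t ^ r) := by
  have hq : (0 : ℝ) < q := by exact_mod_cast (NeZero.pos q)
  unfold thE
  refine IsBigO.fun_sum fun j _ => ?_
  by_cases hj : j = 0
  · subst hj
    rw [χ.map_zero' hq1]
    simp only [zero_mul]
    exact isBigO_zero _ _
  · obtain ⟨p, hp, hp'⟩ := isBigO_atTop_evenKernel_sub (ZMod.toAddCircle j)
    rw [if_neg (by rwa [ZMod.toAddCircle_eq_zero])] at hp'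
    simp only [sub_zero] at hp'
    exact (isBigO_scale hp hp' q hq r).const_mul_left _

lemma thO_top (r : ℝ) : (thO χ) =O[atTop] (fun t : ℝ => t ^ r) := by
  have hq : (0 : ℝ) < q := by exact_mod_cast (NeZero.pos q)
  unfold thO
  refine IsBigO.const_mul_left ?_ _
  refine IsBigO.fun_sum fun j _ => ?_
  obtain ⟨p, hp, hp'⟩ := isBigO_atTop_oddKernel (ZMod.toAddCircle j)
  exact (isBigO_scale hp hp' q hq r).const_mul_left _

lemma continuousOn_thE : ContinuousOn (thE χ) (Ioi 0) := by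
  have hq : (0 : ℝ) < q := by exact_mod_cast (NeZero.pos q)
  unfold thE
  refine continuousOn_finsetSum _ fun j _ => ?_
  refine continuousOn_const.mul ?_
  refine continuous_ofReal.comp_continuousOn ?_
  refine (continuousOn_evenKernel _).comp (by fun_prop) ?_
  intro t (ht : 0 < t)
  exact mul_pos hq ht

lemma continuousOn_thO : ContinuousOn (thO χ) (Ioi 0) := by
  have hq : (0 : ℝ) < q := by exact_mod_cast (NeZero.pos q)
  unfold thO
  refine continuousOn_const.mul ?_
  refine continuousOn_finsetSum _ fun j _ => ?_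
  refine continuousOn_const.mul ?_
  refine continuous_ofReal.comp_continuousOn ?_
  refine (continuousOn_oddKernel _).comp (by fun_prop) ?_
  intro t (ht : 0 < t)
  exact mul_pos hq ht

lemma gaussSum_ne_zero (hχ : χ.IsPrimitive) : gaussSum χ ZMod.stdAddChar ≠ 0 := by
  intro h
  have h1 : ZMod.dft (χ : ZMod q → ℂ) = 0 := by
    ext k
    rw [hχ.fourierTransform_eq_inv_mul_gaussSum, h, mul_zero]
    rfl
  have h2 : (χ : ZMod q → ℂ) = 0 := by
    apply (ZMod.dft (N := q) (E := ℂ)).injective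
    rw [h1, map_zero]
  have h3 := congrFun h2 1
  rw [map_one] at h3
  exact one_ne_zero h3

end Pairs

section Mellin

variable {q : ℕ} [NeZero q] (χ : DirichletCharacter ℂ q)

lemma scale_rpow {q x : ℝ} (hq : 0 < q) (hx : 0 < x) (k : ℝ) :
    (q * (1 / x)) ^ (-k) = q ^ (-k) * x ^ k := by
  rw [Real.mul_rpow hq.le (by positivity), one_div, Real.inv_rpow hx.le, Real.rpow_neg hx.le,
    inv_inv]

/-- The functional equation pair for an even primitive character equal to its inverse. -/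
noncomputable def pairE (hχ : χ.IsPrimitive) (hq1 : q ≠ 1) (hinv : χ⁻¹ = χ) : WeakFEPair ℂ where
  f := thE χ
  g := thE χ
  k := 1 / 2
  ε := ((q : ℝ) ^ (-(1 / 2) : ℝ) : ℝ) * gaussSum χ ZMod.stdAddChar
  f₀ := 0
  g₀ := 0
  hf_int := (continuousOn_thE χ).locallyIntegrableOn measurableSet_Ioi
  hg_int := (continuousOn_thE χ).locallyIntegrableOn measurableSet_Ioi
  hk := by norm_num
  hε := by
    have hq : (0 : ℝ) < q := by exact_mod_cast (NeZero.pos q)
    refine mul_ne_zero ?_ (gaussSum_ne_zero χ hχ)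
    exact_mod_cast (Real.rpow_pos_of_pos hq _).ne'
  h_feq := by
    intro x (hx : 0 < x)
    have hq : (0 : ℝ) < q := by exact_mod_cast (NeZero.pos q)
    rw [thE_fe χ hχ (t := 1 / x) (by positivity), one_div_one_div, hinv,
      scale_rpow hq hx, smul_eq_mul]
    push_cast
    ring
  hf_top := by simpa using thE_top χ hq1
  hg_top := by simpa using thE_top χ hq1

/-- The functional equation pair for an odd primitive character equal to its inverse. -/
noncomputable def pairO (hχ : χ.IsPrimitive) (hinv : χ⁻¹ = χ) : WeakFEPair ℂ where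
  f := thO χ
  g := thO χ
  k := 3 / 2
  ε := ((q : ℝ) ^ (-(1 / 2) : ℝ) : ℝ) * (-I * gaussSum χ ZMod.stdAddChar)
  f₀ := 0
  g₀ := 0
  hf_int := (continuousOn_thO χ).locallyIntegrableOn measurableSet_Ioi
  hg_int := (continuousOn_thO χ).locallyIntegrableOn measurableSet_Ioi
  hk := by norm_num
  hε := by
    have hq : (0 : ℝ) < q := by exact_mod_cast (NeZero.pos q)
    refine mul_ne_zero ?_ (mul_ne_zero (by simp) (gaussSum_ne_zero χ hχ))
    exact_mod_cast (Real.rpow_pos_of_pos hq _).ne'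
  h_feq := by
    intro x (hx : 0 < x)
    have hq : (0 : ℝ) < q := by exact_mod_cast (NeZero.pos q)
    have hq' : (q : ℝ) ^ (-(1 / 2) : ℝ) = q * (q : ℝ) ^ (-(3 / 2) : ℝ) := by
      rw [← Real.rpow_one_add' hq.le (by norm_num)]
      norm_num
    rw [thO_fe χ hχ (t := 1 / x) (by positivity), one_div_one_div, hinv,
      scale_rpow hq hx, smul_eq_mul, hq']
    push_cast
    ring
  hf_top := by simpa using thO_top χ
  hg_top := by simpa using thO_top χ

lemma strongE (hχ : χ.IsPrimitive) (hq1 : q ≠ 1) (hinv : χ⁻¹ = χ) :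
    IsStrongFEPair (pairE χ hχ hq1 hinv) := ⟨rfl, rfl⟩

lemma strongO (hχ : χ.IsPrimitive) (hinv : χ⁻¹ = χ) :
    IsStrongFEPair (pairO χ hχ hinv) := ⟨rfl, rfl⟩

lemma hasSum_thE_nat (hq1 : q ≠ 1) (he : χ.Even) {t : ℝ} (ht : 0 < t) :
    HasSum (fun n : ℕ => 2 * χ n * (rexp (-π * n ^ 2 * t / q) : ℂ)) (thE χ t) := by
  have h := (hasSum_thE χ ht).nat_add_neg
  simp only [Int.cast_zero, χ.map_zero' hq1, zero_mul, add_zero] at h
  refine h.congr_fun fun n => ?_
  push_cast
  rw [he.eval_neg]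
  ring_nf

lemma hasSum_thO_nat (ho : χ.Odd) {t : ℝ} (ht : 0 < t) :
    HasSum (fun n : ℕ => 2 * χ n * (n * rexp (-π * n ^ 2 * t / q) : ℂ)) (thO χ t) := by
  have h := (hasSum_thO χ ht).nat_add_neg
  simp only [Int.cast_zero, zero_mul, mul_zero, add_zero, ofReal_zero] at h
  refine h.congr_fun fun n => ?_
  push_cast
  rw [ho.eval_neg]
  ring_nf

end Mellin

section Mellin2

variable {q : ℕ} [NeZero q] (χ : DirichletCharacter ℂ q)

lemma summable_char_rpow {σ : ℝ} (hσ : 1 < σ) (c : ℝ) (hc : 0 < c) :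
    Summable (fun n : ℕ => ‖(2 * χ n : ℂ)‖ / |(n : ℝ) / c| ^ σ) := by
  have h1 : Summable (fun n : ℕ => (2 * c ^ σ) * (1 / (n : ℝ) ^ σ)) :=
    (Real.summable_one_div_nat_rpow.mpr hσ).mul_left _
  refine h1.of_nonneg_of_le (fun n => by positivity) ?_
  intro n
  have h2 : ‖(2 * χ n : ℂ)‖ ≤ 2 := by
    rw [norm_mul]
    have := DirichletCharacter.norm_le_one χ (n : ZMod q)
    simp only [Complex.norm_ofNat]
    linarith
  rw [abs_of_nonneg (by positivity), Real.div_rpow (by positivity) hc.le]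
  have hcσ : 0 < c ^ σ := Real.rpow_pos_of_pos hc σ
  rcases Nat.eq_zero_or_pos n with hn | hn
  · subst hn
    have h0 : σ ≠ 0 := by linarith
    simp [Real.zero_rpow h0]
  · have hn' : (0 : ℝ) < (n : ℝ) ^ σ := Real.rpow_pos_of_pos (by exact_mod_cast hn) σ
    rw [div_div_eq_mul_div]
    rw [mul_one_div]
    gcongr

lemma abs_div_cpow {c : ℝ} (hc : 0 < c) (n : ℕ) (s : ℂ) :
    ((|(n : ℝ) / c| : ℝ) : ℂ) ^ s = (n : ℂ) ^ s / (c : ℂ) ^ s := by
  rw [abs_of_nonneg (by positivity)]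
  have h : (((n : ℝ) / c : ℝ) : ℂ) = ((n : ℝ) : ℂ) * ((c⁻¹ : ℝ) : ℂ) := by push_cast; ring
  rw [h, mul_cpow_ofReal_nonneg (by positivity) (by positivity)]
  rw [ofReal_inv, inv_cpow _ _ (by rw [arg_ofReal_of_nonneg hc.le]; exact Real.pi_pos.ne)]
  rw [ofReal_natCast]
  rfl

lemma mellin_thE_of_one_lt (hq1 : q ≠ 1) (he : χ.Even) {s : ℂ} (hs : 1 < s.re) :
    mellin (thE χ) (s / 2) = 2 * ((√q : ℝ) : ℂ) ^ s * (Gammaℝ s * DirichletCharacter.LFunction χ s) := by
  have hq : (0 : ℝ) < √q := Real.sqrt_pos.mpr (by exact_mod_cast (NeZero.pos q))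
  have h := hasSum_mellin_pi_mul_sq (a := fun n : ℕ => 2 * χ n) (r := fun n : ℕ => (n : ℝ) / √q)
    (F := thE χ) (s := s) (by linarith) ?_ (summable_char_rpow χ hs _ hq)
  · have h2 : HasSum (fun n : ℕ => 2 * ((√q : ℝ) : ℂ) ^ s * (Gammaℝ s * LSeries.term (χ ·) s n))
        (2 * ((√q : ℝ) : ℂ) ^ s * (Gammaℝ s * DirichletCharacter.LFunction χ s)) := by
      refine ((HasSum.mul_left _ ?_).mul_left _)
      rw [DirichletCharacter.LFunction_eq_LSeries χ hs]
      exact (ZMod.LSeriesSummable_of_one_lt_re (χ ·) hs).LSeriesHasSum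
    refine h.unique (h2.congr_fun fun n => ?_)
    rw [abs_div_cpow hq, LSeries.term_def]
    split_ifs with hn
    · subst hn
      simp [χ.map_zero' hq1]
    · have : ((√q : ℝ) : ℂ) ^ s ≠ 0 := by
        rw [Ne, cpow_eq_zero_iff]
        push Not
        intro h
        exfalso
        exact hq.ne' (by exact_mod_cast h)
      field_simp
  · intro t (ht : 0 < t)
    refine (hasSum_thE_nat χ hq1 he ht).congr_fun fun n => ?_
    split_ifs with hn
    · have : n = 0 := by
        rcases div_eq_zero_iff.mp hn with h | h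
        · exact_mod_cast h
        · exact absurd h hq.ne'
      subst this
      simp [χ.map_zero' hq1]
    · congr 3
      rw [div_pow, Real.sq_sqrt (by positivity)]
      ring

lemma mellin_thO_of_one_lt (ho : χ.Odd) {s : ℂ} (hs : 1 < s.re) :
    mellin (thO χ) ((s + 1) / 2) =
      2 * √q * ((√q : ℝ) : ℂ) ^ s * (Gammaℝ (s + 1) * DirichletCharacter.LFunction χ s) := by
  have hq : (0 : ℝ) < √q := Real.sqrt_pos.mpr (by exact_mod_cast (NeZero.pos q))
  have h := hasSum_mellin_pi_mul_sq' (a := fun n : ℕ => √q * (2 * χ n))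
    (r := fun n : ℕ => (n : ℝ) / √q)
    (F := thO χ) (s := s) (by linarith) ?_ ?_
  · have h2 : HasSum (fun n : ℕ => 2 * √q * ((√q : ℝ) : ℂ) ^ s *
        (Gammaℝ (s + 1) * LSeries.term (χ ·) s n))
        (2 * √q * ((√q : ℝ) : ℂ) ^ s * (Gammaℝ (s + 1) * DirichletCharacter.LFunction χ s)) := by
      refine ((HasSum.mul_left _ ?_).mul_left _)
      rw [DirichletCharacter.LFunction_eq_LSeries χ hs]
      exact (ZMod.LSeriesSummable_of_one_lt_re (χ ·) hs).LSeriesHasSum
    refine h.unique (h2.congr_fun fun n => ?_)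
    rw [abs_div_cpow hq, LSeries.term_def]
    split_ifs with hn
    · subst hn
      simp
    · have : ((√q : ℝ) : ℂ) ^ s ≠ 0 := by
        rw [Ne, cpow_eq_zero_iff]
        push Not
        intro h
        exfalso
        exact hq.ne' (by exact_mod_cast h)
      have hsg : SignType.sign ((n : ℝ) / √q) = 1 := by
        rw [sign_eq_one_iff]
        have : (0 : ℝ) < n := by exact_mod_cast Nat.pos_of_ne_zero hn
        positivity
      rw [hsg]
      simp only [SignType.coe_one]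
      field_simp
  · intro t (ht : 0 < t)
    refine (hasSum_thO_nat χ ho ht).congr_fun fun n => ?_
    have h3 : (-π * ((n : ℝ) / √q) ^ 2 * t) = -π * n ^ 2 * t / q := by
      rw [div_pow, Real.sq_sqrt (by positivity)]
      ring
    rw [h3]
    have hqc : ((√q : ℝ) : ℂ) ≠ 0 := by exact_mod_cast hq.ne'
    push_cast
    field_simp
  · have := (summable_char_rpow χ hs _ hq).mul_left (√q)
    refine this.congr fun n => ?_
    rw [norm_mul (√q : ℂ), norm_real, Real.norm_of_nonneg hq.le]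
    ring

end Mellin2

section Mellin3

variable {q : ℕ} [NeZero q] (χ : DirichletCharacter ℂ q)

lemma primitive_ne_one (hχ : χ.IsPrimitive) (hq1 : q ≠ 1) : χ ≠ 1 := by
  rintro rfl
  exact hq1 (by rw [DirichletCharacter.isPrimitive_def, DirichletCharacter.conductor_one] at hχ; exact hχ.symm)

lemma eq_of_eq_one_lt_re {F G : ℂ → ℂ} (hF : Differentiable ℂ F) (hG : Differentiable ℂ G)
    (h : ∀ s : ℂ, 1 < s.re → F s = G s) : F = G := by
  have hm : {z : ℂ | 1 < re z} ∈ 𝓝 (2 : ℂ) :=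
    (continuous_re.isOpen_preimage _ isOpen_Ioi).mem_nhds (by simp)
  have hFG : F =ᶠ[𝓝 2] G := by
    filter_upwards [hm] with t ht using h t ht
  rw [← analyticOnNhd_univ_iff_differentiable] at hF hG
  exact hF.eq_of_eventuallyEq hG hFG

lemma mellin_thE (hχ : χ.IsPrimitive) (hq1 : q ≠ 1) (hinv : χ⁻¹ = χ) (he : χ.Even) (s : ℂ) :
    mellin (thE χ) (s / 2) = 2 * ((√q : ℝ) : ℂ) ^ s * DirichletCharacter.completedLFunction χ s := by
  have hq : (0 : ℝ) < √q := Real.sqrt_pos.mpr (by exact_mod_cast (NeZero.pos q))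
  have hne := primitive_ne_one χ hχ hq1
  have hst := strongE χ hχ hq1 hinv
  have hD : Differentiable ℂ (mellin (thE χ)) := by
    have := hst.differentiable_Λ
    rw [hst.Λ_eq] at this
    exact this
  have := eq_of_eq_one_lt_re (F := fun s => mellin (thE χ) (s / 2))
    (G := fun s => 2 * ((√q : ℝ) : ℂ) ^ s * DirichletCharacter.completedLFunction χ s)
    (hD.comp (differentiable_id.div_const 2)) ?_ ?_
  · exact congrFun this s
  · refine Differentiable.mul ?_ (DirichletCharacter.differentiable_completedLFunction hne)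
    refine (differentiable_id.const_cpow (Or.inl ?_)).const_mul 2
    exact_mod_cast hq.ne'
  · intro s hs
    rw [mellin_thE_of_one_lt χ hq1 he hs,
      DirichletCharacter.LFunction_eq_completed_div_gammaFactor χ s (Or.inr hq1),
      he.gammaFactor_def, mul_div_cancel₀]
    exact Gammaℝ_ne_zero_of_re_pos (by linarith)

lemma mellin_thO (hχ : χ.IsPrimitive) (hq1 : q ≠ 1) (hinv : χ⁻¹ = χ) (ho : χ.Odd) (s : ℂ) :
    mellin (thO χ) ((s + 1) / 2) =
      2 * √q * ((√q : ℝ) : ℂ) ^ s * DirichletCharacter.completedLFunction χ s := by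
  have hq : (0 : ℝ) < √q := Real.sqrt_pos.mpr (by exact_mod_cast (NeZero.pos q))
  have hne := primitive_ne_one χ hχ hq1
  have hst := strongO χ hχ hinv
  have hD : Differentiable ℂ (mellin (thO χ)) := by
    have := hst.differentiable_Λ
    rw [hst.Λ_eq] at this
    exact this
  have := eq_of_eq_one_lt_re (F := fun s => mellin (thO χ) ((s + 1) / 2))
    (G := fun s => 2 * √q * ((√q : ℝ) : ℂ) ^ s * DirichletCharacter.completedLFunction χ s)
    (hD.comp ((differentiable_id.add_const 1).div_const 2)) ?_ ?_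
  · exact congrFun this s
  · refine Differentiable.mul ?_ (DirichletCharacter.differentiable_completedLFunction hne)
    refine (differentiable_id.const_cpow (Or.inl ?_)).const_mul _
    exact_mod_cast hq.ne'
  · intro s hs
    rw [mellin_thO_of_one_lt χ ho hs,
      DirichletCharacter.LFunction_eq_completed_div_gammaFactor χ s (Or.inr hq1),
      ho.gammaFactor_def, mul_div_cancel₀]
    exact Gammaℝ_ne_zero_of_re_pos (by rw [add_re, one_re]; linarith)

end Mellin3

section RealForm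

lemma mellin_real_eq (F : ℝ → ℂ) (σ : ℝ) :
    mellin F σ = 2 * ∫ t : ℝ, (rexp (2 * σ * t) : ℂ) * F (rexp (2 * t)) := by
  have h1 : ∀ x ∈ (univ : Set ℝ), HasDerivWithinAt (fun t : ℝ => rexp (2 * t))
      (2 * rexp (2 * x)) univ x := by
    intro x _
    have := ((hasDerivAt_id x).const_mul 2).exp
    simp only [id, mul_one] at this
    rw [mul_comm]
    exact this.hasDerivWithinAt
  have h2 : (fun t : ℝ => rexp (2 * t)) '' univ = Ioi 0 := by
    ext y
    simp only [image_univ, mem_range, mem_Ioi]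
    constructor
    · rintro ⟨t, rfl⟩
      exact Real.exp_pos _
    · intro hy
      exact ⟨Real.log y / 2, by rw [mul_div_cancel₀ _ two_ne_zero, Real.exp_log hy]⟩
  have h3 : (univ : Set ℝ).InjOn (fun t : ℝ => rexp (2 * t)) := by
    intro a _ b _ hab
    have := Real.exp_injective hab
    linarith
  rw [mellin, ← h2, integral_image_eq_integral_abs_deriv_smul MeasurableSet.univ h1 h3,
    Measure.restrict_univ, ← integral_const_mul]
  congr 1
  ext t
  rw [abs_of_pos (by positivity)]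
  have h4 : ((rexp (2 * t) : ℝ) : ℂ) ^ ((σ : ℂ) - 1) = ((rexp (2 * t * (σ - 1)) : ℝ) : ℂ) := by
    have h4' : rexp (2 * t * (σ - 1)) = (rexp (2 * t)) ^ (σ - 1) := Real.exp_mul _ _
    rw [h4', ofReal_cpow (Real.exp_pos _).le, ofReal_sub, ofReal_one]
  rw [h4]
  simp only [smul_eq_mul, real_smul]
  have h5 : rexp (2 * σ * t) = rexp (2 * t) * rexp (2 * t * (σ - 1)) := by
    rw [← Real.exp_add]; ring_nf
  rw [h5]
  push_cast
  ring

variable {q : ℕ} [NeZero q] (χ : DirichletCharacter ℂ q)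

/-- The real values of a (quadratic) character, as a function on the naturals. -/
noncomputable def cR (n : ℕ) : ℝ := (χ n).re

lemma quad_inv (h2 : χ ^ 2 = 1) : χ⁻¹ = χ := by
  rw [inv_eq_iff_mul_eq_one, ← sq, h2]

lemma quad_val (h2 : χ ^ 2 = 1) (x : ZMod q) : χ x = 0 ∨ χ x = 1 ∨ χ x = -1 := by
  by_cases hx : IsUnit x
  · right
    have h : (χ ^ 2) x = 1 := by rw [h2, MulChar.one_apply hx]
    rw [MulChar.pow_apply' χ two_ne_zero] at h
    rw [sq] at h
    exact mul_self_eq_one_iff.mp h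
  · left
    exact χ.map_nonunit hx

lemma cR_spec (h2 : χ ^ 2 = 1) (n : ℕ) : (cR χ n : ℂ) = χ n := by
  rw [cR]
  rcases quad_val χ h2 n with h | h | h <;> rw [h] <;> simp

lemma cR_abs_le (h2 : χ ^ 2 = 1) (n : ℕ) : |cR χ n| ≤ 1 := by
  rw [cR]
  rcases quad_val χ h2 n with h | h | h <;> rw [h] <;> simp

lemma real_fe {f : ℝ → ℝ} {ε : ℂ} {k : ℝ}
    (h : ∀ x : ℝ, 0 < x → ((f (1 / x) : ℝ) : ℂ) = ε * ((x ^ k : ℝ) : ℂ) * (f x : ℂ))
    (hne : ∃ x : ℝ, 0 < x ∧ f x ≠ 0) :
    ∃ W : ℝ, (W = 1 ∨ W = -1) ∧ ∀ x : ℝ, 0 < x → f (1 / x) = W * x ^ k * f x := by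
  obtain ⟨x₀, hx₀, hf₀⟩ := hne
  have hk : (0 : ℝ) < x₀ ^ k := Real.rpow_pos_of_pos hx₀ k
  have hε : ε = ((f (1 / x₀) / (x₀ ^ k * f x₀) : ℝ) : ℂ) := by
    have h1 := h x₀ hx₀
    have h2 : ((x₀ ^ k : ℝ) : ℂ) ≠ 0 := by exact_mod_cast hk.ne'
    have h3 : ((f x₀ : ℝ) : ℂ) ≠ 0 := by exact_mod_cast hf₀
    rw [ofReal_div, ofReal_mul, h1]
    field_simp
  set W : ℝ := f (1 / x₀) / (x₀ ^ k * f x₀) with hW
  have hfe : ∀ x : ℝ, 0 < x → f (1 / x) = W * x ^ k * f x := by
    intro x hx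
    have h1 := h x hx
    rw [hε] at h1
    exact_mod_cast h1
  refine ⟨W, ?_, hfe⟩
  have h1 := hfe x₀ hx₀
  have h2 := hfe (1 / x₀) (by positivity)
  rw [one_div_one_div, h1, one_div, Real.inv_rpow hx₀.le] at h2
  have h3 : W * W = 1 := by
    have : f x₀ = (W * W) * f x₀ := by
      calc f x₀ = W * (x₀ ^ k)⁻¹ * (W * x₀ ^ k * f x₀) := h2
        _ = (W * W) * f x₀ := by field_simp
    exact mul_right_cancel₀ hf₀ (by rw [one_mul]; exact this.symm)
  exact mul_self_eq_one_iff.mp h3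

/-- The basic additive kernel `T_a(t) = e^{t/2} (e^t)^a exp(-π e^{2t})`. -/
noncomputable def Tk (a t : ℝ) : ℝ := rexp ((a + 1 / 2) * t - π * rexp (2 * t))

/-- The parity of a character. -/
noncomputable def par : ℝ := by
  classical
  exact if χ.Even then 0 else 1

/-- The self-dual theta function attached to `χ`, in additive form. -/
noncomputable def gth (t : ℝ) : ℝ := by
  classical
  exact if χ.Even then rexp (t / 2) * ((thE χ (rexp (2 * t))).re / 2)
    else rexp (3 / 2 * t) / √q * ((thO χ (rexp (2 * t))).re / 2)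

lemma par_even (he : χ.Even) : par χ = 0 := by simp [par, he]
lemma par_odd (ho : χ.Odd) : par χ = 1 := by simp [par, ho.not_even]
lemma gth_even (he : χ.Even) (t : ℝ) :
    gth χ t = rexp (t / 2) * ((thE χ (rexp (2 * t))).re / 2) := by simp [gth, he]
lemma gth_odd (ho : χ.Odd) (t : ℝ) :
    gth χ t = rexp (3 / 2 * t) / √q * ((thO χ (rexp (2 * t))).re / 2) := by
  simp [gth, ho.not_even]

lemma thE_real (h2 : χ ^ 2 = 1) {t : ℝ} (ht : 0 < t) : (((thE χ t).re : ℝ) : ℂ) = thE χ t := by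
  have h := hasSum_thE χ ht
  have h1 : HasSum (fun n : ℤ => (χ n * (rexp (-π * n ^ 2 * t / q) : ℂ)).re) (thE χ t).re :=
    Complex.hasSum_re h
  have h3 := hasSum_ofReal.mpr h1
  refine h3.unique (h.congr_fun fun n => ?_)
  rcases quad_val χ h2 n with h | h | h <;> rw [h] <;>
    simp only [one_mul, neg_mul, zero_mul, ofReal_re, neg_re, zero_re, ofReal_neg, ofReal_zero]

lemma thO_real (h2 : χ ^ 2 = 1) {t : ℝ} (ht : 0 < t) : (((thO χ t).re : ℝ) : ℂ) = thO χ t := by
  have h := hasSum_thO χ ht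
  have h1 := Complex.hasSum_re h
  have h3 := hasSum_ofReal.mpr h1
  refine h3.unique (h.congr_fun fun n => ?_)
  rcases quad_val χ h2 n with h | h | h <;> rw [h] <;>
    simp only [one_mul, neg_mul, zero_mul, ofReal_re, neg_re, zero_re, ofReal_neg, ofReal_zero]

lemma exists_ne_zero_thE (hχ : χ.IsPrimitive) (hq1 : q ≠ 1) (he : χ.Even) (h2 : χ ^ 2 = 1) :
    ∃ x : ℝ, 0 < x ∧ (thE χ x).re ≠ 0 := by
  by_contra hcon
  push Not at hcon
  have hz : ∀ x ∈ Ioi (0 : ℝ), thE χ x = 0 := by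
    intro x (hx : 0 < x)
    rw [← thE_real χ h2 hx, hcon x hx, ofReal_zero]
  have hm : mellin (thE χ) (2 / 2) = 0 := by
    rw [mellin, setIntegral_congr_fun measurableSet_Ioi (g := fun _ => 0)]
    · simp
    · intro x hx
      simp only [hz x hx, smul_zero]
  have hq : (0 : ℝ) < √q := Real.sqrt_pos.mpr (by exact_mod_cast (NeZero.pos q))
  rw [mellin_thE_of_one_lt χ hq1 he (by simp)] at hm
  have h3 : DirichletCharacter.LFunction χ 2 ≠ 0 :=
    DirichletCharacter.LFunction_ne_zero_of_one_le_re χ (Or.inr (by norm_num)) (by simp)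
  have h4 : Gammaℝ 2 ≠ 0 := Gammaℝ_ne_zero_of_re_pos (by simp)
  have h5 : ((√q : ℝ) : ℂ) ^ (2 : ℂ) ≠ 0 := by
    rw [Ne, cpow_eq_zero_iff]
    push Not
    intro h
    exact absurd (by exact_mod_cast h) hq.ne'
  exact (mul_ne_zero (mul_ne_zero two_ne_zero h5) (mul_ne_zero h4 h3)) hm

lemma exists_ne_zero_thO (hχ : χ.IsPrimitive) (hq1 : q ≠ 1) (ho : χ.Odd) (h2 : χ ^ 2 = 1) :
    ∃ x : ℝ, 0 < x ∧ (thO χ x).re ≠ 0 := by
  by_contra hcon
  push Not at hcon
  have hz : ∀ x ∈ Ioi (0 : ℝ), thO χ x = 0 := by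
    intro x (hx : 0 < x)
    rw [← thO_real χ h2 hx, hcon x hx, ofReal_zero]
  have hm : mellin (thO χ) ((2 + 1) / 2) = 0 := by
    rw [mellin, setIntegral_congr_fun measurableSet_Ioi (g := fun _ => 0)]
    · simp
    · intro x hx
      simp only [hz x hx, smul_zero]
  have hq : (0 : ℝ) < √q := Real.sqrt_pos.mpr (by exact_mod_cast (NeZero.pos q))
  rw [mellin_thO_of_one_lt χ ho (by simp)] at hm
  have h3 : DirichletCharacter.LFunction χ 2 ≠ 0 :=
    DirichletCharacter.LFunction_ne_zero_of_one_le_re χ (Or.inr (by norm_num)) (by simp)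
  have h4 : Gammaℝ (2 + 1) ≠ 0 := Gammaℝ_ne_zero_of_re_pos (by simp; norm_num)
  have h5 : ((√q : ℝ) : ℂ) ^ (2 : ℂ) ≠ 0 := by
    rw [Ne, cpow_eq_zero_iff]
    push Not
    intro h
    exact absurd (by exact_mod_cast h) hq.ne'
  have h6 : ((√q : ℝ) : ℂ) ≠ 0 := by exact_mod_cast hq.ne'
  exact (mul_ne_zero (mul_ne_zero (mul_ne_zero two_ne_zero h6) h5) (mul_ne_zero h4 h3)) hm

/-- The functional equation of the additive theta function. -/
theorem gth_fe (hχ : χ.IsPrimitive) (hq1 : q ≠ 1) (h2 : χ ^ 2 = 1) :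
    ∃ W : ℝ, (W = 1 ∨ W = -1) ∧ ∀ t : ℝ, gth χ (-t) = W * gth χ t := by
  have hinv := quad_inv χ h2
  have hq : (0 : ℝ) < q := by exact_mod_cast (NeZero.pos q)
  rcases χ.even_or_odd with he | ho
  · obtain ⟨W, hW, hfe⟩ := real_fe (f := fun x => (thE χ x).re) (k := 1 / 2)
      (ε := ((q : ℝ) ^ (-(1 / 2) : ℝ) : ℝ) * gaussSum χ ZMod.stdAddChar)
      (fun x hx => by
        rw [thE_real χ h2 (by positivity), thE_real χ h2 hx]
        have := (pairE χ hχ hq1 hinv).h_feq x hx
        simpa [pairE] using this)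
      (exists_ne_zero_thE χ hχ hq1 he h2)
    refine ⟨W, hW, fun t => ?_⟩
    have h3 := hfe (rexp (2 * t)) (Real.exp_pos _)
    rw [gth_even χ he, gth_even χ he]
    have h4 : rexp (2 * -t) = 1 / rexp (2 * t) := by
      rw [one_div, ← Real.exp_neg]; ring_nf
    have h5 : (rexp (2 * t)) ^ (1 / 2 : ℝ) = rexp t := by
      rw [← Real.exp_mul]; ring_nf
    rw [h4, h3, h5]
    have h6 : rexp (-t / 2) * rexp t = rexp (t / 2) := by
      rw [← Real.exp_add]; ring_nf
    rw [← h6]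
    ring
  · obtain ⟨W, hW, hfe⟩ := real_fe (f := fun x => (thO χ x).re) (k := 3 / 2)
      (ε := ((q : ℝ) ^ (-(1 / 2) : ℝ) : ℝ) * (-I * gaussSum χ ZMod.stdAddChar))
      (fun x hx => by
        rw [thO_real χ h2 (by positivity), thO_real χ h2 hx]
        have := (pairO χ hχ hinv).h_feq x hx
        simpa [pairO] using this)
      (exists_ne_zero_thO χ hχ hq1 ho h2)
    refine ⟨W, hW, fun t => ?_⟩
    have h3 := hfe (rexp (2 * t)) (Real.exp_pos _)
    rw [gth_odd χ ho, gth_odd χ ho]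
    have h4 : rexp (2 * -t) = 1 / rexp (2 * t) := by
      rw [one_div, ← Real.exp_neg]; ring_nf
    have h5 : (rexp (2 * t)) ^ (3 / 2 : ℝ) = rexp (3 * t) := by
      rw [← Real.exp_mul]; ring_nf
    rw [h4, h3, h5]
    have h6 : rexp (3 / 2 * -t) * rexp (3 * t) = rexp (3 / 2 * t) := by
      rw [← Real.exp_add]; ring_nf
    rw [← h6]
    ring

end RealForm

section Series

variable {q : ℕ} [NeZero q] (χ : DirichletCharacter ℂ q)

lemma exp_two_log_sub {q : ℕ} [NeZero q] {n : ℕ} (hn : n ≠ 0) (t : ℝ) :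
    rexp (2 * (t + Real.log n - Real.log q / 2)) = (n : ℝ) ^ 2 * rexp (2 * t) / q := by
  have hq : (0 : ℝ) < q := by exact_mod_cast (NeZero.pos q)
  have hn' : (0 : ℝ) < n := by exact_mod_cast Nat.pos_of_ne_zero hn
  have : 2 * (t + Real.log n - Real.log q / 2) = 2 * t + Real.log n + Real.log n - Real.log q := by
    ring
  rw [this, Real.exp_sub, Real.exp_add, Real.exp_add, Real.exp_log hn', Real.exp_log hq]
  ring

lemma gth_hasSum (hq1 : q ≠ 1) (h2 : χ ^ 2 = 1) (t : ℝ) :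
    HasSum (fun n : ℕ => cR χ n * (rexp ((Real.log q / 2 - Real.log n) / 2) *
      Tk (par χ) (t + Real.log n - Real.log q / 2))) (gth χ t) := by
  have hq : (0 : ℝ) < q := by exact_mod_cast (NeZero.pos q)
  have ht : 0 < rexp (2 * t) := Real.exp_pos _
  rcases χ.even_or_odd with he | ho
  · rw [gth_even χ he, par_even χ he]
    have h := (Complex.hasSum_re (hasSum_thE_nat χ hq1 he ht)).mul_left (rexp (t / 2) / 2)
    have e1 : rexp (t / 2) * ((thE χ (rexp (2 * t))).re / 2) =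
        rexp (t / 2) / 2 * (thE χ (rexp (2 * t))).re := by ring
    rw [e1]
    refine h.congr_fun fun n => ?_
    by_cases hn : n = 0
    · subst hn
      simp [cR, χ.map_zero' hq1]
    · have e2 : (2 * χ n * (rexp (-π * n ^ 2 * rexp (2 * t) / q) : ℂ)).re
          = 2 * cR χ n * rexp (-π * n ^ 2 * rexp (2 * t) / q) := by
        rw [← cR_spec χ h2 n]
        rw [show (2 * (cR χ n : ℂ) * (rexp (-π * n ^ 2 * rexp (2 * t) / q) : ℂ)) =
          ((2 * cR χ n * rexp (-π * n ^ 2 * rexp (2 * t) / q) : ℝ) : ℂ) by push_cast; ring]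
        exact ofReal_re _
      rw [e2, Tk, exp_two_log_sub hn, ← Real.exp_add]
      have e3 : (Real.log q / 2 - Real.log n) / 2 + ((0 + 1 / 2) * (t + Real.log n - Real.log q / 2)
          - π * ((n : ℝ) ^ 2 * rexp (2 * t) / q)) =
          t / 2 + (-π * n ^ 2 * rexp (2 * t) / q) := by ring
      rw [e3, Real.exp_add]
      ring
  · rw [gth_odd χ ho, par_odd χ ho]
    have hsq : √(q : ℝ) = rexp (Real.log q / 2) := by
      rw [Real.sqrt_eq_rpow, Real.rpow_def_of_pos hq]
      ring_nf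
    have h := (Complex.hasSum_re (hasSum_thO_nat χ ho ht)).mul_left (rexp (3 / 2 * t) / √q / 2)
    have e1 : rexp (3 / 2 * t) / √q * ((thO χ (rexp (2 * t))).re / 2) =
        rexp (3 / 2 * t) / √q / 2 * (thO χ (rexp (2 * t))).re := by ring
    rw [e1]
    refine h.congr_fun fun n => ?_
    by_cases hn : n = 0
    · subst hn
      simp [cR, χ.map_zero' hq1]
    · have hn' : (0 : ℝ) < n := by exact_mod_cast Nat.pos_of_ne_zero hn
      have e2 : (2 * χ n * (n * (rexp (-π * n ^ 2 * rexp (2 * t) / q) : ℂ))).re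
          = 2 * cR χ n * (n * rexp (-π * n ^ 2 * rexp (2 * t) / q)) := by
        rw [← cR_spec χ h2 n]
        rw [show (2 * (cR χ n : ℂ) * (n * (rexp (-π * n ^ 2 * rexp (2 * t) / q) : ℂ))) =
          ((2 * cR χ n * (n * rexp (-π * n ^ 2 * rexp (2 * t) / q)) : ℝ) : ℂ) by push_cast; ring]
        exact ofReal_re _
      rw [e2, Tk, exp_two_log_sub hn, ← Real.exp_add]
      have e3 : (Real.log q / 2 - Real.log n) / 2 + ((1 + 1 / 2) * (t + Real.log n - Real.log q / 2)
          - π * ((n : ℝ) ^ 2 * rexp (2 * t) / q)) =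
          3 / 2 * t + (-(Real.log q / 2)) + Real.log n + (-π * n ^ 2 * rexp (2 * t) / q) := by ring
      rw [e3, Real.exp_add, Real.exp_add, Real.exp_add, Real.exp_neg, Real.exp_log hn', hsq]
      have : rexp (Real.log q / 2) ≠ 0 := (Real.exp_pos _).ne'
      field_simp

lemma gth_integral (hχ : χ.IsPrimitive) (hq1 : q ≠ 1) (h2 : χ ^ 2 = 1) (s : ℝ) :
    ((∫ t : ℝ, rexp ((s - 1 / 2) * t) * gth χ t : ℝ) : ℂ) =
      1 / 2 * ((√q : ℝ) : ℂ) ^ (s : ℂ) * DirichletCharacter.completedLFunction χ s := by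
  have hinv := quad_inv χ h2
  rw [← integral_complex_ofReal]
  rcases χ.even_or_odd with he | ho
  · have h := mellin_thE χ hχ hq1 hinv he s
    have h' := mellin_real_eq (thE χ) (s / 2)
    rw [show (((s / 2 : ℝ)) : ℂ) = (s : ℂ) / 2 by push_cast; ring] at h'
    rw [h'] at h
    have e1 : (∫ t : ℝ, ((rexp ((s - 1 / 2) * t) * gth χ t : ℝ) : ℂ)) =
        1 / 2 * ∫ t : ℝ, (rexp (2 * (s / 2) * t) : ℂ) * thE χ (rexp (2 * t)) := by
      rw [← integral_const_mul]
      congr 1
      ext t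
      rw [gth_even χ he, ← thE_real χ h2 (Real.exp_pos _)]
      have e2 : rexp (2 * (s / 2) * t) = rexp ((s - 1 / 2) * t) * rexp (t / 2) := by
        rw [← Real.exp_add]; ring_nf
      rw [e2, ofReal_re]
      push_cast
      ring
    rw [e1]
    linear_combination (1 / 4) * h
  · have h := mellin_thO χ hχ hq1 hinv ho s
    have h' := mellin_real_eq (thO χ) ((s + 1) / 2)
    rw [show (((s + 1) / 2 : ℝ) : ℂ) = ((s : ℂ) + 1) / 2 by push_cast; ring] at h'
    rw [h'] at h
    have hq : (0 : ℝ) < √q := Real.sqrt_pos.mpr (by exact_mod_cast (NeZero.pos q))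
    have hqc : ((√q : ℝ) : ℂ) ≠ 0 := by exact_mod_cast hq.ne'
    have e1 : (∫ t : ℝ, ((rexp ((s - 1 / 2) * t) * gth χ t : ℝ) : ℂ)) =
        1 / (2 * √q) * ∫ t : ℝ, (rexp (2 * ((s + 1) / 2) * t) : ℂ) * thO χ (rexp (2 * t)) := by
      rw [← integral_const_mul]
      congr 1
      ext t
      rw [gth_odd χ ho, ← thO_real χ h2 (Real.exp_pos _)]
      have e2 : rexp (2 * ((s + 1) / 2) * t) = rexp ((s - 1 / 2) * t) * rexp (3 / 2 * t) := by
        rw [← Real.exp_add]; ring_nf
      rw [e2, ofReal_re]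
      push_cast
      field_simp
    rw [e1]
    have h3 : (∫ t : ℝ, (rexp (2 * ((s + 1) / 2) * t) : ℂ) * thO χ (rexp (2 * t))) =
        √q * ((√q : ℝ) : ℂ) ^ (s : ℂ) * DirichletCharacter.completedLFunction χ s := by
      linear_combination (1 / 2) * h
    rw [h3]
    field_simp

end Series

end Pool.Agent.MP0016c7
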