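import Mathlib
import Pool.Agent.Lib.MP_0016c7_nt.FekSer
import Pool.Agent.Lib.MP_0016c7_nt.Theta

open Real Set MeasureTheory Filter Topology

namespace Pool.Agent.MP0016c7.Ros

open DirichletCharacter

section mellin

variable {N : ℕ} [NeZero N] {χ : DirichletCharacter ℂ N}

/-- the function of `t` -/
noncomputable def fC (χ : DirichletCharacter ℂ N) (t : ℝ) : ℂ := ((Rf χ (rexp (-t)) : ℝ) : ℂ)

lemma exp_neg_mem {t : ℝ} (ht : 0 < t) : rexp (-t) ∈ Icc (0 : ℝ) 1 :=
  ⟨(exp_pos _).le, by rw [exp_le_one_iff]; linarith⟩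

lemma hasSum_fC (hne : χ ≠ 1) (h2 : χ ^ 2 = 1) {t : ℝ} (ht : 0 < t) :
    HasSum (fun n : ℕ => χ (n : ZMod N) * (rexp (-(n : ℝ) * t) : ℂ)) (fC χ t) := by
  have hN := modulus_ne_one hne
  have hx1 : rexp (-t) < 1 := by rw [exp_lt_one_iff]; linarith
  have hs := summable_rchar (χ := χ) h2 (exp_pos (-t)).le hx1
  have h1 := hs.hasSum
  rw [tsum_rchar hne h2 (exp_pos (-t)).le hx1] at h1
  have h3 := (Complex.hasSum_ofReal).mpr h1
  refine h3.congr_fun fun n => ?_
  push_cast
  have e1 : (rexp (-(n : ℝ) * t) : ℂ) = (rexp (-t) : ℂ) ^ n := by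
    rw [← Complex.ofReal_pow, ← exp_nat_mul]
    congr 2
    ring
  rcases Nat.eq_zero_or_pos n with rfl | hn
  · rw [Nat.cast_zero, χ.map_zero' hN]; simp
  · have e2 := ofReal_rchar (χ := χ) h2 hn.ne'
    rw [← e2]
    have e3 := e1
    push_cast at e3 ⊢
    rw [e3]

theorem mellin_fC_of_one_lt (hne : χ ≠ 1) (h2 : χ ^ 2 = 1) {s : ℂ} (hs : 1 < s.re) :
    mellin (fC χ) s = Complex.Gamma s * LFunction χ s := by
  have hN := modulus_ne_one hne
  have h := hasSum_mellin (a := fun n : ℕ => χ (n : ZMod N)) (p := fun n : ℕ => (n : ℝ))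
    (F := fC χ) (s := s) (fun n => ?_) (by linarith) (fun t ht => hasSum_fC hne h2 ht) ?_
  · have h3 : HasSum (fun n : ℕ => Complex.Gamma s * LSeries.term (fun n : ℕ => χ (n : ZMod N)) s n)
        (Complex.Gamma s * LFunction χ s) := by
      apply HasSum.mul_left
      rw [LFunction_eq_LSeries χ hs]
      exact (ZMod.LSeriesSummable_of_one_lt_re (χ ·) hs).LSeriesHasSum
    refine h.unique (h3.congr_fun fun n => ?_)
    rw [LSeries.term_def]
    split_ifs with hn
    · subst hn
      rw [Nat.cast_zero, χ.map_zero' hN]; simp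
    · push_cast
      rw [mul_div_assoc]
  · rcases Nat.eq_zero_or_pos n with rfl | hn
    · left; simp only [Nat.cast_zero]; exact χ.map_zero' hN
    · right; exact_mod_cast hn
  · refine Summable.of_nonneg_of_le (fun n => by (clear * -; positivity)) (fun n => ?_)
      (Real.summable_one_div_nat_rpow.mpr hs)
    apply div_le_div_of_nonneg_right _ (by positivity)
    exact χ.norm_le_one _

lemma continuousOn_fC : ContinuousOn (fC χ) (Ioi 0) := by
  intro t ht
  have ht' : (0 : ℝ) < t := ht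
  have h1 := (hasDerivAt_qB (N := N) (Ap χ) (exp_neg_mem ht').1).continuousAt
  have h2 : ContinuousAt (fun t : ℝ => rexp (-t)) t := by fun_prop
  have h3 : ContinuousAt (fun t : ℝ => Rf χ (rexp (-t))) t :=
    ContinuousAt.comp (f := fun t : ℝ => rexp (-t)) (g := Rf χ) h1 h2
  exact (Complex.continuous_ofReal.continuousAt.comp h3).continuousWithinAt

lemma fC_top : (fC χ) =O[atTop] fun t : ℝ => rexp (-1 * t) := by
  obtain ⟨C, hC, h⟩ := Rf_le (χ := χ)
  refine Asymptotics.IsBigO.of_bound C ?_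
  filter_upwards [eventually_gt_atTop 0] with t ht
  unfold fC
  rw [Complex.norm_real, Real.norm_eq_abs, Real.norm_eq_abs, abs_of_pos (exp_pos _), neg_one_mul]
  exact h _ (exp_neg_mem ht)

/-- bound near zero -/
lemma fC_bot {κ : ℕ} {B : Polynomial ℝ} (hB : Ap χ = (1 - Polynomial.X) ^ κ * B) :
    (fC χ) =O[𝓝[>] 0] fun t : ℝ => t ^ (-(-(κ : ℝ))) := by
  obtain ⟨C, hC, _, h2, h3⟩ := qB_bounds N B
  refine Asymptotics.IsBigO.of_bound C ?_
  filter_upwards [self_mem_nhdsWithin] with t ht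
  have ht' : (0 : ℝ) < t := ht
  have hx := exp_neg_mem ht'
  unfold fC
  rw [Complex.norm_real, Real.norm_eq_abs, Real.norm_eq_abs, neg_neg, rpow_natCast,
    abs_of_pos (pow_pos ht' κ)]
  have hg : Rf χ (rexp (-t)) = (1 - rexp (-t)) ^ κ * qB N B (rexp (-t)) := by
    unfold Rf qB
    rw [hB]
    simp only [Polynomial.eval_mul, Polynomial.eval_pow, Polynomial.eval_sub,
      Polynomial.eval_one, Polynomial.eval_X]
    rw [mul_div_assoc]
  have h0 : 0 ≤ 1 - rexp (-t) := by linarith [hx.2]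
  have h4 : 1 - rexp (-t) ≤ t := by
    have := add_one_le_exp (-t); linarith
  rw [hg, abs_mul, abs_of_nonneg (by positivity), mul_comm]
  exact mul_le_mul (h2 _ hx) (pow_le_pow_left₀ h0 h4 κ) (by positivity) hC

lemma differentiableAt_mellin_fC {κ : ℕ} {B : Polynomial ℝ}
    (hB : Ap χ = (1 - Polynomial.X) ^ κ * B) {s : ℂ} (hs : -(κ : ℝ) < s.re) :
    DifferentiableAt ℂ (mellin (fC χ)) s :=
  mellin_differentiableAt_of_isBigO_rpow_exp one_pos
    (continuousOn_fC.locallyIntegrableOn measurableSet_Ioi) fC_top (fC_bot hB) hs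

/-- analytic continuation of identities on half planes -/
lemma eq_on_half {F G : ℂ → ℂ} {a : ℝ} (ha : a < 2) (hF : ∀ s : ℂ, a < s.re → DifferentiableAt ℂ F s)
    (hG : ∀ s : ℂ, a < s.re → DifferentiableAt ℂ G s) (h : ∀ s : ℂ, 1 < s.re → F s = G s)
    {s : ℂ} (hs : a < s.re) : F s = G s := by
  set U : Set ℂ := {z | a < z.re} with hU
  have hUo : IsOpen U := isOpen_lt continuous_const Complex.continuous_re
  have hUp : IsPreconnected U := (convex_halfSpace_re_gt a).isPreconnected
  have hFd : DifferentiableOn ℂ F U := fun z hz => (hF z hz).differentiableWithinAt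
  have hGd : DifferentiableOn ℂ G U := fun z hz => (hG z hz).differentiableWithinAt
  have hf : AnalyticOnNhd ℂ F U := hFd.analyticOnNhd hUo
  have hg : AnalyticOnNhd ℂ G U := hGd.analyticOnNhd hUo
  have h2 : (2 : ℂ) ∈ U := by simp [hU, ha]
  have heq : F =ᶠ[𝓝 2] G := by
    have h3 : {z : ℂ | 1 < z.re} ∈ 𝓝 (2 : ℂ) :=
      (isOpen_lt continuous_const Complex.continuous_re).mem_nhds (by simp)
    filter_upwards [h3] with z hz
    exact h z hz
  exact hf.eqOn_of_preconnected_of_eventuallyEq hg hUp h2 heq hs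

lemma differentiableAt_Gamma_of_pos {s : ℂ} (hs : 0 < s.re) :
    DifferentiableAt ℂ Complex.Gamma s := by
  apply Complex.differentiableAt_Gamma
  intro m hm
  rw [hm] at hs
  simp at hs
  have : (0 : ℝ) ≤ m := Nat.cast_nonneg m
  linarith

/-- Mellin transform in the right half plane -/
theorem mellin_fC (hne : χ ≠ 1) (h2 : χ ^ 2 = 1) {s : ℂ} (hs : 0 < s.re) :
    mellin (fC χ) s = Complex.Gamma s * LFunction χ s := by
  have hB : Ap χ = (1 - Polynomial.X) ^ 0 * Ap χ := by rw [pow_zero, one_mul]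
  refine eq_on_half (a := 0) (by norm_num)
    (F := mellin (fC χ)) (G := fun s => Complex.Gamma s * LFunction χ s)
    (fun s hs => differentiableAt_mellin_fC hB (by simpa using hs))
    (fun s hs => (differentiableAt_Gamma_of_pos hs).mul
      ((differentiable_LFunction hne) s)) (fun s hs => mellin_fC_of_one_lt hne h2 hs) hs

/-- the extended Mellin transform -/
noncomputable def GG (χ : DirichletCharacter ℂ N) (κ : ℕ) (s : ℂ) : ℂ :=
  (2 * π) ^ s / 2 * Complex.Gammaℝ (s + κ) * completedLFunction χ s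

lemma Gamma_eq (s : ℂ) :
    Complex.Gamma s = (2 * π) ^ s / 2 * (Complex.Gammaℝ s * Complex.Gammaℝ (s + 1)) := by
  rw [Complex.Gammaℝ_mul_Gammaℝ_add_one, Complex.Gammaℂ_def]
  have h : (2 * (π : ℂ)) ≠ 0 := by
    have := pi_ne_zero
    simp [this]
  rw [Complex.cpow_neg]
  have h1 : (2 * (π : ℂ)) ^ s ≠ 0 := by
    rw [Ne, Complex.cpow_eq_zero_iff]
    tauto
  field_simp

lemma differentiableAt_Gammaℝ {s : ℂ} (hs : 0 < s.re) :
    DifferentiableAt ℂ Complex.Gammaℝ s := by
  have h1 : Complex.Gammaℝ = fun s : ℂ => ((π : ℂ) ^ (-s / 2)) * Complex.Gamma (s / 2) := by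
    ext s; exact Complex.Gammaℝ_def s
  rw [h1]
  apply DifferentiableAt.mul
  · apply DifferentiableAt.const_cpow (by fun_prop)
    left
    exact_mod_cast pi_ne_zero
  · have h2 : 0 < (s / 2).re := by
      rw [Complex.div_ofNat_re]; positivity
    exact (differentiableAt_Gamma_of_pos h2).comp s (by fun_prop)

lemma differentiableAt_GG (hne : χ ≠ 1) {κ : ℕ} {s : ℂ} (hs : -(κ : ℝ) < s.re) :
    DifferentiableAt ℂ (GG χ κ) s := by
  unfold GG
  apply DifferentiableAt.mul
  · apply DifferentiableAt.mul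
    · apply DifferentiableAt.div_const
      apply DifferentiableAt.const_cpow (by fun_prop)
      left
      have := pi_ne_zero
      simp [this]
    · have h2 : 0 < (s + κ).re := by
        rw [Complex.add_re, Complex.natCast_re]; linarith
      exact DifferentiableAt.comp (f := fun s : ℂ => s + κ) (g := Complex.Gammaℝ) s
        (differentiableAt_Gammaℝ h2) (by fun_prop)
  · exact differentiable_completedLFunction hne s

lemma GG_eq_even (hne : χ ≠ 1) (he : χ.Even) {s : ℂ} (hs : 0 < s.re) :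
    Complex.Gamma s * LFunction χ s = GG χ 1 s := by
  have hN := modulus_ne_one hne
  rw [LFunction_eq_completed_div_gammaFactor χ s (Or.inr hN), he.gammaFactor_def, Gamma_eq]
  have h := Complex.Gammaℝ_ne_zero_of_re_pos hs
  unfold GG
  push_cast
  field_simp

lemma GG_eq_odd (hne : χ ≠ 1) (ho : χ.Odd) {s : ℂ} (hs : 0 < s.re) :
    Complex.Gamma s * LFunction χ s = GG χ 0 s := by
  have hN := modulus_ne_one hne
  rw [LFunction_eq_completed_div_gammaFactor χ s (Or.inr hN), ho.gammaFactor_def, Gamma_eq]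
  have h2 : 0 < (s + 1).re := by
    rw [Complex.add_re, Complex.one_re]; linarith
  have h := Complex.Gammaℝ_ne_zero_of_re_pos h2
  unfold GG
  push_cast
  rw [add_zero]
  field_simp

omit [NeZero N] in
/-- the Mellin transform as an integral over the line -/
theorem mellin_fC_real (s : ℝ) :
    mellin (fC χ) s = ((∫ y : ℝ, rexp (-(s * y)) * gS χ y : ℝ) : ℂ) := by
  rw [mellin_real_eq]
  have h1 := Measure.integral_comp_mul_left (fun y : ℝ => rexp (-(s * y)) * gS χ y) (-2)
  have h2 : ∀ t : ℝ, (rexp (2 * s * t) : ℂ) * fC χ (rexp (2 * t)) =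
      ((rexp (-(s * (-2 * t))) * gS χ (-2 * t) : ℝ) : ℂ) := by
    intro t
    have e1 : 2 * s * t = -(s * (-2 * t)) := by ring
    have e2 : rexp (2 * t) = tt (-2 * t) := by unfold tt; congr 1; ring
    rw [e1, e2]
    unfold fC gS xx
    push_cast
    rfl
  simp_rw [h2]
  rw [integral_complex_ofReal, h1, ← Complex.ofReal_ofNat, ← Complex.ofReal_mul]
  congr 1
  rw [smul_eq_mul, abs_of_neg (by norm_num)]
  ring

end mellin

end Pool.Agent.MP0016c7.Ros
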