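import Mathlib
import Pool.Agent.Lib.MP_0016c7_nt.FekMel
import Pool.Agent.Lib.MP_0016c7_nt.RosAsm

open Real Set MeasureTheory Filter Topology

namespace Pool.Agent.MP0016c7.Ros

open DirichletCharacter

lemma Gammaℝ_pos {x : ℝ} (hx : 0 < x) : ∃ v : ℝ, 0 < v ∧ Complex.Gammaℝ x = (v : ℂ) := by
  refine ⟨π ^ (-x / 2) * Real.Gamma (x / 2), ?_, ?_⟩
  · have : 0 < Real.Gamma (x / 2) := Real.Gamma_pos_of_pos (by linarith)
    positivity
  · rw [Complex.Gammaℝ_def]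
    push_cast
    rw [← Complex.Gamma_ofReal, Complex.ofReal_cpow pi_pos.le]
    push_cast
    rfl

variable {N : ℕ} [NeZero N] {χ : DirichletCharacter ℂ N}

lemma Lr_pos_of_one_le (hne : χ ≠ 1) (h2 : χ ^ 2 = 1)
    (hL : ∀ s : ℝ, 0 < s → s < 1 → 0 < Lr χ s) {s : ℝ} (hs : 1 ≤ s) : 0 < Lr χ s := by
  have h1 : 0 < Lr χ 1 := Lr_one_pos hne h2 (σ₀ := 1 / 2) (by norm_num)
    (fun s hs hs1 => hL s (by linarith) hs1)
  by_contra hcon
  rw [not_lt] at hcon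
  obtain ⟨z, hz, hz0⟩ := intermediate_value_Icc' (f := Lr χ) hs (continuous_Lr hne).continuousOn
    ⟨hcon, h1.le⟩
  apply LFunction_ne_zero_of_one_le_re χ (s := (z : ℂ)) (Or.inl hne) (by simpa using hz.1)
  apply Complex.ext
  · exact hz0
  · exact LFunction_im hne h2 (by linarith [hz.1])

lemma Lr_pos (hne : χ ≠ 1) (h2 : χ ^ 2 = 1)
    (hL : ∀ s : ℝ, 0 < s → s < 1 → 0 < Lr χ s) {s : ℝ} (hs : 0 < s) : 0 < Lr χ s := by
  rcases lt_or_ge s 1 with h | h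
  · exact hL s hs h
  · exact Lr_pos_of_one_le hne h2 hL h

lemma LFunction_eq_Lr (hne : χ ≠ 1) (h2 : χ ^ 2 = 1) {s : ℝ} (hs : 0 < s) :
    LFunction χ s = ((Lr χ s : ℝ) : ℂ) := by
  apply Complex.ext
  · rw [Complex.ofReal_re]; rfl
  · rw [Complex.ofReal_im]; exact LFunction_im hne h2 hs

lemma completed_pos_of_pos (hne : χ ≠ 1) (h2 : χ ^ 2 = 1)
    (hL : ∀ s : ℝ, 0 < s → s < 1 → 0 < Lr χ s) {s : ℝ} (hs : 0 < s) :
    ∃ v : ℝ, 0 < v ∧ completedLFunction χ s = (v : ℂ) := by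
  have hN := modulus_ne_one hne
  have h1 := LFunction_eq_completed_div_gammaFactor χ (s : ℂ) (Or.inr hN)
  obtain ⟨g, hg, hg'⟩ : ∃ g : ℝ, 0 < g ∧ gammaFactor χ (s : ℂ) = (g : ℂ) := by
    rcases χ.even_or_odd with he | ho
    · rw [he.gammaFactor_def]; exact Gammaℝ_pos hs
    · rw [ho.gammaFactor_def]
      have := Gammaℝ_pos (x := s + 1) (by linarith)
      push_cast at this
      exact this
  refine ⟨Lr χ s * g, mul_pos (Lr_pos hne h2 hL hs) hg, ?_⟩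
  have hgne : (g : ℂ) ≠ 0 := by exact_mod_cast hg.ne'
  rw [hg', LFunction_eq_Lr hne h2 hs, eq_div_iff hgne] at h1
  rw [← h1]
  push_cast
  rfl

omit [NeZero N] in
lemma char_inv (h2 : χ ^ 2 = 1) : χ⁻¹ = χ := by
  rw [inv_eq_iff_mul_eq_one, ← sq, h2]

/-- the root number is one -/
lemma rootNumber_eq_one (hχ : χ.IsPrimitive) (hne : χ ≠ 1) (h2 : χ ^ 2 = 1)
    (hL : ∀ s : ℝ, 0 < s → s < 1 → 0 < Lr χ s) : rootNumber χ = 1 := by
  have h1 := hχ.completedLFunction_one_sub (1 / 2)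
  obtain ⟨v, hv, hv'⟩ := completed_pos_of_pos hne h2 hL (s := 1 / 2) (by norm_num)
  push_cast at hv'
  rw [char_inv h2, sub_self, Complex.cpow_zero, one_mul] at h1
  have e : (1 : ℂ) - 1 / 2 = 1 / 2 := by norm_num
  rw [e, hv'] at h1
  have hvne : (v : ℂ) ≠ 0 := by exact_mod_cast hv.ne'
  have h3 : rootNumber χ * (v : ℂ) = 1 * (v : ℂ) := by rw [one_mul]; exact h1.symm
  exact mul_right_cancel₀ hvne h3

/-- the completed L-function is positive on the real line -/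
theorem completed_pos (hχ : χ.IsPrimitive) (hne : χ ≠ 1) (h2 : χ ^ 2 = 1)
    (hL : ∀ s : ℝ, 0 < s → s < 1 → 0 < Lr χ s) (s : ℝ) :
    ∃ v : ℝ, 0 < v ∧ completedLFunction χ s = (v : ℂ) := by
  rcases lt_or_ge 0 s with h | h
  · exact completed_pos_of_pos hne h2 hL h
  · obtain ⟨v, hv, hv'⟩ := completed_pos_of_pos hne h2 hL (s := 1 - s) (by linarith)
    have h1 := hχ.completedLFunction_one_sub ((1 - s : ℝ) : ℂ)
    have e : (1 : ℂ) - ((1 - s : ℝ) : ℂ) = (s : ℂ) := by push_cast; ring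
    rw [e, char_inv h2, rootNumber_eq_one hχ hne h2 hL, mul_one, hv'] at h1
    have hN0 : (0 : ℝ) < N := by exact_mod_cast NeZero.pos N
    refine ⟨(N : ℝ) ^ ((1 - s) - 1 / 2) * v, by positivity, ?_⟩
    rw [h1]
    push_cast
    rw [Complex.ofReal_cpow hN0.le]
    push_cast
    rfl

/-- positivity of the Mellin values -/
theorem GG_pos (hχ : χ.IsPrimitive) (hne : χ ≠ 1) (h2 : χ ^ 2 = 1)
    (hL : ∀ s : ℝ, 0 < s → s < 1 → 0 < Lr χ s) {κ : ℕ} {s : ℝ} (hs : -(κ : ℝ) < s) :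
    ∃ v : ℝ, 0 < v ∧ GG χ κ s = (v : ℂ) := by
  obtain ⟨v, hv, hv'⟩ := completed_pos hχ hne h2 hL s
  obtain ⟨g, hg, hg'⟩ := Gammaℝ_pos (x := s + κ) (by linarith)
  refine ⟨(2 * π) ^ s / 2 * g * v, by positivity, ?_⟩
  unfold GG
  have e : (s : ℂ) + (κ : ℂ) = ((s + κ : ℝ) : ℂ) := by push_cast; ring
  rw [e, hg', hv']
  push_cast
  rw [Complex.ofReal_cpow (by positivity)]
  push_cast
  rfl

/-- the residue of the Mellin transform -/
theorem GG_residue (hne : χ ≠ 1) (κ : ℕ) :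
    Tendsto (fun s : ℝ => ((s : ℂ) + κ) * GG χ κ s) (𝓝[>] (-(κ : ℝ)))
      (𝓝 ((2 * π : ℂ) ^ (-(κ : ℂ)) * completedLFunction χ (-(κ : ℂ)))) := by
  have h1 : Tendsto (fun s : ℝ => (s : ℂ) + κ) (𝓝[>] (-(κ : ℝ))) (𝓝[≠] 0) := by
    rw [tendsto_nhdsWithin_iff]
    constructor
    · have : Tendsto (fun s : ℝ => (s : ℂ) + κ) (𝓝 (-(κ : ℝ))) (𝓝 (((-(κ : ℝ) : ℝ) : ℂ) + κ)) := by
        apply Continuous.tendsto; fun_prop
      have e : ((-(κ : ℝ) : ℝ) : ℂ) + κ = 0 := by push_cast; ring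
      rw [e] at this
      exact this.mono_left nhdsWithin_le_nhds
    · filter_upwards [self_mem_nhdsWithin] with s hs
      have hs' : -(κ : ℝ) < s := hs
      intro h0
      have h0' : ((s + κ : ℝ) : ℂ) = 0 := by push_cast; exact h0
      have : s + κ = 0 := by exact_mod_cast h0'
      linarith
  have h3 := Complex.Gammaℝ_residue_zero.comp h1
  have h4 : Tendsto (fun s : ℝ => (2 * π : ℂ) ^ (s : ℂ) / 2 * completedLFunction χ s)
      (𝓝[>] (-(κ : ℝ))) (𝓝 ((2 * π : ℂ) ^ (((-(κ : ℝ) : ℝ) : ℂ)) / 2 *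
        completedLFunction χ ((-(κ : ℝ) : ℝ) : ℂ))) := by
    have hc : Continuous fun s : ℝ => (2 * π : ℂ) ^ (s : ℂ) / 2 * completedLFunction χ s := by
      apply Continuous.mul
      · apply Continuous.div_const
        apply Continuous.const_cpow Complex.continuous_ofReal
        left
        have := pi_ne_zero
        simp [this]
      · exact (differentiable_completedLFunction hne).continuous.comp Complex.continuous_ofReal
    exact (hc.tendsto _).mono_left nhdsWithin_le_nhds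
  have h5 := h3.mul h4
  have e1 : (2 : ℂ) * ((2 * π : ℂ) ^ (((-(κ : ℝ) : ℝ) : ℂ)) / 2 *
        completedLFunction χ ((-(κ : ℝ) : ℝ) : ℂ)) =
      (2 * π : ℂ) ^ (-(κ : ℂ)) * completedLFunction χ (-(κ : ℂ)) := by
    push_cast
    ring
  rw [e1] at h5
  refine h5.congr fun s => ?_
  simp only [Function.comp_apply]
  unfold GG
  ring

end Pool.Agent.MP0016c7.Ros
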