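import Mathlib
import Pool.Agent.Lib.MP_0016c7_nt.FekPos2
import Pool.Agent.Lib.MP_0016c7_nt.CdlMean

open Real Set MeasureTheory Filter Topology

namespace Pool.Agent.MP0016c7.Ros

open DirichletCharacter

variable {N : ℕ} [NeZero N] {χ : DirichletCharacter ℂ N}

/-- for odd characters the mean of the partial sums is positive -/
theorem Sbar_pos (hχ : χ.IsPrimitive) (hne : χ ≠ 1) (h2 : χ ^ 2 = 1) (ho : χ.Odd)
    (hL : ∀ s : ℝ, 0 < s → s < 1 → 0 < Lr χ s) : 0 < Sbar χ := by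
  have hN := modulus_ne_one hne
  rw [← Lr_zero_eq hne h2]
  obtain ⟨v, hv, hv'⟩ := completed_pos hχ hne h2 hL 0
  have h1 := LFunction_eq_completed_div_gammaFactor χ ((0 : ℝ) : ℂ) (Or.inr hN)
  obtain ⟨g, hg, hg'⟩ := Gammaℝ_pos (x := 0 + 1) (by norm_num)
  rw [ho.gammaFactor_def, hv'] at h1
  have e : ((0 : ℝ) : ℂ) + 1 = ((0 + 1 : ℝ) : ℂ) := by push_cast; ring
  rw [e, hg'] at h1
  unfold Lr
  rw [h1, ← Complex.ofReal_div, Complex.ofReal_re]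
  positivity

/-- uniform lower bound on the unit interval -/
theorem Lr_lower (hχ : χ.IsPrimitive) (hne : χ ≠ 1) (h2 : χ ^ 2 = 1) (ho : χ.Odd)
    (hL : ∀ s : ℝ, 0 < s → s < 1 → 0 < Lr χ s) :
    ∃ ℓ : ℝ, 0 < ℓ ∧ ℓ ≤ Sbar χ ∧ ∀ s, 0 ≤ s → s ≤ 1 → ℓ ≤ Lr χ s := by
  have hS := Sbar_pos hχ hne h2 ho hL
  obtain ⟨z, hz, hmin⟩ := isCompact_Icc.exists_isMinOn (nonempty_Icc.mpr (zero_le_one (α := ℝ)))
    (continuous_Lr hne).continuousOn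
  refine ⟨Lr χ z, ?_, ?_, fun s h0 h1 => hmin ⟨h0, h1⟩⟩
  · rcases eq_or_lt_of_le hz.1 with h | h
    · rw [← h, Lr_zero_eq hne h2]; exact hS
    · exact Lr_pos hne h2 hL h
  · rw [← Lr_zero_eq hne h2]
    exact hmin ⟨le_rfl, zero_le_one⟩

end Pool.Agent.MP0016c7.Ros
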