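import Mathlib
import Pool.Agent.Lib.MP_0016c7_nt.CdlMean

open Real Set MeasureTheory Filter Topology

namespace Pool.Agent.MP0016c7.Ros

variable {N : ℕ} [NeZero N] {χ : DirichletCharacter ℂ N}

lemma kt_of_nonneg {w : ℝ} (hw : 0 ≤ w) : kt 1 w = rexp (-w) := by
  unfold kt; rw [if_pos hw, one_mul]

lemma kt_of_neg {w : ℝ} (hw : w < 0) : kt 1 w = 0 := by
  unfold kt; rw [if_neg (not_le.mpr hw)]

lemma intervalIntegrable_kt (s y a b : ℝ) :
    IntervalIntegrable (fun u => rexp (-(s * u)) * kt 1 (y - u)) volume a b := by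
  apply IntervalIntegrable.continuousOn_mul
  · rw [intervalIntegrable_iff]
    apply MeasureTheory.Measure.integrableOn_of_bounded (M := 1)
    · simp
    · exact ((measurable_kt 1).comp (by fun_prop)).aestronglyMeasurable
    · filter_upwards with u
      rw [Real.norm_eq_abs, abs_of_nonneg (kt_nonneg _ _)]
      exact kt_le_one zero_le_one _
  · exact Continuous.continuousOn (by fun_prop)

lemma integral_kt_above {s y a b : ℝ} (hab : a ≤ b) (hb : b ≤ y) :
    (1 - s) * ∫ u in a..b, rexp (-(s * u)) * kt 1 (y - u) =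
      rexp (-(s * b)) * rexp (-(y - b)) - rexp (-(s * a)) * rexp (-(y - a)) := by
  have h1 : ∫ u in a..b, rexp (-(s * u)) * kt 1 (y - u) =
      ∫ u in a..b, rexp (-(s * u)) * rexp (-(y - u)) := by
    apply intervalIntegral.integral_congr
    intro u hu
    rw [uIcc_of_le hab] at hu
    simp only
    rw [kt_of_nonneg (by linarith [hu.2])]
  have hd : ∀ u : ℝ, HasDerivAt (fun u => rexp (-(s * u)) * rexp (-(y - u)))
      ((1 - s) * (rexp (-(s * u)) * rexp (-(y - u)))) u := by
    intro u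
    have d1 : HasDerivAt (fun u : ℝ => -(s * u)) (-(s * 1)) u :=
      ((hasDerivAt_id u).const_mul s).fun_neg
    have d2 : HasDerivAt (fun u : ℝ => -(y - u)) (-(0 - 1)) u :=
      ((hasDerivAt_const u y).fun_sub (hasDerivAt_id u)).fun_neg
    have e : (1 - s) * (rexp (-(s * u)) * rexp (-(y - u))) =
        rexp (-(s * u)) * -(s * 1) * rexp (-(y - u)) +
        rexp (-(s * u)) * (rexp (-(y - u)) * -(0 - 1)) := by ring
    rw [e]
    exact d1.exp.fun_mul d2.exp
  rw [h1, ← intervalIntegral.integral_const_mul,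
    intervalIntegral.integral_eq_sub_of_hasDerivAt (fun u _ => hd u)]
  apply Continuous.intervalIntegrable
  fun_prop

lemma integral_kt_below {s y a b : ℝ} (hab : a ≤ b) (ha : y ≤ a) :
    ∫ u in a..b, rexp (-(s * u)) * kt 1 (y - u) = 0 := by
  rw [intervalIntegral.integral_of_le hab]
  apply setIntegral_eq_zero_of_forall_eq_zero
  intro u hu
  rw [kt_of_neg (by linarith [hu.1]), mul_zero]

/-- indicator of an interval in terms of the exponential kernels -/
lemma kt_ind {s α β : ℝ} (h : α ≤ β) (y : ℝ) :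
    (if α ≤ y ∧ y < β then rexp (-(s * y)) else 0) =
      rexp (-(s * α)) * kt 1 (y - α) - rexp (-(s * β)) * kt 1 (y - β) +
      (1 - s) * ∫ u in α..β, rexp (-(s * u)) * kt 1 (y - u) := by
  rcases lt_or_ge y α with h1 | h1
  · rw [if_neg (fun hc => absurd hc.1 (not_le.mpr h1)), kt_of_neg (by linarith),
      kt_of_neg (by linarith), integral_kt_below h h1.le]
    ring
  rcases lt_or_ge y β with h2 | h2
  · rw [if_pos ⟨h1, h2⟩, kt_of_nonneg (by linarith), kt_of_neg (by linarith),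
      ← intervalIntegral.integral_add_adjacent_intervals (intervalIntegrable_kt s y α y)
        (intervalIntegrable_kt s y y β), integral_kt_below h2.le le_rfl, add_zero,
      integral_kt_above h1 le_rfl]
    simp
  · rw [if_neg (fun hc => absurd hc.2 (not_lt.mpr h2)), kt_of_nonneg (by linarith),
      kt_of_nonneg (by linarith), integral_kt_above h h2]
    ring

/-- the expectation of the indicator -/
noncomputable def Bq (P : ℝ → Finset ℕ) (s Λ X α β : ℝ) : ℝ :=
  Ef (P Λ) (xs s) lg (fun S => if α ≤ X - S ∧ X - S < β then rexp (-(s * (X - S))) else 0)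

lemma intervalIntegrable_al (P : ℝ → Finset ℕ) (s Λ X a b : ℝ) :
    IntervalIntegrable (fun u => rexp (-(s * u)) * al P 1 s Λ (X - u)) volume a b := by
  apply IntervalIntegrable.continuousOn_mul
  · rw [intervalIntegrable_iff]
    apply MeasureTheory.Measure.integrableOn_of_bounded (M := 1)
    · simp
    · exact ((measurable_al P 1 s Λ).comp (by fun_prop)).aestronglyMeasurable
    · filter_upwards with u
      rw [Real.norm_eq_abs, abs_of_nonneg (al_nonneg P 1 s Λ _)]
      exact al_le_one P zero_le_one s Λ _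
  · exact Continuous.continuousOn (by fun_prop)

lemma Bq_eq (P : ℝ → Finset ℕ) (s Λ X : ℝ) {α β : ℝ} (h : α ≤ β) :
    Bq P s Λ X α β = rexp (-(s * α)) * al P 1 s Λ (X - α) - rexp (-(s * β)) * al P 1 s Λ (X - β) +
      (1 - s) * ∫ u in α..β, rexp (-(s * u)) * al P 1 s Λ (X - u) := by
  have e1 : (fun S => if α ≤ X - S ∧ X - S < β then rexp (-(s * (X - S))) else 0) =
      fun S => rexp (-(s * α)) * kt 1 (X - S - α) - rexp (-(s * β)) * kt 1 (X - S - β) +
      (1 - s) * ∫ u in α..β, rexp (-(s * u)) * kt 1 (X - S - u) := by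
    ext S
    exact kt_ind h (X - S)
  have e2 : ∀ u : ℝ, (fun S => kt 1 (X - S - u)) = fun S => kt 1 (X - u - S) := by
    intro u; ext S; congr 1; ring
  unfold Bq
  rw [e1, Ef_add, Ef_sub, Ef_const_mul, Ef_const_mul, Ef_const_mul, e2, e2]
  congr 2
  unfold al Ef
  simp_rw [mul_div_assoc']
  rw [intervalIntegral.integral_div]
  congr 1
  simp_rw [Finset.mul_sum]
  rw [intervalIntegral.integral_finsetSum]
  · apply Finset.sum_congr rfl
    intro A _
    rw [← intervalIntegral.integral_const_mul]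
    congr 1
    ext u
    have : X - Sm lg A - u = X - u - Sm lg A := by ring
    rw [this]
    ring
  · intro A _
    have h1 := (intervalIntegrable_kt s (X - Sm lg A) α β).const_mul (Wt (xs s) A)
    refine h1.congr_ae ?_
    filter_upwards with u
    have : X - Sm lg A - u = X - u - Sm lg A := by ring
    rw [this]
    ring

lemma exp_int_formula (s α β : ℝ) :
    rexp (-(s * α)) - rexp (-(s * β)) + (1 - s) * ∫ u in α..β, rexp (-(s * u)) =
      ∫ u in α..β, rexp (-(s * u)) := by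
  have hd : ∀ u : ℝ, HasDerivAt (fun u => -rexp (-(s * u))) (s * rexp (-(s * u))) u := by
    intro u
    have d1 : HasDerivAt (fun u : ℝ => -(s * u)) (-(s * 1)) u :=
      ((hasDerivAt_id u).const_mul s).fun_neg
    have e : s * rexp (-(s * u)) = -(rexp (-(s * u)) * -(s * 1)) := by ring
    rw [e]
    exact d1.exp.fun_neg
  have h1 : ∫ u in α..β, s * rexp (-(s * u)) = -rexp (-(s * β)) - -rexp (-(s * α)) := by
    rw [intervalIntegral.integral_eq_sub_of_hasDerivAt (fun u _ => hd u)]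
    apply Continuous.intervalIntegrable
    fun_prop
  rw [intervalIntegral.integral_const_mul] at h1
  linarith

/-- local uniform distribution of the mass -/
lemma Bq_near (P : ℝ → Finset ℕ) {s Λ X α β E₁ : ℝ} (hs : 0 ≤ s) (hs1 : s ≤ 1) (hα : 0 ≤ α)
    (h : α ≤ β) (hE : 0 ≤ E₁)
    (hSR : ∀ u, 0 ≤ u → u ≤ β → |al P 1 s Λ (X - u) - al P 1 s Λ X| ≤ (1 + u) * E₁) :
    |Bq P s Λ X α β - al P 1 s Λ X * ∫ u in α..β, rexp (-(s * u))| ≤ 2 * (1 + β) ^ 2 * E₁ := by
  set G := al P 1 s Λ X with hG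
  have hβ : 0 ≤ β := hα.trans h
  have e : Bq P s Λ X α β - G * ∫ u in α..β, rexp (-(s * u)) =
      rexp (-(s * α)) * (al P 1 s Λ (X - α) - G) - rexp (-(s * β)) * (al P 1 s Λ (X - β) - G) +
      (1 - s) * ∫ u in α..β, rexp (-(s * u)) * (al P 1 s Λ (X - u) - G) := by
    rw [Bq_eq P s Λ X h]
    conv_lhs => rw [← exp_int_formula s α β]
    have h1 : ∫ u in α..β, rexp (-(s * u)) * (al P 1 s Λ (X - u) - G) =
        (∫ u in α..β, rexp (-(s * u)) * al P 1 s Λ (X - u)) -
        G * ∫ u in α..β, rexp (-(s * u)) := by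
      rw [← intervalIntegral.integral_const_mul, ← intervalIntegral.integral_sub
        (intervalIntegrable_al P s Λ X α β)]
      · congr 1
        ext u
        ring
      · apply Continuous.intervalIntegrable
        fun_prop
    rw [h1]
    ring
  rw [e]
  have hex : ∀ u, 0 ≤ u → rexp (-(s * u)) ≤ 1 := fun u hu => by
    rw [exp_le_one_iff, neg_nonpos]; exact mul_nonneg hs hu
  have a1 : |rexp (-(s * α)) * (al P 1 s Λ (X - α) - G)| ≤ (1 + β) * E₁ := by
    rw [abs_mul, abs_of_pos (exp_pos _)]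
    calc _ ≤ 1 * ((1 + α) * E₁) := mul_le_mul (hex α hα) (hSR α hα h) (abs_nonneg _) zero_le_one
      _ ≤ _ := by nlinarith only [h, hE]
  have a2 : |rexp (-(s * β)) * (al P 1 s Λ (X - β) - G)| ≤ (1 + β) * E₁ := by
    rw [abs_mul, abs_of_pos (exp_pos _)]
    calc _ ≤ 1 * ((1 + β) * E₁) := mul_le_mul (hex β hβ) (hSR β hβ le_rfl) (abs_nonneg _) zero_le_one
      _ = _ := one_mul _
  have a3 : |∫ u in α..β, rexp (-(s * u)) * (al P 1 s Λ (X - u) - G)| ≤ (1 + β) * E₁ * |β - α| := by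
    rw [← Real.norm_eq_abs]
    apply intervalIntegral.norm_integral_le_of_norm_le_const
    intro u hu
    rw [uIoc_of_le h] at hu
    have hu0 : 0 ≤ u := hα.trans hu.1.le
    rw [Real.norm_eq_abs, abs_mul, abs_of_pos (exp_pos _)]
    calc _ ≤ 1 * ((1 + u) * E₁) := mul_le_mul (hex u hu0) (hSR u hu0 hu.2) (abs_nonneg _) zero_le_one
      _ ≤ _ := by nlinarith only [hE, hu, hu.2]
  have a4 : |(1 - s) * ∫ u in α..β, rexp (-(s * u)) * (al P 1 s Λ (X - u) - G)| ≤
      β * ((1 + β) * E₁) := by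
    rw [abs_mul, abs_of_nonneg (by linarith : (0 : ℝ) ≤ 1 - s)]
    have : |β - α| ≤ β := by rw [abs_of_nonneg (by linarith)]; linarith
    have h5 : (1 + β) * E₁ * |β - α| ≤ (1 + β) * E₁ * β :=
      mul_le_mul_of_nonneg_left this (by positivity)
    calc (1 - s) * |∫ u in α..β, rexp (-(s * u)) * (al P 1 s Λ (X - u) - G)| ≤
          1 * ((1 + β) * E₁ * β) := mul_le_mul (by linarith) (a3.trans h5) (abs_nonneg _) zero_le_one
      _ = _ := by ring
  refine (abs_add_le _ _).trans ?_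
  refine (add_le_add_left (abs_sub _ _) _).trans ?_
  have : 0 ≤ β * ((1 + β) * E₁) := by positivity
  nlinarith only [a1, a2, a4, this]

/-- the weighted partial sum as a function of `y` -/
noncomputable def Sy (χ : DirichletCharacter ℂ N) (s y : ℝ) : ℝ :=
  Sn χ ⌊rexp y⌋₊ * rexp (-(s * y))

omit [NeZero N] in
lemma Sy_neg {s y : ℝ} (hy : y < 0) : Sy χ s y = 0 := by
  unfold Sy
  have : ⌊rexp y⌋₊ = 0 := by
    rw [Nat.floor_eq_zero]
    rwa [exp_lt_one_iff]
  rw [this, Sn_zero, zero_mul]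

omit [NeZero N] in
lemma Sy_expand (s : ℝ) (M : ℕ) {y : ℝ} :
    (if y < lg (M + 1) then Sy χ s y else 0) = ∑ n ∈ Finset.Icc 1 M, rchar χ n *
      (if lg n ≤ y ∧ y < lg (M + 1) then rexp (-(s * y)) else 0) := by
  split_ifs with h
  · have hM : rexp y < M + 1 := by
      have h0 : (0 : ℝ) < ((M + 1 : ℕ) : ℝ) := by positivity
      unfold lg at h
      rw [Real.lt_log_iff_exp_lt h0] at h
      push_cast at h
      exact h
    have hle : ⌊rexp y⌋₊ ≤ M := by
      have := (Nat.floor_lt (exp_pos y).le).mpr (show rexp y < ((M + 1 : ℕ) : ℝ) by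
        push_cast; exact hM)
      omega
    unfold Sy Sn
    rw [Finset.sum_mul]
    have e1 : ∀ n ∈ Finset.Icc 1 M, rchar χ n * (if lg n ≤ y ∧ y < lg (M + 1) then
        rexp (-(s * y)) else 0) = if n ≤ ⌊rexp y⌋₊ then rchar χ n * rexp (-(s * y)) else 0 := by
      intro n hn
      rw [Finset.mem_Icc] at hn
      have hn0 : (0 : ℝ) < n := by exact_mod_cast hn.1
      have e2 : lg n ≤ y ↔ n ≤ ⌊rexp y⌋₊ := by
        rw [Nat.le_floor_iff (exp_pos y).le]
        unfold lg
        exact Real.log_le_iff_le_exp hn0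
      by_cases h3 : n ≤ ⌊rexp y⌋₊
      · rw [if_pos ⟨e2.mpr h3, h⟩, if_pos h3]
      · rw [if_neg (fun hc => h3 (e2.mp hc.1)), if_neg h3, mul_zero]
    rw [Finset.sum_congr rfl e1, ← Finset.sum_filter]
    apply Finset.sum_congr _ (fun _ _ => rfl)
    ext n
    rw [Finset.mem_filter, Finset.mem_Icc, Finset.mem_Icc]
    constructor
    · rintro ⟨a, b⟩; exact ⟨⟨a, b.trans hle⟩, b⟩
    · rintro ⟨⟨a, -⟩, b⟩; exact ⟨a, b⟩
  · symm
    apply Finset.sum_eq_zero
    intro n _
    rw [if_neg (fun hc => h hc.2), mul_zero]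

/-- the small part of the expectation -/
noncomputable def P0 (χ : DirichletCharacter ℂ N) (P : ℝ → Finset ℕ) (s Λ X : ℝ) (M : ℕ) : ℝ :=
  Ef (P Λ) (xs s) lg (fun S => if X - S < lg (M + 1) then Sy χ s (X - S) else 0)

omit [NeZero N] in
lemma P0_near (h2 : χ ^ 2 = 1) (P : ℝ → Finset ℕ) {s Λ X E₁ : ℝ} {M : ℕ} (hs : 0 ≤ s) (hs1 : s ≤ 1)
    (hE : 0 ≤ E₁)
    (hSR : ∀ u, 0 ≤ u → u ≤ lg (M + 1) → |al P 1 s Λ (X - u) - al P 1 s Λ X| ≤ (1 + u) * E₁) :
    |P0 χ P s Λ X M - al P 1 s Λ X * Jq χ s M| ≤ M * (2 * (1 + lg (M + 1)) ^ 2 * E₁) := by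
  have e1 : P0 χ P s Λ X M = ∑ n ∈ Finset.Icc 1 M, rchar χ n * Bq P s Λ X (lg n) (lg (M + 1)) := by
    unfold P0 Bq
    rw [← Ef_sum]
    congr 1
    ext S
    exact Sy_expand s M
  have e2 : P0 χ P s Λ X M - al P 1 s Λ X * Jq χ s M = ∑ n ∈ Finset.Icc 1 M, rchar χ n *
      (Bq P s Λ X (lg n) (lg (M + 1)) - al P 1 s Λ X * ∫ u in (lg n)..(lg (M + 1)), rexp (-(s * u))) := by
    rw [e1]
    unfold Jq wt
    rw [Finset.mul_sum, ← Finset.sum_sub_distrib]
    apply Finset.sum_congr rfl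
    intro n _
    ring
  rw [e2]
  refine (Finset.abs_sum_le_sum_abs _ _).trans ?_
  calc _ ≤ ∑ _n ∈ Finset.Icc 1 M, 2 * (1 + lg (M + 1)) ^ 2 * E₁ := by
        apply Finset.sum_le_sum
        intro n hn
        rw [Finset.mem_Icc] at hn
        rw [abs_mul]
        have h3 := Bq_near P hs hs1 (lg_nonneg n) (lg_mono hn.1 (by omega : n ≤ M + 1)) hE hSR
        calc _ ≤ 1 * (2 * (1 + lg (M + 1)) ^ 2 * E₁) :=
              mul_le_mul (abs_rchar_le h2 n) h3 (abs_nonneg _) zero_le_one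
          _ = _ := one_mul _
    _ = _ := by
        rw [Finset.sum_const, Nat.card_Icc, nsmul_eq_mul, Nat.add_sub_cancel]

end Pool.Agent.MP0016c7.Ros
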