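import Mathlib
import Pool.Agent.Lib.MP_0016c7_nt.CardDiam
import Pool.Agent.Lib.MP_0016c7_nt.RosBd

open Real Set MeasureTheory Filter Topology

namespace Pool.Agent.MP0016c7.Ros

/-! ### Counting integers whose logarithm has a phase near a multiple of `2 π` -/

lemma card_near {ξ Λ ρ W : ℝ} (hξ : 0 < ξ) (hρ : 0 ≤ ρ) (hW : 0 ≤ W) {E : Finset ℕ}
    (hE : ∀ n ∈ E, 0 < n ∧ lg n ≤ Λ ∧ Λ - W ≤ lg n ∧
      |ξ * lg n - 2 * π * ⌊ξ * lg n / (2 * π) + 1 / 2⌋| ≤ ρ) :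
    (E.card : ℝ) ≤ (2 * ρ / ξ * rexp Λ + 1) * (ξ * W / (2 * π) + 2) := by
  classical
  have hπ : 0 < 2 * π := by positivity
  set f : ℕ → ℤ := fun n => ⌊ξ * lg n / (2 * π) + 1 / 2⌋ with hf
  set R : ℝ := 2 * ρ / ξ * rexp Λ with hR
  have hR0 : 0 ≤ R := by positivity
  have hfib : ∀ k ∈ E.image f, ({n ∈ E | f n = k}.card : ℝ) ≤ R + 1 := by
    intro k _
    apply card_le_of_diam hR0
    intro m hm n hn hmn
    rw [Finset.mem_filter] at hm hn
    obtain ⟨hm1, hm2⟩ := hm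
    obtain ⟨hn1, hn2⟩ := hn
    obtain ⟨m0, -, -, m3⟩ := hE m hm1
    obtain ⟨n0, n1, -, n3⟩ := hE n hn1
    have em : (⌊ξ * lg m / (2 * π) + 1 / 2⌋ : ℝ) = k := by exact_mod_cast hm2
    have en : (⌊ξ * lg n / (2 * π) + 1 / 2⌋ : ℝ) = k := by exact_mod_cast hn2
    rw [em, abs_le] at m3
    rw [en, abs_le] at n3
    have h1 : lg n - lg m ≤ 2 * ρ / ξ := by
      rw [le_div_iff₀ hξ]
      nlinarith only [m3, n3, m3.1, m3.2, n3.1, n3.2]
    have hm0 : (0 : ℝ) < m := by exact_mod_cast m0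
    have hn0 : (0 : ℝ) < n := by exact_mod_cast n0
    have h2 : (n : ℝ) ≤ rexp Λ := by
      rw [← Real.log_le_iff_le_exp hn0]; exact n1
    have h3 : rexp (lg m - lg n) = m / n := by
      unfold lg
      rw [exp_sub, exp_log hm0, exp_log hn0]
    have h4 := add_one_le_exp (lg m - lg n)
    rw [h3] at h4
    have h5 : 1 - (m : ℝ) / n ≤ 2 * ρ / ξ := by linarith only [h1, h4]
    have h6 : (n : ℝ) - m = n * (1 - m / n) := by field_simp
    have h7 : 0 ≤ 2 * ρ / ξ := by positivity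
    rw [h6]
    calc (n : ℝ) * (1 - m / n) ≤ n * (2 * ρ / ξ) := mul_le_mul_of_nonneg_left h5 hn0.le
      _ ≤ rexp Λ * (2 * ρ / ξ) := mul_le_mul_of_nonneg_right h2 h7
      _ = R := by rw [hR]; ring
  have himg : ((E.image f).card : ℝ) ≤ ξ * W / (2 * π) + 2 := by
    have hsub : E.image f ⊆ Finset.Icc ⌊ξ * (Λ - W) / (2 * π) + 1 / 2⌋ ⌊ξ * Λ / (2 * π) + 1 / 2⌋ := by
      intro k hk
      rw [Finset.mem_image] at hk
      obtain ⟨n, hn, rfl⟩ := hk
      obtain ⟨-, n1, n2, -⟩ := hE n hn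
      rw [Finset.mem_Icc]
      constructor
      · apply Int.floor_le_floor
        gcongr
      · apply Int.floor_le_floor
        gcongr
    have h1 := Finset.card_le_card hsub
    rw [Int.card_Icc] at h1
    have h2 : ((⌊ξ * Λ / (2 * π) + 1 / 2⌋ + 1 - ⌊ξ * (Λ - W) / (2 * π) + 1 / 2⌋).toNat : ℝ) ≤
        ξ * W / (2 * π) + 2 := by
      have a1 := Int.floor_le (ξ * Λ / (2 * π) + 1 / 2)
      have a2 := Int.lt_floor_add_one (ξ * (Λ - W) / (2 * π) + 1 / 2)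
      have a3 : ξ * (Λ - W) / (2 * π) = ξ * Λ / (2 * π) - ξ * W / (2 * π) := by ring
      have hp : 0 ≤ ξ * W / (2 * π) := by positivity
      set z := ⌊ξ * Λ / (2 * π) + 1 / 2⌋ + 1 - ⌊ξ * (Λ - W) / (2 * π) + 1 / 2⌋ with hz
      have hz1 : (z : ℝ) ≤ ξ * W / (2 * π) + 2 := by
        rw [hz]; push_cast; linarith only [a1, a2, a3]
      rcases le_total 0 z with h0 | h0
      · have : ((z.toNat : ℤ) : ℝ) = z := by rw [Int.toNat_of_nonneg h0]
        have e : ((z.toNat : ℕ) : ℝ) = z := by exact_mod_cast this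
        rw [e]; exact hz1
      · rw [Int.toNat_of_nonpos h0]; push_cast; linarith only [hp]
    calc ((E.image f).card : ℝ) ≤ _ := by exact_mod_cast h1
      _ ≤ _ := h2
  have hcard : (E.card : ℝ) = ∑ k ∈ E.image f, ({n ∈ E | f n = k}.card : ℝ) := by
    rw [← Nat.cast_sum]
    exact_mod_cast Finset.card_eq_sum_card_image f E
  rw [hcard]
  calc ∑ k ∈ E.image f, ({n ∈ E | f n = k}.card : ℝ) ≤ ∑ _k ∈ E.image f, (R + 1) :=
        Finset.sum_le_sum hfib
    _ = (E.image f).card * (R + 1) := by rw [Finset.sum_const, nsmul_eq_mul]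
    _ ≤ (ξ * W / (2 * π) + 2) * (R + 1) := mul_le_mul_of_nonneg_right himg (by linarith)
    _ = _ := by ring

/-- far from multiples of `2 π` the cosine is far from one -/
lemma one_sub_cos_ge {φ ρ : ℝ} (hρ : 0 ≤ ρ) (h : ρ < |φ - 2 * π * ⌊φ / (2 * π) + 1 / 2⌋|) :
    2 / π ^ 2 * ρ ^ 2 ≤ 1 - cos φ := by
  have hπ : 0 < 2 * π := by positivity
  set k := ⌊φ / (2 * π) + 1 / 2⌋ with hk
  have h1 : |φ - 2 * π * k| ≤ π := by
    have a1 := Int.floor_le (φ / (2 * π) + 1 / 2)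
    have a2 := Int.lt_floor_add_one (φ / (2 * π) + 1 / 2)
    rw [← hk] at a1 a2
    have e : φ = 2 * π * (φ / (2 * π)) := by field_simp
    rw [abs_le]
    constructor <;> nlinarith only [e, hπ, a1, a2]
  have h2 := Real.cos_le_one_sub_mul_cos_sq h1
  have h3 : cos (φ - 2 * π * k) = cos φ := by
    have := Real.cos_sub_int_mul_two_pi φ k
    rw [← this]; congr 1; ring
  rw [h3] at h2
  have h4 : ρ ^ 2 ≤ (φ - 2 * π * k) ^ 2 := by
    rw [← sq_abs (φ - 2 * π * k)]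
    exact pow_le_pow_left₀ hρ h.le 2
  have h5 : 2 / π ^ 2 * ρ ^ 2 ≤ 2 / π ^ 2 * (φ - 2 * π * k) ^ 2 :=
    mul_le_mul_of_nonneg_left h4 (by positivity)
  linarith only [h2, h5]

variable {P : ℝ → Finset ℕ} {C₀ : ℝ} {C₁ Cs : ℝ → ℝ}

/-- the arithmetic for large `Λ` -/
lemma far_big_arith (W : ℝ) : ∀ᶠ Λ : ℝ in atTop,
    W / Λ ^ 3 + 2 / Λ ^ 2 + W * rexp (-(Λ / 8)) + 2 * rexp (-Λ) ≤ rexp (-W) / Λ ∧
    16 * Λ ≤ rexp (Λ / 2) * rexp (-W) / Λ * (2 / π ^ 2 * (1 / Λ ^ 3) ^ 2) := by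
  have t1 : Tendsto (fun Λ : ℝ => W / Λ ^ 2 + 2 / Λ + W * (Λ * rexp (-(Λ / 8))) +
      2 * (Λ * rexp (-Λ))) atTop (𝓝 0) := by
    have a1 : Tendsto (fun Λ : ℝ => W / Λ ^ 2) atTop (𝓝 0) :=
      Tendsto.div_atTop tendsto_const_nhds (tendsto_pow_atTop two_ne_zero)
    have a2 : Tendsto (fun Λ : ℝ => 2 / Λ) atTop (𝓝 0) :=
      Tendsto.div_atTop tendsto_const_nhds tendsto_id
    have a3 : Tendsto (fun Λ : ℝ => Λ * rexp (-(Λ / 8))) atTop (𝓝 0) := by
      have h := (tendsto_pow_mul_exp_neg_atTop_nhds_zero 1).comp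
        (tendsto_id.atTop_div_const (by norm_num : (0 : ℝ) < 8))
      have h2 := h.const_mul 8
      rw [mul_zero] at h2
      refine h2.congr fun x => ?_
      simp only [Function.comp_apply, id, pow_one]
      ring
    have a4 : Tendsto (fun Λ : ℝ => Λ * rexp (-Λ)) atTop (𝓝 0) := by
      have h := tendsto_pow_mul_exp_neg_atTop_nhds_zero 1
      simpa using h
    have := ((a1.add a2).add (a3.const_mul W)).add (a4.const_mul 2)
    simpa using this
  have t2 : Tendsto (fun Λ : ℝ => rexp (Λ / 2) / Λ ^ 8) atTop atTop := by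
    have h := (tendsto_exp_div_pow_atTop 8).comp
      (tendsto_id.atTop_div_const (by norm_num : (0 : ℝ) < 2))
    have h2 := h.const_mul_atTop (by norm_num : (0 : ℝ) < 1 / 2 ^ 8)
    refine h2.congr fun x => ?_
    simp only [Function.comp_apply, id, div_pow]
    rcases eq_or_ne x 0 with rfl | hx
    · simp
    · field_simp
  have e1 := t1.eventually (gt_mem_nhds (exp_pos (-W)))
  have e2 := t2.eventually_ge_atTop (16 * (π ^ 2 / 2) * rexp W)
  filter_upwards [e1, e2, eventually_gt_atTop 0] with Λ h1 h2 h0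
  constructor
  · rw [le_div_iff₀ h0]
    refine le_trans (le_of_eq ?_) h1.le
    field_simp
  · rw [le_div_iff₀ (by positivity)] at h2
    have e : rexp (Λ / 2) * rexp (-W) / Λ * (2 / π ^ 2 * (1 / Λ ^ 3) ^ 2) =
        rexp (Λ / 2) * (rexp (-W) * (2 / π ^ 2) / Λ ^ 7) := by
      field_simp
    rw [e]
    have h3 : 16 * Λ = (16 * (π ^ 2 / 2) * rexp W * Λ ^ 8) * (rexp (-W) * (2 / π ^ 2) / Λ ^ 7) := by
      have : rexp W * rexp (-W) = 1 := by rw [← exp_add]; simp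
      have hπ := pi_ne_zero
      field_simp
      rw [mul_comm (rexp W), mul_comm] at *
      nlinarith only [this, this]
    rw [h3]
    exact mul_le_mul_of_nonneg_right h2 (by positivity)

namespace MDat

variable (hM : MDat P C₀ C₁ Cs)
include hM

lemma card_top {W Λ : ℝ} (hW : W = 4 * C₀ + 4) (hΛ : W ≤ Λ) :
    2 * (rexp (-W) / Λ) * rexp Λ ≤ ((P Λ).filter fun p => ¬ (lg p ≤ Λ - W)).card := by
  have hC0 := hM.C0
  have hΛ0 : 0 < Λ := by linarith
  have h1 := hM.blk_t0 (u := Λ) (v := Λ - W) (by linarith) (by linarith)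
  have h2 : (Λ - (Λ - W)) / 2 - 2 * C₀ = 2 := by rw [hW]; ring
  rw [h2] at h1
  have h3 : ∑ p ∈ P Λ with ¬ (lg p ≤ Λ - W), lg p / p ≤
      ∑ _p ∈ P Λ with ¬ (lg _p ≤ Λ - W), Λ / rexp (Λ - W) := by
    apply Finset.sum_le_sum
    intro p hp
    rw [Finset.mem_filter] at hp
    have hp0 := hM.pos_of_mem hp.1
    apply div_le_div₀ hΛ0.le (hM.le Λ p hp.1) (exp_pos _)
    have : Λ - W < lg p := not_le.mp hp.2
    rw [← Real.le_log_iff_exp_le hp0]
    exact this.le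
  rw [Finset.sum_const, nsmul_eq_mul] at h3
  have h4 := h1.trans h3
  have h5 : rexp (Λ - W) = rexp Λ * rexp (-W) := by rw [← exp_add]; ring_nf
  rw [h5] at h4
  have h6 : 0 < rexp Λ * rexp (-W) := by positivity
  rw [mul_div_assoc', le_div_iff₀ h6] at h4
  have h7 : 2 * (rexp (-W) / Λ) * rexp Λ = 2 * (rexp Λ * rexp (-W)) / Λ := by ring
  rw [h7, div_le_iff₀ hΛ0]
  exact h4

/-- the characteristic function is tiny up to large frequencies -/
theorem far_big : ∃ Λ₀ : ℝ, 1 ≤ Λ₀ ∧ ∀ σ Λ ξ : ℝ, 0 ≤ σ → σ ≤ 1 / 2 → Λ₀ ≤ Λ →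
    π / Λ ≤ |ξ| → |ξ| ≤ rexp (7 * Λ / 8) → ‖ph P σ Λ ξ‖ ≤ rexp (-(4 * Λ)) := by
  have hC0 := hM.C0
  set W := 4 * C₀ + 4 with hW
  obtain ⟨Λ₁, hΛ₁⟩ := (far_big_arith W).exists_forall_of_atTop
  refine ⟨max Λ₁ (max W 1), le_max_of_le_right (le_max_right _ _),
    fun σ Λ ξ h0 hσ hΛ hξ hξT => ?_⟩
  have hΛa : Λ₁ ≤ Λ := (le_max_left _ _).trans hΛ
  have hΛW : W ≤ Λ := ((le_max_left _ _).trans (le_max_right _ _)).trans hΛ
  have hΛ1 : 1 ≤ Λ := ((le_max_right _ _).trans (le_max_right _ _)).trans hΛ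
  have hΛ0 : 0 < Λ := by linarith only [hC0, hΛW]
  have hW0 : 0 ≤ W := by linarith
  obtain ⟨ar1, ar2⟩ := hΛ₁ Λ hΛa
  have hπ := pi_pos
  have hξ0 : 0 < |ξ| := lt_of_lt_of_le (by positivity) hξ
  set ρ : ℝ := 1 / Λ ^ 3 with hρ
  have hρ0 : 0 ≤ ρ := by positivity
  refine (hM.norm_ph_le h0).trans ?_
  rw [exp_le_exp]
  set Top := (P Λ).filter fun p => ¬ (lg p ≤ Λ - W) with hTop
  have hct := hM.card_top hW hΛW
  rw [← hTop] at hct
  set Bad := Top.filter fun p => |(|ξ|) * lg p - 2 * π * ⌊|ξ| * lg p / (2 * π) + 1 / 2⌋| ≤ ρ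
    with hBad
  have hcb : (Bad.card : ℝ) ≤ (2 * ρ / |ξ| * rexp Λ + 1) * (|ξ| * W / (2 * π) + 2) := by
    apply card_near hξ0 hρ0 hW0
    intro n hn
    rw [hBad, Finset.mem_filter, hTop, Finset.mem_filter] at hn
    obtain ⟨⟨n1, n2⟩, n3⟩ := hn
    exact ⟨(hM.prime Λ n n1).pos, hM.le Λ n n1, (not_le.mp n2).le, n3⟩
  have hcb2 : (Bad.card : ℝ) ≤ rexp (-W) / Λ * rexp Λ := by
    refine hcb.trans ?_
    have b1 : 2 * ρ / |ξ| * rexp Λ * (|ξ| * W / (2 * π)) ≤ W / Λ ^ 3 * rexp Λ := by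
      have e : 2 * ρ / |ξ| * rexp Λ * (|ξ| * W / (2 * π)) = ρ * W * rexp Λ / π := by
        field_simp
      rw [e, div_le_iff₀ hπ]
      have : W / Λ ^ 3 * rexp Λ * π = ρ * W * rexp Λ * π := by rw [hρ]; ring
      rw [this]
      have h3 : 0 ≤ ρ * W * rexp Λ := by positivity
      nlinarith only [h3, hπ, pi_gt_three]
    have b2 : 2 * ρ / |ξ| * rexp Λ * 2 ≤ 2 / Λ ^ 2 * rexp Λ := by
      have h4 : 1 / |ξ| ≤ Λ / 3 := by
        rw [div_le_div_iff₀ hξ0 (by norm_num)]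
        rw [div_le_iff₀ hΛ0] at hξ
        linarith only [hξ, pi_gt_three]
      calc 2 * ρ / |ξ| * rexp Λ * 2 = 4 * ρ * rexp Λ * (1 / |ξ|) := by ring
        _ ≤ 4 * ρ * rexp Λ * (Λ / 3) := mul_le_mul_of_nonneg_left h4 (by positivity)
        _ = 4 / 3 / Λ ^ 2 * rexp Λ := by rw [hρ]; field_simp
        _ ≤ 2 / Λ ^ 2 * rexp Λ := by gcongr; norm_num
    have b3 : 1 * (|ξ| * W / (2 * π)) ≤ W * rexp (-(Λ / 8)) * rexp Λ := by
      have e : rexp (-(Λ / 8)) * rexp Λ = rexp (7 * Λ / 8) := by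
        rw [← exp_add]; congr 1; ring
      rw [mul_assoc, e, one_mul, div_le_iff₀ (by positivity)]
      have h5 : |ξ| * W ≤ rexp (7 * Λ / 8) * W := mul_le_mul_of_nonneg_right hξT hW0
      have h6 : 0 ≤ rexp (7 * Λ / 8) * W := by positivity
      nlinarith only [hξ0, h5, hC0, h6, pi_gt_three]
    have b4 : (1 : ℝ) * 2 = 2 * rexp (-Λ) * rexp Λ := by
      rw [mul_assoc, ← exp_add]; simp
    have b5 := mul_le_mul_of_nonneg_right ar1 (exp_pos Λ).le
    calc (2 * ρ / |ξ| * rexp Λ + 1) * (|ξ| * W / (2 * π) + 2) =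
          2 * ρ / |ξ| * rexp Λ * (|ξ| * W / (2 * π)) + 2 * ρ / |ξ| * rexp Λ * 2 +
          1 * (|ξ| * W / (2 * π)) + 1 * 2 := by ring
      _ ≤ W / Λ ^ 3 * rexp Λ + 2 / Λ ^ 2 * rexp Λ + W * rexp (-(Λ / 8)) * rexp Λ +
          2 * rexp (-Λ) * rexp Λ := by rw [← b4]; linarith only [b1, b2, b3]
      _ = (W / Λ ^ 3 + 2 / Λ ^ 2 + W * rexp (-(Λ / 8)) + 2 * rexp (-Λ)) * rexp Λ := by ring
      _ ≤ _ := b5
  have hcg : rexp (-W) / Λ * rexp Λ ≤ ((Top \ Bad).card : ℝ) := by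
    have h1 : Top.card ≤ (Top \ Bad).card + Bad.card := by
      have := Finset.card_le_card (s := Top) (t := (Top \ Bad) ∪ Bad) (by
        intro n hn
        rw [Finset.mem_union, Finset.mem_sdiff]
        by_cases h : n ∈ Bad
        · exact Or.inr h
        · exact Or.inl ⟨hn, h⟩)
      exact this.trans (Finset.card_union_le _ _)
    have h2 : (Top.card : ℝ) ≤ (Top \ Bad).card + Bad.card := by exact_mod_cast h1
    linarith only [hct, hcb2, h2]
  have hsum : ((Top \ Bad).card : ℝ) * (rexp (-(Λ / 2)) * (2 / π ^ 2 * ρ ^ 2)) ≤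
      ∑ p ∈ P Λ, xs σ p * (1 - cos (ξ * lg p)) := by
    rw [← nsmul_eq_mul, ← Finset.sum_const]
    calc ∑ _p ∈ Top \ Bad, rexp (-(Λ / 2)) * (2 / π ^ 2 * ρ ^ 2) ≤
          ∑ p ∈ Top \ Bad, xs σ p * (1 - cos (ξ * lg p)) := by
          apply Finset.sum_le_sum
          intro p hp
          rw [Finset.mem_sdiff] at hp
          obtain ⟨hp1, hp2⟩ := hp
          have hp3 := hp1
          rw [hTop, Finset.mem_filter] at hp3
          apply mul_le_mul _ _ (by positivity) (xs_pos σ p).le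
          · unfold xs
            rw [exp_le_exp, neg_le_neg_iff]
            have := hM.le Λ p hp3.1
            have := lg_nonneg p
            nlinarith
          · have h3 : ρ < |(|ξ|) * lg p - 2 * π * ⌊|ξ| * lg p / (2 * π) + 1 / 2⌋| := by
              by_contra hc
              exact hp2 (Finset.mem_filter.mpr ⟨hp1, not_lt.mp hc⟩)
            have h4 := one_sub_cos_ge hρ0 h3
            have h5 : cos (|ξ| * lg p) = cos (ξ * lg p) := by
              rcases abs_choice ξ with h | h <;> rw [h]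
              rw [neg_mul, cos_neg]
            rwa [h5] at h4
      _ ≤ _ := by
          apply Finset.sum_le_sum_of_subset_of_nonneg
          · exact Finset.sdiff_subset.trans (Finset.filter_subset _ _)
          · intro p _ _
            have := xs_pos σ p
            have := cos_le_one (ξ * lg p)
            apply mul_nonneg (by positivity)
            linarith only [this]
  have hfin : 16 * Λ ≤ ((Top \ Bad).card : ℝ) * (rexp (-(Λ / 2)) * (2 / π ^ 2 * ρ ^ 2)) := by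
    refine ar2.trans ?_
    have h6 : rexp Λ * rexp (-(Λ / 2)) = rexp (Λ / 2) := by rw [← exp_add]; congr 1; ring
    have h7 := mul_le_mul_of_nonneg_right hcg
      (by positivity : 0 ≤ rexp (-(Λ / 2)) * (2 / π ^ 2 * ρ ^ 2))
    refine le_trans (le_of_eq ?_) h7
    rw [← h6]
    ring
  linarith only [hsum, hfin]

end MDat

end Pool.Agent.MP0016c7.Ros
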