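import Mathlib
import Pool.Agent.Lib.MP_0016c7_nt.RosGood3

open Real Set MeasureTheory Filter Topology

namespace Pool.Agent.MP0016c7.Ros

variable {P : ℝ → Finset ℕ} {C₀ : ℝ} {C₁ Cs : ℝ → ℝ}

namespace MDat

variable (hM : MDat P C₀ C₁ Cs)
include hM

/-- slow variation of the density, two sided -/
theorem slow2 {τ₀ σ₂ : ℝ} (hτ₀ : 0 < τ₀) (hσ₂ : 0 < σ₂) {c ε U : ℝ} (hc : 0 < c) (hε : 0 < ε)
    (hε1 : ε ≤ 1) (hU : 0 ≤ U) : ∃ Λ₀ : ℝ, 1 ≤ Λ₀ ∧
    ∀ σ Λ τ X₀ : ℝ, σ₂ ≤ σ → σ ≤ 1 → Λ₀ ≤ Λ → τ₀ ≤ τ → τ ≤ 1 → Λ / 2 ≤ X₀ →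
    (∀ y, |y - X₀| ≤ 1 → c * RR P σ Λ / X₀ ≤ al P τ σ Λ y) →
    ∃ G, 0 < G ∧ c / 2 * RR P σ Λ / X₀ ≤ G ∧
      ∀ u, |u| ≤ U → |al P τ σ Λ (X₀ - u) - G| ≤ ε * G := by
  obtain ⟨D, hD, Λ₁, hΛ₁, hUB⟩ := hM.UBa hτ₀ hσ₂
  have hC0 := hM.C0
  have hmK := mK_nonneg
  have hcK := cK_pos
  set δ := ε / 16 with hδ
  have hδ0 : 0 < δ := by positivity
  have hδ1 : δ ≤ 1 := by rw [hδ]; linarith
  set tg := cK * (ε / 16) * (1 / (1 + 8 * D / c)) with htg
  have htg0 : 0 < tg := by positivity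
  set T := 1 + mK / tg / δ with hT
  have hT1 : 1 ≤ T := by
    rw [hT]; have : 0 ≤ mK / tg / δ := by positivity
    linarith
  have hT0 : 0 < T := by linarith
  have hTδ : mK / (1 + (T * δ) ^ 2) ≤ tg := by
    have q1 : mK / tg ≤ T * δ := by
      rw [hT, add_mul, div_mul_cancel₀ _ hδ0.ne']; linarith
    have q2 : T * δ ≤ 1 + (T * δ) ^ 2 := by nlinarith only [sq_nonneg (T * δ - 1), sq_nonneg (T * δ)]
    rw [div_le_iff₀ (by positivity)]
    rw [div_le_iff₀ htg0] at q1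
    have := mul_le_mul_of_nonneg_left q2 htg0.le
    linarith
  obtain ⟨C, hC, Λ₂, hΛ₂, hREG⟩ := hM.JR hT1 hτ₀ hσ₂
  -- smallness of the regularity error
  obtain ⟨B, hB⟩ := exists_rpow_small (a := ε / 16 * (c * (cK / T)) / (2 * C * (U + 2)))
    (by positivity)
  refine ⟨Λ₁ + Λ₂ + |B| + 16 * C₀ + 4 * (U + 1) + 2 * (32 * mK / (c * cK) * (16 / ε)), ?_, ?_⟩
  · have h1 := abs_nonneg B
    have h2 : 0 ≤ 32 * mK / (c * cK) * (16 / ε) := by positivity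
    linarith only [hU, hΛ₁, hC0, hΛ₂, h1, h2]
  intro σ Λ τ X₀ h2 hσ hΛ hτ hτ1 hX hlow
  have hB0 := abs_nonneg B
  have hp : 0 ≤ 32 * mK / (c * cK) * (16 / ε) := by positivity
  have hBB := le_abs_self B
  have hΛ0 : 0 < Λ := by linarith
  have hX0 : 0 < X₀ := by linarith
  have hΛ16 : 16 * C₀ ≤ Λ := by linarith
  have hsig0 : 0 ≤ σ := by linarith
  have hτ0 : 0 ≤ τ := by linarith
  obtain ⟨hR1, hR9⟩ := hM.RR_ge (σ := σ) hsig0 hσ hΛ16 hΛ0
  set R := RR P σ Λ with hR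
  set κ := cK / T with hκ
  have hκ0 : 0 < κ := by positivity
  set J := JJ P τ T σ Λ X₀ with hJ
  set G := J / κ with hG
  have hJG : J = G * κ := by rw [hG]; field_simp
  set η := mK / (1 + (T * δ) ^ 2) / cK with hη
  have hη1 : η ≤ ε / 16 := by
    rw [hη, div_le_iff₀ hcK]
    refine hTδ.trans ?_
    rw [htg]
    have q1 : 1 / (1 + 8 * D / c) ≤ 1 := by
      rw [div_le_one (by positivity)]
      have : 0 < 8 * D / c := by positivity
      linarith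
    have := mul_le_mul_of_nonneg_left q1 (by positivity : 0 ≤ cK * (ε / 16))
    linarith only [this]
  have hmass : (1 - η) * κ ≤ ∫ t in Icc (-δ) δ, Kk (T * t) := by
    refine le_trans (le_of_eq ?_) (mass_ge hT0 hδ0.le)
    rw [hη, hκ]
    field_simp
  have hη15 : 0 ≤ 1 - η := by linarith only [hε1, hη1]
  have hexp : 7 / 8 ≤ rexp (-(2 * δ)) := by
    have := add_one_le_exp (-(2 * δ))
    rw [hδ] at this ⊢
    linarith only [hε1, this]
  -- lower bound for G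
  have hGlow : c / 2 * R / X₀ ≤ G := by
    have q1 := al_le_JJ P hτ0 hτ1 hT0 hδ0.le σ Λ (X₀ - δ)
    rw [sub_add_cancel] at q1
    have q2 := hlow (X₀ - δ) (by rw [abs_le]; constructor <;> linarith only [hε1, hδ, hδ0])
    have hcR : 0 ≤ c * R / X₀ := by positivity
    have q3 : 7 / 8 * (c * R / X₀) * ((1 - η) * κ) ≤ J := by
      refine le_trans ?_ q1
      apply mul_le_mul _ hmass (by (clear * - hη15 hcK hmK hε hD hc; positivity))
        (mul_nonneg (exp_pos _).le (al_nonneg _ _ _ _ _))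
      exact mul_le_mul hexp q2 hcR (exp_pos _).le
    rw [hG, le_div_iff₀ hκ0]
    refine le_trans ?_ q3
    have q4 : (15 : ℝ) / 16 ≤ 1 - η := by linarith only [hε1, hη1]
    have q5 : c / 2 * R / X₀ * κ = (c * R / X₀ * κ) * (1 / 2) := by ring
    have q6 : 7 / 8 * (c * R / X₀) * ((1 - η) * κ) = (c * R / X₀ * κ) * (7 / 8 * (1 - η)) := by
      ring
    rw [q5, q6]
    apply mul_le_mul_of_nonneg_left _ (by positivity)
    linarith only [hε1, hη1]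
  have hG0 : 0 < G := lt_of_lt_of_le (by positivity) hGlow
  refine ⟨G, hG0, hGlow, ?_⟩
  -- regularity
  have hreg : ∀ v, |v| ≤ U + 1 → |J - JJ P τ T σ Λ (X₀ - v)| ≤ ε / 16 * (G * κ) := by
    intro v hv
    have q1 := hREG σ Λ τ X₀ v h2 hσ (by linarith only [hU, hΛ₁, hC0, hΛ, hB0, hp]) hτ
    rw [abs_of_pos hX0] at q1
    have q2 := hB Λ (by linarith only [hU, hΛ₁, hC0, hΛ₂, hΛ, hp, hBB])
    have e : 1 + XX P σ Λ / √(VV P σ Λ) = R := rfl
    rw [e] at q1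
    have q3 : C * Λ ^ (-(1 / 64) : ℝ) * (1 + |v|) * R ≤ ε / 16 * (c * κ) / 2 * R := by
      apply mul_le_mul_of_nonneg_right _ (by linarith only [hε1, hδ, hδ0, hR9, e])
      have hΛp : 0 ≤ Λ ^ (-(1 / 64) : ℝ) := by positivity
      calc C * Λ ^ (-(1 / 64) : ℝ) * (1 + |v|)
          ≤ C * (ε / 16 * (c * κ) / (2 * C * (U + 2))) * (U + 2) := by
            apply mul_le_mul _ (by linarith only [hv]) (by positivity) (by (clear * - hC hε hc hcK hmK hD hU; positivity))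
            exact mul_le_mul_of_nonneg_left q2 hC.le
        _ = ε / 16 * (c * κ) / 2 := by field_simp
    have q4 : X₀ * |J - JJ P τ T σ Λ (X₀ - v)| ≤ X₀ * (ε / 16 * (G * κ)) := by
      refine q1.trans (q3.trans ?_)
      have q5 : c / 2 * R ≤ G * X₀ := by rwa [div_le_iff₀ hX0] at hGlow
      calc ε / 16 * (c * κ) / 2 * R = ε / 16 * κ * (c / 2 * R) := by ring
        _ ≤ ε / 16 * κ * (G * X₀) := mul_le_mul_of_nonneg_left q5 (by positivity)
        _ = _ := by ring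
    exact le_of_mul_le_mul_left q4 hX0
  intro u hu
  obtain ⟨hu0, hu1⟩ := abs_le.mp hu
  have ha := al_nonneg P τ σ Λ (X₀ - u)
  have hup : al P τ σ Λ (X₀ - u) ≤ (1 + ε) * G := by
    have q1 := al_le_JJ P hτ0 hτ1 hT0 hδ0.le σ Λ (X₀ - u)
    have e : X₀ - u + δ = X₀ - (u - δ) := by ring
    rw [e] at q1
    have q2 : rexp (-(2 * δ)) * al P τ σ Λ (X₀ - u) * ((1 - η) * κ) ≤
        JJ P τ T σ Λ (X₀ - (u - δ)) := by
      refine le_trans ?_ q1
      exact mul_le_mul_of_nonneg_left hmass (mul_nonneg (exp_pos _).le ha)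
    have q3 := (abs_le.mp (hreg (u - δ) (by rw [abs_le]; constructor <;> linarith only [hε1, hδ, hu0, hδ0, hu1]))).1
    exact up_arith hε hε1 hG0 hκ0 hδ hη1 le_rfl q2 (by linarith only [q3]) hJG
  have hlo : (1 - ε) * G ≤ al P τ σ Λ (X₀ - u) := by
    have q1 := JJ_le_al P hτ0 hτ1 hT0 hδ0.le σ Λ (X₀ - u)
    have e : X₀ - u - δ = X₀ - (u + δ) := by ring
    rw [e] at q1
    have q3 := (abs_le.mp (hreg (u + δ) (by rw [abs_le]; constructor <;> linarith only [hδ0, hu0, hε1, hδ, hu1]))).2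
    have hz : X₀ / 2 ≤ X₀ - (u + δ) := by linarith only [hε1, hΛ₁, hC0, hδ, hδ0, hΛ₂, hΛ, hX, hB0, hp, hu1]
    have q4 := tail_al P hτ0 hT0 hδ0.le (by linarith only [hε1, hU, hΛ₁, hC0, hδ, hδ0, hΛ₂, hΛ, hX, hB0, hp, hu1] : 0 < X₀ - (u + δ)) (D := D * R)
      (σ := σ) (Λ := Λ) (fun y hy => hUB σ Λ τ y h2 hσ (by linarith only [hU, hC0, hΛ₂, hΛ, hB0, hp]) hτ hτ1 hy)
      (by positivity)
    have q5 := tail_arith (e := mK / (1 + (T * δ) ^ 2)) hX0 hz hT1 hmK (by (clear * - hmK hcK hε hD hc; positivity)) hD hc hR1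
      hGlow hcK hκ
    refine lo_arith (e₂ := 8 * D / c * (mK / (1 + (T * δ) ^ 2)) / cK)
      (e₃ := 32 * mK / (c * X₀ * cK)) hε hε1 hG0 hκ0 ha hδ (le_refl (ε / 16)) ?_ ?_ q1
      (q4.trans q5) (by linarith only [q3]) hJG
    · rw [div_le_iff₀ hcK]
      have r1 := mul_le_mul_of_nonneg_left hTδ (by positivity : 0 ≤ 8 * D / c)
      refine r1.trans ?_
      rw [htg]
      have r2 : 8 * D / c * (1 / (1 + 8 * D / c)) ≤ 1 := by
        rw [mul_one_div, div_le_one (by positivity)]; linarith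
      calc 8 * D / c * (cK * (ε / 16) * (1 / (1 + 8 * D / c)))
          = cK * (ε / 16) * (8 * D / c * (1 / (1 + 8 * D / c))) := by ring
        _ ≤ cK * (ε / 16) * 1 := mul_le_mul_of_nonneg_left r2 (by positivity)
        _ = _ := by ring
    · rw [div_le_iff₀ (by positivity)]
      have r1 : 32 * mK / (c * cK) * (16 / ε) ≤ X₀ := by linarith only [hU, hΛ₁, hC0, hΛ₂, hΛ, hX, hB0]
      have r2 := mul_le_mul_of_nonneg_left r1 (by positivity : 0 ≤ c * cK * (ε / 16))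
      have r3 : c * cK * (ε / 16) * (32 * mK / (c * cK) * (16 / ε)) = 32 * mK := by
        field_simp
      rw [r3] at r2
      calc 32 * mK ≤ _ := r2
        _ = _ := by ring
  rw [abs_le]
  constructor <;> linarith only [hlo, hup]


end MDat

/-- the density of the tilted sum is flat around `X` with height `G` -/
structure Flat (P : ℝ → Finset ℕ) (ε U D c σ Λ X G : ℝ) : Prop where
  pos : 0 < G
  flat : ∀ u, |u| ≤ U → |al P 1 σ Λ (X - u) - G| ≤ ε * G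
  upper : ∀ y, X / 2 ≤ y → al P 1 σ Λ y ≤ D * G
  low : c / X ≤ G

namespace MDat

variable (hM : MDat P C₀ C₁ Cs)
include hM

omit hM in
lemma flat_of {ε U D c σ Λ X G D₁ R : ℝ} (hX : 0 < X) (hG : 0 < G) (hc : 0 < c) (hR : 1 ≤ R)
    (hD₁ : 0 ≤ D₁) (hUB : ∀ y, 0 < y → al P 1 σ Λ y ≤ D₁ * R / y) (hlow : c / 2 * R / X ≤ G)
    (hD : 4 * D₁ / c ≤ D)
    (hfl : ∀ u, |u| ≤ U → |al P 1 σ Λ (X - u) - G| ≤ ε * G) :
    Flat P ε U D (c / 2) σ Λ X G := by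
  refine ⟨hG, hfl, fun y hy => ?_, ?_⟩
  · have h1 := hUB y (by linarith)
    have h2 : D₁ * R / y ≤ D₁ * R / (X / 2) :=
      div_le_div_of_nonneg_left (by positivity) (by linarith) hy
    have h3 : D₁ * R / (X / 2) = 4 * D₁ / c * (c / 2 * R / X) := by
      field_simp
      ring
    have h4 : 4 * D₁ / c * (c / 2 * R / X) ≤ D * G := by
      apply mul_le_mul hD hlow (by positivity)
      refine le_trans (by positivity) hD
    linarith only [h1, h2, h3, h4]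
  · refine le_trans ?_ hlow
    apply div_le_div_of_nonneg_right _ hX.le
    have : c / 2 * 1 ≤ c / 2 * R := mul_le_mul_of_nonneg_left hR (by positivity)
    linarith

/-- flatness for tilts in the upper half -/
theorem flatH {σ₂ : ℝ} (h0 : 0 < σ₂) (hσ₂ : σ₂ ≤ 1) : ∃ D : ℝ, 0 < D ∧ ∃ c : ℝ, 0 < c ∧
    ∀ ε U : ℝ, 0 < ε → ε ≤ 1 → 0 ≤ U → ∃ Λ₀ : ℝ, 1 ≤ Λ₀ ∧
    ∀ Λ X : ℝ, Λ₀ ≤ Λ → 15 * Λ / 16 ≤ X → X ≤ XX P σ₂ Λ →
    ∃ σ, σ₂ ≤ σ ∧ σ ≤ 1 ∧ ∃ G, Flat P ε U D c σ Λ X G := by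
  have hC0 := hM.C0
  obtain ⟨D₁, hD₁, Λ₅, hΛ₅, hUB⟩ := hM.UBa (τ₀ := 1) one_pos h0
  obtain ⟨c, hc, b₀, hb₀, Λ₁, hΛ₁, hL⟩ := hM.LBa (τ₀ := 1) one_pos h0
  obtain ⟨c', hc', Λ₂, hΛ₂, hL'⟩ := hM.low (V₀ := rexp b₀) (one_le_exp hb₀)
  set cm := min c (c' / 16) with hcm
  have hcm0 : 0 < cm := lt_min hc (by positivity)
  refine ⟨4 * D₁ / cm, by positivity, cm / 2, by positivity, fun ε U hε hε1 hU => ?_⟩
  obtain ⟨Λ₃, hΛ₃, hS⟩ := hM.slow2 (τ₀ := 1) one_pos h0 hcm0 hε hε1 hU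
  refine ⟨Λ₁ + Λ₂ + Λ₃ + Λ₅ + 16 * C₀ + 16 * (4 * C₀ + 2), by linarith,
    fun Λ X₀ hΛ hX hX2 => ?_⟩
  have hΛ0 : 0 < Λ := by linarith
  have hX0 : 0 < X₀ := by linarith
  have hΛ16 : 16 * C₀ ≤ Λ := by linarith
  have hX1 := hM.XX_le (σ := 1) (Λ := Λ) le_rfl (by linarith)
  rw [sub_self, zero_mul, exp_zero, one_mul] at hX1
  have hmain : ∀ σ, σ₂ ≤ σ → σ ≤ 1 → (∀ y, |y - X₀| ≤ 1 → cm * RR P σ Λ / X₀ ≤ al P 1 σ Λ y) →
      ∃ G, Flat P ε U (4 * D₁ / cm) (cm / 2) σ Λ X₀ G := by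
    intro σ hσ hσ1 h
    obtain ⟨G, hG, hGl, hGf⟩ := hS σ Λ 1 X₀ hσ hσ1 (by linarith) le_rfl le_rfl (by linarith) h
    have hR := (hM.RR_ge (σ := σ) (Λ := Λ) (by linarith) hσ1 hΛ16 hΛ0).1
    exact ⟨G, flat_of hX0 hG hcm0 hR hD₁.le
      (fun y hy => hUB σ Λ 1 y hσ hσ1 (by linarith) le_rfl le_rfl hy) hGl le_rfl hGf⟩
  rcases le_total X₀ (rexp b₀ * Λ) with hcase | hcase
  · -- first regime
    refine ⟨1, hσ₂, le_rfl, ?_⟩
    apply hmain 1 hσ₂ le_rfl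
    intro y hy
    obtain ⟨hy1, hy2⟩ := abs_le.mp hy
    have q1 := hL' Λ 1 y (by linarith) (by linarith) (by linarith) (by linarith) (by
      rw [add_mul]; linarith)
    refine le_trans ?_ q1
    -- R ≤ 9
    have hR : RR P 1 Λ ≤ 9 := by
      have q2 := hM.VV_ge (σ := 1) zero_le_one le_rfl hΛ16
      rw [sub_self, zero_mul, zero_div, exp_zero, mul_one] at q2
      have q3 : Λ / 8 ≤ √(VV P 1 Λ) := by
        apply le_sqrt_of_sq_le
        refine le_trans (le_of_eq ?_) q2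
        ring
      unfold RR
      have q4 : XX P 1 Λ / √(VV P 1 Λ) ≤ 8 := by
        rw [div_le_iff₀ (by linarith)]
        linarith
      linarith
    have hcm' : cm ≤ c' / 16 := min_le_right _ _
    calc cm * RR P 1 Λ / X₀ ≤ c' / 16 * 9 / (15 * Λ / 16) := by
          apply div_le_div₀ (by positivity) _ (by positivity) hX
          exact mul_le_mul hcm' hR (by
            have := (hM.RR_ge (σ := 1) (Λ := Λ) zero_le_one le_rfl hΛ16 hΛ0).1
            linarith) (by positivity)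
      _ = 9 / 15 * (c' / Λ) := by field_simp
      _ ≤ c' / Λ := by
          have : 0 ≤ c' / Λ := by positivity
          linarith only [this]
  · -- second regime
    obtain ⟨σ, hσ, hσX⟩ := intermediate_value_Icc' (f := fun σ => XX P σ Λ) hσ₂
      (hM.continuous_XX Λ).continuousOn ⟨hX1.trans (le_trans (by
        have := one_le_exp hb₀
        nlinarith only [this, hC0, hΛ₅, hΛ₁, hΛ₂, hΛ₃, hΛ]) hcase), hX2⟩
    simp only at hσX
    have hb : b₀ ≤ (1 - σ) * Λ := by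
      have q1 := hM.XX_le (σ := σ) (Λ := Λ) hσ.2 (by linarith)
      rw [hσX] at q1
      have q2 := le_of_mul_le_mul_right (hcase.trans q1) hΛ0
      exact exp_le_exp.mp q2
    refine ⟨σ, hσ.1, hσ.2, ?_⟩
    apply hmain σ hσ.1 hσ.2
    intro y hy
    have q1 := hL σ Λ 1 y hσ.1 hσ.2 (by linarith) hb le_rfl le_rfl (by rw [hσX]; exact hy)
    rw [hσX] at q1
    refine le_trans ?_ q1
    apply div_le_div_of_nonneg_right _ hX0.le
    apply mul_le_mul_of_nonneg_right (min_le_left _ _)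
    have := (hM.RR_ge (σ := σ) (Λ := Λ) (by linarith [hσ.1]) hσ.2 hΛ16 hΛ0).1
    linarith

end MDat

end Pool.Agent.MP0016c7.Ros
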