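import Mathlib
import Pool.Agent.Lib.MP_0016c7_nt.RosJ3

open Real Set MeasureTheory Filter Topology

namespace Pool.Agent.MP0016c7.Ros

variable {P : ℝ → Finset ℕ} {C₀ : ℝ} {C₁ Cs : ℝ → ℝ}

lemma integral_three {f1 f2 f3 : ℝ → ℝ} (h1 : Integrable f1) (h2 : Integrable f2)
    (h3 : Integrable f3) :
    ∫ ξ, (f1 ξ + f2 ξ + f3 ξ) = (∫ ξ, f1 ξ) + (∫ ξ, f2 ξ) + (∫ ξ, f3 ξ) := by
  have h12 : Integrable fun ξ => f1 ξ + f2 ξ := h1.add h2
  rw [integral_add h12 h3, integral_add h1 h2]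

namespace MDat

variable (hM : MDat P C₀ C₁ Cs)
include hM

lemma VV_half {σ Λ : ℝ} (h0 : 0 ≤ σ) (hσ : σ ≤ 1 / 2) (hΛ : 16 * C₀ ≤ Λ) (hΛ1 : 1 ≤ Λ) :
    Λ ^ 2 * rexp (Λ / 4) / 64 ≤ VV P σ Λ := by
  refine le_trans ?_ (hM.VV_ge h0 (by linarith only [hσ]) hΛ)
  have h1 : rexp (Λ / 4) ≤ rexp ((1 - σ) * Λ / 2) := by
    rw [exp_le_exp]
    nlinarith only [hσ, hΛ1]
  have h2 : Λ ^ 2 * rexp (Λ / 4) ≤ Λ ^ 2 * rexp ((1 - σ) * Λ / 2) :=
    mul_le_mul_of_nonneg_left h1 (sq_nonneg Λ)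
  linarith only [h2]

/-- the square root of the variance beats any constant multiple of `Λ` -/
lemma sqrt_VV_half (B : ℝ) : ∃ Λ₀ : ℝ, 1 ≤ Λ₀ ∧ ∀ σ Λ : ℝ, 0 ≤ σ → σ ≤ 1 / 2 → Λ₀ ≤ Λ →
    B * Λ ≤ √(VV P σ Λ) := by
  have hC0 := hM.C0
  refine ⟨1 + 16 * C₀ + 64 * |B|, ?_, fun σ Λ h0 hσ hΛ => ?_⟩
  · have := abs_nonneg B
    linarith
  have hB := abs_nonneg B
  have hB' := le_abs_self B
  have hΛ1 : 1 ≤ Λ := by linarith
  have h1 := hM.VV_half h0 hσ (by linarith) hΛ1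
  have h2 : (Λ / 8) ^ 2 ≤ rexp (Λ / 4) := by
    have h3 : Λ / 8 ≤ rexp (Λ / 8) := by
      have := add_one_le_exp (Λ / 8); linarith
    calc (Λ / 8) ^ 2 ≤ rexp (Λ / 8) ^ 2 := pow_le_pow_left₀ (by linarith) h3 2
      _ = rexp (Λ / 4) := by rw [← exp_nat_mul]; congr 1; push_cast; ring
  have h4 : (|B| * Λ) ^ 2 ≤ VV P σ Λ := by
    refine le_trans ?_ h1
    have h5 : 64 * |B| ^ 2 ≤ rexp (Λ / 4) := by
      refine le_trans ?_ h2
      have h6 : 8 * |B| ≤ Λ / 8 := by linarith only [hC0, hΛ]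
      calc 64 * |B| ^ 2 = (8 * |B|) ^ 2 := by ring
        _ ≤ (Λ / 8) ^ 2 := pow_le_pow_left₀ (by positivity) h6 2
    have h7 := mul_le_mul_of_nonneg_left h5 (sq_nonneg Λ)
    calc (|B| * Λ) ^ 2 = Λ ^ 2 * (64 * |B| ^ 2) / 64 := by ring
      _ ≤ _ := div_le_div_of_nonneg_right h7 (by norm_num)
  refine le_trans ?_ (le_sqrt_of_sq_le h4)
  exact mul_le_mul_of_nonneg_right hB' (by linarith)

/-- the characteristic function away from the origin -/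
theorem far0 {T : ℝ} (hT : 0 < T) : ∃ Λ₀ : ℝ, 1 ≤ Λ₀ ∧ ∀ σ Λ ξ : ℝ, 0 ≤ σ → σ ≤ 1 / 2 → Λ₀ ≤ Λ →
    π / Λ ≤ |ξ| → |ξ| ≤ T → ‖ph P σ Λ ξ‖ ≤ 1 / VV P σ Λ := by
  have hC0 := hM.C0
  have hK := hM.KT_ge hT.le
  have hA := hM.cA_pos hT.le
  obtain ⟨CE, hCE0, hCE⟩ := exp_decay (by linarith : 0 < KT C₀ C₁ T)
  have hp1 : 0 ≤ 16 * C₀ * KT C₀ C₁ T := by positivity
  have hp2 : 0 ≤ 48 * (cA C₀ C₁ T * CE) := by positivity
  refine ⟨1 + 16 * C₀ + 16 * C₀ * KT C₀ C₁ T + 48 * (cA C₀ C₁ T * CE), by linarith,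
    fun σ Λ ξ h0 hσ hΛ hξ hξT => ?_⟩
  have hΛ1 : 1 ≤ Λ := by linarith
  have hΛ0 : 0 < Λ := by linarith
  have hV := hM.VV_pos h0 (by linarith : σ ≤ 1) (by linarith) hΛ0
  have h1 := hM.ph_far h0 (by linarith : σ ≤ 1) hΛ0 (by linarith) hξ hξT
  have hb0 : 0 ≤ (1 - σ) * Λ := mul_nonneg (by linarith only [hσ]) hΛ0.le
  have h2 := hCE ((1 - σ) * Λ) hb0
  have h3 : (Λ * |ξ|) ^ (-(1 / 32) : ℝ) ≤ 1 := by
    apply rpow_le_one_of_one_le_of_nonpos _ (by norm_num)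
    rw [div_le_iff₀ hΛ0] at hξ
    linarith only [hξ, pi_gt_three]
  set e := rexp (-(1 / 32) * rexp ((1 - σ) * Λ / (2 * KT C₀ C₁ T))) with he
  have he0 : 0 < e := exp_pos _
  set b := (1 - σ) * Λ with hb
  have h4 : VV P σ Λ ≤ Λ ^ 2 * rexp b := by
    have q1 := hM.VV_le (σ := σ) hΛ0.le
    have q2 := hM.XX_le (σ := σ) (Λ := Λ) (by linarith only [hσ]) (by linarith only [hC0, hp1, hp2, hΛ])
    have q3 := mul_le_mul_of_nonneg_left q2 hΛ0.le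
    calc VV P σ Λ ≤ _ := q1.trans q3
      _ = _ := by rw [hb]; ring
  have h5 : Λ ^ 2 * rexp (-b) ≤ 48 / Λ := by
    have q1 : rexp (-b) ≤ rexp (-(Λ / 2)) := by
      rw [exp_le_exp, neg_le_neg_iff, hb]; nlinarith only [hσ, hC0, hp1, hp2, hΛ]
    have q2 := Real.pow_div_factorial_le_exp (Λ / 2) (by linarith only [hC0, hp1, hp2, hΛ]) 3
    have q3 : rexp (-(Λ / 2)) * rexp (Λ / 2) = 1 := by rw [← exp_add]; simp
    have q4 : (Λ / 2) ^ 3 / (3 : ℕ).factorial = Λ ^ 3 / 48 := by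
      rw [show (3 : ℕ).factorial = 6 from rfl]; push_cast; ring
    rw [q4] at q2
    rw [le_div_iff₀ hΛ0]
    have q5 : Λ ^ 3 / 48 * rexp (-(Λ / 2)) ≤ 1 := by
      calc _ ≤ rexp (Λ / 2) * rexp (-(Λ / 2)) :=
            mul_le_mul_of_nonneg_right q2 (exp_pos _).le
        _ = 1 := by rw [mul_comm]; exact q3
    calc Λ ^ 2 * rexp (-b) * Λ ≤ Λ ^ 2 * rexp (-(Λ / 2)) * Λ := by (clear * - q1 hΛ1; gcongr)
      _ = 48 * (Λ ^ 3 / 48 * rexp (-(Λ / 2))) := by ring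
      _ ≤ 48 * 1 := mul_le_mul_of_nonneg_left q5 (by norm_num)
      _ = 48 := mul_one _
  have h6 : e * VV P σ Λ ≤ CE * (48 / Λ) := by
    calc e * VV P σ Λ ≤ e * (Λ ^ 2 * rexp b) := mul_le_mul_of_nonneg_left h4 he0.le
      _ = Λ ^ 2 * (rexp b * e) := by ring
      _ ≤ Λ ^ 2 * (CE * rexp (-b)) := mul_le_mul_of_nonneg_left h2 (sq_nonneg Λ)
      _ = CE * (Λ ^ 2 * rexp (-b)) := by ring
      _ ≤ _ := mul_le_mul_of_nonneg_left h5 hCE0.le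
  rw [le_div_iff₀ hV]
  calc ‖ph P σ Λ ξ‖ * VV P σ Λ ≤ (cA C₀ C₁ T * 1 * e) * VV P σ Λ := by
        apply mul_le_mul_of_nonneg_right _ hV.le
        refine h1.trans ?_
        unfold cA at *
        apply mul_le_mul_of_nonneg_right _ he0.le
        exact mul_le_mul_of_nonneg_left h3 hA.le
    _ = cA C₀ C₁ T * (e * VV P σ Λ) := by ring
    _ ≤ cA C₀ C₁ T * (CE * (48 / Λ)) := mul_le_mul_of_nonneg_left h6 hA.le
    _ = 48 * (cA C₀ C₁ T * CE) / Λ := by ring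
    _ ≤ 1 := by rw [div_le_one hΛ0]; linarith only [hC0, hp1, hΛ]

lemma ph0_le {σ Λ ξ T Λ₁ : ℝ} (h0 : 0 ≤ σ) (hσ : σ ≤ 1 / 2) (hΛ0 : 0 < Λ) (hΛ : Λ₁ ≤ Λ)
    (hfar : ∀ σ Λ ξ : ℝ, 0 ≤ σ → σ ≤ 1 / 2 → Λ₁ ≤ Λ →
      π / Λ ≤ |ξ| → |ξ| ≤ T → ‖ph P σ Λ ξ‖ ≤ 1 / VV P σ Λ) (hξ : |ξ| ≤ T)
    (hV : 0 < VV P σ Λ) :
    ‖ph P σ Λ ξ‖ ≤ rexp (-(2 / π ^ 2 * VV P σ Λ * ξ ^ 2)) + 1 / VV P σ Λ := by
  rcases le_total |ξ| (π / Λ) with h | h
  · have := hM.ph_lobe (σ := σ) hΛ0 h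
    have : 0 ≤ 1 / VV P σ Λ := by positivity
    linarith
  · have := hfar σ Λ ξ h0 hσ hΛ h hξ
    have := exp_pos (-(2 / π ^ 2 * VV P σ Λ * ξ ^ 2))
    linarith

/-- upper bound -/
theorem JU0 {T : ℝ} (hT : 1 ≤ T) : ∃ C : ℝ, 0 < C ∧ ∃ Λ₀ : ℝ, 1 ≤ Λ₀ ∧
    ∀ σ Λ z : ℝ, 0 ≤ σ → σ ≤ 1 / 2 → Λ₀ ≤ Λ → JJ P 1 T σ Λ z ≤ C / √(VV P σ Λ) := by
  have hT0 : 0 < T := by linarith
  obtain ⟨Λ₁, hΛ₁, hfar⟩ := hM.far0 (T := 2 * T) (by linarith)
  obtain ⟨Λ₂, hΛ₂, hs⟩ := hM.sqrt_VV_half 1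
  refine ⟨2 * (4 + 4 * T), by positivity, Λ₁ + Λ₂, by linarith, fun σ Λ z h0 hσ hΛ => ?_⟩
  have hΛ0 : 0 < Λ := by linarith
  have hsV := hs σ Λ h0 hσ (by linarith)
  have hs1 : 1 ≤ √(VV P σ Λ) := by linarith
  have hV : 0 < VV P σ Λ := sqrt_pos.mp (by linarith)
  set V := VV P σ Λ with hVd
  have hmaj : Maj (fun ξ => ‖ph P σ Λ ξ‖) (2 * T) (4 / √V + 2 * (2 * T) * (1 / V)) := by
    obtain ⟨i1, j1⟩ := int_gauss hV
    obtain ⟨i2, j2⟩ := ind_integral (2 * T) (1 / V) (by linarith)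
    refine ⟨fun ξ => rexp (-(2 / π ^ 2 * V * ξ ^ 2)) + if |ξ| ≤ 2 * T then 1 / V else 0,
      i1.add i2, fun ξ => ?_, fun ξ hξ => ?_, ?_⟩
    · have : 0 ≤ 1 / V := by positivity
      simp only
      split_ifs <;> positivity
    · simp only
      rw [if_pos hξ]
      exact hM.ph0_le h0 hσ hΛ0 (by linarith only [hΛ₂, hΛ]) hfar hξ hV
    · rw [integral_add i1 i2, j2]
      linarith only [j1]
  have e := Ef_kk (P := P Λ) (x := xs σ) (l := lg) one_pos hT0 z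
  have hb := hmaj.bound (W := 2) (by norm_num)
    (G := fun ξ => wk 1 T ξ * (phi (P Λ) (xs σ) lg ξ * ex (ξ * z)))
    (fun ξ _ => by
      rw [norm_mul, norm_mul, norm_ex, mul_one]
      apply mul_le_mul_of_nonneg_right _ (norm_nonneg _)
      have := norm_wk_le one_pos hT ξ
      rwa [div_one] at this)
    (fun ξ hξ => by rw [wk_eq_zero hT0 hξ, zero_mul])
  rw [← e, Complex.norm_real, Real.norm_eq_abs] at hb
  have h1 : 1 / V ≤ 1 / √V := by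
    apply div_le_div_of_nonneg_left zero_le_one (by linarith)
    calc √V = √V * 1 := (mul_one _).symm
      _ ≤ √V * √V := mul_le_mul_of_nonneg_left hs1 (by linarith)
      _ = V := mul_self_sqrt hV.le
  calc JJ P 1 T σ Λ z ≤ |JJ P 1 T σ Λ z| := le_abs_self _
    _ ≤ _ := hb
    _ ≤ 2 * (4 / √V + 2 * (2 * T) * (1 / √V)) := by (clear * - h1 hT; gcongr)
    _ = _ := by ring

/-- regularity -/
theorem JR0 {T : ℝ} (hT : 1 ≤ T) : ∃ C : ℝ, 0 < C ∧ ∃ Λ₀ : ℝ, 1 ≤ Λ₀ ∧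
    ∀ σ Λ z u : ℝ, 0 ≤ σ → σ ≤ 1 / 2 → Λ₀ ≤ Λ →
    |JJ P 1 T σ Λ z - JJ P 1 T σ Λ (z - u)| ≤ C * |u| / VV P σ Λ := by
  have hT0 : 0 < T := by linarith
  obtain ⟨Λ₁, hΛ₁, hfar⟩ := hM.far0 (T := 2 * T) (by linarith)
  obtain ⟨Λ₂, hΛ₂, hs⟩ := hM.sqrt_VV_half 1
  refine ⟨2 * (16 + 2 * (2 * T) * (2 * T)), by positivity, Λ₁ + Λ₂, by linarith,
    fun σ Λ z u h0 hσ hΛ => ?_⟩
  have hΛ0 : 0 < Λ := by linarith
  have hsV := hs σ Λ h0 hσ (by linarith)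
  have hs1 : 1 ≤ √(VV P σ Λ) := by linarith
  have hV : 0 < VV P σ Λ := sqrt_pos.mp (by linarith)
  set V := VV P σ Λ with hVd
  have hmaj : Maj (fun ξ => ‖ph P σ Λ ξ‖ * |ξ|) (2 * T)
      (16 / V + 2 * (2 * T) * (2 * T * (1 / V))) := by
    obtain ⟨i1, j1⟩ := int_abs_gauss hV
    obtain ⟨i2, j2⟩ := ind_integral (2 * T) (2 * T * (1 / V)) (by linarith)
    refine ⟨fun ξ => |ξ| * rexp (-(2 / π ^ 2 * V * ξ ^ 2)) +
      if |ξ| ≤ 2 * T then 2 * T * (1 / V) else 0,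
      i1.add i2, fun ξ => ?_, fun ξ hξ => ?_, ?_⟩
    · have : 0 ≤ 1 / V := by positivity
      have := abs_nonneg ξ
      simp only
      split_ifs <;> (clear * - hT hV; positivity)
    · simp only
      rw [if_pos hξ]
      have h2 := hM.ph0_le h0 hσ hΛ0 (by linarith) hfar hξ hV
      have h3 := mul_le_mul_of_nonneg_right h2 (abs_nonneg ξ)
      have h4 : 1 / V * |ξ| ≤ 2 * T * (1 / V) := by
        rw [mul_comm]
        exact mul_le_mul_of_nonneg_right hξ (by positivity)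
      rw [add_mul] at h3
      linarith only [h3, h4]
    · rw [integral_add i1 i2, j2]
      linarith only [j1]
  have e1 := Ef_kk (P := P Λ) (x := xs σ) (l := lg) one_pos hT0 z
  have e2 := Ef_kk (P := P Λ) (x := xs σ) (l := lg) one_pos hT0 (z - u)
  have hpn : ∀ ξ : ℝ, ‖phi (P Λ) (xs σ) lg ξ‖ ≤ 1 := norm_phi_le_one (fun p => xs_pos σ p)
  have hcphi : Continuous (phi (P Λ) (xs σ) lg) := by
    unfold phi
    fun_prop
  have hi : ∀ y : ℝ, Integrable fun ξ => wk 1 T ξ * (phi (P Λ) (xs σ) lg ξ * ex (ξ * y)) := by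
    intro y
    apply integrable_wk_mul one_pos hT0 (c := 1)
    · fun_prop
    · intro ξ
      rw [norm_mul, norm_ex, mul_one]
      exact hpn ξ
  have hd : ((JJ P 1 T σ Λ z - JJ P 1 T σ Λ (z - u) : ℝ) : ℂ) = ∫ ξ, wk 1 T ξ *
      (phi (P Λ) (xs σ) lg ξ * ex (ξ * z)) * (1 - ex (-(ξ * u))) := by
    unfold JJ
    rw [Complex.ofReal_sub, e1, e2, ← integral_sub (hi z) (hi (z - u))]
    congr 1
    ext ξ
    have : ex (ξ * (z - u)) = ex (ξ * z) * ex (-(ξ * u)) := by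
      rw [← ex_add]; congr 1; ring
    rw [this]; ring
  have hb := hmaj.bound (W := 2 * |u|) (by positivity)
    (G := fun ξ => wk 1 T ξ * (phi (P Λ) (xs σ) lg ξ * ex (ξ * z)) * (1 - ex (-(ξ * u))))
    (fun ξ _ => by
      rw [norm_mul, norm_mul, norm_mul, norm_ex, mul_one]
      have h5 : ‖1 - ex (-(ξ * u))‖ ≤ |ξ| * |u| := by
        refine (norm_one_sub_ex_le _).trans (le_of_eq ?_)
        rw [abs_neg, abs_mul]
      have h6 : ‖wk 1 T ξ‖ ≤ 2 := by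
        have := norm_wk_le one_pos hT ξ
        rwa [div_one] at this
      calc ‖wk 1 T ξ‖ * ‖phi (P Λ) (xs σ) lg ξ‖ * ‖1 - ex (-(ξ * u))‖
          ≤ 2 * ‖phi (P Λ) (xs σ) lg ξ‖ * (|ξ| * |u|) := by
            apply mul_le_mul _ h5 (norm_nonneg _) (by positivity)
            exact mul_le_mul_of_nonneg_right h6 (norm_nonneg _)
        _ = 2 * |u| * (‖ph P σ Λ ξ‖ * |ξ|) := by unfold ph; ring)
    (fun ξ hξ => by rw [wk_eq_zero hT0 hξ, zero_mul, zero_mul])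
  rw [← hd, Complex.norm_real, Real.norm_eq_abs] at hb
  refine hb.trans (le_of_eq ?_)
  ring

omit hM in
lemma JL0_arith {g R s Λ E M : ℝ} (hg : 0 < g) (hg2 : g ≤ 4 / 3) (hs : 0 < s) (hR : 1 ≤ R)
    (hΛ1 : 1 ≤ Λ) (hM1 : 1 ≤ M)
    (hE : 12 * E ≤ g / 8) (hsΛ : 1024 * R ^ 4 * M * Λ / g ≤ s) :
    g / 2 / s ≤ g / s -
      (2 * (R / s) * ((5 + g * M) * (R / s) + g * (1 / 3 * (s * s * Λ) * (R / s) ^ 3)) +
      2 * E * (6 / s) + 2 * (2 * 2 * (1 / (s * s)))) := by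
  have hR4 : 1 ≤ R ^ 4 := one_le_pow₀ hR
  have hR24 : R ^ 2 ≤ R ^ 4 := pow_le_pow_right₀ hR (by norm_num)
  have h1 : 1024 * R ^ 4 * M * Λ ≤ s * g := by rwa [div_le_iff₀ hg] at hsΛ
  have hR4Λ : R ^ 4 ≤ R ^ 4 * Λ := by nlinarith only [hΛ1, hR4]
  have hR4M : R ^ 4 * Λ ≤ R ^ 4 * Λ * M := by
    have : 0 ≤ R ^ 4 * Λ := by positivity
    nlinarith only [hM1, hR4, hR4Λ]
  have hR2M : M * R ^ 2 ≤ R ^ 4 * Λ * M := by
    have h5 : R ^ 2 ≤ R ^ 4 * Λ := hR24.trans hR4Λ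
    calc M * R ^ 2 ≤ M * (R ^ 4 * Λ) := mul_le_mul_of_nonneg_left h5 (by linarith)
      _ = _ := by ring
  have e : g / s -
      (2 * (R / s) * ((5 + g * M) * (R / s) + g * (1 / 3 * (s * s * Λ) * (R / s) ^ 3)) +
      2 * E * (6 / s) + 2 * (2 * 2 * (1 / (s * s)))) - g / 2 / s =
      (g / 2 * s - 2 * (5 + g * M) * R ^ 2 - 2 / 3 * g * R ^ 4 * Λ - 12 * E * s - 8) /
        (s * s) := by
    field_simp
    ring
  have h2 : 0 ≤ g / 2 * s - 2 * (5 + g * M) * R ^ 2 - 2 / 3 * g * R ^ 4 * Λ - 12 * E * s - 8 := by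
    have q1 : 12 * E * s ≤ g / 8 * s := mul_le_mul_of_nonneg_right hE hs.le
    have q2 : 2 * (5 + g * M) * R ^ 2 ≤ 10 * R ^ 2 + 3 * (M * R ^ 2) := by
      have : g * (M * R ^ 2) ≤ 4 / 3 * (M * R ^ 2) :=
        mul_le_mul_of_nonneg_right hg2 (by positivity)
      have h0 : 0 ≤ M * R ^ 2 := by positivity
      calc 2 * (5 + g * M) * R ^ 2 = 10 * R ^ 2 + 2 * (g * (M * R ^ 2)) := by ring
        _ ≤ _ := by linarith only [this, h0]
    have q3 : 2 / 3 * g * R ^ 4 * Λ ≤ R ^ 4 * Λ := by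
      have : 2 / 3 * g ≤ 1 := by linarith only [hg2]
      calc 2 / 3 * g * R ^ 4 * Λ = (2 / 3 * g) * (R ^ 4 * Λ) := by ring
        _ ≤ 1 * (R ^ 4 * Λ) := mul_le_mul_of_nonneg_right this (by positivity)
        _ = _ := one_mul _
    have q4 : 1024 * (R ^ 4 * Λ * M) ≤ s * g := by
      calc _ = 1024 * R ^ 4 * M * Λ := by ring
        _ ≤ _ := h1
    linarith only [hR4, hR24, h1, hR4Λ, hR4M, hR2M, q1, q2, q3]
  have h3 := div_nonneg h2 (by positivity : 0 ≤ s * s)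
  linarith only [e, h3]

/-- lower bound at the mean -/
theorem JL0 {M : ℝ} (hM1 : 1 ≤ M) : ∃ Λ₀ : ℝ, 1 ≤ Λ₀ ∧ ∀ σ Λ z : ℝ, 0 ≤ σ → σ ≤ 1 / 2 →
    Λ₀ ≤ Λ → |z - XX P σ Λ| ≤ M → gk 0 / 2 / √(VV P σ Λ) ≤ JJ P 1 1 σ Λ z := by
  have hC0 := hM.C0
  have hg0 := gk_zero_pos
  have hg2 := gk_le 0
  obtain ⟨Λ₁, hΛ₁, hfar⟩ := hM.far0 (T := 2) (by norm_num)
  set g := gk 0 with hg
  set L := max 0 (Real.log (96 / g)) with hL
  have hL0 : 0 ≤ L := le_max_left _ _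
  set R := 1 + π ^ 2 * L with hR
  have hR1 : 1 ≤ R := by
    have : 0 ≤ π ^ 2 * L := by positivity
    linarith
  set E := rexp (-(R ^ 2 / π ^ 2)) with hE
  have hE1 : 12 * E ≤ g / 8 := by
    have h1 : L ≤ R ^ 2 / π ^ 2 := by
      rw [le_div_iff₀ (by positivity)]
      have h2 : L * π ^ 2 ≤ R := by rw [hR]; linarith
      have h3 : R ≤ R ^ 2 := by nlinarith only [hR1]
      linarith
    have h4 : E ≤ rexp (-L) := by rw [hE, exp_le_exp]; linarith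
    have h5 : 96 / g ≤ rexp L := by
      rw [← Real.log_le_iff_le_exp (by positivity)]
      exact le_max_right _ _
    have h6 : rexp (-L) ≤ g / 96 := by
      rw [exp_neg, inv_le_comm₀ (exp_pos _) (by positivity), inv_div]
      exact h5
    linarith
  obtain ⟨Λ₂, hΛ₂, hs⟩ := hM.sqrt_VV_half (1024 * R ^ 4 * M / g + R)
  refine ⟨Λ₁ + Λ₂, by linarith, fun σ Λ z h0 hσ hΛ hz => ?_⟩
  have hΛ0 : 0 < Λ := by linarith
  have hΛ1 : 1 ≤ Λ := by linarith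
  have hsV := hs σ Λ h0 hσ (by linarith)
  have hR4 : 1 ≤ R ^ 4 := one_le_pow₀ hR1
  have hp : 0 < 1024 * R ^ 4 * M / g := by positivity
  have hp2 : 0 < 1024 * R ^ 4 * M / g * Λ := by positivity
  have hp3 : 0 < R * Λ := by positivity
  rw [add_mul] at hsV
  have hs1 : 1024 * R ^ 4 * M / g * Λ ≤ √(VV P σ Λ) := by linarith
  have hRV : R * Λ ≤ √(VV P σ Λ) := by linarith only [hsV, hp2]
  have hsp : 0 < √(VV P σ Λ) := lt_of_lt_of_le (by positivity) hs1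
  have hV : 0 < VV P σ Λ := sqrt_pos.mp hsp
  set V := VV P σ Λ with hVdef
  set X := XX P σ Λ with hXdef
  set r := R / √V with hr
  have hr0 : 0 < r := by (clear * - hV; positivity)
  have hrΛ : r * Λ ≤ 1 := by
    rw [hr, div_mul_eq_mul_div, div_le_one hsp]; exact hRV
  have hrπ : r ≤ π / Λ := by
    rw [le_div_iff₀ hΛ0]; linarith only [hrΛ, pi_gt_three]
  -- the integrand
  set F : ℝ → ℂ := fun ξ => wk 1 1 ξ * (phi (P Λ) (xs σ) lg ξ * ex (ξ * z)) with hF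
  have e := Ef_kk (P := P Λ) (x := xs σ) (l := lg) one_pos one_pos z
  set G : ℝ → ℝ := fun ξ => if |ξ| ≤ R / √V then g * rexp (-(V * ξ ^ 2 / 2)) else 0 with hG
  obtain ⟨hGi, hGge⟩ := main_term_ge hV hR1 hg0.le
  set A := (5 + g * M) * r + g * (1 / 3 * (V * Λ) * r ^ 3) with hA
  obtain ⟨i1, j1⟩ := ind_integral r A hr0.le
  obtain ⟨i3, j3⟩ := int_gauss (by linarith only [hV] : 0 < V / 2)
  obtain ⟨i4, j4⟩ := ind_integral 2 (1 / V) (by norm_num)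
  have hpn : ∀ ξ : ℝ, ‖phi (P Λ) (xs σ) lg ξ‖ ≤ 1 := norm_phi_le_one (fun p => xs_pos σ p)
  have hFi : Integrable F := by
    apply integrable_wk_mul one_pos one_pos (c := 1)
    · have hcphi : Continuous (phi (P Λ) (xs σ) lg) := by
        unfold phi
        fun_prop
      fun_prop
    · intro ξ
      rw [norm_mul, norm_ex, mul_one]
      exact hpn ξ
  have hpt : ∀ ξ : ℝ, ‖F ξ - (G ξ : ℂ)‖ ≤
      (if |ξ| ≤ r then A else 0) + 2 * E * rexp (-(2 / π ^ 2 * (V / 2) * ξ ^ 2)) +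
      2 * (if |ξ| ≤ 2 then 1 / V else 0) := by
    intro ξ
    have n4 : 0 ≤ 2 * (if |ξ| ≤ 2 then 1 / V else 0 : ℝ) := by
      have : 0 ≤ 1 / V := by positivity
      split_ifs <;> positivity
    have n3 : 0 ≤ 2 * E * rexp (-(2 / π ^ 2 * (V / 2) * ξ ^ 2)) := by positivity
    have hwk : ‖wk 1 1 ξ‖ ≤ 2 := by
      have := norm_wk_le one_pos le_rfl ξ
      rwa [div_one] at this
    rcases le_or_gt |ξ| r with hξ | hξ
    · -- inside
      rw [if_pos hξ]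
      have hξ0 := abs_nonneg ξ
      have hgs := phi_gauss (P := P Λ) (l := lg) (fun p => xs_pos σ p) (Λ := Λ) (ξ := ξ)
        (fun p hp => ⟨lg_nonneg p, hM.le Λ p hp⟩)
        ((mul_le_mul_of_nonneg_right hξ hΛ0.le).trans hrΛ)
      have e1 : F ξ - (G ξ : ℂ) =
          (wk 1 1 ξ - (g : ℂ)) * (phi (P Λ) (xs σ) lg ξ * ex (ξ * z)) -
          (g : ℂ) * (phi (P Λ) (xs σ) lg ξ * ex (ξ * X)) * (1 - ex (ξ * (z - X))) +
          (g : ℂ) * (phi (P Λ) (xs σ) lg ξ * ex (ξ * X) - (rexp (-(V * ξ ^ 2 / 2)) : ℂ)) := by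
        have e2 : (G ξ : ℂ) = (g : ℂ) * (rexp (-(V * ξ ^ 2 / 2)) : ℂ) := by
          rw [hG]; simp only; rw [if_pos hξ]; push_cast; rfl
        have e3 : ex (ξ * z) = ex (ξ * (z - X)) * ex (ξ * X) := by
          rw [← ex_add]; congr 1; ring
        rw [e2, hF]
        simp only
        rw [e3]
        ring
      rw [e1]
      have c1 := wk_lip one_pos ξ
      have c1' : ‖wk 1 1 ξ - (g : ℂ)‖ ≤ 5 * |ξ| := by
        rw [div_one] at c1
        refine c1.trans (le_of_eq ?_)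
        norm_num
      have c4 : ‖1 - ex (ξ * (z - X))‖ ≤ r * M := by
        refine (norm_one_sub_ex_le _).trans ?_
        rw [abs_mul]
        exact mul_le_mul hξ hz (abs_nonneg _) hr0.le
      have c5 : ‖(g : ℂ)‖ = g := by
        rw [Complex.norm_real, Real.norm_eq_abs, abs_of_pos hg0]
      refine (norm_add_le _ _).trans ?_
      refine (add_le_add_left (norm_sub_le _ _) _).trans ?_
      rw [norm_mul, norm_mul, norm_ex, mul_one, norm_mul, norm_mul, norm_mul, norm_ex, mul_one,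
        norm_mul, c5]
      have d1 : ‖wk 1 1 ξ - (g : ℂ)‖ * ‖phi (P Λ) (xs σ) lg ξ‖ ≤ 5 * r := by
        calc _ ≤ (5 * |ξ|) * 1 := mul_le_mul c1' (hpn ξ) (norm_nonneg _) (by positivity)
          _ ≤ 5 * r := by linarith only [hξ]
      have d2 : g * ‖phi (P Λ) (xs σ) lg ξ‖ * ‖1 - ex (ξ * (z - X))‖ ≤ g * M * r := by
        calc _ ≤ (g * 1) * (r * M) := by
              apply mul_le_mul _ c4 (norm_nonneg _) (by positivity)
              exact mul_le_mul_of_nonneg_left (hpn ξ) hg0.le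
          _ = _ := by ring
      have d3 : g * ‖phi (P Λ) (xs σ) lg ξ * ex (ξ * X) - (rexp (-(V * ξ ^ 2 / 2)) : ℂ)‖ ≤
          g * (1 / 3 * (V * Λ) * r ^ 3) := by
        apply mul_le_mul_of_nonneg_left _ hg0.le
        refine hgs.trans ?_
        have : |ξ| ^ 3 ≤ r ^ 3 := pow_le_pow_left₀ (abs_nonneg _) hξ 3
        exact mul_le_mul_of_nonneg_left this (by positivity)
      have : A = 5 * r + g * M * r + g * (1 / 3 * (V * Λ) * r ^ 3) := by rw [hA]; ring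
      linarith only [hA, n4, n3, d1, d2, d3]
    · -- outside
      have hG0 : G ξ = 0 := by rw [hG]; simp only; rw [if_neg (not_le.mpr hξ)]
      rw [if_neg (not_le.mpr hξ), hG0, Complex.ofReal_zero, sub_zero, zero_add]
      have hFn : ‖F ξ‖ = ‖wk 1 1 ξ‖ * ‖ph P σ Λ ξ‖ := by
        rw [hF]; simp only
        rw [norm_mul, norm_mul, norm_ex, mul_one]
        rfl
      rw [hFn]
      rcases le_or_gt |ξ| (π / Λ) with h | h
      · have h1 := hM.ph_lobe (σ := σ) hΛ0 h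
        have h3 : rexp (-(2 / π ^ 2 * V * ξ ^ 2)) ≤
            E * rexp (-(2 / π ^ 2 * (V / 2) * ξ ^ 2)) := by
          rw [hE, ← exp_add, exp_le_exp]
          have h4 : R ^ 2 ≤ V * ξ ^ 2 := by
            have h5 : r ^ 2 ≤ ξ ^ 2 := by
              rw [← sq_abs ξ]; exact pow_le_pow_left₀ hr0.le hξ.le 2
            rw [hr, div_pow, sq_sqrt hV.le, div_le_iff₀ hV] at h5
            linarith only [h5]
          have h6 : R ^ 2 / π ^ 2 ≤ V * ξ ^ 2 / π ^ 2 := div_le_div_of_nonneg_right h4 (by positivity)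
          have h7 : 2 / π ^ 2 * V * ξ ^ 2 = V * ξ ^ 2 / π ^ 2 + 2 / π ^ 2 * (V / 2) * ξ ^ 2 := by
            ring
          linarith only [h6, h7]
        have h8 : ‖wk 1 1 ξ‖ * ‖ph P σ Λ ξ‖ ≤
            2 * (E * rexp (-(2 / π ^ 2 * (V / 2) * ξ ^ 2))) :=
          mul_le_mul hwk (h1.trans h3) (norm_nonneg _) (by norm_num)
        linarith only [n4, h8]
      · rcases le_or_gt |ξ| 2 with h2' | h2'
        · have h1 := hfar σ Λ ξ h0 hσ (by linarith only [hΛ₂, hΛ]) h.le h2'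
          rw [if_pos h2'] at n4 ⊢
          have h8 : ‖wk 1 1 ξ‖ * ‖ph P σ Λ ξ‖ ≤ 2 * (1 / V) :=
            mul_le_mul hwk h1 (norm_nonneg _) (by norm_num)
          linarith only [n3, h8]
        · rw [wk_eq_zero one_pos (by linarith only [h2']), norm_zero, zero_mul]
          linarith only [n4, n3]
  have hMi : Integrable fun ξ : ℝ => (if |ξ| ≤ r then A else 0) +
      2 * E * rexp (-(2 / π ^ 2 * (V / 2) * ξ ^ 2)) + 2 * (if |ξ| ≤ 2 then 1 / V else 0) :=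
    (i1.add (i3.const_mul _)).add (i4.const_mul _)
  have hbd := norm_integral_le_of_norm_le hMi (Filter.Eventually.of_forall hpt)
  have hint : ∫ ξ : ℝ, ((if |ξ| ≤ r then A else 0) +
      2 * E * rexp (-(2 / π ^ 2 * (V / 2) * ξ ^ 2)) + 2 * (if |ξ| ≤ 2 then 1 / V else 0)) ≤
      2 * r * A + 2 * E * (4 / √(V / 2)) + 2 * (2 * 2 * (1 / V)) := by
    rw [integral_three i1 (i3.const_mul _) (i4.const_mul _), integral_const_mul,
      integral_const_mul, j1, j4]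
    apply add_le_add _ le_rfl
    apply add_le_add le_rfl
    exact mul_le_mul_of_nonneg_left j3 (by positivity)
  have hGc : Integrable fun ξ : ℝ => (G ξ : ℂ) := hGi.ofReal
  rw [integral_sub hFi hGc, integral_complex_ofReal, ← e, ← Complex.ofReal_sub,
    Complex.norm_real, Real.norm_eq_abs] at hbd
  have a1 := (abs_le.mp hbd).1
  have hhalf : 4 / √(V / 2) ≤ 6 / √V := by
    rw [sqrt_div hV.le, div_div_eq_mul_div]
    apply div_le_div_of_nonneg_right _ hsp.le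
    have : √2 ≤ 1.5 := by
      rw [sqrt_le_left (by norm_num)]; norm_num
    linarith only [this]
  have hh2 := mul_le_mul_of_nonneg_left hhalf (by positivity : 0 ≤ 2 * E)
  have har := JL0_arith (g := g) (R := R) (s := √V) (Λ := Λ) (E := E) hg0 hg2 hsp hR1 hΛ1 hM1 hE1
    (by calc 1024 * R ^ 4 * M * Λ / g = 1024 * R ^ 4 * M / g * Λ := by ring
          _ ≤ _ := hs1)
  rw [mul_self_sqrt hV.le] at har
  have hJ : JJ P 1 1 σ Λ z = Ef (P Λ) (xs σ) lg (fun s => kk 1 1 (z - s)) := rfl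
  have hA' : 2 * r * A = 2 * (R / √V) * ((5 + g * M) * (R / √V) +
      g * (1 / 3 * (V * Λ) * (R / √V) ^ 3)) := by
    rw [hA, hr]
  rw [hJ]
  linarith only [hGge, hint, a1, hh2, har, hA']

end MDat

end Pool.Agent.MP0016c7.Ros
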