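import Mathlib
import Pool.Agent.Lib.MP_0016c7_nt.FekFlat
import Pool.Agent.Lib.MP_0016c7_nt.FekLow

open Real Set MeasureTheory Filter Topology

namespace Pool.Agent.MP0016c7.Ros

variable {P : ℝ → Finset ℕ} {C₀ : ℝ} {C₁ Cs : ℝ → ℝ}

namespace MDat

variable (hM : MDat P C₀ C₁ Cs)
include hM

/-- upper bound for the density, small tilts -/
theorem UB0 : ∃ D : ℝ, 0 < D ∧ ∃ Λ₀ : ℝ, 1 ≤ Λ₀ ∧
    ∀ σ Λ y : ℝ, 0 ≤ σ → σ ≤ 1 / 2 → Λ₀ ≤ Λ → al P 1 σ Λ y ≤ D / √(VV P σ Λ) := by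
  obtain ⟨C, hC, Λ₀, hΛ₀, h⟩ := hM.JU0 (T := 1) le_rfl
  refine ⟨rexp 2 * C, by positivity, Λ₀, hΛ₀, fun σ Λ y h0 hσ hΛ => ?_⟩
  have h1 := h σ Λ (y + 1) h0 hσ hΛ
  have h3 := al_le_JJ P zero_le_one le_rfl one_pos zero_le_one σ Λ y
  have h4 := mass_ge_two one_pos
  simp only [div_one, mul_one] at h3 h4
  have ha := al_nonneg P 1 σ Λ y
  have h5 : rexp (-2) * al P 1 σ Λ y * 2 ≤ JJ P 1 1 σ Λ (y + 1) := by
    refine le_trans ?_ h3
    exact mul_le_mul_of_nonneg_left h4 (by positivity)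
  have h8 : rexp 2 * rexp (-2) = 1 := by rw [← exp_add]; norm_num
  have h9 := mul_le_mul_of_nonneg_left (h5.trans h1) (exp_pos 2).le
  have h10 : rexp 2 * (rexp (-2) * al P 1 σ Λ y * 2) = 2 * al P 1 σ Λ y := by
    calc _ = (rexp 2 * rexp (-2)) * (2 * al P 1 σ Λ y) := by ring
      _ = _ := by rw [h8, one_mul]
  rw [h10, ← mul_div_assoc] at h9
  linarith only [ha, h9]

omit hM in
/-- tail estimate for a uniformly bounded density -/
lemma tail_al0 {T δ D z σ Λ : ℝ} (hT : 0 < T) (hδ : 0 ≤ δ)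
    (hD : ∀ y, al P 1 σ Λ y ≤ D) :
    ∫ t in (Icc (-δ) δ)ᶜ, al P 1 σ Λ (z - t) * Kk (T * t) ≤ D * (mK / (1 + (T * δ) ^ 2) / T) := by
  have hi := integrable_al_KT P zero_le_one hT σ Λ z
  have hK := integrable_KT hT
  have hD0 : 0 ≤ D := (al_nonneg P 1 σ Λ 0).trans (hD 0)
  calc ∫ t in (Icc (-δ) δ)ᶜ, al P 1 σ Λ (z - t) * Kk (T * t)
      ≤ ∫ t in (Icc (-δ) δ)ᶜ, D * Kk (T * t) := by
        apply setIntegral_mono_on hi.integrableOn (hK.const_mul _).integrableOn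
          measurableSet_Icc.compl
        intro t _
        exact mul_le_mul_of_nonneg_right (hD _) (Kk_nonneg _)
    _ = D * ∫ t in (Icc (-δ) δ)ᶜ, Kk (T * t) := integral_const_mul _ _
    _ ≤ _ := mul_le_mul_of_nonneg_left (tail_KT hT hδ) hD0

/-- lower bound for the density at the mean, small tilts -/
theorem LB0 : ∃ c : ℝ, 0 < c ∧ ∃ Λ₀ : ℝ, 1 ≤ Λ₀ ∧
    ∀ σ Λ y : ℝ, 0 ≤ σ → σ ≤ 1 / 2 → Λ₀ ≤ Λ → |y - XX P σ Λ| ≤ 1 →
    c / √(VV P σ Λ) ≤ al P 1 σ Λ y := by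
  obtain ⟨D, hD, Λ₁, hΛ₁, hU⟩ := hM.UB0
  have hg := gk_zero_pos
  set g := gk 0 with hgdef
  have hmK := mK_nonneg
  have hcK := cK_pos
  set m := 4 * D * mK / g with hm
  have hm0 : 0 ≤ m := by positivity
  obtain ⟨Λ₂, hΛ₂, hL⟩ := hM.JL0 (M := 1 + m) (by linarith)
  obtain ⟨Λ₃, hΛ₃, hs⟩ := hM.sqrt_VV_half 1
  refine ⟨g / 4 / (rexp (2 * m) * cK), by positivity, Λ₁ + Λ₂ + Λ₃, by linarith,
    fun σ Λ y h0 hσ hΛ hy => ?_⟩
  have hΛ0 : 0 < Λ := by linarith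
  have hsV := hs σ Λ h0 hσ (by linarith)
  have hsp : 0 < √(VV P σ Λ) := by linarith
  set s := √(VV P σ Λ) with hsdef
  have h1 := hL σ Λ (y - m) h0 hσ (by linarith) (by
    calc |y - m - XX P σ Λ| = |(y - XX P σ Λ) + (-m)| := by congr 1; ring
      _ ≤ |y - XX P σ Λ| + |(-m)| := abs_add_le _ _
      _ ≤ 1 + m := by rw [abs_neg, abs_of_nonneg hm0]; linarith)
  have h2 := JJ_le_al P zero_le_one le_rfl one_pos hm0 σ Λ y
  have h3 := tail_al0 (T := 1) (δ := m) (z := y - m) one_pos hm0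
    (fun y => hU σ Λ y h0 hσ (by linarith))
  have h4 : D / s * (mK / (1 + (1 * m) ^ 2) / 1) ≤ g / 4 / s := by
    rw [one_mul, div_one]
    have q1 : D * (mK / (1 + m ^ 2)) ≤ g / 4 := by
      rw [← mul_div_assoc, div_le_iff₀ (by positivity)]
      have q2 : m ≤ 1 + m ^ 2 := by nlinarith only [sq_nonneg (m - 1)]
      have q3 : g / 4 * m = D * mK := by rw [hm]; field_simp
      have q4 := mul_le_mul_of_nonneg_left q2 (by positivity : 0 ≤ g / 4)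
      linarith only [q3, q4]
    calc D / s * (mK / (1 + m ^ 2)) = D * (mK / (1 + m ^ 2)) / s := by ring
      _ ≤ _ := div_le_div_of_nonneg_right q1 hsp.le
  rw [div_one] at h2
  have h5 : g / 4 / s ≤ rexp (2 * m) * al P 1 σ Λ y * cK := by
    have : g / 2 / s = g / 4 / s + g / 4 / s := by ring
    linarith only [h1, h2, h3, h4, this]
  have h6 : g / 4 / (rexp (2 * m) * cK) / s = g / 4 / s / (rexp (2 * m) * cK) :=
    div_right_comm _ _ _
  rw [h6, div_le_iff₀ (by positivity)]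
  calc g / 4 / s ≤ _ := h5
    _ = _ := by ring

/-- slow variation of the density, small tilts -/
theorem slow0 {c D ε U : ℝ} (hc : 0 < c) (hD : 0 < D) (hε : 0 < ε) (hε1 : ε ≤ 1) (hU : 0 ≤ U) :
    ∃ Λ₀ : ℝ, 1 ≤ Λ₀ ∧
    ∀ σ Λ X₀ : ℝ, 0 ≤ σ → σ ≤ 1 / 2 → Λ₀ ≤ Λ →
    (∀ y, al P 1 σ Λ y ≤ D / √(VV P σ Λ)) →
    (∀ y, |y - X₀| ≤ 1 → c / √(VV P σ Λ) ≤ al P 1 σ Λ y) →
    ∃ G, 0 < G ∧ c / 2 / √(VV P σ Λ) ≤ G ∧
      ∀ u, |u| ≤ U → |al P 1 σ Λ (X₀ - u) - G| ≤ ε * G := by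
  have hmK := mK_nonneg
  have hcK := cK_pos
  set δ := ε / 16 with hδ
  have hδ0 : 0 < δ := by positivity
  have hδ1 : δ ≤ 1 := by rw [hδ]; linarith only [hε1]
  set tg := cK * (ε / 16) * (1 / (1 + 2 * D / c)) with htg
  have htg0 : 0 < tg := by positivity
  set T := 1 + mK / tg / δ with hT
  have hT1 : 1 ≤ T := by
    rw [hT]; have : 0 ≤ mK / tg / δ := by positivity
    linarith only [this]
  have hT0 : 0 < T := by linarith only [hT1]
  have hTδ : mK / (1 + (T * δ) ^ 2) ≤ tg := by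
    have q1 : mK / tg ≤ T * δ := by
      rw [hT, add_mul, div_mul_cancel₀ _ hδ0.ne']; linarith only [hδ0]
    have q2 : T * δ ≤ 1 + (T * δ) ^ 2 := by nlinarith only [sq_nonneg (T * δ - 1), sq_nonneg (T * δ)]
    rw [div_le_iff₀ (by positivity)]
    rw [div_le_iff₀ htg0] at q1
    have := mul_le_mul_of_nonneg_left q2 htg0.le
    linarith only [q1, this]
  obtain ⟨C, hC, Λ₂, hΛ₂, hREG⟩ := hM.JR0 hT1
  obtain ⟨Λ₃, hΛ₃, hs⟩ := hM.sqrt_VV_half (1 + C * (U + 1) / (ε / 16 * (c / 2 * (cK / T))))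
  refine ⟨Λ₂ + Λ₃, by linarith, ?_⟩
  intro σ Λ X₀ h0 hσ hΛ hUB hlow
  have hΛ1 : 1 ≤ Λ := by linarith only [hΛ₂, hΛ₃, hΛ]
  have hsV := hs σ Λ h0 hσ (by linarith only [hΛ₂, hΛ])
  set κ := cK / T with hκ
  have hκ0 : 0 < κ := by positivity
  have hb0 : 0 ≤ C * (U + 1) / (ε / 16 * (c / 2 * κ)) := by (clear * - hC hU hε hc hcK hmK hD; positivity)
  set s := √(VV P σ Λ) with hsdef
  have hs1 : C * (U + 1) / (ε / 16 * (c / 2 * κ)) ≤ s := by
    refine le_trans ?_ hsV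
    nlinarith only [hΛ₂, hΛ₃, hΛ, hb0, hε1, hδ, hδ0]
  have hsp : 0 < s := by
    refine lt_of_lt_of_le ?_ hsV
    (clear * - hC hU hε hc hcK hmK hD hΛ1; positivity)
  have hV : 0 < VV P σ Λ := sqrt_pos.mp hsp
  set J := JJ P 1 T σ Λ X₀ with hJ
  set G := J / κ with hG
  have hJG : J = G * κ := by rw [hG]; field_simp
  set η := mK / (1 + (T * δ) ^ 2) / cK with hη
  have hη1 : η ≤ ε / 16 := by
    rw [hη, div_le_iff₀ hcK]
    refine hTδ.trans ?_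
    rw [htg]
    have q1 : 1 / (1 + 2 * D / c) ≤ 1 := by
      rw [div_le_one (by positivity)]
      have : 0 < 2 * D / c := by positivity
      linarith only [this]
    have := mul_le_mul_of_nonneg_left q1 (by positivity : 0 ≤ cK * (ε / 16))
    linarith only [this]
  have hmass : (1 - η) * κ ≤ ∫ t in Icc (-δ) δ, Kk (T * t) := by
    refine le_trans (le_of_eq ?_) (mass_ge hT0 hδ0.le)
    rw [hη, hκ]
    field_simp
  have hη15 : 0 ≤ 1 - η := by linarith only [hε1, hη1]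
  have hexp : 7 / 8 ≤ rexp (-(2 * δ)) := by
    have := add_one_le_exp (-(2 * δ))
    rw [hδ] at this ⊢
    linarith only [hε1, this]
  -- lower bound for G
  have hGlow : c / 2 / s ≤ G := by
    have q1 := al_le_JJ P zero_le_one le_rfl hT0 hδ0.le σ Λ (X₀ - δ)
    rw [sub_add_cancel] at q1
    have q2 := hlow (X₀ - δ) (by rw [abs_le]; constructor <;> linarith only [hε1, hδ, hδ0])
    have hcR : 0 ≤ c / s := by positivity
    have q3 : 7 / 8 * (c / s) * ((1 - η) * κ) ≤ J := by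
      refine le_trans ?_ q1
      apply mul_le_mul _ hmass (by (clear * - hη15 hcK hmK hε hD hc; positivity))
        (mul_nonneg (exp_pos _).le (al_nonneg _ _ _ _ _))
      exact mul_le_mul hexp q2 hcR (exp_pos _).le
    rw [hG, le_div_iff₀ hκ0]
    refine le_trans ?_ q3
    have q4 : (15 : ℝ) / 16 ≤ 1 - η := by linarith only [hε1, hη1]
    have q5 : c / 2 / s * κ = (c / s * κ) * (1 / 2) := by ring
    have q6 : 7 / 8 * (c / s) * ((1 - η) * κ) = (c / s * κ) * (7 / 8 * (1 - η)) := by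
      ring
    rw [q5, q6]
    apply mul_le_mul_of_nonneg_left _ (by (clear * - hc hV hcK hmK hε hD; positivity))
    linarith only [hε1, hη1]
  have hG0 : 0 < G := lt_of_lt_of_le (by positivity) hGlow
  refine ⟨G, hG0, hGlow, ?_⟩
  -- regularity
  have hreg : ∀ v, |v| ≤ U + 1 → |J - JJ P 1 T σ Λ (X₀ - v)| ≤ ε / 16 * (G * κ) := by
    intro v hv
    have q1 := hREG σ Λ X₀ v h0 hσ (by linarith only [hΛ₃, hΛ])
    refine q1.trans ?_
    have q2 : C * |v| ≤ C * (U + 1) := mul_le_mul_of_nonneg_left hv hC.le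
    have q3 : C * (U + 1) ≤ s * (ε / 16 * (c / 2 * κ)) := by
      rwa [div_le_iff₀ (by positivity)] at hs1
    rw [div_le_iff₀ hV]
    have q4 : VV P σ Λ = s * s := (mul_self_sqrt hV.le).symm
    have q5 : c / 2 ≤ G * s := by rwa [div_le_iff₀ hsp] at hGlow
    calc C * |v| ≤ s * (ε / 16 * (c / 2 * κ)) := q2.trans q3
      _ = ε / 16 * κ * s * (c / 2) := by ring
      _ ≤ ε / 16 * κ * s * (G * s) := mul_le_mul_of_nonneg_left q5 (by positivity)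
      _ = ε / 16 * (G * κ) * VV P σ Λ := by rw [q4]; ring
  intro u hu
  obtain ⟨hu0, hu1⟩ := abs_le.mp hu
  have ha := al_nonneg P 1 σ Λ (X₀ - u)
  have hup : al P 1 σ Λ (X₀ - u) ≤ (1 + ε) * G := by
    have q1 := al_le_JJ P zero_le_one le_rfl hT0 hδ0.le σ Λ (X₀ - u)
    have e : X₀ - u + δ = X₀ - (u - δ) := by ring
    rw [e] at q1
    have q2 : rexp (-(2 * δ)) * al P 1 σ Λ (X₀ - u) * ((1 - η) * κ) ≤
        JJ P 1 T σ Λ (X₀ - (u - δ)) := by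
      refine le_trans ?_ q1
      exact mul_le_mul_of_nonneg_left hmass (mul_nonneg (exp_pos _).le ha)
    have q3 := (abs_le.mp (hreg (u - δ) (by rw [abs_le]; constructor <;> linarith only [hε1, hδ, hu0, hδ0, hu1]))).1
    exact up_arith hε hε1 hG0 hκ0 hδ hη1 le_rfl q2 (by linarith only [q3]) hJG
  have hlo : (1 - ε) * G ≤ al P 1 σ Λ (X₀ - u) := by
    have q1 := JJ_le_al P zero_le_one le_rfl hT0 hδ0.le σ Λ (X₀ - u)
    have e : X₀ - u - δ = X₀ - (u + δ) := by ring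
    rw [e] at q1
    have q3 := (abs_le.mp (hreg (u + δ) (by rw [abs_le]; constructor <;> linarith only [hδ0, hu0, hε1, hδ, hu1]))).2
    have q4 := tail_al0 (T := T) (δ := δ) (z := X₀ - (u + δ)) hT0 hδ0.le hUB
    have q5 : D / s * (mK / (1 + (T * δ) ^ 2) / T) ≤
        (2 * D / c * (mK / (1 + (T * δ) ^ 2)) / cK + 0) * (G * κ) := by
      have r1 : D / s ≤ 2 * D / c * G := by
        have : D / s = 2 * D / c * (c / 2 / s) := by field_simp
        rw [this]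
        exact mul_le_mul_of_nonneg_left hGlow (by positivity)
      have r2 := mul_le_mul_of_nonneg_right r1
        (by (clear * - hmK hcK hε hD hc; positivity) : 0 ≤ mK / (1 + (T * δ) ^ 2) / T)
      refine r2.trans (le_of_eq ?_)
      rw [hκ, add_zero]
      field_simp
    refine lo_arith (e₂ := 2 * D / c * (mK / (1 + (T * δ) ^ 2)) / cK)
      (e₃ := 0) hε hε1 hG0 hκ0 ha hδ (le_refl (ε / 16)) ?_ (by positivity) q1
      (q4.trans q5) (by linarith only [q3]) hJG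
    rw [div_le_iff₀ hcK]
    have r1 := mul_le_mul_of_nonneg_left hTδ (by positivity : 0 ≤ 2 * D / c)
    refine r1.trans ?_
    rw [htg]
    have r2 : 2 * D / c * (1 / (1 + 2 * D / c)) ≤ 1 := by
      rw [mul_one_div, div_le_one (by positivity)]; linarith
    calc 2 * D / c * (cK * (ε / 16) * (1 / (1 + 2 * D / c)))
        = cK * (ε / 16) * (2 * D / c * (1 / (1 + 2 * D / c))) := by ring
      _ ≤ cK * (ε / 16) * 1 := mul_le_mul_of_nonneg_left r2 (by positivity)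
      _ = _ := by ring
  rw [abs_le]
  constructor <;> linarith only [hlo, hup]

/-- flatness for tilts in the lower half -/
theorem flatL : ∃ D : ℝ, 0 < D ∧ ∃ c : ℝ, 0 < c ∧
    ∀ ε U : ℝ, 0 < ε → ε ≤ 1 → 0 ≤ U → ∃ Λ₀ : ℝ, 1 ≤ Λ₀ ∧
    ∀ Λ X : ℝ, Λ₀ ≤ Λ → XX P (1 / 2) Λ ≤ X → X ≤ XX P 0 Λ →
    ∃ σ, 0 ≤ σ ∧ σ ≤ 1 / 2 ∧ ∃ G, Flat P ε U D c σ Λ X G := by
  have hC0 := hM.C0
  obtain ⟨D, hD, Λ₁, hΛ₁, hU⟩ := hM.UB0
  obtain ⟨c, hc, Λ₂, hΛ₂, hL⟩ := hM.LB0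
  refine ⟨2 * D / c, by positivity, c / 16, by positivity, fun ε U hε hε1 hU' => ?_⟩
  obtain ⟨Λ₃, hΛ₃, hS⟩ := hM.slow0 hc hD hε hε1 hU'
  refine ⟨Λ₁ + Λ₂ + Λ₃ + 16 * C₀, by linarith, fun Λ X hΛ hX1 hX2 => ?_⟩
  have hΛ0 : 0 < Λ := by linarith
  obtain ⟨σ, hσ, hσX⟩ := intermediate_value_Icc' (f := fun σ => XX P σ Λ)
    (by norm_num : (0 : ℝ) ≤ 1 / 2) (hM.continuous_XX Λ).continuousOn ⟨hX1, hX2⟩
  simp only at hσX
  refine ⟨σ, hσ.1, hσ.2, ?_⟩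
  have hs1 : σ ≤ 1 := by linarith [hσ.2]
  have hXge := hM.XX_ge (σ := σ) (Λ := Λ) hσ.1 hs1 (by linarith) hΛ0
  have hV := hM.VV_pos (σ := σ) hσ.1 hs1 (by linarith) hΛ0
  have hVle := hM.VV_le (σ := σ) hΛ0.le
  rw [hσX] at hXge hVle
  have hX0 : 0 < X := by linarith
  have hsp : 0 < √(VV P σ Λ) := sqrt_pos.mpr hV
  have hsX : √(VV P σ Λ) ≤ 8 * X := by
    rw [sqrt_le_left (by positivity)]
    nlinarith only [hXge, hVle, hC0, hΛ₁, hΛ₂, hΛ₃, hΛ]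
  obtain ⟨G, hG, hGl, hGf⟩ := hS σ Λ X hσ.1 hσ.2 (by linarith)
    (fun y => hU σ Λ y hσ.1 hσ.2 (by linarith))
    (fun y hy => hL σ Λ y hσ.1 hσ.2 (by linarith) (by rw [hσX]; exact hy))
  refine ⟨G, hG, hGf, fun y _ => ?_, ?_⟩
  · refine (hU σ Λ y hσ.1 hσ.2 (by linarith only [hC0, hΛ₂, hΛ₃, hΛ])).trans ?_
    have : D / √(VV P σ Λ) = 2 * D / c * (c / 2 / √(VV P σ Λ)) := by field_simp
    rw [this]
    exact mul_le_mul_of_nonneg_left hGl (by positivity)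
  · refine le_trans ?_ hGl
    rw [div_div, div_div, div_le_div_iff₀ (by positivity) (by positivity)]
    nlinarith only [hc, hsX]

end MDat

end Pool.Agent.MP0016c7.Ros
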