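import Mathlib
import Pool.Agent.Lib.MP_0016c7_nt.CdlPhi
import Pool.Agent.Lib.MP_0016c7_nt.FekFlat0

open Real Set MeasureTheory Filter Topology

namespace Pool.Agent.MP0016c7.Ros

variable {P : ℝ → Finset ℕ} {C₀ : ℝ} {C₁ Cs : ℝ → ℝ}

lemma norm_wk_le' {T : ℝ} (hT : 0 < T) (ξ : ℝ) : ‖wk 1 T ξ‖ ≤ 4 / 3 / T := by
  unfold wk
  rw [norm_mul, Complex.norm_real, Real.norm_eq_abs, abs_of_nonneg (gT_nonneg hT ξ)]
  have h1 := gT_le hT ξ
  have h2 := norm_inv_le one_pos ξ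
  rw [div_one] at h2
  calc gT T ξ * ‖1 / (((1 : ℝ) : ℂ) + ξ * Complex.I)‖ ≤ 4 / 3 / T * 1 :=
        mul_le_mul h1 h2 (norm_nonneg _) (by positivity)
    _ = _ := mul_one _

lemma reg_arith : ∀ᶠ Λ : ℝ in atTop, 8 * rexp (-(5 * Λ / 2)) * (Λ ^ 2 * rexp Λ) ≤ 1 := by
  have h := tendsto_pow_mul_exp_neg_atTop_nhds_zero 2
  have h2 := h.eventually (gt_mem_nhds (by norm_num : (0 : ℝ) < 1 / 8))
  filter_upwards [h2, eventually_ge_atTop 0] with Λ h3 h0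
  have e : rexp (-(5 * Λ / 2)) * rexp Λ ≤ rexp (-Λ) := by
    rw [← exp_add, exp_le_exp]; linarith
  calc 8 * rexp (-(5 * Λ / 2)) * (Λ ^ 2 * rexp Λ) =
        8 * (Λ ^ 2 * (rexp (-(5 * Λ / 2)) * rexp Λ)) := by ring
    _ ≤ 8 * (Λ ^ 2 * rexp (-Λ)) := by gcongr
    _ ≤ 1 := by linarith

namespace MDat

variable (hM : MDat P C₀ C₁ Cs)
include hM

/-- regularity with exponentially large resolution -/
theorem JRbig : ∃ Λ₀ : ℝ, 1 ≤ Λ₀ ∧
    ∀ σ Λ z u : ℝ, 0 ≤ σ → σ ≤ 1 / 2 → Λ₀ ≤ Λ →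
    |JJ P 1 (rexp (3 * Λ / 4)) σ Λ z - JJ P 1 (rexp (3 * Λ / 4)) σ Λ (z - u)| ≤
      24 * |u| / (rexp (3 * Λ / 4) * VV P σ Λ) := by
  have hC0 := hM.C0
  obtain ⟨Λ₁, hΛ₁, hfar⟩ := hM.far_big
  obtain ⟨Λ₂, hΛ₂, hs⟩ := hM.sqrt_VV_half 1
  obtain ⟨Λ₃, hΛ₃⟩ := reg_arith.exists_forall_of_atTop
  refine ⟨Λ₁ + Λ₂ + |Λ₃| + 8 + 2 * C₀, by
    have := abs_nonneg Λ₃
    linarith, fun σ Λ z u h0 hσ hΛ => ?_⟩
  have hΛ3a := abs_nonneg Λ₃
  have hΛ3b := le_abs_self Λ₃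
  have hΛ0 : 0 < Λ := by linarith
  have hΛ1 : 1 ≤ Λ := by linarith
  have hsV := hs σ Λ h0 hσ (by linarith)
  have hs1 : 1 ≤ √(VV P σ Λ) := by linarith
  have hV : 0 < VV P σ Λ := sqrt_pos.mp (by linarith)
  have hVle : VV P σ Λ ≤ Λ ^ 2 * rexp Λ := by
    have q1 := hM.VV_le (σ := σ) hΛ0.le
    have q2 := hM.XX_le (σ := σ) (Λ := Λ) (by linarith) (by linarith)
    have q3 : rexp ((1 - σ) * Λ) ≤ rexp Λ := by
      rw [exp_le_exp]; nlinarith only [h0, hC0, hΛ₁, hΛ₂, hΛ, hΛ3a]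
    calc VV P σ Λ ≤ Λ * XX P σ Λ := q1
      _ ≤ Λ * (rexp ((1 - σ) * Λ) * Λ) := mul_le_mul_of_nonneg_left q2 hΛ0.le
      _ ≤ Λ * (rexp Λ * Λ) := by (clear * - q3 hΛ0; gcongr)
      _ = _ := by ring
  set V := VV P σ Λ with hVd
  set T := rexp (3 * Λ / 4) with hTd
  have hT0 : 0 < T := exp_pos _
  have h2T : 2 * T ≤ rexp (7 * Λ / 8) := by
    have h3 : (2 : ℝ) ≤ rexp (Λ / 8) := by
      have := add_one_le_exp (Λ / 8)
      linarith
    calc 2 * T ≤ rexp (Λ / 8) * T := mul_le_mul_of_nonneg_right h3 hT0.le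
      _ = _ := by rw [hTd, ← exp_add]; congr 1; ring
  have hfar' : ∀ ξ : ℝ, π / Λ ≤ |ξ| → |ξ| ≤ 2 * T → ‖ph P σ Λ ξ‖ ≤ rexp (-(4 * Λ)) :=
    fun ξ h1 h2 => hfar σ Λ ξ h0 hσ (by linarith) h1 (h2.trans h2T)
  have hmaj : Maj (fun ξ => ‖ph P σ Λ ξ‖ * |ξ|) (2 * T)
      (16 / V + 2 * (2 * T) * (2 * T * rexp (-(4 * Λ)))) := by
    obtain ⟨i1, j1⟩ := int_abs_gauss hV
    obtain ⟨i2, j2⟩ := ind_integral (2 * T) (2 * T * rexp (-(4 * Λ))) (by linarith)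
    refine ⟨fun ξ => |ξ| * rexp (-(2 / π ^ 2 * V * ξ ^ 2)) +
      if |ξ| ≤ 2 * T then 2 * T * rexp (-(4 * Λ)) else 0,
      i1.add i2, fun ξ => ?_, fun ξ hξ => ?_, ?_⟩
    · have := abs_nonneg ξ
      simp only
      split_ifs <;> positivity
    · simp only
      rw [if_pos hξ]
      have h2 : ‖ph P σ Λ ξ‖ ≤ rexp (-(2 / π ^ 2 * V * ξ ^ 2)) + rexp (-(4 * Λ)) := by
        rcases le_total |ξ| (π / Λ) with h | h
        · have := hM.ph_lobe (σ := σ) hΛ0 h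
          have := exp_pos (-(4 * Λ))
          linarith
        · have := hfar' ξ h hξ
          have := exp_pos (-(2 / π ^ 2 * V * ξ ^ 2))
          linarith
      have h3 := mul_le_mul_of_nonneg_right h2 (abs_nonneg ξ)
      have h4 : rexp (-(4 * Λ)) * |ξ| ≤ 2 * T * rexp (-(4 * Λ)) := by
        rw [mul_comm]
        exact mul_le_mul_of_nonneg_right hξ (by positivity)
      rw [add_mul] at h3
      linarith
    · rw [integral_add i1 i2, j2]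
      linarith
  have hB : 16 / V + 2 * (2 * T) * (2 * T * rexp (-(4 * Λ))) ≤ 17 / V := by
    have e : 2 * (2 * T) * (2 * T * rexp (-(4 * Λ))) = 8 * rexp (-(5 * Λ / 2)) := by
      have : T * T * rexp (-(4 * Λ)) = rexp (-(5 * Λ / 2)) := by
        rw [hTd, ← exp_add, ← exp_add]; congr 1; ring
      calc _ = 8 * (T * T * rexp (-(4 * Λ))) := by ring
        _ = _ := by rw [this]
    rw [e]
    have h5 : 8 * rexp (-(5 * Λ / 2)) ≤ 1 / V := by
      rw [le_div_iff₀ hV]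
      refine le_trans ?_ (hΛ₃ Λ (by linarith))
      exact mul_le_mul_of_nonneg_left hVle (by positivity)
    have : 17 / V = 16 / V + 1 / V := by ring
    linarith
  have e1 := Ef_kk (P := P Λ) (x := xs σ) (l := lg) one_pos hT0 z
  have e2 := Ef_kk (P := P Λ) (x := xs σ) (l := lg) one_pos hT0 (z - u)
  have hpn : ∀ ξ : ℝ, ‖phi (P Λ) (xs σ) lg ξ‖ ≤ 1 := norm_phi_le_one (fun p => xs_pos σ p)
  have hcphi : Continuous (phi (P Λ) (xs σ) lg) := by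
    unfold phi
    fun_prop
  have hi : ∀ y : ℝ, Integrable fun ξ => wk 1 T ξ * (phi (P Λ) (xs σ) lg ξ * ex (ξ * y)) := by
    intro y
    apply integrable_wk_mul one_pos hT0 (c := 1)
    · fun_prop
    · intro ξ
      rw [norm_mul, norm_ex, mul_one]
      exact hpn ξ
  have hd : ((JJ P 1 T σ Λ z - JJ P 1 T σ Λ (z - u) : ℝ) : ℂ) = ∫ ξ, wk 1 T ξ *
      (phi (P Λ) (xs σ) lg ξ * ex (ξ * z)) * (1 - ex (-(ξ * u))) := by
    unfold JJ
    rw [Complex.ofReal_sub, e1, e2, ← integral_sub (hi z) (hi (z - u))]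
    congr 1
    ext ξ
    have : ex (ξ * (z - u)) = ex (ξ * z) * ex (-(ξ * u)) := by
      rw [← ex_add]; congr 1; ring
    rw [this]; ring
  have hb := hmaj.bound (W := 4 / 3 / T * |u|) (by positivity)
    (G := fun ξ => wk 1 T ξ * (phi (P Λ) (xs σ) lg ξ * ex (ξ * z)) * (1 - ex (-(ξ * u))))
    (fun ξ _ => by
      rw [norm_mul, norm_mul, norm_mul, norm_ex, mul_one]
      have h5 : ‖1 - ex (-(ξ * u))‖ ≤ |ξ| * |u| := by
        refine (norm_one_sub_ex_le _).trans (le_of_eq ?_)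
        rw [abs_neg, abs_mul]
      have h6 : ‖wk 1 T ξ‖ ≤ 4 / 3 / T := norm_wk_le' hT0 ξ
      calc ‖wk 1 T ξ‖ * ‖phi (P Λ) (xs σ) lg ξ‖ * ‖1 - ex (-(ξ * u))‖
          ≤ 4 / 3 / T * ‖phi (P Λ) (xs σ) lg ξ‖ * (|ξ| * |u|) := by
            apply mul_le_mul _ h5 (norm_nonneg _) (by positivity)
            exact mul_le_mul_of_nonneg_right h6 (norm_nonneg _)
        _ = 4 / 3 / T * |u| * (‖ph P σ Λ ξ‖ * |ξ|) := by unfold ph; ring)
    (fun ξ hξ => by rw [wk_eq_zero hT0 hξ, zero_mul, zero_mul])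
  rw [← hd, Complex.norm_real, Real.norm_eq_abs] at hb
  refine hb.trans ?_
  calc 4 / 3 / T * |u| * (16 / V + 2 * (2 * T) * (2 * T * rexp (-(4 * Λ)))) ≤
        4 / 3 / T * |u| * (17 / V) := mul_le_mul_of_nonneg_left hB (by positivity)
    _ = 68 / 3 * (|u| / (T * V)) := by field_simp; ring
    _ ≤ 24 * (|u| / (T * V)) := by
        apply mul_le_mul_of_nonneg_right (by norm_num) (by positivity)
    _ = _ := by ring

omit hM in
lemma SR_cmp_arith {a j jp jm δ η Ds E : ℝ} (ha0 : 0 ≤ a) (haD : a ≤ Ds) (hδ0 : 0 ≤ δ)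
    (hδq : δ ≤ 1 / 4) (hη0 : 0 ≤ η) (hη1 : η ≤ 1 / 2) (r1 : |jp - j| ≤ E) (r2 : |j - jm| ≤ E)
    (l1 : jm ≤ rexp (2 * δ) * a + Ds * η) (v1 : rexp (-(2 * δ)) * a * (1 - η) ≤ jp) :
    |a - j| ≤ (4 * δ + η) * Ds + E := by
  have l2 : rexp (2 * δ) ≤ 1 + 4 * δ := by
    have h1 := Real.exp_bound_div_one_sub_of_interval (x := 2 * δ) (by positivity) (by linarith)
    refine h1.trans ?_
    rw [div_le_iff₀ (by linarith)]
    nlinarith only [hδ0, hδq]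
  have v2 : 1 - 2 * δ ≤ rexp (-(2 * δ)) := by
    have := add_one_le_exp (-(2 * δ)); linarith
  have hd : 4 * δ * a ≤ 4 * δ * Ds := mul_le_mul_of_nonneg_left haD (by positivity)
  have he : η * a ≤ η * Ds := mul_le_mul_of_nonneg_left haD hη0
  rw [abs_le]
  constructor
  · have h1 := (abs_le.mp r2).2
    have h3 : rexp (2 * δ) * a ≤ (1 + 4 * δ) * a := mul_le_mul_of_nonneg_right l2 ha0
    linarith
  · have h1 := (abs_le.mp r1).2
    have h2 : (1 - 2 * δ) * (a * (1 - η)) ≤ rexp (-(2 * δ)) * (a * (1 - η)) :=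
      mul_le_mul_of_nonneg_right v2 (mul_nonneg ha0 (by linarith))
    have h3 : 0 ≤ a * δ * η := by positivity
    have h4 : 0 ≤ δ * a := by positivity
    linarith

omit hM in
lemma SR_fin_arith {D mc ck δ η u s e8 e10 : ℝ} (hD : 0 < D) (hmc : 0 ≤ mc) (hck : 0 < ck)
    (hδ0 : 0 < δ) (hδ1 : δ ≤ 1) (hs0 : 0 < s) (he8 : 0 < e8)
    (hu : 0 ≤ u) (hδ : δ ≤ e8) (hη : η ≤ mc * e8) (hs : 1 / s ≤ 8 * e8)
    (hf : (8 * D + 2 * D * mc + 576 / ck) * e8 ≤ e10) :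
    2 * ((4 * δ + η) * (D / s) + 24 * δ / (ck * (s * s))) + 24 * u / (ck * (s * s)) ≤
      (1 + u) * e10 / s := by
  have t1 : (4 * δ + η) * (D / s) ≤ (4 * D + D * mc) * e8 / s := by
    have : 4 * δ + η ≤ (4 + mc) * e8 := by linarith only [hδ, hη]
    calc (4 * δ + η) * (D / s) ≤ ((4 + mc) * e8) * (D / s) :=
          mul_le_mul_of_nonneg_right this (by positivity)
      _ = _ := by ring
  have t2 : 24 * δ / (ck * (s * s)) ≤ 192 / ck * e8 / s := by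
    have e : 24 * δ / (ck * (s * s)) = 24 / ck * δ * (1 / s) / s := by field_simp
    rw [e]
    apply div_le_div_of_nonneg_right _ hs0.le
    calc 24 / ck * δ * (1 / s) ≤ 24 / ck * 1 * (8 * e8) := by
          apply mul_le_mul _ hs (by positivity) (by positivity)
          exact mul_le_mul_of_nonneg_left hδ1 (by positivity)
      _ = _ := by ring
  have t3 : 24 * u / (ck * (s * s)) ≤ 192 / ck * u * e8 / s := by
    have e : 24 * u / (ck * (s * s)) = 24 / ck * u * (1 / s) / s := by field_simp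
    rw [e]
    apply div_le_div_of_nonneg_right _ hs0.le
    calc 24 / ck * u * (1 / s) ≤ 24 / ck * u * (8 * e8) :=
          mul_le_mul_of_nonneg_left hs (by positivity)
      _ = _ := by ring
  calc 2 * ((4 * δ + η) * (D / s) + 24 * δ / (ck * (s * s))) + 24 * u / (ck * (s * s)) ≤
        2 * ((4 * D + D * mc) * e8 / s + 192 / ck * e8 / s) + 192 / ck * u * e8 / s := by linarith only [t1, t2, t3]
    _ = (8 * D + 2 * D * mc + 384 / ck + 192 / ck * u) * e8 / s := by ring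
    _ ≤ ((1 + u) * ((8 * D + 2 * D * mc + 576 / ck) * e8)) / s := by
        apply div_le_div_of_nonneg_right _ hs0.le
        rw [← mul_assoc]
        apply mul_le_mul_of_nonneg_right _ he8.le
        have g1 : 0 ≤ u * (8 * D + 2 * D * mc) := by positivity
        have g3 : 0 ≤ 384 / ck * u := by positivity
        have g4 : 0 < 192 / ck := by positivity
        have e : (1 + u) * (8 * D + 2 * D * mc + 576 / ck) - (8 * D + 2 * D * mc + 384 / ck +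
            192 / ck * u) = u * (8 * D + 2 * D * mc) + 384 / ck * u + 192 / ck := by ring
        linarith only [g1, g3, g4, e]
    _ ≤ (1 + u) * e10 / s := by
        apply div_le_div_of_nonneg_right _ hs0.le
        exact mul_le_mul_of_nonneg_left hf (by positivity)

omit hM in
lemma exp_neg_mul_exp (x : ℝ) : rexp (-x) * rexp x = 1 := by rw [← exp_add]; simp

omit hM in
lemma SR_small {C m : ℝ} (hC : 0 < C) (hm : 0 ≤ m) {Λ : ℝ} (hΛ : 16 + 40 * C + 2 * m ≤ Λ) :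
    rexp (-(Λ / 8)) ≤ 1 / 4 ∧ m * rexp (-Λ) ≤ 1 / 2 ∧ C * rexp (-(Λ / 8)) ≤ rexp (-(Λ / 10)) := by
  refine ⟨?_, ?_, ?_⟩
  · have h1 : rexp (-(Λ / 8)) ≤ rexp (-2) := by rw [exp_le_exp]; linarith
    have h2 := exp_neg_mul_exp 2
    have h7 : (4 : ℝ) ≤ rexp 2 := by
      have := Real.quadratic_le_exp_of_nonneg (x := 2) (by norm_num)
      linarith
    have h4 := exp_pos (-2 : ℝ)
    nlinarith only [h1, h2, h7, h4]
  · have h1 := add_one_le_exp Λ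
    have h3 := exp_neg_mul_exp Λ
    have h4 : m * 2 ≤ rexp Λ := by linarith
    have h5 := mul_le_mul_of_nonneg_left h4 (exp_pos (-Λ)).le
    linarith
  · have h1 : rexp (-(Λ / 10)) = rexp (Λ / 40) * rexp (-(Λ / 8)) := by
      rw [← exp_add]; congr 1; ring
    rw [h1]
    apply mul_le_mul_of_nonneg_right _ (exp_pos _).le
    have := add_one_le_exp (Λ / 40)
    linarith

/-- comparison of the density with the smoothed density -/
lemma SR_cmp {D T δ η Ds σ Λ cV : ℝ} (hT0 : 0 < T) (hδ0 : 0 < δ) (hδq : δ ≤ 1 / 4)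
    (hη0 : 0 ≤ η) (hη1 : η ≤ 1 / 2)
    (hη : mK / (1 + (T * δ) ^ 2) ≤ η * cK) (hU : ∀ y, al P 1 σ Λ y ≤ Ds)
    (hj : ∀ y v : ℝ, |T / cK * JJ P 1 T σ Λ y - T / cK * JJ P 1 T σ Λ (y - v)| ≤ |v| * cV)
    (y : ℝ) : |al P 1 σ Λ y - T / cK * JJ P 1 T σ Λ y| ≤ (4 * δ + η) * Ds + δ * cV := by
  have hcK := cK_pos
  have ha0 := al_nonneg P 1 σ Λ y
  have haD := hU y
  have hDs : 0 ≤ Ds := ha0.trans haD
  have u1 := al_le_JJ P zero_le_one le_rfl hT0 hδ0.le σ Λ y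
  have u2 := mass_ge hT0 hδ0.le
  have u3 := JJ_le_al P zero_le_one le_rfl hT0 hδ0.le σ Λ y
  have u4 := tail_al0 (P := P) (T := T) (δ := δ) (z := y - δ) (σ := σ) (Λ := Λ) hT0 hδ0.le hU
  have r1 := hj (y + δ) δ
  have r2 := hj y δ
  rw [abs_of_pos hδ0, add_sub_cancel_right] at r1
  rw [abs_of_pos hδ0] at r2
  have hη' : mK / (1 + (T * δ) ^ 2) / cK ≤ η := by rwa [div_le_iff₀ hcK]
  refine SR_cmp_arith ha0 haD hδ0.le hδq hη0 hη1 r1 r2 ?_ ?_
  · have h1 : T / cK * JJ P 1 T σ Λ (y - δ) ≤ T / cK * (rexp (2 * δ) * al P 1 σ Λ y * (cK / T) +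
        Ds * (mK / (1 + (T * δ) ^ 2) / T)) :=
      mul_le_mul_of_nonneg_left (u3.trans (by linarith only [u4])) (by positivity)
    refine h1.trans ?_
    have e : T / cK * (rexp (2 * δ) * al P 1 σ Λ y * (cK / T) +
        Ds * (mK / (1 + (T * δ) ^ 2) / T)) =
        rexp (2 * δ) * al P 1 σ Λ y + Ds * (mK / (1 + (T * δ) ^ 2) / cK) := by
      field_simp
    rw [e]
    have := mul_le_mul_of_nonneg_left hη' hDs
    linarith only [this]
  · have h1 : rexp (-(2 * δ)) * al P 1 σ Λ y * ((cK - mK / (1 + (T * δ) ^ 2)) / T) ≤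
        JJ P 1 T σ Λ (y + δ) :=
      (mul_le_mul_of_nonneg_left u2 (by positivity)).trans u1
    have h2 := mul_le_mul_of_nonneg_left h1 (by positivity : 0 ≤ T / cK)
    refine le_trans ?_ h2
    have e : T / cK * (rexp (-(2 * δ)) * al P 1 σ Λ y * ((cK - mK / (1 + (T * δ) ^ 2)) / T)) =
        rexp (-(2 * δ)) * al P 1 σ Λ y * (1 - mK / (1 + (T * δ) ^ 2) / cK) := by
      field_simp
    rw [e]
    apply mul_le_mul_of_nonneg_left _ (by positivity)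
    linarith only [hη']

/-- **Slow variation of the density at exponentially small relative precision.** -/
theorem SR : ∃ Λ₀ : ℝ, 1 ≤ Λ₀ ∧ ∀ σ Λ z u : ℝ, 0 ≤ σ → σ ≤ 1 / 2 → Λ₀ ≤ Λ →
    |al P 1 σ Λ z - al P 1 σ Λ (z - u)| ≤ (1 + |u|) * rexp (-(Λ / 10)) / √(VV P σ Λ) := by
  have hC0 := hM.C0
  obtain ⟨D, hD, Λ₁, hΛ₁, hU⟩ := hM.UB0
  obtain ⟨Λ₂, hΛ₂, hJ⟩ := hM.JRbig
  have hmK := mK_nonneg
  have hcK := cK_pos
  have hmc : 0 ≤ mK / cK := by positivity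
  obtain ⟨C, hC⟩ : ∃ C, C = 8 * D + 2 * D * (mK / cK) + 576 / cK := ⟨_, rfl⟩
  have hCpos : 0 < C := by rw [hC]; positivity
  refine ⟨Λ₁ + Λ₂ + (16 + 40 * C + 2 * (mK / cK)) + 16 * C₀, by linarith,
    fun σ Λ z u h0 hσ hΛ => ?_⟩
  have hΛ0 : 0 < Λ := by linarith only [hC0, hΛ₁, hΛ₂, hmc, hCpos, hΛ]
  have hΛ1 : 1 ≤ Λ := by linarith only [hC0, hΛ₁, hΛ₂, hmc, hCpos, hΛ]
  have hVh := hM.VV_half h0 hσ (by linarith) hΛ1
  have hV : 0 < VV P σ Λ := lt_of_lt_of_le (by positivity) hVh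
  obtain ⟨s, hs⟩ : ∃ s, s = √(VV P σ Λ) := ⟨_, rfl⟩
  have hs0 : 0 < s := by rw [hs]; exact sqrt_pos.mpr hV
  have hsV : s * s = VV P σ Λ := by rw [hs]; exact mul_self_sqrt hV.le
  have hs8 : rexp (Λ / 8) / 8 ≤ s := by
    rw [hs]
    apply le_sqrt_of_sq_le
    refine le_trans ?_ hVh
    have e : (rexp (Λ / 8) / 8) ^ 2 = rexp (Λ / 4) / 64 := by
      rw [div_pow, ← exp_nat_mul]
      congr 2
      · push_cast; ring
      · norm_num
    rw [e]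
    have h1 : 1 ≤ Λ ^ 2 := one_le_pow₀ hΛ1
    have h2 := mul_le_mul_of_nonneg_right h1 (exp_pos (Λ / 4)).le
    linarith only [h2]
  have hsinv : 1 / s ≤ 8 * rexp (-(Λ / 8)) := by
    rw [div_le_iff₀ hs0]
    have h1 := exp_neg_mul_exp (Λ / 8)
    have h2 := mul_le_mul_of_nonneg_left hs8 (exp_pos (-(Λ / 8))).le
    linarith only [h1, h2]
  obtain ⟨q1, q2, q3⟩ := SR_small hCpos hmc (Λ := Λ) (by linarith only [hC0, hΛ₁, hΛ₂, hΛ])
  obtain ⟨T, hTd⟩ : ∃ T, T = rexp (3 * Λ / 4) := ⟨_, rfl⟩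
  have hT0 : 0 < T := by rw [hTd]; exact exp_pos _
  obtain ⟨δ, hδd⟩ : ∃ δ, δ = rexp (-(Λ / 4)) := ⟨_, rfl⟩
  have hδ0 : 0 < δ := by rw [hδd]; exact exp_pos _
  have hTδ2 : rexp Λ ≤ 1 + (T * δ) ^ 2 := by
    have : T * δ = rexp (Λ / 2) := by rw [hTd, hδd, ← exp_add]; congr 1; ring
    rw [this, ← exp_nat_mul]
    have : ((2 : ℕ) : ℝ) * (Λ / 2) = Λ := by push_cast; ring
    rw [this]; linarith
  have hη : mK / (1 + (T * δ) ^ 2) ≤ mK / cK * rexp (-Λ) * cK := by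
    rw [div_le_iff₀ (by positivity)]
    have h1 : mK / cK * rexp (-Λ) * cK = mK * rexp (-Λ) := by field_simp
    rw [h1]
    have h2 := exp_neg_mul_exp Λ
    calc mK = mK * rexp (-Λ) * rexp Λ := by rw [mul_assoc, h2, mul_one]
      _ ≤ mK * rexp (-Λ) * (1 + (T * δ) ^ 2) := mul_le_mul_of_nonneg_left hTδ2 (by positivity)
  have hδ18 : δ ≤ rexp (-(Λ / 8)) := by rw [hδd, exp_le_exp]; linarith only [hC0, hΛ₁, hΛ₂, hmc, hCpos, hΛ]
  have hη18 : mK / cK * rexp (-Λ) ≤ mK / cK * rexp (-(Λ / 8)) := by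
    apply mul_le_mul_of_nonneg_left _ hmc
    rw [exp_le_exp]; linarith only [hC0, hΛ₁, hΛ₂, hmc, hCpos, hΛ, q1, hδ0, hδ18]
  have hUs : ∀ y, al P 1 σ Λ y ≤ D / s := fun y => by
    have := hU σ Λ y h0 hσ (by linarith only [hC0, hΛ₂, hmc, hCpos, hΛ, q1, hδ0, hδ18])
    rwa [← hs] at this
  have hjreg : ∀ y v : ℝ, |T / cK * JJ P 1 T σ Λ y - T / cK * JJ P 1 T σ Λ (y - v)| ≤
      |v| * (24 / (cK * (s * s))) := by
    intro y v
    rw [← mul_sub, abs_mul, abs_of_pos (by positivity : 0 < T / cK)]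
    have h1 := hJ σ Λ y v h0 hσ (by linarith only [hC0, hΛ₁, hmc, hCpos, hΛ, q1, hδ0, hδ18])
    rw [← hTd, ← hsV] at h1
    calc T / cK * |JJ P 1 T σ Λ y - JJ P 1 T σ Λ (y - v)| ≤ T / cK * (24 * |v| / (T * (s * s))) :=
          mul_le_mul_of_nonneg_left h1 (by positivity)
      _ = _ := by field_simp
  have hη0 : 0 ≤ mK / cK * rexp (-Λ) := by positivity
  have hcmp := hM.SR_cmp (D := D) hT0 hδ0 (hδ18.trans q1) hη0 q2 hη hUs hjreg
  have hz := hcmp z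
  have hzu := hcmp (z - u)
  have hr := hjreg z u
  have htri : |al P 1 σ Λ z - al P 1 σ Λ (z - u)| ≤
      2 * ((4 * δ + mK / cK * rexp (-Λ)) * (D / s) + 24 * δ / (cK * (s * s))) +
        24 * |u| / (cK * (s * s)) := by
    have e : al P 1 σ Λ z - al P 1 σ Λ (z - u) =
        (al P 1 σ Λ z - T / cK * JJ P 1 T σ Λ z) +
        (T / cK * JJ P 1 T σ Λ z - T / cK * JJ P 1 T σ Λ (z - u)) -
        (al P 1 σ Λ (z - u) - T / cK * JJ P 1 T σ Λ (z - u)) := by ring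
    rw [e]
    refine (abs_sub _ _).trans ?_
    refine (add_le_add_left (abs_add_le _ _) _).trans ?_
    have e1 : δ * (24 / (cK * (s * s))) = 24 * δ / (cK * (s * s)) := by ring
    have e2 : |u| * (24 / (cK * (s * s))) = 24 * |u| / (cK * (s * s)) := by ring
    rw [e1] at hz hzu
    rw [e2] at hr
    linarith only [hz, hzu, hr]
  refine htri.trans ?_
  rw [← hs]
  apply SR_fin_arith hD hmc hcK hδ0 (by linarith only [q1, hδ0, hδ18]) hs0 (exp_pos _) (abs_nonneg u) hδ18 hη18 hsinv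
  rw [← hC]
  exact q3

end MDat

end Pool.Agent.MP0016c7.Ros
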