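import Mathlib
import Pool.Agent.Lib.MP_0016c7_nt.RosComb

open Real Set MeasureTheory Filter Topology

namespace Pool.Agent.MP0016c7.Ros

/-- `∑ l_p` -/
noncomputable def T0 (P : ℝ → Finset ℕ) (Λ : ℝ) : ℝ := Sm lg (P Λ)

lemma XX_zero (P : ℝ → Finset ℕ) (Λ : ℝ) : XX P 0 Λ = T0 P Λ / 2 := by
  unfold XX Xm T0 Sm xs
  rw [Finset.sum_div]
  apply Finset.sum_congr rfl
  intro p _
  rw [zero_mul, neg_zero, exp_zero]
  norm_num

/-- complement formula -/
lemma sum_compl (P : Finset ℕ) (f : ℝ → ℝ) (X : ℝ) :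
    ∑ A ∈ P.powerset, f (X - Sm lg A) = ∑ A ∈ P.powerset, f (Sm lg A - (Sm lg P - X)) := by
  classical
  refine Finset.sum_nbij' (fun A => P \ A) (fun A => P \ A) ?_ ?_ ?_ ?_ ?_
  · intro A _
    exact Finset.mem_powerset.mpr Finset.sdiff_subset
  · intro A _
    exact Finset.mem_powerset.mpr Finset.sdiff_subset
  · intro A hA
    exact Finset.sdiff_sdiff_eq_self (Finset.mem_powerset.mp hA)
  · intro A hA
    exact Finset.sdiff_sdiff_eq_self (Finset.mem_powerset.mp hA)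
  · intro A hA
    congr 1
    unfold Sm
    have := Finset.sum_sdiff (Finset.mem_powerset.mp hA) (f := lg)
    linarith only [this]

/-- tilting -/
lemma sum_tilt (P : ℝ → Finset ℕ) (Λ σ X : ℝ) (f : ℝ → ℝ) :
    ∑ A ∈ (P Λ).powerset, f (X - Sm lg A) =
      rexp (σ * X) * (Zt (P Λ) (xs σ) *
        Ef (P Λ) (xs σ) lg (fun s => f (X - s) * rexp (-(σ * (X - s))))) := by
  have hZ := Zt_pos (P := P Λ) fun p => xs_pos σ p
  unfold Ef
  rw [mul_div_assoc', mul_div_cancel_left₀ _ hZ.ne', Finset.mul_sum]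
  apply Finset.sum_congr rfl
  intro A _
  rw [Wt_xs]
  have : rexp (σ * X) * (rexp (-(σ * Sm lg A)) * (f (X - Sm lg A) *
      rexp (-(σ * (X - Sm lg A))))) = (rexp (σ * X) * rexp (-(σ * Sm lg A)) *
      rexp (-(σ * (X - Sm lg A)))) * f (X - Sm lg A) := by ring
  rw [this, ← exp_add, ← exp_add]
  have e : σ * X + -(σ * Sm lg A) + -(σ * (X - Sm lg A)) = 0 := by ring
  rw [e, exp_zero, one_mul]

/-- The same with a mirrored argument. -/
lemma sum_tilt' (P : ℝ → Finset ℕ) (Λ σ W : ℝ) (f : ℝ → ℝ) :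
    ∑ A ∈ (P Λ).powerset, f (Sm lg A - W) =
      rexp (σ * W) * (Zt (P Λ) (xs σ) *
        Ef (P Λ) (xs σ) lg (fun s => f (s - W) * rexp (σ * (s - W)))) := by
  have h := sum_tilt P Λ σ W (fun y => f (-y))
  have e1 : ∀ s : ℝ, -(W - s) = s - W := fun s => by ring
  simp only [e1] at h
  rw [h]
  congr 3
  ext s
  have e2 : -(σ * (W - s)) = σ * (s - W) := by ring
  rw [e2]

end Pool.Agent.MP0016c7.Ros
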