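import Mathlib
import Pool.Agent.Lib.MP_0016c7_nt.CdlPart0
import Pool.Agent.Lib.MP_0016c7_nt.CdlReg
import Pool.Agent.Lib.MP_0016c7_nt.FekTilt

open Real Set MeasureTheory Filter Topology

namespace Pool.Agent.MP0016c7.Ros

variable {N : ℕ} [NeZero N] {χ : DirichletCharacter ℂ N}

/-- the truncated sum of the induced character -/
noncomputable def TT (χ : DirichletCharacter ℂ N) (Λ X : ℝ) : ℝ :=
  Fs (fc χ 0) (iP χ Λ) ⌊rexp X⌋₊

omit [NeZero N] in
lemma fc_zero (n : ℕ) : fc χ 0 n = rchar χ n := by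
  unfold fc xs
  rw [zero_mul, neg_zero, exp_zero, mul_one]

omit [NeZero N] in
lemma Fs_fc_empty (n : ℕ) : Fs (fc χ 0) ∅ n = Sn χ n := by
  rw [Fs_empty]
  unfold Sn
  exact Finset.sum_congr rfl fun k _ => fc_zero k

lemma floor_exp_div {X : ℝ} {A : Finset ℕ} (hA : ∀ p ∈ A, p.Prime) :
    ⌊rexp X⌋₊ / ∏ p ∈ A, p = ⌊rexp (X - Sm lg A)⌋₊ := by
  obtain ⟨h1, h2⟩ := lg_prod hA
  have h0 : (0 : ℝ) < ((∏ p ∈ A, p : ℕ) : ℝ) := by exact_mod_cast h1
  have e : rexp (X - Sm lg A) = rexp X / ((∏ p ∈ A, p : ℕ) : ℝ) := by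
    rw [exp_sub, ← h2]
    congr 1
    unfold lg
    exact exp_log h0
  rw [e, Nat.floor_div_natCast]

lemma TT_sum (h2 : χ ^ 2 = 1) (Λ X : ℝ) :
    TT χ Λ X = ∑ A ∈ (iP χ Λ).powerset, Sn χ ⌊rexp (X - Sm lg A)⌋₊ := by
  unfold TT
  rw [Fs_eq (x := xs 0) (fc_mul h2 0) (fun p hp => iP_prime hp) (fun p hp => by
    rw [fc_zero, ((mem_iP χ).mp hp).2.1]; simp [xs])]
  apply Finset.sum_congr rfl
  intro A hA
  rw [Finset.mem_powerset] at hA
  rw [Fs_fc_empty, floor_exp_div fun p hp => iP_prime (hA hp), Wt_xs, zero_mul, neg_zero,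
    exp_zero, one_mul]

theorem TT_tilt (h2 : χ ^ 2 = 1) (s Λ X : ℝ) :
    TT χ Λ X = rexp (s * X) * (Zt (iP χ Λ) (xs s) *
      Ef (iP χ Λ) (xs s) lg (fun S => Sy χ s (X - S))) := by
  rw [TT_sum h2, sum_tilt (iP χ) Λ s X (fun y => Sn χ ⌊rexp y⌋₊)]
  rfl

lemma TT_pos_of (h2 : χ ^ 2 = 1) {s Λ X : ℝ}
    (h : 0 < Ef (iP χ Λ) (xs s) lg (fun S => Sy χ s (X - S))) : 0 < TT χ Λ X := by
  rw [TT_tilt h2 s]
  exact mul_pos (exp_pos _) (mul_pos (Zt_pos fun p => xs_pos s p) h)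

variable {P : ℝ → Finset ℕ}

/-- mass of a half line -/
lemma mass_half (P : ℝ → Finset ℕ) {s Λ X β D : ℝ} (hs : 0 ≤ s) (hs1 : s ≤ 1) (hβ : 0 ≤ β)
    (hD : ∀ z, al P 1 s Λ z ≤ D) :
    s * Ef (P Λ) (xs s) lg (fun S => if β ≤ X - S then rexp (-(s * (X - S))) else 0) ≤
      D * rexp (-(s * β)) := by
  have hD0 : 0 ≤ D := (al_nonneg P 1 s Λ 0).trans (hD 0)
  set β' := max (X + 1) β with hβ'
  have hle : β ≤ β' := le_max_right _ _
  have hβ0 : 0 ≤ β' := hβ.trans hle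
  have h1 : Ef (P Λ) (xs s) lg (fun S => if β ≤ X - S then rexp (-(s * (X - S))) else 0) ≤
      Bq P s Λ X β β' := by
    unfold Bq
    apply Ef_mono_nonneg (fun p => xs_pos s p) lg_nonneg
    intro S hS
    by_cases h : β ≤ X - S
    · rw [if_pos h, if_pos ⟨h, by
        have : X + 1 ≤ β' := le_max_left _ _
        linarith⟩]
    · rw [if_neg h]
      split_ifs <;> positivity
  have h2 : s * Bq P s Λ X β β' ≤ D * rexp (-(s * β)) := by
    rw [Bq_eq P s Λ X hle]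
    have a1 := hD (X - β)
    have a2 := al_nonneg P 1 s Λ (X - β')
    have h3 : ∫ u in β..β', rexp (-(s * u)) * al P 1 s Λ (X - u) ≤
        D * ∫ u in β..β', rexp (-(s * u)) := by
      rw [← intervalIntegral.integral_const_mul]
      apply intervalIntegral.integral_mono_on hle (intervalIntegrable_al P s Λ X β β')
      · apply Continuous.intervalIntegrable; fun_prop
      · intro u _
        rw [mul_comm]
        exact mul_le_mul_of_nonneg_right (hD _) (exp_pos _).le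
    have h4 := exp_int_formula s β β'
    have h5 : s * ∫ u in β..β', rexp (-(s * u)) = rexp (-(s * β)) - rexp (-(s * β')) := by
      linarith
    have e0 : 0 < rexp (-(s * β)) := exp_pos _
    have e1 : 0 < rexp (-(s * β')) := exp_pos _
    have b1 : rexp (-(s * β)) * al P 1 s Λ (X - β) ≤ rexp (-(s * β)) * D :=
      mul_le_mul_of_nonneg_left a1 e0.le
    have b2 : 0 ≤ rexp (-(s * β')) * al P 1 s Λ (X - β') := mul_nonneg e1.le a2
    have b3 : (1 - s) * ∫ u in β..β', rexp (-(s * u)) * al P 1 s Λ (X - u) ≤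
        (1 - s) * (D * ∫ u in β..β', rexp (-(s * u))) :=
      mul_le_mul_of_nonneg_left h3 (by linarith)
    have b4 : rexp (-(s * β)) * al P 1 s Λ (X - β) - rexp (-(s * β')) * al P 1 s Λ (X - β') +
        (1 - s) * ∫ u in β..β', rexp (-(s * u)) * al P 1 s Λ (X - u) ≤
        D * rexp (-(s * β)) + (1 - s) * (D * ∫ u in β..β', rexp (-(s * u))) := by linarith
    refine (mul_le_mul_of_nonneg_left b4 hs).trans ?_
    have b5 : s * (D * rexp (-(s * β)) + (1 - s) * (D * ∫ u in β..β', rexp (-(s * u)))) =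
        D * (s * rexp (-(s * β)) + (1 - s) * (rexp (-(s * β)) - rexp (-(s * β')))) := by
      rw [← h5]; ring
    rw [b5]
    apply mul_le_mul_of_nonneg_left _ hD0
    nlinarith only [hs1, e1]
  exact (mul_le_mul_of_nonneg_left h1 hs).trans h2

/-- mass of an interval of length at most `w` -/
lemma mass_window (P : ℝ → Finset ℕ) {s Λ X D : ℝ} (hD : ∀ z, al P 1 s Λ z ≤ D) (z w : ℝ)
    (hw : 0 ≤ w) :
    Ef (P Λ) (xs s) lg (fun S => if z ≤ X - S ∧ X - S ≤ z + w then 1 else 0) ≤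
      (w + 1) * (rexp 1 * D) := by
  classical
  have hD0 : 0 ≤ D := (al_nonneg P 1 s Λ 0).trans (hD 0)
  set n := ⌊w⌋₊ with hn
  have h1 : Ef (P Λ) (xs s) lg (fun S => if z ≤ X - S ∧ X - S ≤ z + w then 1 else 0) ≤
      Ef (P Λ) (xs s) lg (fun S => ∑ j ∈ Finset.range (n + 1), rexp 1 * kt 1 (X - (z + j) - S)) := by
    apply Ef_mono (fun p => xs_pos s p)
    intro S
    have hnn : ∀ j ∈ Finset.range (n + 1), 0 ≤ rexp 1 * kt 1 (X - (z + j) - S) := fun j _ =>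
      mul_nonneg (exp_pos _).le (kt_nonneg _ _)
    split_ifs with h
    · obtain ⟨h1, h2⟩ := h
      set j := ⌊X - S - z⌋₊ with hj
      have hy0 : 0 ≤ X - S - z := by linarith
      have hj1 : (j : ℝ) ≤ X - S - z := Nat.floor_le hy0
      have hj2 : X - S - z < j + 1 := Nat.lt_floor_add_one _
      have hjn : j ≤ n := Nat.floor_le_floor (by linarith)
      refine le_trans ?_ (Finset.single_le_sum hnn (Finset.mem_range.mpr (by omega : j < n + 1)))
      rw [kt_of_nonneg (by linarith), ← exp_add]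
      apply one_le_exp
      linarith
    · exact Finset.sum_nonneg hnn
  refine h1.trans ?_
  have h2 : Ef (P Λ) (xs s) lg (fun S => ∑ j ∈ Finset.range (n + 1),
      rexp 1 * kt 1 (X - (z + j) - S)) =
      ∑ j ∈ Finset.range (n + 1), rexp 1 * al P 1 s Λ (X - (z + j)) := by
    rw [Ef_sum (P := P Λ) (x := xs s) (l := lg) (Finset.range (n + 1)) (fun _ => rexp 1)
      (fun (j : ℕ) S => kt 1 (X - (z + j) - S))]
    rfl
  rw [h2]
  calc _ ≤ ∑ _j ∈ Finset.range (n + 1), rexp 1 * D :=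
        Finset.sum_le_sum fun j _ => mul_le_mul_of_nonneg_left (hD _) (exp_pos _).le
    _ = (n + 1) * (rexp 1 * D) := by
        rw [Finset.sum_const, Finset.card_range, nsmul_eq_mul]; push_cast; ring
    _ ≤ (w + 1) * (rexp 1 * D) := by
        apply mul_le_mul_of_nonneg_right _ (by positivity)
        have := Nat.floor_le hw
        linarith

/-- splitting at `lg (M + 1)` -/
lemma Ef_Sy_split (P : ℝ → Finset ℕ) (s Λ X : ℝ) (M : ℕ) :
    Ef (P Λ) (xs s) lg (fun S => Sy χ s (X - S)) = P0 χ P s Λ X M +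
      Ef (P Λ) (xs s) lg (fun S => if lg (M + 1) ≤ X - S then Sy χ s (X - S) else 0) := by
  unfold P0
  rw [← Ef_add]
  congr 1
  ext S
  by_cases h : X - S < lg (M + 1)
  · rw [if_pos h, if_neg (not_le.mpr h), add_zero]
  · rw [if_neg h, if_pos (not_lt.mp h), zero_add]

lemma abs_Sy_le (hne : χ ≠ 1) (s y : ℝ) : |Sy χ s y| ≤ N * rexp (-(s * y)) := by
  unfold Sy
  rw [abs_mul, abs_of_pos (exp_pos _)]
  exact mul_le_mul_of_nonneg_right (abs_Sn_le hne _) (exp_pos _).le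

/-- the cut -/
noncomputable def Mc (Λ : ℝ) : ℕ := ⌊rexp (Λ / 40)⌋₊

lemma Mc_bounds {Λ : ℝ} (hΛ : 0 ≤ Λ) : (Mc Λ : ℝ) ≤ rexp (Λ / 40) ∧ Λ / 40 ≤ lg (Mc Λ + 1) ∧
    lg (Mc Λ + 1) ≤ Λ / 40 + 1 := by
  have h1 : (Mc Λ : ℝ) ≤ rexp (Λ / 40) := Nat.floor_le (exp_pos _).le
  have h2 : rexp (Λ / 40) < Mc Λ + 1 := Nat.lt_floor_add_one _
  have h0 : (0 : ℝ) < ((Mc Λ + 1 : ℕ) : ℝ) := by positivity
  refine ⟨h1, ?_, ?_⟩
  · unfold lg
    rw [Real.le_log_iff_exp_le h0]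
    push_cast
    exact h2.le
  · unfold lg
    rw [Real.log_le_iff_le_exp h0, exp_add]
    push_cast
    have h3 : 1 ≤ rexp (Λ / 40) := one_le_exp (by positivity)
    have h4 := Real.exp_one_gt_d9
    nlinarith only [h1, h3, h4]

lemma mid_arith {c v ℓ G J P₀ R E' L s n D e : ℝ} (hc : 0 < c) (hv : 0 < v) (hℓ : 0 < ℓ)
    (hn : 0 ≤ n) (hD : 0 ≤ D) (he : 0 < e) (hs : 0 < s) (hs1 : s ≤ 1) (hG : c / v ≤ G)
    (hP : |P₀ - G * J| ≤ E') (hE : E' ≤ c * ℓ / 4 / v) (hJ : |s * J - L| ≤ 2 * (n * e))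
    (hL : ℓ ≤ L) (hk : (2 * n * c + n * D + 1) * e ≤ c * ℓ / 4) (hR : |s * R| ≤ n * (D / v * e)) :
    0 < s * (P₀ + R) := by
  have hG0 : 0 ≤ G := le_trans (by positivity) hG
  have w1 := (abs_le.mp hP).1
  have w2 := (abs_le.mp hJ).1
  have w0 : 0 ≤ n * D * e := by positivity
  have w5 : 0 ≤ ℓ - 2 * (n * e) := by
    have w8 : c * (2 * (n * e)) ≤ c * ℓ := by
      have : 0 < c * ℓ := by positivity
      linarith only [he, hk, w0, this]
    have := le_of_mul_le_mul_left w8 hc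
    linarith
  have w9 : c / v * (ℓ - 2 * (n * e)) ≤ G * (s * J) :=
    mul_le_mul hG (by linarith only [hL, w2]) w5 hG0
  have hE0 : 0 ≤ E' := (abs_nonneg _).trans hP
  have w10 : s * E' ≤ 1 * (c * ℓ / 4 / v) := mul_le_mul hs1 hE hE0 zero_le_one
  have w11 : s * -E' ≤ s * (P₀ - G * J) := mul_le_mul_of_nonneg_left w1 hs.le
  have k2 := (abs_le.mp hR).1
  have w12 : c / v * (ℓ - 2 * (n * e)) - c * ℓ / 4 / v - n * (D / v * e) =
      (c * ℓ - c * ℓ / 4 - (2 * n * c + n * D) * e) / v := by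
    field_simp
    ring
  have w13 : 0 < (c * ℓ - c * ℓ / 4 - (2 * n * c + n * D) * e) / v := by
    apply div_pos _ hv
    have : 0 < c * ℓ := by positivity
    linarith only [he, hk, this]
  have e1 : s * (P₀ - G * J) = s * P₀ - G * (s * J) := by ring
  rw [e1] at w11
  rw [mul_add]
  linarith only [w9, w10, w11, k2, w12, w13]

/-- **Medium tilts.** -/
theorem mid_range (hne : χ ≠ 1) (h2 : χ ^ 2 = 1) {ℓ : ℝ} (hℓ : 0 < ℓ)
    (hL : ∀ s, 0 ≤ s → s ≤ 1 → ℓ ≤ Lr χ s) :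
    ∃ K : ℝ, 0 < K ∧ ∃ Λ₀ : ℝ, 1 ≤ Λ₀ ∧ ∀ s Λ : ℝ, Λ₀ ≤ Λ → K / Λ ≤ s → s ≤ 1 / 2 →
      0 < TT χ Λ (XX (iP χ) s Λ) := by
  obtain ⟨C₀, C₁, Cs, hM⟩ := exists_mdat χ h2 hne
  obtain ⟨D, hD, Λ₁, hΛ₁, hU⟩ := hM.UB0
  obtain ⟨c, hc, Λ₂, hΛ₂, hLB⟩ := hM.LB0
  obtain ⟨Λ₃, hΛ₃, hSR⟩ := hM.SR
  have hN : (0 : ℝ) ≤ N := Nat.cast_nonneg N
  -- the constant K
  set a := c * ℓ / 4 / (2 * N * c + N * D + 1) with ha
  have hden : 0 < 2 * N * c + N * D + 1 := by (clear * - hc hD; positivity)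
  have ha0 : 0 < a := by (clear * - hc hℓ hD; positivity)
  obtain ⟨K, hK0, hK⟩ : ∃ K : ℝ, 0 < K ∧ rexp (-(K / 40)) ≤ a := by
    refine ⟨max 1 (-40 * Real.log a), by positivity, ?_⟩
    rw [← Real.le_log_iff_exp_le ha0]
    have := le_max_right 1 (-40 * Real.log a)
    linarith only [this]
  -- large Λ
  have hev : ∀ᶠ Λ : ℝ in atTop, rexp (Λ / 40) * (2 * (1 + (Λ / 40 + 1)) ^ 2 * rexp (-(Λ / 10))) <
      c * ℓ / 4 := by
    have h1 : Tendsto (fun Λ : ℝ => rexp (Λ / 40) * (2 * (1 + (Λ / 40 + 1)) ^ 2 *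
        rexp (-(Λ / 10)))) atTop (𝓝 0) := by
      have h2 := (tendsto_pow_mul_exp_neg_atTop_nhds_zero 2).comp
        (tendsto_id.atTop_div_const (by norm_num : (0 : ℝ) < 40))
      have h3 := (tendsto_pow_mul_exp_neg_atTop_nhds_zero 1).comp
        (tendsto_id.atTop_div_const (by norm_num : (0 : ℝ) < 40))
      have h4 := (tendsto_pow_mul_exp_neg_atTop_nhds_zero 0).comp
        (tendsto_id.atTop_div_const (by norm_num : (0 : ℝ) < 40))
      have h5 := ((h2.const_mul 2).add (h3.const_mul 8)).add (h4.const_mul 8)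
      simp only [mul_zero, add_zero] at h5
      have hup : ∀ᶠ Λ : ℝ in atTop, rexp (Λ / 40) * (2 * (1 + (Λ / 40 + 1)) ^ 2 *
          rexp (-(Λ / 10))) ≤ 2 * ((fun x => x ^ 2 * rexp (-x)) ∘ fun x => id x / 40) Λ +
          8 * ((fun x => x ^ 1 * rexp (-x)) ∘ fun x => id x / 40) Λ +
          8 * ((fun x => x ^ 0 * rexp (-x)) ∘ fun x => id x / 40) Λ := by
        filter_upwards [eventually_ge_atTop 0] with Λ h0
        simp only [Function.comp_apply, id]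
        have e : rexp (Λ / 40) * (2 * (1 + (Λ / 40 + 1)) ^ 2 * rexp (-(Λ / 10))) =
            (2 * (Λ / 40) ^ 2 + 8 * (Λ / 40) + 8) * (rexp (Λ / 40) * rexp (-(Λ / 10))) := by ring
        have e2 : rexp (Λ / 40) * rexp (-(Λ / 10)) ≤ rexp (-(Λ / 40)) := by
          rw [← exp_add, exp_le_exp]; linarith only [h0]
        rw [e]
        calc _ ≤ (2 * (Λ / 40) ^ 2 + 8 * (Λ / 40) + 8) * rexp (-(Λ / 40)) :=
              mul_le_mul_of_nonneg_left e2 (by (clear * - h0; positivity))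
          _ = _ := by ring
      refine squeeze_zero' ?_ hup h5
      filter_upwards [eventually_ge_atTop 0] with Λ h0
      positivity
    exact h1.eventually (gt_mem_nhds (by positivity))
  obtain ⟨Λ₄, hΛ₄⟩ := hev.exists_forall_of_atTop
  have hC0 := hM.C0
  refine ⟨K, hK0, Λ₁ + Λ₂ + Λ₃ + |Λ₄| + 16 * C₀, by
    have := abs_nonneg Λ₄
    linarith, fun s Λ hΛ hsK hs12 => ?_⟩
  have hab := abs_nonneg Λ₄
  have hab2 := le_abs_self Λ₄
  have hΛ1 : 1 ≤ Λ := by linarith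
  have hΛ0 : 0 < Λ := by linarith
  have hs0 : 0 < s := lt_of_lt_of_le (by positivity) hsK
  have hVpos := hM.VV_pos hs0.le (by linarith : s ≤ 1) (by linarith) hΛ0
  set X := XX (iP χ) s Λ with hX
  obtain ⟨v, hv⟩ : ∃ v, v = √(VV (iP χ) s Λ) := ⟨_, rfl⟩
  have hv0 : 0 < v := by rw [hv]; exact sqrt_pos.mpr hVpos
  set G := al (iP χ) 1 s Λ X with hG
  have hGc : c / v ≤ G := by
    have := hLB s Λ X hs0.le hs12 (by linarith only [hΛ₁, hΛ₃, hC0, hΛ, hs12, hab, hs0]) (by rw [← hX, sub_self, abs_zero]; norm_num)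
    rwa [← hv] at this
  have hUs : ∀ z, al (iP χ) 1 s Λ z ≤ D / v := fun z => by
    have := hU s Λ z hs0.le hs12 (by linarith)
    rwa [← hv] at this
  set E₁ := rexp (-(Λ / 10)) / v with hE₁
  have hE0 : 0 ≤ E₁ := by positivity
  obtain ⟨m1, m2, m3⟩ := Mc_bounds hΛ0.le
  set M := Mc Λ with hMc
  set β := lg (M + 1) with hβ
  have hβ0 : 0 ≤ β := lg_nonneg _
  have hsr : ∀ u, 0 ≤ u → u ≤ β → |al (iP χ) 1 s Λ (X - u) - al (iP χ) 1 s Λ X| ≤
      (1 + u) * E₁ := by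
    intro u hu _
    have := hSR s Λ X u hs0.le hs12 (by linarith only [hΛ₁, hΛ₂, hC0, hΛ, hs12, hab, hs0])
    rw [abs_of_nonneg hu, ← hv] at this
    rw [abs_sub_comm]
    refine this.trans (le_of_eq ?_)
    rw [hE₁]; ring
  have hP0 := P0_near h2 (iP χ) hs0.le (by linarith only [hs12, hs0] : s ≤ 1) hE0 hsr
  rw [← hG] at hP0
  have hJ := Jq_Lr hne h2 hs0 M
  have hLs := hL s hs0.le (by linarith)
  -- the exponential factor
  have hxb : xs s (M + 1) ≤ a := by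
    refine le_trans ?_ hK
    unfold xs
    rw [exp_le_exp, neg_le_neg_iff]
    rw [div_le_iff₀ hΛ0] at hsK
    have : s * (Λ / 40) ≤ s * β := mul_le_mul_of_nonneg_left m2 hs0.le
    linarith only [hsK, this]
  set e := xs s (M + 1) with he
  have he0 : 0 < e := xs_pos _ _
  have hebeta : rexp (-(s * β)) = e := rfl
  -- tail
  have htail : |s * Ef (iP χ Λ) (xs s) lg (fun S => if β ≤ X - S then Sy χ s (X - S) else 0)| ≤
      N * (D / v * e) := by
    rw [abs_mul, abs_of_pos hs0]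
    have q1 := abs_Ef_le (P := iP χ Λ) (l := lg) (fun p => xs_pos s p)
      (fun S => if β ≤ X - S then Sy χ s (X - S) else 0)
    have q2 : Ef (iP χ Λ) (xs s) lg (fun S => |if β ≤ X - S then Sy χ s (X - S) else 0|) ≤
        Ef (iP χ Λ) (xs s) lg (fun S => N * (if β ≤ X - S then rexp (-(s * (X - S))) else 0)) := by
      apply Ef_mono (fun p => xs_pos s p)
      intro S
      split_ifs
      · exact abs_Sy_le hne s _
      · simp
    rw [Ef_const_mul] at q2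
    have q3 := mass_half (iP χ) (X := X) (β := β) hs0.le (by linarith only [hs12, hs0]) hβ0 hUs
    rw [hebeta] at q3
    calc s * |Ef (iP χ Λ) (xs s) lg (fun S => if β ≤ X - S then Sy χ s (X - S) else 0)| ≤
          s * (N * Ef (iP χ Λ) (xs s) lg
            (fun S => if β ≤ X - S then rexp (-(s * (X - S))) else 0)) :=
          mul_le_mul_of_nonneg_left (q1.trans q2) hs0.le
      _ = N * (s * Ef (iP χ Λ) (xs s) lg
            (fun S => if β ≤ X - S then rexp (-(s * (X - S))) else 0)) := by ring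
      _ ≤ _ := mul_le_mul_of_nonneg_left q3 hN
  apply TT_pos_of h2 (s := s)
  rw [Ef_Sy_split (iP χ) s Λ X M]
  set P₀ := P0 χ (iP χ) s Λ X M with hP₀
  set R := Ef (iP χ Λ) (xs s) lg (fun S => if β ≤ X - S then Sy χ s (X - S) else 0) with hR
  have w3 : (M : ℝ) * (2 * (1 + β) ^ 2 * E₁) ≤ c * ℓ / 4 / v := by
    have w4 := (hΛ₄ Λ (by linarith only [hΛ₁, hΛ₂, hΛ₃, hC0, hΛ, hs12, hab2, hs0])).le
    calc (M : ℝ) * (2 * (1 + β) ^ 2 * E₁) = (M * (2 * (1 + β) ^ 2 * rexp (-(Λ / 10)))) / v := by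
          rw [hE₁]; ring
      _ ≤ (rexp (Λ / 40) * (2 * (1 + (Λ / 40 + 1)) ^ 2 * rexp (-(Λ / 10)))) / v := by
          apply div_le_div_of_nonneg_right _ hv0.le
          apply mul_le_mul m1 _ (by positivity) (exp_pos _).le
          apply mul_le_mul_of_nonneg_right _ (exp_pos _).le
          apply mul_le_mul_of_nonneg_left _ (by norm_num)
          apply pow_le_pow_left₀ (by linarith only [hΛ₁, hΛ₂, hΛ₃, hC0, hΛ, hs12, hab, hs0, m2])
          linarith only [m3]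
      _ ≤ _ := div_le_div_of_nonneg_right w4 hv0.le
  have w6 : (2 * N * c + N * D + 1) * e ≤ c * ℓ / 4 := by
    have := mul_le_mul_of_nonneg_left hxb hden.le
    refine this.trans (le_of_eq ?_)
    rw [ha]; field_simp
  have k3 := mid_arith hc hv0 hℓ hN hD.le he0 hs0 (by linarith only [hs12, hs0]) hGc hP0 w3 hJ hLs w6 htail
  exact pos_of_mul_pos_right k3 hs0.le

end Pool.Agent.MP0016c7.Ros
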