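import Mathlib
import Pool.Agent.Lib.MP_0016c7_nt.CdlBlk

open Real

namespace Pool.Agent.MP0016c7.Ros

section Op

variable {E : Type*} [NormedAddCommGroup E] [NormedSpace ℝ E]

/-- averaging over the removal of a block prime -/
noncomputable def Op (P : Finset ℕ) (x ω : ℕ → ℝ) (J : ℝ) (F : Finset ℕ → E) (A : Finset ℕ) : E :=
  J⁻¹ • ∑ p ∈ P, (ω p * (if p ∈ A then ww x p else 0)) • F (A.erase p)

variable {P : Finset ℕ} {x ω : ℕ → ℝ} {N J wm ε : ℝ}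

lemma Wb_nonneg (hx : ∀ p, 0 < x p) (hb : Blk P ω N J wm ε) (hJ : 0 < J) (A : Finset ℕ) :
    0 ≤ Wb P x ω J A := by
  unfold Wb
  apply div_nonneg _ hJ.le
  apply Finset.sum_nonneg
  intro p _
  have := hb.nn p
  have := hx p
  split_ifs <;> positivity

lemma Wb_le_two (hx1 : ∀ p ∈ P, x p ≤ 1) (hx : ∀ p, 0 < x p) (hb : Blk P ω N J wm ε)
    (hJ : 0 < J) (A : Finset ℕ) : Wb P x ω J A ≤ 2 := by
  unfold Wb
  rw [div_le_iff₀ hJ, ← hb.sum, Finset.mul_sum]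
  apply Finset.sum_le_sum
  intro p hp
  have h1 := hb.nn p
  have h2 := hx1 p hp
  have h3 := hx p
  split_ifs
  · rw [mul_zero, mul_zero]; positivity
  · rw [mul_one, mul_comm]
    exact mul_le_mul_of_nonneg_right (by linarith) h1

lemma EE_Op (hx : ∀ p, 0 < x p) (F : Finset ℕ → E) :
    EE P x (Op P x ω J F) = EE P x (fun A => Wb P x ω J A • F A) := by
  have h1 : ∀ p ∈ P, EE P x (fun A => (ω p * (if p ∈ A then ww x p else 0)) • F (A.erase p)) =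
      EE P x (fun A => (ω p * ((1 + x p) * (if p ∈ A then 0 else 1))) • F A) := by
    intro p hp
    have h2 := EE_erase hx hp F
    have e1 : (fun A : Finset ℕ => (ω p * (if p ∈ A then ww x p else 0)) • F (A.erase p)) =
        fun A => ω p • (if p ∈ A then ((1 + x p) / x p) • F (A.erase p) else 0) := by
      ext A
      unfold ww
      split_ifs
      · rw [mul_smul]
      · simp
    have e2 : (fun A : Finset ℕ => (ω p * ((1 + x p) * (if p ∈ A then 0 else 1))) • F A) =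
        fun A => ω p • (if p ∈ A then 0 else (1 + x p) • F A) := by
      ext A
      split_ifs
      · simp
      · rw [mul_smul, mul_one]
    rw [e1, e2, EE_smul, EE_smul, h2]
  unfold Op
  rw [EE_smul, EE_sum, Finset.sum_congr rfl h1, ← EE_sum, ← EE_smul]
  congr 1
  ext A
  unfold Wb
  rw [← Finset.sum_smul, smul_smul, div_eq_inv_mul]

lemma norm_Op_le (hx : ∀ p, 0 < x p) (hb : Blk P ω N J wm ε) (hJ : 0 < J) (F : Finset ℕ → E)
    (A : Finset ℕ) : ‖Op P x ω J F A‖ ≤ Op P x ω J (fun A => ‖F A‖) A := by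
  unfold Op
  rw [norm_smul, Real.norm_eq_abs, abs_of_pos (inv_pos.mpr hJ), smul_eq_mul]
  apply mul_le_mul_of_nonneg_left _ (inv_pos.mpr hJ).le
  refine (norm_sum_le _ _).trans (Finset.sum_le_sum fun p _ => ?_)
  have h1 : 0 ≤ ω p * (if p ∈ A then ww x p else 0) := by
    have := hb.nn p
    have := hx p
    unfold ww
    split_ifs <;> positivity
  rw [norm_smul, Real.norm_eq_abs, abs_of_nonneg h1, smul_eq_mul]

lemma Op_le {wb : ℝ} (hwb : 0 ≤ wb) (hw : ∀ p ∈ P, ww x p ≤ wb) (hx : ∀ p, 0 < x p)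
    (hb : Blk P ω N J wm ε) (hJ : 0 < J) {F : Finset ℕ → ℝ} {B : ℝ} (hB : 0 ≤ B)
    {A : Finset ℕ} (hF : ∀ p ∈ P, p ∈ A → F (A.erase p) ≤ B) :
    Op P x ω J F A ≤ wb * B := by
  unfold Op
  rw [smul_eq_mul, inv_mul_le_iff₀ hJ]
  have h1 : ∀ p ∈ P, (ω p * (if p ∈ A then ww x p else 0)) • F (A.erase p) ≤
      (wb * B) * ω p := by
    intro p hp
    have h2 := hb.nn p
    have h3 : 0 < ww x p := by unfold ww; have := hx p; positivity
    have h4 := hw p hp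
    rw [smul_eq_mul]
    split_ifs with h
    · calc ω p * ww x p * F (A.erase p) ≤ ω p * ww x p * B :=
            mul_le_mul_of_nonneg_left (hF p hp h) (by positivity)
        _ ≤ ω p * wb * B := by
            apply mul_le_mul_of_nonneg_right _ hB
            exact mul_le_mul_of_nonneg_left h4 h2
        _ = _ := by ring
    · rw [mul_zero, zero_mul]; positivity
  refine (Finset.sum_le_sum h1).trans (le_of_eq ?_)
  rw [← Finset.mul_sum, hb.sum]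
  ring

/-- one averaging step -/
lemma EE_sub_Op_le (hx : ∀ p, 0 < x p) (hx1 : ∀ p ∈ P, x p ≤ 1) (hb : Blk P ω N J wm ε)
    (hJ : 0 < J) {η B : ℝ} (hη : 0 ≤ η) (F : Finset ℕ → E) (hF : ∀ A, A ⊆ P → ‖F A‖ ≤ B)
    (hB : 0 ≤ B) (G : Finset ℕ → Prop) (hG : ∀ A, A ⊆ P → G A → |Wb P x ω J A - 1| ≤ η) :
    ‖EE P x F - EE P x (Op P x ω J F)‖ ≤
      η * EE P x (fun A => ‖F A‖) + B * Pr P x (fun A => ¬ G A) := by
  classical
  rw [EE_Op hx, ← EE_sub]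
  refine (norm_EE_le hx _).trans ?_
  unfold Pr
  rw [← EE_mul, ← EE_mul, ← EE_add]
  apply EE_mono hx
  intro A hA
  have h1 : F A - Wb P x ω J A • F A = (1 - Wb P x ω J A) • F A := by
    rw [sub_smul, one_smul]
  rw [h1, norm_smul, Real.norm_eq_abs, abs_sub_comm]
  have hn := norm_nonneg (F A)
  by_cases h : G A
  · have := hG A hA h
    rw [if_neg (not_not.mpr h), mul_zero, add_zero]
    exact mul_le_mul_of_nonneg_right this hn
  · rw [if_pos h, mul_one]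
    have h2 := Wb_nonneg hx hb hJ A
    have h3 := Wb_le_two hx1 hx hb hJ A
    have h4 : |Wb P x ω J A - 1| ≤ 1 := by rw [abs_le]; constructor <;> linarith
    have h5 := hF A hA
    calc |Wb P x ω J A - 1| * ‖F A‖ ≤ 1 * ‖F A‖ := mul_le_mul_of_nonneg_right h4 hn
      _ ≤ B := by rw [one_mul]; exact h5
      _ ≤ _ := by have : 0 ≤ η * ‖F A‖ := by positivity
                  linarith

lemma EE_Op_norm_le (hx : ∀ p, 0 < x p) (hx1 : ∀ p ∈ P, x p ≤ 1) (hb : Blk P ω N J wm ε)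
    (hJ : 0 < J) {η B : ℝ} (hη : 0 ≤ η) (F : Finset ℕ → E) (hF : ∀ A, A ⊆ P → ‖F A‖ ≤ B)
    (hB : 0 ≤ B) (G : Finset ℕ → Prop) (hG : ∀ A, A ⊆ P → G A → |Wb P x ω J A - 1| ≤ η) :
    EE P x (fun A => ‖Op P x ω J F A‖) ≤
      (1 + η) * EE P x (fun A => ‖F A‖) + B * Pr P x (fun A => ¬ G A) := by
  have h1 : EE P x (fun A => ‖Op P x ω J F A‖) ≤ EE P x (Op P x ω J (fun A => ‖F A‖)) :=
    EE_mono hx fun A _ => norm_Op_le hx hb hJ F A
  have h2 := EE_sub_Op_le hx hx1 hb hJ hη (fun A => ‖F A‖) (B := B)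
    (fun A hA => by rw [norm_norm]; exact hF A hA) hB G hG
  simp only [norm_norm] at h2
  rw [Real.norm_eq_abs] at h2
  have h3 := (abs_le.mp h2).1
  linarith

end Op

section E1

variable {P : Finset ℕ} {x ω₁ ω₂ : ℕ → ℝ} {N₁ N₂ J₁ J₂ wm₁ wm₂ ε₁ ε₂ : ℝ}

/-- the bilinear exponential sum -/
noncomputable def Bl (P : Finset ℕ) (ω₁ ω₂ : ℕ → ℝ) (J₁ J₂ t : ℝ) : ℂ :=
  (∑ p₂ ∈ P, ∑ p₁ ∈ P, ((ω₂ p₂ * ω₁ p₁ : ℝ) : ℂ) * eu (p₁ * (p₂ * t))) / ((J₂ * J₁ : ℝ) : ℂ)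

lemma norm_Bl_le_one (h1 : Blk P ω₁ N₁ J₁ wm₁ ε₁) (h2 : Blk P ω₂ N₂ J₂ wm₂ ε₂)
    (hJ₁ : 0 < J₁) (hJ₂ : 0 < J₂) (t : ℝ) : ‖Bl P ω₁ ω₂ J₁ J₂ t‖ ≤ 1 := by
  unfold Bl
  rw [norm_div, Complex.norm_real, Real.norm_eq_abs, abs_of_pos (by positivity),
    div_le_one (by positivity)]
  refine (norm_sum_le _ _).trans ?_
  rw [← h2.sum, ← h1.sum, Finset.sum_mul_sum]
  apply Finset.sum_le_sum
  intro p₂ _
  refine (norm_sum_le _ _).trans ?_
  apply Finset.sum_le_sum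
  intro p₁ _
  rw [norm_mul, norm_eu, mul_one, Complex.norm_real, Real.norm_eq_abs, abs_of_nonneg]
  exact mul_nonneg (h2.nn _) (h1.nn _)

/-- random block sum against the full one -/
lemma norm_blk_sub {ω : ℕ → ℝ} {J η : ℝ} (hJ : 0 < J) {A : Finset ℕ} (hG : Gd P x ω J η A)
    (t : ℝ) : ‖∑ p ∈ P, ((ω p * (ww x p * (if p ∈ A then 1 else 0) - 1) : ℝ) : ℂ) *
      eu (p * t)‖ ≤ 2 * η * J := by
  obtain ⟨g1, g2⟩ := hG.2 t
  unfold Ub at g1 g2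
  rw [abs_div, abs_of_pos hJ, div_le_iff₀ hJ] at g1 g2
  refine (Complex.norm_le_abs_re_add_abs_im _).trans ?_
  rw [Complex.re_sum, Complex.im_sum]
  have e1 : ∀ p ∈ P, (((ω p * (ww x p * (if p ∈ A then 1 else 0) - 1) : ℝ) : ℂ) *
      eu (p * t)).re = ω p * (ww x p * (if p ∈ A then 1 else 0) - 1) * cos (2 * π * (p * t)) := by
    intro p _
    rw [Complex.re_ofReal_mul, eu_re]
  have e2 : ∀ p ∈ P, (((ω p * (ww x p * (if p ∈ A then 1 else 0) - 1) : ℝ) : ℂ) *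
      eu (p * t)).im = ω p * (ww x p * (if p ∈ A then 1 else 0) - 1) * sin (2 * π * (p * t)) := by
    intro p _
    rw [Complex.im_ofReal_mul, eu_im]
  rw [Finset.sum_congr rfl e1, Finset.sum_congr rfl e2]
  linarith

/-- total weight of the block primes in `A` -/
lemma blk_mass_le {ω : ℕ → ℝ} {J η : ℝ} (hJ : 0 < J) (hs : ∑ p ∈ P, ω p = J) {A : Finset ℕ}
    (hG : Gd P x ω J η A) :
    ∑ p ∈ P, ω p * (if p ∈ A then ww x p else 0) ≤ (1 + η) * J := by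
  obtain ⟨g1, -⟩ := hG.2 0
  unfold Ub at g1
  rw [abs_div, abs_of_pos hJ, div_le_iff₀ hJ] at g1
  have g2 := (abs_le.mp g1).2
  have e : ∑ p ∈ P, ω p * (ww x p * (if p ∈ A then 1 else 0) - 1) * cos (2 * π * (p * 0)) =
      ∑ p ∈ P, ω p * (if p ∈ A then ww x p else 0) - ∑ p ∈ P, ω p := by
    rw [← Finset.sum_sub_distrib]
    apply Finset.sum_congr rfl
    intro p _
    rw [mul_zero, mul_zero, cos_zero]
    split_ifs <;> ring
  rw [e, hs] at g2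
  linarith

/-- **Averaging over two block primes.** -/
theorem E1 (hx : ∀ p, 0 < x p) (hx1 : ∀ p ∈ P, x p ≤ 1)
    (h1 : Blk P ω₁ N₁ J₁ wm₁ ε₁) (h2 : Blk P ω₂ N₂ J₂ wm₂ ε₂) (hJ₁ : 0 < J₁) (hJ₂ : 0 < J₂)
    (hdis : ∀ p, ω₁ p ≠ 0 → ω₂ p = 0)
    {wb η ε' : ℝ} (hwb : 2 ≤ wb) (hw : ∀ p ∈ P, ww x p ≤ wb) (hη : 0 ≤ η) (hη1 : η ≤ 1)
    (hε' : 0 ≤ ε') (F : Finset ℕ → ℂ) (hF : ∀ A, A ⊆ P → ‖F A‖ ≤ 1)
    (t g err : Finset ℕ → ℝ) (hg : ∀ A, 0 ≤ g A) (herr : ∀ A, 0 ≤ err A)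
    (hclose : ∀ A, A ⊆ P → ∀ p₁ ∈ A, ∀ p₂ ∈ A, ω₁ p₁ ≠ 0 → ω₂ p₂ ≠ 0 →
      ‖F ((A.erase p₂).erase p₁) - (g A : ℂ) * eu (p₁ * (p₂ * t A))‖ ≤ err A)
    (D : Finset ℕ → Prop) (hD : ∀ A, A ⊆ P → ¬ D A → ‖Bl P ω₁ ω₂ J₁ J₂ (t A)‖ ≤ ε')
    {δ : ℝ} (hδ₁ : Pr P x (fun A => ¬ Gd P x ω₁ J₁ η A) ≤ δ)
    (hδ₂ : Pr P x (fun A => ¬ Gd P x ω₂ J₂ η A) ≤ δ) :
    ‖EE P x F‖ ≤ 4 * EE P x err + (6 * η + ε') * EE P x g +
      EE P x (fun A => @ite ℝ (D A) (Classical.dec _) (g A) 0) +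
      3 * η * EE P x (fun A => ‖F A‖) + 5 * wb ^ 2 * δ := by
  classical
  have hwb0 : 0 ≤ wb := by linarith
  have hδ0 : 0 ≤ δ := (Pr_nonneg hx _).trans hδ₁
  set F₁ := Op P x ω₁ J₁ F with hF₁
  set F₂ := Op P x ω₂ J₂ F₁ with hF₂
  have hF₁b : ∀ A, A ⊆ P → ‖F₁ A‖ ≤ wb := by
    intro A hA
    refine (norm_Op_le hx h1 hJ₁ F A).trans ?_
    have := Op_le hwb0 hw hx h1 hJ₁ (F := fun A => ‖F A‖) (B := 1) zero_le_one (A := A)
      (fun p _ _ => hF _ ((Finset.erase_subset _ _).trans hA))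
    rwa [mul_one] at this
  have hF₂b : ∀ A, A ⊆ P → ‖F₂ A‖ ≤ wb ^ 2 := by
    intro A hA
    refine (norm_Op_le hx h2 hJ₂ F₁ A).trans ?_
    have := Op_le hwb0 hw hx h2 hJ₂ (F := fun A => ‖F₁ A‖) (B := wb) hwb0 (A := A)
      (fun p _ _ => hF₁b _ ((Finset.erase_subset _ _).trans hA))
    rwa [← sq] at this
  have s1 := EE_sub_Op_le hx hx1 h1 hJ₁ hη F hF zero_le_one (Gd P x ω₁ J₁ η)
    (fun A _ h => h.1)
  have s2 := EE_sub_Op_le hx hx1 h2 hJ₂ hη F₁ hF₁b hwb0 (Gd P x ω₂ J₂ η)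
    (fun A _ h => h.1)
  have s3 := EE_Op_norm_le hx hx1 h1 hJ₁ hη F hF zero_le_one (Gd P x ω₁ J₁ η)
    (fun A _ h => h.1)
  rw [← hF₁] at s1 s3
  rw [← hF₂] at s2
  set I := EE P x (fun A => ‖F A‖) with hI
  have hI0 : 0 ≤ I := EE_nonneg hx fun A _ => norm_nonneg _
  -- the pointwise bound for the double average
  have hpt : ∀ A, A ⊆ P → ‖F₂ A‖ ≤ 4 * err A + (6 * η + ε') * g A + (if D A then g A else 0) +
      wb ^ 2 * ((if ¬ Gd P x ω₁ J₁ η A then 1 else 0) +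
        (if ¬ Gd P x ω₂ J₂ η A then 1 else 0)) := by
    intro A hA
    have hgA := hg A
    have herrA := herr A
    have n1 : 0 ≤ 4 * err A + (6 * η + ε') * g A + (if D A then g A else 0) := by
      split_ifs <;> (clear * - herrA hη hε' hgA; positivity)
    by_cases hG1 : Gd P x ω₁ J₁ η A
    swap
    · rw [if_pos hG1]
      have : (0 : ℝ) ≤ (if ¬ Gd P x ω₂ J₂ η A then 1 else 0) := by split_ifs <;> norm_num
      have h3 := hF₂b A hA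
      nlinarith only [n1, h3, this, sq_nonneg wb]
    by_cases hG2 : Gd P x ω₂ J₂ η A
    swap
    · rw [if_neg (not_not.mpr hG1), if_pos hG2]
      have h3 := hF₂b A hA
      linarith
    rw [if_neg (not_not.mpr hG1), if_neg (not_not.mpr hG2), add_zero, mul_zero, add_zero]
    have m1 := blk_mass_le hJ₁ h1.sum hG1
    have m2 := blk_mass_le hJ₂ h2.sum hG2
    -- expand the double operator
    set c₁ : ℕ → ℝ := fun p => ω₁ p * (if p ∈ A then ww x p else 0) with hc₁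
    set c₂ : ℕ → ℝ := fun p => ω₂ p * (if p ∈ A then ww x p else 0) with hc₂
    have hwp : ∀ p, 0 < ww x p := fun p => by unfold ww; have := hx p; positivity
    have hc₁0 : ∀ p, 0 ≤ c₁ p := fun p => by
      have := h1.nn p
      have := hwp p
      simp only [hc₁]; split_ifs <;> positivity
    have hc₂0 : ∀ p, 0 ≤ c₂ p := fun p => by
      have := h2.nn p
      have := hwp p
      simp only [hc₂]; split_ifs <;> positivity
    have hexp : F₂ A = ((J₂ * J₁ : ℝ) : ℂ)⁻¹ * ∑ p₂ ∈ P, ∑ p₁ ∈ P,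
        ((c₂ p₂ * c₁ p₁ : ℝ) : ℂ) * F ((A.erase p₂).erase p₁) := by
      rw [hF₂, hF₁]
      unfold Op
      rw [Complex.real_smul, Complex.ofReal_inv, Complex.ofReal_mul, mul_inv, mul_assoc]
      congr 1
      rw [Finset.mul_sum]
      apply Finset.sum_congr rfl
      intro p₂ _
      rw [Complex.real_smul, Complex.real_smul, Complex.ofReal_inv, mul_left_comm, Finset.mul_sum,
        ]
      congr 1
      apply Finset.sum_congr rfl
      intro p₁ _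
      rw [Complex.real_smul, ← mul_assoc, ← Complex.ofReal_mul]
      congr 2
      simp only [hc₁, hc₂]
      by_cases hp2 : ω₂ p₂ = 0
      · rw [hp2]; ring
      by_cases hp1 : ω₁ p₁ = 0
      · rw [hp1]; ring
      have hne : p₁ ≠ p₂ := by
        intro h
        rw [h] at hp1
        exact hp2 (hdis p₂ hp1)
      have hmem : p₁ ∈ A.erase p₂ ↔ p₁ ∈ A := by
        rw [Finset.mem_erase]; exact ⟨fun h => h.2, fun h => ⟨hne, h⟩⟩
      simp only [hmem]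
    have hJJ : 0 < J₂ * J₁ := by positivity
    -- first replace `F` by the model
    have r1 : ‖F₂ A - (g A : ℂ) * (((J₂ * J₁ : ℝ) : ℂ)⁻¹ * ∑ p₂ ∈ P, ∑ p₁ ∈ P,
        ((c₂ p₂ * c₁ p₁ : ℝ) : ℂ) * eu (p₁ * (p₂ * t A)))‖ ≤ 4 * err A := by
      have e : F₂ A - (g A : ℂ) * (((J₂ * J₁ : ℝ) : ℂ)⁻¹ * ∑ p₂ ∈ P, ∑ p₁ ∈ P,
          ((c₂ p₂ * c₁ p₁ : ℝ) : ℂ) * eu (p₁ * (p₂ * t A))) =
          ((J₂ * J₁ : ℝ) : ℂ)⁻¹ * ∑ p₂ ∈ P, ∑ p₁ ∈ P, ((c₂ p₂ * c₁ p₁ : ℝ) : ℂ) *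
            (F ((A.erase p₂).erase p₁) - (g A : ℂ) * eu (p₁ * (p₂ * t A))) := by
        rw [hexp, mul_left_comm, ← mul_sub, Finset.mul_sum, ← Finset.sum_sub_distrib]
        congr 1
        apply Finset.sum_congr rfl
        intro p₂ _
        rw [Finset.mul_sum, ← Finset.sum_sub_distrib]
        apply Finset.sum_congr rfl
        intro p₁ _
        ring
      rw [e, norm_mul, norm_inv, Complex.norm_real, Real.norm_eq_abs, abs_of_pos hJJ,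
        inv_mul_le_iff₀ hJJ]
      have hb : ∀ p₂ ∈ P, ‖∑ p₁ ∈ P, ((c₂ p₂ * c₁ p₁ : ℝ) : ℂ) *
          (F ((A.erase p₂).erase p₁) - (g A : ℂ) * eu (p₁ * (p₂ * t A)))‖ ≤
          ∑ p₁ ∈ P, c₂ p₂ * c₁ p₁ * err A := by
        intro p₂ _
        refine (norm_sum_le _ _).trans (Finset.sum_le_sum fun p₁ _ => ?_)
        have hcc : 0 ≤ c₂ p₂ * c₁ p₁ := mul_nonneg (hc₂0 _) (hc₁0 _)
        rw [norm_mul, Complex.norm_real, Real.norm_eq_abs, abs_of_nonneg hcc]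
        by_cases hz : c₂ p₂ * c₁ p₁ = 0
        · rw [hz]; simp
        apply mul_le_mul_of_nonneg_left _ hcc
        have hz2 := left_ne_zero_of_mul hz
        have hz1 := right_ne_zero_of_mul hz
        have q2 : p₂ ∈ A ∧ ω₂ p₂ ≠ 0 := by
          simp only [hc₂] at hz2
          refine ⟨?_, left_ne_zero_of_mul hz2⟩
          by_contra hn
          rw [if_neg hn, mul_zero] at hz2
          exact hz2 rfl
        have q1 : p₁ ∈ A ∧ ω₁ p₁ ≠ 0 := by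
          simp only [hc₁] at hz1
          refine ⟨?_, left_ne_zero_of_mul hz1⟩
          by_contra hn
          rw [if_neg hn, mul_zero] at hz1
          exact hz1 rfl
        exact hclose A hA p₁ q1.1 p₂ q2.1 q1.2 q2.2
      refine (norm_sum_le _ _).trans ((Finset.sum_le_sum hb).trans ?_)
      have e3 : ∑ p₂ ∈ P, ∑ p₁ ∈ P, c₂ p₂ * c₁ p₁ * err A =
          (∑ p₂ ∈ P, c₂ p₂) * (∑ p₁ ∈ P, c₁ p₁) * err A := by
        rw [Finset.sum_mul_sum, Finset.sum_mul]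
        apply Finset.sum_congr rfl
        intro p₂ _
        rw [Finset.sum_mul]
      rw [e3]
      have e4 : (∑ p₂ ∈ P, c₂ p₂) * (∑ p₁ ∈ P, c₁ p₁) ≤ (2 * J₂) * (2 * J₁) := by
        apply mul_le_mul (m2.trans (by nlinarith only [hJ₂, hη1])) (m1.trans (by nlinarith only [hJ₁, hη1]))
          (Finset.sum_nonneg fun p _ => hc₁0 p) (by positivity)
      calc _ ≤ (2 * J₂) * (2 * J₁) * err A := mul_le_mul_of_nonneg_right e4 herrA
        _ = _ := by ring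
    -- then replace the random weights by the full ones
    have r2 : ‖(∑ p₂ ∈ P, ∑ p₁ ∈ P, ((c₂ p₂ * c₁ p₁ : ℝ) : ℂ) * eu (p₁ * (p₂ * t A))) -
        ∑ p₂ ∈ P, ∑ p₁ ∈ P, ((ω₂ p₂ * ω₁ p₁ : ℝ) : ℂ) * eu (p₁ * (p₂ * t A))‖ ≤
        6 * η * (J₂ * J₁) := by
      have e : (∑ p₂ ∈ P, ∑ p₁ ∈ P, ((c₂ p₂ * c₁ p₁ : ℝ) : ℂ) * eu (p₁ * (p₂ * t A))) -
          ∑ p₂ ∈ P, ∑ p₁ ∈ P, ((ω₂ p₂ * ω₁ p₁ : ℝ) : ℂ) * eu (p₁ * (p₂ * t A)) =
          ∑ p₂ ∈ P, (c₂ p₂ : ℂ) * (∑ p₁ ∈ P,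
            ((ω₁ p₁ * (ww x p₁ * (if p₁ ∈ A then 1 else 0) - 1) : ℝ) : ℂ) *
              eu (p₁ * (p₂ * t A))) +
          ∑ p₁ ∈ P, (ω₁ p₁ : ℂ) * (∑ p₂ ∈ P,
            ((ω₂ p₂ * (ww x p₂ * (if p₂ ∈ A then 1 else 0) - 1) : ℝ) : ℂ) *
              eu (p₂ * (p₁ * t A))) := by
        simp_rw [Finset.mul_sum]
        rw [Finset.sum_comm (f := fun p₁ p₂ => (ω₁ p₁ : ℂ) *
          (((ω₂ p₂ * (ww x p₂ * (if p₂ ∈ A then 1 else 0) - 1) : ℝ) : ℂ) *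
              eu (p₂ * (p₁ * t A)))), ← Finset.sum_sub_distrib, ← Finset.sum_add_distrib]
        apply Finset.sum_congr rfl
        intro p₂ _
        rw [← Finset.sum_sub_distrib, ← Finset.sum_add_distrib]
        apply Finset.sum_congr rfl
        intro p₁ _
        have e5 : eu (p₂ * (p₁ * t A)) = eu (p₁ * (p₂ * t A)) := by congr 1; ring
        rw [e5]
        simp only [hc₁, hc₂]
        split_ifs <;> push_cast <;> ring
      rw [e]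
      have b1 : ‖∑ p₂ ∈ P, (c₂ p₂ : ℂ) * (∑ p₁ ∈ P,
            ((ω₁ p₁ * (ww x p₁ * (if p₁ ∈ A then 1 else 0) - 1) : ℝ) : ℂ) *
              eu (p₁ * (p₂ * t A)))‖ ≤ (∑ p₂ ∈ P, c₂ p₂) * (2 * η * J₁) := by
        rw [Finset.sum_mul]
        refine (norm_sum_le _ _).trans (Finset.sum_le_sum fun p₂ _ => ?_)
        rw [norm_mul, Complex.norm_real, Real.norm_eq_abs, abs_of_nonneg (hc₂0 _)]
        exact mul_le_mul_of_nonneg_left (norm_blk_sub hJ₁ hG1 _) (hc₂0 _)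
      have b2 : ‖∑ p₁ ∈ P, (ω₁ p₁ : ℂ) * (∑ p₂ ∈ P,
            ((ω₂ p₂ * (ww x p₂ * (if p₂ ∈ A then 1 else 0) - 1) : ℝ) : ℂ) *
              eu (p₂ * (p₁ * t A)))‖ ≤ J₁ * (2 * η * J₂) := by
        rw [← h1.sum, Finset.sum_mul]
        refine (norm_sum_le _ _).trans (Finset.sum_le_sum fun p₁ _ => ?_)
        rw [norm_mul, Complex.norm_real, Real.norm_eq_abs, abs_of_nonneg (h1.nn _)]
        exact mul_le_mul_of_nonneg_left (norm_blk_sub hJ₂ hG2 _) (h1.nn _)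
      have b3 : (∑ p₂ ∈ P, c₂ p₂) * (2 * η * J₁) ≤ (2 * J₂) * (2 * η * J₁) := by
        apply mul_le_mul_of_nonneg_right _ (by positivity)
        exact m2.trans (by nlinarith only [hJ₂, hη1])
      refine (norm_add_le _ _).trans ((add_le_add b1 b2).trans ?_)
      linarith
    have r3 : ‖((J₂ * J₁ : ℝ) : ℂ)⁻¹ * ∑ p₂ ∈ P, ∑ p₁ ∈ P,
        ((c₂ p₂ * c₁ p₁ : ℝ) : ℂ) * eu (p₁ * (p₂ * t A))‖ ≤
        6 * η + ‖Bl P ω₁ ω₂ J₁ J₂ (t A)‖ := by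
      have e : ((J₂ * J₁ : ℝ) : ℂ)⁻¹ * ∑ p₂ ∈ P, ∑ p₁ ∈ P,
          ((c₂ p₂ * c₁ p₁ : ℝ) : ℂ) * eu (p₁ * (p₂ * t A)) =
          ((J₂ * J₁ : ℝ) : ℂ)⁻¹ * ((∑ p₂ ∈ P, ∑ p₁ ∈ P,
            ((c₂ p₂ * c₁ p₁ : ℝ) : ℂ) * eu (p₁ * (p₂ * t A))) -
            ∑ p₂ ∈ P, ∑ p₁ ∈ P, ((ω₂ p₂ * ω₁ p₁ : ℝ) : ℂ) * eu (p₁ * (p₂ * t A))) +
          Bl P ω₁ ω₂ J₁ J₂ (t A) := by
        unfold Bl
        rw [div_eq_inv_mul]
        ring
      rw [e]
      refine (norm_add_le _ _).trans (add_le_add_left ?_ _)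
      rw [norm_mul, norm_inv, Complex.norm_real, Real.norm_eq_abs, abs_of_pos hJJ,
        inv_mul_le_iff₀ hJJ]
      refine r2.trans (le_of_eq ?_)
      ring
    have r4 : ‖Bl P ω₁ ω₂ J₁ J₂ (t A)‖ ≤ ε' + (if D A then 1 else 0) := by
      by_cases hDA : D A
      · rw [if_pos hDA]
        have := norm_Bl_le_one h1 h2 hJ₁ hJ₂ (t A)
        linarith
      · rw [if_neg hDA, add_zero]
        exact hD A hA hDA
    have r5 : ‖F₂ A‖ ≤ 4 * err A + g A * (6 * η + (ε' + (if D A then 1 else 0))) := by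
      have e : F₂ A = (F₂ A - (g A : ℂ) * (((J₂ * J₁ : ℝ) : ℂ)⁻¹ * ∑ p₂ ∈ P, ∑ p₁ ∈ P,
        ((c₂ p₂ * c₁ p₁ : ℝ) : ℂ) * eu (p₁ * (p₂ * t A)))) +
        (g A : ℂ) * (((J₂ * J₁ : ℝ) : ℂ)⁻¹ * ∑ p₂ ∈ P, ∑ p₁ ∈ P,
        ((c₂ p₂ * c₁ p₁ : ℝ) : ℂ) * eu (p₁ * (p₂ * t A))) := by ring
      rw [e]
      refine (norm_add_le _ _).trans (add_le_add r1 ?_)
      rw [norm_mul, Complex.norm_real, Real.norm_eq_abs, abs_of_nonneg hgA]
      exact mul_le_mul_of_nonneg_left (r3.trans (by linarith)) hgA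
    refine r5.trans (le_of_eq ?_)
    split_ifs <;> ring
  have hE2 : ‖EE P x F₂‖ ≤ 4 * EE P x err + (6 * η + ε') * EE P x g +
      EE P x (fun A => if D A then g A else 0) + wb ^ 2 * (δ + δ) := by
    refine (norm_EE_le hx _).trans ((EE_mono hx hpt).trans ?_)
    rw [EE_add, EE_add, EE_add, EE_mul, EE_mul, EE_mul, EE_add]
    have q : EE P x (fun A => if ¬ Gd P x ω₁ J₁ η A then (1 : ℝ) else 0) +
        EE P x (fun A => if ¬ Gd P x ω₂ J₂ η A then (1 : ℝ) else 0) ≤ δ + δ := by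
      rw [EE_ite_eq_Pr, EE_ite_eq_Pr]
      exact add_le_add hδ₁ hδ₂
    have := mul_le_mul_of_nonneg_left q (sq_nonneg wb)
    linarith
  have hchain : ‖EE P x F‖ ≤ ‖EE P x F₂‖ + (η * I + 1 * δ) +
      (η * ((1 + η) * I + 1 * δ) + wb * δ) := by
    have e : EE P x F = EE P x F₂ + (EE P x F - EE P x F₁) + (EE P x F₁ - EE P x F₂) := by ring
    rw [e]
    refine (norm_add_le _ _).trans ?_
    refine (add_le_add_left (norm_add_le _ _) _).trans ?_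
    have t1 : ‖EE P x F - EE P x F₁‖ ≤ η * I + 1 * δ := by linarith
    have t2 : ‖EE P x F₁ - EE P x F₂‖ ≤ η * ((1 + η) * I + 1 * δ) + wb * δ := by
      have q1 := mul_le_mul_of_nonneg_left hδ₂ hwb0
      have q2 : EE P x (fun A => ‖F₁ A‖) ≤ (1 + η) * I + 1 * δ := by linarith
      have q3 := mul_le_mul_of_nonneg_left q2 hη
      linarith
    linarith
  have hfin1 : η * ((1 + η) * I) ≤ 2 * (η * I) := by
    have : 0 ≤ η * I := by positivity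
    nlinarith only [hη1, this]
  have hfin2 : wb ^ 2 * (δ + δ) + (1 * δ + η * (1 * δ) + wb * δ) ≤ 5 * wb ^ 2 * δ := by
    have q1 : η * δ ≤ 1 * δ := mul_le_mul_of_nonneg_right hη1 hδ0
    have q2 : wb ≤ wb ^ 2 := by nlinarith only [hwb]
    have q3 : (1 : ℝ) + 1 ≤ 2 * wb ^ 2 := by nlinarith only [hwb, q2]
    have q4 := mul_le_mul_of_nonneg_right q2 hδ0
    have q5 := mul_le_mul_of_nonneg_right q3 hδ0
    nlinarith only [q1, q4, q5]
  linarith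

end E1

end Pool.Agent.MP0016c7.Ros
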