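import Mathlib
import Pool.Agent.Lib.MP_0016c7_nt.CdlOp
import Pool.Agent.Lib.MP_0016c7_nt.CardDiam

open Real

namespace Pool.Agent.MP0016c7.Ros

/-- distance to the nearest integer -/
noncomputable def dn (t : ℝ) : ℝ := |t - round t|

/-- `θ` is close to a rational number with small denominator -/
def MajA (G κ θ : ℝ) : Prop := ∃ r : ℚ, (r.den : ℝ) ≤ G ∧ |θ - r| ≤ κ

lemma dn_nonneg (t : ℝ) : 0 ≤ dn t := abs_nonneg _

lemma dn_le_half (t : ℝ) : dn t ≤ 1 / 2 := abs_sub_round t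

lemma dn_le (t : ℝ) (n : ℤ) : dn t ≤ |t - n| := round_le t n

lemma dn_sub_le (s t : ℝ) : dn (s - t) ≤ dn s + dn t := by
  have h := dn_le (s - t) (round s - round t)
  refine h.trans ?_
  push_cast
  have e : s - t - (round s - round t) = (s - round s) - (t - round t) := by ring
  rw [e]
  exact abs_sub _ _

lemma dn_add_le (s t : ℝ) : dn (s + t) ≤ dn s + |t| := by
  have h := dn_le (s + t) (round s)
  refine h.trans ?_
  have e : s + t - round s = (s - round s) + t := by ring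
  rw [e]
  exact abs_add_le _ _

lemma dn_ge_sub (s t : ℝ) : dn s - |t| ≤ dn (s + t) := by
  have h := dn_add_le (s + t) (-t)
  rw [add_neg_cancel_right, abs_neg] at h
  linarith

lemma dn_int_add (n : ℤ) {t : ℝ} (ht : |t| ≤ 1 / 2) : dn (n + t) = |t| := by
  apply le_antisymm
  · have := dn_le (n + t) n
    rwa [add_sub_cancel_left] at this
  · unfold dn
    rcases eq_or_ne (round ((n : ℝ) + t)) n with h | h
    · rw [h, add_sub_cancel_left]
    · have h1 : (1 : ℝ) ≤ |((n - round ((n : ℝ) + t) : ℤ) : ℝ)| := by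
        rw [← Int.cast_abs]
        exact_mod_cast Int.one_le_abs (sub_ne_zero.mpr (Ne.symm h))
      push_cast at h1
      have h2 : (n : ℝ) + t - round ((n : ℝ) + t) = (n - round ((n : ℝ) + t)) + t := by ring
      rw [h2]
      have h3 := abs_sub_abs_le_abs_sub ((n : ℝ) - round ((n : ℝ) + t)) (-t)
      rw [abs_neg, sub_neg_eq_add] at h3
      linarith

/-- a multiple of a rational which is not an integer stays away from the integers -/
lemma dn_rat {r : ℚ} {l : ℕ} (h : ¬ r.den ∣ l) : 1 / (r.den : ℝ) ≤ dn (l * r) := by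
  have hd : (0 : ℝ) < r.den := by exact_mod_cast r.den_pos
  unfold dn
  set m := round ((l : ℝ) * r) with hm
  have h1 : (l : ℝ) * r - m = ((l * r.num - m * r.den : ℤ) : ℝ) / r.den := by
    have : (r : ℝ) = r.num / r.den := by
      have := Rat.num_div_den r
      exact_mod_cast this.symm
    rw [this]
    push_cast
    field_simp
  rw [h1, abs_div, abs_of_pos hd]
  apply div_le_div_of_nonneg_right _ hd.le
  rw [← Int.cast_abs]
  have hne : (l * r.num - m * r.den : ℤ) ≠ 0 := by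
    intro h0
    apply h
    have h2 : (r.den : ℤ) ∣ l * r.num := ⟨m, by linarith⟩
    have h3 : IsCoprime (r.den : ℤ) r.num := by
      rw [Int.isCoprime_iff_gcd_eq_one]
      have := r.reduced
      rw [Int.gcd_comm]
      exact this
    have h4 := h3.dvd_of_dvd_mul_right h2
    exact_mod_cast h4
  exact_mod_cast Int.one_le_abs hne

lemma norm_geom_le (α : ℝ) (M : ℕ) : ‖∑ n ∈ Finset.Icc 1 M, eu (n * α)‖ ≤ M := by
  refine (norm_sum_le _ _).trans ?_
  simp [norm_eu]

lemma norm_one_sub_eu_ge (α : ℝ) : 4 * dn α ≤ ‖1 - eu α‖ := by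
  have h1 : eu α = eu (α - round α) := by
    have : α = (α - round α) + ((round α : ℤ) : ℝ) := by ring
    conv_lhs => rw [this, eu_add, eu_int, mul_one]
  set β := α - round α with hβ
  have hβ2 : |β| ≤ 1 / 2 := abs_sub_round α
  have hd : dn α = |β| := rfl
  rw [hd, h1]
  apply le_of_sq_le_sq _ (norm_nonneg _)
  have h2 := norm_one_sub_ex_sq (2 * π * β)
  unfold eu
  rw [h2]
  have h3 := cos_le_one_sub_mul_cos_sq (x := 2 * π * β) (by
    rw [abs_mul, abs_of_pos (by positivity : 0 < 2 * π)]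
    nlinarith [pi_pos])
  have h4 : 2 / π ^ 2 * (2 * π * β) ^ 2 = 8 * β ^ 2 := by
    have := pi_ne_zero
    field_simp
    ring
  rw [h4] at h3
  rw [mul_pow, sq_abs]
  linarith

lemma norm_geom_le' {α : ℝ} (hα : 0 < dn α) (M : ℕ) :
    ‖∑ n ∈ Finset.Icc 1 M, eu (n * α)‖ ≤ 1 / (2 * dn α) := by
  have h1 := norm_one_sub_eu_ge α
  have h2 : (∑ n ∈ Finset.Icc 1 M, eu (n * α)) * (1 - eu α) = eu α - eu ((M + 1) * α) := by
    induction M with
    | zero => simp
    | succ M ih =>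
      rw [Finset.sum_Icc_succ_top (by omega), add_mul, ih]
      have e1 : eu ((((M : ℕ) : ℝ) + 1) * α) * eu α = eu (((M : ℝ) + 1 + 1) * α) := by
        rw [← eu_add]; congr 1; ring
      push_cast
      rw [mul_sub, e1]
      ring
  have h3 : ‖∑ n ∈ Finset.Icc 1 M, eu (n * α)‖ * ‖1 - eu α‖ ≤ 2 := by
    rw [← norm_mul, h2]
    refine (norm_sub_le _ _).trans ?_
    rw [norm_eu, norm_eu]; norm_num
  rw [le_div_iff₀ (by positivity)]
  have h4 := mul_le_mul_of_nonneg_left h1 (norm_nonneg (∑ n ∈ Finset.Icc 1 M, eu (n * α)))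
  linarith

/-- counting multiples close to the integers -/
lemma count_near {θ ρ κ G : ℝ} {L : ℕ} (hθ : ¬ MajA G κ θ) (hρ : 0 < ρ) (hκ : 0 < κ)
    (hG : 1 ≤ G) (hL : 2 * L * ρ ≤ 1 / 2) (hGρ : 2 * G * ρ < 1) :
    (((Finset.range (L + 1)).filter fun l : ℕ => dn (l * θ) ≤ ρ).card : ℝ) ≤
      L / G + ρ / κ + 2 := by
  classical
  set S := (Finset.range (L + 1)).filter fun l : ℕ => dn (l * θ) ≤ ρ with hS
  have hG0 : 0 < G := by linarith
  by_cases hex : ∃ g : ℕ, 1 ≤ g ∧ (g : ℝ) ≤ G ∧ dn (g * θ) ≤ 2 * ρ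
  · -- second case
    obtain ⟨g, hg1, hgG, hgθ⟩ := hex
    have hg0 : (0 : ℝ) < g := by exact_mod_cast hg1
    set r : ℚ := (round ((g : ℝ) * θ) : ℚ) / g with hr
    have hrR : (r : ℝ) = (round ((g : ℝ) * θ) : ℝ) / g := by rw [hr]; push_cast; rfl
    have hbg : r.den ∣ g := by
      have h := Rat.den_dvd (round ((g : ℝ) * θ)) g
      have e : (Rat.divInt (round ((g : ℝ) * θ)) g) = r := by
        rw [hr, Rat.divInt_eq_div]; push_cast; rfl
      rw [e] at h
      exact_mod_cast h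
    have hb0 : 0 < r.den := r.den_pos
    have hbr : (0 : ℝ) < r.den := by exact_mod_cast hb0
    have hble : r.den ≤ g := Nat.le_of_dvd hg1 hbg
    have hbG : (r.den : ℝ) ≤ G := le_trans (by exact_mod_cast hble) hgG
    set β := θ - r with hβ
    have hβκ : κ < |β| := by
      by_contra hc
      exact hθ ⟨r, hbG, not_lt.mp hc⟩
    have hβρ : |β| ≤ 2 * ρ / r.den := by
      have h1 : |β| ≤ 2 * ρ / g := by
        rw [le_div_iff₀ hg0]
        have h2 : β * g = g * θ - round ((g : ℝ) * θ) := by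
          rw [hβ, hrR]; field_simp
        calc |β| * g = |β * g| := by rw [abs_mul, abs_of_pos hg0]
          _ = dn (g * θ) := by rw [h2]; rfl
          _ ≤ _ := hgθ
      refine h1.trans ?_
      apply div_le_div_of_nonneg_left (by positivity) hbr
      exact_mod_cast hble
    have hdiam : (S.card : ℝ) ≤ ρ / κ + 1 := by
      apply card_le_of_diam (by positivity)
      have hup : ∀ l ∈ S, (l : ℝ) ≤ ρ / κ := by
        intro l hl
        rw [hS, Finset.mem_filter, Finset.mem_range] at hl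
        obtain ⟨hl1, hl2⟩ := hl
        have hlL : (l : ℝ) ≤ L := by exact_mod_cast Nat.lt_succ_iff.mp hl1
        have hl0 : (0 : ℝ) ≤ l := Nat.cast_nonneg l
        have hlβ : |(l : ℝ) * β| ≤ 1 / 2 / r.den := by
          rw [abs_mul, abs_of_nonneg hl0]
          calc (l : ℝ) * |β| ≤ L * (2 * ρ / r.den) := by
                apply mul_le_mul hlL hβρ (abs_nonneg _) (Nat.cast_nonneg _)
            _ = (2 * L * ρ) / r.den := by ring
            _ ≤ _ := div_le_div_of_nonneg_right hL hbr.le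
        have elθ : (l : ℝ) * θ = l * r + l * β := by rw [hβ]; ring
        have hdvd : r.den ∣ l := by
          by_contra hnd
          have h1 := dn_rat hnd
          have h2 := dn_ge_sub ((l : ℝ) * r) (l * β)
          rw [← elθ] at h2
          have h3 : 1 / 2 / (r.den : ℝ) ≤ ρ := by
            have : 1 / (r.den : ℝ) - 1 / 2 / r.den = 1 / 2 / r.den := by ring
            linarith
          rw [div_le_iff₀ hbr] at h3
          nlinarith
        obtain ⟨c, hc⟩ := hdvd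
        have hlr : (l : ℝ) * r = ((c * r.num : ℤ) : ℝ) := by
          have : (r : ℝ) = r.num / r.den := by
            have := Rat.num_div_den r
            exact_mod_cast this.symm
          rw [this, hc]
          push_cast
          field_simp
        have h12 : |(l : ℝ) * β| ≤ 1 / 2 := by
          refine hlβ.trans ?_
          rw [div_le_iff₀ hbr]
          have : (1 : ℝ) ≤ r.den := by exact_mod_cast hb0
          linarith
        rw [elθ, hlr, dn_int_add _ h12, abs_mul, abs_of_nonneg hl0] at hl2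
        rw [le_div_iff₀ hκ]
        refine le_trans ?_ hl2
        exact mul_le_mul_of_nonneg_left hβκ.le hl0
      intro m _ n hn _
      have h1 := hup n hn
      have h2 : (0 : ℝ) ≤ m := Nat.cast_nonneg m
      linarith
    have : 0 ≤ (L : ℝ) / G := by positivity
    linarith
  · -- first case
    push Not at hex
    set b := ⌊G⌋₊ + 1 with hb
    have hb0 : 0 < b := by omega
    have hbG : G ≤ b := by rw [hb]; push_cast; exact (Nat.lt_floor_add_one G).le
    have hinj : Set.InjOn (fun l : ℕ => l / b) (S : Set ℕ) := by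
      intro l hl m hm hlm
      simp only at hlm
      rw [Finset.mem_coe, hS, Finset.mem_filter] at hl hm
      by_contra hne
      wlog hlt : l < m generalizing l m with H
      · exact H hm hl hlm.symm (Ne.symm hne) (lt_of_le_of_ne (not_lt.mp hlt) (Ne.symm hne))
      have h1 : m - l < b := by
        have e1 := Nat.div_add_mod l b
        have e2 := Nat.div_add_mod m b
        have e3 := Nat.mod_lt m hb0
        rw [← hlm] at e2
        omega
      have h2 : 1 ≤ m - l := by omega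
      have h3 : ((m - l : ℕ) : ℝ) ≤ G := by
        have : m - l ≤ ⌊G⌋₊ := by omega
        exact (Nat.le_floor_iff hG0.le).mp this
      have h4 := hex (m - l) h2 h3
      have h5 : ((m - l : ℕ) : ℝ) * θ = m * θ - l * θ := by
        rw [Nat.cast_sub hlt.le]; ring
      rw [h5] at h4
      have h6 := dn_sub_le (m * θ) (l * θ)
      linarith [hl.2, hm.2]
    have hcard : S.card ≤ L / b + 1 := by
      rw [← Finset.card_image_of_injOn hinj]
      have : S.image (fun l : ℕ => l / b) ⊆ Finset.range (L / b + 1) := by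
        intro c hc
        rw [Finset.mem_image] at hc
        obtain ⟨l, hl, rfl⟩ := hc
        rw [hS, Finset.mem_filter, Finset.mem_range] at hl
        rw [Finset.mem_range]
        have := Nat.div_le_div_right (c := b) (Nat.lt_succ_iff.mp hl.1)
        omega
      have := Finset.card_le_card this
      rwa [Finset.card_range] at this
    have h1 : (S.card : ℝ) ≤ ((L / b : ℕ) : ℝ) + 1 := by exact_mod_cast hcard
    have h2 : ((L / b : ℕ) : ℝ) ≤ L / G := by
      refine (Nat.cast_div_le).trans ?_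
      exact div_le_div_of_nonneg_left (Nat.cast_nonneg L) hG0 hbG
    have : 0 ≤ ρ / κ := by positivity
    linarith

/-- sum of the geometric sums -/
lemma sum_geom_le {θ ρ κ G : ℝ} {L M : ℕ} (hθ : ¬ MajA G κ θ) (hρ : 0 < ρ) (hκ : 0 < κ)
    (hG : 1 ≤ G) (hL : 2 * L * ρ ≤ 1 / 2) (hGρ : 2 * G * ρ < 1) :
    ∑ l ∈ Finset.range (L + 1), ‖∑ n ∈ Finset.Icc 1 M, eu (n * (l * θ))‖ ≤
      (L + 1) / (2 * ρ) + M * (L / G + ρ / κ + 2) := by
  classical
  have h1 : ∀ l ∈ Finset.range (L + 1), ‖∑ n ∈ Finset.Icc 1 M, eu (n * (l * θ))‖ ≤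
      1 / (2 * ρ) + M * (if dn (l * θ) ≤ ρ then 1 else 0) := by
    intro l _
    split_ifs with h
    · have := norm_geom_le (l * θ) M
      have : 0 ≤ 1 / (2 * ρ) := by positivity
      linarith
    · rw [not_le] at h
      have h2 := norm_geom_le' (hρ.trans h) M
      have h3 : 1 / (2 * dn (l * θ)) ≤ 1 / (2 * ρ) :=
        one_div_le_one_div_of_le (by positivity) (by linarith)
      linarith
  refine (Finset.sum_le_sum h1).trans ?_
  rw [Finset.sum_add_distrib, Finset.sum_const, Finset.card_range, nsmul_eq_mul,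
    ← Finset.mul_sum, Finset.sum_ite, Finset.sum_const_zero, add_zero, Finset.sum_const,
    nsmul_eq_mul, mul_one]
  have h2 := count_near hθ hρ hκ hG hL hGρ
  have h3 := mul_le_mul_of_nonneg_left h2 (Nat.cast_nonneg (α := ℝ) M)
  push_cast
  have e : ((L : ℝ) + 1) * (1 / (2 * ρ)) = (L + 1) / (2 * ρ) := by ring
  rw [e]
  linarith

variable {P : Finset ℕ} {ω₁ ω₂ : ℕ → ℝ} {N₁ N₂ J₁ J₂ wm₁ wm₂ ε₁ ε₂ : ℝ}

lemma sum_abs_sub_le (f : ℕ → ℝ) (hf : ∀ n, 0 ≤ f n) {L p : ℕ} (hp : p ≤ L) (Q : Finset ℕ)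
    (hQ : ∀ n ∈ Q, n ≤ L) :
    ∑ n ∈ Q, f ((p : ℤ) - n).natAbs ≤ 2 * ∑ l ∈ Finset.range (L + 1), f l := by
  classical
  have hsub : Q ⊆ Finset.range (L + 1) := fun n hn => Finset.mem_range.mpr (Nat.lt_succ_of_le (hQ n hn))
  refine (Finset.sum_le_sum_of_subset_of_nonneg hsub fun n _ _ => hf _).trans ?_
  rw [← Finset.sum_filter_add_sum_filter_not (Finset.range (L + 1)) (fun n => n ≤ p), two_mul]
  apply add_le_add
  · have h1 : ∑ n ∈ (Finset.range (L + 1)).filter (fun n => n ≤ p), f ((p : ℤ) - n).natAbs =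
        ∑ n ∈ ((Finset.range (L + 1)).filter (fun n => n ≤ p)).image (fun n => p - n), f n := by
      rw [Finset.sum_image]
      · apply Finset.sum_congr rfl
        intro n hn
        rw [Finset.mem_filter] at hn
        congr 1
        omega
      · intro a ha b hb hab
        rw [Finset.mem_coe, Finset.mem_filter] at ha hb
        simp only at hab
        omega
    rw [h1]
    apply Finset.sum_le_sum_of_subset_of_nonneg _ fun n _ _ => hf _
    intro n hn
    rw [Finset.mem_image] at hn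
    obtain ⟨m, hm, rfl⟩ := hn
    rw [Finset.mem_range]
    omega
  · have h1 : ∑ n ∈ (Finset.range (L + 1)).filter (fun n => ¬ n ≤ p), f ((p : ℤ) - n).natAbs =
        ∑ n ∈ ((Finset.range (L + 1)).filter (fun n => ¬ n ≤ p)).image (fun n => n - p), f n := by
      rw [Finset.sum_image]
      · apply Finset.sum_congr rfl
        intro n hn
        rw [Finset.mem_filter] at hn
        congr 1
        omega
      · intro a ha b hb hab
        rw [Finset.mem_coe, Finset.mem_filter] at ha hb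
        simp only at hab
        omega
    rw [h1]
    apply Finset.sum_le_sum_of_subset_of_nonneg _ fun n _ _ => hf _
    intro n hn
    rw [Finset.mem_image] at hn
    obtain ⟨m, hm, rfl⟩ := hn
    rw [Finset.mem_filter, Finset.mem_range] at hm
    rw [Finset.mem_range]
    omega

lemma eu_conj (t : ℝ) : (starRingEnd ℂ) (eu t) = eu (-t) := by
  apply Complex.ext
  · rw [Complex.conj_re, eu_re, eu_re]
    rw [mul_neg, cos_neg]
  · rw [Complex.conj_im, eu_im, eu_im]
    rw [mul_neg, sin_neg]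

lemma norm_geom_natAbs (p p' : ℕ) (t : ℝ) (M : ℕ) :
    ‖∑ n ∈ Finset.Icc 1 M, eu (n * ((p : ℝ) * t) - n * (p' * t))‖ =
      ‖∑ n ∈ Finset.Icc 1 M, eu (n * ((((p : ℤ) - p').natAbs : ℝ) * t))‖ := by
  rcases le_total p' p with h | h
  · have e : ((((p : ℤ) - p').natAbs : ℕ) : ℝ) = (p : ℝ) - p' := by
      have : ((p : ℤ) - p').natAbs = p - p' := by omega
      rw [this, Nat.cast_sub h]
    rw [e]
    congr 1
    apply Finset.sum_congr rfl
    intro n _
    congr 1
    ring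
  · have e : ((((p : ℤ) - p').natAbs : ℕ) : ℝ) = (p' : ℝ) - p := by
      have : ((p : ℤ) - p').natAbs = p' - p := by omega
      rw [this, Nat.cast_sub h]
    rw [e, ← Complex.norm_conj, map_sum]
    congr 1
    apply Finset.sum_congr rfl
    intro n _
    rw [eu_conj]
    congr 1
    ring

/-- **Minor arcs**: the bilinear sum is small. -/
theorem Bl_sq_le (h1 : Blk P ω₁ N₁ J₁ wm₁ ε₁) (h2 : Blk P ω₂ N₂ J₂ wm₂ ε₂)
    (hJ₁ : 0 < J₁) (hJ₂ : 0 < J₂) {M L : ℕ} (hM : ∀ p, ω₁ p ≠ 0 → 1 ≤ p ∧ p ≤ M)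
    (hL : ∀ p, ω₂ p ≠ 0 → p ≤ L) {t ρ κ G : ℝ} (ht : ¬ MajA G κ t) (hρ : 0 < ρ) (hκ : 0 < κ)
    (hG : 1 ≤ G) (hLρ : 2 * L * ρ ≤ 1 / 2) (hGρ : 2 * G * ρ < 1) :
    ‖Bl P ω₁ ω₂ J₁ J₂ t‖ ^ 2 ≤ 2 * (wm₁ * wm₂) / (J₁ * J₂) *
      ((L + 1) / (2 * ρ) + M * (L / G + ρ / κ + 2)) := by
  classical
  set T : ℕ → ℂ := fun n => ∑ p₂ ∈ P, (ω₂ p₂ : ℂ) * eu (n * (p₂ * t)) with hT
  set S := (L + 1) / (2 * ρ) + M * (L / G + ρ / κ + 2) with hSd
  -- the main sum
  set Z : ℂ := ∑ p₂ ∈ P, ∑ p₁ ∈ P, ((ω₂ p₂ * ω₁ p₁ : ℝ) : ℂ) * eu (p₁ * (p₂ * t)) with hZ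
  have hZT : Z = ∑ p₁ ∈ P, (ω₁ p₁ : ℂ) * T p₁ := by
    rw [hZ, Finset.sum_comm]
    apply Finset.sum_congr rfl
    intro p₁ _
    rw [hT]
    simp only
    rw [Finset.mul_sum]
    apply Finset.sum_congr rfl
    intro p₂ _
    push_cast
    ring
  have hwm₁ : 0 ≤ wm₁ := (h1.nn 0).trans (h1.le 0)
  have hwm₂ : 0 ≤ wm₂ := (h2.nn 0).trans (h2.le 0)
  -- Cauchy-Schwarz
  have hCS : ‖Z‖ ^ 2 ≤ J₁ * ∑ p₁ ∈ P, ω₁ p₁ * ‖T p₁‖ ^ 2 := by
    have e1 : ‖Z‖ ≤ ∑ p₁ ∈ P, √(ω₁ p₁) * (√(ω₁ p₁) * ‖T p₁‖) := by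
      rw [hZT]
      refine (norm_sum_le _ _).trans (Finset.sum_le_sum fun p₁ _ => ?_)
      rw [norm_mul, Complex.norm_real, Real.norm_eq_abs, abs_of_nonneg (h1.nn _), ← mul_assoc,
        mul_self_sqrt (h1.nn _)]
    have e2 := Finset.sum_mul_sq_le_sq_mul_sq P (fun p₁ => √(ω₁ p₁)) (fun p₁ => √(ω₁ p₁) * ‖T p₁‖)
    have e3 : ∑ p₁ ∈ P, √(ω₁ p₁) ^ 2 = J₁ := by
      rw [← h1.sum]
      exact Finset.sum_congr rfl fun p _ => sq_sqrt (h1.nn p)
    have e4 : ∑ p₁ ∈ P, (√(ω₁ p₁) * ‖T p₁‖) ^ 2 = ∑ p₁ ∈ P, ω₁ p₁ * ‖T p₁‖ ^ 2 := by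
      apply Finset.sum_congr rfl
      intro p _
      rw [mul_pow, sq_sqrt (h1.nn p)]
    rw [e3, e4] at e2
    exact (pow_le_pow_left₀ (norm_nonneg _) e1 2).trans e2
  -- completion
  have hcomp : ∑ p₁ ∈ P, ω₁ p₁ * ‖T p₁‖ ^ 2 ≤ wm₁ * ∑ n ∈ Finset.Icc 1 M, ‖T n‖ ^ 2 := by
    rw [← Finset.sum_filter_add_sum_filter_not P (fun p => ω₁ p ≠ 0)]
    have z0 : ∑ p ∈ P with ¬ ω₁ p ≠ 0, ω₁ p * ‖T p‖ ^ 2 = 0 := by
      apply Finset.sum_eq_zero
      intro p hp
      rw [Finset.mem_filter, not_not] at hp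
      rw [hp.2, zero_mul]
    rw [z0, add_zero, Finset.mul_sum]
    refine (Finset.sum_le_sum (g := fun p => wm₁ * ‖T p‖ ^ 2) fun p _ =>
      mul_le_mul_of_nonneg_right (h1.le p) (sq_nonneg _)).trans ?_
    apply Finset.sum_le_sum_of_subset_of_nonneg
    · intro p hp
      rw [Finset.mem_filter] at hp
      rw [Finset.mem_Icc]
      exact hM p hp.2
    · intro n _ _
      positivity
  -- expanding the square
  have hsq : ∑ n ∈ Finset.Icc 1 M, ‖T n‖ ^ 2 ≤ J₂ * (wm₂ * (2 * S)) := by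
    have e1 : ((∑ n ∈ Finset.Icc 1 M, ‖T n‖ ^ 2 : ℝ) : ℂ) =
        ∑ p ∈ P, ∑ p' ∈ P, ((ω₂ p * ω₂ p' : ℝ) : ℂ) *
          ∑ n ∈ Finset.Icc 1 M, eu (n * (p * t) - n * (p' * t)) := by
      rw [Complex.ofReal_sum]
      have e2 : ∀ n ∈ Finset.Icc 1 M, ((‖T n‖ ^ 2 : ℝ) : ℂ) =
          ∑ p ∈ P, ∑ p' ∈ P, ((ω₂ p * ω₂ p' : ℝ) : ℂ) * eu (n * (p * t) - n * (p' * t)) := by
        intro n _
        rw [Complex.ofReal_pow, ← Complex.mul_conj', hT]
        simp only
        rw [map_sum, Finset.sum_mul_sum]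
        apply Finset.sum_congr rfl
        intro p _
        apply Finset.sum_congr rfl
        intro p' _
        rw [map_mul, Complex.conj_ofReal, eu_conj]
        have e3 : eu (n * (p * t) - n * (p' * t)) = eu (n * (p * t)) * eu (-(n * (p' * t))) := by
          rw [← eu_add]; congr 1
        rw [e3]
        push_cast
        ring
      rw [Finset.sum_congr rfl e2, Finset.sum_comm]
      apply Finset.sum_congr rfl
      intro p _
      rw [Finset.sum_comm]
      apply Finset.sum_congr rfl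
      intro p' _
      rw [Finset.mul_sum]
    have e4 : ∑ n ∈ Finset.Icc 1 M, ‖T n‖ ^ 2 =
        ‖((∑ n ∈ Finset.Icc 1 M, ‖T n‖ ^ 2 : ℝ) : ℂ)‖ := by
      rw [Complex.norm_real, Real.norm_eq_abs, abs_of_nonneg]
      exact Finset.sum_nonneg fun n _ => sq_nonneg _
    rw [e4, e1]
    refine (norm_sum_le _ _).trans ?_
    rw [← h2.sum, Finset.sum_mul]
    apply Finset.sum_le_sum
    intro p hp
    refine (norm_sum_le _ _).trans ?_
    have hωp := h2.nn p
    by_cases hp0 : ω₂ p = 0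
    · rw [hp0]; simp
    have hpL := hL p hp0
    set K : ℕ → ℝ := fun l => ‖∑ n ∈ Finset.Icc 1 M, eu (n * ((l : ℝ) * t))‖ with hK
    have e5 : ∀ p' ∈ P, ‖((ω₂ p * ω₂ p' : ℝ) : ℂ) *
        ∑ n ∈ Finset.Icc 1 M, eu (n * (p * t) - n * (p' * t))‖ ≤
        ω₂ p * (ω₂ p' * K ((p : ℤ) - p').natAbs) := by
      intro p' _
      rw [norm_mul, Complex.norm_real, Real.norm_eq_abs,
        abs_of_nonneg (mul_nonneg hωp (h2.nn p')), norm_geom_natAbs, mul_assoc]
    refine (Finset.sum_le_sum e5).trans ?_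
    rw [← Finset.mul_sum]
    apply mul_le_mul_of_nonneg_left _ hωp
    have e6 : ∑ p' ∈ P, ω₂ p' * K ((p : ℤ) - p').natAbs ≤
        wm₂ * ∑ p' ∈ P with ω₂ p' ≠ 0, K ((p : ℤ) - p').natAbs := by
      rw [← Finset.sum_filter_add_sum_filter_not P (fun p => ω₂ p ≠ 0)]
      have z0 : ∑ p' ∈ P with ¬ ω₂ p' ≠ 0, ω₂ p' * K ((p : ℤ) - p').natAbs = 0 := by
        apply Finset.sum_eq_zero
        intro p hp
        rw [Finset.mem_filter, not_not] at hp
        rw [hp.2, zero_mul]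
      rw [z0, add_zero, Finset.mul_sum]
      exact Finset.sum_le_sum fun p' _ => mul_le_mul_of_nonneg_right (h2.le p') (norm_nonneg _)
    refine e6.trans (mul_le_mul_of_nonneg_left ?_ hwm₂)
    refine (sum_abs_sub_le K (fun n => norm_nonneg _) hpL _ (fun n hn => ?_)).trans ?_
    · rw [Finset.mem_filter] at hn
      exact hL n hn.2
    · exact mul_le_mul_of_nonneg_left (sum_geom_le ht hρ hκ hG hLρ hGρ) (by norm_num)
  have hJJ : 0 < J₂ * J₁ := by positivity
  have hBl : ‖Bl P ω₁ ω₂ J₁ J₂ t‖ ^ 2 = ‖Z‖ ^ 2 / (J₂ * J₁) ^ 2 := by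
    unfold Bl
    rw [norm_div, Complex.norm_real, Real.norm_eq_abs, abs_of_pos hJJ, div_pow]
  rw [hBl, div_le_iff₀ (by positivity)]
  calc ‖Z‖ ^ 2 ≤ J₁ * (wm₁ * (J₂ * (wm₂ * (2 * S)))) := by
        refine hCS.trans (mul_le_mul_of_nonneg_left (hcomp.trans ?_) hJ₁.le)
        exact mul_le_mul_of_nonneg_left hsq hwm₁
    _ = _ := by field_simp

end Pool.Agent.MP0016c7.Ros
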