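import Mathlib
import Pool.Agent.Lib.MP_0016c7_nt.CdlMinor

open Real

namespace Pool.Agent.MP0016c7.Ros

lemma rat_cast_eq (r : ℚ) : (r : ℝ) = r.num / r.den := by
  have := Rat.num_div_den r
  exact_mod_cast this.symm

lemma rat_dist {r r' : ℚ} (h : r ≠ r') :
    1 / ((r.den : ℝ) * r'.den) ≤ |(r : ℝ) - r'| := by
  have hd : (0 : ℝ) < r.den := by exact_mod_cast r.den_pos
  have hd' : (0 : ℝ) < r'.den := by exact_mod_cast r'.den_pos
  have e : (r : ℝ) - r' = ((r.num * r'.den - r'.num * r.den : ℤ) : ℝ) / (r.den * r'.den) := by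
    rw [rat_cast_eq r, rat_cast_eq r']
    push_cast
    field_simp
  have hne : (r.num * r'.den - r'.num * r.den : ℤ) ≠ 0 := by
    intro h0
    rw [h0] at e
    simp only [Int.cast_zero, zero_div] at e
    apply h
    have : (r : ℝ) = r' := by linarith
    exact_mod_cast this
  rw [e, abs_div, abs_of_pos (by positivity : (0 : ℝ) < r.den * r'.den)]
  apply div_le_div_of_nonneg_right _ (by positivity)
  rw [← Int.cast_abs]
  exact_mod_cast Int.one_le_abs hne

lemma den_nat_mul_dvd (m : ℕ) (r : ℚ) : (((m : ℚ) * r).den) ∣ r.den := by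
  have h := Rat.mul_den_dvd (m : ℚ) r
  simpa using h

lemma den_nat_mul_le (m : ℕ) (r : ℚ) : (((m : ℚ) * r).den) ≤ r.den :=
  Nat.le_of_dvd r.den_pos (den_nat_mul_dvd m r)

/-- **Rigidity.** -/
lemma rigid {G κ t : ℝ} {p m : ℕ} (hp : p.Prime) (hpG : G < p) (hm : ¬ p ∣ m) {r r' : ℚ}
    (hr : (r.den : ℝ) ≤ G) (hr' : (r'.den : ℝ) ≤ G) (h1 : |p * t - r| ≤ κ)
    (h2 : |m * t - r'| ≤ κ) (hκ : κ * (p + m) * G ^ 2 < 1) : (p : ℤ) ∣ r.num := by
  have hd : (0 : ℝ) < r.den := by exact_mod_cast r.den_pos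
  have hd' : (0 : ℝ) < r'.den := by exact_mod_cast r'.den_pos
  have hG : 0 < G := hd.trans_le hr
  have heq : (m : ℚ) * r = (p : ℚ) * r' := by
    by_contra hne
    have h3 := rat_dist hne
    have h4 : |(((m : ℚ) * r : ℚ) : ℝ) - (((p : ℚ) * r' : ℚ) : ℝ)| ≤ κ * (p + m) := by
      push_cast
      have e : (m : ℝ) * r - p * r' = -(m * (p * t - r)) + p * (m * t - r') := by ring
      rw [e]
      refine (abs_add_le _ _).trans ?_
      rw [abs_neg, abs_mul, abs_mul, Nat.abs_cast, Nat.abs_cast]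
      have q1 : (m : ℝ) * |p * t - r| ≤ m * κ := mul_le_mul_of_nonneg_left h1 (Nat.cast_nonneg _)
      have q2 : (p : ℝ) * |m * t - r'| ≤ p * κ := mul_le_mul_of_nonneg_left h2 (Nat.cast_nonneg _)
      linarith
    have h5 : 1 / G ^ 2 ≤ 1 / ((((m : ℚ) * r).den : ℝ) * ((p : ℚ) * r').den) := by
      apply one_div_le_one_div_of_le
      · have a1 : (0 : ℝ) < ((m : ℚ) * r).den := by exact_mod_cast ((m : ℚ) * r).den_pos
        have a2 : (0 : ℝ) < ((p : ℚ) * r').den := by exact_mod_cast ((p : ℚ) * r').den_pos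
        positivity
      · rw [sq]
        apply mul_le_mul _ _ (Nat.cast_nonneg _) hG.le
        · exact le_trans (by exact_mod_cast den_nat_mul_le m r) hr
        · exact le_trans (by exact_mod_cast den_nat_mul_le p r') hr'
    have h6 : 1 / G ^ 2 ≤ κ * (p + m) := h5.trans (h3.trans h4)
    rw [div_le_iff₀ (by positivity)] at h6
    linarith
  have hq : (m : ℤ) * r.num * r'.den = p * (r'.num * r.den) := by
    have e1 := Rat.num_div_den r
    have e2 := Rat.num_div_den r'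
    have d1 : (r.den : ℚ) ≠ 0 := by exact_mod_cast r.den_ne_zero
    have d2 : (r'.den : ℚ) ≠ 0 := by exact_mod_cast r'.den_ne_zero
    rw [← e1, ← e2] at heq
    have h7 : (m : ℚ) * r.num * r'.den = p * (r'.num * r.den) := by
      field_simp at heq
      linarith
    exact_mod_cast h7
  have hpi : Prime (p : ℤ) := Nat.prime_iff_prime_int.mp hp
  have h8 : (p : ℤ) ∣ m * r.num * r'.den := ⟨_, hq⟩
  rcases hpi.dvd_or_dvd h8 with h | h
  · rcases hpi.dvd_or_dvd h with h | h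
    · exact absurd (by exact_mod_cast h) hm
    · exact h
  · exfalso
    have h9 : p ∣ r'.den := by exact_mod_cast h
    have h10 : (p : ℝ) ≤ r'.den := by exact_mod_cast Nat.le_of_dvd r'.den_pos h9
    linarith

open Classical in
/-- the nearby rational number -/
noncomputable def ratM (G κ θ : ℝ) : ℚ := if h : MajA G κ θ then h.choose else 0

lemma ratM_spec {G κ θ : ℝ} (h : MajA G κ θ) :
    ((ratM G κ θ).den : ℝ) ≤ G ∧ |θ - ratM G κ θ| ≤ κ := by
  unfold ratM
  rw [dif_pos h]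
  exact h.choose_spec

section count

variable {P : Finset ℕ} {x : ℕ → ℝ}

/-- block primes outside `A` which do not divide the numerator -/
def freeP (P : Finset ℕ) (G κ : ℝ) (th : Finset ℕ → ℝ) (A : Finset ℕ) (p : ℕ) : Prop :=
  p ∈ P ∧ G < p ∧ p ∉ A ∧ ¬ (p : ℤ) ∣ (ratM G κ (th A)).num

open Classical in
/-- **Few primes can be added.** -/
theorem rigid_count (hx : ∀ p, 0 < x p) (hP : ∀ p ∈ P, p.Prime) {G κ Pm : ℝ}
    (hPm : ∀ p ∈ P, (p : ℝ) ≤ Pm) (hκ : 0 ≤ κ) (hκG : κ * (2 * Pm) * G ^ 2 < 1)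
    {th : Finset ℕ → ℝ} (hth : ∀ A, A ⊆ P → ∀ p ∈ A, th (A.erase p) = p * th A)
    (f h : Finset ℕ → ℝ) (v : ℕ → ℝ) (hf0 : ∀ A, 0 ≤ f A) (hv : ∀ p, 0 ≤ v p)
    (hf : ∀ A, A ⊆ P → f A ≠ 0 → MajA G κ (th A)) (hh : ∀ A, 0 ≤ h A)
    (hfh : ∀ A, A ⊆ P → ∀ p ∈ A, v p * ww x p * f (A.erase p) ≤ h A) :
    EE P x (fun A => f A * ∑ p ∈ P.filter (fun p => freeP P G κ th A p), v p * (1 + x p)) ≤
      EE P x h := by
  have e1 : (fun A => f A * ∑ p ∈ P.filter (fun p => freeP P G κ th A p), v p * (1 + x p)) =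
      fun A => ∑ p ∈ P, if p ∈ A then 0 else (1 + x p) •
        (v p * (if G < p ∧ ¬ (p : ℤ) ∣ (ratM G κ (th A)).num then f A else 0)) := by
    ext A
    rw [Finset.sum_filter, Finset.mul_sum]
    apply Finset.sum_congr rfl
    intro p hp
    unfold freeP
    by_cases h1 : p ∈ A
    · simp [h1]
    · by_cases h2 : G < (p : ℝ) ∧ ¬ (p : ℤ) ∣ (ratM G κ (th A)).num
      · rw [if_pos ⟨hp, h2.1, h1, h2.2⟩, if_neg h1, if_pos h2, smul_eq_mul]; ring
      · rw [if_neg (fun h => h2 ⟨h.2.1, h.2.2.2⟩), if_neg h1, if_neg h2, smul_eq_mul]; ring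
  rw [e1, EE_sum]
  have e2 : ∀ p ∈ P, EE P x (fun A => if p ∈ A then (0 : ℝ) else (1 + x p) •
        (v p * (if G < p ∧ ¬ (p : ℤ) ∣ (ratM G κ (th A)).num then f A else 0))) =
      EE P x (fun A => if p ∈ A then ((1 + x p) / x p) • (v p *
        (if G < p ∧ ¬ (p : ℤ) ∣ (ratM G κ (th (A.erase p))).num then f (A.erase p) else 0))
        else 0) := by
    intro p hp
    exact (EE_erase hx hp (fun A => v p *
      (if G < p ∧ ¬ (p : ℤ) ∣ (ratM G κ (th A)).num then f A else 0))).symm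
  rw [Finset.sum_congr rfl e2, ← EE_sum]
  apply EE_mono hx
  intro A hA
  -- at most one term is nonzero
  set T : ℕ → ℝ := fun p => if p ∈ A then ((1 + x p) / x p) • (v p *
        (if G < p ∧ ¬ (p : ℤ) ∣ (ratM G κ (th (A.erase p))).num then f (A.erase p) else 0))
        else 0 with hT
  have hcond : ∀ p, T p ≠ 0 → p ∈ A ∧ G < p ∧ ¬ (p : ℤ) ∣ (ratM G κ (th (A.erase p))).num ∧
      f (A.erase p) ≠ 0 := by
    intro p hp
    simp only [hT] at hp
    by_cases h1 : p ∈ A
    · rw [if_pos h1] at hp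
      by_cases h2 : G < (p : ℝ) ∧ ¬ (p : ℤ) ∣ (ratM G κ (th (A.erase p))).num
      · rw [if_pos h2] at hp
        refine ⟨h1, h2.1, h2.2, ?_⟩
        intro h3
        rw [h3] at hp
        simp at hp
      · rw [if_neg h2] at hp
        simp at hp
    · rw [if_neg h1] at hp
      exact absurd rfl hp
  by_cases hall : ∀ p ∈ P, T p = 0
  · rw [Finset.sum_eq_zero hall]
    exact hh A
  · push Not at hall
    obtain ⟨p, hp, hTp⟩ := hall
    obtain ⟨c1, c2, c3, c4⟩ := hcond p hTp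
    have hone : ∑ q ∈ P, T q = T p := by
      apply Finset.sum_eq_single_of_mem p hp
      intro q hq hqp
      by_contra hTq
      obtain ⟨d1, d2, d3, d4⟩ := hcond q hTq
      have m1 := hf _ ((Finset.erase_subset _ _).trans hA) c4
      have m2 := hf _ ((Finset.erase_subset _ _).trans hA) d4
      obtain ⟨a1, a2⟩ := ratM_spec m1
      obtain ⟨b1, b2⟩ := ratM_spec m2
      rw [hth A hA p c1] at a1 a2 c3
      rw [hth A hA q d1] at b1 b2
      apply c3
      apply rigid (hP p hp) c2 (m := q) ?_ a1 b1 a2 b2 ?_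
      · intro hdvd
        exact hqp ((Nat.prime_dvd_prime_iff_eq (hP p hp) (hP q hq)).mp hdvd).symm
      · have h5 := hPm p hp
        have h6 := hPm q hq
        have h7 : κ * (p + q) * G ^ 2 ≤ κ * (2 * Pm) * G ^ 2 := by
          apply mul_le_mul_of_nonneg_right _ (sq_nonneg G)
          exact mul_le_mul_of_nonneg_left (by linarith) hκ
        linarith
    rw [hone]
    have e3 : T p = v p * ww x p * f (A.erase p) := by
      simp only [hT]
      rw [if_pos c1, if_pos ⟨c2, c3⟩, smul_eq_mul]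
      unfold ww
      ring
    rw [e3]
    exact hfh A hA p c1

end count

end Pool.Agent.MP0016c7.Ros
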