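import Mathlib
import Pool.Agent.Lib.MP_0016c7_nt.CdlBlocks
import Pool.Agent.Lib.MP_0016c7_nt.CdlMinor

open Real Filter

namespace Pool.Agent.MP0016c7.Ros

variable {N : ℕ} [NeZero N]

/-- polynomials are small against exponentials -/
lemma ev_pow_exp (c : ℝ) (k : ℕ) {a : ℝ} (ha : 0 < a) :
    ∀ᶠ Λ : ℝ in atTop, c * Λ ^ k ≤ rexp (a * Λ) := by
  have h1 := isLittleO_pow_exp_pos_mul_atTop (k + 1) ha
  have h2 := h1.bound one_pos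
  filter_upwards [h2, eventually_ge_atTop 1, eventually_ge_atTop |c|] with Λ hΛ h1 hc
  rw [Real.norm_eq_abs, Real.norm_eq_abs, abs_of_nonneg (by positivity), abs_exp, one_mul] at hΛ
  refine le_trans ?_ hΛ
  rw [pow_succ, mul_comm]
  exact mul_le_mul_of_nonneg_left ((le_abs_self c).trans hc) (by positivity)

/-- first block -/
noncomputable def w1 (χ : DirichletCharacter ℂ N) (b : ℕ) (Λ : ℝ) : ℕ → ℝ :=
  obx χ b (rexp (9 * Λ / 10))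
/-- second block -/
noncomputable def w2 (χ : DirichletCharacter ℂ N) (b : ℕ) (Λ : ℝ) : ℕ → ℝ :=
  obx χ b (rexp (2 * Λ / 5))
/-- first total weight -/
noncomputable def I1 (χ : DirichletCharacter ℂ N) (b : ℕ) (Λ : ℝ) : ℝ :=
  Jx χ b (rexp (9 * Λ / 10))
/-- second total weight -/
noncomputable def I2 (χ : DirichletCharacter ℂ N) (b : ℕ) (Λ : ℝ) : ℝ :=
  Jx χ b (rexp (2 * Λ / 5))

/-- size of the major arcs -/
noncomputable def kp (Λ : ℝ) : ℝ := Λ ^ 8 * rexp (-(13 * Λ / 10))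

/-- two good blocks -/
structure Pack (χ : DirichletCharacter ℂ N) (b : ℕ) (Λ wb : ℝ) : Prop where
  b1 : Blk (iP χ Λ) (w1 χ b Λ) (rexp (9 * Λ / 10)) (I1 χ b Λ) (16 * Λ) 1
  b2 : Blk (iP χ Λ) (w2 χ b Λ) (rexp (2 * Λ / 5)) (I2 χ b Λ) (16 * Λ) 1
  J1 : 0 < I1 χ b Λ
  J2 : 0 < I2 χ b Λ
  dis : ∀ p, w1 χ b Λ p ≠ 0 → w2 χ b Λ p = 0
  nd1 : ∀ p, w1 χ b Λ p ≠ 0 → ¬ p ∣ b
  nd2 : ∀ p, w2 χ b Λ p ≠ 0 → ¬ p ∣ b
  minor : ∀ t, ¬ MajA (Λ ^ 4) (kp Λ) t →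
    ‖Bl (iP χ Λ) (w1 χ b Λ) (w2 χ b Λ) (I1 χ b Λ) (I2 χ b Λ) t‖ ≤ 13000 / Λ
  gd1 : ∀ x : ℕ → ℝ, (∀ p, 0 < x p) → (∀ p ∈ iP χ Λ, x p ≤ 1) → (∀ p ∈ iP χ Λ, ww x p ≤ wb) →
    Pr (iP χ Λ) x (fun A => ¬ Gd (iP χ Λ) x (w1 χ b Λ) (I1 χ b Λ) (1 / Λ) A) ≤ rexp (-(2 * Λ))
  gd2 : ∀ x : ℕ → ℝ, (∀ p, 0 < x p) → (∀ p ∈ iP χ Λ, x p ≤ 1) → (∀ p ∈ iP χ Λ, ww x p ≤ wb) →
    Pr (iP χ Λ) x (fun A => ¬ Gd (iP χ Λ) x (w2 χ b Λ) (I2 χ b Λ) (1 / Λ) A) ≤ rexp (-(2 * Λ))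
  J2b : rexp (2 * Λ / 5) / 100 ≤ I2 χ b Λ
  mean : ∀ (m : ℕ) [NeZero m], (m : ℝ) ≤ Λ ^ 10 → ∀ h : N ∣ m, ∀ f : ZMod m → ℝ,
    (∀ a, |f a| ≤ 1) → |∑ p ∈ iP χ Λ, w2 χ b Λ p * f (p : ZMod m) -
      I2 χ b Λ * mu χ h f (-1)| ≤ I2 χ b Λ / Λ

variable {χ : DirichletCharacter ℂ N}

/-- numerical part of the concentration bound -/
lemma gd_num {wb Λ X J : ℝ} (hwb : 2 ≤ wb) (hΛ : 1 ≤ Λ) (hX : X ≤ rexp (9 * Λ / 10))
    (hJ : X / 100 ≤ J) (h1 : 6 + 168 * wb * Λ * rexp (9 * Λ / 10) ≤ rexp (2 * Λ))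
    (h2 : 4 * Λ * (25600 * wb ^ 2 * Λ ^ 3) ≤ X) {R : ℕ} (hR : (R : ℝ) ≤ 42 * wb * X * Λ + 1) :
    (2 + 4 * (R : ℝ)) * rexp (-((1 / Λ) ^ 2 * J / (16 * wb ^ 2 * (16 * Λ)))) ≤
      rexp (-(2 * Λ)) := by
  have hΛ0 : 0 < Λ := by linarith only [hΛ]
  have a1 : 2 + 4 * (R : ℝ) ≤ rexp (2 * Λ) := by
    refine le_trans ?_ h1
    have : wb * X * Λ ≤ wb * Λ * rexp (9 * Λ / 10) := by
      have := mul_le_mul_of_nonneg_left hX (by positivity : 0 ≤ wb * Λ)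
      linarith only [this]
    linarith only [hR, this]
  have a2 : 4 * Λ ≤ (1 / Λ) ^ 2 * J / (16 * wb ^ 2 * (16 * Λ)) := by
    rw [le_div_iff₀ (by positivity)]
    have e : (1 / Λ) ^ 2 * J = J / Λ ^ 2 := by field_simp
    rw [e, le_div_iff₀ (by positivity)]
    have e2 : 4 * Λ * (16 * wb ^ 2 * (16 * Λ)) * Λ ^ 2 =
        4 * Λ * (25600 * wb ^ 2 * Λ ^ 3) / 100 := by ring
    rw [e2]
    linarith only [hJ, h2]
  calc _ ≤ rexp (2 * Λ) * rexp (-(4 * Λ)) := by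
        apply mul_le_mul a1 _ (exp_pos _).le (exp_pos _).le
        rw [exp_le_exp]
        linarith
    _ = rexp (-(2 * Λ)) := by rw [← exp_add]; congr 1; ring

/-- concentration for one block -/
lemma gd_block {P : Finset ℕ} {ω : ℕ → ℝ} {Nn J wb Λ X : ℝ} (hb : Blk P ω Nn J (16 * Λ) 1)
    (hwb : 2 ≤ wb) (hΛ : 1 ≤ Λ) (hX1 : 1 ≤ X) (hX : X ≤ rexp (9 * Λ / 10)) (hJ : X / 100 ≤ J)
    (h1 : 6 + 168 * wb * Λ * rexp (9 * Λ / 10) ≤ rexp (2 * Λ))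
    (h2 : 4 * Λ * (25600 * wb ^ 2 * Λ ^ 3) ≤ X) (hM : ∀ p, ω p ≠ 0 → (p : ℝ) ≤ 3 * X)
    (x : ℕ → ℝ) (hx : ∀ p, 0 < x p) (hx1 : ∀ p ∈ P, x p ≤ 1) (hw : ∀ p ∈ P, ww x p ≤ wb) :
    Pr P x (fun A => ¬ Gd P x ω J (1 / Λ) A) ≤ rexp (-(2 * Λ)) := by
  have hΛ0 : 0 < Λ := by linarith only [hΛ]
  have hwb0 : 0 < wb := by linarith only [hwb]
  have hX0 : 0 < X := by linarith
  have hJ0 : 0 < J := lt_of_lt_of_le (by positivity) hJ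
  set R := ⌈42 * wb * X * Λ⌉₊ with hR
  have hR1 : 42 * wb * X * Λ ≤ R := Nat.le_ceil _
  have hR2 : (R : ℝ) ≤ 42 * wb * X * Λ + 1 := (Nat.ceil_lt_add_one (by positivity)).le
  have hR0 : 0 < R := by
    have : (0 : ℝ) < R := lt_of_lt_of_le (by positivity) hR1
    exact_mod_cast this
  have key := Pr_not_Gd hx hx1 hb hJ0 hwb hw hM (by positivity) (by positivity : 0 < 16 * Λ)
    (η := 1 / Λ) (by positivity) hR0 (by
      rw [one_div, inv_mul_eq_div, le_div_iff₀ hΛ0]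
      linarith only [hR1])
  exact key.trans (gd_num hwb hΛ hX hJ h1 h2 hR2)

/-- numerical part of the minor arc bound -/
lemma minor_num {Λ N₁ N₂ J₁ J₂ M L ρ κ B : ℝ} (hΛ : 1 ≤ Λ) (hN1 : 1 ≤ N₁) (hN2 : Λ ^ 4 ≤ N₂)
    (hJ1 : N₁ / 100 ≤ J₁) (hJ2 : N₂ / 100 ≤ J₂) (hM : M ≤ 3 * N₁) (hM0 : 0 ≤ M)
    (hL : L ≤ 3 * N₂) (hL0 : 0 ≤ L) (hρ : ρ = Λ ^ 4 / N₁) (hκ : κ = Λ ^ 8 / (N₁ * N₂))
    (hB : B ^ 2 ≤ 2 * ((16 * Λ) * (16 * Λ)) / (J₁ * J₂) *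
      ((L + 1) / (2 * ρ) + M * (L / Λ ^ 4 + ρ / κ + 2))) : B ≤ 13000 / Λ := by
  have hΛ0 : 0 < Λ := by linarith only [hΛ]
  have hN10 : 0 < N₁ := by linarith
  have hΛ4 : 1 ≤ Λ ^ 4 := one_le_pow₀ hΛ
  have hN20 : 0 < N₂ := by linarith
  have hN21 : 1 ≤ N₂ := by linarith
  have hJ10 : 0 < J₁ := lt_of_lt_of_le (by positivity) hJ1
  have hJ20 : 0 < J₂ := lt_of_lt_of_le (by positivity) hJ2
  have hρ0 : 0 < ρ := by rw [hρ]; positivity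
  have hκ0 : 0 < κ := by rw [hκ]; positivity
  have e1 : (L + 1) / (2 * ρ) ≤ 2 * (N₁ * N₂) / Λ ^ 4 := by
    rw [hρ, div_le_div_iff₀ (by positivity) (by positivity)]
    have : (L + 1) * Λ ^ 4 ≤ (4 * N₂) * Λ ^ 4 :=
      mul_le_mul_of_nonneg_right (by linarith) (by positivity)
    refine this.trans (le_of_eq ?_)
    field_simp
    ring
  have e2 : M * (L / Λ ^ 4) ≤ 9 * (N₁ * N₂) / Λ ^ 4 := by
    rw [← mul_div_assoc]
    apply div_le_div_of_nonneg_right _ (by positivity)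
    calc M * L ≤ (3 * N₁) * (3 * N₂) := mul_le_mul hM hL hL0 (by positivity)
      _ = _ := by ring
  have e3 : M * (ρ / κ) ≤ 3 * (N₁ * N₂) / Λ ^ 4 := by
    have : ρ / κ = N₂ / Λ ^ 4 := by rw [hρ, hκ]; field_simp
    rw [this, ← mul_div_assoc]
    apply div_le_div_of_nonneg_right _ (by positivity)
    calc M * N₂ ≤ (3 * N₁) * N₂ := mul_le_mul_of_nonneg_right hM hN20.le
      _ = _ := by ring
  have e4 : M * 2 ≤ 6 * (N₁ * N₂) / Λ ^ 4 := by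
    rw [le_div_iff₀ (by positivity)]
    calc M * 2 * Λ ^ 4 ≤ (3 * N₁) * 2 * N₂ := by
          apply mul_le_mul _ hN2 (by positivity) (by positivity)
          linarith only [hM]
      _ = _ := by ring
  have e5 : (L + 1) / (2 * ρ) + M * (L / Λ ^ 4 + ρ / κ + 2) ≤ 20 * (N₁ * N₂) / Λ ^ 4 := by
    have : 20 * (N₁ * N₂) / Λ ^ 4 = 2 * (N₁ * N₂) / Λ ^ 4 + 9 * (N₁ * N₂) / Λ ^ 4 +
      3 * (N₁ * N₂) / Λ ^ 4 + 6 * (N₁ * N₂) / Λ ^ 4 := by ring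
    rw [this, mul_add, mul_add]
    linarith only [e1, e2, e3, e4]
  have e6 : 2 * ((16 * Λ) * (16 * Λ)) / (J₁ * J₂) ≤ 5120000 * Λ ^ 2 / (N₁ * N₂) := by
    rw [div_le_div_iff₀ (by positivity) (by positivity)]
    have : N₁ * N₂ ≤ 10000 * (J₁ * J₂) := by
      have := mul_le_mul hJ1 hJ2 (by positivity) hJ10.le
      linarith only [this]
    have := mul_le_mul_of_nonneg_left this (by positivity : 0 ≤ 512 * Λ ^ 2)
    linarith only [this]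
  have e7 : B ^ 2 ≤ (13000 / Λ) ^ 2 := by
    refine hB.trans ?_
    calc _ ≤ (5120000 * Λ ^ 2 / (N₁ * N₂)) * (20 * (N₁ * N₂) / Λ ^ 4) := by
          apply mul_le_mul e6 e5 _ (by positivity)
          positivity
      _ = 102400000 / Λ ^ 2 := by field_simp; norm_num
      _ ≤ (13000 / Λ) ^ 2 := by
          rw [div_pow]
          apply div_le_div_of_nonneg_right _ (by positivity)
          norm_num
  exact le_of_sq_le_sq e7 (by positivity)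

/-- minor arcs for two blocks -/
lemma minor_block {P : Finset ℕ} {ω₁ ω₂ : ℕ → ℝ} {J₁ J₂ Λ N₁ N₂ : ℝ} (hΛ : 1 ≤ Λ)
    (h1 : Blk P ω₁ N₁ J₁ (16 * Λ) 1) (h2 : Blk P ω₂ N₂ J₂ (16 * Λ) 1)
    (hN1 : Λ ^ 16 ≤ N₁) (hN2 : Λ ^ 4 ≤ N₂) (hN12 : 12 * N₂ * Λ ^ 4 ≤ N₁) (hN18 : 4 * Λ ^ 8 ≤ N₁)
    (hJ1 : N₁ / 100 ≤ J₁) (hJ2 : N₂ / 100 ≤ J₂)
    (hM : ∀ p, ω₁ p ≠ 0 → 1 ≤ p ∧ (p : ℝ) ≤ 3 * N₁) (hL : ∀ p, ω₂ p ≠ 0 → (p : ℝ) ≤ 3 * N₂)
    {t κ : ℝ} (hκ : κ = Λ ^ 8 / (N₁ * N₂)) (ht : ¬ MajA (Λ ^ 4) κ t) :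
    ‖Bl P ω₁ ω₂ J₁ J₂ t‖ ≤ 13000 / Λ := by
  have hΛ0 : 0 < Λ := by linarith only [hΛ]
  have hΛ4 : 1 ≤ Λ ^ 4 := one_le_pow₀ hΛ
  have hN20 : 0 < N₂ := by linarith
  have hN10 : 0 < N₁ := lt_of_lt_of_le (by positivity) hN1
  have hN11 : 1 ≤ N₁ := le_trans (one_le_pow₀ hΛ) hN1
  have hJ10 : 0 < J₁ := lt_of_lt_of_le (by positivity) hJ1
  have hJ20 : 0 < J₂ := lt_of_lt_of_le (by positivity) hJ2
  have hL0 : ((⌊3 * N₂⌋₊ : ℕ) : ℝ) ≤ 3 * N₂ := Nat.floor_le (by positivity)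
  have hM0 : ((⌊3 * N₁⌋₊ : ℕ) : ℝ) ≤ 3 * N₁ := Nat.floor_le (by positivity)
  have key := Bl_sq_le h1 h2 hJ10 hJ20 (M := ⌊3 * N₁⌋₊) (L := ⌊3 * N₂⌋₊)
    (fun p hp => ⟨(hM p hp).1, Nat.le_floor (hM p hp).2⟩) (fun p hp => Nat.le_floor (hL p hp))
    (ρ := Λ ^ 4 / N₁) ht (by positivity) (by rw [hκ]; positivity) hΛ4 (by
      calc 2 * ((⌊3 * N₂⌋₊ : ℕ) : ℝ) * (Λ ^ 4 / N₁) ≤ 2 * (3 * N₂) * (Λ ^ 4 / N₁) := by
            apply mul_le_mul_of_nonneg_right _ (by positivity)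
            linarith
        _ = (6 * N₂ * Λ ^ 4) / N₁ := by ring
        _ ≤ 1 / 2 := by
            rw [div_le_div_iff₀ hN10 (by norm_num)]
            linarith) (by
      calc 2 * Λ ^ 4 * (Λ ^ 4 / N₁) = (2 * Λ ^ 8) / N₁ := by ring
        _ < 1 := by
            rw [div_lt_one hN10]
            have : 0 < Λ ^ 8 := by positivity
            linarith)
  exact minor_num hΛ hN11 hN2 hJ1 hJ2 hM0 (Nat.cast_nonneg _) hL0 (Nat.cast_nonneg _) rfl hκ key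

/-- **The blocks are good.** -/
theorem pack (hSW : SWd) (h2 : χ ^ 2 = 1) (hne : χ ≠ 1) {wb : ℝ} (hwb : 2 ≤ wb) :
    ∃ Λ₀ : ℝ, 1 ≤ Λ₀ ∧ ∀ Λ : ℝ, Λ₀ ≤ Λ → ∀ b : ℕ, b ≠ 0 → Real.log b ≤ Λ ^ 10 →
      Pack χ b Λ wb := by
  have t1 : Tendsto (fun Λ : ℝ => rexp (9 * Λ / 10)) atTop atTop :=
    tendsto_exp_atTop.comp (by
      have := tendsto_id.const_mul_atTop (show (0 : ℝ) < 9 / 10 by norm_num) (α := ℝ) (l := atTop)
      refine this.congr fun x => ?_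
      simp only [id]; ring)
  have t2 : Tendsto (fun Λ : ℝ => rexp (2 * Λ / 5)) atTop atTop :=
    tendsto_exp_atTop.comp (by
      have := tendsto_id.const_mul_atTop (show (0 : ℝ) < 2 / 5 by norm_num) (α := ℝ) (l := atTop)
      refine this.congr fun x => ?_
      simp only [id]; ring)
  have ok := obx_ok (χ := χ) hSW h2 hne 2 11
  have ev : ∀ᶠ Λ : ℝ in atTop, ∀ b : ℕ, b ≠ 0 → Real.log b ≤ Λ ^ 10 → Pack χ b Λ wb := by
    filter_upwards [t1.eventually ok, t2.eventually ok, eventually_ge_atTop (2 ^ 40 : ℝ),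
      ev_pow_exp 1 16 (by norm_num : (0 : ℝ) < 9 / 10), ev_pow_exp 1 4 (by norm_num : (0 : ℝ) < 2 / 5),
      ev_pow_exp 12 4 (by norm_num : (0 : ℝ) < 1 / 2), ev_pow_exp 4 8 (by norm_num : (0 : ℝ) < 9 / 10),
      ev_pow_exp (4 * (25600 * wb ^ 2)) 4 (by norm_num : (0 : ℝ) < 2 / 5),
      ev_pow_exp (6 + 168 * wb) 1 (by norm_num : (0 : ℝ) < 11 / 10)]
      with Λ ok1 ok2 hΛb p1 p2 p3 p4 p5 p6 b hb hlb
    have hΛ1 : 1 ≤ Λ := by linarith only [hΛb]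
    have hΛ0 : 0 < Λ := by linarith
    have hwb0 : 0 < wb := by linarith
    set N₁ := rexp (9 * Λ / 10) with hN₁
    set N₂ := rexp (2 * Λ / 5) with hN₂
    have l1 : Real.log N₁ = 9 * Λ / 10 := Real.log_exp _
    have l2 : Real.log N₂ = 2 * Λ / 5 := Real.log_exp _
    have hN10 : 0 < N₁ := exp_pos _
    have hN20 : 0 < N₂ := exp_pos _
    have hN11 : 1 ≤ N₁ := one_le_exp (by positivity)
    have hN21 : 1 ≤ N₂ := one_le_exp (by positivity)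
    have e1 : rexp (9 / 10 * Λ) = N₁ := by rw [hN₁]; congr 1; ring
    have e2 : rexp (2 / 5 * Λ) = N₂ := by rw [hN₂]; congr 1; ring
    rw [e1] at p1 p4
    rw [e2] at p2 p5
    rw [one_mul] at p1 p2
    have hpow : ∀ c : ℝ, 2 / 5 ≤ c → Λ ^ 10 ≤ (c * Λ) ^ 11 := by
      intro c hc
      have : (2 / 5 : ℝ) ^ 11 ≤ c ^ 11 := pow_le_pow_left₀ (by norm_num) hc 11
      rw [mul_pow]
      calc Λ ^ 10 = Λ ^ 10 * 1 := (mul_one _).symm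
        _ ≤ Λ ^ 10 * ((2 / 5 : ℝ) ^ 11 * Λ) := by
            apply mul_le_mul_of_nonneg_left _ (by positivity)
            norm_num
            linarith only [hΛb]
        _ = (2 / 5 : ℝ) ^ 11 * Λ ^ 11 := by ring
        _ ≤ _ := mul_le_mul_of_nonneg_right this (by positivity)
    have b1 : Real.log b ≤ (Real.log N₁) ^ 11 := by
      rw [l1]
      refine hlb.trans ((hpow (9 / 10) (by norm_num)).trans (le_of_eq ?_))
      congr 1; ring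
    have b2 : Real.log b ≤ (Real.log N₂) ^ 11 := by
      rw [l2]
      refine hlb.trans ((hpow (2 / 5) le_rfl).trans (le_of_eq ?_))
      congr 1; ring
    obtain ⟨j1, -⟩ := ok1 b hb b1
    obtain ⟨j2, m2⟩ := ok2 b hb b2
    have hs1 : 3 * N₁ ≤ rexp Λ := by
      have : rexp Λ = N₁ * rexp (Λ / 10) := by rw [hN₁, ← exp_add]; congr 1; ring
      rw [this, mul_comm]
      apply mul_le_mul_of_nonneg_left _ hN10.le
      have := add_one_le_exp (Λ / 10)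
      linarith only [hΛb, this]
    have hN2N1 : N₂ ≤ N₁ := by rw [hN₁, hN₂, exp_le_exp]; linarith only [hΛb]
    have hs2 : 3 * N₂ ≤ rexp Λ := by linarith only [hs1, hN2N1]
    have B1 : Blk (iP χ Λ) (w1 χ b Λ) N₁ (I1 χ b Λ) (16 * Λ) 1 :=
      obx_blk hN10 hs1 (by rw [l1]; linarith only [hΛb]) (by rw [l1]; linarith only [hΛb]) b
    have B2 : Blk (iP χ Λ) (w2 χ b Λ) N₂ (I2 χ b Λ) (16 * Λ) 1 :=
      obx_blk hN20 hs2 (by rw [l2]; linarith only [hΛb]) (by rw [l2]; linarith only [hΛb]) b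
    have J1p : 0 < I1 χ b Λ := lt_of_lt_of_le (by positivity) j1
    have J2p : 0 < I2 χ b Λ := lt_of_lt_of_le (by positivity) j2
    have M1 : ∀ p, w1 χ b Λ p ≠ 0 → 1 ≤ p ∧ (p : ℝ) ≤ 3 * N₁ := fun p hp => by
      obtain ⟨a1, a2, a3, a4, a5⟩ := obx_ne_zero hN10 hp
      exact ⟨a1.one_lt.le, a4⟩
    have M2 : ∀ p, w2 χ b Λ p ≠ 0 → (p : ℝ) ≤ 3 * N₂ := fun p hp =>
      (obx_ne_zero hN20 hp).2.2.2.1
    have q5 : 4 * Λ * (25600 * wb ^ 2 * Λ ^ 3) ≤ N₂ := by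
      refine le_trans (le_of_eq ?_) p5; ring
    have q6 : 6 + 168 * wb * Λ * N₁ ≤ rexp (2 * Λ) := by
      have : rexp (2 * Λ) = rexp (11 / 10 * Λ) * N₁ := by rw [hN₁, ← exp_add]; congr 1; ring
      rw [this]
      calc 6 + 168 * wb * Λ * N₁ ≤ (6 + 168 * wb) * Λ ^ 1 * N₁ := by
            have : 1 ≤ Λ * N₁ := by nlinarith only [hN10, hN11, hΛb]
            nlinarith only [this]
        _ ≤ _ := mul_le_mul_of_nonneg_right p6 hN10.le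
    have q3 : 12 * N₂ * Λ ^ 4 ≤ N₁ := by
      have : N₁ = rexp (1 / 2 * Λ) * N₂ := by rw [hN₁, hN₂, ← exp_add]; congr 1; ring
      rw [this]
      calc 12 * N₂ * Λ ^ 4 = (12 * Λ ^ 4) * N₂ := by ring
        _ ≤ _ := mul_le_mul_of_nonneg_right p3 hN20.le
    refine ⟨B1, B2, J1p, J2p, ?_, ?_, ?_, ?_, ?_, ?_, j2, ?_⟩
    · intro p hp
      by_contra hc
      obtain ⟨-, -, a3, -, -⟩ := obx_ne_zero hN10 hp
      obtain ⟨-, -, c3, -, -⟩ := obx_ne_zero hN20 hc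
      rw [l1] at a3
      rw [l2] at c3
      have := (abs_le.mp a3).1
      have := (abs_le.mp c3).2
      linarith
    · exact fun p hp => (obx_ne_zero hN10 hp).2.2.2.2
    · exact fun p hp => (obx_ne_zero hN20 hp).2.2.2.2
    · intro t ht
      refine minor_block hΛ1 B1 B2 p1 p2 q3 p4 j1 j2 M1 M2 (κ := kp Λ) ?_ ht
      unfold kp
      have : N₁ * N₂ = rexp (13 * Λ / 10) := by rw [hN₁, hN₂, ← exp_add]; congr 1; ring
      rw [this, exp_neg]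
      exact (div_eq_mul_inv _ _).symm
    · intro x hx hx1 hw
      exact gd_block B1 hwb hΛ1 hN11 le_rfl j1 q6 (q5.trans hN2N1) (fun p hp => (M1 p hp).2)
        x hx hx1 hw
    · intro x hx hx1 hw
      exact gd_block B2 hwb hΛ1 hN21 hN2N1 j2 q6 q5 M2 x hx hx1 hw
    · intro m _ hm h f hf
      have key := m2 m (by
        rw [l2]
        refine hm.trans ((hpow (2 / 5) le_rfl).trans (le_of_eq ?_))
        congr 1; ring) h f hf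
      have e : ∑ p ∈ iP χ Λ, w2 χ b Λ p * f (p : ZMod m) =
          ∑ p ∈ Finset.Icc 1 ⌊3 * N₂⌋₊, obx χ b N₂ p * f (p : ZMod m) :=
        sum_P_obx hN20 hs2 b (fun p => f (p : ZMod m))
      rw [e]
      refine key.trans ?_
      rw [l2]
      apply div_le_div_of_nonneg_left J2p.le hΛ0
      nlinarith only [hΛb]
  obtain ⟨Λ₁, hΛ₁⟩ := ev.exists_forall_of_atTop
  exact ⟨max 1 Λ₁, le_max_left _ _, fun Λ hΛ => hΛ₁ Λ ((le_max_right _ _).trans hΛ)⟩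

end Pool.Agent.MP0016c7.Ros
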