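import Mathlib
import Pool.Agent.Lib.MP_0016c7_nt.CdlMinor

open Real Filter

namespace Pool.Agent.MP0016c7.Ros

lemma MajA_div {G G' κ t : ℝ} {h : ℤ} (hh : h ≠ 0) (hG : |(h : ℝ)| * G ≤ G')
    (hm : MajA G κ (h * t)) : MajA G' κ t := by
  obtain ⟨r, hr1, hr2⟩ := hm
  have hhR : (h : ℝ) ≠ 0 := by exact_mod_cast hh
  have hh1 : (1 : ℝ) ≤ |(h : ℝ)| := by
    rw [← Int.cast_abs]
    exact_mod_cast Int.one_le_abs hh
  refine ⟨r / h, ?_, ?_⟩
  · have h1 : (r / (h : ℚ)).den ∣ r.den * h.natAbs := by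
      have h2 : (r / (h : ℚ)) = r * (h : ℚ)⁻¹ := div_eq_mul_inv _ _
      rw [h2]
      refine (Rat.mul_den_dvd r ((h : ℚ)⁻¹)).trans ?_
      apply Nat.mul_dvd_mul_left
      rw [Rat.inv_intCast_den]
      split_ifs with h3
      · exact absurd h3 hh
      · exact dvd_rfl
    have h2 : (r / (h : ℚ)).den ≤ r.den * h.natAbs := Nat.le_of_dvd (by
      have := r.den_pos
      have := Int.natAbs_pos.mpr hh
      positivity) h1
    have h3 : ((r / (h : ℚ)).den : ℝ) ≤ r.den * |(h : ℝ)| := by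
      have : ((h.natAbs : ℕ) : ℝ) = |(h : ℝ)| := by rw [Nat.cast_natAbs, Int.cast_abs]
      rw [← this]
      exact_mod_cast h2
    refine h3.trans (le_trans ?_ hG)
    rw [mul_comm]
    exact mul_le_mul_of_nonneg_left hr1 (abs_nonneg _)
  · have e : t - ((r / (h : ℚ) : ℚ) : ℝ) = (h * t - r) / h := by
      push_cast
      field_simp
    rw [e, abs_div, div_le_iff₀ (by linarith)]
    have : 0 ≤ κ := (abs_nonneg _).trans hr2
    nlinarith

lemma EE_re {P : Finset ℕ} {x : ℕ → ℝ} (F : Finset ℕ → ℂ) :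
    EE P x (fun A => (F A).re) = (EE P x F).re := by
  unfold EE
  rw [Complex.smul_re, Complex.re_sum]
  congr 1
  exact Finset.sum_congr rfl fun A _ => (Complex.smul_re _ _).symm

end Pool.Agent.MP0016c7.Ros
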