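import Mathlib
import Pool.Agent.Lib.MP_0016c7_nt.CdlPack
import Pool.Agent.Lib.MP_0016c7_nt.MajAux
import Pool.Agent.Lib.MP_0016c7_nt.RosAsm

open Real Filter

namespace Pool.Agent.MP0016c7.Ros

/-- tilted indicator -/
noncomputable def gI (s β y : ℝ) : ℝ := if β ≤ y then rexp (-(s * y)) else 0

lemma gI_nonneg (s β y : ℝ) : 0 ≤ gI s β y := by
  unfold gI; split_ifs <;> positivity

lemma gI_le_one {s β : ℝ} (hs : 0 ≤ s) (hβ : 0 ≤ β) (y : ℝ) : gI s β y ≤ 1 := by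
  unfold gI
  split_ifs with h
  · rw [exp_le_one_iff]
    have : 0 ≤ s * y := mul_nonneg hs (hβ.trans h)
    linarith
  · norm_num

/-- indicator of a window -/
noncomputable def wI (z w y : ℝ) : ℝ := if z ≤ y ∧ y ≤ z + w then 1 else 0

lemma wI_nonneg (z w y : ℝ) : 0 ≤ wI z w y := by
  unfold wI; split_ifs <;> norm_num

lemma gI_close {s β y ℓ L : ℝ} (hs : 0 ≤ s) (hs1 : s ≤ 1 / 2) (hβ : 0 ≤ β) (hℓ : |ℓ - L| ≤ 2) :
    |gI s β (y + ℓ) - gI s β (y + L)| ≤ 4 * s * gI s β (y + L) + wI (β - L - 2) 4 y := by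
  obtain ⟨h1, h2⟩ := abs_le.mp hℓ
  have hw0 := wI_nonneg (β - L - 2) 4 y
  by_cases c1 : β ≤ y + ℓ
  · by_cases c2 : β ≤ y + L
    · have e1 : gI s β (y + ℓ) = rexp (-(s * (y + ℓ))) := by unfold gI; rw [if_pos c1]
      have e2 : gI s β (y + L) = rexp (-(s * (y + L))) := by unfold gI; rw [if_pos c2]
      have e3 : rexp (-(s * (y + ℓ))) = rexp (-(s * (y + L))) * rexp (-(s * (ℓ - L))) := by
        rw [← exp_add]; congr 1; ring
      have hu : |-(s * (ℓ - L))| ≤ 1 := by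
        rw [abs_neg, abs_mul, abs_of_nonneg hs]
        nlinarith [abs_nonneg (ℓ - L)]
      have e4 : |rexp (-(s * (ℓ - L))) - 1| ≤ 2 * |-(s * (ℓ - L))| := Real.abs_exp_sub_one_le hu
      have e5 : 2 * |-(s * (ℓ - L))| ≤ 4 * s := by
        rw [abs_neg, abs_mul, abs_of_nonneg hs]
        nlinarith [abs_nonneg (ℓ - L)]
      have e6 : |gI s β (y + ℓ) - gI s β (y + L)| ≤ 4 * s * gI s β (y + L) := by
        rw [e1, e2, e3]
        have : rexp (-(s * (y + L))) * rexp (-(s * (ℓ - L))) - rexp (-(s * (y + L))) =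
          rexp (-(s * (y + L))) * (rexp (-(s * (ℓ - L))) - 1) := by ring
        rw [this, abs_mul, abs_exp, mul_comm]
        exact mul_le_mul_of_nonneg_right (e4.trans e5) (exp_pos _).le
      linarith
    · have hw : wI (β - L - 2) 4 y = 1 := by
        unfold wI; rw [if_pos ⟨by linarith, by linarith [not_le.mp c2]⟩]
      have e2 : gI s β (y + L) = 0 := by unfold gI; rw [if_neg c2]
      rw [e2, hw, sub_zero, mul_zero, zero_add, abs_of_nonneg (gI_nonneg _ _ _)]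
      exact gI_le_one hs hβ _
  · have e1 : gI s β (y + ℓ) = 0 := by unfold gI; rw [if_neg c1]
    rw [e1, zero_sub, abs_neg, abs_of_nonneg (gI_nonneg _ _ _)]
    by_cases c2 : β ≤ y + L
    · have hw : wI (β - L - 2) 4 y = 1 := by
        unfold wI; rw [if_pos ⟨by linarith, by linarith [not_le.mp c1]⟩]
      rw [hw]
      have := gI_le_one hs hβ (y + L)
      have := mul_nonneg (by linarith : 0 ≤ 4 * s) (gI_nonneg s β (y + L))
      linarith
    · have e2 : gI s β (y + L) = 0 := by unfold gI; rw [if_neg c2]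
      rw [e2]; linarith

/-- shifting up by `w` -/
lemma gI_shift_le {s β y w : ℝ} (hs : 0 ≤ s) (hβ : 0 ≤ β) (hw : 0 ≤ w) :
    gI s β (y + w) ≤ gI s β y + wI (β - w) w y := by
  have h0 := gI_nonneg s β y
  by_cases c1 : β ≤ y + w
  · by_cases c2 : β ≤ y
    · have e1 : gI s β (y + w) = rexp (-(s * (y + w))) := by unfold gI; rw [if_pos c1]
      have e2 : gI s β y = rexp (-(s * y)) := by unfold gI; rw [if_pos c2]
      have : rexp (-(s * (y + w))) ≤ rexp (-(s * y)) := by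
        rw [exp_le_exp]; nlinarith
      rw [e1, e2]
      have := wI_nonneg (β - w) w y
      linarith
    · have hw1 : wI (β - w) w y = 1 := by
        unfold wI; rw [if_pos ⟨by linarith, by linarith [not_le.mp c2]⟩]
      have := gI_le_one hs hβ (y + w)
      linarith
  · have e1 : gI s β (y + w) = 0 := by unfold gI; rw [if_neg c1]
    have := wI_nonneg (β - w) w y
    linarith

/-- shifting by at most `w` -/
lemma gI_shift_le' {s β y v w : ℝ} (hs : 0 ≤ s) (hβ : 0 ≤ β) (hv : 0 ≤ v) (hvw : v ≤ w) :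
    gI s β (y + v) ≤ gI s β y + wI (β - w) w y := by
  refine (gI_shift_le hs hβ hv).trans ?_
  have : wI (β - v) v y ≤ wI (β - w) w y := by
    unfold wI
    by_cases h : β - v ≤ y ∧ y ≤ β - v + v
    · rw [if_pos h, if_pos ⟨by linarith [h.1], by linarith [h.2]⟩]
    · rw [if_neg h]; split_ifs <;> norm_num
  linarith

lemma Sm_erase {A : Finset ℕ} {p : ℕ} (hp : p ∈ A) : Sm lg (A.erase p) = Sm lg A - lg p := by
  unfold Sm
  rw [← Finset.add_sum_erase A lg hp]; ring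

variable {N : ℕ} [NeZero N]

/-- the argument -/
noncomputable def thx (N : ℕ) (X : ℝ) (A : Finset ℕ) : ℝ := rexp (X - Sm lg A) / N

omit [NeZero N] in
lemma thx_erase {X : ℝ} {A : Finset ℕ} {p : ℕ} (hp : p ∈ A) (hpp : p.Prime) :
    thx N X (A.erase p) = p * thx N X A := by
  unfold thx
  have hp0 : (0 : ℝ) < p := by exact_mod_cast hpp.pos
  have e : X - Sm lg (A.erase p) = lg p + (X - Sm lg A) := by rw [Sm_erase hp]; ring
  have e2 : rexp (lg p) = p := by unfold lg; exact exp_log hp0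
  rw [e, exp_add, e2, mul_div_assoc]

lemma thx_pos (X : ℝ) (A : Finset ℕ) : 0 < thx N X A := by
  unfold thx
  have : (0 : ℝ) < N := by exact_mod_cast NeZero.pos N
  positivity

variable {χ : DirichletCharacter ℂ N}

/-- **Averaging a tilted exponential over two blocks.** -/
theorem eqd_bound {Λ wb s X β : ℝ} (hpk : Pack χ 1 Λ wb) (hwb : 2 ≤ wb) (hs : 0 ≤ s)
    (hs1 : s ≤ 1 / 2) (hβ : 0 ≤ β) (hΛ : 1 ≤ Λ) (hw : ∀ p ∈ iP χ Λ, ww (xs s) p ≤ wb)
    {h : ℤ} (hh : h ≠ 0) (hhΛ : |(h : ℝ)| ≤ Λ) :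
    ‖EE (iP χ Λ) (xs s) (fun A => ((gI s β (X - Sm lg A) : ℝ) : ℂ) * eu (h * thx N X A))‖ ≤
      4 * (4 * s * EE (iP χ Λ) (xs s) (fun A => gI s β (X - Sm lg A + 13 * Λ / 10)) +
        EE (iP χ Λ) (xs s) (fun A => wI (β - 13 * Λ / 10 - 2) 4 (X - Sm lg A))) +
      (6 * (1 / Λ) + 13000 / Λ) * EE (iP χ Λ) (xs s) (fun A => gI s β (X - Sm lg A + 13 * Λ / 10)) +
      EE (iP χ Λ) (xs s) (fun A => @ite ℝ (MajA (Λ ^ 5) (kp Λ) (thx N X A)) (Classical.dec _)
        (gI s β (X - Sm lg A + 13 * Λ / 10)) 0) +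
      3 * (1 / Λ) * EE (iP χ Λ) (xs s) (fun A => gI s β (X - Sm lg A)) +
      5 * wb ^ 2 * rexp (-(2 * Λ)) := by
  classical
  have hΛ0 : 0 < Λ := by linarith
  have hx : ∀ p, 0 < xs s p := fun p => xs_pos s p
  have hx1 : ∀ p ∈ iP χ Λ, xs s p ≤ 1 := fun p _ => xs_le_one hs p
  have key := E1 hx hx1 hpk.b1 hpk.b2 hpk.J1 hpk.J2 hpk.dis hwb hw (η := 1 / Λ)
    (ε' := 13000 / Λ) (by positivity) (by rw [div_le_one hΛ0]; exact hΛ) (by positivity)
    (fun A => ((gI s β (X - Sm lg A) : ℝ) : ℂ) * eu (h * thx N X A)) (by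
      intro A _
      rw [norm_mul, norm_eu, mul_one, Complex.norm_real, Real.norm_eq_abs,
        abs_of_nonneg (gI_nonneg _ _ _)]
      exact gI_le_one hs hβ _)
    (fun A => h * thx N X A) (fun A => gI s β (X - Sm lg A + 13 * Λ / 10))
    (fun A => 4 * s * gI s β (X - Sm lg A + 13 * Λ / 10) +
      wI (β - 13 * Λ / 10 - 2) 4 (X - Sm lg A))
    (fun A => gI_nonneg _ _ _) (fun A => by
      have := gI_nonneg s β (X - Sm lg A + 13 * Λ / 10)
      have := wI_nonneg (β - 13 * Λ / 10 - 2) 4 (X - Sm lg A)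
      positivity) (by
      intro A hA p₁ hp₁ p₂ hp₂ hw₁ hw₂
      have hne : p₁ ≠ p₂ := by
        intro hc
        rw [hc] at hw₁
        exact hw₂ (hpk.dis p₂ hw₁)
      have hp₁' : p₁ ∈ A.erase p₂ := Finset.mem_erase.mpr ⟨hne, hp₁⟩
      have pr1 := iP_prime (hA hp₁)
      have pr2 := iP_prime (hA hp₂)
      have t1 : thx N X ((A.erase p₂).erase p₁) = p₁ * (p₂ * thx N X A) := by
        rw [thx_erase hp₁' pr1, thx_erase hp₂ pr2]
      have t2 : X - Sm lg ((A.erase p₂).erase p₁) = X - Sm lg A + (lg p₁ + lg p₂) := by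
        rw [Sm_erase hp₁', Sm_erase hp₂]; ring
      have n1 := hpk.b1.near p₁ hw₁
      have n2 := hpk.b2.near p₂ hw₂
      rw [Real.log_exp] at n1 n2
      have hℓ : |(lg p₁ + lg p₂) - 13 * Λ / 10| ≤ 2 := by
        rw [abs_le] at n1 n2 ⊢
        constructor <;> linarith [n1.1, n1.2, n2.1, n2.2]
      have t3 : (h : ℝ) * (p₁ * (p₂ * thx N X A)) = p₁ * (p₂ * (h * thx N X A)) := by ring
      rw [t1, t2, t3, ← sub_mul, norm_mul, norm_eu, mul_one, ← Complex.ofReal_sub,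
        Complex.norm_real, Real.norm_eq_abs]
      exact gI_close hs hs1 hβ hℓ)
    (fun A => MajA (Λ ^ 4) (kp Λ) (h * thx N X A)) (fun A _ hA => hpk.minor _ hA)
    (hpk.gd1 (xs s) hx hx1 hw) (hpk.gd2 (xs s) hx hx1 hw)
  refine key.trans ?_
  rw [EE_add, EE_mul]
  have n1 : EE (iP χ Λ) (xs s) (fun A => @ite ℝ (MajA (Λ ^ 4) (kp Λ) (h * thx N X A))
      (Classical.dec _) (gI s β (X - Sm lg A + 13 * Λ / 10)) 0) ≤
      EE (iP χ Λ) (xs s) (fun A => @ite ℝ (MajA (Λ ^ 5) (kp Λ) (thx N X A)) (Classical.dec _)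
        (gI s β (X - Sm lg A + 13 * Λ / 10)) 0) := by
    apply EE_mono hx
    intro A _
    have hg := gI_nonneg s β (X - Sm lg A + 13 * Λ / 10)
    by_cases c : MajA (Λ ^ 4) (kp Λ) (h * thx N X A)
    · have c2 : MajA (Λ ^ 5) (kp Λ) (thx N X A) := MajA_div hh (by
        calc |(h : ℝ)| * Λ ^ 4 ≤ Λ * Λ ^ 4 := mul_le_mul_of_nonneg_right hhΛ (by positivity)
          _ = Λ ^ 5 := by ring) c
      rw [if_pos c, if_pos c2]
    · rw [if_neg c]; split_ifs
      · exact hg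
      · exact le_rfl
  have n2 : EE (iP χ Λ) (xs s) (fun A => ‖((gI s β (X - Sm lg A) : ℝ) : ℂ) *
      eu (h * thx N X A)‖) = EE (iP χ Λ) (xs s) (fun A => gI s β (X - Sm lg A)) := by
    congr 1
    ext A
    rw [norm_mul, norm_eu, mul_one, Complex.norm_real, Real.norm_eq_abs,
        abs_of_nonneg (gI_nonneg _ _ _)]
  rw [n2]
  linarith

end Pool.Agent.MP0016c7.Ros
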