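import Mathlib
import Pool.Agent.Lib.MP_0016c7_nt.CdlRigid
import Pool.Agent.Lib.MP_0016c7_nt.CdlSmall1

open Real Filter

namespace Pool.Agent.MP0016c7.Ros

variable {N : ℕ} [NeZero N]

lemma sum_small_primes_le {P : Finset ℕ} (hP : ∀ p ∈ P, p.Prime) {G : ℝ} (hG : 1 ≤ G) :
    ∑ p ∈ P.filter (fun p : ℕ => (p : ℝ) ≤ G), lg p ≤ G * Real.log G := by
  have h1 : ∀ p ∈ P.filter (fun p : ℕ => (p : ℝ) ≤ G), lg p ≤ Real.log G := by
    intro p hp
    rw [Finset.mem_filter] at hp
    have hp0 : (0 : ℝ) < p := by exact_mod_cast (hP p hp.1).pos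
    exact Real.log_le_log hp0 hp.2
  refine (Finset.sum_le_sum h1).trans ?_
  rw [Finset.sum_const, nsmul_eq_mul]
  apply mul_le_mul_of_nonneg_right _ (Real.log_nonneg hG)
  have h2 : (P.filter (fun p : ℕ => (p : ℝ) ≤ G)).card ≤ (Finset.Icc 1 ⌊G⌋₊).card := by
    apply Finset.card_le_card
    intro p hp
    rw [Finset.mem_filter] at hp
    rw [Finset.mem_Icc]
    exact ⟨(hP p hp.1).one_lt.le, Nat.le_floor hp.2⟩
  rw [Nat.card_Icc, Nat.add_sub_cancel] at h2
  exact le_trans (by exact_mod_cast h2) (Nat.floor_le (by linarith))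

lemma sum_union_le_add {s t : Finset ℕ} {f : ℕ → ℝ} (hf : ∀ p, 0 ≤ f p) :
    ∑ p ∈ s ∪ t, f p ≤ ∑ p ∈ s, f p + ∑ p ∈ t, f p := by
  rw [← Finset.sum_union_inter]
  have := Finset.sum_nonneg (s := s ∩ t) (fun p _ => hf p)
  linarith

open Classical in
/-- **Many free primes.** -/
theorem free_sum {P : Finset ℕ} (hP : ∀ p ∈ P, p.Prime) {X G κ : ℝ} {A : Finset ℕ} (hA : A ⊆ P)
    (hG : 1 ≤ G) (hm : MajA G κ (thx N X A)) (hκ : κ < thx N X A) :
    Sm lg P - X - (G * Real.log G + Real.log G + 1) ≤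
      ∑ p ∈ P.filter (fun p => freeP P G κ (thx N X) A p), lg p := by
  have hN0 : (0 : ℝ) < N := by exact_mod_cast NeZero.pos N
  have hN1 : (1 : ℝ) ≤ N := by exact_mod_cast NeZero.pos N
  obtain ⟨r1, r2⟩ := ratM_spec hm
  set r := ratM G κ (thx N X A) with hr
  have hth := thx_pos (N := N) X A
  have hr0 : (0 : ℝ) < r := by
    have := (abs_le.mp r2).2
    linarith
  have hrn : 0 < r.num := by
    rw [Rat.num_pos]
    exact_mod_cast hr0
  set n := r.num.natAbs with hn
  have hn0 : n ≠ 0 := by rw [hn]; exact Int.natAbs_ne_zero.mpr hrn.ne'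
  have hnr : (n : ℝ) = r * r.den := by
    have h1 : (n : ℤ) = r.num := Int.natAbs_of_nonneg hrn.le
    have h2 : (n : ℝ) = (r.num : ℝ) := by exact_mod_cast congrArg (fun z : ℤ => (z : ℝ)) h1
    rw [h2]
    have h3 := Rat.mul_den_eq_num r
    exact_mod_cast (congrArg (fun q : ℚ => (q : ℝ)) h3).symm
  have hnle : (n : ℝ) ≤ 2 * thx N X A * G := by
    rw [hnr]
    have h4 : (r : ℝ) ≤ 2 * thx N X A := by
      have := (abs_le.mp r2).1
      linarith
    exact mul_le_mul h4 r1 (Nat.cast_nonneg _) (by positivity)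
  -- the primes dividing the numerator
  set S := P.filter (fun p => p ∉ A ∧ G < p ∧ (p : ℤ) ∣ r.num) with hS
  have hdvd : (∏ p ∈ S, p) ∣ n := by
    apply Finset.prod_primes_dvd
    · intro p hp
      rw [hS, Finset.mem_filter] at hp
      exact Nat.prime_iff.mp (hP p hp.1)
    · intro p hp
      rw [hS, Finset.mem_filter] at hp
      exact Int.natCast_dvd.mp hp.2.2.2
  have hSlog : ∑ p ∈ S, lg p ≤ X - Sm lg A + Real.log G + 1 := by
    have h1 : ∑ p ∈ S, lg p = lg (∏ p ∈ S, p) :=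
      (lg_prod (fun p hp => hP p (Finset.filter_subset _ _ hp))).2.symm
    have h2 : lg (∏ p ∈ S, p) ≤ Real.log n := by
      unfold lg
      apply Real.log_le_log
      · have := Nat.pos_of_dvd_of_pos hdvd (Nat.pos_of_ne_zero hn0)
        exact_mod_cast this
      · exact_mod_cast Nat.le_of_dvd (Nat.pos_of_ne_zero hn0) hdvd
    have h3 : Real.log n ≤ Real.log (2 * thx N X A * G) :=
      Real.log_le_log (by exact_mod_cast Nat.pos_of_ne_zero hn0) hnle
    have h4 : Real.log (2 * thx N X A * G) = Real.log 2 + (X - Sm lg A - Real.log N) +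
        Real.log G := by
      rw [Real.log_mul (by positivity) (by positivity), Real.log_mul (by norm_num) hth.ne']
      unfold thx
      rw [Real.log_div (exp_pos _).ne' hN0.ne', Real.log_exp]
    have h5 := Real.log_two_lt_d9
    have h6 : 0 ≤ Real.log N := Real.log_nonneg hN1
    rw [h1]
    linarith
  -- partition
  have hpart : Sm lg P = Sm lg A + ∑ p ∈ P \ A, lg p := by
    unfold Sm
    rw [add_comm, Finset.sum_sdiff hA]
  have hsub : ∑ p ∈ P \ A, lg p ≤ ∑ p ∈ P.filter (fun p : ℕ => (p : ℝ) ≤ G), lg p + ∑ p ∈ S, lg p +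
      ∑ p ∈ P.filter (fun p => freeP P G κ (thx N X) A p), lg p := by
    have h1 : P \ A ⊆ (P.filter (fun p : ℕ => (p : ℝ) ≤ G) ∪ S) ∪
        P.filter (fun p => freeP P G κ (thx N X) A p) := by
      intro p hp
      rw [Finset.mem_sdiff] at hp
      rw [Finset.mem_union, Finset.mem_union, Finset.mem_filter, hS, Finset.mem_filter,
        Finset.mem_filter]
      by_cases c1 : (p : ℝ) ≤ G
      · exact Or.inl (Or.inl ⟨hp.1, c1⟩)
      · rw [not_le] at c1
        by_cases c2 : (p : ℤ) ∣ r.num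
        · exact Or.inl (Or.inr ⟨hp.1, hp.2, c1, c2⟩)
        · exact Or.inr ⟨hp.1, hp.1, c1, hp.2, c2⟩
    refine (Finset.sum_le_sum_of_subset_of_nonneg h1 fun p _ _ => lg_nonneg p).trans ?_
    refine (sum_union_le_add lg_nonneg).trans ?_
    have := sum_union_le_add (s := P.filter (fun p : ℕ => (p : ℝ) ≤ G)) (t := S) lg_nonneg
    linarith
  have hsm := sum_small_primes_le hP hG
  linarith

variable {χ : DirichletCharacter ℂ N}

lemma lg_le_of_mem {Λ : ℝ} {p : ℕ} (hp : p ∈ iP χ Λ) : lg p ≤ Λ := ((mem_iP χ).mp hp).2.2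

lemma le_exp_of_mem {Λ : ℝ} {p : ℕ} (hp : p ∈ iP χ Λ) : (p : ℝ) ≤ rexp Λ := by
  have h1 := lg_le_of_mem hp
  have hp0 : (0 : ℝ) < p := by exact_mod_cast (iP_prime hp).pos
  unfold lg at h1
  rwa [Real.log_le_iff_le_exp hp0] at h1

lemma ww_le_of_mem {Λ s K : ℝ} (hs : 0 ≤ s) (hΛ : 0 < Λ) (hsK : s ≤ K / Λ) {p : ℕ}
    (hp : p ∈ iP χ Λ) : ww (xs s) p ≤ 1 + rexp K := by
  unfold ww
  have h0 := xs_pos s p
  rw [div_le_iff₀ h0]
  have h1 : 1 ≤ rexp K * xs s p := by
    unfold xs
    rw [← exp_add]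
    apply one_le_exp
    have h2 := lg_le_of_mem hp
    rw [le_div_iff₀ hΛ] at hsK
    have : s * lg p ≤ s * Λ := mul_le_mul_of_nonneg_left h2 hs
    linarith
  linarith

/-- the major arcs carry little mass -/
theorem maj_bound {Λ wb s X β T₁ : ℝ} (hs : 0 ≤ s) (hβ : 0 ≤ β) (hΛ : 1 ≤ Λ) (hwb : 0 ≤ wb)
    (hw : ∀ p ∈ iP χ Λ, ww (xs s) p ≤ wb)
    (hκG : kp Λ * (2 * rexp Λ) * (Λ ^ 5) ^ 2 < 1)
    (hκβ : kp Λ < rexp (β - 13 * Λ / 10) / N)
    (hT : T₁ ≤ Sm lg (iP χ Λ) - X - (Λ ^ 5 * Real.log (Λ ^ 5) + Real.log (Λ ^ 5) + 1)) :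
    T₁ * EE (iP χ Λ) (xs s) (fun A => @ite ℝ (MajA (Λ ^ 5) (kp Λ) (thx N X A)) (Classical.dec _)
        (gI s β (X - Sm lg A + 13 * Λ / 10)) 0) ≤
      Λ * wb * (EE (iP χ Λ) (xs s) (fun A => gI s β (X - Sm lg A + 13 * Λ / 10)) +
        EE (iP χ Λ) (xs s) (fun A => wI (β - Λ - 13 * Λ / 10) Λ (X - Sm lg A))) := by
  classical
  have hN0 : (0 : ℝ) < N := by exact_mod_cast NeZero.pos N
  have hΛ0 : 0 < Λ := by linarith
  have hx : ∀ p, 0 < xs s p := fun p => xs_pos s p
  have hkp : 0 ≤ kp Λ := by unfold kp; positivity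
  have hG1 : 1 ≤ Λ ^ 5 := one_le_pow₀ hΛ
  set f : Finset ℕ → ℝ := fun A => @ite ℝ (MajA (Λ ^ 5) (kp Λ) (thx N X A)) (Classical.dec _)
        (gI s β (X - Sm lg A + 13 * Λ / 10)) 0 with hf
  set h : Finset ℕ → ℝ := fun A => Λ * wb * (gI s β (X - Sm lg A + 13 * Λ / 10) +
    wI (β - Λ - 13 * Λ / 10) Λ (X - Sm lg A)) with hh
  have hf0 : ∀ A, 0 ≤ f A := by
    intro A
    simp only [hf]
    split_ifs
    · exact gI_nonneg _ _ _
    · exact le_rfl
  have key := rigid_count hx (fun p hp => iP_prime (χ := χ) hp) (fun p hp => le_exp_of_mem hp)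
    hkp hκG (th := thx N X) (fun A hA p hp => thx_erase hp (iP_prime (hA hp))) f h lg hf0
    lg_nonneg (fun A _ hne => by
      by_contra hc
      apply hne
      simp only [hf]
      rw [if_neg hc]) (fun A => by
      have := gI_nonneg s β (X - Sm lg A + 13 * Λ / 10)
      have := wI_nonneg (β - Λ - 13 * Λ / 10) Λ (X - Sm lg A)
      simp only [hh]
      positivity) (by
      intro A hA p hp
      have hpP := hA hp
      have h1 := lg_le_of_mem hpP
      have h2 := hw p hpP
      have h3 := lg_nonneg p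
      have h4 : 0 ≤ ww (xs s) p := by unfold ww; have := hx p; positivity
      have h5 : f (A.erase p) ≤ gI s β (X - Sm lg A + 13 * Λ / 10) +
          wI (β - Λ - 13 * Λ / 10) Λ (X - Sm lg A) := by
        have e1 : f (A.erase p) ≤ gI s β (X - Sm lg A + 13 * Λ / 10 + lg p) := by
          simp only [hf]
          have e2 : X - Sm lg (A.erase p) + 13 * Λ / 10 = X - Sm lg A + 13 * Λ / 10 + lg p := by
            rw [Sm_erase hp]; ring
          rw [e2]
          split_ifs
          · exact le_rfl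
          · exact gI_nonneg _ _ _
        refine e1.trans ((gI_shift_le' hs hβ h3 h1).trans (add_le_add_right ?_ _))
        unfold wI
        by_cases c : β - Λ ≤ X - Sm lg A + 13 * Λ / 10 ∧
            X - Sm lg A + 13 * Λ / 10 ≤ β - Λ + Λ
        · rw [if_pos c, if_pos ⟨by linarith [c.1], by linarith [c.2]⟩]
        · rw [if_neg c]; split_ifs <;> norm_num
      calc lg p * ww (xs s) p * f (A.erase p) ≤ Λ * wb * f (A.erase p) := by
            apply mul_le_mul_of_nonneg_right _ (hf0 _)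
            exact mul_le_mul h1 h2 h4 hΛ0.le
        _ ≤ _ := mul_le_mul_of_nonneg_left h5 (by positivity))
  have lhs : T₁ * EE (iP χ Λ) (xs s) f ≤ EE (iP χ Λ) (xs s) (fun A => f A *
      ∑ p ∈ (iP χ Λ).filter (fun p => freeP (iP χ Λ) (Λ ^ 5) (kp Λ) (thx N X) A p),
        lg p * (1 + xs s p)) := by
    rw [← EE_mul]
    apply EE_mono hx
    intro A hA
    by_cases c : f A = 0
    · rw [c]; simp
    · have hm : MajA (Λ ^ 5) (kp Λ) (thx N X A) := by
        by_contra hc
        apply c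
        simp only [hf]
        rw [if_neg hc]
      have hg : gI s β (X - Sm lg A + 13 * Λ / 10) ≠ 0 := by
        intro hc
        apply c
        simp only [hf]
        rw [hc]; simp
      have hy : β ≤ X - Sm lg A + 13 * Λ / 10 := by
        by_contra hc
        apply hg
        unfold gI
        rw [if_neg hc]
      have hth : kp Λ < thx N X A := by
        refine hκβ.trans_le ?_
        unfold thx
        apply div_le_div_of_nonneg_right _ hN0.le
        rw [exp_le_exp]
        linarith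
      have hfree := free_sum (N := N) (fun p hp => iP_prime (χ := χ) hp) hA hG1 hm hth
      rw [mul_comm]
      apply mul_le_mul_of_nonneg_left _ (hf0 A)
      refine hT.trans (hfree.trans ?_)
      apply Finset.sum_le_sum
      intro p _
      have h3 := lg_nonneg p
      have := hx p
      nlinarith
  refine lhs.trans (key.trans (le_of_eq ?_))
  simp only [hh]
  rw [EE_mul, EE_add]

end Pool.Agent.MP0016c7.Ros
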