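import Mathlib
import Pool.Agent.Lib.MP_0016c7_nt.CdlMid
import Pool.Agent.Lib.MP_0016c7_nt.CdlSmall2

open Real Filter

namespace Pool.Agent.MP0016c7.Ros

variable {N : ℕ} [NeZero N] {χ : DirichletCharacter ℂ N}

/-- the cut -/
noncomputable def bt (Λ : ℝ) : ℝ := lg (Mc Λ + 1)

/-- total mass above the cut -/
noncomputable def II (χ : DirichletCharacter ℂ N) (s Λ X : ℝ) : ℝ :=
  EE (iP χ Λ) (xs s) (fun A => gI s (bt Λ) (X - Sm lg A))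

/-- admissible pairs -/
def RC (χ : DirichletCharacter ℂ N) (s Λ X : ℝ) : Prop :=
  X = XX (iP χ) s Λ ∨ (s = 0 ∧ XX (iP χ) 0 Λ ≤ X)

lemma II_eq (s Λ X : ℝ) :
    II χ s Λ X = Ef (iP χ Λ) (xs s) lg (fun S => gI s (bt Λ) (X - S)) := by
  unfold II; rw [Ef_eq_EE]

lemma bt_nonneg (Λ : ℝ) : 0 ≤ bt Λ := lg_nonneg _

omit [NeZero N] in
lemma XX_le_zero (P : ℝ → Finset ℕ) {s : ℝ} (hs : 0 ≤ s) (Λ : ℝ) :
    XX P s Λ ≤ Sm lg (P Λ) / 2 := by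
  unfold XX Xm Sm
  rw [Finset.sum_div]
  apply Finset.sum_le_sum
  intro p _
  have h1 := xs_pos s p
  have h2 := xs_le_one hs p
  have h3 := lg_nonneg p
  rw [mul_div_assoc, div_eq_mul_inv (lg p) 2]
  apply mul_le_mul_of_nonneg_left _ h3
  rw [div_le_iff₀ (by linarith)]
  linarith

lemma I_lower (h2 : χ ^ 2 = 1) (hne : χ ≠ 1) {K : ℝ} (hK : 0 ≤ K) :
    ∃ c : ℝ, 0 < c ∧ ∃ Λ₀ : ℝ, 1 ≤ Λ₀ ∧ ∀ s Λ X : ℝ, Λ₀ ≤ Λ → 0 ≤ s → s ≤ K / Λ →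
      RC χ s Λ X → c * Λ / √(VV (iP χ) s Λ) ≤ II χ s Λ X := by
  obtain ⟨C₀, C₁, Cs, hM⟩ := exists_mdat χ h2 hne
  obtain ⟨c, hc, Λ₂, hΛ₂, hLB⟩ := hM.LB0
  obtain ⟨Λ₃, hΛ₃, hSR⟩ := hM.SR
  have hC0 := hM.C0
  set c' := c * rexp (-K) / 4 with hc'
  have hc'0 : 0 < c' := by positivity
  have hev : ∀ᶠ Λ : ℝ in atTop, 8 / c' * Λ ^ 1 ≤ rexp (1 / 10 * Λ) :=
    ev_pow_exp _ 1 (by norm_num)
  obtain ⟨Λ₄, hΛ₄⟩ := hev.exists_forall_of_atTop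
  refine ⟨c', hc'0, Λ₂ + Λ₃ + |Λ₄| + 16 * C₀ + 4 + 2 * K, by
    have := abs_nonneg Λ₄
    linarith, fun s Λ X hΛ hs0 hsK hRC => ?_⟩
  have hab := abs_nonneg Λ₄
  have hab2 := le_abs_self Λ₄
  have hΛ1 : 4 ≤ Λ := by linarith
  have hΛ0 : 0 < Λ := by linarith
  have hs12 : s ≤ 1 / 2 := by
    refine hsK.trans ?_
    rw [div_le_iff₀ hΛ0]
    linarith
  have hVpos := hM.VV_pos hs0 (by linarith : s ≤ 1) (by linarith) hΛ0
  set X₀ := XX (iP χ) s Λ with hX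
  obtain ⟨v, hv⟩ : ∃ v, v = √(VV (iP χ) s Λ) := ⟨_, rfl⟩
  have hv0 : 0 < v := by rw [hv]; exact sqrt_pos.mpr hVpos
  rw [← hv]
  set G := al (iP χ) 1 s Λ X₀ with hG
  have hGc : c / v ≤ G := by
    have := hLB s Λ X₀ hs0 hs12 (by linarith) (by rw [← hX, sub_self, abs_zero]; norm_num)
    rwa [← hv] at this
  set E₁ := rexp (-(Λ / 10)) / v with hE₁
  have hE0 : 0 ≤ E₁ := by positivity
  obtain ⟨m1, m2, m3⟩ := Mc_bounds hΛ0.le
  have hβ : bt Λ ≤ Λ / 40 + 1 := m3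
  have hβ0 := bt_nonneg Λ
  have hβΛ : bt Λ ≤ Λ := by linarith
  have hB := Bq_near (iP χ) (X := X₀) hs0 (by linarith : s ≤ 1) hβ0 hβΛ hE0 (by
    intro u hu _
    have := hSR s Λ X₀ u hs0 hs12 (by linarith)
    rw [abs_of_nonneg hu, ← hv] at this
    rw [abs_sub_comm]
    refine this.trans (le_of_eq ?_)
    rw [hE₁]; ring)
  rw [← hG] at hB
  have hint : Λ / 2 * rexp (-K) ≤ ∫ u in (bt Λ)..Λ, rexp (-(s * u)) := by
    have h3 : ∫ _u in (bt Λ)..Λ, rexp (-K) ≤ ∫ u in (bt Λ)..Λ, rexp (-(s * u)) := by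
      apply intervalIntegral.integral_mono_on hβΛ
      · exact intervalIntegrable_const
      · exact intervalIntegrable_exp s _ _
      · intro u hu
        rw [exp_le_exp, neg_le_neg_iff]
        rw [le_div_iff₀ hΛ0] at hsK
        have : s * u ≤ s * Λ := mul_le_mul_of_nonneg_left hu.2 hs0
        linarith
    rw [intervalIntegral.integral_const, smul_eq_mul] at h3
    refine le_trans ?_ h3
    apply mul_le_mul_of_nonneg_right _ (exp_pos _).le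
    linarith
  have hle : Bq (iP χ) s Λ X₀ (bt Λ) Λ ≤ II χ s Λ X := by
    rw [II_eq]
    unfold Bq
    apply Ef_mono (fun p => xs_pos s p)
    intro S
    by_cases c1 : bt Λ ≤ X₀ - S ∧ X₀ - S < Λ
    · rw [if_pos c1]
      rcases hRC with h3 | ⟨h3, h4⟩
      · rw [h3]
        unfold gI
        rw [if_pos c1.1]
      · have h5 : X₀ ≤ X := by rw [hX, h3]; exact h4
        unfold gI
        rw [if_pos (by linarith only [c1, h5, c1.1]), h3]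
        simp
    · rw [if_neg c1]
      exact gI_nonneg _ _ _
  have hfin : c' * Λ / v ≤ Bq (iP χ) s Λ X₀ (bt Λ) Λ := by
    have w1 := (abs_le.mp hB).1
    have w2 : c / v * (Λ / 2 * rexp (-K)) ≤ G * ∫ u in (bt Λ)..Λ, rexp (-(s * u)) := by
      apply mul_le_mul hGc hint (by positivity)
      exact le_trans (by positivity) hGc
    have w3 : 2 * (1 + Λ) ^ 2 * E₁ ≤ c' * Λ / v := by
      rw [hE₁, ← mul_div_assoc]
      apply div_le_div_of_nonneg_right _ hv0.le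
      have w4 := hΛ₄ Λ (by linarith only [hK, hΛ₂, hΛ₃, hC0, hΛ, hab2])
      rw [pow_one] at w4
      have w51 : (1 : ℝ) ≤ Λ := by linarith only [hK, hΛ₂, hΛ₃, hC0, hΛ, hab]
      have w52 := mul_nonneg hΛ0.le (sub_nonneg.mpr w51)
      have w5 : 2 * (1 + Λ) ^ 2 ≤ 8 * Λ * Λ := by linarith only [w51, w52]
      have w6 : 8 * Λ ≤ c' * rexp (Λ / 10) := by
        have : 8 / c' * Λ ≤ rexp (Λ / 10) := by
          refine w4.trans (le_of_eq ?_)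
          congr 1; ring
        have := mul_le_mul_of_nonneg_left this hc'0.le
        rw [← mul_assoc, mul_div_cancel₀ _ hc'0.ne'] at this
        exact this
      calc 2 * (1 + Λ) ^ 2 * rexp (-(Λ / 10)) ≤ (8 * Λ * Λ) * rexp (-(Λ / 10)) :=
            mul_le_mul_of_nonneg_right w5 (exp_pos _).le
        _ ≤ (c' * rexp (Λ / 10) * Λ) * rexp (-(Λ / 10)) := by
            apply mul_le_mul_of_nonneg_right _ (exp_pos _).le
            exact mul_le_mul_of_nonneg_right w6 hΛ0.le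
        _ = c' * Λ * (rexp (Λ / 10) * rexp (-(Λ / 10))) := by ring
        _ = c' * Λ := by rw [← exp_add, add_neg_cancel, exp_zero, mul_one]
    have w7 : c / v * (Λ / 2 * rexp (-K)) = 2 * (c' * Λ / v) := by
      rw [hc']; field_simp; ring
    linarith only [w1, w2, w3, w7]
  exact hfin.trans hle

lemma small_arith {I Eg W1 W4 WL Em v c D Λ wb s K T₁ δ R : ℝ} (hc : 0 < c) (hv : 0 < v)
    (hD : 0 < D) (hΛ : 1 ≤ Λ) (hwb : 0 ≤ wb) (hI : c * Λ / v ≤ I) (hs : 0 ≤ s) (hsK : s ≤ K / Λ)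
    (hEg : Eg ≤ I + W1) (hW1 : W1 ≤ (13 * Λ / 10 + 1) * (rexp 1 * (D / v)))
    (hW4 : W4 ≤ (4 + 1) * (rexp 1 * (D / v))) (hWL : WL ≤ (Λ + 1) * (rexp 1 * (D / v)))
    (hEg0 : 0 ≤ Eg) (hEm0 : 0 ≤ Em)
    (hEm : T₁ * Em ≤ Λ * wb * (Eg + WL)) (hT : Λ ^ 2 ≤ T₁) (hδ : δ ≤ 1 / v)
    (hR : R ≤ 4 * (4 * s * Eg + W4) + (6 * (1 / Λ) + 13000 / Λ) * Eg + Em + 3 * (1 / Λ) * I +
      5 * wb ^ 2 * δ) :
    R ≤ (16 * K * (1 + 3 * (rexp 1 * D / c)) + 20 * (rexp 1 * D / c) +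
      13006 * (1 + 3 * (rexp 1 * D / c)) + wb * (1 + 5 * (rexp 1 * D / c)) + 3 +
      5 * wb ^ 2 / c) / Λ * I := by
  have hΛ0 : 0 < Λ := by linarith only [hΛ]
  have hI0 : 0 < I := lt_of_lt_of_le (by positivity) hI
  obtain ⟨a, ha⟩ : ∃ a, a = rexp 1 * D / c := ⟨_, rfl⟩
  obtain ⟨q, hq⟩ : ∃ q, q = rexp 1 * (D / v) := ⟨_, rfl⟩
  have ha0 : 0 < a := by rw [ha]; positivity
  have hq0 : 0 < q := by rw [hq]; positivity
  have hv1 : 1 / v ≤ I / (c * Λ) := by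
    rw [le_div_iff₀ (by positivity)]
    refine le_trans (le_of_eq ?_) hI
    ring
  have hqa : q ≤ a * I / Λ := by
    have h1 : q = (rexp 1 * D) * (1 / v) := by rw [hq]; ring
    have h2 : a * I / Λ = (rexp 1 * D) * (I / (c * Λ)) := by rw [ha]; field_simp
    rw [h1, h2]
    exact mul_le_mul_of_nonneg_left hv1 (by positivity)
  rw [← hq] at hW1 hW4 hWL
  rw [← ha]
  have hqΛ : Λ * q ≤ a * I := by
    have := mul_le_mul_of_nonneg_left hqa hΛ0.le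
    refine this.trans (le_of_eq ?_)
    field_simp
  have hqΛ1 : q ≤ Λ * q := le_mul_of_one_le_left hq0.le hΛ
  have haI : 0 ≤ a * I := by positivity
  have b1 : Eg ≤ (1 + 3 * a) * I := by linarith only [hEg, hW1, hqΛ, hqΛ1, haI]
  have b2 : WL ≤ 2 * (a * I) := by linarith only [hWL, hqΛ, hqΛ1]
  have hK0 : 0 ≤ K := by
    have := hs.trans hsK
    rwa [le_div_iff₀ hΛ0, zero_mul] at this
  have b3 : Em ≤ wb * (1 + 5 * a) * I / Λ := by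
    rw [le_div_iff₀ hΛ0]
    have h1 : Λ ^ 2 * Em ≤ Λ * (wb * ((1 + 5 * a) * I)) := by
      calc Λ ^ 2 * Em ≤ T₁ * Em := mul_le_mul_of_nonneg_right hT hEm0
        _ ≤ Λ * wb * (Eg + WL) := hEm
        _ ≤ Λ * wb * ((1 + 5 * a) * I) := by
            apply mul_le_mul_of_nonneg_left _ (by positivity)
            linarith
        _ = _ := by ring
    have h2 : Λ * (Em * Λ) ≤ Λ * (wb * ((1 + 5 * a) * I)) := by
      refine le_trans (le_of_eq ?_) h1; ring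
    have := le_of_mul_le_mul_left h2 hΛ0
    linarith only [this]
  have b4 : 4 * (4 * s * Eg) ≤ 16 * K * (1 + 3 * a) * I / Λ := by
    calc 4 * (4 * s * Eg) = 16 * (s * Eg) := by ring
      _ ≤ 16 * (K / Λ * ((1 + 3 * a) * I)) := by
          apply mul_le_mul_of_nonneg_left _ (by norm_num)
          exact mul_le_mul hsK b1 hEg0 (by positivity)
      _ = _ := by ring
  have b5 : 4 * W4 ≤ 20 * a * I / Λ := by
    have : 20 * a * I / Λ = 20 * (a * I / Λ) := by ring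
    rw [this]; linarith only [hW4, hqa]
  have b6 : (6 * (1 / Λ) + 13000 / Λ) * Eg ≤ 13006 * (1 + 3 * a) * I / Λ := by
    have e : (6 * (1 / Λ) + 13000 / Λ) * Eg = 13006 / Λ * Eg := by ring
    have e2 : 13006 * (1 + 3 * a) * I / Λ = 13006 / Λ * ((1 + 3 * a) * I) := by ring
    rw [e, e2]
    exact mul_le_mul_of_nonneg_left b1 (by positivity)
  have b7 : 5 * wb ^ 2 * δ ≤ 5 * wb ^ 2 / c * I / Λ := by
    have e : 5 * wb ^ 2 / c * I / Λ = 5 * wb ^ 2 * (I / (c * Λ)) := by field_simp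
    rw [e]
    exact mul_le_mul_of_nonneg_left (hδ.trans hv1) (by positivity)
  have e3 : (16 * K * (1 + 3 * a) + 20 * a + 13006 * (1 + 3 * a) + wb * (1 + 5 * a) + 3 +
      5 * wb ^ 2 / c) / Λ * I = 16 * K * (1 + 3 * a) * I / Λ + 20 * a * I / Λ +
      13006 * (1 + 3 * a) * I / Λ + wb * (1 + 5 * a) * I / Λ + 3 * (1 / Λ) * I +
      5 * wb ^ 2 / c * I / Λ := by ring
  rw [e3]
  linarith only [hR, b3, b4, b5, b6, b7]

/-- shifted masses -/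
lemma EE_shift_le {s Λ X β L : ℝ} (hs : 0 ≤ s) (hβ : 0 ≤ β) (hL : 0 ≤ L) :
    EE (iP χ Λ) (xs s) (fun A => gI s β (X - Sm lg A + L)) ≤
      EE (iP χ Λ) (xs s) (fun A => gI s β (X - Sm lg A)) +
      EE (iP χ Λ) (xs s) (fun A => wI (β - L) L (X - Sm lg A)) := by
  rw [← EE_add]
  exact EE_mono (fun p => xs_pos s p) fun A _ => gI_shift_le hs hβ hL

/-- window masses -/
lemma EE_window_le {s Λ X D' : ℝ} (hD : ∀ z, al (iP χ) 1 s Λ z ≤ D') (z : ℝ) {w : ℝ}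
    (hw : 0 ≤ w) :
    EE (iP χ Λ) (xs s) (fun A => wI z w (X - Sm lg A)) ≤ (w + 1) * (rexp 1 * D') := by
  have := mass_window (iP χ) (X := X) hD z w hw
  rw [Ef_eq_EE] at this
  exact this

/-- **Equidistribution for small tilts.** -/
theorem small_eqd (hSW : SWd) (h2 : χ ^ 2 = 1) (hne : χ ≠ 1) {K : ℝ} (hK : 0 ≤ K) :
    ∃ C : ℝ, 0 < C ∧ ∃ Λ₀ : ℝ, 1 ≤ Λ₀ ∧ ∀ s Λ X : ℝ, Λ₀ ≤ Λ → 0 ≤ s → s ≤ K / Λ →
      RC χ s Λ X → X ≤ 3 / 5 * Sm lg (iP χ Λ) → ∀ h : ℤ, h ≠ 0 → |(h : ℝ)| ≤ Λ →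
      ‖EE (iP χ Λ) (xs s) (fun A => ((gI s (bt Λ) (X - Sm lg A) : ℝ) : ℂ) *
        eu (h * thx N X A))‖ ≤ C / Λ * II χ s Λ X := by
  obtain ⟨C₀, C₁, Cs, hM⟩ := exists_mdat χ h2 hne
  have hC0 := hM.C0
  have hN0 : (0 : ℝ) < N := by exact_mod_cast NeZero.pos N
  obtain ⟨D, hD, Λ₁, hΛ₁, hU⟩ := hM.UB0
  obtain ⟨c, hc, Λ₂, hΛ₂, hI⟩ := I_lower h2 hne hK
  have hwb : (2 : ℝ) ≤ 1 + rexp K := by
    have := one_le_exp hK
    linarith
  obtain ⟨Λ₃, hΛ₃, hpk⟩ := pack hSW h2 hne hwb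
  obtain ⟨Λ₄, hΛ₄⟩ := (ev_pow_exp 4 18 (by norm_num : (0 : ℝ) < 3 / 10)).exists_forall_of_atTop
  obtain ⟨Λ₅, hΛ₅⟩ := (ev_pow_exp (2 * (N : ℝ)) 8 (by norm_num : (0 : ℝ) < 1 / 40)).exists_forall_of_atTop
  obtain ⟨Λ₆, hΛ₆⟩ := (ev_pow_exp 6400 6 (by norm_num : (0 : ℝ) < 1 / 2)).exists_forall_of_atTop
  have h4 := le_abs_self Λ₄
  have h5 := le_abs_self Λ₅
  have h6 := le_abs_self Λ₆
  have h4' := abs_nonneg Λ₄
  have h5' := abs_nonneg Λ₅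
  have h6' := abs_nonneg Λ₆
  set wb := 1 + rexp K with hwbd
  refine ⟨16 * K * (1 + 3 * (rexp 1 * D / c)) + 20 * (rexp 1 * D / c) +
      13006 * (1 + 3 * (rexp 1 * D / c)) + wb * (1 + 5 * (rexp 1 * D / c)) + 3 +
      5 * wb ^ 2 / c, by (clear * - hK hD hc; positivity), Λ₁ + Λ₂ + Λ₃ + |Λ₄| + |Λ₅| + |Λ₆| + 16 * C₀ + 2 * K + 8,
      by linarith, fun s Λ X hΛ hs0 hsK hRC hX h hh hhΛ => ?_⟩
  have hΛ8 : 8 ≤ Λ := by linarith
  have hΛ1 : 1 ≤ Λ := by linarith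
  have hΛ0 : 0 < Λ := by linarith
  have hs12 : s ≤ 1 / 2 := by
    refine hsK.trans ?_
    rw [div_le_iff₀ hΛ0]
    linarith
  have hVpos := hM.VV_pos hs0 (by linarith : s ≤ 1) (by linarith) hΛ0
  obtain ⟨v, hv⟩ : ∃ v, v = √(VV (iP χ) s Λ) := ⟨_, rfl⟩
  have hv0 : 0 < v := by rw [hv]; exact sqrt_pos.mpr hVpos
  have hβ0 := bt_nonneg Λ
  have hw : ∀ p ∈ iP χ Λ, ww (xs s) p ≤ wb := fun p hp => ww_le_of_mem hs0 hΛ0 hsK hp
  have hUs : ∀ z, al (iP χ) 1 s Λ z ≤ D / v := fun z => by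
    have := hU s Λ z hs0 hs12 (by linarith)
    rwa [← hv] at this
  have hIl := hI s Λ X (by linarith) hs0 hsK hRC
  rw [← hv] at hIl
  have hlog1 : Real.log ((1 : ℕ) : ℝ) ≤ Λ ^ 10 := by
    rw [Nat.cast_one, Real.log_one]; positivity
  have key := eqd_bound (X := X) (hpk Λ (by linarith) 1 one_ne_zero hlog1) hwb hs0 hs12 hβ0 hΛ1 hw
    hh hhΛ
  -- total log mass
  have hT0 : 16 * Λ ^ 7 ≤ Sm lg (iP χ Λ) := by
    have q1 := hM.VV_ge (σ := 0) le_rfl zero_le_one (by linarith only [hK, hΛ₁, hΛ₂, hΛ₃, h4', h5', h6', hΛ] : 16 * C₀ ≤ Λ)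
    have q2 := hM.VV_le (σ := 0) hΛ0.le
    have q3 := XX_le_zero (iP χ) le_rfl Λ
    have q4 := hΛ₆ Λ (by linarith only [hK, hC0, hΛ₁, hΛ₂, hΛ₃, h6, h4', h5', hΛ])
    have q5 : rexp ((1 - 0) * Λ / 2) = rexp (1 / 2 * Λ) := by congr 1; ring
    rw [q5] at q1
    have q6 : Λ * (Λ * rexp (1 / 2 * Λ) / 64) ≤ Λ * (Sm lg (iP χ Λ) / 2) := by
      calc Λ * (Λ * rexp (1 / 2 * Λ) / 64) = Λ ^ 2 * rexp (1 / 2 * Λ) / 64 := by ring
        _ ≤ Λ * XX (iP χ) 0 Λ := q1.trans q2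
        _ ≤ _ := mul_le_mul_of_nonneg_left q3 hΛ0.le
    have q7 := le_of_mul_le_mul_left q6 hΛ0
    have q8 : Λ * (6400 * Λ ^ 6) ≤ Λ * rexp (1 / 2 * Λ) := mul_le_mul_of_nonneg_left q4 hΛ0.le
    have q9 : Λ * (6400 * Λ ^ 6) = 6400 * Λ ^ 7 := by ring
    have : 0 < Λ ^ 7 := by positivity
    linarith only [q7, q8, this]
  have hlogΛ : Real.log (Λ ^ 5) ≤ 5 * Λ := by
    rw [Real.log_pow]
    have := Real.log_le_sub_one_of_pos hΛ0
    push_cast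
    linarith only [this]
  have hT1 : Λ ^ 2 ≤ Sm lg (iP χ Λ) - X -
      (Λ ^ 5 * Real.log (Λ ^ 5) + Real.log (Λ ^ 5) + 1) := by
    have a1 : Λ ^ 5 * Real.log (Λ ^ 5) ≤ 5 * Λ ^ 6 := by
      calc _ ≤ Λ ^ 5 * (5 * Λ) := mul_le_mul_of_nonneg_left hlogΛ (by positivity)
        _ = _ := by ring
    have a2 : 8 * Λ ^ 6 ≤ Λ ^ 7 := by
      calc 8 * Λ ^ 6 ≤ Λ * Λ ^ 6 := mul_le_mul_of_nonneg_right hΛ8 (by positivity)
        _ = _ := by ring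
    have a3 : Λ ^ 2 ≤ Λ ^ 6 := pow_le_pow_right₀ hΛ1 (by norm_num)
    have a4 : 5 * Λ ≤ Λ ^ 2 := by
      rw [sq]; exact mul_le_mul_of_nonneg_right (by linarith only [hΛ8]) hΛ0.le
    have a5 : 1 ≤ Λ ^ 6 := one_le_pow₀ hΛ1
    linarith only [hK, hC0, hΛ₁, hΛ₂, hΛ₃, h4', h5', h6', hΛ, hX, hT0, hlogΛ, a1, a2, a3, a4]
  have hκG : kp Λ * (2 * rexp Λ) * (Λ ^ 5) ^ 2 < 1 := by
    have a1 := hΛ₄ Λ (by linarith)
    have a2 : kp Λ * (2 * rexp Λ) * (Λ ^ 5) ^ 2 = (2 * Λ ^ 18) * rexp (-(3 / 10 * Λ)) := by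
      unfold kp
      have : rexp (-(3 / 10 * Λ)) = rexp (-(13 * Λ / 10)) * rexp Λ := by
        rw [← exp_add]; congr 1; ring
      rw [this]; ring
    rw [a2]
    have a3 : 0 < rexp (-(3 / 10 * Λ)) := exp_pos _
    have a4 : rexp (3 / 10 * Λ) * rexp (-(3 / 10 * Λ)) = 1 := by
      rw [← exp_add, add_neg_cancel, exp_zero]
    have a5 : 0 < Λ ^ 18 := by positivity
    have a6 := mul_le_mul_of_nonneg_right a1 a3.le
    rw [a4] at a6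
    linarith only [mul_pos a5 a3, a6]
  have hκβ : kp Λ < rexp (bt Λ - 13 * Λ / 10) / N := by
    rw [lt_div_iff₀ hN0]
    have a1 := hΛ₅ Λ (by linarith)
    obtain ⟨m1, m2, m3⟩ := Mc_bounds hΛ0.le
    have a2 : rexp (1 / 40 * Λ) * rexp (-(13 * Λ / 10)) ≤ rexp (bt Λ - 13 * Λ / 10) := by
      rw [← exp_add, exp_le_exp]
      have : Λ / 40 ≤ bt Λ := m2
      linarith only [this]
    refine lt_of_lt_of_le ?_ a2
    unfold kp
    have a3 : 0 < rexp (-(13 * Λ / 10)) := exp_pos _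
    have a4 : 0 < Λ ^ 8 := by positivity
    have a5 := mul_le_mul_of_nonneg_right a1 a3.le
    have a6 : 0 < (N : ℝ) * Λ ^ 8 * rexp (-(13 * Λ / 10)) := by positivity
    linarith only [a5, a6]
  have hmaj := maj_bound (N := N) (χ := χ) (X := X) hs0 hβ0 hΛ1 (by linarith) hw hκG hκβ le_rfl
  have hδ : rexp (-(2 * Λ)) ≤ 1 / v := by
    rw [le_div_iff₀ hv0]
    have a1 : v ≤ rexp (3 / 2 * Λ) := by
      rw [hv, sqrt_le_left (exp_pos _).le]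
      refine (hM.VV_le hΛ0.le).trans ?_
      have a2 := hM.XX_le (σ := s) (by linarith) (by linarith only [hK, hC0, hΛ₁, hΛ₂, hΛ₃, h4', h5', h6', hΛ] : 2 * C₀ ≤ Λ)
      have a3 : rexp ((1 - s) * Λ) ≤ rexp Λ := by
        rw [exp_le_exp]; exact mul_le_of_le_one_left hΛ0.le (by linarith only [hs0])
      have a4 : Λ ≤ rexp Λ := by linarith [add_one_le_exp Λ]
      have a5 : rexp (3 / 2 * Λ) ^ 2 = rexp Λ * (rexp Λ * rexp Λ) := by
        rw [← exp_nat_mul, ← exp_add, ← exp_add]; congr 1; push_cast; ring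
      rw [a5]
      apply mul_le_mul a4 (a2.trans _) _ (exp_pos _).le
      · exact mul_le_mul a3 a4 hΛ0.le (exp_pos _).le
      · exact (hM.XX_pos hs0 (by linarith only [hs12]) (by linarith only [hK, hΛ₁, hΛ₂, hΛ₃, h4', h5', h6', hΛ]) hΛ0).le
    calc rexp (-(2 * Λ)) * v ≤ rexp (-(2 * Λ)) * rexp (3 / 2 * Λ) :=
          mul_le_mul_of_nonneg_left a1 (exp_pos _).le
      _ ≤ 1 := by rw [← exp_add, exp_le_one_iff]; linarith only [hK, hC0, hΛ₁, hΛ₂, hΛ₃, h4', h5', h6', hΛ]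
  have hx : ∀ p, 0 < xs s p := fun p => xs_pos s p
  refine small_arith (T₁ := Sm lg (iP χ Λ) - X -
      (Λ ^ 5 * Real.log (Λ ^ 5) + Real.log (Λ ^ 5) + 1)) hc hv0 hD hΛ1 (by linarith only [hwb])
      hIl hs0 hsK
    (EE_shift_le hs0 hβ0 (by positivity)) (EE_window_le hUs _ (by positivity))
    (EE_window_le hUs (bt Λ - 13 * Λ / 10 - 2) (by norm_num : (0 : ℝ) ≤ 4))
    (EE_window_le hUs _ hΛ0.le) ?_ ?_ hmaj hT1 hδ key
  · exact EE_nonneg hx fun A _ => gI_nonneg _ _ _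
  · apply EE_nonneg hx
    intro A _
    split_ifs
    · exact gI_nonneg _ _ _
    · exact le_rfl

end Pool.Agent.MP0016c7.Ros
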