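import Mathlib
import Pool.Agent.Lib.MP_0016c7_nt.CdlMean
import Pool.Agent.Lib.MP_0016c7_nt.CdlBlk

open Real Set MeasureTheory Filter Topology

namespace Pool.Agent.MP0016c7.Ros

variable {N : ℕ} [NeZero N] {χ : DirichletCharacter ℂ N}

/-- trapezoid function on the circle -/
noncomputable def tp (K r : ℝ) (z : UnitAddCircle) : ℝ := min 1 (max 0 (K * (r - ‖z‖)))

lemma continuous_tp (K r : ℝ) : Continuous (tp K r) := by
  unfold tp
  fun_prop

lemma tp_nonneg (K r : ℝ) (z : UnitAddCircle) : 0 ≤ tp K r z :=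
  le_min zero_le_one (le_max_left _ _)

lemma tp_le_one (K r : ℝ) (z : UnitAddCircle) : tp K r z ≤ 1 := min_le_left _ _

lemma tp_eq_one {K r : ℝ} (hK : 0 < K) {z : UnitAddCircle} (h : ‖z‖ ≤ r - 1 / K) :
    tp K r z = 1 := by
  unfold tp
  apply min_eq_left
  refine le_trans ?_ (le_max_right _ _)
  have : K * (1 / K) ≤ K * (r - ‖z‖) := mul_le_mul_of_nonneg_left (by linarith) hK.le
  rwa [mul_one_div_cancel hK.ne'] at this

lemma tp_eq_zero {K r : ℝ} (hK : 0 < K) {z : UnitAddCircle} (h : r ≤ ‖z‖) : tp K r z = 0 := by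
  unfold tp
  rw [max_eq_left (by nlinarith)]
  exact min_eq_right zero_le_one

lemma integral_tp_ge {K r : ℝ} (hK : 0 < K) (h1 : 2 * (r - 1 / K) ≤ 1)
    (a : UnitAddCircle) : 2 * (r - 1 / K) ≤ ∫ z : UnitAddCircle, tp K r (z - a) := by
  have hint : Integrable (fun z : UnitAddCircle => tp K r (z - a)) := by
    apply Continuous.integrable_of_hasCompactSupport ((continuous_tp K r).comp (by fun_prop))
    exact HasCompactSupport.of_compactSpace _
  rcases lt_or_ge (r - 1 / K) 0 with h | h
  · have : 0 ≤ ∫ z : UnitAddCircle, tp K r (z - a) := integral_nonneg fun z => tp_nonneg _ _ _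
    linarith only [h, this]
  have hball : ∫ z : UnitAddCircle, (Metric.closedBall a (r - 1 / K)).indicator (fun _ => (1 : ℝ)) z =
      2 * (r - 1 / K) := by
    rw [integral_indicator Metric.isClosed_closedBall.measurableSet, setIntegral_const, Measure.real,
      AddCircle.volume_closedBall, ENNReal.toReal_ofReal (by
        apply le_min zero_le_one; positivity), min_eq_right h1]
    simp
  rw [← hball]
  apply integral_mono
  · apply (integrable_const (1 : ℝ)).indicator Metric.isClosed_closedBall.measurableSet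
  · exact hint
  · intro z
    simp only
    by_cases hz : z ∈ Metric.closedBall a (r - 1 / K)
    · rw [indicator_of_mem hz, tp_eq_one hK]
      rwa [Metric.mem_closedBall, dist_eq_norm] at hz
    · rw [indicator_of_notMem hz]
      exact tp_nonneg _ _ _

/-- continuous minorant of the partial sums -/
noncomputable def gm (χ : DirichletCharacter ℂ N) (K : ℝ) (z : UnitAddCircle) : ℝ :=
  -(N : ℝ) + ∑ i ∈ Finset.range N, (Sn χ i + N) *
    tp K (1 / (2 * N)) (z - (((i + 1 / 2) / N : ℝ) : UnitAddCircle))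

omit [NeZero N] in
lemma continuous_gm (K : ℝ) : Continuous (gm χ K) := by
  unfold gm
  apply Continuous.add continuous_const
  apply continuous_finsetSum
  intro i _
  apply Continuous.mul continuous_const
  exact (continuous_tp _ _).comp (by fun_prop)

lemma gm_le (hne : χ ≠ 1) {K : ℝ} (hK : 0 < K) {θ : ℝ} (hθ : 0 ≤ θ) :
    gm χ K (θ : UnitAddCircle) ≤ Sn χ ⌊(N : ℝ) * θ⌋₊ := by
  have hN0 : (0 : ℝ) < N := by exact_mod_cast NeZero.pos N
  set j := ⌊(N : ℝ) * θ⌋₊ % N with hj
  have hjN : j < N := Nat.mod_lt _ (NeZero.pos N)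
  rw [← Sn_mod hne, ← hj]
  unfold gm
  have hz : ∀ i ∈ Finset.range N, i ≠ j → (Sn χ i + N) *
      tp K (1 / (2 * N)) ((θ : UnitAddCircle) - (((i + 1 / 2) / N : ℝ) : UnitAddCircle)) = 0 := by
    intro i hi hij
    rw [tp_eq_zero hK, mul_zero]
    by_contra hc
    rw [not_le] at hc
    rw [← AddCircle.coe_sub, UnitAddCircle.norm_eq] at hc
    set m := round (θ - (i + 1 / 2) / N) with hm
    rw [abs_lt] at hc
    obtain ⟨c1, c2⟩ := hc
    have d1 : (i : ℝ) + N * m < N * θ := by
      have := mul_lt_mul_of_pos_left c1 hN0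
      have e1 : (N : ℝ) * -(1 / (2 * N)) = -(1 / 2) := by field_simp
      have e2 : (N : ℝ) * (θ - (i + 1 / 2) / N - m) = N * θ - (i + 1 / 2) - N * m := by
        field_simp
      rw [e1, e2] at this
      linarith only [this]
    have d2 : (N : ℝ) * θ < i + 1 + N * m := by
      have := mul_lt_mul_of_pos_left c2 hN0
      have e1 : (N : ℝ) * (1 / (2 * N)) = 1 / 2 := by field_simp
      have e2 : (N : ℝ) * (θ - (i + 1 / 2) / N - m) = N * θ - (i + 1 / 2) - N * m := by
        field_simp
      rw [e1, e2] at this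
      linarith only [this]
    have d3 : ⌊(N : ℝ) * θ⌋ = i + N * m := by
      rw [Int.floor_eq_iff]
      push_cast
      constructor <;> linarith only [d1, d2]
    have d4 : ((⌊(N : ℝ) * θ⌋₊ : ℕ) : ℤ) = i + N * m := by
      rw [← d3]
      exact Int.natCast_floor_eq_floor (by positivity)
    apply hij
    have d5 : ((⌊(N : ℝ) * θ⌋₊ : ℕ) : ℤ) % (N : ℤ) = i := by
      rw [d4, Int.add_mul_emod_self_left]
      exact Int.emod_eq_of_lt (by positivity) (by exact_mod_cast Finset.mem_range.mp hi)
    rw [hj]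
    exact_mod_cast d5.symm
  rw [Finset.sum_eq_single_of_mem j (Finset.mem_range.mpr hjN) hz]
  have h1 := tp_le_one K (1 / (2 * N)) ((θ : UnitAddCircle) - (((j + 1 / 2) / N : ℝ) : UnitAddCircle))
  have h2 := (abs_le.mp (abs_Sn_le hne j)).1
  have h3 : 0 ≤ Sn χ j + N := by linarith
  nlinarith only [h1, h2]

lemma vol_univ : (volume : Measure UnitAddCircle).real Set.univ = 1 := by
  unfold Measure.real
  rw [UnitAddCircle.measure_univ]
  rfl

lemma integral_gm_ge (hne : χ ≠ 1) {K : ℝ} (hK : 0 < K) :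
    Sbar χ - 4 * (N : ℝ) ^ 2 / K ≤ ∫ z : UnitAddCircle, gm χ K z := by
  have hN0 : (0 : ℝ) < N := by exact_mod_cast NeZero.pos N
  have hN1 : (1 : ℝ) ≤ N := by exact_mod_cast NeZero.pos N
  have hint : ∀ i : ℕ, Integrable (fun z : UnitAddCircle => (Sn χ i + N) *
      tp K (1 / (2 * N)) (z - (((i + 1 / 2) / N : ℝ) : UnitAddCircle))) := by
    intro i
    apply Continuous.integrable_of_hasCompactSupport
    · exact continuous_const.mul ((continuous_tp _ _).comp (by fun_prop))
    · exact HasCompactSupport.of_compactSpace _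
  unfold gm
  rw [integral_add (integrable_const _) (integrable_finsetSum _ fun i _ => hint i),
    integral_finsetSum _ fun i _ => hint i]
  have h1 : ∀ i ∈ Finset.range N, (Sn χ i + N) * (1 / N - 2 / K) ≤
      ∫ z : UnitAddCircle, (Sn χ i + N) *
        tp K (1 / (2 * N)) (z - (((i + 1 / 2) / N : ℝ) : UnitAddCircle)) := by
    intro i _
    rw [integral_const_mul]
    have h2 := (abs_le.mp (abs_Sn_le hne i)).1
    apply mul_le_mul_of_nonneg_left _ (by linarith)
    refine le_trans (le_of_eq ?_) (integral_tp_ge hK ?_ _)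
    · field_simp
    · have h3 : (1 : ℝ) / (2 * N) ≤ 1 / 2 := by
        apply one_div_le_one_div_of_le (by norm_num); linarith
      have h4 : 0 < 1 / K := by positivity
      linarith
  refine le_trans ?_ (add_le_add_right (Finset.sum_le_sum h1) _)
  rw [integral_const]
  rw [vol_univ, one_smul]
  rw [← Finset.sum_mul, Finset.sum_add_distrib, Finset.sum_const, Finset.card_range, nsmul_eq_mul]
  have hS : ∑ i ∈ Finset.range N, Sn χ i = Sbar χ * N := by unfold Sbar; field_simp
  rw [hS]
  have e : -(N : ℝ) + (Sbar χ * N + N * N) * (1 / N - 2 / K) =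
      Sbar χ - 2 * N * (Sbar χ + N) / K := by
    field_simp
    ring
  rw [e]
  have h5 := (abs_le.mp (abs_Sbar_le hne)).2
  have h6 : 2 * N * (Sbar χ + N) / K ≤ 4 * (N : ℝ) ^ 2 / K := by
    apply div_le_div_of_nonneg_right _ hK.le
    nlinarith only [h5]
  linarith only [h6]

lemma fourier_eq_eu (n : ℤ) (θ : ℝ) : (fourier n (θ : UnitAddCircle) : ℂ) = eu (n * θ) := by
  rw [fourier_coe_apply]
  unfold eu ex
  congr 1
  push_cast
  ring

/-- **Trigonometric minorant.** -/
theorem trig_minorant (hne : χ ≠ 1) {ε : ℝ} (hε : 0 < ε) :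
    ∃ F : Finset ℤ, ∃ c : ℤ → ℂ, (0 : ℤ) ∉ F ∧ ∀ θ : ℝ, 0 ≤ θ →
      Sbar χ - ε + (∑ h ∈ F, c h * eu (h * θ)).re ≤ Sn χ ⌊(N : ℝ) * θ⌋₊ := by
  classical
  have hN0 : (0 : ℝ) < N := by exact_mod_cast NeZero.pos N
  set K := 8 * (N : ℝ) ^ 2 / ε + 1 with hK
  have hK0 : 0 < K := by positivity
  have hKε : 4 * (N : ℝ) ^ 2 / K ≤ ε / 2 := by
    rw [div_le_iff₀ hK0, hK]
    have : ε / 2 * (8 * (N : ℝ) ^ 2 / ε + 1) = 4 * (N : ℝ) ^ 2 + ε / 2 := by field_simp; ring
    rw [this]; linarith only [hε]
  set g : C(UnitAddCircle, ℂ) := ⟨fun z => ((gm χ K z : ℝ) : ℂ),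
    Complex.continuous_ofReal.comp (continuous_gm K)⟩ with hg
  have hmem : g ∈ (Submodule.span ℂ (Set.range (@fourier 1))).topologicalClosure := by
    rw [span_fourier_closure_eq_top]; trivial
  rw [← SetLike.mem_coe, Submodule.topologicalClosure_coe, Metric.mem_closure_iff] at hmem
  obtain ⟨p, hp, hdist⟩ := hmem (ε / 4) (by positivity)
  rw [SetLike.mem_coe, Finsupp.mem_span_range_iff_exists_finsupp] at hp
  obtain ⟨c, hc⟩ := hp
  have hpv : ∀ z : UnitAddCircle, p z = ∑ h ∈ c.support, c h * fourier h z := by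
    intro z
    rw [← hc, Finsupp.sum]
    simp
  have hclose : ∀ z : UnitAddCircle, ‖g z - p z‖ ≤ ε / 4 := by
    intro z
    have h1 := ContinuousMap.dist_apply_le_dist (f := g) (g := p) z
    rw [dist_eq_norm] at h1
    exact h1.trans hdist.le
  -- the constant term
  have hint_p : ∫ z : UnitAddCircle, p z = c 0 := by
    have h1 : ∀ h : ℤ, ∫ z : UnitAddCircle, (fourier h z : ℂ) = if h = 0 then 1 else 0 := by
      intro h
      have h2 := congrFun (fourierCoeff_fourier (T := 1) h) 0
      rw [fourierCoeff, AddCircle.integral_haarAddCircle] at h2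
      simp only [neg_zero, fourier_zero, one_smul, inv_one] at h2
      rw [h2, Pi.single_apply]
      by_cases h3 : h = 0
      · rw [if_pos h3, if_pos h3.symm]
      · rw [if_neg h3, if_neg (Ne.symm h3)]
    have h3 : ∫ z : UnitAddCircle, p z = ∑ h ∈ c.support, c h * ∫ z : UnitAddCircle,
        (fourier h z : ℂ) := by
      simp_rw [hpv]
      rw [integral_finsetSum]
      · exact Finset.sum_congr rfl fun h _ => integral_const_mul _ _
      · intro h _
        apply Continuous.integrable_of_hasCompactSupport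
        · exact continuous_const.mul (fourier h).continuous
        · exact HasCompactSupport.of_compactSpace _
    rw [h3]
    simp_rw [h1]
    rw [Finset.sum_congr rfl (g := fun h => if h = 0 then c 0 else 0) (fun h _ => by
      split_ifs with h4
      · rw [h4, mul_one]
      · rw [mul_zero]), Finset.sum_ite_eq']
    split_ifs with h5
    · rfl
    · rw [Finsupp.notMem_support_iff] at h5; exact h5.symm
  have hgi : Integrable (fun z : UnitAddCircle => gm χ K z) := by
    apply Continuous.integrable_of_hasCompactSupport (continuous_gm K)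
    exact HasCompactSupport.of_compactSpace _
  have hpi : Integrable (fun z : UnitAddCircle => p z) := by
    apply Continuous.integrable_of_hasCompactSupport p.continuous
    exact HasCompactSupport.of_compactSpace _
  have hc0 : Sbar χ - ε / 2 - ε / 4 ≤ (c 0).re := by
    have h1 := integral_gm_ge (χ := χ) hne hK0
    have h2 : ‖∫ z : UnitAddCircle, (g z - p z)‖ ≤ ε / 4 := by
      have := norm_integral_le_of_norm_le_const (μ := (volume : Measure UnitAddCircle))
        (f := fun z => g z - p z) (C := ε / 4) (Eventually.of_forall hclose)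
      rw [vol_univ, mul_one] at this
      exact this
    rw [integral_sub (by exact hgi.ofReal) hpi, hint_p] at h2
    have h3 : ∫ z : UnitAddCircle, g z = ((∫ z : UnitAddCircle, gm χ K z : ℝ) : ℂ) := by
      rw [← integral_complex_ofReal]
      rfl
    rw [h3] at h2
    have h4 := (Complex.abs_re_le_norm _).trans h2
    rw [Complex.sub_re, Complex.ofReal_re] at h4
    have h5 := (abs_le.mp h4).2
    linarith only [hKε, h1, h5]
  refine ⟨c.support.erase 0, c, Finset.notMem_erase _ _, fun θ hθ => ?_⟩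
  have h1 := gm_le (χ := χ) hne hK0 hθ
  have h2 := (Complex.abs_re_le_norm _).trans (hclose (θ : UnitAddCircle))
  rw [Complex.sub_re] at h2
  have h3 : (g (θ : UnitAddCircle)).re = gm χ K (θ : UnitAddCircle) := Complex.ofReal_re _
  rw [h3, hpv] at h2
  have h4 : ∑ h ∈ c.support, c h * fourier h (θ : UnitAddCircle) =
      c 0 + ∑ h ∈ c.support.erase 0, c h * eu (h * θ) := by
    by_cases h5 : (0 : ℤ) ∈ c.support
    · rw [← Finset.add_sum_erase _ _ h5, fourier_zero, mul_one]
      congr 1
      exact Finset.sum_congr rfl fun h _ => by rw [fourier_eq_eu]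
    · rw [Finset.erase_eq_of_notMem h5, Finsupp.notMem_support_iff.mp h5, zero_add]
      exact Finset.sum_congr rfl fun h _ => by rw [fourier_eq_eu]
  rw [h4, Complex.add_re] at h2
  have h5 := (abs_le.mp h2).1
  linarith

end Pool.Agent.MP0016c7.Ros
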