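import Mathlib
import Pool.Agent.Lib.MP_0016c7_nt.CdlSmall3
import Pool.Agent.Lib.MP_0016c7_nt.CdlTrig

open Real Filter

namespace Pool.Agent.MP0016c7.Ros

variable {N : ℕ} [NeZero N] {χ : DirichletCharacter ℂ N}

/-- the trigonometric minorant under an expectation -/
lemma EE_minorant {P : Finset ℕ} {x : ℕ → ℝ} (hx : ∀ p, 0 < x p) {ε : ℝ} {F : Finset ℤ}
    {c : ℤ → ℂ} (hF : ∀ θ : ℝ, 0 ≤ θ →
      Sbar χ - ε + (∑ h ∈ F, c h * eu (h * θ)).re ≤ Sn χ ⌊(N : ℝ) * θ⌋₊) {X B : ℝ}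
    (g : Finset ℕ → ℝ) (hg : ∀ A, 0 ≤ g A)
    (hB : ∀ h ∈ F, ‖EE P x (fun A => ((g A : ℝ) : ℂ) * eu (h * thx N X A))‖ ≤ B) :
    (Sbar χ - ε) * EE P x g - (∑ h ∈ F, ‖c h‖) * B ≤
      EE P x (fun A => g A * Sn χ ⌊rexp (X - Sm lg A)⌋₊) := by
  have hN0 : (0 : ℝ) < N := by exact_mod_cast NeZero.pos N
  have h1 : EE P x (fun A => (Sbar χ - ε) * g A +
      (∑ h ∈ F, c h * (((g A : ℝ) : ℂ) * eu (h * thx N X A))).re) ≤
      EE P x (fun A => g A * Sn χ ⌊rexp (X - Sm lg A)⌋₊) := by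
    apply EE_mono hx
    intro A _
    have h2 := mul_le_mul_of_nonneg_left (hF (thx N X A) (thx_pos X A).le) (hg A)
    have e1 : (N : ℝ) * thx N X A = rexp (X - Sm lg A) := by
      unfold thx; field_simp
    rw [e1] at h2
    refine le_trans (le_of_eq ?_) h2
    have e2 : (∑ h ∈ F, c h * (((g A : ℝ) : ℂ) * eu (h * thx N X A))) =
        ((g A : ℝ) : ℂ) * ∑ h ∈ F, c h * eu (h * thx N X A) := by
      rw [Finset.mul_sum]
      exact Finset.sum_congr rfl fun h _ => by ring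
    rw [e2, Complex.re_ofReal_mul]
    ring
  refine le_trans ?_ h1
  rw [EE_add, EE_mul, EE_re, EE_sum]
  have h3 : ‖∑ h ∈ F, EE P x (fun A => c h * (((g A : ℝ) : ℂ) * eu (h * thx N X A)))‖ ≤
      (∑ h ∈ F, ‖c h‖) * B := by
    rw [Finset.sum_mul]
    refine (norm_sum_le _ _).trans (Finset.sum_le_sum fun h hh => ?_)
    rw [EE_cmul, norm_mul]
    exact mul_le_mul_of_nonneg_left (hB h hh) (norm_nonneg _)
  have h4 := (abs_le.mp (Complex.abs_re_le_norm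
    (∑ h ∈ F, EE P x (fun A => c h * (((g A : ℝ) : ℂ) * eu (h * thx N X A)))))).1
  linarith

lemma P0_lower (h2 : χ ^ 2 = 1) (hne : χ ≠ 1) (hS : 0 < Sbar χ) {K ε : ℝ} (hK : 0 ≤ K)
    (hε : 0 < ε) :
    ∃ Λ₀ : ℝ, 1 ≤ Λ₀ ∧ ∀ s Λ X : ℝ, Λ₀ ≤ Λ → 0 ≤ s → s ≤ K / Λ →
      -(ε * Λ / √(VV (iP χ) s Λ)) ≤ P0 χ (iP χ) s Λ X (Mc Λ) := by
  obtain ⟨C₀, C₁, Cs, hM⟩ := exists_mdat χ h2 hne
  have hC0 := hM.C0
  obtain ⟨Λ₃, hΛ₃, hSR⟩ := hM.SR
  obtain ⟨Λ₄, hΛ₄⟩ := (ev_pow_exp (8 / ε) 1 (by norm_num : (0 : ℝ) < 3 / 40)).exists_forall_of_atTop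
  have h4 := le_abs_self Λ₄
  have h4' := abs_nonneg Λ₄
  set T := 80 * (N : ℝ) ^ 2 * rexp K / Sbar χ with hT
  have hT0 : 0 ≤ T := by (clear * - hS; positivity)
  refine ⟨Λ₃ + |Λ₄| + 16 * C₀ + 2 * K + T + 40, by linarith only [hK, hC0, hΛ₃, h4', hT0], fun s Λ X hΛ hs0 hsK => ?_⟩
  have hΛ1 : 1 ≤ Λ := by linarith
  have hΛ0 : 0 < Λ := by linarith
  have hs12 : s ≤ 1 / 2 := by
    refine hsK.trans ?_
    rw [div_le_iff₀ hΛ0]
    linarith only [hC0, hΛ₃, h4', hT0, hΛ]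
  have hVpos := hM.VV_pos hs0 (by linarith : s ≤ 1) (by linarith only [hK, hΛ₃, h4', hT0, hΛ]) hΛ0
  obtain ⟨v, hv⟩ : ∃ v, v = √(VV (iP χ) s Λ) := ⟨_, rfl⟩
  have hv0 : 0 < v := by rw [hv]; exact sqrt_pos.mpr hVpos
  rw [← hv]
  set E₁ := rexp (-(Λ / 10)) / v with hE₁
  have hE0 : 0 ≤ E₁ := by positivity
  obtain ⟨m1, m2, m3⟩ := Mc_bounds hΛ0.le
  set M := Mc Λ with hMc
  have hβ0 : 0 ≤ lg (M + 1) := lg_nonneg _
  have hP0 := P0_near h2 (iP χ) (X := X) (M := M) hs0 (by linarith only [hs12] : s ≤ 1) hE0 (by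
    intro u hu _
    have := hSR s Λ X u hs0 hs12 (by linarith only [hK, hC0, h4', hT0, hΛ])
    rw [abs_of_nonneg hu, ← hv] at this
    rw [abs_sub_comm]
    refine this.trans (le_of_eq ?_)
    rw [hE₁]; ring)
  -- the weighted integral is nonnegative
  have hJ : 0 ≤ Jq χ s M := by
    have j1 := (abs_le.mp (Jq_mean hne hs0 M)).1
    have j2 : lg (M + 1) * rexp (-K) ≤ wt s M 1 := by
      unfold wt
      rw [lg_one]
      have h3 : ∫ _u in (0 : ℝ)..(lg (M + 1)), rexp (-K) ≤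
          ∫ u in (0 : ℝ)..(lg (M + 1)), rexp (-(s * u)) := by
        apply intervalIntegral.integral_mono_on hβ0
        · exact intervalIntegrable_const
        · exact intervalIntegrable_exp s _ _
        · intro u hu
          rw [exp_le_exp, neg_le_neg_iff]
          rw [le_div_iff₀ hΛ0] at hsK
          have h5 : u ≤ Λ := by linarith only [hK, hC0, hΛ₃, h4', hT0, hΛ, m3, hu, hu.2]
          have : s * u ≤ s * Λ := mul_le_mul_of_nonneg_left h5 hs0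
          linarith only [hsK, this]
      rw [intervalIntegral.integral_const, smul_eq_mul, sub_zero] at h3
      exact h3
    have j3 : 2 * (N : ℝ) ^ 2 ≤ Sbar χ * (lg (M + 1) * rexp (-K)) := by
      have j4 : T / 40 ≤ lg (M + 1) := by
        have : T ≤ Λ := by linarith only [hK, hC0, hΛ₃, h4', hΛ]
        linarith only [hK, hC0, hΛ₃, h4', hΛ, m2]
      have j5 : Sbar χ * (T / 40 * rexp (-K)) = 2 * (N : ℝ) ^ 2 := by
        rw [hT, exp_neg]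
        field_simp
        ring
      rw [← j5]
      apply mul_le_mul_of_nonneg_left _ hS.le
      exact mul_le_mul_of_nonneg_right j4 (exp_pos _).le
    have j6 := mul_le_mul_of_nonneg_left j2 hS.le
    linarith only [j1, j3, j6]
  have hal := al_nonneg (iP χ) 1 s Λ X
  have w1 := (abs_le.mp hP0).1
  have w2 : 0 ≤ al (iP χ) 1 s Λ X * Jq χ s M := mul_nonneg hal hJ
  have w3 : (M : ℝ) * (2 * (1 + lg (M + 1)) ^ 2 * E₁) ≤ ε * Λ / v := by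
    have w4 := hΛ₄ Λ (by linarith only [hK, hC0, hΛ₃, h4, hT0, hΛ])
    rw [pow_one] at w4
    have w5 : 8 * Λ ≤ ε * rexp (3 / 40 * Λ) := by
      have := mul_le_mul_of_nonneg_left w4 hε.le
      rw [← mul_assoc, mul_div_cancel₀ _ hε.ne'] at this
      exact this
    have w6 : 2 * (1 + lg (M + 1)) ^ 2 ≤ 8 * Λ * Λ := by
      have : 1 + lg (M + 1) ≤ 2 * Λ := by linarith only [hK, hC0, hΛ₃, h4', hT0, hΛ, m3]
      have : (1 + lg (M + 1)) ^ 2 ≤ (2 * Λ) ^ 2 := pow_le_pow_left₀ (by linarith only [hK, hC0, hΛ₃, h4', hT0, hΛ, m2]) this 2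
      linarith only [this]
    have w7 : rexp (Λ / 40) * rexp (-(Λ / 10)) = rexp (-(3 / 40 * Λ)) := by
      rw [← exp_add]; congr 1; ring
    have w8 : rexp (3 / 40 * Λ) * rexp (-(3 / 40 * Λ)) = 1 := by
      rw [← exp_add, add_neg_cancel, exp_zero]
    rw [hE₁]
    calc (M : ℝ) * (2 * (1 + lg (M + 1)) ^ 2 * (rexp (-(Λ / 10)) / v)) =
          (M * (2 * (1 + lg (M + 1)) ^ 2)) * rexp (-(Λ / 10)) / v := by ring
      _ ≤ (rexp (Λ / 40) * (8 * Λ * Λ)) * rexp (-(Λ / 10)) / v := by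
          apply div_le_div_of_nonneg_right _ hv0.le
          apply mul_le_mul_of_nonneg_right _ (exp_pos _).le
          exact mul_le_mul m1 w6 (by positivity) (exp_pos _).le
      _ = (8 * Λ) * Λ * (rexp (Λ / 40) * rexp (-(Λ / 10))) / v := by ring
      _ ≤ (ε * rexp (3 / 40 * Λ)) * Λ * (rexp (Λ / 40) * rexp (-(Λ / 10))) / v := by
          apply div_le_div_of_nonneg_right _ hv0.le
          apply mul_le_mul_of_nonneg_right _ (by positivity)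
          exact mul_le_mul_of_nonneg_right w5 hΛ0.le
      _ = ε * Λ * (rexp (3 / 40 * Λ) * rexp (-(3 / 40 * Λ))) / v := by rw [w7]; ring
      _ = ε * Λ / v := by rw [w8, mul_one]
  linarith only [w1, w2, w3]

/-- **Positivity for small tilts.** -/
theorem small_pos (hSW : SWd) (h2 : χ ^ 2 = 1) (hne : χ ≠ 1) (hS : 0 < Sbar χ) {K : ℝ}
    (hK : 0 ≤ K) :
    ∃ Λ₀ : ℝ, 1 ≤ Λ₀ ∧ ∀ s Λ X : ℝ, Λ₀ ≤ Λ → 0 ≤ s → s ≤ K / Λ →
      RC χ s Λ X → X ≤ 3 / 5 * Sm lg (iP χ Λ) → 0 < TT χ Λ X := by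
  obtain ⟨C₀, C₁, Cs, hM⟩ := exists_mdat χ h2 hne
  have hC0 := hM.C0
  obtain ⟨F, c, hF0, hF⟩ := trig_minorant hne (ε := Sbar χ / 4) (by positivity)
  obtain ⟨C, hC, Λ₁, hΛ₁, hE⟩ := small_eqd (χ := χ) hSW h2 hne hK
  obtain ⟨c₀, hc₀, Λ₂, hΛ₂, hI⟩ := I_lower h2 hne hK
  obtain ⟨Λ₃, hΛ₃, hP⟩ := P0_lower h2 hne hS hK (ε := Sbar χ / 8 * c₀) (by positivity)
  set sc := ∑ h ∈ F, ‖c h‖ with hsc
  have hsc0 : 0 ≤ sc := Finset.sum_nonneg fun _ _ => norm_nonneg _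
  set H := ∑ h ∈ F, |(h : ℝ)| with hH
  have hH0 : 0 ≤ H := Finset.sum_nonneg fun _ _ => abs_nonneg _
  set Λ' := 8 * (sc * C) / Sbar χ with hΛ'
  have hΛ'0 : 0 ≤ Λ' := by (clear * - hC hS; positivity)
  refine ⟨Λ₁ + Λ₂ + Λ₃ + H + Λ' + 16 * C₀ + 2 * K + 1, by linarith only [hK, hC0, hΛ₁, hΛ₂, hΛ₃, hH0, hΛ'0],
    fun s Λ X hΛ hs0 hsK hRC hX => ?_⟩
  have hΛ1 : 1 ≤ Λ := by linarith only [hK, hC0, hΛ₁, hΛ₂, hΛ₃, hH0, hΛ'0, hΛ]
  have hΛ0 : 0 < Λ := by linarith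
  have hs12 : s ≤ 1 / 2 := by
    refine hsK.trans ?_
    rw [div_le_iff₀ hΛ0]
    linarith
  have hVpos := hM.VV_pos hs0 (by linarith : s ≤ 1) (by linarith only [hK, hΛ₁, hΛ₂, hΛ₃, hH0, hΛ'0, hΛ]) hΛ0
  obtain ⟨v, hv⟩ : ∃ v, v = √(VV (iP χ) s Λ) := ⟨_, rfl⟩
  have hv0 : 0 < v := by rw [hv]; exact sqrt_pos.mpr hVpos
  have hx : ∀ p, 0 < xs s p := fun p => xs_pos s p
  have hI1 := hI s Λ X (by linarith only [hK, hC0, hΛ₁, hΛ₃, hH0, hΛ'0, hΛ]) hs0 hsK hRC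
  have hP1 := hP s Λ X (by linarith) hs0 hsK
  rw [← hv] at hI1 hP1
  set I := II χ s Λ X with hId
  have hI0 : 0 < I := lt_of_lt_of_le (by positivity) hI1
  have hmin := EE_minorant (χ := χ) (P := iP χ Λ) hx hF (X := X) (B := C / Λ * I)
    (fun A => gI s (bt Λ) (X - Sm lg A)) (fun A => gI_nonneg _ _ _) (by
      intro h hh
      apply hE s Λ X (by linarith) hs0 hsK hRC hX h
      · intro h0
        rw [h0] at hh
        exact hF0 hh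
      · have h1 : |(h : ℝ)| ≤ H := Finset.single_le_sum (f := fun h : ℤ => |(h : ℝ)|)
          (fun _ _ => abs_nonneg _) hh
        linarith only [hK, hC0, hΛ₁, hΛ₂, hΛ₃, hΛ'0, hΛ, h1])
  apply TT_pos_of h2 (s := s)
  rw [Ef_Sy_split (iP χ) s Λ X (Mc Λ)]
  have hR : Ef (iP χ Λ) (xs s) lg (fun S => if lg (Mc Λ + 1) ≤ X - S then Sy χ s (X - S) else 0) =
      EE (iP χ Λ) (xs s) (fun A => gI s (bt Λ) (X - Sm lg A) * Sn χ ⌊rexp (X - Sm lg A)⌋₊) := by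
    rw [Ef_eq_EE]
    congr 1
    ext A
    unfold gI Sy bt
    split_ifs
    · ring
    · ring
  rw [hR]
  have q1 : sc * (C / Λ * I) ≤ Sbar χ / 8 * I := by
    have : sc * C / Λ ≤ Sbar χ / 8 := by
      rw [div_le_iff₀ hΛ0]
      have h3 : Λ' ≤ Λ := by linarith only [hK, hC0, hΛ₁, hΛ₂, hΛ₃, hH0, hΛ]
      rw [hΛ', div_le_iff₀ hS] at h3
      linarith only [h3]
    calc sc * (C / Λ * I) = (sc * C / Λ) * I := by ring
      _ ≤ _ := mul_le_mul_of_nonneg_right this hI0.le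
  have q2 : Sbar χ / 8 * c₀ * Λ / v ≤ Sbar χ / 8 * I := by
    calc Sbar χ / 8 * c₀ * Λ / v = Sbar χ / 8 * (c₀ * Λ / v) := by ring
      _ ≤ _ := mul_le_mul_of_nonneg_left hI1 (by positivity)
  have q3 : EE (iP χ Λ) (xs s) (fun A => gI s (bt Λ) (X - Sm lg A)) = I := rfl
  rw [q3] at hmin
  have q4 : 0 < Sbar χ * I := by positivity
  linarith only [hP1, hmin, q1, q2, q4]

end Pool.Agent.MP0016c7.Ros
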