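import Mathlib
import Pool.Agent.Lib.MP_0016c7_nt.CdlMean

open Real

namespace Pool.Agent.MP0016c7.Ros

variable {N : ℕ} [NeZero N] {χ : DirichletCharacter ℂ N}

/-- real values -/
noncomputable def cz (χ : DirichletCharacter ℂ N) (z : ZMod N) : ℝ := (χ z).re

omit [NeZero N] in
lemma rchar_eq_cz (hN : N ≠ 1) (n : ℕ) : rchar χ n = cz χ n := by
  unfold cz
  rcases Nat.eq_zero_or_pos n with rfl | h
  · rw [Nat.cast_zero, χ.map_zero' hN]; simp
  · rw [rchar_apply χ h.ne']

lemma sum_range_eq_ZMod (F : ZMod N → ℝ) :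
    ∑ k ∈ Finset.range N, F (k : ZMod N) = ∑ z : ZMod N, F z := by
  refine Finset.sum_nbij' (fun k => (k : ZMod N)) (fun z => z.val) ?_ ?_ ?_ ?_ ?_
  · intro _ _; exact Finset.mem_univ _
  · intro z _; exact Finset.mem_range.mpr (ZMod.val_lt z)
  · intro k hk; exact ZMod.val_cast_of_lt (Finset.mem_range.mp hk)
  · intro z _; exact ZMod.natCast_zmod_val z
  · intro k _; rfl

omit [NeZero N] in
lemma cz_mul (h2 : χ ^ 2 = 1) (u z : ZMod N) : cz χ (u * z) = cz χ u * cz χ z := by
  unfold cz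
  rw [map_mul]
  rcases quad_cases h2 u with h | h | h <;> rcases quad_cases h2 z with h' | h' | h' <;>
    simp [h, h']

omit [NeZero N] in
lemma cz_unit_sq (h2 : χ ^ 2 = 1) (u : (ZMod N)ˣ) : cz χ u * cz χ u = 1 := by
  rw [← cz_mul h2]
  unfold cz
  have h : χ ((u : ZMod N) * u) = 1 := by
    have h3 : χ ((u : ZMod N) * u) = (χ ^ 2) (u : ZMod N) := by
      rw [MulChar.pow_apply' _ two_ne_zero, map_mul, sq]
    rw [h3, h2, MulChar.one_apply u.isUnit]
  rw [h]; simp

/-- twisted sum of residues -/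
noncomputable def Tz (χ : DirichletCharacter ℂ N) (a : ZMod N) : ℝ :=
  ∑ z : ZMod N, cz χ z * ((a * z).val : ℝ)

lemma Tz_unit (h2 : χ ^ 2 = 1) (u : (ZMod N)ˣ) : Tz χ u = cz χ u * Tz χ 1 := by
  unfold Tz
  rw [Finset.mul_sum]
  refine Finset.sum_nbij' (fun z => (u : ZMod N) * z) (fun z => ((u⁻¹ : (ZMod N)ˣ) : ZMod N) * z)
    ?_ ?_ ?_ ?_ ?_
  · intro _ _; exact Finset.mem_univ _
  · intro _ _; exact Finset.mem_univ _
  · intro z _; rw [← mul_assoc, Units.inv_mul, one_mul]
  · intro z _; rw [← mul_assoc, Units.mul_inv, one_mul]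
  · intro z _
    rw [cz_mul h2, one_mul, ← mul_assoc, ← mul_assoc, cz_unit_sq h2, one_mul]

/-- a unit fixing `a` with nontrivial character value -/
lemma exists_unit_fix (hχ : χ.IsPrimitive) {a : ZMod N} (ha : ¬ IsUnit a) :
    ∃ u : (ZMod N)ˣ, χ u ≠ 1 ∧ a * u = a := by
  have hNpos := NeZero.pos N
  set g := Nat.gcd a.val N with hg
  have hg0 : 0 < g := Nat.gcd_pos_of_pos_right _ hNpos
  have hg1 : g ≠ 1 := by
    intro h
    apply ha
    rw [← ZMod.natCast_zmod_val a, ZMod.isUnit_iff_coprime]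
    exact h
  have hgN : g ∣ N := Nat.gcd_dvd_right _ _
  obtain ⟨d, hd⟩ := hgN
  have hdN : d ∣ N := ⟨g, by rw [hd]; ring⟩
  have hd0 : 0 < d := Nat.pos_of_ne_zero (by rintro rfl; rw [mul_zero] at hd; omega)
  have hdlt : d < N := by
    rw [hd]
    have : 2 ≤ g := by omega
    nlinarith only [hd, this, hd0]
  by_contra hcon
  push Not at hcon
  have hfac : χ.FactorsThrough d := by
    rw [DirichletCharacter.factorsThrough_iff_ker_unitsMap hdN]
    intro u hu
    rw [MonoidHom.mem_ker] at hu ⊢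
    have hu1 : ((u : ZMod N)).cast = (1 : ZMod d) := by
      have := congrArg (fun v : (ZMod d)ˣ => (v : ZMod d)) hu
      simpa [ZMod.unitsMap_val] using this
    have hfix : a * u = a := by
      have h1 : ((u : ZMod N) - 1).cast = (0 : ZMod d) := by
        rw [ZMod.cast_sub hdN, hu1, ZMod.cast_one hdN, sub_self]
      have h2 : d ∣ ((u : ZMod N) - 1).val := by
        rw [← ZMod.natCast_eq_zero_iff, ZMod.natCast_val]
        exact h1
      have h3 : g ∣ a.val := Nat.gcd_dvd_left _ _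
      have h4 : N ∣ a.val * ((u : ZMod N) - 1).val :=
        (dvd_of_eq hd).trans (Nat.mul_dvd_mul h3 h2)
      have h5 : a * ((u : ZMod N) - 1) = 0 := by
        have := (ZMod.natCast_eq_zero_iff (a.val * ((u : ZMod N) - 1).val) N).mpr h4
        rw [Nat.cast_mul, ZMod.natCast_zmod_val, ZMod.natCast_zmod_val] at this
        exact this
      linear_combination h5
    by_contra hne
    apply hcon u _ hfix
    intro hc
    apply hne
    ext
    rw [MulChar.coe_toUnitHom, hc]
    rfl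
  have hle : χ.conductor ≤ d := Nat.sInf_le ((DirichletCharacter.mem_conductorSet_iff χ).mpr hfac)
  rw [(DirichletCharacter.isPrimitive_def χ).mp hχ] at hle
  omega

lemma Tz_nonunit (hχ : χ.IsPrimitive) (h2 : χ ^ 2 = 1) {a : ZMod N} (ha : ¬ IsUnit a) :
    Tz χ a = 0 := by
  obtain ⟨u, hu, hfix⟩ := exists_unit_fix hχ ha
  have hcu : cz χ u = -1 := by
    unfold cz
    have h3 : χ (u : ZMod N) ≠ 0 := by
      intro h
      have := cz_unit_sq h2 u
      unfold cz at this
      rw [h] at this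
      simp at this
    rcases quad_cases h2 (u : ZMod N) with h | h | h
    · exact absurd h h3
    · exact absurd h hu
    · rw [h]; simp
  have h4 : Tz χ a = cz χ u * Tz χ a := by
    unfold Tz
    rw [Finset.mul_sum]
    refine Finset.sum_nbij' (fun z => ((u⁻¹ : (ZMod N)ˣ) : ZMod N) * z) (fun z => (u : ZMod N) * z)
      ?_ ?_ ?_ ?_ ?_
    · intro _ _; exact Finset.mem_univ _
    · intro _ _; exact Finset.mem_univ _
    · intro z _; rw [← mul_assoc, Units.mul_inv, one_mul]
    · intro z _; rw [← mul_assoc, Units.inv_mul, one_mul]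
    · intro z _
      have e1 : a * (((u⁻¹ : (ZMod N)ˣ) : ZMod N) * z) = a * z := by
        have : a * ((u⁻¹ : (ZMod N)ˣ) : ZMod N) = a := by
          calc a * ((u⁻¹ : (ZMod N)ˣ) : ZMod N) = a * u * ((u⁻¹ : (ZMod N)ˣ) : ZMod N) := by
                rw [hfix]
            _ = a := by rw [mul_assoc, Units.mul_inv, mul_one]
        rw [← mul_assoc, this]
      have e2 : cz χ z = cz χ u * cz χ (((u⁻¹ : (ZMod N)ˣ) : ZMod N) * z) := by
        rw [← cz_mul h2, ← mul_assoc, Units.mul_inv, one_mul]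
      rw [e1, ← mul_assoc, ← e2]
  rw [hcu] at h4
  linarith

/-- counting -/
lemma sum_Sn_count (b : ℕ) (hb : 0 < b) :
    (N : ℝ) * ∑ a ∈ Finset.range b, Sn χ (N * a / b) =
      ∑ k ∈ Finset.range N, rchar χ k *
        ((N : ℝ) * b - (k * b + ((-(b : ZMod N) * k).val : ℝ))) := by
  have hNpos := NeZero.pos N
  have h1 : ∀ a ∈ Finset.range b, Sn χ (N * a / b) =
      ∑ k ∈ Finset.range N, rchar χ k * (if k * b ≤ N * a then 1 else 0) := by
    intro a ha
    rw [Finset.mem_range] at ha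
    have h2 : N * a / b < N := by
      rw [Nat.div_lt_iff_lt_mul hb]
      exact Nat.mul_lt_mul_of_pos_left ha hNpos
    rw [Sn_sub_range _ (by simp)]
    have h3 : ∑ k ∈ Finset.range N, rchar χ k * (if k * b ≤ N * a then (1 : ℝ) else 0) =
        ∑ k ∈ (Finset.range N).filter (fun k => k * b ≤ N * a), rchar χ k := by
      rw [Finset.sum_filter]
      apply Finset.sum_congr rfl
      intro k _
      split_ifs <;> ring
    rw [h3]
    apply Finset.sum_congr _ (fun _ _ => rfl)
    ext k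
    rw [Finset.mem_range, Finset.mem_filter, Finset.mem_range, Nat.lt_succ_iff,
      Nat.le_div_iff_mul_le hb]
    constructor
    · intro h
      refine ⟨?_, h⟩
      have := (Nat.le_div_iff_mul_le hb).mpr h
      omega
    · exact fun h => h.2
  rw [Finset.sum_congr rfl h1, Finset.sum_comm, Finset.mul_sum]
  apply Finset.sum_congr rfl
  intro k hk
  rw [Finset.mem_range] at hk
  rw [← Finset.mul_sum]
  -- the ceiling
  obtain ⟨c, hc⟩ : ∃ c, c = (k * b + N - 1) / N := ⟨_, rfl⟩
  have c1 : k * b ≤ N * c := by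
    have := Nat.lt_mul_div_succ (k * b + N - 1) hNpos
    rw [← hc] at this
    have e : N * (c + 1) = N * c + N := by ring
    omega
  have c2 : N * c ≤ k * b + N - 1 := by
    rw [hc]; exact Nat.mul_div_le _ _
  have hcard : ∑ a ∈ Finset.range b, (if k * b ≤ N * a then (1 : ℝ) else 0) = (b : ℝ) - c := by
    rw [Finset.sum_boole]
    have e1 : (Finset.range b).filter (fun a => k * b ≤ N * a) = Finset.Ico c b := by
      ext a
      rw [Finset.mem_filter, Finset.mem_range, Finset.mem_Ico]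
      constructor
      · rintro ⟨h3, h4⟩
        refine ⟨?_, h3⟩
        by_contra h5
        have : N * (a + 1) ≤ N * c := Nat.mul_le_mul_left _ (by omega)
        have e : N * (a + 1) = N * a + N := by ring
        omega
      · rintro ⟨h3, h4⟩
        exact ⟨h4, c1.trans (Nat.mul_le_mul_left _ h3)⟩
    rw [e1, Nat.card_Ico, Nat.cast_sub]
    by_contra h5
    have h6 : N * (b + 1) ≤ N * c := Nat.mul_le_mul_left _ (by omega)
    have e : N * (b + 1) = N * b + N := by ring
    have h7 : k * b ≤ N * b := Nat.mul_le_mul_right _ hk.le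
    omega
  have hval : (-(b : ZMod N) * k).val = N * c - k * b := by
    have e1 : (-(b : ZMod N) * k) = ((N * c - k * b : ℕ) : ZMod N) := by
      rw [Nat.cast_sub c1]
      push_cast
      rw [ZMod.natCast_self]
      ring
    rw [e1, ZMod.val_cast_of_lt]
    omega
  rw [hcard, hval, Nat.cast_sub c1]
  push_cast
  ring

lemma sum_Sn_eq (hN : N ≠ 1) (hne : χ ≠ 1) {b : ℕ} (hb : 0 < b) :
    (N : ℝ) * ∑ a ∈ Finset.range b, Sn χ (N * a / b) =
      -(b * Tz χ 1) - Tz χ (-(b : ZMod N)) := by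
  rw [sum_Sn_count b hb]
  have h0 := sum_rchar_range hne
  have h1 : ∑ k ∈ Finset.range N, rchar χ k * (k : ℝ) = Tz χ 1 := by
    unfold Tz
    rw [← sum_range_eq_ZMod]
    apply Finset.sum_congr rfl
    intro k hk
    rw [one_mul, ZMod.val_cast_of_lt (Finset.mem_range.mp hk), rchar_eq_cz hN]
  have h2 : ∑ k ∈ Finset.range N, rchar χ k * ((-(b : ZMod N) * k).val : ℝ) =
      Tz χ (-(b : ZMod N)) := by
    unfold Tz
    rw [← sum_range_eq_ZMod]
    apply Finset.sum_congr rfl
    intro k _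
    rw [rchar_eq_cz hN]
  have h3 : ∑ k ∈ Finset.range N, rchar χ k *
      ((N : ℝ) * b - (k * b + ((-(b : ZMod N) * k).val : ℝ))) =
      (N : ℝ) * b * ∑ k ∈ Finset.range N, rchar χ k -
      b * ∑ k ∈ Finset.range N, rchar χ k * (k : ℝ) -
      ∑ k ∈ Finset.range N, rchar χ k * ((-(b : ZMod N) * k).val : ℝ) := by
    rw [Finset.mul_sum, Finset.mul_sum, ← Finset.sum_sub_distrib, ← Finset.sum_sub_distrib]
    apply Finset.sum_congr rfl
    intro k _
    ring
  rw [h3, h0, h1, h2]
  ring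

lemma N_Sbar (hN : N ≠ 1) (hne : χ ≠ 1) : (N : ℝ) * Sbar χ = -Tz χ 1 := by
  have hN0 : (N : ℝ) ≠ 0 := by exact_mod_cast NeZero.ne N
  have h1 := sum_Sn_eq hN hne (b := N) (NeZero.pos N)
  have h2 : ∑ a ∈ Finset.range N, Sn χ (N * a / N) = N * Sbar χ := by
    unfold Sbar
    rw [mul_div_cancel₀ _ hN0]
    apply Finset.sum_congr rfl
    intro a _
    rw [Nat.mul_div_cancel_left _ (NeZero.pos N)]
  have h3 : Tz χ (-(N : ZMod N)) = 0 := by
    rw [ZMod.natCast_self, neg_zero]
    unfold Tz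
    simp
  rw [h2, h3, sub_zero] at h1
  have h4 : (N : ℝ) * (N * Sbar χ) = N * (-Tz χ 1) := by linarith
  exact mul_left_cancel₀ hN0 h4

/-- **The sum over all fractions with denominator `b`.** -/
theorem sum_Sn_frac (hχ : χ.IsPrimitive) (hne : χ ≠ 1) (h2 : χ ^ 2 = 1) (ho : χ.Odd) {b : ℕ}
    (hb : 0 < b) :
    ∑ a ∈ Finset.range b, Sn χ (N * a / b) = Sbar χ * (b - rchar χ b) := by
  have hN := modulus_ne_one hne
  have hN0 : (N : ℝ) ≠ 0 := by exact_mod_cast NeZero.ne N
  have h1 := sum_Sn_eq hN hne hb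
  have h3 := N_Sbar hN hne
  have h4 : Tz χ (-(b : ZMod N)) = rchar χ b * (N * Sbar χ) := by
    by_cases hu : IsUnit (b : ZMod N)
    · obtain ⟨u, hu⟩ := hu
      have h5 : Tz χ (-(b : ZMod N)) = cz χ ((-u : (ZMod N)ˣ) : ZMod N) * Tz χ 1 := by
        rw [← hu, ← Units.val_neg]
        exact Tz_unit h2 (-u)
      have h6 : cz χ ((-u : (ZMod N)ˣ) : ZMod N) = - rchar χ b := by
        rw [rchar_eq_cz hN, ← hu, Units.val_neg]
        have : -(u : ZMod N) = (-1) * u := by ring
        rw [this, cz_mul h2]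
        have h7 : cz χ (-1) = -1 := by
          unfold cz
          rw [ho]; simp
        rw [h7]; ring
      rw [h5, h6, h3]; ring
    · have h5 : ¬ IsUnit (-(b : ZMod N)) := by
        rw [IsUnit.neg_iff]; exact hu
      rw [Tz_nonunit hχ h2 h5, rchar_eq_cz hN]
      unfold cz
      rw [MulChar.map_nonunit _ hu]; simp
  rw [h4] at h1
  have h5 : (N : ℝ) * ∑ a ∈ Finset.range b, Sn χ (N * a / b) =
      N * (Sbar χ * (b - rchar χ b)) := by
    rw [h1]
    linear_combination (-(b : ℝ)) * h3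
  exact mul_left_cancel₀ hN0 h5

end Pool.Agent.MP0016c7.Ros
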