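import Mathlib
import Pool.Agent.Lib.MP_0016c7_nt.CdlVb

open Real ArithmeticFunction

namespace Pool.Agent.MP0016c7.Ros

variable {N : ℕ} [NeZero N] {χ : DirichletCharacter ℂ N}

/-- sum over the reduced fractions with denominator `b` -/
noncomputable def Wn (χ : DirichletCharacter ℂ N) (b : ℕ) : ℝ :=
  ∑ a ∈ (Finset.range b).filter (fun a => b.Coprime a), Sn χ (N * a / b)

omit [NeZero N] in
lemma Wn_fiber {b g : ℕ} (hb : 0 < b) (hg : g ∣ b) :
    ∑ a ∈ (Finset.range b).filter (fun a => b.gcd a = g), Sn χ (N * a / b) = Wn χ (b / g) := by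
  obtain ⟨d, rfl⟩ := hg
  have hg0 : 0 < g := Nat.pos_of_ne_zero (by rintro rfl; simp at hb)
  have hd0 : 0 < d := Nat.pos_of_ne_zero (by rintro rfl; simp at hb)
  rw [Nat.mul_div_cancel_left d hg0]
  unfold Wn
  refine Finset.sum_nbij' (fun a => a / g) (fun a => g * a) ?_ ?_ ?_ ?_ ?_
  · intro a ha
    rw [Finset.mem_filter, Finset.mem_range] at ha ⊢
    obtain ⟨h1, h2⟩ := ha
    have hga : g ∣ a := by rw [← h2]; exact Nat.gcd_dvd_right _ _
    obtain ⟨a', rfl⟩ := hga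
    rw [Nat.mul_div_cancel_left a' hg0]
    refine ⟨Nat.lt_of_mul_lt_mul_left h1, ?_⟩
    rw [Nat.gcd_mul_left] at h2
    exact Nat.eq_of_mul_eq_mul_left hg0 (by rw [h2, mul_one])
  · intro a ha
    rw [Finset.mem_filter, Finset.mem_range] at ha ⊢
    obtain ⟨h1, h2⟩ := ha
    refine ⟨Nat.mul_lt_mul_of_pos_left h1 hg0, ?_⟩
    rw [Nat.gcd_mul_left, h2.gcd_eq_one, mul_one]
  · intro a ha
    rw [Finset.mem_filter] at ha
    have hga : g ∣ a := by rw [← ha.2]; exact Nat.gcd_dvd_right _ _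
    exact Nat.mul_div_cancel' hga
  · intro a _
    exact Nat.mul_div_cancel_left a hg0
  · intro a ha
    rw [Finset.mem_filter] at ha
    have hga : g ∣ a := by rw [← ha.2]; exact Nat.gcd_dvd_right _ _
    obtain ⟨a', rfl⟩ := hga
    rw [Nat.mul_div_cancel_left a' hg0]
    congr 1
    rw [show N * (g * a') = g * (N * a') by ring]
    exact Nat.mul_div_mul_left _ _ hg0

omit [NeZero N] in
lemma sum_Wn {b : ℕ} (hb : 0 < b) :
    ∑ d ∈ b.divisors, Wn χ d = ∑ a ∈ Finset.range b, Sn χ (N * a / b) := by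
  rw [← Nat.sum_div_divisors b (fun d => Wn χ d)]
  rw [← Finset.sum_fiberwise_of_maps_to (s := Finset.range b) (t := b.divisors)
    (g := fun a => b.gcd a) (fun a _ => Nat.mem_divisors.mpr ⟨Nat.gcd_dvd_left _ _, hb.ne'⟩)]
  apply Finset.sum_congr rfl
  intro g hg
  exact (Wn_fiber hb (Nat.dvd_of_mem_divisors hg)).symm

/-- Dirichlet convolution of the Moebius function with the character -/
noncomputable def rh (χ : DirichletCharacter ℂ N) : ArithmeticFunction ℝ :=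
  ((moebius : ArithmeticFunction ℤ) : ArithmeticFunction ℝ) * rchar χ

omit [NeZero N] in
lemma rh_mult (h2 : χ ^ 2 = 1) : (rh χ).IsMultiplicative :=
  isMultiplicative_moebius.intCast.mul (isMultiplicative_rchar h2)

omit [NeZero N] in
lemma sum_rh (n : ℕ) : ∑ d ∈ n.divisors, rh χ d = rchar χ n := by
  rw [← coe_zeta_mul_apply]
  unfold rh
  rw [← mul_assoc, coe_zeta_mul_coe_moebius, one_mul]

omit [NeZero N] in
lemma rh_prime_pow {p : ℕ} (hp : p.Prime) (k : ℕ) :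
    rh χ (p ^ (k + 1)) = rchar χ (p ^ (k + 1)) - rchar χ (p ^ k) := by
  have h1 := sum_rh (χ := χ) (p ^ (k + 1))
  have h2 := sum_rh (χ := χ) (p ^ k)
  rw [Nat.sum_divisors_prime_pow hp, Finset.sum_range_succ] at h1
  rw [Nat.sum_divisors_prime_pow hp] at h2
  linarith

theorem Wn_eq (hχ : χ.IsPrimitive) (hne : χ ≠ 1) (h2 : χ ^ 2 = 1) (ho : χ.Odd) {b : ℕ}
    (hb : 0 < b) : Wn χ b = Sbar χ * ((Nat.totient b : ℝ) - rh χ b) := by
  have h1 := (sum_eq_iff_sum_mul_moebius_eq (R := ℝ) (f := fun b => Wn χ b)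
    (g := fun b => Sbar χ * (b - rchar χ b))).mp (fun n hn => by
      rw [sum_Wn hn, sum_Sn_frac hχ hne h2 ho hn]) b hb
  have h3 := (sum_eq_iff_sum_mul_moebius_eq (R := ℝ) (f := fun b => (Nat.totient b : ℝ))
    (g := fun b => (b : ℝ))).mp (fun n _ => by
      exact_mod_cast Nat.sum_totient n) b hb
  have h4 : rh χ b = ∑ x ∈ b.divisorsAntidiagonal, (moebius x.1 : ℝ) * rchar χ x.2 := by
    unfold rh
    rw [ArithmeticFunction.mul_apply]
    rfl
  rw [← h1, ← h3, h4, ← Finset.sum_sub_distrib, Finset.mul_sum]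
  apply Finset.sum_congr rfl
  intro x _
  ring

/-- the bias function -/
noncomputable def hh (χ : DirichletCharacter ℂ N) (b : ℕ) : ℝ := rh χ b / (Nat.totient b : ℝ)

omit [NeZero N] in
lemma hh_one : hh χ 1 = 1 := by
  unfold hh
  have h := sum_rh (χ := χ) 1
  rw [Nat.divisors_one, Finset.sum_singleton, rchar_one] at h
  rw [h]; simp

omit [NeZero N] in
lemma hh_mul (h2 : χ ^ 2 = 1) {m n : ℕ} (h : m.Coprime n) : hh χ (m * n) = hh χ m * hh χ n := by
  unfold hh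
  rw [(rh_mult h2).map_mul_of_coprime h, Nat.totient_mul h]
  push_cast
  rw [mul_div_mul_comm]

omit [NeZero N] in
lemma abs_rchar_le_one (h2 : χ ^ 2 = 1) (n : ℕ) : |rchar χ n| ≤ 1 := by
  rcases rchar_cases h2 n with h | h | h <;> rw [h] <;> simp

omit [NeZero N] in
lemma abs_hh_prime_pow (h2 : χ ^ 2 = 1) {p : ℕ} (hp : p.Prime) (k : ℕ) :
    |hh χ (p ^ (k + 1))| ≤ 2 / ((p : ℝ) ^ k * (p - 1)) := by
  unfold hh
  have hp1 : (1 : ℝ) < p := by exact_mod_cast hp.one_lt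
  have hφ : ((Nat.totient (p ^ (k + 1)) : ℕ) : ℝ) = (p : ℝ) ^ k * (p - 1) := by
    rw [Nat.totient_prime_pow_succ hp]
    push_cast [Nat.cast_sub hp.one_lt.le]
    ring
  rw [hφ, abs_div, abs_of_pos (by have : 0 < (p : ℝ) - 1 := by linarith
                                  positivity : 0 < (p : ℝ) ^ k * (p - 1))]
  apply div_le_div_of_nonneg_right
  · rw [rh_prime_pow hp]
    have h3 := abs_rchar_le_one h2 (p ^ (k + 1))
    have h4 := abs_rchar_le_one h2 (p ^ k)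
    have := abs_sub (rchar χ (p ^ (k + 1))) (rchar χ (p ^ k))
    linarith
  · have : 0 < (p : ℝ) - 1 := by linarith
    positivity

/-- the constants for the decay -/
noncomputable def cc (b : ℕ) : ℝ := (if 2 ∣ b then 32 else 1) * (if 3 ∣ b then 3 else 1)

omit [NeZero N] in
lemma decay_pp (h2 : χ ^ 2 = 1) {p : ℕ} (hp : p.Prime) (k : ℕ) {C : ℝ}
    (hC : 16 * (p : ℝ) ≤ C * (p - 1) ^ 4) :
    hh χ (p ^ (k + 1)) ^ 4 * (p ^ (k + 1) : ℕ) ≤ C := by
  have hp1 : (1 : ℝ) < p := by exact_mod_cast hp.one_lt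
  have hp0 : (0 : ℝ) < p := by linarith
  have hpm : 0 < (p : ℝ) - 1 := by linarith
  have hC0 : 0 ≤ C := by
    by_contra hc
    rw [not_le] at hc
    have : C * ((p : ℝ) - 1) ^ 4 ≤ 0 := mul_nonpos_of_nonpos_of_nonneg hc.le (by positivity)
    linarith
  have h1 := abs_hh_prime_pow h2 hp k
  have h3 : hh χ (p ^ (k + 1)) ^ 4 ≤ (2 / ((p : ℝ) ^ k * (p - 1))) ^ 4 := by
    calc hh χ (p ^ (k + 1)) ^ 4 = |hh χ (p ^ (k + 1))| ^ 4 := by
          rw [← abs_pow, abs_of_nonneg (by positivity)]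
      _ ≤ _ := pow_le_pow_left₀ (abs_nonneg _) h1 4
  have h4 : (2 / ((p : ℝ) ^ k * (p - 1))) ^ 4 * (p : ℝ) ^ (k + 1) ≤ C := by
    rw [div_pow, div_mul_eq_mul_div, div_le_iff₀ (by positivity)]
    have e1 : (2 : ℝ) ^ 4 * (p : ℝ) ^ (k + 1) = (16 * p) * (p : ℝ) ^ k := by ring
    have e2 : C * ((p : ℝ) ^ k * (p - 1)) ^ 4 = (C * (p - 1) ^ 4) * ((p : ℝ) ^ k) ^ 4 := by ring
    rw [e1, e2]
    apply mul_le_mul hC _ (by positivity) (by positivity)
    have h5 : (1 : ℝ) ≤ (p : ℝ) ^ k := one_le_pow₀ hp1.le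
    calc (p : ℝ) ^ k = ((p : ℝ) ^ k) ^ 1 := (pow_one _).symm
      _ ≤ ((p : ℝ) ^ k) ^ 4 := pow_le_pow_right₀ h5 (by norm_num)
  push_cast
  refine (mul_le_mul_of_nonneg_right h3 (by positivity)).trans h4

omit [NeZero N] in
/-- **Decay of the bias.** -/
lemma decay (h2 : χ ^ 2 = 1) (b : ℕ) (hb : b ≠ 0) : hh χ b ^ 4 * b ≤ cc b := by
  induction b using Nat.recOnPosPrimePosCoprime with
  | zero => exact absurd rfl hb
  | one => rw [hh_one]; unfold cc; norm_num
  | prime_pow p n hp hn =>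
    obtain ⟨k, rfl⟩ : ∃ k, n = k + 1 := ⟨n - 1, by omega⟩
    apply decay_pp h2 hp k
    have hp2 := hp.two_le
    have d2 : 2 ∣ p ^ (k + 1) ↔ p = 2 := by
      constructor
      · intro h
        exact ((Nat.prime_dvd_prime_iff_eq Nat.prime_two hp).mp
          (Nat.prime_two.dvd_of_dvd_pow h)).symm
      · rintro rfl; exact dvd_pow_self _ (by omega)
    have d3 : 3 ∣ p ^ (k + 1) ↔ p = 3 := by
      constructor
      · intro h
        exact ((Nat.prime_dvd_prime_iff_eq Nat.prime_three hp).mp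
          (Nat.prime_three.dvd_of_dvd_pow h)).symm
      · rintro rfl; exact dvd_pow_self _ (by omega)
    unfold cc
    rw [if_congr d2 rfl rfl, if_congr d3 rfl rfl]
    by_cases c2 : p = 2
    · subst c2; norm_num
    by_cases c3 : p = 3
    · subst c3; norm_num
    rw [if_neg c2, if_neg c3]
    have hp5 : 5 ≤ p := by
      rcases Nat.lt_or_ge p 5 with h | h
      · interval_cases p
        · exact absurd rfl c2
        · exact absurd rfl c3
        · exact absurd hp (by norm_num)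
      · exact h
    have h5 : (5 : ℝ) ≤ p := by exact_mod_cast hp5
    have h6 : (64 : ℝ) ≤ ((p : ℝ) - 1) ^ 3 := by
      have : ((4 : ℝ)) ^ 3 ≤ ((p : ℝ) - 1) ^ 3 := pow_le_pow_left₀ (by norm_num) (by linarith) 3
      linarith
    calc 16 * (p : ℝ) ≤ 64 * (p - 1) := by linarith
      _ ≤ (p - 1) ^ 3 * (p - 1) := mul_le_mul_of_nonneg_right h6 (by linarith)
      _ = _ := by ring
  | coprime m n hm hn hmn ihm ihn =>
    have h3 := ihm (by omega)
    have h4 := ihn (by omega)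
    rw [hh_mul h2 hmn]
    have e1 : (hh χ m * hh χ n) ^ 4 * ((m * n : ℕ) : ℝ) =
        (hh χ m ^ 4 * m) * (hh χ n ^ 4 * n) := by push_cast; ring
    rw [e1]
    have h5 : (hh χ m ^ 4 * m) * (hh χ n ^ 4 * n) ≤ cc m * cc n := by
      apply mul_le_mul h3 h4 (by positivity)
      unfold cc; split_ifs <;> norm_num
    refine h5.trans (le_of_eq ?_)
    have k2 : ¬ (2 ∣ m ∧ 2 ∣ n) := by
      rintro ⟨a1, a2⟩
      have := Nat.dvd_gcd a1 a2
      rw [hmn.gcd_eq_one] at this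
      omega
    have k3 : ¬ (3 ∣ m ∧ 3 ∣ n) := by
      rintro ⟨a1, a2⟩
      have := Nat.dvd_gcd a1 a2
      rw [hmn.gcd_eq_one] at this
      omega
    have e2 : 2 ∣ m * n ↔ 2 ∣ m ∨ 2 ∣ n := Nat.prime_two.dvd_mul
    have e3 : 3 ∣ m * n ↔ 3 ∣ m ∨ 3 ∣ n := Nat.prime_three.dvd_mul
    unfold cc
    rw [if_congr e2 rfl rfl, if_congr e3 rfl rfl]
    have f2 : (if 2 ∣ m then (32 : ℝ) else 1) * (if 2 ∣ n then 32 else 1) =
        (if 2 ∣ m ∨ 2 ∣ n then 32 else 1) := by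
      by_cases a1 : 2 ∣ m
      · by_cases a2 : 2 ∣ n
        · exact (k2 ⟨a1, a2⟩).elim
        · rw [if_pos a1, if_neg a2, if_pos (Or.inl a1), mul_one]
      · by_cases a2 : 2 ∣ n
        · rw [if_neg a1, if_pos a2, if_pos (Or.inr a2), one_mul]
        · rw [if_neg a1, if_neg a2, if_neg (not_or.mpr ⟨a1, a2⟩), one_mul]
    have f3 : (if 3 ∣ m then (3 : ℝ) else 1) * (if 3 ∣ n then 3 else 1) =
        (if 3 ∣ m ∨ 3 ∣ n then 3 else 1) := by
      by_cases a1 : 3 ∣ m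
      · by_cases a2 : 3 ∣ n
        · exact (k3 ⟨a1, a2⟩).elim
        · rw [if_pos a1, if_neg a2, if_pos (Or.inl a1), mul_one]
      · by_cases a2 : 3 ∣ n
        · rw [if_neg a1, if_pos a2, if_pos (Or.inr a2), one_mul]
        · rw [if_neg a1, if_neg a2, if_neg (not_or.mpr ⟨a1, a2⟩), one_mul]
    rw [← f2, ← f3]
    ring

lemma cc_le (b : ℕ) : cc b ≤ 96 := by
  unfold cc; split_ifs <;> norm_num

omit [NeZero N] in
/-- the bias is small for large denominators -/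
theorem abs_hh_le (h2 : χ ^ 2 = 1) {b : ℕ} (hb : b ≠ 0) {δ : ℝ} (hδ : 0 ≤ δ)
    (h : 96 ≤ δ ^ 4 * b) : |hh χ b| ≤ δ := by
  have hb0 : (0 : ℝ) < b := by exact_mod_cast Nat.pos_of_ne_zero hb
  have h1 := (decay h2 b hb).trans ((cc_le b).trans h)
  have h3 : hh χ b ^ 4 ≤ δ ^ 4 := le_of_mul_le_mul_right h1 hb0
  have h4 : |hh χ b| ^ 4 ≤ δ ^ 4 := by
    rw [← abs_pow, abs_of_nonneg (by positivity)]; exact h3
  exact le_of_pow_le_pow_left₀ (by norm_num) hδ h4

omit [NeZero N] in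
/-- factorisation of the bias -/
lemma hh_factor (h2 : χ ^ 2 = 1) {n : ℕ} (hn : n ≠ 0) {S : Finset ℕ} (hS : n.primeFactors ⊆ S) :
    hh χ n = ∏ p ∈ S, hh χ (p ^ n.factorization p) := by
  rw [Nat.multiplicative_factorization (hh χ) (fun _ _ h => hh_mul h2 h) hh_one hn]
  apply Finsupp.prod_of_support_subset
  · exact hS
  · intro p _
    rw [pow_zero, hh_one]

end Pool.Agent.MP0016c7.Ros
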