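import Mathlib
import Pool.Agent.Lib.MP_0016c7_nt.CdlW
import Pool.Agent.Lib.MP_0016c7_nt.CdlPnt

open Real

namespace Pool.Agent.MP0016c7.Ros

open DirichletCharacter

variable {N : ℕ} [NeZero N] {χ : DirichletCharacter ℂ N}

/-- values of the partial sums at fractions -/
noncomputable def Sf (χ : DirichletCharacter ℂ N) (b : ℕ) (m : ℤ) : ℝ :=
  Sn χ (N * (m % b).toNat / b)

omit [NeZero N] in
lemma Sf_congr {b : ℕ} {m m' : ℤ} (h : m ≡ m' [ZMOD b]) : Sf χ b m = Sf χ b m' := by
  unfold Sf; rw [h]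

lemma abs_Sf_le (hne : χ ≠ 1) (b : ℕ) (m : ℤ) : |Sf χ b m| ≤ N := abs_Sn_le hne _

omit [NeZero N] in
lemma Sf_nat {b a : ℕ} (h : a < b) : Sf χ b a = Sn χ (N * a / b) := by
  unfold Sf
  rw [Int.emod_eq_of_lt (by positivity) (by exact_mod_cast h), Int.toNat_natCast]

/-- averages over the coprime classes with given character value -/
noncomputable def Mcl (χ : DirichletCharacter ℂ N) (b : ℕ) (a : ℤ) (s : ℝ) : ℝ :=
  2 / (Nat.totient (N * b) : ℝ) *
    ∑ c ∈ (Finset.range (N * b)).filter (fun c => (N * b).Coprime c),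
      @ite ℝ (rchar χ c = s) (Classical.dec _) (Sf χ b (c * a)) 0

/-- sums over coprime classes and sums over units -/
lemma sum_units {m : ℕ} [NeZero m] (G : ℕ → ℝ) :
    ∑ c ∈ (Finset.range m).filter (fun c => m.Coprime c), G c =
      ∑ u : (ZMod m)ˣ, G (u : ZMod m).val := by
  refine Finset.sum_bij' (fun c hc => ZMod.unitOfCoprime c (Finset.mem_filter.mp hc).2.symm)
    (fun u _ => (u : ZMod m).val) ?_ ?_ ?_ ?_ ?_
  · intro _ _; exact Finset.mem_univ _
  · intro u _
    rw [Finset.mem_filter, Finset.mem_range]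
    exact ⟨ZMod.val_lt _, (ZMod.val_coe_unit_coprime u).symm⟩
  · intro c hc
    rw [ZMod.coe_unitOfCoprime]
    exact ZMod.val_cast_of_lt (Finset.mem_range.mp (Finset.mem_filter.mp hc).1)
  · intro u _
    ext
    rw [ZMod.coe_unitOfCoprime, ZMod.natCast_zmod_val]
  · intro c hc
    rw [ZMod.coe_unitOfCoprime,
      ZMod.val_cast_of_lt (Finset.mem_range.mp (Finset.mem_filter.mp hc).1)]

lemma Mcl_units (b : ℕ) [NeZero b] (a : ℤ) (s : ℝ) : Mcl χ b a s =
    2 / (Nat.totient (N * b) : ℝ) * ∑ u : (ZMod (N * b))ˣ,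
      @ite ℝ (rchar χ (u : ZMod (N * b)).val = s) (Classical.dec _)
        (Sf χ b ((u : ZMod (N * b)).val * a)) 0 := by
  unfold Mcl
  rw [sum_units (fun c => @ite ℝ (rchar χ c = s) (Classical.dec _) (Sf χ b (c * a)) 0)]

omit [NeZero N] in
lemma rchar_mod (hN : N ≠ 1) (b c : ℕ) : rchar χ (c % (N * b)) = rchar χ c := by
  rw [rchar_eq_cz hN, rchar_eq_cz hN]
  congr 1
  rw [ZMod.natCast_eq_natCast_iff]
  exact (Nat.mod_modEq c (N * b)).of_mul_right b

lemma val_mul_mod {m : ℕ} [NeZero m] (u : ZMod m) (p : ℕ) :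
    (u * (p : ZMod m)).val = (u.val * p) % m := by
  rw [ZMod.val_mul, ZMod.val_natCast, Nat.mul_mod_mod]

/-- multiplying by an inert prime exchanges the two averages -/
lemma Mcl_toggle (h2 : χ ^ 2 = 1) (hN : N ≠ 1) {b : ℕ} (hb : b ≠ 0) {p : ℕ}
    (hpN : p.Coprime (N * b)) (hi : rchar χ p = -1) (a : ℤ) :
    Mcl χ b (p * a) (-1) = Mcl χ b a 1 := by
  have : NeZero b := ⟨hb⟩
  rw [Mcl_units, Mcl_units]
  congr 1
  set v := ZMod.unitOfCoprime p hpN with hv
  have hvv : (v : ZMod (N * b)) = (p : ZMod (N * b)) := ZMod.coe_unitOfCoprime p hpN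
  refine Finset.sum_bij' (fun u _ => u * v) (fun u _ => u * v⁻¹) ?_ ?_ ?_ ?_ ?_
  · intro _ _; exact Finset.mem_univ _
  · intro _ _; exact Finset.mem_univ _
  · intro u _; rw [mul_assoc, mul_inv_cancel, mul_one]
  · intro u _; rw [mul_assoc, inv_mul_cancel, mul_one]
  · intro u _
    have e1 : ((u * v : (ZMod (N * b))ˣ) : ZMod (N * b)).val =
        ((u : ZMod (N * b)).val * p) % (N * b) := by
      rw [Units.val_mul, hvv, val_mul_mod]
    rw [e1, rchar_mod hN, rchar_mul h2, hi]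
    have e2 : Sf χ b (((((u : ZMod (N * b)).val * p) % (N * b) : ℕ) : ℤ) * a) =
        Sf χ b (((u : ZMod (N * b)).val : ℤ) * (p * a)) := by
      apply Sf_congr
      have h3 : (((((u : ZMod (N * b)).val * p) % (N * b) : ℕ) : ℤ)) ≡
          (((u : ZMod (N * b)).val * p : ℕ) : ℤ) [ZMOD b] := by
        rw [Int.natCast_modEq_iff]
        exact (Nat.mod_modEq _ (N * b)).of_mul_left N
      have h4 := h3.mul_right a
      push_cast at h4 ⊢
      rw [mul_assoc] at h4
      exact h4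
    rw [e2]
    by_cases c : rchar χ (u : ZMod (N * b)).val = -1
    · rw [if_pos c, if_pos (by rw [c]; norm_num)]
    · rw [if_neg c, if_neg (fun h => c (by linarith))]

/-- sums along a surjective homomorphism -/
lemma sum_hom {U V : Type*} [Group U] [Group V] [Fintype U] [Fintype V] [DecidableEq V]
    (f : U →* V) (hf : Function.Surjective f) (F : V → ℝ) :
    (Fintype.card V : ℝ) * ∑ u : U, F (f u) = (Fintype.card U : ℝ) * ∑ v : V, F v := by
  set k := (Finset.univ.filter fun u : U => f u = 1).card with hk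
  have hfib : ∀ v : V, (Finset.univ.filter fun u : U => f u = v).card = k := fun v =>
    MonoidHom.card_fiber_eq_of_mem_range f (hf v) (hf 1)
  have h1 : ∀ G : V → ℝ, ∑ u : U, G (f u) = k * ∑ v : V, G v := by
    intro G
    rw [← Finset.sum_fiberwise_of_maps_to (s := (Finset.univ : Finset U))
      (t := (Finset.univ : Finset V)) (g := f) (fun _ _ => Finset.mem_univ _), Finset.mul_sum]
    apply Finset.sum_congr rfl
    intro v _
    have h2 : ∀ u ∈ Finset.univ.filter (fun u : U => f u = v), G (f u) = G v := by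
      intro u hu
      rw [(Finset.mem_filter.mp hu).2]
    rw [Finset.sum_congr rfl h2, Finset.sum_const, hfib, nsmul_eq_mul]
  have h3 := h1 (fun _ => 1)
  simp only [Finset.sum_const, Finset.card_univ, nsmul_eq_mul, mul_one] at h3
  rw [h1 F, h3]
  ring

/-- reduced fractions as units -/
lemma Wn_units (b : ℕ) [NeZero b] : Wn χ b = ∑ v : (ZMod b)ˣ, Sf χ b (v : ZMod b).val := by
  unfold Wn
  rw [sum_units (fun c => Sn χ (N * c / b))]
  apply Finset.sum_congr rfl
  intro v _
  rw [Sf_nat (ZMod.val_lt _)]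

/-- the two averages add up to the mean over reduced fractions -/
lemma Mcl_add (h2 : χ ^ 2 = 1) (hN : N ≠ 1) {b : ℕ} (hb : b ≠ 0) {a : ℤ} (ha : IsCoprime a (b : ℤ)) :
    Mcl χ b a (-1) + Mcl χ b a 1 = 2 * (Wn χ b / (Nat.totient b : ℝ)) := by
  have : NeZero b := ⟨hb⟩
  rw [Mcl_units, Mcl_units, ← mul_add, ← Finset.sum_add_distrib]
  have hφ : (0 : ℝ) < Nat.totient (N * b) := by
    exact_mod_cast Nat.totient_pos.mpr (NeZero.pos (N * b))
  have hφb : (0 : ℝ) < Nat.totient b := by exact_mod_cast Nat.totient_pos.mpr (NeZero.pos b)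
  have e1 : ∀ u ∈ (Finset.univ : Finset (ZMod (N * b))ˣ),
      ((@ite ℝ (rchar χ (u : ZMod (N * b)).val = -1) (Classical.dec _)
        (Sf χ b ((u : ZMod (N * b)).val * a)) 0) +
      (@ite ℝ (rchar χ (u : ZMod (N * b)).val = 1) (Classical.dec _)
        (Sf χ b ((u : ZMod (N * b)).val * a)) 0)) =
      Sf χ b ((u : ZMod (N * b)).val * a) := by
    intro u _
    have hne0 : rchar χ (u : ZMod (N * b)).val ≠ 0 := by
      have hcop : ((u : ZMod (N * b)).val).Coprime N :=
        (ZMod.val_coe_unit_coprime u).coprime_dvd_right (dvd_mul_right N b)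
      intro h0
      rcases Nat.eq_zero_or_pos (u : ZMod (N * b)).val with hz | hz
      · rw [hz, Nat.coprime_zero_left] at hcop
        exact hN hcop
      · rw [rchar_apply χ hz.ne'] at h0
        have hu' : IsUnit (((u : ZMod (N * b)).val : ℕ) : ZMod N) :=
          (ZMod.isUnit_iff_coprime _ _).mpr hcop
        have h3 : χ (((u : ZMod (N * b)).val : ℕ) : ZMod N) ≠ 0 := by
          obtain ⟨w, hw⟩ := hu'
          rw [← hw]
          intro h4
          have := cz_unit_sq h2 w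
          unfold cz at this
          rw [h4] at this
          simp at this
        rcases quad_cases h2 (((u : ZMod (N * b)).val : ℕ) : ZMod N) with h | h | h
        · exact h3 h
        · rw [h] at h0; simp at h0
        · rw [h] at h0; simp at h0
    rcases rchar_cases h2 (u : ZMod (N * b)).val with h | h | h
    · exact absurd h hne0
    · rw [h, if_neg (by norm_num), if_pos rfl, zero_add]
    · rw [h, if_pos rfl, if_neg (by norm_num), add_zero]
  rw [Finset.sum_congr rfl e1]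
  -- push down to denominator `b`
  obtain ⟨w, hw⟩ : ∃ w : (ZMod b)ˣ, (w : ZMod b) = (a : ZMod b) :=
    ⟨ZMod.unitOfIsCoprime a ha, ZMod.coe_unitOfIsCoprime a ha⟩
  have hdiv : b ∣ N * b := dvd_mul_left b N
  have e2 : ∀ u : (ZMod (N * b))ˣ, Sf χ b ((u : ZMod (N * b)).val * a) =
      (fun v : (ZMod b)ˣ => Sf χ b (v : ZMod b).val) (ZMod.unitsMap hdiv u * w) := by
    intro u
    apply Sf_congr
    rw [← ZMod.intCast_eq_intCast_iff]
    push_cast
    have e0 : ∀ z : ZMod b, ((z.val : ℕ) : ZMod b) = z := fun z => ZMod.natCast_zmod_val z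
    simp only [e0, Units.val_mul, ZMod.unitsMap_val, hw, ZMod.natCast_val]
  have e3 : ∑ u : (ZMod (N * b))ˣ, Sf χ b ((u : ZMod (N * b)).val * a) =
      ∑ u : (ZMod (N * b))ˣ, (fun v : (ZMod b)ˣ => Sf χ b ((v * w : (ZMod b)ˣ) : ZMod b).val)
        (ZMod.unitsMap hdiv u) := Finset.sum_congr rfl fun u _ => e2 u
  have e4 := sum_hom (ZMod.unitsMap hdiv) (ZMod.unitsMap_surjective hdiv)
    (fun v : (ZMod b)ˣ => Sf χ b ((v * w : (ZMod b)ˣ) : ZMod b).val)
  have e5 : ∑ v : (ZMod b)ˣ, Sf χ b ((v * w : (ZMod b)ˣ) : ZMod b).val = Wn χ b := by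
    rw [Wn_units]
    exact Fintype.sum_equiv (Equiv.mulRight w) _ _ (fun v => rfl)
  rw [e5, ZMod.card_units_eq_totient, ZMod.card_units_eq_totient, ← e3] at e4
  have e6 : ∑ u : (ZMod (N * b))ˣ, Sf χ b ((u : ZMod (N * b)).val * a) =
      (Nat.totient (N * b) : ℝ) * Wn χ b / (Nat.totient b : ℝ) := by
    rw [eq_div_iff hφb.ne']
    linarith
  rw [e6]
  field_simp

/-- the average in terms of `mu` -/
lemma Mcl_mu (h2 : χ ^ 2 = 1) (hN : N ≠ 1) {b : ℕ} [NeZero b] (a : ℤ) :
    mu χ (dvd_mul_right N b) (fun c : ZMod (N * b) => Sf χ b (c.val * a) / N) (-1) =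
      Mcl χ b a (-1) / N := by
  classical
  rw [Mcl_units]
  unfold mu
  rw [mul_div_assoc]
  congr 1
  rw [Finset.sum_div]
  have hN0 : (N : ℝ) ≠ 0 := by exact_mod_cast NeZero.ne N
  have h3 : ∀ c : ZMod (N * b), ¬ IsUnit c →
      (@ite ℝ (changeLevel (dvd_mul_right N b) χ c = -1) (Classical.dec _)
        (Sf χ b (c.val * a) / N) 0) = 0 := by
    intro c hc
    rw [MulChar.map_nonunit _ hc, if_neg (by norm_num)]
  have h4 : ∑ c : ZMod (N * b), (@ite ℝ (changeLevel (dvd_mul_right N b) χ c = -1)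
        (Classical.dec _) (Sf χ b (c.val * a) / N) 0) =
      ∑ u : (ZMod (N * b))ˣ, (@ite ℝ (changeLevel (dvd_mul_right N b) χ u = -1)
        (Classical.dec _) (Sf χ b ((u : ZMod (N * b)).val * a) / N) 0) := by
    symm
    apply Finset.sum_of_injOn (fun u : (ZMod (N * b))ˣ => (u : ZMod (N * b)))
    · intro u _ v _ h
      exact Units.ext h
    · intro _ _; exact Finset.mem_coe.mpr (Finset.mem_univ _)
    · intro c _ hc
      apply h3
      rintro ⟨u, rfl⟩
      exact hc ⟨u, Finset.mem_coe.mpr (Finset.mem_univ _), rfl⟩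
    · intro u _; rfl
  rw [h4]
  apply Finset.sum_congr rfl
  intro u _
  have h5 : changeLevel (dvd_mul_right N b) χ (u : ZMod (N * b)) =
      χ (((u : ZMod (N * b)).val : ℕ) : ZMod N) := by
    rw [changeLevel_eq_cast_of_dvd, ZMod.natCast_val]
  have hiff : changeLevel (dvd_mul_right N b) χ (u : ZMod (N * b)) = -1 ↔
      rchar χ (u : ZMod (N * b)).val = -1 := by
    rw [h5, rchar_eq_cz hN]
    unfold cz
    rcases quad_cases h2 (((u : ZMod (N * b)).val : ℕ) : ZMod N) with h | h | h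
    · rw [h]; norm_num
    · rw [h]; norm_num
    · rw [h]; norm_num
  by_cases c : rchar χ (u : ZMod (N * b)).val = -1
  · rw [if_pos (hiff.mpr c), if_pos c]
  · rw [if_neg (fun h => c (hiff.mp h)), if_neg c, zero_div]

end Pool.Agent.MP0016c7.Ros
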