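import Mathlib
import Pool.Agent.Lib.MP_0016c7_nt.RosComb

open Real

namespace Pool.Agent.MP0016c7.Ros

lemma rat_nat_mul {p : ℕ} {r : ℚ} (h : p.Coprime r.den) :
    ((p : ℚ) * r).den = r.den ∧ ((p : ℚ) * r).num = p * r.num := by
  have hd : (0 : ℤ) < (r.den : ℤ) := by exact_mod_cast r.den_pos
  have e : (p : ℚ) * r = (((p : ℤ) * r.num : ℤ) : ℚ) / ((r.den : ℤ) : ℚ) := by
    have h1 := Rat.num_div_den r
    have h2 : (r.den : ℚ) ≠ 0 := by exact_mod_cast r.den_ne_zero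
    push_cast
    rw [mul_div_assoc, h1]
  have hc : Nat.Coprime ((p : ℤ) * r.num).natAbs ((r.den : ℤ)).natAbs := by
    rw [Int.natAbs_mul, Int.natAbs_natCast, Int.natAbs_natCast]
    exact Nat.Coprime.mul_left h r.reduced
  rw [e]
  constructor
  · have := Rat.den_div_eq_of_coprime hd hc
    exact_mod_cast this
  · exact Rat.num_div_eq_of_coprime hd hc

lemma rat_mul_dvd {g : ℕ} {r : ℚ} (hg : g ∣ r.den) : ((g : ℚ) * r).den = r.den / g := by
  obtain ⟨d, hd⟩ := hg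
  have hden := r.den_pos
  have hg0 : 0 < g := Nat.pos_of_ne_zero (by rintro rfl; rw [zero_mul] at hd; omega)
  have hd0 : 0 < d := Nat.pos_of_ne_zero (by rintro rfl; rw [mul_zero] at hd; omega)
  have e : (g : ℚ) * r = ((r.num : ℤ) : ℚ) / ((d : ℤ) : ℚ) := by
    have h1 := Rat.num_div_den r
    have h2 : (g : ℚ) ≠ 0 := by exact_mod_cast hg0.ne'
    have h3 : (d : ℚ) ≠ 0 := by exact_mod_cast hd0.ne'
    conv_lhs => rw [← h1, hd]
    push_cast
    field_simp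
  have hc : Nat.Coprime (r.num).natAbs ((d : ℤ)).natAbs := by
    rw [Int.natAbs_natCast]
    apply r.reduced.coprime_dvd_right
    exact ⟨g, by rw [hd]; ring⟩
  rw [e]
  have h4 := Rat.den_div_eq_of_coprime (by exact_mod_cast hd0 : (0 : ℤ) < (d : ℤ)) hc
  have h5 : (((r.num : ℤ) : ℚ) / ((d : ℤ) : ℚ)).den = d := by exact_mod_cast h4
  rw [h5, hd, Nat.mul_div_cancel_left d hg0]

lemma Sm_le_lg {P₀ A : Finset ℕ} {b : ℕ} (hb : b ≠ 0) (hP : ∀ p ∈ P₀, p.Prime)
    (hd : ∀ p ∈ P₀, p ∣ b) (hA : A ⊆ P₀) : Sm lg A ≤ Real.log b := by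
  have h1 := lg_prod (A := A) (fun p hp => hP p (hA hp))
  unfold Sm
  have hdv : (∏ p ∈ A, p) ∣ b := Finset.prod_primes_dvd _
    (fun p hp => Nat.prime_iff.mp (hP p (hA hp))) (fun p hp => hd p (hA hp))
  have h2 : lg (∏ p ∈ A, p) ≤ Real.log b := by
    unfold lg
    apply Real.log_le_log
    · exact_mod_cast h1.1
    · exact_mod_cast Nat.le_of_dvd (Nat.pos_of_ne_zero hb) hdv
  have h3 := h1.2
  unfold Sm at h3
  rw [← h3]
  exact h2

variable {N : ℕ} [NeZero N] {χ : DirichletCharacter ℂ N}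

omit [NeZero N] in
lemma inert_not_dvd {p : ℕ} (hi : rchar χ p = -1) : p.Coprime N := by
  by_contra hc
  rw [rchar_not_coprime χ hc] at hi
  norm_num at hi

end Pool.Agent.MP0016c7.Ros
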