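import Mathlib
import Pool.Agent.Lib.MP_0016c7_nt.CdlSmall1
import Pool.Agent.Lib.MP_0016c7_nt.RatAux

open Real Filter

namespace Pool.Agent.MP0016c7.Ros

/-- product of the remaining primes -/
def Dh (P A : Finset ℕ) : ℕ := ∏ p ∈ P \ A, p

lemma Dh_erase {P A : Finset ℕ} {p : ℕ} (hA : A ⊆ P) (hp : p ∈ A) :
    Dh P (A.erase p) = p * Dh P A := by
  unfold Dh
  have h1 : P \ A.erase p = insert p (P \ A) := by
    ext q
    rw [Finset.mem_sdiff, Finset.mem_erase, Finset.mem_insert, Finset.mem_sdiff]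
    constructor
    · rintro ⟨h1, h2⟩
      by_cases c : q = p
      · exact Or.inl c
      · exact Or.inr ⟨h1, fun h => h2 ⟨c, h⟩⟩
    · rintro (h | ⟨h1, h2⟩)
      · rw [h]; exact ⟨hA hp, fun hc => hc.1 rfl⟩
      · exact ⟨h1, fun hc => h2 hc.2⟩
  rw [h1, Finset.prod_insert (fun hc => (Finset.mem_sdiff.mp hc).2 hp)]

/-- the nearby rational number -/
def qA (P : Finset ℕ) (ξ : ℚ) (A : Finset ℕ) : ℚ := ξ * Dh P A

lemma qA_den_dvd (P : Finset ℕ) (ξ : ℚ) (A : Finset ℕ) : (qA P ξ A).den ∣ ξ.den := by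
  unfold qA
  have := Rat.mul_den_dvd ξ (Dh P A : ℚ)
  rwa [Rat.den_natCast, mul_one] at this

lemma qA_erase {P A : Finset ℕ} (ξ : ℚ) {p : ℕ} (hA : A ⊆ P) (hp : p ∈ A) :
    qA P ξ (A.erase p) = p * qA P ξ A := by
  unfold qA
  rw [Dh_erase hA hp]; push_cast; ring

lemma qA_erase_den {P A : Finset ℕ} (ξ : ℚ) {p : ℕ} (hA : A ⊆ P) (hp : p ∈ A) (hpp : p.Prime)
    (hd : ¬ p ∣ ξ.den) : (qA P ξ (A.erase p)).den = (qA P ξ A).den ∧
      (qA P ξ (A.erase p)).num = p * (qA P ξ A).num := by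
  rw [qA_erase ξ hA hp]
  apply rat_nat_mul
  rw [Nat.Prime.coprime_iff_not_dvd hpp]
  exact fun h => hd (h.trans (qA_den_dvd P ξ A))

variable {N : ℕ} [NeZero N] {χ : DirichletCharacter ℂ N}

/-- the structured event -/
def CC (P : Finset ℕ) (ξ : ℚ) (G τ X : ℝ) (A : Finset ℕ) : Prop :=
  ((qA P ξ A).den : ℝ) ≤ G ∧ X - Sm lg A ≤ τ

open Classical in
/-- indicator of the complement of the structured event -/
noncomputable def cI (P : Finset ℕ) (ξ : ℚ) (G τ X : ℝ) (A : Finset ℕ) : ℝ :=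
  if CC P ξ G τ X A then 0 else 1

open Classical in
/-- indicator of the structured event -/
noncomputable def sI (P : Finset ℕ) (ξ : ℚ) (G τ X : ℝ) (A : Finset ℕ) : ℝ :=
  if CC P ξ G τ X A then 1 else 0

lemma cI_add_sI (P : Finset ℕ) (ξ : ℚ) (G τ X : ℝ) (A : Finset ℕ) :
    cI P ξ G τ X A + sI P ξ G τ X A = 1 := by
  unfold cI sI; split_ifs <;> norm_num

lemma cI_nonneg (P : Finset ℕ) (ξ : ℚ) (G τ X : ℝ) (A : Finset ℕ) : 0 ≤ cI P ξ G τ X A := by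
  unfold cI; split_ifs <;> norm_num

lemma cI_le_one (P : Finset ℕ) (ξ : ℚ) (G τ X : ℝ) (A : Finset ℕ) : cI P ξ G τ X A ≤ 1 := by
  unfold cI; split_ifs <;> norm_num

lemma sI_nonneg (P : Finset ℕ) (ξ : ℚ) (G τ X : ℝ) (A : Finset ℕ) : 0 ≤ sI P ξ G τ X A := by
  unfold sI; split_ifs <;> norm_num

lemma sI_le_one (P : Finset ℕ) (ξ : ℚ) (G τ X : ℝ) (A : Finset ℕ) : sI P ξ G τ X A ≤ 1 := by
  unfold sI; split_ifs <;> norm_num

/-- moving the threshold -/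
lemma cI_close {P : Finset ℕ} {ξ : ℚ} {G τ X X' : ℝ} {A A' : Finset ℕ} {L w : ℝ}
    (hden : (qA P ξ A').den = (qA P ξ A).den)
    (hy : |(X' - Sm lg A') - (X - Sm lg A + L)| ≤ w) :
    |cI P ξ G τ X' A' - cI P ξ G (τ - L) X A| ≤ wI (τ - L - w) (2 * w) (X - Sm lg A) := by
  obtain ⟨h1, h2⟩ := abs_le.mp hy
  have hw0 := wI_nonneg (τ - L - w) (2 * w) (X - Sm lg A)
  have hw1 : (τ - L - w ≤ X - Sm lg A ∧ X - Sm lg A ≤ τ - L - w + 2 * w) →
      wI (τ - L - w) (2 * w) (X - Sm lg A) = 1 := fun h => by unfold wI; rw [if_pos h]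
  unfold cI CC
  rw [hden]
  by_cases c0 : ((qA P ξ A).den : ℝ) ≤ G
  swap
  · rw [if_neg (fun h => c0 h.1), if_neg (fun h => c0 h.1), sub_self, abs_zero]; exact hw0
  by_cases c1 : X' - Sm lg A' ≤ τ
  · by_cases c2 : X - Sm lg A ≤ τ - L
    · rw [if_pos ⟨c0, c1⟩, if_pos ⟨c0, c2⟩, sub_self, abs_zero]; exact hw0
    · rw [if_pos ⟨c0, c1⟩, if_neg (fun h => c2 h.2), hw1 ⟨by linarith, by linarith⟩]
      norm_num
  · by_cases c2 : X - Sm lg A ≤ τ - L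
    · rw [if_neg (fun h => c1 h.2), if_pos ⟨c0, c2⟩, hw1 ⟨by linarith, by linarith⟩]
      norm_num
    · rw [if_neg (fun h => c1 h.2), if_neg (fun h => c2 h.2), sub_self, abs_zero]; exact hw0

lemma xs_zero_eq (p : ℕ) : xs 0 p = 1 := by
  unfold xs; rw [zero_mul, neg_zero, exp_zero]

lemma ww_zero (p : ℕ) : ww (xs 0) p = 2 := by
  unfold ww; rw [xs_zero_eq]; norm_num

/-- **Claim 1: no bias outside the structured event.** -/
theorem top_eqd {Λ X τ : ℝ} {ξ : ℚ} (hpk : Pack χ ξ.den Λ 2) (hΛ : 1 ≤ Λ) {h : ℤ} (hh : h ≠ 0)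
    (hhΛ : |(h : ℝ)| ≤ Λ) :
    ‖EE (iP χ Λ) (xs 0) (fun A => ((cI (iP χ Λ) ξ (Λ ^ 5) τ X A : ℝ) : ℂ) *
      eu (h * thx N X A))‖ ≤
      4 * EE (iP χ Λ) (xs 0) (fun A => wI (τ - 13 * Λ / 10 - 2) (2 * 2) (X - Sm lg A)) +
      (6 * (1 / Λ) + 13000 / Λ) +
      (EE (iP χ Λ) (xs 0) (fun A => @ite ℝ (MajA (Λ ^ 5) (kp Λ) (thx N X A)) (Classical.dec _)
        (cI (iP χ Λ) ξ (Λ ^ 5) τ X A) 0) +
       EE (iP χ Λ) (xs 0) (fun A => wI (τ - 13 * Λ / 10) (13 * Λ / 10) (X - Sm lg A))) +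
      3 * (1 / Λ) + 5 * 2 ^ 2 * rexp (-(2 * Λ)) := by
  classical
  have hΛ0 : 0 < Λ := by linarith
  have hx : ∀ p, 0 < xs 0 p := fun p => xs_pos 0 p
  have hx1 : ∀ p ∈ iP χ Λ, xs 0 p ≤ 1 := fun p _ => xs_le_one le_rfl p
  have hw : ∀ p ∈ iP χ Λ, ww (xs 0) p ≤ 2 := fun p _ => (ww_zero p).le
  set P := iP χ Λ with hP
  set G := Λ ^ 5 with hG
  have key := E1 hx hx1 hpk.b1 hpk.b2 hpk.J1 hpk.J2 hpk.dis le_rfl hw (η := 1 / Λ)
    (ε' := 13000 / Λ) (by positivity) (by rw [div_le_one hΛ0]; exact hΛ) (by positivity)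
    (fun A => ((cI P ξ G τ X A : ℝ) : ℂ) * eu (h * thx N X A)) (by
      intro A _
      rw [norm_mul, norm_eu, mul_one, Complex.norm_real, Real.norm_eq_abs,
        abs_of_nonneg (cI_nonneg _ _ _ _ _ _)]
      exact cI_le_one _ _ _ _ _ _)
    (fun A => h * thx N X A) (fun A => cI P ξ G (τ - 13 * Λ / 10) X A)
    (fun A => wI (τ - 13 * Λ / 10 - 2) (2 * 2) (X - Sm lg A))
    (fun A => cI_nonneg _ _ _ _ _ _) (fun A => wI_nonneg _ _ _) (by
      intro A hA p₁ hp₁ p₂ hp₂ hw₁ hw₂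
      have hne : p₁ ≠ p₂ := by
        intro hc
        rw [hc] at hw₁
        exact hw₂ (hpk.dis p₂ hw₁)
      have hp₁' : p₁ ∈ A.erase p₂ := Finset.mem_erase.mpr ⟨hne, hp₁⟩
      have pr1 := iP_prime (hA hp₁)
      have pr2 := iP_prime (hA hp₂)
      have t1 : thx N X ((A.erase p₂).erase p₁) = p₁ * (p₂ * thx N X A) := by
        rw [thx_erase hp₁' pr1, thx_erase hp₂ pr2]
      have t2 : X - Sm lg ((A.erase p₂).erase p₁) = X - Sm lg A + (lg p₁ + lg p₂) := by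
        rw [Sm_erase hp₁', Sm_erase hp₂]; ring
      have n1 := hpk.b1.near p₁ hw₁
      have n2 := hpk.b2.near p₂ hw₂
      rw [Real.log_exp] at n1 n2
      have hℓ : |(lg p₁ + lg p₂) - 13 * Λ / 10| ≤ 2 := by
        rw [abs_le] at n1 n2 ⊢
        constructor <;> linarith [n1.1, n1.2, n2.1, n2.2]
      have t3 : (h : ℝ) * (p₁ * (p₂ * thx N X A)) = p₁ * (p₂ * (h * thx N X A)) := by ring
      have hsub : A.erase p₂ ⊆ P := (Finset.erase_subset _ _).trans hA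
      have d1 := (qA_erase_den ξ hsub hp₁' pr1 (hpk.nd1 p₁ hw₁)).1
      have d2 := (qA_erase_den ξ hA hp₂ pr2 (hpk.nd2 p₂ hw₂)).1
      rw [t1, t3, ← sub_mul, norm_mul, norm_eu, mul_one, ← Complex.ofReal_sub,
        Complex.norm_real, Real.norm_eq_abs]
      apply cI_close (d1.trans d2)
      rw [t2]
      have e : X - Sm lg A + (lg p₁ + lg p₂) - (X - Sm lg A + 13 * Λ / 10) =
        (lg p₁ + lg p₂) - 13 * Λ / 10 := by ring
      rw [e]
      exact hℓ)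
    (fun A => MajA (Λ ^ 4) (kp Λ) (h * thx N X A)) (fun A _ hA => hpk.minor _ hA)
    (hpk.gd1 (xs 0) hx hx1 hw) (hpk.gd2 (xs 0) hx hx1 hw)
  refine key.trans ?_
  have n0 : EE P (xs 0) (fun A => cI P ξ G (τ - 13 * Λ / 10) X A) ≤ 1 := by
    have := EE_mono (P := P) hx (G := fun _ => (1 : ℝ))
      (fun A _ => cI_le_one P ξ G (τ - 13 * Λ / 10) X A)
    rwa [EE_const hx] at this
  have n2 : EE P (xs 0) (fun A => ‖((cI P ξ G τ X A : ℝ) : ℂ) * eu (h * thx N X A)‖) ≤ 1 := by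
    have := EE_mono (P := P) hx (F := fun A => ‖((cI P ξ G τ X A : ℝ) : ℂ) *
      eu (h * thx N X A)‖) (G := fun _ => (1 : ℝ)) (fun A _ => by
        rw [norm_mul, norm_eu, mul_one, Complex.norm_real, Real.norm_eq_abs,
          abs_of_nonneg (cI_nonneg _ _ _ _ _ _)]
        exact cI_le_one _ _ _ _ _ _)
    rwa [EE_const hx] at this
  have n1 : EE P (xs 0) (fun A => @ite ℝ (MajA (Λ ^ 4) (kp Λ) (h * thx N X A))
      (Classical.dec _) (cI P ξ G (τ - 13 * Λ / 10) X A) 0) ≤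
      EE P (xs 0) (fun A => @ite ℝ (MajA G (kp Λ) (thx N X A)) (Classical.dec _)
        (cI P ξ G τ X A) 0) +
      EE P (xs 0) (fun A => wI (τ - 13 * Λ / 10) (13 * Λ / 10) (X - Sm lg A)) := by
    rw [← EE_add]
    apply EE_mono hx
    intro A _
    have hg := cI_nonneg P ξ G τ X A
    have hw0 := wI_nonneg (τ - 13 * Λ / 10) (13 * Λ / 10) (X - Sm lg A)
    by_cases c : MajA (Λ ^ 4) (kp Λ) (h * thx N X A)
    · have c2 : MajA G (kp Λ) (thx N X A) := MajA_div hh (by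
        calc |(h : ℝ)| * Λ ^ 4 ≤ Λ * Λ ^ 4 := mul_le_mul_of_nonneg_right hhΛ (by positivity)
          _ = Λ ^ 5 := by ring) c
      rw [if_pos c, if_pos c2]
      unfold cI CC
      by_cases c3 : ((qA P ξ A).den : ℝ) ≤ G ∧ X - Sm lg A ≤ τ - 13 * Λ / 10
      · rw [if_pos c3]
        refine add_nonneg ?_ hw0
        split_ifs <;> norm_num
      · rw [if_neg c3]
        by_cases c4 : ((qA P ξ A).den : ℝ) ≤ G ∧ X - Sm lg A ≤ τ
        · rw [if_pos c4]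
          have : wI (τ - 13 * Λ / 10) (13 * Λ / 10) (X - Sm lg A) = 1 := by
            unfold wI
            rw [if_pos]
            refine ⟨?_, by linarith [c4.2]⟩
            by_contra hc
            exact c3 ⟨c4.1, by linarith [not_le.mp hc]⟩
          linarith
        · rw [if_neg c4]; linarith
    · rw [if_neg c]
      have : (0 : ℝ) ≤ (@ite ℝ (MajA G (kp Λ) (thx N X A)) (Classical.dec _)
        (cI P ξ G τ X A) 0) := by split_ifs; exacts [hg, le_rfl]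
      linarith
  have b1 : (6 * (1 / Λ) + 13000 / Λ) * EE P (xs 0) (fun A => cI P ξ G (τ - 13 * Λ / 10) X A) ≤
      (6 * (1 / Λ) + 13000 / Λ) * 1 := mul_le_mul_of_nonneg_left n0 (by positivity)
  have b2 : 3 * (1 / Λ) * EE P (xs 0) (fun A => ‖((cI P ξ G τ X A : ℝ) : ℂ) *
      eu (h * thx N X A)‖) ≤ 3 * (1 / Λ) * 1 := mul_le_mul_of_nonneg_left n2 (by positivity)
  linarith

end Pool.Agent.MP0016c7.Ros
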