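import Mathlib
import Pool.Agent.Lib.MP_0016c7_nt.CdlMi
import Pool.Agent.Lib.MP_0016c7_nt.CdlSmall2
import Pool.Agent.Lib.MP_0016c7_nt.CdlTop1

open Real Filter

namespace Pool.Agent.MP0016c7.Ros

lemma EE_toggle {P : Finset ℕ} {x : ℕ → ℝ} (hx : ∀ p, 0 < x p) {p : ℕ} (hp : p ∈ P)
    (hx1 : x p = 1) (H : Finset ℕ → ℝ) :
    EE P x H = EE P x (fun A => if p ∈ A then H A + H (A.erase p) else 0) := by
  have h1 := EE_erase hx hp H
  have e1 : EE P x (fun A => if p ∈ A then ((1 + x p) / x p) • H (A.erase p) else 0) =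
      2 * EE P x (fun A => if p ∈ A then H (A.erase p) else 0) := by
    rw [← EE_mul]
    congr 1
    ext A
    rw [hx1]
    split_ifs
    · rw [smul_eq_mul]; norm_num
    · ring
  have e2 : EE P x (fun A => if p ∈ A then 0 else (1 + x p) • H A) =
      2 * EE P x (fun A => if p ∈ A then 0 else H A) := by
    rw [← EE_mul]
    congr 1
    ext A
    rw [hx1]
    split_ifs
    · ring
    · rw [smul_eq_mul]; norm_num
  rw [e1, e2] at h1
  have e3 : EE P x H = EE P x (fun A => if p ∈ A then H A else 0) +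
      EE P x (fun A => if p ∈ A then 0 else H A) := by
    rw [← EE_add]
    congr 1
    ext A
    split_ifs <;> ring
  have e4 : EE P x (fun A => if p ∈ A then H A + H (A.erase p) else 0) =
      EE P x (fun A => if p ∈ A then H A else 0) +
      EE P x (fun A => if p ∈ A then H (A.erase p) else 0) := by
    rw [← EE_add]
    congr 1
    ext A
    split_ifs <;> ring
  linarith only [h1, e3, e4]

variable {N : ℕ} [NeZero N] {χ : DirichletCharacter ℂ N}

lemma abs_Mcl_le (hne : χ ≠ 1) {b : ℕ} (hb : b ≠ 0) (a : ℤ) (s : ℝ) :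
    |Mcl χ b a s| ≤ 2 * N := by
  classical
  have hN0 : (0 : ℝ) ≤ N := Nat.cast_nonneg N
  have hpos : 0 < N * b := Nat.mul_pos (NeZero.pos N) (Nat.pos_of_ne_zero hb)
  have hφ : (0 : ℝ) < Nat.totient (N * b) := by exact_mod_cast Nat.totient_pos.mpr hpos
  unfold Mcl
  rw [abs_mul, abs_of_pos (by positivity : (0 : ℝ) < 2 / (Nat.totient (N * b) : ℝ))]
  have h1 : |∑ c ∈ (Finset.range (N * b)).filter (fun c => (N * b).Coprime c),
      @ite ℝ (rchar χ c = s) (Classical.dec _) (Sf χ b (c * a)) 0| ≤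
      (Nat.totient (N * b) : ℝ) * N := by
    refine (Finset.abs_sum_le_sum_abs _ _).trans ?_
    have h2 : ∀ c ∈ (Finset.range (N * b)).filter (fun c => (N * b).Coprime c),
        |@ite ℝ (rchar χ c = s) (Classical.dec _) (Sf χ b (c * a)) 0| ≤ N := by
      intro c _
      split_ifs
      · exact abs_Sf_le hne _ _
      · rw [abs_zero]; exact hN0
    refine (Finset.sum_le_sum h2).trans (le_of_eq ?_)
    rw [Finset.sum_const, nsmul_eq_mul]
    congr 1
  calc _ ≤ 2 / (Nat.totient (N * b) : ℝ) * ((Nat.totient (N * b) : ℝ) * N) :=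
        mul_le_mul_of_nonneg_left h1 (by positivity)
    _ = 2 * N := by field_simp

/-- the mean over the reduced fractions -/
noncomputable def Fi (χ : DirichletCharacter ℂ N) (b : ℕ) : ℝ := Wn χ b / (Nat.totient b : ℝ)

lemma abs_Fi_le (hne : χ ≠ 1) (b : ℕ) : |Fi χ b| ≤ N := by
  unfold Fi
  rcases Nat.eq_zero_or_pos b with rfl | hb
  · simp
  have hφ : (0 : ℝ) < Nat.totient b := by exact_mod_cast Nat.totient_pos.mpr hb
  rw [abs_div, abs_of_pos hφ, div_le_iff₀ hφ]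
  unfold Wn
  refine (Finset.abs_sum_le_sum_abs _ _).trans ?_
  refine (Finset.sum_le_sum fun a _ => abs_Sn_le hne _).trans (le_of_eq ?_)
  rw [Finset.sum_const, nsmul_eq_mul, mul_comm]
  rfl

/-- mean over a block of values at fractions -/
lemma block_mean (h2 : χ ^ 2 = 1) (hne : χ ≠ 1) {Λ : ℝ} {B b : ℕ} (hpk : Pack χ B Λ 2)
    (hb : b ≠ 0) (hbΛ : (N : ℝ) * b ≤ Λ ^ 10) (a : ℤ) :
    |∑ p ∈ iP χ Λ, w2 χ B Λ p * Sf χ b (p * a) - I2 χ B Λ * Mcl χ b a (-1)| ≤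
      N * (I2 χ B Λ / Λ) := by
  have hN := modulus_ne_one hne
  have hN0 : (0 : ℝ) < N := by exact_mod_cast NeZero.pos N
  have : NeZero b := ⟨hb⟩
  have key := hpk.mean (N * b) (by push_cast; exact hbΛ) (dvd_mul_right N b)
    (fun c : ZMod (N * b) => Sf χ b (c.val * a) / N) (by
      intro c
      rw [abs_div, abs_of_pos hN0, div_le_one hN0]
      exact abs_Sf_le hne _ _)
  rw [Mcl_mu h2 hN] at key
  have e1 : ∀ p : ℕ, Sf χ b (((p : ZMod (N * b)).val : ℤ) * a) = Sf χ b (p * a) := by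
    intro p
    apply Sf_congr
    apply Int.ModEq.mul_right
    rw [ZMod.val_natCast, Int.natCast_modEq_iff]
    exact (Nat.mod_modEq p (N * b)).of_mul_left N
  simp only [e1] at key
  have e2 : ∑ p ∈ iP χ Λ, w2 χ B Λ p * (Sf χ b (p * a) / N) - I2 χ B Λ * (Mcl χ b a (-1) / N) =
      (∑ p ∈ iP χ Λ, w2 χ B Λ p * Sf χ b (p * a) - I2 χ B Λ * Mcl χ b a (-1)) / N := by
    rw [sub_div, Finset.sum_div]
    congr 1
    · apply Finset.sum_congr rfl
      intro p _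
      ring
    · ring
  rw [e2, abs_div, abs_of_pos hN0, div_le_iff₀ hN0] at key
  linarith

/-- the value at the nearby fraction -/
noncomputable def Ps (χ : DirichletCharacter ℂ N) (P : Finset ℕ) (ξ : ℚ) (e : ℤ)
    (A : Finset ℕ) : ℝ := Sf χ (qA P ξ A).den (e * (qA P ξ A).num)

/-- the good event for values at fractions -/
def Fam (χ : DirichletCharacter ℂ N) (B : ℕ) (Λ : ℝ) (A : Finset ℕ) : Prop :=
  ∀ b a : ℕ, (b : ℝ) ≤ Λ ^ 5 → a < b →
    |Ub (iP χ Λ) (xs 0) (w2 χ B Λ) (I2 χ B Λ) (fun p => Sf χ b (p * a)) A| ≤ 1 / Λ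

lemma Pr_not_Fam (hne : χ ≠ 1) {Λ : ℝ} {B : ℕ} (hpk : Pack χ B Λ 2) (hΛ : 1 ≤ Λ) :
    Pr (iP χ Λ) (xs 0) (fun A => ¬ Fam χ B Λ A) ≤
      (Λ ^ 5 + 1) ^ 2 * (2 * rexp (-(I2 χ B Λ / (256 * (N : ℝ) ^ 2 * Λ ^ 3)))) := by
  classical
  have hΛ0 : 0 < Λ := by linarith
  have hN0 : (0 : ℝ) < N := by exact_mod_cast NeZero.pos N
  have hx : ∀ p, 0 < xs 0 p := fun p => xs_pos 0 p
  set R := ⌊Λ ^ 5⌋₊ + 1 with hR
  set I := Finset.range R ×ˢ Finset.range R with hI
  have key := Pr_Ub_family hx hpk.b2 hpk.J2 (wb := 2) (B := N) (by norm_num)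
    (fun p _ => (ww_zero p).le) hN0 (by positivity : 0 < 16 * Λ) I
    (fun i p => Sf χ i.1 (p * (i.2 : ℤ))) (fun i _ p _ => abs_Sf_le hne _ _)
    (η := 1 / Λ) (by positivity)
  have hsub : Pr (iP χ Λ) (xs 0) (fun A => ¬ Fam χ B Λ A) ≤
      Pr (iP χ Λ) (xs 0) (fun A => ∃ i ∈ I, 1 / Λ <
        |Ub (iP χ Λ) (xs 0) (w2 χ B Λ) (I2 χ B Λ) (fun p => Sf χ i.1 (p * (i.2 : ℤ))) A|) := by
    apply Pr_mono hx
    intro A _ hA
    unfold Fam at hA
    push Not at hA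
    obtain ⟨b, a, h1, h2, h3⟩ := hA
    have hbR : b < R := by
      have : b ≤ ⌊Λ ^ 5⌋₊ := Nat.le_floor h1
      omega
    exact ⟨(b, a), by
      rw [hI, Finset.mem_product, Finset.mem_range, Finset.mem_range]
      exact ⟨hbR, by omega⟩, h3⟩
  refine hsub.trans (key.trans ?_)
  have hcard : ((I.card : ℕ) : ℝ) ≤ (Λ ^ 5 + 1) ^ 2 := by
    rw [hI, Finset.card_product, Finset.card_range]
    push_cast
    rw [sq]
    have : (R : ℝ) ≤ Λ ^ 5 + 1 := by
      rw [hR]; push_cast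
      have := Nat.floor_le (by positivity : 0 ≤ Λ ^ 5)
      linarith only [this]
    exact mul_le_mul this this (Nat.cast_nonneg _) (by positivity)
  have he : (1 / Λ) ^ 2 * I2 χ B Λ / (4 * ((N : ℝ) ^ 2 * 2 ^ 2 * (16 * Λ))) =
      I2 χ B Λ / (256 * (N : ℝ) ^ 2 * Λ ^ 3) := by
    field_simp
    ring
  rw [he]
  exact mul_le_mul_of_nonneg_right hcard (by positivity)

lemma sI_close {P : Finset ℕ} {ξ : ℚ} {G τ X X' : ℝ} {A A' : Finset ℕ} {L w : ℝ}
    (hden : (qA P ξ A').den = (qA P ξ A).den)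
    (hy : |(X' - Sm lg A') - (X - Sm lg A + L)| ≤ w) :
    |sI P ξ G τ X' A' - sI P ξ G (τ - L) X A| ≤ wI (τ - L - w) (2 * w) (X - Sm lg A) := by
  have h1 := cI_add_sI P ξ G τ X' A'
  have h2 := cI_add_sI P ξ G (τ - L) X A
  have h3 := cI_close (P := P) (ξ := ξ) (G := G) (τ := τ) hden hy
  have e : sI P ξ G τ X' A' - sI P ξ G (τ - L) X A =
      -(cI P ξ G τ X' A' - cI P ξ G (τ - L) X A) := by linarith
  rw [e, abs_neg]
  exact h3

/-- pointwise form of the averaging step -/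
lemma stepB (h2 : χ ^ 2 = 1) (hne : χ ≠ 1) {Λ X τ : ℝ} {ξ : ℚ} (hpk : Pack χ ξ.den Λ 2)
    (hΛ : 1 ≤ Λ) (hNΛ : (N : ℝ) * Λ ^ 5 ≤ Λ ^ 10) {e : ℤ} {A : Finset ℕ} (hA : A ⊆ iP χ Λ)
    (hF : Fam χ ξ.den Λ A) :
    |Op (iP χ Λ) (xs 0) (w2 χ ξ.den Λ) (I2 χ ξ.den Λ)
        (fun A => Ps χ (iP χ Λ) ξ e A * sI (iP χ Λ) ξ (Λ ^ 5) τ X A) A -
      sI (iP χ Λ) ξ (Λ ^ 5) (τ - 2 * Λ / 5) X A *
        Mcl χ (qA (iP χ Λ) ξ A).den (e * (qA (iP χ Λ) ξ A).num) (-1)| ≤
      2 * N * wI (τ - 2 * Λ / 5 - 1) (2 * 1) (X - Sm lg A) + (N + 1) / Λ := by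
  classical
  have hΛ0 : 0 < Λ := by linarith
  have hN0 : (0 : ℝ) < N := by exact_mod_cast NeZero.pos N
  set P := iP χ Λ with hP
  set G := Λ ^ 5 with hG
  set ω := w2 χ ξ.den Λ with hω
  set J := I2 χ ξ.den Λ with hJ
  have hJ0 : 0 < J := hpk.J2
  set b := (qA P ξ A).den with hb
  set c := e * (qA P ξ A).num with hc
  set s := sI P ξ G (τ - 2 * Λ / 5) X A with hs
  have hs0 : 0 ≤ s := sI_nonneg _ _ _ _ _ _
  have hs1 : s ≤ 1 := sI_le_one _ _ _ _ _ _
  set W := wI (τ - 2 * Λ / 5 - 1) (2 * 1) (X - Sm lg A) with hW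
  have hW0 : 0 ≤ W := wI_nonneg _ _ _
  have hb0 : b ≠ 0 := (qA P ξ A).den_ne_zero
  set u : ℕ → ℝ := fun p => ω p * (if p ∈ A then ww (xs 0) p else 0) with hu
  have hu0 : ∀ p, 0 ≤ u p := fun p => by
    have := hpk.b2.nn p
    simp only [hu]
    rw [ww_zero]
    split_ifs
    · positivity
    · rw [mul_zero]
  have hu2 : ∑ p ∈ P, u p ≤ 2 * J := by
    rw [hJ, ← hpk.b2.sum, Finset.mul_sum]
    apply Finset.sum_le_sum
    intro p _
    have := hpk.b2.nn p
    simp only [hu]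
    rw [ww_zero]
    split_ifs
    · linarith
    · rw [mul_zero]; positivity
  -- first replacement
  have r1 : |Op P (xs 0) ω J (fun A => Ps χ P ξ e A * sI P ξ G τ X A) A -
      s * (J⁻¹ * ∑ p ∈ P, u p * Sf χ b (p * c))| ≤ 2 * N * W := by
    have e1 : Op P (xs 0) ω J (fun A => Ps χ P ξ e A * sI P ξ G τ X A) A -
        s * (J⁻¹ * ∑ p ∈ P, u p * Sf χ b (p * c)) =
        J⁻¹ * ∑ p ∈ P, u p * (Ps χ P ξ e (A.erase p) * sI P ξ G τ X (A.erase p) -
          s * Sf χ b (p * c)) := by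
      unfold Op
      simp only [smul_eq_mul]
      rw [mul_left_comm, ← mul_sub, Finset.mul_sum, ← Finset.sum_sub_distrib]
      congr 1
      apply Finset.sum_congr rfl
      intro p _
      simp only [hu]
      ring
    rw [e1, abs_mul, abs_of_pos (inv_pos.mpr hJ0), inv_mul_le_iff₀ hJ0]
    have e2 : ∀ p ∈ P, |u p * (Ps χ P ξ e (A.erase p) * sI P ξ G τ X (A.erase p) -
        s * Sf χ b (p * c))| ≤ (N * W) * u p := by
      intro p hp
      rw [abs_mul, abs_of_nonneg (hu0 p), mul_comm]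
      by_cases hz : u p = 0
      · rw [hz, mul_zero, mul_zero]
      apply mul_le_mul_of_nonneg_right _ (hu0 p)
      have hz1 : ω p ≠ 0 := left_ne_zero_of_mul hz
      have hz2 : p ∈ A := by
        by_contra hn
        apply hz
        simp only [hu]
        rw [if_neg hn, mul_zero]
      have pr := iP_prime (hA hz2)
      obtain ⟨d1, d2⟩ := qA_erase_den ξ hA hz2 pr (hpk.nd2 p hz1)
      have e3 : Ps χ P ξ e (A.erase p) = Sf χ b (p * c) := by
        unfold Ps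
        rw [d1, d2]
        congr 1
        rw [hc]; ring
      have n2 := hpk.b2.near p hz1
      rw [Real.log_exp] at n2
      have e4 := sI_close (P := P) (ξ := ξ) (G := G) (τ := τ) (X := X) (X' := X) (L := 2 * Λ / 5)
        (w := 1) d1 (by
          rw [Sm_erase hz2]
          have : X - (Sm lg A - lg p) - (X - Sm lg A + 2 * Λ / 5) = lg p - 2 * Λ / 5 := by ring
          rw [this]; exact n2)
      rw [e3]
      have e5 : Sf χ b (p * c) * sI P ξ G τ X (A.erase p) - s * Sf χ b (p * c) =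
          Sf χ b (p * c) * (sI P ξ G τ X (A.erase p) - s) := by ring
      rw [e5, abs_mul]
      exact mul_le_mul (abs_Sf_le hne _ _) e4 (abs_nonneg _) hN0.le
    refine (Finset.abs_sum_le_sum_abs _ _).trans ((Finset.sum_le_sum e2).trans ?_)
    rw [← Finset.mul_sum]
    calc (N : ℝ) * W * ∑ p ∈ P, u p ≤ N * W * (2 * J) :=
          mul_le_mul_of_nonneg_left hu2 (by positivity)
      _ = J * (2 * N * W) := by ring
  -- second replacement
  have r2 : |s * (J⁻¹ * ∑ p ∈ P, u p * Sf χ b (p * c)) - s * Mcl χ b c (-1)| ≤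
      (N + 1) / Λ := by
    rcases eq_or_ne s 0 with hs' | hs'
    · rw [hs', zero_mul, zero_mul, sub_zero, abs_zero]; positivity
    have hbG : (b : ℝ) ≤ G := by
      by_contra hcon
      apply hs'
      rw [hs]
      unfold sI CC
      rw [if_neg (fun h => hcon h.1)]
    rw [← mul_sub, abs_mul, abs_of_nonneg hs0]
    have r3 : |J⁻¹ * ∑ p ∈ P, u p * Sf χ b (p * c) - Mcl χ b c (-1)| ≤ (N + 1) / Λ := by
      obtain ⟨a, ha, hac⟩ : ∃ a : ℕ, a < b ∧ (a : ℤ) ≡ c [ZMOD b] := by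
        have hbz : (b : ℤ) ≠ 0 := by exact_mod_cast hb0
        have h0 := Int.emod_nonneg c hbz
        have h1 := Int.emod_lt_of_pos c (by positivity : (0 : ℤ) < b)
        refine ⟨(c % b).toNat, ?_, ?_⟩
        · have : ((c % b).toNat : ℤ) < b := by rw [Int.toNat_of_nonneg h0]; exact h1
          exact_mod_cast this
        · rw [Int.toNat_of_nonneg h0]
          exact Int.mod_modEq c b
      have hSf : ∀ p : ℕ, Sf χ b (p * c) = Sf χ b (p * a) := fun p =>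
        Sf_congr (hac.symm.mul_left p)
      have k1 := hF b a hbG ha
      have k2 := block_mean h2 hne hpk hb0 (by
        refine le_trans ?_ hNΛ
        exact mul_le_mul_of_nonneg_left hbG hN0.le) (a := c)
      rw [← hP, ← hω, ← hJ] at k1 k2
      have e6 : Ub P (xs 0) ω J (fun p => Sf χ b (p * a)) A =
          J⁻¹ * ∑ p ∈ P, u p * Sf χ b (p * c) - J⁻¹ * ∑ p ∈ P, ω p * Sf χ b (p * c) := by
        unfold Ub
        rw [← mul_sub, ← Finset.sum_sub_distrib, div_eq_inv_mul]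
        congr 1
        apply Finset.sum_congr rfl
        intro p _
        rw [hSf p]
        simp only [hu]
        split_ifs <;> ring
      have e7 : |J⁻¹ * ∑ p ∈ P, ω p * Sf χ b (p * c) - Mcl χ b c (-1)| ≤ N / Λ := by
        have : J⁻¹ * ∑ p ∈ P, ω p * Sf χ b (p * c) - Mcl χ b c (-1) =
            J⁻¹ * (∑ p ∈ P, ω p * Sf χ b (p * c) - J * Mcl χ b c (-1)) := by
          rw [mul_sub, ← mul_assoc, inv_mul_cancel₀ hJ0.ne', one_mul]
        rw [this, abs_mul, abs_of_pos (inv_pos.mpr hJ0), inv_mul_le_iff₀ hJ0]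
        refine k2.trans (le_of_eq ?_)
        ring
      rw [e6] at k1
      have e8 : J⁻¹ * ∑ p ∈ P, u p * Sf χ b (p * c) - Mcl χ b c (-1) =
          (J⁻¹ * ∑ p ∈ P, u p * Sf χ b (p * c) - J⁻¹ * ∑ p ∈ P, ω p * Sf χ b (p * c)) +
          (J⁻¹ * ∑ p ∈ P, ω p * Sf χ b (p * c) - Mcl χ b c (-1)) := by ring
      rw [e8]
      refine (abs_add_le _ _).trans ?_
      rw [add_div]
      linarith only [k1, e7]
    calc s * |J⁻¹ * ∑ p ∈ P, u p * Sf χ b (p * c) - Mcl χ b c (-1)| ≤ 1 * ((N + 1) / Λ) :=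
          mul_le_mul hs1 r3 (abs_nonneg _) zero_le_one
      _ = _ := one_mul _
  have e9 : Op P (xs 0) ω J (fun A => Ps χ P ξ e A * sI P ξ G τ X A) A - s * Mcl χ b c (-1) =
      (Op P (xs 0) ω J (fun A => Ps χ P ξ e A * sI P ξ G τ X A) A -
        s * (J⁻¹ * ∑ p ∈ P, u p * Sf χ b (p * c))) +
      (s * (J⁻¹ * ∑ p ∈ P, u p * Sf χ b (p * c)) - s * Mcl χ b c (-1)) := by ring
  rw [e9]
  exact (abs_add_le _ _).trans (add_le_add r1 r2)

/-- **Claim 2: equidistribution inside the structured event.** -/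
theorem top_struct (h2 : χ ^ 2 = 1) (hne : χ ≠ 1) {Λ X τ W₀ : ℝ} {ξ : ℚ}
    (hpk : Pack χ ξ.den Λ 2) (hΛ : 1 ≤ Λ) (hNΛ : (N : ℝ) * Λ ^ 5 ≤ Λ ^ 10)
    (hW : ∀ z w : ℝ, 0 ≤ w → w ≤ 2 * Λ →
      EE (iP χ Λ) (xs 0) (fun A => wI z w (X - Sm lg A)) ≤ W₀)
    (hFam : Pr (iP χ Λ) (xs 0) (fun A => ¬ Fam χ ξ.den Λ A) ≤ 1 / Λ) {e : ℤ}
    (he : e = 1 ∨ e = -1) :
    |EE (iP χ Λ) (xs 0) (fun A => Ps χ (iP χ Λ) ξ e A * sI (iP χ Λ) ξ (Λ ^ 5) τ X A) -
      EE (iP χ Λ) (xs 0) (fun A => Fi χ (qA (iP χ Λ) ξ A).den *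
        sI (iP χ Λ) ξ (Λ ^ 5) τ X A)| ≤ 6 * N * W₀ + 8 * N / Λ := by
  classical
  have hΛ0 : 0 < Λ := by linarith
  have hN := modulus_ne_one hne
  have hN0 : (0 : ℝ) < N := by exact_mod_cast NeZero.pos N
  have hN1 : (1 : ℝ) ≤ N := by exact_mod_cast NeZero.pos N
  have hx : ∀ p, 0 < xs 0 p := fun p => xs_pos 0 p
  have hx1 : ∀ p ∈ iP χ Λ, xs 0 p ≤ 1 := fun p _ => xs_le_one le_rfl p
  have hw : ∀ p ∈ iP χ Λ, ww (xs 0) p ≤ 2 := fun p _ => (ww_zero p).le
  set P := iP χ Λ with hP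
  set G := Λ ^ 5 with hG
  set ω := w2 χ ξ.den Λ with hω
  set J := I2 χ ξ.den Λ with hJ
  have hJ0 : 0 < J := hpk.J2
  set F : Finset ℕ → ℝ := fun A => Ps χ P ξ e A * sI P ξ G τ X A with hF
  set H : Finset ℕ → ℝ := fun A => sI P ξ G (τ - 2 * Λ / 5) X A *
    Mcl χ (qA P ξ A).den (e * (qA P ξ A).num) (-1) with hH
  set K' : Finset ℕ → ℝ := fun A => Fi χ (qA P ξ A).den * sI P ξ G (τ - 2 * Λ / 5) X A with hK'
  set K : Finset ℕ → ℝ := fun A => Fi χ (qA P ξ A).den * sI P ξ G τ X A with hK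
  have hFb : ∀ A, A ⊆ P → ‖F A‖ ≤ N := by
    intro A _
    simp only [hF]
    rw [Real.norm_eq_abs, abs_mul, abs_of_nonneg (sI_nonneg _ _ _ _ _ _)]
    calc |Ps χ P ξ e A| * sI P ξ G τ X A ≤ N * 1 :=
          mul_le_mul (abs_Sf_le hne _ _) (sI_le_one _ _ _ _ _ _) (sI_nonneg _ _ _ _ _ _) hN0.le
      _ = N := mul_one _
  have hexp : rexp (-(2 * Λ)) ≤ 1 / Λ := by
    rw [le_div_iff₀ hΛ0]
    have h3 : Λ ≤ rexp (2 * Λ) := by linarith [add_one_le_exp (2 * Λ)]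
    calc rexp (-(2 * Λ)) * Λ ≤ rexp (-(2 * Λ)) * rexp (2 * Λ) :=
          mul_le_mul_of_nonneg_left h3 (exp_pos _).le
      _ = 1 := by rw [← exp_add, neg_add_cancel, exp_zero]
  -- step A
  have sA : |EE P (xs 0) F - EE P (xs 0) (Op P (xs 0) ω J F)| ≤ 2 * N / Λ := by
    have key := EE_sub_Op_le hx hx1 hpk.b2 hJ0 (η := 1 / Λ) (by positivity) F hFb hN0.le
      (Gd P (xs 0) ω J (1 / Λ)) (fun A _ h => h.1)
    rw [Real.norm_eq_abs] at key
    have k1 : EE P (xs 0) (fun A => ‖F A‖) ≤ N := by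
      have := EE_mono (P := P) hx (G := fun _ => (N : ℝ)) hFb
      rwa [EE_const hx] at this
    have k2 := hpk.gd2 (xs 0) hx hx1 hw
    have k3 : 1 / Λ * EE P (xs 0) (fun A => ‖F A‖) ≤ 1 / Λ * N :=
      mul_le_mul_of_nonneg_left k1 (by positivity)
    have k4 : N * Pr P (xs 0) (fun A => ¬ Gd P (xs 0) ω J (1 / Λ) A) ≤ N * (1 / Λ) :=
      mul_le_mul_of_nonneg_left (k2.trans hexp) hN0.le
    refine key.trans ?_
    calc _ ≤ 1 / Λ * N + N * (1 / Λ) := add_le_add k3 k4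
      _ = _ := by ring
  -- step B
  have sB : |EE P (xs 0) (Op P (xs 0) ω J F) - EE P (xs 0) H| ≤
      2 * N * W₀ + (N + 1) / Λ + 4 * N * (1 / Λ) := by
    rw [← EE_sub, ← Real.norm_eq_abs]
    refine (norm_EE_le hx _).trans ?_
    have hb : ∀ A, A ⊆ P → ‖Op P (xs 0) ω J F A - H A‖ ≤
        2 * N * wI (τ - 2 * Λ / 5 - 1) (2 * 1) (X - Sm lg A) + (N + 1) / Λ +
        4 * N * (if ¬ Fam χ ξ.den Λ A then 1 else 0) := by
      intro A hA
      rw [Real.norm_eq_abs]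
      by_cases hfam : Fam χ ξ.den Λ A
      · rw [if_neg (not_not.mpr hfam), mul_zero, add_zero]
        exact stepB h2 hne hpk hΛ hNΛ hA hfam
      · rw [if_pos hfam, mul_one]
        have q1 : |Op P (xs 0) ω J F A| ≤ 2 * N := by
          have t1 := norm_Op_le hx hpk.b2 hJ0 F A
          have t2 := Op_le (wb := 2) (by norm_num) hw hx hpk.b2 hJ0 (F := fun A => ‖F A‖)
            (B := N) hN0.le (A := A) (fun p _ _ => hFb _ ((Finset.erase_subset _ _).trans hA))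
          rw [Real.norm_eq_abs] at t1
          exact t1.trans t2
        have q2 : |H A| ≤ 2 * N := by
          simp only [hH]
          rw [abs_mul, abs_of_nonneg (sI_nonneg _ _ _ _ _ _)]
          refine (mul_le_mul (sI_le_one P ξ G (τ - 2 * Λ / 5) X A)
            (abs_Mcl_le hne (qA P ξ A).den_ne_zero (e * (qA P ξ A).num) (-1)) (abs_nonneg _)
            zero_le_one).trans (le_of_eq (one_mul _))
        have q3 := abs_sub (Op P (xs 0) ω J F A) (H A)
        have q4 : 0 ≤ 2 * N * wI (τ - 2 * Λ / 5 - 1) (2 * 1) (X - Sm lg A) + (N + 1) / Λ := by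
          have := wI_nonneg (τ - 2 * Λ / 5 - 1) (2 * 1) (X - Sm lg A)
          positivity
        linarith
    refine (EE_mono hx hb).trans ?_
    rw [EE_add, EE_add, EE_mul, EE_mul, EE_const hx, EE_ite_eq_Pr]
    have w1 := hW (τ - 2 * Λ / 5 - 1) (2 * 1) (by norm_num) (by linarith)
    have w2 := mul_le_mul_of_nonneg_left w1 (by positivity : (0 : ℝ) ≤ 2 * N)
    have w3 := mul_le_mul_of_nonneg_left hFam (by positivity : (0 : ℝ) ≤ 4 * N)
    linarith
  -- step C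
  obtain ⟨p₀, hp₀⟩ : ∃ p, ω p ≠ 0 := by
    by_contra hc
    push Not at hc
    have := hpk.b2.sum
    rw [Finset.sum_eq_zero (fun p _ => hc p)] at this
    exact hJ0.ne this
  have hp₀P : p₀ ∈ P := hpk.b2.mem p₀ hp₀
  have hp₀p := iP_prime hp₀P
  have hp₀i : rchar χ p₀ = -1 := ((mem_iP χ).mp hp₀P).2.1
  have hp₀d := hpk.nd2 p₀ hp₀
  have sC : |EE P (xs 0) H - EE P (xs 0) K'| ≤ 3 * N * W₀ := by
    rw [EE_toggle hx hp₀P (xs_zero_eq p₀) H, EE_toggle hx hp₀P (xs_zero_eq p₀) K', ← EE_sub,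
      ← Real.norm_eq_abs]
    refine (norm_EE_le hx _).trans ?_
    have hb : ∀ A, A ⊆ P → ‖(if p₀ ∈ A then H A + H (A.erase p₀) else 0) -
        (if p₀ ∈ A then K' A + K' (A.erase p₀) else 0)‖ ≤
        3 * N * wI (τ - 2 * Λ / 5 - Λ) (2 * Λ) (X - Sm lg A) := by
      intro A hA
      have hw0 := wI_nonneg (τ - 2 * Λ / 5 - Λ) (2 * Λ) (X - Sm lg A)
      by_cases hc : p₀ ∈ A
      swap
      · rw [if_neg hc, if_neg hc, sub_self, norm_zero]; positivity
      rw [if_pos hc, if_pos hc, Real.norm_eq_abs]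
      obtain ⟨d1, d2⟩ := qA_erase_den ξ hA hc hp₀p hp₀d
      simp only [hH, hK']
      rw [d1, d2]
      set b := (qA P ξ A).den with hb
      set c := e * (qA P ξ A).num with hcd
      have hb0 : b ≠ 0 := (qA P ξ A).den_ne_zero
      have e1 : e * (p₀ * (qA P ξ A).num) = p₀ * c := by rw [hcd]; ring
      have hcop : p₀.Coprime (N * b) := by
        apply Nat.Coprime.mul_right (inert_not_dvd hp₀i)
        rw [Nat.Prime.coprime_iff_not_dvd hp₀p]
        exact fun h => hp₀d (h.trans (qA_den_dvd P ξ A))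
      rw [e1, Mcl_toggle h2 hN hb0 hcop hp₀i]
      have hcc : IsCoprime c (b : ℤ) := by
        have h3 : IsCoprime (qA P ξ A).num (b : ℤ) := by
          rw [Int.isCoprime_iff_gcd_eq_one, Int.gcd_eq_natAbs, Int.natAbs_natCast]
          exact (qA P ξ A).reduced
        rcases he with h | h
        · rw [hcd, h, one_mul]; exact h3
        · rw [hcd, h, neg_one_mul]; exact h3.neg_left
      have hadd := Mcl_add h2 hN hb0 hcc
      have hFi : Mcl χ b c (-1) = 2 * Fi χ b - Mcl χ b c 1 := by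
        unfold Fi; linarith only [hadd]
      rw [hFi]
      set s := sI P ξ G (τ - 2 * Λ / 5) X A with hs
      set s' := sI P ξ G (τ - 2 * Λ / 5) X (A.erase p₀) with hs'
      have e2 : s * (2 * Fi χ b - Mcl χ b c 1) + s' * Mcl χ b c 1 -
          (Fi χ b * s + Fi χ b * s') = (s' - s) * (Mcl χ b c 1 - Fi χ b) := by ring
      rw [e2, abs_mul]
      have e3 : |s' - s| ≤ wI (τ - 2 * Λ / 5 - Λ) (2 * Λ) (X - Sm lg A) := by
        have h5 := sI_close (P := P) (ξ := ξ) (G := G) (τ := τ - 2 * Λ / 5) (X := X) (X' := X)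
          (L := 0) (w := Λ) d1 (by
            rw [Sm_erase hc]
            have h6 : X - (Sm lg A - lg p₀) - (X - Sm lg A + 0) = lg p₀ := by ring
            rw [h6, abs_of_nonneg (lg_nonneg _)]
            exact lg_le_of_mem hp₀P)
        rw [sub_zero] at h5
        exact h5
      have e4 : |Mcl χ b c 1 - Fi χ b| ≤ 3 * N := by
        have := abs_sub (Mcl χ b c 1) (Fi χ b)
        have := abs_Mcl_le hne hb0 c 1
        have := abs_Fi_le hne b
        linarith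
      calc |s' - s| * |Mcl χ b c 1 - Fi χ b| ≤
            wI (τ - 2 * Λ / 5 - Λ) (2 * Λ) (X - Sm lg A) * (3 * N) :=
            mul_le_mul e3 e4 (abs_nonneg _) hw0
        _ = _ := by ring
    refine (EE_mono hx hb).trans ?_
    rw [EE_mul]
    exact mul_le_mul_of_nonneg_left (hW _ _ (by positivity) le_rfl) (by positivity)
  -- step D
  have sD : |EE P (xs 0) K' - EE P (xs 0) K| ≤ N * W₀ := by
    rw [← EE_sub, ← Real.norm_eq_abs]
    refine (norm_EE_le hx _).trans ?_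
    have hb : ∀ A, A ⊆ P → ‖K' A - K A‖ ≤
        N * wI (τ - 2 * Λ / 5 - 2 * Λ / 5) (2 * (2 * Λ / 5)) (X - Sm lg A) := by
      intro A _
      simp only [hK, hK']
      rw [Real.norm_eq_abs, ← mul_sub, abs_mul, abs_sub_comm]
      have h5 := sI_close (P := P) (ξ := ξ) (G := G) (τ := τ) (X := X) (X' := X) (A := A)
        (A' := A) (L := 2 * Λ / 5) (w := 2 * Λ / 5) rfl (by
          have h6 : X - Sm lg A - (X - Sm lg A + 2 * Λ / 5) = -(2 * Λ / 5) := by ring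
          rw [h6, abs_neg, abs_of_pos (by positivity)])
      exact mul_le_mul (abs_Fi_le hne _) h5 (abs_nonneg _) hN0.le
    refine (EE_mono hx hb).trans ?_
    rw [EE_mul]
    exact mul_le_mul_of_nonneg_left (hW _ _ (by positivity) (by linarith)) hN0.le
  have t1 := abs_sub_le (EE P (xs 0) F) (EE P (xs 0) (Op P (xs 0) ω J F)) (EE P (xs 0) K)
  have t2 := abs_sub_le (EE P (xs 0) (Op P (xs 0) ω J F)) (EE P (xs 0) H) (EE P (xs 0) K)
  have t3 := abs_sub_le (EE P (xs 0) H) (EE P (xs 0) K') (EE P (xs 0) K)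
  have t4 : 2 * N / Λ + (2 * N * W₀ + (N + 1) / Λ + 4 * N * (1 / Λ)) + 3 * N * W₀ + N * W₀ ≤
      6 * N * W₀ + 8 * N / Λ := by
    have e1 : 2 * N / Λ + (2 * N * W₀ + (N + 1) / Λ + 4 * N * (1 / Λ)) + 3 * N * W₀ + N * W₀ =
        6 * N * W₀ + (7 * N + 1) / Λ := by ring
    rw [e1]
    apply add_le_add_right
    apply div_le_div_of_nonneg_right _ hΛ0.le
    linarith
  linarith only [sA, sB, sC, sD, t1, t2, t3, t4]

end Pool.Agent.MP0016c7.Ros
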