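import Mathlib
import Pool.Agent.Lib.MP_0016c7_nt.CdlEE
import Pool.Agent.Lib.MP_0016c7_nt.CdlW

open Real

namespace Pool.Agent.MP0016c7.Ros

variable {N : ℕ} [NeZero N] {χ : DirichletCharacter ℂ N}

lemma fact_prod_primes {T : Finset ℕ} (hT : ∀ p ∈ T, p.Prime) (q : ℕ) :
    (∏ p ∈ T, p).factorization q = if q ∈ T then 1 else 0 := by
  rw [Nat.factorization_prod_apply (fun p hp => (hT p hp).ne_zero)]
  have h1 : ∀ p ∈ T, p.factorization q = if p = q then 1 else 0 := by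
    intro p hp
    rw [(hT p hp).factorization, Finsupp.single_apply]
  rw [Finset.sum_congr rfl h1, Finset.sum_ite_eq']

omit [NeZero N] in
lemma hh_nA (h2 : χ ^ 2 = 1) {b₀ : ℕ} (hb : b₀ ≠ 0) {P₀ : Finset ℕ} (hP : ∀ p ∈ P₀, p.Prime)
    (hd : ∀ p ∈ P₀, p ∣ b₀) {A : Finset ℕ} :
    hh χ (b₀ / ∏ p ∈ P₀ \ A, p) =
      (∏ p ∈ b₀.primeFactors \ P₀, hh χ (p ^ b₀.factorization p)) *
      ∏ p ∈ P₀, (if p ∈ A then hh χ (p ^ b₀.factorization p) else
        hh χ (p ^ (b₀.factorization p - 1))) := by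
  have hT : ∀ p ∈ P₀ \ A, p.Prime := fun p hp => hP p (Finset.mem_sdiff.mp hp).1
  have hdv : (∏ p ∈ P₀ \ A, p) ∣ b₀ := Finset.prod_primes_dvd _
    (fun p hp => Nat.prime_iff.mp (hT p hp)) (fun p hp => hd p (Finset.mem_sdiff.mp hp).1)
  have hsub : P₀ ⊆ b₀.primeFactors := fun p hp => Nat.mem_primeFactors.mpr ⟨hP p hp, hd p hp, hb⟩
  have hn : b₀ / ∏ p ∈ P₀ \ A, p ≠ 0 := by
    intro h
    rw [Nat.div_eq_zero_iff] at h
    rcases h with h | h
    · exact Finset.prod_ne_zero_iff.mpr (fun p hp => (hT p hp).ne_zero) h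
    · exact absurd (Nat.le_of_dvd (Nat.pos_of_ne_zero hb) hdv) (not_le.mpr h)
  have hpf : (b₀ / ∏ p ∈ P₀ \ A, p).primeFactors ⊆ b₀.primeFactors :=
    Nat.primeFactors_mono (Nat.div_dvd_of_dvd hdv) hb
  rw [hh_factor h2 hn hpf, ← Finset.prod_sdiff hsub]
  congr 1
  · apply Finset.prod_congr rfl
    intro p hp
    rw [Nat.factorization_div hdv, Finsupp.tsub_apply, fact_prod_primes hT, if_neg, Nat.sub_zero]
    intro hc
    exact (Finset.mem_sdiff.mp hp).2 (Finset.mem_sdiff.mp hc).1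
  · apply Finset.prod_congr rfl
    intro p hp
    rw [Nat.factorization_div hdv, Finsupp.tsub_apply, fact_prod_primes hT]
    by_cases c : p ∈ A
    · rw [if_pos c, if_neg (fun h => (Finset.mem_sdiff.mp h).2 c), Nat.sub_zero]
    · rw [if_neg c, if_pos (Finset.mem_sdiff.mpr ⟨hp, c⟩)]

omit [NeZero N] in
lemma rh_inert (h2 : χ ^ 2 = 1) {p : ℕ} (hp : p.Prime) (hi : rchar χ p = -1) (k : ℕ) :
    rh χ (p ^ (k + 1)) = 2 * (-1) ^ (k + 1) := by
  rw [rh_prime_pow hp, rchar_pow h2, rchar_pow h2, hi, pow_succ]; ring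

omit [NeZero N] in
lemma tot_pp {p : ℕ} (hp : p.Prime) (k : ℕ) :
    ((Nat.totient (p ^ (k + 1)) : ℕ) : ℝ) = (p : ℝ) ^ k * (p - 1) := by
  rw [Nat.totient_prime_pow_succ hp]
  push_cast [Nat.cast_sub hp.one_lt.le]
  ring

omit [NeZero N] in
/-- the averaged local factor at an inert prime -/
lemma local_inert (h2 : χ ^ 2 = 1) {p : ℕ} (hp : p.Prime) (hi : rchar χ p = -1) {v : ℕ}
    (hv : 0 < v) : |(hh χ (p ^ v) + hh χ (p ^ (v - 1))) / 2| ≤ 1 / 2 := by
  have hp2 : (2 : ℝ) ≤ p := by exact_mod_cast hp.two_le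
  have hpm : 0 < (p : ℝ) - 1 := by linarith
  obtain ⟨k, rfl⟩ : ∃ k, v = k + 1 := ⟨v - 1, by omega⟩
  rw [Nat.add_sub_cancel]
  rcases Nat.eq_zero_or_pos k with rfl | hk
  · rw [pow_zero, hh_one]
    have h3 : hh χ (p ^ (0 + 1)) = -2 / (p - 1) := by
      unfold hh
      rw [rh_inert h2 hp hi, tot_pp hp]
      norm_num
    rw [h3, abs_le]
    have h4 : (2 : ℝ) / (p - 1) ≤ 2 := by rw [div_le_iff₀ hpm]; linarith
    have h5 : 0 < (2 : ℝ) / (p - 1) := by positivity
    have h6 : (-2 : ℝ) / (p - 1) = -(2 / (p - 1)) := by ring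
    rw [h6]
    constructor <;> linarith only [h4, h5]
  · obtain ⟨j, rfl⟩ : ∃ j, k = j + 1 := ⟨k - 1, by omega⟩
    have h3 : hh χ (p ^ (j + 1 + 1)) + hh χ (p ^ (j + 1)) =
        -(2 * (-1) ^ (j + 1 + 1)) / (p : ℝ) ^ (j + 1) := by
      unfold hh
      rw [rh_inert h2 hp hi, rh_inert h2 hp hi, tot_pp hp, tot_pp hp]
      field_simp
      ring
    rw [h3, abs_div, abs_div, abs_neg, abs_mul, abs_pow]
    simp only [abs_neg, abs_one, one_pow, mul_one]
    have h4 : (2 : ℝ) ≤ |(p : ℝ) ^ (j + 1)| := by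
      rw [abs_of_pos (by positivity)]
      calc (2 : ℝ) ≤ p := hp2
        _ = (p : ℝ) ^ 1 := (pow_one _).symm
        _ ≤ (p : ℝ) ^ (j + 1) := pow_le_pow_right₀ (by linarith) (by omega)
    rw [abs_of_pos (by norm_num : (0 : ℝ) < 2), div_div, div_le_div_iff₀ (by positivity) (by norm_num)]
    linarith

omit [NeZero N] in
/-- local factors at the other primes -/
lemma local_other (h2 : χ ^ 2 = 1) {p : ℕ} (hp : p.Prime) (hi : rchar χ p = -1 → 5 ≤ p) {v : ℕ}
    (hv : 0 < v) : |hh χ (p ^ v)| ≤ 1 / 2 ∨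
      (p = 2 ∧ |hh χ (p ^ v)| ≤ 1 ∧ hh χ (p ^ v) ≤ 0) := by
  have hp2 : (2 : ℝ) ≤ p := by exact_mod_cast hp.two_le
  have hpm : 0 < (p : ℝ) - 1 := by linarith
  obtain ⟨k, rfl⟩ : ∃ k, v = k + 1 := ⟨v - 1, by omega⟩
  rcases rchar_cases h2 p with h | h | h
  · rcases Nat.eq_zero_or_pos k with rfl | hk
    · have h3 : hh χ (p ^ (0 + 1)) = -1 / (p - 1) := by
        unfold hh
        rw [rh_prime_pow hp, rchar_pow h2, rchar_pow h2, h, tot_pp hp]
        norm_num
      have h6 : (-1 : ℝ) / (p - 1) = -(1 / (p - 1)) := by ring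
      have h5 : 0 < (1 : ℝ) / (p - 1) := by positivity
      rw [h3, h6]
      by_cases c : p = 2
      · right
        subst c
        refine ⟨rfl, ?_, ?_⟩
        · norm_num
        · norm_num
      · left
        have h7 : (3 : ℝ) ≤ p := by
          have : 3 ≤ p := by have := hp.two_le; omega
          exact_mod_cast this
        rw [abs_neg, abs_of_pos h5, div_le_div_iff₀ hpm (by norm_num)]
        linarith
    · left
      have h3 : hh χ (p ^ (k + 1)) = 0 := by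
        unfold hh
        rw [rh_prime_pow hp, rchar_pow h2, rchar_pow h2, h, zero_pow (by omega), zero_pow (by omega)]
        simp
      rw [h3]; norm_num
  · left
    have h3 : hh χ (p ^ (k + 1)) = 0 := by
      unfold hh
      rw [rh_prime_pow hp, rchar_pow h2, rchar_pow h2, h, one_pow, one_pow]
      simp
    rw [h3]; norm_num
  · left
    have h5 : (5 : ℝ) ≤ p := by exact_mod_cast hi h
    refine (abs_hh_prime_pow h2 hp k).trans ?_
    have h6 : (1 : ℝ) ≤ (p : ℝ) ^ k := one_le_pow₀ (by linarith)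
    rw [div_le_div_iff₀ (by positivity) (by norm_num)]
    nlinarith only [h5, h6, hp2]

/-- products of numbers of absolute value at most `1/2` -/
lemma prod_half {ι : Type*} {S : Finset ι} {e : ι → ℝ} (h : ∀ i ∈ S, |e i| ≤ 1 / 2)
    (hS : S.Nonempty) : |∏ i ∈ S, e i| ≤ 1 / 2 := by
  rw [Finset.abs_prod]
  obtain ⟨j, hj⟩ := hS
  classical
  rw [← Finset.mul_prod_erase S _ hj]
  have h1 : ∏ i ∈ S.erase j, |e i| ≤ 1 := by
    apply Finset.prod_le_one
    · intro i _; exact abs_nonneg _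
    · intro i hi
      have := h i (Finset.mem_of_mem_erase hi)
      linarith
  have h2 : 0 ≤ ∏ i ∈ S.erase j, |e i| := Finset.prod_nonneg fun i _ => abs_nonneg _
  have h3 := h j hj
  have h4 := abs_nonneg (e j)
  nlinarith only [h3, h1, h4]

/-- **The averaged bias is at most one half.** -/
theorem prod_bound (h2 : χ ^ 2 = 1) {b₀ : ℕ} (hb : 2 ≤ b₀) {P₀ : Finset ℕ}
    (hP : ∀ p ∈ P₀, p.Prime) (hd : ∀ p ∈ P₀, p ∣ b₀) (hi : ∀ p ∈ P₀, rchar χ p = -1)
    (ho : ∀ p : ℕ, p.Prime → p ∣ b₀ → p ∉ P₀ → rchar χ p = -1 → 5 ≤ p) :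
    EE P₀ (xs 0) (fun A => hh χ (b₀ / ∏ p ∈ P₀ \ A, p)) ≤ 1 / 2 := by
  have hb0 : b₀ ≠ 0 := by omega
  have hsub : P₀ ⊆ b₀.primeFactors := fun p hp => Nat.mem_primeFactors.mpr ⟨hP p hp, hd p hp, hb0⟩
  have hx1 : ∀ p : ℕ, xs 0 p = 1 := by
    intro p; unfold xs; rw [zero_mul, neg_zero, exp_zero]
  have e1 : EE P₀ (xs 0) (fun A => hh χ (b₀ / ∏ p ∈ P₀ \ A, p)) =
      (∏ p ∈ b₀.primeFactors \ P₀, hh χ (p ^ b₀.factorization p)) *
      ∏ p ∈ P₀, ((hh χ (p ^ b₀.factorization p) + hh χ (p ^ (b₀.factorization p - 1))) / 2) := by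
    have h3 : EE P₀ (xs 0) (fun A => hh χ (b₀ / ∏ p ∈ P₀ \ A, p)) =
        EE P₀ (xs 0) (fun A => (∏ p ∈ b₀.primeFactors \ P₀, hh χ (p ^ b₀.factorization p)) *
        ∏ p ∈ P₀, (if p ∈ A then hh χ (p ^ b₀.factorization p) else
        hh χ (p ^ (b₀.factorization p - 1)))) := by
      apply EE_congr
      intro A _
      exact hh_nA h2 hb0 hP hd
    rw [h3, EE_mul, EE_prod]
    congr 1
    apply Finset.prod_congr rfl
    intro p _
    rw [hx1, one_mul]
    norm_num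
  rw [e1]
  set e : ℕ → ℝ := fun p => if p ∈ P₀ then
    ((hh χ (p ^ b₀.factorization p) + hh χ (p ^ (b₀.factorization p - 1))) / 2) else
    hh χ (p ^ b₀.factorization p) with he
  have e2 : (∏ p ∈ b₀.primeFactors \ P₀, hh χ (p ^ b₀.factorization p)) *
      ∏ p ∈ P₀, ((hh χ (p ^ b₀.factorization p) + hh χ (p ^ (b₀.factorization p - 1))) / 2) =
      ∏ p ∈ b₀.primeFactors, e p := by
    rw [← Finset.prod_sdiff hsub]
    congr 1
    · apply Finset.prod_congr rfl
      intro p hp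
      simp only [he]
      rw [if_neg (Finset.mem_sdiff.mp hp).2]
    · apply Finset.prod_congr rfl
      intro p hp
      simp only [he]
      rw [if_pos hp]
  rw [e2]
  have hv : ∀ p ∈ b₀.primeFactors, 0 < b₀.factorization p := by
    intro p hp
    rw [Nat.mem_primeFactors] at hp
    exact hp.1.factorization_pos_of_dvd hb0 hp.2.1
  have hloc : ∀ p ∈ b₀.primeFactors, |e p| ≤ 1 / 2 ∨ (p = 2 ∧ |e p| ≤ 1 ∧ e p ≤ 0) := by
    intro p hp
    have hp' := Nat.mem_primeFactors.mp hp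
    by_cases c : p ∈ P₀
    · left
      simp only [he]
      rw [if_pos c]
      exact local_inert h2 hp'.1 (hi p c) (hv p hp)
    · simp only [he]
      rw [if_neg c]
      exact local_other h2 hp'.1 (ho p hp'.1 hp'.2.1 c) (hv p hp)
  have hne : b₀.primeFactors.Nonempty := Nat.nonempty_primeFactors.mpr (by omega)
  by_cases h2m : 2 ∈ b₀.primeFactors ∧ ¬ |e 2| ≤ 1 / 2
  · obtain ⟨m1, m2⟩ := h2m
    obtain ⟨-, m3, m4⟩ := (hloc 2 m1).resolve_left m2
    rw [← Finset.mul_prod_erase _ _ m1]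
    have hrest : ∀ p ∈ b₀.primeFactors.erase 2, |e p| ≤ 1 / 2 := by
      intro p hp
      rw [Finset.mem_erase] at hp
      rcases hloc p hp.2 with h | h
      · exact h
      · exact absurd h.1 hp.1
    rcases Finset.eq_empty_or_nonempty (b₀.primeFactors.erase 2) with h | h
    · rw [h, Finset.prod_empty, mul_one]; linarith
    · have h5 := prod_half hrest h
      have h6 : |e 2 * ∏ p ∈ b₀.primeFactors.erase 2, e p| ≤ 1 * (1 / 2) := by
        rw [abs_mul]
        exact mul_le_mul m3 h5 (abs_nonneg _) zero_le_one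
      have := le_abs_self (e 2 * ∏ p ∈ b₀.primeFactors.erase 2, e p)
      linarith
  · have hall : ∀ p ∈ b₀.primeFactors, |e p| ≤ 1 / 2 := by
      intro p hp
      rcases hloc p hp with h | h
      · exact h
      · by_contra hc
        rw [h.1] at hc hp
        exact h2m ⟨hp, hc⟩
    exact (le_abs_self _).trans (prod_half hall hne)

end Pool.Agent.MP0016c7.Ros
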