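import Mathlib
import Pool.Agent.Lib.MP_0016c7_nt.CdlProd
import Pool.Agent.Lib.MP_0016c7_nt.CdlTop1

open Real Filter

namespace Pool.Agent.MP0016c7.Ros

lemma qA_den_eq {P : Finset ℕ} (hP : ∀ p ∈ P, p.Prime) (ξ : ℚ) (A : Finset ℕ) :
    (qA P ξ A).den = ξ.den / ∏ p ∈ (P.filter fun p => p ∣ ξ.den) \ A, p := by
  set P₀ := P.filter fun p => p ∣ ξ.den with hP₀
  set g := ∏ p ∈ P₀ \ A, p with hg
  set r := ∏ p ∈ (P \ A) \ P₀, p with hr
  have hT : ∀ p ∈ P₀ \ A, p.Prime ∧ p ∣ ξ.den := by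
    intro p hp
    rw [Finset.mem_sdiff, hP₀, Finset.mem_filter] at hp
    exact ⟨hP p hp.1.1, hp.1.2⟩
  have hgd : g ∣ ξ.den := Finset.prod_primes_dvd _
    (fun p hp => Nat.prime_iff.mp (hT p hp).1) (fun p hp => (hT p hp).2)
  have hprod : Dh P A = r * g := by
    unfold Dh
    have hsub : P₀ \ A ⊆ P \ A := by
      intro p hp
      rw [Finset.mem_sdiff, hP₀, Finset.mem_filter] at hp
      exact Finset.mem_sdiff.mpr ⟨hp.1.1, hp.2⟩
    rw [← Finset.prod_sdiff hsub]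
    congr 1
    apply Finset.prod_congr _ (fun _ _ => rfl)
    ext p
    simp only [Finset.mem_sdiff]
    tauto
  have hrc : r.Coprime ξ.den := by
    apply Nat.Coprime.prod_left
    intro p hp
    rw [Finset.mem_sdiff, Finset.mem_sdiff] at hp
    have hpp := hP p hp.1.1
    rw [Nat.Prime.coprime_iff_not_dvd hpp]
    intro h
    exact hp.2 (Finset.mem_filter.mpr ⟨hp.1.1, h⟩)
  have e1 : qA P ξ A = (r : ℚ) * ((g : ℚ) * ξ) := by
    unfold qA
    rw [hprod]; push_cast; ring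
  have e2 := rat_mul_dvd hgd
  have hc2 : r.Coprime ((g : ℚ) * ξ).den := by
    rw [e2]
    exact hrc.coprime_dvd_right (Nat.div_dvd_of_dvd hgd)
  rw [e1, (rat_nat_mul hc2).1, e2]

variable {N : ℕ} [NeZero N] {χ : DirichletCharacter ℂ N}

omit [NeZero N] in
lemma abs_hh_le_four (h2 : χ ^ 2 = 1) {b : ℕ} (hb : b ≠ 0) : |hh χ b| ≤ 4 := by
  apply abs_hh_le h2 hb (by norm_num)
  have : (1 : ℝ) ≤ b := by exact_mod_cast Nat.pos_of_ne_zero hb
  linarith

/-- **Claim 3: the average bias is at most one half.** -/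
theorem top_bias (h2 : χ ^ 2 = 1) {Λ X τ B₀ W₁ : ℝ} {ξ : ℚ} (hΛ : 96 ≤ Λ) (hξ : 2 ≤ ξ.den)
    (hB : Real.log ξ.den ≤ B₀)
    (hW : EE (iP χ Λ) (xs 0) (fun A => wI (τ - B₀) B₀ (X - Sm lg A)) ≤ W₁) :
    EE (iP χ Λ) (xs 0) (fun A => hh χ (qA (iP χ Λ) ξ A).den *
      sI (iP χ Λ) ξ (Λ ^ 5) τ X A) ≤ 1 / 2 + 4 * W₁ + 1 / Λ := by
  classical
  have hΛ0 : 0 < Λ := by linarith
  have hx : ∀ p, 0 < xs 0 p := fun p => xs_pos 0 p
  set P := iP χ Λ with hP
  set P₀ := P.filter fun p => p ∣ ξ.den with hP₀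
  set P₁ := P.filter fun p => ¬ p ∣ ξ.den with hP₁
  have hPp : ∀ p ∈ P, p.Prime := fun p hp => iP_prime hp
  have hP₀p : ∀ p ∈ P₀, p.Prime := fun p hp => hPp p (Finset.filter_subset _ _ hp)
  have hP₀d : ∀ p ∈ P₀, p ∣ ξ.den := fun p hp => (Finset.mem_filter.mp hp).2
  have hdis : Disjoint P₀ P₁ := Finset.disjoint_filter_filter_not P P _
  have hun : P₀ ∪ P₁ = P := Finset.filter_union_filter_not_eq _ P
  have hB0 : 0 ≤ B₀ := le_trans (Real.log_natCast_nonneg _) hB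
  -- the independent version
  set f : Finset ℕ → ℝ := fun A => hh χ (ξ.den / ∏ p ∈ P₀ \ A, p) with hf
  set g : Finset ℕ → ℝ := fun A => if X - Sm lg A ≤ τ then 1 else 0 with hg
  have hfP : ∀ A : Finset ℕ, hh χ (qA P ξ A).den = f (A ∩ P₀) := by
    intro A
    simp only [hf]
    rw [qA_den_eq hPp ξ A]
    have : P₀ \ (A ∩ P₀) = P₀ \ A := by
      ext p
      rw [Finset.mem_sdiff, Finset.mem_sdiff, Finset.mem_inter]
      constructor
      · rintro ⟨h3, h4⟩; exact ⟨h3, fun h => h4 ⟨h, h3⟩⟩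
      · rintro ⟨h3, h4⟩; exact ⟨h3, fun h => h4 h.1⟩
    rw [this]
  have hpt : ∀ A, A ⊆ P → hh χ (qA P ξ A).den * sI P ξ (Λ ^ 5) τ X A ≤
      f (A ∩ P₀) * g (A ∩ P₁) + 4 * wI (τ - B₀) B₀ (X - Sm lg A) + 1 / Λ := by
    intro A hA
    rw [← hfP A]
    set b := (qA P ξ A).den with hb
    have hb0 : b ≠ 0 := (qA P ξ A).den_ne_zero
    have hh4 := abs_le.mp (abs_hh_le_four h2 hb0)
    have hw0 := wI_nonneg (τ - B₀) B₀ (X - Sm lg A)
    have hΛi : 0 < 1 / Λ := by positivity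
    -- decomposition of the sum
    have hSm : Sm lg A = Sm lg (A ∩ P₀) + Sm lg (A ∩ P₁) := by
      unfold Sm
      rw [← Finset.sum_union, ← Finset.inter_union_distrib_left, hun,
        Finset.inter_eq_left.mpr hA]
      exact Finset.disjoint_of_subset_left Finset.inter_subset_right
        (Finset.disjoint_of_subset_right Finset.inter_subset_right hdis)
    have hSm0 : 0 ≤ Sm lg (A ∩ P₀) := Finset.sum_nonneg fun p _ => lg_nonneg p
    have hSm1 : Sm lg (A ∩ P₀) ≤ B₀ :=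
      (Sm_le_lg (by omega) hP₀p hP₀d Finset.inter_subset_right).trans hB
    by_cases c1 : X - Sm lg A ≤ τ
    · by_cases c2 : X - Sm lg (A ∩ P₁) ≤ τ
      · have e1 : g (A ∩ P₁) = 1 := by simp only [hg]; rw [if_pos c2]
        rw [e1, mul_one]
        by_cases c3 : (b : ℝ) ≤ Λ ^ 5
        · have : sI P ξ (Λ ^ 5) τ X A = 1 := by unfold sI CC; rw [if_pos ⟨c3, c1⟩]
          rw [this, mul_one]
          linarith
        · have : sI P ξ (Λ ^ 5) τ X A = 0 := by unfold sI CC; rw [if_neg (fun h => c3 h.1)]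
          rw [this, mul_zero]
          have h5 : |hh χ b| ≤ 1 / Λ := by
            apply abs_hh_le h2 hb0 hΛi.le
            rw [not_le] at c3
            have h6 : (1 / Λ) ^ 4 * Λ ^ 5 = Λ := by field_simp
            calc (96 : ℝ) ≤ Λ := hΛ
              _ = (1 / Λ) ^ 4 * Λ ^ 5 := h6.symm
              _ ≤ _ := mul_le_mul_of_nonneg_left c3.le (by positivity)
          have := (abs_le.mp h5).1
          linarith
      · have e1 : g (A ∩ P₁) = 0 := by simp only [hg]; rw [if_neg c2]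
        have e2 : wI (τ - B₀) B₀ (X - Sm lg A) = 1 := by
          unfold wI
          rw [if_pos ⟨by linarith [not_le.mp c2], by linarith⟩]
        rw [e1, e2, mul_zero, zero_add]
        have hs0 := sI_nonneg P ξ (Λ ^ 5) τ X A
        have hs1 := sI_le_one P ξ (Λ ^ 5) τ X A
        nlinarith only [hh4, hΛi, hs1, hs0]
    · have e0 : sI P ξ (Λ ^ 5) τ X A = 0 := by unfold sI CC; rw [if_neg (fun h => c1 h.2)]
      have c2 : ¬ X - Sm lg (A ∩ P₁) ≤ τ := by
        intro h; apply c1; linarith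
      have e1 : g (A ∩ P₁) = 0 := by simp only [hg]; rw [if_neg c2]
      rw [e0, e1, mul_zero]
      linarith
  refine (EE_mono hx hpt).trans ?_
  rw [EE_add, EE_add, EE_mul, EE_const hx]
  have hprod : EE P (xs 0) (fun A => f (A ∩ P₀) * g (A ∩ P₁)) =
      EE P₀ (xs 0) f * EE P₁ (xs 0) g := by
    rw [← EE_union hdis, hun]
  rw [hprod]
  have hf1 : EE P₀ (xs 0) f ≤ 1 / 2 := by
    apply prod_bound h2 hξ hP₀p hP₀d
    · intro p hp
      exact ((mem_iP χ).mp (Finset.filter_subset _ _ hp)).2.1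
    · intro p hp hpd hpn hi
      have hpP : p ∉ P := fun h => hpn (Finset.mem_filter.mpr ⟨h, hpd⟩)
      by_contra hc
      apply hpP
      rw [hP, mem_iP]
      refine ⟨hp, hi, ?_⟩
      have hp4 : (p : ℝ) ≤ 4 := by exact_mod_cast (by omega : p ≤ 4)
      have hp0 : (0 : ℝ) < p := by exact_mod_cast hp.pos
      have := Real.log_le_sub_one_of_pos hp0
      linarith
  have hg0 : 0 ≤ EE P₁ (xs 0) g := EE_nonneg hx fun A _ => by
    simp only [hg]; split_ifs <;> norm_num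
  have hg1 : EE P₁ (xs 0) g ≤ 1 := by
    have := EE_mono (P := P₁) hx (F := g) (G := fun _ => (1 : ℝ)) (fun A _ => by
      simp only [hg]; split_ifs <;> norm_num)
    rwa [EE_const hx] at this
  have hpr : EE P₀ (xs 0) f * EE P₁ (xs 0) g ≤ 1 / 2 := by nlinarith only [hg1, hf1, hg0]
  linarith

end Pool.Agent.MP0016c7.Ros
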