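import Mathlib
import Pool.Agent.Lib.MP_0016c7_nt.CdlMi

open Real Filter

namespace Pool.Agent.MP0016c7.Ros

variable {N : ℕ} [NeZero N] {χ : DirichletCharacter ℂ N}

lemma rchar_reflect (h2 : χ ^ 2 = 1) (hN : N ≠ 1) (ho : χ.Odd) {j : ℕ} (hj : j ≤ N) :
    rchar χ (N - j) = - rchar χ j := by
  rw [rchar_eq_cz hN, rchar_eq_cz hN, Nat.cast_sub hj, ZMod.natCast_self, zero_sub]
  have : -(j : ZMod N) = (-1) * j := by ring
  rw [this, cz_mul h2]
  have h7 : cz χ (-1) = -1 := by
    unfold cz
    rw [ho]; simp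
  rw [h7]; ring

lemma Sn_symm (h2 : χ ^ 2 = 1) (hne : χ ≠ 1) (ho : χ.Odd) {m : ℕ} (hm : m < N) :
    Sn χ (N - 1 - m) = Sn χ m := by
  have hN := modulus_ne_one hne
  have h0 := sum_rchar_range hne
  have hr0 : rchar χ 0 = 0 := by simp
  rw [Sn_sub_range _ hr0]
  have e1 : N - 1 - m + 1 = N - m := by omega
  rw [e1]
  have e2 : ∑ k ∈ Finset.range N, rchar χ k = ∑ k ∈ Finset.range (N - m), rchar χ k +
      ∑ k ∈ Finset.range m, rchar χ (N - m + k) := by
    have h5 := Finset.sum_range_add (fun k => rchar χ k) (N - m) m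
    rw [Nat.sub_add_cancel hm.le] at h5
    exact h5
  have e3 : ∑ k ∈ Finset.range m, rchar χ (N - m + k) = - Sn χ m := by
    rw [← Finset.sum_range_reflect]
    unfold Sn
    rw [← Finset.sum_neg_distrib, Finset.range_eq_Ico, ← Finset.Ico_add_one_right_eq_Icc,
      Finset.sum_Ico_eq_sum_range (fun k => - rchar χ k) 1 (m + 1)]
    rw [Nat.add_sub_cancel, ← Finset.range_eq_Ico]
    apply Finset.sum_congr rfl
    intro k hk
    rw [Finset.mem_range] at hk
    have : N - m + (m - 1 - k) = N - (1 + k) := by omega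
    rw [this, rchar_reflect h2 hN ho (by omega)]
  rw [e2, e3] at h0
  linarith only [h0]

lemma Sn_add_mul (hne : χ ≠ 1) (k m : ℕ) : Sn χ (N * k + m) = Sn χ m := by
  rw [← Sn_mod hne, Nat.mul_add_mod, Sn_mod hne]

lemma Sf_eq_nat (hne : χ ≠ 1) {b : ℕ} (hb : 0 < b) (n : ℕ) :
    Sf χ b n = Sn χ (N * n / b) := by
  unfold Sf
  have e1 : ((n : ℤ) % (b : ℤ)).toNat = n % b := by
    rw [← Int.natCast_mod, Int.toNat_natCast]
  rw [e1]
  have e2 : N * n / b = N * (n / b) + N * (n % b) / b := by
    conv_lhs => rw [← Nat.div_add_mod n b]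
    rw [show N * (b * (n / b) + n % b) = N * (n % b) + b * (N * (n / b)) by ring,
      Nat.add_mul_div_left _ _ hb, add_comm]
  rw [e2, Sn_add_mul hne]

lemma Sf_neg_nat (h2 : χ ^ 2 = 1) (hne : χ ≠ 1) (ho : χ.Odd) {b : ℕ} (hb : 0 < b) {n : ℕ}
    (hn : 0 < n) : Sf χ b (-n) = Sn χ ((N * n - 1) / b) := by
  have hNpos := NeZero.pos N
  obtain ⟨k, hk⟩ : ∃ k, k = n / b := ⟨_, rfl⟩
  obtain ⟨ν, hν⟩ : ∃ ν, ν = n % b := ⟨_, rfl⟩
  have hνb : ν < b := by rw [hν]; exact Nat.mod_lt _ hb
  have hnk : n = b * k + ν := by rw [hk, hν]; exact (Nat.div_add_mod n b).symm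
  clear hk hν
  rcases Nat.eq_zero_or_pos ν with h0 | h0
  · have hk0 : 0 < k := by
      rcases Nat.eq_zero_or_pos k with h | h
      · rw [h, h0] at hnk; omega
      · exact h
    have e1 : ((-(n : ℤ)) % (b : ℤ)) = 0 := by
      rw [hnk, h0]
      push_cast
      rw [add_zero, ← mul_neg, Int.mul_emod_right]
    unfold Sf
    rw [e1]
    have e2 : (N * n - 1) / b = N * (k - 1) + (N - 1) := by
      have e3 : N * n - 1 = b * (N * (k - 1) + (N - 1)) + (b - 1) := by
        obtain ⟨k', rfl⟩ : ∃ k', k = k' + 1 := ⟨k - 1, by omega⟩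
        rw [hnk, h0, Nat.add_sub_cancel]
        have h5 : N * (b * (k' + 1) + 0) = b * (N * k') + b * N := by ring
        have h6 : b * (N * k' + (N - 1)) = b * (N * k') + b * (N - 1) := by ring
        have h7 : b * N = b * (N - 1) + b := by
          conv_lhs => rw [show N = (N - 1) + 1 by omega]
          ring
        rw [h5, h6]
        omega
      rw [e3, Nat.mul_add_div hb, Nat.div_eq_of_lt (by omega : b - 1 < b), add_zero]
    rw [e2, Sn_add_mul hne, Int.toNat_zero, mul_zero, Nat.zero_div]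
    have := Sn_symm h2 hne ho (m := 0) hNpos
    rw [Nat.sub_zero] at this
    exact this.symm
  · have e1 : ((-(n : ℤ)) % (b : ℤ)).toNat = b - ν := by
      have h3 : (-(n : ℤ)) = ((b - ν : ℕ) : ℤ) + b * (-(k : ℤ) - 1) := by
        rw [Nat.cast_sub hνb.le]
        have : (n : ℤ) = b * k + ν := by exact_mod_cast hnk
        rw [this]; ring
      rw [h3, Int.add_mul_emod_self_left, Int.emod_eq_of_lt (by positivity)
        (by exact_mod_cast (by omega : b - ν < b)), Int.toNat_natCast]
    unfold Sf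
    rw [e1]
    have e2 : (N * n - 1) / b = N * k + (N * ν - 1) / b := by
      have hNν : 1 ≤ N * ν := Nat.mul_pos hNpos h0
      have e3 : N * n - 1 = (N * ν - 1) + b * (N * k) := by
        rw [hnk]
        have h5 : N * (b * k + ν) = N * ν + b * (N * k) := by ring
        rw [h5]; omega
      rw [e3, Nat.add_mul_div_left _ _ hb, add_comm]
    rw [e2, Sn_add_mul hne]
    set q := (N * ν - 1) / b with hq
    have hNν : 1 ≤ N * ν := Nat.mul_pos hNpos h0
    have hq1 : b * q ≤ N * ν - 1 := Nat.mul_div_le _ _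
    have hq2 : N * ν - 1 < b * (q + 1) := Nat.lt_mul_div_succ _ hb
    have hqN : q < N := by
      have : b * q < b * N := by
        have h5 : N * ν < N * b := Nat.mul_lt_mul_of_pos_left hνb hNpos
        have h6 : N * b = b * N := by ring
        omega
      exact Nat.lt_of_mul_lt_mul_left this
    have e4 : N * (b - ν) / b = N - 1 - q := by
      rw [Nat.mul_sub]
      have h5 : N * b = b * N := by ring
      have h6 : b * (N - 1 - q) = b * N - b - b * q := by
        rw [Nat.mul_sub, Nat.mul_sub, mul_one]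
      have h7 : b * (q + 1) = b * q + b := by ring
      have h8 : b * N ≥ b * q + b := by
        have : b * (q + 1) ≤ b * N := Nat.mul_le_mul_left _ hqN
        omega
      apply Nat.div_eq_of_lt_le
      · have h9 : (N - 1 - q) * b = b * (N - 1 - q) := by ring
        rw [h9, h6, h5]; omega
      · have h9 : (N - 1 - q + 1) * b = b * (N - 1 - q) + b := by ring
        rw [h9, h6, h5]; omega
    rw [e4]
    exact Sn_symm h2 hne ho hqN

/-- **The value near a fraction.** -/
theorem Sn_near (h2 : χ ^ 2 = 1) (hne : χ ≠ 1) (ho : χ.Odd) {θ κ G : ℝ} {r : ℚ} (hθ : 0 < θ)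
    (hκG : N * κ * G < 1) (hr : (r.den : ℝ) ≤ G) (hθr : |θ - r| ≤ κ) :
    ((r : ℝ) ≤ θ → Sn χ ⌊(N : ℝ) * θ⌋₊ = Sf χ r.den (1 * r.num)) ∧
    (θ < r → Sn χ ⌊(N : ℝ) * θ⌋₊ = Sf χ r.den (-1 * r.num)) := by
  have hNpos := NeZero.pos N
  have hN1 : (1 : ℝ) ≤ N := by exact_mod_cast hNpos
  have hN0 : (0 : ℝ) < N := by linarith
  set b := r.den with hb
  have hb0 : 0 < b := r.den_pos
  have hbR : (0 : ℝ) < b := by exact_mod_cast hb0
  have hκ0 : 0 ≤ κ := (abs_nonneg _).trans hθr
  obtain ⟨a1, a2⟩ := abs_le.mp hθr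
  have hrv : (r : ℝ) = r.num / b := by
    have := Rat.num_div_den r
    exact_mod_cast this.symm
  have hNκ : N * κ * b < 1 := by
    refine lt_of_le_of_lt ?_ hκG
    exact mul_le_mul_of_nonneg_left hr (by positivity)
  have hκb : κ * b < 1 := by
    have : κ * b ≤ N * κ * b := by
      have : κ * b ≤ N * (κ * b) := by
        have : 0 ≤ κ * b := by positivity
        nlinarith only [hN1, this]
      linarith
    linarith
  -- the numerator is nonnegative
  have hn0 : 0 ≤ r.num := by
    by_contra hc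
    rw [not_le] at hc
    have h3 : (r.num : ℝ) ≤ -1 := by exact_mod_cast (by omega : r.num ≤ -1)
    have h4 : (r : ℝ) * b ≤ -1 := by rw [hrv, div_mul_cancel₀ _ hbR.ne']; exact h3
    have h5 : θ * b ≤ (r + κ) * b := mul_le_mul_of_nonneg_right (by linarith) hbR.le
    have h6 : 0 < θ * b := by positivity
    nlinarith only [hκb, h4, h5, h6]
  obtain ⟨n, hn⟩ := Int.eq_ofNat_of_zero_le hn0
  have hrn : (r : ℝ) = n / b := by rw [hrv, hn]; push_cast; rfl
  constructor
  · intro hle
    rw [one_mul, hn]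
    have hSf := Sf_eq_nat (χ := χ) hne hb0 n
    have hfl : ⌊(N : ℝ) * θ⌋₊ = N * n / b := by
      rw [Nat.floor_eq_iff (by positivity)]
      have hq1 : b * (N * n / b) ≤ N * n := Nat.mul_div_le _ _
      have hq2 : N * n + 1 ≤ b * (N * n / b + 1) := Nat.lt_mul_div_succ _ hb0
      have hq1' : (b : ℝ) * ((N * n / b : ℕ) : ℝ) ≤ N * n := by exact_mod_cast hq1
      have hq2' : (N : ℝ) * n + 1 ≤ b * (((N * n / b : ℕ) : ℝ) + 1) := by exact_mod_cast hq2
      have hNr : (N : ℝ) * r * b = N * n := by rw [hrn]; field_simp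
      constructor
      · have h3 : b * ((N * n / b : ℕ) : ℝ) ≤ b * (N * θ) := by
          calc b * ((N * n / b : ℕ) : ℝ) ≤ N * n := hq1'
            _ = b * (N * r) := by rw [← hNr]; ring
            _ ≤ b * (N * θ) := by
                apply mul_le_mul_of_nonneg_left _ hbR.le
                exact mul_le_mul_of_nonneg_left hle hN0.le
        exact le_of_mul_le_mul_left h3 hbR
      · have h3 : b * (N * θ) < b * (((N * n / b : ℕ) : ℝ) + 1) := by
          calc b * (N * θ) ≤ b * (N * (r + κ)) := by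
                apply mul_le_mul_of_nonneg_left _ hbR.le
                exact mul_le_mul_of_nonneg_left (by linarith only [a2]) hN0.le
            _ = N * n + N * κ * b := by rw [← hNr]; ring
            _ < N * n + 1 := by linarith only [hNκ]
            _ ≤ _ := hq2'
        exact lt_of_mul_lt_mul_left h3 hbR.le
    rw [hfl]
    exact hSf.symm
  · intro hlt
    have hn1 : 0 < n := by
      rcases Nat.eq_zero_or_pos n with h | h
      · exfalso
        rw [hrn, h, Nat.cast_zero, zero_div] at hlt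
        linarith
      · exact h
    rw [neg_one_mul, hn]
    have hSf := Sf_neg_nat (χ := χ) h2 hne ho hb0 hn1
    have hNn : 1 ≤ N * n := Nat.mul_pos hNpos hn1
    have hfl : ⌊(N : ℝ) * θ⌋₊ = (N * n - 1) / b := by
      rw [Nat.floor_eq_iff (by positivity)]
      have hq1 : b * ((N * n - 1) / b) + 1 ≤ N * n := by
        have := Nat.mul_div_le (N * n - 1) b
        omega
      have hq2 : N * n ≤ b * ((N * n - 1) / b + 1) := by
        have := Nat.lt_mul_div_succ (N * n - 1) hb0
        omega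
      have hq1' : (b : ℝ) * (((N * n - 1) / b : ℕ) : ℝ) + 1 ≤ N * n := by exact_mod_cast hq1
      have hq2' : (N : ℝ) * n ≤ b * ((((N * n - 1) / b : ℕ) : ℝ) + 1) := by exact_mod_cast hq2
      have hNr : (N : ℝ) * r * b = N * n := by rw [hrn]; field_simp
      constructor
      · have h3 : b * (((N * n - 1) / b : ℕ) : ℝ) ≤ b * (N * θ) := by
          calc b * (((N * n - 1) / b : ℕ) : ℝ) ≤ N * n - 1 := by linarith only [hq1']
            _ ≤ N * n - N * κ * b := by linarith only [hNκ]
            _ = b * (N * (r - κ)) := by rw [← hNr]; ring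
            _ ≤ b * (N * θ) := by
                apply mul_le_mul_of_nonneg_left _ hbR.le
                exact mul_le_mul_of_nonneg_left (by linarith only [a1]) hN0.le
        exact le_of_mul_le_mul_left h3 hbR
      · have h3 : b * (N * θ) < b * ((((N * n - 1) / b : ℕ) : ℝ) + 1) := by
          calc b * (N * θ) < b * (N * r) := by
                apply mul_lt_mul_of_pos_left _ hbR
                exact mul_lt_mul_of_pos_left hlt hN0
            _ = N * n := by rw [← hNr]; ring
            _ ≤ _ := hq2'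
        exact lt_of_mul_lt_mul_left h3 hbR.le
    rw [hfl]
    exact hSf.symm

end Pool.Agent.MP0016c7.Ros
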