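import Mathlib
import Pool.Agent.Lib.MP_0016c7_nt.CdlSmall2
import Pool.Agent.Lib.MP_0016c7_nt.CdlTop1

open Real Filter

namespace Pool.Agent.MP0016c7.Ros

variable {N : ℕ} [NeZero N] {χ : DirichletCharacter ℂ N}

/-- normalised argument -/
noncomputable def xn (N : ℕ) (P : Finset ℕ) (X : ℝ) : ℝ := rexp (X - Sm lg P) / N

lemma Dh_real {P A : Finset ℕ} (hP : ∀ p ∈ P, p.Prime) (hA : A ⊆ P) :
    ((Dh P A : ℕ) : ℝ) = rexp (Sm lg P - Sm lg A) := by
  obtain ⟨h1, h2⟩ := lg_prod (A := P \ A) (fun p hp => hP p (Finset.mem_sdiff.mp hp).1)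
  have h3 : Sm lg P - Sm lg A = Sm lg (P \ A) := by
    have : Sm lg P = Sm lg (P \ A) + Sm lg A := by
      unfold Sm
      rw [Finset.sum_sdiff hA]
    linarith
  have h0 : (0 : ℝ) < ((∏ p ∈ P \ A, p : ℕ) : ℝ) := by exact_mod_cast h1
  rw [h3, ← h2]
  unfold Dh lg
  exact (exp_log h0).symm

omit [NeZero N] in
lemma thx_eq {P A : Finset ℕ} (hP : ∀ p ∈ P, p.Prime) (hA : A ⊆ P) (X : ℝ) :
    thx N X A = xn N P X * Dh P A := by
  unfold thx xn
  rw [Dh_real hP hA, div_mul_eq_mul_div, ← exp_add]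
  congr 2
  ring

lemma Dh_pos {P A : Finset ℕ} (hP : ∀ p ∈ P, p.Prime) : 0 < Dh P A :=
  Finset.prod_pos fun p hp => (hP p (Finset.mem_sdiff.mp hp).1).pos

open Classical in
/-- number of free primes -/
noncomputable def nF (N : ℕ) (P : Finset ℕ) (Λ X : ℝ) (A : Finset ℕ) : ℕ :=
  (P.filter (fun p => freeP P (Λ ^ 5) (kp Λ) (thx N X) A p)).card

/-- typical sets in the major arcs -/
structure Ty (N : ℕ) (P : Finset ℕ) (Λ X : ℝ) (A : Finset ℕ) : Prop where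
  sub : A ⊆ P
  maj : MajA (Λ ^ 5) (kp Λ) (thx N X A)
  sm : Sm lg A ≤ 11 / 20 * Sm lg P
  fr : (nF N P Λ X A : ℝ) ≤ Λ

lemma log_prod_le {T : Finset ℕ} (hT : ∀ p ∈ T, p.Prime) :
    Real.log ((∏ p ∈ T, p : ℕ) : ℝ) = ∑ p ∈ T, lg p := by
  have h := (lg_prod hT).2
  unfold Sm at h
  rw [← h]
  rfl

open Classical in
/-- the rational number attached to a typical set -/
lemma Ty_rat {P A : Finset ℕ} (hP : ∀ p ∈ P, p.Prime) {Λ X : ℝ} (hPΛ : ∀ p ∈ P, lg p ≤ Λ)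
    (hΛ : 1 ≤ Λ) (hT : Ty N P Λ X A) :
    Real.log ((ratM (Λ ^ 5) (kp Λ) (thx N X A) / (Dh P A : ℚ)).den : ℝ) ≤
      Λ ^ 2 + Λ ^ 5 * Real.log (Λ ^ 5) + Real.log (Λ ^ 5) ∧
    |xn N P X - ((ratM (Λ ^ 5) (kp Λ) (thx N X A) / (Dh P A : ℚ) : ℚ) : ℝ)| * Dh P A ≤ kp Λ := by
  obtain ⟨r1, r2⟩ := ratM_spec hT.maj
  set r := ratM (Λ ^ 5) (kp Λ) (thx N X A) with hr
  have hD0 : 0 < Dh P A := Dh_pos hP
  have hDR : (0 : ℝ) < Dh P A := by exact_mod_cast hD0
  have hG1 : 1 ≤ Λ ^ 5 := one_le_pow₀ hΛ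
  constructor
  · -- split the product
    set S := (P \ A).filter (fun p : ℕ => Λ ^ 5 < (p : ℝ) ∧ (p : ℤ) ∣ r.num) with hS
    set T := (P \ A) \ S with hTd
    have hSp : ∀ p ∈ S, p.Prime := fun p hp => hP p
      (Finset.mem_sdiff.mp (Finset.mem_filter.mp hp).1).1
    have hTp : ∀ p ∈ T, p.Prime := fun p hp => hP p
      (Finset.mem_sdiff.mp (Finset.mem_sdiff.mp hp).1).1
    have hprod : Dh P A = (∏ p ∈ T, p) * ∏ p ∈ S, p := by
      unfold Dh
      rw [hTd]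
      exact (Finset.prod_sdiff (Finset.filter_subset _ _)).symm
    have hdv : ((∏ p ∈ S, p : ℕ) : ℤ) ∣ r.num := by
      rw [Int.natCast_dvd]
      apply Finset.prod_primes_dvd
      · intro p hp; exact Nat.prime_iff.mp (hSp p hp)
      · intro p hp
        exact Int.natCast_dvd.mp (Finset.mem_filter.mp hp).2.2
    obtain ⟨c, hc⟩ := hdv
    have hS0 : ((∏ p ∈ S, p : ℕ) : ℚ) ≠ 0 := by
      exact_mod_cast Finset.prod_ne_zero_iff.mpr fun p hp => (hSp p hp).ne_zero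
    have hT0 : (∏ p ∈ T, p : ℕ) ≠ 0 :=
      Finset.prod_ne_zero_iff.mpr fun p hp => (hTp p hp).ne_zero
    have hT0' : ((∏ p ∈ T, p : ℕ) : ℚ) ≠ 0 := by exact_mod_cast hT0
    have hrd : (r.den : ℚ) ≠ 0 := by exact_mod_cast r.den_ne_zero
    have e1 : r / (Dh P A : ℚ) = Rat.divInt c ((r.den * ∏ p ∈ T, p : ℕ) : ℤ) := by
      have h3 : r * r.den = (r.num : ℚ) := Rat.mul_den_eq_num r
      have h4 : (r.num : ℚ) = ((∏ p ∈ S, p : ℕ) : ℚ) * c := by
        have := congrArg (fun z : ℤ => (z : ℚ)) hc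
        simpa only [Int.cast_mul, Int.cast_natCast] using this
      have h5 : ((Dh P A : ℕ) : ℚ) = ((∏ p ∈ T, p : ℕ) : ℚ) * ((∏ p ∈ S, p : ℕ) : ℚ) := by
        rw [hprod, Nat.cast_mul]
      have h6 : ((((r.den * ∏ p ∈ T, p : ℕ) : ℤ)) : ℚ) = (r.den : ℚ) * ((∏ p ∈ T, p : ℕ) : ℚ) := by
        rw [Int.cast_natCast, Nat.cast_mul]
      rw [Rat.divInt_eq_div, h5, h6, div_eq_div_iff (mul_ne_zero hT0' hS0) (mul_ne_zero hrd hT0')]
      linear_combination ((∏ p ∈ T, p : ℕ) : ℚ) * (h3 + h4)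
    have h6 : (r / (Dh P A : ℚ)).den ∣ r.den * ∏ p ∈ T, p := by
      have := Rat.den_dvd c ((r.den * ∏ p ∈ T, p : ℕ) : ℤ)
      rw [← e1] at this
      exact_mod_cast this
    have h7 : ((r / (Dh P A : ℚ)).den : ℝ) ≤ r.den * ((∏ p ∈ T, p : ℕ) : ℝ) := by
      exact_mod_cast Nat.le_of_dvd (Nat.mul_pos r.den_pos (Nat.pos_of_ne_zero hT0)) h6
    have hdpos : (0 : ℝ) < ((r / (Dh P A : ℚ)).den : ℝ) := by
      exact_mod_cast (r / (Dh P A : ℚ)).den_pos
    have h8 := Real.log_le_log hdpos h7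
    have hrdR : (0 : ℝ) < r.den := by exact_mod_cast r.den_pos
    have hTR : (0 : ℝ) < ((∏ p ∈ T, p : ℕ) : ℝ) := by exact_mod_cast Nat.pos_of_ne_zero hT0
    rw [Real.log_mul hrdR.ne' hTR.ne', log_prod_le hTp] at h8
    have h9 : Real.log r.den ≤ Real.log (Λ ^ 5) := Real.log_le_log hrdR r1
    have h10 : ∑ p ∈ T, lg p ≤ Λ ^ 2 + Λ ^ 5 * Real.log (Λ ^ 5) := by
      have hsub : T ⊆ (P.filter (fun p : ℕ => (p : ℝ) ≤ Λ ^ 5)) ∪
          (P.filter (fun p => freeP P (Λ ^ 5) (kp Λ) (thx N X) A p)) := by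
        intro p hp
        rw [hTd, Finset.mem_sdiff, hS, Finset.mem_filter] at hp
        obtain ⟨h11, h12⟩ := hp
        have h11' := Finset.mem_sdiff.mp h11
        rw [Finset.mem_union, Finset.mem_filter, Finset.mem_filter]
        by_cases c1 : (p : ℝ) ≤ Λ ^ 5
        · exact Or.inl ⟨h11'.1, c1⟩
        · right
          rw [not_le] at c1
          refine ⟨h11'.1, ?_⟩
          refine ⟨h11'.1, c1, h11'.2, fun h => h12 ⟨h11, c1, h⟩⟩
      refine (Finset.sum_le_sum_of_subset_of_nonneg hsub fun p _ _ => lg_nonneg p).trans ?_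
      refine (sum_union_le_add lg_nonneg).trans ?_
      have k1 := sum_small_primes_le hP hG1
      have k2 : ∑ p ∈ P.filter (fun p => freeP P (Λ ^ 5) (kp Λ) (thx N X) A p),
          lg p ≤ Λ ^ 2 := by
        refine (Finset.sum_le_sum fun p hp => hPΛ p (Finset.filter_subset _ _ hp)).trans ?_
        rw [Finset.sum_const, nsmul_eq_mul, sq]
        exact mul_le_mul_of_nonneg_right hT.fr (by linarith)
      linarith
    linarith
  · have e2 : ((r / (Dh P A : ℚ) : ℚ) : ℝ) * Dh P A = r := by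
      push_cast
      field_simp
    have e3 : |xn N P X - ((r / (Dh P A : ℚ) : ℚ) : ℝ)| * Dh P A =
        |thx N X A - r| := by
      rw [thx_eq hP hT.sub, ← e2]
      rw [← sub_mul, abs_mul, abs_of_pos hDR]
    rw [e3]
    exact r2

/-- **All typical sets see the same rational number.** -/
theorem struct_exists {P : Finset ℕ} (hP : ∀ p ∈ P, p.Prime) {Λ X : ℝ}
    (hPΛ : ∀ p ∈ P, lg p ≤ Λ) (hΛ : 8 ≤ Λ) (hT0 : 64 * Λ ^ 6 ≤ Sm lg P)
    (hκ : kp Λ ≤ 1 / 4) {A₀ : Finset ℕ} (hA₀ : Ty N P Λ X A₀) :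
    ∃ ξ : ℚ, Real.log (ξ.den : ℝ) ≤ 7 * Λ ^ 6 ∧
      (∀ A, Ty N P Λ X A → qA P ξ A = ratM (Λ ^ 5) (kp Λ) (thx N X A)) ∧
      |xn N P X - ξ| ≤ kp Λ := by
  have hΛ1 : 1 ≤ Λ := by linarith
  have hΛ0 : 0 < Λ := by linarith
  have hkp0 : 0 ≤ kp Λ := by unfold kp; positivity
  set ρ : Finset ℕ → ℚ := fun A => ratM (Λ ^ 5) (kp Λ) (thx N X A) / (Dh P A : ℚ) with hρ
  have hlog5 : Real.log (Λ ^ 5) ≤ 5 * Λ := by
    rw [Real.log_pow]
    have := Real.log_le_sub_one_of_pos hΛ0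
    push_cast
    linarith
  have hnum : Λ ^ 2 + Λ ^ 5 * Real.log (Λ ^ 5) + Real.log (Λ ^ 5) ≤ 7 * Λ ^ 6 := by
    have a1 : Λ ^ 5 * Real.log (Λ ^ 5) ≤ 5 * Λ ^ 6 := by
      calc _ ≤ Λ ^ 5 * (5 * Λ) := mul_le_mul_of_nonneg_left hlog5 (by positivity)
        _ = _ := by ring
    have a3 : Λ ^ 2 ≤ Λ ^ 6 := pow_le_pow_right₀ hΛ1 (by norm_num)
    have a4 : 5 * Λ ≤ Λ ^ 6 := by
      calc 5 * Λ ≤ Λ * Λ := by nlinarith
        _ = Λ ^ 2 := by ring
        _ ≤ Λ ^ 6 := a3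
    linarith
  have hden : ∀ A, Ty N P Λ X A → ((ρ A).den : ℝ) ≤ rexp (7 * Λ ^ 6) := by
    intro A hA
    have h1 := (Ty_rat hP hPΛ hΛ1 hA).1
    have h0 : (0 : ℝ) < ((ρ A).den : ℝ) := by exact_mod_cast (ρ A).den_pos
    rw [← Real.log_le_iff_le_exp h0]
    exact h1.trans hnum
  have hdist : ∀ A, Ty N P Λ X A → |xn N P X - (ρ A : ℝ)| ≤ kp Λ * rexp (-(28 * Λ ^ 6)) := by
    intro A hA
    have h1 := (Ty_rat hP hPΛ hΛ1 hA).2
    have hD0 : (0 : ℝ) < Dh P A := by exact_mod_cast Dh_pos hP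
    have hD : rexp (28 * Λ ^ 6) ≤ Dh P A := by
      rw [Dh_real hP hA.sub, exp_le_exp]
      have := hA.sm
      have : 0 < Λ ^ 6 := by positivity
      linarith
    have h2 : |xn N P X - (ρ A : ℝ)| * rexp (28 * Λ ^ 6) ≤ kp Λ :=
      (mul_le_mul_of_nonneg_left hD (abs_nonneg _)).trans h1
    rw [exp_neg, ← div_eq_mul_inv, le_div_iff₀ (exp_pos _)]
    exact h2
  refine ⟨ρ A₀, ?_, ?_, ?_⟩
  · exact (Ty_rat hP hPΛ hΛ1 hA₀).1.trans hnum
  · intro A hA
    have heq : ρ A₀ = ρ A := by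
      by_contra hne
      have h1 := rat_dist hne
      have h2 : |(ρ A₀ : ℝ) - ρ A| ≤ 2 * (kp Λ * rexp (-(28 * Λ ^ 6))) := by
        have e : (ρ A₀ : ℝ) - ρ A = (xn N P X - ρ A) - (xn N P X - ρ A₀) := by ring
        rw [e]
        have := abs_sub (xn N P X - (ρ A : ℝ)) (xn N P X - ρ A₀)
        have := hdist A hA
        have := hdist A₀ hA₀
        linarith
      have h3 : rexp (-(14 * Λ ^ 6)) ≤ 1 / (((ρ A₀).den : ℝ) * (ρ A).den) := by
        have d1 : (0 : ℝ) < ((ρ A₀).den : ℝ) := by exact_mod_cast (ρ A₀).den_pos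
        have d2 : (0 : ℝ) < ((ρ A).den : ℝ) := by exact_mod_cast (ρ A).den_pos
        rw [exp_neg, ← one_div]
        apply one_div_le_one_div_of_le (by positivity)
        have : rexp (14 * Λ ^ 6) = rexp (7 * Λ ^ 6) * rexp (7 * Λ ^ 6) := by
          rw [← exp_add]; congr 1; ring
        rw [this]
        exact mul_le_mul (hden A₀ hA₀) (hden A hA) d2.le (exp_pos _).le
      have h4 : 2 * (kp Λ * rexp (-(28 * Λ ^ 6))) < rexp (-(14 * Λ ^ 6)) := by
        have e : rexp (-(28 * Λ ^ 6)) = rexp (-(14 * Λ ^ 6)) * rexp (-(14 * Λ ^ 6)) := by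
          rw [← exp_add]; congr 1; ring
        have h5 : rexp (-(14 * Λ ^ 6)) ≤ 1 := by
          rw [exp_le_one_iff]
          have : 0 < Λ ^ 6 := by positivity
          linarith
        have h6 : 0 < rexp (-(14 * Λ ^ 6)) := exp_pos _
        rw [e]
        have h7 : rexp (-(14 * Λ ^ 6)) * rexp (-(14 * Λ ^ 6)) ≤ rexp (-(14 * Λ ^ 6)) := by
          nlinarith
        have h8 : kp Λ * (rexp (-(14 * Λ ^ 6)) * rexp (-(14 * Λ ^ 6))) ≤
            1 / 4 * rexp (-(14 * Λ ^ 6)) := mul_le_mul hκ h7 (by positivity) (by norm_num)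
        linarith
      linarith
    rw [heq]
    simp only [hρ]
    unfold qA
    have hD0 : ((Dh P A : ℕ) : ℚ) ≠ 0 := by exact_mod_cast (Dh_pos hP).ne'
    field_simp
  · refine (hdist A₀ hA₀).trans ?_
    have h5 : rexp (-(28 * Λ ^ 6)) ≤ 1 := by
      rw [exp_le_one_iff]
      have : 0 < Λ ^ 6 := by positivity
      linarith
    calc kp Λ * rexp (-(28 * Λ ^ 6)) ≤ kp Λ * 1 := mul_le_mul_of_nonneg_left h5 hkp0
      _ = _ := mul_one _

/-- **Non-typical sets in the major arcs are rare.** -/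
theorem Pr_not_Ty {Λ X : ℝ} (hΛ : 1 ≤ Λ) (hκG : kp Λ * (2 * rexp Λ) * (Λ ^ 5) ^ 2 < 1)
    (hT : 0 < Sm lg (iP χ Λ)) :
    Pr (iP χ Λ) (xs 0) (fun A => MajA (Λ ^ 5) (kp Λ) (thx N X A) ∧ ¬ Ty N (iP χ Λ) Λ X A) ≤
      rexp (-(Sm lg (iP χ Λ) / (1600 * Λ))) + 1 / Λ := by
  classical
  have hΛ0 : 0 < Λ := by linarith
  have hx : ∀ p, 0 < xs 0 p := fun p => xs_pos 0 p
  have hkp : 0 ≤ kp Λ := by unfold kp; positivity
  set P := iP χ Λ with hP
  set T := Sm lg P with hTd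
  -- large sums
  have h1 : Pr P (xs 0) (fun A => T / 20 < lin P (xs 0) lg A) ≤
      rexp (-((T / 20) ^ 2 / (4 * (Λ * T)))) := by
    apply Pr_lin_gt hx lg (by positivity) (by positivity)
    rw [hTd]
    unfold Sm
    rw [Finset.mul_sum]
    apply Finset.sum_le_sum
    intro p hp
    rw [sq]
    exact mul_le_mul_of_nonneg_right (lg_le_of_mem hp) (lg_nonneg p)
  have e1 : (T / 20) ^ 2 / (4 * (Λ * T)) = T / (1600 * Λ) := by
    field_simp
    ring
  rw [e1] at h1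
  have hlin : ∀ A, A ⊆ P → lin P (xs 0) lg A = Sm lg A - T / 2 := by
    intro A hA
    unfold lin
    rw [hTd]
    unfold Sm
    rw [Finset.sum_div]
    have : ∑ p ∈ A, lg p = ∑ p ∈ P, lg p * (if p ∈ A then 1 else 0) := by
      rw [← Finset.sum_filter_add_sum_filter_not P (fun p => p ∈ A)
        (fun p => lg p * (if p ∈ A then 1 else 0))]
      have f1 : P.filter (fun p => p ∈ A) = A := by
        rw [Finset.filter_mem_eq_inter, Finset.inter_eq_right.mpr hA]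
      have f2 : ∑ p ∈ P.filter (fun p => p ∉ A), lg p * (if p ∈ A then (1 : ℝ) else 0) = 0 := by
        apply Finset.sum_eq_zero
        intro p hp
        rw [if_neg (Finset.mem_filter.mp hp).2, mul_zero]
      rw [f2, add_zero, f1]
      apply Finset.sum_congr rfl
      intro p hp
      rw [if_pos hp, mul_one]
    rw [this, ← Finset.sum_sub_distrib]
    apply Finset.sum_congr rfl
    intro p _
    rw [xs_zero_eq]
    ring
  -- many free primes
  set f : Finset ℕ → ℝ := fun A => if MajA (Λ ^ 5) (kp Λ) (thx N X A) then 1 else 0 with hf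
  have key := rigid_count hx (fun p hp => iP_prime (χ := χ) hp) (fun p hp => le_exp_of_mem hp)
    hkp hκG (th := thx N X) (fun A hA p hp => thx_erase hp (iP_prime (hA hp))) f (fun _ => 2)
    (fun _ => 1) (fun A => by simp only [hf]; split_ifs <;> norm_num) (fun _ => zero_le_one)
    (fun A _ hne => by
      by_contra hc
      apply hne
      simp only [hf]
      rw [if_neg hc]) (fun _ => by norm_num) (by
      intro A _ p _
      rw [ww_zero]
      simp only [hf]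
      split_ifs <;> norm_num)
  rw [EE_const hx] at key
  have h2 : EE P (xs 0) (fun A => f A * (2 * nF N P Λ X A)) ≤ 2 := by
    refine le_trans (le_of_eq ?_) key
    congr 1
    ext A
    congr 1
    unfold nF
    simp only [xs_zero_eq, one_mul]
    rw [Finset.sum_const, nsmul_eq_mul]
    ring
  have h3 : Pr P (xs 0) (fun A => MajA (Λ ^ 5) (kp Λ) (thx N X A) ∧ Λ < nF N P Λ X A) ≤
      1 / Λ := by
    have h4 : Pr P (xs 0) (fun A => MajA (Λ ^ 5) (kp Λ) (thx N X A) ∧ Λ < nF N P Λ X A) ≤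
        EE P (xs 0) (fun A => 1 / (2 * Λ) * (f A * (2 * nF N P Λ X A))) := by
      unfold Pr
      apply EE_mono hx
      intro A _
      by_cases c : MajA (Λ ^ 5) (kp Λ) (thx N X A) ∧ Λ < nF N P Λ X A
      · rw [if_pos c]
        have : f A = 1 := by simp only [hf]; rw [if_pos c.1]
        rw [this, one_mul, div_mul_eq_mul_div, le_div_iff₀ (by positivity)]
        linarith [c.2]
      · rw [if_neg c]
        have : 0 ≤ f A := by simp only [hf]; split_ifs <;> norm_num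
        positivity
    rw [EE_mul] at h4
    calc _ ≤ 1 / (2 * Λ) * EE P (xs 0) (fun A => f A * (2 * nF N P Λ X A)) := h4
      _ ≤ 1 / (2 * Λ) * 2 := mul_le_mul_of_nonneg_left h2 (by positivity)
      _ = 1 / Λ := by field_simp
  have h5 : Pr P (xs 0) (fun A => MajA (Λ ^ 5) (kp Λ) (thx N X A) ∧ ¬ Ty N P Λ X A) ≤
      Pr P (xs 0) (fun A => (T / 20 < lin P (xs 0) lg A) ∨
        (MajA (Λ ^ 5) (kp Λ) (thx N X A) ∧ Λ < nF N P Λ X A)) := by
    apply Pr_mono hx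
    rintro A hA ⟨c1, c2⟩
    by_cases c3 : T / 20 < lin P (xs 0) lg A
    · exact Or.inl c3
    · right
      refine ⟨c1, ?_⟩
      by_contra c4
      apply c2
      refine ⟨hA, c1, ?_, not_lt.mp c4⟩
      rw [hlin A hA, not_lt] at c3
      linarith
  exact h5.trans ((Pr_or hx _ _).trans (add_le_add h1 h3))

end Pool.Agent.MP0016c7.Ros
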