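import Mathlib
import Pool.Agent.Lib.MP_0016c7_nt.CdlSmall4
import Pool.Agent.Lib.MP_0016c7_nt.CdlTop2
import Pool.Agent.Lib.MP_0016c7_nt.CdlTop3
import Pool.Agent.Lib.MP_0016c7_nt.CdlTop4
import Pool.Agent.Lib.MP_0016c7_nt.CdlTop5

open Real Filter

namespace Pool.Agent.MP0016c7.Ros

variable {N : ℕ} [NeZero N] {χ : DirichletCharacter ℂ N}

/-- final combination in the top range -/
lemma top_core (h2 : χ ^ 2 = 1) (hS : 0 < Sbar χ) {F : Finset ℤ} {c : ℤ → ℂ}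
    (hF : ∀ θ : ℝ, 0 ≤ θ →
      Sbar χ - Sbar χ / 8 + (∑ h ∈ F, c h * eu (h * θ)).re ≤ Sn χ ⌊(N : ℝ) * θ⌋₊)
    {Λ X τ B : ℝ} {ξ : ℚ}
    (hB : ∀ h ∈ F, ‖EE (iP χ Λ) (xs 0) (fun A => ((cI (iP χ Λ) ξ (Λ ^ 5) τ X A : ℝ) : ℂ) *
      eu (h * thx N X A))‖ ≤ B)
    (hsB : (∑ h ∈ F, ‖c h‖) * B ≤ Sbar χ / 8)
    (hs : Sbar χ * EE (iP χ Λ) (xs 0) (fun A => sI (iP χ Λ) ξ (Λ ^ 5) τ X A) - 5 / 8 * Sbar χ ≤
      EE (iP χ Λ) (xs 0) (fun A => Sn χ ⌊rexp (X - Sm lg A)⌋₊ *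
        sI (iP χ Λ) ξ (Λ ^ 5) τ X A)) : 0 < TT χ Λ X := by
  have hx : ∀ p, 0 < xs 0 p := fun p => xs_pos 0 p
  set P := iP χ Λ with hP
  apply TT_pos_of h2 (s := 0)
  rw [Ef_eq_EE]
  have e1 : EE P (xs 0) (fun A => Sy χ 0 (X - Sm lg A)) =
      EE P (xs 0) (fun A => cI P ξ (Λ ^ 5) τ X A * Sn χ ⌊rexp (X - Sm lg A)⌋₊) +
      EE P (xs 0) (fun A => Sn χ ⌊rexp (X - Sm lg A)⌋₊ * sI P ξ (Λ ^ 5) τ X A) := by
    rw [← EE_add]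
    congr 1
    ext A
    unfold Sy
    rw [zero_mul, neg_zero, exp_zero, mul_one]
    linear_combination (-(Sn χ ⌊rexp (X - Sm lg A)⌋₊)) * cI_add_sI P ξ (Λ ^ 5) τ X A
  have hmin := EE_minorant (χ := χ) (P := P) hx hF (X := X) (B := B)
    (fun A => cI P ξ (Λ ^ 5) τ X A) (fun A => cI_nonneg _ _ _ _ _ _) hB
  have e2 : EE P (xs 0) (fun A => cI P ξ (Λ ^ 5) τ X A) +
      EE P (xs 0) (fun A => sI P ξ (Λ ^ 5) τ X A) = 1 := by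
    rw [← EE_add]
    have : (fun A => cI P ξ (Λ ^ 5) τ X A + sI P ξ (Λ ^ 5) τ X A) = fun _ => (1 : ℝ) := by
      ext A; exact cI_add_sI _ _ _ _ _ _
    rw [this, EE_const hx]
  have e3 : 0 ≤ EE P (xs 0) (fun A => sI P ξ (Λ ^ 5) τ X A) :=
    EE_nonneg hx fun A _ => sI_nonneg _ _ _ _ _ _
  have e4 : 0 ≤ EE P (xs 0) (fun A => cI P ξ (Λ ^ 5) τ X A) :=
    EE_nonneg hx fun A _ => cI_nonneg _ _ _ _ _ _
  have hgoal : 0 < EE P (xs 0) (fun A => cI P ξ (Λ ^ 5) τ X A * Sn χ ⌊rexp (X - Sm lg A)⌋₊) +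
      EE P (xs 0) (fun A => Sn χ ⌊rexp (X - Sm lg A)⌋₊ * sI P ξ (Λ ^ 5) τ X A) := by
    set a := EE P (xs 0) (fun A => cI P ξ (Λ ^ 5) τ X A) with ha
    set b := EE P (xs 0) (fun A => sI P ξ (Λ ^ 5) τ X A) with hb
    have q1 : (Sbar χ - Sbar χ / 8) * a + Sbar χ * b ≥ Sbar χ - Sbar χ / 8 := by
      have : b = 1 - a := by linarith
      rw [this]
      nlinarith
    linarith
  have e5 : EE P (xs 0) (fun A => (fun S => Sy χ 0 (X - S)) (Sm lg A)) =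
      EE P (xs 0) (fun A => Sy χ 0 (X - Sm lg A)) := rfl
  rw [e5, e1]
  exact hgoal

/-- the sum inside the structured event -/
lemma top_inside (hχ : χ.IsPrimitive) (h2 : χ ^ 2 = 1) (hne : χ ≠ 1) (ho : χ.Odd)
    (hS : 0 < Sbar χ) {Λ X τ W₀ W₁ : ℝ} {ξ : ℚ} (hpk : Pack χ ξ.den Λ 2) (hΛ : 96 ≤ Λ)
    (hNΛ : (N : ℝ) * Λ ^ 5 ≤ Λ ^ 10)
    (hW : ∀ z w : ℝ, 0 ≤ w → w ≤ 2 * Λ →
      EE (iP χ Λ) (xs 0) (fun A => wI z w (X - Sm lg A)) ≤ W₀)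
    (hFam : Pr (iP χ Λ) (xs 0) (fun A => ¬ Fam χ ξ.den Λ A) ≤ 1 / Λ)
    (hξ : 2 ≤ ξ.den) (hB : Real.log ξ.den ≤ 7 * Λ ^ 6)
    (hW1 : EE (iP χ Λ) (xs 0) (fun A => wI (τ - 7 * Λ ^ 6) (7 * Λ ^ 6) (X - Sm lg A)) ≤ W₁)
    (hτ : ∀ A, A ⊆ iP χ Λ → X - Sm lg A ≤ τ →
      |xn N (iP χ Λ) X - ξ| * Dh (iP χ Λ) A ≤ kp Λ)
    (hκG : N * kp Λ * Λ ^ 5 < 1)
    (hs1 : 4 * W₁ + 1 / Λ ≤ 1 / 16) (hs2 : 6 * N * W₀ + 8 * N / Λ ≤ Sbar χ / 16) :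
    Sbar χ * EE (iP χ Λ) (xs 0) (fun A => sI (iP χ Λ) ξ (Λ ^ 5) τ X A) - 5 / 8 * Sbar χ ≤
      EE (iP χ Λ) (xs 0) (fun A => Sn χ ⌊rexp (X - Sm lg A)⌋₊ *
        sI (iP χ Λ) ξ (Λ ^ 5) τ X A) := by
  have hx : ∀ p, 0 < xs 0 p := fun p => xs_pos 0 p
  have hN0 : (0 : ℝ) < N := by exact_mod_cast NeZero.pos N
  set P := iP χ Λ with hP
  have hPp : ∀ p ∈ P, p.Prime := fun p hp => iP_prime hp
  -- the sign
  obtain ⟨e, he, hval⟩ : ∃ e : ℤ, (e = 1 ∨ e = -1) ∧ ∀ A, A ⊆ P →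
      Sn χ ⌊rexp (X - Sm lg A)⌋₊ * sI P ξ (Λ ^ 5) τ X A =
      Ps χ P ξ e A * sI P ξ (Λ ^ 5) τ X A := by
    have hgen : ∀ A, A ⊆ P → CC P ξ (Λ ^ 5) τ X A →
        (((ξ : ℝ) ≤ xn N P X → Sn χ ⌊rexp (X - Sm lg A)⌋₊ = Ps χ P ξ 1 A) ∧
        (xn N P X < ξ → Sn χ ⌊rexp (X - Sm lg A)⌋₊ = Ps χ P ξ (-1) A)) := by
      intro A hA hC
      have hD0 : (0 : ℝ) < Dh P A := by exact_mod_cast Dh_pos hPp
      have e1 : (N : ℝ) * thx N X A = rexp (X - Sm lg A) := by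
        unfold thx; field_simp
      have e2 : ((qA P ξ A : ℚ) : ℝ) = ξ * Dh P A := by unfold qA; push_cast; ring
      have e3 : |thx N X A - (qA P ξ A : ℚ)| ≤ kp Λ := by
        rw [e2, thx_eq hPp hA, ← sub_mul, abs_mul, abs_of_pos hD0]
        exact hτ A hA hC.2
      have key := Sn_near h2 hne ho (thx_pos X A) hκG hC.1 e3
      rw [e1] at key
      constructor
      · intro hle
        apply key.1
        rw [e2, thx_eq hPp hA]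
        exact mul_le_mul_of_nonneg_right hle hD0.le
      · intro hlt
        apply key.2
        rw [e2, thx_eq hPp hA]
        exact mul_lt_mul_of_pos_right hlt hD0
    by_cases hle : (ξ : ℝ) ≤ xn N P X
    · refine ⟨1, Or.inl rfl, fun A hA => ?_⟩
      by_cases hC : CC P ξ (Λ ^ 5) τ X A
      · rw [(hgen A hA hC).1 hle]
      · have : sI P ξ (Λ ^ 5) τ X A = 0 := by unfold sI; rw [if_neg hC]
        rw [this, mul_zero, mul_zero]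
    · refine ⟨-1, Or.inr rfl, fun A hA => ?_⟩
      by_cases hC : CC P ξ (Λ ^ 5) τ X A
      · rw [(hgen A hA hC).2 (not_le.mp hle)]
      · have : sI P ξ (Λ ^ 5) τ X A = 0 := by unfold sI; rw [if_neg hC]
        rw [this, mul_zero, mul_zero]
  rw [EE_congr hval]
  have c2 := top_struct h2 hne hpk (by linarith) hNΛ hW hFam he (τ := τ)
  have c3 := top_bias h2 hΛ hξ hB hW1
  rw [← hP] at c2 c3
  have e4 : EE P (xs 0) (fun A => Fi χ (qA P ξ A).den * sI P ξ (Λ ^ 5) τ X A) =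
      Sbar χ * EE P (xs 0) (fun A => sI P ξ (Λ ^ 5) τ X A) -
      Sbar χ * EE P (xs 0) (fun A => hh χ (qA P ξ A).den * sI P ξ (Λ ^ 5) τ X A) := by
    rw [← EE_mul, ← EE_mul, ← EE_sub]
    congr 1
    ext A
    set b := (qA P ξ A).den with hb
    have hb0 : 0 < b := (qA P ξ A).den_pos
    have hφ : (Nat.totient b : ℝ) ≠ 0 := by exact_mod_cast (Nat.totient_pos.mpr hb0).ne'
    unfold Fi hh
    rw [Wn_eq hχ hne h2 ho hb0]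
    field_simp
  have c4 := (abs_le.mp c2).1
  rw [e4] at c4
  have c5 := mul_le_mul_of_nonneg_left c3 hS.le
  have c6 := mul_le_mul_of_nonneg_left hs1 hS.le
  linarith

end Pool.Agent.MP0016c7.Ros
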