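import Mathlib
import Pool.Agent.Lib.MP_0016c7_nt.CdlSmall3
import Pool.Agent.Lib.MP_0016c7_nt.CdlTop2

open Real Filter

namespace Pool.Agent.MP0016c7.Ros

variable {N : ℕ} [NeZero N] {χ : DirichletCharacter ℂ N}

/-- the total mass is large -/
lemma T0_large (h2 : χ ^ 2 = 1) (hne : χ ≠ 1) :
    ∃ Λ₀ : ℝ, 1 ≤ Λ₀ ∧ ∀ Λ : ℝ, Λ₀ ≤ Λ → 16 * Λ ^ 7 ≤ Sm lg (iP χ Λ) := by
  obtain ⟨C₀, C₁, Cs, hM⟩ := exists_mdat χ h2 hne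
  have hC0 := hM.C0
  obtain ⟨Λ₆, hΛ₆⟩ := (ev_pow_exp 6400 6 (by norm_num : (0 : ℝ) < 1 / 2)).exists_forall_of_atTop
  have h6 := le_abs_self Λ₆
  have h6' := abs_nonneg Λ₆
  refine ⟨|Λ₆| + 16 * C₀ + 8, by linarith, fun Λ hΛ => ?_⟩
  have hΛ1 : 1 ≤ Λ := by linarith
  have hΛ0 : 0 < Λ := by linarith
  have q1 := hM.VV_ge (σ := 0) le_rfl zero_le_one (by linarith : 16 * C₀ ≤ Λ)
  have q2 := hM.VV_le (σ := 0) hΛ0.le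
  have q3 := XX_le_zero (iP χ) le_rfl Λ
  have q4 := hΛ₆ Λ (by linarith)
  have q5 : rexp ((1 - 0) * Λ / 2) = rexp (1 / 2 * Λ) := by congr 1; ring
  rw [q5] at q1
  have q6 : Λ * (Λ * rexp (1 / 2 * Λ) / 64) ≤ Λ * (Sm lg (iP χ Λ) / 2) := by
    calc Λ * (Λ * rexp (1 / 2 * Λ) / 64) = Λ ^ 2 * rexp (1 / 2 * Λ) / 64 := by ring
      _ ≤ Λ * XX (iP χ) 0 Λ := q1.trans q2
      _ ≤ _ := mul_le_mul_of_nonneg_left q3 hΛ0.le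
  have q7 := le_of_mul_le_mul_left q6 hΛ0
  have q8 : Λ * (6400 * Λ ^ 6) ≤ Λ * rexp (1 / 2 * Λ) := mul_le_mul_of_nonneg_left q4 hΛ0.le
  have q9 : Λ * (6400 * Λ ^ 6) = 6400 * Λ ^ 7 := by ring
  have : 0 < Λ ^ 7 := by positivity
  linarith

/-- windows are small at zero tilt -/
lemma win_small (h2 : χ ^ 2 = 1) (hne : χ ≠ 1) :
    ∃ Λ₀ : ℝ, 1 ≤ Λ₀ ∧ ∀ Λ X z w : ℝ, Λ₀ ≤ Λ → 0 ≤ w → w ≤ 7 * Λ ^ 6 →
      EE (iP χ Λ) (xs 0) (fun A => wI z w (X - Sm lg A)) ≤ 1 / Λ := by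
  obtain ⟨C₀, C₁, Cs, hM⟩ := exists_mdat χ h2 hne
  have hC0 := hM.C0
  obtain ⟨D, hD, Λ₁, hΛ₁, hU⟩ := hM.UB0
  obtain ⟨Λ₄, hΛ₄⟩ := (ev_pow_exp (64 * (rexp 1 * D)) 6
    (by norm_num : (0 : ℝ) < 1 / 4)).exists_forall_of_atTop
  have h4 := le_abs_self Λ₄
  have h4' := abs_nonneg Λ₄
  refine ⟨Λ₁ + |Λ₄| + 16 * C₀ + 1, by linarith, fun Λ X z w hΛ hw hw7 => ?_⟩
  have hΛ1 : 1 ≤ Λ := by linarith
  have hΛ0 : 0 < Λ := by linarith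
  have hVpos := hM.VV_pos (le_refl (0 : ℝ)) zero_le_one (by linarith) hΛ0
  obtain ⟨v, hv⟩ : ∃ v, v = √(VV (iP χ) 0 Λ) := ⟨_, rfl⟩
  have hv0 : 0 < v := by rw [hv]; exact sqrt_pos.mpr hVpos
  have hUs : ∀ z, al (iP χ) 1 0 Λ z ≤ D / v := fun z => by
    have := hU 0 Λ z le_rfl (by norm_num) (by linarith)
    rwa [← hv] at this
  have hvl : Λ * rexp (1 / 4 * Λ) / 8 ≤ v := by
    rw [hv]
    apply Real.le_sqrt_of_sq_le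
    refine le_trans (le_of_eq ?_) (hM.VV_ge (σ := 0) le_rfl zero_le_one
      (by linarith : 16 * C₀ ≤ Λ))
    have e : rexp ((1 - 0) * Λ / 2) = rexp (1 / 4 * Λ) ^ 2 := by
      rw [← exp_nat_mul]; congr 1; push_cast; ring
    rw [e]
    ring
  refine (EE_window_le hUs z hw).trans ?_
  have a1 := hΛ₄ Λ (by linarith)
  have hL6 : 1 ≤ Λ ^ 6 := one_le_pow₀ hΛ1
  have a2 : (w + 1) ≤ 8 * Λ ^ 6 := by linarith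
  have a3 : 0 < rexp 1 * (D / v) := by positivity
  calc (w + 1) * (rexp 1 * (D / v)) ≤ 8 * Λ ^ 6 * (rexp 1 * (D / v)) :=
        mul_le_mul_of_nonneg_right a2 a3.le
    _ = (64 * (rexp 1 * D) * Λ ^ 6) / 8 / v := by ring
    _ ≤ (rexp (1 / 4 * Λ)) / 8 / v := by
        apply div_le_div_of_nonneg_right _ hv0.le
        apply div_le_div_of_nonneg_right a1 (by norm_num)
    _ ≤ 1 / Λ := by
        rw [div_le_div_iff₀ hv0 hΛ0]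
        linarith

/-- failure of the good event -/
lemma fam_small (hne : χ ≠ 1) : ∃ Λ₀ : ℝ, 1 ≤ Λ₀ ∧ ∀ Λ : ℝ, Λ₀ ≤ Λ → ∀ b : ℕ,
    Pack χ b Λ 2 → Pr (iP χ Λ) (xs 0) (fun A => ¬ Fam χ b Λ A) ≤ 1 / Λ := by
  have hN0 : (0 : ℝ) < N := by exact_mod_cast NeZero.pos N
  obtain ⟨Λ₄, hΛ₄⟩ := (ev_pow_exp (25600 * (N : ℝ) ^ 2) 4
    (by norm_num : (0 : ℝ) < 2 / 5)).exists_forall_of_atTop
  obtain ⟨Λ₅, hΛ₅⟩ := (ev_pow_exp 8 11 (by norm_num : (0 : ℝ) < 1)).exists_forall_of_atTop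
  have h4 := le_abs_self Λ₄
  have h4' := abs_nonneg Λ₄
  have h5 := le_abs_self Λ₅
  have h5' := abs_nonneg Λ₅
  refine ⟨|Λ₄| + |Λ₅| + 1, by linarith, fun Λ hΛ b hpk => ?_⟩
  have hΛ1 : 1 ≤ Λ := by linarith
  have hΛ0 : 0 < Λ := by linarith
  refine (Pr_not_Fam hne hpk hΛ1).trans ?_
  have a1 := hΛ₄ Λ (by linarith)
  have a2 := hΛ₅ Λ (by linarith)
  rw [one_mul] at a2
  have a3 : Λ ≤ I2 χ b Λ / (256 * (N : ℝ) ^ 2 * Λ ^ 3) := by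
    rw [le_div_iff₀ (by positivity)]
    have e : rexp (2 / 5 * Λ) = rexp (2 * Λ / 5) := by congr 1; ring
    rw [e] at a1
    have := hpk.J2b
    have e2 : 25600 * (N : ℝ) ^ 2 * Λ ^ 4 = 100 * (Λ * (256 * (N : ℝ) ^ 2 * Λ ^ 3)) := by ring
    linarith
  have a4 : rexp (-(I2 χ b Λ / (256 * (N : ℝ) ^ 2 * Λ ^ 3))) ≤ rexp (-Λ) := by
    rw [exp_le_exp]; linarith
  have hL5 : 1 ≤ Λ ^ 5 := one_le_pow₀ hΛ1
  have a5 : (Λ ^ 5 + 1) ^ 2 ≤ (2 * Λ ^ 5) ^ 2 := pow_le_pow_left₀ (by positivity) (by linarith) 2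
  calc (Λ ^ 5 + 1) ^ 2 * (2 * rexp (-(I2 χ b Λ / (256 * (N : ℝ) ^ 2 * Λ ^ 3)))) ≤
        (2 * Λ ^ 5) ^ 2 * (2 * rexp (-Λ)) := by
          apply mul_le_mul a5 _ (by positivity) (by positivity)
          linarith
    _ = (8 * Λ ^ 11) * rexp (-Λ) / Λ := by field_simp; ring
    _ ≤ rexp Λ * rexp (-Λ) / Λ := by
        apply div_le_div_of_nonneg_right _ hΛ0.le
        exact mul_le_mul_of_nonneg_right a2 (exp_pos _).le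
    _ = 1 / Λ := by rw [← exp_add, add_neg_cancel, exp_zero]

/-- everything that is needed at a large height -/
structure TD (χ : DirichletCharacter ℂ N) (Λ : ℝ) : Prop where
  hΛ : 96 ≤ Λ
  hN : (N : ℝ) ≤ Λ
  T0 : 16 * Λ ^ 7 ≤ Sm lg (iP χ Λ)
  kG : kp Λ * (2 * rexp Λ) * (Λ ^ 5) ^ 2 < 1
  win : ∀ X z w : ℝ, 0 ≤ w → w ≤ 7 * Λ ^ 6 →
      EE (iP χ Λ) (xs 0) (fun A => wI z w (X - Sm lg A)) ≤ 1 / Λ
  pk : ∀ b : ℕ, b ≠ 0 → Real.log b ≤ Λ ^ 10 → Pack χ b Λ 2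
  fam : ∀ b : ℕ, Pack χ b Λ 2 → Pr (iP χ Λ) (xs 0) (fun A => ¬ Fam χ b Λ A) ≤ 1 / Λ

lemma kG_ev : ∃ Λ₀ : ℝ, 1 ≤ Λ₀ ∧ ∀ Λ : ℝ, Λ₀ ≤ Λ →
    kp Λ * (2 * rexp Λ) * (Λ ^ 5) ^ 2 < 1 := by
  obtain ⟨Λ₄, hΛ₄⟩ := (ev_pow_exp 4 18 (by norm_num : (0 : ℝ) < 3 / 10)).exists_forall_of_atTop
  have h4 := le_abs_self Λ₄
  have h4' := abs_nonneg Λ₄
  refine ⟨|Λ₄| + 1, by linarith, fun Λ hΛ => ?_⟩
  have hΛ0 : 0 < Λ := by linarith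
  have a1 := hΛ₄ Λ (by linarith)
  have a2 : kp Λ * (2 * rexp Λ) * (Λ ^ 5) ^ 2 = (2 * Λ ^ 18) * rexp (-(3 / 10 * Λ)) := by
    unfold kp
    have : rexp (-(3 / 10 * Λ)) = rexp (-(13 * Λ / 10)) * rexp Λ := by
      rw [← exp_add]; congr 1; ring
    rw [this]; ring
  rw [a2]
  have a3 : 0 < rexp (-(3 / 10 * Λ)) := exp_pos _
  have a4 : rexp (3 / 10 * Λ) * rexp (-(3 / 10 * Λ)) = 1 := by
    rw [← exp_add, add_neg_cancel, exp_zero]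
  have a5 : 0 < Λ ^ 18 := by positivity
  have a6 := mul_le_mul_of_nonneg_right a1 a3.le
  rw [a4] at a6
  nlinarith [mul_pos a5 a3]

lemma TD_ev (hSW : SWd) (h2 : χ ^ 2 = 1) (hne : χ ≠ 1) :
    ∃ Λ₀ : ℝ, 1 ≤ Λ₀ ∧ ∀ Λ : ℝ, Λ₀ ≤ Λ → TD χ Λ := by
  obtain ⟨a1, b1, c1⟩ := T0_large (χ := χ) h2 hne
  obtain ⟨a2, b2, c2⟩ := kG_ev
  obtain ⟨a3, b3, c3⟩ := win_small (χ := χ) h2 hne
  obtain ⟨a4, b4, c4⟩ := pack (χ := χ) hSW h2 hne (le_refl (2 : ℝ))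
  obtain ⟨a5, b5, c5⟩ := fam_small (χ := χ) hne
  have hN0 : (0 : ℝ) ≤ N := Nat.cast_nonneg N
  refine ⟨a1 + a2 + a3 + a4 + a5 + 96 + N, by linarith, fun Λ hΛ => ?_⟩
  exact ⟨by linarith, by linarith, c1 Λ (by linarith), c2 Λ (by linarith),
    fun X z w hw hw7 => c3 Λ X z w (by linarith) hw hw7,
    fun b hb hl => c4 Λ (by linarith) b hb hl, fun b hp => c5 Λ (by linarith) b hp⟩

end Pool.Agent.MP0016c7.Ros
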