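import Mathlib
import Pool.Agent.Lib.MP_0016c7_nt.CdlTop5
import Pool.Agent.Lib.MP_0016c7_nt.CdlTop7

open Real Filter

namespace Pool.Agent.MP0016c7.Ros

variable {N : ℕ} [NeZero N] {χ : DirichletCharacter ℂ N}

lemma TD.pos {Λ : ℝ} (h : TD χ Λ) : 0 < Λ := by linarith [h.hΛ]

lemma TD.NkG {Λ : ℝ} (h : TD χ Λ) : N * kp Λ * Λ ^ 5 < 1 := by
  have h1 := h.kG
  have hΛ0 := h.pos
  have hk : 0 ≤ kp Λ := by unfold kp; positivity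
  have hΛ1 : 1 ≤ Λ := by linarith [h.hΛ]
  have h5 : 1 ≤ Λ ^ 5 := one_le_pow₀ hΛ1
  refine lt_of_le_of_lt ?_ h1
  have e1 : (N : ℝ) ≤ 2 * rexp Λ := by
    have := add_one_le_exp Λ
    have := h.hN
    linarith
  have e2 : Λ ^ 5 ≤ (Λ ^ 5) ^ 2 := by nlinarith
  have e3 : (N : ℝ) * kp Λ ≤ kp Λ * (2 * rexp Λ) := by
    rw [mul_comm]; exact mul_le_mul_of_nonneg_left e1 hk
  exact mul_le_mul e3 e2 (by positivity) (by positivity)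

lemma TD.k4 {Λ : ℝ} (h : TD χ Λ) : kp Λ ≤ 1 / 4 := by
  have h1 := h.kG
  have hΛ0 := h.pos
  have hk : 0 ≤ kp Λ := by unfold kp; positivity
  have hΛ1 : 1 ≤ Λ := by linarith [h.hΛ]
  have h5 : 1 ≤ (Λ ^ 5) ^ 2 := one_le_pow₀ (one_le_pow₀ hΛ1)
  have e1 : 4 ≤ 2 * rexp Λ := by
    have := add_one_le_exp Λ
    linarith [h.hΛ]
  have e2 : kp Λ * 4 ≤ kp Λ * (2 * rexp Λ) := mul_le_mul_of_nonneg_left e1 hk
  have e3 : kp Λ * (2 * rexp Λ) * 1 ≤ kp Λ * (2 * rexp Λ) * (Λ ^ 5) ^ 2 :=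
    mul_le_mul_of_nonneg_left h5 (by positivity)
  linarith

lemma exp_neg_le_inv {Λ : ℝ} (h : 0 < Λ) : rexp (-Λ) ≤ 1 / Λ := by
  rw [exp_neg, ← one_div]
  apply one_div_le_one_div_of_le h
  linarith [add_one_le_exp Λ]

lemma TD.ty {Λ X : ℝ} (h : TD χ Λ) :
    Pr (iP χ Λ) (xs 0) (fun A => MajA (Λ ^ 5) (kp Λ) (thx N X A) ∧ ¬ Ty N (iP χ Λ) Λ X A) ≤
      2 / Λ := by
  have hΛ0 := h.pos
  have hΛ1 : 1 ≤ Λ := by linarith [h.hΛ]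
  have hT := h.T0
  have h7 : 0 < Λ ^ 7 := by positivity
  refine (Pr_not_Ty hΛ1 h.kG (by linarith)).trans ?_
  have e1 : rexp (-(Sm lg (iP χ Λ) / (1600 * Λ))) ≤ rexp (-Λ) := by
    rw [exp_le_exp, neg_le_neg_iff, le_div_iff₀ (by positivity)]
    refine le_trans ?_ hT
    have e5 : (96 : ℝ) ^ 5 ≤ Λ ^ 5 := pow_le_pow_left₀ (by norm_num) h.hΛ 5
    have e6 : 1600 ≤ 16 * Λ ^ 5 := by
      have : (1600 : ℝ) ≤ 16 * 96 ^ 5 := by norm_num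
      linarith
    calc Λ * (1600 * Λ) = 1600 * Λ ^ 2 := by ring
      _ ≤ 16 * Λ ^ 5 * Λ ^ 2 := mul_le_mul_of_nonneg_right e6 (by positivity)
      _ = 16 * Λ ^ 7 := by ring
  have e2 := exp_neg_le_inv hΛ0
  have e3 : 2 / Λ = 1 / Λ + 1 / Λ := by ring
  rw [e3]
  linarith

lemma two_le_win {Λ : ℝ} (h : 1 ≤ Λ) : 2 * Λ ≤ 7 * Λ ^ 6 := by
  have : Λ ^ 1 ≤ Λ ^ 6 := pow_le_pow_right₀ h (by norm_num)
  rw [pow_one] at this
  linarith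

/-- bound for the exponential averages -/
lemma TD.eqd {Λ X τ : ℝ} {ξ : ℚ} (h : TD χ Λ) (hpk : Pack χ ξ.den Λ 2)
    (hE : EE (iP χ Λ) (xs 0) (fun A => @ite ℝ (MajA (Λ ^ 5) (kp Λ) (thx N X A)) (Classical.dec _)
        (cI (iP χ Λ) ξ (Λ ^ 5) τ X A) 0) ≤ 2 / Λ) {k : ℤ} (hk : k ≠ 0) (hkΛ : |(k : ℝ)| ≤ Λ) :
    ‖EE (iP χ Λ) (xs 0) (fun A => ((cI (iP χ Λ) ξ (Λ ^ 5) τ X A : ℝ) : ℂ) *
      eu (k * thx N X A))‖ ≤ 14000 / Λ := by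
  have hΛ0 := h.pos
  have hΛ1 : 1 ≤ Λ := by linarith [h.hΛ]
  refine (top_eqd hpk hΛ1 hk hkΛ).trans ?_
  have hw7 := two_le_win hΛ1
  have w1 := h.win X (τ - 13 * Λ / 10 - 2) (2 * 2) (by norm_num) (by linarith [h.hΛ])
  have w2 := h.win X (τ - 13 * Λ / 10) (13 * Λ / 10) (by positivity) (by linarith [h.hΛ])
  have w3 : rexp (-(2 * Λ)) ≤ 1 / Λ := by
    refine le_trans ?_ (exp_neg_le_inv hΛ0)
    rw [exp_le_exp]; linarith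
  have e1 : 14000 / Λ = 14000 * (1 / Λ) := by ring
  have e2 : (13000 : ℝ) / Λ = 13000 * (1 / Λ) := by ring
  have e3 : (2 : ℝ) / Λ = 2 * (1 / Λ) := by ring
  have e4 : 0 < 1 / Λ := by positivity
  rw [e3] at hE
  rw [e1, e2]
  linarith

/-- the structured event contains the typical sets -/
lemma TD.maj {Λ X τ : ℝ} {ξ : ℚ} (h : TD χ Λ)
    (hC : ∀ A, Ty N (iP χ Λ) Λ X A → CC (iP χ Λ) ξ (Λ ^ 5) τ X A) :
    EE (iP χ Λ) (xs 0) (fun A => @ite ℝ (MajA (Λ ^ 5) (kp Λ) (thx N X A)) (Classical.dec _)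
        (cI (iP χ Λ) ξ (Λ ^ 5) τ X A) 0) ≤ 2 / Λ := by
  classical
  have hx : ∀ p, 0 < xs 0 p := fun p => xs_pos 0 p
  refine le_trans ?_ (h.ty (X := X))
  unfold Pr
  apply EE_mono hx
  intro A _
  by_cases c1 : MajA (Λ ^ 5) (kp Λ) (thx N X A)
  · rw [if_pos c1]
    by_cases c2 : Ty N (iP χ Λ) Λ X A
    · have : cI (iP χ Λ) ξ (Λ ^ 5) τ X A = 0 := by unfold cI; rw [if_pos (hC A c2)]
      rw [this]
      split_ifs <;> norm_num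
    · rw [if_pos ⟨c1, c2⟩]
      exact cI_le_one _ _ _ _ _ _
  · rw [if_neg c1]
    split_ifs <;> norm_num

/-- a threshold describing closeness -/
lemma exists_tau {P : Finset ℕ} (hP : ∀ p ∈ P, p.Prime) {κ : ℝ} (hκ : 0 < κ) (X δ : ℝ)
    (hδ : 0 ≤ δ) : ∃ τ : ℝ, ∀ A, A ⊆ P → (X - Sm lg A ≤ τ ↔ δ * Dh P A ≤ κ) := by
  rcases hδ.eq_or_lt with h0 | h0
  · refine ⟨X, fun A _ => ?_⟩
    rw [← h0, zero_mul]
    refine ⟨fun _ => hκ.le, fun _ => ?_⟩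
    have : 0 ≤ Sm lg A := Finset.sum_nonneg fun p _ => lg_nonneg p
    linarith
  · refine ⟨X - Sm lg P + Real.log (κ / δ), fun A hA => ?_⟩
    have hk : 0 < κ / δ := by positivity
    rw [Dh_real hP hA]
    have h1 : (X - Sm lg A ≤ X - Sm lg P + Real.log (κ / δ)) ↔
        Sm lg P - Sm lg A ≤ Real.log (κ / δ) := by
      constructor <;> intro h <;> linarith
    rw [h1, Real.le_log_iff_exp_le hk, le_div_iff₀ h0, mul_comm]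

end Pool.Agent.MP0016c7.Ros
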