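import Mathlib
import Pool.Agent.Lib.MP_0016c7_nt.CdlTop6
import Pool.Agent.Lib.MP_0016c7_nt.CdlTop8

open Real Filter

namespace Pool.Agent.MP0016c7.Ros

variable {N : ℕ} [NeZero N] {χ : DirichletCharacter ℂ N}

/-- the common rational number is not an integer -/
lemma xi_den {Λ X : ℝ} (h : TD χ Λ) (hX1 : 3 / 5 * Sm lg (iP χ Λ) ≤ X)
    (hX2 : X ≤ Sm lg (iP χ Λ) + Real.log ((N : ℝ) / 2)) {A₀ : Finset ℕ}
    (hA₀ : Ty N (iP χ Λ) Λ X A₀) {ξ : ℚ}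
    (hq : qA (iP χ Λ) ξ A₀ = ratM (Λ ^ 5) (kp Λ) (thx N X A₀))
    (hxn : |xn N (iP χ Λ) X - ξ| ≤ kp Λ) : 2 ≤ ξ.den := by
  have hN0 : (0 : ℝ) < N := by exact_mod_cast NeZero.pos N
  have hΛ0 := h.pos
  have hk4 := h.k4
  have hPp : ∀ p ∈ iP χ Λ, p.Prime := fun p hp => iP_prime hp
  -- below one
  have h1 : xn N (iP χ Λ) X ≤ 1 / 2 := by
    unfold xn
    rw [div_le_iff₀ hN0]
    have : rexp (X - Sm lg (iP χ Λ)) ≤ rexp (Real.log ((N : ℝ) / 2)) := by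
      rw [exp_le_exp]; linarith
    rw [exp_log (by positivity)] at this
    linarith
  have h2 : (ξ : ℝ) < 1 := by
    have := (abs_le.mp hxn).1
    linarith
  -- positive
  have h3 : (0 : ℝ) < qA (iP χ Λ) ξ A₀ := by
    rw [hq]
    have h4 := (ratM_spec hA₀.maj).2
    have h5 := (abs_le.mp h4).2
    have h6 : kp Λ < thx N X A₀ := by
      unfold thx
      rw [lt_div_iff₀ hN0]
      have h7 : 0 ≤ X - Sm lg A₀ := by
        have h8 := hA₀.sm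
        have h9 := h.T0
        have : 0 < Λ ^ 7 := by positivity
        linarith
      have h8 := one_le_exp h7
      have h9 := h.NkG
      have hΛ5 : 1 ≤ Λ ^ 5 := one_le_pow₀ (by linarith [h.hΛ])
      have hkp : 0 ≤ kp Λ := by unfold kp; positivity
      have h10 : kp Λ * N ≤ N * kp Λ * Λ ^ 5 := by
        have := mul_le_mul_of_nonneg_left hΛ5 (by positivity : 0 ≤ (N : ℝ) * kp Λ)
        linarith
      linarith
    linarith
  have h4 : (0 : ℝ) < ξ := by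
    unfold qA at h3
    push_cast at h3
    have hD : (0 : ℝ) < Dh (iP χ Λ) A₀ := by exact_mod_cast Dh_pos hPp
    exact (pos_iff_pos_of_mul_pos h3).mpr hD
  by_contra hc
  have h5 : ξ.den = 1 := by
    have := ξ.den_pos
    omega
  have h6 : ((ξ.num : ℚ)) = ξ := Rat.coe_int_num_of_den_eq_one h5
  rw [← h6] at h2 h4
  have h7 : (0 : ℝ) < (ξ.num : ℝ) := by exact_mod_cast h4
  have h8 : ((ξ.num : ℤ) : ℝ) < 1 := by exact_mod_cast h2
  have h9 : 0 < ξ.num := by exact_mod_cast h7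
  have h10 : ξ.num < 1 := by exact_mod_cast h8
  omega

/-- **Positivity in the top range.** -/
theorem top_pos (hSW : SWd) (hχ : χ.IsPrimitive) (h2 : χ ^ 2 = 1) (hne : χ ≠ 1) (ho : χ.Odd)
    (hS : 0 < Sbar χ) :
    ∃ Λ₀ : ℝ, 1 ≤ Λ₀ ∧ ∀ Λ X : ℝ, Λ₀ ≤ Λ → 3 / 5 * Sm lg (iP χ Λ) ≤ X →
      X ≤ Sm lg (iP χ Λ) + Real.log ((N : ℝ) / 2) → 0 < TT χ Λ X := by
  classical
  obtain ⟨F, c, hF0, hF⟩ := trig_minorant hne (ε := Sbar χ / 8) (by positivity)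
  obtain ⟨Λ₁, hΛ₁, hTD⟩ := TD_ev (χ := χ) hSW h2 hne
  have hN0 : (0 : ℝ) < N := by exact_mod_cast NeZero.pos N
  set sc := ∑ h ∈ F, ‖c h‖ with hsc
  have hsc0 : 0 ≤ sc := Finset.sum_nonneg fun _ _ => norm_nonneg _
  set H := ∑ h ∈ F, |(h : ℝ)| with hH
  have hH0 : 0 ≤ H := Finset.sum_nonneg fun _ _ => abs_nonneg _
  set Λ' := 8 * (sc * 14000) / Sbar χ with hΛ'
  have hΛ'0 : 0 ≤ Λ' := by positivity
  set Λ'' := 16 * (14 * (N : ℝ)) / Sbar χ with hΛ''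
  have hΛ''0 : 0 ≤ Λ'' := by positivity
  refine ⟨Λ₁ + H + Λ' + Λ'' + 80, by linarith, fun Λ X hΛ hX1 hX2 => ?_⟩
  have hD := hTD Λ (by linarith)
  have hΛ0 := hD.pos
  have h96 := hD.hΛ
  have hΛ1 : 1 ≤ Λ := by linarith
  have hx : ∀ p, 0 < xs 0 p := fun p => xs_pos 0 p
  have hPp : ∀ p ∈ iP χ Λ, p.Prime := fun p hp => iP_prime hp
  have hkp0 : 0 < kp Λ := by unfold kp; positivity
  have hB : sc * (14000 / Λ) ≤ Sbar χ / 8 := by
    have h3 : Λ' ≤ Λ := by linarith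
    rw [hΛ', div_le_iff₀ hS] at h3
    have : sc * (14000 / Λ) = sc * 14000 / Λ := by ring
    rw [this, div_le_iff₀ hΛ0]
    linarith
  have hhF : ∀ h ∈ F, h ≠ 0 ∧ |(h : ℝ)| ≤ Λ := by
    intro h hh
    constructor
    · intro h0
      rw [h0] at hh
      exact hF0 hh
    · have h1 : |(h : ℝ)| ≤ H := Finset.single_le_sum (f := fun h : ℤ => |(h : ℝ)|)
        (fun _ _ => abs_nonneg _) hh
      linarith
  have h10 : 7 * Λ ^ 6 ≤ Λ ^ 10 := by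
    have : (7 : ℝ) ≤ Λ ^ 4 := by
      have h4 : (96 : ℝ) ^ 4 ≤ Λ ^ 4 := pow_le_pow_left₀ (by norm_num) h96 4
      have : (7 : ℝ) ≤ 96 ^ 4 := by norm_num
      linarith
    calc 7 * Λ ^ 6 ≤ Λ ^ 4 * Λ ^ 6 := mul_le_mul_of_nonneg_right this (by positivity)
      _ = Λ ^ 10 := by ring
  by_cases hTy : ∃ A₀, Ty N (iP χ Λ) Λ X A₀
  · -- structured case
    obtain ⟨A₀, hA₀⟩ := hTy
    have hPΛ : ∀ p ∈ iP χ Λ, lg p ≤ Λ := fun p hp => lg_le_of_mem hp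
    have hT0 : 64 * Λ ^ 6 ≤ Sm lg (iP χ Λ) := by
      refine le_trans ?_ hD.T0
      have : 0 < Λ ^ 6 := by positivity
      have e : 16 * Λ ^ 7 = 16 * Λ * Λ ^ 6 := by ring
      rw [e]
      apply mul_le_mul_of_nonneg_right _ this.le
      linarith
    obtain ⟨ξ, hlog, hq, hxn⟩ := struct_exists (N := N) hPp hPΛ (by linarith : 8 ≤ Λ) hT0
      hD.k4 hA₀
    have hden := xi_den hD hX1 hX2 hA₀ (hq A₀ hA₀) hxn
    have hpk : Pack χ ξ.den Λ 2 := hD.pk ξ.den (by omega) (hlog.trans h10)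
    obtain ⟨τ, hτ⟩ := exists_tau hPp hkp0 X |xn N (iP χ Λ) X - ξ| (abs_nonneg _)
    have hC : ∀ A, Ty N (iP χ Λ) Λ X A → CC (iP χ Λ) ξ (Λ ^ 5) τ X A := by
      intro A hA
      obtain ⟨r1, r2⟩ := ratM_spec hA.maj
      rw [← hq A hA] at r1 r2
      refine ⟨r1, (hτ A hA.sub).mpr ?_⟩
      rw [thx_eq hPp hA.sub] at r2
      have hDp : (0 : ℝ) < Dh (iP χ Λ) A := by exact_mod_cast Dh_pos hPp
      have e : |xn N (iP χ Λ) X * Dh (iP χ Λ) A - (qA (iP χ Λ) ξ A : ℚ)| =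
          |xn N (iP χ Λ) X - ξ| * Dh (iP χ Λ) A := by
        unfold qA
        push_cast
        rw [← sub_mul, abs_mul, abs_of_pos hDp]
      rwa [e] at r2
    have hmaj := hD.maj hC
    refine top_core h2 hS hF (τ := τ) (ξ := ξ) (B := 14000 / Λ)
      (fun h hh => hD.eqd hpk hmaj (hhF h hh).1 (hhF h hh).2) hB ?_
    have hw1 : ∀ z w : ℝ, 0 ≤ w → w ≤ 2 * Λ →
        EE (iP χ Λ) (xs 0) (fun A => wI z w (X - Sm lg A)) ≤ 1 / Λ := fun z w hw hw2 =>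
      hD.win X z w hw (hw2.trans (two_le_win hΛ1))
    have hNΛ : (N : ℝ) * Λ ^ 5 ≤ Λ ^ 10 := by
      have e1 : (N : ℝ) ≤ Λ ^ 5 := by
        have : Λ ^ 1 ≤ Λ ^ 5 := pow_le_pow_right₀ hΛ1 (by norm_num)
        rw [pow_one] at this
        linarith [hD.hN]
      calc (N : ℝ) * Λ ^ 5 ≤ Λ ^ 5 * Λ ^ 5 := mul_le_mul_of_nonneg_right e1 (by positivity)
        _ = _ := by ring
    apply top_inside hχ h2 hne ho hS hpk h96 hNΛ hw1 (hD.fam _ hpk) hden hlog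
      (hD.win X _ _ (by positivity) le_rfl) (fun A hA hy => (hτ A hA).mp hy) hD.NkG
    · have e : 4 * (1 / Λ) + 1 / Λ = 5 / Λ := by ring
      rw [e, div_le_iff₀ hΛ0]
      linarith
    · have e : 6 * N * (1 / Λ) + 8 * N / Λ = 14 * N / Λ := by ring
      rw [e, div_le_iff₀ hΛ0]
      have h3 : Λ'' ≤ Λ := by linarith
      rw [hΛ'', div_le_iff₀ hS] at h3
      linarith
  · -- no structure
    push Not at hTy
    have hpk : Pack χ (0 : ℚ).den Λ 2 := by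
      apply hD.pk
      · simp
      · rw [Rat.den_zero, Nat.cast_one, Real.log_one]; positivity
    set τ := X - Sm lg (iP χ Λ) - 1 with hτd
    have hnC : ∀ A, A ⊆ iP χ Λ → ¬ CC (iP χ Λ) 0 (Λ ^ 5) τ X A := by
      rintro A hA ⟨_, hc⟩
      have : Sm lg A ≤ Sm lg (iP χ Λ) :=
        Finset.sum_le_sum_of_subset_of_nonneg hA fun p _ _ => lg_nonneg p
      linarith
    have hmaj := hD.maj (X := X) (τ := τ) (ξ := 0) (fun A hA => absurd hA (hTy A))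
    refine top_core h2 hS hF (τ := τ) (ξ := 0) (B := 14000 / Λ)
      (fun h hh => hD.eqd hpk hmaj (hhF h hh).1 (hhF h hh).2) hB ?_
    have e1 : EE (iP χ Λ) (xs 0) (fun A => sI (iP χ Λ) 0 (Λ ^ 5) τ X A) = 0 := by
      rw [EE_congr (G := fun _ => (0 : ℝ)) (fun A hA => by unfold sI; rw [if_neg (hnC A hA)]),
        EE_const hx]
    have e2 : EE (iP χ Λ) (xs 0) (fun A => Sn χ ⌊rexp (X - Sm lg A)⌋₊ *
        sI (iP χ Λ) 0 (Λ ^ 5) τ X A) = 0 := by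
      rw [EE_congr (G := fun _ => (0 : ℝ)) (fun A hA => by
        unfold sI; rw [if_neg (hnC A hA), mul_zero]), EE_const hx]
    rw [e1, e2]
    linarith

end Pool.Agent.MP0016c7.Ros
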