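import Mathlib
import Pool.Agent.Lib.MP_0016c7_nt.CdlTop9
import Pool.Agent.Lib.MP_0016c7_nt.CdlFin0

open Real Set MeasureTheory Filter Topology

namespace Pool.Agent.MP0016c7.Ros

variable {N : ℕ} [NeZero N] {χ : DirichletCharacter ℂ N}

/-- **Large tilts.** -/
theorem large_tilt (hne : χ ≠ 1) (h2 : χ ^ 2 = 1) {ℓ : ℝ} (hℓ : 0 < ℓ)
    (hL : ∀ s, 0 ≤ s → s ≤ 1 → ℓ ≤ Lr χ s) :
    ∃ Λ₀ : ℝ, 1 ≤ Λ₀ ∧ ∀ Λ X : ℝ, Λ₀ ≤ Λ → Λ ≤ X → X ≤ XX (iP χ) (1 / 2) Λ →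
      0 < TT χ Λ X := by
  obtain ⟨C₀, C₁, Cs, hM⟩ := exists_mdat χ h2 hne
  have hN : (0 : ℝ) ≤ N := Nat.cast_nonneg N
  obtain ⟨M₀, hM₀⟩ : ∃ M₀ : ℕ, 3 * (N * xs (1 / 2) (M₀ + 1)) ≤ ℓ / 4 := by
    have h3 : Tendsto (fun n : ℕ => 3 * ((N : ℝ) * xs (1 / 2) (n + 1))) atTop (𝓝 0) := by
      have := ((tendsto_xs (by norm_num : (0 : ℝ) < 1 / 2)).const_mul (N : ℝ)).const_mul 3
      simpa using this
    have h4 := h3.eventually (gt_mem_nhds (by positivity : 0 < ℓ / 4))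
    obtain ⟨M, hM'⟩ := h4.exists
    exact ⟨M, hM'.le⟩
  set ε : ℝ := min 1 (ℓ / 4 / (M₀ + 1)) with hε
  have hε0 : 0 < ε := lt_min one_pos (by positivity)
  have hε1 : ε ≤ 1 := min_le_left _ _
  have hεM : ε * M₀ ≤ ℓ / 4 := by
    have h3 : ε ≤ ℓ / 4 / (M₀ + 1) := min_le_right _ _
    have h4 : (0 : ℝ) < M₀ + 1 := by positivity
    rw [le_div_iff₀ h4] at h3
    have h5 : ε * M₀ ≤ ε * (M₀ + 1) := mul_le_mul_of_nonneg_left (by linarith) hε0.le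
    linarith
  obtain ⟨Λ₁, hΛ₁, hgood⟩ := hM.good (σ₁ := 0) (σ₂ := 1 / 2) le_rfl (by norm_num)
    (by norm_num) hε0 hε1 (lg_nonneg (M₀ + 1))
  obtain ⟨Λ₂, hΛ₂, hg1⟩ := hM.growth (s := 0) (by norm_num) 1
  have hp1 := lg_nonneg (M₀ + 1)
  refine ⟨Λ₁ + Λ₂ + lg (M₀ + 1), by linarith, fun Λ X hΛ hs hX => ?_⟩
  obtain ⟨σ, hσ, hσ1, G, hG, hG'⟩ := hgood Λ X (by linarith) hs hX
  have h5 := main_range hne h2 (σ₁ := 0) le_rfl (by norm_num) hσ hσ1 hℓ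
    (fun s hs hs1 => hL s (by linarith) hs1) hG hε1 hM₀ hεM (by linarith) hG'
  have h6 : 1 ≤ A1 (iP χ Λ) 0 X := by
    refine (hg1 Λ (by linarith)).trans ?_
    refine le_trans ?_ (A1_ge (iP χ Λ) 0 fun p hp => ((mem_iP χ).mp hp).2.2.trans hs)
    exact Finset.sum_le_sum_of_subset_of_nonneg (Finset.filter_subset _ _)
      fun p _ _ => (xs_pos _ p).le
  unfold TT
  refine lt_of_lt_of_le ?_ h5
  positivity

/-- **Positivity up to the middle.** -/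
theorem below_half (hSW : SWd) (hχ : χ.IsPrimitive) (hne : χ ≠ 1) (h2 : χ ^ 2 = 1) (ho : χ.Odd)
    (hL : ∀ s : ℝ, 0 < s → s < 1 → 0 < Lr χ s) :
    ∃ Λ₀ : ℝ, 1 ≤ Λ₀ ∧ ∀ Λ X : ℝ, Λ₀ ≤ Λ → 0 ≤ X →
      X ≤ Sm lg (iP χ Λ) + Real.log ((N : ℝ) / 2) → 0 < TT χ Λ X := by
  obtain ⟨ℓ, hℓ, hℓS, hLℓ⟩ := Lr_lower hχ hne h2 ho hL
  have hS : 0 < Sbar χ := by linarith
  obtain ⟨C₀, C₁, Cs, hM⟩ := exists_mdat χ h2 hne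
  obtain ⟨Λ₁, hΛ₁, c1⟩ := large_tilt hne h2 hℓ hLℓ
  obtain ⟨K, hK, Λ₂, hΛ₂, c2⟩ := mid_range hne h2 hℓ hLℓ
  obtain ⟨Λ₃, hΛ₃, c3⟩ := small_pos hSW h2 hne hS hK.le
  obtain ⟨Λ₄, hΛ₄, c4⟩ := top_pos hSW hχ h2 hne ho hS
  refine ⟨Λ₁ + Λ₂ + Λ₃ + Λ₄, by linarith, fun Λ X hΛ hX0 hX => ?_⟩
  have hT0 : 0 ≤ Sm lg (iP χ Λ) := Finset.sum_nonneg fun p _ => lg_nonneg p
  have hXX0 : XX (iP χ) 0 Λ = Sm lg (iP χ Λ) / 2 := XX_zero (iP χ) Λ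
  rcases le_total X Λ with hc1 | hc1
  · have := small_range h2 0 hX0 hc1
    unfold TT
    linarith
  rcases le_total X (XX (iP χ) (1 / 2) Λ) with hc2 | hc2
  · exact c1 Λ X (by linarith) hc1 hc2
  rcases le_total X (XX (iP χ) 0 Λ) with hc3 | hc3
  · obtain ⟨σ, hσ, hσX⟩ := intermediate_value_Icc'
      (by norm_num : (0 : ℝ) ≤ 1 / 2) (hM.continuous_XX Λ).continuousOn ⟨hc2, hc3⟩
    simp only at hσX
    rcases le_total (K / Λ) σ with h | h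
    · rw [← hσX]
      exact c2 σ Λ (by linarith) h hσ.2
    · refine c3 σ Λ X (by linarith) hσ.1 h (Or.inl hσX.symm) ?_
      linarith
  rcases le_total X (3 / 5 * Sm lg (iP χ Λ)) with hc4 | hc4
  · exact c3 0 Λ X (by linarith) le_rfl (div_nonneg hK.le (by linarith)) (Or.inr ⟨rfl, hc3⟩) hc4
  · exact c4 Λ X (by linarith) hc4 hX

end Pool.Agent.MP0016c7.Ros
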