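import Mathlib

namespace Pool.Agent.MP0016c7.Fek

/-- The coefficient at `n` of the character induced by `χ` that vanishes off the integers coprime
to `Q`. -/
noncomputable def indChar {N : ℕ} (χ : DirichletCharacter ℂ N) (Q n : ℕ) : ℝ :=
  if n.Coprime Q then (χ (n : ZMod N)).re else 0

/-- The Fekete polynomial of the character modulo `N * Q` induced by `χ`. -/
noncomputable def feketePoly {N : ℕ} (χ : DirichletCharacter ℂ N) (Q : ℕ) : Polynomial ℝ :=
  ∑ n ∈ Finset.range (N * Q), Polynomial.C (indChar χ Q n) * Polynomial.X ^ n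

/-- Iterated summatory functions: `iterSum a 0 = a` and `iterSum a (k + 1) n` is the sum of
`iterSum a k m` over `0 ≤ m ≤ n`. -/
noncomputable def iterSum (a : ℕ → ℝ) : ℕ → ℕ → ℝ
  | 0, n => a n
  | k + 1, n => ∑ m ∈ Finset.range (n + 1), iterSum a k m

end Pool.Agent.MP0016c7.Fek
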