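import Mathlib
import Pool.Agent.Lib.MP_0016c7_nt.FekFlat0

open Real Set MeasureTheory Filter Topology

namespace Pool.Agent.MP0016c7.Ros

variable {P : ℝ → Finset ℕ} {C₀ : ℝ} {C₁ Cs : ℝ → ℝ}

lemma Flat.mono {ε U D D' c c' σ Λ X G : ℝ} (h : Flat P ε U D c σ Λ X G) (hD : D ≤ D')
    (hc : c' ≤ c) (hX : 0 < X) : Flat P ε U D' c' σ Λ X G where
  pos := h.pos
  flat := h.flat
  upper := fun y hy => (h.upper y hy).trans (mul_le_mul_of_nonneg_right hD h.pos.le)
  low := (div_le_div_of_nonneg_right hc hX.le).trans h.low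

/-- flatness for all tilts -/
theorem MDat.flatAll (hM : MDat P C₀ C₁ Cs) : ∃ D : ℝ, 0 < D ∧ ∃ c : ℝ, 0 < c ∧
    ∀ ε U : ℝ, 0 < ε → ε ≤ 1 → 0 ≤ U → ∃ Λ₀ : ℝ, 1 ≤ Λ₀ ∧
    ∀ Λ X : ℝ, Λ₀ ≤ Λ → 15 * Λ / 16 ≤ X → X ≤ XX P 0 Λ →
    ∃ σ, 0 ≤ σ ∧ σ ≤ 1 ∧ ∃ G, Flat P ε U D c σ Λ X G := by
  obtain ⟨D₁, hD₁, c₁, hc₁, h₁⟩ := hM.flatH (σ₂ := 1 / 2) (by norm_num) (by norm_num)
  obtain ⟨D₂, hD₂, c₂, hc₂, h₂⟩ := hM.flatL
  refine ⟨max D₁ D₂, lt_max_of_lt_left hD₁, min c₁ c₂, lt_min hc₁ hc₂,
    fun ε U hε hε1 hU => ?_⟩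
  obtain ⟨Λ₁, hΛ₁, h₁⟩ := h₁ ε U hε hε1 hU
  obtain ⟨Λ₂, hΛ₂, h₂⟩ := h₂ ε U hε hε1 hU
  refine ⟨Λ₁ + Λ₂, by linarith, fun Λ X hΛ hX hX2 => ?_⟩
  have hX0 : 0 < X := by linarith
  rcases le_total X (XX P (1 / 2) Λ) with h | h
  · obtain ⟨σ, hσ, hσ1, G, hG⟩ := h₁ Λ X (by linarith) hX h
    exact ⟨σ, by linarith, hσ1, G, hG.mono (le_max_left _ _) (min_le_left _ _) hX0⟩
  · obtain ⟨σ, hσ, hσ1, G, hG⟩ := h₂ Λ X (by linarith) h hX2
    exact ⟨σ, hσ, by linarith, G, hG.mono (le_max_right _ _) (min_le_right _ _) hX0⟩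

/-! ### Kernels -/

/-- a continuously differentiable kernel with exponential decay -/
structure Nice (k k' : ℝ → ℝ) (B : ℝ) : Prop where
  deriv : ∀ v, HasDerivAt k (k' v) v
  bound : ∀ v, |k v| + |k' v| ≤ B * rexp (-(2 * |v|))

lemma integrable_exp_abs {a : ℝ} (ha : 0 < a) : Integrable fun v : ℝ => rexp (-(a * |v|)) := by
  have h := integrable_comp_abs' (g := fun v => rexp (-(a * v)))
    (integrableOn_exp_neg ha)
  exact h

lemma integral_exp_abs : ∫ v : ℝ, rexp (-|v|) = 2 := by
  have h := integral_comp_abs (f := fun v => rexp (-v))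
  rw [h]
  have h2 := integral_exp_neg' one_pos
  simp only [one_mul] at h2
  rw [h2]
  norm_num

namespace Nice

variable {k k' : ℝ → ℝ} {B : ℝ} (hk : Nice k k' B)
include hk

lemma B_nonneg : 0 ≤ B := by
  have h := hk.bound 0
  simp at h
  have h1 := abs_nonneg (k 0)
  have h2 := abs_nonneg (k' 0)
  linarith

lemma abs_le (v : ℝ) : |k v| ≤ B * rexp (-(2 * |v|)) := by
  have := hk.bound v
  have := abs_nonneg (k' v)
  linarith

lemma abs_le' (v : ℝ) : |k' v| ≤ B * rexp (-(2 * |v|)) := by
  have := hk.bound v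
  have := abs_nonneg (k v)
  linarith

lemma continuous : Continuous k :=
  continuous_iff_continuousAt.mpr fun v => (hk.deriv v).continuousAt

lemma measurable' : Measurable k' := by
  have : k' = _root_.deriv k := by
    ext v
    exact ((hk.deriv v).deriv).symm
  rw [this]
  exact measurable_deriv k

lemma integrable : Integrable k := by
  refine Integrable.mono' ((integrable_exp_abs two_pos).const_mul B)
    hk.continuous.aestronglyMeasurable (Eventually.of_forall fun v => ?_)
  exact hk.abs_le v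

lemma integrable' : Integrable k' := by
  refine Integrable.mono' ((integrable_exp_abs two_pos).const_mul B)
    hk.measurable'.aestronglyMeasurable (Eventually.of_forall fun v => ?_)
  exact hk.abs_le' v

omit hk in
lemma tendsto_bound_top : Tendsto (fun v : ℝ => B * rexp (-(2 * |v|))) atTop (𝓝 0) := by
  have h1 : Tendsto (fun v : ℝ => 2 * |v|) atTop atTop :=
    tendsto_abs_atTop_atTop.const_mul_atTop two_pos
  have h2 := (tendsto_exp_neg_atTop_nhds_zero.comp h1).const_mul B
  rw [mul_zero] at h2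
  exact h2

omit hk in
lemma tendsto_bound_bot : Tendsto (fun v : ℝ => B * rexp (-(2 * |v|))) atBot (𝓝 0) := by
  have h1 : Tendsto (fun v : ℝ => 2 * |v|) atBot atTop :=
    tendsto_abs_atBot_atTop.const_mul_atTop two_pos
  have h2 := (tendsto_exp_neg_atTop_nhds_zero.comp h1).const_mul B
  rw [mul_zero] at h2
  exact h2

lemma tendsto_top : Tendsto k atTop (𝓝 0) :=
  squeeze_zero_norm (fun v => hk.abs_le v) tendsto_bound_top

lemma tendsto_bot : Tendsto k atBot (𝓝 0) :=
  squeeze_zero_norm (fun v => hk.abs_le v) tendsto_bound_bot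

lemma integral_deriv : ∫ v, k' v = 0 := by
  rw [integral_of_hasDerivAt_of_tendsto hk.deriv hk.integrable' hk.tendsto_bot hk.tendsto_top]
  ring

/-- reproducing formula -/
lemma repro (w : ℝ) : k w = ∫ v, kt 1 (w - v) * (k' v + k v) := by
  have h1 : ∀ v ∈ Iic w, HasDerivAt (fun v => rexp v * k v) (rexp v * (k' v + k v)) v := by
    intro v _
    have := (Real.hasDerivAt_exp v).mul (hk.deriv v)
    refine this.congr_deriv ?_
    ring
  have hint : IntegrableOn (fun v => rexp v * (k' v + k v)) (Iic w) := by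
    have hi : IntegrableOn (fun v => k' v + k v) (Iic w) :=
      (hk.integrable'.add hk.integrable).integrableOn
    refine Integrable.bdd_mul (c := rexp w) hi ?_ ?_
    · exact continuous_exp.aestronglyMeasurable
    · rw [ae_restrict_iff' measurableSet_Iic]
      refine Eventually.of_forall fun v hv => ?_
      rw [Real.norm_eq_abs, abs_of_pos (exp_pos v)]
      exact exp_le_exp.mpr hv
  have hlim : Tendsto (fun v => rexp v * k v) atBot (𝓝 0) := by
    have := Real.tendsto_exp_atBot.mul hk.tendsto_bot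
    rwa [zero_mul] at this
  have h2 := integral_Iic_of_hasDerivAt_of_tendsto' h1 hint hlim
  rw [sub_zero] at h2
  have h3 : ∫ v, kt 1 (w - v) * (k' v + k v) =
      rexp (-w) * ∫ v in Iic w, rexp v * (k' v + k v) := by
    rw [← integral_const_mul, ← integral_indicator measurableSet_Iic]
    congr 1
    ext v
    unfold kt
    by_cases h : v ≤ w
    · rw [indicator_of_mem (show v ∈ Iic w from h), if_pos (by linarith)]
      have : rexp (-(1 * (w - v))) = rexp (-w) * rexp v := by
        rw [← exp_add]; congr 1; ring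
      rw [this]; ring
    · rw [indicator_of_notMem (show v ∉ Iic w from h), if_neg (by linarith), zero_mul]
  rw [h3, h2, ← mul_assoc, ← exp_add]
  simp

lemma Ef_eq (σ Λ X : ℝ) :
    Ef (P Λ) (xs σ) lg (fun s => k (X - s)) = ∫ v, al P 1 σ Λ (X - v) * (k' v + k v) := by
  have hi : Integrable fun v => k' v + k v := hk.integrable'.add hk.integrable
  unfold al Ef
  simp_rw [div_mul_eq_mul_div, Finset.sum_mul]
  rw [integral_div, integral_finsetSum]
  · congr 1
    apply Finset.sum_congr rfl
    intro A _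
    rw [hk.repro (X - Sm lg A), ← integral_const_mul]
    congr 1
    ext v
    have : X - Sm lg A - v = X - v - Sm lg A := by ring
    rw [this]
    ring
  · intro A _
    have h := hi.bdd_mul (c := 1) (f := fun v => kt 1 (X - v - Sm lg A))
      (((measurable_kt 1).comp (by fun_prop)).aestronglyMeasurable) (by
        filter_upwards with t
        rw [Real.norm_eq_abs, abs_of_nonneg (kt_nonneg _ _)]
        exact kt_le_one zero_le_one _)
    refine (h.const_mul (Wt (xs σ) A)).congr ?_
    filter_upwards with t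
    ring

/-- the kernel sees the flat part only -/
theorem approx {ε U D c σ Λ X G : ℝ} (hf : Flat P ε U D c σ Λ X G) (hε : 0 < ε) (hD : 0 < D)
    (hX0 : 0 < X) (hX : X * rexp (-(X / 2)) ≤ ε * c) :
    G * ((∫ v, k v) - 2 * B * (2 * ε + (D + 1) * rexp (-U))) ≤
      Ef (P Λ) (xs σ) lg (fun s => k (X - s)) := by
  have hB := hk.B_nonneg
  have hG := hf.pos
  have hi : Integrable fun v => k' v + k v := hk.integrable'.add hk.integrable
  have hex : rexp (-(X / 2)) ≤ ε * G := by
    have h1 : rexp (-(X / 2)) ≤ ε * c / X := by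
      rw [le_div_iff₀ hX0]; linarith
    refine h1.trans ?_
    rw [mul_div_assoc]
    exact mul_le_mul_of_nonneg_left hf.low hε.le
  have hal : Integrable fun v => al P 1 σ Λ (X - v) * (k' v + k v) := by
    refine hi.bdd_mul (c := 1) (((measurable_al P 1 σ Λ).comp (by fun_prop)).aestronglyMeasurable)
      ?_
    filter_upwards with t
    rw [Real.norm_eq_abs, abs_of_nonneg (al_nonneg P 1 σ Λ _)]
    exact al_le_one P zero_le_one σ Λ _
  have hm : ∀ v, |k' v + k v| ≤ B * rexp (-(2 * |v|)) := by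
    intro v
    refine (abs_add_le _ _).trans ?_
    have := hk.bound v
    linarith
  have hpt : ∀ v, ‖(al P 1 σ Λ (X - v) - G) * (k' v + k v)‖ ≤
      B * G * (2 * ε + (D + 1) * rexp (-U)) * rexp (-|v|) := by
    intro v
    rw [Real.norm_eq_abs, abs_mul]
    have ha := al_nonneg P 1 σ Λ (X - v)
    have ha1 := al_le_one P zero_le_one σ Λ (X - v)
    have hv0 := abs_nonneg v
    have e2 : rexp (-(2 * |v|)) = rexp (-|v|) * rexp (-|v|) := by
      rw [← exp_add]; congr 1; ring
    have he1 : rexp (-|v|) ≤ 1 := by rw [exp_le_one_iff]; linarith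
    have key : |al P 1 σ Λ (X - v) - G| * rexp (-|v|) ≤ G * (2 * ε + (D + 1) * rexp (-U)) := by
      have n1 : 0 ≤ G * ((D + 1) * rexp (-U)) := by positivity
      have n2 : 0 ≤ ε * G := by positivity
      rcases le_or_gt |v| U with h | h
      · have h1 := hf.flat v h
        have h2 : |al P 1 σ Λ (X - v) - G| * rexp (-|v|) ≤ ε * G * 1 :=
          mul_le_mul h1 he1 (exp_pos _).le n2
        calc _ ≤ ε * G * 1 := h2
          _ ≤ _ := by rw [mul_add]; nlinarith only [n1, n2]
      · have he2 : rexp (-|v|) ≤ rexp (-U) := by rw [exp_le_exp]; linarith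
        rcases le_or_gt v (X / 2) with h' | h'
        · have h1 := hf.upper (X - v) (by linarith)
          have h2 : |al P 1 σ Λ (X - v) - G| ≤ (D + 1) * G := by
            rw [_root_.abs_le]; constructor <;> nlinarith only [ha, h1, hG]
          calc _ ≤ (D + 1) * G * rexp (-U) :=
                mul_le_mul h2 he2 (exp_pos _).le (by positivity)
            _ = G * ((D + 1) * rexp (-U)) := by ring
            _ ≤ _ := by rw [mul_add]; nlinarith only [n2]
        · have h1 : |al P 1 σ Λ (X - v) - G| ≤ 1 + G := by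
            rw [_root_.abs_le]; constructor <;> linarith
          have he3 : rexp (-|v|) ≤ rexp (-(X / 2)) := by
            rw [exp_le_exp, neg_le_neg_iff]
            exact h'.le.trans (le_abs_self v)
          have h3 : rexp (-|v|) ≤ ε * G := he3.trans hex
          have h4 : G * rexp (-|v|) ≤ G * rexp (-U) := mul_le_mul_of_nonneg_left he2 hG.le
          have h5 : 0 ≤ G * (D * rexp (-U)) := by positivity
          calc _ ≤ (1 + G) * rexp (-|v|) := mul_le_mul_of_nonneg_right h1 (exp_pos _).le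
            _ = rexp (-|v|) + G * rexp (-|v|) := by ring
            _ ≤ ε * G + G * rexp (-U) := add_le_add h3 h4
            _ ≤ _ := by nlinarith only [n2, h5]
    calc _ ≤ |al P 1 σ Λ (X - v) - G| * (B * rexp (-(2 * |v|))) :=
          mul_le_mul_of_nonneg_left (hm v) (abs_nonneg _)
      _ = B * (|al P 1 σ Λ (X - v) - G| * rexp (-|v|)) * rexp (-|v|) := by rw [e2]; ring
      _ ≤ B * (G * (2 * ε + (D + 1) * rexp (-U))) * rexp (-|v|) := by
          apply mul_le_mul_of_nonneg_right _ (exp_pos _).le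
          exact mul_le_mul_of_nonneg_left key hB
      _ = _ := by ring
  have hex1 : Integrable fun v : ℝ => rexp (-|v|) := by
    have := integrable_exp_abs one_pos
    simpa only [one_mul] using this
  have h1 := norm_integral_le_of_norm_le (hex1.const_mul _) (Eventually.of_forall hpt)
  rw [integral_const_mul, integral_exp_abs] at h1
  have h2 : ∫ v, (al P 1 σ Λ (X - v) - G) * (k' v + k v) =
      Ef (P Λ) (xs σ) lg (fun s => k (X - s)) - G * ∫ v, k v := by
    have e1 : ∀ v, (al P 1 σ Λ (X - v) - G) * (k' v + k v) =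
        al P 1 σ Λ (X - v) * (k' v + k v) - G * (k' v + k v) := fun v => by ring
    simp_rw [e1]
    rw [integral_sub hal (hi.const_mul G), integral_const_mul,
      integral_add hk.integrable' hk.integrable, hk.integral_deriv, zero_add, hk.Ef_eq]
  rw [h2, Real.norm_eq_abs] at h1
  have h3 := (_root_.abs_le.mp h1).1
  linarith

end Nice

end Pool.Agent.MP0016c7.Ros
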