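import Mathlib
import Pool.Agent.Lib.MP_0016c7_nt.FekKer
import Pool.Agent.Lib.MP_0016c7_nt.FekSer

open Real Set MeasureTheory Filter Topology

namespace Pool.Agent.MP0016c7.Ros

open DirichletCharacter

section bounds

variable {N : ℕ} [NeZero N] {χ : DirichletCharacter ℂ N}

lemma tt_pow_bound {y : ℝ} (hy : y ≤ 0) : (1 + tt y) * xx y ≤ 48 * rexp (3 * y) := by
  have ht : 1 ≤ tt y := by unfold tt; exact one_le_exp (by linarith)
  have h1 := Real.pow_div_factorial_le_exp (tt y) (by linarith) 4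
  have h2 : ((4 : ℕ).factorial : ℝ) = 24 := by norm_num [Nat.factorial]
  rw [h2] at h1
  have h3 : xx y * rexp (tt y) = 1 := by unfold xx; rw [← exp_add]; simp
  have hx := xx_pos y
  have h4 : tt y ^ 4 * xx y ≤ 24 := by
    have := mul_le_mul_of_nonneg_right h1 hx.le
    rw [mul_comm (rexp (tt y)), h3] at this
    linarith
  have h5 : rexp (3 * y) * tt y ^ 3 = 1 := by
    unfold tt
    rw [← exp_nat_mul, ← exp_add]
    simp only [Nat.cast_ofNat]
    have : 3 * y + 3 * -y = 0 := by ring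
    rw [this, exp_zero]
  have h6 : (1 + tt y) * xx y * tt y ^ 3 ≤ 48 := by
    have h7 : 0 ≤ tt y ^ 3 * xx y := by positivity
    nlinarith
  calc (1 + tt y) * xx y = (1 + tt y) * xx y * (rexp (3 * y) * tt y ^ 3) := by rw [h5, mul_one]
    _ = ((1 + tt y) * xx y * tt y ^ 3) * rexp (3 * y) := by ring
    _ ≤ 48 * rexp (3 * y) := mul_le_mul_of_nonneg_right h6 (exp_pos _).le

theorem gS_exp : ∃ C : ℝ, 0 ≤ C ∧ (∀ y, y ≤ 0 → |gS χ y| + |gS' χ y| ≤ C * rexp (3 * y)) ∧
    ∀ y, 0 ≤ y → |gS χ y| + |gS' χ y| ≤ C := by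
  obtain ⟨C, hC, h⟩ := gS_bound (χ := χ)
  refine ⟨48 * C, by positivity, fun y hy => ?_, fun y hy => ?_⟩
  · refine (h y).trans ?_
    have := mul_le_mul_of_nonneg_left (tt_pow_bound hy) hC
    linarith
  · refine (h y).trans ?_
    have ht1 : tt y ≤ 1 := by unfold tt; rw [exp_le_one_iff]; linarith
    have ht := tt_pos y
    have h1 : (1 + tt y) * xx y ≤ 2 * 1 :=
      mul_le_mul (by linarith) (xx_lt_one y).le (xx_pos y).le (by norm_num)
    have := mul_le_mul_of_nonneg_left h1 hC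
    linarith

lemma continuous_gS : Continuous (gS χ) :=
  continuous_iff_continuousAt.mpr fun y => (hasDerivAt_gS y).continuousAt

/-- exponential comparison for the main part -/
theorem gS_sub_bound {κ : ℕ} (hκ : κ ≤ 1) {B : Polynomial ℝ}
    (hB : Ap χ = (1 - Polynomial.X) ^ κ * B) : ∃ C : ℝ, 0 ≤ C ∧ ∀ s : ℝ, -(κ : ℝ) < s → s ≤ 1 →
    ∀ y, |rexp (-(s * y)) * (gS χ y -
      (if 0 < y then qB N B 1 * rexp (-(κ * y)) else 0))| ≤ C * rexp (-|y|) := by
  obtain ⟨C₁, hC₁, h1, _⟩ := gS_exp (χ := χ)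
  obtain ⟨C₂, hC₂, h2⟩ := gS_asymp hκ hB
  refine ⟨C₁ + C₂, by positivity, fun s hs hs1 y => ?_⟩
  rw [abs_mul, abs_of_pos (exp_pos _)]
  rcases lt_or_ge 0 y with hy | hy
  · rw [if_pos hy, abs_of_pos hy]
    have h3 := mul_le_mul_of_nonneg_left (h2 y hy.le) (exp_pos (-(s * y))).le
    refine h3.trans ?_
    have h4 : rexp (-(s * y)) * rexp (-((κ + 1) * y)) ≤ rexp (-y) := by
      rw [← exp_add, exp_le_exp]
      nlinarith
    have h5 : 0 ≤ C₁ * rexp (-y) := by positivity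
    calc _ = C₂ * (rexp (-(s * y)) * rexp (-((κ + 1) * y))) := by ring
      _ ≤ C₂ * rexp (-y) := mul_le_mul_of_nonneg_left h4 hC₂
      _ ≤ _ := by linarith
  · rw [if_neg (not_lt.mpr hy), sub_zero, abs_of_nonpos hy, neg_neg]
    have h3 : |gS χ y| ≤ C₁ * rexp (3 * y) := by
      have := h1 y hy
      have := abs_nonneg (gS' χ y)
      linarith
    have h4 := mul_le_mul_of_nonneg_left h3 (exp_pos (-(s * y))).le
    refine h4.trans ?_
    have h5 : rexp (-(s * y)) * rexp (3 * y) ≤ rexp y := by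
      rw [← exp_add, exp_le_exp]
      nlinarith
    have h6 : 0 ≤ C₂ * rexp y := by positivity
    calc _ = C₁ * (rexp (-(s * y)) * rexp (3 * y)) := by ring
      _ ≤ C₁ * rexp y := mul_le_mul_of_nonneg_left h5 hC₁
      _ ≤ _ := by linarith

lemma main_part (c : ℝ) {κ : ℕ} {s : ℝ} (hs : -(κ : ℝ) < s) :
    Integrable (fun y : ℝ => rexp (-(s * y)) * (if 0 < y then c * rexp (-(κ * y)) else 0)) ∧
    ∫ y : ℝ, rexp (-(s * y)) * (if 0 < y then c * rexp (-(κ * y)) else 0) = c / (s + κ) := by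
  have hp : 0 < s + κ := by linarith
  have e : (fun y : ℝ => rexp (-(s * y)) * (if 0 < y then c * rexp (-(κ * y)) else 0)) =
      (Ioi (0 : ℝ)).indicator (fun y => c * rexp (-((s + κ) * y))) := by
    ext y
    by_cases h : 0 < y
    · rw [if_pos h, indicator_of_mem (show y ∈ Ioi (0 : ℝ) from h)]
      have : rexp (-((s + κ) * y)) = rexp (-(s * y)) * rexp (-(κ * y)) := by
        rw [← exp_add]; congr 1; ring
      rw [this]; ring
    · rw [if_neg h, indicator_of_notMem (show y ∉ Ioi (0 : ℝ) from h), mul_zero]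
  rw [e]
  have hi := integrableOn_exp_neg hp
  constructor
  · rw [integrable_indicator_iff measurableSet_Ioi]
    exact hi.const_mul c
  · rw [integral_indicator measurableSet_Ioi, integral_const_mul, integral_exp_neg' hp]
    ring

/-- the Mellin integral -/
noncomputable def Mi (χ : DirichletCharacter ℂ N) (s : ℝ) : ℝ :=
  ∫ y : ℝ, rexp (-(s * y)) * gS χ y

theorem Mi_bound {κ : ℕ} (hκ : κ ≤ 1) {B : Polynomial ℝ}
    (hB : Ap χ = (1 - Polynomial.X) ^ κ * B) : ∃ C : ℝ, 0 ≤ C ∧ ∀ s : ℝ, -(κ : ℝ) < s → s ≤ 1 →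
    Integrable (fun y : ℝ => rexp (-(s * y)) * gS χ y) ∧
    |Mi χ s - qB N B 1 / (s + κ)| ≤ C := by
  obtain ⟨C, hC, h⟩ := gS_sub_bound hκ hB
  refine ⟨C * 2, by positivity, fun s hs hs1 => ?_⟩
  obtain ⟨i1, j1⟩ := main_part (qB N B 1) hs
  have hex1 : Integrable fun v : ℝ => rexp (-|v|) := by
    have := integrable_exp_abs one_pos
    simpa only [one_mul] using this
  have i2 : Integrable (fun y : ℝ => rexp (-(s * y)) * (gS χ y -
      (if 0 < y then qB N B 1 * rexp (-(κ * y)) else 0))) := by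
    refine Integrable.mono' (hex1.const_mul C) ?_ (Eventually.of_forall fun y => h s hs hs1 y)
    apply Measurable.aestronglyMeasurable
    apply Measurable.mul (by fun_prop)
    apply Measurable.sub continuous_gS.measurable
    exact Measurable.ite measurableSet_Ioi (by fun_prop) measurable_const
  have e : (fun y : ℝ => rexp (-(s * y)) * gS χ y) = fun y =>
      rexp (-(s * y)) * (gS χ y - (if 0 < y then qB N B 1 * rexp (-(κ * y)) else 0)) +
      rexp (-(s * y)) * (if 0 < y then qB N B 1 * rexp (-(κ * y)) else 0) := by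
    ext y; ring
  have i3 : Integrable (fun y : ℝ => rexp (-(s * y)) * gS χ y) := by
    rw [e]; exact i2.add i1
  refine ⟨i3, ?_⟩
  have e2 : Mi χ s - qB N B 1 / (s + κ) = ∫ y : ℝ, rexp (-(s * y)) * (gS χ y -
      (if 0 < y then qB N B 1 * rexp (-(κ * y)) else 0)) := by
    unfold Mi
    rw [e, integral_add i2 i1, j1]
    ring
  rw [e2]
  have h3 := norm_integral_le_of_norm_le (f := fun y : ℝ => rexp (-(s * y)) * (gS χ y -
      (if 0 < y then qB N B 1 * rexp (-(κ * y)) else 0))) (hex1.const_mul C)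
    (Eventually.of_forall fun y => h s hs hs1 y)
  rw [integral_const_mul, integral_exp_abs, Real.norm_eq_abs] at h3
  exact h3

/-- the residue -/
theorem Mi_residue {κ : ℕ} (hκ : κ ≤ 1) {B : Polynomial ℝ}
    (hB : Ap χ = (1 - Polynomial.X) ^ κ * B) :
    Tendsto (fun s : ℝ => (s + κ) * Mi χ s) (𝓝[>] (-(κ : ℝ))) (𝓝 (qB N B 1)) := by
  obtain ⟨C, hC, h⟩ := Mi_bound hκ hB
  have hκ0 : (0 : ℝ) ≤ κ := Nat.cast_nonneg κ
  rw [tendsto_iff_norm_sub_tendsto_zero]
  have h1 : Tendsto (fun s : ℝ => (s + κ) * C) (𝓝[>] (-(κ : ℝ))) (𝓝 0) := by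
    have h2 : Tendsto (fun s : ℝ => (s + κ) * C) (𝓝 (-(κ : ℝ))) (𝓝 ((-(κ : ℝ) + κ) * C)) := by
      apply Continuous.tendsto; fun_prop
    rw [neg_add_cancel, zero_mul] at h2
    exact h2.mono_left nhdsWithin_le_nhds
  refine squeeze_zero' (Eventually.of_forall fun s => norm_nonneg _) ?_ h1
  have hmem : Ioo (-(κ : ℝ)) 1 ∈ 𝓝[>] (-(κ : ℝ)) := Ioo_mem_nhdsGT (by linarith)
  filter_upwards [hmem] with s hs
  have h3 := (h s hs.1 hs.2.le).2
  have hp : 0 < s + κ := by linarith [hs.1]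
  have e : (s + κ) * Mi χ s - qB N B 1 = (s + κ) * (Mi χ s - qB N B 1 / (s + κ)) := by
    field_simp
  rw [e, norm_mul, Real.norm_eq_abs, Real.norm_eq_abs, abs_of_pos hp]
  exact mul_le_mul_of_nonneg_left h3 hp.le

end bounds

end Pool.Agent.MP0016c7.Ros
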