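import Mathlib

namespace Pool.Agent.MP0016c7.Ros

/-- The partial sum up to `x`, at the real exponent `s`, of the Dirichlet series of the character
induced by `χ` that ignores the integers not coprime to `Q`. -/
noncomputable def truncSum {N : ℕ} (χ : DirichletCharacter ℂ N) (Q : ℕ) (s : ℝ) (x : ℕ) : ℝ :=
  ∑ n ∈ Finset.Icc 1 x with n.Coprime Q, (χ (n : ZMod N)).re * (n : ℝ) ^ (-s)

open Classical in
/-- The product of the primes `p ≤ Y` with `χ p = -1`. -/
noncomputable def inertProduct {N : ℕ} (χ : DirichletCharacter ℂ N) (Y : ℕ) : ℕ :=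
  ∏ p ∈ (Finset.Icc 1 Y).filter fun p : ℕ => p.Prime ∧ χ (p : ZMod N) = -1, p

end Pool.Agent.MP0016c7.Ros
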