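import Mathlib
import Pool.Agent.Lib.MP_0016c7_nt.RosForward
import Pool.Agent.Lib.MP_0016c7_nt.RosDefs

open Real Set MeasureTheory Filter Topology

namespace Pool.Agent.MP0016c7.Ros

/-- coefficient -/
noncomputable def cQ {N : ℕ} (χ : DirichletCharacter ℂ N) (Q n : ℕ) : ℝ :=
  if n.Coprime Q then rchar χ n else 0

lemma xs_rpow {n : ℕ} (hn : 1 ≤ n) (s : ℝ) : xs s n = (n : ℝ) ^ (-s) := by
  have h0 : (0 : ℝ) < n := by exact_mod_cast hn
  unfold xs lg
  rw [Real.rpow_def_of_pos h0]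
  congr 1
  ring

lemma truncSum_eq {N : ℕ} (χ : DirichletCharacter ℂ N) (Q : ℕ) (s : ℝ) (x : ℕ) :
    truncSum χ Q s x = ∑ n ∈ Finset.Icc 1 x, cQ χ Q n * xs s n := by
  unfold truncSum
  rw [Finset.sum_filter]
  apply Finset.sum_congr rfl
  intro n hn
  have hn1 := (Finset.mem_Icc.mp hn).1
  unfold cQ
  split_ifs
  · rw [rchar_apply χ (by omega), xs_rpow hn1]
  · rw [zero_mul]

/-! ### Abel summation, two more forms -/

lemma abel_tel {w : ℕ → ℝ} {a b : ℕ} (hab : a ≤ b) :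
    ∑ n ∈ Finset.Ico a b, (w n - w (n + 1)) = w a - w b := by
  have h1 := Finset.sum_Ico_sub (fun n => -w n) hab
  simp only [neg_sub_neg] at h1
  exact h1

lemma raise_delta {c : ℕ → ℝ} {s t δ : ℝ} (hst : s ≤ t) {K : ℕ} (hK : 1 ≤ K)
    (h : ∀ k, 1 ≤ k → k ≤ K → δ ≤ ∑ n ∈ Finset.Icc 1 k, c n * xs s n) :
    δ ≤ ∑ n ∈ Finset.Icc 1 K, c n * xs t n := by
  have e : ∀ n : ℕ, c n * xs t n = c n * xs s n * xs (t - s) n := by
    intro n
    have : xs s n * xs (t - s) n = xs t n := by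
      unfold xs
      rw [← exp_add]
      congr 1
      ring
    rw [mul_assoc, this]
  simp_rw [e]
  rw [← Finset.Ico_add_one_right_eq_Icc, abel_id _ _ (by omega)]
  have hw : ∀ n : ℕ, 1 ≤ n → xs (t - s) (n + 1) ≤ xs (t - s) n := fun n hn =>
    xs_anti (by linarith) hn (by omega)
  have h1 : δ * xs (t - s) (K + 1) ≤
      (∑ n ∈ Finset.Ico 1 (K + 1), c n * xs s n) * xs (t - s) (K + 1) := by
    apply mul_le_mul_of_nonneg_right _ (xs_pos _ _).le
    rw [Finset.Ico_add_one_right_eq_Icc]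
    exact h K hK le_rfl
  have h2 : ∑ n ∈ Finset.Ico 1 (K + 1), δ * (xs (t - s) n - xs (t - s) (n + 1)) ≤
      ∑ n ∈ Finset.Ico 1 (K + 1), (∑ k ∈ Finset.Ico 1 (n + 1), c k * xs s k) *
        (xs (t - s) n - xs (t - s) (n + 1)) := by
    apply Finset.sum_le_sum
    intro n hn
    rw [Finset.mem_Ico] at hn
    apply mul_le_mul_of_nonneg_right _ (sub_nonneg.mpr (hw n hn.1))
    rw [Finset.Ico_add_one_right_eq_Icc]
    exact h n hn.1 (by omega)
  rw [← Finset.mul_sum, abel_tel (w := fun n => xs (t - s) n) (by omega)] at h2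
  have h3 : xs (t - s) 1 = 1 := by unfold xs lg; simp
  rw [h3] at h2
  linarith

lemma raise_pos {c : ℕ → ℝ} {s t : ℝ} (hst : s ≤ t) (hc : c 1 = 1) {K : ℕ} (hK : 1 ≤ K)
    (h : ∀ k, 1 ≤ k → k ≤ K → 0 ≤ ∑ n ∈ Finset.Icc 1 k, c n * xs s n) :
    1 - xs (t - s) 2 ≤ ∑ n ∈ Finset.Icc 1 K, c n * xs t n := by
  have e : ∀ n : ℕ, c n * xs t n = c n * xs s n * xs (t - s) n := by
    intro n
    have : xs s n * xs (t - s) n = xs t n := by
      unfold xs
      rw [← exp_add]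
      congr 1
      ring
    rw [mul_assoc, this]
  simp_rw [e]
  rw [← Finset.Ico_add_one_right_eq_Icc, abel_id _ _ (by omega)]
  have hw : ∀ n : ℕ, 1 ≤ n → xs (t - s) (n + 1) ≤ xs (t - s) n := fun n hn =>
    xs_anti (by linarith) hn (by omega)
  have h1 : 0 ≤ (∑ n ∈ Finset.Ico 1 (K + 1), c n * xs s n) * xs (t - s) (K + 1) := by
    apply mul_nonneg _ (xs_pos _ _).le
    rw [Finset.Ico_add_one_right_eq_Icc]
    exact h K hK le_rfl
  have hnn : ∀ n ∈ Finset.Ico 1 (K + 1), 0 ≤ (∑ k ∈ Finset.Ico 1 (n + 1), c k * xs s k) *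
        (xs (t - s) n - xs (t - s) (n + 1)) := by
    intro n hn
    rw [Finset.mem_Ico] at hn
    apply mul_nonneg _ (sub_nonneg.mpr (hw n hn.1))
    rw [Finset.Ico_add_one_right_eq_Icc]
    exact h n hn.1 (by omega)
  have h2 := Finset.single_le_sum hnn (Finset.mem_Ico.mpr ⟨le_rfl, by omega⟩ :
    1 ∈ Finset.Ico 1 (K + 1))
  have h3 : ∀ a : ℝ, xs a 1 = 1 := by intro a; unfold xs lg; simp
  have h4 : ∑ k ∈ Finset.Ico 1 (1 + 1), c k * xs s k = 1 := by
    rw [Finset.sum_Ico_succ_top le_rfl, Finset.Ico_self, Finset.sum_empty, zero_add, hc, h3,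
      one_mul]
  rw [h4, h3, one_mul] at h2
  linarith

section induced

variable {N : ℕ} [NeZero N] {χ : DirichletCharacter ℂ N} {Q : ℕ}

/-- the induced character -/
noncomputable def ind (χ : DirichletCharacter ℂ N) (Q : ℕ) : DirichletCharacter ℂ (N * Q) :=
  DirichletCharacter.changeLevel (Nat.dvd_mul_right N Q) χ

omit [NeZero N] in
lemma ind_sq (h2 : χ ^ 2 = 1) : ind χ Q ^ 2 = 1 := by
  unfold ind
  rw [← map_pow, h2, map_one]

lemma ind_ne (hQ : Q ≠ 0) (hne : χ ≠ 1) : ind χ Q ≠ 1 := by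
  have : NeZero (N * Q) := ⟨Nat.mul_ne_zero (NeZero.ne N) hQ⟩
  intro h
  exact hne ((DirichletCharacter.changeLevel_eq_one_iff _).mp h)

omit [NeZero N] in
lemma rchar_ind {n : ℕ} (hn : 1 ≤ n) : rchar (ind χ Q) n = cQ χ Q n := by
  rw [rchar_apply _ (by omega)]
  unfold cQ
  by_cases hc : n.Coprime Q
  · rw [if_pos hc, rchar_apply χ (by omega)]
    by_cases hcN : n.Coprime N
    · have h1 : IsCoprime (n : ℤ) ((N * Q : ℕ) : ℤ) := by
        rw [Nat.isCoprime_iff_coprime]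
        exact Nat.Coprime.mul_right hcN hc
      have h3 := DirichletCharacter.changeLevel_eq_cast_of_dvd' χ (Nat.dvd_mul_right N Q) h1
      rw [Int.cast_natCast, Int.cast_natCast] at h3
      unfold ind
      rw [h3]
    · have h1 : ¬ IsUnit ((n : ℕ) : ZMod N) := by
        rw [ZMod.isUnit_iff_coprime]; exact hcN
      have h3 : ¬ IsUnit ((n : ℕ) : ZMod (N * Q)) := by
        rw [ZMod.isUnit_iff_coprime]
        exact fun h => hcN (Nat.Coprime.coprime_mul_right_right h)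
      rw [χ.map_nonunit h1, (ind χ Q).map_nonunit h3]
  · rw [if_neg hc]
    have h3 : ¬ IsUnit ((n : ℕ) : ZMod (N * Q)) := by
      rw [ZMod.isUnit_iff_coprime]
      exact fun h => hc (Nat.Coprime.coprime_mul_left_right h)
    rw [(ind χ Q).map_nonunit h3, Complex.zero_re]

omit [NeZero N] in
lemma truncSum_eq_ind (s : ℝ) (x : ℕ) :
    truncSum χ Q s x = ∑ n ∈ Finset.Icc 1 x, rchar (ind χ Q) n * xs s n := by
  rw [truncSum_eq]
  apply Finset.sum_congr rfl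
  intro n hn
  rw [rchar_ind (Finset.mem_Icc.mp hn).1]

/-- the Euler factors are positive -/
lemma Lr_ind [NeZero (N * Q)] (hne : χ ≠ 1) (h2 : χ ^ 2 = 1) {s : ℝ} (hs : 0 < s) :
    ∃ r : ℝ, 0 < r ∧
      (DirichletCharacter.LFunction (ind χ Q) s).re = Lr χ s * r := by
  refine ⟨∏ p ∈ (N * Q).primeFactors, (1 - rchar χ p * xs s p), ?_, ?_⟩
  · apply Finset.prod_pos
    intro p hp
    have hp' := Nat.prime_of_mem_primeFactors hp
    have h3 : xs s p < 1 := by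
      unfold xs
      rw [exp_lt_one_iff, neg_lt_zero]
      exact mul_pos hs (lt_of_lt_of_le (Real.log_pos one_lt_two) (lg_two_le hp'))
    have h4 := abs_rchar_le h2 p
    have h5 : |rchar χ p * xs s p| < 1 := by
      rw [abs_mul, abs_of_pos (xs_pos s p)]
      calc |rchar χ p| * xs s p ≤ 1 * xs s p := mul_le_mul_of_nonneg_right h4 (xs_pos s p).le
        _ < 1 := by rw [one_mul]; exact h3
    linarith [(abs_lt.mp h5).2]
  · have h3 := DirichletCharacter.LFunction_changeLevel (Nat.dvd_mul_right N Q) χ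
      (s := (s : ℂ)) (Or.inl hne)
    unfold ind
    rw [h3]
    have h4 : ∏ p ∈ (N * Q).primeFactors, (1 - χ p * (p : ℂ) ^ (-(s : ℂ))) =
        ((∏ p ∈ (N * Q).primeFactors, (1 - rchar χ p * xs s p) : ℝ) : ℂ) := by
      push_cast
      apply Finset.prod_congr rfl
      intro p hp
      have hp' := Nat.prime_of_mem_primeFactors hp
      rw [ofReal_rchar h2 hp'.ne_zero, xs_cpow hp'.one_lt.le]
    rw [h4, Complex.re_mul_ofReal]
    rfl

/-- converse direction -/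
theorem back_delta (hQ : Q ≠ 0) (hne : χ ≠ 1) (h2 : χ ^ 2 = 1) {σ δ : ℝ} (hσ : 0 < σ)
    (hδ : 0 < δ) (h : ∀ x, 1 ≤ x → δ ≤ truncSum χ Q σ x) {s : ℝ} (hs : σ ≤ s) : 0 < Lr χ s := by
  have : NeZero (N * Q) := ⟨Nat.mul_ne_zero (NeZero.ne N) hQ⟩
  have hs0 : 0 < s := by linarith
  have h3 := tendsto_partial (ind_ne hQ hne) (ind_sq (Q := Q) h2) hs0
  have h4 : δ ≤ (DirichletCharacter.LFunction (ind χ Q) s).re := by
    refine ge_of_tendsto h3 ?_
    filter_upwards [eventually_ge_atTop 1] with K hK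
    apply raise_delta hs hK
    intro k hk _
    rw [← truncSum_eq_ind]
    exact h k hk
  obtain ⟨r, hr, hr'⟩ := Lr_ind (Q := Q) hne h2 hs0
  rw [hr'] at h4
  by_contra hcon
  rw [not_lt] at hcon
  have := mul_nonpos_of_nonpos_of_nonneg hcon hr.le
  linarith

theorem back_pos (hQ : Q ≠ 0) (hne : χ ≠ 1) (h2 : χ ^ 2 = 1) {σ : ℝ} (hσ : 0 < σ)
    (h : ∀ x, 1 ≤ x → 0 ≤ truncSum χ Q σ x) {s : ℝ} (hs : σ < s) : 0 < Lr χ s := by
  have : NeZero (N * Q) := ⟨Nat.mul_ne_zero (NeZero.ne N) hQ⟩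
  have hs0 : 0 < s := by linarith
  have h3 := tendsto_partial (ind_ne hQ hne) (ind_sq (Q := Q) h2) hs0
  have hx2 : xs (s - σ) 2 < 1 := by
    unfold xs
    rw [exp_lt_one_iff, neg_lt_zero]
    exact mul_pos (by linarith) (lt_of_lt_of_le (Real.log_pos one_lt_two) (lg_two_le Nat.prime_two))
  have h4 : 1 - xs (s - σ) 2 ≤ (DirichletCharacter.LFunction (ind χ Q) s).re := by
    refine ge_of_tendsto h3 ?_
    filter_upwards [eventually_ge_atTop 1] with K hK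
    apply raise_pos hs.le (by rw [rchar_one]) hK
    intro k hk _
    rw [← truncSum_eq_ind]
    exact h k hk
  obtain ⟨r, hr, hr'⟩ := Lr_ind (Q := Q) hne h2 hs0
  rw [hr'] at h4
  by_contra hcon
  rw [not_lt] at hcon
  have := mul_nonpos_of_nonpos_of_nonneg hcon hr.le
  linarith

/-- tail control for the finite certificate -/
theorem certificate (hQ : Q ≠ 0) (hne : χ ≠ 1) {σ : ℝ} (hσ : 0 < σ)
    {K : ℕ} (hK : ∀ x, 1 ≤ x → x ≤ K → 1 ≤ truncSum χ Q σ x)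
    (hK' : 1 + (N * Q : ℕ) * ((K + 1 : ℕ) : ℝ) ^ (-σ) ≤ truncSum χ Q σ K) :
    ∀ x, 1 ≤ x → 1 ≤ truncSum χ Q σ x := by
  have : NeZero (N * Q) := ⟨Nat.mul_ne_zero (NeZero.ne N) hQ⟩
  intro x hx
  rcases le_total x K with h | h
  · exact hK x hx h
  · have h3 : truncSum χ Q σ x = truncSum χ Q σ K +
        ∑ n ∈ Finset.Ico (K + 1) (x + 1), rchar (ind χ Q) n * xs σ n := by
      rw [truncSum_eq_ind, truncSum_eq_ind, ← Finset.Ico_add_one_right_eq_Icc,
        ← Finset.Ico_add_one_right_eq_Icc, Finset.sum_Ico_consecutive _ (by omega) (by omega)]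
    have h4 := abel_le (c := rchar (ind χ Q)) (w := fun n => xs σ n) (a := K + 1) (b := x + 1)
      (B := ((N * Q : ℕ) : ℝ)) (fun n => abs_block (ind_ne hQ hne) (by omega) n)
      (fun n hn => xs_anti hσ.le (by omega) (by omega)) (fun n _ => (xs_pos σ n).le)
    rw [xs_rpow (by omega)] at h4
    have h5 := (abs_le.mp h4).1
    rw [h3]
    linarith

end induced

/-! ### Products of inert primes -/

section inert

variable {N : ℕ} [NeZero N] {χ : DirichletCharacter ℂ N}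

lemma inertProduct_eq (h2 : χ ^ 2 = 1) {Y : ℕ} (hY : 1 ≤ Y) :
    inertProduct χ Y = ∏ p ∈ iP χ (lg Y), p := by
  classical
  unfold inertProduct
  apply Finset.prod_congr _ fun _ _ => rfl
  ext p
  rw [Finset.mem_filter, Finset.mem_Icc, mem_iP]
  constructor
  · rintro ⟨⟨h1, h3⟩, h4, h5⟩
    refine ⟨h4, ?_, ?_⟩
    · rw [rchar_apply χ h4.ne_zero, h5]; simp
    · unfold lg
      exact Real.log_le_log (by exact_mod_cast h4.pos) (by exact_mod_cast h3)
  · rintro ⟨h4, h5, h6⟩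
    refine ⟨⟨h4.one_lt.le, ?_⟩, h4, ?_⟩
    · unfold lg at h6
      rw [Real.log_le_log_iff (by exact_mod_cast h4.pos) (by exact_mod_cast hY)] at h6
      exact_mod_cast h6
    · rw [← ofReal_rchar h2 h4.ne_zero, h5]; simp

omit [NeZero N] in
lemma inertProduct_ne_zero (χ : DirichletCharacter ℂ N) (Y : ℕ) : inertProduct χ Y ≠ 0 := by
  classical
  unfold inertProduct
  rw [Finset.prod_ne_zero_iff]
  intro p hp
  rw [Finset.mem_filter] at hp
  exact hp.2.1.ne_zero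

lemma truncSum_inert (h2 : χ ^ 2 = 1) {Y : ℕ} (hY : 1 ≤ Y) (s : ℝ) (x : ℕ) :
    truncSum χ (inertProduct χ Y) s x = Fs (fc χ s) (iP χ (lg Y)) x := by
  rw [truncSum_eq]
  unfold Fs
  rw [Finset.sum_filter]
  apply Finset.sum_congr rfl
  intro n hn
  unfold cQ fc
  have h1 : n.Coprime (inertProduct χ Y) ↔ ∀ p ∈ iP χ (lg Y), ¬ p ∣ n := by
    rw [inertProduct_eq h2 hY, Nat.coprime_prod_right_iff]
    constructor
    · intro h p hp hd
      exact ((iP_prime hp).coprime_iff_not_dvd.mp (h p hp).symm) hd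
    · intro h p hp
      exact ((iP_prime hp).coprime_iff_not_dvd.mpr (h p hp)).symm
  by_cases h : n.Coprime (inertProduct χ Y)
  · rw [if_pos h, if_pos (h1.mp h)]
  · rw [if_neg h, if_neg (fun h' => h (h1.mpr h')), zero_mul]

theorem forward_eventually (hne : χ ≠ 1) (h2 : χ ^ 2 = 1) {σ : ℝ} (h0 : 0 < σ) (h1 : σ < 1)
    (hL : ∀ s, σ ≤ s → s < 1 → 0 < Lr χ s) :
    ∀ᶠ Y : ℕ in atTop, ∀ x, 1 ≤ x → 1 ≤ truncSum χ (inertProduct χ Y) σ x := by
  obtain ⟨Λ₀, hΛ₀⟩ := forward hne h2 h0 h1 hL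
  have h3 : Tendsto (fun Y : ℕ => lg Y) atTop atTop := by
    unfold lg
    exact Real.tendsto_log_atTop.comp tendsto_natCast_atTop_atTop
  filter_upwards [h3.eventually_ge_atTop Λ₀, eventually_ge_atTop 1] with Y hY hY1 x hx
  rw [truncSum_inert h2 hY1]
  exact hΛ₀ _ hY x hx

theorem forward_certificate (hne : χ ≠ 1) (h2 : χ ^ 2 = 1) {σ : ℝ} (h0 : 0 < σ) (h1 : σ < 1)
    (hL : ∀ s, σ ≤ s → s < 1 → 0 < Lr χ s) :
    ∃ Q : ℕ, Q ≠ 0 ∧ ∃ K : ℕ, (∀ x, 1 ≤ x → x ≤ K → 1 ≤ truncSum χ Q σ x) ∧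
      1 + (N * Q : ℕ) * ((K + 1 : ℕ) : ℝ) ^ (-σ) ≤ truncSum χ Q σ K := by
  obtain ⟨Λ₀, hΛ₀⟩ := forward hne h2 h0 h1 hL
  obtain ⟨C₀, C₁, Cs, hM⟩ := exists_mdat χ h2 hne
  have hL₀ : 0 < Lr χ σ := hL σ le_rfl h1
  obtain ⟨Λ₄, hΛ₄, hg3⟩ := hM.growth (s := σ) h1 (4 / Lr χ σ)
  have h3 : Tendsto (fun Y : ℕ => lg Y) atTop atTop := by
    unfold lg
    exact Real.tendsto_log_atTop.comp tendsto_natCast_atTop_atTop
  obtain ⟨Y, hY0, hY4, hY1⟩ := ((h3.eventually_ge_atTop Λ₀).and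
    ((h3.eventually_ge_atTop Λ₄).and (eventually_ge_atTop 1))).exists
  set Q := inertProduct χ Y with hQ
  have hQ0 : Q ≠ 0 := inertProduct_ne_zero χ Y
  set Z₀ := Zt (iP χ (lg Y)) (xs σ) with hZ₀
  have hZ₀ge : 4 / Lr χ σ ≤ Z₀ := by
    have h5 := hg3 (lg Y) hY4
    have h6 := one_add_sum_le (P := iP χ (lg Y)) (f := xs σ) fun p _ => (xs_pos σ p).le
    have h7 : ∑ p ∈ iP χ (lg Y) with ¬ (lg p ≤ lg Y / 2), xs σ p ≤ ∑ p ∈ iP χ (lg Y), xs σ p :=
      Finset.sum_le_sum_of_subset_of_nonneg (Finset.filter_subset _ _)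
          fun p _ _ => (xs_pos _ p).le
    have h8 : Z₀ = ∏ p ∈ iP χ (lg Y), (1 + xs σ p) := rfl
    rw [h8]
    linarith
  have hlim : 4 ≤ Lr χ σ * Z₀ := by
    have h5 := mul_le_mul_of_nonneg_left hZ₀ge hL₀.le
    have h6 : Lr χ σ * (4 / Lr χ σ) = 4 := by field_simp
    linarith
  -- the limit
  have hbound : ∀ K : ℕ, 1 ≤ K → |truncSum χ Q σ K - Lr χ σ * Z₀| ≤
      N * (rexp (-(σ / 2 * lg K)) * Zt (iP χ (lg Y)) (xs (σ - σ / 2))) := by
    intro K hK
    have h5 := rankin (P := iP χ (lg Y)) hne h2 (fun p hp => iP_prime hp)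
      (fun p hp => ((mem_iP χ).mp hp).2.1) (s := σ) (θ := σ / 2) (X := lg K) h0 (by linarith)
      (by linarith)
    rw [floor_exp_lg hK] at h5
    rw [truncSum_inert h2 hY1]
    exact h5
  have hzero : Tendsto (fun K : ℕ =>
      (N : ℝ) * (rexp (-(σ / 2 * lg K)) * Zt (iP χ (lg Y)) (xs (σ - σ / 2)))) atTop (𝓝 0) := by
    have h5 : Tendsto (fun K : ℕ => rexp (-(σ / 2 * lg K))) atTop (𝓝 0) :=
      Real.tendsto_exp_neg_atTop_nhds_zero.comp (h3.const_mul_atTop (by linarith))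
    have h6 := (h5.mul_const (Zt (iP χ (lg Y)) (xs (σ - σ / 2)))).const_mul (N : ℝ)
    simpa using h6
  have hzero2 : Tendsto (fun K : ℕ => ((N * Q : ℕ) : ℝ) * ((K + 1 : ℕ) : ℝ) ^ (-σ)) atTop
      (𝓝 0) := by
    have h5 := (tendsto_xs h0).const_mul ((N * Q : ℕ) : ℝ)
    rw [mul_zero] at h5
    refine h5.congr fun K => ?_
    rw [xs_rpow (by omega)]
  obtain ⟨K, hK1, hK2, hK3⟩ := ((hzero.eventually (gt_mem_nhds (by norm_num : (0 : ℝ) < 1))).and
    ((hzero2.eventually (gt_mem_nhds (by norm_num : (0 : ℝ) < 1))).and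
      (eventually_ge_atTop 1))).exists
  refine ⟨Q, hQ0, K, fun x hx _ => ?_, ?_⟩
  · rw [truncSum_inert h2 hY1]
    exact hΛ₀ _ hY0 x hx
  · have h5 := (abs_le.mp (hbound K hK3)).1
    linarith

end inert

end Pool.Agent.MP0016c7.Ros
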