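import Mathlib
import Pool.Agent.Lib.MP_0016c7_nt.FekDefs
import Pool.Agent.Lib.MP_0016c7_nt.FekPos
import Pool.Agent.Lib.MP_0016c7_nt.FekPos2
import Pool.Agent.Lib.MP_0016c7_nt.RosBack

open Real Set MeasureTheory Filter Topology

namespace Pool.Agent.MP0016c7.Ros

open Pool.Agent.MP0016c7.Fek

section induced

variable {N : ℕ} [NeZero N] {χ : DirichletCharacter ℂ N} {Q : ℕ}

omit [NeZero N] in
lemma indChar_eq (hN : N ≠ 1) (n : ℕ) : indChar χ Q n = rchar (ind χ Q) n := by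
  rcases Nat.eq_zero_or_pos n with rfl | hn
  · unfold indChar
    rw [Nat.cast_zero, χ.map_zero' hN, Complex.zero_re]
    simp
  · rw [rchar_ind hn]
    unfold indChar cQ
    rw [rchar_apply χ hn.ne']

omit [NeZero N] in
lemma indChar_zero (hN : N ≠ 1) : indChar χ Q 0 = 0 := by
  rw [indChar_eq hN]; simp

omit [NeZero N] in
lemma indChar_one : indChar χ Q 1 = 1 := by
  unfold indChar
  rw [if_pos (Nat.coprime_one_left Q)]
  simp

omit [NeZero N] in
lemma mul_ne_one (hN : N ≠ 1) : N * Q ≠ 1 := by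
  intro h
  exact hN (Nat.eq_one_of_mul_eq_one_right h)

omit [NeZero N] in
lemma indChar_period (hN : N ≠ 1) (n : ℕ) : indChar χ Q (n + N * Q) = indChar χ Q n := by
  rw [indChar_eq hN, indChar_eq hN, rchar_add_N (mul_ne_one hN)]

omit [NeZero N] in
lemma fekete_eval (x : ℝ) : (feketePoly χ Q).eval x =
    ∑ n ∈ Finset.range (N * Q), indChar χ Q n * x ^ n := by
  unfold feketePoly
  rw [Polynomial.eval_finsetSum]
  simp

omit [NeZero N] in
lemma period_tsum [NeZero (N * Q)] (hN : N ≠ 1) (h2 : χ ^ 2 = 1) {x : ℝ} (hx0 : 0 ≤ x)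
    (hx1 : x < 1) :
    (∑' n : ℕ, rchar (ind χ Q) n * x ^ n) * (1 - x ^ (N * Q)) = (feketePoly χ Q).eval x := by
  have hs := summable_rchar (χ := ind χ Q) (ind_sq h2) hx0 hx1
  have h1 := hs.sum_add_tsum_nat_add (N * Q)
  set F := ∑' n : ℕ, rchar (ind χ Q) n * x ^ n with hF
  have h3 : ∑' n : ℕ, rchar (ind χ Q) (n + N * Q) * x ^ (n + N * Q) = x ^ (N * Q) * F := by
    rw [hF, ← tsum_mul_left]
    congr 1
    ext n
    rw [rchar_add_N (mul_ne_one hN), pow_add]
    ring
  rw [h3] at h1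
  have h4 : (feketePoly χ Q).eval x =
      ∑ i ∈ Finset.range (N * Q), rchar (ind χ Q) i * x ^ i := by
    rw [fekete_eval]
    apply Finset.sum_congr rfl
    intro n _
    rw [indChar_eq hN]
  rw [h4]
  linarith

omit [NeZero N] in
lemma one_sub_pow_pos [NeZero (N * Q)] {x : ℝ} (hx0 : 0 ≤ x) (hx1 : x < 1) :
    0 < 1 - x ^ (N * Q) := by
  have := pow_lt_one₀ hx0 hx1 (NeZero.ne (N * Q))
  linarith

/-- positivity of the Fekete polynomial gives positivity of the L-function -/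
theorem fek_back (hQ : Q ≠ 0) (hne : χ ≠ 1) (h2 : χ ^ 2 = 1)
    (h : ∀ x : ℝ, 0 < x → x < 1 → 0 < (feketePoly χ Q).eval x) {s : ℝ} (hs : 0 < s)
    (hs1 : s ≤ 1) : 0 < Lr χ s := by
  have : NeZero (N * Q) := ⟨Nat.mul_ne_zero (NeZero.ne N) hQ⟩
  have hN := modulus_ne_one hne
  set χ' := ind χ Q with hχ'
  have hne' : χ' ≠ 1 := ind_ne hQ hne
  have h2' : χ' ^ 2 = 1 := ind_sq h2
  have hg : ∀ y, 0 < gS χ' y := by
    intro y
    have h3 := period_tsum (Q := Q) hN h2 (xx_pos y).le (xx_lt_one y)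
    rw [← hχ', tsum_rchar hne' h2' (xx_pos y).le (xx_lt_one y)] at h3
    have h4 := h _ (xx_pos y) (xx_lt_one y)
    have h5 := one_sub_pow_pos (N := N) (Q := Q) (xx_pos y).le (xx_lt_one y)
    rw [← h3] at h4
    exact pos_of_mul_pos_left h4 h5.le
  have hB : Ap χ' = (1 - Polynomial.X) ^ 0 * Ap χ' := by rw [pow_zero, one_mul]
  obtain ⟨C, _, hC⟩ := Mi_bound (by norm_num) hB
  have hi := (hC s (by simpa using hs) hs1).1
  have hMi : 0 < Mi χ' s := by
    unfold Mi
    rw [integral_pos_iff_support_of_nonneg (fun y => (mul_pos (exp_pos _) (hg y)).le) hi]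
    have : Function.support (fun y : ℝ => rexp (-(s * y)) * gS χ' y) = univ := by
      ext y
      simp only [Function.mem_support, mem_univ, iff_true]
      exact (mul_pos (exp_pos _) (hg y)).ne'
    rw [this]
    simp
  have h3 := mellin_fC hne' h2' (s := (s : ℂ)) (by simpa using hs)
  rw [mellin_fC_real, LFunction_eq_Lr hne' h2' hs, Complex.Gamma_ofReal,
    ← Complex.ofReal_mul] at h3
  have h4 : Mi χ' s = Real.Gamma s * Lr χ' s := by
    unfold Mi
    exact_mod_cast h3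
  rw [h4] at hMi
  have hΓ : 0 < Real.Gamma s := Real.Gamma_pos_of_pos hs
  have h5 : 0 < Lr χ' s := pos_of_mul_pos_right hMi hΓ.le
  obtain ⟨r, hr, hr'⟩ := Lr_ind (Q := Q) hne h2 hs
  have h6 : Lr χ' s = Lr χ s * r := hr'
  rw [h6] at h5
  exact pos_of_mul_pos_left h5 hr.le

omit [NeZero N] in
/-- a Fekete polynomial without zeros in `(0, 1)` is positive there -/
lemma fekete_pos_of_ne [NeZero (N * Q)] (hN : N ≠ 1)
    (h : ∀ x : ℝ, 0 < x → x < 1 → (feketePoly χ Q).eval x ≠ 0) {x : ℝ} (hx0 : 0 < x)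
    (hx1 : x < 1) : 0 < (feketePoly χ Q).eval x := by
  obtain ⟨m, hm⟩ : ∃ m, N * Q = m + 2 := by
    have h1 := NeZero.ne (N * Q)
    have h3 := mul_ne_one (Q := Q) hN
    exact ⟨N * Q - 2, by omega⟩
  set R : ℝ → ℝ := fun x => ∑ n ∈ Finset.range (m + 1), indChar χ Q (n + 1) * x ^ n with hR
  have hfac : ∀ x, (feketePoly χ Q).eval x = x * R x := by
    intro x
    rw [fekete_eval, hm, Finset.sum_range_succ', indChar_zero hN, zero_mul, add_zero, hR]
    simp only
    rw [Finset.mul_sum]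
    apply Finset.sum_congr rfl
    intro n _
    ring
  have hR0 : R 0 = 1 := by
    rw [hR]
    simp only
    rw [Finset.sum_range_succ']
    simp only [zero_add, pow_zero, mul_one, indChar_one]
    have : ∑ k ∈ Finset.range m, indChar χ Q (k + 1 + 1) * (0 : ℝ) ^ (k + 1) = 0 := by
      apply Finset.sum_eq_zero
      intro k _
      rw [zero_pow (Nat.succ_ne_zero k), mul_zero]
    rw [this, zero_add]
  rw [hfac]
  apply mul_pos hx0
  by_contra hcon
  rw [not_lt] at hcon
  have hc : Continuous R := by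
    rw [hR]
    apply continuous_finsetSum
    intro n _
    fun_prop
  obtain ⟨z, hz, hz0⟩ := intermediate_value_Icc' (f := R) hx0.le hc.continuousOn
    ⟨hcon, by rw [hR0]; exact zero_le_one⟩
  have hzne : z ≠ 0 := by
    rintro rfl
    rw [hR0] at hz0
    exact one_ne_zero hz0
  have hz1 : 0 < z := lt_of_le_of_ne hz.1 (Ne.symm hzne)
  exact h z hz1 (lt_of_le_of_lt hz.2 hx1) (by rw [hfac, hz0, mul_zero])

end induced

end Pool.Agent.MP0016c7.Ros
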