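import Pool.Agent.Lib.MP_0016c7_nt.FekDefs

namespace Pool.Agent.MP0016c7.Fek

open Finset

/-! ### Generating functions of iterated sums -/

theorem mk_iterSum_succ (a : ℕ → ℝ) (k : ℕ) :
    PowerSeries.mk (iterSum a (k + 1)) * (1 - PowerSeries.X) = PowerSeries.mk (iterSum a k) := by
  have h1 : PowerSeries.mk (iterSum a (k + 1)) =
      PowerSeries.mk (iterSum a k) * PowerSeries.mk (1 : ℕ → ℝ) := by
    ext n
    rw [PowerSeries.coeff_mul]
    simp only [PowerSeries.coeff_mk, Pi.one_apply, mul_one]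
    rw [Finset.Nat.sum_antidiagonal_eq_sum_range_succ_mk]
    rfl
  rw [h1, mul_assoc, PowerSeries.mk_one_mul_one_sub_eq_one, mul_one]

theorem mk_iterSum (a : ℕ → ℝ) (k : ℕ) :
    PowerSeries.mk (iterSum a k) * (1 - PowerSeries.X) ^ k = PowerSeries.mk a := by
  induction k with
  | zero => simp [iterSum]
  | succ k ih => rw [pow_succ', ← mul_assoc, mk_iterSum_succ, ih]

/-- The polynomial of one period. -/
noncomputable def perPoly (a : ℕ → ℝ) (M : ℕ) : Polynomial ℝ :=
  ∑ n ∈ range M, Polynomial.C (a n) * Polynomial.X ^ n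

theorem perPoly_eval (a : ℕ → ℝ) (M : ℕ) (x : ℝ) :
    (perPoly a M).eval x = ∑ n ∈ range M, a n * x ^ n := by
  simp [perPoly, Polynomial.eval_finsetSum]

theorem perPoly_coeff (a : ℕ → ℝ) (M n : ℕ) :
    (perPoly a M).coeff n = if n < M then a n else 0 := by
  simp [perPoly, Polynomial.coeff_X_pow]

theorem mk_mul_one_sub {M : ℕ} {a : ℕ → ℝ} (hper : ∀ n, a (n + M) = a n) :
    PowerSeries.mk a * (1 - PowerSeries.X ^ M) = (perPoly a M : PowerSeries ℝ) := by
  ext n
  rw [mul_sub, mul_one, map_sub, PowerSeries.coeff_mul_X_pow', PowerSeries.coeff_mk,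
    PowerSeries.coeff_mk, Polynomial.coeff_coe, perPoly_coeff]
  by_cases h : M ≤ n
  · have := hper (n - M)
    rw [Nat.sub_add_cancel h] at this
    rw [if_pos h, if_neg (by omega), this, sub_self]
  · rw [if_neg h, if_pos (by omega), sub_zero]

/-! ### The positivity lemma -/

theorem choose_prod (d n : ℕ) (i : ℕ) (hid : i ≤ d) :
    (if i ≤ n then ((d + (n - i)).choose d : ℝ) else 0) =
      ((d + n).choose d : ℝ) * ∏ l ∈ range i, (((n : ℝ) - l) / ((n : ℝ) + d - l)) := by
  induction i with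
  | zero => simp
  | succ i ih =>
    rw [prod_range_succ, ← mul_assoc, ← ih (by omega)]
    have hpos : (0 : ℝ) < (n : ℝ) + d - i := by
      have : (i : ℝ) + 1 ≤ d := by exact_mod_cast hid
      have : (0 : ℝ) ≤ n := Nat.cast_nonneg n
      linarith
    rcases lt_trichotomy i n with h | h | h
    · rw [if_pos (by omega), if_pos (by omega)]
      obtain ⟨j, rfl⟩ : ∃ j, n = i + 1 + j := ⟨n - (i + 1), by omega⟩
      have e1 : i + 1 + j - (i + 1) = j := by omega
      have e2 : i + 1 + j - i = j + 1 := by omega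
      rw [e1, e2]
      have := Nat.choose_mul_succ_eq (d + j) d
      rw [show d + j + 1 - d = j + 1 by omega] at this
      have h2 : ((d + j).choose d : ℝ) * ((d : ℝ) + j + 1) =
          ((d + (j + 1)).choose d : ℝ) * ((j : ℝ) + 1) := by exact_mod_cast this
      push_cast at hpos ⊢
      rw [← mul_div_assoc, eq_div_iff (by linarith)]
      linear_combination h2
    · subst h
      simp
    · rw [if_neg (by omega), if_neg (by omega)]
      simp

theorem prod_sub_pow_le {D d n i : ℕ} (hd : 2 * D + 1 ≤ d) (hi : i ≤ D) :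
    |∏ l ∈ range i, (((n : ℝ) - l) / ((n : ℝ) + d - l)) - ((n : ℝ) / (n + d)) ^ i| ≤
      i * (D / (d - D)) := by
  have hdR : 2 * (D : ℝ) + 1 ≤ d := by exact_mod_cast hd
  have hn : (0 : ℝ) ≤ n := Nat.cast_nonneg n
  have hD : (0 : ℝ) ≤ D := Nat.cast_nonneg D
  induction i with
  | zero => simp
  | succ i ih =>
    have ih := ih (by omega)
    have hiD : (i : ℝ) + 1 ≤ D := by exact_mod_cast hi
    have hi0 : (0 : ℝ) ≤ i := Nat.cast_nonneg i
    rw [prod_range_succ, pow_succ]
    set A := ∏ l ∈ range i, (((n : ℝ) - l) / ((n : ℝ) + d - l)) with hA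
    set u := (n : ℝ) / (n + d) with hu
    set v := ((n : ℝ) - i) / ((n : ℝ) + d - i) with hv
    have hu0 : 0 ≤ u := by positivity
    have hu1 : u ≤ 1 := by
      rw [hu, div_le_one (by linarith only [hdR, hiD])]
      linarith only [hdR, hiD]
    have hv1 : |v| ≤ 1 := by
      rw [hv, abs_div, abs_of_pos (show (0 : ℝ) < (n : ℝ) + d - i by linarith only [hdR, hiD]),
        div_le_one (by linarith), abs_le]
      constructor <;> linarith only [hdR, hiD]
    have huv : |v - u| ≤ D / (d - D) := by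
      have h1 : v - u = -(i * d) / (((n : ℝ) + d - i) * (n + d)) := by
        rw [hv, hu, div_sub_div _ _ (by linarith only [hdR, hiD]) (by linarith)]
        congr 1
        ring
      rw [h1, abs_div, abs_neg, abs_of_nonneg (by positivity),
        abs_of_pos (mul_pos (by linarith only [hdR, hiD]) (by linarith only [hdR, hiD])), div_le_div_iff₀
        (mul_pos (by linarith) (by linarith)) (by linarith)]
      have h2 : (i : ℝ) * d * (d - D) ≤ D * ((d - D) * d) := by
        have : (i : ℝ) * (d * (d - D)) ≤ D * (d * (d - D)) :=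
          mul_le_mul_of_nonneg_right (by linarith) (mul_nonneg (by linarith) (by linarith))
        linarith
      have h3 : (D : ℝ) * ((d - D) * d) ≤ D * ((n + d - i) * (n + d)) := by
        apply mul_le_mul_of_nonneg_left _ hD
        apply mul_le_mul <;> linarith only [hdR, hiD]
      linarith only [h2, h3]
    have e : A * v - u ^ i * u = (A - u ^ i) * v + u ^ i * (v - u) := by ring
    rw [e]
    have hui : |u ^ i| ≤ 1 := by
      rw [abs_of_nonneg (by positivity)]
      exact pow_le_one₀ hu0 hu1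
    calc |(A - u ^ i) * v + u ^ i * (v - u)|
        ≤ |(A - u ^ i) * v| + |u ^ i * (v - u)| := abs_add_le _ _
      _ = |A - u ^ i| * |v| + |u ^ i| * |v - u| := by rw [abs_mul, abs_mul]
      _ ≤ |A - u ^ i| * 1 + 1 * |v - u| :=
          add_le_add (mul_le_mul_of_nonneg_left hv1 (abs_nonneg _))
            (mul_le_mul_of_nonneg_right hui (abs_nonneg _))
      _ ≤ i * (D / (d - D)) + D / (d - D) := by linarith only [ih, huv]
      _ = ((i + 1 : ℕ) : ℝ) * (D / (d - D)) := by push_cast; ring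

/-- If `Q` is positive on `[0, 1]`, then `Q (1 - X)⁻ᵏ` has nonnegative coefficients for some
`k`. -/
theorem exists_nonneg_coeff (Q : Polynomial ℝ) (hQ : ∀ x ∈ Set.Icc (0 : ℝ) 1, 0 < Q.eval x) :
    ∃ d : ℕ, ∀ n, 0 ≤ PowerSeries.coeff n
      ((Q : PowerSeries ℝ) * (PowerSeries.invOneSubPow ℝ (d + 1)).val) := by
  obtain ⟨δ, hδ0, hδ⟩ : ∃ δ > 0, ∀ x ∈ Set.Icc (0 : ℝ) 1, δ ≤ Q.eval x := by
    obtain ⟨x, hx, hmin⟩ := isCompact_Icc.exists_isMinOn (Set.nonempty_Icc.2 zero_le_one)
      (Q.continuous.continuousOn (s := Set.Icc (0 : ℝ) 1))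
    exact ⟨Q.eval x, hQ x hx, fun y hy => hmin hy⟩
  set D := Q.natDegree with hD
  set S := ∑ i ∈ range (D + 1), |Q.coeff i| * (i * D) with hS
  have hS0 : 0 ≤ S := sum_nonneg fun i _ => by (clear * -; positivity)
  obtain ⟨d, hd⟩ := exists_nat_ge ((2 * D + 1 : ℝ) + S / δ)
  have hSδ : 0 ≤ S / δ := by (clear * - hδ0; positivity)
  have hdD : 2 * D + 1 ≤ d := by
    have : (2 * D + 1 : ℝ) ≤ d := by linarith only [hd, hSδ]
    exact_mod_cast this
  have hdR : (2 * D + 1 : ℝ) ≤ d := by exact_mod_cast hdD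
  have hD0 : (0 : ℝ) ≤ D := Nat.cast_nonneg D
  refine ⟨d, fun n => ?_⟩
  have key : PowerSeries.coeff n
      ((Q : PowerSeries ℝ) * (PowerSeries.invOneSubPow ℝ (d + 1)).val) =
      ((d + n).choose d : ℝ) * ∑ i ∈ range (D + 1), Q.coeff i *
        ∏ l ∈ range i, (((n : ℝ) - l) / ((n : ℝ) + d - l)) := by
    rw [PowerSeries.coeff_mul, Finset.Nat.sum_antidiagonal_eq_sum_range_succ_mk,
      PowerSeries.invOneSubPow_val_succ_eq_mk_add_choose]
    simp only [PowerSeries.coeff_mk, Polynomial.coeff_coe]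
    rw [mul_sum]
    have h1 : ∀ i ∈ range (D + 1), ((d + n).choose d : ℝ) * (Q.coeff i *
        ∏ l ∈ range i, (((n : ℝ) - l) / ((n : ℝ) + d - l))) =
        if i ≤ n then Q.coeff i * ((d + (n - i)).choose d : ℝ) else 0 := by
      intro i hi
      rw [mem_range] at hi
      have := choose_prod d n i (by omega)
      rw [show ((d + n).choose d : ℝ) * (Q.coeff i *
        ∏ l ∈ range i, (((n : ℝ) - l) / ((n : ℝ) + d - l))) = Q.coeff i *
        (((d + n).choose d : ℝ) * ∏ l ∈ range i, (((n : ℝ) - l) / ((n : ℝ) + d - l))) by ring,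
        ← this]
      split_ifs <;> simp
    rw [sum_congr rfl h1, ← sum_filter]
    symm
    apply sum_subset_zero_on_sdiff
    · intro i hi
      simp only [mem_filter, mem_range] at hi ⊢
      omega
    · intro i hi
      simp only [mem_filter, mem_range, mem_sdiff] at hi
      rw [Polynomial.coeff_eq_zero_of_natDegree_lt (by omega), zero_mul]
    · intro i _
      rfl
  rw [key]
  apply mul_nonneg (Nat.cast_nonneg _)
  set u := (n : ℝ) / (n + d) with hu
  have hn : (0 : ℝ) ≤ n := Nat.cast_nonneg n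
  have hu0 : 0 ≤ u := by (clear * -; positivity)
  have hu1 : u ≤ 1 := by
    rw [hu, div_le_one (by linarith)]
    linarith
  have hQu := hδ u ⟨hu0, hu1⟩
  rw [Polynomial.eval_eq_sum_range] at hQu
  have hdiff : |∑ i ∈ range (D + 1), Q.coeff i *
        ∏ l ∈ range i, (((n : ℝ) - l) / ((n : ℝ) + d - l)) -
        ∑ i ∈ range (D + 1), Q.coeff i * u ^ i| ≤ S / (d - D) := by
    rw [← sum_sub_distrib]
    refine (abs_sum_le_sum_abs _ _).trans ?_
    rw [hS, sum_div]
    apply sum_le_sum
    intro i hi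
    rw [mem_range] at hi
    rw [← mul_sub, abs_mul, mul_div_assoc]
    apply mul_le_mul_of_nonneg_left _ (abs_nonneg _)
    have := prod_sub_pow_le (n := n) hdD (show i ≤ D by omega)
    rw [mul_div_assoc]
    exact this
  have hsmall : S / (d - D) ≤ δ := by
    rw [div_le_iff₀ (by linarith only [hd, hSδ])]
    have : S / δ ≤ d - D := by linarith
    rw [div_le_iff₀ hδ0] at this
    linarith
  have := (abs_le.1 hdiff).1
  linarith only [hQu, hsmall, this]

theorem chowla_of_pos {M : ℕ} {a : ℕ → ℝ} (hM : 0 < M) (hper : ∀ n, a (n + M) = a n)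
    (h0 : a 0 = 0) (h1 : a 1 = 1)
    (hpos : ∀ x : ℝ, 0 < x → x < 1 → 0 < ∑ n ∈ Finset.range M, a n * x ^ n) :
    ∃ k, ∀ n, 0 ≤ iterSum a k n := by
  set P := perPoly a M with hP
  have hM2 : 1 < M := by
    by_contra h
    have : M = 1 := by omega
    subst this
    have := hper 0
    rw [h0] at this
    simp only [zero_add] at this
    rw [h1] at this
    exact one_ne_zero this
  have hPx : P = Polynomial.X * P.divX := by
    have := Polynomial.divX_mul_X_add P
    rw [hP, perPoly_coeff, if_pos (by omega), h0, map_zero, add_zero, ← hP] at this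
    rw [mul_comm, this]
  set R := P.divX with hR
  have hR0 : R.eval 0 = 1 := by
    rw [← Polynomial.coeff_zero_eq_eval_zero, hR, Polynomial.coeff_divX, hP, perPoly_coeff,
      if_pos (by omega), h1]
  have hRne : R ≠ 0 := by
    intro h
    rw [h] at hR0
    simp at hR0
  have hRpos : ∀ x : ℝ, 0 < x → x < 1 → 0 < R.eval x := by
    intro x hx0 hx1
    have := hpos x hx0 hx1
    rw [← perPoly_eval, ← hP, hPx, Polynomial.eval_mul, Polynomial.eval_X] at this
    exact (mul_pos_iff_of_pos_left hx0).1 this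
  obtain ⟨Q0, hQ0, hnd⟩ := Polynomial.exists_eq_pow_rootMultiplicity_mul_and_not_dvd R hRne 1
  set m := R.rootMultiplicity 1 with hm
  set Q : Polynomial ℝ := Polynomial.C ((-1) ^ m) * Q0 with hQ
  have hRQ : R = (1 - Polynomial.X) ^ m * Q := by
    rw [hQ, hQ0]
    have : (1 - Polynomial.X : Polynomial ℝ) = Polynomial.C (-1) * (Polynomial.X - Polynomial.C 1) := by
      simp
    rw [this, mul_pow, ← Polynomial.C_pow]
    have h2 : (Polynomial.C ((-1 : ℝ) ^ m)) * Polynomial.C ((-1 : ℝ) ^ m) = 1 := by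
      rw [← Polynomial.C_mul, ← mul_pow]
      simp
    calc (Polynomial.X - Polynomial.C 1) ^ m * Q0
        = ((Polynomial.C ((-1 : ℝ) ^ m)) * Polynomial.C ((-1 : ℝ) ^ m)) *
          ((Polynomial.X - Polynomial.C 1) ^ m * Q0) := by rw [h2, one_mul]
      _ = _ := by ring
  have hQ1 : Q.eval 1 ≠ 0 := by
    rw [hQ, Polynomial.eval_mul, Polynomial.eval_C]
    apply mul_ne_zero (pow_ne_zero _ (by norm_num))
    intro h
    exact hnd (Polynomial.dvd_iff_isRoot.2 h)
  have hQpos' : ∀ x : ℝ, 0 < x → x < 1 → 0 < Q.eval x := by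
    intro x hx0 hx1
    have := hRpos x hx0 hx1
    rw [hRQ, Polynomial.eval_mul, Polynomial.eval_pow] at this
    simp only [Polynomial.eval_sub, Polynomial.eval_one, Polynomial.eval_X] at this
    exact (mul_pos_iff_of_pos_left (pow_pos (by linarith) m)).1 this
  have hQpos : ∀ x ∈ Set.Icc (0 : ℝ) 1, 0 < Q.eval x := by
    rintro x ⟨hx0, hx1⟩
    rcases hx0.eq_or_lt with h | h
    · subst h
      rw [hRQ, Polynomial.eval_mul, Polynomial.eval_pow] at hR0
      simp at hR0
      rw [hR0]
      exact one_pos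
    rcases hx1.eq_or_lt with h' | h'
    · subst h'
      refine lt_of_le_of_ne ?_ hQ1.symm
      have hc : Filter.Tendsto (fun x => Q.eval x) (nhdsWithin 1 (Set.Iio 1)) (nhds (Q.eval 1)) :=
        (Q.continuous.tendsto 1).mono_left nhdsWithin_le_nhds
      refine ge_of_tendsto hc ?_
      filter_upwards [Ioo_mem_nhdsLT (show (0 : ℝ) < 1 by norm_num)] with y hy
      exact (hQpos' y hy.1 hy.2).le
    · exact hQpos' x h h'
  obtain ⟨d, hd⟩ := exists_nonneg_coeff Q hQpos
  refine ⟨m + (d + 1), ?_⟩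
  set B := PowerSeries.mk (iterSum a (m + (d + 1))) with hB
  set J := (PowerSeries.invOneSubPow ℝ (d + 1)).val with hJ
  have hJ1 : (1 - PowerSeries.X) ^ (d + 1) * J = 1 := by
    rw [hJ, ← PowerSeries.invOneSubPow_inv_eq_one_sub_pow]
    exact (PowerSeries.invOneSubPow ℝ (d + 1)).inv_mul
  have e1 : B * (1 - PowerSeries.X ^ M) = PowerSeries.X * ((Q : PowerSeries ℝ) * J) := by
    have h1 := mk_iterSum a (m + (d + 1))
    have h2 := mk_mul_one_sub hper
    rw [← h1, ← hB, ← hP, hPx, hRQ] at h2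
    push_cast at h2
    have hne : (1 - PowerSeries.X : PowerSeries ℝ) ≠ 0 := by
      intro h
      have := congrArg (PowerSeries.coeff 0) h
      simp at this
    have h3 : (1 - PowerSeries.X : PowerSeries ℝ) ^ m * (B * (1 - PowerSeries.X ^ M) *
        (1 - PowerSeries.X) ^ (d + 1)) = (1 - PowerSeries.X : PowerSeries ℝ) ^ m *
        (PowerSeries.X * (Q : PowerSeries ℝ)) := by
      linear_combination h2
    have h4 := mul_left_cancel₀ (pow_ne_zero m hne) h3
    calc B * (1 - PowerSeries.X ^ M) = B * (1 - PowerSeries.X ^ M) *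
          ((1 - PowerSeries.X) ^ (d + 1) * J) := by rw [hJ1, mul_one]
      _ = (B * (1 - PowerSeries.X ^ M) * (1 - PowerSeries.X) ^ (d + 1)) * J := by ring
      _ = PowerSeries.X * ((Q : PowerSeries ℝ) * J) := by rw [h4]; ring
  have hc : ∀ n, 0 ≤ PowerSeries.coeff n (PowerSeries.X * ((Q : PowerSeries ℝ) * J)) := by
    intro n
    cases n with
    | zero => simp
    | succ n =>
      rw [PowerSeries.coeff_succ_X_mul]
      exact hd n
  intro n
  induction n using Nat.strong_induction_on with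
  | _ n ih =>
    have h := hc n
    rw [← e1, mul_sub, mul_one, map_sub, PowerSeries.coeff_mul_X_pow', hB, PowerSeries.coeff_mk,
      PowerSeries.coeff_mk] at h
    split_ifs at h with hMn
    · have := ih (n - M) (by omega)
      linarith
    · linarith

/-! ### The converse -/

theorem iterSum_zero {a : ℕ → ℝ} (h0 : a 0 = 0) (k : ℕ) : iterSum a k 0 = 0 := by
  induction k with
  | zero => exact h0
  | succ k ih => simp [iterSum, ih]

theorem iterSum_one {a : ℕ → ℝ} (h0 : a 0 = 0) (h1 : a 1 = 1) (k : ℕ) : iterSum a k 1 = 1 := by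
  induction k with
  | zero => exact h1
  | succ k ih =>
    show ∑ m ∈ range (1 + 1), iterSum a k m = 1
    rw [sum_range_succ, sum_range_one, ih, iterSum_zero h0, zero_add]

theorem per_mod {M : ℕ} {a : ℕ → ℝ} (hper : ∀ n, a (n + M) = a n) (n : ℕ) : a (n % M) = a n := by
  conv_rhs => rw [← Nat.mod_add_div n M]
  generalize n / M = q
  induction q with
  | zero => simp
  | succ q ih => rw [ih, Nat.mul_succ, ← add_assoc, hper]

theorem summable_iterSum {M : ℕ} {a : ℕ → ℝ} (hM : 0 < M) (hper : ∀ n, a (n + M) = a n)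
    {x : ℝ} (hx0 : 0 < x) (hx1 : x < 1) (k : ℕ) :
    Summable (fun n => ‖iterSum a k n * x ^ n‖) ∧
      (∑' n, iterSum a k n * x ^ n) * (1 - x) ^ k = ∑' n, a n * x ^ n := by
  have hg : Summable (fun n : ℕ => ‖x ^ n‖) := by
    simp only [norm_pow]
    apply summable_geometric_of_lt_one (norm_nonneg _)
    rw [Real.norm_eq_abs, abs_of_pos hx0]
    exact hx1
  induction k with
  | zero =>
    refine ⟨?_, by simp [show iterSum a 0 = a from rfl]⟩
    have hb : ∀ n, ‖a n‖ ≤ ∑ m ∈ range M, ‖a m‖ := by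
      intro n
      rw [← per_mod hper n]
      exact single_le_sum (f := fun m => ‖a m‖) (fun _ _ => norm_nonneg _)
        (mem_range.2 (Nat.mod_lt n hM))
    refine Summable.of_nonneg_of_le (fun n => norm_nonneg _) (fun n => ?_)
      (hg.mul_left (∑ m ∈ range M, ‖a m‖))
    rw [norm_mul]
    exact mul_le_mul_of_nonneg_right (hb n) (norm_nonneg _)
  | succ k ih =>
    obtain ⟨hs, ht⟩ := ih
    have e : ∀ n, ∑ m ∈ range (n + 1), iterSum a k m * x ^ m * x ^ (n - m) =
        iterSum a (k + 1) n * x ^ n := by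
      intro n
      show _ = (∑ m ∈ range (n + 1), iterSum a k m) * x ^ n
      rw [sum_mul]
      apply sum_congr rfl
      intro m hm
      rw [mem_range] at hm
      rw [mul_assoc, ← pow_add, show m + (n - m) = n by omega]
    have h1 := summable_norm_sum_mul_range_of_summable_norm hs hg
    have h2 := tsum_mul_tsum_eq_tsum_sum_range_of_summable_norm hs hg
    simp only [e] at h1 h2
    refine ⟨h1, ?_⟩
    rw [← h2, ← ht, tsum_geometric_of_lt_one hx0.le hx1, pow_succ]
    have : (1 - x) ≠ 0 := by linarith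
    field_simp

theorem pos_of_chowla {M : ℕ} {a : ℕ → ℝ} (hM : 0 < M) (hper : ∀ n, a (n + M) = a n)
    (h0 : a 0 = 0) (h1 : a 1 = 1) (h : ∃ k, ∀ n, 0 ≤ iterSum a k n) :
    ∀ x : ℝ, 0 < x → x < 1 → 0 < ∑ n ∈ Finset.range M, a n * x ^ n := by
  intro x hx0 hx1
  obtain ⟨k, hk⟩ := h
  obtain ⟨hs, ht⟩ := summable_iterSum hM hper hx0 hx1 k
  obtain ⟨hs0, -⟩ := summable_iterSum hM hper hx0 hx1 0
  have hs' : Summable (fun n => iterSum a k n * x ^ n) := hs.of_norm
  have hs0' : Summable (fun n => a n * x ^ n) := hs0.of_norm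
  have hpos : 0 < ∑' n, iterSum a k n * x ^ n := by
    refine hs'.tsum_pos (fun n => mul_nonneg (hk n) (by positivity)) 1 ?_
    rw [iterSum_one h0 h1, one_mul, pow_one]
    exact hx0
  have hA : 0 < ∑' n, a n * x ^ n := by
    rw [← ht]
    exact mul_pos hpos (pow_pos (by linarith) _)
  have hsplit := hs0'.sum_add_tsum_nat_add M
  have e : ∀ n, a (n + M) * x ^ (n + M) = x ^ M * (a n * x ^ n) := by
    intro n
    rw [hper, pow_add]
    ring
  simp only [e, tsum_mul_left] at hsplit
  have hxM : x ^ M < 1 := pow_lt_one₀ hx0.le hx1 hM.ne'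
  have : ∑ n ∈ range M, a n * x ^ n = (1 - x ^ M) * ∑' n, a n * x ^ n := by
    linear_combination hsplit
  rw [this]
  exact mul_pos (by linarith) hA

end Pool.Agent.MP0016c7.Fek
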