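import Mathlib
import Pool.Agent.Lib.MP_0016c7_nt.FekBack
import Pool.Agent.Lib.MP_0016c7_nt.FekChowla

open Real Set MeasureTheory Filter Topology

namespace Pool.Agent.MP0016c7.Ros

open Pool.Agent.MP0016c7.Fek DirichletCharacter

/-- Changing the level multiplies `L` by positive Euler factors. -/
lemma Lr_changeLevel {d N : ℕ} [NeZero d] [NeZero N] (hd : d ∣ N) {ψ : DirichletCharacter ℂ d}
    (hne : ψ ≠ 1) (h2 : ψ ^ 2 = 1) {s : ℝ} (hs : 0 < s) :
    ∃ r : ℝ, 0 < r ∧ Lr (changeLevel hd ψ) s = Lr ψ s * r := by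
  refine ⟨∏ p ∈ N.primeFactors, (1 - rchar ψ p * xs s p), ?_, ?_⟩
  · apply Finset.prod_pos
    intro p hp
    have hp' := Nat.prime_of_mem_primeFactors hp
    have h3 : xs s p < 1 := by
      unfold xs
      rw [exp_lt_one_iff, neg_lt_zero]
      exact mul_pos hs (lt_of_lt_of_le (Real.log_pos one_lt_two) (lg_two_le hp'))
    have h4 := abs_rchar_le h2 p
    have h5 : |rchar ψ p * xs s p| < 1 := by
      rw [abs_mul, abs_of_pos (xs_pos s p)]
      calc |rchar ψ p| * xs s p ≤ 1 * xs s p := mul_le_mul_of_nonneg_right h4 (xs_pos s p).le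
        _ < 1 := by rw [one_mul]; exact h3
    linarith [(abs_lt.mp h5).2]
  · have h3 := LFunction_changeLevel hd ψ (s := (s : ℂ)) (Or.inl hne)
    have h4 : ∏ p ∈ N.primeFactors, (1 - ψ p * (p : ℂ) ^ (-(s : ℂ))) =
        ((∏ p ∈ N.primeFactors, (1 - rchar ψ p * xs s p) : ℝ) : ℂ) := by
      push_cast
      apply Finset.prod_congr rfl
      intro p hp
      have hp' := Nat.prime_of_mem_primeFactors hp
      rw [ofReal_rchar h2 hp'.ne_zero, xs_cpow hp'.one_lt.le]
    unfold Lr
    rw [h3, h4, Complex.re_mul_ofReal]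

section imprimitive

variable {N : ℕ} [NeZero N] (χ : DirichletCharacter ℂ N)

lemma cond_neZero : NeZero χ.conductor :=
  ⟨fun h => NeZero.ne N (Nat.eq_zero_of_zero_dvd (h ▸ χ.conductor_dvd_level))⟩

omit [NeZero N] in
lemma prim_ne_one (hne : χ ≠ 1) : χ.primitiveCharacter ≠ 1 := by
  intro h
  apply hne
  have h1 := χ.changeLevel_primitiveCharacter
  rw [h, map_one] at h1
  exact h1.symm

lemma prim_sq (h2 : χ ^ 2 = 1) : χ.primitiveCharacter ^ 2 = 1 := by
  have h1 := χ.changeLevel_primitiveCharacter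
  have h3 : changeLevel χ.conductor_dvd_level (χ.primitiveCharacter ^ 2) =
      changeLevel χ.conductor_dvd_level 1 := by
    rw [map_pow, h1, h2, map_one]
  exact changeLevel_injective χ.conductor_dvd_level h3

/-- `L(s, χ) > 0` exactly when the same holds for the primitive character. -/
lemma Lr_prim [NeZero χ.conductor] (hne : χ ≠ 1) (h2 : χ ^ 2 = 1) {s : ℝ} (hs : 0 < s) :
    0 < Lr χ s ↔ 0 < Lr χ.primitiveCharacter s := by
  obtain ⟨r, hr, h⟩ := Lr_changeLevel χ.conductor_dvd_level (prim_ne_one χ hne) (prim_sq χ h2) hs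
  rw [χ.changeLevel_primitiveCharacter] at h
  rw [h]
  exact mul_pos_iff_of_pos_right hr

end imprimitive

section chowla

variable {N : ℕ} [NeZero N] {χ : DirichletCharacter ℂ N} {Q : ℕ}

omit [NeZero N] in
/-- Chowla's criterion is equivalent to the absence of zeros of the Fekete polynomial. -/
theorem fekete_iff_chowla [NeZero (N * Q)] (hN : N ≠ 1) :
    (∀ x : ℝ, 0 < x → x < 1 → (feketePoly χ Q).eval x ≠ 0) ↔
      ∃ k : ℕ, ∀ n : ℕ, 0 ≤ iterSum (indChar χ Q) k n := by
  constructor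
  · intro h
    refine chowla_of_pos (Nat.pos_of_ne_zero (NeZero.ne (N * Q))) (indChar_period hN)
      (indChar_zero hN) indChar_one ?_
    intro x hx0 hx1
    rw [← fekete_eval]
    exact fekete_pos_of_ne hN h hx0 hx1
  · intro h x hx0 hx1
    rw [fekete_eval]
    exact (pos_of_chowla (Nat.pos_of_ne_zero (NeZero.ne (N * Q))) (indChar_period hN)
      (indChar_zero hN) indChar_one h x hx0 hx1).ne'

end chowla

end Pool.Agent.MP0016c7.Ros
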