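import Mathlib
import Pool.Agent.Lib.MP_0016c7_nt.CdlFin1
import Pool.Agent.Lib.MP_0016c7_nt.FekImp

open Real Set MeasureTheory Filter Topology

namespace Pool.Agent.MP0016c7.Ros

open Pool.Agent.MP0016c7.Fek DirichletCharacter

variable {N : ℕ} [NeZero N] {χ : DirichletCharacter ℂ N} {Q : ℕ}

omit [NeZero N] in
lemma ind_odd (ho : χ.Odd) : (ind χ Q).Odd := by
  have hc : IsCoprime (-1 : ℤ) ((N * Q : ℕ) : ℤ) := isCoprime_one_left.neg_left
  have h1 := changeLevel_eq_cast_of_dvd' χ (Nat.dvd_mul_right N Q) hc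
  have h2 : χ (-1) = -1 := ho
  unfold DirichletCharacter.Odd ind
  push_cast at h1
  rw [h1, h2]

lemma prim_odd (χ : DirichletCharacter ℂ N) (ho : χ.Odd) : χ.primitiveCharacter.Odd := by
  have hc : IsCoprime (-1 : ℤ) (N : ℤ) := isCoprime_one_left.neg_left
  have h1 := χ.primitiveCharacter_apply_of_isCoprime hc
  have h2 : χ (-1) = -1 := ho
  unfold DirichletCharacter.Odd
  push_cast at h1
  rw [h1, h2]

omit [NeZero N] in
lemma Sn_ind_eq (x : ℕ) : Sn (ind χ Q) x = truncSum χ Q 0 x := by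
  rw [truncSum_eq_ind]
  unfold Sn
  apply Finset.sum_congr rfl
  intro n _
  unfold xs
  rw [zero_mul, neg_zero, exp_zero, mul_one]

omit [NeZero N] in
lemma iterSum_one_eq (hN : N ≠ 1) (n : ℕ) :
    iterSum (indChar χ Q) 1 n = Sn (ind χ Q) n := by
  rw [Sn_sub_range n (by simp)]
  have : iterSum (indChar χ Q) 1 n = ∑ m ∈ Finset.range (n + 1), indChar χ Q m := rfl
  rw [this]
  exact Finset.sum_congr rfl fun m _ => indChar_eq hN m

/-- all partial sums of the induced character are nonnegative -/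
theorem cdl_forward (hSW : SWd) (hχ : χ.IsPrimitive) (hne : χ ≠ 1) (h2 : χ ^ 2 = 1) (ho : χ.Odd)
    (hL : ∀ s : ℝ, 0 < s → s < 1 → 0 < Lr χ s) :
    ∀ᶠ Y : ℕ in atTop, ∀ n : ℕ, 0 ≤ iterSum (indChar χ (inertProduct χ Y)) 1 n := by
  obtain ⟨Λ₀, hΛ₀, hpos⟩ := below_half hSW hχ hne h2 ho hL
  have hN := modulus_ne_one hne
  have hN0 : (0 : ℝ) < N := by exact_mod_cast NeZero.pos N
  have h3 : Tendsto (fun Y : ℕ => lg Y) atTop atTop := by
    unfold lg
    exact Real.tendsto_log_atTop.comp tendsto_natCast_atTop_atTop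
  filter_upwards [h3.eventually_ge_atTop Λ₀, eventually_ge_atTop 1] with Y hY hY1 n
  set Q := inertProduct χ Y with hQ
  have hQ0 : Q ≠ 0 := inertProduct_ne_zero χ Y
  have hM : NeZero (N * Q) := ⟨Nat.mul_ne_zero (NeZero.ne N) hQ0⟩
  have hine := ind_ne (χ := χ) hQ0 hne
  have hisq := ind_sq (χ := χ) (Q := Q) h2
  have hio := ind_odd (χ := χ) (Q := Q) ho
  have hlow : ∀ m : ℕ, 2 * m ≤ N * Q → 0 ≤ Sn (ind χ Q) m := by
    intro m hm
    rcases Nat.eq_zero_or_pos m with rfl | hm0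
    · rw [Sn_zero]
    have hmR : (0 : ℝ) < m := by exact_mod_cast hm0
    have h4 : Sn (ind χ Q) m = TT χ (lg Y) (Real.log m) := by
      rw [Sn_ind_eq, hQ, truncSum_inert h2 hY1]
      unfold TT
      rw [exp_log hmR, Nat.floor_natCast]
    rw [h4]
    apply le_of_lt
    apply hpos _ _ hY (Real.log_natCast_nonneg m)
    have h5 : Sm lg (iP χ (lg Y)) = Real.log Q := by
      rw [← (lg_prod fun p hp => iP_prime hp).2, hQ, inertProduct_eq h2 hY1]
      rfl
    have hQR : (0 : ℝ) < Q := by exact_mod_cast Nat.pos_of_ne_zero hQ0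
    rw [h5, ← Real.log_mul hQR.ne' (by positivity)]
    apply Real.log_le_log hmR
    have : (2 : ℝ) * m ≤ N * Q := by exact_mod_cast hm
    linarith
  rw [iterSum_one_eq hN, ← Sn_mod hine]
  have hlt : n % (N * Q) < N * Q := Nat.mod_lt _ (Nat.pos_of_ne_zero (NeZero.ne _))
  set m := n % (N * Q) with hm
  by_cases hc : 2 * m ≤ N * Q
  · exact hlow m hc
  · rw [← Sn_symm hisq hine hio hlt]
    apply hlow
    omega

/-- nonnegative partial sums force positivity -/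
theorem cdl_back (hQ : Q ≠ 0) (hne : χ ≠ 1) (h2 : χ ^ 2 = 1)
    (h : ∀ n : ℕ, 0 ≤ iterSum (indChar χ Q) 1 n) {s : ℝ} (hs0 : 0 < s) (hs1 : s ≤ 1) :
    0 < Lr χ s := by
  have hN := modulus_ne_one hne
  have : NeZero (N * Q) := ⟨Nat.mul_ne_zero (NeZero.ne N) hQ⟩
  have h1 := (fekete_iff_chowla (χ := χ) (Q := Q) hN).mpr ⟨1, h⟩
  exact fek_back hQ hne h2 (fun x hx0 hx1 => fekete_pos_of_ne hN h1 hx0 hx1) hs0 hs1

end Pool.Agent.MP0016c7.Ros
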