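import Mathlib
import Pool.Agent.Lib.MP_0da313_nt.BV.SmallCor
import Pool.Agent.Lib.MP_0016c7_nt.CdlPnt

open Filter

namespace Pool.Agent.MP0016c7.Ros

open ArithmeticFunction Finset
open Pool.Agent.BVall (OmL psiXL psiAPL psiChiL small_all psiXL_lower)
open Pool.Agent.MP89da58 (tri cX tri_nonneg tri_le_one cX_bounds pos_of_log DD sum_not_coprime_le')

variable {lam : ℝ}

theorem psiChiL_sub_le (hlam : 1 ≤ lam) {X : ℝ} (hX0 : 1 ≤ X) (hX : 1 ≤ Real.log X) {q r : ℕ} (hq : q ≠ 0)
    (χ : DirichletCharacter ℂ q) (ψ : DirichletCharacter ℂ r)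
    (h : ∀ n : ℕ, n.Coprime q → χ (n : ZMod q) = ψ (n : ZMod r)) :
    ‖psiChiL lam X χ - psiChiL lam X ψ‖ ≤ DD X q := by
  classical
  unfold psiChiL
  rw [← Finset.sum_sub_distrib]
  have h1 : ∑ n ∈ Icc 1 ⌊3 * X⌋₊, ((vonMangoldt n : ℂ) * χ (n : ZMod q) * (OmL lam X n : ℂ) -
      (vonMangoldt n : ℂ) * ψ (n : ZMod r) * (OmL lam X n : ℂ)) =
      ∑ n ∈ (Icc 1 ⌊3 * X⌋₊).filter (fun n => ¬ n.Coprime q),
        ((vonMangoldt n : ℂ) * χ (n : ZMod q) * (OmL lam X n : ℂ) -
          (vonMangoldt n : ℂ) * ψ (n : ZMod r) * (OmL lam X n : ℂ)) := by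
    symm
    refine Finset.sum_filter_of_ne ?_
    intro n _ hne hcop
    apply hne
    rw [h n hcop, sub_self]
  rw [h1]
  refine (norm_sum_le _ _).trans ?_
  have h2 : ∀ n ∈ (Icc 1 ⌊3 * X⌋₊).filter (fun n => ¬ n.Coprime q),
      ‖(vonMangoldt n : ℂ) * χ (n : ZMod q) * (OmL lam X n : ℂ) -
        (vonMangoldt n : ℂ) * ψ (n : ZMod r) * (OmL lam X n : ℂ)‖ ≤ vonMangoldt n * 8 := by
    intro n hn
    have hnc := (Finset.mem_filter.1 hn).2
    have h3 : χ (n : ZMod q) = 0 := by
      apply MulChar.map_nonunit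
      rw [ZMod.isUnit_iff_coprime]
      exact hnc
    rw [h3, mul_zero, zero_mul, zero_sub, norm_neg, norm_mul, norm_mul]
    have h4 : ‖ψ (n : ZMod r)‖ ≤ 1 := DirichletCharacter.norm_le_one ψ _
    have h5 : ‖(vonMangoldt n : ℂ)‖ = vonMangoldt n := by
      rw [Complex.norm_real, Real.norm_of_nonneg vonMangoldt_nonneg]
    have h6 : ‖(OmL lam X n : ℂ)‖ ≤ 8 := by
      rw [Complex.norm_real, Real.norm_of_nonneg (OmL_nonneg lam (by linarith) n)]
      exact OmL_le hlam (by linarith) hX n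
    rw [h5]
    have h7 : 0 ≤ vonMangoldt n := vonMangoldt_nonneg
    calc vonMangoldt n * ‖ψ (n : ZMod r)‖ * ‖(OmL lam X n : ℂ)‖
        ≤ vonMangoldt n * 1 * 8 := by gcongr
      _ = vonMangoldt n * 8 := by ring
  refine (Finset.sum_le_sum h2).trans ?_
  rw [← Finset.sum_mul]
  unfold DD
  have := sum_not_coprime_le' hX0 q hq
  linarith

theorem psiChiL_one_one (lam X : ℝ) : psiChiL lam X (1 : DirichletCharacter ℂ 1) = (psiXL lam X : ℂ) := by
  unfold psiChiL psiXL
  push_cast
  refine Finset.sum_congr rfl fun n _ => ?_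
  have : (1 : DirichletCharacter ℂ 1) (n : ZMod 1) = 1 := by
    rw [MulChar.one_apply]
    exact isUnit_of_subsingleton _
  rw [this, mul_one]

/-- orthogonality -/
theorem totient_mul_psiAPL (lam X : ℝ) {q : ℕ} [NeZero q] (a : ℕ) (ha : a.Coprime q) :
    ((Nat.totient q : ℂ)) * (psiAPL lam X q a : ℂ) =
      ∑ χ : DirichletCharacter ℂ q, χ ((a : ZMod q)⁻¹) * psiChiL lam X χ := by
  classical
  have hu : IsUnit (a : ZMod q) := (ZMod.isUnit_iff_coprime a q).2 ha
  unfold psiChiL psiAPL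
  simp only [Finset.mul_sum]
  rw [Finset.sum_comm]
  push_cast
  rw [Finset.sum_filter, Finset.mul_sum]
  refine Finset.sum_congr rfl fun n _ => ?_
  have h1 := DirichletCharacter.sum_char_inv_mul_char_eq ℂ hu (n : ZMod q)
  have h2 : ∑ χ : DirichletCharacter ℂ q, χ ((a : ZMod q)⁻¹) *
      ((vonMangoldt n : ℂ) * χ (n : ZMod q) * (OmL lam X n : ℂ)) =
      (∑ χ : DirichletCharacter ℂ q, χ ((a : ZMod q)⁻¹) * χ (n : ZMod q)) *
        ((vonMangoldt n : ℂ) * (OmL lam X n : ℂ)) := by
    rw [Finset.sum_mul]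
    refine Finset.sum_congr rfl fun χ _ => ?_
    ring
  rw [h2, h1]
  have h3 : ((a : ZMod q) = (n : ZMod q)) ↔ n ≡ a [MOD q] := by
    rw [ZMod.natCast_eq_natCast_iff]
    exact ⟨fun h => h.symm, fun h => h.symm⟩
  by_cases h4 : n ≡ a [MOD q]
  · rw [if_pos h4, if_pos (h3.2 h4)]
  · rw [if_neg h4, if_neg (fun h => h4 (h3.1 h))]
    ring

/-- one modulus -/
theorem ap_leL (hlam : 1 ≤ lam) {X : ℝ} (hX0 : 1 ≤ X) (hX : 1 ≤ Real.log X) {q : ℕ} [NeZero q] (a : ℕ)
    (ha : a.Coprime q) :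
    |psiAPL lam X q a - psiXL lam X / (Nat.totient q : ℝ)| ≤ DD X q + (1 / (Nat.totient q : ℝ)) *
      ∑ χ ∈ (Finset.univ : Finset (DirichletCharacter ℂ q)).erase 1,
        ‖psiChiL lam X χ.primitiveCharacter‖ := by
  classical
  have hq : q ≠ 0 := NeZero.ne q
  have hφ : (0 : ℝ) < Nat.totient q := by
    exact_mod_cast Nat.totient_pos.2 (Nat.pos_of_ne_zero hq)
  have h1 := totient_mul_psiAPL lam X a ha
  have hcop : ∀ (χ : DirichletCharacter ℂ q) (n : ℕ), n.Coprime q →
      χ (n : ZMod q) = χ.primitiveCharacter (n : ZMod χ.conductor) := by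
    intro χ n hn
    have := χ.primitiveCharacter_apply_of_isCoprime (a := (n : ℤ)) (by
      rw [Nat.isCoprime_iff_coprime]; exact hn)
    push_cast at this
    exact this.symm
  have hD : 0 ≤ DD X q := by
    unfold DD
    have : 0 ≤ Real.log (3 * X) := Real.log_nonneg (by linarith)
    positivity
  -- the principal character
  have hone : ‖psiChiL lam X (1 : DirichletCharacter ℂ q) - (psiXL lam X : ℂ)‖ ≤ DD X q := by
    rw [← psiChiL_one_one]
    refine psiChiL_sub_le hlam hX0 hX hq _ _ fun n hn => ?_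
    rw [MulChar.one_apply ((ZMod.isUnit_iff_coprime n q).2 hn), MulChar.one_apply]
    exact isUnit_of_subsingleton _
  have hoth : ∀ χ ∈ (Finset.univ : Finset (DirichletCharacter ℂ q)).erase 1,
      ‖χ ((a : ZMod q)⁻¹) * psiChiL lam X χ‖ ≤ ‖psiChiL lam X χ.primitiveCharacter‖ + DD X q := by
    intro χ _
    have h2 := psiChiL_sub_le hlam hX0 hX hq χ χ.primitiveCharacter (hcop χ)
    have h3 : ‖psiChiL lam X χ‖ ≤ ‖psiChiL lam X χ.primitiveCharacter‖ + DD X q := by
      have := norm_le_norm_add_norm_sub' (psiChiL lam X χ) (psiChiL lam X χ.primitiveCharacter)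
      linarith
    rw [norm_mul]
    have h4 : ‖χ ((a : ZMod q)⁻¹)‖ ≤ 1 := DirichletCharacter.norm_le_one χ _
    calc ‖χ ((a : ZMod q)⁻¹)‖ * ‖psiChiL lam X χ‖ ≤ 1 * ‖psiChiL lam X χ‖ :=
          mul_le_mul_of_nonneg_right h4 (norm_nonneg _)
      _ ≤ _ := by rw [one_mul]; exact h3
  have hsplit : ∑ χ : DirichletCharacter ℂ q, χ ((a : ZMod q)⁻¹) * psiChiL lam X χ =
      psiChiL lam X (1 : DirichletCharacter ℂ q) +
        ∑ χ ∈ (Finset.univ : Finset (DirichletCharacter ℂ q)).erase 1,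
          χ ((a : ZMod q)⁻¹) * psiChiL lam X χ := by
    rw [← Finset.add_sum_erase _ _ (Finset.mem_univ (1 : DirichletCharacter ℂ q))]
    congr 1
    have : (1 : DirichletCharacter ℂ q) ((a : ZMod q)⁻¹) = 1 := by
      apply MulChar.one_apply
      have hu : IsUnit (a : ZMod q) := (ZMod.isUnit_iff_coprime a q).2 ha
      rw [← hu.unit_spec, ZMod.inv_coe_unit]
      exact Units.isUnit _
    rw [this, one_mul]
  have hcard : (((Finset.univ : Finset (DirichletCharacter ℂ q)).erase 1).card : ℝ) + 1 =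
      Nat.totient q := by
    have h5 := DirichletCharacter.card_eq_totient_of_hasEnoughRootsOfUnity ℂ q
    rw [Nat.card_eq_fintype_card] at h5
    have h6 := Finset.card_erase_add_one (Finset.mem_univ (1 : DirichletCharacter ℂ q))
    rw [Finset.card_univ] at h6
    rw [← h5]
    exact_mod_cast h6
  have hmain : (Nat.totient q : ℝ) * |psiAPL lam X q a - psiXL lam X / (Nat.totient q : ℝ)| ≤
      (Nat.totient q : ℝ) * DD X q +
      ∑ χ ∈ (Finset.univ : Finset (DirichletCharacter ℂ q)).erase 1,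
        ‖psiChiL lam X χ.primitiveCharacter‖ := by
    have h7 : (Nat.totient q : ℝ) * |psiAPL lam X q a - psiXL lam X / (Nat.totient q : ℝ)| =
        ‖(Nat.totient q : ℂ) * (psiAPL lam X q a : ℂ) - (psiXL lam X : ℂ)‖ := by
      rw [← abs_of_pos hφ, ← abs_mul, abs_of_pos hφ, mul_sub, mul_div_cancel₀ _ hφ.ne']
      rw [← Real.norm_eq_abs, ← Complex.norm_real]
      push_cast
      rfl
    rw [h7, h1, hsplit]
    have h8 : psiChiL lam X (1 : DirichletCharacter ℂ q) +
        ∑ χ ∈ (Finset.univ : Finset (DirichletCharacter ℂ q)).erase 1,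
          χ ((a : ZMod q)⁻¹) * psiChiL lam X χ - (psiXL lam X : ℂ) =
        (psiChiL lam X (1 : DirichletCharacter ℂ q) - (psiXL lam X : ℂ)) +
        ∑ χ ∈ (Finset.univ : Finset (DirichletCharacter ℂ q)).erase 1,
          χ ((a : ZMod q)⁻¹) * psiChiL lam X χ := by ring
    rw [h8]
    refine (norm_add_le _ _).trans ?_
    refine (add_le_add hone ((norm_sum_le _ _).trans (Finset.sum_le_sum hoth))).trans ?_
    rw [Finset.sum_add_distrib, Finset.sum_const, nsmul_eq_mul, ← hcard]
    ring_nf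
    rfl
  have h9 : |psiAPL lam X q a - psiXL lam X / (Nat.totient q : ℝ)| =
      (1 / (Nat.totient q : ℝ)) * ((Nat.totient q : ℝ) *
        |psiAPL lam X q a - psiXL lam X / (Nat.totient q : ℝ)|) := by
    field_simp
  rw [h9]
  calc _ ≤ (1 / (Nat.totient q : ℝ)) * ((Nat.totient q : ℝ) * DD X q +
      ∑ χ ∈ (Finset.univ : Finset (DirichletCharacter ℂ q)).erase 1,
        ‖psiChiL lam X χ.primitiveCharacter‖) :=
        mul_le_mul_of_nonneg_left hmain (by positivity)
    _ = _ := by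
        rw [mul_add, ← mul_assoc, one_div_mul_cancel hφ.ne', one_mul]


lemma conductor_bounds {q : ℕ} [NeZero q] {χ : DirichletCharacter ℂ q} (hne : χ ≠ 1) :
    2 ≤ χ.conductor ∧ χ.conductor ≤ q := by
  have h1 : χ.conductor ∣ q := χ.conductor_dvd_level
  have h2 : χ.conductor ≤ q := Nat.le_of_dvd (NeZero.pos q) h1
  have h3 : χ.conductor ≠ 0 := fun h => NeZero.ne q (Nat.eq_zero_of_zero_dvd (h ▸ h1))
  have h4 : χ.conductor ≠ 1 := by
    intro h
    exact hne (DirichletCharacter.eq_one_iff_conductor_eq_one.mpr h)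
  exact ⟨by omega, h2⟩

lemma log_pow_small (c : ℝ) (A B : ℕ) : ∀ᶠ X : ℝ in atTop,
    c * (Real.log X) ^ B ≤ X / (Real.log X) ^ A := by
  have h1 := isLittleO_log_rpow_rpow_atTop (s := 1) ((A + B + 1 : ℕ) : ℝ) (by norm_num)
  have h2 := h1.bound one_pos
  filter_upwards [h2, eventually_gt_atTop 3, Real.tendsto_log_atTop.eventually_ge_atTop (|c|)]
    with X hX h3 hc
  have hX0 : 0 < X := by linarith
  have hl : 1 ≤ Real.log X := by
    rw [Real.le_log_iff_exp_le hX0]
    linarith [Real.exp_one_lt_d9]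
  rw [Real.norm_eq_abs, Real.norm_eq_abs, abs_of_nonneg (by positivity),
    abs_of_nonneg (by positivity), Real.rpow_natCast, one_mul, Real.rpow_one] at hX
  rw [le_div_iff₀ (by positivity)]
  calc c * Real.log X ^ B * Real.log X ^ A ≤ Real.log X * Real.log X ^ B * Real.log X ^ A := by
        apply mul_le_mul_of_nonneg_right _ (by positivity)
        exact mul_le_mul_of_nonneg_right ((le_abs_self c).trans hc) (by positivity)
    _ = Real.log X ^ (A + B + 1) := by ring
    _ ≤ X := hX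

/-- The prime number theorem in progressions for small moduli. -/
theorem swd : SWd := by
  intro lam hlam
  refine ⟨fun A B => ?_, psiXL_lower hlam⟩
  filter_upwards [small_all (A + 1) B hlam, log_pow_small 16 (A + 1) (B + 1),
    eventually_gt_atTop 3, Real.tendsto_log_atTop.eventually_ge_atTop 2]
    with X hsm hDs hX3 hl2 m hm hmB r hr
  have : NeZero m := ⟨hm⟩
  have hX0 : 0 < X := by linarith
  have hl0 : 0 < Real.log X := by linarith
  have hφ : (0 : ℝ) < Nat.totient m := by exact_mod_cast Nat.totient_pos.mpr (NeZero.pos m)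
  refine (ap_leL hlam (by linarith) (by linarith) r hr).trans ?_
  have h1 : DD X m ≤ X / (Real.log X) ^ (A + 1) := by
    refine le_trans ?_ hDs
    unfold DD
    have h3 : Real.log (3 * X) ≤ 2 * Real.log X := by
      rw [Real.log_mul (by norm_num) hX0.ne']
      have : Real.log 3 ≤ Real.log X := Real.log_le_log (by norm_num) hX3.le
      linarith
    have h30 : 0 ≤ Real.log (3 * X) := Real.log_nonneg (by linarith)
    calc 8 * (m * Real.log (3 * X)) ≤ 8 * ((Real.log X) ^ B * (2 * Real.log X)) := by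
          apply mul_le_mul_of_nonneg_left _ (by norm_num)
          exact mul_le_mul hmB h3 h30 (by positivity)
      _ = _ := by ring
  have h2 : (1 / (Nat.totient m : ℝ)) * ∑ χ ∈ (Finset.univ : Finset
      (DirichletCharacter ℂ m)).erase 1, ‖psiChiL lam X χ.primitiveCharacter‖ ≤
      X / (Real.log X) ^ (A + 1) := by
    have h3 : ∀ χ ∈ (Finset.univ : Finset (DirichletCharacter ℂ m)).erase 1,
        ‖psiChiL lam X χ.primitiveCharacter‖ ≤ X / (Real.log X) ^ (A + 1) := by
      intro χ hχ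
      obtain ⟨c1, c2⟩ := conductor_bounds (Finset.mem_erase.mp hχ).1
      refine hsm χ.conductor c1 ?_ χ.primitiveCharacter χ.primitiveCharacter_isPrimitive
      exact le_trans (by exact_mod_cast c2) hmB
    have h4 : (((Finset.univ : Finset (DirichletCharacter ℂ m)).erase 1).card : ℝ) ≤
        Nat.totient m := by
      have h5 := DirichletCharacter.card_eq_totient_of_hasEnoughRootsOfUnity ℂ m
      rw [Nat.card_eq_fintype_card] at h5
      have h6 := Finset.card_erase_le (s := (Finset.univ : Finset (DirichletCharacter ℂ m)))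
        (a := 1)
      rw [Finset.card_univ] at h6
      rw [← h5]
      exact_mod_cast h6
    have h5 := Finset.sum_le_sum h3
    rw [Finset.sum_const, nsmul_eq_mul] at h5
    rw [one_div_mul_eq_div, div_le_iff₀ hφ]
    refine h5.trans ?_
    rw [mul_comm]
    exact mul_le_mul_of_nonneg_left h4 (by positivity)
  have h3 : X / (Real.log X) ^ (A + 1) + X / (Real.log X) ^ (A + 1) ≤ X / (Real.log X) ^ A := by
    have e : X / (Real.log X) ^ (A + 1) + X / (Real.log X) ^ (A + 1) =
        X / (Real.log X) ^ A * (2 / Real.log X) := by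
      rw [pow_succ]; field_simp; ring
    rw [e]
    have h4 : 2 / Real.log X ≤ 1 := by rw [div_le_one hl0]; exact hl2
    have h5 : 0 ≤ X / (Real.log X) ^ A := by positivity
    nlinarith
  linarith

end Pool.Agent.MP0016c7.Ros
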