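import Mathlib
import Pool.Agent.Lib.MP_0016c7_nt.CdlBlk

open Real

namespace Pool.Agent.MP0016c7.Ros

section

variable {E : Type*} [NormedAddCommGroup E] [NormedSpace ℝ E]
variable {P : Finset ℕ} {x β : ℕ → ℝ} {μ K : ℝ}

/-- independence of one prime -/
lemma EE_indep (hx : ∀ p, 0 < x p) {p : ℕ} (hp : p ∈ P) (G : Finset ℕ → E)
    (hG : ∀ A, p ∈ A → G (A.erase p) = G A) :
    EE P x (fun A => if p ∈ A then 0 else (1 + x p) • G A) = EE P x G := by
  have h1 := EE_erase (E := E) hx hp G
  have h2 : EE P x (fun A => if p ∈ A then ((1 + x p) / x p) • G (A.erase p) else 0) =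
      ((1 + x p) / x p) • EE P x (fun A => if p ∈ A then G A else 0) := by
    rw [← EE_smul]
    apply EE_congr
    intro A _
    split_ifs with h
    · rw [hG A h]
    · rw [smul_zero]
  have h3 : EE P x (fun A => if p ∈ A then 0 else (1 + x p) • G A) =
      (1 + x p) • EE P x (fun A => if p ∈ A then 0 else G A) := by
    rw [← EE_smul]
    apply EE_congr
    intro A _
    split_ifs <;> simp
  have h4 : EE P x G = EE P x (fun A => if p ∈ A then G A else 0) +
      EE P x (fun A => if p ∈ A then 0 else G A) := by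
    rw [← EE_add]
    apply EE_congr
    intro A _
    split_ifs <;> simp
  have hxp := hx p
  have h5 : EE P x (fun A => if p ∈ A then G A else 0) =
      x p • EE P x (fun A => if p ∈ A then 0 else G A) := by
    rw [h2, h3] at h1
    have h6 : (x p / (1 + x p)) • (((1 + x p) / x p) • EE P x (fun A => if p ∈ A then G A else 0)) =
        (x p / (1 + x p)) • ((1 + x p) • EE P x (fun A => if p ∈ A then 0 else G A)) := by rw [h1]
    rw [smul_smul, smul_smul] at h6
    have e1 : x p / (1 + x p) * ((1 + x p) / x p) = 1 := by field_simp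
    have e2 : x p / (1 + x p) * (1 + x p) = x p := by field_simp
    rw [e1, e2, one_smul] at h6
    exact h6
  rw [h3, h4, h5, add_smul, one_smul]
  exact add_comm _ _

/-- the random mass of a block -/
noncomputable def Kf (P : Finset ℕ) (x β : ℕ → ℝ) (A : Finset ℕ) : ℝ :=
  ∑ p ∈ P, β p * (if p ∈ A then ww x p else 0)

lemma Kf_mul (hx : ∀ p, 0 < x p) (F : Finset ℕ → E) :
    EE P x (fun A => Kf P x β A • F A) =
      ∑ p ∈ P, β p • EE P x (fun A => if p ∈ A then 0 else (1 + x p) • F (insert p A)) := by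
  have h1 : ∀ p ∈ P, β p • EE P x (fun A => if p ∈ A then 0 else (1 + x p) • F (insert p A)) =
      EE P x (fun A => (β p * (if p ∈ A then ww x p else 0)) • F A) := by
    intro p hp
    rw [← EE_erase hx hp (fun A => F (insert p A)), ← EE_smul]
    apply EE_congr
    intro A _
    split_ifs with h
    · rw [smul_smul, Finset.insert_erase h]; rfl
    · simp
  rw [Finset.sum_congr rfl h1, ← EE_sum]
  apply EE_congr
  intro A _
  unfold Kf
  rw [Finset.sum_smul]

lemma ww_pos (hx : ∀ p, 0 < x p) (p : ℕ) : 0 < ww x p := by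
  unfold ww
  have := hx p
  positivity

lemma Kf_nonneg (hx : ∀ p, 0 < x p) (hβ : ∀ p, 0 ≤ β p) (A : Finset ℕ) : 0 ≤ Kf P x β A := by
  unfold Kf
  apply Finset.sum_nonneg
  intro p _
  apply mul_nonneg (hβ p)
  split_ifs
  · exact (ww_pos hx p).le
  · exact le_rfl

lemma EE_Kf (hx : ∀ p, 0 < x p) (hμ : ∑ p ∈ P, β p = μ) : EE P x (Kf P x β) = μ := by
  have h := Kf_mul (P := P) (β := β) hx (fun _ => (1 : ℝ))
  simp only [smul_eq_mul, mul_one] at h
  have e : (fun A => Kf P x β A) = Kf P x β := rfl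
  rw [e] at h
  rw [h, ← hμ]
  apply Finset.sum_congr rfl
  intro p hp
  have h2 := EE_indep (E := ℝ) hx hp (fun _ => 1) (fun _ _ => rfl)
  simp only [smul_eq_mul, mul_one] at h2
  rw [h2, EE_const hx, mul_one]

lemma Kf_insert {p : ℕ} (hp : p ∈ P) {A : Finset ℕ} (hA : p ∉ A) :
    Kf P x β (insert p A) = Kf P x β A + β p * ww x p := by
  unfold Kf
  rw [← Finset.add_sum_erase P _ hp, ← Finset.add_sum_erase P (fun q => β q *
    (if q ∈ A then ww x q else 0)) hp, if_pos (Finset.mem_insert_self p A), if_neg hA]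
  have : ∑ q ∈ P.erase p, β q * (if q ∈ insert p A then ww x q else 0) =
      ∑ q ∈ P.erase p, β q * (if q ∈ A then ww x q else 0) := by
    apply Finset.sum_congr rfl
    intro q hq
    rw [Finset.mem_erase] at hq
    have : q ∈ insert p A ↔ q ∈ A := by
      rw [Finset.mem_insert]
      exact ⟨fun h => h.resolve_left hq.1, Or.inr⟩
    rw [if_congr this rfl rfl]
  rw [this]
  ring

lemma EE_Kf_sq (hx : ∀ p, 0 < x p) (hβ : ∀ p, 0 ≤ β p) (hμ : ∑ p ∈ P, β p = μ)
    (hK : ∀ p, β p * ww x p ≤ K) :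
    EE P x (fun A => Kf P x β A ^ 2) ≤ μ ^ 2 + K * μ := by
  have h := Kf_mul (P := P) (β := β) hx (Kf P x β)
  have e : EE P x (fun A => Kf P x β A • Kf P x β A) = EE P x (fun A => Kf P x β A ^ 2) := by
    congr 1; ext A; rw [smul_eq_mul, sq]
  rw [e] at h
  rw [h]
  have h1 : ∀ p ∈ P, β p • EE P x (fun A => if p ∈ A then 0 else
      (1 + x p) • Kf P x β (insert p A)) ≤ β p * (μ + K) := by
    intro p hp
    rw [smul_eq_mul]
    apply mul_le_mul_of_nonneg_left _ (hβ p)
    set K' : Finset ℕ → ℝ := fun A => ∑ q ∈ P.erase p, β q * (if q ∈ A then ww x q else 0) with hK'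
    have k1 : ∀ A, p ∉ A → Kf P x β A = K' A := by
      intro A hA
      rw [hK']
      unfold Kf
      rw [← Finset.add_sum_erase P _ hp, if_neg hA, mul_zero, zero_add]
    have k2 : ∀ A, p ∈ A → K' (A.erase p) = K' A := by
      intro A _
      rw [hK']
      apply Finset.sum_congr rfl
      intro q hq
      rw [Finset.mem_erase] at hq
      have : q ∈ A.erase p ↔ q ∈ A := by
        rw [Finset.mem_erase]
        exact ⟨fun h => h.2, fun h => ⟨hq.1, h⟩⟩
      rw [if_congr this rfl rfl]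
    have k3 : ∀ A, K' A ≤ Kf P x β A := by
      intro A
      rw [hK']
      unfold Kf
      apply Finset.sum_le_sum_of_subset_of_nonneg (Finset.erase_subset _ _)
      intro q _ _
      apply mul_nonneg (hβ q)
      split_ifs
      · exact (ww_pos hx q).le
      · exact le_rfl
    have k4 : EE P x (fun A => if p ∈ A then 0 else (1 + x p) • Kf P x β (insert p A)) =
        EE P x (fun A => if p ∈ A then 0 else (1 + x p) • (K' A + β p * ww x p)) := by
      apply EE_congr
      intro A _
      split_ifs with h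
      · rfl
      · rw [Kf_insert hp h, k1 A h]
    rw [k4, EE_indep hx hp (fun A => K' A + β p * ww x p) (fun A hA => by
      simp only [k2 A hA]), EE_add, EE_const hx]
    have k5 : EE P x (fun A => K' A) ≤ μ := by
      rw [← EE_Kf hx hμ]
      exact EE_mono hx fun A _ => k3 A
    have := hK p
    linarith
  refine (Finset.sum_le_sum h1).trans (le_of_eq ?_)
  rw [← Finset.sum_mul, hμ]
  ring

/-- concentration in the mean -/
lemma EE_abs_Kf (hx : ∀ p, 0 < x p) (hβ : ∀ p, 0 ≤ β p) (hμ : ∑ p ∈ P, β p = μ)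
    (hK : ∀ p, β p * ww x p ≤ K) (hμ0 : 0 < μ) (hK0 : 0 < K) :
    EE P x (fun A => |Kf P x β A / μ - 1|) ≤ √(K / μ) := by
  set t := √(K / μ) with ht
  have ht0 : 0 < t := Real.sqrt_pos.mpr (by positivity)
  have ht2 : t ^ 2 = K / μ := Real.sq_sqrt (by positivity)
  have h1 : ∀ A, A ⊆ P → |Kf P x β A / μ - 1| ≤
      (1 / (2 * t)) * (Kf P x β A / μ - 1) ^ 2 + t / 2 := by
    intro A _
    rw [← sub_nonneg]
    have e : (1 / (2 * t)) * (Kf P x β A / μ - 1) ^ 2 + t / 2 - |Kf P x β A / μ - 1| =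
        (|Kf P x β A / μ - 1| - t) ^ 2 / (2 * t) := by
      rw [← sq_abs (Kf P x β A / μ - 1)]
      field_simp
      ring
    rw [e]
    positivity
  refine (EE_mono hx h1).trans ?_
  rw [EE_add, EE_const hx, EE_mul]
  have h2 : EE P x (fun A => (Kf P x β A / μ - 1) ^ 2) ≤ K / μ := by
    have e : EE P x (fun A => (Kf P x β A / μ - 1) ^ 2) =
        (1 / μ ^ 2) * EE P x (fun A => Kf P x β A ^ 2) +
          ((-2 / μ) * EE P x (Kf P x β) + 1) := by
      rw [← EE_mul, ← EE_mul, ← EE_const (P := P) hx (1 : ℝ), ← EE_add, ← EE_add]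
      apply EE_congr
      intro A _
      simp only [EE_const hx]
      field_simp
      ring
    rw [e, EE_Kf hx hμ]
    have h3 := EE_Kf_sq hx hβ hμ hK
    have h4 : (1 / μ ^ 2) * EE P x (fun A => Kf P x β A ^ 2) ≤ (1 / μ ^ 2) * (μ ^ 2 + K * μ) :=
      mul_le_mul_of_nonneg_left h3 (by positivity)
    have h5 : (1 / μ ^ 2) * (μ ^ 2 + K * μ) = 1 + K / μ := by field_simp
    have h6 : -2 / μ * μ = -2 := by field_simp
    rw [h6]
    linarith only [h4, h5]
  have h3 : (1 / (2 * t)) * EE P x (fun A => (Kf P x β A / μ - 1) ^ 2) ≤ t / 2 := by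
    calc (1 / (2 * t)) * EE P x (fun A => (Kf P x β A / μ - 1) ^ 2) ≤ (1 / (2 * t)) * (K / μ) :=
          mul_le_mul_of_nonneg_left h2 (by positivity)
      _ = t / 2 := by rw [← ht2]; field_simp
  linarith

/-- **The block step.** -/
theorem block_step (hx : ∀ p, 0 < x p) (hβ : ∀ p, 0 ≤ β p) (hμ : ∑ p ∈ P, β p = μ)
    (hK : ∀ p, β p * ww x p ≤ K) (hμ0 : 0 < μ) (hK0 : 0 < K) {δ B : ℝ}
    (hδ : ∀ p, β p ≠ 0 → x p ≤ δ) (hB : 0 ≤ B) (F : Finset ℕ → E) (f : ℕ → Finset ℕ → E)
    (hF : ∀ A, A ⊆ P → ‖F A‖ ≤ B) (hf : ∀ p A, A ⊆ P → ‖f p A‖ ≤ B)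
    (hFf : ∀ p ∈ P, β p ≠ 0 → ∀ A, A ⊆ P → p ∉ A → F (insert p A) = f p A) :
    ‖EE P x F - ∑ p ∈ P, (β p / μ) • EE P x (f p)‖ ≤ B * (√(K / μ) + 2 * δ) := by
  have h1 : ‖EE P x F - EE P x (fun A => (Kf P x β A / μ) • F A)‖ ≤ B * √(K / μ) := by
    rw [← EE_sub]
    refine (norm_EE_le hx _).trans ?_
    have h2 : ∀ A, A ⊆ P → ‖F A - (Kf P x β A / μ) • F A‖ ≤ B * |Kf P x β A / μ - 1| := by
      intro A hA
      have e : F A - (Kf P x β A / μ) • F A = (1 - Kf P x β A / μ) • F A := by
        rw [sub_smul, one_smul]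
      rw [e, norm_smul, norm_eq_abs, abs_sub_comm, mul_comm]
      exact mul_le_mul_of_nonneg_right (hF A hA) (abs_nonneg _)
    refine (EE_mono hx h2).trans ?_
    rw [EE_mul]
    exact mul_le_mul_of_nonneg_left (EE_abs_Kf hx hβ hμ hK hμ0 hK0) hB
  have h3 : EE P x (fun A => (Kf P x β A / μ) • F A) =
      ∑ p ∈ P, (β p / μ) • EE P x (fun A => if p ∈ A then 0 else (1 + x p) • f p A) := by
    have e1 : EE P x (fun A => (Kf P x β A / μ) • F A) =
        μ⁻¹ • EE P x (fun A => Kf P x β A • F A) := by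
      rw [← EE_smul]
      apply EE_congr
      intro A _
      rw [smul_smul, div_eq_inv_mul]
    rw [e1, Kf_mul hx, Finset.smul_sum]
    apply Finset.sum_congr rfl
    intro p hp
    rw [smul_smul, ← div_eq_inv_mul]
    by_cases hb : β p = 0
    · rw [hb, zero_div, zero_smul, zero_smul]
    · congr 1
      apply EE_congr
      intro A hA
      split_ifs with h
      · rfl
      · rw [hFf p hp hb A hA h]
  have h4 : ∀ p ∈ P, ‖(β p / μ) • EE P x (fun A => if p ∈ A then 0 else (1 + x p) • f p A) -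
      (β p / μ) • EE P x (f p)‖ ≤ β p / μ * (B * (2 * δ)) := by
    intro p hp
    rw [← smul_sub, norm_smul, norm_eq_abs, abs_of_nonneg (div_nonneg (hβ p) hμ0.le)]
    by_cases hb : β p = 0
    · rw [hb, zero_div, zero_mul, zero_mul]
    apply mul_le_mul_of_nonneg_left _ (div_nonneg (hβ p) hμ0.le)
    rw [← EE_sub]
    refine (norm_EE_le hx _).trans ?_
    have hxp := hx p
    have h5 : ∀ A, A ⊆ P → ‖(if p ∈ A then 0 else (1 + x p) • f p A) - f p A‖ ≤
        B * ((if p ∈ A then 1 else 0) + (if p ∈ A then 0 else x p)) := by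
      intro A hA
      split_ifs with h
      · rw [zero_sub, norm_neg, add_zero, mul_one]
        exact hf p A hA
      · have e : (1 + x p) • f p A - f p A = x p • f p A := by rw [add_smul, one_smul]; abel
        rw [e, norm_smul, norm_eq_abs, abs_of_pos hxp, zero_add, mul_comm]
        exact mul_le_mul_of_nonneg_right (hf p A hA) hxp.le
    refine (EE_mono hx h5).trans ?_
    rw [EE_mul, EE_add]
    apply mul_le_mul_of_nonneg_left _ hB
    have h6 := EE_indep (E := ℝ) hx hp (fun _ => 1) (fun _ _ => rfl)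
    rw [EE_const hx] at h6
    have h7 : EE P x (fun A => if p ∈ A then (0 : ℝ) else x p) = x p / (1 + x p) := by
      have e : EE P x (fun A => if p ∈ A then (0 : ℝ) else x p) =
          (x p / (1 + x p)) * EE P x (fun A => if p ∈ A then 0 else (1 + x p) • (1 : ℝ)) := by
        rw [← EE_mul]
        apply EE_congr
        intro A _
        split_ifs
        · simp
        · rw [smul_eq_mul, mul_one]; field_simp
      rw [e, h6, mul_one]
    have h8 : EE P x (fun A => if p ∈ A then (1 : ℝ) else 0) = x p / (1 + x p) := by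
      have e : EE P x (fun A => if p ∈ A then (1 : ℝ) else 0) =
          EE P x (fun _ => (1 : ℝ)) -
            (1 / (1 + x p)) * EE P x (fun A => if p ∈ A then 0 else (1 + x p) • (1 : ℝ)) := by
        rw [← EE_mul, ← EE_sub]
        apply EE_congr
        intro A _
        split_ifs
        · simp
        · rw [smul_eq_mul, mul_one]; field_simp; simp
      rw [e, h6, EE_const hx]
      field_simp
      ring
    rw [h7, h8]
    have h9 : x p / (1 + x p) ≤ x p := by
      rw [div_le_iff₀ (by linarith)]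
      nlinarith only [hxp]
    have := hδ p hb
    linarith
  have h5 : ‖EE P x (fun A => (Kf P x β A / μ) • F A) - ∑ p ∈ P, (β p / μ) • EE P x (f p)‖ ≤
      B * (2 * δ) := by
    rw [h3, ← Finset.sum_sub_distrib]
    refine (norm_sum_le _ _).trans ((Finset.sum_le_sum h4).trans (le_of_eq ?_))
    rw [← Finset.sum_mul, ← Finset.sum_div, hμ, div_self hμ0.ne', one_mul]
  have h6 : EE P x F - ∑ p ∈ P, (β p / μ) • EE P x (f p) =
      (EE P x F - EE P x (fun A => (Kf P x β A / μ) • F A)) +
      (EE P x (fun A => (Kf P x β A / μ) • F A) - ∑ p ∈ P, (β p / μ) • EE P x (f p)) := by abel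
  rw [h6]
  refine (norm_add_le _ _).trans ?_
  linarith

end

end Pool.Agent.MP0016c7.Ros
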