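import Mathlib
import Pool.Agent.Lib.MP_0016c7_nt.CdlMean

open Real Set Filter Topology

namespace Pool.Agent.MP0016c7.Ros

variable {N : ℕ} [NeZero N] {χ : DirichletCharacter ℂ N}

/-- the second summatory function -/
noncomputable def Dv (χ : DirichletCharacter ℂ N) (u : ℝ) : ℝ :=
  ∑ k ∈ Finset.range (⌊u⌋₊ + 1), rchar χ k * (u - k)

omit [NeZero N] in
lemma Dv_eq_max {u : ℝ} {M : ℕ} (h : ⌊u⌋₊ ≤ M) :
    Dv χ u = ∑ k ∈ Finset.range (M + 1), rchar χ k * max (u - k) 0 := by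
  unfold Dv
  have h1 : ∑ k ∈ Finset.range (⌊u⌋₊ + 1), rchar χ k * (u - k) =
      ∑ k ∈ Finset.range (⌊u⌋₊ + 1), rchar χ k * max (u - k) 0 := by
    apply Finset.sum_congr rfl
    intro k hk
    rw [Finset.mem_range, Nat.lt_succ_iff] at hk
    rcases Nat.eq_zero_or_pos k with rfl | hk0
    · simp
    · have : (k : ℝ) ≤ u := (Nat.le_floor_iff' hk0.ne').mp hk
      rw [max_eq_left (by linarith)]
  rw [h1]
  apply Finset.sum_subset
  · intro k hk
    rw [Finset.mem_range] at hk ⊢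
    omega
  · intro k _ hk
    rw [Finset.mem_range, not_lt] at hk
    have h2 : u < k := (Nat.floor_lt' (by omega)).mp (by omega)
    rw [max_eq_right (by linarith), mul_zero]

omit [NeZero N] in
lemma Dv_of_le_one {u : ℝ} (hu : u ≤ 1) : Dv χ u = 0 := by
  have h1 : ⌊u⌋₊ ≤ 1 := Nat.floor_le_one_of_le_one hu
  rw [Dv_eq_max h1, Finset.sum_range_succ, Finset.sum_range_one]
  have h2 : max (u - ((1 : ℕ) : ℝ)) 0 = 0 := by
    rw [max_eq_right]; push_cast; linarith
  rw [h2]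
  simp

omit [NeZero N] in
lemma continuous_Dv : Continuous (Dv χ) := by
  rw [continuous_iff_continuousAt]
  intro u
  obtain ⟨M, hM⟩ : ∃ M : ℕ, ⌊u + 1⌋₊ ≤ M := ⟨_, le_rfl⟩
  have h1 : (fun v => ∑ k ∈ Finset.range (M + 1), rchar χ k * max (v - k) 0) =ᶠ[𝓝 u] Dv χ := by
    filter_upwards [Iio_mem_nhds (by linarith : u < u + 1)] with v hv
    exact (Dv_eq_max ((Nat.floor_mono (le_of_lt hv)).trans hM)).symm
  refine ContinuousAt.congr ?_ h1
  fun_prop

omit [NeZero N] in
lemma Sn_range (m : ℕ) : ∑ k ∈ Finset.range (m + 1), rchar χ k = Sn χ m :=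
  (Sn_sub_range m (by simp)).symm

omit [NeZero N] in
/-- right derivative -/
lemma hasDerivWithinAt_Dv {u : ℝ} (hu : 0 ≤ u) :
    HasDerivWithinAt (Dv χ) (Sn χ ⌊u⌋₊) (Ici u) u := by
  have h1 : HasDerivAt (fun v : ℝ => ∑ k ∈ Finset.range (⌊u⌋₊ + 1), rchar χ k * (v - k))
      (∑ k ∈ Finset.range (⌊u⌋₊ + 1), rchar χ k * 1) u := by
    apply HasDerivAt.fun_sum
    intro k _
    exact ((hasDerivAt_id u).sub_const _).const_mul _
  simp only [mul_one, Sn_range] at h1
  refine h1.hasDerivWithinAt.congr_of_eventuallyEq ?_ rfl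
  have h2 : (⌊u⌋₊ : ℝ) ≤ u := Nat.floor_le hu
  have h3 : u < (⌊u⌋₊ : ℝ) + 1 := Nat.lt_floor_add_one u
  filter_upwards [self_mem_nhdsWithin, mem_nhdsWithin_of_mem_nhds (Iio_mem_nhds h3)] with v hv hv'
  have : ⌊v⌋₊ = ⌊u⌋₊ := by
    rw [Nat.floor_eq_iff (hu.trans hv)]
    exact ⟨h2.trans hv, hv'⟩
  unfold Dv
  rw [this]

/-- Lipschitz bound -/
lemma abs_Dv_sub_le (hne : χ ≠ 1) (u v : ℝ) : |Dv χ u - Dv χ v| ≤ N * |u - v| := by
  have key : ∀ u v : ℝ, 0 ≤ u → u ≤ v → |Dv χ v - Dv χ u| ≤ N * (v - u) := by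
    intro u v hu huv
    have := norm_image_sub_le_of_norm_deriv_right_le_segment (f := Dv χ)
      (f' := fun x => Sn χ ⌊x⌋₊) (a := u) (b := v) (C := (N : ℝ)) continuous_Dv.continuousOn
      (fun x hx => hasDerivWithinAt_Dv (hu.trans hx.1))
      (fun x _ => by rw [norm_eq_abs]; exact abs_Sn_le hne _) v (right_mem_Icc.mpr huv)
    simpa using this
  have key2 : ∀ u v : ℝ, u ≤ v → |Dv χ v - Dv χ u| ≤ N * (v - u) := by
    intro u v huv
    rcases le_total 0 u with hu | hu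
    · exact key u v hu huv
    · rw [Dv_of_le_one (hu.trans zero_le_one)]
      rcases le_total 0 v with hv | hv
      · have := key 0 v le_rfl hv
        rw [Dv_of_le_one zero_le_one] at this
        refine this.trans (mul_le_mul_of_nonneg_left (by linarith) (Nat.cast_nonneg N))
      · rw [Dv_of_le_one (hv.trans zero_le_one)]
        simp only [sub_self, abs_zero]
        exact mul_nonneg (Nat.cast_nonneg N) (by linarith)
  rcases le_total u v with h | h
  · rw [abs_sub_comm, abs_sub_comm u v, abs_of_nonneg (by linarith : 0 ≤ v - u)]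
    exact key2 u v h
  · rw [abs_of_nonneg (by linarith : 0 ≤ u - v)]
    exact key2 v u h

omit [NeZero N] in
lemma rchar_reflect_even (hN : N ≠ 1) (he : χ.Even) {j : ℕ} (hj : j ≤ N) :
    rchar χ (N - j) = rchar χ j := by
  have e0 : ((0 : ℕ) : ZMod N) = (N : ZMod N) := by simp
  have key : ∀ n : ℕ, rchar χ n = (χ (n : ZMod N)).re := by
    intro n
    rcases Nat.eq_zero_or_pos n with rfl | h
    · rw [Nat.cast_zero, χ.map_zero' hN]; simp
    · rw [rchar_apply χ h.ne']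
  rw [key, key, Nat.cast_sub hj, ZMod.natCast_self, zero_sub, he.eval_neg]

lemma rchar_modulus (hN : N ≠ 1) : rchar χ N = 0 := by
  rw [rchar_apply χ (NeZero.ne N), ZMod.natCast_self, χ.map_zero' hN]; simp

lemma sum_rchar_range' (hne : χ ≠ 1) : ∑ k ∈ Finset.range (N + 1), rchar χ k = 0 := by
  rw [Finset.sum_range_succ, sum_rchar_range hne, rchar_modulus (modulus_ne_one hne), add_zero]

lemma sum_rchar_mul (hne : χ ≠ 1) (he : χ.Even) :
    ∑ k ∈ Finset.range (N + 1), rchar χ k * (k : ℝ) = 0 := by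
  have hN := modulus_ne_one hne
  have h1 := Finset.sum_range_reflect (fun k => rchar χ k * (k : ℝ)) (N + 1)
  have h3 : ∑ j ∈ Finset.range (N + 1), rchar χ (N + 1 - 1 - j) * ((N + 1 - 1 - j : ℕ) : ℝ) =
      ∑ j ∈ Finset.range (N + 1), (N * rchar χ j - rchar χ j * j) := by
    apply Finset.sum_congr rfl
    intro j hj
    rw [Finset.mem_range, Nat.lt_succ_iff] at hj
    rw [Nat.add_sub_cancel, rchar_reflect_even hN he hj, Nat.cast_sub hj]
    ring
  rw [h3, Finset.sum_sub_distrib, ← Finset.mul_sum, sum_rchar_range' hne] at h1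
  linarith

lemma Dv_add_N (hne : χ ≠ 1) (he : χ.Even) {u : ℝ} (hu : 0 ≤ u) :
    Dv χ (u + N) = Dv χ u := by
  have hN := modulus_ne_one hne
  unfold Dv
  rw [Nat.floor_add_natCast hu, show ⌊u⌋₊ + N + 1 = N + (⌊u⌋₊ + 1) by ring, Finset.sum_range_add]
  have h3 : ∑ k ∈ Finset.range N, rchar χ k * (u + N - k) = 0 := by
    have h4 := sum_rchar_range hne
    have h5 := sum_rchar_mul hne he
    rw [Finset.sum_range_succ, rchar_modulus hN, zero_mul, add_zero] at h5
    have : ∑ k ∈ Finset.range N, rchar χ k * (u + N - k) =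
        (u + N) * ∑ k ∈ Finset.range N, rchar χ k - ∑ k ∈ Finset.range N, rchar χ k * (k : ℝ) := by
      rw [Finset.mul_sum, ← Finset.sum_sub_distrib]
      exact Finset.sum_congr rfl fun k _ => by ring
    rw [this, h4, h5]; ring
  rw [h3, zero_add]
  apply Finset.sum_congr rfl
  intro k _
  rw [Nat.add_comm N k, rchar_add_N hN]
  push_cast
  ring

lemma Dv_add_mul (hne : χ ≠ 1) (he : χ.Even) {u : ℝ} (hu : 0 ≤ u) (j : ℕ) :
    Dv χ (u + N * j) = Dv χ u := by
  induction j with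
  | zero => simp
  | succ j ih =>
    have : u + N * ((j + 1 : ℕ) : ℝ) = (u + N * j) + N := by push_cast; ring
    rw [this, Dv_add_N hne he (by (clear * - hu; positivity)), ih]

lemma Dv_symm (hne : χ ≠ 1) (he : χ.Even) {u : ℝ} (hu : 0 ≤ u) (hu' : u ≤ N) :
    Dv χ (N - u) = Dv χ u := by
  have hN := modulus_ne_one hne
  have f1 : ⌊(N : ℝ) - u⌋₊ ≤ N := by
    have := Nat.floor_mono (by linarith : (N : ℝ) - u ≤ N)
    simpa using this
  have f2 : ⌊u⌋₊ ≤ N := by
    have := Nat.floor_mono hu'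
    simpa using this
  rw [Dv_eq_max f1, Dv_eq_max f2,
    ← Finset.sum_range_reflect (fun k => rchar χ k * max ((N : ℝ) - u - k) 0) (N + 1)]
  have h3 : ∑ j ∈ Finset.range (N + 1),
      rchar χ (N + 1 - 1 - j) * max ((N : ℝ) - u - ((N + 1 - 1 - j : ℕ) : ℝ)) 0 =
      ∑ j ∈ Finset.range (N + 1), ((rchar χ j * j - u * rchar χ j) +
        rchar χ j * max (u - j) 0) := by
    apply Finset.sum_congr rfl
    intro j hj
    rw [Finset.mem_range, Nat.lt_succ_iff] at hj
    rw [Nat.add_sub_cancel, rchar_reflect_even hN he hj, Nat.cast_sub hj]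
    have e : (N : ℝ) - u - (N - j) = j - u := by ring
    rw [e]
    rcases le_total u j with h | h
    · rw [max_eq_left (by linarith), max_eq_right (by linarith)]; ring
    · rw [max_eq_right (by linarith), max_eq_left (by linarith)]; ring
  rw [h3, Finset.sum_add_distrib, Finset.sum_sub_distrib, ← Finset.mul_sum,
    sum_rchar_range' hne, sum_rchar_mul hne he]
  ring

/-- reduction to the fundamental interval -/
lemma Dv_reduce (hne : χ ≠ 1) (he : χ.Even) {u : ℝ} (hu : 0 ≤ u) :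
    ∃ v : ℝ, 0 ≤ v ∧ v ≤ N / 2 ∧ Dv χ u = Dv χ v ∧ (v ≤ u) := by
  have hN0 : (0 : ℝ) < N := by exact_mod_cast NeZero.pos N
  set j := ⌊u / N⌋₊ with hj
  have h3 : (j : ℝ) ≤ u / N := Nat.floor_le (by positivity)
  have h4 : u / N < j + 1 := Nat.lt_floor_add_one _
  rw [le_div_iff₀ hN0] at h3
  rw [div_lt_iff₀ hN0] at h4
  set r := u - N * j with hr
  have r0 : 0 ≤ r := by linarith
  have r1 : r ≤ N := by linarith
  have h5 : Dv χ u = Dv χ r := by
    rw [← Dv_add_mul hne he r0 j]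
    congr 1
    rw [hr]; ring
  have hju : 0 ≤ (N : ℝ) * j := by positivity
  rcases le_total r (N / 2) with h | h
  · exact ⟨r, r0, h, h5, by linarith⟩
  · exact ⟨N - r, by linarith, by linarith, by rw [h5, Dv_symm hne he r0 r1], by linarith⟩

lemma abs_Dv_le (hne : χ ≠ 1) (he : χ.Even) (u : ℝ) :
    |Dv χ u| ≤ (N : ℝ) ^ 2 := by
  rcases le_total u 0 with hu | hu
  · rw [Dv_of_le_one (hu.trans zero_le_one), abs_zero]; positivity
  obtain ⟨v, hv, hv', h, _⟩ := Dv_reduce hne he hu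
  rw [h]
  have := abs_Dv_sub_le hne v 0
  rw [Dv_of_le_one zero_le_one, sub_zero, sub_zero, abs_of_nonneg hv] at this
  refine this.trans ?_
  rw [sq]
  exact mul_le_mul_of_nonneg_left (by linarith [Nat.cast_nonneg (α := ℝ) N]) (Nat.cast_nonneg N)

end Pool.Agent.MP0016c7.Ros
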