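import Mathlib
import Pool.Agent.Lib.MP_0016c7_nt.EvD

open Real Set MeasureTheory Filter Topology

namespace Pool.Agent.MP0016c7.Ros

open DirichletCharacter

variable {N : ℕ} [NeZero N] {χ : DirichletCharacter ℂ N}

/-- the Laplace transform of the smoothed sum -/
noncomputable def JD (χ : DirichletCharacter ℂ N) (a : ℝ) : ℝ :=
  ∫ y : ℝ, rexp (-(a * y)) * Dv χ (rexp y)

omit [NeZero N] in
lemma Dv_exp_nonpos {y : ℝ} (hy : y ≤ 0) : Dv χ (rexp y) = 0 :=
  Dv_of_le_one (by rw [exp_le_one_iff]; exact hy)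

lemma integrableOn_exp_neg' {a : ℝ} (ha : 0 < a) (c : ℝ) :
    IntegrableOn (fun y : ℝ => rexp (-(a * y))) (Ioi c) := by
  have h := integrableOn_exp_mul_Ioi (by linarith : -a < 0) c
  exact h.congr_fun (fun y _ => by simp only [neg_mul]) measurableSet_Ioi

lemma integral_exp_neg_Ioi' {a : ℝ} (ha : 0 < a) (c : ℝ) :
    ∫ y in Ioi c, rexp (-(a * y)) = rexp (-(a * c)) / a := by
  have h := integral_exp_mul_Ioi (by linarith : -a < 0) c
  have e : ∀ y : ℝ, rexp (-(a * y)) = rexp (-a * y) := fun y => by congr 1; ring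
  simp_rw [e]
  rw [h]
  field_simp

lemma integrable_JD (hne : χ ≠ 1) (he : χ.Even) {a : ℝ} (ha : 0 < a) :
    Integrable (fun y : ℝ => rexp (-(a * y)) * Dv χ (rexp y)) := by
  have h1 : IntegrableOn (fun y : ℝ => rexp (-(a * y)) * Dv χ (rexp y)) (Ioi 0) := by
    refine Integrable.mono' ((integrableOn_exp_neg' ha 0).const_mul ((N : ℝ) ^ 2)) ?_ ?_
    · apply Continuous.aestronglyMeasurable
      exact (by fun_prop : Continuous fun y : ℝ => rexp (-(a * y))).mul
        (continuous_Dv.comp continuous_exp)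
    · refine Eventually.of_forall fun y => ?_
      rw [Real.norm_eq_abs, abs_mul, abs_of_pos (exp_pos _), mul_comm]
      exact mul_le_mul_of_nonneg_right (abs_Dv_le hne he _) (exp_pos _).le
  have h2 : (fun y : ℝ => rexp (-(a * y)) * Dv χ (rexp y)) =
      (Ioi (0 : ℝ)).indicator (fun y : ℝ => rexp (-(a * y)) * Dv χ (rexp y)) := by
    ext y
    by_cases h : 0 < y
    · rw [indicator_of_mem (show y ∈ Ioi (0 : ℝ) from h)]
    · rw [indicator_of_notMem (show y ∉ Ioi (0 : ℝ) from h), Dv_exp_nonpos (not_lt.mp h),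
        mul_zero]
  rw [h2, integrable_indicator_iff measurableSet_Ioi]
  exact h1

omit [NeZero N] in
lemma JD_eq (a : ℝ) : JD χ a = ∫ y in Ioi (0 : ℝ), rexp (-(a * y)) * Dv χ (rexp y) := by
  unfold JD
  rw [← integral_indicator measurableSet_Ioi]
  congr 1
  ext y
  by_cases h : 0 < y
  · rw [indicator_of_mem (show y ∈ Ioi (0 : ℝ) from h)]
  · rw [indicator_of_notMem (show y ∉ Ioi (0 : ℝ) from h), Dv_exp_nonpos (not_lt.mp h),
      mul_zero]

/-- one hinge -/
lemma hinge_int {a : ℝ} (ha : 1 < a) {k : ℕ} (hk : 1 ≤ k) :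
    Integrable (fun y : ℝ => rexp (-(a * y)) * max (rexp y - k) 0) ∧
    ∫ y : ℝ, rexp (-(a * y)) * max (rexp y - k) 0 = xs (a - 1) k / (a * (a - 1)) := by
  have hk0 : (0 : ℝ) < k := by exact_mod_cast hk
  have ha0 : 0 < a := by linarith
  have ha1 : 0 < a - 1 := by linarith
  have e1 : (fun y : ℝ => rexp (-(a * y)) * max (rexp y - k) 0) =
      (Ioi (lg k)).indicator (fun y : ℝ => rexp (-((a - 1) * y)) - k * rexp (-(a * y))) := by
    ext y
    by_cases h : lg k < y
    · rw [indicator_of_mem (show y ∈ Ioi (lg k) from h)]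
      have h1 : (k : ℝ) < rexp y := by
        unfold lg at h
        rwa [Real.log_lt_iff_lt_exp hk0] at h
      rw [max_eq_left (by linarith), mul_sub, ← exp_add]
      have : -(a * y) + y = -((a - 1) * y) := by ring
      rw [this]; ring
    · rw [indicator_of_notMem (show y ∉ Ioi (lg k) from h)]
      have h1 : rexp y ≤ k := by
        unfold lg at h
        rw [not_lt, Real.le_log_iff_exp_le hk0] at h
        exact h
      rw [max_eq_right (by linarith), mul_zero]
  have i1 := integrableOn_exp_neg' ha1 (lg k)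
  have i2 := (integrableOn_exp_neg' ha0 (lg k)).const_mul (k : ℝ)
  rw [e1]
  constructor
  · rw [integrable_indicator_iff measurableSet_Ioi]
    exact i1.sub i2
  · rw [integral_indicator measurableSet_Ioi, integral_sub i1 i2, integral_const_mul,
      integral_exp_neg_Ioi' ha1, integral_exp_neg_Ioi' ha0]
    have h2 : (k : ℝ) * rexp (-(a * lg k)) = rexp (-((a - 1) * lg k)) := by
      have : (k : ℝ) = rexp (lg k) := by unfold lg; rw [exp_log hk0]
      nth_rewrite 1 [this]
      rw [← exp_add]; congr 1; ring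
    rw [mul_div_assoc', h2]
    unfold xs
    field_simp
    ring

omit [NeZero N] in
lemma tsum_hinge (y : ℝ) :
    ∑' k : ℕ, rchar χ k * max (rexp y - k) 0 = Dv χ (rexp y) := by
  rw [Dv_eq_max (M := ⌊rexp y⌋₊) le_rfl]
  rw [tsum_eq_sum (s := Finset.range (⌊rexp y⌋₊ + 1))]
  intro k hk
  rw [Finset.mem_range, not_lt] at hk
  have h1 : rexp y < k := by
    have h2 := Nat.lt_floor_add_one (rexp y)
    have h3 : ((⌊rexp y⌋₊ + 1 : ℕ) : ℝ) ≤ k := by exact_mod_cast hk
    push_cast at h3
    linarith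
  rw [max_eq_right (by linarith), mul_zero]

/-- the transform in the half plane of convergence -/
theorem JD_of_two_lt (hne : χ ≠ 1) (h2 : χ ^ 2 = 1) {a : ℝ} (ha : 2 < a) :
    a * JD χ a = Lr χ (a - 1) / (a - 1) := by
  have ha0 : 0 < a := by linarith
  have ha1 : 0 < a - 1 := by linarith
  set F : ℕ → ℝ → ℝ := fun k y => rchar χ k * (rexp (-(a * y)) * max (rexp y - k) 0) with hF
  have hzero : ∀ y, F 0 y = 0 := fun y => by simp [hF]
  have hint : ∀ k, Integrable (F k) := by
    intro k
    rcases Nat.eq_zero_or_pos k with rfl | hk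
    · have : F 0 = fun _ => 0 := by ext y; exact hzero y
      rw [this]
      exact integrable_zero _ _ _
    · exact (hinge_int (by linarith) hk).1.const_mul _
  have hval : ∀ k, ∫ y, F k y = rchar χ k * xs (a - 1) k / (a * (a - 1)) := by
    intro k
    rcases Nat.eq_zero_or_pos k with rfl | hk
    · simp [hF]
    · simp only [hF]
      rw [integral_const_mul, (hinge_int (by linarith) hk).2]
      ring
  have hnorm : ∀ k, ∫ y, ‖F k y‖ ≤ xs (a - 1) k / (a * (a - 1)) := by
    intro k
    have hx := xs_pos (a - 1) k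
    rcases Nat.eq_zero_or_pos k with rfl | hk
    · simp only [hzero, norm_zero, integral_zero]
      positivity
    · have h1 := hinge_int (by linarith : 1 < a) hk
      have e : ∀ y, ‖F k y‖ = |rchar χ k| * (rexp (-(a * y)) * max (rexp y - k) 0) := by
        intro y
        simp only [hF]
        rw [norm_mul, Real.norm_eq_abs, Real.norm_eq_abs,
          abs_of_nonneg (mul_nonneg (exp_pos _).le (le_max_right _ _))]
      simp_rw [e]
      rw [integral_const_mul, h1.2]
      exact mul_le_of_le_one_left (by positivity) (abs_rchar_le h2 k)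
  have hxs : ∀ k : ℕ, 1 ≤ k → xs (a - 1) k = 1 / (k : ℝ) ^ (a - 1) := by
    intro k hk
    have hk0 : (0 : ℝ) < k := by exact_mod_cast hk
    unfold xs lg
    rw [Real.rpow_def_of_pos hk0, exp_neg, one_div, mul_comm (Real.log k)]
  have hsum : Summable fun k => ∫ y, ‖F k y‖ := by
    have h3 : Summable fun k : ℕ => 1 / (k : ℝ) ^ (a - 1) :=
      Real.summable_one_div_nat_rpow.mpr (by linarith)
    have h4 := h3.div_const (a * (a - 1))
    refine (summable_nat_add_iff 1).mp ?_
    refine Summable.of_nonneg_of_le (fun k => integral_nonneg fun y => norm_nonneg _)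
      (fun k => ?_) ((summable_nat_add_iff 1).mpr h4)
    refine (hnorm (k + 1)).trans (le_of_eq ?_)
    rw [hxs (k + 1) (by omega)]
  have key := hasSum_integral_of_summable_integral_norm hint hsum
  have h5 : ∫ y, ∑' k, F k y = JD χ a := by
    unfold JD
    congr 1
    ext y
    rw [← tsum_hinge (χ := χ) y, ← tsum_mul_left]
    congr 1
    ext k
    simp only [hF]
    ring
  rw [h5] at key
  simp_rw [hval] at key
  have h6 := key.tendsto_sum_nat
  have h7 : Tendsto (fun n : ℕ => ∑ k ∈ Finset.range (n + 1),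
      rchar χ k * xs (a - 1) k / (a * (a - 1))) atTop (𝓝 (JD χ a)) :=
    (tendsto_add_atTop_iff_nat 1).mpr h6
  have h8 : Tendsto (fun n : ℕ => ∑ k ∈ Finset.range (n + 1),
      rchar χ k * xs (a - 1) k / (a * (a - 1))) atTop (𝓝 (Lr χ (a - 1) / (a * (a - 1)))) := by
    have h9 : ∀ n : ℕ, ∑ k ∈ Finset.range (n + 1), rchar χ k * xs (a - 1) k / (a * (a - 1)) =
        (∑ k ∈ Finset.Icc 1 n, rchar χ k * xs (a - 1) k) / (a * (a - 1)) := by
      intro n
      rw [Finset.sum_div, Finset.range_eq_Ico, Finset.sum_eq_sum_Ico_succ_bot (by omega)]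
      simp only [ArithmeticFunction.map_zero, zero_mul, zero_div, zero_add]
      apply Finset.sum_congr _ (fun _ _ => rfl)
      ext k
      simp only [Finset.mem_Ico, Finset.mem_Icc]
      omega
    simp_rw [h9]
    apply Tendsto.div_const
    rw [tendsto_iff_norm_sub_tendsto_zero]
    have h10 : Tendsto (fun n : ℕ => (N : ℝ) * xs (a - 1) (n + 1)) atTop (𝓝 0) := by
      have := (tendsto_xs ha1).const_mul (N : ℝ)
      rwa [mul_zero] at this
    refine squeeze_zero (fun n => norm_nonneg _) (fun n => ?_) h10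
    rw [Real.norm_eq_abs]
    exact abs_partial_sub hne h2 ha1 n
  have h9 := tendsto_nhds_unique h7 h8
  rw [h9]
  field_simp

end Pool.Agent.MP0016c7.Ros
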