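import Mathlib
import Pool.Agent.Lib.MP_0016c7_nt.FekKer

open Real Set MeasureTheory Filter Topology

namespace Pool.Agent.MP0016c7.Ros

variable {P : ℝ → Finset ℕ} {C₀ : ℝ} {C₁ Cs : ℝ → ℝ}

/-- a Lipschitz kernel with exponential decay -/
structure NiceC (k k' : ℝ → ℝ) (B : ℝ) : Prop where
  cont : Continuous k
  meas : Measurable k'
  deriv : ∃ S : Set ℝ, S.Countable ∧ ∀ v ∉ S, HasDerivAt k (k' v) v
  bound : ∀ v, |k v| + |k' v| ≤ B * rexp (-(2 * |v|))

lemma NiceC.mirror {k k' : ℝ → ℝ} {B : ℝ} (h : NiceC k k' B) :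
    NiceC (fun v => k (-v)) (fun v => -(k' (-v))) B where
  cont := h.cont.comp continuous_neg
  meas := (h.meas.comp measurable_neg).neg
  deriv := by
    obtain ⟨S, hS, hd⟩ := h.deriv
    refine ⟨(fun v => -v) ⁻¹' S, hS.preimage neg_injective, fun v hv => ?_⟩
    have h1 := hd (-v) hv
    have h2 := h1.comp v (hasDerivAt_neg v)
    refine h2.congr_deriv ?_
    ring
  bound := fun v => by
    have := h.bound (-v)
    rw [abs_neg v] at this
    rw [abs_neg (k' (-v))]
    exact this

namespace NiceC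

variable {k k' : ℝ → ℝ} {B : ℝ} (hk : NiceC k k' B)
include hk

lemma B_nonneg : 0 ≤ B := by
  have h := hk.bound 0
  simp at h
  have h1 := abs_nonneg (k 0)
  have h2 := abs_nonneg (k' 0)
  linarith

lemma abs_le (v : ℝ) : |k v| ≤ B * rexp (-(2 * |v|)) := by
  have := hk.bound v
  have := abs_nonneg (k' v)
  linarith

lemma abs_le' (v : ℝ) : |k' v| ≤ B * rexp (-(2 * |v|)) := by
  have := hk.bound v
  have := abs_nonneg (k v)
  linarith

lemma integrable : Integrable k := by
  refine Integrable.mono' ((integrable_exp_abs two_pos).const_mul B)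
    hk.cont.aestronglyMeasurable (Eventually.of_forall fun v => ?_)
  exact hk.abs_le v

lemma integrable' : Integrable k' := by
  refine Integrable.mono' ((integrable_exp_abs two_pos).const_mul B)
    hk.meas.aestronglyMeasurable (Eventually.of_forall fun v => ?_)
  exact hk.abs_le' v

lemma tendsto_top : Tendsto k atTop (𝓝 0) :=
  squeeze_zero_norm (fun v => hk.abs_le v) Nice.tendsto_bound_top

lemma tendsto_bot : Tendsto k atBot (𝓝 0) :=
  squeeze_zero_norm (fun v => hk.abs_le v) Nice.tendsto_bound_bot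

lemma ftc {a b : ℝ} (hab : a ≤ b) : ∫ v in a..b, k' v = k b - k a := by
  obtain ⟨S, hS, hd⟩ := hk.deriv
  exact integral_eq_of_hasDerivAt_off_countable_of_le k k' hab hS hk.cont.continuousOn
    (fun v hv => hd v hv.2) hk.integrable'.intervalIntegrable

lemma ftc_exp {a b : ℝ} (hab : a ≤ b) :
    ∫ v in a..b, rexp v * (k' v + k v) = rexp b * k b - rexp a * k a := by
  obtain ⟨S, hS, hd⟩ := hk.deriv
  refine integral_eq_of_hasDerivAt_off_countable_of_le (fun v => rexp v * k v)
    (fun v => rexp v * (k' v + k v)) hab hS (continuous_exp.mul hk.cont).continuousOn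
    (fun v hv => ?_) ?_
  · have := (Real.hasDerivAt_exp v).mul (hd v hv.2)
    refine this.congr_deriv ?_
    ring
  · apply IntervalIntegrable.continuousOn_mul
    · exact hk.integrable'.intervalIntegrable.add hk.integrable.intervalIntegrable
    · exact continuous_exp.continuousOn

lemma integral_deriv : ∫ v, k' v = 0 := by
  have h1 := intervalIntegral_tendsto_integral (l := atTop) (a := fun n : ℕ => -(n : ℝ))
    (b := fun n : ℕ => (n : ℝ)) hk.integrable'
    (tendsto_neg_atTop_atBot.comp tendsto_natCast_atTop_atTop) tendsto_natCast_atTop_atTop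
  have h2 : ∀ n : ℕ, ∫ v in (-(n : ℝ))..(n : ℝ), k' v = k n - k (-(n : ℝ)) := fun n =>
    hk.ftc (by have : (0 : ℝ) ≤ n := Nat.cast_nonneg n
               linarith)
  simp_rw [h2] at h1
  have h3 : Tendsto (fun n : ℕ => k n - k (-(n : ℝ))) atTop (𝓝 (0 - 0)) :=
    (hk.tendsto_top.comp tendsto_natCast_atTop_atTop).sub
      (hk.tendsto_bot.comp (tendsto_neg_atTop_atBot.comp tendsto_natCast_atTop_atTop))
  rw [sub_zero] at h3
  exact tendsto_nhds_unique h1 h3

/-- reproducing formula -/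
lemma repro (w : ℝ) : k w = ∫ v, kt 1 (w - v) * (k' v + k v) := by
  have hint : IntegrableOn (fun v => rexp v * (k' v + k v)) (Iic w) := by
    have hi : IntegrableOn (fun v => k' v + k v) (Iic w) :=
      (hk.integrable'.add hk.integrable).integrableOn
    refine Integrable.bdd_mul (c := rexp w) hi ?_ ?_
    · exact continuous_exp.aestronglyMeasurable
    · rw [ae_restrict_iff' measurableSet_Iic]
      refine Eventually.of_forall fun v hv => ?_
      rw [Real.norm_eq_abs, abs_of_pos (exp_pos v)]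
      exact exp_le_exp.mpr hv
  have hlim : Tendsto (fun v => rexp v * k v) atBot (𝓝 0) := by
    have := Real.tendsto_exp_atBot.mul hk.tendsto_bot
    rwa [zero_mul] at this
  have h2 : ∫ v in Iic w, rexp v * (k' v + k v) = rexp w * k w := by
    have hb : Tendsto (fun n : ℕ => w - (n : ℝ)) atTop atBot := by
      have := tendsto_atBot_add_const_left atTop w
        (tendsto_neg_atTop_atBot.comp (tendsto_natCast_atTop_atTop (R := ℝ)))
      exact this
    have h1 := intervalIntegral_tendsto_integral_Iic w hint hb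
    have h3 : ∀ n : ℕ, ∫ v in (w - (n : ℝ))..w, rexp v * (k' v + k v) =
        rexp w * k w - rexp (w - (n : ℝ)) * k (w - (n : ℝ)) := fun n =>
      hk.ftc_exp (by have : (0 : ℝ) ≤ n := Nat.cast_nonneg n
                     linarith)
    simp_rw [h3] at h1
    have h4 : Tendsto (fun n : ℕ => rexp w * k w - rexp (w - (n : ℝ)) * k (w - (n : ℝ))) atTop
        (𝓝 (rexp w * k w - 0)) := (hlim.comp hb).const_sub _
    rw [sub_zero] at h4
    exact tendsto_nhds_unique h1 h4
  have h3 : ∫ v, kt 1 (w - v) * (k' v + k v) =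
      rexp (-w) * ∫ v in Iic w, rexp v * (k' v + k v) := by
    rw [← integral_const_mul, ← integral_indicator measurableSet_Iic]
    congr 1
    ext v
    unfold kt
    by_cases h : v ≤ w
    · rw [indicator_of_mem (show v ∈ Iic w from h), if_pos (by linarith)]
      have : rexp (-(1 * (w - v))) = rexp (-w) * rexp v := by
        rw [← exp_add]; congr 1; ring
      rw [this]; ring
    · rw [indicator_of_notMem (show v ∉ Iic w from h), if_neg (by linarith), zero_mul]
  rw [h3, h2, ← mul_assoc, ← exp_add]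
  simp

lemma Ef_eq (σ Λ X : ℝ) :
    Ef (P Λ) (xs σ) lg (fun s => k (X - s)) = ∫ v, al P 1 σ Λ (X - v) * (k' v + k v) := by
  have hi : Integrable fun v => k' v + k v := hk.integrable'.add hk.integrable
  unfold al Ef
  simp_rw [div_mul_eq_mul_div, Finset.sum_mul]
  rw [integral_div, integral_finsetSum]
  · congr 1
    apply Finset.sum_congr rfl
    intro A _
    rw [hk.repro (X - Sm lg A), ← integral_const_mul]
    congr 1
    ext v
    have : X - Sm lg A - v = X - v - Sm lg A := by ring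
    rw [this]
    ring
  · intro A _
    have h := hi.bdd_mul (c := 1) (f := fun v => kt 1 (X - v - Sm lg A))
      (((measurable_kt 1).comp (by fun_prop)).aestronglyMeasurable) (by
        filter_upwards with t
        rw [Real.norm_eq_abs, abs_of_nonneg (kt_nonneg _ _)]
        exact kt_le_one zero_le_one _)
    refine (h.const_mul (Wt (xs σ) A)).congr ?_
    filter_upwards with t
    ring

/-- the kernel sees the flat part only -/
theorem approx {ε U D c σ Λ X G : ℝ} (hf : Flat P ε U D c σ Λ X G) (hε : 0 < ε) (hD : 0 < D)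
    (hX0 : 0 < X) (hX : X * rexp (-(X / 2)) ≤ ε * c) :
    G * ((∫ v, k v) - 2 * B * (2 * ε + (D + 1) * rexp (-U))) ≤
      Ef (P Λ) (xs σ) lg (fun s => k (X - s)) := by
  have hB := hk.B_nonneg
  have hG := hf.pos
  have hi : Integrable fun v => k' v + k v := hk.integrable'.add hk.integrable
  have hex : rexp (-(X / 2)) ≤ ε * G := by
    have h1 : rexp (-(X / 2)) ≤ ε * c / X := by
      rw [le_div_iff₀ hX0]; linarith
    refine h1.trans ?_
    rw [mul_div_assoc]
    exact mul_le_mul_of_nonneg_left hf.low hε.le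
  have hal : Integrable fun v => al P 1 σ Λ (X - v) * (k' v + k v) := by
    refine hi.bdd_mul (c := 1) (((measurable_al P 1 σ Λ).comp (by fun_prop)).aestronglyMeasurable)
      ?_
    filter_upwards with t
    rw [Real.norm_eq_abs, abs_of_nonneg (al_nonneg P 1 σ Λ _)]
    exact al_le_one P zero_le_one σ Λ _
  have hm : ∀ v, |k' v + k v| ≤ B * rexp (-(2 * |v|)) := by
    intro v
    refine (abs_add_le _ _).trans ?_
    have := hk.bound v
    linarith
  have hpt : ∀ v, ‖(al P 1 σ Λ (X - v) - G) * (k' v + k v)‖ ≤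
      B * G * (2 * ε + (D + 1) * rexp (-U)) * rexp (-|v|) := by
    intro v
    rw [Real.norm_eq_abs, abs_mul]
    have ha := al_nonneg P 1 σ Λ (X - v)
    have ha1 := al_le_one P zero_le_one σ Λ (X - v)
    have hv0 := abs_nonneg v
    have e2 : rexp (-(2 * |v|)) = rexp (-|v|) * rexp (-|v|) := by
      rw [← exp_add]; congr 1; ring
    have he1 : rexp (-|v|) ≤ 1 := by rw [exp_le_one_iff]; linarith
    have key : |al P 1 σ Λ (X - v) - G| * rexp (-|v|) ≤ G * (2 * ε + (D + 1) * rexp (-U)) := by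
      have n1 : 0 ≤ G * ((D + 1) * rexp (-U)) := by positivity
      have n2 : 0 ≤ ε * G := by positivity
      rcases le_or_gt |v| U with h | h
      · have h1 := hf.flat v h
        have h2 : |al P 1 σ Λ (X - v) - G| * rexp (-|v|) ≤ ε * G * 1 :=
          mul_le_mul h1 he1 (exp_pos _).le n2
        calc _ ≤ ε * G * 1 := h2
          _ ≤ _ := by rw [mul_add]; nlinarith only [n1, n2]
      · have he2 : rexp (-|v|) ≤ rexp (-U) := by rw [exp_le_exp]; linarith
        rcases le_or_gt v (X / 2) with h' | h'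
        · have h1 := hf.upper (X - v) (by linarith)
          have h2 : |al P 1 σ Λ (X - v) - G| ≤ (D + 1) * G := by
            rw [_root_.abs_le]; constructor <;> nlinarith only [ha, h1, hG]
          calc _ ≤ (D + 1) * G * rexp (-U) :=
                mul_le_mul h2 he2 (exp_pos _).le (by positivity)
            _ = G * ((D + 1) * rexp (-U)) := by ring
            _ ≤ _ := by rw [mul_add]; nlinarith only [n2]
        · have h1 : |al P 1 σ Λ (X - v) - G| ≤ 1 + G := by
            rw [_root_.abs_le]; constructor <;> linarith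
          have he3 : rexp (-|v|) ≤ rexp (-(X / 2)) := by
            rw [exp_le_exp, neg_le_neg_iff]
            exact h'.le.trans (le_abs_self v)
          have h3 : rexp (-|v|) ≤ ε * G := he3.trans hex
          have h4 : G * rexp (-|v|) ≤ G * rexp (-U) := mul_le_mul_of_nonneg_left he2 hG.le
          have h5 : 0 ≤ G * (D * rexp (-U)) := by positivity
          calc _ ≤ (1 + G) * rexp (-|v|) := mul_le_mul_of_nonneg_right h1 (exp_pos _).le
            _ = rexp (-|v|) + G * rexp (-|v|) := by ring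
            _ ≤ ε * G + G * rexp (-U) := add_le_add h3 h4
            _ ≤ _ := by nlinarith only [n2, h5]
    calc _ ≤ |al P 1 σ Λ (X - v) - G| * (B * rexp (-(2 * |v|))) :=
          mul_le_mul_of_nonneg_left (hm v) (abs_nonneg _)
      _ = B * (|al P 1 σ Λ (X - v) - G| * rexp (-|v|)) * rexp (-|v|) := by rw [e2]; ring
      _ ≤ B * (G * (2 * ε + (D + 1) * rexp (-U))) * rexp (-|v|) := by
          apply mul_le_mul_of_nonneg_right _ (exp_pos _).le
          exact mul_le_mul_of_nonneg_left key hB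
      _ = _ := by ring
  have hex1 : Integrable fun v : ℝ => rexp (-|v|) := by
    have := integrable_exp_abs one_pos
    simpa only [one_mul] using this
  have h1 := norm_integral_le_of_norm_le (hex1.const_mul _) (Eventually.of_forall hpt)
  rw [integral_const_mul, integral_exp_abs] at h1
  have h2 : ∫ v, (al P 1 σ Λ (X - v) - G) * (k' v + k v) =
      Ef (P Λ) (xs σ) lg (fun s => k (X - s)) - G * ∫ v, k v := by
    have e1 : ∀ v, (al P 1 σ Λ (X - v) - G) * (k' v + k v) =
        al P 1 σ Λ (X - v) * (k' v + k v) - G * (k' v + k v) := fun v => by ring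
    simp_rw [e1]
    rw [integral_sub hal (hi.const_mul G), integral_const_mul,
      integral_add hk.integrable' hk.integrable, hk.integral_deriv, zero_add, hk.Ef_eq]
  rw [h2, Real.norm_eq_abs] at h1
  have h3 := (_root_.abs_le.mp h1).1
  linarith

end NiceC

/-- flatness for all tilts, with the location of the tilt -/
theorem MDat.flatAll2 (hM : MDat P C₀ C₁ Cs) : ∃ D : ℝ, 0 < D ∧ ∃ c : ℝ, 0 < c ∧
    ∃ K₀ : ℝ, 1 ≤ K₀ ∧ ∀ ε U : ℝ, 0 < ε → ε ≤ 1 → 0 ≤ U → ∃ Λ₀ : ℝ, 1 ≤ Λ₀ ∧
    ∀ Λ X : ℝ, Λ₀ ≤ Λ → 15 * Λ / 16 ≤ X → X ≤ XX P 0 Λ →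
    ∃ σ, 0 ≤ σ ∧ σ ≤ 1 ∧ (X ≤ K₀ * Λ ∨ XX P σ Λ = X) ∧ ∃ G, Flat P ε U D c σ Λ X G := by
  have hC0 := hM.C0
  have hσ₂ : (1 / 2 : ℝ) ≤ 1 := by norm_num
  have h0 : (0 : ℝ) < 1 / 2 := by norm_num
  obtain ⟨D₁, hD₁, Λ₅, hΛ₅, hUB⟩ := hM.UBa (τ₀ := 1) one_pos h0
  obtain ⟨c, hc, b₀, hb₀, Λ₁, hΛ₁, hL⟩ := hM.LBa (τ₀ := 1) one_pos h0
  obtain ⟨c', hc', Λ₂, hΛ₂, hL'⟩ := hM.low (V₀ := rexp b₀) (one_le_exp hb₀)
  obtain ⟨Da, hDa, Λ₆, hΛ₆, hUa⟩ := hM.UB0
  obtain ⟨ca, hca, Λ₇, hΛ₇, hLa⟩ := hM.LB0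
  set cm := min c (c' / 16) with hcm
  have hcm0 : 0 < cm := lt_min hc (by positivity)
  refine ⟨max (4 * D₁ / cm) (2 * Da / ca), by positivity, min (cm / 2) (ca / 16),
    by positivity, rexp b₀, one_le_exp hb₀, fun ε U hε hε1 hU => ?_⟩
  obtain ⟨Λ₃, hΛ₃, hS⟩ := hM.slow2 (τ₀ := 1) one_pos h0 hcm0 hε hε1 hU
  obtain ⟨Λ₈, hΛ₈, hSa⟩ := hM.slow0 hca hDa hε hε1 hU
  refine ⟨Λ₁ + Λ₂ + Λ₃ + Λ₅ + Λ₆ + Λ₇ + Λ₈ + 16 * C₀ + 16 * (4 * C₀ + 2), by linarith,
    fun Λ X₀ hΛ hX hX2 => ?_⟩
  have hΛ0 : 0 < Λ := by linarith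
  have hX0 : 0 < X₀ := by linarith
  have hΛ16 : 16 * C₀ ≤ Λ := by linarith
  rcases le_total X₀ (XX P (1 / 2) Λ) with hhalf | hhalf
  · have hX1 := hM.XX_le (σ := 1) (Λ := Λ) le_rfl (by linarith)
    rw [sub_self, zero_mul, exp_zero, one_mul] at hX1
    have hmain : ∀ σ, 1 / 2 ≤ σ → σ ≤ 1 →
        (∀ y, |y - X₀| ≤ 1 → cm * RR P σ Λ / X₀ ≤ al P 1 σ Λ y) →
        ∃ G, Flat P ε U (max (4 * D₁ / cm) (2 * Da / ca)) (min (cm / 2) (ca / 16)) σ Λ X₀ G := by
      intro σ hσ hσ1 h
      obtain ⟨G, hG, hGl, hGf⟩ := hS σ Λ 1 X₀ hσ hσ1 (by linarith) le_rfl le_rfl (by linarith) h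
      have hR := (hM.RR_ge (σ := σ) (Λ := Λ) (by linarith) hσ1 hΛ16 hΛ0).1
      exact ⟨G, (MDat.flat_of hX0 hG hcm0 hR hD₁.le
        (fun y hy => hUB σ Λ 1 y hσ hσ1 (by linarith) le_rfl le_rfl hy) hGl le_rfl hGf).mono
          (le_max_left _ _) (min_le_left _ _) hX0⟩
    rcases le_total X₀ (rexp b₀ * Λ) with hcase | hcase
    · -- first regime
      refine ⟨1, by norm_num, le_rfl, Or.inl hcase, ?_⟩
      apply hmain 1 hσ₂ le_rfl
      intro y hy
      obtain ⟨hy1, hy2⟩ := _root_.abs_le.mp hy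
      have q1 := hL' Λ 1 y (by linarith) (by linarith) (by linarith) (by linarith) (by
        rw [add_mul]; linarith)
      refine le_trans ?_ q1
      -- R ≤ 9
      have hR : RR P 1 Λ ≤ 9 := by
        have q2 := hM.VV_ge (σ := 1) zero_le_one le_rfl hΛ16
        rw [sub_self, zero_mul, zero_div, exp_zero, mul_one] at q2
        have q3 : Λ / 8 ≤ √(VV P 1 Λ) := by
          apply le_sqrt_of_sq_le
          refine le_trans (le_of_eq ?_) q2
          ring
        unfold RR
        have q4 : XX P 1 Λ / √(VV P 1 Λ) ≤ 8 := by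
          rw [div_le_iff₀ (by linarith)]
          linarith
        linarith
      have hcm' : cm ≤ c' / 16 := min_le_right _ _
      calc cm * RR P 1 Λ / X₀ ≤ c' / 16 * 9 / (15 * Λ / 16) := by
            apply div_le_div₀ (by positivity) _ (by positivity) hX
            exact mul_le_mul hcm' hR (by
              have := (hM.RR_ge (σ := 1) (Λ := Λ) zero_le_one le_rfl hΛ16 hΛ0).1
              linarith) (by positivity)
        _ = 9 / 15 * (c' / Λ) := by field_simp
        _ ≤ c' / Λ := by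
            have : 0 ≤ c' / Λ := by positivity
            linarith
    · -- second regime
      obtain ⟨σ, hσ, hσX⟩ := intermediate_value_Icc' (f := fun σ => XX P σ Λ) hσ₂
        (hM.continuous_XX Λ).continuousOn ⟨hX1.trans (le_trans (by
          have := one_le_exp hb₀
          nlinarith only [this, hC0, hΛ₅, hΛ₁, hΛ₂, hΛ₆, hΛ₇, hΛ₃, hΛ₈, hΛ]) hcase), hhalf⟩
      simp only at hσX
      have hb : b₀ ≤ (1 - σ) * Λ := by
        have q1 := hM.XX_le (σ := σ) (Λ := Λ) hσ.2 (by linarith)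
        rw [hσX] at q1
        have q2 := le_of_mul_le_mul_right (hcase.trans q1) hΛ0
        exact exp_le_exp.mp q2
      refine ⟨σ, by linarith [hσ.1], hσ.2, Or.inr hσX, ?_⟩
      apply hmain σ hσ.1 hσ.2
      intro y hy
      have q1 := hL σ Λ 1 y hσ.1 hσ.2 (by linarith) hb le_rfl le_rfl (by rw [hσX]; exact hy)
      rw [hσX] at q1
      refine le_trans ?_ q1
      apply div_le_div_of_nonneg_right _ hX0.le
      apply mul_le_mul_of_nonneg_right (min_le_left _ _)
      have := (hM.RR_ge (σ := σ) (Λ := Λ) (by linarith [hσ.1]) hσ.2 hΛ16 hΛ0).1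
      linarith
  · obtain ⟨σ, hσ, hσX⟩ := intermediate_value_Icc' (f := fun σ => XX P σ Λ)
      (by norm_num : (0 : ℝ) ≤ 1 / 2) (hM.continuous_XX Λ).continuousOn ⟨hhalf, hX2⟩
    simp only at hσX
    refine ⟨σ, hσ.1, by linarith [hσ.2], Or.inr hσX, ?_⟩
    have hs1 : σ ≤ 1 := by linarith [hσ.2]
    have hXge := hM.XX_ge (σ := σ) (Λ := Λ) hσ.1 hs1 (by linarith) hΛ0
    have hV := hM.VV_pos (σ := σ) hσ.1 hs1 (by linarith) hΛ0
    have hVle := hM.VV_le (σ := σ) hΛ0.le
    rw [hσX] at hXge hVle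
    have hsp : 0 < √(VV P σ Λ) := sqrt_pos.mpr hV
    have hsX : √(VV P σ Λ) ≤ 8 * X₀ := by
      rw [sqrt_le_left (by positivity)]
      nlinarith only [hC0, hΛ₅, hΛ₁, hΛ₂, hΛ₆, hΛ₇, hΛ₃, hΛ₈, hΛ, hX, hVle]
    obtain ⟨G, hG, hGl, hGf⟩ := hSa σ Λ X₀ hσ.1 hσ.2 (by linarith)
      (fun y => hUa σ Λ y hσ.1 hσ.2 (by linarith))
      (fun y hy => hLa σ Λ y hσ.1 hσ.2 (by linarith) (by rw [hσX]; exact hy))
    have hfl : Flat P ε U (2 * Da / ca) (ca / 16) σ Λ X₀ G := by
      refine ⟨hG, hGf, fun y _ => ?_, ?_⟩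
      · refine (hUa σ Λ y hσ.1 hσ.2 (by linarith)).trans ?_
        have : Da / √(VV P σ Λ) = 2 * Da / ca * (ca / 2 / √(VV P σ Λ)) := by field_simp
        rw [this]
        exact mul_le_mul_of_nonneg_left hGl (by positivity)
      · refine le_trans ?_ hGl
        rw [div_div, div_div, div_le_div_iff₀ (by positivity) (by positivity)]
        nlinarith only [hca, hsX]
    exact ⟨G, hfl.mono (le_max_right _ _) (min_le_right _ _) hX0⟩

end Pool.Agent.MP0016c7.Ros
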