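import Mathlib
import Pool.Agent.Lib.MP_0016c7_nt.FekPos

open Real Set MeasureTheory Filter Topology

namespace Pool.Agent.MP0016c7.Ros

/-! ### The cutoff -/

lemma deriv_st_bound : ∃ M : ℝ, 0 ≤ M ∧ ∀ v : ℝ, |deriv Real.smoothTransition v| ≤ M := by
  have hc : Continuous (deriv Real.smoothTransition) :=
    (Real.smoothTransition.contDiff (n := 1)).continuous_deriv le_rfl
  obtain ⟨M, hM⟩ := (isCompact_Icc (a := (0 : ℝ)) (b := 1)).exists_bound_of_continuousOn
    hc.continuousOn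
  have hM0 : 0 ≤ M := (norm_nonneg _).trans (hM 0 ⟨le_rfl, zero_le_one⟩)
  refine ⟨M, hM0, fun v => ?_⟩
  rcases lt_or_ge v 0 with h | h
  · have : Real.smoothTransition =ᶠ[𝓝 v] fun _ => 0 := by
      filter_upwards [gt_mem_nhds h] with w hw
      exact Real.smoothTransition.zero_of_nonpos (le_of_lt hw)
    rw [this.deriv_eq, deriv_const, abs_zero]
    exact hM0
  · rcases lt_or_ge 1 v with h1 | h1
    · have : Real.smoothTransition =ᶠ[𝓝 v] fun _ => 1 := by
        filter_upwards [lt_mem_nhds h1] with w hw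
        exact Real.smoothTransition.one_of_one_le (le_of_lt hw)
      rw [this.deriv_eq, deriv_const, abs_zero]
      exact hM0
    · exact hM v ⟨h, h1⟩

lemma deriv_st_neg {v : ℝ} (h : v < 0) : deriv Real.smoothTransition v = 0 := by
  have : Real.smoothTransition =ᶠ[𝓝 v] fun _ => 0 := by
    filter_upwards [gt_mem_nhds h] with w hw
    exact Real.smoothTransition.zero_of_nonpos (le_of_lt hw)
  rw [this.deriv_eq, deriv_const]

/-- smooth cutoff: `1` up to `n`, `0` from `n + 1` on -/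
noncomputable def cut (n : ℕ) (y : ℝ) : ℝ := Real.smoothTransition (n + 1 - y)

lemma cut_nonneg (n : ℕ) (y : ℝ) : 0 ≤ cut n y := Real.smoothTransition.nonneg _
lemma cut_le_one (n : ℕ) (y : ℝ) : cut n y ≤ 1 := Real.smoothTransition.le_one _
lemma cut_one {n : ℕ} {y : ℝ} (h : y ≤ n) : cut n y = 1 :=
  Real.smoothTransition.one_of_one_le (by linarith)
lemma cut_zero {n : ℕ} {y : ℝ} (h : (n : ℝ) + 1 ≤ y) : cut n y = 0 :=
  Real.smoothTransition.zero_of_nonpos (by linarith)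

lemma cut_mono {n m : ℕ} (h : n ≤ m) (y : ℝ) : cut n y ≤ cut m y := by
  rcases h.eq_or_lt with rfl | h
  · exact le_rfl
  have h' : (n : ℝ) + 1 ≤ m := by exact_mod_cast h
  rcases le_total y m with h1 | h1
  · rw [cut_one h1]; exact cut_le_one _ _
  · rw [cut_zero (by linarith : (n : ℝ) + 1 ≤ y)]; exact cut_nonneg _ _

lemma hasDerivAt_cut (n : ℕ) (y : ℝ) :
    HasDerivAt (cut n) (-(deriv Real.smoothTransition (n + 1 - y))) y := by
  have h1 : HasDerivAt Real.smoothTransition (deriv Real.smoothTransition (n + 1 - y)) (n + 1 - y) :=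
    ((Real.smoothTransition.contDiff (n := 1)).differentiable one_ne_zero _).hasDerivAt
  have h2 : HasDerivAt (fun y : ℝ => (n : ℝ) + 1 - y) (-1) y := by
    have := (hasDerivAt_id y).const_sub ((n : ℝ) + 1)
    exact this
  have h3 := h1.comp y h2
  refine h3.congr_deriv ?_
  ring

lemma continuous_cut (n : ℕ) : Continuous (cut n) :=
  continuous_iff_continuousAt.mpr fun y => (hasDerivAt_cut n y).continuousAt

section ker

variable {N : ℕ} [NeZero N] {χ : DirichletCharacter ℂ N}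

/-- the cut kernel -/
noncomputable def ke (χ : DirichletCharacter ℂ N) (s : ℝ) (n : ℕ) (y : ℝ) : ℝ :=
  gS χ y * rexp (-(s * y)) * cut n y

/-- its derivative -/
noncomputable def ke' (χ : DirichletCharacter ℂ N) (s : ℝ) (n : ℕ) (y : ℝ) : ℝ :=
  (gS' χ y * rexp (-(s * y)) + gS χ y * (rexp (-(s * y)) * (-s))) * cut n y +
    gS χ y * rexp (-(s * y)) * (-(deriv Real.smoothTransition (n + 1 - y)))

lemma hasDerivAt_ke (s : ℝ) (n : ℕ) (y : ℝ) : HasDerivAt (ke χ s n) (ke' χ s n y) y := by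
  have h1 : HasDerivAt (fun y : ℝ => rexp (-(s * y))) (rexp (-(s * y)) * (-s)) y := by
    have h2 : HasDerivAt (fun y : ℝ => -(s * y)) (-s) y := by
      have := ((hasDerivAt_id' y).const_mul s).fun_neg
      simpa using this
    exact h2.exp
  exact ((hasDerivAt_gS y).mul h1).mul (hasDerivAt_cut n y)

theorem ke_nice (n : ℕ) : ∃ B : ℝ, 0 ≤ B ∧ ∀ s : ℝ, |s| ≤ 1 → Nice (ke χ s n) (ke' χ s n) B := by
  obtain ⟨C, hC, h1, h2⟩ := gS_exp (χ := χ)
  obtain ⟨M, hM, hst⟩ := deriv_st_bound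
  refine ⟨C * (2 + M) * rexp (3 * (n + 1)), by positivity, fun s hs => ⟨hasDerivAt_ke s n, ?_⟩⟩
  intro y
  have hn0 : (0 : ℝ) ≤ n := Nat.cast_nonneg n
  have hg0 := abs_nonneg (gS χ y)
  have hg1 := abs_nonneg (gS' χ y)
  rcases lt_or_ge ((n : ℝ) + 1) y with hy | hy
  · have e1 : cut n y = 0 := cut_zero hy.le
    have e2 : deriv Real.smoothTransition (n + 1 - y) = 0 := deriv_st_neg (by linarith)
    unfold ke ke'
    rw [e1, e2]
    simp only [mul_zero, neg_zero, add_zero, abs_zero]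
    positivity
  -- general bound
  have hsy : |s * y| ≤ |y| := by
    rw [abs_mul]
    calc |s| * |y| ≤ 1 * |y| := mul_le_mul_of_nonneg_right hs (abs_nonneg y)
      _ = |y| := one_mul _
  have he : rexp (-(s * y)) ≤ rexp |y| := by
    rw [exp_le_exp]
    exact (neg_le_abs _).trans hsy
  have he0 := exp_pos (-(s * y))
  have hE0 := exp_pos |y|
  have hc0 := cut_nonneg n y
  have hc1 := cut_le_one n y
  have b1 : |ke χ s n y| ≤ |gS χ y| * rexp |y| := by
    unfold ke
    rw [abs_mul, abs_mul, abs_of_pos he0, abs_of_nonneg hc0]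
    calc |gS χ y| * rexp (-(s * y)) * cut n y ≤ |gS χ y| * rexp |y| * 1 := by gcongr
      _ = _ := mul_one _
  have b2 : |ke' χ s n y| ≤ (|gS' χ y| + |gS χ y| + |gS χ y| * M) * rexp |y| := by
    unfold ke'
    refine (abs_add_le _ _).trans ?_
    have c1 : |(gS' χ y * rexp (-(s * y)) + gS χ y * (rexp (-(s * y)) * (-s))) * cut n y| ≤
        (|gS' χ y| + |gS χ y|) * rexp |y| := by
      rw [abs_mul, abs_of_nonneg hc0]
      have d1 : |gS' χ y * rexp (-(s * y)) + gS χ y * (rexp (-(s * y)) * (-s))| ≤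
          (|gS' χ y| + |gS χ y|) * rexp |y| := by
        refine (abs_add_le _ _).trans ?_
        rw [abs_mul, abs_mul, abs_mul, abs_neg, abs_of_pos he0, add_mul]
        apply add_le_add
        · exact mul_le_mul_of_nonneg_left he hg1
        · apply mul_le_mul_of_nonneg_left _ hg0
          calc rexp (-(s * y)) * |s| ≤ rexp |y| * 1 :=
                mul_le_mul he hs (abs_nonneg _) hE0.le
            _ = _ := mul_one _
      calc _ ≤ (|gS' χ y| + |gS χ y|) * rexp |y| * 1 :=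
            mul_le_mul d1 hc1 hc0 (by positivity)
        _ = _ := mul_one _
    have c2 : |gS χ y * rexp (-(s * y)) * (-(deriv Real.smoothTransition (n + 1 - y)))| ≤
        |gS χ y| * M * rexp |y| := by
      rw [abs_mul, abs_mul, abs_neg, abs_of_pos he0]
      calc |gS χ y| * rexp (-(s * y)) * |deriv Real.smoothTransition (n + 1 - y)| ≤
            |gS χ y| * rexp |y| * M := by
            apply mul_le_mul _ (hst _) (abs_nonneg _) (by positivity)
            exact mul_le_mul_of_nonneg_left he hg0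
        _ = _ := by ring
    calc _ ≤ (|gS' χ y| + |gS χ y|) * rexp |y| + |gS χ y| * M * rexp |y| := add_le_add c1 c2
      _ = _ := by ring
  have b3 : |ke χ s n y| + |ke' χ s n y| ≤ (|gS χ y| + |gS' χ y|) * (2 + M) * rexp |y| := by
    have n1 : 0 ≤ |gS' χ y| * rexp |y| := by positivity
    have n2 : 0 ≤ |gS' χ y| * M * rexp |y| := by positivity
    calc _ ≤ |gS χ y| * rexp |y| + (|gS' χ y| + |gS χ y| + |gS χ y| * M) * rexp |y| :=
          add_le_add b1 b2
      _ ≤ _ := by nlinarith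
  refine b3.trans ?_
  rcases le_total y 0 with h | h
  · have h3 := h1 y h
    rw [abs_of_nonpos h]
    have e1 : rexp (3 * y) * rexp (-y) = rexp (-(2 * -y)) := by
      rw [← exp_add]; congr 1; ring
    have e2 : 1 ≤ rexp (3 * ((n : ℝ) + 1)) := one_le_exp (by positivity)
    calc (|gS χ y| + |gS' χ y|) * (2 + M) * rexp (-y)
        ≤ (C * rexp (3 * y)) * (2 + M) * rexp (-y) := by gcongr
      _ = C * (2 + M) * 1 * (rexp (3 * y) * rexp (-y)) := by ring
      _ = C * (2 + M) * 1 * rexp (-(2 * -y)) := by rw [e1]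
      _ ≤ _ := by
          apply mul_le_mul_of_nonneg_right _ (exp_pos _).le
          exact mul_le_mul_of_nonneg_left e2 (by positivity)
  · have h3 := h2 y h
    rw [abs_of_nonneg h]
    have e1 : rexp y ≤ rexp (3 * ((n : ℝ) + 1)) * rexp (-(2 * y)) := by
      rw [← exp_add, exp_le_exp]
      linarith
    calc (|gS χ y| + |gS' χ y|) * (2 + M) * rexp y ≤ C * (2 + M) * rexp y := by gcongr
      _ ≤ C * (2 + M) * (rexp (3 * ((n : ℝ) + 1)) * rexp (-(2 * y))) :=
          mul_le_mul_of_nonneg_left e1 (by positivity)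
      _ = _ := by ring

/-- cut Mellin integral -/
noncomputable def In (χ : DirichletCharacter ℂ N) (n : ℕ) (s : ℝ) : ℝ := ∫ y, ke χ s n y

lemma continuousOn_In (n : ℕ) : ContinuousOn (In χ n) (Icc (-1) 1) := by
  obtain ⟨B, hB, h⟩ := ke_nice (χ := χ) n
  unfold In
  refine continuousOn_of_dominated (bound := fun y => B * rexp (-(2 * |y|))) ?_ ?_ ?_ ?_
  · intro s hs
    exact (h s (abs_le.mpr hs)).continuous.aestronglyMeasurable
  · intro s hs
    exact Eventually.of_forall fun y => (h s (abs_le.mpr hs)).abs_le y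
  · exact (integrable_exp_abs two_pos).const_mul B
  · refine Eventually.of_forall fun y => Continuous.continuousOn ?_
    unfold ke
    fun_prop

omit [NeZero N] in
lemma ke_mono {n m : ℕ} (h : n ≤ m) (hpos : ∀ y : ℝ, (n : ℝ) ≤ y → 0 ≤ gS χ y) (s y : ℝ) :
    ke χ s n y ≤ ke χ s m y := by
  have h' : (n : ℝ) ≤ m := by exact_mod_cast h
  unfold ke
  rcases le_total y n with h1 | h1
  · rw [cut_one h1, cut_one (h1.trans h')]
  · apply mul_le_mul_of_nonneg_left (cut_mono h y)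
    exact mul_nonneg (hpos y h1) (exp_pos _).le

lemma In_mono {n m : ℕ} (h : n ≤ m) (hpos : ∀ y : ℝ, (n : ℝ) ≤ y → 0 ≤ gS χ y) {s : ℝ}
    (hs : |s| ≤ 1) : In χ n s ≤ In χ m s := by
  obtain ⟨B, _, h1⟩ := ke_nice (χ := χ) n
  obtain ⟨B', _, h2⟩ := ke_nice (χ := χ) m
  exact integral_mono (h1 s hs).integrable (h2 s hs).integrable (ke_mono h hpos s)

/-- the cut Mellin integral is eventually positive, interior case -/
lemma In_pos_interior {κ : ℕ} (hκ : κ ≤ 1) {B : Polynomial ℝ}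
    (hB : Ap χ = (1 - Polynomial.X) ^ κ * B) {s : ℝ} (hs : -(κ : ℝ) < s) (hs1 : s ≤ 1)
    (hM : 0 < Mi χ s) : ∀ᶠ n : ℕ in atTop, 0 < In χ n s := by
  obtain ⟨C, hC, h⟩ := Mi_bound hκ hB
  have hi := (h s hs hs1).1
  have hlim : Tendsto (fun n : ℕ => In χ n s) atTop (𝓝 (Mi χ s)) := by
    unfold In Mi
    refine tendsto_integral_of_dominated_convergence (fun y => |rexp (-(s * y)) * gS χ y|) ?_
      hi.abs ?_ ?_
    · intro n
      apply Continuous.aestronglyMeasurable
      unfold ke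
      have := continuous_gS (χ := χ)
      have := continuous_cut n
      fun_prop
    · intro n
      refine Eventually.of_forall fun y => ?_
      unfold ke
      rw [Real.norm_eq_abs, abs_mul, abs_of_nonneg (cut_nonneg n y), mul_comm (gS χ y)]
      calc _ ≤ |rexp (-(s * y)) * gS χ y| * 1 :=
            mul_le_mul_of_nonneg_left (cut_le_one n y) (abs_nonneg _)
        _ = _ := mul_one _
    · refine Eventually.of_forall fun y => ?_
      refine tendsto_const_nhds.congr' ?_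
      obtain ⟨n₀, hn₀⟩ := exists_nat_ge y
      filter_upwards [eventually_ge_atTop n₀] with n hn
      unfold ke
      rw [cut_one (hn₀.trans (by exact_mod_cast hn))]
      ring
  exact hlim.eventually (lt_mem_nhds hM)

/-- boundary case -/
lemma In_pos_boundary {κ : ℕ} (hκ : κ ≤ 1) {c : ℝ} (hc : 0 < c) {n₀ : ℕ}
    (hg : ∀ y : ℝ, (n₀ : ℝ) ≤ y → c * rexp (-(κ * y)) ≤ gS χ y) :
    ∃ n : ℕ, n₀ ≤ n ∧ 0 < In χ n (-(κ : ℝ)) := by
  have hpos : ∀ y : ℝ, (n₀ : ℝ) ≤ y → 0 ≤ gS χ y := fun y hy =>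
    le_trans (by positivity) (hg y hy)
  have hκ' : (κ : ℝ) ≤ 1 := by exact_mod_cast hκ
  have hκ0 : (0 : ℝ) ≤ κ := Nat.cast_nonneg κ
  have hs : |(-(κ : ℝ))| ≤ 1 := by rw [abs_neg, abs_of_nonneg hκ0]; exact hκ'
  obtain ⟨k, hk⟩ := exists_nat_gt (|In χ n₀ (-(κ : ℝ))| / c)
  refine ⟨n₀ + 1 + k, by omega, ?_⟩
  obtain ⟨B, _, h1⟩ := ke_nice (χ := χ) n₀
  obtain ⟨B', _, h2⟩ := ke_nice (χ := χ) (n₀ + 1 + k)
  have i1 := (h1 _ hs).integrable
  have i2 := (h2 _ hs).integrable
  set a : ℝ := (n₀ : ℝ) + 1 with ha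
  have hpt : ∀ y, ke χ (-(κ : ℝ)) n₀ y + (Icc a (a + k)).indicator (fun _ => c) y ≤
      ke χ (-(κ : ℝ)) (n₀ + 1 + k) y := by
    intro y
    by_cases hy : y ∈ Icc a (a + k)
    · rw [indicator_of_mem hy]
      have hy1 : (n₀ : ℝ) + 1 ≤ y := hy.1
      have hy2 : y ≤ ((n₀ + 1 + k : ℕ) : ℝ) := by push_cast; exact hy.2
      unfold ke
      rw [cut_zero hy1, cut_one hy2, mul_zero, zero_add, mul_one]
      have h3 := mul_le_mul_of_nonneg_right (hg y (by linarith)) (exp_pos (-(-(κ : ℝ) * y))).le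
      refine le_trans (le_of_eq ?_) h3
      rw [mul_assoc, ← exp_add]
      have : -((κ : ℝ) * y) + -(-(κ : ℝ) * y) = 0 := by ring
      rw [this, exp_zero, mul_one]
    · rw [indicator_of_notMem hy, add_zero]
      exact ke_mono (by omega) hpos _ y
  have hind : Integrable ((Icc a (a + k)).indicator fun _ : ℝ => c) := by
    rw [integrable_indicator_iff measurableSet_Icc]
    exact integrableOn_const (by simp)
  have h3 := integral_mono (i1.add hind) i2 hpt
  have h4 : ∫ y, (ke χ (-(κ : ℝ)) n₀ y + (Icc a (a + k)).indicator (fun _ => c) y) =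
      In χ n₀ (-(κ : ℝ)) + c * k := by
    rw [integral_add i1 hind, integral_indicator measurableSet_Icc, setIntegral_const,
      Measure.real, Real.volume_Icc]
    have : a + k - a = (k : ℝ) := by ring
    rw [this, ENNReal.toReal_ofReal (Nat.cast_nonneg k), smul_eq_mul]
    unfold In
    ring
  have h5 : In χ n₀ (-(κ : ℝ)) + c * k ≤ In χ (n₀ + 1 + k) (-(κ : ℝ)) := by
    rw [← h4]; exact h3
  rw [div_lt_iff₀ hc] at hk
  have h6 := neg_abs_le (In χ n₀ (-(κ : ℝ)))
  linarith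

/-- uniform positivity of the cut Mellin integrals -/
theorem In_unif {κ : ℕ} (hκ : κ ≤ 1) {B : Polynomial ℝ}
    (hB : Ap χ = (1 - Polynomial.X) ^ κ * B) (hc : 0 < qB N B 1)
    (hM : ∀ s : ℝ, -(κ : ℝ) < s → 0 < Mi χ s) :
    ∃ n : ℕ, (∀ y : ℝ, (n : ℝ) ≤ y → qB N B 1 / 2 * rexp (-(κ * y)) ≤ gS χ y) ∧
      ∃ ℓ : ℝ, 0 < ℓ ∧ ∀ s : ℝ, -(κ : ℝ) ≤ s → s ≤ 1 → ℓ ≤ In χ n s := by
  have hκ' : (κ : ℝ) ≤ 1 := by exact_mod_cast hκ
  have hκ0 : (0 : ℝ) ≤ κ := Nat.cast_nonneg κ
  set c := qB N B 1 with hcdef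
  obtain ⟨C, hC, has⟩ := gS_asymp hκ hB
  obtain ⟨n₀, hn₀⟩ := exists_nat_gt (2 * C / c)
  have hg : ∀ y : ℝ, (n₀ : ℝ) ≤ y → c / 2 * rexp (-(κ * y)) ≤ gS χ y := by
    intro y hy
    have hy0 : 0 ≤ y := (Nat.cast_nonneg n₀).trans hy
    have h1 := (abs_le.mp (has y hy0)).1
    rw [← hcdef] at h1
    have h2 : rexp (-((κ + 1) * y)) = rexp (-(κ * y)) * rexp (-y) := by
      rw [← exp_add]; congr 1; ring
    rw [h2] at h1
    have h3 : C * rexp (-y) ≤ c / 2 := by
      have h4 : y ≤ rexp y := by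
        have := add_one_le_exp y; linarith
      have h5 : 2 * C / c < y := lt_of_lt_of_le hn₀ hy
      rw [div_lt_iff₀ hc] at h5
      have h6 : rexp (-y) * rexp y = 1 := by rw [← exp_add]; simp
      have h7 : C ≤ c / 2 * rexp y := by nlinarith
      have h8 := mul_le_mul_of_nonneg_right h7 (exp_pos (-y)).le
      calc C * rexp (-y) ≤ c / 2 * rexp y * rexp (-y) := h8
        _ = c / 2 * (rexp (-y) * rexp y) := by ring
        _ = c / 2 := by rw [h6, mul_one]
    have h9 := mul_le_mul_of_nonneg_right h3 (exp_pos (-(κ * y))).le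
    linarith
  have hpos : ∀ y : ℝ, (n₀ : ℝ) ≤ y → 0 ≤ gS χ y := fun y hy =>
    le_trans (by positivity) (hg y hy)
  have hsub : Icc (-(κ : ℝ)) 1 ⊆ Icc (-1) 1 := Icc_subset_Icc (by linarith) le_rfl
  have hcont : ∀ n, ContinuousOn (In χ n) (Icc (-(κ : ℝ)) 1) := fun n =>
    (continuousOn_In n).mono hsub
  -- some cut works
  obtain ⟨k, hk⟩ : ∃ k : ℕ, ∀ s ∈ Icc (-(κ : ℝ)) 1, 0 < In χ (n₀ + k) s := by
    by_contra hcon
    push Not at hcon
    have hne : (⋂ k : ℕ, (Icc (-(κ : ℝ)) 1 ∩ (In χ (n₀ + k)) ⁻¹' (Iic 0))).Nonempty := by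
      have hcl : ∀ k : ℕ, IsClosed (Icc (-(κ : ℝ)) 1 ∩ (In χ (n₀ + k)) ⁻¹' (Iic 0)) := fun k =>
        (hcont _).preimage_isClosed_of_isClosed isClosed_Icc isClosed_Iic
      apply IsCompact.nonempty_iInter_of_sequence_nonempty_isCompact_isClosed
      · intro k s hs
        refine ⟨hs.1, ?_⟩
        have h1 := In_mono (χ := χ) (n := n₀ + k) (m := n₀ + (k + 1)) (by omega)
          (fun y hy => hpos y (by push_cast at hy; have : (0 : ℝ) ≤ k := Nat.cast_nonneg k; linarith))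
          (abs_le.mpr (hsub hs.1))
        exact h1.trans hs.2
      · intro k
        obtain ⟨s, hs, hs'⟩ := hcon k
        exact ⟨s, hs, hs'⟩
      · exact isCompact_Icc.of_isClosed_subset (hcl 0) inter_subset_left
      · exact hcl
    obtain ⟨s, hs⟩ := hne
    rw [mem_iInter] at hs
    have hsI := (hs 0).1
    rcases hsI.1.lt_or_eq with h1 | h1
    · obtain ⟨m, hm⟩ := (In_pos_interior hκ hB h1 hsI.2 (hM s h1)).exists_forall_of_atTop
      have h3 := hm (n₀ + m) (by omega)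
      exact absurd (hs m).2 (not_le.mpr h3)
    · obtain ⟨n, hn, hn'⟩ := In_pos_boundary (χ := χ) hκ (c := c / 2) (by positivity) hg
      obtain ⟨m, rfl⟩ := Nat.exists_eq_add_of_le hn
      rw [h1] at hn'
      exact absurd (hs m).2 (not_le.mpr hn')
  obtain ⟨s₀, hs₀, hmin⟩ := isCompact_Icc.exists_isMinOn
    (nonempty_Icc.mpr (by linarith : -(κ : ℝ) ≤ 1)) (hcont (n₀ + k))
  refine ⟨n₀ + k, fun y hy => hg y ?_, In χ (n₀ + k) s₀, hk s₀ hs₀, fun s hs hs1 => hmin ⟨hs, hs1⟩⟩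
  push_cast at hy
  have : (0 : ℝ) ≤ k := Nat.cast_nonneg k
  linarith

end ker

end Pool.Agent.MP0016c7.Ros
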