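import Mathlib
import Pool.Agent.Lib.MP_0016c7_nt.EvJ1
import Pool.Agent.Lib.MP_0016c7_nt.EvKer
import Pool.Agent.Lib.MP_0016c7_nt.FekCut

open Real Set MeasureTheory Filter Topology

namespace Pool.Agent.MP0016c7.Ros

variable {N : ℕ} [NeZero N] {χ : DirichletCharacter ℂ N}

omit [NeZero N] in
lemma hasDerivAt_Dv {u : ℝ} (hu : 0 < u) (hn : ∀ n : ℕ, (n : ℝ) ≠ u) :
    HasDerivAt (Dv χ) (Sn χ ⌊u⌋₊) u := by
  have h1 : HasDerivAt (fun v : ℝ => ∑ k ∈ Finset.range (⌊u⌋₊ + 1), rchar χ k * (v - k))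
      (∑ k ∈ Finset.range (⌊u⌋₊ + 1), rchar χ k * 1) u := by
    apply HasDerivAt.fun_sum
    intro k _
    exact ((hasDerivAt_id u).sub_const _).const_mul _
  simp only [mul_one, Sn_range] at h1
  refine h1.congr_of_eventuallyEq ?_
  have h2 : (⌊u⌋₊ : ℝ) < u := lt_of_le_of_ne (Nat.floor_le hu.le) (hn _)
  have h3 : u < (⌊u⌋₊ : ℝ) + 1 := Nat.lt_floor_add_one u
  filter_upwards [Ioi_mem_nhds h2, Iio_mem_nhds h3] with v hv hv'
  rw [mem_Ioi] at hv
  rw [mem_Iio] at hv'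
  have : ⌊v⌋₊ = ⌊u⌋₊ := by
    rw [Nat.floor_eq_iff ((Nat.cast_nonneg _).trans hv.le)]
    exact ⟨hv.le, hv'⟩
  unfold Dv
  rw [this]

/-- the cut kernel -/
noncomputable def kd (χ : DirichletCharacter ℂ N) (a : ℝ) (n : ℕ) (y : ℝ) : ℝ :=
  rexp (-(a * y)) * Dv χ (rexp y) * cut n y

/-- its derivative -/
noncomputable def kd' (χ : DirichletCharacter ℂ N) (a : ℝ) (n : ℕ) (y : ℝ) : ℝ :=
  (rexp (-(a * y)) * (-a) * Dv χ (rexp y) +
    rexp (-(a * y)) * (Sn χ ⌊rexp y⌋₊ * rexp y)) * cut n y +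
    rexp (-(a * y)) * Dv χ (rexp y) * (-(deriv Real.smoothTransition (n + 1 - y)))

lemma kd_cont (a : ℝ) (n : ℕ) : Continuous (kd χ a n) := by
  unfold kd
  exact ((by fun_prop : Continuous fun y : ℝ => rexp (-(a * y))).mul
    (continuous_Dv.comp continuous_exp)).mul (continuous_cut n)

lemma kd'_meas (a : ℝ) (n : ℕ) : Measurable (kd' χ a n) := by
  have hc : Continuous (deriv Real.smoothTransition) :=
    (Real.smoothTransition.contDiff (n := 1)).continuous_deriv le_rfl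
  have h1 : Measurable fun y : ℝ => rexp (-(a * y)) := by fun_prop
  have h2 : Measurable fun y : ℝ => Dv χ (rexp y) := (continuous_Dv.comp continuous_exp).measurable
  have h3 : Measurable fun y : ℝ => Sn χ ⌊rexp y⌋₊ := by
    have h4 : Measurable fun y : ℝ => ⌊rexp y⌋₊ := Nat.measurable_floor.comp measurable_exp
    exact (measurable_from_top (f := Sn χ)).comp h4
  have h5 : Measurable fun y : ℝ => deriv Real.smoothTransition ((n : ℝ) + 1 - y) :=
    (hc.comp (by fun_prop)).measurable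
  unfold kd'
  exact ((((h1.mul_const _).mul h2).add (h1.mul (h3.mul measurable_exp))).mul
    (continuous_cut n).measurable).add ((h1.mul h2).mul h5.neg)

lemma kd_deriv (a : ℝ) (n : ℕ) : ∃ S : Set ℝ, S.Countable ∧
    ∀ v ∉ S, HasDerivAt (kd χ a n) (kd' χ a n v) v := by
  refine ⟨Set.range (fun k : ℕ => Real.log k), countable_range _, fun y hy => ?_⟩
  have h1 : HasDerivAt (fun y : ℝ => rexp (-(a * y))) (rexp (-(a * y)) * (-a)) y := by
    have h2 : HasDerivAt (fun y : ℝ => -(a * y)) (-a) y := by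
      have := ((hasDerivAt_id' y).const_mul a).fun_neg
      simpa using this
    exact h2.exp
  have h2 : HasDerivAt (fun y : ℝ => Dv χ (rexp y)) (Sn χ ⌊rexp y⌋₊ * rexp y) y := by
    have h3 := hasDerivAt_Dv (χ := χ) (exp_pos y) (fun k hk => by
      apply hy
      refine ⟨k, ?_⟩
      simp only
      rw [hk, log_exp])
    exact h3.comp y (Real.hasDerivAt_exp y)
  exact (h1.mul h2).mul (hasDerivAt_cut n y)

theorem kd_nice (hne : χ ≠ 1) (he : χ.Even) (n : ℕ) : ∃ B : ℝ, 0 ≤ B ∧ ∀ a : ℝ, 0 ≤ a → a ≤ 2 →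
    NiceC (kd χ a n) (kd' χ a n) B := by
  obtain ⟨M, hM, hst⟩ := deriv_st_bound
  have hN1 : (1 : ℝ) ≤ N := by exact_mod_cast NeZero.pos N
  set B := (3 * (N : ℝ) ^ 2 + N * rexp (n + 1) + N ^ 2 * M) * rexp (2 * (n + 1)) with hB
  have hB0 : 0 ≤ B := by positivity
  refine ⟨B, hB0, fun a ha ha2 => ⟨kd_cont a n, kd'_meas a n, kd_deriv a n, ?_⟩⟩
  intro y
  have hn0 : (0 : ℝ) ≤ n := Nat.cast_nonneg n
  rcases lt_or_ge ((n : ℝ) + 1) y with hy | hy
  · have e1 : cut n y = 0 := cut_zero hy.le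
    have e2 : deriv Real.smoothTransition (n + 1 - y) = 0 := deriv_st_neg (by linarith)
    unfold kd kd'
    rw [e1, e2]
    simp only [mul_zero, neg_zero, add_zero, abs_zero]
    positivity
  rcases lt_or_ge y 0 with hy0 | hy0
  · have e1 : Dv χ (rexp y) = 0 := Dv_exp_nonpos hy0.le
    have e2 : ⌊rexp y⌋₊ = 0 := by
      rw [Nat.floor_eq_zero]
      rw [exp_lt_one_iff]; exact hy0
    unfold kd kd'
    rw [e1, e2, Sn_zero]
    simp only [mul_zero, zero_mul, add_zero, abs_zero]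
    positivity
  · have he1 : rexp (-(a * y)) ≤ 1 := by
      rw [exp_le_one_iff]
      have : 0 ≤ a * y := mul_nonneg ha hy0
      linarith
    have he0 := exp_pos (-(a * y))
    have hc0 := cut_nonneg n y
    have hc1 := cut_le_one n y
    have hD := abs_Dv_le hne he (rexp y)
    have hS := abs_Sn_le hne ⌊rexp y⌋₊
    have hey : rexp y ≤ rexp (n + 1) := exp_le_exp.mpr hy
    have b1 : |kd χ a n y| ≤ (N : ℝ) ^ 2 := by
      unfold kd
      rw [abs_mul, abs_mul, abs_of_pos he0, abs_of_nonneg hc0]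
      calc rexp (-(a * y)) * |Dv χ (rexp y)| * cut n y ≤ 1 * (N : ℝ) ^ 2 * 1 := by gcongr
        _ = _ := by ring
    have b2 : |kd' χ a n y| ≤ 2 * (N : ℝ) ^ 2 + N * rexp (n + 1) + N ^ 2 * M := by
      unfold kd'
      refine (abs_add_le _ _).trans ?_
      have c1 : |(rexp (-(a * y)) * (-a) * Dv χ (rexp y) +
          rexp (-(a * y)) * (Sn χ ⌊rexp y⌋₊ * rexp y)) * cut n y| ≤
          2 * (N : ℝ) ^ 2 + N * rexp (n + 1) := by
        rw [abs_mul, abs_of_nonneg hc0]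
        have d1 : |rexp (-(a * y)) * (-a) * Dv χ (rexp y) +
          rexp (-(a * y)) * (Sn χ ⌊rexp y⌋₊ * rexp y)| ≤ 2 * (N : ℝ) ^ 2 + N * rexp (n + 1) := by
          refine (abs_add_le _ _).trans ?_
          rw [abs_mul, abs_mul, abs_mul, abs_mul, abs_neg, abs_of_pos he0, abs_of_nonneg ha,
            abs_of_pos (exp_pos y)]
          have t1 : rexp (-(a * y)) * a * |Dv χ (rexp y)| ≤ 1 * 2 * (N : ℝ) ^ 2 := by gcongr
          have t2 : rexp (-(a * y)) * (|Sn χ ⌊rexp y⌋₊| * rexp y) ≤ 1 * (N * rexp (n + 1)) := by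
            gcongr
          linarith
        calc _ ≤ (2 * (N : ℝ) ^ 2 + N * rexp (n + 1)) * 1 :=
              mul_le_mul d1 hc1 hc0 (by positivity)
          _ = _ := mul_one _
      have c2 : |rexp (-(a * y)) * Dv χ (rexp y) *
          (-(deriv Real.smoothTransition (n + 1 - y)))| ≤ (N : ℝ) ^ 2 * M := by
        rw [abs_mul, abs_mul, abs_neg, abs_of_pos he0]
        calc rexp (-(a * y)) * |Dv χ (rexp y)| * |deriv Real.smoothTransition (n + 1 - y)| ≤
              1 * (N : ℝ) ^ 2 * M := by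
              gcongr
              exact hst _
          _ = _ := by ring
      linarith
    have h3 : |kd χ a n y| + |kd' χ a n y| ≤ 3 * (N : ℝ) ^ 2 + N * rexp (n + 1) + N ^ 2 * M := by
      linarith
    refine h3.trans ?_
    rw [hB, abs_of_nonneg hy0, mul_assoc, ← exp_add]
    apply le_mul_of_one_le_right (by positivity)
    apply one_le_exp
    linarith

/-- the tail of the kernel -/
lemma kd_diff (hne : χ ≠ 1) (he : χ.Even) (a : ℝ) (n : ℕ) (y : ℝ) :
    |rexp (-(a * y)) * Dv χ (rexp y) - kd χ a n y| ≤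
      if (n : ℝ) < y then (N : ℝ) ^ 2 * rexp (-(a * y)) else 0 := by
  unfold kd
  have hc0 := cut_nonneg n y
  have hc1 := cut_le_one n y
  split_ifs with h
  · have e : rexp (-(a * y)) * Dv χ (rexp y) - rexp (-(a * y)) * Dv χ (rexp y) * cut n y =
        rexp (-(a * y)) * Dv χ (rexp y) * (1 - cut n y) := by ring
    rw [e, abs_mul, abs_mul, abs_of_pos (exp_pos _), abs_of_nonneg (by linarith : 0 ≤ 1 - cut n y)]
    have hD := abs_Dv_le hne he (rexp y)
    calc rexp (-(a * y)) * |Dv χ (rexp y)| * (1 - cut n y) ≤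
          rexp (-(a * y)) * (N : ℝ) ^ 2 * 1 := by
          apply mul_le_mul _ (by linarith) (by linarith) (by positivity)
          exact mul_le_mul_of_nonneg_left hD (exp_pos _).le
      _ = _ := by ring
  · rw [cut_one (not_lt.mp h), mul_one, sub_self, abs_zero]

lemma int_kd_ge (hne : χ ≠ 1) (he : χ.Even) {a : ℝ} (ha : 0 < a) (ha2 : a ≤ 2) (n : ℕ) :
    JD χ a - (N : ℝ) ^ 2 * (rexp (-(a * n)) / a) ≤ ∫ y, kd χ a n y := by
  obtain ⟨B, hB, hk⟩ := kd_nice hne he n (χ := χ)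
  have i1 := integrable_JD hne he ha
  have i2 := (hk a ha.le ha2).integrable
  have i3 : Integrable (fun y : ℝ => if (n : ℝ) < y then (N : ℝ) ^ 2 * rexp (-(a * y)) else 0) := by
    have e : (fun y : ℝ => if (n : ℝ) < y then (N : ℝ) ^ 2 * rexp (-(a * y)) else 0) =
        (Ioi (n : ℝ)).indicator (fun y => (N : ℝ) ^ 2 * rexp (-(a * y))) := by
      ext y
      rfl
    rw [e, integrable_indicator_iff measurableSet_Ioi]
    exact (integrableOn_exp_neg' ha n).const_mul _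
  have h1 : |∫ y, (rexp (-(a * y)) * Dv χ (rexp y) - kd χ a n y)| ≤
      ∫ y, (if (n : ℝ) < y then (N : ℝ) ^ 2 * rexp (-(a * y)) else 0) := by
    rw [← Real.norm_eq_abs]
    exact norm_integral_le_of_norm_le i3 (Eventually.of_forall fun y => kd_diff hne he a n y)
  have h2 : ∫ y, (if (n : ℝ) < y then (N : ℝ) ^ 2 * rexp (-(a * y)) else 0) =
      (N : ℝ) ^ 2 * (rexp (-(a * n)) / a) := by
    have e : (fun y : ℝ => if (n : ℝ) < y then (N : ℝ) ^ 2 * rexp (-(a * y)) else 0) =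
        (Ioi (n : ℝ)).indicator (fun y => (N : ℝ) ^ 2 * rexp (-(a * y))) := by
      ext y
      rfl
    rw [e, integral_indicator measurableSet_Ioi, integral_const_mul, integral_exp_neg_Ioi' ha]
  rw [integral_sub i1 i2, h2] at h1
  have := (abs_le.mp h1).2
  unfold JD
  linarith

/-- **The main ranges, quantitative form.** -/
theorem main_pos2 {P : ℝ → Finset ℕ} {C₀ : ℝ} {C₁ Cs : ℝ → ℝ} (hM : MDat P C₀ C₁ Cs) :
    ∃ D : ℝ, 0 < D ∧ ∃ K₀ : ℝ, 1 ≤ K₀ ∧ ∀ ℓ B : ℝ, 0 < ℓ → 0 ≤ B →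
    ∃ Λ₀ : ℝ, 1 ≤ Λ₀ ∧ ∀ Λ X : ℝ, Λ₀ ≤ Λ →
    15 * Λ / 16 ≤ X → X ≤ XX P 0 Λ → ∃ σ, 0 ≤ σ ∧ σ ≤ 1 ∧ (X ≤ K₀ * Λ ∨ XX P σ Λ = X) ∧
      ∃ G, 0 < G ∧ (∀ y, X / 2 ≤ y → al P 1 σ Λ y ≤ D * G) ∧ ∀ k k' : ℝ → ℝ, NiceC k k' B →
        G * ((∫ v, k v) - ℓ) ≤ Ef (P Λ) (xs σ) lg (fun s => k (X - s)) := by
  obtain ⟨D, hD, c, hc, K₀, hK₀, hflat⟩ := hM.flatAll2
  refine ⟨D, hD, K₀, hK₀, fun ℓ B hℓ hB => ?_⟩
  set ε : ℝ := min 1 (ℓ / (16 * (B + 1))) with hε
  have hε0 : 0 < ε := lt_min one_pos (by positivity)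
  have hε1 : ε ≤ 1 := min_le_left _ _
  set U : ℝ := max 0 (Real.log (8 * (B + 1) * (D + 1) / ℓ)) with hU
  have hU0 : 0 ≤ U := le_max_left _ _
  have hUe : (D + 1) * rexp (-U) ≤ ℓ / (8 * (B + 1)) := by
    have h1 : 8 * (B + 1) * (D + 1) / ℓ ≤ rexp U := by
      rw [← Real.log_le_iff_le_exp (by positivity)]
      exact le_max_right _ _
    have h2 : rexp (-U) ≤ ℓ / (8 * (B + 1) * (D + 1)) := by
      rw [exp_neg, inv_le_comm₀ (exp_pos _) (by positivity), inv_div]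
      exact h1
    calc (D + 1) * rexp (-U) ≤ (D + 1) * (ℓ / (8 * (B + 1) * (D + 1))) :=
          mul_le_mul_of_nonneg_left h2 (by positivity)
      _ = _ := by field_simp
  obtain ⟨Λ₁, hΛ₁, hfl⟩ := hflat ε U hε0 hε1 hU0
  refine ⟨Λ₁ + 10 / (ε * c), ?_, fun Λ X hΛ hX hX2 => ?_⟩
  · have : 0 < 10 / (ε * c) := by positivity
    linarith
  have hp : 0 < 10 / (ε * c) := by positivity
  have hX0 : 0 < X := by linarith
  obtain ⟨σ, hσ, hσ1, hloc, G, hG⟩ := hfl Λ X (by linarith) hX hX2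
  refine ⟨σ, hσ, hσ1, hloc, G, hG.pos, hG.upper, fun k k' hk => ?_⟩
  have hXe : X * rexp (-(X / 2)) ≤ ε * c := by
    have h1 := Real.pow_div_factorial_le_exp (X / 2) (by linarith) 2
    have h2 : ((2 : ℕ).factorial : ℝ) = 2 := by norm_num
    rw [h2] at h1
    have h3 : rexp (-(X / 2)) * rexp (X / 2) = 1 := by rw [← exp_add]; simp
    have h4 : (X / 2) ^ 2 / 2 * rexp (-(X / 2)) ≤ 1 := by
      calc _ ≤ rexp (X / 2) * rexp (-(X / 2)) := mul_le_mul_of_nonneg_right h1 (exp_pos _).le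
        _ = 1 := by rw [mul_comm]; exact h3
    have h5 : 9 / (ε * c) ≤ X := by
      have h6 : 10 / (ε * c) ≤ Λ := by linarith
      have h7 : 9 / (ε * c) = 9 / 10 * (10 / (ε * c)) := by ring
      rw [h7]
      linarith
    rw [div_le_iff₀ (by positivity)] at h5
    have h6 : X * (X * rexp (-(X / 2))) ≤ 8 := by nlinarith
    have h7 : 0 ≤ X * rexp (-(X / 2)) := by positivity
    by_contra hcon
    rw [not_le] at hcon
    have h8 : X * (ε * c) < X * (X * rexp (-(X / 2))) := mul_lt_mul_of_pos_left hcon hX0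
    linarith
  have h1 := hk.approx hG hε0 hD hX0 hXe
  refine le_trans ?_ h1
  apply mul_le_mul_of_nonneg_left _ hG.pos.le
  have h2 : 2 * B * (2 * ε + (D + 1) * rexp (-U)) ≤ ℓ := by
    have h3 : ε ≤ ℓ / (16 * (B + 1)) := min_le_right _ _
    have h4 : 2 * ε + (D + 1) * rexp (-U) ≤ ℓ / (4 * (B + 1)) := by
      have : ℓ / (4 * (B + 1)) = 2 * (ℓ / (16 * (B + 1))) + ℓ / (8 * (B + 1)) := by
        field_simp; ring
      rw [this]
      linarith
    calc 2 * B * (2 * ε + (D + 1) * rexp (-U)) ≤ 2 * (B + 1) * (ℓ / (4 * (B + 1))) := by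
          apply mul_le_mul (by linarith) h4 (by positivity) (by positivity)
      _ = ℓ / 2 := by field_simp; norm_num
      _ ≤ ℓ := by linarith
  linarith

end Pool.Agent.MP0016c7.Ros
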