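import Mathlib
import Pool.Agent.Lib.MP_0016c7_nt.RosBd
import Pool.Agent.Lib.MP_0016c7_nt.RosLow

open Real Filter

namespace Pool.Agent.MP0016c7.Ros

lemma xs_shift (σ t : ℝ) (p : ℕ) : xs (σ + t) p = xs σ p * rexp (-(t * lg p)) := by
  unfold xs
  rw [← exp_add]; congr 1; ring

lemma xs_anti' {σ σ' : ℝ} (h : σ ≤ σ') (p : ℕ) : xs σ' p ≤ xs σ p := by
  unfold xs
  rw [exp_le_exp]
  nlinarith [lg_nonneg p]

/-- one prime: variance -/
lemma one_VV_anti {x y : ℝ} (hx : 0 < x) (hxy : x ≤ y) (hy : y ≤ 1) :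
    x / (1 + x) ^ 2 ≤ y / (1 + y) ^ 2 := by
  have hy0 : 0 < y := by linarith
  rw [div_le_div_iff₀ (by positivity) (by positivity)]
  nlinarith only [hxy, hy, hx, mul_nonneg (sub_nonneg.mpr hxy) (by nlinarith only [hxy, hy, hx] : (0 : ℝ) ≤ 1 - x * y)]

lemma VV_anti (P : ℝ → Finset ℕ) {σ σ' Λ : ℝ} (h0 : 0 ≤ σ) (h : σ ≤ σ') :
    VV P σ' Λ ≤ VV P σ Λ := by
  unfold VV Vm
  apply Finset.sum_le_sum
  intro p _
  rw [mul_div_assoc, mul_div_assoc]
  exact mul_le_mul_of_nonneg_left (one_VV_anti (xs_pos _ _) (xs_anti' h p) (xs_le_one h0 p))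
    (sq_nonneg _)

/-- one prime: mean -/
lemma one_XX {x t : ℝ} (hx : 0 < x) (ht : 0 ≤ t) (hxt : x * rexp t ≤ 1) :
    t * (x / (1 + x) ^ 2) ≤ x * rexp t / (1 + x * rexp t) - x / (1 + x) := by
  have he := exp_pos t
  have h1 : x * rexp t / (1 + x * rexp t) - x / (1 + x) =
      x * (rexp t - 1) / ((1 + x * rexp t) * (1 + x)) := by
    field_simp; ring
  rw [h1, mul_div_assoc', div_le_div_iff₀ (by positivity) (by positivity)]
  have hs : 2 * t ≤ rexp t - rexp (-t) := by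
    have := Real.self_le_sinh_iff.mpr ht
    rw [Real.sinh_eq] at this
    linarith only [this]
  have hee : rexp t * rexp (-t) = 1 := by rw [← exp_add]; simp
  have hx' : x ≤ rexp (-t) := by
    rw [exp_neg, ← one_div, le_div_iff₀ he]; exact hxt
  have hk : 0 ≤ t * rexp t - rexp t + 1 := by
    have := add_one_le_exp (-t)
    nlinarith only [hee, he, this]
  have key : t * (1 + x * rexp t) ≤ (rexp t - 1) * (1 + x) := by
    have h2 : x * (t * rexp t - rexp t + 1) ≤ rexp (-t) * (t * rexp t - rexp t + 1) :=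
      mul_le_mul_of_nonneg_right hx' hk
    have h3 : rexp (-t) * (t * rexp t - rexp t + 1) = t - 1 + rexp (-t) := by
      calc _ = t * (rexp t * rexp (-t)) - (rexp t * rexp (-t)) + rexp (-t) := by ring
        _ = _ := by rw [hee]; ring
    nlinarith only [hs, h2, h3]
  have hpos : 0 ≤ x * (1 + x) := by positivity
  have := mul_le_mul_of_nonneg_left key hpos
  nlinarith only [this]

lemma XX_sub_ge (P : ℝ → Finset ℕ) {σ σ' Λ : ℝ} (h0 : 0 ≤ σ) (h : σ ≤ σ') :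
    (σ' - σ) * VV P σ' Λ ≤ XX P σ Λ - XX P σ' Λ := by
  unfold VV Vm XX Xm
  rw [Finset.mul_sum, ← Finset.sum_sub_distrib]
  apply Finset.sum_le_sum
  intro p _
  have hl := lg_nonneg p
  have ht : 0 ≤ (σ' - σ) * lg p := mul_nonneg (by linarith) hl
  have e : xs σ p = xs σ' p * rexp ((σ' - σ) * lg p) := by
    unfold xs
    rw [← exp_add]; congr 1; ring
  have h1 := one_XX (xs_pos σ' p) ht (by rw [← e]; exact xs_le_one h0 p)
  rw [← e] at h1
  have h2 := mul_le_mul_of_nonneg_left h1 hl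
  calc (σ' - σ) * (lg p ^ 2 * xs σ' p / (1 + xs σ' p) ^ 2) =
      lg p * ((σ' - σ) * lg p * (xs σ' p / (1 + xs σ' p) ^ 2)) := by ring
    _ ≤ lg p * (xs σ p / (1 + xs σ p) - xs σ' p / (1 + xs σ' p)) := h2
    _ = _ := by ring

lemma VV_nonneg' (P : ℝ → Finset ℕ) (σ Λ : ℝ) : 0 ≤ VV P σ Λ := by
  unfold VV Vm
  apply Finset.sum_nonneg
  intro p _
  have := xs_pos σ p
  positivity

lemma XX_anti (P : ℝ → Finset ℕ) {σ σ' Λ : ℝ} (h0 : 0 ≤ σ) (h : σ ≤ σ') :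
    XX P σ' Λ ≤ XX P σ Λ := by
  have h1 := XX_sub_ge P (Λ := Λ) h0 h
  have h2 := VV_nonneg' P σ' Λ
  nlinarith only [h1, h, h2]

/-- one prime: normalisation -/
lemma one_Zt {x t : ℝ} (hx : 0 < x) :
    (1 + x) * rexp (-(t * (x / (1 + x)))) ≤ 1 + x * rexp (-t) := by
  have h1 : 0 < 1 + x := by linarith
  have hconv := convexOn_exp.2 (Set.mem_univ (-t)) (Set.mem_univ (0 : ℝ))
    (by positivity : 0 ≤ x / (1 + x)) (by positivity : 0 ≤ 1 / (1 + x)) (by field_simp; ring)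
  simp only [smul_eq_mul, mul_zero, add_zero, exp_zero, mul_one] at hconv
  have e : x / (1 + x) * -t = -(t * (x / (1 + x))) := by ring
  rw [e] at hconv
  calc (1 + x) * rexp (-(t * (x / (1 + x)))) ≤
      (1 + x) * (x / (1 + x) * rexp (-t) + 1 / (1 + x)) :=
        mul_le_mul_of_nonneg_left hconv h1.le
    _ = _ := by field_simp; ring

/-- convexity of the logarithm of the normalisation -/
lemma Zt_conv (P : Finset ℕ) (σ t : ℝ) :
    Zt P (xs σ) * rexp (-(t * Xm P (xs σ) lg)) ≤ Zt P (xs (σ + t)) := by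
  unfold Zt Xm
  rw [Finset.mul_sum, ← Finset.sum_neg_distrib, exp_sum, ← Finset.prod_mul_distrib]
  apply Finset.prod_le_prod
  · intro p _
    have := xs_pos σ p
    positivity
  · intro p _
    have h1 := one_Zt (x := xs σ p) (t := t * lg p) (xs_pos σ p)
    rw [xs_shift]
    have e : -(t * (lg p * xs σ p / (1 + xs σ p))) = -(t * lg p * (xs σ p / (1 + xs σ p))) := by
      ring
    rw [e]
    exact h1

/-- change of tilt -/
lemma al_tilt (P : ℝ → Finset ℕ) (τ σ t Λ y : ℝ) :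
    al P τ σ Λ y = Zt (P Λ) (xs (σ + t)) / Zt (P Λ) (xs σ) * rexp (t * y) *
      al P (τ + t) (σ + t) Λ y := by
  have hZ := Zt_pos (P := P Λ) fun p => xs_pos σ p
  have hZ' := Zt_pos (P := P Λ) fun p => xs_pos (σ + t) p
  unfold al Ef
  have h1 : ∀ A : Finset ℕ, Wt (xs σ) A * kt τ (y - Sm lg A) =
      rexp (t * y) * (Wt (xs (σ + t)) A * kt (τ + t) (y - Sm lg A)) := by
    intro A
    have h2 : Wt (xs (σ + t)) A = Wt (xs σ) A * rexp (-(t * Sm lg A)) := by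
      unfold Wt Sm
      rw [Finset.mul_sum, ← Finset.sum_neg_distrib, exp_sum, ← Finset.prod_mul_distrib]
      exact Finset.prod_congr rfl fun p _ => xs_shift σ t p
    rw [h2]
    unfold kt
    split_ifs with h
    · have e : rexp (-(τ * (y - Sm lg A))) = rexp (t * y) * rexp (-(t * Sm lg A)) *
          rexp (-((τ + t) * (y - Sm lg A))) := by
        rw [← exp_add, ← exp_add]; congr 1; ring
      rw [e]; ring
    · ring
  simp_rw [h1]
  rw [← Finset.mul_sum]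
  field_simp

variable {P : ℝ → Finset ℕ} {C₀ : ℝ} {C₁ Cs : ℝ → ℝ}

/-- lower bound for the mean -/
lemma MDat.XX_big (hM : MDat P C₀ C₁ Cs) {σ Λ : ℝ} (h0 : 0 ≤ σ) (hσ : σ ≤ 1)
    (hΛ : 16 * C₀ ≤ Λ) (hΛ0 : 0 < Λ) :
    Λ * rexp ((1 - σ) * Λ / 2) / 64 ≤ XX P σ Λ := by
  have h1 := hM.VV_ge h0 hσ hΛ
  have h2 := hM.VV_le (σ := σ) hΛ0.le
  have h3 : Λ * (Λ * rexp ((1 - σ) * Λ / 2) / 64) ≤ Λ * XX P σ Λ := by
    refine le_trans (le_of_eq ?_) (h1.trans h2)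
    ring
  exact le_of_mul_le_mul_left h3 hΛ0

lemma MDat.XX_lt (hM : MDat P C₀ C₁ Cs) {σ σ' Λ : ℝ} (h0 : 0 ≤ σ) (h : σ < σ') (hσ' : σ' ≤ 1)
    (hΛ : 16 * C₀ ≤ Λ) (hΛ0 : 0 < Λ) : XX P σ' Λ < XX P σ Λ := by
  have h1 := XX_sub_ge P (Λ := Λ) h0 h.le
  have h2 := hM.VV_pos (σ := σ') (by linarith) hσ' hΛ hΛ0
  have : 0 < (σ' - σ) * VV P σ' Λ := mul_pos (by linarith) h2
  linarith

end Pool.Agent.MP0016c7.Ros
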