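import Mathlib
import Pool.Agent.Lib.MP_0016c7_nt.CdlMinor

open Real

namespace Pool.Agent.MP0016c7.Ros

/-- harmonic mass of a set with few elements in each window -/
lemma harm_window {E : Finset ℕ} {z Z : ℕ} {k : ℝ} (hz : 1 ≤ z) (hlo : ∀ e ∈ E, z ≤ e)
    (hhi : ∀ e ∈ E, e ≤ Z) (hk : 0 ≤ k)
    (hw : ∀ n : ℕ, ((E.filter fun e => n ≤ e ∧ e < n + z).card : ℝ) ≤ k) :
    ∑ e ∈ E, 1 / (e : ℝ) ≤ k * (1 + Real.log Z) / z := by
  classical
  have hz0 : (0 : ℝ) < z := by exact_mod_cast hz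
  rw [le_div_iff₀ hz0, Finset.sum_mul]
  have h1 : ∀ e ∈ E, 1 / (e : ℝ) * z ≤
      ∑ n ∈ Finset.Icc 1 Z, (1 / (n : ℝ)) * (if n ≤ e ∧ e < n + z then 1 else 0) := by
    intro e he
    have hze := hlo e he
    have heZ := hhi e he
    have hsub : Finset.Ioc (e - z) e ⊆ Finset.Icc 1 Z := by
      intro n hn
      rw [Finset.mem_Ioc] at hn
      rw [Finset.mem_Icc]
      omega
    calc 1 / (e : ℝ) * z = ∑ n ∈ Finset.Ioc (e - z) e, 1 / (e : ℝ) := by
          rw [Finset.sum_const, Nat.card_Ioc, nsmul_eq_mul, Nat.sub_sub_self hze]; ring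
      _ ≤ ∑ n ∈ Finset.Ioc (e - z) e, (1 / (n : ℝ)) * (if n ≤ e ∧ e < n + z then 1 else 0) := by
          apply Finset.sum_le_sum
          intro n hn
          rw [Finset.mem_Ioc] at hn
          rw [if_pos ⟨hn.2, by omega⟩, mul_one]
          have hn0 : (0 : ℝ) < n := by
            have : 0 < n := by omega
            exact_mod_cast this
          exact one_div_le_one_div_of_le hn0 (by exact_mod_cast hn.2)
      _ ≤ _ := by
          apply Finset.sum_le_sum_of_subset_of_nonneg hsub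
          intro n _ _
          split_ifs <;> positivity
  refine (Finset.sum_le_sum h1).trans ?_
  rw [Finset.sum_comm]
  have h2 : ∀ n ∈ Finset.Icc 1 Z, ∑ e ∈ E, (1 / (n : ℝ)) * (if n ≤ e ∧ e < n + z then 1 else 0) ≤
      k * (1 / (n : ℝ)) := by
    intro n _
    rw [← Finset.mul_sum, Finset.sum_boole, mul_comm]
    exact mul_le_mul_of_nonneg_right (hw n) (by positivity)
  refine (Finset.sum_le_sum h2).trans ?_
  rw [← Finset.mul_sum]
  apply mul_le_mul_of_nonneg_left _ hk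
  have h3 := harmonic_le_one_add_log Z
  have h4 : ((harmonic Z : ℚ) : ℝ) = ∑ n ∈ Finset.Icc 1 Z, 1 / (n : ℝ) := by
    rw [harmonic_eq_sum_Icc]
    push_cast
    simp
  rwa [h4] at h3

/-- separated sets have small harmonic mass -/
lemma harm_sep {E : Finset ℕ} {z Z : ℕ} (hz : 1 ≤ z) (hlo : ∀ e ∈ E, z ≤ e)
    (hhi : ∀ e ∈ E, e ≤ Z) (hsep : ∀ e ∈ E, ∀ e' ∈ E, e < e' → z ≤ e' - e) :
    ∑ e ∈ E, 1 / (e : ℝ) ≤ (1 + Real.log Z) / z := by
  classical
  have := harm_window (k := 1) hz hlo hhi zero_le_one (fun n => by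
    have : (E.filter fun e => n ≤ e ∧ e < n + z).card ≤ 1 := by
      rw [Finset.card_le_one]
      intro a ha b hb
      rw [Finset.mem_filter] at ha hb
      by_contra hne
      rcases lt_or_gt_of_ne hne with h | h
      · have := hsep a ha.1 b hb.1 h
        omega
      · have := hsep b hb.1 a ha.1 h
        omega
    exact_mod_cast this)
  rwa [one_mul] at this

/-- Abel summation with decreasing weights -/
lemma abel_dec {c : ℕ → ℝ} {z : ℕ → ℂ} {B : ℝ} {a : ℕ} (hc : ∀ n, a ≤ n → c (n + 1) ≤ c n)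
    (hc0 : ∀ n, a ≤ n → 0 ≤ c n) (hB : ∀ m, ‖∑ n ∈ Finset.Ico a m, z n‖ ≤ B) (b : ℕ)
    (hab : a ≤ b) : ‖∑ n ∈ Finset.Ico a b, (c n : ℂ) * z n‖ ≤ B * c a := by
  have hB0 : 0 ≤ B := (norm_nonneg _).trans (hB a)
  have key : ∀ k : ℕ, ‖∑ n ∈ Finset.Ico a (a + k), (c n : ℂ) * z n -
      (c (a + k) : ℂ) * ∑ n ∈ Finset.Ico a (a + k), z n‖ ≤ B * (c a - c (a + k)) := by
    intro k
    induction k with
    | zero => simp
    | succ k ih =>
      rw [show a + (k + 1) = a + k + 1 by ring, Finset.sum_Ico_succ_top (by omega),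
        Finset.sum_Ico_succ_top (by omega)]
      have e : ∑ n ∈ Finset.Ico a (a + k), (c n : ℂ) * z n + (c (a + k) : ℂ) * z (a + k) -
          (c (a + k + 1) : ℂ) * (∑ n ∈ Finset.Ico a (a + k), z n + z (a + k)) =
          (∑ n ∈ Finset.Ico a (a + k), (c n : ℂ) * z n -
            (c (a + k) : ℂ) * ∑ n ∈ Finset.Ico a (a + k), z n) +
          ((c (a + k) - c (a + k + 1) : ℝ) : ℂ) * (∑ n ∈ Finset.Ico a (a + k + 1), z n) := by
        rw [Finset.sum_Ico_succ_top (by omega)]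
        push_cast
        ring
      rw [e]
      refine (norm_add_le _ _).trans ?_
      have h1 : ‖((c (a + k) - c (a + k + 1) : ℝ) : ℂ) * (∑ n ∈ Finset.Ico a (a + k + 1), z n)‖ ≤
          (c (a + k) - c (a + k + 1)) * B := by
        rw [norm_mul, Complex.norm_real, norm_eq_abs,
          abs_of_nonneg (sub_nonneg.mpr (hc (a + k) (by omega)))]
        exact mul_le_mul_of_nonneg_left (hB _) (sub_nonneg.mpr (hc (a + k) (by omega)))
      nlinarith only [ih, h1]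
  obtain ⟨k, rfl⟩ := Nat.exists_eq_add_of_le hab
  have h1 := key k
  have h2 : ‖(c (a + k) : ℂ) * ∑ n ∈ Finset.Ico a (a + k), z n‖ ≤ c (a + k) * B := by
    rw [norm_mul, Complex.norm_real, norm_eq_abs, abs_of_nonneg (hc0 (a + k) (by omega))]
    exact mul_le_mul_of_nonneg_left (hB _) (hc0 (a + k) (by omega))
  have h3 : ∑ n ∈ Finset.Ico a (a + k), (c n : ℂ) * z n =
      (∑ n ∈ Finset.Ico a (a + k), (c n : ℂ) * z n -
        (c (a + k) : ℂ) * ∑ n ∈ Finset.Ico a (a + k), z n) +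
      (c (a + k) : ℂ) * ∑ n ∈ Finset.Ico a (a + k), z n := by ring
  rw [h3]
  refine (norm_add_le _ _).trans ?_
  nlinarith only [h1, h2]

/-- harmonic exponential sums -/
lemma harm_exp {α : ℝ} (hα : 0 < dn α) {a b : ℕ} (ha : 1 ≤ a) (hab : a ≤ b) :
    ‖∑ n ∈ Finset.Ico a b, ((1 / (n : ℝ) : ℝ) : ℂ) * eu (n * α)‖ ≤ 1 / (a * dn α) := by
  have ha0 : (0 : ℝ) < a := by exact_mod_cast ha
  have h := abel_dec (c := fun n : ℕ => 1 / (n : ℝ)) (z := fun n : ℕ => eu (n * α))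
    (B := 1 / dn α) (a := a) (fun n hn => by
      have : (0 : ℝ) < n := by
        have : 0 < n := by omega
        exact_mod_cast this
      apply one_div_le_one_div_of_le this
      push_cast; linarith) (fun n _ => by positivity) (fun m => by
      rcases le_total m a with hm | hm
      · rw [Finset.Ico_eq_empty_of_le hm, Finset.sum_empty, norm_zero]
        positivity
      · have e : ∑ n ∈ Finset.Ico a m, eu (n * α) =
            ∑ n ∈ Finset.Icc 1 (m - 1), eu (n * α) - ∑ n ∈ Finset.Icc 1 (a - 1), eu (n * α) := by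
          have h1 : Finset.Icc 1 (m - 1) = Finset.Ico 1 m := by
            ext n; rw [Finset.mem_Icc, Finset.mem_Ico]; omega
          have h2 : Finset.Icc 1 (a - 1) = Finset.Ico 1 a := by
            ext n; rw [Finset.mem_Icc, Finset.mem_Ico]; omega
          rw [h1, h2, ← Finset.sum_Ico_consecutive _ ha hm]
          ring
        rw [e]
        refine (norm_sub_le _ _).trans ?_
        have h1 := norm_geom_le' hα (m - 1)
        have h2 := norm_geom_le' hα (a - 1)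
        have h3 : 1 / (2 * dn α) + 1 / (2 * dn α) = 1 / dn α := by field_simp; norm_num
        linarith only [h1, h2, h3]) b hab
  refine h.trans (le_of_eq ?_)
  field_simp

lemma majA_of_dn {t ρ G : ℝ} {d : ℕ} (hd : 1 ≤ d) (hdG : (d : ℝ) ≤ G) (h : dn (d * t) ≤ ρ) :
    MajA G ρ t := by
  have hd0 : (0 : ℝ) < d := by exact_mod_cast hd
  have hd1 : (1 : ℝ) ≤ d := by exact_mod_cast hd
  refine ⟨(round ((d : ℝ) * t) : ℚ) / d, ?_, ?_⟩
  · refine le_trans ?_ hdG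
    have h := Rat.den_dvd (round ((d : ℝ) * t)) d
    have e : (Rat.divInt (round ((d : ℝ) * t)) d) = (round ((d : ℝ) * t) : ℚ) / d := by
      rw [Rat.divInt_eq_div]; push_cast; rfl
    rw [e] at h
    have h' : ((round ((d : ℝ) * t) : ℚ) / d).den ∣ d := by exact_mod_cast h
    exact_mod_cast Nat.le_of_dvd hd h'
  · push_cast
    have e : t - (round ((d : ℝ) * t) : ℝ) / d = (d * t - round ((d : ℝ) * t)) / d := by
      field_simp
    rw [e, abs_div, abs_of_pos hd0, div_le_iff₀ hd0]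
    have h0 : |(d : ℝ) * t - round ((d : ℝ) * t)| ≤ ρ := h
    have h1 : 0 ≤ ρ := (abs_nonneg _).trans h0
    nlinarith only [h0, hd1, h1]

/-- a harmonic block -/
structure HB (P : Finset ℕ) (β : ℕ → ℝ) (μ C : ℝ) (lo hi : ℕ) : Prop where
  nn : ∀ p, 0 ≤ β p
  mem : ∀ p, β p ≠ 0 → p ∈ P
  mass : ∑ p ∈ P, β p = μ
  le : ∀ p, β p ≤ C / p
  supp : ∀ p, β p ≠ 0 → lo ≤ p ∧ p < hi

variable {P : Finset ℕ} {β₁ β₂ : ℕ → ℝ} {μ₁ μ₂ C : ℝ} {l₁ h₁ l₂ h₂ : ℕ}

/-- **Bilinear sums with harmonic weights.** -/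
theorem Bl_harm (hB1 : HB P β₁ μ₁ C l₁ h₁) (hB2 : HB P β₂ μ₂ C l₂ h₂) (hμ₁ : 0 < μ₁)
    (hμ₂ : 0 < μ₂) (hC : 0 ≤ C) (hl₁ : 1 ≤ l₁) {D : ℕ} (hD : 1 ≤ D) (hDl : D ≤ l₂)
    (hlh : l₁ ≤ h₁) {t ρ : ℝ}
    (hρ : 0 < ρ) (ht : ¬ MajA D (2 * ρ) t) :
    ‖Bl P β₁ β₂ μ₁ μ₂ t‖ ^ 2 ≤ C / μ₁ * (1 / (l₁ * ρ)) +
      C / μ₁ * (1 + Real.log h₁) * (C * (1 + Real.log h₂) / D) / μ₂ := by
  classical
  have hl0 : (0 : ℝ) < l₁ := by exact_mod_cast hl₁
  set V : ℕ → ℂ := fun n => ∑ p₂ ∈ P, (β₂ p₂ : ℂ) * eu (n * (p₂ * t)) with hV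
  have e1 : (∑ p₂ ∈ P, ∑ p₁ ∈ P, ((β₂ p₂ * β₁ p₁ : ℝ) : ℂ) * eu (p₁ * (p₂ * t))) =
      ∑ p₁ ∈ P, (β₁ p₁ : ℂ) * V p₁ := by
    rw [Finset.sum_comm]
    apply Finset.sum_congr rfl
    intro p₁ _
    rw [hV, Finset.mul_sum]
    apply Finset.sum_congr rfl
    intro p₂ _
    push_cast
    ring
  have hn1 : ‖∑ p₁ ∈ P, (β₁ p₁ : ℂ) * V p₁‖ ^ 2 ≤ μ₁ * ∑ p₁ ∈ P, β₁ p₁ * ‖V p₁‖ ^ 2 := by
    have a1 : ‖∑ p₁ ∈ P, (β₁ p₁ : ℂ) * V p₁‖ ≤ ∑ p₁ ∈ P, β₁ p₁ * ‖V p₁‖ := by
      refine (norm_sum_le _ _).trans (le_of_eq (Finset.sum_congr rfl fun p _ => ?_))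
      rw [norm_mul, Complex.norm_real, norm_eq_abs, abs_of_nonneg (hB1.nn p)]
    have a2 : (∑ p₁ ∈ P, β₁ p₁ * ‖V p₁‖) ^ 2 ≤
        (∑ p₁ ∈ P, β₁ p₁) * ∑ p₁ ∈ P, β₁ p₁ * ‖V p₁‖ ^ 2 := by
      have := Finset.sum_mul_sq_le_sq_mul_sq P (fun p => √(β₁ p)) (fun p => √(β₁ p) * ‖V p‖)
      refine le_trans (le_of_eq ?_) (this.trans (le_of_eq ?_))
      · congr 1
        apply Finset.sum_congr rfl
        intro p _
        rw [← mul_assoc, mul_self_sqrt (hB1.nn p)]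
      · congr 1
        · exact Finset.sum_congr rfl fun p _ => sq_sqrt (hB1.nn p)
        · apply Finset.sum_congr rfl
          intro p _
          rw [mul_pow, sq_sqrt (hB1.nn p)]
    calc ‖∑ p₁ ∈ P, (β₁ p₁ : ℂ) * V p₁‖ ^ 2 ≤ (∑ p₁ ∈ P, β₁ p₁ * ‖V p₁‖) ^ 2 :=
          pow_le_pow_left₀ (norm_nonneg _) a1 2
      _ ≤ _ := by rw [hB1.mass] at a2; exact a2
  have hn2 : ∑ p₁ ∈ P, β₁ p₁ * ‖V p₁‖ ^ 2 ≤
      C * ∑ n ∈ Finset.Ico l₁ h₁, (1 / (n : ℝ)) * ‖V n‖ ^ 2 := by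
    rw [Finset.mul_sum]
    calc ∑ p₁ ∈ P, β₁ p₁ * ‖V p₁‖ ^ 2 =
          ∑ p₁ ∈ P.filter (fun p => β₁ p ≠ 0), β₁ p₁ * ‖V p₁‖ ^ 2 := by
          rw [Finset.sum_filter]
          apply Finset.sum_congr rfl
          intro p _
          split_ifs with h
          · rfl
          · rw [not_not.mp h, zero_mul]
      _ ≤ ∑ p₁ ∈ P.filter (fun p => β₁ p ≠ 0), C * (1 / (p₁ : ℝ) * ‖V p₁‖ ^ 2) := by
          apply Finset.sum_le_sum
          intro p _
          have := mul_le_mul_of_nonneg_right (hB1.le p) (by positivity : 0 ≤ ‖V p‖ ^ 2)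
          refine this.trans (le_of_eq ?_)
          ring
      _ ≤ _ := by
          apply Finset.sum_le_sum_of_subset_of_nonneg
          · intro p hp
            rw [Finset.mem_filter] at hp
            rw [Finset.mem_Ico]
            exact hB1.supp p hp.2
          · intro n _ _
            positivity
  -- expand the square
  have hsq : ∀ n : ℕ, ((‖V n‖ ^ 2 : ℝ) : ℂ) =
      ∑ p ∈ P, ∑ q ∈ P, ((β₂ p * β₂ q : ℝ) : ℂ) * eu (n * ((p : ℝ) * t - q * t)) := by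
    intro n
    have : ((‖V n‖ ^ 2 : ℝ) : ℂ) = V n * (starRingEnd ℂ) (V n) := by
      rw [Complex.mul_conj, Complex.normSq_eq_norm_sq]
    rw [this, hV]
    simp only [map_sum, map_mul, Complex.conj_ofReal, eu_conj]
    rw [Finset.sum_mul_sum]
    apply Finset.sum_congr rfl
    intro p _
    apply Finset.sum_congr rfl
    intro q _
    have e3 : eu (n * ((p : ℝ) * t - q * t)) = eu (n * (p * t)) * eu (-(n * (q * t))) := by
      rw [← eu_add]; congr 1; ring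
    rw [e3]
    push_cast
    ring
  set Hs : ℝ → ℂ := fun θ => ∑ n ∈ Finset.Ico l₁ h₁, ((1 / (n : ℝ) : ℝ) : ℂ) * eu (n * θ) with hHs
  have hn3 : ∑ n ∈ Finset.Ico l₁ h₁, (1 / (n : ℝ)) * ‖V n‖ ^ 2 ≤
      ∑ p ∈ P, ∑ q ∈ P, β₂ p * β₂ q * ‖Hs ((p : ℝ) * t - q * t)‖ := by
    have e4 : ((∑ n ∈ Finset.Ico l₁ h₁, (1 / (n : ℝ)) * ‖V n‖ ^ 2 : ℝ) : ℂ) =
        ∑ p ∈ P, ∑ q ∈ P, ((β₂ p * β₂ q : ℝ) : ℂ) * Hs ((p : ℝ) * t - q * t) := by
      rw [Complex.ofReal_sum]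
      have : ∀ n ∈ Finset.Ico l₁ h₁, (((1 / (n : ℝ)) * ‖V n‖ ^ 2 : ℝ) : ℂ) =
          ∑ p ∈ P, ∑ q ∈ P, ((β₂ p * β₂ q : ℝ) : ℂ) *
            (((1 / (n : ℝ) : ℝ) : ℂ) * eu (n * ((p : ℝ) * t - q * t))) := by
        intro n _
        rw [Complex.ofReal_mul, hsq, Finset.mul_sum]
        apply Finset.sum_congr rfl
        intro p _
        rw [Finset.mul_sum]
        apply Finset.sum_congr rfl
        intro q _
        ring
      rw [Finset.sum_congr rfl this, Finset.sum_comm]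
      apply Finset.sum_congr rfl
      intro p _
      rw [Finset.sum_comm]
      apply Finset.sum_congr rfl
      intro q _
      rw [hHs, Finset.mul_sum]
    have h5 : ∑ n ∈ Finset.Ico l₁ h₁, (1 / (n : ℝ)) * ‖V n‖ ^ 2 ≤
        ‖((∑ n ∈ Finset.Ico l₁ h₁, (1 / (n : ℝ)) * ‖V n‖ ^ 2 : ℝ) : ℂ)‖ := by
      rw [Complex.norm_real, norm_eq_abs]
      exact le_abs_self _
    refine h5.trans ?_
    rw [e4]
    refine (norm_sum_le _ _).trans (Finset.sum_le_sum fun p _ => ?_)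
    refine (norm_sum_le _ _).trans (le_of_eq (Finset.sum_congr rfl fun q _ => ?_))
    rw [norm_mul, Complex.norm_real, norm_eq_abs,
      abs_of_nonneg (mul_nonneg (hB2.nn p) (hB2.nn q))]
  have hlog1 : 0 ≤ Real.log h₁ := Real.log_natCast_nonneg _
  have hlog2 : 0 ≤ Real.log h₂ := Real.log_natCast_nonneg _
  have hHtriv : ∀ θ, ‖Hs θ‖ ≤ 1 + Real.log h₁ := by
    intro θ
    rw [hHs]
    refine (norm_sum_le _ _).trans ?_
    have : ∀ n ∈ Finset.Ico l₁ h₁, ‖((1 / (n : ℝ) : ℝ) : ℂ) * eu (n * θ)‖ = 1 / (n : ℝ) := by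
      intro n _
      rw [norm_mul, norm_eu, mul_one, Complex.norm_real, norm_eq_abs, abs_of_nonneg (by positivity)]
    rw [Finset.sum_congr rfl this]
    have h3 := harmonic_le_one_add_log h₁
    have h4 : ((harmonic h₁ : ℚ) : ℝ) = ∑ n ∈ Finset.Icc 1 h₁, 1 / (n : ℝ) := by
      rw [harmonic_eq_sum_Icc]
      push_cast
      simp
    rw [h4] at h3
    refine le_trans ?_ h3
    apply Finset.sum_le_sum_of_subset_of_nonneg
    · intro n hn
      rw [Finset.mem_Ico] at hn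
      rw [Finset.mem_Icc]
      omega
    · intro n _ _; positivity
  have hpt : ∀ p ∈ P, ∀ q ∈ P, ‖Hs ((p : ℝ) * t - q * t)‖ ≤
      1 / (l₁ * ρ) + (1 + Real.log h₁) * (if dn ((p : ℝ) * t - q * t) ≤ ρ then 1 else 0) := by
    intro p _ q _
    split_ifs with h
    · have := hHtriv ((p : ℝ) * t - q * t)
      have : 0 ≤ 1 / ((l₁ : ℝ) * ρ) := by positivity
      linarith
    · rw [not_le] at h
      have h2 := harm_exp (hρ.trans h) hl₁ hlh
      refine h2.trans ?_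
      have h3 : 1 / ((l₁ : ℝ) * dn ((p : ℝ) * t - q * t)) ≤ 1 / (l₁ * ρ) :=
        one_div_le_one_div_of_le (by positivity) (mul_le_mul_of_nonneg_left h.le hl0.le)
      linarith
  have hrow : ∀ p ∈ P, ∑ q ∈ P, β₂ q * (if dn ((p : ℝ) * t - q * t) ≤ ρ then 1 else 0) ≤
      C * (1 + Real.log h₂) / D := by
    intro p _
    set E := (Finset.Ico l₂ h₂).filter (fun q : ℕ => dn ((p : ℝ) * t - q * t) ≤ ρ) with hE
    have b1 : ∑ q ∈ P, β₂ q * (if dn ((p : ℝ) * t - q * t) ≤ ρ then 1 else 0) ≤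
        ∑ q ∈ E, C * (1 / (q : ℝ)) := by
      calc ∑ q ∈ P, β₂ q * (if dn ((p : ℝ) * t - q * t) ≤ ρ then (1 : ℝ) else 0) =
            ∑ q ∈ P.filter (fun q => β₂ q ≠ 0 ∧ dn ((p : ℝ) * t - q * t) ≤ ρ), β₂ q := by
            rw [Finset.sum_filter]
            apply Finset.sum_congr rfl
            intro q _
            by_cases h1 : β₂ q = 0
            · rw [h1]; simp
            · by_cases h2 : dn ((p : ℝ) * t - q * t) ≤ ρ
              · rw [if_pos h2, if_pos ⟨h1, h2⟩, mul_one]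
              · rw [if_neg h2, if_neg (fun h => h2 h.2), mul_zero]
        _ ≤ ∑ q ∈ P.filter (fun q => β₂ q ≠ 0 ∧ dn ((p : ℝ) * t - q * t) ≤ ρ),
            C * (1 / (q : ℝ)) := by
            apply Finset.sum_le_sum
            intro q _
            refine (hB2.le q).trans (le_of_eq ?_)
            ring
        _ ≤ _ := by
            apply Finset.sum_le_sum_of_subset_of_nonneg
            · intro q hq
              rw [Finset.mem_filter] at hq
              rw [hE, Finset.mem_filter, Finset.mem_Ico]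
              exact ⟨hB2.supp q hq.2.1, hq.2.2⟩
            · intro n _ _
              positivity
    refine b1.trans ?_
    rw [← Finset.mul_sum, mul_div_assoc]
    apply mul_le_mul_of_nonneg_left _ hC
    apply harm_sep hD
    · intro q hq
      rw [hE, Finset.mem_filter, Finset.mem_Ico] at hq
      omega
    · intro q hq
      rw [hE, Finset.mem_filter, Finset.mem_Ico] at hq
      omega
    · intro q hq q' hq' hlt
      rw [hE, Finset.mem_filter] at hq hq'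
      by_contra hc
      rw [not_le] at hc
      apply ht
      refine majA_of_dn (d := q' - q) (by omega) (by exact_mod_cast hc.le) ?_
      have h5 : ((q' - q : ℕ) : ℝ) * t = ((p : ℝ) * t - q * t) - ((p : ℝ) * t - q' * t) := by
        rw [Nat.cast_sub hlt.le]; ring
      rw [h5]
      have := dn_sub_le ((p : ℝ) * t - q * t) ((p : ℝ) * t - q' * t)
      linarith [hq.2, hq'.2]
  have hn4 : ∑ p ∈ P, ∑ q ∈ P, β₂ p * β₂ q * ‖Hs ((p : ℝ) * t - q * t)‖ ≤
      μ₂ ^ 2 * (1 / (l₁ * ρ)) + μ₂ * ((1 + Real.log h₁) * (C * (1 + Real.log h₂) / D)) := by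
    have c1 : ∀ p ∈ P, ∑ q ∈ P, β₂ p * β₂ q * ‖Hs ((p : ℝ) * t - q * t)‖ ≤
        β₂ p * (μ₂ * (1 / (l₁ * ρ)) + (1 + Real.log h₁) * (C * (1 + Real.log h₂) / D)) := by
      intro p hp
      have c2 : ∀ q ∈ P, β₂ p * β₂ q * ‖Hs ((p : ℝ) * t - q * t)‖ ≤
          β₂ p * (β₂ q * (1 / (l₁ * ρ)) + (1 + Real.log h₁) *
            (β₂ q * (if dn ((p : ℝ) * t - q * t) ≤ ρ then 1 else 0))) := by
        intro q hq
        have := mul_le_mul_of_nonneg_left (hpt p hp q hq) (mul_nonneg (hB2.nn p) (hB2.nn q))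
        refine this.trans (le_of_eq ?_)
        ring
      refine (Finset.sum_le_sum c2).trans ?_
      rw [← Finset.mul_sum]
      apply mul_le_mul_of_nonneg_left _ (hB2.nn p)
      rw [Finset.sum_add_distrib, ← Finset.sum_mul, ← Finset.mul_sum, hB2.mass]
      have := mul_le_mul_of_nonneg_left (hrow p hp) (by linarith : 0 ≤ 1 + Real.log h₁)
      linarith
    refine (Finset.sum_le_sum c1).trans ?_
    rw [← Finset.sum_mul, hB2.mass]
    apply le_of_eq
    ring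
  unfold Bl
  rw [norm_div, e1, Complex.norm_real, norm_eq_abs, abs_of_pos (mul_pos hμ₂ hμ₁), div_pow,
    div_le_iff₀ (by positivity)]
  have hfin := hn1.trans (mul_le_mul_of_nonneg_left (hn2.trans
    (mul_le_mul_of_nonneg_left (hn3.trans hn4) hC)) hμ₁.le)
  refine hfin.trans (le_of_eq ?_)
  field_simp

end Pool.Agent.MP0016c7.Ros
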