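import Mathlib
import Pool.Agent.Lib.MP_0016c7_nt.EvHarm
import Pool.Agent.Lib.MP_0016c7_nt.CdlRigid

open Real

namespace Pool.Agent.MP0016c7.Ros

lemma MajA_sub {G κ s t : ℝ} (hs : MajA G κ s) (ht : MajA G κ t) :
    MajA (G ^ 2) (2 * κ) (s - t) := by
  obtain ⟨r, hr, hr'⟩ := hs
  obtain ⟨q, hq, hq'⟩ := ht
  refine ⟨r - q, ?_, ?_⟩
  · have h1 : (r - q).den ∣ r.den * q.den := Rat.sub_den_dvd r q
    have h2 : ((r - q).den : ℝ) ≤ r.den * q.den := by
      exact_mod_cast Nat.le_of_dvd (Nat.mul_pos r.den_pos q.den_pos) h1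
    refine h2.trans ?_
    rw [sq]
    exact mul_le_mul hr hq (Nat.cast_nonneg _) ((Nat.cast_nonneg _).trans hr)
  · push_cast
    have e : s - t - (r - q) = (s - r) - (t - q) := by ring
    rw [e]
    have := abs_sub (s - (r : ℝ)) (t - q)
    linarith

lemma MajA_mono {G G' κ κ' t : ℝ} (h : MajA G κ t) (hG : G ≤ G') (hκ : κ ≤ κ') : MajA G' κ' t := by
  obtain ⟨r, hr, hr'⟩ := h
  exact ⟨r, hr.trans hG, hr'.trans hκ⟩

/-- dichotomy for multiples -/
lemma maj_dich {G G₂ κ lam x : ℝ} {ξ : ℚ} (hξ : (ξ.den : ℝ) ≤ G₂) (hG : 0 < G) (hG₂ : 0 < G₂)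
    (hlam : lam = 1 / (2 * G * G₂)) (hκ : κ ≤ lam) {d : ℕ} {r : ℚ}
    (hr : (r.den : ℝ) ≤ G) (hdr : |d * x - r| ≤ κ) :
    (r = ξ * d ∧ d * |x - ξ| ≤ κ) ∨ lam ≤ d * |x - ξ| := by
  by_cases h : r = ξ * d
  · left
    refine ⟨h, ?_⟩
    have e : (d : ℝ) * |x - ξ| = |d * x - r| := by
      rw [h]
      push_cast
      rw [← abs_of_nonneg (Nat.cast_nonneg (α := ℝ) d), ← abs_mul,
        abs_of_nonneg (Nat.cast_nonneg (α := ℝ) d)]
      congr 1
      ring
    rw [e]
    exact hdr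
  · right
    have h1 := rat_dist h
    have h2 : ((ξ * d).den : ℝ) ≤ G₂ := by
      refine le_trans ?_ hξ
      have := den_nat_mul_le d ξ
      rw [mul_comm] at this
      exact_mod_cast this
    have h3 : 2 * lam ≤ |(r : ℝ) - ((ξ * d : ℚ) : ℝ)| := by
      refine le_trans ?_ h1
      have hr0 : (0 : ℝ) < r.den := by exact_mod_cast r.den_pos
      have hq0 : (0 : ℝ) < (ξ * d).den := by exact_mod_cast (ξ * d).den_pos
      have h4 : (r.den : ℝ) * (ξ * d).den ≤ G * G₂ := mul_le_mul hr h2 hq0.le hG.le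
      have h5 : 2 * lam = 1 / (G * G₂) := by rw [hlam]; field_simp
      rw [h5]
      exact one_div_le_one_div_of_le (by positivity) h4
    have e : (d : ℝ) * |x - ξ| = |d * x - ((ξ * d : ℚ) : ℝ)| := by
      push_cast
      rw [← abs_of_nonneg (Nat.cast_nonneg (α := ℝ) d), ← abs_mul,
        abs_of_nonneg (Nat.cast_nonneg (α := ℝ) d)]
      congr 1
      ring
    rw [e]
    have h6 : |(r : ℝ) - ((ξ * d : ℚ) : ℝ)| ≤
        |d * x - ((ξ * d : ℚ) : ℝ)| + |d * x - r| := by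
      have e2 : (r : ℝ) - ((ξ * d : ℚ) : ℝ) = (d * x - ((ξ * d : ℚ) : ℝ)) - (d * x - r) := by ring
      rw [e2]
      exact abs_sub _ _
    linarith

open Classical in
/-- integers whose multiple of `x` is close to a rational with small denominator -/
noncomputable def Ms (G κ x : ℝ) (Z : ℕ) : Finset ℕ :=
  (Finset.Icc 1 Z).filter (fun e => MajA G κ (e * x))

lemma mem_Ms {G κ x : ℝ} {Z e : ℕ} : e ∈ Ms G κ x Z ↔ (1 ≤ e ∧ e ≤ Z) ∧ MajA G κ (e * x) := by
  unfold Ms
  simp only [Finset.mem_filter, Finset.mem_Icc]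

/-- **Structure of the set of major multiples.** -/
theorem structure_thm {x G κ : ℝ} (hG : 1 ≤ G) (hκ : 0 < κ) {Z M : ℕ} (hM : 1 ≤ M)
    (h4 : 8 * κ * (G ^ 4 * M) ≤ 1) :
    ∑ e ∈ Ms G κ x Z, 1 / (e : ℝ) ≤ (1 + Real.log Z) / M ∨
    ∃ ξ : ℚ, (ξ.den : ℝ) ≤ G ^ 2 * M ∧ |x - ξ| ≤ 2 * κ ∧
      ∀ E ⊆ Ms G κ x Z, (∀ e ∈ E, κ < e * |x - ξ|) →
        ∑ e ∈ E, 1 / (e : ℝ) ≤ 16 * κ * (1 + Real.log Z) * (G ^ 4 * M) := by
  classical
  have hG0 : 0 < G := by linarith
  have hG2 : 1 ≤ G ^ 2 := one_le_pow₀ hG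
  have hGG : G ≤ G ^ 2 := by nlinarith only [hG2, hG]
  have hM0 : (0 : ℝ) < M := by exact_mod_cast hM
  have hlogZ : 0 ≤ Real.log Z := Real.log_natCast_nonneg _
  by_cases hex : ∃ m : ℕ, 1 ≤ m ∧ m < M ∧ MajA (G ^ 2) (2 * κ) (m * x)
  swap
  · left
    push Not at hex
    apply harm_sep hM
    · intro e he
      rw [mem_Ms] at he
      by_contra hc
      rw [not_le] at hc
      exact hex e he.1.1 hc (MajA_mono he.2 hGG (by linarith))
    · intro e he
      rw [mem_Ms] at he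
      exact he.1.2
    · intro e he e' he' hlt
      rw [mem_Ms] at he he'
      by_contra hc
      rw [not_le] at hc
      apply hex (e' - e) (by omega) hc
      have e1 : ((e' - e : ℕ) : ℝ) * x = e' * x - e * x := by rw [Nat.cast_sub hlt.le]; ring
      rw [e1]
      exact MajA_sub he'.2 he.2
  right
  obtain ⟨m, hm1, hmM, r, hr, hr'⟩ := hex
  have hm0 : (0 : ℝ) < m := by exact_mod_cast hm1
  have hm1' : (1 : ℝ) ≤ m := by exact_mod_cast hm1
  set ξ : ℚ := r / m with hξ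
  have hden : (ξ.den : ℝ) ≤ G ^ 2 * M := by
    have h1 : ξ.den ∣ r.den * m := by
      have h2 : ξ = r * ((1 : ℚ) / m) := by rw [hξ]; ring
      rw [h2]
      refine (Rat.mul_den_dvd r (1 / m)).trans (Nat.mul_dvd_mul_left _ ?_)
      have h3 := Rat.den_dvd 1 m
      have e : (Rat.divInt 1 m) = (1 : ℚ) / m := by
        rw [Rat.divInt_eq_div]; push_cast; rfl
      rw [e] at h3
      exact_mod_cast h3
    have h2 : ξ.den ≤ r.den * m := Nat.le_of_dvd (Nat.mul_pos r.den_pos hm1) h1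
    have h3 : (ξ.den : ℝ) ≤ r.den * m := by exact_mod_cast h2
    refine h3.trans (mul_le_mul hr ?_ hm0.le (by positivity))
    exact_mod_cast hmM.le
  have hdist : |x - ξ| ≤ 2 * κ := by
    have e : x - ξ = (m * x - r) / m := by
      rw [hξ]; push_cast; field_simp
    rw [e, abs_div, abs_of_pos hm0, div_le_iff₀ hm0]
    nlinarith only [hr', hκ, hm1']
  refine ⟨ξ, hden, hdist, ?_⟩
  intro E hE hEκ
  set η := |x - ξ| with hη
  set lam : ℝ := 1 / (2 * (G ^ 4 * M)) with hlam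
  have hGM : 1 ≤ G ^ 4 * M := by
    have h1 : 1 ≤ G ^ 4 := one_le_pow₀ hG
    have h2 : (1 : ℝ) ≤ M := by exact_mod_cast hM
    nlinarith only [h2, h1]
  have hlam0 : 0 < lam := by positivity
  have hκlam : 4 * κ ≤ lam := by
    rw [hlam, le_div_iff₀ (by positivity)]
    linarith
  have hlam1 : lam = 1 / (2 * (G ^ 2) * (G ^ 2 * M)) := by rw [hlam]; ring_nf
  rcases Finset.eq_empty_or_nonempty E with hempty | ⟨e₀, he₀⟩
  · rw [hempty, Finset.sum_empty]
    positivity
  have hη0 : 0 < η := by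
    rcases (abs_nonneg (x - ξ)).lt_or_eq with h | h
    · exact h
    · exfalso
      have := hEκ e₀ he₀
      rw [hη, ← h, mul_zero] at this
      linarith
  -- elements of `E`
  have hbig : ∀ e ∈ E, lam ≤ e * η := by
    intro e he
    obtain ⟨r', hr1, hr2⟩ := (mem_Ms.mp (hE he)).2
    rcases maj_dich hden (by positivity : 0 < G ^ 2) (by positivity) hlam1
      (by linarith : κ ≤ lam) (d := e) (r := r') (hr1.trans hGG) hr2 with h | h
    · exact absurd h.2 (not_le.mpr (hEκ e he))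
    · exact h
  have hdiff : ∀ e ∈ E, ∀ e' ∈ E, e ≤ e' → ((e' - e : ℕ) : ℝ) * η ≤ 2 * κ ∨
      lam ≤ ((e' - e : ℕ) : ℝ) * η := by
    intro e he e' he' hle
    have h1 : MajA (G ^ 2) (2 * κ) (((e' - e : ℕ) : ℝ) * x) := by
      have e1 : ((e' - e : ℕ) : ℝ) * x = e' * x - e * x := by rw [Nat.cast_sub hle]; ring
      rw [e1]
      exact MajA_sub (mem_Ms.mp (hE he')).2 (mem_Ms.mp (hE he)).2
    obtain ⟨r', hr1, hr2⟩ := h1
    rcases maj_dich hden (by positivity : 0 < G ^ 2) (by positivity) hlam1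
      (by linarith : 2 * κ ≤ lam) (d := e' - e) (r := r') hr1 hr2 with h | h
    · exact Or.inl h.2
    · exact Or.inr h
  set z := ⌊lam / η⌋₊ with hz
  have hz2 : 2 ≤ lam / η := by
    rw [le_div_iff₀ hη0]
    linarith
  have hzle : (z : ℝ) ≤ lam / η := Nat.floor_le (by positivity)
  have hzge : lam / η / 2 ≤ z := by
    have : lam / η < z + 1 := Nat.lt_floor_add_one _
    linarith only [hz2, this]
  have hz1 : 1 ≤ z := by
    rw [hz, Nat.one_le_floor_iff]
    linarith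
  have hwin := harm_window (E := E) (z := z) (Z := Z) (k := 2 * κ / η + 1) hz1
    (fun e he => by
      have h1 := hbig e he
      have h2 : lam / η ≤ e := by rw [div_le_iff₀ hη0]; exact h1
      have h3 : (z : ℝ) ≤ e := hzle.trans h2
      exact_mod_cast h3)
    (fun e he => (mem_Ms.mp (hE he)).1.2) (by positivity)
    (fun n => by
      apply card_le_of_diam (by positivity)
      intro a ha b hb hab
      rw [Finset.mem_filter] at ha hb
      rcases hdiff a ha.1 b hb.1 hab with h | h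
      · rw [Nat.cast_sub hab] at h
        rw [le_div_iff₀ hη0]
        exact h
      · exfalso
        have h1 : b - a < z := by omega
        have h2 : ((b - a : ℕ) : ℝ) + 1 ≤ z := by exact_mod_cast h1
        have h3 : ((b - a : ℕ) : ℝ) < lam / η := by linarith only [hzle, h2]
        rw [lt_div_iff₀ hη0] at h3
        linarith only [h, h3])
  refine hwin.trans ?_
  have hz0 : (0 : ℝ) < z := by exact_mod_cast hz1
  rw [div_le_iff₀ hz0]
  have h1 : 1 ≤ 2 * κ / η := by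
    rw [le_div_iff₀ hη0]; linarith only [hdist]
  have h2 : (2 * κ / η + 1) ≤ 4 * κ / η := by
    have : 4 * κ / η = 2 * κ / η + 2 * κ / η := by ring
    linarith only [h1, this]
  calc (2 * κ / η + 1) * (1 + Real.log Z) ≤ 4 * κ / η * (1 + Real.log Z) :=
        mul_le_mul_of_nonneg_right h2 (by linarith only [hlogZ])
    _ = 16 * κ * (1 + Real.log Z) * (G ^ 4 * M) * (lam / η / 2) := by
        rw [hlam]
        field_simp
        ring
    _ ≤ _ := mul_le_mul_of_nonneg_left hzge (by positivity)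

end Pool.Agent.MP0016c7.Ros
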