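import Mathlib
import Pool.Agent.Lib.MP_0016c7_nt.CdlVb
import Pool.Agent.Lib.MP_0016c7_nt.EvD

open Real

namespace Pool.Agent.MP0016c7.Ros

variable {N : ℕ} [NeZero N] {χ : DirichletCharacter ℂ N}

/-- twisted sum of a function of residues -/
noncomputable def Tg (χ : DirichletCharacter ℂ N) (g : ℕ → ℝ) (a : ZMod N) : ℝ :=
  ∑ z : ZMod N, cz χ z * g (a * z).val

lemma Tg_unit (h2 : χ ^ 2 = 1) (g : ℕ → ℝ) (u : (ZMod N)ˣ) : Tg χ g u = cz χ u * Tg χ g 1 := by
  unfold Tg
  rw [Finset.mul_sum]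
  refine Finset.sum_nbij' (fun z => (u : ZMod N) * z) (fun z => ((u⁻¹ : (ZMod N)ˣ) : ZMod N) * z)
    ?_ ?_ ?_ ?_ ?_
  · intro _ _; exact Finset.mem_univ _
  · intro _ _; exact Finset.mem_univ _
  · intro z _; rw [← mul_assoc, Units.inv_mul, one_mul]
  · intro z _; rw [← mul_assoc, Units.mul_inv, one_mul]
  · intro z _
    rw [cz_mul h2, one_mul, ← mul_assoc, ← mul_assoc, cz_unit_sq h2, one_mul]

lemma Tg_nonunit (hχ : χ.IsPrimitive) (h2 : χ ^ 2 = 1) (g : ℕ → ℝ) {a : ZMod N}
    (ha : ¬ IsUnit a) : Tg χ g a = 0 := by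
  obtain ⟨u, hu, hfix⟩ := exists_unit_fix hχ ha
  have hcu : cz χ u = -1 := by
    unfold cz
    have h3 : χ (u : ZMod N) ≠ 0 := by
      intro h
      have := cz_unit_sq h2 u
      unfold cz at this
      rw [h] at this
      simp at this
    rcases quad_cases h2 (u : ZMod N) with h | h | h
    · exact absurd h h3
    · exact absurd h hu
    · rw [h]; simp
  have h4 : Tg χ g a = cz χ u * Tg χ g a := by
    unfold Tg
    rw [Finset.mul_sum]
    refine Finset.sum_nbij' (fun z => ((u⁻¹ : (ZMod N)ˣ) : ZMod N) * z) (fun z => (u : ZMod N) * z)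
      ?_ ?_ ?_ ?_ ?_
    · intro _ _; exact Finset.mem_univ _
    · intro _ _; exact Finset.mem_univ _
    · intro z _; rw [← mul_assoc, Units.mul_inv, one_mul]
    · intro z _; rw [← mul_assoc, Units.inv_mul, one_mul]
    · intro z _
      have e1 : a * (((u⁻¹ : (ZMod N)ˣ) : ZMod N) * z) = a * z := by
        have : a * ((u⁻¹ : (ZMod N)ˣ) : ZMod N) = a := by
          calc a * ((u⁻¹ : (ZMod N)ˣ) : ZMod N) = a * u * ((u⁻¹ : (ZMod N)ˣ) : ZMod N) := by
                rw [hfix]
            _ = a := by rw [mul_assoc, Units.mul_inv, mul_one]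
        rw [← mul_assoc, this]
      have e2 : cz χ z = cz χ u * cz χ (((u⁻¹ : (ZMod N)ˣ) : ZMod N) * z) := by
        rw [← cz_mul h2, ← mul_assoc, Units.mul_inv, one_mul]
      rw [e1, ← mul_assoc, ← e2]
  rw [hcu] at h4
  linarith

/-- the mean of the second summatory function -/
noncomputable def Dbar (χ : DirichletCharacter ℂ N) : ℝ :=
  (∑ k ∈ Finset.range (N + 1), rchar χ k * (k : ℝ) ^ 2) / (2 * N)

omit [NeZero N] in
/-- the elementary count -/
lemma frac_count {b k : ℕ} (hb : 0 < b) (hN : 0 < N) (hk : k ≤ N) :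
    2 * (N : ℝ) * ∑ a ∈ Finset.range b, max ((N : ℝ) * a - k * b) 0 =
      ((b : ℝ) * (N - k)) ^ 2 - N * (b * (N - k)) +
        ((k * b % N : ℕ) : ℝ) * (N - ((k * b % N : ℕ) : ℝ)) := by
  rcases hk.lt_or_eq with hlt | rfl
  · set q := k * b / N with hq
    set r := k * b % N with hr
    have hdm : N * q + r = k * b := Nat.div_add_mod _ _
    have hrN : r < N := Nat.mod_lt _ hN
    have hqb : q < b := by
      rw [hq, Nat.div_lt_iff_lt_mul hN]
      calc k * b < N * b := Nat.mul_lt_mul_of_pos_right hlt hb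
        _ = b * N := Nat.mul_comm _ _
    obtain ⟨K, hK⟩ : ∃ K, b = (q + 1) + K := ⟨b - (q + 1), by omega⟩
    have hdm' : (N : ℝ) * q + r = k * b := by exact_mod_cast hdm
    have hsum : ∑ a ∈ Finset.range b, max ((N : ℝ) * a - k * b) 0 =
        ∑ i ∈ Finset.range K, ((N : ℝ) * (i + 1) - r) := by
      rw [hK, Finset.sum_range_add]
      have z : ∑ a ∈ Finset.range (q + 1), max ((N : ℝ) * a - k * ((q + 1 + K : ℕ) : ℝ)) 0 = 0 := by
        apply Finset.sum_eq_zero
        intro a ha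
        rw [Finset.mem_range, Nat.lt_succ_iff] at ha
        rw [← hK, max_eq_right]
        have h1 : (N : ℝ) * a ≤ N * q :=
          mul_le_mul_of_nonneg_left (by exact_mod_cast ha) (Nat.cast_nonneg N)
        have h2 : (0 : ℝ) ≤ r := Nat.cast_nonneg _
        linarith only [hdm', h1]
      rw [z, zero_add]
      apply Finset.sum_congr rfl
      intro i _
      rw [← hK, max_eq_left]
      · push_cast
        rw [← hdm']
        ring
      · push_cast
        have h1 : (r : ℝ) ≤ N := by exact_mod_cast hrN.le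
        have h2 : (0 : ℝ) ≤ N * i := by positivity
        nlinarith only [hdm', h1, h2]
    rw [hsum, Finset.sum_sub_distrib, ← Finset.mul_sum, Finset.sum_const, Finset.card_range,
      nsmul_eq_mul, Finset.sum_add_distrib, Finset.sum_const, Finset.card_range, nsmul_eq_mul]
    have hg : ∑ i ∈ Finset.range K, (i : ℝ) = K * (K - 1) / 2 := by
      have := Finset.sum_range_id_mul_two K
      have h3 : (∑ i ∈ Finset.range K, (i : ℝ)) * 2 = K * (K - 1) := by
        rcases Nat.eq_zero_or_pos K with h | h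
        · rw [h]; simp
        · have h4 : ((∑ i ∈ Finset.range K, i : ℕ) : ℝ) * 2 = ((K * (K - 1) : ℕ) : ℝ) := by
            exact_mod_cast this
          rw [Nat.cast_mul, Nat.cast_sub h] at h4
          push_cast at h4
          exact h4
      linarith only [h3]
    rw [hg]
    have hb' : (b : ℝ) * (N - k) = N * (K + 1) - r := by
      have : (b : ℝ) = q + 1 + K := by exact_mod_cast hK
      have h5 : (b : ℝ) * (N - k) = N * b - k * b := by ring
      rw [h5, ← hdm', this]
      ring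
    rw [hb']
    ring
  · have z : ∑ a ∈ Finset.range b, max ((k : ℝ) * a - k * b) 0 = 0 := by
      apply Finset.sum_eq_zero
      intro a ha
      rw [Finset.mem_range] at ha
      rw [max_eq_right]
      have : (k : ℝ) * a ≤ k * b :=
        mul_le_mul_of_nonneg_left (by exact_mod_cast ha.le) (Nat.cast_nonneg k)
      linarith
    rw [z, Nat.mul_mod_right]
    push_cast
    ring

/-- **The sum over all fractions with denominator `b`.** -/
theorem sum_Dv_frac (hχ : χ.IsPrimitive) (hne : χ ≠ 1) (h2 : χ ^ 2 = 1) (he : χ.Even) {b : ℕ}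
    (hb : 0 < b) :
    ∑ a ∈ Finset.range b, Dv χ ((N : ℝ) * a / b) = Dbar χ * (b - rchar χ b / b) := by
  have hN := modulus_ne_one hne
  have hNpos := NeZero.pos N
  have hN0 : (0 : ℝ) < N := by exact_mod_cast hNpos
  have hb0 : (0 : ℝ) < b := by exact_mod_cast hb
  have h1 : ∀ a ∈ Finset.range b, Dv χ ((N : ℝ) * a / b) =
      ∑ k ∈ Finset.range (N + 1), rchar χ k * (max ((N : ℝ) * a - k * b) 0 / b) := by
    intro a ha
    rw [Finset.mem_range] at ha
    have hf : ⌊(N : ℝ) * a / b⌋₊ ≤ N := by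
      have : (N : ℝ) * a / b ≤ N := by
        rw [div_le_iff₀ hb0]
        exact mul_le_mul_of_nonneg_left (by exact_mod_cast ha.le) hN0.le
      have := Nat.floor_mono this
      simpa using this
    rw [Dv_eq_max hf]
    apply Finset.sum_congr rfl
    intro k _
    congr 1
    rw [← max_div_div_right hb0.le, zero_div]
    congr 1
    field_simp
  rw [Finset.sum_congr rfl h1, Finset.sum_comm]
  have h3 : ∀ k ∈ Finset.range (N + 1),
      ∑ a ∈ Finset.range b, rchar χ k * (max ((N : ℝ) * a - k * b) 0 / b) =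
      (rchar χ k * (((b : ℝ) * (N - k)) ^ 2 - N * (b * (N - k)) +
        ((k * b % N : ℕ) : ℝ) * (N - ((k * b % N : ℕ) : ℝ)))) / (2 * N * b) := by
    intro k hk
    rw [Finset.mem_range, Nat.lt_succ_iff] at hk
    rw [← Finset.mul_sum, ← Finset.sum_div, ← frac_count hb hNpos hk]
    field_simp
  rw [Finset.sum_congr rfl h3, ← Finset.sum_div]
  have s0 := sum_rchar_range' hne
  have s1 := sum_rchar_mul hne he
  -- the residues
  have hval : ∀ k : ℕ, ((b : ZMod N) * (k : ZMod N)).val = k * b % N := by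
    intro k
    rw [← Nat.cast_mul, ZMod.val_natCast, Nat.mul_comm]
  have hT : ∀ g : ℕ → ℝ, ∑ k ∈ Finset.range (N + 1), rchar χ k * g (k * b % N) =
      Tg χ g (b : ZMod N) := by
    intro g
    rw [Finset.sum_range_succ, rchar_modulus hN, zero_mul, add_zero]
    unfold Tg
    rw [← sum_range_eq_ZMod]
    apply Finset.sum_congr rfl
    intro k _
    rw [rchar_eq_cz hN, hval]
  have hT1 : ∀ g : ℕ → ℝ, ∑ k ∈ Finset.range (N + 1), rchar χ k * g k = Tg χ g 1 := by
    intro g
    rw [Finset.sum_range_succ, rchar_modulus hN, zero_mul, add_zero]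
    unfold Tg
    rw [← sum_range_eq_ZMod]
    apply Finset.sum_congr rfl
    intro k hk
    rw [rchar_eq_cz hN, one_mul, ZMod.val_cast_of_lt (Finset.mem_range.mp hk)]
  have hTb : ∀ g : ℕ → ℝ, Tg χ g (b : ZMod N) = rchar χ b * Tg χ g 1 := by
    intro g
    by_cases hu : IsUnit (b : ZMod N)
    · obtain ⟨u, hu⟩ := hu
      rw [← hu, Tg_unit h2, rchar_eq_cz hN, hu]
    · rw [Tg_nonunit hχ h2 g hu, rchar_eq_cz hN]
      unfold cz
      rw [MulChar.map_nonunit _ hu]; simp
  have k1 : ∑ k ∈ Finset.range (N + 1), rchar χ k * ((k * b % N : ℕ) : ℝ) = 0 := by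
    have := hT (fun n => (n : ℝ))
    rw [hTb, ← hT1, s1, mul_zero] at this
    exact this
  have k2 : ∑ k ∈ Finset.range (N + 1), rchar χ k * ((k * b % N : ℕ) : ℝ) ^ 2 =
      rchar χ b * ∑ k ∈ Finset.range (N + 1), rchar χ k * (k : ℝ) ^ 2 := by
    have := hT (fun n => (n : ℝ) ^ 2)
    rw [hTb, ← hT1] at this
    exact this
  have h4 : ∑ k ∈ Finset.range (N + 1), (rchar χ k * (((b : ℝ) * (N - k)) ^ 2 - N * (b * (N - k)) +
        ((k * b % N : ℕ) : ℝ) * (N - ((k * b % N : ℕ) : ℝ)))) =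
      ((b : ℝ) ^ 2 * N ^ 2 - N * b * N) * (∑ k ∈ Finset.range (N + 1), rchar χ k) +
      (N * b - 2 * (b : ℝ) ^ 2 * N) * (∑ k ∈ Finset.range (N + 1), rchar χ k * (k : ℝ)) +
      (b : ℝ) ^ 2 * (∑ k ∈ Finset.range (N + 1), rchar χ k * (k : ℝ) ^ 2) +
      N * (∑ k ∈ Finset.range (N + 1), rchar χ k * ((k * b % N : ℕ) : ℝ)) -
      ∑ k ∈ Finset.range (N + 1), rchar χ k * ((k * b % N : ℕ) : ℝ) ^ 2 := by
    simp only [Finset.mul_sum]
    rw [← Finset.sum_add_distrib, ← Finset.sum_add_distrib, ← Finset.sum_add_distrib,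
      ← Finset.sum_sub_distrib]
    apply Finset.sum_congr rfl
    intro k _
    ring
  rw [h4, s0, s1, k1, k2]
  unfold Dbar
  field_simp
  ring

end Pool.Agent.MP0016c7.Ros
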