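import Mathlib
import Pool.Agent.Lib.MP_0016c7_nt.EvW
import Pool.Agent.Lib.MP_0016c7_nt.CdlProd

open Real ArithmeticFunction

namespace Pool.Agent.MP0016c7.Ros

variable {N : ℕ} [NeZero N] {χ : DirichletCharacter ℂ N}

/-- sum over the reduced fractions with denominator `b` -/
noncomputable def W2n (χ : DirichletCharacter ℂ N) (b : ℕ) : ℝ :=
  ∑ a ∈ (Finset.range b).filter (fun a => b.Coprime a), Dv χ ((N : ℝ) * a / b)

omit [NeZero N] in
lemma W2n_fiber {b g : ℕ} (hb : 0 < b) (hg : g ∣ b) :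
    ∑ a ∈ (Finset.range b).filter (fun a => b.gcd a = g), Dv χ ((N : ℝ) * a / b) =
      W2n χ (b / g) := by
  obtain ⟨d, rfl⟩ := hg
  have hg0 : 0 < g := Nat.pos_of_ne_zero (by rintro rfl; simp at hb)
  have hd0 : 0 < d := Nat.pos_of_ne_zero (by rintro rfl; simp at hb)
  rw [Nat.mul_div_cancel_left d hg0]
  unfold W2n
  refine Finset.sum_nbij' (fun a => a / g) (fun a => g * a) ?_ ?_ ?_ ?_ ?_
  · intro a ha
    rw [Finset.mem_filter, Finset.mem_range] at ha ⊢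
    obtain ⟨h1, h2⟩ := ha
    have hga : g ∣ a := by rw [← h2]; exact Nat.gcd_dvd_right _ _
    obtain ⟨a', rfl⟩ := hga
    rw [Nat.mul_div_cancel_left a' hg0]
    refine ⟨Nat.lt_of_mul_lt_mul_left h1, ?_⟩
    rw [Nat.gcd_mul_left] at h2
    exact Nat.eq_of_mul_eq_mul_left hg0 (by rw [h2, mul_one])
  · intro a ha
    rw [Finset.mem_filter, Finset.mem_range] at ha ⊢
    obtain ⟨h1, h2⟩ := ha
    refine ⟨Nat.mul_lt_mul_of_pos_left h1 hg0, ?_⟩
    rw [Nat.gcd_mul_left, h2.gcd_eq_one, mul_one]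
  · intro a ha
    rw [Finset.mem_filter] at ha
    have hga : g ∣ a := by rw [← ha.2]; exact Nat.gcd_dvd_right _ _
    exact Nat.mul_div_cancel' hga
  · intro a _
    exact Nat.mul_div_cancel_left a hg0
  · intro a ha
    rw [Finset.mem_filter] at ha
    have hga : g ∣ a := by rw [← ha.2]; exact Nat.gcd_dvd_right _ _
    obtain ⟨a', rfl⟩ := hga
    rw [Nat.mul_div_cancel_left a' hg0]
    congr 1
    have h1 : (g : ℝ) ≠ 0 := by exact_mod_cast hg0.ne'
    have h2 : (d : ℝ) ≠ 0 := by exact_mod_cast hd0.ne'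
    push_cast
    field_simp

omit [NeZero N] in
lemma sum_W2n {b : ℕ} (hb : 0 < b) :
    ∑ d ∈ b.divisors, W2n χ d = ∑ a ∈ Finset.range b, Dv χ ((N : ℝ) * a / b) := by
  rw [← Nat.sum_div_divisors b (fun d => W2n χ d)]
  rw [← Finset.sum_fiberwise_of_maps_to (s := Finset.range b) (t := b.divisors)
    (g := fun a => b.gcd a) (fun a _ => Nat.mem_divisors.mpr ⟨Nat.gcd_dvd_left _ _, hb.ne'⟩)]
  apply Finset.sum_congr rfl
  intro g hg
  exact (W2n_fiber hb (Nat.dvd_of_mem_divisors hg)).symm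

/-- the character divided by `n` -/
noncomputable def rc2 (χ : DirichletCharacter ℂ N) : ArithmeticFunction ℝ :=
  ⟨fun n => rchar χ n / n, by simp⟩

omit [NeZero N] in
lemma rc2_apply (n : ℕ) : rc2 χ n = rchar χ n / n := rfl

omit [NeZero N] in
lemma rc2_mult (h2 : χ ^ 2 = 1) : (rc2 χ).IsMultiplicative := by
  refine ⟨?_, ?_⟩
  · rw [rc2_apply, rchar_one]; simp
  · intro m n _
    rw [rc2_apply, rc2_apply, rc2_apply, rchar_mul h2]
    push_cast
    rw [mul_div_mul_comm]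

/-- Dirichlet convolution of the Moebius function with the divided character -/
noncomputable def rh2 (χ : DirichletCharacter ℂ N) : ArithmeticFunction ℝ :=
  ((moebius : ArithmeticFunction ℤ) : ArithmeticFunction ℝ) * rc2 χ

omit [NeZero N] in
lemma rh2_mult (h2 : χ ^ 2 = 1) : (rh2 χ).IsMultiplicative :=
  isMultiplicative_moebius.intCast.mul (rc2_mult h2)

omit [NeZero N] in
lemma sum_rh2 (n : ℕ) : ∑ d ∈ n.divisors, rh2 χ d = rc2 χ n := by
  rw [← coe_zeta_mul_apply]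
  unfold rh2
  rw [← mul_assoc, coe_zeta_mul_coe_moebius, one_mul]

omit [NeZero N] in
lemma rh2_prime_pow {p : ℕ} (hp : p.Prime) (k : ℕ) :
    rh2 χ (p ^ (k + 1)) = rc2 χ (p ^ (k + 1)) - rc2 χ (p ^ k) := by
  have h1 := sum_rh2 (χ := χ) (p ^ (k + 1))
  have h2 := sum_rh2 (χ := χ) (p ^ k)
  rw [Nat.sum_divisors_prime_pow hp, Finset.sum_range_succ] at h1
  rw [Nat.sum_divisors_prime_pow hp] at h2
  linarith

theorem W2n_eq (hχ : χ.IsPrimitive) (hne : χ ≠ 1) (h2 : χ ^ 2 = 1) (he : χ.Even) {b : ℕ}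
    (hb : 0 < b) : W2n χ b = Dbar χ * ((Nat.totient b : ℝ) - rh2 χ b) := by
  have h1 := (sum_eq_iff_sum_mul_moebius_eq (R := ℝ) (f := fun b => W2n χ b)
    (g := fun b => Dbar χ * (b - rchar χ b / b))).mp (fun n hn => by
      rw [sum_W2n hn, sum_Dv_frac hχ hne h2 he hn]) b hb
  have h3 := (sum_eq_iff_sum_mul_moebius_eq (R := ℝ) (f := fun b => (Nat.totient b : ℝ))
    (g := fun b => (b : ℝ))).mp (fun n _ => by
      exact_mod_cast Nat.sum_totient n) b hb
  have h4 : rh2 χ b = ∑ x ∈ b.divisorsAntidiagonal, (moebius x.1 : ℝ) *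
      (rchar χ x.2 / (x.2 : ℝ)) := by
    unfold rh2
    rw [ArithmeticFunction.mul_apply]
    rfl
  rw [← h1, ← h3, h4, ← Finset.sum_sub_distrib, Finset.mul_sum]
  apply Finset.sum_congr rfl
  intro x _
  ring

/-- the bias function -/
noncomputable def h2f (χ : DirichletCharacter ℂ N) (b : ℕ) : ℝ := rh2 χ b / (Nat.totient b : ℝ)

omit [NeZero N] in
lemma h2f_one : h2f χ 1 = 1 := by
  unfold h2f
  have h := sum_rh2 (χ := χ) 1
  rw [Nat.divisors_one, Finset.sum_singleton, rc2_apply, rchar_one] at h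
  rw [h]; simp

omit [NeZero N] in
lemma h2f_mul (h2 : χ ^ 2 = 1) {m n : ℕ} (h : m.Coprime n) :
    h2f χ (m * n) = h2f χ m * h2f χ n := by
  unfold h2f
  rw [(rh2_mult h2).map_mul_of_coprime h, Nat.totient_mul h]
  push_cast
  rw [mul_div_mul_comm]

omit [NeZero N] in
lemma h2f_pp (h2 : χ ^ 2 = 1) {p : ℕ} (hp : p.Prime) (k : ℕ) :
    h2f χ (p ^ (k + 1)) = (rchar χ p ^ (k + 1) / (p : ℝ) ^ (k + 1) - rchar χ p ^ k / (p : ℝ) ^ k) /
      ((p : ℝ) ^ k * (p - 1)) := by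
  unfold h2f
  rw [rh2_prime_pow hp, tot_pp hp, rc2_apply, rc2_apply, rchar_pow h2, rchar_pow h2]
  push_cast
  rfl

omit [NeZero N] in
/-- factorisation of the bias -/
lemma h2f_factor (h2 : χ ^ 2 = 1) {n : ℕ} (hn : n ≠ 0) {S : Finset ℕ} (hS : n.primeFactors ⊆ S) :
    h2f χ n = ∏ p ∈ S, h2f χ (p ^ n.factorization p) := by
  rw [Nat.multiplicative_factorization (h2f χ) (fun _ _ h => h2f_mul h2 h) h2f_one hn]
  apply Finsupp.prod_of_support_subset
  · exact hS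
  · intro p _
    rw [pow_zero, h2f_one]

omit [NeZero N] in
lemma h2f_nA (h2 : χ ^ 2 = 1) {b₀ : ℕ} (hb : b₀ ≠ 0) {P₀ : Finset ℕ} (hP : ∀ p ∈ P₀, p.Prime)
    (hd : ∀ p ∈ P₀, p ∣ b₀) {A : Finset ℕ} (hA : A ⊆ P₀) :
    h2f χ (b₀ / ∏ p ∈ A, p) =
      (∏ p ∈ b₀.primeFactors \ P₀, h2f χ (p ^ b₀.factorization p)) *
      ∏ p ∈ P₀, (if p ∈ A then h2f χ (p ^ (b₀.factorization p - 1)) else
        h2f χ (p ^ b₀.factorization p)) := by
  have hT : ∀ p ∈ A, p.Prime := fun p hp => hP p (hA hp)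
  have hdv : (∏ p ∈ A, p) ∣ b₀ := Finset.prod_primes_dvd _
    (fun p hp => Nat.prime_iff.mp (hT p hp)) (fun p hp => hd p (hA hp))
  have hsub : P₀ ⊆ b₀.primeFactors := fun p hp => Nat.mem_primeFactors.mpr ⟨hP p hp, hd p hp, hb⟩
  have hn : b₀ / ∏ p ∈ A, p ≠ 0 := by
    intro h
    rw [Nat.div_eq_zero_iff] at h
    rcases h with h | h
    · exact Finset.prod_ne_zero_iff.mpr (fun p hp => (hT p hp).ne_zero) h
    · exact absurd (Nat.le_of_dvd (Nat.pos_of_ne_zero hb) hdv) (not_le.mpr h)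
  have hpf : (b₀ / ∏ p ∈ A, p).primeFactors ⊆ b₀.primeFactors :=
    Nat.primeFactors_mono (Nat.div_dvd_of_dvd hdv) hb
  rw [h2f_factor h2 hn hpf, ← Finset.prod_sdiff hsub]
  congr 1
  · apply Finset.prod_congr rfl
    intro p hp
    rw [Nat.factorization_div hdv, Finsupp.tsub_apply, fact_prod_primes hT, if_neg, Nat.sub_zero]
    intro hc
    exact (Finset.mem_sdiff.mp hp).2 (hA hc)
  · apply Finset.prod_congr rfl
    intro p hp
    rw [Nat.factorization_div hdv, Finsupp.tsub_apply, fact_prod_primes hT]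
    by_cases c : p ∈ A
    · rw [if_pos c, if_pos c]
    · rw [if_neg c, if_neg c, Nat.sub_zero]

omit [NeZero N] in
/-- the averaged local factor at an inert prime -/
lemma loc2_inert (h2 : χ ^ 2 = 1) {p : ℕ} (hp : p.Prime) (hi : rchar χ p = -1) {v : ℕ}
    (hv : 0 < v) :
    |((1 / (p : ℝ)) * h2f χ (p ^ (v - 1)) + h2f χ (p ^ v)) / (1 + 1 / p)| ≤ 1 / 2 ∨
      (p = 2 ∧ |((1 / (p : ℝ)) * h2f χ (p ^ (v - 1)) + h2f χ (p ^ v)) / (1 + 1 / p)| ≤ 1 ∧
        ((1 / (p : ℝ)) * h2f χ (p ^ (v - 1)) + h2f χ (p ^ v)) / (1 + 1 / p) ≤ 0) := by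
  have hp2 : (2 : ℝ) ≤ p := by exact_mod_cast hp.two_le
  have hp0 : (0 : ℝ) < p := by linarith
  have hpm : 0 < (p : ℝ) - 1 := by linarith
  obtain ⟨k, rfl⟩ : ∃ k, v = k + 1 := ⟨v - 1, by omega⟩
  rw [Nat.add_sub_cancel]
  rcases Nat.eq_zero_or_pos k with rfl | hk
  · have h3 : ((1 / (p : ℝ)) * h2f χ (p ^ 0) + h2f χ (p ^ (0 + 1))) / (1 + 1 / p) =
        -(2 / ((p - 1) * (p + 1))) := by
      rw [h2f_pp h2 hp, hi, pow_zero, h2f_one]
      field_simp
      ring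
    rw [h3]
    by_cases c : p = 2
    · right
      subst c
      refine ⟨rfl, ?_, ?_⟩ <;> norm_num
    · left
      have h7 : (3 : ℝ) ≤ p := by
        have : 3 ≤ p := by have := hp.two_le; omega
        exact_mod_cast this
      rw [abs_neg, abs_of_pos (by positivity), div_le_div_iff₀ (by positivity) (by norm_num)]
      nlinarith only [h7, hp2]
  · left
    obtain ⟨j, rfl⟩ : ∃ j, k = j + 1 := ⟨k - 1, by omega⟩
    have h3 : ((1 / (p : ℝ)) * h2f χ (p ^ (j + 1)) + h2f χ (p ^ (j + 1 + 1))) / (1 + 1 / p) =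
        -((-1) ^ j / (p : ℝ) ^ (2 * j + 2)) := by
      rw [h2f_pp h2 hp, h2f_pp h2 hp, hi]
      field_simp
      ring
    rw [h3, abs_neg, abs_div, abs_pow, abs_neg, abs_one, one_pow,
      abs_of_pos (by positivity : 0 < (p : ℝ) ^ (2 * j + 2)),
      div_le_div_iff₀ (by positivity) (by norm_num)]
    have h4 : (p : ℝ) ^ 1 ≤ (p : ℝ) ^ (2 * j + 2) := pow_le_pow_right₀ (by linarith) (by omega)
    rw [pow_one] at h4
    linarith

omit [NeZero N] in
/-- local factors at the other primes -/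
lemma loc2_other (h2 : χ ^ 2 = 1) {p : ℕ} (hp : p.Prime) (hi : rchar χ p ≠ -1) {v : ℕ}
    (hv : 0 < v) : |h2f χ (p ^ v)| ≤ 1 / 2 ∨
      (p = 2 ∧ |h2f χ (p ^ v)| ≤ 1 ∧ h2f χ (p ^ v) ≤ 0) := by
  have hp2 : (2 : ℝ) ≤ p := by exact_mod_cast hp.two_le
  have hpm : 0 < (p : ℝ) - 1 := by linarith
  obtain ⟨k, rfl⟩ : ∃ k, v = k + 1 := ⟨v - 1, by omega⟩
  rcases rchar_cases h2 p with h | h | h
  · rcases Nat.eq_zero_or_pos k with rfl | hk
    · have h3 : h2f χ (p ^ (0 + 1)) = -(1 / (p - 1)) := by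
        rw [h2f_pp h2 hp, h]
        field_simp
        ring
      have h5 : 0 < (1 : ℝ) / (p - 1) := by positivity
      rw [h3]
      by_cases c : p = 2
      · right
        subst c
        refine ⟨rfl, ?_, ?_⟩
        · norm_num
        · norm_num
      · left
        have h7 : (3 : ℝ) ≤ p := by
          have : 3 ≤ p := by have := hp.two_le; omega
          exact_mod_cast this
        rw [abs_neg, abs_of_pos h5, div_le_div_iff₀ hpm (by norm_num)]
        linarith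
    · left
      have h3 : h2f χ (p ^ (k + 1)) = 0 := by
        rw [h2f_pp h2 hp, h, zero_pow (by omega), zero_pow (by omega)]
        simp
      rw [h3]; norm_num
  · left
    have h3 : h2f χ (p ^ (k + 1)) = -(1 / (p : ℝ) ^ (2 * k + 1)) := by
      rw [h2f_pp h2 hp, h]
      field_simp
      ring
    rw [h3, abs_neg, abs_of_pos (by positivity), div_le_div_iff₀ (by positivity) (by norm_num)]
    have h4 : (p : ℝ) ^ 1 ≤ (p : ℝ) ^ (2 * k + 1) := pow_le_pow_right₀ (by linarith) (by omega)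
    rw [pow_one] at h4
    linarith
  · exact absurd h hi

lemma prod_half' {b₀ : ℕ} (hb : 2 ≤ b₀) {e : ℕ → ℝ}
    (hloc : ∀ p ∈ b₀.primeFactors, |e p| ≤ 1 / 2 ∨ (p = 2 ∧ |e p| ≤ 1 ∧ e p ≤ 0)) :
    ∏ p ∈ b₀.primeFactors, e p ≤ 1 / 2 := by
  have hne : b₀.primeFactors.Nonempty := Nat.nonempty_primeFactors.mpr (by omega)
  by_cases h2m : 2 ∈ b₀.primeFactors ∧ ¬ |e 2| ≤ 1 / 2
  · obtain ⟨m1, m2⟩ := h2m
    obtain ⟨-, m3, m4⟩ := (hloc 2 m1).resolve_left m2
    rw [← Finset.mul_prod_erase _ _ m1]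
    have hrest : ∀ p ∈ b₀.primeFactors.erase 2, |e p| ≤ 1 / 2 := by
      intro p hp
      rw [Finset.mem_erase] at hp
      rcases hloc p hp.2 with h | h
      · exact h
      · exact absurd h.1 hp.1
    rcases Finset.eq_empty_or_nonempty (b₀.primeFactors.erase 2) with h | h
    · rw [h, Finset.prod_empty, mul_one]; linarith
    · have h5 := prod_half hrest h
      have h6 : |e 2 * ∏ p ∈ b₀.primeFactors.erase 2, e p| ≤ 1 * (1 / 2) := by
        rw [abs_mul]
        exact mul_le_mul m3 h5 (abs_nonneg _) zero_le_one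
      have := le_abs_self (e 2 * ∏ p ∈ b₀.primeFactors.erase 2, e p)
      linarith only [h6, this]
  · have hall : ∀ p ∈ b₀.primeFactors, |e p| ≤ 1 / 2 := by
      intro p hp
      rcases hloc p hp with h | h
      · exact h
      · by_contra hc
        rw [h.1] at hc hp
        exact h2m ⟨hp, hc⟩
    exact (le_abs_self _).trans (prod_half hall hne)

omit [NeZero N] in
/-- **The averaged bias is at most one half.** -/
theorem prod_bound2 (h2 : χ ^ 2 = 1) {b₀ : ℕ} (hb : 2 ≤ b₀) {P₀ : Finset ℕ}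
    (hP : ∀ p ∈ P₀, p.Prime) (hd : ∀ p ∈ P₀, p ∣ b₀) (hi : ∀ p ∈ P₀, rchar χ p = -1)
    (ho : ∀ p : ℕ, p.Prime → p ∣ b₀ → p ∉ P₀ → rchar χ p ≠ -1) :
    EE P₀ (xs 1) (fun A => h2f χ (b₀ / ∏ p ∈ A, p)) ≤ 1 / 2 := by
  have hb0 : b₀ ≠ 0 := by omega
  have hsub : P₀ ⊆ b₀.primeFactors := fun p hp => Nat.mem_primeFactors.mpr ⟨hP p hp, hd p hp, hb0⟩
  have hx1 : ∀ p ∈ P₀, xs 1 p = 1 / p := by
    intro p hp
    unfold xs lg
    rw [one_mul, exp_neg, exp_log (by exact_mod_cast (hP p hp).pos), one_div]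
  have e1 : EE P₀ (xs 1) (fun A => h2f χ (b₀ / ∏ p ∈ A, p)) =
      (∏ p ∈ b₀.primeFactors \ P₀, h2f χ (p ^ b₀.factorization p)) *
      ∏ p ∈ P₀, ((1 / (p : ℝ) * h2f χ (p ^ (b₀.factorization p - 1)) +
        h2f χ (p ^ b₀.factorization p)) / (1 + 1 / p)) := by
    have h3 : EE P₀ (xs 1) (fun A => h2f χ (b₀ / ∏ p ∈ A, p)) =
        EE P₀ (xs 1) (fun A => (∏ p ∈ b₀.primeFactors \ P₀, h2f χ (p ^ b₀.factorization p)) *
        ∏ p ∈ P₀, (if p ∈ A then h2f χ (p ^ (b₀.factorization p - 1)) else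
        h2f χ (p ^ b₀.factorization p))) := by
      apply EE_congr
      intro A hA
      exact h2f_nA h2 hb0 hP hd hA
    rw [h3, EE_mul, EE_prod]
    congr 1
    apply Finset.prod_congr rfl
    intro p hp
    rw [hx1 p hp]
  rw [e1]
  set e : ℕ → ℝ := fun p => if p ∈ P₀ then
    ((1 / (p : ℝ) * h2f χ (p ^ (b₀.factorization p - 1)) +
        h2f χ (p ^ b₀.factorization p)) / (1 + 1 / p)) else
    h2f χ (p ^ b₀.factorization p) with he
  have e2 : (∏ p ∈ b₀.primeFactors \ P₀, h2f χ (p ^ b₀.factorization p)) *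
      ∏ p ∈ P₀, ((1 / (p : ℝ) * h2f χ (p ^ (b₀.factorization p - 1)) +
        h2f χ (p ^ b₀.factorization p)) / (1 + 1 / p)) =
      ∏ p ∈ b₀.primeFactors, e p := by
    rw [← Finset.prod_sdiff hsub]
    congr 1
    · apply Finset.prod_congr rfl
      intro p hp
      simp only [he]
      rw [if_neg (Finset.mem_sdiff.mp hp).2]
    · apply Finset.prod_congr rfl
      intro p hp
      simp only [he]
      rw [if_pos hp]
  rw [e2]
  have hv : ∀ p ∈ b₀.primeFactors, 0 < b₀.factorization p := by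
    intro p hp
    rw [Nat.mem_primeFactors] at hp
    exact hp.1.factorization_pos_of_dvd hb0 hp.2.1
  apply prod_half' hb
  intro p hp
  have hp' := Nat.mem_primeFactors.mp hp
  by_cases c : p ∈ P₀
  · simp only [he]
    rw [if_pos c]
    exact loc2_inert h2 hp'.1 (hi p c) (hv p hp)
  · simp only [he]
    rw [if_neg c]
    exact loc2_other h2 hp'.1 (ho p hp'.1 hp'.2.1 c) (hv p hp)

end Pool.Agent.MP0016c7.Ros
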