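import Mathlib
import Pool.Agent.Lib.MP_0016c7_nt.CdlMi
import Pool.Agent.Lib.MP_0016c7_nt.EvH

open Real

namespace Pool.Agent.MP0016c7.Ros

open DirichletCharacter

variable {N : ℕ} [NeZero N] {χ : DirichletCharacter ℂ N}

/-- values at fractions -/
noncomputable def Gf (χ : DirichletCharacter ℂ N) (b : ℕ) (m : ℤ) : ℝ :=
  Dv χ ((N : ℝ) * ((m % b).toNat : ℝ) / b)

omit [NeZero N] in
lemma Gf_congr {b : ℕ} {m m' : ℤ} (h : m ≡ m' [ZMOD b]) : Gf χ b m = Gf χ b m' := by
  unfold Gf; rw [h]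

lemma abs_Gf_le (hne : χ ≠ 1) (he : χ.Even) (b : ℕ) (m : ℤ) : |Gf χ b m| ≤ (N : ℝ) ^ 2 :=
  abs_Dv_le hne he _

omit [NeZero N] in
lemma Gf_nat {b a : ℕ} (h : a < b) : Gf χ b a = Dv χ ((N : ℝ) * a / b) := by
  unfold Gf
  rw [Int.emod_eq_of_lt (by positivity) (by exact_mod_cast h), Int.toNat_natCast]

/-- at a nonnegative fraction -/
lemma Gf_nat' (hne : χ ≠ 1) (he : χ.Even) {b : ℕ} (hb : 0 < b) (n : ℕ) :
    Gf χ b n = Dv χ ((N : ℝ) * n / b) := by
  have hb0 : (b : ℝ) ≠ 0 := by exact_mod_cast hb.ne'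
  have h1 : Gf χ b n = Gf χ b ((n % b : ℕ) : ℤ) := by
    apply Gf_congr
    rw [Int.natCast_modEq_iff]
    exact (Nat.mod_modEq n b).symm
  rw [h1, Gf_nat (Nat.mod_lt n hb)]
  have h2 : ((N : ℝ) * n / b) = (N : ℝ) * ((n % b : ℕ) : ℝ) / b + N * ((n / b : ℕ) : ℝ) := by
    have : (n : ℝ) = b * ((n / b : ℕ) : ℝ) + ((n % b : ℕ) : ℝ) := by
      exact_mod_cast (Nat.div_add_mod n b).symm
    field_simp
    linear_combination (N : ℝ) * this
  rw [h2, Dv_add_mul hne he (by positivity)]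

/-- averages over the coprime classes with given character value -/
noncomputable def Mc2 (χ : DirichletCharacter ℂ N) (b : ℕ) (a : ℤ) (s : ℝ) : ℝ :=
  2 / (Nat.totient (N * b) : ℝ) *
    ∑ c ∈ (Finset.range (N * b)).filter (fun c => (N * b).Coprime c),
      @ite ℝ (rchar χ c = s) (Classical.dec _) (Gf χ b (c * a)) 0

lemma Mc2_units (b : ℕ) [NeZero b] (a : ℤ) (s : ℝ) : Mc2 χ b a s =
    2 / (Nat.totient (N * b) : ℝ) * ∑ u : (ZMod (N * b))ˣ,
      @ite ℝ (rchar χ (u : ZMod (N * b)).val = s) (Classical.dec _)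
        (Gf χ b ((u : ZMod (N * b)).val * a)) 0 := by
  unfold Mc2
  rw [sum_units (fun c => @ite ℝ (rchar χ c = s) (Classical.dec _) (Gf χ b (c * a)) 0)]

/-- multiplying by an inert prime exchanges the two averages -/
lemma Mc2_toggle (h2 : χ ^ 2 = 1) (hN : N ≠ 1) {b : ℕ} (hb : b ≠ 0) {p : ℕ}
    (hpN : p.Coprime (N * b)) (hi : rchar χ p = -1) (a : ℤ) {s t : ℝ} (hst : s = -t) :
    Mc2 χ b (p * a) s = Mc2 χ b a t := by
  have : NeZero b := ⟨hb⟩
  rw [Mc2_units, Mc2_units]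
  congr 1
  set v := ZMod.unitOfCoprime p hpN with hv
  have hvv : (v : ZMod (N * b)) = (p : ZMod (N * b)) := ZMod.coe_unitOfCoprime p hpN
  refine Finset.sum_bij' (fun u _ => u * v) (fun u _ => u * v⁻¹) ?_ ?_ ?_ ?_ ?_
  · intro _ _; exact Finset.mem_univ _
  · intro _ _; exact Finset.mem_univ _
  · intro u _; rw [mul_assoc, mul_inv_cancel, mul_one]
  · intro u _; rw [mul_assoc, inv_mul_cancel, mul_one]
  · intro u _
    have e1 : ((u * v : (ZMod (N * b))ˣ) : ZMod (N * b)).val =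
        ((u : ZMod (N * b)).val * p) % (N * b) := by
      rw [Units.val_mul, hvv, val_mul_mod]
    rw [e1, rchar_mod hN, rchar_mul h2, hi]
    have e2 : Gf χ b (((((u : ZMod (N * b)).val * p) % (N * b) : ℕ) : ℤ) * a) =
        Gf χ b (((u : ZMod (N * b)).val : ℤ) * (p * a)) := by
      apply Gf_congr
      have h3 : (((((u : ZMod (N * b)).val * p) % (N * b) : ℕ) : ℤ)) ≡
          (((u : ZMod (N * b)).val * p : ℕ) : ℤ) [ZMOD b] := by
        rw [Int.natCast_modEq_iff]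
        exact (Nat.mod_modEq _ (N * b)).of_mul_left N
      have h4 := h3.mul_right a
      push_cast at h4 ⊢
      rw [mul_assoc] at h4
      exact h4
    rw [e2]
    by_cases c : rchar χ (u : ZMod (N * b)).val = s
    · rw [if_pos c, if_pos (by rw [c, hst]; ring)]
    · rw [if_neg c, if_neg (fun h => c (by rw [hst]; linarith))]

omit [NeZero N] in
/-- reduced fractions as units -/
lemma W2n_units (b : ℕ) [NeZero b] : W2n χ b = ∑ v : (ZMod b)ˣ, Gf χ b (v : ZMod b).val := by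
  unfold W2n
  rw [sum_units (fun c => Dv χ ((N : ℝ) * c / b))]
  apply Finset.sum_congr rfl
  intro v _
  rw [Gf_nat (ZMod.val_lt _)]

/-- the two averages add up to the mean over reduced fractions -/
lemma Mc2_add (h2 : χ ^ 2 = 1) (hN : N ≠ 1) {b : ℕ} (hb : b ≠ 0) {a : ℤ}
    (ha : IsCoprime a (b : ℤ)) :
    Mc2 χ b a (-1) + Mc2 χ b a 1 = 2 * (W2n χ b / (Nat.totient b : ℝ)) := by
  have : NeZero b := ⟨hb⟩
  rw [Mc2_units, Mc2_units, ← mul_add, ← Finset.sum_add_distrib]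
  have hφ : (0 : ℝ) < Nat.totient (N * b) := by
    exact_mod_cast Nat.totient_pos.mpr (NeZero.pos (N * b))
  have hφb : (0 : ℝ) < Nat.totient b := by exact_mod_cast Nat.totient_pos.mpr (NeZero.pos b)
  have e1 : ∀ u ∈ (Finset.univ : Finset (ZMod (N * b))ˣ),
      ((@ite ℝ (rchar χ (u : ZMod (N * b)).val = -1) (Classical.dec _)
        (Gf χ b ((u : ZMod (N * b)).val * a)) 0) +
      (@ite ℝ (rchar χ (u : ZMod (N * b)).val = 1) (Classical.dec _)
        (Gf χ b ((u : ZMod (N * b)).val * a)) 0)) =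
      Gf χ b ((u : ZMod (N * b)).val * a) := by
    intro u _
    have hne0 : rchar χ (u : ZMod (N * b)).val ≠ 0 := by
      have hcop : ((u : ZMod (N * b)).val).Coprime N :=
        (ZMod.val_coe_unit_coprime u).coprime_dvd_right (dvd_mul_right N b)
      intro h0
      rcases Nat.eq_zero_or_pos (u : ZMod (N * b)).val with hz | hz
      · rw [hz, Nat.coprime_zero_left] at hcop
        exact hN hcop
      · rw [rchar_apply χ hz.ne'] at h0
        have hu' : IsUnit (((u : ZMod (N * b)).val : ℕ) : ZMod N) :=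
          (ZMod.isUnit_iff_coprime _ _).mpr hcop
        have h3 : χ (((u : ZMod (N * b)).val : ℕ) : ZMod N) ≠ 0 := by
          obtain ⟨w, hw⟩ := hu'
          rw [← hw]
          intro h4
          have := cz_unit_sq h2 w
          unfold cz at this
          rw [h4] at this
          simp at this
        rcases quad_cases h2 (((u : ZMod (N * b)).val : ℕ) : ZMod N) with h | h | h
        · exact h3 h
        · rw [h] at h0; simp at h0
        · rw [h] at h0; simp at h0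
    rcases rchar_cases h2 (u : ZMod (N * b)).val with h | h | h
    · exact absurd h hne0
    · rw [h, if_neg (by norm_num), if_pos rfl, zero_add]
    · rw [h, if_pos rfl, if_neg (by norm_num), add_zero]
  rw [Finset.sum_congr rfl e1]
  obtain ⟨w, hw⟩ : ∃ w : (ZMod b)ˣ, (w : ZMod b) = (a : ZMod b) :=
    ⟨ZMod.unitOfIsCoprime a ha, ZMod.coe_unitOfIsCoprime a ha⟩
  have hdiv : b ∣ N * b := dvd_mul_left b N
  have e2 : ∀ u : (ZMod (N * b))ˣ, Gf χ b ((u : ZMod (N * b)).val * a) =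
      (fun v : (ZMod b)ˣ => Gf χ b (v : ZMod b).val) (ZMod.unitsMap hdiv u * w) := by
    intro u
    apply Gf_congr
    rw [← ZMod.intCast_eq_intCast_iff]
    push_cast
    have e0 : ∀ z : ZMod b, ((z.val : ℕ) : ZMod b) = z := fun z => ZMod.natCast_zmod_val z
    simp only [e0, ZMod.unitsMap_val, hw, ZMod.natCast_val]
  have e3 : ∑ u : (ZMod (N * b))ˣ, Gf χ b ((u : ZMod (N * b)).val * a) =
      ∑ u : (ZMod (N * b))ˣ, (fun v : (ZMod b)ˣ => Gf χ b ((v * w : (ZMod b)ˣ) : ZMod b).val)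
        (ZMod.unitsMap hdiv u) := Finset.sum_congr rfl fun u _ => e2 u
  have e4 := sum_hom (ZMod.unitsMap hdiv) (ZMod.unitsMap_surjective hdiv)
    (fun v : (ZMod b)ˣ => Gf χ b ((v * w : (ZMod b)ˣ) : ZMod b).val)
  have e5 : ∑ v : (ZMod b)ˣ, Gf χ b ((v * w : (ZMod b)ˣ) : ZMod b).val = W2n χ b := by
    rw [W2n_units]
    exact Fintype.sum_equiv (Equiv.mulRight w) _ _ (fun v => rfl)
  rw [e5, ZMod.card_units_eq_totient, ZMod.card_units_eq_totient, ← e3] at e4
  have e6 : ∑ u : (ZMod (N * b))ˣ, Gf χ b ((u : ZMod (N * b)).val * a) =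
      (Nat.totient (N * b) : ℝ) * W2n χ b / (Nat.totient b : ℝ) := by
    rw [eq_div_iff hφb.ne']
    linarith
  rw [e6]
  field_simp

/-- the average in terms of `mu` -/
lemma Mc2_mu (h2 : χ ^ 2 = 1) (hN : N ≠ 1) {b : ℕ} [NeZero b] (a : ℤ) :
    mu χ (dvd_mul_right N b) (fun c : ZMod (N * b) => Gf χ b (c.val * a) / N ^ 2) (-1) =
      Mc2 χ b a (-1) / N ^ 2 := by
  classical
  rw [Mc2_units]
  unfold mu
  rw [mul_div_assoc]
  congr 1
  rw [Finset.sum_div]
  have hN0 : (N : ℝ) ≠ 0 := by exact_mod_cast NeZero.ne N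
  have h3 : ∀ c : ZMod (N * b), ¬ IsUnit c →
      (@ite ℝ (changeLevel (dvd_mul_right N b) χ c = -1) (Classical.dec _)
        (Gf χ b (c.val * a) / N ^ 2) 0) = 0 := by
    intro c hc
    rw [MulChar.map_nonunit _ hc, if_neg (by norm_num)]
  have h4 : ∑ c : ZMod (N * b), (@ite ℝ (changeLevel (dvd_mul_right N b) χ c = -1)
        (Classical.dec _) (Gf χ b (c.val * a) / N ^ 2) 0) =
      ∑ u : (ZMod (N * b))ˣ, (@ite ℝ (changeLevel (dvd_mul_right N b) χ u = -1)
        (Classical.dec _) (Gf χ b ((u : ZMod (N * b)).val * a) / N ^ 2) 0) := by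
    symm
    apply Finset.sum_of_injOn (fun u : (ZMod (N * b))ˣ => (u : ZMod (N * b)))
    · intro u _ v _ h
      exact Units.ext h
    · intro _ _; exact Finset.mem_coe.mpr (Finset.mem_univ _)
    · intro c _ hc
      apply h3
      rintro ⟨u, rfl⟩
      exact hc ⟨u, Finset.mem_coe.mpr (Finset.mem_univ _), rfl⟩
    · intro u _; rfl
  rw [h4]
  apply Finset.sum_congr rfl
  intro u _
  have h5 : changeLevel (dvd_mul_right N b) χ (u : ZMod (N * b)) =
      χ (((u : ZMod (N * b)).val : ℕ) : ZMod N) := by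
    rw [changeLevel_eq_cast_of_dvd, ZMod.natCast_val]
  have hiff : changeLevel (dvd_mul_right N b) χ (u : ZMod (N * b)) = -1 ↔
      rchar χ (u : ZMod (N * b)).val = -1 := by
    rw [h5, rchar_eq_cz hN]
    unfold cz
    rcases quad_cases h2 (((u : ZMod (N * b)).val : ℕ) : ZMod N) with h | h | h
    · rw [h]; norm_num
    · rw [h]; norm_num
    · rw [h]; norm_num
  by_cases c : rchar χ (u : ZMod (N * b)).val = -1
  · rw [if_pos (hiff.mpr c), if_pos c]
  · rw [if_neg (fun h => c (hiff.mp h)), if_neg c, zero_div]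

lemma abs_Mc2_le (hne : χ ≠ 1) (he : χ.Even) {b : ℕ} (hb : b ≠ 0) (a : ℤ) (s : ℝ) :
    |Mc2 χ b a s| ≤ 2 * (N : ℝ) ^ 2 := by
  have hφ : (0 : ℝ) < Nat.totient (N * b) := by
    exact_mod_cast Nat.totient_pos.mpr (Nat.mul_pos (NeZero.pos N) (Nat.pos_of_ne_zero hb))
  unfold Mc2
  rw [abs_mul, abs_of_pos (by positivity)]
  have h1 : |∑ c ∈ (Finset.range (N * b)).filter (fun c => (N * b).Coprime c),
      @ite ℝ (rchar χ c = s) (Classical.dec _) (Gf χ b (c * a)) 0| ≤
      ((Finset.range (N * b)).filter (fun c => (N * b).Coprime c)).card * (N : ℝ) ^ 2 := by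
    rw [← nsmul_eq_mul, ← Finset.sum_const]
    refine (Finset.abs_sum_le_sum_abs _ _).trans (Finset.sum_le_sum fun c _ => ?_)
    split_ifs
    · exact abs_Gf_le hne he _ _
    · rw [abs_zero]; positivity
  rw [← Nat.totient_eq_card_coprime] at h1
  calc 2 / (Nat.totient (N * b) : ℝ) * _ ≤ 2 / (Nat.totient (N * b) : ℝ) *
        ((Nat.totient (N * b) : ℝ) * (N : ℝ) ^ 2) :=
        mul_le_mul_of_nonneg_left h1 (by positivity)
    _ = _ := by field_simp

/-- the mean over reduced fractions -/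
lemma Fi2_eq (hχ : χ.IsPrimitive) (hne : χ ≠ 1) (h2 : χ ^ 2 = 1) (he : χ.Even) {b : ℕ}
    (hb : 0 < b) : W2n χ b / (Nat.totient b : ℝ) = Dbar χ * (1 - h2f χ b) := by
  have hφ : (0 : ℝ) < Nat.totient b := by exact_mod_cast Nat.totient_pos.mpr hb
  rw [W2n_eq hχ hne h2 he hb]
  unfold h2f
  field_simp

end Pool.Agent.MP0016c7.Ros
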