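import Mathlib
import Pool.Agent.Lib.MP_0016c7_nt.EvBlk
import Pool.Agent.Lib.MP_0016c7_nt.EvHarm

open Real

namespace Pool.Agent.MP0016c7.Ros

/-- the integer attached to a set of primes -/
def eA (A : Finset ℕ) : ℕ := ∏ p ∈ A, p

lemma eA_insert {p : ℕ} {A : Finset ℕ} (h : p ∉ A) : eA (insert p A) = p * eA A := by
  unfold eA
  rw [Finset.prod_insert h]

lemma Sm_insert {p : ℕ} {A : Finset ℕ} (h : p ∉ A) : Sm lg (insert p A) = Sm lg A + lg p := by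
  unfold Sm
  rw [Finset.sum_insert h]; ring

lemma ww_one {p : ℕ} (hp : 0 < p) : ww (xs 1) p = p + 1 := by
  have h0 : (0 : ℝ) < p := by exact_mod_cast hp
  have h1 : xs 1 p = 1 / p := by
    unfold xs lg
    rw [one_mul, exp_neg, exp_log h0, one_div]
  unfold ww
  rw [h1]
  field_simp

/-- weights of a harmonic block against the tilt -/
lemma HB.le_ww {P : Finset ℕ} {β : ℕ → ℝ} {μ C : ℝ} {lo hi : ℕ} (hB : HB P β μ C lo hi)
    (hC : 0 ≤ C) (p : ℕ) (hlo : 1 ≤ lo) : β p * ww (xs 1) p ≤ 2 * C := by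
  by_cases h0 : β p = 0
  · rw [h0, zero_mul]; linarith
  · have hp : 1 ≤ p := hlo.trans (hB.supp p h0).1
    have hp0 : (1 : ℝ) ≤ p := by exact_mod_cast hp
    rw [ww_one hp]
    calc β p * ((p : ℝ) + 1) ≤ C / p * (p + 1) :=
          mul_le_mul_of_nonneg_right (hB.le p) (by linarith)
      _ = C * ((p + 1) / p) := by ring
      _ ≤ C * 2 := by
          apply mul_le_mul_of_nonneg_left _ hC
          rw [div_le_iff₀ (by linarith)]; linarith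
      _ = 2 * C := by ring

lemma HB.xs_le {P : Finset ℕ} {β : ℕ → ℝ} {μ C : ℝ} {lo hi : ℕ} (hB : HB P β μ C lo hi)
    (hlo : 1 ≤ lo) (p : ℕ) (h0 : β p ≠ 0) : xs 1 p ≤ 1 / lo := by
  have hp := (hB.supp p h0).1
  have hp0 : (0 : ℝ) < p := by
    have : 0 < p := by omega
    exact_mod_cast this
  have h1 : xs 1 p = 1 / p := by
    unfold xs lg
    rw [one_mul, exp_neg, exp_log hp0, one_div]
  rw [h1]
  exact one_div_le_one_div_of_le (by exact_mod_cast hlo) (by exact_mod_cast hp)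

lemma HB.lg_le {P : Finset ℕ} {β : ℕ → ℝ} {μ C : ℝ} {lo hi : ℕ} (hB : HB P β μ C lo hi)
    (hlo : 1 ≤ lo) (p : ℕ) (h0 : β p ≠ 0) : lg p ≤ lg hi := by
  have hp := hB.supp p h0
  unfold lg
  apply Real.log_le_log
  · have : 0 < p := by omega
    exact_mod_cast this
  · exact_mod_cast hp.2.le

lemma norm_Bl_one {P : Finset ℕ} {β₁ β₂ : ℕ → ℝ} {μ₁ μ₂ C : ℝ} {l₁ h₁ l₂ h₂ : ℕ}
    (hB1 : HB P β₁ μ₁ C l₁ h₁) (hB2 : HB P β₂ μ₂ C l₂ h₂) (hμ₁ : 0 < μ₁) (hμ₂ : 0 < μ₂) (t : ℝ) :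
    ‖Bl P β₁ β₂ μ₁ μ₂ t‖ ≤ 1 := by
  unfold Bl
  rw [norm_div, Complex.norm_real, norm_eq_abs, abs_of_pos (mul_pos hμ₂ hμ₁),
    div_le_one (mul_pos hμ₂ hμ₁)]
  refine (norm_sum_le _ _).trans ?_
  have h1 : ∀ p₂ ∈ P, ‖∑ p₁ ∈ P, ((β₂ p₂ * β₁ p₁ : ℝ) : ℂ) * eu (p₁ * (p₂ * t))‖ ≤
      β₂ p₂ * μ₁ := by
    intro p₂ _
    refine (norm_sum_le _ _).trans (le_of_eq ?_)
    rw [← hB1.mass, Finset.mul_sum]
    apply Finset.sum_congr rfl
    intro p₁ _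
    rw [norm_mul, norm_eu, mul_one, Complex.norm_real, norm_eq_abs,
      abs_of_nonneg (mul_nonneg (hB2.nn _) (hB1.nn _))]
  refine (Finset.sum_le_sum h1).trans (le_of_eq ?_)
  rw [← Finset.sum_mul, hB2.mass]

/-- **Equidistribution away from the structured range.** -/
theorem ev_eqd {P : Finset ℕ} {β₁ β₂ : ℕ → ℝ} {μ₁ μ₂ C : ℝ} {l₁ h₁ l₂ h₂ : ℕ}
    (hB1 : HB P β₁ μ₁ C l₁ h₁) (hB2 : HB P β₂ μ₂ C l₂ h₂) (hμ₁ : 0 < μ₁) (hμ₂ : 0 < μ₂)
    (hC : 0 < C) (hl₁ : 1 ≤ l₁) (hl₂ : 1 ≤ l₂) (x : ℝ) (h : ℤ) (τ : ℝ) {L ε' ω δ : ℝ}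
    (hL : lg h₁ + lg h₂ ≤ L) (bad : Finset ℕ → Prop) (hε' : 0 ≤ ε')
    (hbad : ∀ A, A ⊆ P → τ < Sm lg A → ¬ bad A → ‖Bl P β₁ β₂ μ₁ μ₂ (h * (eA A * x))‖ ≤ ε')
    (hω : EE P (xs 1) (fun A => if τ - L ≤ Sm lg A ∧ Sm lg A ≤ τ then (1 : ℝ) else 0) ≤ ω)
    (hδ : Pr P (xs 1) (fun A => τ < Sm lg A ∧ bad A) ≤ δ) :
    ‖EE P (xs 1) (fun A => (((if τ < Sm lg A then 1 else 0 : ℝ)) : ℂ) * eu (h * (eA A * x)))‖ ≤
      (√(2 * C / μ₁) + 2 * (1 / l₁)) + (√(2 * C / μ₂) + 2 * (1 / l₂)) + ω + ε' + δ := by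
  classical
  have hx : ∀ p, 0 < xs 1 p := fun p => xs_pos 1 p
  set F : Finset ℕ → ℂ := fun A => (((if τ < Sm lg A then 1 else 0 : ℝ)) : ℂ) *
    eu (h * (eA A * x)) with hF
  set f : ℕ → Finset ℕ → ℂ := fun p A => (((if τ < Sm lg A + lg p then 1 else 0 : ℝ)) : ℂ) *
    eu (p * (h * (eA A * x))) with hf
  set f' : ℕ → ℕ → Finset ℕ → ℂ := fun p q A =>
    (((if τ < Sm lg A + lg q + lg p then 1 else 0 : ℝ)) : ℂ) *
    eu (p * (q * (h * (eA A * x)))) with hf'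
  have hite : ∀ (Q : Prop) [Decidable Q] (t : ℝ),
      ‖(((if Q then 1 else 0 : ℝ)) : ℂ) * eu t‖ ≤ 1 := by
    intro Q _ t
    rw [norm_mul, norm_eu, mul_one]
    split_ifs <;> simp
  have s1 := block_step (E := ℂ) (P := P) (x := xs 1) (β := β₁) hx hB1.nn hB1.mass
    (fun p => hB1.le_ww hC.le p hl₁) hμ₁ (by positivity) (δ := 1 / l₁)
    (fun p hp => hB1.xs_le hl₁ p hp) zero_le_one F f
    (fun A _ => hite _ _) (fun p A _ => hite _ _)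
    (fun p _ _ A _ hpA => by
      simp only [hF, hf]
      rw [Sm_insert hpA, eA_insert hpA]
      congr 2
      push_cast
      ring)
  have s2 : ∀ p, ‖EE P (xs 1) (f p) - ∑ q ∈ P, (β₂ q / μ₂) • EE P (xs 1) (f' p q)‖ ≤
      1 * (√(2 * C / μ₂) + 2 * (1 / l₂)) := by
    intro p
    exact block_step (E := ℂ) (P := P) (x := xs 1) (β := β₂) hx hB2.nn hB2.mass
      (fun q => hB2.le_ww hC.le q hl₂) hμ₂ (by positivity) (δ := 1 / l₂)
      (fun q hq => hB2.xs_le hl₂ q hq) zero_le_one (f p) (f' p)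
      (fun A _ => hite _ _) (fun q A _ => hite _ _)
      (fun q _ _ A _ hqA => by
        simp only [hf, hf']
        rw [Sm_insert hqA, eA_insert hqA]
        congr 2
        push_cast
        ring)
  set g : ℕ → ℕ → Finset ℕ → ℂ := fun p q A => (((if τ < Sm lg A then 1 else 0 : ℝ)) : ℂ) *
    eu (p * (q * (h * (eA A * x)))) with hg
  have s3 : ∀ p q, β₁ p ≠ 0 → β₂ q ≠ 0 → ‖EE P (xs 1) (f' p q) - EE P (xs 1) (g p q)‖ ≤ ω := by
    intro p q hp hq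
    rw [← EE_sub]
    refine (norm_EE_le hx _).trans (le_trans (EE_mono hx fun A _ => ?_) hω)
    have b1 := hB1.lg_le hl₁ p hp
    have b2 := hB2.lg_le hl₂ q hq
    have b3 := lg_nonneg p
    have b4 := lg_nonneg q
    simp only [hf', hg]
    rw [← sub_mul, norm_mul, norm_eu, mul_one]
    by_cases c1 : τ < Sm lg A
    · rw [if_pos c1, if_pos (by linarith)]
      simp only [sub_self, norm_zero]
      split_ifs <;> norm_num
    · rw [if_neg c1]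
      by_cases c2 : τ < Sm lg A + lg q + lg p
      · rw [if_pos c2, if_pos ⟨by linarith, not_lt.mp c1⟩]
        simp
      · rw [if_neg c2]
        simp only [sub_self, norm_zero]
        split_ifs <;> norm_num
  -- collect
  have hsum1 : ∑ p ∈ P, β₁ p / μ₁ = 1 := by
    rw [← Finset.sum_div, hB1.mass, div_self hμ₁.ne']
  have hsum2 : ∑ q ∈ P, β₂ q / μ₂ = 1 := by
    rw [← Finset.sum_div, hB2.mass, div_self hμ₂.ne']
  have w1 : ∀ p, 0 ≤ β₁ p / μ₁ := fun p => div_nonneg (hB1.nn p) hμ₁.le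
  have w2 : ∀ p, 0 ≤ β₂ p / μ₂ := fun p => div_nonneg (hB2.nn p) hμ₂.le
  have t2 : ‖∑ p ∈ P, (β₁ p / μ₁) • EE P (xs 1) (f p) -
      ∑ p ∈ P, (β₁ p / μ₁) • ∑ q ∈ P, (β₂ q / μ₂) • EE P (xs 1) (f' p q)‖ ≤
      √(2 * C / μ₂) + 2 * (1 / l₂) := by
    rw [← Finset.sum_sub_distrib]
    refine (norm_sum_le _ _).trans ?_
    calc _ ≤ ∑ p ∈ P, (β₁ p / μ₁) * (1 * (√(2 * C / μ₂) + 2 * (1 / l₂))) := by
          apply Finset.sum_le_sum
          intro p _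
          rw [← smul_sub, norm_smul, norm_eq_abs, abs_of_nonneg (w1 p)]
          exact mul_le_mul_of_nonneg_left (s2 p) (w1 p)
      _ = _ := by rw [← Finset.sum_mul, hsum1, one_mul, one_mul]
  have hω0 : 0 ≤ ω := by
    refine le_trans (EE_nonneg hx fun A _ => ?_) hω
    split_ifs <;> norm_num
  have t3 : ‖∑ p ∈ P, (β₁ p / μ₁) • ∑ q ∈ P, (β₂ q / μ₂) • EE P (xs 1) (f' p q) -
      ∑ p ∈ P, (β₁ p / μ₁) • ∑ q ∈ P, (β₂ q / μ₂) • EE P (xs 1) (g p q)‖ ≤ ω := by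
    rw [← Finset.sum_sub_distrib]
    refine (norm_sum_le _ _).trans ?_
    calc _ ≤ ∑ p ∈ P, (β₁ p / μ₁) * ω := by
          apply Finset.sum_le_sum
          intro p _
          rw [← smul_sub, norm_smul, norm_eq_abs, abs_of_nonneg (w1 p)]
          by_cases hp : β₁ p = 0
          · rw [hp, zero_div, zero_mul, zero_mul]
          apply mul_le_mul_of_nonneg_left _ (w1 p)
          rw [← Finset.sum_sub_distrib]
          refine (norm_sum_le _ _).trans ?_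
          calc _ ≤ ∑ q ∈ P, (β₂ q / μ₂) * ω := by
                apply Finset.sum_le_sum
                intro q _
                rw [← smul_sub, norm_smul, norm_eq_abs, abs_of_nonneg (w2 q)]
                by_cases hq : β₂ q = 0
                · rw [hq, zero_div, zero_mul, zero_mul]
                exact mul_le_mul_of_nonneg_left (s3 p q hp hq) (w2 q)
            _ = ω := by rw [← Finset.sum_mul, hsum2, one_mul]
      _ = ω := by rw [← Finset.sum_mul, hsum1, one_mul]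
  have t4 : ∑ p ∈ P, (β₁ p / μ₁) • ∑ q ∈ P, (β₂ q / μ₂) • EE P (xs 1) (g p q) =
      EE P (xs 1) (fun A => (((if τ < Sm lg A then 1 else 0 : ℝ)) : ℂ) *
        Bl P β₁ β₂ μ₁ μ₂ (h * (eA A * x))) := by
    have e1 : ∀ p ∈ P, (β₁ p / μ₁) • ∑ q ∈ P, (β₂ q / μ₂) • EE P (xs 1) (g p q) =
        EE P (xs 1) (fun A => ∑ q ∈ P, ((β₁ p / μ₁) * (β₂ q / μ₂)) • g p q A) := by
      intro p _
      rw [EE_sum, Finset.smul_sum]
      apply Finset.sum_congr rfl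
      intro q _
      rw [EE_smul, smul_smul]
    rw [Finset.sum_congr rfl e1, ← EE_sum]
    apply EE_congr
    intro A _
    unfold Bl
    rw [Finset.sum_comm, mul_div_assoc', Finset.mul_sum, Finset.sum_div]
    apply Finset.sum_congr rfl
    intro q _
    rw [Finset.mul_sum, Finset.sum_div]
    apply Finset.sum_congr rfl
    intro p _
    simp only [hg]
    rw [Complex.real_smul]
    push_cast
    field_simp
  have t5 : ‖EE P (xs 1) (fun A => (((if τ < Sm lg A then 1 else 0 : ℝ)) : ℂ) *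
        Bl P β₁ β₂ μ₁ μ₂ (h * (eA A * x)))‖ ≤ ε' + δ := by
    refine (norm_EE_le hx _).trans ?_
    have h5 : ∀ A, A ⊆ P → ‖(((if τ < Sm lg A then 1 else 0 : ℝ)) : ℂ) *
        Bl P β₁ β₂ μ₁ μ₂ (h * (eA A * x))‖ ≤
        ε' + (if τ < Sm lg A ∧ bad A then 1 else 0) := by
      intro A hA
      rw [norm_mul]
      by_cases c1 : τ < Sm lg A
      · rw [if_pos c1]
        simp only [Complex.ofReal_one, norm_one, one_mul]
        by_cases c2 : bad A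
        · rw [if_pos ⟨c1, c2⟩]
          have := norm_Bl_one hB1 hB2 hμ₁ hμ₂ (h * (eA A * x))
          linarith
        · rw [if_neg (fun hh => c2 hh.2)]
          have := hbad A hA c1 c2
          linarith
      · rw [if_neg c1]
        simp only [Complex.ofReal_zero, norm_zero, zero_mul]
        split_ifs <;> linarith
    refine (EE_mono hx h5).trans ?_
    rw [EE_add, EE_const hx]
    have : EE P (xs 1) (fun A => if τ < Sm lg A ∧ bad A then (1 : ℝ) else 0) ≤ δ := by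
      rw [EE_ite_eq_Pr]; exact hδ
    linarith
  have hfin : EE P (xs 1) F = (EE P (xs 1) F - ∑ p ∈ P, (β₁ p / μ₁) • EE P (xs 1) (f p)) +
      ((∑ p ∈ P, (β₁ p / μ₁) • EE P (xs 1) (f p) -
      ∑ p ∈ P, (β₁ p / μ₁) • ∑ q ∈ P, (β₂ q / μ₂) • EE P (xs 1) (f' p q)) +
      ((∑ p ∈ P, (β₁ p / μ₁) • ∑ q ∈ P, (β₂ q / μ₂) • EE P (xs 1) (f' p q) -
      ∑ p ∈ P, (β₁ p / μ₁) • ∑ q ∈ P, (β₂ q / μ₂) • EE P (xs 1) (g p q)) +
      ∑ p ∈ P, (β₁ p / μ₁) • ∑ q ∈ P, (β₂ q / μ₂) • EE P (xs 1) (g p q))) := by abel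
  rw [hfin]
  have n1 := norm_add_le (EE P (xs 1) F - ∑ p ∈ P, (β₁ p / μ₁) • EE P (xs 1) (f p))
    ((∑ p ∈ P, (β₁ p / μ₁) • EE P (xs 1) (f p) -
      ∑ p ∈ P, (β₁ p / μ₁) • ∑ q ∈ P, (β₂ q / μ₂) • EE P (xs 1) (f' p q)) +
      ((∑ p ∈ P, (β₁ p / μ₁) • ∑ q ∈ P, (β₂ q / μ₂) • EE P (xs 1) (f' p q) -
      ∑ p ∈ P, (β₁ p / μ₁) • ∑ q ∈ P, (β₂ q / μ₂) • EE P (xs 1) (g p q)) +
      ∑ p ∈ P, (β₁ p / μ₁) • ∑ q ∈ P, (β₂ q / μ₂) • EE P (xs 1) (g p q)))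
  have n2 := norm_add_le (∑ p ∈ P, (β₁ p / μ₁) • EE P (xs 1) (f p) -
      ∑ p ∈ P, (β₁ p / μ₁) • ∑ q ∈ P, (β₂ q / μ₂) • EE P (xs 1) (f' p q))
      ((∑ p ∈ P, (β₁ p / μ₁) • ∑ q ∈ P, (β₂ q / μ₂) • EE P (xs 1) (f' p q) -
      ∑ p ∈ P, (β₁ p / μ₁) • ∑ q ∈ P, (β₂ q / μ₂) • EE P (xs 1) (g p q)) +
      ∑ p ∈ P, (β₁ p / μ₁) • ∑ q ∈ P, (β₂ q / μ₂) • EE P (xs 1) (g p q))
  have n3 := norm_add_le (∑ p ∈ P, (β₁ p / μ₁) • ∑ q ∈ P, (β₂ q / μ₂) • EE P (xs 1) (f' p q) -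
      ∑ p ∈ P, (β₁ p / μ₁) • ∑ q ∈ P, (β₂ q / μ₂) • EE P (xs 1) (g p q))
      (∑ p ∈ P, (β₁ p / μ₁) • ∑ q ∈ P, (β₂ q / μ₂) • EE P (xs 1) (g p q))
  rw [t4] at n1 n2 n3 t3 ⊢
  linarith

end Pool.Agent.MP0016c7.Ros
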