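import Mathlib
import Pool.Agent.Lib.MP_0016c7_nt.EvTop1
import Pool.Agent.Lib.MP_0016c7_nt.EvMi
import Pool.Agent.Lib.MP_0016c7_nt.RatAux

open Real Filter

namespace Pool.Agent.MP0016c7.Ros

lemma eA_pos {A : Finset ℕ} (hA : ∀ p ∈ A, p.Prime) : 0 < eA A :=
  Finset.prod_pos fun p hp => (hA p hp).pos

lemma lg_eA {A : Finset ℕ} (hA : ∀ p ∈ A, p.Prime) : Real.log (eA A) = Sm lg A := by
  unfold eA Sm lg
  push_cast
  rw [Real.log_prod]
  intro p hp
  exact_mod_cast (hA p hp).ne_zero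

lemma exp_Sm {A : Finset ℕ} (hA : ∀ p ∈ A, p.Prime) : rexp (Sm lg A) = eA A := by
  rw [← lg_eA hA, exp_log]
  exact_mod_cast eA_pos hA

lemma Wt_one {A : Finset ℕ} (hA : ∀ p ∈ A, p.Prime) : Wt (xs 1) A = 1 / (eA A : ℝ) := by
  unfold Wt eA
  push_cast
  rw [one_div, ← Finset.prod_inv_distrib]
  apply Finset.prod_congr rfl
  intro p hp
  rw [xs_one (hA p hp).pos, one_div]

lemma eA_inj {A B : Finset ℕ} (hA : ∀ p ∈ A, p.Prime) (hB : ∀ p ∈ B, p.Prime)
    (h : eA A = eA B) : A = B := by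
  have h1 := Nat.primeFactors_prod hA
  have h2 := Nat.primeFactors_prod hB
  unfold eA at h
  rw [← h1, ← h2, h]

lemma Zt_ge_one (P : Finset ℕ) (σ : ℝ) : 1 ≤ Zt P (xs σ) := by
  unfold Zt
  apply Finset.one_le_prod
  intro p _
  linarith [xs_pos σ p]

/-- probability of landing in a set of integers -/
lemma Pr_eA_mem {P : Finset ℕ} (hP : ∀ p ∈ P, p.Prime) (E : Finset ℕ) :
    Pr P (xs 1) (fun A => eA A ∈ E) ≤ ∑ e ∈ E, 1 / (e : ℝ) := by
  classical
  unfold Pr EE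
  have h1 : ∑ A ∈ P.powerset, Wt (xs 1) A • (@ite ℝ (eA A ∈ E) (Classical.dec _) 1 0) =
      ∑ A ∈ P.powerset.filter (fun A => eA A ∈ E), 1 / (eA A : ℝ) := by
    rw [Finset.sum_filter]
    apply Finset.sum_congr rfl
    intro A hA
    rw [Finset.mem_powerset] at hA
    by_cases c : eA A ∈ E
    · rw [if_pos c, if_pos c, smul_eq_mul, mul_one, Wt_one (fun p hp => hP p (hA hp))]
    · rw [if_neg c, if_neg c, smul_eq_mul, mul_zero]
  have h2 : ∑ A ∈ P.powerset.filter (fun A => eA A ∈ E), 1 / (eA A : ℝ) ≤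
      ∑ e ∈ E, 1 / (e : ℝ) := by
    have h3 : ∑ A ∈ P.powerset.filter (fun A => eA A ∈ E), 1 / (eA A : ℝ) =
        ∑ e ∈ (P.powerset.filter (fun A => eA A ∈ E)).image eA, 1 / (e : ℝ) := by
      rw [Finset.sum_image]
      intro A hA B hB h
      rw [Finset.mem_coe, Finset.mem_filter, Finset.mem_powerset] at hA hB
      exact eA_inj (fun p hp => hP p (hA.1 hp)) (fun p hp => hP p (hB.1 hp)) h
    rw [h3]
    apply Finset.sum_le_sum_of_subset_of_nonneg
    · intro e he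
      rw [Finset.mem_image] at he
      obtain ⟨A, hA, rfl⟩ := he
      exact (Finset.mem_filter.mp hA).2
    · intros; positivity
  have hZ := Zt_ge_one P 1
  have h0 : 0 ≤ ∑ A ∈ P.powerset.filter (fun A => eA A ∈ E), 1 / (eA A : ℝ) :=
    Finset.sum_nonneg fun _ _ => by positivity
  rw [h1, smul_eq_mul]
  calc _ ≤ 1 * ∑ A ∈ P.powerset.filter (fun A => eA A ∈ E), 1 / (eA A : ℝ) := by
        apply mul_le_mul_of_nonneg_right _ h0
        exact inv_le_one_of_one_le₀ hZ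
    _ ≤ _ := by rw [one_mul]; exact h2

/-- threshold for the structured range -/
lemma exists_tau' {P : Finset ℕ} (hP : ∀ p ∈ P, p.Prime) {κ : ℝ} (hκ : 0 < κ) (Δ : ℝ)
    (hΔ : 0 ≤ Δ) : ∃ τ : ℝ, (∀ A, A ⊆ P → (Sm lg A ≤ τ ↔ eA A * Δ ≤ κ)) ∧
      (0 < Δ → τ = Real.log (κ / Δ)) := by
  rcases hΔ.eq_or_lt with h0 | h0
  · refine ⟨Sm lg P, fun A hA => ?_, fun h => absurd h (by rw [← h0]; exact lt_irrefl _)⟩
    rw [← h0, mul_zero]
    refine ⟨fun _ => hκ.le, fun _ => ?_⟩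
    unfold Sm
    exact Finset.sum_le_sum_of_subset_of_nonneg hA fun p _ _ => lg_nonneg p
  · refine ⟨Real.log (κ / Δ), fun A hA => ?_, fun _ => rfl⟩
    have hk : 0 < κ / Δ := by positivity
    have hAp : ∀ p ∈ A, p.Prime := fun p hp => hP p (hA hp)
    rw [Real.le_log_iff_exp_le hk, le_div_iff₀ h0, exp_Sm hAp]

/-- the nearby rational number -/
def qE (ξ : ℚ) (A : Finset ℕ) : ℚ := ξ * eA A

lemma qE_den_dvd (ξ : ℚ) (A : Finset ℕ) : (qE ξ A).den ∣ ξ.den := by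
  unfold qE
  have := Rat.mul_den_dvd ξ (eA A : ℚ)
  rwa [Rat.den_natCast, mul_one] at this

lemma qE_den_le (ξ : ℚ) (A : Finset ℕ) : (qE ξ A).den ≤ ξ.den :=
  Nat.le_of_dvd ξ.den_pos (qE_den_dvd ξ A)

lemma qE_insert (ξ : ℚ) {p : ℕ} {A : Finset ℕ} (hp : p ∉ A) (hpp : p.Prime)
    (hd : ¬ p ∣ ξ.den) : (qE ξ (insert p A)).den = (qE ξ A).den ∧
      (qE ξ (insert p A)).num = p * (qE ξ A).num := by
  have e : qE ξ (insert p A) = p * qE ξ A := by
    unfold qE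
    rw [eA_insert hp]; push_cast; ring
  rw [e]
  apply rat_nat_mul
  rw [Nat.Prime.coprime_iff_not_dvd hpp]
  exact fun h => hd (h.trans (qE_den_dvd ξ A))

lemma qE_den_eq {P : Finset ℕ} (hP : ∀ p ∈ P, p.Prime) (ξ : ℚ) {A : Finset ℕ} (hA : A ⊆ P) :
    (qE ξ A).den = ξ.den / ∏ p ∈ A ∩ (P.filter fun p => p ∣ ξ.den), p := by
  classical
  set P₀ := P.filter fun p => p ∣ ξ.den with hP₀
  set g := ∏ p ∈ A ∩ P₀, p with hg
  set r := ∏ p ∈ A \ P₀, p with hr
  have hT : ∀ p ∈ A ∩ P₀, p.Prime ∧ p ∣ ξ.den := by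
    intro p hp
    rw [Finset.mem_inter, hP₀, Finset.mem_filter] at hp
    exact ⟨hP p hp.2.1, hp.2.2⟩
  have hgd : g ∣ ξ.den := Finset.prod_primes_dvd _
    (fun p hp => Nat.prime_iff.mp (hT p hp).1) (fun p hp => (hT p hp).2)
  have hprod : eA A = r * g := by
    unfold eA
    rw [hr, hg, ← Finset.prod_sdiff (Finset.inter_subset_left : A ∩ P₀ ⊆ A)]
    congr 2
    ext p
    simp only [Finset.mem_sdiff, Finset.mem_inter]
    tauto
  have hrc : r.Coprime ξ.den := by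
    apply Nat.Coprime.prod_left
    intro p hp
    rw [Finset.mem_sdiff] at hp
    have hpp := hP p (hA hp.1)
    rw [Nat.Prime.coprime_iff_not_dvd hpp]
    intro h
    exact hp.2 (Finset.mem_filter.mpr ⟨hA hp.1, h⟩)
  have e1 : qE ξ A = (r : ℚ) * ((g : ℚ) * ξ) := by
    unfold qE
    rw [hprod]; push_cast; ring
  have e2 := rat_mul_dvd hgd
  have hc2 : r.Coprime ((g : ℚ) * ξ).den := by
    rw [e2]
    exact hrc.coprime_dvd_right (Nat.div_dvd_of_dvd hgd)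
  rw [e1, (rat_nat_mul hc2).1, e2]

variable {N : ℕ} [NeZero N] {χ : DirichletCharacter ℂ N}

/-- `h2f` is bounded -/
lemma abs_h2f_le (hχ : χ.IsPrimitive) (hne : χ ≠ 1) (h2 : χ ^ 2 = 1) (he : χ.Even)
    (hD : 0 < Dbar χ) {b : ℕ} (hb : 0 < b) : |h2f χ b| ≤ 1 + N ^ 2 / Dbar χ := by
  have h1 := Fi2_eq hχ hne h2 he hb
  have hφ : 0 < (Nat.totient b : ℝ) := by exact_mod_cast Nat.totient_pos.mpr hb
  have h3 : |W2n χ b / (Nat.totient b : ℝ)| ≤ N ^ 2 := by
    rw [abs_div, abs_of_pos hφ, div_le_iff₀ hφ]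
    unfold W2n
    refine (Finset.abs_sum_le_sum_abs _ _).trans ?_
    refine (Finset.sum_le_sum fun a _ => abs_Dv_le hne he _).trans (le_of_eq ?_)
    rw [Finset.sum_const, nsmul_eq_mul, mul_comm]
    congr 1
  rw [h1, abs_mul, abs_of_pos hD, ← le_div_iff₀' hD] at h3
  have h4 : |h2f χ b| ≤ |1 - h2f χ b| + 1 := by
    have := abs_sub_abs_le_abs_sub (h2f χ b) 1
    rw [abs_one, abs_sub_comm] at this
    linarith
  linarith

/-- **The average bias is at most one half.** -/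
theorem ev_bias (h2 : χ ^ 2 = 1) {Λ τ B₀ W₁ Ch : ℝ} {ξ : ℚ} (hξ : 2 ≤ ξ.den)
    (hBΛ : B₀ ≤ Λ) (hB : Real.log ξ.den ≤ B₀) (hCh : 0 ≤ Ch) (hCb : ∀ b : ℕ, 0 < b → |h2f χ b| ≤ Ch)
    (hW : EE (iP χ Λ) (xs 1) (fun A => if τ ≤ Sm lg A ∧ Sm lg A ≤ τ + B₀ then (1 : ℝ) else 0) ≤
      W₁) :
    EE (iP χ Λ) (xs 1) (fun A => (if Sm lg A ≤ τ then 1 else 0) * h2f χ (qE ξ A).den) ≤
      1 / 2 + Ch * W₁ := by
  classical
  have hx : ∀ p, 0 < xs 1 p := fun p => xs_pos 1 p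
  set P := iP χ Λ with hP
  set P₀ := P.filter fun p => p ∣ ξ.den with hP₀
  set P₁ := P.filter fun p => ¬ p ∣ ξ.den with hP₁
  have hPp : ∀ p ∈ P, p.Prime := fun p hp => iP_prime hp
  have hP₀p : ∀ p ∈ P₀, p.Prime := fun p hp => hPp p (Finset.filter_subset _ _ hp)
  have hP₀d : ∀ p ∈ P₀, p ∣ ξ.den := fun p hp => (Finset.mem_filter.mp hp).2
  have hdis : Disjoint P₀ P₁ := Finset.disjoint_filter_filter_not P P _
  have hun : P₀ ∪ P₁ = P := Finset.filter_union_filter_not_eq _ P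
  -- the independent version
  set f : Finset ℕ → ℝ := fun A => h2f χ (ξ.den / ∏ p ∈ A, p) with hf
  set g : Finset ℕ → ℝ := fun A => if Sm lg A ≤ τ then 1 else 0 with hg
  have hfP : ∀ A : Finset ℕ, A ⊆ P → h2f χ (qE ξ A).den = f (A ∩ P₀) := by
    intro A hA
    simp only [hf]
    rw [qE_den_eq hPp ξ hA]
  have hpt : ∀ A, A ⊆ P → (if Sm lg A ≤ τ then 1 else 0) * h2f χ (qE ξ A).den ≤
      f (A ∩ P₀) * g (A ∩ P₁) +
        Ch * (if τ ≤ Sm lg A ∧ Sm lg A ≤ τ + B₀ then (1 : ℝ) else 0) := by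
    intro A hA
    rw [← hfP A hA]
    set b := (qE ξ A).den with hb
    have hb0 : 0 < b := (qE ξ A).den_pos
    have hh4 := abs_le.mp (hCb b hb0)
    have hSm : Sm lg A = Sm lg (A ∩ P₀) + Sm lg (A ∩ P₁) := by
      unfold Sm
      rw [← Finset.sum_union, ← Finset.inter_union_distrib_left, hun,
        Finset.inter_eq_left.mpr hA]
      exact Finset.disjoint_of_subset_left Finset.inter_subset_right
        (Finset.disjoint_of_subset_right Finset.inter_subset_right hdis)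
    have hSm0 : 0 ≤ Sm lg (A ∩ P₀) := Finset.sum_nonneg fun p _ => lg_nonneg p
    have hSm1 : Sm lg (A ∩ P₀) ≤ B₀ :=
      (Sm_le_lg (by omega) hP₀p hP₀d Finset.inter_subset_right).trans hB
    by_cases c1 : Sm lg A ≤ τ
    · have c2 : Sm lg (A ∩ P₁) ≤ τ := by linarith
      have e1 : g (A ∩ P₁) = 1 := by simp only [hg]; rw [if_pos c2]
      rw [e1, mul_one, if_pos c1, one_mul]
      have : 0 ≤ Ch * (if τ ≤ Sm lg A ∧ Sm lg A ≤ τ + B₀ then (1 : ℝ) else 0) := by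
        split_ifs <;> simp [hCh]
      linarith
    · rw [if_neg c1, zero_mul]
      by_cases c2 : Sm lg (A ∩ P₁) ≤ τ
      · have e1 : g (A ∩ P₁) = 1 := by simp only [hg]; rw [if_pos c2]
        rw [e1, mul_one, if_pos ⟨(not_le.mp c1).le, by linarith⟩]
        linarith
      · have e1 : g (A ∩ P₁) = 0 := by simp only [hg]; rw [if_neg c2]
        rw [e1, mul_zero, zero_add]
        split_ifs <;> simp [hCh]
  refine (EE_mono hx hpt).trans ?_
  rw [EE_add, EE_mul]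
  have hprod : EE P (xs 1) (fun A => f (A ∩ P₀) * g (A ∩ P₁)) =
      EE P₀ (xs 1) f * EE P₁ (xs 1) g := by
    rw [← EE_union hdis, hun]
  rw [hprod]
  have hf1 : EE P₀ (xs 1) f ≤ 1 / 2 := by
    apply prod_bound2 h2 hξ hP₀p hP₀d
    · intro p hp
      exact ((mem_iP χ).mp (Finset.filter_subset _ _ hp)).2.1
    · intro p hp hpd hpn hi
      apply hpn
      rw [hP₀, Finset.mem_filter]
      refine ⟨?_, hpd⟩
      by_contra hc
      apply hc
      rw [hP, mem_iP]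
      by_cases h5 : rchar χ p = -1
      · refine ⟨hp, h5, ?_⟩
        have h6 : Real.log p ≤ Real.log ξ.den := by
          apply Real.log_le_log
          · exact_mod_cast hp.pos
          · exact_mod_cast Nat.le_of_dvd ξ.den_pos hpd
        linarith
      · exact absurd hi h5
  have hg0 : 0 ≤ EE P₁ (xs 1) g := EE_nonneg hx fun A _ => by
    simp only [hg]; split_ifs <;> norm_num
  have hg1 : EE P₁ (xs 1) g ≤ 1 := by
    have := EE_mono (P := P₁) hx (F := g) (G := fun _ => (1 : ℝ)) (fun A _ => by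
      simp only [hg]; split_ifs <;> norm_num)
    rwa [EE_const hx] at this
  have hpr : EE P₀ (xs 1) f * EE P₁ (xs 1) g ≤ 1 / 2 := by nlinarith
  have := mul_le_mul_of_nonneg_left hW hCh
  linarith

end Pool.Agent.MP0016c7.Ros
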