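import Mathlib
import Pool.Agent.Lib.MP_0016c7_nt.EvTop2

open Real Filter

namespace Pool.Agent.MP0016c7.Ros

variable {N : ℕ} [NeZero N] {χ : DirichletCharacter ℂ N}

/-- replacing a shifted threshold inside a block average -/
lemma blk_avg {P : Finset ℕ} {β : ℕ → ℝ} {μ C : ℝ} {lo hi : ℕ} (hB : HB P β μ C lo hi)
    (hμ : 0 < μ) (hlo : 1 ≤ lo) {L τ S B : ℝ} (hL : lg hi ≤ L) (g : ℕ → ℝ)
    (hg : ∀ p, |g p| ≤ B) :
    |∑ p ∈ P, β p / μ * ((if S + lg p ≤ τ then 1 else 0) * g p) -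
      (if S ≤ τ then 1 else 0) * ((∑ p ∈ P, β p * g p) / μ)| ≤
      B * (if τ - L ≤ S ∧ S ≤ τ then 1 else 0) := by
  have e : ∑ p ∈ P, β p / μ * ((if S + lg p ≤ τ then 1 else 0) * g p) -
      (if S ≤ τ then 1 else 0) * ((∑ p ∈ P, β p * g p) / μ) =
      ∑ p ∈ P, β p / μ * (((if S + lg p ≤ τ then 1 else 0) -
        (if S ≤ τ then 1 else 0)) * g p) := by
    rw [Finset.sum_div, Finset.mul_sum, ← Finset.sum_sub_distrib]
    apply Finset.sum_congr rfl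
    intro p _
    ring
  have hB0 : 0 ≤ B := (abs_nonneg _).trans (hg 0)
  rw [e]
  refine (Finset.abs_sum_le_sum_abs _ _).trans ?_
  have h1 : ∀ p ∈ P, |β p / μ * (((if S + lg p ≤ τ then 1 else 0) -
        (if S ≤ τ then 1 else 0)) * g p)| ≤
      β p / μ * (B * (if τ - L ≤ S ∧ S ≤ τ then 1 else 0)) := by
    intro p _
    rw [abs_mul, abs_of_nonneg (div_nonneg (hB.nn p) hμ.le)]
    by_cases h0 : β p = 0
    · rw [h0]; simp
    apply mul_le_mul_of_nonneg_left _ (div_nonneg (hB.nn p) hμ.le)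
    rw [abs_mul, mul_comm]
    have h2 := hB.lg_le hlo p h0
    have h3 := lg_nonneg p
    apply mul_le_mul (hg p) _ (abs_nonneg _) hB0
    by_cases c1 : S + lg p ≤ τ
    · have c2 : S ≤ τ := by linarith
      rw [if_pos c1, if_pos c2, sub_self, abs_zero]
      split_ifs <;> norm_num
    · rw [if_neg c1]
      by_cases c2 : S ≤ τ
      · rw [if_pos c2, if_pos ⟨by linarith [not_le.mp c1], c2⟩]
        norm_num
      · rw [if_neg c2, sub_self, abs_zero]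
        split_ifs <;> norm_num
  refine (Finset.sum_le_sum h1).trans (le_of_eq ?_)
  rw [← Finset.sum_mul, ← Finset.sum_div, hB.mass, div_self hμ.ne', one_mul]

/-- one block step with thresholds -/
lemma thr_step {P : Finset ℕ} {β : ℕ → ℝ} {μ C : ℝ} {lo hi : ℕ} (hB : HB P β μ C lo hi)
    (hμ : 0 < μ) (hC : 0 < C) (hlo : 1 ≤ lo) {L τ B ω : ℝ} (hL : lg hi ≤ L) (hB0 : 0 ≤ B)
    (G : Finset ℕ → ℝ) (g : ℕ → Finset ℕ → ℝ) (hG : ∀ A, |G A| ≤ B) (hg : ∀ p A, |g p A| ≤ B)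
    (hGg : ∀ p ∈ P, β p ≠ 0 → ∀ A, A ⊆ P → p ∉ A → G (insert p A) = g p A)
    (hω : EE P (xs 1) (fun A => if τ - L ≤ Sm lg A ∧ Sm lg A ≤ τ then (1 : ℝ) else 0) ≤ ω) :
    |EE P (xs 1) (fun A => (if Sm lg A ≤ τ then 1 else 0) * G A) -
      EE P (xs 1) (fun A => (if Sm lg A ≤ τ then 1 else 0) * ((∑ p ∈ P, β p * g p A) / μ))| ≤
      B * (√(2 * C / μ) + 2 * (1 / lo) + ω) := by
  have hx : ∀ p, 0 < xs 1 p := fun p => xs_pos 1 p
  have hite : ∀ (Q : Prop) [Decidable Q] (t : ℝ), |t| ≤ B →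
      ‖(if Q then (1 : ℝ) else 0) * t‖ ≤ B := by
    intro Q _ t ht
    rw [norm_mul, Real.norm_eq_abs t]
    split_ifs
    · rw [norm_one, one_mul]; exact ht
    · rw [norm_zero, zero_mul]; exact hB0
  have s1 := block_step (E := ℝ) (P := P) (x := xs 1) (β := β) hx hB.nn hB.mass
    (fun p => hB.le_ww hC.le p hlo) hμ (by positivity) (δ := 1 / lo)
    (fun p hp => hB.xs_le hlo p hp) hB0
    (fun A => (if Sm lg A ≤ τ then 1 else 0) * G A)
    (fun p A => (if Sm lg A + lg p ≤ τ then 1 else 0) * g p A)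
    (fun A _ => hite _ _ (hG A)) (fun p A _ => hite _ _ (hg p A))
    (fun p hp hβ A hA hpA => by
      rw [Sm_insert hpA, hGg p hp hβ A hA hpA])
  have e1 : ∑ p ∈ P, (β p / μ) • EE P (xs 1)
      (fun A => (if Sm lg A + lg p ≤ τ then 1 else 0) * g p A) =
      EE P (xs 1) (fun A => ∑ p ∈ P, β p / μ *
        ((if Sm lg A + lg p ≤ τ then 1 else 0) * g p A)) := by
    rw [EE_sum]
    apply Finset.sum_congr rfl
    intro p _
    rw [smul_eq_mul, ← EE_mul]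
  rw [e1] at s1
  have s2 : |EE P (xs 1) (fun A => ∑ p ∈ P, β p / μ *
        ((if Sm lg A + lg p ≤ τ then 1 else 0) * g p A)) -
      EE P (xs 1) (fun A => (if Sm lg A ≤ τ then 1 else 0) * ((∑ p ∈ P, β p * g p A) / μ))| ≤
      B * ω := by
    rw [← EE_sub]
    have := norm_EE_le (P := P) hx (fun A => ∑ p ∈ P, β p / μ *
        ((if Sm lg A + lg p ≤ τ then 1 else 0) * g p A) -
        (if Sm lg A ≤ τ then 1 else 0) * ((∑ p ∈ P, β p * g p A) / μ))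
    refine this.trans ?_
    refine (EE_mono hx (fun A _ => ?_)).trans (b := EE P (xs 1) (fun A =>
      B * (if τ - L ≤ Sm lg A ∧ Sm lg A ≤ τ then (1 : ℝ) else 0))) ?_
    · exact blk_avg hB hμ hlo hL (fun p => g p A) (fun p => hg p A)
    · rw [EE_mul]
      exact mul_le_mul_of_nonneg_left hω hB0
  rw [Real.norm_eq_abs] at s1
  have := abs_sub_le (EE P (xs 1) (fun A => (if Sm lg A ≤ τ then 1 else 0) * G A))
    (EE P (xs 1) (fun A => ∑ p ∈ P, β p / μ *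
        ((if Sm lg A + lg p ≤ τ then 1 else 0) * g p A)))
    (EE P (xs 1) (fun A => (if Sm lg A ≤ τ then 1 else 0) * ((∑ p ∈ P, β p * g p A) / μ)))
  nlinarith

/-- **The structured part.** -/
theorem ev_struct (hχ : χ.IsPrimitive) (hne : χ ≠ 1) (h2 : χ ^ 2 = 1) (he : χ.Even)
    (hN : N ≠ 1) {Λ : ℝ} {β : ℕ → ℝ}
    {μ C : ℝ} {lo hi : ℕ} (hB : HB (iP χ Λ) β μ C lo hi)
    (hμ : 0 < μ) (hC : 0 < C) (hlo : 1 ≤ lo) {L τ ω ε₂ : ℝ} (hL : lg hi ≤ L) {Bd : ℕ}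
    (hBd : Bd < lo) (hcls : ∀ b : ℕ, 0 < b → b ≤ Bd → ∀ a : ℤ,
      |∑ p ∈ iP χ Λ, β p * Gf χ b (p * a) - μ * Mc2 χ b a (-1)| ≤ μ * ε₂) (hε₂ : 0 ≤ ε₂)
    (hω : EE (iP χ Λ) (xs 1) (fun A => if τ - L ≤ Sm lg A ∧ Sm lg A ≤ τ then (1 : ℝ) else 0) ≤ ω)
    {ξ : ℚ} (hξ : ξ.den ≤ Bd) :
    |EE (iP χ Λ) (xs 1) (fun A => (if Sm lg A ≤ τ then 1 else 0) *
        Gf χ (qE ξ A).den (qE ξ A).num) -
      EE (iP χ Λ) (xs 1) (fun A => (if Sm lg A ≤ τ then 1 else 0) *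
        (Dbar χ * (1 - h2f χ (qE ξ A).den)))| ≤
      4 * N ^ 2 * (√(2 * C / μ) + 2 * (1 / lo) + ω) + ε₂ := by
  set P := iP χ Λ with hP
  have hx : ∀ p, 0 < xs 1 p := fun p => xs_pos 1 p
  have hnd : ∀ p ∈ P, β p ≠ 0 → ¬ p ∣ ξ.den := by
    intro p _ h0 hd
    have h1 := (hB.supp p h0).1
    have h3 := Nat.le_of_dvd ξ.den_pos hd
    omega
  have hb0 : ∀ A, (qE ξ A).den ≠ 0 := fun A => (qE ξ A).den_ne_zero
  have hw0 : 0 ≤ √(2 * C / μ) + 2 * (1 / lo) + ω := by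
    have h1 := Real.sqrt_nonneg (2 * C / μ)
    have h3 : (0 : ℝ) ≤ 2 * (1 / lo) := by positivity
    have h4 : 0 ≤ ω := le_trans (EE_nonneg hx fun A _ => by split_ifs <;> norm_num) hω
    linarith
  -- first step
  have s1 := thr_step hB hμ hC hlo hL (by positivity : (0 : ℝ) ≤ (N : ℝ) ^ 2)
    (fun A => Gf χ (qE ξ A).den (qE ξ A).num)
    (fun p A => Gf χ (qE ξ A).den (p * (qE ξ A).num))
    (fun A => abs_Gf_le hne he _ _) (fun p A => abs_Gf_le hne he _ _)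
    (fun p hp hβ A hA hpA => by
      have h3 := qE_insert ξ hpA (iP_prime hp) (hnd p hp hβ)
      rw [h3.1, h3.2]) hω
  have s2 : |EE P (xs 1) (fun A => (if Sm lg A ≤ τ then 1 else 0) *
        ((∑ p ∈ P, β p * Gf χ (qE ξ A).den (p * (qE ξ A).num)) / μ)) -
      EE P (xs 1) (fun A => (if Sm lg A ≤ τ then 1 else 0) *
        Mc2 χ (qE ξ A).den (qE ξ A).num (-1))| ≤ ε₂ := by
    rw [← EE_sub, ← Real.norm_eq_abs]
    refine (norm_EE_le hx _).trans ?_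
    have : EE P (xs 1) (fun _ => ε₂) = ε₂ := EE_const hx ε₂
    rw [← this]
    apply EE_mono hx
    intro A _
    rw [← mul_sub, norm_mul, Real.norm_eq_abs, Real.norm_eq_abs]
    have h3 := hcls (qE ξ A).den (qE ξ A).den_pos ((qE_den_le ξ A).trans hξ) (qE ξ A).num
    have h4 : |(∑ p ∈ P, β p * Gf χ (qE ξ A).den (p * (qE ξ A).num)) / μ -
        Mc2 χ (qE ξ A).den (qE ξ A).num (-1)| ≤ ε₂ := by
      have e : (∑ p ∈ P, β p * Gf χ (qE ξ A).den (p * (qE ξ A).num)) / μ -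
        Mc2 χ (qE ξ A).den (qE ξ A).num (-1) =
        (∑ p ∈ P, β p * Gf χ (qE ξ A).den (p * (qE ξ A).num) -
          μ * Mc2 χ (qE ξ A).den (qE ξ A).num (-1)) / μ := by
        field_simp
      rw [e, abs_div, abs_of_pos hμ, div_le_iff₀ hμ, mul_comm ε₂]
      exact h3
    split_ifs
    · rw [abs_one, one_mul]; exact h4
    · rw [abs_zero, zero_mul]; exact hε₂
  -- parity
  have s3 := thr_step hB hμ hC hlo hL (by positivity : (0 : ℝ) ≤ 4 * (N : ℝ) ^ 2)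
    (fun A => Mc2 χ (qE ξ A).den (qE ξ A).num (-1) - Mc2 χ (qE ξ A).den (qE ξ A).num 1)
    (fun p A => -(Mc2 χ (qE ξ A).den (qE ξ A).num (-1) - Mc2 χ (qE ξ A).den (qE ξ A).num 1))
    (fun A => by
      have h3 := abs_Mc2_le hne he (hb0 A) (qE ξ A).num (-1)
      have h4 := abs_Mc2_le hne he (hb0 A) (qE ξ A).num 1
      have := abs_sub (Mc2 χ (qE ξ A).den (qE ξ A).num (-1)) (Mc2 χ (qE ξ A).den (qE ξ A).num 1)
      linarith)
    (fun p A => by
      rw [abs_neg]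
      have h3 := abs_Mc2_le hne he (hb0 A) (qE ξ A).num (-1)
      have h4 := abs_Mc2_le hne he (hb0 A) (qE ξ A).num 1
      have := abs_sub (Mc2 χ (qE ξ A).den (qE ξ A).num (-1)) (Mc2 χ (qE ξ A).den (qE ξ A).num 1)
      linarith)
    (fun p hp hβ A hA hpA => by
      have h3 := qE_insert ξ hpA (iP_prime hp) (hnd p hp hβ)
      have hi : rchar χ p = -1 := ((mem_iP χ).mp hp).2.1
      have hpc : p.Coprime (N * (qE ξ A).den) := by
        apply Nat.Coprime.mul_right (inert_not_dvd hi)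
        rw [Nat.Prime.coprime_iff_not_dvd (iP_prime hp)]
        exact fun h => hnd p hp hβ (h.trans (qE_den_dvd ξ A))
      rw [h3.1, h3.2, Mc2_toggle h2 hN (hb0 A) hpc hi _ (s := -1) (t := 1) (by norm_num),
        Mc2_toggle h2 hN (hb0 A) hpc hi _ (s := 1) (t := -1) (by norm_num)]
      ring) hω
  have e3 : EE P (xs 1) (fun A => (if Sm lg A ≤ τ then 1 else 0) *
      ((∑ p ∈ P, β p * (fun A => -(Mc2 χ (qE ξ A).den (qE ξ A).num (-1) -
        Mc2 χ (qE ξ A).den (qE ξ A).num 1)) A) / μ)) =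
      - EE P (xs 1) (fun A => (if Sm lg A ≤ τ then 1 else 0) *
        (Mc2 χ (qE ξ A).den (qE ξ A).num (-1) - Mc2 χ (qE ξ A).den (qE ξ A).num 1)) := by
    rw [← EE_neg]
    apply EE_congr
    intro A _
    simp only
    rw [← Finset.sum_mul, hB.mass, mul_div_cancel_left₀ _ hμ.ne']
    ring
  simp only at e3
  rw [e3, sub_neg_eq_add, ← two_mul, abs_mul, abs_two] at s3
  -- combine
  have e4 : EE P (xs 1) (fun A => (if Sm lg A ≤ τ then 1 else 0) *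
        Mc2 χ (qE ξ A).den (qE ξ A).num (-1)) -
      EE P (xs 1) (fun A => (if Sm lg A ≤ τ then 1 else 0) *
        (Dbar χ * (1 - h2f χ (qE ξ A).den))) =
      1 / 2 * EE P (xs 1) (fun A => (if Sm lg A ≤ τ then 1 else 0) *
        (Mc2 χ (qE ξ A).den (qE ξ A).num (-1) - Mc2 χ (qE ξ A).den (qE ξ A).num 1)) := by
    rw [← EE_sub, ← EE_mul]
    apply EE_congr
    intro A _
    have h3 := Mc2_add h2 hN (hb0 A) (a := (qE ξ A).num) (by
      rw [Int.isCoprime_iff_gcd_eq_one]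
      have := (qE ξ A).reduced
      unfold Nat.Coprime at this
      rw [Int.gcd_def, Int.natAbs_natCast]
      exact this)
    rw [Fi2_eq hχ hne h2 he (qE ξ A).den_pos] at h3
    have h4 : Dbar χ * (1 - h2f χ (qE ξ A).den) =
      1 / 2 * (Mc2 χ (qE ξ A).den (qE ξ A).num (-1) + Mc2 χ (qE ξ A).den (qE ξ A).num 1) := by
      rw [h3]; ring
    rw [h4]; ring
  have h5 : |EE P (xs 1) (fun A => (if Sm lg A ≤ τ then 1 else 0) *
        Mc2 χ (qE ξ A).den (qE ξ A).num (-1)) -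
      EE P (xs 1) (fun A => (if Sm lg A ≤ τ then 1 else 0) *
        (Dbar χ * (1 - h2f χ (qE ξ A).den)))| ≤
      N ^ 2 * (√(2 * C / μ) + 2 * (1 / lo) + ω) := by
    rw [e4, abs_mul, abs_of_pos (by norm_num : (0 : ℝ) < 1 / 2)]
    linarith
  have t1 := abs_sub_le (EE P (xs 1) (fun A => (if Sm lg A ≤ τ then 1 else 0) *
        Gf χ (qE ξ A).den (qE ξ A).num))
    (EE P (xs 1) (fun A => (if Sm lg A ≤ τ then 1 else 0) *
        ((∑ p ∈ P, β p * Gf χ (qE ξ A).den (p * (qE ξ A).num)) / μ)))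
    (EE P (xs 1) (fun A => (if Sm lg A ≤ τ then 1 else 0) *
        Mc2 χ (qE ξ A).den (qE ξ A).num (-1)))
  have t2 := abs_sub_le (EE P (xs 1) (fun A => (if Sm lg A ≤ τ then 1 else 0) *
        Gf χ (qE ξ A).den (qE ξ A).num))
    (EE P (xs 1) (fun A => (if Sm lg A ≤ τ then 1 else 0) *
        Mc2 χ (qE ξ A).den (qE ξ A).num (-1)))
    (EE P (xs 1) (fun A => (if Sm lg A ≤ τ then 1 else 0) *
        (Dbar χ * (1 - h2f χ (qE ξ A).den))))
  have h6 : (0 : ℝ) ≤ N ^ 2 * (√(2 * C / μ) + 2 * (1 / lo) + ω) := by positivity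
  linarith

end Pool.Agent.MP0016c7.Ros
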