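import Mathlib
import Pool.Agent.Lib.MP_0016c7_nt.EvMi
import Pool.Agent.Lib.MP_0016c7_nt.EvTop1
import Pool.Agent.Lib.MP_0016c7_nt.MajAux

open Real Filter

namespace Pool.Agent.MP0016c7.Ros

variable {N : ℕ} [NeZero N] {χ : DirichletCharacter ℂ N}

/-- all parameters of the equidistribution argument -/
structure EP (χ : DirichletCharacter ℂ N) (Λ η : ℝ) (H : ℕ) (β₁ β₂ : ℕ → ℝ) (μ₁ μ₂ : ℝ)
    (l₁ h₁ l₂ h₂ D M Z : ℕ) (ρ L : ℝ) : Prop where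
  b1 : HB (iP χ Λ) β₁ μ₁ 14400 l₁ h₁
  b2 : HB (iP χ Λ) β₂ μ₂ 14400 l₂ h₂
  m1 : 0 < μ₁
  m2 : 0 < μ₂
  hl1 : 1 ≤ l₁
  hl2 : 1 ≤ l₂
  e1 : √(2 * 14400 / μ₁) + 2 * (1 / l₁) ≤ η
  e2 : √(2 * 14400 / μ₂) + 2 * (1 / l₂) ≤ η
  hD : 1 ≤ D
  hDl : D ≤ l₂
  hlh : l₁ ≤ h₁
  hρ : 0 < ρ
  hη : 0 < η
  bl : 14400 / μ₁ * (1 / (l₁ * ρ)) +
    14400 / μ₁ * (1 + Real.log h₁) * (14400 * (1 + Real.log h₂) / D) / μ₂ ≤ η ^ 2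
  hL : lg h₁ + lg h₂ ≤ L
  win : ∀ z, EE (iP χ Λ) (xs 1)
    (fun A => if z ≤ Sm lg A ∧ Sm lg A ≤ z + L then (1 : ℝ) else 0) ≤ η
  hH : 1 ≤ H
  hM : 1 ≤ M
  h4 : 8 * (2 * ρ) * (((H : ℝ) * D) ^ 4 * M) ≤ 1
  mM : (1 + Real.log Z) / M ≤ η
  mE : 16 * (2 * ρ) * (1 + Real.log Z) * (((H : ℝ) * D) ^ 4 * M) ≤ η
  tZ : Pr (iP χ Λ) (xs 1) (fun A => Z < eA A) ≤ η
  hBd : (H * D) ^ 2 * M < l₁
  cls : ∀ b : ℕ, 0 < b → b ≤ (H * D) ^ 2 * M → ∀ a : ℤ,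
      |∑ p ∈ iP χ Λ, β₁ p * Gf χ b (p * a) - μ₁ * Mc2 χ b a (-1)| ≤ μ₁ * η
  ld : Real.log (((H * D) ^ 2 * M : ℕ) : ℝ) ≤ L
  LΛ : L ≤ Λ
  hκ : (N : ℝ) ^ 2 * (2 * ρ) ≤ η

namespace EP

variable {Λ η : ℝ} {H : ℕ} {β₁ β₂ : ℕ → ℝ} {μ₁ μ₂ : ℝ}
    {l₁ h₁ l₂ h₂ D M Z : ℕ} {ρ L : ℝ}

lemma eqd (hE : EP χ Λ η H β₁ β₂ μ₁ μ₂ l₁ h₁ l₂ h₂ D M Z ρ L) {x : ℝ} {k : ℤ} (hk : k ≠ 0)
    (hkH : |(k : ℝ)| ≤ H) {τ δ : ℝ}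
    (hδ : Pr (iP χ Λ) (xs 1)
      (fun A => τ < Sm lg A ∧ MajA ((H : ℝ) * D) (2 * ρ) (eA A * x)) ≤ δ) :
    ‖EE (iP χ Λ) (xs 1) (fun A => (((if τ < Sm lg A then 1 else 0 : ℝ)) : ℂ) *
      eu (k * (eA A * x)))‖ ≤ 4 * η + δ := by
  have hx : ∀ p, 0 < xs 1 p := fun p => xs_pos 1 p
  have hw : EE (iP χ Λ) (xs 1)
      (fun A => if τ - L ≤ Sm lg A ∧ Sm lg A ≤ τ then (1 : ℝ) else 0) ≤ η := by
    have := hE.win (τ - L)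
    rwa [sub_add_cancel] at this
  have h1 := ev_eqd hE.b1 hE.b2 hE.m1 hE.m2 (by norm_num) hE.hl1 hE.hl2 x k τ (L := L)
    (ε' := η) (ω := η) (δ := δ) hE.hL (fun A => MajA D (2 * ρ) (k * (eA A * x))) hE.hη.le
    (fun A _ _ hA => by
      have h3 := Bl_harm hE.b1 hE.b2 hE.m1 hE.m2 (by norm_num) hE.hl1 hE.hD hE.hDl hE.hlh
        hE.hρ hA
      exact abs_le_of_sq_le_sq' (h3.trans hE.bl) hE.hη.le |>.2) hw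
    ((Pr_mono hx fun A _ hA => ⟨hA.1, MajA_div hk (mul_le_mul_of_nonneg_right hkH
      (Nat.cast_nonneg _)) hA.2⟩).trans hδ)
  have := hE.e1
  have := hE.e2
  linarith

/-- bound of the minorant -/
lemma comb (hE : EP χ Λ η H β₁ β₂ μ₁ μ₂ l₁ h₁ l₂ h₂ D M Z ρ L) {ε : ℝ} {F : Finset ℤ}
    {c : ℤ → ℂ} (hF0 : (0 : ℤ) ∉ F) (hFH : ∀ k ∈ F, |(k : ℝ)| ≤ H)
    (hF : ∀ θ : ℝ, 0 ≤ θ →
      Dbar χ - ε + (∑ h ∈ F, c h * eu (h * θ)).re ≤ Dv χ ((N : ℝ) * θ))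
    {x : ℝ} (hx0 : 0 ≤ x) {τ δ : ℝ}
    (hδ : Pr (iP χ Λ) (xs 1)
      (fun A => τ < Sm lg A ∧ MajA ((H : ℝ) * D) (2 * ρ) (eA A * x)) ≤ δ) :
    EE (iP χ Λ) (xs 1) (fun A => (if Sm lg A ≤ τ then 1 else 0) *
      Dv χ ((N : ℝ) * (eA A * x))) +
    (Dbar χ - ε) * EE (iP χ Λ) (xs 1) (fun A => if τ < Sm lg A then 1 else 0) -
      (∑ h ∈ F, ‖c h‖) * (4 * η + δ) ≤
      EE (iP χ Λ) (xs 1) (fun A => Dv χ ((N : ℝ) * (eA A * x))) := by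
  have hx : ∀ p, 0 < xs 1 p := fun p => xs_pos 1 p
  set P := iP χ Λ with hP
  set g : Finset ℕ → ℝ := fun A => if τ < Sm lg A then 1 else 0 with hg
  have hg0 : ∀ A, 0 ≤ g A := fun A => by simp only [hg]; split_ifs <;> norm_num
  have h1 : EE P (xs 1) (fun A => ((if Sm lg A ≤ τ then 1 else 0) *
      Dv χ ((N : ℝ) * (eA A * x)) + (Dbar χ - ε) * g A) +
      (∑ h ∈ F, c h * (((g A : ℝ) : ℂ) * eu (h * (eA A * x)))).re) ≤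
      EE P (xs 1) (fun A => Dv χ ((N : ℝ) * (eA A * x))) := by
    apply EE_mono hx
    intro A _
    have h2 := mul_le_mul_of_nonneg_left (hF (eA A * x) (by positivity)) (hg0 A)
    have e2 : (∑ h ∈ F, c h * (((g A : ℝ) : ℂ) * eu (h * (eA A * x)))) =
        ((g A : ℝ) : ℂ) * ∑ h ∈ F, c h * eu (h * (eA A * x)) := by
      rw [Finset.mul_sum]
      exact Finset.sum_congr rfl fun h _ => by ring
    have e3 : Dv χ ((N : ℝ) * (eA A * x)) =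
        (if Sm lg A ≤ τ then 1 else 0) * Dv χ ((N : ℝ) * (eA A * x)) +
        g A * Dv χ ((N : ℝ) * (eA A * x)) := by
      simp only [hg]
      by_cases c1 : Sm lg A ≤ τ
      · rw [if_pos c1, if_neg (not_lt.mpr c1)]; ring
      · rw [if_neg c1, if_pos (not_le.mp c1)]; ring
    rw [e2, Complex.re_ofReal_mul]
    linarith
  refine le_trans ?_ h1
  rw [EE_add, EE_add, EE_mul, EE_re, EE_sum]
  have h3 : ‖∑ h ∈ F, EE P (xs 1) (fun A => c h * (((g A : ℝ) : ℂ) * eu (h * (eA A * x))))‖ ≤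
      (∑ h ∈ F, ‖c h‖) * (4 * η + δ) := by
    rw [Finset.sum_mul]
    refine (norm_sum_le _ _).trans (Finset.sum_le_sum fun h hh => ?_)
    rw [EE_cmul, norm_mul]
    refine mul_le_mul_of_nonneg_left ?_ (norm_nonneg _)
    exact hE.eqd (fun h0 => hF0 (h0 ▸ hh)) (hFH h hh) hδ
  have h4 := (abs_le.mp (Complex.abs_re_le_norm
    (∑ h ∈ F, EE P (xs 1) (fun A => c h * (((g A : ℝ) : ℂ) * eu (h * (eA A * x))))))).1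
  linarith

end EP

end Pool.Agent.MP0016c7.Ros
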