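import Mathlib
import Pool.Agent.Lib.MP_0016c7_nt.EvStr
import Pool.Agent.Lib.MP_0016c7_nt.EvTop3
import Pool.Agent.Lib.MP_0016c7_nt.EvTop4

open Real Filter

namespace Pool.Agent.MP0016c7.Ros

variable {N : ℕ} [NeZero N] {χ : DirichletCharacter ℂ N}

namespace EP

variable {Λ η : ℝ} {H : ℕ} {β₁ β₂ : ℕ → ℝ} {μ₁ μ₂ : ℝ}
    {l₁ h₁ l₂ h₂ D M Z : ℕ} {ρ L : ℝ}

/-- the bad event, reduced to a set of integers -/
lemma bad (hE : EP χ Λ η H β₁ β₂ μ₁ μ₂ l₁ h₁ l₂ h₂ D M Z ρ L) {x τ : ℝ} (E : Finset ℕ)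
    (hEm : ∀ A, A ⊆ iP χ Λ → τ < Sm lg A → eA A ∈ Ms ((H : ℝ) * D) (2 * ρ) x Z → eA A ∈ E)
    (hEs : ∑ e ∈ E, 1 / (e : ℝ) ≤ η) :
    Pr (iP χ Λ) (xs 1)
      (fun A => τ < Sm lg A ∧ MajA ((H : ℝ) * D) (2 * ρ) (eA A * x)) ≤ 2 * η := by
  have hx : ∀ p, 0 < xs 1 p := fun p => xs_pos 1 p
  have h1 := Pr_mono (P := iP χ Λ) hx (S := fun A => τ < Sm lg A ∧
      MajA ((H : ℝ) * D) (2 * ρ) (eA A * x)) (S' := fun A => Z < eA A ∨ eA A ∈ E) (by
    intro A hA h
    by_cases c : Z < eA A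
    · exact Or.inl c
    · right
      apply hEm A hA h.1
      rw [mem_Ms]
      exact ⟨⟨eA_pos fun p hp => iP_prime (hA hp), not_lt.mp c⟩, h.2⟩)
  have h2 := Pr_or (P := iP χ Λ) hx (fun A => Z < eA A) (fun A => eA A ∈ E)
  have h3 := Pr_eA_mem (P := iP χ Λ) (fun p hp => iP_prime hp) E
  have := hE.tZ
  linarith

lemma rho_le (hE : EP χ Λ η H β₁ β₂ μ₁ μ₂ l₁ h₁ l₂ h₂ D M Z ρ L) :
    ρ ≤ 1 / 16 ∧ 4 * ρ * ((H * D) ^ 2 * M : ℕ) ≤ 1 / 4 := by
  have h4 := hE.h4
  have hρ := hE.hρ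
  have hG : (1 : ℝ) ≤ (H : ℝ) * D := by
    have h1 : (1 : ℝ) ≤ H := by exact_mod_cast hE.hH
    have h2 : (1 : ℝ) ≤ D := by exact_mod_cast hE.hD
    nlinarith
  have hM : (1 : ℝ) ≤ M := by exact_mod_cast hE.hM
  set G : ℝ := (H : ℝ) * D with hGd
  have h5 : (1 : ℝ) ≤ G ^ 4 * M := by
    have := one_le_pow₀ hG (n := 4)
    nlinarith only [hM, this]
  have h6 : G ^ 2 * M ≤ G ^ 4 * M := by
    apply mul_le_mul_of_nonneg_right _ (by linarith)
    exact pow_le_pow_right₀ hG (by norm_num)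
  constructor
  · nlinarith only [h4, hρ, h5]
  · push_cast
    rw [← hGd]
    nlinarith only [h4, hρ, h6]

theorem main (hE : EP χ Λ η H β₁ β₂ μ₁ μ₂ l₁ h₁ l₂ h₂ D M Z ρ L) (hχ : χ.IsPrimitive)
    (hne : χ ≠ 1) (h2 : χ ^ 2 = 1) (he : χ.Even) (hN : N ≠ 1) (hDb : 0 < Dbar χ) {Ch : ℝ}
    (hCh : 0 ≤ Ch) (hCb : ∀ b : ℕ, 0 < b → |h2f χ b| ≤ Ch) {ε : ℝ} (hε : 0 ≤ ε)
    {F : Finset ℤ}
    {c : ℤ → ℂ} (hF0 : (0 : ℤ) ∉ F) (hFH : ∀ k ∈ F, |(k : ℝ)| ≤ H)
    (hF : ∀ θ : ℝ, 0 ≤ θ →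
      Dbar χ - ε + (∑ h ∈ F, c h * eu (h * θ)).re ≤ Dv χ ((N : ℝ) * θ))
    {x : ℝ} (hx0 : 0 < x) (hx1 : x ≤ 1 / 2) :
    min (Dbar χ / 2) (Dbar χ * EE (iP χ Λ) (xs 1)
        (fun A => if Real.log (2 * ρ / x) < Sm lg A then 1 else 0)) -
      (ε + (∑ h ∈ F, ‖c h‖) * (6 * η) + (8 * N ^ 2 + 2 + Dbar χ * Ch) * η) ≤
      EE (iP χ Λ) (xs 1) (fun A => Dv χ ((N : ℝ) * (eA A * x))) := by
  classical
  have hx : ∀ p, 0 < xs 1 p := fun p => xs_pos 1 p
  set P := iP χ Λ with hP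
  have hPp : ∀ p ∈ P, p.Prime := fun p hp => iP_prime hp
  have hAp : ∀ A, A ⊆ P → ∀ p ∈ A, p.Prime := fun A hA p hp => hPp p (hA hp)
  have hη := hE.hη
  have hρ := hE.hρ
  obtain ⟨hr1, hr2⟩ := hE.rho_le
  have hκ0 : 0 < 2 * ρ := by linarith
  have hG : (1 : ℝ) ≤ (H : ℝ) * D := by
    have h1 : (1 : ℝ) ≤ H := by exact_mod_cast hE.hH
    have h2 : (1 : ℝ) ≤ D := by exact_mod_cast hE.hD
    nlinarith only [h1, h2]
  have hC0 : 0 ≤ ∑ h ∈ F, ‖c h‖ := Finset.sum_nonneg fun _ _ => norm_nonneg _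
  have hex : 0 ≤ (8 * (N : ℝ) ^ 2 + 2 + Dbar χ * Ch) * η := by (clear * - hDb hCh hη; positivity)
  have hNN : (0 : ℝ) ≤ (N : ℝ) ^ 2 * η := by positivity
  have hDC : 0 ≤ Dbar χ * Ch * η := by positivity
  rcases structure_thm (x := x) hG hκ0 (Z := Z) hE.hM hE.h4 with hs | ⟨ξ, hξd, hξx, hξE⟩
  · -- no structure
    have hb := hE.bad (x := x) (τ := -1) (Ms ((H : ℝ) * D) (2 * ρ) x Z) (fun A _ _ h => h)
      (hs.trans hE.mM)
    have h1 := hE.comb hF0 hFH hF hx0.le hb
    have e1 : EE P (xs 1) (fun A => (if Sm lg A ≤ -1 then 1 else 0) *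
        Dv χ ((N : ℝ) * (eA A * x))) = 0 := by
      have : EE P (xs 1) (fun A => (if Sm lg A ≤ -1 then 1 else 0) *
        Dv χ ((N : ℝ) * (eA A * x))) = EE P (xs 1) (fun _ => (0 : ℝ)) := by
        apply EE_congr
        intro A _
        rw [if_neg, zero_mul]
        have : 0 ≤ Sm lg A := Finset.sum_nonneg fun p _ => lg_nonneg p
        linarith
      rw [this, EE_const hx]
    have e2 : EE P (xs 1) (fun A => if -1 < Sm lg A then (1 : ℝ) else 0) = 1 := by
      have : EE P (xs 1) (fun A => if -1 < Sm lg A then (1 : ℝ) else 0) =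
          EE P (xs 1) (fun _ => (1 : ℝ)) := by
        apply EE_congr
        intro A _
        rw [if_pos]
        have : 0 ≤ Sm lg A := Finset.sum_nonneg fun p _ => lg_nonneg p
        linarith
      rw [this, EE_const hx]
    rw [e1, e2] at h1
    have h5 := min_le_left (Dbar χ / 2) (Dbar χ * EE P (xs 1)
        (fun A => if Real.log (2 * ρ / x) < Sm lg A then 1 else 0))
    have e3 : 4 * η + 2 * η = 6 * η := by ring
    rw [e3] at h1
    linarith only [hDb, hη, hNN, hDC, h1, h5]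
  · -- structure
    obtain ⟨τ, hτ, hτ2⟩ := exists_tau' hPp hκ0 |x - ξ| (abs_nonneg _)
    have hdenR : (ξ.den : ℝ) ≤ (((H * D) ^ 2 * M : ℕ) : ℝ) := by
      push_cast; exact hξd
    have hden : ξ.den ≤ (H * D) ^ 2 * M := by exact_mod_cast hdenR
    have hden0 : (0 : ℝ) < ξ.den := by exact_mod_cast ξ.den_pos
    have hb := hE.bad (x := x) (τ := τ)
      ((Ms ((H : ℝ) * D) (2 * ρ) x Z).filter fun e => 2 * ρ < e * |x - ξ|)
      (fun A hA hA2 h => by
        rw [Finset.mem_filter]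
        refine ⟨h, ?_⟩
        have := (hτ A hA).not.mp (not_le.mpr hA2)
        exact not_le.mp this)
      ((hξE _ (Finset.filter_subset _ _) (fun e he => (Finset.mem_filter.mp he).2)).trans hE.mE)
    have h1 := hE.comb hF0 hFH hF hx0.le hb
    have e3 : 4 * η + 2 * η = 6 * η := by ring
    rw [e3] at h1
    have hξ2 : |x - ξ| ≤ 4 * ρ := by linarith
    -- nonnegativity of `ξ`
    have hξ0 : 0 ≤ ξ := by
      by_contra hneg
      rw [not_le] at hneg
      have hnum : ξ.num ≤ -1 := by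
        have := Rat.num_neg.mpr hneg
        omega
      have h3 : (ξ : ℝ) ≤ -1 / ξ.den := by
        rw [rat_cast_eq ξ]
        apply div_le_div_of_nonneg_right _ hden0.le
        exact_mod_cast hnum
      have h4 := (abs_le.mp hξ2).2
      have h5 : 1 / (ξ.den : ℝ) ≤ 4 * ρ := by
        have : -1 / (ξ.den : ℝ) = -(1 / (ξ.den : ℝ)) := by ring
        linarith only [hx0, h3, h4, this]
      rw [div_le_iff₀ hden0] at h5
      have : 4 * ρ * ξ.den ≤ 4 * ρ * (((H * D) ^ 2 * M : ℕ) : ℝ) :=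
        mul_le_mul_of_nonneg_left hdenR (by linarith)
      linarith only [hρ, hr1, hr2, h5, this]
    have hξR0 : (0 : ℝ) ≤ ξ := by exact_mod_cast hξ0
    -- Lipschitz replacement
    have hlip : EE P (xs 1) (fun A => (if Sm lg A ≤ τ then 1 else 0) *
        Dv χ ((N : ℝ) * (eA A * ξ))) - η ≤
        EE P (xs 1) (fun A => (if Sm lg A ≤ τ then 1 else 0) *
        Dv χ ((N : ℝ) * (eA A * x))) := by
      have : EE P (xs 1) (fun _ => η) = η := EE_const hx η
      rw [← this, ← EE_sub]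
      apply EE_mono hx
      intro A hA
      by_cases c1 : Sm lg A ≤ τ
      · rw [if_pos c1, one_mul, one_mul]
        have h3 := (hτ A hA).mp c1
        have h5 := abs_Dv_sub_le hne ((N : ℝ) * (eA A * ξ)) ((N : ℝ) * (eA A * x))
        have e4 : (N : ℝ) * (eA A * ξ) - (N : ℝ) * (eA A * x) =
            -((N : ℝ) * (eA A * (x - ξ))) := by ring
        rw [e4, abs_neg, abs_mul, abs_mul, Nat.abs_cast, Nat.abs_cast] at h5
        have h6 : (N : ℝ) * (N * (eA A * |x - ξ|)) ≤ N ^ 2 * (2 * ρ) := by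
          rw [← mul_assoc, ← sq]
          exact mul_le_mul_of_nonneg_left h3 (by positivity)
        have h7 := (abs_le.mp h5).2
        linarith only [h6, h7, hE, hE.hκ]
      · rw [if_neg c1]; simp; exact hη.le
    rcases Nat.lt_or_ge 1 ξ.den with h1d | h1d
    · -- genuinely rational
      have hGf : ∀ A, Dv χ ((N : ℝ) * (eA A * ξ)) = Gf χ (qE ξ A).den (qE ξ A).num := by
        intro A
        have hnn : 0 ≤ qE ξ A := by unfold qE; positivity
        have hnum : 0 ≤ (qE ξ A).num := Rat.num_nonneg.mpr hnn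
        obtain ⟨n, hn⟩ := Int.eq_ofNat_of_zero_le hnum
        rw [hn, Gf_nat' hne he (qE ξ A).den_pos n]
        congr 1
        have h3 := rat_cast_eq (qE ξ A)
        rw [hn] at h3
        have h4 : ((qE ξ A : ℚ) : ℝ) = eA A * ξ := by
          unfold qE; push_cast; ring
        rw [← h4, h3]
        push_cast
        ring
      have hw : EE P (xs 1)
          (fun A => if τ - L ≤ Sm lg A ∧ Sm lg A ≤ τ then (1 : ℝ) else 0) ≤ η := by
        have := hE.win (τ - L)
        rwa [sub_add_cancel] at this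
      have hL1 : lg h₁ ≤ L := by
        have := lg_nonneg h₂
        linarith [hE.hL]
      have h3 := ev_struct hχ hne h2 he hN hE.b1 hE.m1 (by norm_num) hE.hl1 hL1 hE.hBd hE.cls
        hη.le hw hden
      have hlog : Real.log ξ.den ≤ L := by
        refine le_trans ?_ hE.ld
        exact Real.log_le_log hden0 hdenR
      have h4 := ev_bias h2 (Λ := Λ) (τ := τ) (ξ := ξ) (by omega) hE.LΛ hlog hCh hCb
        (hE.win τ)
      have h5 : EE P (xs 1) (fun A => (if Sm lg A ≤ τ then 1 else 0) *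
          Dv χ ((N : ℝ) * (eA A * ξ))) = EE P (xs 1) (fun A => (if Sm lg A ≤ τ then 1 else 0) *
          Gf χ (qE ξ A).den (qE ξ A).num) := by
        apply EE_congr
        intro A _
        rw [hGf A]
      have h6 : EE P (xs 1) (fun A => (if Sm lg A ≤ τ then 1 else 0) *
        (Dbar χ * (1 - h2f χ (qE ξ A).den))) =
        Dbar χ * EE P (xs 1) (fun A => if Sm lg A ≤ τ then (1 : ℝ) else 0) -
        Dbar χ * EE P (xs 1) (fun A => (if Sm lg A ≤ τ then 1 else 0) *
          h2f χ (qE ξ A).den) := by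
        rw [← EE_mul, ← EE_mul, ← EE_sub]
        apply EE_congr
        intro A _
        ring
      have h7 : EE P (xs 1) (fun A => if Sm lg A ≤ τ then (1 : ℝ) else 0) +
          EE P (xs 1) (fun A => if τ < Sm lg A then (1 : ℝ) else 0) = 1 := by
        rw [← EE_add]
        refine Eq.trans ?_ (EE_const (P := P) hx (1 : ℝ))
        apply EE_congr
        intro A _
        by_cases c1 : Sm lg A ≤ τ
        · rw [if_pos c1, if_neg (not_lt.mpr c1)]; ring
        · rw [if_neg c1, if_pos (not_le.mp c1)]; ring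
      have h8 : EE P (xs 1) (fun A => if τ < Sm lg A then (1 : ℝ) else 0) ≤ 1 := by
        have : 0 ≤ EE P (xs 1) (fun A => if Sm lg A ≤ τ then (1 : ℝ) else 0) :=
          EE_nonneg hx fun A _ => by split_ifs <;> norm_num
        linarith only [h7, this]
      have h9 := mul_le_mul_of_nonneg_left h4 hDb.le
      have h10 := (abs_le.mp h3).1
      have h11 := mul_le_mul_of_nonneg_left h8 hε
      have h12 : Dbar χ * EE P (xs 1) (fun A => if Sm lg A ≤ τ then (1 : ℝ) else 0) +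
        Dbar χ * EE P (xs 1) (fun A => if τ < Sm lg A then (1 : ℝ) else 0) = Dbar χ := by
        rw [← mul_add, h7, mul_one]
      have h13 := min_le_left (Dbar χ / 2) (Dbar χ * EE P (xs 1)
        (fun A => if Real.log (2 * ρ / x) < Sm lg A then 1 else 0))
      have h14 : 4 * (N : ℝ) ^ 2 * (√(2 * 14400 / μ₁) + 2 * (1 / ↑l₁) + η) ≤
          4 * N ^ 2 * (2 * η) := by
        apply mul_le_mul_of_nonneg_left _ (by (clear * -; positivity))
        linarith only [hE, hE.e1]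
      rw [h5] at hlip
      rw [h6] at h10
      have h15 : (Dbar χ - ε) * EE P (xs 1) (fun A => if τ < Sm lg A then (1 : ℝ) else 0) =
        Dbar χ * EE P (xs 1) (fun A => if τ < Sm lg A then (1 : ℝ) else 0) -
        ε * EE P (xs 1) (fun A => if τ < Sm lg A then (1 : ℝ) else 0) := by ring
      have h16 : Dbar χ * (1 / 2 + Ch * η) = Dbar χ / 2 + Dbar χ * Ch * η := by ring
      rw [h15] at h1
      rw [h16] at h9
      have h17 : (8 * (N : ℝ) ^ 2 + 2 + Dbar χ * Ch) * η =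
        8 * N ^ 2 * η + 2 * η + Dbar χ * Ch * η := by ring
      have h18 : 4 * (N : ℝ) ^ 2 * (2 * η) = 8 * N ^ 2 * η := by ring
      rw [h18] at h14
      rw [h17]
      linarith only [h1, hlip, h9, h10, h11, h12, h13, h14]
    · -- `ξ = 0`
      have hd1 : ξ.den = 1 := by
        have := ξ.den_pos
        omega
      have hξz : ξ = 0 := by
        have h3 := rat_cast_eq ξ
        rw [hd1] at h3
        have h4 := (abs_le.mp hξ2).1
        have h5 : (ξ : ℝ) < 1 := by linarith only [hx1, hρ, hr1, h4]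
        have h6 : ξ.num < 1 := by
          rw [h3, Nat.cast_one, div_one] at h5
          exact_mod_cast h5
        have h7 : 0 ≤ ξ.num := Rat.num_nonneg.mpr hξ0
        exact Rat.num_eq_zero.mp (by omega)
      have hΔ : |x - (ξ : ℝ)| = x := by
        rw [hξz, Rat.cast_zero, sub_zero, abs_of_pos hx0]
      rw [hΔ] at hτ2
      have hτe := hτ2 hx0
      have e5 : EE P (xs 1) (fun A => (if Sm lg A ≤ τ then 1 else 0) *
          Dv χ ((N : ℝ) * (eA A * ξ))) = 0 := by
        have : EE P (xs 1) (fun A => (if Sm lg A ≤ τ then 1 else 0) *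
          Dv χ ((N : ℝ) * (eA A * ξ))) = EE P (xs 1) (fun _ => (0 : ℝ)) := by
          apply EE_congr
          intro A _
          rw [hξz, Rat.cast_zero, mul_zero, mul_zero, Dv_of_le_one zero_le_one, mul_zero]
        rw [this, EE_const hx]
      rw [e5] at hlip
      have h13 := min_le_right (Dbar χ / 2) (Dbar χ * EE P (xs 1)
        (fun A => if Real.log (2 * ρ / x) < Sm lg A then 1 else 0))
      rw [hτe] at h1 hlip
      have h8 : EE P (xs 1) (fun A => if Real.log (2 * ρ / x) < Sm lg A then (1 : ℝ) else 0) ≤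
          1 := by
        refine le_trans ?_ (EE_const (P := P) hx (1 : ℝ)).le
        apply EE_mono hx
        intro A _
        split_ifs <;> norm_num
      have h11 := mul_le_mul_of_nonneg_left h8 hε
      have h15 : (Dbar χ - ε) * EE P (xs 1)
          (fun A => if Real.log (2 * ρ / x) < Sm lg A then (1 : ℝ) else 0) =
        Dbar χ * EE P (xs 1) (fun A => if Real.log (2 * ρ / x) < Sm lg A then (1 : ℝ) else 0) -
        ε * EE P (xs 1) (fun A => if Real.log (2 * ρ / x) < Sm lg A then (1 : ℝ) else 0) := by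
        ring
      rw [h15] at h1
      have h17 : (8 * (N : ℝ) ^ 2 + 2 + Dbar χ * Ch) * η =
        8 * (N ^ 2 * η) + 2 * η + Dbar χ * Ch * η := by ring
      rw [h17]
      linarith only [hη, hNN, hDC, h1, hlip, h13, h11]

end EP

end Pool.Agent.MP0016c7.Ros
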