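import Mathlib
import Pool.Agent.Lib.MP_0016c7_nt.CdlBlocks
import Pool.Agent.Lib.MP_0016c7_nt.EvHarm

open Real Filter

namespace Pool.Agent.MP0016c7.Ros

open DirichletCharacter

/-- harmonic sums and logarithms -/
lemma harm_ge_log {a b : ℕ} (ha : 1 ≤ a) (hab : a ≤ b) :
    Real.log b - Real.log a ≤ ∑ j ∈ Finset.Ico a b, 1 / (j : ℝ) := by
  obtain ⟨k, rfl⟩ := Nat.exists_eq_add_of_le hab
  induction k with
  | zero => simp
  | succ k ih =>
    have ih' := ih (by omega)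
    rw [show a + (k + 1) = a + k + 1 by ring, Finset.sum_Ico_succ_top (by omega)]
    have h0 : (0 : ℝ) < ((a + k : ℕ) : ℝ) := by
      have : 0 < a + k := by omega
      exact_mod_cast this
    have h1 : Real.log ((a + k + 1 : ℕ) : ℝ) - Real.log ((a + k : ℕ) : ℝ) ≤
        1 / ((a + k : ℕ) : ℝ) := by
      rw [← Real.log_div (by positivity) h0.ne']
      have e : ((a + k + 1 : ℕ) : ℝ) / ((a + k : ℕ) : ℝ) = 1 + 1 / ((a + k : ℕ) : ℝ) := by
        push_cast at h0 ⊢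
        field_simp
      rw [e]
      have := Real.log_le_sub_one_of_pos (by positivity : 0 < 1 + 1 / ((a + k : ℕ) : ℝ))
      linarith
    linarith

variable {N : ℕ} [NeZero N] {χ : DirichletCharacter ℂ N}

/-- harmonic block weights -/
noncomputable def bb (χ : DirichletCharacter ℂ N) (j₁ j₂ p : ℕ) : ℝ :=
  ∑ j ∈ Finset.Ico j₁ j₂, obx χ 1 (rexp j) p / (j * Jx χ 1 (rexp j))

/-- total weight of the block -/
noncomputable def mb (j₁ j₂ : ℕ) : ℝ := ∑ j ∈ Finset.Ico j₁ j₂, 1 / (j : ℝ)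

/-- **Blocks with harmonic weights.** -/
theorem bb_ok (hSW : SWd) (h2 : χ ^ 2 = 1) (hne : χ ≠ 1) (B : ℕ) : ∃ j₀ : ℕ, 1 ≤ j₀ ∧
    ∀ (j₁ j₂ : ℕ) (Λ : ℝ), j₀ ≤ j₁ → (j₂ : ℝ) + 1 ≤ Λ →
    HB (iP χ Λ) (bb χ j₁ j₂) (mb j₁ j₂) 14400 ⌊rexp (j₁ - 1)⌋₊ (⌊rexp j₂⌋₊ + 1) ∧
    ∀ (m : ℕ) [NeZero m], (m : ℝ) ≤ (j₁ : ℝ) ^ B → ∀ h : N ∣ m, ∀ f : ZMod m → ℝ,
    (∀ a, |f a| ≤ 1) → |∑ p ∈ iP χ Λ, bb χ j₁ j₂ p * f (p : ZMod m) -
      mb j₁ j₂ * mu χ h f (-1)| ≤ mb j₁ j₂ / j₁ := by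
  obtain ⟨X₀, hX₀⟩ := Filter.eventually_atTop.mp (obx_ok (χ := χ) hSW h2 hne 1 B)
  refine ⟨⌈|X₀|⌉₊ + 1, by omega, fun j₁ j₂ Λ hj hΛ => ?_⟩
  have hj1 : 1 ≤ j₁ := by omega
  have hok : ∀ j ∈ Finset.Ico j₁ j₂, (1 : ℝ) ≤ j ∧ 0 < rexp (j : ℝ) ∧ Real.log (rexp j) = j ∧
      rexp j / 100 ≤ Jx χ 1 (rexp j) ∧ 0 < Jx χ 1 (rexp j) ∧ 3 * rexp j ≤ rexp Λ ∧
      ∀ (m : ℕ) [NeZero m], (m : ℝ) ≤ (j : ℝ) ^ B → ∀ h : N ∣ m, ∀ f : ZMod m → ℝ,
    (∀ a, |f a| ≤ 1) → |∑ p ∈ Finset.Icc 1 ⌊3 * rexp j⌋₊, obx χ 1 (rexp j) p * f (p : ZMod m) -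
      Jx χ 1 (rexp j) * mu χ h f (-1)| ≤ Jx χ 1 (rexp j) / j := by
    intro j hj'
    rw [Finset.mem_Ico] at hj'
    have h1 : (1 : ℝ) ≤ j := by exact_mod_cast hj1.trans hj'.1
    have hX : X₀ ≤ rexp j := by
      have a1 : X₀ ≤ |X₀| := le_abs_self _
      have a2 : |X₀| ≤ ⌈|X₀|⌉₊ := Nat.le_ceil _
      have a3 : ((⌈|X₀|⌉₊ : ℕ) : ℝ) + 1 ≤ j := by exact_mod_cast hj.trans hj'.1
      have a4 := Real.add_one_le_exp (j : ℝ)
      linarith
    obtain ⟨b1, b2⟩ := hX₀ _ hX 1 one_ne_zero (by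
      rw [Nat.cast_one, Real.log_one, Real.log_exp]; positivity)
    have hpos : 0 < Jx χ 1 (rexp j) := lt_of_lt_of_le (by positivity) b1
    refine ⟨h1, exp_pos _, Real.log_exp _, b1, hpos, ?_, ?_⟩
    · have h3 : (j : ℝ) + 1 + 1 ≤ Λ := by
        have : (j : ℝ) + 1 ≤ j₂ := by exact_mod_cast hj'.2
        linarith
      calc 3 * rexp j ≤ rexp 2 * rexp j := by
            apply mul_le_mul_of_nonneg_right _ (exp_pos _).le
            have := Real.add_one_le_exp (2 : ℝ)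
            linarith
        _ = rexp (2 + j) := (exp_add _ _).symm
        _ ≤ rexp Λ := exp_le_exp.mpr (by linarith)
    · intro m _ hm h f hf
      have := b2 m (by rw [Real.log_exp]; exact hm) h f hf
      rw [Real.log_exp, pow_one] at this
      exact this
  have hnn : ∀ p, ∀ j ∈ Finset.Ico j₁ j₂, 0 ≤ obx χ 1 (rexp j) p / (j * Jx χ 1 (rexp j)) := by
    intro p j hj'
    obtain ⟨a1, a2, a3, a4, a5, a6, a7⟩ := hok j hj'
    exact div_nonneg (obx_nonneg (exp_pos _).le _ _) (by positivity)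
  have hex : ∀ p, bb χ j₁ j₂ p ≠ 0 → ∃ j ∈ Finset.Ico j₁ j₂, obx χ 1 (rexp j) p ≠ 0 := by
    intro p hp
    by_contra hc
    push Not at hc
    apply hp
    unfold bb
    apply Finset.sum_eq_zero
    intro j hj'
    rw [hc j hj', zero_div]
  refine ⟨⟨fun p => Finset.sum_nonneg (hnn p), ?_, ?_, ?_, ?_⟩, ?_⟩
  · intro p hp
    obtain ⟨j, hj', h0⟩ := hex p hp
    obtain ⟨a1, a2, a3, a4, a5, a6, a7⟩ := hok j hj'
    obtain ⟨c1, c2, c3, c4, c5⟩ := obx_ne_zero a2 h0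
    rw [mem_iP]
    have hp0 : (0 : ℝ) < p := by exact_mod_cast c1.pos
    refine ⟨c1, ?_, ?_⟩
    · rw [rchar_apply χ c1.ne_zero, c2]; simp
    · rw [Real.log_le_iff_le_exp hp0]; linarith
  · unfold bb mb
    rw [Finset.sum_comm]
    apply Finset.sum_congr rfl
    intro j hj'
    obtain ⟨a1, a2, a3, a4, a5, a6, a7⟩ := hok j hj'
    rw [← Finset.sum_div]
    have h3 := sum_P_obx (χ := χ) a2 a6 1 (fun _ => 1)
    simp only [mul_one] at h3
    rw [h3]
    have h4 : ∑ p ∈ Finset.Icc 1 ⌊3 * rexp (j : ℝ)⌋₊, obx χ 1 (rexp j) p = Jx χ 1 (rexp j) := rfl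
    rw [h4]
    field_simp
  · intro p
    rcases Nat.eq_zero_or_pos p with rfl | hp
    · rw [Nat.cast_zero, div_zero]
      apply le_of_eq
      unfold bb
      apply Finset.sum_eq_zero
      intro j hj'
      obtain ⟨a1, a2, a3, a4, a5, a6, a7⟩ := hok j hj'
      by_cases h0 : obx χ 1 (rexp j) 0 = 0
      · rw [h0, zero_div]
      · exact absurd (obx_ne_zero a2 h0).1 Nat.not_prime_zero
    · have hp0 : (0 : ℝ) < p := by exact_mod_cast hp
      have h3 : ∀ j ∈ Finset.Ico j₁ j₂, obx χ 1 (rexp j) p / (j * Jx χ 1 (rexp j)) ≤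
          (4800 / p) * (if |Real.log p - j| ≤ 1 then 1 else 0) := by
        intro j hj'
        obtain ⟨a1, a2, a3, a4, a5, a6, a7⟩ := hok j hj'
        by_cases h0 : obx χ 1 (rexp j) p = 0
        · rw [h0, zero_div]
          split_ifs <;> positivity
        · obtain ⟨c1, c2, c3, c4, c5⟩ := obx_ne_zero a2 h0
          rw [a3] at c3
          rw [if_pos c3, mul_one, div_le_div_iff₀ (by positivity) hp0]
          have h5 := obx_le (χ := χ) a2 (by rw [a3]; exact a1) 1 p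
          rw [a3] at h5
          have h6 : obx χ 1 (rexp j) p * p ≤ (16 * j) * (3 * rexp j) :=
            mul_le_mul h5 c4 hp0.le (by positivity)
          refine h6.trans ?_
          have h7 : 4800 * ((j : ℝ) * (rexp j / 100)) ≤ 4800 * (j * Jx χ 1 (rexp j)) := by
            apply mul_le_mul_of_nonneg_left _ (by norm_num)
            exact mul_le_mul_of_nonneg_left a4 (by linarith)
          linarith
      unfold bb
      refine (Finset.sum_le_sum h3).trans ?_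
      rw [← Finset.mul_sum, Finset.sum_boole]
      have h4 : (((Finset.Ico j₁ j₂).filter fun j : ℕ => |Real.log p - j| ≤ 1).card : ℝ) ≤
          2 + 1 := by
        apply card_le_of_diam (by norm_num)
        intro m hm n hn _
        rw [Finset.mem_filter] at hm hn
        have b1 := abs_le.mp hm.2
        have b2 := abs_le.mp hn.2
        linarith
      calc 4800 / (p : ℝ) * _ ≤ 4800 / p * (2 + 1) :=
            mul_le_mul_of_nonneg_left h4 (by positivity)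
        _ = 14400 / p := by ring
  · intro p hp
    obtain ⟨j, hj', h0⟩ := hex p hp
    obtain ⟨a1, a2, a3, a4, a5, a6, a7⟩ := hok j hj'
    obtain ⟨c1, c2, c3, c4, c5⟩ := obx_ne_zero a2 h0
    rw [a3, abs_le] at c3
    rw [Finset.mem_Ico] at hj'
    have hp0 : (0 : ℝ) < p := by exact_mod_cast c1.pos
    have d1 : (j₁ : ℝ) ≤ j := by exact_mod_cast hj'.1
    have d2 : (j : ℝ) + 1 ≤ j₂ := by exact_mod_cast hj'.2
    constructor
    · have h5 : rexp ((j₁ : ℝ) - 1) ≤ p := by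
        rw [← Real.le_log_iff_exp_le hp0]; linarith [c3.1]
      have h6 := Nat.floor_mono h5
      rwa [Nat.floor_natCast] at h6
    · have h5 : (p : ℝ) ≤ rexp j₂ := by
        rw [← Real.log_le_iff_le_exp hp0]; linarith [c3.2]
      have h6 := Nat.floor_mono h5
      rw [Nat.floor_natCast] at h6
      omega
  · intro m _ hm h f hf
    have hj10 : (1 : ℝ) ≤ j₁ := by exact_mod_cast hj1
    have e1 : ∑ p ∈ iP χ Λ, bb χ j₁ j₂ p * f (p : ZMod m) =
        ∑ j ∈ Finset.Ico j₁ j₂, (∑ p ∈ Finset.Icc 1 ⌊3 * rexp (j : ℝ)⌋₊,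
          obx χ 1 (rexp j) p * f (p : ZMod m)) / (j * Jx χ 1 (rexp j)) := by
      have e2 : ∀ p ∈ iP χ Λ, bb χ j₁ j₂ p * f (p : ZMod m) = ∑ j ∈ Finset.Ico j₁ j₂,
          (obx χ 1 (rexp j) p * f (p : ZMod m)) / (j * Jx χ 1 (rexp j)) := by
        intro p _
        unfold bb
        rw [Finset.sum_mul]
        exact Finset.sum_congr rfl fun j _ => by ring
      rw [Finset.sum_congr rfl e2, Finset.sum_comm]
      apply Finset.sum_congr rfl
      intro j hj'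
      obtain ⟨a1, a2, a3, a4, a5, a6, a7⟩ := hok j hj'
      rw [← Finset.sum_div, sum_P_obx a2 a6 1 (fun p => f (p : ZMod m))]
    rw [e1]
    unfold mb
    rw [Finset.sum_mul, ← Finset.sum_sub_distrib, Finset.sum_div]
    refine (Finset.abs_sum_le_sum_abs _ _).trans (Finset.sum_le_sum fun j hj' => ?_)
    obtain ⟨a1, a2, a3, a4, a5, a6, a7⟩ := hok j hj'
    have d1 : (j₁ : ℝ) ≤ j := by exact_mod_cast (Finset.mem_Ico.mp hj').1
    have hj0 : (0 : ℝ) < j := by linarith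
    have h5 := a7 m (hm.trans (pow_le_pow_left₀ (by linarith) d1 B)) h f hf
    have e3 : (∑ p ∈ Finset.Icc 1 ⌊3 * rexp (j : ℝ)⌋₊, obx χ 1 (rexp j) p * f (p : ZMod m)) /
        (j * Jx χ 1 (rexp j)) - 1 / j * mu χ h f (-1) =
        (∑ p ∈ Finset.Icc 1 ⌊3 * rexp (j : ℝ)⌋₊, obx χ 1 (rexp j) p * f (p : ZMod m) -
          Jx χ 1 (rexp j) * mu χ h f (-1)) / (j * Jx χ 1 (rexp j)) := by
      field_simp
    rw [e3, abs_div, abs_of_pos (by positivity : 0 < (j : ℝ) * Jx χ 1 (rexp j)),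
      div_le_iff₀ (by positivity)]
    refine h5.trans ?_
    have h6 : Jx χ 1 (rexp j) / j ≤ Jx χ 1 (rexp j) / j₁ :=
      div_le_div_of_nonneg_left a5.le (by linarith) d1
    refine h6.trans (le_of_eq ?_)
    field_simp

end Pool.Agent.MP0016c7.Ros
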