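import Mathlib
import Pool.Agent.Lib.MP_0016c7_nt.EvMi
import Pool.Agent.Lib.MP_0016c7_nt.EvPnt

open Real Filter

namespace Pool.Agent.MP0016c7.Ros

variable {N : ℕ} [NeZero N] {χ : DirichletCharacter ℂ N}

/-- size of a harmonic block -/
lemma mb_ge {M₀ a Λ : ℝ} (hM₀ : 0 ≤ M₀) (ha : 0 < a)
    (hΛ : 2 * (1 + rexp M₀) ≤ a * Λ) :
    M₀ ≤ mb ⌈rexp (-(M₀ + 1)) * a * Λ⌉₊ ⌊a * Λ⌋₊ ∧
      ⌈rexp (-(M₀ + 1)) * a * Λ⌉₊ ≤ ⌊a * Λ⌋₊ := by
  have hE : 1 ≤ rexp M₀ := one_le_exp hM₀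
  have haΛ : 0 < a * Λ := by linarith
  have hr : rexp (-(M₀ + 1)) * rexp M₀ = rexp (-1) := by
    rw [← exp_add]; congr 1; ring
  have he : rexp (-1) ≤ 1 / 2 := by
    rw [exp_neg, one_div]
    have : 2 ≤ rexp 1 := by linarith [add_one_le_exp (1 : ℝ)]
    exact inv_anti₀ (by norm_num) this
  set j₁ := ⌈rexp (-(M₀ + 1)) * a * Λ⌉₊ with hj1
  set j₂ := ⌊a * Λ⌋₊ with hj2
  have h1 : (j₁ : ℝ) < rexp (-(M₀ + 1)) * a * Λ + 1 := Nat.ceil_lt_add_one (by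
    rw [mul_assoc]; positivity)
  have h2 : a * Λ < j₂ + 1 := Nat.lt_floor_add_one _
  have hj1pos : 0 < j₁ := by
    rw [hj1]; apply Nat.ceil_pos.mpr
    rw [mul_assoc]; positivity
  have hj1R : (0 : ℝ) < j₁ := by exact_mod_cast hj1pos
  have h3 : rexp M₀ * j₁ ≤ j₂ := by
    have h4 : rexp M₀ * j₁ ≤ rexp M₀ * (rexp (-(M₀ + 1)) * a * Λ + 1) :=
      mul_le_mul_of_nonneg_left h1.le (exp_pos _).le
    have h5 : rexp M₀ * (rexp (-(M₀ + 1)) * a * Λ + 1) = rexp (-1) * (a * Λ) + rexp M₀ := by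
      have : rexp M₀ * (rexp (-(M₀ + 1)) * a * Λ + 1) =
        (rexp (-(M₀ + 1)) * rexp M₀) * (a * Λ) + rexp M₀ := by ring
      rw [this, hr]
    have h6 : rexp (-1) * (a * Λ) ≤ 1 / 2 * (a * Λ) := mul_le_mul_of_nonneg_right he haΛ.le
    linarith
  have h12 : j₁ ≤ j₂ := by
    have : (j₁ : ℝ) ≤ j₂ := by nlinarith
    exact_mod_cast this
  refine ⟨?_, h12⟩
  have h7 := harm_ge_log hj1pos h12
  have h8 : M₀ + Real.log j₁ ≤ Real.log j₂ := by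
    have : M₀ + Real.log j₁ = Real.log (rexp M₀ * j₁) := by
      rw [Real.log_mul (exp_pos _).ne' hj1R.ne', log_exp]
    rw [this]
    exact Real.log_le_log (by positivity) h3
  unfold mb
  linarith

/-- class means of the harmonic block -/
lemma cls_mean (h2 : χ ^ 2 = 1) (hne : χ ≠ 1) (he : χ.Even) {Λ μ η j : ℝ} {β : ℕ → ℝ}
    (hμ : 0 ≤ μ) (hj : 0 < j) (hjη : (N : ℝ) ^ 2 / j ≤ η)
    {b : ℕ} (hb : 0 < b)
    (hm : ∀ [NeZero (N * b)], ∀ f : ZMod (N * b) → ℝ,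
      (∀ a, |f a| ≤ 1) → |∑ p ∈ iP χ Λ, β p * f (p : ZMod (N * b)) -
      μ * mu χ (dvd_mul_right N b) f (-1)| ≤ μ / j) (a : ℤ) :
    |∑ p ∈ iP χ Λ, β p * Gf χ b (p * a) - μ * Mc2 χ b a (-1)| ≤ μ * η := by
  have hN := modulus_ne_one hne
  have hN0 : (0 : ℝ) < N := by exact_mod_cast NeZero.pos N
  have hN2 : (0 : ℝ) < (N : ℝ) ^ 2 := by positivity
  have : NeZero b := ⟨hb.ne'⟩
  have key := hm (fun c : ZMod (N * b) => Gf χ b (c.val * a) / N ^ 2) (by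
      intro c
      rw [abs_div, abs_of_pos hN2, div_le_one hN2]
      exact abs_Gf_le hne he _ _)
  rw [Mc2_mu h2 hN] at key
  have e1 : ∀ p : ℕ, Gf χ b (((p : ZMod (N * b)).val : ℤ) * a) = Gf χ b (p * a) := by
    intro p
    apply Gf_congr
    apply Int.ModEq.mul_right
    rw [ZMod.val_natCast, Int.natCast_modEq_iff]
    exact (Nat.mod_modEq p (N * b)).of_mul_left N
  simp only [e1] at key
  have e2 : ∑ p ∈ iP χ Λ, β p * (Gf χ b (p * a) / N ^ 2) - μ * (Mc2 χ b a (-1) / N ^ 2) =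
      (∑ p ∈ iP χ Λ, β p * Gf χ b (p * a) - μ * Mc2 χ b a (-1)) / N ^ 2 := by
    rw [sub_div, Finset.sum_div]
    congr 1
    · apply Finset.sum_congr rfl
      intro p _
      ring
    · ring
  rw [e2, abs_div, abs_of_pos hN2, div_le_iff₀ hN2] at key
  refine key.trans ?_
  have : μ / j * (N : ℝ) ^ 2 = μ * (N ^ 2 / j) := by ring
  rw [this]
  exact mul_le_mul_of_nonneg_left hjη hμ

end Pool.Agent.MP0016c7.Ros
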