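import Mathlib
import Pool.Agent.Lib.MP_0016c7_nt.CdlEE
import Pool.Agent.Lib.MP_0016c7_nt.RosGood2
import Pool.Agent.Lib.MP_0016c7_nt.RosLow2

open Real Set MeasureTheory Filter Topology

namespace Pool.Agent.MP0016c7.Ros

variable {P : ℝ → Finset ℕ} {C₀ : ℝ} {C₁ Cs : ℝ → ℝ}

lemma geo_half {τ : ℝ} (hτ : 1 / 2 ≤ τ) (k : ℕ) :
    ∑ j ∈ Finset.range k, rexp (-τ) ^ j ≤ 8 / 3 ∧ rexp (-τ) ≤ 5 / 8 := by
  have h1 : rexp (-τ) ≤ 5 / 8 := by
    have h2 : rexp (-τ) ≤ rexp (-(1 / 2)) := exp_le_exp.mpr (by linarith)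
    refine h2.trans ?_
    have h3 : rexp (-(1 / 2)) ^ 2 = rexp (-1) := by
      rw [← exp_nat_mul]; congr 1; norm_num
    have h4 : rexp (-1) ≤ (5 / 8) ^ 2 := by
      have := Real.exp_neg_one_lt_d9
      norm_num at this ⊢
      linarith
    rw [← h3] at h4
    exact le_of_sq_le_sq h4 (by norm_num)
  refine ⟨?_, h1⟩
  calc ∑ j ∈ Finset.range k, rexp (-τ) ^ j ≤ ∑ j ∈ Finset.range k, (5 / 8 : ℝ) ^ j := by
        apply Finset.sum_le_sum
        intro j _
        exact pow_le_pow_left₀ (exp_pos _).le h1 j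
    _ ≤ 8 / 3 := by
        rw [geom_sum_eq (by norm_num)]
        have h0 : (0 : ℝ) ≤ (5 / 8) ^ k := by positivity
        have h2 : (((5 : ℝ) / 8) ^ k - 1) / (5 / 8 - 1) = 8 / 3 * (1 - (5 / 8) ^ k) := by
          ring
        rw [h2]
        linarith

/-- sums of translates of the exponential kernel -/
lemma kt_window {τ : ℝ} (hτ : 1 / 2 ≤ τ) (W s : ℝ) (m : ℕ) :
    ∑ j ∈ Finset.range m, kt τ (W + (j + 1) - s) ≤
      3 * (if W ≤ s ∧ s ≤ W + m then 1 else 0) + 2 * kt τ (W - s) := by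
  obtain ⟨hgeo, h58⟩ := geo_half hτ m
  have hτ0 : 0 ≤ τ := by linarith
  have hk0 := kt_nonneg τ (W - s)
  rcases le_or_gt W s with hs | hs
  · rcases le_or_gt s (W + m) with hs2 | hs2
    · rw [if_pos ⟨hs, hs2⟩]
      set d := ⌈s - W - 1⌉₊ with hd
      have hterm : ∀ j ∈ Finset.range m, kt τ (W + (j + 1) - s) ≤
          if d ≤ j then rexp (-τ) ^ (j - d) else 0 := by
        intro j _
        unfold kt
        split_ifs with h6 h7 h7
        · rw [← exp_nat_mul, exp_le_exp]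
          have h8 : s - W - 1 ≤ d := Nat.le_ceil _
          rw [Nat.cast_sub h7]
          have h9 : (j : ℝ) - d ≤ W + (j + 1) - s := by
            rcases Nat.eq_zero_or_pos d with h9 | h9
            · rw [h9]
              simp only [Nat.cast_zero, sub_zero]
              rw [h9] at h8
              simp only [Nat.cast_zero] at h8
              linarith
            · have h10 : (d : ℝ) < s - W - 1 + 1 := Nat.ceil_lt_add_one (by
                by_contra hcon
                rw [not_le] at hcon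
                have : d = 0 := Nat.ceil_eq_zero.mpr hcon.le
                omega)
              linarith
          have := mul_le_mul_of_nonneg_left h9 hτ0
          linarith
        · exfalso
          apply h7
          rw [hd, Nat.ceil_le]
          linarith
        · positivity
        · exact le_rfl
      have h7 : ∑ j ∈ Finset.range m, (if d ≤ j then rexp (-τ) ^ (j - d) else 0) ≤ 8 / 3 := by
        rw [← Finset.sum_filter]
        have h8 : (Finset.range m).filter (fun j => d ≤ j) = Finset.Ico d m := by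
          ext j
          simp [Finset.mem_filter, Finset.mem_range, Finset.mem_Ico, and_comm]
        rw [h8, Finset.sum_Ico_eq_sum_range]
        simp only [Nat.add_sub_cancel_left]
        exact (geo_half hτ _).1
      have := (Finset.sum_le_sum hterm).trans h7
      linarith
    · have : ∑ j ∈ Finset.range m, kt τ (W + (j + 1) - s) = 0 := by
        apply Finset.sum_eq_zero
        intro j hj
        have hj' : (j : ℝ) + 1 ≤ m := by exact_mod_cast Finset.mem_range.mp hj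
        unfold kt
        rw [if_neg (by linarith)]
      rw [this]
      have : (0 : ℝ) ≤ (if W ≤ s ∧ s ≤ W + m then 1 else 0) := by split_ifs <;> norm_num
      linarith
  · rw [if_neg (fun h => absurd h.1 (not_le.mpr hs)), mul_zero, zero_add]
    have h6 : ∀ j ∈ Finset.range m, kt τ (W + (j + 1) - s) =
        rexp (-τ) * rexp (-τ) ^ j * kt τ (W - s) := by
      intro j _
      unfold kt
      have hj0 : (0 : ℝ) ≤ j := Nat.cast_nonneg j
      rw [if_pos (by linarith), if_pos (by linarith), ← exp_nat_mul, ← exp_add, ← exp_add]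
      congr 1
      ring
    rw [Finset.sum_congr rfl h6, ← Finset.sum_mul, ← Finset.mul_sum]
    have h7 : rexp (-τ) * ∑ j ∈ Finset.range m, rexp (-τ) ^ j ≤ 5 / 8 * (8 / 3) :=
      mul_le_mul h58 hgeo (Finset.sum_nonneg fun j _ => by positivity) (by norm_num)
    nlinarith

/-- windows from above -/
lemma win_le (P : ℝ → Finset ℕ) {σ Λ z D : ℝ} (hD : ∀ y, z ≤ y → al P 1 σ Λ y ≤ D) (hD0 : 0 ≤ D)
    {w : ℝ} (hw : 0 ≤ w) :
    Ef (P Λ) (xs σ) lg (fun s => if z ≤ s ∧ s ≤ z + w then 1 else 0) ≤ (w + 1) * (rexp 1 * D) := by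
  classical
  set n := ⌊w⌋₊ with hn
  have h1 : Ef (P Λ) (xs σ) lg (fun s => if z ≤ s ∧ s ≤ z + w then 1 else 0) ≤
      Ef (P Λ) (xs σ) lg (fun s => ∑ j ∈ Finset.range (n + 1),
        rexp 1 * kt 1 (z + (j + 1) - s)) := by
    apply Ef_mono (fun p => xs_pos σ p)
    intro s
    have hnn : ∀ j ∈ Finset.range (n + 1), 0 ≤ rexp 1 * kt 1 (z + (j + 1) - s) := fun j _ =>
      mul_nonneg (exp_pos _).le (kt_nonneg _ _)
    split_ifs with h
    · obtain ⟨h1, h2⟩ := h
      set j := ⌊s - z⌋₊ with hj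
      have hy0 : 0 ≤ s - z := by linarith
      have hj1 : (j : ℝ) ≤ s - z := Nat.floor_le hy0
      have hj2 : s - z < j + 1 := Nat.lt_floor_add_one _
      have hjn : j ≤ n := Nat.floor_le_floor (by linarith)
      refine le_trans ?_ (Finset.single_le_sum hnn (Finset.mem_range.mpr (by omega : j < n + 1)))
      unfold kt
      rw [if_pos (by linarith), ← exp_add]
      apply one_le_exp
      linarith
    · exact Finset.sum_nonneg hnn
  refine h1.trans ?_
  have h2 : Ef (P Λ) (xs σ) lg (fun s => ∑ j ∈ Finset.range (n + 1),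
      rexp 1 * kt 1 (z + (j + 1) - s)) =
      ∑ j ∈ Finset.range (n + 1), rexp 1 * al P 1 σ Λ (z + (j + 1)) := by
    rw [Ef_sum (P := P Λ) (x := xs σ) (l := lg) (Finset.range (n + 1)) (fun _ => rexp 1)
      (fun (j : ℕ) s => kt 1 (z + (j + 1) - s))]
    rfl
  rw [h2]
  calc _ ≤ ∑ _j ∈ Finset.range (n + 1), rexp 1 * D := by
        refine Finset.sum_le_sum fun j _ => mul_le_mul_of_nonneg_left (hD _ ?_) (exp_pos _).le
        have : (0 : ℝ) ≤ j := Nat.cast_nonneg j
        linarith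
    _ = (n + 1) * (rexp 1 * D) := by
        rw [Finset.sum_const, Finset.card_range, nsmul_eq_mul]; push_cast; ring
    _ ≤ (w + 1) * (rexp 1 * D) := by
        apply mul_le_mul_of_nonneg_right _ (by positivity)
        have := Nat.floor_le hw
        linarith

namespace MDat

variable (hM : MDat P C₀ C₁ Cs)
include hM

/-- the density at tilt one -/
lemma UB1 : ∃ D : ℝ, 0 < D ∧ ∃ Λ₀ : ℝ, 1 ≤ Λ₀ ∧ ∀ Λ τ y : ℝ, Λ₀ ≤ Λ → 1 / 2 ≤ τ → τ ≤ 1 →
    0 < y → al P τ 1 Λ y ≤ D / y := by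
  obtain ⟨D, hD, Λ₀, hΛ₀, h⟩ := hM.UBa (τ₀ := 1 / 2) (σ₂ := 1) (by norm_num) one_pos
  have hC0 := hM.C0
  refine ⟨D * 9, by positivity, Λ₀ + 16 * C₀, by linarith, fun Λ τ y hΛ hτ hτ1 hy => ?_⟩
  have hΛ0 : 0 < Λ := by linarith
  refine (h 1 Λ τ y le_rfl le_rfl (by linarith) hτ hτ1 hy).trans ?_
  apply div_le_div_of_nonneg_right _ hy.le
  apply mul_le_mul_of_nonneg_left _ hD.le
  unfold RR
  have h1 := hM.XX_le (σ := 1) (Λ := Λ) le_rfl (by linarith)
  have h2 := hM.VV_ge (σ := 1) (Λ := Λ) zero_le_one le_rfl (by linarith)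
  rw [sub_self, zero_mul, exp_zero, one_mul] at h1
  rw [sub_self, zero_mul, zero_div, exp_zero, mul_one] at h2
  have h3 : Λ / 8 ≤ √(VV P 1 Λ) := by
    apply Real.le_sqrt_of_sq_le
    refine le_trans (le_of_eq ?_) h2
    ring
  have h4 : XX P 1 Λ / √(VV P 1 Λ) ≤ 8 := by
    rw [div_le_iff₀ (by linarith [show 0 < Λ / 8 by positivity])]
    linarith
  linarith

/-- mass far to the right at tilt one -/
lemma tail_one {U : ℝ} (hU : 1 ≤ U) : ∃ c : ℝ, 0 < c ∧ ∃ Λ₀ : ℝ, 1 ≤ Λ₀ ∧ ∀ Λ : ℝ, Λ₀ ≤ Λ →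
    c ≤ Ef (P Λ) (xs 1) lg (fun s => if U * Λ ≤ s then 1 else 0) := by
  have hC0 := hM.C0
  obtain ⟨c, hc, Λ₁, hΛ₁, hlow⟩ := hM.low (V₀ := U) hU
  obtain ⟨D, hD, Λ₂, hΛ₂, hUB⟩ := hM.UB1
  refine ⟨c / 12, by positivity, Λ₁ + Λ₂ + 8 * (4 * C₀ + 1) + 16 * D / c, by
    have : 0 ≤ 16 * D / c := by positivity
    linarith, fun Λ hΛ => ?_⟩
  have hDc : 0 ≤ 16 * D / c := by positivity
  have hΛ0 : 0 < Λ := by linarith
  have hΛ1 : 1 ≤ Λ := by linarith
  have hUΛ : Λ ≤ U * Λ := by nlinarith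
  set m := ⌊Λ⌋₊ with hm
  have hm1 : Λ / 2 ≤ m := by
    have h1 : Λ < m + 1 := Nat.lt_floor_add_one Λ
    have h2 : (1 : ℝ) ≤ m := by
      have : 1 ≤ m := by rw [hm, Nat.one_le_floor_iff]; exact hΛ1
      exact_mod_cast this
    linarith
  have hmΛ : (m : ℝ) ≤ Λ := Nat.floor_le hΛ0.le
  have h1 : c / 2 ≤ ∑ j ∈ Finset.range m, al P 1 1 Λ (U * Λ + (j + 1)) := by
    calc c / 2 = Λ / 2 * (c / Λ) := by field_simp
      _ ≤ m * (c / Λ) := mul_le_mul_of_nonneg_right hm1 (by positivity)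
      _ = ∑ _j ∈ Finset.range m, c / Λ := by
          rw [Finset.sum_const, Finset.card_range, nsmul_eq_mul]
      _ ≤ _ := by
          apply Finset.sum_le_sum
          intro j hj
          have hj' : (j : ℝ) + 1 ≤ m := by exact_mod_cast Finset.mem_range.mp hj
          have hj0 : (0 : ℝ) ≤ j := Nat.cast_nonneg j
          exact hlow Λ 1 _ (by linarith) zero_le_one le_rfl (by linarith) (by nlinarith)
  have h2 : ∑ j ∈ Finset.range m, al P 1 1 Λ (U * Λ + (j + 1)) ≤
      3 * Ef (P Λ) (xs 1) lg (fun s => if U * Λ ≤ s then 1 else 0) + 2 * al P 1 1 Λ (U * Λ) := by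
    have e1 : ∑ j ∈ Finset.range m, al P 1 1 Λ (U * Λ + (j + 1)) =
        Ef (P Λ) (xs 1) lg (fun s => ∑ j ∈ Finset.range m, 1 * kt 1 (U * Λ + (j + 1) - s)) := by
      rw [Ef_sum (Finset.range m) (fun _ => 1) (fun (j : ℕ) s => kt 1 (U * Λ + (j + 1) - s))]
      apply Finset.sum_congr rfl
      intro j _
      rw [one_mul]
      rfl
    rw [e1]
    unfold al
    rw [← Ef_const_mul, ← Ef_const_mul, ← Ef_add]
    apply Ef_mono (fun p => xs_pos 1 p)
    intro s
    simp only [one_mul]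
    refine (kt_window (by norm_num) (U * Λ) s m).trans ?_
    have : (if U * Λ ≤ s ∧ s ≤ U * Λ + m then (1 : ℝ) else 0) ≤ if U * Λ ≤ s then 1 else 0 := by
      split_ifs with a1 a2 a2
      · exact le_rfl
      · exact absurd a1.1 a2
      · exact zero_le_one
      · exact le_rfl
    linarith
  have h5 := hUB Λ 1 (U * Λ) (by linarith) (by norm_num) le_rfl (by nlinarith)
  have h6 : D / (U * Λ) ≤ c / 16 := by
    rw [div_le_iff₀ (by nlinarith)]
    have h7 : 16 * D / c ≤ Λ := by linarith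
    rw [div_le_iff₀ hc] at h7
    nlinarith
  linarith

/-- harmonic mass of the primes above `exp (Λ / 2 ^ n)` -/
lemma inv_blocks (n : ℕ) {Λ : ℝ} (hΛ : 16 * C₀ * 2 ^ n ≤ Λ) (hΛ0 : 0 < Λ) :
    (n : ℝ) / 8 ≤ ∑ p ∈ P Λ with ¬ (lg p ≤ Λ / 2 ^ n), xs 1 p := by
  have hC0 := hM.C0
  induction n with
  | zero =>
    rw [Nat.cast_zero, zero_div]
    exact Finset.sum_nonneg fun p _ => (xs_pos 1 p).le
  | succ n ih =>
    have hp : (0 : ℝ) < 2 ^ n := by positivity
    have h0 : 16 * C₀ * 2 ^ n ≤ Λ := by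
      rw [pow_succ] at hΛ
      have : 0 ≤ 16 * C₀ * 2 ^ n := by positivity
      linarith
    have ih' := ih h0
    set u := Λ / 2 ^ n with hu
    have hu0 : 0 < u := by positivity
    have hv : Λ / 2 ^ (n + 1) = u / 2 := by rw [hu, pow_succ]; field_simp
    have huC : 16 * C₀ ≤ u / 2 := by
      rw [← hv, le_div_iff₀ (by positivity)]
      exact hΛ
    rw [hv]
    have huΛ : u ≤ Λ := by
      rw [hu]
      exact div_le_self hΛ0.le (one_le_pow₀ (by norm_num))
    have hblk := hM.blk_t0 (u := u) (v := u / 2) (by positivity) (by linarith)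
    have h1 : 1 / 8 ≤ ∑ p ∈ P u with ¬ (lg p ≤ u / 2), xs 1 p := by
      have h2 : ∑ p ∈ P u with ¬ (lg p ≤ u / 2), lg p / p ≤
          u * ∑ p ∈ P u with ¬ (lg p ≤ u / 2), xs 1 p := by
        rw [Finset.mul_sum]
        apply Finset.sum_le_sum
        intro p hp
        rw [Finset.mem_filter] at hp
        rw [xs_one (hM.prime u p hp.1).pos, mul_one_div]
        exact div_le_div_of_nonneg_right (hM.le u p hp.1) (Nat.cast_nonneg p)
      have h3 : u / 8 ≤ u * ∑ p ∈ P u with ¬ (lg p ≤ u / 2), xs 1 p := by linarith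
      have h4 : u * (1 / 8) ≤ u * ∑ p ∈ P u with ¬ (lg p ≤ u / 2), xs 1 p := by linarith
      exact le_of_mul_le_mul_left h4 hu0
    have h5 : ∑ p ∈ P Λ with ¬ (lg p ≤ u / 2), xs 1 p =
        ∑ p ∈ P u with ¬ (lg p ≤ u / 2), xs 1 p + ∑ p ∈ P Λ with ¬ (lg p ≤ u), xs 1 p := by
      rw [hM.mem Λ u huΛ, ← Finset.sum_filter_add_sum_filter_not
        ((P Λ).filter fun p => ¬ (lg p ≤ u / 2)) (fun p => lg p ≤ u), Finset.filter_filter,
        Finset.filter_filter, Finset.filter_filter]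
      congr 1
      · apply Finset.sum_congr _ fun _ _ => rfl
        ext p
        simp only [Finset.mem_filter]
        tauto
      · apply Finset.sum_congr _ fun _ _ => rfl
        ext p
        simp only [Finset.mem_filter, not_le]
        constructor
        · rintro ⟨a, _, c⟩; exact ⟨a, c⟩
        · rintro ⟨a, c⟩; exact ⟨a, by linarith, c⟩
    rw [h5]
    push_cast
    linarith

end MDat

/-- the empty event -/
lemma EE_disjoint {Q : Finset ℕ} {x : ℕ → ℝ} (hx : ∀ p, 0 < x p) (hx1 : ∀ p ∈ Q, x p ≤ 1)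
    {T : Finset ℕ} (hT : T ⊆ Q) :
    EE Q x (fun A => if Disjoint A T then 1 else 0) ≤ rexp (-((∑ p ∈ T, x p) / 2)) := by
  classical
  have e1 : EE Q x (fun A => if Disjoint A T then (1 : ℝ) else 0) =
      EE Q x (fun A => ∏ p ∈ Q, if p ∈ A then (if p ∈ T then 0 else 1) else 1) := by
    apply EE_congr
    intro A hA
    split_ifs with h
    · symm
      apply Finset.prod_eq_one
      intro p _
      by_cases h1 : p ∈ A
      · have h2 : p ∉ T := fun h3 => (Finset.disjoint_left.mp h) h1 h3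
        rw [if_pos h1, if_neg h2]
      · rw [if_neg h1]
    · symm
      rw [Finset.not_disjoint_iff] at h
      obtain ⟨p, h1, h2⟩ := h
      apply Finset.prod_eq_zero (hA h1)
      rw [if_pos h1, if_pos h2]
  rw [e1, EE_prod]
  have h1 : ∏ p ∈ Q, ((x p * (if p ∈ T then 0 else 1) + 1) / (1 + x p)) =
      ∏ p ∈ T, (1 / (1 + x p)) := by
    rw [← Finset.prod_sdiff hT]
    have h2 : ∏ p ∈ Q \ T, ((x p * (if p ∈ T then 0 else 1) + 1) / (1 + x p)) = 1 := by
      apply Finset.prod_eq_one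
      intro p hp
      rw [Finset.mem_sdiff] at hp
      have := hx p
      rw [if_neg hp.2, mul_one, add_comm, div_self (by linarith)]
    rw [h2, one_mul]
    apply Finset.prod_congr rfl
    intro p hp
    rw [if_pos hp, mul_zero, zero_add]
  have h6 : rexp (-((∑ p ∈ T, x p) / 2)) = ∏ p ∈ T, rexp (-(x p / 2)) := by
    rw [← exp_sum, Finset.sum_neg_distrib, Finset.sum_div]
  rw [h1, h6]
  apply Finset.prod_le_prod
  · intro p _
    have := hx p
    positivity
  · intro p hp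
    have h2 := hx p
    have h3 := hx1 p (hT hp)
    have h4 := Real.add_one_le_exp (-(x p / 2))
    refine le_trans ?_ h4
    rw [div_le_iff₀ (by linarith)]
    nlinarith

namespace MDat

variable (hM : MDat P C₀ C₁ Cs)
include hM

/-- small sums are unlikely at tilt one -/
lemma small_ball (n : ℕ) {Λ : ℝ} (hΛ : 16 * C₀ * 2 ^ n ≤ Λ) (hΛ0 : 0 < Λ) :
    Ef (P Λ) (xs 1) lg (fun s => if s ≤ Λ / 2 ^ n then 1 else 0) ≤ rexp (-(n / 16)) := by
  classical
  set T := (P Λ).filter fun p => ¬ (lg p ≤ Λ / 2 ^ n) with hT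
  rw [Ef_eq_EE]
  have h1 : EE (P Λ) (xs 1) (fun A => if Sm lg A ≤ Λ / 2 ^ n then (1 : ℝ) else 0) ≤
      EE (P Λ) (xs 1) (fun A => if Disjoint A T then 1 else 0) := by
    apply EE_mono (fun p => xs_pos 1 p)
    intro A _
    split_ifs with a1 a2 a2
    · exact le_rfl
    · exfalso
      rw [Finset.not_disjoint_iff] at a2
      obtain ⟨p, h1, h2⟩ := a2
      rw [hT, Finset.mem_filter] at h2
      apply h2.2
      refine le_trans ?_ a1
      unfold Sm
      exact Finset.single_le_sum (fun q _ => lg_nonneg q) h1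
    · exact zero_le_one
    · exact le_rfl
  refine h1.trans ((EE_disjoint (fun p => xs_pos 1 p) (fun p _ => xs_le_one zero_le_one p)
    (Finset.filter_subset _ _)).trans ?_)
  rw [exp_le_exp]
  have := hM.inv_blocks n hΛ hΛ0
  rw [← hT] at this
  linarith

/-- **Small windows are unlikely at tilt one.** -/
theorem win_one {δ : ℝ} (hδ : 0 < δ) : ∃ ε : ℝ, 0 < ε ∧ ∃ Λ₀ : ℝ, 1 ≤ Λ₀ ∧ ∀ Λ z : ℝ, Λ₀ ≤ Λ →
    Ef (P Λ) (xs 1) lg (fun s => if z ≤ s ∧ s ≤ z + ε * Λ then 1 else 0) ≤ δ := by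
  have hC0 := hM.C0
  obtain ⟨D, hD, Λ₁, hΛ₁, hUB⟩ := hM.UB1
  obtain ⟨n, hn⟩ : ∃ n : ℕ, rexp (-((n : ℝ) / 16)) ≤ δ := by
    have h1 : Tendsto (fun n : ℕ => rexp (-((n : ℝ) / 16))) atTop (𝓝 0) := by
      apply Real.tendsto_exp_neg_atTop_nhds_zero.comp
      exact tendsto_natCast_atTop_atTop.atTop_div_const (by norm_num)
    obtain ⟨n, hn⟩ := (h1.eventually (gt_mem_nhds hδ)).exists
    exact ⟨n, hn.le⟩
  set θ : ℝ := 1 / 2 ^ (n + 1) with hθ
  have hθ0 : 0 < θ := by positivity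
  set ε : ℝ := min θ (δ * θ / (6 * rexp 1 * D)) with hε
  have hε0 : 0 < ε := lt_min hθ0 (by positivity)
  have hε1 : ε ≤ θ := min_le_left _ _
  have hε2 : ε * (6 * rexp 1 * D) ≤ δ * θ := by
    have : ε ≤ δ * θ / (6 * rexp 1 * D) := min_le_right _ _
    rwa [le_div_iff₀ (by positivity)] at this
  refine ⟨ε, hε0, Λ₁ + 16 * C₀ * 2 ^ n + 1 / ε, by
    have : 0 ≤ 16 * C₀ * 2 ^ n + 1 / ε := by positivity
    linarith, fun Λ z hΛ => ?_⟩
  have hp1 : 0 ≤ 16 * C₀ * 2 ^ n := by positivity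
  have hp2 : 0 < 1 / ε := by positivity
  have hΛ0 : 0 < Λ := by linarith
  have hεΛ : 1 ≤ ε * Λ := by
    have : 1 / ε ≤ Λ := by linarith
    rwa [div_le_iff₀ hε0, mul_comm] at this
  rcases le_total z (θ * Λ) with hz | hz
  · refine le_trans ?_ ((hM.small_ball n (Λ := Λ) (by linarith) hΛ0).trans hn)
    apply Ef_mono (fun p => xs_pos 1 p)
    intro s
    have h1 : Λ / 2 ^ n = θ * Λ + θ * Λ := by rw [hθ, pow_succ]; field_simp; norm_num
    have h2 : ε * Λ ≤ θ * Λ := mul_le_mul_of_nonneg_right hε1 hΛ0.le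
    rw [h1]
    split_ifs with a1 a2 a2
    · exact le_rfl
    · exact absurd (by linarith [a1.2]) a2
    · exact zero_le_one
    · exact le_rfl
  · have hz0 : 0 < θ * Λ := by positivity
    refine (win_le P (D := D / (θ * Λ)) (fun y hy => ?_) (by positivity) (by positivity)).trans ?_
    · refine (hUB Λ 1 y (by linarith) (by norm_num) le_rfl (by linarith)).trans ?_
      exact div_le_div_of_nonneg_left hD.le hz0 (by linarith)
    · have h1 : (ε * Λ + 1) * (rexp 1 * (D / (θ * Λ))) ≤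
          (2 * (ε * Λ)) * (rexp 1 * (D / (θ * Λ))) :=
        mul_le_mul_of_nonneg_right (by linarith) (by positivity)
      refine h1.trans ?_
      have h2 : (2 * (ε * Λ)) * (rexp 1 * (D / (θ * Λ))) = (ε * (2 * rexp 1 * D)) / θ := by
        field_simp
      rw [h2, div_le_iff₀ hθ0]
      have : 0 ≤ ε * (rexp 1 * D) := by positivity
      nlinarith

/-- Markov bound at tilt one -/
lemma markov_one {Λ : ℝ} (hΛ : 1 ≤ Λ) (hΛC : 2 * C₀ ≤ Λ) :
    Ef (P Λ) (xs 1) lg (fun s => if Λ ^ 2 ≤ s then 1 else 0) ≤ 1 / Λ := by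
  have hΛ0 : 0 < Λ := by linarith
  have h1 : Ef (P Λ) (xs 1) lg (fun s => if Λ ^ 2 ≤ s then 1 else 0) ≤
      Ef (P Λ) (xs 1) lg (fun s => (1 / Λ ^ 2) * s) := by
    apply Ef_mono_nonneg (fun p => xs_pos 1 p) (fun p => lg_nonneg p)
    intro s hs
    split_ifs with h
    · rw [one_div_mul_eq_div, le_div_iff₀ (by positivity), one_mul]; exact h
    · positivity
  refine h1.trans ?_
  rw [Ef_const_mul, Ef_id (fun p => xs_pos 1 p) (fun p hp => by
    rw [xs_one (hM.prime Λ p hp).pos, div_lt_one (by exact_mod_cast (hM.prime Λ p hp).pos)]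
    exact_mod_cast (hM.prime Λ p hp).one_lt)]
  have h2 := hM.XX_le (σ := 1) (Λ := Λ) le_rfl hΛC
  rw [sub_self, zero_mul, exp_zero, one_mul] at h2
  have h3 : Xm (P Λ) (xs 1) lg ≤ Λ := h2
  calc 1 / Λ ^ 2 * Xm (P Λ) (xs 1) lg ≤ 1 / Λ ^ 2 * Λ :=
        mul_le_mul_of_nonneg_left h3 (by positivity)
    _ = 1 / Λ := by field_simp

end MDat

end Pool.Agent.MP0016c7.Ros
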