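import Mathlib
import Pool.Agent.Lib.MP_0016c7_nt.CdlPack
import Pool.Agent.Lib.MP_0016c7_nt.EvTop2
import Pool.Agent.Lib.MP_0016c7_nt.EvTop4
import Pool.Agent.Lib.MP_0016c7_nt.EvTop6
import Pool.Agent.Lib.MP_0016c7_nt.EvWin

open Real Filter

namespace Pool.Agent.MP0016c7.Ros

variable {N : ℕ} [NeZero N] {χ : DirichletCharacter ℂ N}

lemma lo_size {j : ℕ} {a Λ : ℝ} (hj : a * Λ ≤ j) (ha : 4 ≤ a * Λ) :
    rexp (a / 2 * Λ) ≤ ⌊rexp ((j : ℝ) - 1)⌋₊ ∧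
      rexp (a / 2 * Λ) ≤ 6 * (⌊rexp ((j : ℝ) - 1)⌋₊ * rexp (-(j / 2))) := by
  set l := ⌊rexp ((j : ℝ) - 1)⌋₊ with hl
  have h1 : rexp ((j : ℝ) - 1) < l + 1 := Nat.lt_floor_add_one _
  have h2 : 2 ≤ rexp 1 := by linarith [add_one_le_exp (1 : ℝ)]
  have h3 : rexp ((j : ℝ) - 1) = rexp (j / 2) * rexp (j / 2 - 1) := by
    rw [← exp_add]; congr 1; ring
  have h4 : rexp (a / 2 * Λ) ≤ rexp (j / 2) := exp_le_exp.mpr (by linarith)
  have h5 : rexp 1 ≤ rexp ((j : ℝ) / 2 - 1) := exp_le_exp.mpr (by linarith)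
  have h6 : 1 ≤ rexp (a / 2 * Λ) := one_le_exp (by linarith)
  have h7 : rexp (a / 2 * Λ) * 2 ≤ rexp ((j : ℝ) - 1) := by
    rw [h3]
    exact mul_le_mul h4 (h2.trans h5) (by norm_num) (exp_pos _).le
  constructor
  · linarith
  · have h8 : rexp ((j : ℝ) - 1) ≤ 2 * l := by
      have : 1 ≤ rexp ((j : ℝ) - 1) := by linarith
      have h9 : (1 : ℝ) ≤ l := by linarith
      linarith
    have h9 : rexp ((j : ℝ) - 1) * rexp (-(j / 2)) = rexp (j / 2) * rexp (-1) := by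
      rw [← exp_add, ← exp_add]; congr 1; ring
    have h10 : 1 / 3 ≤ rexp (-1) := by
      rw [exp_neg, ← one_div]
      apply one_div_le_one_div_of_le (exp_pos _)
      linarith [exp_one_lt_d9]
    have h11 : rexp ((j : ℝ) - 1) * rexp (-(j / 2)) ≤ 2 * l * rexp (-(j / 2)) :=
      mul_le_mul_of_nonneg_right h8 (exp_pos _).le
    have h12 : rexp (a / 2 * Λ) * (1 / 3) ≤ rexp (j / 2) * rexp (-1) :=
      mul_le_mul h4 h10 (by norm_num) (exp_pos _).le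
    rw [h9] at h11
    linarith only [h11, h12]

lemma hi_size {j : ℕ} : lg (⌊rexp (j : ℝ)⌋₊ + 1) ≤ j + 1 := by
  unfold lg
  have h1 : (⌊rexp (j : ℝ)⌋₊ : ℝ) ≤ rexp j := Nat.floor_le (exp_pos _).le
  have h2 : 1 ≤ rexp (j : ℝ) := one_le_exp (Nat.cast_nonneg _)
  rw [Real.log_le_iff_le_exp (by positivity)]
  push_cast
  rw [exp_add]
  have h3 : 2 ≤ rexp 1 := by linarith [add_one_le_exp (1 : ℝ)]
  nlinarith

/-- **Existence of the parameters.** -/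
theorem exists_EP (hSW : SWd) (h2 : χ ^ 2 = 1) (hne : χ ≠ 1) (he : χ.Even) {η : ℝ}
    (hη : 0 < η) {H : ℕ} (hH : 1 ≤ H) : ∃ Λ₀ : ℝ, 1 ≤ Λ₀ ∧ ∀ Λ : ℝ, Λ₀ ≤ Λ →
    ∃ (β₁ β₂ : ℕ → ℝ) (μ₁ μ₂ : ℝ) (l₁ h₁ l₂ h₂ D M Z : ℕ) (ρ L : ℝ),
      EP χ Λ η H β₁ β₂ μ₁ μ₂ l₁ h₁ l₂ h₂ D M Z ρ L := by
  classical
  obtain ⟨C₀, C₁, Cs, hM⟩ := exists_mdat χ h2 hne
  have hC0 := hM.C0
  obtain ⟨ε', hε', Λw, hΛw, hwin⟩ := hM.win_one hη
  obtain ⟨j₀, hj₀, hbb⟩ := bb_ok hSW h2 hne 10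
  have hNR : (1 : ℝ) ≤ N := by exact_mod_cast NeZero.pos N
  have hHR : (1 : ℝ) ≤ H := by exact_mod_cast hH
  -- scales
  set a₃ := min (ε' / 3) (1 / 4) with ha3
  have ha3p : 0 < a₃ := by rw [ha3]; positivity
  have ha3a : 3 * a₃ ≤ ε' := by
    have := min_le_left (ε' / 3) (1 / 4 : ℝ)
    rw [← ha3] at this
    linarith
  have ha3b : a₃ ≤ 1 / 4 := min_le_right _ _
  set M₀ := 115200 / η ^ 2 + 1 with hM0
  have hM0p : 1 ≤ M₀ := by rw [hM0]; have : 0 ≤ 115200 / η ^ 2 := by positivity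
                           linarith
  set r := rexp (-(M₀ + 1)) with hr
  have hr0 : 0 < r := exp_pos _
  have hr1 : r ≤ 1 / 2 := by
    rw [hr]
    have h1 : rexp (-(M₀ + 1)) ≤ rexp (-1) := exp_le_exp.mpr (by linarith)
    have h3 : rexp (-1) ≤ 1 / 2 := by
      rw [exp_neg, one_div]
      have : 2 ≤ rexp 1 := by linarith [add_one_le_exp (1 : ℝ)]
      exact inv_anti₀ (by norm_num) this
    linarith
  set a₂ := r * a₃ with ha2
  set a₁ := r * a₂ with ha1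
  have ha2p : 0 < a₂ := mul_pos hr0 ha3p
  have ha1p : 0 < a₁ := mul_pos hr0 ha2p
  have ha23 : a₂ ≤ a₃ := by rw [ha2]; nlinarith only [ha3p, ha3b, hr1]
  have ha12 : a₁ ≤ a₂ := by rw [ha1]; nlinarith only [hr0, ha23]
  -- the exponential condition
  set K : ℝ := 2 ^ 22 * H ^ 4 * (1 + 1 / η) + 2 * N ^ 2 / η + 12 * 14400 / η ^ 2 + 4 / η with hK
  obtain ⟨Λe, hΛe⟩ := (ev_pow_exp K 17 (half_pos ha1p)).exists_forall_of_atTop
  have hEM : 0 < rexp M₀ := exp_pos _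
  refine ⟨Λw + |Λe| + (j₀ + 4) / a₁ + 2 * (1 + rexp M₀) / a₂ + 1024 * N * H ^ 2 / a₁ ^ 10 +
    8 * 14400 ^ 2 / η ^ 2 + 1 / η + N ^ 2 / η / a₁ + 2 * C₀ + 4 / a₃, ?_, fun Λ hΛ => ?_⟩
  · have h1 : 0 ≤ |Λe| := abs_nonneg _
    have h3 : 0 ≤ (j₀ + 4) / a₁ := by positivity
    have h4 : 0 ≤ 2 * (1 + rexp M₀) / a₂ := by positivity
    have h5 : 0 ≤ 1024 * N * H ^ 2 / a₁ ^ 10 := by positivity
    have h6 : 0 ≤ 8 * 14400 ^ 2 / η ^ 2 := by positivity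
    have h7 : 0 ≤ 1 / η := by positivity
    have h8 : 0 ≤ N ^ 2 / η / a₁ := by positivity
    have h9 : 0 ≤ 4 / a₃ := by positivity
    linarith only [hC0, hΛw, h1, h3, h4, h5, h6, h7, h8, h9]
  have g1 : 0 ≤ |Λe| := abs_nonneg _
  have g3 : 0 ≤ (j₀ + 4) / a₁ := by positivity
  have g4 : 0 ≤ 2 * (1 + rexp M₀) / a₂ := by positivity
  have g5 : 0 ≤ 1024 * N * H ^ 2 / a₁ ^ 10 := by positivity
  have g6 : 0 ≤ 8 * 14400 ^ 2 / η ^ 2 := by positivity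
  have g7 : 0 ≤ 1 / η := by positivity
  have g8 : 0 ≤ N ^ 2 / η / a₁ := by positivity
  have g9 : 0 ≤ 4 / a₃ := by positivity
  have gC : 0 ≤ 2 * C₀ := by linarith only [hC0]
  have c1 : Λw ≤ Λ := by linarith only [hΛ, g1, g3, g4, g5, g6, g7, g8, g9, gC]
  have c2 : Λe ≤ Λ := by
    linarith only [le_abs_self Λe, hΛ, g1, g3, g4, g5, g6, g7, g8, g9, gC, hΛw]
  have c3 : j₀ + 4 ≤ a₁ * Λ := by
    have : (j₀ + 4) / a₁ ≤ Λ := by
      linarith only [hΛ, g1, g3, g4, g5, g6, g7, g8, g9, gC, hΛw]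
    rwa [div_le_iff₀' ha1p] at this
  have c4 : 2 * (1 + rexp M₀) ≤ a₂ * Λ := by
    have : 2 * (1 + rexp M₀) / a₂ ≤ Λ := by
      linarith only [hΛ, g1, g3, g4, g5, g6, g7, g8, g9, gC, hΛw]
    rwa [div_le_iff₀' ha2p] at this
  have c5 : 1024 * N * H ^ 2 ≤ a₁ ^ 10 * Λ := by
    have : 1024 * N * H ^ 2 / a₁ ^ 10 ≤ Λ := by
      linarith only [hΛ, g1, g3, g4, g5, g6, g7, g8, g9, gC, hΛw]
    rwa [div_le_iff₀' (by positivity)] at this
  have c6 : 8 * 14400 ^ 2 / η ^ 2 ≤ Λ := by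
    linarith only [hΛ, g1, g3, g4, g5, g6, g7, g8, g9, gC, hΛw]
  have c7 : 1 / η ≤ Λ := by linarith only [hΛ, g1, g3, g4, g5, g6, g7, g8, g9, gC, hΛw]
  have c8 : N ^ 2 / η ≤ a₁ * Λ := by
    have : N ^ 2 / η / a₁ ≤ Λ := by
      linarith only [hΛ, g1, g3, g4, g5, g6, g7, g8, g9, gC, hΛw]
    rwa [div_le_iff₀' ha1p] at this
  have c9 : 2 * C₀ ≤ Λ := by linarith only [hΛ, g1, g3, g4, g5, g6, g7, g8, g9, gC, hΛw]
  have c10 : 4 ≤ a₃ * Λ := by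
    have : 4 / a₃ ≤ Λ := by
      linarith only [hΛ, g1, g3, g4, g5, g6, g7, g8, g9, gC, hΛw]
    rwa [div_le_iff₀' ha3p] at this
  clear_value K
  have hΛ1 : 1 ≤ Λ := by linarith only [c1, hΛw]
  have hΛ0 : 0 < Λ := by linarith only [hΛ1]
  have hj0R : (1 : ℝ) ≤ j₀ := by exact_mod_cast hj₀
  have hjnn : (0 : ℝ) ≤ j₀ := by linarith only [hj0R]
  have c4' : 2 * (1 + rexp M₀) ≤ a₃ * Λ := by
    have : a₂ * Λ ≤ a₃ * Λ := mul_le_mul_of_nonneg_right ha23 hΛ0.le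
    linarith only [c4, this]
  -- the four indices
  obtain ⟨m1, hj12⟩ := mb_ge (a := a₂) (Λ := Λ) (by linarith only [hM0p] : 0 ≤ M₀) ha2p c4
  obtain ⟨m2, hj34⟩ := mb_ge (a := a₃) (Λ := Λ) (by linarith only [hM0p] : 0 ≤ M₀) ha3p c4'
  rw [← hr] at m1 m2 hj12 hj34
  rw [← ha1] at m1 hj12
  rw [← ha2] at m2 hj34
  obtain ⟨j₁, hj1⟩ : ∃ j, j = ⌈a₁ * Λ⌉₊ := ⟨_, rfl⟩
  obtain ⟨j₂, hj2⟩ : ∃ j, j = ⌊a₂ * Λ⌋₊ := ⟨_, rfl⟩
  obtain ⟨j₃, hj3⟩ : ∃ j, j = ⌈a₂ * Λ⌉₊ := ⟨_, rfl⟩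
  obtain ⟨j₄, hj4⟩ : ∃ j, j = ⌊a₃ * Λ⌋₊ := ⟨_, rfl⟩
  rw [← hj1, ← hj2] at m1 hj12
  rw [← hj3, ← hj4] at m2 hj34
  have u1 : a₁ * Λ ≤ j₁ := by rw [hj1]; exact Nat.le_ceil _
  have u3 : a₂ * Λ ≤ j₃ := by rw [hj3]; exact Nat.le_ceil _
  have u2 : (j₂ : ℝ) ≤ a₂ * Λ := by rw [hj2]; exact Nat.floor_le (by positivity)
  have u4 : (j₄ : ℝ) ≤ a₃ * Λ := by rw [hj4]; exact Nat.floor_le (by positivity)
  have a2Λ : a₂ * Λ ≤ a₃ * Λ := mul_le_mul_of_nonneg_right ha23 hΛ0.le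
  have a1Λ : a₁ * Λ ≤ a₂ * Λ := mul_le_mul_of_nonneg_right ha12 hΛ0.le
  have a3Λ : a₃ * Λ ≤ 1 / 4 * Λ := mul_le_mul_of_nonneg_right ha3b hΛ0.le
  have hj01 : j₀ ≤ j₁ := by
    have : (j₀ : ℝ) ≤ j₁ := by linarith only [u1, c3]
    exact_mod_cast this
  have hj03 : j₀ ≤ j₃ := by
    have : (j₀ : ℝ) ≤ j₃ := by linarith only [u3, a1Λ, c3]
    exact_mod_cast this
  obtain ⟨b1, cl1⟩ := hbb j₁ j₂ Λ hj01 (by linarith only [u2, a2Λ, a3Λ, c10, hΛ0])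
  obtain ⟨b2, -⟩ := hbb j₃ j₄ Λ hj03 (by linarith only [u4, a3Λ, c10, hΛ0])
  obtain ⟨s1, s1'⟩ := lo_size u1 (by linarith only [c3, hjnn] : 4 ≤ a₁ * Λ)
  obtain ⟨s2, -⟩ := lo_size u3 (by linarith only [c3, hjnn, a1Λ] : 4 ≤ a₂ * Λ)
  have hi1 := hi_size (j := j₂)
  have hi2 := hi_size (j := j₄)
  set l₁ := ⌊rexp ((j₁ : ℝ) - 1)⌋₊ with hl1
  set l₂ := ⌊rexp ((j₃ : ℝ) - 1)⌋₊ with hl2
  set h₁ := ⌊rexp (j₂ : ℝ)⌋₊ + 1 with hh1
  set h₂ := ⌊rexp (j₄ : ℝ)⌋₊ + 1 with hh2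
  set E := rexp (a₁ / 2 * Λ) with hE
  have hE0 : 0 < E := exp_pos _
  have hs2 : E ≤ l₂ := le_trans (exp_le_exp.mpr (by linarith only [a1Λ])) s2
  have hρE : rexp (-((j₁ : ℝ) / 2)) ≤ 1 / E := by
    rw [hE, one_div, ← exp_neg]
    exact exp_le_exp.mpr (by linarith only [u1])
  -- consequences of the exponential condition
  have hKE : K * Λ ^ 17 ≤ E := hΛe Λ c2
  have hΛ17 : 1 ≤ Λ ^ 17 := one_le_pow₀ hΛ1
  have k1 : 0 ≤ 2 ^ 22 * (H : ℝ) ^ 4 * (1 + 1 / η) := by positivity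
  have k2 : 0 ≤ 2 * (N : ℝ) ^ 2 / η := by positivity
  have k3 : 0 ≤ 12 * 14400 / η ^ 2 := by positivity
  have k4 : 0 ≤ 4 / η := by positivity
  have hKpos : 0 ≤ K := by rw [hK]; positivity
  have hKK : K ≤ E := by
    refine le_trans ?_ hKE
    exact le_mul_of_one_le_right hKpos hΛ17
  have q0 : 2 ^ 22 * (H : ℝ) ^ 4 * (1 + 1 / η) * Λ ^ 17 ≤ E := by
    refine le_trans (mul_le_mul_of_nonneg_right ?_ (by positivity)) hKE
    rw [hK]; linarith only [k1, k2, k3, k4]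
  have q1 : 2 ^ 22 * (H : ℝ) ^ 4 * Λ ^ 17 ≤ E := by
    refine le_trans (mul_le_mul_of_nonneg_right ?_ (by positivity)) q0
    have : (0 : ℝ) ≤ 2 ^ 22 * (H : ℝ) ^ 4 * (1 / η) := by positivity
    linarith only [this]
  have q1' : 2 ^ 22 * (H : ℝ) ^ 4 * Λ ^ 17 ≤ η * E := by
    have : 2 ^ 22 * (H : ℝ) ^ 4 * (1 / η) * Λ ^ 17 ≤ E := by
      refine le_trans (mul_le_mul_of_nonneg_right ?_ (by positivity)) q0
      have : (0 : ℝ) ≤ 2 ^ 22 * (H : ℝ) ^ 4 := by positivity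
      linarith only [this]
    calc 2 ^ 22 * (H : ℝ) ^ 4 * Λ ^ 17 = η * (2 ^ 22 * (H : ℝ) ^ 4 * (1 / η) * Λ ^ 17) := by
          field_simp
      _ ≤ _ := mul_le_mul_of_nonneg_left this hη.le
  have q2 : 2 * (N : ℝ) ^ 2 ≤ η * E := by
    have : 2 * (N : ℝ) ^ 2 / η ≤ E := by rw [hK] at hKK; linarith only [k1, k2, k3, k4, hKK]
    rwa [div_le_iff₀' hη] at this
  have q3 : 12 * 14400 / η ^ 2 ≤ E := by rw [hK] at hKK; linarith only [k1, k2, k3, k4, hKK]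
  have q4 : 4 / η ≤ E := by rw [hK] at hKK; linarith only [k1, k2, k3, k4, hKK]
  -- the integer `n`
  set n := ⌈Λ⌉₊ with hn
  have n1 : Λ ≤ n := Nat.le_ceil _
  have n2 : (n : ℝ) ≤ 2 * Λ := by
    have := Nat.ceil_lt_add_one hΛ0.le
    linarith only [this, hΛ1]
  have hn1 : 1 ≤ n := Nat.ceil_pos.mpr hΛ0
  have n0 : (0 : ℝ) ≤ n := Nat.cast_nonneg _
  have hn9 : (n : ℝ) ^ 9 ≤ 512 * Λ ^ 9 := by
    calc (n : ℝ) ^ 9 ≤ (2 * Λ) ^ 9 := pow_le_pow_left₀ n0 n2 9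
      _ = _ := by ring
  have hn15 : (n : ℝ) ^ 15 ≤ 2 ^ 15 * Λ ^ 15 := by
    calc (n : ℝ) ^ 15 ≤ (2 * Λ) ^ 15 := pow_le_pow_left₀ n0 n2 15
      _ = _ := by ring
  have p9 : Λ ^ 9 ≤ Λ ^ 17 := pow_le_pow_right₀ hΛ1 (by norm_num)
  have p15 : Λ ^ 15 ≤ Λ ^ 17 := pow_le_pow_right₀ hΛ1 (by norm_num)
  have hH24 : (H : ℝ) ^ 2 ≤ H ^ 4 := pow_le_pow_right₀ hHR (by norm_num)
  have hBdR : 2 * (H : ℝ) ^ 2 * n ^ 9 ≤ 1024 * H ^ 4 * Λ ^ 17 := by
    calc 2 * (H : ℝ) ^ 2 * n ^ 9 ≤ 2 * (H : ℝ) ^ 4 * (512 * Λ ^ 9) := by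
          apply mul_le_mul _ hn9 (by positivity) (by positivity)
          linarith only [hH24]
      _ = 1024 * H ^ 4 * Λ ^ 9 := by ring
      _ ≤ _ := mul_le_mul_of_nonneg_left p9 (by positivity)
  have hH4Λ : 0 < (H : ℝ) ^ 4 * Λ ^ 17 := by positivity
  have hBdE : 2 * (H : ℝ) ^ 2 * n ^ 9 < E := by linarith only [hBdR, hH4Λ, q1]
  have eBd : (H * n ^ 3) ^ 2 * (2 * n ^ 3) = 2 * H ^ 2 * n ^ 9 := by ring
  have hl1R : (((H * n ^ 3) ^ 2 * (2 * n ^ 3) : ℕ) : ℝ) < l₁ := by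
    rw [eBd]; push_cast; linarith only [hBdE, s1]
  have hl1N : (H * n ^ 3) ^ 2 * (2 * n ^ 3) < l₁ := by exact_mod_cast hl1R
  have hl1p : (0 : ℝ) < l₁ := by linarith only [s1, hE0]
  have hl2p : (0 : ℝ) < l₂ := by linarith only [hs2, hE0]
  have hl1one : 1 ≤ l₁ := by
    have : 0 < l₁ := by exact_mod_cast hl1p
    omega
  have hl2one : 1 ≤ l₂ := by
    have : 0 < l₂ := by exact_mod_cast hl2p
    omega
  have sqrtb : ∀ μ : ℝ, M₀ ≤ μ → √(2 * 14400 / μ) ≤ η / 2 := by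
    intro μ hμ
    have hμ0 : 0 < μ := by linarith only [hμ, hM0p]
    apply Real.sqrt_le_iff.mpr
    refine ⟨by positivity, ?_⟩
    rw [div_le_iff₀ hμ0]
    have h1 : 115200 / η ^ 2 ≤ μ := by linarith only [hμ, hM0]
    rw [div_le_iff₀ (by positivity)] at h1
    have h3 : (η / 2) ^ 2 * μ = μ * η ^ 2 / 4 := by ring
    rw [h3]
    linarith only [h1]
  have lob : ∀ l : ℕ, E ≤ l → 2 * (1 / (l : ℝ)) ≤ η / 2 := by
    intro l hl
    have hl0 : (0 : ℝ) < l := by linarith only [hl, hE0]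
    have h1 : 4 / η ≤ l := by linarith only [hl, q4]
    rw [div_le_iff₀ hη] at h1
    rw [mul_one_div, div_le_iff₀ hl0]
    linarith only [h1]
  have hμ1 : 0 < mb j₁ j₂ := by linarith only [m1, hM0p]
  have hμ2 : 0 < mb j₃ j₄ := by linarith only [m2, hM0p]
  have hlog1 : Real.log h₁ ≤ Λ := by
    have : Real.log h₁ ≤ j₂ + 1 := by
      have := hi1
      unfold lg at this
      exact this
    linarith only [this, u2, a2Λ, a3Λ, c10]
  have hlog2 : Real.log h₂ ≤ Λ := by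
    have : Real.log h₂ ≤ j₄ + 1 := by
      have := hi2
      unfold lg at this
      exact this
    linarith only [this, u4, a3Λ, c10]
  have hlog10 : 0 ≤ Real.log h₁ := Real.log_natCast_nonneg _
  have hlog20 : 0 ≤ Real.log h₂ := Real.log_natCast_nonneg _
  have hρ0 : 0 < rexp (-((j₁ : ℝ) / 2)) := exp_pos _
  have hZ : Real.log ⌊rexp (Λ ^ 2)⌋₊ ≤ Λ ^ 2 := by
    have h1 : (1 : ℝ) ≤ rexp (Λ ^ 2) := one_le_exp (by positivity)
    have h3 : 1 ≤ ⌊rexp (Λ ^ 2)⌋₊ := Nat.le_floor (by simpa using h1)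
    have h4 : (0 : ℝ) < ⌊rexp (Λ ^ 2)⌋₊ := by exact_mod_cast h3
    rw [Real.log_le_iff_le_exp h4]
    exact Nat.floor_le (exp_pos _).le
  have hZ0 : 0 ≤ Real.log ⌊rexp (Λ ^ 2)⌋₊ := Real.log_natCast_nonneg _
  have hΛ2 : 1 + Λ ^ 2 ≤ 2 * Λ ^ 2 := by
    have : 1 ≤ Λ ^ 2 := one_le_pow₀ hΛ1
    linarith only [this]
  refine ⟨bb χ j₁ j₂, bb χ j₃ j₄, mb j₁ j₂, mb j₃ j₄, l₁, h₁, l₂, h₂, n ^ 3, 2 * n ^ 3,
    ⌊rexp (Λ ^ 2)⌋₊, rexp (-((j₁ : ℝ) / 2)), 3 * a₃ * Λ, ?_⟩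
  exact {
    b1 := b1
    b2 := b2
    m1 := hμ1
    m2 := hμ2
    hl1 := hl1one
    hl2 := hl2one
    e1 := by
      have h1 := sqrtb _ m1
      have h3 := lob l₁ s1
      linarith only [h1, h3]
    e2 := by
      have h1 := sqrtb _ m2
      have h3 := lob l₂ hs2
      linarith only [h1, h3]
    hD := Nat.one_le_pow _ _ hn1
    hDl := by
      have h1 : ((n ^ 3 : ℕ) : ℝ) ≤ 2 * (H : ℝ) ^ 2 * n ^ 9 := by
        push_cast
        have h3 : (1 : ℝ) ≤ n := by exact_mod_cast hn1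
        have h4 : (n : ℝ) ^ 3 ≤ n ^ 9 := pow_le_pow_right₀ h3 (by norm_num)
        have h5 : (1 : ℝ) ≤ H ^ 2 := one_le_pow₀ hHR
        have h6 : (0 : ℝ) ≤ n ^ 9 := by positivity
        have h7 : (n : ℝ) ^ 9 ≤ 2 * H ^ 2 * n ^ 9 := le_mul_of_one_le_left h6 (by
          linarith only [h5])
        linarith only [h4, h7]
      have h2 : ((n ^ 3 : ℕ) : ℝ) ≤ l₂ := by linarith only [h1, hBdE, hs2]
      exact_mod_cast h2
    hlh := by
      rw [hl1, hh1]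
      have : ⌊rexp ((j₁ : ℝ) - 1)⌋₊ ≤ ⌊rexp (j₂ : ℝ)⌋₊ := by
        apply Nat.floor_le_floor
        apply exp_le_exp.mpr
        have : (j₁ : ℝ) ≤ j₂ := by exact_mod_cast hj12
        linarith only [this]
      omega
    hρ := hρ0
    hη := hη
    bl := by
      have f1 : 14400 / mb j₁ j₂ * (1 / (l₁ * rexp (-((j₁ : ℝ) / 2)))) ≤ η ^ 2 / 2 := by
        have h1 : 14400 / mb j₁ j₂ ≤ 14400 := by
          rw [div_le_iff₀ hμ1]; linarith only [m1, hM0p]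
        have h3 : 1 / (l₁ * rexp (-((j₁ : ℝ) / 2))) ≤ 6 / E := by
          rw [div_le_div_iff₀ (by positivity) hE0]
          linarith only [s1']
        calc _ ≤ 14400 * (6 / E) := mul_le_mul h1 h3 (by positivity) (by norm_num)
          _ ≤ η ^ 2 / 2 := by
            rw [div_le_iff₀ (by positivity)] at q3
            rw [mul_div_assoc', div_le_iff₀ hE0]
            linarith only [q3]
      have f2 : 14400 / mb j₁ j₂ * (1 + Real.log h₁) *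
          (14400 * (1 + Real.log h₂) / ((n ^ 3 : ℕ) : ℝ)) / mb j₃ j₄ ≤ η ^ 2 / 2 := by
        have hn3 : Λ ^ 3 ≤ ((n ^ 3 : ℕ) : ℝ) := by
          push_cast
          exact pow_le_pow_left₀ hΛ0.le n1 3
        have hΛ3 : 0 < Λ ^ 3 := by positivity
        have h1 : 14400 / mb j₁ j₂ ≤ 14400 := by
          rw [div_le_iff₀ hμ1]; linarith only [m1, hM0p]
        have h3 : 14400 * (1 + Real.log h₂) / ((n ^ 3 : ℕ) : ℝ) ≤ 14400 * (2 * Λ) / Λ ^ 3 := by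
          apply div_le_div₀ (by positivity) (by linarith only [hlog2, hΛ1]) hΛ3 hn3
        have h5 : 0 ≤ 14400 / mb j₁ j₂ * (1 + Real.log h₁) *
          (14400 * (1 + Real.log h₂) / ((n ^ 3 : ℕ) : ℝ)) := by (clear * - hμ1 hΛ1; positivity)
        calc _ ≤ 14400 / mb j₁ j₂ * (1 + Real.log h₁) *
            (14400 * (1 + Real.log h₂) / ((n ^ 3 : ℕ) : ℝ)) := by
              apply div_le_self h5
              linarith only [m2, hM0p]
          _ ≤ 14400 * (2 * Λ) * (14400 * (2 * Λ) / Λ ^ 3) := by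
              apply mul_le_mul _ h3 (by (clear * - hΛ1; positivity)) (by positivity)
              exact mul_le_mul h1 (by linarith only [hlog1, hΛ1]) (by linarith only [hlog10])
                (by norm_num)
          _ = 4 * 14400 ^ 2 / Λ := by field_simp; ring
          _ ≤ η ^ 2 / 2 := by
            rw [div_le_iff₀ hΛ0]
            rw [div_le_iff₀ (by positivity)] at c6
            linarith only [c6]
      linarith only [f1, f2]
    hL := by linarith only [hi1, hi2, u2, u4, a2Λ, c10]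
    win := by
      intro z
      have h1 := hwin Λ z c1
      rw [Ef_eq_EE] at h1
      refine le_trans (EE_mono (fun p => xs_pos 1 p) fun A _ => ?_) h1
      by_cases c : z ≤ Sm lg A ∧ Sm lg A ≤ z + 3 * a₃ * Λ
      · have h3 : 3 * a₃ * Λ ≤ ε' * Λ := mul_le_mul_of_nonneg_right ha3a hΛ0.le
        rw [if_pos c, if_pos ⟨c.1, by linarith only [c.2, h3]⟩]
      · rw [if_neg c]
        split_ifs <;> norm_num
    hH := hH
    hM := by
      have := Nat.one_le_pow 3 n hn1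
      omega
    h4 := by
      have e : ((H : ℝ) * ((n ^ 3 : ℕ) : ℝ)) ^ 4 * ((2 * n ^ 3 : ℕ) : ℝ) =
        2 * H ^ 4 * n ^ 15 := by push_cast; ring
      rw [e]
      calc 8 * (2 * rexp (-((j₁ : ℝ) / 2))) * (2 * H ^ 4 * (n : ℝ) ^ 15) ≤
          8 * (2 * (1 / E)) * (2 * H ^ 4 * (2 ^ 15 * Λ ^ 17)) := by
            apply mul_le_mul (by linarith only [hρE]) _ (by positivity) (by positivity)
            apply mul_le_mul_of_nonneg_left _ (by positivity)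
            linarith only [hn15, p15]
        _ = 2 ^ 20 * H ^ 4 * Λ ^ 17 / E := by ring
        _ ≤ 1 := by
            rw [div_le_one hE0]
            linarith only [q1, hH4Λ]
    mM := by
      have hn3 : Λ ^ 3 ≤ (n : ℝ) ^ 3 := pow_le_pow_left₀ hΛ0.le n1 3
      have hΛ3 : 0 < Λ ^ 3 := by positivity
      push_cast
      calc (1 + Real.log ⌊rexp (Λ ^ 2)⌋₊) / (2 * (n : ℝ) ^ 3) ≤ (2 * Λ ^ 2) / (2 * Λ ^ 3) := by
            apply div_le_div₀ (by positivity) (by linarith only [hZ, hΛ2]) (by positivity)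
              (by linarith only [hn3])
        _ = 1 / Λ := by field_simp
        _ ≤ η := by
            rw [div_le_iff₀ hΛ0]
            rw [div_le_iff₀ hη] at c7
            linarith only [c7]
    mE := by
      have e : ((H : ℝ) * ((n ^ 3 : ℕ) : ℝ)) ^ 4 * ((2 * n ^ 3 : ℕ) : ℝ) =
        2 * H ^ 4 * n ^ 15 := by push_cast; ring
      rw [e]
      calc 16 * (2 * rexp (-((j₁ : ℝ) / 2))) * (1 + Real.log ⌊rexp (Λ ^ 2)⌋₊) *
          (2 * H ^ 4 * (n : ℝ) ^ 15) ≤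
          16 * (2 * (1 / E)) * (2 * Λ ^ 2) * (2 * H ^ 4 * (2 ^ 15 * Λ ^ 15)) := by
            apply mul_le_mul _ _ (by positivity) (by positivity)
            · apply mul_le_mul (by linarith only [hρE]) (by linarith only [hZ, hΛ2])
                (by positivity) (by positivity)
            · apply mul_le_mul_of_nonneg_left _ (by positivity)
              exact hn15
        _ = 2 ^ 22 * H ^ 4 * Λ ^ 17 / E := by ring
        _ ≤ η := by
            rw [div_le_iff₀ hE0]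
            linarith only [q1']
    tZ := by
      have h1 := hM.markov_one hΛ1 c9
      rw [Ef_eq_EE, EE_ite_eq_Pr] at h1
      have h3 : 1 / Λ ≤ η := by
        rw [div_le_iff₀ hΛ0]
        rw [div_le_iff₀ hη] at c7
        linarith only [c7]
      refine (Pr_mono (fun p => xs_pos 1 p) fun A hA h => ?_).trans (h1.trans h3)
      have hAp : ∀ p ∈ A, p.Prime := fun p hp => iP_prime (hA hp)
      have h5 : rexp (Λ ^ 2) < eA A := (Nat.floor_lt (exp_pos _).le).mp h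
      rw [← exp_Sm hAp] at h5
      exact (exp_lt_exp.mp h5).le
    hBd := hl1N
    cls := by
      intro b hb hbB a
      have hj1p : (0 : ℝ) < j₁ := by linarith only [u1, c3, hjnn]
      apply cls_mean h2 hne he hμ1.le (j := j₁) hj1p _ hb
      · intro _ f hf
        apply cl1 (N * b) _ (dvd_mul_right N b) f hf
        have h1 : (b : ℝ) ≤ 1024 * H ^ 2 * Λ ^ 9 := by
          have h3 : (b : ℝ) ≤ 2 * (H : ℝ) ^ 2 * n ^ 9 := by
            rw [eBd] at hbB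
            exact_mod_cast hbB
          have h4 : 2 * (H : ℝ) ^ 2 * n ^ 9 ≤ 2 * H ^ 2 * (512 * Λ ^ 9) :=
            mul_le_mul_of_nonneg_left hn9 (by positivity)
          linarith only [h3, h4]
        push_cast
        calc (N : ℝ) * b ≤ N * (1024 * H ^ 2 * Λ ^ 9) :=
              mul_le_mul_of_nonneg_left h1 (by linarith only [hNR])
          _ = 1024 * N * H ^ 2 * Λ ^ 9 := by ring
          _ ≤ a₁ ^ 10 * Λ * Λ ^ 9 := mul_le_mul_of_nonneg_right c5 (by positivity)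
          _ = (a₁ * Λ) ^ 10 := by ring
          _ ≤ _ := pow_le_pow_left₀ (by positivity) u1 10
      · rw [div_le_iff₀ hj1p]
        rw [div_le_iff₀ hη] at c8
        have h1 : a₁ * Λ * η ≤ j₁ * η := mul_le_mul_of_nonneg_right u1 hη.le
        linarith only [c8, h1]
    ld := by
      rw [eBd]
      push_cast
      have h1 : 0 < 2 * (H : ℝ) ^ 2 * n ^ 9 := by
        have : (0 : ℝ) < n := by linarith only [n1, hΛ0]
        positivity
      rw [Real.log_le_iff_le_exp h1]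
      refine hBdE.le.trans (exp_le_exp.mpr ?_)
      linarith only [a1Λ, a2Λ, c10]
    LΛ := by linarith only [a3Λ, hΛ0]
    hκ := by
      calc (N : ℝ) ^ 2 * (2 * rexp (-((j₁ : ℝ) / 2))) ≤ N ^ 2 * (2 * (1 / E)) := by
            apply mul_le_mul_of_nonneg_left _ (by positivity)
            linarith only [hρE]
        _ = 2 * N ^ 2 / E := by ring
        _ ≤ η := by
            rw [div_le_iff₀ hE0]
            linarith only [q2] }

end Pool.Agent.MP0016c7.Ros
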