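import Mathlib
import Pool.Agent.Lib.MP_0016c7_nt.CdlTrig
import Pool.Agent.Lib.MP_0016c7_nt.EvW

open Real Set MeasureTheory Filter Topology

namespace Pool.Agent.MP0016c7.Ros

variable {N : ℕ} [NeZero N] {χ : DirichletCharacter ℂ N}

/-- the function on the circle -/
noncomputable def Lc (χ : DirichletCharacter ℂ N) : UnitAddCircle → ℝ :=
  AddCircle.liftIco 1 0 (fun y => Dv χ ((N : ℝ) * y))

lemma Dv_N (hne : χ ≠ 1) (he : χ.Even) : Dv χ (N : ℝ) = 0 := by
  have := Dv_add_N hne he (u := 0) le_rfl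
  rw [zero_add, Dv_of_le_one zero_le_one] at this
  exact this

lemma continuous_Lc (hne : χ ≠ 1) (he : χ.Even) : Continuous (Lc χ) := by
  apply AddCircle.liftIco_zero_continuous
  · rw [mul_zero, mul_one, Dv_N hne he, Dv_of_le_one zero_le_one]
  · exact (continuous_Dv.comp (continuous_const.mul continuous_id)).continuousOn

lemma Lc_coe (hne : χ ≠ 1) (he : χ.Even) {θ : ℝ} (hθ : 0 ≤ θ) :
    Lc χ (θ : UnitAddCircle) = Dv χ ((N : ℝ) * θ) := by
  have h1 : (θ : UnitAddCircle) = ((Int.fract θ : ℝ) : UnitAddCircle) := by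
    rw [← sub_eq_zero, ← AddCircle.coe_sub, AddCircle.coe_eq_zero_iff]
    exact ⟨⌊θ⌋, by rw [zsmul_eq_mul, mul_one, Int.self_sub_fract]⟩
  rw [h1]
  unfold Lc
  rw [AddCircle.liftIco_zero_coe_apply ⟨Int.fract_nonneg θ, Int.fract_lt_one θ⟩]
  have h2 : (N : ℝ) * θ = N * Int.fract θ + N * (⌊θ⌋₊ : ℝ) := by
    have h3 : ((⌊θ⌋₊ : ℕ) : ℝ) = ((⌊θ⌋ : ℤ) : ℝ) := by
      exact_mod_cast congrArg (Int.cast (R := ℝ)) (Int.natCast_floor_eq_floor hθ)
    rw [h3, ← mul_add, Int.fract_add_floor]
  rw [h2, Dv_add_mul hne he (by have := Int.fract_nonneg θ; positivity)]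

lemma integral_hinge {k : ℕ} (hk : k ≤ N) :
    ∫ a in (0 : ℝ)..1, max ((N : ℝ) * a - k) 0 = (N - k) ^ 2 / (2 * N) := by
  have hN0 : (0 : ℝ) < N := by exact_mod_cast NeZero.pos N
  have hkN : (k : ℝ) ≤ N := by exact_mod_cast hk
  have hk0 : (0 : ℝ) ≤ k := Nat.cast_nonneg k
  have hc : Continuous fun a : ℝ => max ((N : ℝ) * a - k) 0 := by fun_prop
  have h0 : 0 ≤ (k : ℝ) / N := by positivity
  have h1 : (k : ℝ) / N ≤ 1 := by rw [div_le_one hN0]; exact hkN
  rw [← intervalIntegral.integral_add_adjacent_intervals (b := (k : ℝ) / N)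
    (hc.intervalIntegrable _ _) (hc.intervalIntegrable _ _)]
  have e1 : ∫ a in (0 : ℝ)..(k : ℝ) / N, max ((N : ℝ) * a - k) 0 = 0 := by
    rw [intervalIntegral.integral_congr (g := fun _ => (0 : ℝ))]
    · simp
    · intro a ha
      rw [uIcc_of_le h0] at ha
      have : (N : ℝ) * a ≤ k := by
        have := ha.2
        rw [le_div_iff₀ hN0] at this
        linarith
      simp only
      rw [max_eq_right (by linarith)]
  have e2 : ∫ a in (k : ℝ) / N..1, max ((N : ℝ) * a - k) 0 =
      ∫ a in (k : ℝ) / N..1, ((N : ℝ) * a - k) := by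
    apply intervalIntegral.integral_congr
    intro a ha
    rw [uIcc_of_le h1] at ha
    have : (k : ℝ) ≤ N * a := by
      have := ha.1
      rw [div_le_iff₀ hN0] at this
      linarith
    simp only
    rw [max_eq_left (by linarith)]
  rw [e1, e2, zero_add, intervalIntegral.integral_sub (by
    apply Continuous.intervalIntegrable; fun_prop) (by
    apply Continuous.intervalIntegrable; fun_prop), intervalIntegral.integral_const_mul,
    integral_id, intervalIntegral.integral_const]
  rw [smul_eq_mul]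
  field_simp
  ring

lemma integral_Dv (hne : χ ≠ 1) (he : χ.Even) :
    ∫ a in (0 : ℝ)..1, Dv χ ((N : ℝ) * a) = Dbar χ := by
  have hN0 : (0 : ℝ) < N := by exact_mod_cast NeZero.pos N
  have h1 : ∫ a in (0 : ℝ)..1, Dv χ ((N : ℝ) * a) =
      ∫ a in (0 : ℝ)..1, ∑ k ∈ Finset.range (N + 1), rchar χ k * max ((N : ℝ) * a - k) 0 := by
    apply intervalIntegral.integral_congr
    intro a ha
    rw [uIcc_of_le zero_le_one] at ha
    simp only
    apply Dv_eq_max
    have h2 : (N : ℝ) * a ≤ N := by nlinarith [ha.2]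
    have := Nat.floor_mono h2
    simpa using this
  rw [h1, intervalIntegral.integral_finsetSum (fun k _ => by
    apply Continuous.intervalIntegrable; fun_prop)]
  have h2 : ∀ k ∈ Finset.range (N + 1), ∫ a in (0 : ℝ)..1, rchar χ k * max ((N : ℝ) * a - k) 0 =
      (N ^ 2 * rchar χ k - 2 * N * (rchar χ k * k) + rchar χ k * (k : ℝ) ^ 2) / (2 * N) := by
    intro k hk
    rw [Finset.mem_range, Nat.lt_succ_iff] at hk
    rw [intervalIntegral.integral_const_mul, integral_hinge hk]
    ring
  rw [Finset.sum_congr rfl h2, ← Finset.sum_div, Finset.sum_add_distrib, Finset.sum_sub_distrib,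
    ← Finset.mul_sum, ← Finset.mul_sum, sum_rchar_range' hne, sum_rchar_mul hne he]
  unfold Dbar
  ring

lemma integral_Lc (hne : χ ≠ 1) (he : χ.Even) : ∫ z : UnitAddCircle, Lc χ z = Dbar χ := by
  rw [← UnitAddCircle.intervalIntegral_preimage 0, zero_add, ← integral_Dv hne he]
  apply intervalIntegral.integral_congr
  intro a ha
  rw [uIcc_of_le zero_le_one] at ha
  exact Lc_coe hne he ha.1

/-- **Trigonometric minorant.** -/
theorem trig_minorant2 (hne : χ ≠ 1) (he : χ.Even) {ε : ℝ} (hε : 0 < ε) :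
    ∃ F : Finset ℤ, ∃ c : ℤ → ℂ, (0 : ℤ) ∉ F ∧ ∀ θ : ℝ, 0 ≤ θ →
      Dbar χ - ε + (∑ h ∈ F, c h * eu (h * θ)).re ≤ Dv χ ((N : ℝ) * θ) := by
  classical
  set g : C(UnitAddCircle, ℂ) := ⟨fun z => ((Lc χ z : ℝ) : ℂ),
    Complex.continuous_ofReal.comp (continuous_Lc hne he)⟩ with hg
  have hmem : g ∈ (Submodule.span ℂ (Set.range (@fourier 1))).topologicalClosure := by
    rw [span_fourier_closure_eq_top]; trivial
  rw [← SetLike.mem_coe, Submodule.topologicalClosure_coe, Metric.mem_closure_iff] at hmem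
  obtain ⟨p, hp, hdist⟩ := hmem (ε / 4) (by positivity)
  rw [SetLike.mem_coe, Finsupp.mem_span_range_iff_exists_finsupp] at hp
  obtain ⟨c, hc⟩ := hp
  have hpv : ∀ z : UnitAddCircle, p z = ∑ h ∈ c.support, c h * fourier h z := by
    intro z
    rw [← hc, Finsupp.sum]
    simp
  have hclose : ∀ z : UnitAddCircle, ‖g z - p z‖ ≤ ε / 4 := by
    intro z
    have h1 := ContinuousMap.dist_apply_le_dist (f := g) (g := p) z
    rw [dist_eq_norm] at h1
    exact h1.trans hdist.le
  have hint_p : ∫ z : UnitAddCircle, p z = c 0 := by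
    have h1 : ∀ h : ℤ, ∫ z : UnitAddCircle, (fourier h z : ℂ) = if h = 0 then 1 else 0 := by
      intro h
      have h2 := congrFun (fourierCoeff_fourier (T := 1) h) 0
      rw [fourierCoeff, AddCircle.integral_haarAddCircle] at h2
      simp only [neg_zero, fourier_zero, one_smul, inv_one] at h2
      rw [h2, Pi.single_apply]
      by_cases h3 : h = 0
      · rw [if_pos h3, if_pos h3.symm]
      · rw [if_neg h3, if_neg (Ne.symm h3)]
    have h3 : ∫ z : UnitAddCircle, p z = ∑ h ∈ c.support, c h * ∫ z : UnitAddCircle,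
        (fourier h z : ℂ) := by
      simp_rw [hpv]
      rw [integral_finsetSum]
      · exact Finset.sum_congr rfl fun h _ => integral_const_mul _ _
      · intro h _
        apply Continuous.integrable_of_hasCompactSupport
        · exact continuous_const.mul (fourier h).continuous
        · exact HasCompactSupport.of_compactSpace _
    rw [h3]
    simp_rw [h1]
    rw [Finset.sum_congr rfl (g := fun h => if h = 0 then c 0 else 0) (fun h _ => by
      split_ifs with h4
      · rw [h4, mul_one]
      · rw [mul_zero]), Finset.sum_ite_eq']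
    split_ifs with h5
    · rfl
    · rw [Finsupp.notMem_support_iff] at h5; exact h5.symm
  have hgi : Integrable (fun z : UnitAddCircle => Lc χ z) := by
    apply Continuous.integrable_of_hasCompactSupport (continuous_Lc hne he)
    exact HasCompactSupport.of_compactSpace _
  have hpi : Integrable (fun z : UnitAddCircle => p z) := by
    apply Continuous.integrable_of_hasCompactSupport p.continuous
    exact HasCompactSupport.of_compactSpace _
  have hc0 : Dbar χ - ε / 4 ≤ (c 0).re := by
    have h1 := integral_Lc (χ := χ) hne he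
    have h2 : ‖∫ z : UnitAddCircle, (g z - p z)‖ ≤ ε / 4 := by
      have := norm_integral_le_of_norm_le_const (μ := (volume : Measure UnitAddCircle))
        (f := fun z => g z - p z) (C := ε / 4) (Eventually.of_forall hclose)
      rw [vol_univ, mul_one] at this
      exact this
    rw [integral_sub (by exact hgi.ofReal) hpi, hint_p] at h2
    have h3 : ∫ z : UnitAddCircle, g z = ((∫ z : UnitAddCircle, Lc χ z : ℝ) : ℂ) := by
      rw [← integral_complex_ofReal]
      rfl
    rw [h3, h1] at h2
    have h4 := (Complex.abs_re_le_norm _).trans h2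
    rw [Complex.sub_re, Complex.ofReal_re] at h4
    have h5 := (abs_le.mp h4).2
    linarith
  refine ⟨c.support.erase 0, c, Finset.notMem_erase _ _, fun θ hθ => ?_⟩
  have h2 := (Complex.abs_re_le_norm _).trans (hclose (θ : UnitAddCircle))
  rw [Complex.sub_re] at h2
  have h3 : (g (θ : UnitAddCircle)).re = Dv χ ((N : ℝ) * θ) := by
    rw [← Lc_coe hne he hθ]
    exact Complex.ofReal_re _
  rw [h3, hpv] at h2
  have h4 : ∑ h ∈ c.support, c h * fourier h (θ : UnitAddCircle) =
      c 0 + ∑ h ∈ c.support.erase 0, c h * eu (h * θ) := by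
    by_cases h5 : (0 : ℤ) ∈ c.support
    · rw [← Finset.add_sum_erase _ _ h5, fourier_zero, mul_one]
      congr 1
      exact Finset.sum_congr rfl fun h _ => by rw [fourier_eq_eu]
    · rw [Finset.erase_eq_of_notMem h5, Finsupp.notMem_support_iff.mp h5, zero_add]
      exact Finset.sum_congr rfl fun h _ => by rw [fourier_eq_eu]
  rw [h4, Complex.add_re] at h2
  have h5 := (abs_le.mp h2).1
  linarith

end Pool.Agent.MP0016c7.Ros
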