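import Mathlib
import Pool.Agent.Lib.MP_0016c7_nt.EvTop5
import Pool.Agent.Lib.MP_0016c7_nt.EvTop7
import Pool.Agent.Lib.MP_0016c7_nt.EvTrig

open Real Filter

namespace Pool.Agent.MP0016c7.Ros

variable {N : ℕ} [NeZero N] {χ : DirichletCharacter ℂ N}

/-- **Positivity of the harmonic average in the bulk.** -/
theorem E6 (hSW : SWd) (hχ : χ.IsPrimitive) (hne : χ ≠ 1) (h2 : χ ^ 2 = 1) (he : χ.Even)
    (hDb : 0 < Dbar χ) {U : ℝ} (hU : 1 ≤ U) : ∃ c : ℝ, 0 < c ∧ ∃ Λ₀ : ℝ, 1 ≤ Λ₀ ∧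
    ∀ Λ x : ℝ, Λ₀ ≤ Λ → 0 < x → x ≤ 1 / 2 → rexp (-(U * Λ)) ≤ N * x →
      c ≤ EE (iP χ Λ) (xs 1) (fun A => Dv χ ((N : ℝ) * (eA A * x))) := by
  classical
  have hN := modulus_ne_one hne
  have hN1 : (1 : ℝ) ≤ N := by exact_mod_cast NeZero.pos N
  obtain ⟨C₀, C₁, Cs, hM⟩ := exists_mdat χ h2 hne
  obtain ⟨c₀, hc₀, Λt, hΛt, htail⟩ := hM.tail_one hU
  set m := min (Dbar χ / 2) (Dbar χ * c₀) with hm
  have hm0 : 0 < m := by rw [hm]; positivity
  obtain ⟨F, c, hF0, hF⟩ := trig_minorant2 (χ := χ) hne he (by positivity : 0 < m / 6)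
  set Cf := ∑ h ∈ F, ‖c h‖ with hCf
  have hCf0 : 0 ≤ Cf := Finset.sum_nonneg fun _ _ => norm_nonneg _
  set Ch := 1 + (N : ℝ) ^ 2 / Dbar χ with hCh
  have hCh0 : 0 ≤ Ch := by rw [hCh]; positivity
  set H := ∑ k ∈ F, k.natAbs + 1 with hH
  have hFH : ∀ k ∈ F, |(k : ℝ)| ≤ H := by
    intro k hk
    have h1 : k.natAbs ≤ H := by
      have := Finset.single_le_sum (f := fun k : ℤ => k.natAbs) (fun _ _ => Nat.zero_le _) hk
      omega
    have : ((k.natAbs : ℕ) : ℝ) = |(k : ℝ)| := by rw [Nat.cast_natAbs, Int.cast_abs]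
    rw [← this]
    exact_mod_cast h1
  set W := 6 * Cf + (8 * (N : ℝ) ^ 2 + 2 + Dbar χ * Ch) with hW
  have hW0 : 0 < W := by rw [hW]; positivity
  set η := min (1 / 2) (m / 6 / W) with hη
  have hη0 : 0 < η := by rw [hη]; positivity
  have hη1 : η ≤ 1 / 2 := min_le_left _ _
  have hη2 : W * η ≤ m / 6 := by
    have : η ≤ m / 6 / W := min_le_right _ _
    rwa [le_div_iff₀' hW0] at this
  obtain ⟨Λ₁, hΛ₁, hEP⟩ := exists_EP hSW h2 hne he hη0 (H := H) (by omega)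
  refine ⟨m / 2, by positivity, Λt + Λ₁, by linarith, fun Λ x hΛ hx0 hx1 hxU => ?_⟩
  obtain ⟨β₁, β₂, μ₁, μ₂, l₁, h₁, l₂, h₂', D, M, Z, ρ, L, hE⟩ := hEP Λ (by linarith)
  have h1 := hE.main hχ hne h2 he hN hDb hCh0
    (fun b hb => abs_h2f_le hχ hne h2 he hDb hb) (by positivity : 0 ≤ m / 6) hF0 hFH hF hx0 hx1
  refine le_trans ?_ h1
  have h3 : c₀ ≤ EE (iP χ Λ) (xs 1)
      (fun A => if Real.log (2 * ρ / x) < Sm lg A then (1 : ℝ) else 0) := by
    have h4 := htail Λ (by linarith)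
    rw [Ef_eq_EE] at h4
    refine h4.trans (EE_mono (fun p => xs_pos 1 p) fun A _ => ?_)
    by_cases c1 : U * Λ ≤ Sm lg A
    · rw [if_pos c1, if_pos]
      refine lt_of_lt_of_le ?_ c1
      have hρ := hE.hρ
      rw [Real.log_lt_iff_lt_exp (by positivity), div_lt_iff₀ hx0]
      have h5 : 1 ≤ rexp (U * Λ) * (N * x) := by
        have h6 : rexp (U * Λ) * rexp (-(U * Λ)) = 1 := by rw [← exp_add]; simp
        rw [← h6]
        exact mul_le_mul_of_nonneg_left hxU (exp_pos _).le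
      have h7 : (N : ℝ) * (2 * ρ) < 1 := by
        have h8 := hE.hκ
        have h9 : (N : ℝ) * (2 * ρ) ≤ N ^ 2 * (2 * ρ) := by
          apply mul_le_mul_of_nonneg_right _ (by positivity)
          nlinarith
        linarith
      have h10 : 0 < rexp (U * Λ) * x := by positivity
      have h11 : (rexp (U * Λ) * x) * (N * (2 * ρ)) < (rexp (U * Λ) * x) * 1 :=
        mul_lt_mul_of_pos_left h7 h10
      have h12 : 2 * ρ * 1 ≤ 2 * ρ * (rexp (U * Λ) * (N * x)) :=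
        mul_le_mul_of_nonneg_left h5 (by positivity)
      have e : 2 * ρ * (rexp (U * Λ) * (N * x)) = (rexp (U * Λ) * x) * (N * (2 * ρ)) := by ring
      rw [e] at h12
      linarith
    · rw [if_neg c1]
      split_ifs <;> norm_num
  have h5 : m ≤ min (Dbar χ / 2) (Dbar χ * EE (iP χ Λ) (xs 1)
      (fun A => if Real.log (2 * ρ / x) < Sm lg A then (1 : ℝ) else 0)) := by
    apply le_min
    · exact min_le_left _ _
    · exact (min_le_right _ _).trans (mul_le_mul_of_nonneg_left h3 hDb.le)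
  have h6 : Cf * (6 * η) + (8 * (N : ℝ) ^ 2 + 2 + Dbar χ * Ch) * η = W * η := by
    rw [hW]; ring
  linarith

end Pool.Agent.MP0016c7.Ros
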