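import Mathlib
import Pool.Agent.Lib.MP_0016c7_nt.EvJ1
import Pool.Agent.Lib.MP_0016c7_nt.EvTilt
import Pool.Agent.Lib.MP_0016c7_nt.EvTop8

open Real Filter

namespace Pool.Agent.MP0016c7.Ros

variable {N : ℕ} [NeZero N] {χ : DirichletCharacter ℂ N}

/-- reflection -/
lemma Dv_flip (hne : χ ≠ 1) (he : χ.Even) (j : ℕ) : ∀ u : ℝ, 0 ≤ u → u ≤ N * j →
    Dv χ (N * j - u) = Dv χ u := by
  induction j with
  | zero =>
    intro u hu hu'
    rw [Nat.cast_zero, mul_zero] at hu' ⊢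
    have : u = 0 := le_antisymm hu' hu
    rw [this, sub_zero]
  | succ j ih =>
    intro u hu hu'
    rcases le_or_gt u (N * j) with h | h
    · have e : (N : ℝ) * ((j + 1 : ℕ) : ℝ) - u = (N * j - u) + N := by push_cast; ring
      rw [e, Dv_add_N hne he (by linarith), ih u hu h]
    · have e : (N : ℝ) * ((j + 1 : ℕ) : ℝ) - u = N - (u - N * j) := by push_cast; ring
      push_cast at hu'
      rw [e, Dv_symm hne he (by linarith) (by linarith)]
      have h1 := Dv_add_mul hne he (u := u - N * j) (by linarith) j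
      rw [sub_add_cancel] at h1
      exact h1.symm

/-- reduction to the distance to the nearest integer -/
lemma Dv_dn (hne : χ ≠ 1) (he : χ.Even) {x : ℝ} (hx : 0 ≤ x) (e : ℕ) :
    Dv χ ((N : ℝ) * (e * x)) = Dv χ ((N : ℝ) * (e * dn x)) := by
  have hr : 0 ≤ round x := by
    rw [round_eq]
    exact Int.floor_nonneg.mpr (by linarith)
  obtain ⟨m, hm⟩ := Int.eq_ofNat_of_zero_le hr
  have hN0 : (0 : ℝ) ≤ N := Nat.cast_nonneg N
  have he0 : (0 : ℝ) ≤ e := Nat.cast_nonneg e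
  unfold dn
  rw [hm]
  have hmR : (((m : ℕ) : ℤ) : ℝ) = (m : ℝ) := by push_cast; rfl
  rw [hmR]
  rcases le_total (m : ℝ) x with h | h
  · rw [abs_of_nonneg (by linarith)]
    have h1 := Dv_add_mul hne he (u := (N : ℝ) * (e * (x - m)))
      (mul_nonneg hN0 (mul_nonneg he0 (by linarith))) (e * m)
    rw [← h1]
    congr 1
    push_cast
    ring
  · rw [abs_of_nonpos (by linarith)]
    have h0 : 0 ≤ (N : ℝ) * (e * (-(x - m))) := mul_nonneg hN0 (mul_nonneg he0 (by linarith))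
    have h1 := Dv_flip hne he (e * m) ((N : ℝ) * (e * (-(x - m)))) h0 (by
      push_cast
      have : 0 ≤ (N : ℝ) * (e * x) := by positivity
      nlinarith)
    rw [← h1]
    congr 1
    push_cast
    ring

/-- the average over the small primes -/
noncomputable def Ph (χ : DirichletCharacter ℂ N) (Λ v : ℝ) : ℝ :=
  Ef (iP χ Λ) (xs 1) lg (fun s => Dv χ (rexp (s - v)))

lemma Ph_eq (Λ v : ℝ) : Ph χ Λ v =
    EE (iP χ Λ) (xs 1) (fun A => Dv χ ((N : ℝ) * (eA A * (rexp (-v) / N)))) := by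
  have hN0 : (N : ℝ) ≠ 0 := by exact_mod_cast NeZero.ne N
  unfold Ph
  rw [Ef_eq_EE]
  apply EE_congr
  intro A hA
  rw [sub_eq_add_neg, exp_add, exp_Sm (fun p hp => iP_prime (hA hp))]
  congr 1
  field_simp

lemma Ph_dn (hne : χ ≠ 1) (he : χ.Even) (Λ v : ℝ) : Ph χ Λ v =
    EE (iP χ Λ) (xs 1) (fun A => Dv χ ((N : ℝ) * (eA A * dn (rexp (-v) / N)))) := by
  rw [Ph_eq]
  apply EE_congr
  intro A _
  exact Dv_dn hne he (by positivity) _

/-- **Lower bounds for the average over the small primes.** -/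
theorem Ph_bounds (hSW : SWd) (hχ : χ.IsPrimitive) (hne : χ ≠ 1) (h2 : χ ^ 2 = 1) (he : χ.Even)
    (hDb : 0 < Dbar χ) {U₀ : ℝ} (hU₀ : 1 ≤ U₀) : ∃ c : ℝ, 0 < c ∧ ∀ U : ℝ, 1 ≤ U →
    ∃ Λ₀ : ℝ, 1 ≤ Λ₀ ∧ ∀ Λ : ℝ, Λ₀ ≤ Λ → (∀ v, 0 ≤ v → v ≤ U₀ * Λ → c ≤ Ph χ Λ v) ∧
      ∀ v, -((N : ℝ) ^ 2 * Ef (iP χ Λ) (xs 1) lg
        (fun s => if max v (U * Λ) ≤ s then 1 else 0)) ≤ Ph χ Λ v := by
  have hN := modulus_ne_one hne
  have hN2 : (2 : ℝ) ≤ N := by
    have h1 := NeZero.pos N
    have : 2 ≤ N := by omega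
    exact_mod_cast this
  obtain ⟨c, hc, Λ₁, hΛ₁, hE1⟩ := E6 hSW hχ hne h2 he hDb hU₀
  refine ⟨c, hc, fun U hU => ?_⟩
  obtain ⟨c', hc', Λ₂, hΛ₂, hE2⟩ := E6 hSW hχ hne h2 he hDb hU
  refine ⟨Λ₁ + Λ₂, by linarith, fun Λ hΛ => ⟨fun v hv0 hv1 => ?_, fun v => ?_⟩⟩
  · rw [Ph_eq]
    apply hE1 Λ _ (by linarith) (by positivity)
    · have : rexp (-v) ≤ 1 := by rw [exp_le_one_iff]; linarith
      exact div_le_div₀ (by norm_num) this (by norm_num) hN2
    · rw [mul_div_cancel₀ _ (by positivity : (N : ℝ) ≠ 0)]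
      exact exp_le_exp.mpr (by linarith)
  · have hx : ∀ p, 0 < xs 1 p := fun p => xs_pos 1 p
    have hnn : 0 ≤ Ef (iP χ Λ) (xs 1) lg (fun s => if max v (U * Λ) ≤ s then 1 else 0) :=
      Ef_nonneg hx fun s => by split_ifs <;> norm_num
    rcases le_or_gt v (U * Λ) with hvU | hvU
    · rw [max_eq_right hvU] at hnn ⊢
      rw [Ph_dn hne he]
      set x := dn (rexp (-v) / N) with hxd
      have hx0 : 0 ≤ x := dn_nonneg _
      have hx1 : x ≤ 1 / 2 := dn_le_half _
      rcases hx0.eq_or_lt with h0 | h0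
      · rw [← h0]
        have : EE (iP χ Λ) (xs 1) (fun A => Dv χ ((N : ℝ) * (eA A * 0))) = 0 := by
          have e : EE (iP χ Λ) (xs 1) (fun A => Dv χ ((N : ℝ) * (eA A * 0))) =
              EE (iP χ Λ) (xs 1) (fun _ => (0 : ℝ)) := by
            apply EE_congr
            intro A _
            rw [mul_zero, mul_zero, Dv_of_le_one zero_le_one]
          rw [e, EE_const hx]
        rw [this]
        have : 0 ≤ (N : ℝ) ^ 2 := by positivity
        nlinarith
      · rcases le_or_gt (rexp (-(U * Λ))) (N * x) with hb | hb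
        · have := hE2 Λ x (by linarith) h0 hx1 hb
          have : 0 ≤ (N : ℝ) ^ 2 := by positivity
          nlinarith
        · rw [Ef_eq_EE, ← EE_mul, ← EE_neg]
          apply EE_mono hx
          intro A hA
          have hAp : ∀ p ∈ A, p.Prime := fun p hp => iP_prime (hA hp)
          have hD := (abs_le.mp (abs_Dv_le hne he ((N : ℝ) * (eA A * x)))).1
          by_cases hs : U * Λ ≤ Sm lg A
          · rw [if_pos hs]; linarith
          · rw [if_neg hs]
            have h3 : (N : ℝ) * (eA A * x) ≤ 1 := by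
              have h4 : (eA A : ℝ) < rexp (U * Λ) := by
                rw [← exp_Sm hAp]; exact exp_lt_exp.mpr (not_le.mp hs)
              have h5 : rexp (U * Λ) * rexp (-(U * Λ)) = 1 := by rw [← exp_add]; simp
              have h6 : (0 : ℝ) ≤ eA A := Nat.cast_nonneg _
              have h7 : (0 : ℝ) < N * x := by positivity
              calc (N : ℝ) * (eA A * x) = eA A * (N * x) := by ring
                _ ≤ rexp (U * Λ) * rexp (-(U * Λ)) :=
                    mul_le_mul h4.le hb.le h7.le (exp_pos _).le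
                _ = 1 := h5
            rw [Dv_of_le_one h3]
            simp
    · rw [max_eq_left hvU.le] at hnn ⊢
      unfold Ph
      rw [← Ef_const_mul, ← Ef_neg]
      apply Ef_mono hx
      intro s
      have hD := (abs_le.mp (abs_Dv_le hne he (rexp (s - v)))).1
      by_cases hs : v ≤ s
      · rw [if_pos hs]; linarith
      · rw [if_neg hs, Dv_exp_nonpos (by linarith [not_le.mp hs])]
        simp

/-- change of tilt in an expectation -/
lemma Ef_retilt (P : Finset ℕ) (σ a : ℝ) (H : ℝ → ℝ) :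
    Ef P (xs σ) lg (fun s => rexp (-(a * s)) * H s) =
      Zt P (xs (σ + a)) / Zt P (xs σ) * Ef P (xs (σ + a)) lg H := by
  have hZ := Zt_pos (P := P) fun p => xs_pos σ p
  have hZ' := Zt_pos (P := P) fun p => xs_pos (σ + a) p
  unfold Ef
  have h1 : ∀ A : Finset ℕ, Wt (xs σ) A * (rexp (-(a * Sm lg A)) * H (Sm lg A)) =
      Wt (xs (σ + a)) A * H (Sm lg A) := by
    intro A
    have h2 : Wt (xs (σ + a)) A = Wt (xs σ) A * rexp (-(a * Sm lg A)) := by
      unfold Wt Sm
      rw [Finset.mul_sum, ← Finset.sum_neg_distrib, exp_sum, ← Finset.prod_mul_distrib]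
      exact Finset.prod_congr rfl fun p _ => xs_shift σ a p
    rw [h2]; ring
  simp_rw [h1]
  field_simp

end Pool.Agent.MP0016c7.Ros
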