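import Mathlib
import Pool.Agent.Lib.MP_0016c7_nt.EvTilt
import Pool.Agent.Lib.MP_0016c7_nt.EvWin
import Pool.Agent.Lib.MP_0016c7_nt.RosGood3

open Real Filter

namespace Pool.Agent.MP0016c7.Ros

/-- iterated expectation -/
lemma Ef_fub {P₀ P₁ : Finset ℕ} {x l : ℕ → ℝ} (hd : Disjoint P₀ P₁) (f : ℝ → ℝ) :
    Ef (P₀ ∪ P₁) x l f = Ef P₁ x l (fun t => Ef P₀ x l (fun s => f (s + t))) := by
  classical
  unfold Ef
  have hZ : Zt (P₀ ∪ P₁) x = Zt P₀ x * Zt P₁ x := by
    unfold Zt; rw [Finset.prod_union hd]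
  have h0 : ∑ A ∈ (P₀ ∪ P₁).powerset, Wt x A * f (Sm l A) =
      ∑ B ∈ P₁.powerset, ∑ A ∈ P₀.powerset, Wt x B * (Wt x A * f (Sm l A + Sm l B)) := by
    rw [← Finset.sum_product']
    refine Finset.sum_nbij' (fun A => (A ∩ P₁, A ∩ P₀)) (fun q => q.1 ∪ q.2) ?_ ?_ ?_ ?_ ?_
    · intro A _
      rw [Finset.mem_product, Finset.mem_powerset, Finset.mem_powerset]
      exact ⟨Finset.inter_subset_right, Finset.inter_subset_right⟩
    · intro q hq
      rw [Finset.mem_product, Finset.mem_powerset, Finset.mem_powerset] at hq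
      rw [Finset.mem_powerset, Finset.union_comm]
      exact Finset.union_subset_union hq.2 hq.1
    · intro A hA
      rw [Finset.mem_powerset] at hA
      rw [← Finset.inter_union_distrib_left, Finset.union_comm P₁]
      exact Finset.inter_eq_left.mpr hA
    · intro q hq
      rw [Finset.mem_product, Finset.mem_powerset, Finset.mem_powerset] at hq
      obtain ⟨h2, h1⟩ := hq
      have d1 : q.2 ∩ P₁ = ∅ := by
        rw [← Finset.disjoint_iff_inter_eq_empty]
        exact (hd.mono_left h1)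
      have d2 : q.1 ∩ P₀ = ∅ := by
        rw [← Finset.disjoint_iff_inter_eq_empty]
        exact (hd.mono_right h2).symm
      ext1
      · simp only
        rw [Finset.union_inter_distrib_right, d1, Finset.union_empty]
        exact Finset.inter_eq_left.mpr h2
      · simp only
        rw [Finset.union_inter_distrib_right, d2, Finset.empty_union]
        exact Finset.inter_eq_left.mpr h1
    · intro A hA
      rw [Finset.mem_powerset] at hA
      have hdd : Disjoint (A ∩ P₀) (A ∩ P₁) :=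
        Finset.disjoint_of_subset_left Finset.inter_subset_right
          (Finset.disjoint_of_subset_right Finset.inter_subset_right hd)
      have hAu : (A ∩ P₀) ∪ (A ∩ P₁) = A := by
        rw [← Finset.inter_union_distrib_left]
        exact Finset.inter_eq_left.mpr hA
      have h1 : Wt x A = Wt x (A ∩ P₀) * Wt x (A ∩ P₁) := by
        unfold Wt
        rw [← Finset.prod_union hdd, hAu]
      have h2 : Sm l A = Sm l (A ∩ P₀) + Sm l (A ∩ P₁) := by
        unfold Sm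
        rw [← Finset.sum_union hdd, hAu]
      simp only
      rw [h1, h2]
      ring
  rw [h0, hZ, mul_comm (Zt P₀ x), ← div_div, Finset.sum_div, Finset.sum_div, Finset.sum_div]
  apply Finset.sum_congr rfl
  intro B _
  rw [← Finset.mul_sum]
  ring

/-- Laplace transform -/
lemma Ef_exp (P : Finset ℕ) (σ t : ℝ) :
    Ef P (xs σ) lg (fun s => rexp (t * s)) = Zt P (xs (σ - t)) / Zt P (xs σ) := by
  unfold Ef
  congr 1
  rw [← sum_Wt]
  apply Finset.sum_congr rfl
  intro A _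
  unfold Wt Sm
  simp only
  rw [Finset.mul_sum, exp_sum, ← Finset.prod_mul_distrib]
  apply Finset.prod_congr rfl
  intro p _
  have := xs_shift σ (-t) p
  rw [← sub_eq_add_neg] at this
  rw [this]
  congr 2
  ring

lemma Ef_exp_le (P : Finset ℕ) {σ t X₀ : ℝ} (ht : 0 ≤ t) (hX : Xm P (xs (σ - t)) lg ≤ X₀) :
    Ef P (xs σ) lg (fun s => rexp (t * s)) ≤ rexp (t * X₀) := by
  rw [Ef_exp]
  have hZ := Zt_pos (P := P) fun p => xs_pos σ p
  rw [div_le_iff₀ hZ]
  have h1 := Zt_conv P (σ - t) t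
  rw [sub_add_cancel] at h1
  have h2 : Zt P (xs (σ - t)) = rexp (t * Xm P (xs (σ - t)) lg) *
      (Zt P (xs (σ - t)) * rexp (-(t * Xm P (xs (σ - t)) lg))) := by
    have : rexp (t * Xm P (xs (σ - t)) lg) * rexp (-(t * Xm P (xs (σ - t)) lg)) = 1 := by
      rw [← exp_add]; simp
    calc _ = Zt P (xs (σ - t)) * 1 := (mul_one _).symm
      _ = _ := by rw [← this]; ring
  rw [h2]
  apply mul_le_mul _ h1 _ (exp_pos _).le
  · rw [exp_le_exp]
    exact mul_le_mul_of_nonneg_left hX ht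
  · have := Zt_pos (P := P) fun p => xs_pos (σ - t) p
    positivity

/-- Chernoff bound -/
lemma chern (P : Finset ℕ) {σ t X₀ : ℝ} (ht : 0 ≤ t) (hX : Xm P (xs (σ - t)) lg ≤ X₀) (y : ℝ) :
    Ef P (xs σ) lg (fun s => if y ≤ s then 1 else 0) ≤ rexp (t * X₀) * rexp (-(t * y)) := by
  have h1 : Ef P (xs σ) lg (fun s => if y ≤ s then 1 else 0) ≤
      Ef P (xs σ) lg (fun s => rexp (-(t * y)) * rexp (t * s)) := by
    apply Ef_mono fun p => xs_pos σ p
    intro s
    rw [← exp_add]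
    split_ifs with h
    · apply one_le_exp
      nlinarith only [ht, h]
    · exact (exp_pos _).le
  refine h1.trans ?_
  rw [Ef_const_mul, mul_comm]
  exact mul_le_mul_of_nonneg_right (Ef_exp_le P ht hX) (exp_pos _).le

/-- windows to the left -/
lemma win_exp_left (P : ℝ → Finset ℕ) {σ Λ z w D' a : ℝ} (ha : 0 < a) (ha1 : a ≤ 1)
    (hD : ∀ y, z - 1 ≤ y → al P 1 σ Λ y ≤ D') (hD0 : 0 ≤ D') :
    Ef (P Λ) (xs σ) lg (fun s => if z ≤ s ∧ s ≤ w then rexp (-(a * (w - s))) else 0) ≤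
      12 * D' / a := by
  have hx : ∀ p, 0 < xs σ p := fun p => xs_pos σ p
  set M := ⌈w - z⌉₊ + 1 with hM
  have h1 : Ef (P Λ) (xs σ) lg (fun s => if z ≤ s ∧ s ≤ w then rexp (-(a * (w - s))) else 0) ≤
      Ef (P Λ) (xs σ) lg (fun s => ∑ j ∈ Finset.range M,
        rexp (-(a * j)) * (if w - j - 1 ≤ s ∧ s ≤ w - j - 1 + 1 ∧ z ≤ s then 1 else 0)) := by
    apply Ef_mono hx
    intro s
    have hnn : ∀ j ∈ Finset.range M, 0 ≤ rexp (-(a * j)) *
        (if w - j - 1 ≤ s ∧ s ≤ w - j - 1 + 1 ∧ z ≤ s then (1 : ℝ) else 0) := by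
      intro j _
      split_ifs <;> simp [(exp_pos _).le]
    split_ifs with h
    · set j := ⌊w - s⌋₊ with hj
      have hj0 : (j : ℝ) ≤ w - s := Nat.floor_le (by linarith only [h, h.2])
      have hj1 : w - s < j + 1 := Nat.lt_floor_add_one _
      have hjM : j ∈ Finset.range M := by
        rw [Finset.mem_range, hM]
        have : (j : ℝ) ≤ ⌈w - z⌉₊ := by
          have := Nat.le_ceil (w - z)
          linarith only [h, hj0, this, h.1]
        have : j ≤ ⌈w - z⌉₊ := by exact_mod_cast this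
        omega
      refine le_trans ?_ (Finset.single_le_sum hnn hjM)
      rw [if_pos ⟨by linarith, by linarith, h.1⟩, mul_one, exp_le_exp]
      nlinarith only [ha, hj0]
    · exact Finset.sum_nonneg hnn
  refine h1.trans ?_
  rw [Ef_sum]
  have h2 : ∀ j ∈ Finset.range M, rexp (-(a * j)) * Ef (P Λ) (xs σ) lg
      (fun s => if w - j - 1 ≤ s ∧ s ≤ w - j - 1 + 1 ∧ z ≤ s then 1 else 0) ≤
      rexp (-(a * j)) * ((1 + 1) * (rexp 1 * D')) := by
    intro j _
    apply mul_le_mul_of_nonneg_left _ (exp_pos _).le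
    by_cases hc : w - j < z
    · have : Ef (P Λ) (xs σ) lg
          (fun s => if w - j - 1 ≤ s ∧ s ≤ w - j - 1 + 1 ∧ z ≤ s then 1 else 0) ≤
          Ef (P Λ) (xs σ) lg (fun _ => 0) := by
        apply Ef_mono hx
        intro s
        rw [if_neg]
        rintro ⟨_, h3, h4⟩
        linarith
      rw [Ef_const hx] at this
      refine this.trans ?_
      positivity
    · have h3 := win_le P (σ := σ) (Λ := Λ) (z := w - j - 1) (w := 1)
        (fun y hy => hD y (by linarith)) hD0 zero_le_one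
      refine le_trans (Ef_mono hx fun s => ?_) h3
      by_cases h4 : w - j - 1 ≤ s ∧ s ≤ w - j - 1 + 1 ∧ z ≤ s
      · rw [if_pos h4, if_pos ⟨h4.1, h4.2.1⟩]
      · rw [if_neg h4]; split_ifs <;> norm_num
  refine (Finset.sum_le_sum h2).trans ?_
  rw [← Finset.sum_mul]
  have h3 : ∑ j ∈ Finset.range M, rexp (-(a * j)) ≤ 2 / a := by
    have e1 : ∀ j ∈ Finset.range M, rexp (-(a * j)) = rexp (-a) ^ j := by
      intro j _
      rw [← exp_nat_mul]; congr 1; ring
    rw [Finset.sum_congr rfl e1]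
    have hr1 : rexp (-a) < 1 := by rw [exp_lt_one_iff]; linarith
    have hr0 : 0 ≤ rexp (-a) := (exp_pos _).le
    rw [geom_sum_eq hr1.ne M]
    have h5 : a / 2 ≤ 1 - rexp (-a) := by
      have h7 : rexp (-a) ≤ 1 / (1 + a) := by
        rw [exp_neg, ← one_div]
        exact one_div_le_one_div_of_le (by linarith) (by linarith [add_one_le_exp a])
      have h8 : 1 / (1 + a) ≤ 1 - a / 2 := by
        rw [div_le_iff₀ (by linarith)]
        nlinarith only [ha, ha1]
      linarith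
    have h6 : (rexp (-a) ^ M - 1) / (rexp (-a) - 1) = (1 - rexp (-a) ^ M) / (1 - rexp (-a)) := by
      rw [← neg_div_neg_eq]; congr 1 <;> ring
    rw [h6, div_le_div_iff₀ (by linarith only [hr1]) ha]
    have h7 : 0 ≤ rexp (-a) ^ M := pow_nonneg hr0 M
    nlinarith only [h5, ha, h7]
  have he : rexp 1 ≤ 3 := by linarith only [exp_one_lt_d9]
  calc (∑ j ∈ Finset.range M, rexp (-(a * j))) * ((1 + 1) * (rexp 1 * D')) ≤
      2 / a * ((1 + 1) * (3 * D')) := by
        apply mul_le_mul h3 _ (by positivity) (by positivity)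
        apply mul_le_mul_of_nonneg_left _ (by norm_num)
        exact mul_le_mul_of_nonneg_right he hD0
    _ = 12 * D' / a := by ring

variable {P : ℝ → Finset ℕ} {C₀ : ℝ} {C₁ Cs : ℝ → ℝ}

lemma RR_div_anti (hM : MDat P C₀ C₁ Cs) {σ σ' Λ : ℝ} (h0 : 0 ≤ σ) (h : σ ≤ σ') (hσ' : σ' ≤ 1)
    (hΛ : 16 * C₀ ≤ Λ) (hΛ0 : 0 < Λ) :
    RR P σ Λ / XX P σ Λ ≤ RR P σ' Λ / XX P σ' Λ := by
  have v1 := hM.VV_pos (σ := σ') (by linarith) hσ' hΛ hΛ0
  have v2 := hM.VV_pos (σ := σ) h0 (by linarith) hΛ hΛ0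
  have x1 := hM.XX_pos (σ := σ') (by linarith) hσ' hΛ hΛ0
  have x2 := hM.XX_pos (σ := σ) h0 (by linarith) hΛ hΛ0
  have s1 : 0 < √(VV P σ' Λ) := sqrt_pos.mpr v1
  have s2 : 0 < √(VV P σ Λ) := sqrt_pos.mpr v2
  have e : ∀ X V : ℝ, 0 < X → 0 < V → (1 + X / V) / X = 1 / X + 1 / V := by
    intro X V hX hV
    field_simp
  unfold RR
  rw [e _ _ x2 s2, e _ _ x1 s1]
  have h1 := XX_anti P (Λ := Λ) h0 h
  have h2 := VV_anti P (Λ := Λ) h0 h
  exact add_le_add (one_div_le_one_div_of_le x1 h1)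
    (one_div_le_one_div_of_le s1 (sqrt_le_sqrt h2))

/-- **Lower bound for windows below the mean.** -/
theorem low_win (hM : MDat P C₀ C₁ Cs) : ∃ c : ℝ, 0 < c ∧ ∃ K : ℝ, 1 ≤ K ∧ ∃ a₀ : ℝ, 0 < a₀ ∧
    a₀ ≤ 1 / 4 ∧ ∃ Λ₀ : ℝ, 1 ≤ Λ₀ ∧ ∀ Λ a : ℝ, Λ₀ ≤ Λ → K / Λ ≤ a → a ≤ a₀ →
    c * (1 / a) * (RR P (1 - a) Λ / XX P (1 - a) Λ) ≤
      Ef (P Λ) (xs (1 - a)) lg
        (fun s => if XX P (1 - a) Λ - 1 / a ≤ s ∧ s ≤ XX P (1 - a) Λ then 1 else 0) := by
  have hC0 := hM.C0
  obtain ⟨D, hD, Λ₁, hΛ₁, hU⟩ := hM.UBa (τ₀ := 1 / 2) (σ₂ := 1 / 2) (by norm_num) (by norm_num)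
  obtain ⟨c, hc, b₀, hb₀, Λ₂, hΛ₂, hL⟩ := hM.LBa (τ₀ := 1 / 2) (σ₂ := 1 / 2) (by norm_num)
    (by norm_num)
  set c' := c / 2 with hc'
  have hc'0 : 0 < c' := by positivity
  set a₀ := min (1 / 4) (c' / (16 * D)) with ha₀
  have ha₀0 : 0 < a₀ := by rw [ha₀]; positivity
  refine ⟨c' / 12, by positivity, 128 + 2 * b₀, by linarith only [hb₀], a₀, ha₀0, min_le_left _ _,
    Λ₁ + Λ₂ + 16 * C₀, by linarith, fun Λ a hΛ haK haa => ?_⟩
  have hΛ0 : 0 < Λ := by linarith only [hC0, hΛ₁, hΛ₂, hΛ]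
  have hΛ16 : 16 * C₀ ≤ Λ := by linarith
  have ha14 : a ≤ 1 / 4 := haa.trans (min_le_left _ _)
  have ha0 : 0 < a := lt_of_lt_of_le (by (clear * - hb₀ hΛ0; positivity)) haK
  have haD : a ≤ c' / (16 * D) := haa.trans (min_le_right _ _)
  have haΛ : 128 + 2 * b₀ ≤ a * Λ := by rwa [div_le_iff₀ hΛ0] at haK
  set σ := 1 - a with hσ
  have hσ0 : 0 ≤ σ := by linarith only [ha14]
  have hσ1 : σ ≤ 1 := by linarith only [ha0]
  set W := XX P σ Λ with hW
  have hWpos : 0 < W := hM.XX_pos hσ0 hσ1 hΛ16 hΛ0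
  have ha1 : 0 < 1 / a := by positivity
  have h1Λ : 1 / a ≤ Λ / 128 := by
    rw [div_le_div_iff₀ ha0 (by norm_num)]
    linarith
  -- the mean is at least `Λ`
  have hWΛ : Λ / 2 ≤ W := by
    have h1 := hM.XX_big hσ0 hσ1 hΛ16 hΛ0
    have h2 : 32 ≤ rexp ((1 - σ) * Λ / 2) := by
      have h3 := add_one_le_exp ((1 - σ) * Λ / 2)
      have h4 : (1 - σ) * Λ = a * Λ := by rw [hσ]; ring
      rw [h4] at h3 ⊢
      linarith only [hb₀, haΛ, h3]
    have := mul_le_mul_of_nonneg_left h2 hΛ0.le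
    linarith only [h1, this]
  -- the mean at the larger tilt
  have hVσ₁ : 2 / a ^ 2 ≤ VV P (σ + a / 2) Λ := by
    have h1 := hM.VV_ge (σ := σ + a / 2) (by linarith only [ha14]) (by linarith only [ha0]) hΛ16
    refine le_trans ?_ h1
    have h2 : 1 ≤ rexp ((1 - (σ + a / 2)) * Λ / 2) := by
      apply one_le_exp
      have : 1 - (σ + a / 2) = a / 2 := by rw [hσ]; ring
      rw [this]
      positivity
    have h3 : 2 / a ^ 2 ≤ Λ ^ 2 / 64 := by
      rw [div_le_div_iff₀ (by positivity) (by norm_num)]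
      have : 128 ≤ a * Λ := by linarith only [hb₀, haΛ]
      nlinarith only [hb₀, haΛ]
    have h4 : Λ ^ 2 * 1 ≤ Λ ^ 2 * rexp ((1 - (σ + a / 2)) * Λ / 2) :=
      mul_le_mul_of_nonneg_left h2 (by positivity)
    linarith only [h3, h4]
  have hXσ₁ : XX P (σ + a / 2) Λ ≤ W - 1 / a := by
    have h1 := XX_sub_ge P (Λ := Λ) hσ0 (by linarith only [ha0] : σ ≤ σ + a / 2)
    have h2 : 1 / a ≤ (σ + a / 2 - σ) * VV P (σ + a / 2) Λ := by
      have e : σ + a / 2 - σ = a / 2 := by ring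
      rw [e]
      have h3 := mul_le_mul_of_nonneg_left hVσ₁ (by positivity : 0 ≤ a / 2)
      have h4 : a / 2 * (2 / a ^ 2) = 1 / a := by field_simp
      linarith only [h3, h4]
    linarith only [h1, h2]
  -- pointwise lower bound
  have hpt : ∀ y, W - 1 / a ≤ y → y ≤ W → c' * (RR P σ Λ / W) ≤ al P (1 / 2) σ Λ y := by
    intro y hy1 hy2
    obtain ⟨σ', hσ', hX'⟩ := intermediate_value_Icc' (f := fun σ => XX P σ Λ)
      (by linarith only [ha0] : σ ≤ σ + a / 2) (hM.continuous_XX Λ).continuousOn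
      ⟨hXσ₁.trans hy1, hy2⟩
    simp only at hX'
    obtain ⟨s1, s2⟩ := hσ'
    set t := σ' - σ with ht
    have ht0 : 0 ≤ t := by linarith only [s1]
    have hta : t ≤ a / 2 := by linarith only [s2]
    have e : σ + t = σ' := by rw [ht]; ring
    have h1 := al_tilt P (1 / 2) σ t Λ y
    rw [e] at h1
    have h3 := Zt_conv (P Λ) σ t
    rw [e] at h3
    have hZ := Zt_pos (P := P Λ) fun p => xs_pos σ p
    have h4 : rexp (-(t * W)) ≤ Zt (P Λ) (xs σ') / Zt (P Λ) (xs σ) := by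
      rw [le_div_iff₀ hZ, mul_comm]
      exact h3
    have h5 : rexp (-(1 / 2)) ≤ Zt (P Λ) (xs σ') / Zt (P Λ) (xs σ) * rexp (t * y) := by
      refine le_trans ?_ (mul_le_mul_of_nonneg_right h4 (exp_pos _).le)
      rw [← exp_add, exp_le_exp]
      have h6 : t * (W - y) ≤ a / 2 * (1 / a) :=
        mul_le_mul hta (by linarith only [hy1]) (by linarith only [hy2]) (by positivity)
      have h7 : a / 2 * (1 / a) = 1 / 2 := by field_simp
      linarith only [h6, h7]
    have h6 := hL σ' Λ (1 / 2 + t) y (by linarith only [ha14, s1]) (by linarith only [ha0, s2]) (by linarith only [hC0, hΛ₁, hΛ]) (by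
      have : a / 2 * Λ ≤ (1 - σ') * Λ := mul_le_mul_of_nonneg_right (by linarith only [s2]) hΛ0.le
      linarith only [haΛ, this]) (by linarith only [s1]) (by linarith only [ha14, ha0, s2]) (by rw [hX']; simp)
    rw [h1]
    have h7 : RR P σ Λ / W ≤ RR P σ' Λ / XX P σ' Λ :=
      RR_div_anti hM hσ0 s1 (by linarith only [ha0, s2]) hΛ16 hΛ0
    have h8 : (1 : ℝ) / 2 ≤ rexp (-(1 / 2)) := by
      have := add_one_le_exp (-(1 / 2 : ℝ))
      linarith only [this]
    have hRR0 : 0 ≤ RR P σ Λ / W := by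
      have := (hM.RR_ge hσ0 hσ1 hΛ16 hΛ0).1
      positivity
    calc c' * (RR P σ Λ / W) = 1 / 2 * (c * (RR P σ Λ / W)) := by rw [hc']; ring
      _ ≤ rexp (-(1 / 2)) * (c * (RR P σ' Λ / XX P σ' Λ)) := by
          apply mul_le_mul h8 _ (by positivity) (exp_pos _).le
          exact mul_le_mul_of_nonneg_left h7 hc.le
      _ ≤ _ := by
          apply mul_le_mul h5 _ (mul_nonneg hc.le (hRR0.trans h7)) ((exp_pos _).le.trans h5)
          rw [mul_div_assoc] at h6
          exact h6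
  -- windows
  set m := ⌊1 / a⌋₊ with hm
  have hm1 : (m : ℝ) ≤ 1 / a := Nat.floor_le ha1.le
  have hm2 : 1 / a < m + 1 := Nat.lt_floor_add_one _
  have h4a : 4 ≤ 1 / a := by
    rw [le_div_iff₀ ha0]; linarith only [ha14]
  have hm3 : 3 / 4 * (1 / a) ≤ m := by linarith only [hm2, h4a]
  have hRR1 := (hM.RR_ge hσ0 hσ1 hΛ16 hΛ0).1
  set ψ := RR P σ Λ / W with hψ
  have hψ0 : 0 < ψ := by rw [hψ]; positivity
  have key : (m : ℝ) * (c' * ψ) ≤ 3 * Ef (P Λ) (xs σ) lg
      (fun s => if W - m ≤ s ∧ s ≤ W then 1 else 0) + 2 * al P (1 / 2) σ Λ (W - m) := by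
    have h1 : Ef (P Λ) (xs σ) lg (fun s => ∑ j ∈ Finset.range m,
        1 * kt (1 / 2) (W - m + (j + 1) - s)) ≤
        Ef (P Λ) (xs σ) lg (fun s => 3 * (if W - m ≤ s ∧ s ≤ W then 1 else 0) +
          2 * kt (1 / 2) (W - m - s)) := by
      apply Ef_mono fun p => xs_pos σ p
      intro s
      have := kt_window (τ := 1 / 2) le_rfl (W - m) s m
      simp only [one_mul]
      rw [sub_add_cancel] at this
      exact this
    rw [Ef_sum, Ef_add, Ef_const_mul, Ef_const_mul] at h1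
    refine le_trans ?_ h1
    have h2 : ∀ j ∈ Finset.range m, c' * ψ ≤
        1 * Ef (P Λ) (xs σ) lg (fun s => kt (1 / 2) (W - m + (j + 1) - s)) := by
      intro j hj
      rw [Finset.mem_range] at hj
      have hjR : (j : ℝ) + 1 ≤ m := by exact_mod_cast hj
      have hj0 : (0 : ℝ) ≤ j := Nat.cast_nonneg j
      rw [one_mul]
      exact hpt (W - m + (j + 1)) (by linarith only [ha14, ha0, hm1]) (by linarith only [hjR])
    have h3 := Finset.card_nsmul_le_sum _ _ _ h2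
    rw [Finset.card_range, nsmul_eq_mul] at h3
    exact h3
  have hup : al P (1 / 2) σ Λ (W - m) ≤ 2 * D * ψ := by
    have hz : W / 2 ≤ W - m := by linarith only [ha14, ha0, h1Λ, hWΛ, hm1, h4a]
    have h1 := hU σ Λ (1 / 2) (W - m) (by linarith only [ha14, ha0]) hσ1 (by linarith only [hC0, hΛ₂, hΛ, ha14, ha0]) le_rfl (by norm_num)
      (by linarith only [ha14, ha0, h1Λ, hWΛ, hm1, h4a])
    refine h1.trans ?_
    have h2 : D * RR P σ Λ / (W - m) ≤ D * RR P σ Λ / (W / 2) :=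
      div_le_div_of_nonneg_left (by positivity) (by positivity) hz
    refine h2.trans (le_of_eq ?_)
    rw [hψ]; field_simp
  have hD2 : 8 * D ≤ c' * m := by
    rw [le_div_iff₀ (by positivity)] at haD
    have h1 : 16 * D ≤ c' * (1 / a) := by
      rw [mul_one_div, le_div_iff₀ ha0]; linarith only [haD]
    have h2 := mul_le_mul_of_nonneg_left hm3 hc'0.le
    nlinarith only [hD, h1, h2]
  have hfin : c' / 12 * (1 / a) * ψ ≤ Ef (P Λ) (xs σ) lg
      (fun s => if W - m ≤ s ∧ s ≤ W then 1 else 0) := by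
    have h1 : 4 * (D * ψ) ≤ c' * m * ψ / 2 := by
      have := mul_le_mul_of_nonneg_right hD2 hψ0.le
      linarith only [this]
    have h2 : c' * (3 / 4 * (1 / a)) * ψ ≤ c' * m * ψ :=
      mul_le_mul_of_nonneg_right (mul_le_mul_of_nonneg_left hm3 hc'0.le) hψ0.le
    have h3 : 0 < c' * (1 / a) * ψ := by positivity
    nlinarith only [key, hup, h1, h2, h3]
  refine hfin.trans (Ef_mono (fun p => xs_pos σ p) fun s => ?_)
  by_cases h : W - m ≤ s ∧ s ≤ W
  · rw [if_pos h, if_pos ⟨by linarith only [hm1, h, h.1], h.2⟩]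
  · rw [if_neg h]; split_ifs <;> norm_num

end Pool.Agent.MP0016c7.Ros
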