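import Mathlib
import Pool.Agent.Lib.MP_0016c7_nt.EvJ1
import Pool.Agent.Lib.MP_0016c7_nt.FekPos2

open Real Set MeasureTheory Filter Topology

namespace Pool.Agent.MP0016c7.Ros

open DirichletCharacter

/-- analytic continuation from real points -/
lemma eq_on_half_real {F G : ℂ → ℂ} {a : ℝ} (ha : a < 2)
    (hF : ∀ s : ℂ, a < s.re → DifferentiableAt ℂ F s)
    (hG : ∀ s : ℂ, a < s.re → DifferentiableAt ℂ G s) (h : ∀ s : ℝ, 1 < s → F s = G s)
    {s : ℂ} (hs : a < s.re) : F s = G s := by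
  set U : Set ℂ := {z | a < z.re} with hU
  have hUo : IsOpen U := isOpen_lt continuous_const Complex.continuous_re
  have hUp : IsPreconnected U := (convex_halfSpace_re_gt a).isPreconnected
  have hFd : DifferentiableOn ℂ F U := fun z hz => (hF z hz).differentiableWithinAt
  have hGd : DifferentiableOn ℂ G U := fun z hz => (hG z hz).differentiableWithinAt
  have hf : AnalyticOnNhd ℂ F U := hFd.analyticOnNhd hUo
  have hg : AnalyticOnNhd ℂ G U := hGd.analyticOnNhd hUo
  have h2 : (2 : ℂ) ∈ U := by simp [hU, ha]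
  have hfreq : ∃ᶠ z in 𝓝[≠] (2 : ℂ), F z = G z := by
    have hlim : Tendsto (fun n : ℕ => ((2 + 1 / ((n : ℝ) + 1) : ℝ) : ℂ)) atTop (𝓝[≠] (2 : ℂ)) := by
      rw [tendsto_nhdsWithin_iff]
      constructor
      · have h3 : Tendsto (fun n : ℕ => (2 + 1 / ((n : ℝ) + 1) : ℝ)) atTop (𝓝 (2 + 0)) :=
          tendsto_one_div_add_atTop_nhds_zero_nat.const_add 2
        rw [add_zero] at h3
        exact (Complex.continuous_ofReal.tendsto (2 : ℝ)).comp h3
      · refine Eventually.of_forall fun n => ?_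
        rw [mem_compl_iff, mem_singleton_iff]
        intro hc
        have h4 : (2 + 1 / ((n : ℝ) + 1) : ℝ) = 2 := by exact_mod_cast hc
        have h5 : 0 < 1 / ((n : ℝ) + 1) := by positivity
        linarith
    refine hlim.frequently (Frequently.of_forall fun n => ?_)
    apply h
    have h5 : 0 < 1 / ((n : ℝ) + 1) := by positivity
    linarith
  exact hf.eqOn_of_preconnected_of_frequently_eq hg hUp h2 hfreq hs

variable {N : ℕ} [NeZero N] {χ : DirichletCharacter ℂ N}

/-- the function as a complex valued one -/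
noncomputable def DC (χ : DirichletCharacter ℂ N) (t : ℝ) : ℂ := ((Dv χ t : ℝ) : ℂ)

lemma differentiableAt_mellin_DC (hne : χ ≠ 1) (he : χ.Even) {s : ℂ} (hs : s.re < 0) :
    DifferentiableAt ℂ (mellin (DC χ)) s := by
  refine mellin_differentiableAt_of_isBigO_rpow (a := 0) (b := s.re - 1) ?_ ?_ hs ?_
    (by linarith)
  · apply Continuous.locallyIntegrable _ |>.locallyIntegrableOn
    exact Complex.continuous_ofReal.comp continuous_Dv
  · refine Asymptotics.IsBigO.of_bound ((N : ℝ) ^ 2) (Eventually.of_forall fun t => ?_)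
    unfold DC
    rw [Complex.norm_real, Real.norm_eq_abs, neg_zero, rpow_zero, norm_one, mul_one]
    exact abs_Dv_le hne he t
  · refine Asymptotics.IsBigO.of_bound 1 ?_
    have h1 : ∀ᶠ t : ℝ in 𝓝[>] 0, t < 1 := nhdsWithin_le_nhds (gt_mem_nhds one_pos)
    filter_upwards [h1] with t ht
    unfold DC
    rw [Dv_of_le_one ht.le]
    simp

omit [NeZero N] in
lemma mellin_DC_real (a : ℝ) : mellin (DC χ) ((-a : ℝ) : ℂ) = ((JD χ a : ℝ) : ℂ) := by
  rw [mellin_real_eq]
  have h1 := Measure.integral_comp_mul_left (fun y : ℝ => rexp (-(a * y)) * Dv χ (rexp y)) 2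
  have h2 : ∀ t : ℝ, (rexp (2 * -a * t) : ℂ) * DC χ (rexp (2 * t)) =
      ((rexp (-(a * (2 * t))) * Dv χ (rexp (2 * t)) : ℝ) : ℂ) := by
    intro t
    have e1 : 2 * -a * t = -(a * (2 * t)) := by ring
    rw [e1]
    unfold DC
    push_cast
    rfl
  simp_rw [h2]
  rw [integral_complex_ofReal, h1, ← Complex.ofReal_ofNat, ← Complex.ofReal_mul]
  congr 1
  unfold JD
  rw [smul_eq_mul, abs_of_pos (by norm_num)]
  ring

/-- the continued transform -/
noncomputable def GD (χ : DirichletCharacter ℂ N) (s : ℂ) : ℂ :=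
  completedLFunction χ s / (2 * π * Complex.Gammaℝ (s + 2))

lemma differentiableAt_GD (hne : χ ≠ 1) {s : ℂ} (hs : -2 < s.re) :
    DifferentiableAt ℂ (GD χ) s := by
  unfold GD
  have h2 : 0 < (s + 2).re := by
    rw [Complex.add_re]; norm_num; linarith
  apply DifferentiableAt.div
  · exact differentiable_completedLFunction hne s
  · apply DifferentiableAt.const_mul
    exact DifferentiableAt.comp (f := fun s : ℂ => s + 2) (g := Complex.Gammaℝ) s
        (differentiableAt_Gammaℝ h2) (by fun_prop)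
  · have h3 := Complex.Gammaℝ_ne_zero_of_re_pos h2
    have h4 : (π : ℂ) ≠ 0 := by exact_mod_cast pi_ne_zero
    exact mul_ne_zero (mul_ne_zero two_ne_zero h4) h3

lemma GD_eq (hne : χ ≠ 1) (he : χ.Even) {s : ℂ} (hs : 0 < s.re) :
    GD χ s = LFunction χ s / s := by
  have hN := modulus_ne_one hne
  have hs0 : s ≠ 0 := by rintro rfl; simp at hs
  rw [LFunction_eq_completed_div_gammaFactor χ s (Or.inr hN), he.gammaFactor_def]
  unfold GD
  rw [Complex.Gammaℝ_add_two hs0]
  have h := Complex.Gammaℝ_ne_zero_of_re_pos hs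
  have h4 : (π : ℂ) ≠ 0 := by exact_mod_cast pi_ne_zero
  field_simp

/-- **The transform in the larger half plane.** -/
theorem JD_eq_GD (hne : χ ≠ 1) (h2 : χ ^ 2 = 1) (he : χ.Even) {a : ℝ} (ha : 0 < a) :
    ((a * JD χ a : ℝ) : ℂ) = GD χ ((a - 1 : ℝ) : ℂ) := by
  have key := eq_on_half_real (a := -1) (by norm_num)
    (F := fun s => (s + 1) * mellin (DC χ) (-(s + 1))) (G := GD χ)
    (fun s hs => by
      have h3 : (-(s + 1)).re < 0 := by
        rw [Complex.neg_re, Complex.add_re, Complex.one_re]; linarith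
      apply DifferentiableAt.mul (by fun_prop)
      exact DifferentiableAt.comp (f := fun s : ℂ => -(s + 1)) (g := mellin (DC χ)) s
        (differentiableAt_mellin_DC hne he h3) (by fun_prop))
    (fun s hs => differentiableAt_GD hne (by linarith))
    (fun s hs => by
      rw [GD_eq hne he (by simpa using (by linarith : (0 : ℝ) < s)),
        LFunction_eq_Lr hne h2 (by linarith : 0 < s)]
      have e : (-((s : ℂ) + 1)) = ((-(s + 1) : ℝ) : ℂ) := by push_cast; ring
      rw [e, mellin_DC_real]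
      have h3 := JD_of_two_lt hne h2 (a := s + 1) (by linarith)
      rw [add_sub_cancel_right] at h3
      rw [← Complex.ofReal_div, ← h3]
      push_cast
      ring)
    (s := ((a - 1 : ℝ) : ℂ)) (by rw [Complex.ofReal_re]; linarith)
  rw [← key]
  have e : (-(((a - 1 : ℝ) : ℂ) + 1)) = ((-a : ℝ) : ℂ) := by push_cast; ring
  rw [e, mellin_DC_real]
  push_cast
  ring

/-- positivity of the continued transform -/
theorem GD_pos (hχ : χ.IsPrimitive) (hne : χ ≠ 1) (h2 : χ ^ 2 = 1)
    (hL : ∀ s : ℝ, 0 < s → s < 1 → 0 < Lr χ s) {s : ℝ} (hs : -2 < s) :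
    ∃ v : ℝ, 0 < v ∧ GD χ s = (v : ℂ) := by
  obtain ⟨v, hv, e1⟩ := completed_pos hχ hne h2 hL s
  obtain ⟨w, hw, e2⟩ := Gammaℝ_pos (x := s + 2) (by linarith)
  refine ⟨v / (2 * π * w), by positivity, ?_⟩
  unfold GD
  rw [e1]
  have e3 : (s : ℂ) + 2 = ((s + 2 : ℝ) : ℂ) := by push_cast; ring
  rw [e3, e2]
  push_cast
  ring

end Pool.Agent.MP0016c7.Ros
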