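import Mathlib
import Pool.Agent.Lib.MP_0016c7_nt.EvJ2
import Pool.Agent.Lib.MP_0016c7_nt.EvTrig

open Real Set MeasureTheory Filter Topology

namespace Pool.Agent.MP0016c7.Ros

open DirichletCharacter

variable {N : ℕ} [NeZero N] {χ : DirichletCharacter ℂ N}

/-- the primitive of the centred function -/
noncomputable def ED (χ : DirichletCharacter ℂ N) (u : ℝ) : ℝ :=
  ∫ v in (0 : ℝ)..u, (Dv χ v - Dbar χ)

lemma continuous_cDv : Continuous fun v : ℝ => Dv χ v - Dbar χ :=
  continuous_Dv.sub continuous_const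

lemma hasDerivAt_ED (u : ℝ) : HasDerivAt (ED χ) (Dv χ u - Dbar χ) u :=
  intervalIntegral.integral_hasDerivAt_right (continuous_cDv.intervalIntegrable _ _)
    continuous_cDv.aestronglyMeasurable.stronglyMeasurableAtFilter continuous_cDv.continuousAt

lemma abs_Dbar_le (hne : χ ≠ 1) (he : χ.Even) : |Dbar χ| ≤ (N : ℝ) ^ 2 := by
  rw [← integral_Dv hne he]
  have h := intervalIntegral.norm_integral_le_of_norm_le_const (a := (0 : ℝ)) (b := 1)
    (f := fun a => Dv χ ((N : ℝ) * a)) (C := (N : ℝ) ^ 2) (fun a _ => abs_Dv_le hne he _)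
  rw [Real.norm_eq_abs] at h
  simpa using h

lemma period_int (hne : χ ≠ 1) (he : χ.Even) (i : ℕ) :
    ∫ v in ((N : ℝ) * i)..((N : ℝ) * (i + 1 : ℕ)), (Dv χ v - Dbar χ) = 0 := by
  have hN : (0 : ℝ) < N := by exact_mod_cast NeZero.pos N
  have h1 := intervalIntegral.integral_comp_add_right (a := (0 : ℝ)) (b := N)
    (fun v => Dv χ v - Dbar χ) ((N : ℝ) * i)
  have e1 : (0 : ℝ) + N * i = N * i := by ring
  have e2 : (N : ℝ) + N * i = N * (i + 1 : ℕ) := by push_cast; ring
  rw [e1, e2] at h1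
  rw [← h1]
  have h2 : ∫ v in (0 : ℝ)..N, (Dv χ (v + N * i) - Dbar χ) =
      ∫ v in (0 : ℝ)..N, (Dv χ v - Dbar χ) := by
    apply intervalIntegral.integral_congr
    intro v hv
    rw [uIcc_of_le hN.le] at hv
    simp only
    rw [Dv_add_mul hne he hv.1 i]
  rw [h2, intervalIntegral.integral_sub (continuous_Dv.intervalIntegrable _ _)
    (continuous_const.intervalIntegrable _ _)]
  have h3 := intervalIntegral.mul_integral_comp_mul_left (a := (0 : ℝ)) (b := 1)
    (f := Dv χ) (N : ℝ)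
  rw [mul_zero, mul_one, integral_Dv hne he] at h3
  rw [← h3, intervalIntegral.integral_const]
  simp

lemma ED_period (hne : χ ≠ 1) (he : χ.Even) (m : ℕ) : ED χ ((N : ℝ) * m) = 0 := by
  unfold ED
  have h := intervalIntegral.sum_integral_adjacent_intervals (μ := volume)
    (f := fun v => Dv χ v - Dbar χ) (a := fun i : ℕ => (N : ℝ) * i) (n := m)
    (fun k _ => continuous_cDv.intervalIntegrable _ _)
  simp only [Nat.cast_zero, mul_zero] at h
  rw [← h]
  exact Finset.sum_eq_zero fun i _ => period_int hne he i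

lemma abs_ED_le (hne : χ ≠ 1) (he : χ.Even) {u : ℝ} (hu : 0 ≤ u) :
    |ED χ u| ≤ 2 * (N : ℝ) ^ 3 := by
  have hN : (0 : ℝ) < N := by exact_mod_cast NeZero.pos N
  set m := ⌊u / N⌋₊ with hm
  have h1 : (N : ℝ) * m ≤ u := by
    have := Nat.floor_le (div_nonneg hu hN.le)
    rw [le_div_iff₀ hN] at this
    rw [mul_comm]; exact this
  have h2 : u < N * m + N := by
    have := Nat.lt_floor_add_one (u / N)
    rw [div_lt_iff₀ hN] at this
    rw [← hm] at this
    linarith
  have h3 : ED χ u = ∫ v in ((N : ℝ) * m)..u, (Dv χ v - Dbar χ) := by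
    have h4 := intervalIntegral.integral_add_adjacent_intervals
      (continuous_cDv (χ := χ).intervalIntegrable (μ := volume) 0 ((N : ℝ) * m))
      (continuous_cDv (χ := χ).intervalIntegrable (μ := volume) ((N : ℝ) * m) u)
    have h5 := ED_period hne he m
    unfold ED at h5 ⊢
    rw [← h4, h5, zero_add]
  rw [h3, ← Real.norm_eq_abs]
  refine (intervalIntegral.norm_integral_le_of_norm_le_const (C := 2 * (N : ℝ) ^ 2)
    (fun v _ => ?_)).trans ?_
  · rw [Real.norm_eq_abs]
    have h6 := abs_Dv_le hne he v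
    have h7 := abs_Dbar_le hne he
    have := abs_sub (Dv χ v) (Dbar χ)
    linarith
  · rw [abs_of_nonneg (by linarith)]
    calc 2 * (N : ℝ) ^ 2 * (u - N * m) ≤ 2 * (N : ℝ) ^ 2 * N :=
          mul_le_mul_of_nonneg_left (by linarith) (by positivity)
      _ = _ := by ring

/-- **The mean value as a limit.** -/
theorem JD_mean (hne : χ ≠ 1) (he : χ.Even) {a : ℝ} (ha : 0 < a) :
    |a * JD χ a - Dbar χ| ≤ 4 * (N : ℝ) ^ 3 * a := by
  have hN : (0 : ℝ) < N := by exact_mod_cast NeZero.pos N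
  have ha1 : 0 < 1 + a := by linarith
  set H : ℝ → ℝ := fun y => ED χ (rexp y) * rexp (-((1 + a) * y)) with hH
  set H' : ℝ → ℝ := fun y => (Dv χ (rexp y) - Dbar χ) * rexp (-(a * y)) -
    (1 + a) * (ED χ (rexp y) * rexp (-((1 + a) * y))) with hH'
  have hcE : Continuous (ED χ) :=
    continuous_iff_continuousAt.mpr fun u => (hasDerivAt_ED u).continuousAt
  have hder : ∀ y : ℝ, HasDerivAt H (H' y) y := by
    intro y
    have h1 : HasDerivAt (fun y => ED χ (rexp y)) ((Dv χ (rexp y) - Dbar χ) * rexp y) y :=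
      (hasDerivAt_ED (χ := χ) (rexp y)).comp y (Real.hasDerivAt_exp y)
    have h2 : HasDerivAt (fun y : ℝ => rexp (-((1 + a) * y)))
        (rexp (-((1 + a) * y)) * -((1 + a) * 1)) y :=
      (((hasDerivAt_id y).const_mul (1 + a)).fun_neg).exp
    refine (h1.mul h2).congr_deriv ?_
    simp only [hH']
    have e : rexp (-(a * y)) = rexp y * rexp (-((1 + a) * y)) := by
      rw [← exp_add]; congr 1; ring
    rw [e]; ring
  have i1 : IntegrableOn (fun y => (Dv χ (rexp y) - Dbar χ) * rexp (-(a * y))) (Ioi 0) := by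
    refine Integrable.mono' ((integrableOn_exp_neg' ha 0).const_mul (2 * (N : ℝ) ^ 2)) ?_ ?_
    · apply Continuous.aestronglyMeasurable
      exact (continuous_cDv.comp continuous_exp).mul (by fun_prop)
    · refine Eventually.of_forall fun y => ?_
      rw [Real.norm_eq_abs, abs_mul, abs_of_pos (exp_pos (-(a * y)))]
      apply mul_le_mul_of_nonneg_right _ (exp_pos _).le
      have h6 := abs_Dv_le hne he (rexp y)
      have h7 := abs_Dbar_le hne he
      have := abs_sub (Dv χ (rexp y)) (Dbar χ)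
      linarith
  have bE : ∀ y : ℝ, ‖ED χ (rexp y) * rexp (-((1 + a) * y))‖ ≤
      2 * (N : ℝ) ^ 3 * rexp (-((1 + a) * y)) := by
    intro y
    rw [Real.norm_eq_abs, abs_mul, abs_of_pos (exp_pos (-((1 + a) * y)))]
    exact mul_le_mul_of_nonneg_right (abs_ED_le hne he (exp_pos _).le) (exp_pos _).le
  have i2 : IntegrableOn (fun y => ED χ (rexp y) * rexp (-((1 + a) * y))) (Ioi 0) := by
    refine Integrable.mono' ((integrableOn_exp_neg' ha1 0).const_mul (2 * (N : ℝ) ^ 3)) ?_ ?_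
    · apply Continuous.aestronglyMeasurable
      exact (hcE.comp continuous_exp).mul (by fun_prop)
    · exact Eventually.of_forall bE
  have hi : IntegrableOn H' (Ioi 0) := i1.sub (i2.const_mul (1 + a))
  have hlim : Tendsto H atTop (𝓝 0) := by
    have h1 : Tendsto (fun y : ℝ => 2 * (N : ℝ) ^ 3 * rexp (-((1 + a) * y))) atTop (𝓝 0) := by
      have h2 : Tendsto (fun y : ℝ => (1 + a) * y) atTop atTop :=
        tendsto_id.const_mul_atTop ha1
      have h3 := (tendsto_exp_neg_atTop_nhds_zero.comp h2).const_mul (2 * (N : ℝ) ^ 3)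
      rw [mul_zero] at h3
      exact h3
    exact squeeze_zero_norm bE h1
  have hF := integral_Ioi_of_hasDerivAt_of_tendsto' (a := 0) (fun y _ => hder y) hi hlim
  have hsplit : ∫ y in Ioi (0 : ℝ), H' y =
      (JD χ a - Dbar χ / a) - (1 + a) * ∫ y in Ioi (0 : ℝ),
        ED χ (rexp y) * rexp (-((1 + a) * y)) := by
    have h1 : ∫ y in Ioi (0 : ℝ), H' y =
        (∫ y in Ioi (0 : ℝ), (Dv χ (rexp y) - Dbar χ) * rexp (-(a * y))) -
        (1 + a) * ∫ y in Ioi (0 : ℝ), ED χ (rexp y) * rexp (-((1 + a) * y)) := by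
      rw [← integral_const_mul, ← integral_sub i1 (i2.const_mul (1 + a))]
    rw [h1]
    congr 1
    rw [JD_eq]
    have h2 : ∫ y in Ioi (0 : ℝ), Dbar χ * rexp (-(a * y)) = Dbar χ / a := by
      rw [integral_const_mul, integral_exp_neg_Ioi' ha, mul_zero, neg_zero, exp_zero]
      ring
    rw [← h2, ← integral_sub (integrable_JD hne he ha).integrableOn
      ((integrableOn_exp_neg' ha 0).const_mul _)]
    congr 1
    ext y
    ring
  have hb : |∫ y in Ioi (0 : ℝ), ED χ (rexp y) * rexp (-((1 + a) * y))| ≤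
      2 * (N : ℝ) ^ 3 / (1 + a) := by
    have h1 := norm_integral_le_of_norm_le ((integrableOn_exp_neg' ha1 0).const_mul
      (2 * (N : ℝ) ^ 3)) (Eventually.of_forall bE)
    rw [integral_const_mul, integral_exp_neg_Ioi' ha1, mul_zero, neg_zero, exp_zero,
      Real.norm_eq_abs] at h1
    rw [mul_one_div] at h1
    exact h1
  have hH0 : |H 0| ≤ 2 * (N : ℝ) ^ 3 := by
    have := bE 0
    rw [mul_zero, neg_zero, exp_zero, mul_one, mul_one, Real.norm_eq_abs] at this
    simp only [hH]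
    rw [mul_zero, neg_zero, exp_zero, mul_one]
    exact this
  rw [hsplit, zero_sub] at hF
  have h3 : JD χ a - Dbar χ / a = -H 0 + (1 + a) * ∫ y in Ioi (0 : ℝ),
        ED χ (rexp y) * rexp (-((1 + a) * y)) := by linarith
  have h4 : |JD χ a - Dbar χ / a| ≤ 4 * (N : ℝ) ^ 3 := by
    rw [h3]
    refine (abs_add_le _ _).trans ?_
    rw [abs_neg, abs_mul (1 + a), abs_of_pos ha1]
    have h5 : (1 + a) * |∫ y in Ioi (0 : ℝ), ED χ (rexp y) * rexp (-((1 + a) * y))| ≤
        2 * (N : ℝ) ^ 3 := by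
      calc _ ≤ (1 + a) * (2 * (N : ℝ) ^ 3 / (1 + a)) := mul_le_mul_of_nonneg_left hb ha1.le
        _ = _ := by field_simp
    linarith
  have h5 : a * JD χ a - Dbar χ = a * (JD χ a - Dbar χ / a) := by field_simp
  rw [h5, abs_mul, abs_of_pos ha, mul_comm]
  exact mul_le_mul_of_nonneg_right h4 ha.le

/-- **Lower bound for the transform; positivity of the mean.** -/
theorem JD_lower (hχ : χ.IsPrimitive) (hne : χ ≠ 1) (h2 : χ ^ 2 = 1) (he : χ.Even)
    (hL : ∀ s : ℝ, 0 < s → s < 1 → 0 < Lr χ s) :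
    0 < Dbar χ ∧ ∃ ℓ : ℝ, 0 < ℓ ∧ ∀ a : ℝ, 0 < a → a ≤ 2 → ℓ ≤ a * JD χ a := by
  set g : ℝ → ℝ := fun s => (GD χ (s : ℂ)).re with hg
  have hgc : ContinuousOn g (Icc (-1) 1) := by
    intro s hs
    have h1 : DifferentiableAt ℂ (GD χ) (s : ℂ) := differentiableAt_GD hne (by
      rw [Complex.ofReal_re]; linarith [hs.1])
    have h3 : ContinuousAt (fun s : ℝ => GD χ (s : ℂ)) s :=
      ContinuousAt.comp (f := fun s : ℝ => (s : ℂ)) (g := GD χ) h1.continuousAt
        Complex.continuous_ofReal.continuousAt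
    exact (Complex.continuous_re.continuousAt.comp h3).continuousWithinAt
  have hgp : ∀ s ∈ Icc (-1 : ℝ) 1, 0 < g s := by
    intro s hs
    obtain ⟨v, hv, e⟩ := GD_pos hχ hne h2 hL (s := s) (by linarith [hs.1])
    simp only [hg]
    rw [e, Complex.ofReal_re]
    exact hv
  obtain ⟨s₀, hs₀, hmin⟩ := isCompact_Icc.exists_isMinOn (nonempty_Icc.mpr (by norm_num)) hgc
  have hval : ∀ a : ℝ, 0 < a → a * JD χ a = g (a - 1) := by
    intro a ha
    have := JD_eq_GD hne h2 he ha
    simp only [hg]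
    rw [← this, Complex.ofReal_re]
  have hlow : ∀ a : ℝ, 0 < a → a ≤ 2 → g s₀ ≤ a * JD χ a := by
    intro a ha ha2
    rw [hval a ha]
    exact hmin ⟨by linarith, by linarith⟩
  have hpos := hgp s₀ hs₀
  refine ⟨?_, g s₀, hpos, hlow⟩
  -- the mean
  have h1 : g s₀ ≤ Dbar χ := by
    apply le_of_forall_pos_le_add
    intro ε hε
    have hNp : (0 : ℝ) < 4 * (N : ℝ) ^ 3 := by
      have : (0 : ℝ) < N := by exact_mod_cast NeZero.pos N
      positivity
    set a := min 2 (ε / (4 * (N : ℝ) ^ 3)) with ha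
    have ha0 : 0 < a := by rw [ha]; positivity
    have ha2 : a ≤ 2 := min_le_left _ _
    have h3 := hlow a ha0 ha2
    have h4 := (abs_le.mp (JD_mean hne he ha0)).2
    have h5 : 4 * (N : ℝ) ^ 3 * a ≤ ε := by
      have : a ≤ ε / (4 * (N : ℝ) ^ 3) := min_le_right _ _
      rwa [le_div_iff₀' hNp] at this
    linarith
  linarith

end Pool.Agent.MP0016c7.Ros
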