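import Mathlib
import Pool.Agent.Lib.MP_0016c7_nt.EvCut
import Pool.Agent.Lib.MP_0016c7_nt.EvJ3
import Pool.Agent.Lib.MP_0016c7_nt.EvTilt
import Pool.Agent.Lib.MP_0016c7_nt.EvWin
import Pool.Agent.Lib.MP_0016c7_nt.FekTilt

open Real Set MeasureTheory Filter Topology

namespace Pool.Agent.MP0016c7.Ros

variable {N : ℕ} [NeZero N] {χ : DirichletCharacter ℂ N}

/-- the summand -/
noncomputable def fD (χ : DirichletCharacter ℂ N) (y : ℝ) : ℝ := rexp (-y) * Dv χ (rexp y)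

/-- a small tail -/
lemma exists_tail {a c ℓ : ℝ} (ha : 0 < a) (hc : 0 < c) (hℓ : 0 < ℓ) :
    ∃ n : ℕ, c * rexp (-(a * n)) ≤ ℓ := by
  have h1 : Tendsto (fun n : ℕ => c * rexp (-(a * n))) atTop (𝓝 0) := by
    have h2 : Tendsto (fun n : ℕ => a * (n : ℝ)) atTop atTop :=
      tendsto_natCast_atTop_atTop.const_mul_atTop ha
    have h3 := (tendsto_exp_neg_atTop_nhds_zero.comp h2).const_mul c
    rw [mul_zero] at h3
    exact h3
  exact ((h1.eventually (gt_mem_nhds hℓ)).exists).imp fun n hn => hn.le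

/-- **Left half.** -/
theorem range2 (hχ : χ.IsPrimitive) (hne : χ ≠ 1) (h2 : χ ^ 2 = 1) (he : χ.Even)
    (hL : ∀ s : ℝ, 0 < s → s < 1 → 0 < Lr χ s)
    {P : ℝ → Finset ℕ} {C₀ : ℝ} {C₁ Cs : ℝ → ℝ} (hM : MDat P C₀ C₁ Cs) :
    ∃ Λ₀ : ℝ, 1 ≤ Λ₀ ∧ ∀ Λ X : ℝ, Λ₀ ≤ Λ → 15 * Λ / 16 ≤ X → X ≤ XX P 0 Λ →
      0 < ∑ A ∈ (P Λ).powerset, fD χ (X - Sm lg A) := by
  obtain ⟨-, ℓ, hℓ, hJ⟩ := JD_lower hχ hne h2 he hL
  obtain ⟨D, hD, K₀, hK₀, hmain⟩ := main_pos2 hM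
  have hN1 : (1 : ℝ) ≤ N := by exact_mod_cast NeZero.pos N
  obtain ⟨n, hn⟩ := exists_tail (a := 1) (c := (N : ℝ) ^ 2 * (1 + D)) (ℓ := ℓ / 8) one_pos
    (by positivity) (by positivity)
  rw [one_mul] at hn
  obtain ⟨B, hB, hk⟩ := kd_nice hne he n (χ := χ)
  obtain ⟨Λ₁, hΛ₁, hmain⟩ := hmain (ℓ / 8) B (by positivity) hB
  refine ⟨Λ₁ + 4 * n, by have : (0 : ℝ) ≤ n := Nat.cast_nonneg n
                         linarith only [hΛ₁], fun Λ X hΛ hX hX2 => ?_⟩
  have hn0 : (0 : ℝ) ≤ n := Nat.cast_nonneg n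
  obtain ⟨σ, hσ, hσ1, -, G, hG, hup, happ⟩ := hmain Λ X (by linarith only [hΛ]) hX hX2
  have h1 := happ _ _ (hk (1 + σ) (by linarith) (by linarith))
  rw [sum_tilt P Λ σ X (fD χ)]
  have hZ := Zt_pos (P := P Λ) fun p => xs_pos σ p
  apply mul_pos (exp_pos _)
  apply mul_pos hZ
  have ha0 : 0 < 1 + σ := by linarith only [hσ]
  have e1 : ∀ y : ℝ, fD χ y * rexp (-(σ * y)) = rexp (-((1 + σ) * y)) * Dv χ (rexp y) := by
    intro y
    unfold fD
    have : rexp (-((1 + σ) * y)) = rexp (-y) * rexp (-(σ * y)) := by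
      rw [← exp_add]; congr 1; ring
    rw [this]; ring
  simp_rw [e1]
  -- tail
  have h3 : Ef (P Λ) (xs σ) lg (fun s => kd χ (1 + σ) n (X - s)) -
      (N : ℝ) ^ 2 * rexp (-n) * al P 1 σ Λ (X - n) ≤
      Ef (P Λ) (xs σ) lg (fun s => rexp (-((1 + σ) * (X - s))) * Dv χ (rexp (X - s))) := by
    unfold al
    rw [← Ef_const_mul, ← Ef_sub]
    apply Ef_mono fun p => xs_pos σ p
    intro s
    have h4 := kd_diff hne he (1 + σ) n (X - s)
    have h5 := (abs_le.mp h4).1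
    refine le_trans ?_ (by linarith only [h5] : kd χ (1 + σ) n (X - s) -
      (if (n : ℝ) < X - s then (N : ℝ) ^ 2 * rexp (-((1 + σ) * (X - s))) else 0) ≤ _)
    apply sub_le_sub_left
    split_ifs with h
    · unfold kt
      rw [if_pos (by linarith only [h]), mul_assoc, ← exp_add]
      apply mul_le_mul_of_nonneg_left _ (by positivity)
      rw [exp_le_exp]
      have : 0 ≤ σ * (X - s) := mul_nonneg hσ (by linarith only [h])
      linarith only [this]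
    · exact mul_nonneg (by positivity) (kt_nonneg _ _)
  refine lt_of_lt_of_le ?_ h3
  have h4 := hup (X - n) (by linarith only [hΛ₁, hΛ, hX])
  have h5 : (N : ℝ) ^ 2 * rexp (-n) * al P 1 σ Λ (X - n) ≤ N ^ 2 * rexp (-n) * (D * G) :=
    mul_le_mul_of_nonneg_left h4 (by positivity)
  have h6 := int_kd_ge hne he ha0 (by linarith only [hσ1] : 1 + σ ≤ 2) n (χ := χ)
  have h7 := hJ (1 + σ) ha0 (by linarith)
  have h8 : ℓ / 2 ≤ JD χ (1 + σ) := by nlinarith only [h7, hℓ, hσ1, hσ]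
  have h9 : rexp (-((1 + σ) * n)) / (1 + σ) ≤ rexp (-n) := by
    rw [div_le_iff₀ ha0]
    have e2 : rexp (-((1 + σ) * n)) ≤ rexp (-n) := by
      rw [exp_le_exp]
      have : 0 ≤ σ * (n : ℝ) := mul_nonneg hσ hn0
      linarith only [this]
    have : rexp (-(n : ℝ)) ≤ rexp (-n) * (1 + σ) := by
      have := exp_pos (-(n : ℝ))
      nlinarith only [hσ, this]
    linarith
  have h10 : (N : ℝ) ^ 2 * (rexp (-((1 + σ) * n)) / (1 + σ)) ≤ N ^ 2 * rexp (-n) :=
    mul_le_mul_of_nonneg_left h9 (by positivity)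
  have h11 : G * (3 * ℓ / 8 - N ^ 2 * rexp (-n)) ≤
      Ef (P Λ) (xs σ) lg (fun s => kd χ (1 + σ) n (X - s)) := by
    refine le_trans (mul_le_mul_of_nonneg_left ?_ hG.le) h1
    linarith only [h6, h8, h10]
  have h12 : G * (N ^ 2 * (1 + D) * rexp (-n)) ≤ G * (ℓ / 8) :=
    mul_le_mul_of_nonneg_left hn hG.le
  have h13 : 0 < G * ℓ := mul_pos hG hℓ
  have e3 : G * (N ^ 2 * (1 + D) * rexp (-n)) =
      G * (N ^ 2 * rexp (-n)) + N ^ 2 * rexp (-n) * (D * G) := by ring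
  nlinarith only [h5, h11, h12, h13]

/-- sum over unit windows with exponential weights -/
lemma win_exp (P : ℝ → Finset ℕ) {σ Λ z D' a : ℝ} (ha : 0 < a) (ha1 : a ≤ 1)
    (hD : ∀ y, z ≤ y → al P 1 σ Λ y ≤ D') (hD0 : 0 ≤ D') :
    Ef (P Λ) (xs σ) lg (fun s => if z < s then rexp (-(a * (s - z))) else 0) ≤
      12 * D' / a := by
  have hx : ∀ p, 0 < xs σ p := fun p => xs_pos σ p
  set M := ⌈Sm lg (P Λ) - z⌉₊ + 1 with hM
  -- finite decomposition
  have h1 : Ef (P Λ) (xs σ) lg (fun s => if z < s then rexp (-(a * (s - z))) else 0) ≤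
      Ef (P Λ) (xs σ) lg (fun s => ∑ j ∈ Finset.range M,
        rexp (-(a * j)) * (if z + j ≤ s ∧ s ≤ z + j + 1 then 1 else 0)) := by
    rw [Ef_eq_EE, Ef_eq_EE]
    apply EE_mono hx
    intro A hA
    have hSle : Sm lg A ≤ Sm lg (P Λ) := by
      unfold Sm
      exact Finset.sum_le_sum_of_subset_of_nonneg hA fun p _ _ => lg_nonneg p
    have hnn : ∀ j ∈ Finset.range M, 0 ≤ rexp (-(a * j)) *
        (if z + j ≤ Sm lg A ∧ Sm lg A ≤ z + j + 1 then (1 : ℝ) else 0) := by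
      intro j _
      split_ifs <;> simp [(exp_pos _).le]
    split_ifs with h
    · set j := ⌊Sm lg A - z⌋₊ with hj
      have hj0 : (j : ℝ) ≤ Sm lg A - z := Nat.floor_le (by linarith)
      have hj1 : Sm lg A - z < j + 1 := Nat.lt_floor_add_one _
      have hjM : j ∈ Finset.range M := by
        rw [Finset.mem_range, hM]
        have : (j : ℝ) ≤ ⌈Sm lg (P Λ) - z⌉₊ := by
          have := Nat.le_ceil (Sm lg (P Λ) - z)
          linarith
        have : j ≤ ⌈Sm lg (P Λ) - z⌉₊ := by exact_mod_cast this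
        omega
      refine le_trans ?_ (Finset.single_le_sum hnn hjM)
      rw [if_pos ⟨by linarith, by linarith⟩, mul_one, exp_le_exp]
      nlinarith only [ha, hj0]
    · exact Finset.sum_nonneg hnn
  refine h1.trans ?_
  rw [Ef_sum]
  have h2 : ∀ j ∈ Finset.range M, rexp (-(a * j)) * Ef (P Λ) (xs σ) lg
      (fun s => if z + j ≤ s ∧ s ≤ z + j + 1 then 1 else 0) ≤
      rexp (-(a * j)) * ((1 + 1) * (rexp 1 * D')) := by
    intro j _
    apply mul_le_mul_of_nonneg_left _ (exp_pos _).le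
    have hj0 : (0 : ℝ) ≤ j := Nat.cast_nonneg j
    exact win_le P (z := z + j) (w := 1) (fun y hy => hD y (by linarith)) hD0 zero_le_one
  refine (Finset.sum_le_sum h2).trans ?_
  rw [← Finset.sum_mul]
  have h3 : ∑ j ∈ Finset.range M, rexp (-(a * j)) ≤ 2 / a := by
    have e1 : ∀ j ∈ Finset.range M, rexp (-(a * j)) = rexp (-a) ^ j := by
      intro j _
      rw [← exp_nat_mul]; congr 1; ring
    rw [Finset.sum_congr rfl e1]
    have hr1 : rexp (-a) < 1 := by rw [exp_lt_one_iff]; linarith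
    have hr0 : 0 ≤ rexp (-a) := (exp_pos _).le
    have h4 := geom_sum_eq hr1.ne M
    rw [h4]
    have h5 : a / 2 ≤ 1 - rexp (-a) := by
      have h6 := Real.exp_bound_div_one_sub_of_interval (x := -(-a)) (by linarith only [ha])
      have h7 : rexp (-a) ≤ 1 / (1 + a) := by
        rw [exp_neg, ← one_div]
        exact one_div_le_one_div_of_le (by linarith only [ha]) (by linarith [add_one_le_exp a])
      have h8 : 1 / (1 + a) ≤ 1 - a / 2 := by
        rw [div_le_iff₀ (by linarith)]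
        nlinarith only [ha, ha1]
      linarith only [h7, h8]
    have h6 : (rexp (-a) ^ M - 1) / (rexp (-a) - 1) = (1 - rexp (-a) ^ M) / (1 - rexp (-a)) := by
      rw [← neg_div_neg_eq]; congr 1 <;> ring
    rw [h6, div_le_div_iff₀ (by linarith only [hr1]) ha]
    have h7 : 0 ≤ rexp (-a) ^ M := pow_nonneg hr0 M
    nlinarith only [h5, ha, h7]
  have he : rexp 1 ≤ 3 := by linarith only [exp_one_lt_d9]
  calc (∑ j ∈ Finset.range M, rexp (-(a * j))) * ((1 + 1) * (rexp 1 * D')) ≤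
      2 / a * ((1 + 1) * (3 * D')) := by
        apply mul_le_mul h3 _ (by positivity) (by positivity)
        apply mul_le_mul_of_nonneg_left _ (by norm_num)
        exact mul_le_mul_of_nonneg_right he hD0
    _ = 12 * D' / a := by ring

/-- **Right half, tilts bounded away from one.** -/
theorem range3 (hχ : χ.IsPrimitive) (hne : χ ≠ 1) (h2 : χ ^ 2 = 1) (he : χ.Even)
    (hL : ∀ s : ℝ, 0 < s → s < 1 → 0 < Lr χ s)
    {P : ℝ → Finset ℕ} {C₀ : ℝ} {C₁ Cs : ℝ → ℝ} (hM : MDat P C₀ C₁ Cs) {a₁ : ℝ} (ha₁ : 0 < a₁)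
    (ha₁1 : a₁ ≤ 1) :
    ∃ Λ₀ : ℝ, 1 ≤ Λ₀ ∧ ∀ Λ W : ℝ, Λ₀ ≤ Λ → XX P (1 - a₁) Λ ≤ W → W ≤ XX P 0 Λ →
      0 < ∑ A ∈ (P Λ).powerset, fD χ (Sm lg A - W) := by
  have hC0 := hM.C0
  obtain ⟨-, ℓ, hℓ, hJ⟩ := JD_lower hχ hne h2 he hL
  obtain ⟨D, hD, K₀, hK₀, hmain⟩ := main_pos2 hM
  have hN1 : (1 : ℝ) ≤ N := by exact_mod_cast NeZero.pos N
  obtain ⟨n, hn⟩ := exists_tail (a := a₁) (c := (N : ℝ) ^ 2 * (1 + 12 * D) / a₁) (ℓ := ℓ / 8)
    ha₁ (by (clear * - hN1 hD ha₁; positivity)) (by positivity)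
  obtain ⟨B, hB, hk⟩ := kd_nice hne he n (χ := χ)
  obtain ⟨Λ₁, hΛ₁, hmain⟩ := hmain (ℓ / 8) B (by positivity) hB
  have hn0 : (0 : ℝ) ≤ n := Nat.cast_nonneg n
  refine ⟨Λ₁ + 16 * C₀ + 2 * (64 * (K₀ + 1)) / a₁, ?_, fun Λ W hΛ hW hW2 => ?_⟩
  · have : 0 ≤ 2 * (64 * (K₀ + 1)) / a₁ := by positivity
    linarith only [hC0, hΛ₁, this]
  have hq : 0 ≤ 2 * (64 * (K₀ + 1)) / a₁ := by positivity
  have hΛ0 : 0 < Λ := by linarith only [hC0, hΛ₁, hΛ, hq]
  have hΛ16 : 16 * C₀ ≤ Λ := by linarith only [hΛ₁, hΛ, hq]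
  -- the mean is large
  have hbig := hM.XX_big (σ := 1 - a₁) (by linarith only [ha₁1]) (by linarith only [ha₁]) hΛ16 hΛ0
  have hexp : 64 * (K₀ + 1) ≤ rexp ((1 - (1 - a₁)) * Λ / 2) := by
    have h1 : 2 * (64 * (K₀ + 1)) / a₁ ≤ Λ := by linarith only [hC0, hΛ₁, hΛ]
    rw [div_le_iff₀ ha₁] at h1
    have h3 := add_one_le_exp ((1 - (1 - a₁)) * Λ / 2)
    linarith only [h1, h3]
  have hWK : (K₀ + 1) * Λ ≤ W := by
    refine le_trans ?_ (hbig.trans hW)
    have := mul_le_mul_of_nonneg_left hexp hΛ0.le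
    linarith only [this]
  have hW0 : 0 < W := by nlinarith only [hC0, hK₀, hΛ₁, hΛ, hq, hWK]
  obtain ⟨σ, hσ, hσ1, hloc, G, hG, hup, happ⟩ := hmain Λ W (by linarith only [hC0, hΛ, hq]) (by nlinarith only [hC0, hK₀, hΛ₁, hΛ, hq, hWK]) hW2
  have hσa : σ ≤ 1 - a₁ := by
    rcases hloc with h | h
    · nlinarith only [hC0, hΛ₁, hΛ, hq, hWK, h]
    · by_contra hcon
      rw [not_le] at hcon
      have := hM.XX_lt (by linarith only [ha₁1] : 0 ≤ 1 - a₁) hcon hσ1 hΛ16 hΛ0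
      linarith
  set a := 1 - σ with ha
  have haa : a₁ ≤ a := by linarith
  have ha0 : 0 < a := by linarith
  have ha1 : a ≤ 1 := by linarith
  have h1 := happ _ _ (hk a ha0.le (by linarith)).mirror
  rw [integral_neg_eq_self (kd χ a n) volume] at h1
  rw [sum_tilt' P Λ σ W (fD χ)]
  have hZ := Zt_pos (P := P Λ) fun p => xs_pos σ p
  apply mul_pos (exp_pos _)
  apply mul_pos hZ
  have e1 : ∀ y : ℝ, fD χ y * rexp (σ * y) = rexp (-(a * y)) * Dv χ (rexp y) := by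
    intro y
    unfold fD
    have : rexp (-(a * y)) = rexp (-y) * rexp (σ * y) := by
      rw [← exp_add]; congr 1; rw [ha]; ring
    rw [this]; ring
  simp_rw [e1]
  -- tail
  have hwin := win_exp P (σ := σ) (Λ := Λ) (z := W + n) ha0 ha1
    (fun y hy => hup y (by linarith only [hW0, hy])) (by positivity)
  have h3 : Ef (P Λ) (xs σ) lg (fun s => kd χ a n (-(W - s))) -
      (N : ℝ) ^ 2 * rexp (-(a * n)) * Ef (P Λ) (xs σ) lg
        (fun s => if W + n < s then rexp (-(a * (s - (W + n)))) else 0) ≤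
      Ef (P Λ) (xs σ) lg (fun s => rexp (-(a * (s - W))) * Dv χ (rexp (s - W))) := by
    rw [← Ef_const_mul, ← Ef_sub]
    apply Ef_mono fun p => xs_pos σ p
    intro s
    have e2 : -(W - s) = s - W := by ring
    rw [e2]
    have h4 := kd_diff hne he a n (s - W)
    have h5 := (abs_le.mp h4).1
    refine le_trans ?_ (by linarith only [h5] : kd χ a n (s - W) -
      (if (n : ℝ) < s - W then (N : ℝ) ^ 2 * rexp (-(a * (s - W))) else 0) ≤ _)
    apply sub_le_sub_left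
    split_ifs with h h'
    · rw [mul_assoc, ← exp_add]
      apply mul_le_mul_of_nonneg_left _ (by positivity)
      rw [exp_le_exp]
      linarith
    · exfalso; linarith only [h, h']
    · positivity
    · simp
  refine lt_of_lt_of_le ?_ h3
  have h5 : (N : ℝ) ^ 2 * rexp (-(a * n)) * Ef (P Λ) (xs σ) lg
        (fun s => if W + n < s then rexp (-(a * (s - (W + n)))) else 0) ≤
      N ^ 2 * rexp (-(a₁ * n)) * (12 * (D * G) / a₁) := by
    have t1 : rexp (-(a * n)) ≤ rexp (-(a₁ * n)) := by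
      rw [exp_le_exp]
      nlinarith only [hσa]
    have t2 : 12 * (D * G) / a ≤ 12 * (D * G) / a₁ :=
      div_le_div_of_nonneg_left (by positivity) ha₁ haa
    have t3 : 0 ≤ Ef (P Λ) (xs σ) lg
        (fun s => if W + n < s then rexp (-(a * (s - (W + n)))) else 0) :=
      Ef_nonneg (fun p => xs_pos σ p) fun s => by split_ifs <;> positivity
    apply mul_le_mul _ (hwin.trans t2) t3 (by positivity)
    exact mul_le_mul_of_nonneg_left t1 (by positivity)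
  have h6 := int_kd_ge hne he ha0 (by linarith : a ≤ 2) n (χ := χ)
  have h7 := hJ a ha0 (by linarith)
  have h8 : ℓ ≤ JD χ a := by nlinarith only [h7, ha₁, hℓ, hσ, hσa]
  have h9 : rexp (-(a * n)) / a ≤ rexp (-(a₁ * n)) / a₁ := by
    apply div_le_div₀ (exp_pos _).le _ ha₁ haa
    rw [exp_le_exp]
    nlinarith only [hσa]
  have h10 : (N : ℝ) ^ 2 * (rexp (-(a * n)) / a) ≤ N ^ 2 * (rexp (-(a₁ * n)) / a₁) :=
    mul_le_mul_of_nonneg_left h9 (by positivity)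
  have h11 : G * (7 * ℓ / 8 - N ^ 2 * (rexp (-(a₁ * n)) / a₁)) ≤
      Ef (P Λ) (xs σ) lg (fun s => kd χ a n (-(W - s))) := by
    refine le_trans (mul_le_mul_of_nonneg_left ?_ hG.le) h1
    linarith only [h6, h8, h10]
  have h12 : G * (N ^ 2 * (1 + 12 * D) / a₁ * rexp (-(a₁ * n))) ≤ G * (ℓ / 8) :=
    mul_le_mul_of_nonneg_left hn hG.le
  have h13 : 0 < G * ℓ := mul_pos hG hℓ
  have e3 : G * (N ^ 2 * (1 + 12 * D) / a₁ * rexp (-(a₁ * n))) =
      G * (N ^ 2 * (rexp (-(a₁ * n)) / a₁)) + N ^ 2 * rexp (-(a₁ * n)) * (12 * (D * G) / a₁) := by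
    field_simp
  rw [e3] at h12
  nlinarith only [h5, h11, h12, h13]

end Pool.Agent.MP0016c7.Ros
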