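import Mathlib
import Pool.Agent.Lib.MP_0016c7_nt.EvFub
import Pool.Agent.Lib.MP_0016c7_nt.EvR23

open Real Filter

namespace Pool.Agent.MP0016c7.Ros

/-! ### The product structure -/

section abs

variable {Q₁ Q₂ : Finset ℕ} {σ : ℝ}

/-- transfer from the large primes to all primes -/
lemma transfer (hd : Disjoint Q₁ Q₂) {W R κ : ℝ} (hκ : 0 < κ)
    (hhalf : 1 / 2 ≤ Ef Q₁ (xs σ) lg (fun s => if s ≤ R then 1 else 0))
    {g g' : ℝ → ℝ} (hg : ∀ v, 0 ≤ g v) (hg' : ∀ v, 0 ≤ g' v)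
    (hgg : ∀ v s, 0 ≤ s → s ≤ R → g v ≤ κ * g' (v - s)) :
    Ef Q₂ (xs σ) lg (fun t => g (W - t)) ≤
      2 * κ * Ef (Q₁ ∪ Q₂) (xs σ) lg (fun s => g' (W - s)) := by
  have hx : ∀ p, 0 < xs σ p := fun p => xs_pos σ p
  rw [Ef_fub hd]
  have h1 : Ef Q₂ (xs σ) lg (fun t => 1 / (2 * κ) * g (W - t)) ≤
      Ef Q₂ (xs σ) lg (fun t => Ef Q₁ (xs σ) lg (fun s => g' (W - (s + t)))) := by
    apply Ef_mono hx
    intro t
    have h2 : Ef Q₁ (xs σ) lg (fun s => g (W - t) / κ * (if s ≤ R then 1 else 0)) ≤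
        Ef Q₁ (xs σ) lg (fun s => g' (W - (s + t))) := by
      apply Ef_mono_nonneg hx lg_nonneg
      intro s hs
      by_cases c : s ≤ R
      · rw [if_pos c, mul_one, div_le_iff₀ hκ, mul_comm]
        have := hgg (W - t) s hs c
        have e : W - t - s = W - (s + t) := by ring
        rwa [e] at this
      · rw [if_neg c, mul_zero]; exact hg' _
    rw [Ef_const_mul] at h2
    refine le_trans ?_ h2
    calc 1 / (2 * κ) * g (W - t) = g (W - t) / κ * (1 / 2) := by field_simp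
      _ ≤ _ := mul_le_mul_of_nonneg_left hhalf (div_nonneg (hg _) hκ.le)
  rw [Ef_const_mul] at h1
  have h3 : (0 : ℝ) < 2 * κ := by positivity
  calc Ef Q₂ (xs σ) lg (fun t => g (W - t)) =
        2 * κ * (1 / (2 * κ) * Ef Q₂ (xs σ) lg (fun t => g (W - t))) := by field_simp
    _ ≤ _ := mul_le_mul_of_nonneg_left h1 h3.le

/-- **Mass of the large primes in a window below `W`.** -/
lemma mass_below (hd : Disjoint Q₁ Q₂) {W Λ₁ R C' U₀ D' m : ℝ} (hΛ₁ : 0 < Λ₁) (hR : 0 ≤ R)
    (hU₀ : 1 ≤ U₀) (hD' : 0 ≤ D')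
    (hhalf : 1 / 2 ≤ Ef Q₁ (xs σ) lg (fun s => if s ≤ R * Λ₁ then 1 else 0))
    (hch : ∀ y, Ef Q₁ (xs σ) lg (fun s => if y ≤ s then 1 else 0) ≤
      C' * rexp (-(2 / Λ₁ * y)))
    (hwin : ∀ z w, W / 4 ≤ z → 0 ≤ w → Ef (Q₁ ∪ Q₂) (xs σ) lg
      (fun s => if z ≤ s ∧ s ≤ z + w then 1 else 0) ≤ (w + 1) * D')
    (hW4 : Λ₁ ≤ W / 4)
    (hlow : m ≤ Ef (Q₁ ∪ Q₂) (xs σ) lg (fun s => if W - Λ₁ ≤ s ∧ s ≤ W then 1 else 0)) :
    m ≤ Ef Q₂ (xs σ) lg (fun t => if 0 ≤ W - t ∧ W - t ≤ U₀ * Λ₁ then 1 else 0) +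
      C' * rexp (-(2 * (U₀ - 1))) * (2 * (((R + 1) * Λ₁ + 1) * D')) +
      C' * rexp (-(W / Λ₁)) := by
  have hx : ∀ p, 0 < xs σ p := fun p => xs_pos σ p
  set A := Ef Q₂ (xs σ) lg (fun t => if 0 ≤ W - t ∧ W - t ≤ U₀ * Λ₁ then 1 else 0) with hA
  set B := 2 * (((R + 1) * Λ₁ + 1) * D') with hB
  have hB0 : 0 ≤ B := by rw [hB]; positivity
  have hA0 : 0 ≤ A := Ef_nonneg hx fun t => by split_ifs <;> norm_num
  refine hlow.trans ?_
  rw [Finset.union_comm, Ef_fub hd.symm]
  have h1 : Ef Q₁ (xs σ) lg (fun t => Ef Q₂ (xs σ) lg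
      (fun s => if W - Λ₁ ≤ s + t ∧ s + t ≤ W then 1 else 0)) ≤
      Ef Q₁ (xs σ) lg (fun t => A + B * (if (U₀ - 1) * Λ₁ ≤ t then 1 else 0) +
        (if W / 2 ≤ t then 1 else 0)) := by
    apply Ef_mono_nonneg hx lg_nonneg
    intro t ht
    rcases le_or_gt (W / 2) t with hc | hc
    · -- far
      have h2 : Ef Q₂ (xs σ) lg (fun s => if W - Λ₁ ≤ s + t ∧ s + t ≤ W then 1 else 0) ≤ 1 := by
        have : Ef Q₂ (xs σ) lg (fun _ => (1 : ℝ)) = 1 := Ef_const hx 1
        refine le_trans ?_ this.le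
        apply Ef_mono hx
        intro s
        split_ifs <;> norm_num
      rw [if_pos hc]
      have : 0 ≤ B * (if (U₀ - 1) * Λ₁ ≤ t then (1 : ℝ) else 0) := by
        split_ifs <;> simp [hB0]
      linarith
    · rw [if_neg (not_le.mpr hc), add_zero]
      rcases le_or_gt ((U₀ - 1) * Λ₁) t with hc2 | hc2
      · rw [if_pos hc2, mul_one]
        have h3 := transfer (σ := σ) hd (W := W) (R := R * Λ₁) (κ := 1) one_pos hhalf
          (g := fun v => if t ≤ v ∧ v ≤ t + Λ₁ then 1 else 0)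
          (g' := fun v => if t - R * Λ₁ ≤ v ∧ v ≤ t + Λ₁ then 1 else 0)
          (fun v => by split_ifs <;> norm_num) (fun v => by split_ifs <;> norm_num)
          (fun v s hs hsR => by
            by_cases c : t ≤ v ∧ v ≤ t + Λ₁
            · rw [if_pos c, if_pos ⟨by linarith [c.1], by linarith [c.2]⟩]; norm_num
            · rw [if_neg c]; split_ifs <;> norm_num)
        have h4 : Ef Q₂ (xs σ) lg (fun s => if W - Λ₁ ≤ s + t ∧ s + t ≤ W then 1 else 0) ≤
            Ef Q₂ (xs σ) lg (fun s => if t ≤ W - s ∧ W - s ≤ t + Λ₁ then 1 else 0) := by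
          apply Ef_mono hx
          intro s
          by_cases c : W - Λ₁ ≤ s + t ∧ s + t ≤ W
          · rw [if_pos c, if_pos ⟨by linarith [c.2], by linarith [c.1]⟩]
          · rw [if_neg c]; split_ifs <;> norm_num
        have h5 : Ef (Q₁ ∪ Q₂) (xs σ) lg
            (fun s => if t - R * Λ₁ ≤ W - s ∧ W - s ≤ t + Λ₁ then 1 else 0) ≤
            ((R + 1) * Λ₁ + 1) * D' := by
          have h6 := hwin (W - t - Λ₁) ((R + 1) * Λ₁) (by linarith) (by positivity)
          refine le_trans (Ef_mono hx fun s => ?_) h6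
          by_cases c : t - R * Λ₁ ≤ W - s ∧ W - s ≤ t + Λ₁
          · rw [if_pos c, if_pos ⟨by linarith [c.2], by linarith [c.1]⟩]
          · rw [if_neg c]; split_ifs <;> norm_num
        have h6 : Ef Q₂ (xs σ) lg (fun s => if W - Λ₁ ≤ s + t ∧ s + t ≤ W then 1 else 0) ≤ B := by
          refine h4.trans (h3.trans ?_)
          rw [hB]
          linarith
        linarith
      · rw [if_neg (not_le.mpr hc2), mul_zero, add_zero]
        apply Ef_mono hx
        intro s
        by_cases c : W - Λ₁ ≤ s + t ∧ s + t ≤ W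
        · rw [if_pos c, if_pos]
          constructor
          · linarith [c.2]
          · have e : U₀ * Λ₁ = (U₀ - 1) * Λ₁ + Λ₁ := by ring
            rw [e]
            linarith [c.1]
        · rw [if_neg c]; split_ifs <;> norm_num
  refine h1.trans ?_
  rw [Ef_add, Ef_add, Ef_const hx, Ef_const_mul]
  have h2 := hch ((U₀ - 1) * Λ₁)
  have h3 := hch (W / 2)
  have e2 : 2 / Λ₁ * ((U₀ - 1) * Λ₁) = 2 * (U₀ - 1) := by field_simp
  have e3 : 2 / Λ₁ * (W / 2) = W / Λ₁ := by field_simp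
  rw [e2] at h2
  rw [e3] at h3
  have h4 := mul_le_mul_of_nonneg_left h2 hB0
  linarith

end abs

/-- the weight -/
noncomputable def gw (a U v : ℝ) : ℝ := rexp (a * v - 2 * max (a * v) U)

lemma gw_shift {a U R v s : ℝ} (ha : 0 ≤ a) (hs : 0 ≤ s) (hsR : a * s ≤ R) :
    gw a U v ≤ rexp R * gw a U (v - s) := by
  unfold gw
  rw [← exp_add, exp_le_exp]
  have h1 : max (a * (v - s)) U ≤ max (a * v) U := by
    apply max_le_max _ le_rfl
    exact mul_le_mul_of_nonneg_left (by linarith) ha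
  linarith

/-- expectation of the weight over all primes -/
lemma gw_bound (P : ℝ → Finset ℕ) {σ Λ a U W D' : ℝ} (ha : 0 < a) (ha1 : a ≤ 1) (hU : 0 ≤ U)
    (hW : 4 * (U + 1) ≤ a * W) (hD : ∀ y, W / 4 ≤ y → al P 1 σ Λ y ≤ D') (hD0 : 0 ≤ D') :
    Ef (P Λ) (xs σ) lg (fun s => gw a U (W - s)) ≤
      rexp (-U) * (24 * D' / a + 4 / (a * W)) := by
  have hx : ∀ p, 0 < xs σ p := fun p => xs_pos σ p
  have haW : 0 < a * W := by linarith
  have hW0 : 0 < W := by
    by_contra h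
    rw [not_lt] at h
    nlinarith
  set w := W - U / a with hw
  have hUa : U / a ≤ W / 4 := by
    rw [div_le_div_iff₀ ha (by norm_num)]
    linarith
  have h1a : 1 ≤ W / 4 := by nlinarith
  have hw2 : W / 2 ≤ w := by rw [hw]; linarith
  have h1 : Ef (P Λ) (xs σ) lg (fun s => gw a U (W - s)) ≤
      Ef (P Λ) (xs σ) lg (fun s => rexp (-U) * ((if w < s then rexp (-(a * (s - w))) else 0) +
        (if W / 4 + 1 ≤ s ∧ s ≤ w then rexp (-(a * (w - s))) else 0) +
        rexp (-(a * (W / 4)) + a))) := by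
    apply Ef_mono hx
    intro s
    have e0 := exp_pos (-U)
    have e1 := exp_pos (-(a * (W / 4)) + a)
    unfold gw
    rcases lt_or_ge w s with h | h
    · have h2 : a * (W - s) ≤ U := by
        have : a * (W - s) ≤ a * (U / a) := mul_le_mul_of_nonneg_left (by linarith) ha.le
        rwa [mul_div_cancel₀ _ ha.ne'] at this
      rw [max_eq_right h2, if_pos h]
      have e2 : rexp (a * (W - s) - 2 * U) = rexp (-U) * rexp (-(a * (s - w))) := by
        rw [← exp_add]
        congr 1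
        have : a * w = a * W - U := by rw [hw]; field_simp
        linarith
      rw [e2]
      apply mul_le_mul_of_nonneg_left _ e0.le
      have : 0 ≤ (if W / 4 + 1 ≤ s ∧ s ≤ w then rexp (-(a * (w - s))) else 0) := by
        split_ifs <;> positivity
      linarith
    · have h2 : U ≤ a * (W - s) := by
        have : a * (U / a) ≤ a * (W - s) := mul_le_mul_of_nonneg_left (by linarith) ha.le
        rwa [mul_div_cancel₀ _ ha.ne'] at this
      rw [max_eq_left h2, if_neg (not_lt.mpr h)]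
      have e2 : rexp (a * (W - s) - 2 * (a * (W - s))) = rexp (-U) * rexp (-(a * (w - s))) := by
        rw [← exp_add]
        congr 1
        have : a * w = a * W - U := by rw [hw]; field_simp
        linarith
      rw [e2]
      apply mul_le_mul_of_nonneg_left _ e0.le
      rw [zero_add]
      by_cases c : W / 4 + 1 ≤ s
      · rw [if_pos ⟨c, h⟩]
        linarith
      · rw [if_neg (fun hc => c hc.1), zero_add, exp_le_exp]
        rw [not_le] at c
        nlinarith
  refine h1.trans ?_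
  rw [Ef_const_mul, Ef_add, Ef_add, Ef_const hx]
  apply mul_le_mul_of_nonneg_left _ (exp_pos _).le
  have h2 := win_exp P (σ := σ) (Λ := Λ) (z := w) ha ha1 (fun y hy => hD y (by linarith)) hD0
  have h3 := win_exp_left P (σ := σ) (Λ := Λ) (z := W / 4 + 1) (w := w) ha ha1
    (fun y hy => hD y (by linarith)) hD0
  have h4 : rexp (-(a * (W / 4)) + a) ≤ 4 / (a * W) := by
    have h5 : rexp (-(a * (W / 4)) + a) ≤ rexp (-(a * (W / 4) - 1)) := by
      rw [exp_le_exp]; linarith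
    refine h5.trans ?_
    have h6 := add_one_le_exp (a * (W / 4) - 1)
    rw [exp_neg, ← one_div]
    have h7 : 4 / (a * W) = 1 / (a * (W / 4)) := by field_simp
    rw [h7]
    exact one_div_le_one_div_of_le (by positivity) (by linarith)
  have e : 24 * D' / a = 12 * D' / a + 12 * D' / a := by ring
  rw [e]
  linarith

end Pool.Agent.MP0016c7.Ros
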