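import Mathlib
import Pool.Agent.Lib.MP_0016c7_nt.EvPhi
import Pool.Agent.Lib.MP_0016c7_nt.EvR4

open Real Filter

namespace Pool.Agent.MP0016c7.Ros

variable {N : ℕ} [NeZero N] {χ : DirichletCharacter ℂ N}

/-- **The transitional range.** -/
theorem range4 (hSW : SWd) (hχ : χ.IsPrimitive) (hne : χ ≠ 1) (h2 : χ ^ 2 = 1) (he : χ.Even)
    (hDb : 0 < Dbar χ) : ∃ K : ℝ, 1 ≤ K ∧ ∃ a₁ : ℝ, 0 < a₁ ∧ a₁ ≤ 1 / 4 ∧
    ∃ Λ₀ : ℝ, 1 ≤ Λ₀ ∧ ∀ Λ a : ℝ, Λ₀ ≤ Λ → K / Λ ≤ a → a ≤ a₁ →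
      0 < ∑ A ∈ (iP χ Λ).powerset, fD χ (Sm lg A - XX (iP χ) (1 - a) Λ) := by
  classical
  obtain ⟨C₀, C₁, Cs, hM⟩ := exists_mdat χ h2 hne
  have hC0 := hM.C0
  have hN1 : (1 : ℝ) ≤ N := by exact_mod_cast NeZero.pos N
  obtain ⟨D, hD, Λ₁', hΛ₁', hU⟩ := hM.UBa (τ₀ := 1) (σ₂ := 1 / 2) one_pos (by norm_num)
  obtain ⟨c₁, hc₁, K₁, hK₁, a₀, ha₀, ha₀1, Λ₂, hΛ₂, hlow⟩ := low_win hM
  obtain ⟨E3, hE3⟩ : ∃ x, x = rexp 3 := ⟨_, rfl⟩
  have hE3p : 0 < E3 := by rw [hE3]; exact exp_pos _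
  obtain ⟨R, hR⟩ : ∃ x, x = E3 + 1 := ⟨_, rfl⟩
  have hR0 : 0 < R := by rw [hR]; linarith
  obtain ⟨C', hC'⟩ : ∃ x, x = rexp (2 * E3) := ⟨_, rfl⟩
  have hC'p : 0 < C' := by rw [hC']; exact exp_pos _
  obtain ⟨n₀, hn₀⟩ := exists_tail (a := 2) (c := C' * (24 * (R + 2) * D)) (ℓ := c₁ / 4)
    two_pos (by positivity) (by positivity)
  have hn₀0 : (0 : ℝ) ≤ n₀ := Nat.cast_nonneg n₀
  obtain ⟨c, hc, hPh⟩ := Ph_bounds hSW hχ hne h2 he hDb (U₀ := 1 + n₀) (by linarith)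
  obtain ⟨n₁, hn₁⟩ := exists_tail (a := 1) (c := N ^ 2 * C' * (2 * rexp R) * (96 * D + 4))
    (ℓ := c * c₁ / 4) one_pos (by positivity) (by positivity)
  have hn₁0 : (0 : ℝ) ≤ n₁ := Nat.cast_nonneg n₁
  obtain ⟨U, hUdef⟩ : ∃ x : ℝ, x = n₁ + 1 := ⟨_, rfl⟩
  have hU1 : 1 ≤ U := by rw [hUdef]; linarith
  have hUe : N ^ 2 * C' * (2 * rexp R) * (96 * D + 4) * rexp (-U) ≤ c * c₁ / 4 := by
    refine le_trans (mul_le_mul_of_nonneg_left ?_ (by positivity)) hn₁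
    rw [exp_le_exp, hUdef]; linarith
  obtain ⟨Λ₃, hΛ₃, hPh⟩ := hPh U hU1
  set K := K₁ + 64 * (4 * (U + 1) + 8 * C' / c₁ + 4) with hK
  have hq0 : 0 ≤ 8 * C' / c₁ := by positivity
  set a₁ := min a₀ (1 / (Λ₃ + 2 * C₀ + 1)) with ha₁
  have ha₁0 : 0 < a₁ := by rw [ha₁]; positivity
  refine ⟨K, by rw [hK]; linarith only [hK₁, ha₀, ha₀1, hUdef, hq0], a₁, ha₁0, (min_le_left _ _).trans ha₀1,
    Λ₁' + Λ₂ + 16 * C₀, by linarith only [hC0, hΛ₁', ha₀, ha₀1, hΛ₂], fun Λ a hΛ haK haa => ?_⟩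
  have hΛ0 : 0 < Λ := by linarith only [hC0, hΛ₁', ha₀, ha₀1, hΛ₂, hΛ]
  have hΛ16 : 16 * C₀ ≤ Λ := by linarith only [hΛ₁', ha₀, ha₀1, hΛ₂, hΛ]
  have hKp : 0 < K := by rw [hK]; linarith only [hK₁, ha₀, ha₀1, hUdef, hq0]
  have ha0 : 0 < a := lt_of_lt_of_le (by positivity) haK
  have ha14 : a ≤ 1 / 4 := haa.trans ((min_le_left _ _).trans ha₀1)
  have haΛ : K ≤ a * Λ := by rwa [div_le_iff₀ hΛ0] at haK
  obtain ⟨σ, hσ⟩ : ∃ x, x = 1 - a := ⟨_, rfl⟩
  rw [← hσ]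
  have hσ0 : 0 ≤ σ := by linarith only [ha₀, ha₀1, ha14, hσ]
  have hσ1 : σ ≤ 1 := by linarith only [ha0, hσ]
  obtain ⟨L, hLdef⟩ : ∃ x, x = 1 / a := ⟨_, rfl⟩
  have hL0 : 0 < L := by rw [hLdef]; positivity
  have haL : a * L = 1 := by rw [hLdef]; field_simp
  have hL3 : Λ₃ + 2 * C₀ + 1 ≤ L := by
    have h1 : a ≤ 1 / (Λ₃ + 2 * C₀ + 1) := haa.trans (min_le_right _ _)
    rw [le_div_iff₀ (by linarith only [hC0, ha₀, ha₀1, hΛ₃])] at h1
    rw [hLdef, le_div_iff₀ ha0]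
    linarith only [h1]
  have hL1 : 1 ≤ L := by linarith only [hC0, ha₀, ha₀1, hΛ₃, hL3]
  have hLΛ : L ≤ Λ := by
    rw [hLdef, div_le_iff₀ ha0]
    linarith only [hK₁, ha₀, ha₀1, hUdef, hq0, haΛ]
  obtain ⟨W, hW⟩ : ∃ x, x = XX (iP χ) σ Λ := ⟨_, rfl⟩
  have hWpos : 0 < W := by rw [hW]; exact hM.XX_pos hσ0 hσ1 hΛ16 hΛ0
  have hWΛ : Λ / 64 ≤ W := by rw [hW]; exact hM.XX_ge hσ0 hσ1 hΛ16 hΛ0
  have haW : 4 * (U + 1) + 8 * C' / c₁ + 4 ≤ a * W := by
    have h1 := mul_le_mul_of_nonneg_left hWΛ ha0.le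
    linarith only [hK₁, ha₀, ha₀1, haΛ, h1]
  have haW4 : 4 ≤ a * W := by linarith only [ha₀, ha₀1, hUdef, hq0, haW]
  have hLW : L ≤ W / 4 := by
    rw [hLdef, div_le_div_iff₀ ha0 (by norm_num)]
    linarith only [ha₀, ha₀1, hUdef, hq0, haW]
  obtain ⟨ψ, hψ⟩ : ∃ x, x = RR (iP χ) σ Λ / W := ⟨_, rfl⟩
  have hRR1 := (hM.RR_ge hσ0 hσ1 hΛ16 hΛ0).1
  have hψW : 1 / W ≤ ψ := by rw [hψ]; exact div_le_div_of_nonneg_right hRR1 hWpos.le
  have hψ0 : 0 < ψ := lt_of_lt_of_le (by positivity) hψW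
  have hLψ : 1 / (a * W) ≤ L * ψ := by
    have h1 := mul_le_mul_of_nonneg_left hψW hL0.le
    refine le_trans (le_of_eq ?_) h1
    rw [hLdef]; field_simp
  have hLψ0 : 0 < L * ψ := mul_pos hL0 hψ0
  -- the two sets of primes
  set Q₁ := iP χ L with hQ₁
  set Q₂ := (iP χ Λ).filter fun p => ¬ lg p ≤ L with hQ₂
  have hQ₁' : Q₁ = (iP χ Λ).filter fun p => lg p ≤ L := hM.mem Λ L hLΛ
  have hd : Disjoint Q₁ Q₂ := by
    rw [hQ₁']; exact Finset.disjoint_filter_filter_not _ _ _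
  have hun : Q₁ ∪ Q₂ = iP χ Λ := by
    rw [hQ₁']; exact Finset.filter_union_filter_not_eq _ _
  have hx : ∀ s : ℝ, ∀ p, 0 < xs s p := fun s p => xs_pos s p
  -- Chernoff bounds
  have h2L : 0 ≤ 2 / L := by positivity
  have hch : ∀ y, Ef Q₁ (xs σ) lg (fun s => if y ≤ s then 1 else 0) ≤
      C' * rexp (-(2 / L * y)) := by
    intro y
    have h1 := chern Q₁ (σ := σ) (t := 2 / L) (X₀ := E3 * L) h2L (by
      have h3 := hM.XX_le (σ := σ - 2 / L) (Λ := L) (by linarith only [ha0, hσ, h2L]) (by linarith only [ha₀, ha₀1, hΛ₃, hL3])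
      unfold XX at h3
      refine h3.trans (mul_le_mul_of_nonneg_right ?_ hL0.le)
      rw [hE3, exp_le_exp, hσ]
      have : (1 - (1 - a - 2 / L)) * L = a * L + 2 := by field_simp; ring
      rw [this, haL]; norm_num) y
    have e : 2 / L * (E3 * L) = 2 * E3 := by field_simp
    rw [e, ← hC'] at h1
    exact h1
  have hch1 : ∀ y, Ef Q₁ (xs 1) lg (fun s => if y ≤ s then 1 else 0) ≤
      C' * rexp (-(2 / L * y)) := by
    intro y
    have h1 := chern Q₁ (σ := 1) (t := 2 / L) (X₀ := E3 * L) h2L (by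
      have h3 := hM.XX_le (σ := 1 - 2 / L) (Λ := L) (by linarith only [h2L]) (by linarith only [ha₀, ha₀1, hΛ₃, hL3])
      unfold XX at h3
      refine h3.trans (mul_le_mul_of_nonneg_right ?_ hL0.le)
      rw [hE3, exp_le_exp]
      have : (1 - (1 - 2 / L)) * L = 2 := by field_simp; ring
      rw [this]; norm_num) y
    have e : 2 / L * (E3 * L) = 2 * E3 := by field_simp
    rw [e, ← hC'] at h1
    exact h1
  have hhalf : 1 / 2 ≤ Ef Q₁ (xs σ) lg (fun s => if s ≤ R * L then 1 else 0) := by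
    have h1 := hch (R * L)
    have e1 : 2 / L * (R * L) = 2 * R := by field_simp
    rw [e1, hC', ← exp_add] at h1
    have e2 : 2 * E3 + -(2 * R) = -2 := by rw [hR]; ring
    rw [e2] at h1
    have h3 : rexp (-2) ≤ 1 / 2 := by
      rw [exp_neg, one_div]
      apply inv_anti₀ (by norm_num)
      linarith only [ha₀, ha₀1, add_one_le_exp (2 : ℝ)]
    have h4 : Ef Q₁ (xs σ) lg (fun _ => (1 : ℝ)) ≤
        Ef Q₁ (xs σ) lg (fun s => (if s ≤ R * L then 1 else 0) +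
          (if R * L ≤ s then 1 else 0)) := by
      apply Ef_mono (hx σ)
      intro s
      rcases le_total s (R * L) with h | h
      · rw [if_pos h]; split_ifs <;> norm_num
      · rw [if_pos h]; split_ifs <;> norm_num
    rw [Ef_const (hx σ), Ef_add] at h4
    linarith only [h1, h3, h4]
  -- density bounds
  have hup : ∀ y, W / 4 ≤ y → al (iP χ) 1 σ Λ y ≤ 4 * D * ψ := by
    intro y hy
    have h1 := hU σ Λ 1 y (by linarith only [ha₀, ha₀1, ha14, hσ]) hσ1 (by linarith only [hC0, ha₀, ha₀1, hΛ₂, hΛ]) le_rfl le_rfl (by linarith only [hC0, ha₀, ha₀1, hΛ₃, hL3, hLW, hy])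
    refine h1.trans ?_
    have h3 : D * RR (iP χ) σ Λ / y ≤ D * RR (iP χ) σ Λ / (W / 4) :=
      div_le_div_of_nonneg_left (by positivity) (by positivity) hy
    refine h3.trans (le_of_eq ?_)
    rw [hψ]; field_simp
  have hD' : 0 ≤ 4 * D * ψ := by positivity
  have hwin : ∀ z w, W / 4 ≤ z → 0 ≤ w → Ef (Q₁ ∪ Q₂) (xs σ) lg
      (fun s => if z ≤ s ∧ s ≤ z + w then 1 else 0) ≤ (w + 1) * (12 * D * ψ) := by
    intro z w hz hw
    rw [hun]
    have h1 := win_le (iP χ) (σ := σ) (Λ := Λ) (z := z) (fun y hy => hup y (hz.trans hy)) hD' hw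
    refine h1.trans ?_
    apply mul_le_mul_of_nonneg_left _ (by linarith only [ha₀, ha₀1, hw])
    have he3 : rexp 1 ≤ 3 := by linarith only [ha₀, ha₀1, exp_one_lt_d9]
    calc rexp 1 * (4 * D * ψ) ≤ 3 * (4 * D * ψ) := mul_le_mul_of_nonneg_right he3 hD'
      _ = _ := by ring
  have hlw : c₁ * (L * ψ) ≤ Ef (Q₁ ∪ Q₂) (xs σ) lg
      (fun s => if W - L ≤ s ∧ s ≤ W then 1 else 0) := by
    rw [hun]
    have h1 := hlow Λ a (by linarith only [hC0, hΛ₁', ha₀, ha₀1, hΛ]) (le_trans (by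
      apply div_le_div_of_nonneg_right _ hΛ0.le
      rw [hK]; linarith only [ha₀, ha₀1, hUdef, hq0]) haK) (haa.trans (min_le_left _ _))
    rw [← hσ, ← hW, ← hψ, ← hLdef] at h1
    linarith only [h1]
  -- mass of the large primes
  set A := Ef Q₂ (xs σ) lg (fun t => if 0 ≤ W - t ∧ W - t ≤ (1 + n₀) * L then 1 else 0) with hA
  have hmass := mass_below hd (W := W) (Λ₁ := L) (R := R) (C' := C') (U₀ := 1 + n₀)
    (D' := 12 * D * ψ) (m := c₁ * (L * ψ)) hL0 hR0.le (by linarith) (by positivity) hhalf hch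
    hwin hLW hlw
  rw [← hA] at hmass
  have hAlow : c₁ / 2 * (L * ψ) ≤ A := by
    have e1 : 2 * (1 + (n₀ : ℝ) - 1) = 2 * n₀ := by ring
    rw [e1] at hmass
    have h1 : C' * rexp (-(2 * (n₀ : ℝ))) * (2 * (((R + 1) * L + 1) * (12 * D * ψ))) ≤
        c₁ / 4 * (L * ψ) := by
      have h3 : (R + 1) * L + 1 ≤ (R + 2) * L := by linarith only [hC0, ha₀, ha₀1, hΛ₃, hL3]
      calc C' * rexp (-(2 * (n₀ : ℝ))) * (2 * (((R + 1) * L + 1) * (12 * D * ψ))) ≤
          C' * rexp (-(2 * (n₀ : ℝ))) * (2 * (((R + 2) * L) * (12 * D * ψ))) := by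
            apply mul_le_mul_of_nonneg_left _ (by positivity)
            apply mul_le_mul_of_nonneg_left _ (by norm_num)
            exact mul_le_mul_of_nonneg_right h3 (by positivity)
        _ = C' * (24 * (R + 2) * D) * rexp (-(2 * (n₀ : ℝ))) * (L * ψ) := by ring
        _ ≤ _ := mul_le_mul_of_nonneg_right hn₀ hLψ0.le
    have h3 : C' * rexp (-(W / L)) ≤ c₁ / 4 * (L * ψ) := by
      have e2 : W / L = a * W := by rw [hLdef]; field_simp
      rw [e2]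
      have h5 : rexp (-(a * W)) ≤ 2 / (a * W) ^ 2 := by
        have h6 := Real.pow_div_factorial_le_exp (a * W) (by linarith only [ha₀, ha₀1, hUdef, hq0, haW]) 2
        have h7 : ((2 : ℕ).factorial : ℝ) = 2 := by norm_num
        rw [h7] at h6
        rw [exp_neg, ← one_div, div_le_div_iff₀ (exp_pos _) (by positivity)]
        linarith only [h6]
      calc C' * rexp (-(a * W)) ≤ C' * (2 / (a * W) ^ 2) :=
            mul_le_mul_of_nonneg_left h5 hC'p.le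
        _ = 2 * C' / (a * W) * (1 / (a * W)) := by field_simp
        _ ≤ c₁ / 4 * (L * ψ) := by
            apply mul_le_mul _ hLψ (by positivity) (by positivity)
            rw [div_le_iff₀ (by linarith only [ha₀, ha₀1, hUdef, hq0, haW])]
            have h8 : 8 * C' / c₁ ≤ a * W := by linarith only [ha₀, ha₀1, hUdef, haW]
            rw [div_le_iff₀ hc₁] at h8
            linarith only [h8]
    linarith only [hmass, h1, h3]
  -- negative part
  have hgw : Ef Q₂ (xs σ) lg (fun t => gw a U (W - t)) ≤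
      2 * rexp R * (rexp (-U) * ((96 * D + 4) * (L * ψ))) := by
    have h1 := transfer (σ := σ) hd (W := W) (R := R * L) (κ := rexp R) (exp_pos R) hhalf
      (g := gw a U) (g' := gw a U) (fun v => (exp_pos _).le) (fun v => (exp_pos _).le)
      (fun v s hs hsR => gw_shift ha0.le hs (by
        have := mul_le_mul_of_nonneg_left hsR ha0.le
        calc a * s ≤ a * (R * L) := this
          _ = R * (a * L) := by ring
          _ = R := by rw [haL, mul_one]))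
    refine h1.trans ?_
    apply mul_le_mul_of_nonneg_left _ (by positivity)
    rw [hun]
    have h3 := gw_bound (iP χ) (σ := σ) (Λ := Λ) (a := a) (U := U) (W := W)
      (D' := 4 * D * ψ) ha0 (by linarith only [ha₀, ha₀1, ha14]) (by linarith only [ha₀, ha₀1, hUdef]) (by linarith only [ha₀, ha₀1, hq0, haW]) hup hD'
    refine h3.trans ?_
    apply mul_le_mul_of_nonneg_left _ (exp_pos _).le
    have e1 : 24 * (4 * D * ψ) / a = 96 * D * (L * ψ) := by rw [hLdef]; field_simp; ring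
    have e2 : 4 / (a * W) = 4 * (1 / (a * W)) := by ring
    rw [e1, e2]
    linarith only [hLψ]
  -- pointwise bound
  obtain ⟨hP1, hP2⟩ := hPh L (by linarith only [hC0, ha₀, ha₀1, hL3])
  have hpt : ∀ v : ℝ, c * (if 0 ≤ v ∧ v ≤ (1 + n₀) * L then 1 else 0) -
      N ^ 2 * C' * gw a U v ≤ rexp (a * v) * Ph χ L v := by
    intro v
    have hg0 : 0 < gw a U v := exp_pos _
    by_cases hv : 0 ≤ v ∧ v ≤ (1 + n₀) * L
    · rw [if_pos hv, mul_one]
      have h1 := hP1 v hv.1 hv.2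
      have h3 : 1 ≤ rexp (a * v) := one_le_exp (mul_nonneg ha0.le hv.1)
      have h4 : 0 ≤ N ^ 2 * C' * gw a U v := by (clear * - hN1 hC'p hg0; positivity)
      nlinarith only [h1, h4, ha₀, ha₀1, hc, h3]
    · rw [if_neg hv, mul_zero, zero_sub]
      have h1 := hP2 v
      have h3 := hch1 (max v (U * L))
      have e1 : 2 / L * max v (U * L) = 2 * max (a * v) U := by
        have e2 : max (a * v) U = a * max v (U * L) := by
          rw [mul_max_of_nonneg _ _ ha0.le]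
          congr 1
          calc U = U * (a * L) := by rw [haL, mul_one]
            _ = _ := by ring
        rw [e2, hLdef]; field_simp
      rw [e1] at h3
      have h4 : -((N : ℝ) ^ 2 * (C' * rexp (-(2 * max (a * v) U)))) ≤ Ph χ L v := by
        refine le_trans (neg_le_neg ?_) h1
        exact mul_le_mul_of_nonneg_left h3 (by positivity)
      have h5 := mul_le_mul_of_nonneg_left h4 (exp_pos (a * v)).le
      refine le_trans (le_of_eq ?_) h5
      have e3 : gw a U v = rexp (a * v) * rexp (-(2 * max (a * v) U)) := by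
        unfold gw; rw [← exp_add]; congr 1
      rw [e3]; ring
  -- the main identity
  rw [← hW, sum_tilt' (iP χ) Λ σ W (fD χ)]
  have hZ := Zt_pos (P := iP χ Λ) fun p => xs_pos σ p
  apply mul_pos (exp_pos _)
  apply mul_pos hZ
  rw [← hun, Ef_fub hd]
  have hZ1 := Zt_pos (P := Q₁) fun p => xs_pos σ p
  have hZ2 := Zt_pos (P := Q₁) fun p => xs_pos (σ + a) p
  set r₁ := Zt Q₁ (xs (σ + a)) / Zt Q₁ (xs σ) with hr₁
  have hr₁0 : 0 < r₁ := div_pos hZ2 hZ1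
  have hσa : σ + a = 1 := by rw [hσ]; ring
  have hid : ∀ t : ℝ, Ef Q₁ (xs σ) lg
      (fun s => fD χ (s + t - W) * rexp (σ * (s + t - W))) =
      r₁ * (rexp (a * (W - t)) * Ph χ L (W - t)) := by
    intro t
    have e1 : ∀ s : ℝ, fD χ (s + t - W) * rexp (σ * (s + t - W)) =
        rexp (a * (W - t)) * (rexp (-(a * s)) * Dv χ (rexp (s - (W - t)))) := by
      intro s
      unfold fD
      have e2 : s + t - W = s - (W - t) := by ring
      rw [e2]
      have e3 : rexp (-(s - (W - t))) * rexp (σ * (s - (W - t))) =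
          rexp (a * (W - t)) * rexp (-(a * s)) := by
        rw [← exp_add, ← exp_add]; congr 1; rw [hσ]; ring
      linear_combination (Dv χ (rexp (s - (W - t)))) * e3
    simp_rw [e1]
    rw [Ef_const_mul, Ef_retilt, ← hr₁, hσa]
    unfold Ph
    ring
  simp_rw [hid]
  rw [Ef_const_mul]
  apply mul_pos hr₁0
  have hfin : c * A - N ^ 2 * C' * Ef Q₂ (xs σ) lg (fun t => gw a U (W - t)) ≤
      Ef Q₂ (xs σ) lg (fun t => rexp (a * (W - t)) * Ph χ L (W - t)) := by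
    rw [hA, ← Ef_const_mul, ← Ef_const_mul, ← Ef_sub]
    exact Ef_mono (hx σ) fun t => hpt (W - t)
  refine lt_of_lt_of_le ?_ hfin
  have h1 : c * (c₁ / 2 * (L * ψ)) ≤ c * A := mul_le_mul_of_nonneg_left hAlow hc.le
  have h3 : N ^ 2 * C' * Ef Q₂ (xs σ) lg (fun t => gw a U (W - t)) ≤
      c * c₁ / 4 * (L * ψ) := by
    calc _ ≤ N ^ 2 * C' * (2 * rexp R * (rexp (-U) * ((96 * D + 4) * (L * ψ)))) :=
          mul_le_mul_of_nonneg_left hgw (by positivity)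
      _ = N ^ 2 * C' * (2 * rexp R) * (96 * D + 4) * rexp (-U) * (L * ψ) := by ring
      _ ≤ _ := mul_le_mul_of_nonneg_right hUe hLψ0.le
  have h4 : 0 < c * c₁ * (L * ψ) := by positivity
  linarith only [h1, h3, h4]

end Pool.Agent.MP0016c7.Ros
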