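import Mathlib
import Pool.Agent.Lib.MP_0016c7_nt.CdlMid
import Pool.Agent.Lib.MP_0016c7_nt.EvR5
import Pool.Agent.Lib.MP_0016c7_nt.FekBack

open Real Set MeasureTheory Filter Topology

namespace Pool.Agent.MP0016c7.Ros

open Pool.Agent.MP0016c7.Fek DirichletCharacter

variable {N : ℕ} [NeZero N] {χ : DirichletCharacter ℂ N} {Q : ℕ}

omit [NeZero N] in
lemma ind_even (he : χ.Even) : (ind χ Q).Even := by
  have hc : IsCoprime (-1 : ℤ) ((N * Q : ℕ) : ℤ) := isCoprime_one_left.neg_left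
  have h1 := changeLevel_eq_cast_of_dvd' χ (Nat.dvd_mul_right N Q) hc
  have h2 : χ (-1) = 1 := he
  unfold DirichletCharacter.Even ind
  push_cast at h1
  rw [h1, h2]

lemma prim_even (χ : DirichletCharacter ℂ N) (he : χ.Even) : χ.primitiveCharacter.Even := by
  have hc : IsCoprime (-1 : ℤ) (N : ℤ) := isCoprime_one_left.neg_left
  have h1 := χ.primitiveCharacter_apply_of_isCoprime hc
  have h2 : χ (-1) = 1 := he
  unfold DirichletCharacter.Even
  push_cast at h1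
  rw [h1, h2]

omit [NeZero N] in
lemma xs_neg_one {n : ℕ} (hn : 1 ≤ n) : xs (-1) n = n := by
  unfold xs lg
  rw [neg_mul, one_mul, neg_neg, exp_log (by exact_mod_cast hn)]

/-- the Cesaro sums in terms of the two plain sums -/
lemma Dv_eq_two (u : ℝ) : Dv χ u =
    u * ∑ k ∈ Finset.Icc 1 ⌊u⌋₊, rchar χ k - ∑ k ∈ Finset.Icc 1 ⌊u⌋₊, rchar χ k * k := by
  have h1 : ∀ f : ℕ → ℝ, f 0 = 0 → ∑ k ∈ Finset.range (⌊u⌋₊ + 1), f k =
      ∑ k ∈ Finset.Icc 1 ⌊u⌋₊, f k := by
    intro f hf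
    rw [← Finset.Ico_add_one_right_eq_Icc, Finset.range_eq_Ico, Finset.sum_eq_sum_Ico_succ_bot (by omega), hf,
      zero_add]
  unfold Dv
  rw [h1 _ (by simp), Finset.mul_sum, ← Finset.sum_sub_distrib]
  exact Finset.sum_congr rfl fun k _ => by ring

/-- the sieve identity -/
theorem Dv_ind_sum (h2 : χ ^ 2 = 1) {Y : ℕ} (hY : 1 ≤ Y) (X : ℝ) :
    Dv (ind χ (inertProduct χ Y)) (rexp X) =
      rexp X * ∑ A ∈ (iP χ (lg Y)).powerset, fD χ (X - Sm lg A) := by
  have hQ0 : inertProduct χ Y ≠ 0 := inertProduct_ne_zero χ Y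
  have hM : NeZero (N * inertProduct χ Y) := ⟨Nat.mul_ne_zero (NeZero.ne N) hQ0⟩
  set K := ⌊rexp X⌋₊ with hK
  have e0 : ∑ k ∈ Finset.Icc 1 K, rchar (ind χ (inertProduct χ Y)) k =
      Fs (fc χ 0) (iP χ (lg Y)) K := by
    rw [← truncSum_inert h2 hY, truncSum_eq_ind]
    apply Finset.sum_congr rfl
    intro n _
    unfold xs
    rw [zero_mul, neg_zero, exp_zero, mul_one]
  have e1 : ∑ k ∈ Finset.Icc 1 K, rchar (ind χ (inertProduct χ Y)) k * k =
      Fs (fc χ (-1)) (iP χ (lg Y)) K := by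
    rw [← truncSum_inert h2 hY, truncSum_eq_ind]
    apply Finset.sum_congr rfl
    intro n hn
    rw [xs_neg_one (Finset.mem_Icc.mp hn).1]
  rw [Dv_eq_two, ← hK, e0, e1]
  rw [Fs_eq (x := xs 0) (fc_mul h2 0) (fun p hp => iP_prime hp) (fun p hp => by
    rw [fc_zero, ((mem_iP χ).mp hp).2.1]; simp [xs])]
  rw [Fs_eq (x := xs (-1)) (fc_mul h2 (-1)) (fun p hp => iP_prime hp) (fun p hp => by
    unfold fc; rw [((mem_iP χ).mp hp).2.1]; ring)]
  rw [Finset.mul_sum, Finset.mul_sum, ← Finset.sum_sub_distrib]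
  apply Finset.sum_congr rfl
  intro A hA
  rw [Finset.mem_powerset] at hA
  rw [floor_exp_div (fun p hp => iP_prime (hA hp)), Wt_xs, Wt_xs, zero_mul, neg_zero, exp_zero,
    one_mul, Fs_empty, Fs_empty]
  unfold fD
  rw [Dv_eq_two]
  have a0 : ∑ k ∈ Finset.Icc 1 ⌊rexp (X - Sm lg A)⌋₊, fc χ 0 k =
      ∑ k ∈ Finset.Icc 1 ⌊rexp (X - Sm lg A)⌋₊, rchar χ k :=
    Finset.sum_congr rfl fun k _ => fc_zero k
  have a1 : ∑ k ∈ Finset.Icc 1 ⌊rexp (X - Sm lg A)⌋₊, fc χ (-1) k =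
      ∑ k ∈ Finset.Icc 1 ⌊rexp (X - Sm lg A)⌋₊, rchar χ k * k := by
    apply Finset.sum_congr rfl
    intro k hk
    unfold fc
    rw [xs_neg_one (Finset.mem_Icc.mp hk).1]
  rw [a0, a1]
  have b1 : rexp X * rexp (-(X - Sm lg A)) = rexp (Sm lg A) := by
    rw [← exp_add]; congr 1; ring
  have b2 : rexp X * rexp (-(X - Sm lg A)) * rexp (X - Sm lg A) = rexp X := by
    rw [← exp_add, ← exp_add]; congr 1; ring
  have b3 : rexp (-(-1 * Sm lg A)) = rexp X * rexp (-(X - Sm lg A)) := by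
    rw [b1]; congr 1; ring
  rw [b3]
  linear_combination (- ∑ k ∈ Finset.Icc 1 ⌊rexp (X - Sm lg A)⌋₊, rchar χ k) * b2

/-- small arguments -/
lemma Dv_ind_small (h2 : χ ^ 2 = 1) {Y : ℕ} (hY : 1 ≤ Y) {X : ℝ} (hX : X ≤ lg Y) :
    0 ≤ Dv (ind χ (inertProduct χ Y)) (rexp X) := by
  have hQ0 : inertProduct χ Y ≠ 0 := inertProduct_ne_zero χ Y
  have hM : NeZero (N * inertProduct χ Y) := ⟨Nat.mul_ne_zero (NeZero.ne N) hQ0⟩
  have hisq := ind_sq (χ := χ) (Q := inertProduct χ Y) h2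
  unfold Dv
  apply Finset.sum_nonneg
  intro k hk
  rw [Finset.mem_range] at hk
  have hk1 : k ≤ ⌊rexp X⌋₊ := by omega
  have hk2 : (k : ℝ) ≤ rexp X := (Nat.le_floor_iff (exp_pos X).le).mp hk1
  apply mul_nonneg _ (by linarith)
  rcases Nat.eq_zero_or_pos k with rfl | hk0
  · simp
  apply rchar_nonneg_of hisq
  intro p hp hpk
  rw [rchar_ind hp.one_lt.le]
  unfold cQ
  split_ifs with hc
  · rcases rchar_cases h2 p with h | h | h
    · rw [h]
    · rw [h]; exact zero_le_one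
    · exfalso
      have hpk' : p ≤ k := Nat.le_of_dvd hk0 hpk
      have h3 : (p : ℝ) ≤ rexp X := le_trans (by exact_mod_cast hpk') hk2
      have h4 : p ∈ iP χ (lg Y) := by
        rw [mem_iP]
        refine ⟨hp, h, ?_⟩
        have h4 : Real.log p ≤ X := by
          rw [Real.log_le_iff_le_exp (by exact_mod_cast hp.pos)]
          exact h3
        exact h4.trans hX
      rw [inertProduct_eq h2 hY] at hc
      exact (hp.coprime_iff_not_dvd.mp hc) (Finset.dvd_prod_of_mem _ h4)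
  · exact le_rfl

omit [NeZero N] in
lemma sum_fD_E6 {P : Finset ℕ} (hP : ∀ p ∈ P, p.Prime) {W : ℝ} (hN : (0 : ℝ) < N)
    (h : 0 < EE P (xs 1) (fun A => Dv χ ((N : ℝ) * (eA A * (rexp (-W) / N))))) :
    0 < ∑ A ∈ P.powerset, fD χ (Sm lg A - W) := by
  have hZ : 0 < Zt P (xs 1) := Zt_pos fun p => xs_pos 1 p
  unfold EE at h
  rw [smul_eq_mul] at h
  have h1 := (pos_iff_pos_of_mul_pos h).mp (inv_pos.mpr hZ)
  have h2 : ∑ A ∈ P.powerset, fD χ (Sm lg A - W) = rexp W * ∑ A ∈ P.powerset,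
      Wt (xs 1) A • Dv χ ((N : ℝ) * (eA A * (rexp (-W) / N))) := by
    rw [Finset.mul_sum]
    apply Finset.sum_congr rfl
    intro A hA
    have hA' : ∀ p ∈ A, p.Prime := fun p hp => hP p (Finset.mem_powerset.mp hA hp)
    have e1 : (N : ℝ) * (eA A * (rexp (-W) / N)) = rexp (Sm lg A - W) := by
      rw [exp_sub, exp_Sm hA', exp_neg]
      field_simp
    unfold fD
    rw [e1, smul_eq_mul, Wt_xs, ← mul_assoc, ← exp_add]
    congr 2
    ring
  rw [h2]
  exact mul_pos (exp_pos _) h1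

/-- all Cesaro sums of the induced character are nonnegative -/
theorem ev_forward (hSW : SWd) (hχ : χ.IsPrimitive) (hne : χ ≠ 1) (h2 : χ ^ 2 = 1) (he : χ.Even)
    (hL : ∀ s : ℝ, 0 < s → s < 1 → 0 < Lr χ s) :
    ∀ᶠ Y : ℕ in atTop, ∀ u : ℝ, 0 ≤ u → 0 ≤ Dv (ind χ (inertProduct χ Y)) u := by
  obtain ⟨hDb, -⟩ := JD_lower hχ hne h2 he hL
  obtain ⟨C₀, C₁, Cs, hM⟩ := exists_mdat χ h2 hne
  obtain ⟨K, hK, a₁, ha₁, ha₁', Λ₁, hΛ₁, r4⟩ := range4 hSW hχ hne h2 he hDb
  obtain ⟨Λ₂, hΛ₂, r3⟩ := range3 hχ hne h2 he hL hM ha₁ (by linarith)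
  obtain ⟨Λ₃, hΛ₃, r2⟩ := range2 hχ hne h2 he hL hM
  obtain ⟨c, hc, Λ₄, hΛ₄, r5⟩ := E6 hSW hχ hne h2 he hDb (U := rexp K) (one_le_exp (by linarith))
  have hN := modulus_ne_one hne
  have hN0 : (0 : ℝ) < N := by exact_mod_cast NeZero.pos N
  have h3 : Tendsto (fun Y : ℕ => lg Y) atTop atTop := by
    unfold lg
    exact Real.tendsto_log_atTop.comp tendsto_natCast_atTop_atTop
  filter_upwards [h3.eventually_ge_atTop (Λ₁ + Λ₂ + Λ₃ + Λ₄ + K / a₁ + 2 * |C₀|),
    eventually_ge_atTop 1] with Y hY hY1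
  set Λ := lg Y with hΛ
  have hC := le_abs_self C₀
  have hC' := abs_nonneg C₀
  have hKa : 0 < K / a₁ := by positivity
  have hΛ0 : 0 < Λ := by linarith
  have hKΛ : K / Λ ≤ a₁ := by
    rw [div_le_iff₀ hΛ0]
    have : K / a₁ ≤ Λ := by linarith
    rw [div_le_iff₀ ha₁] at this
    linarith
  set Q := inertProduct χ Y with hQ
  have hQ0 : Q ≠ 0 := inertProduct_ne_zero χ Y
  have hQR : (0 : ℝ) < Q := by exact_mod_cast Nat.pos_of_ne_zero hQ0
  have hMM : NeZero (N * Q) := ⟨Nat.mul_ne_zero (NeZero.ne N) hQ0⟩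
  have hine := ind_ne (χ := χ) hQ0 hne
  have hie := ind_even (χ := χ) (Q := Q) he
  have hT : Sm lg (iP χ Λ) = Real.log Q := by
    rw [← (lg_prod fun p hp => iP_prime hp).2, hQ, inertProduct_eq h2 hY1]
    rfl
  have hXX0 : XX (iP χ) 0 Λ = Sm lg (iP χ Λ) / 2 := XX_zero (iP χ) Λ
  have low : ∀ v : ℝ, 0 < v → v ≤ ((N * Q : ℕ) : ℝ) / 2 → 0 ≤ Dv (ind χ Q) v := by
    intro v hv hv'
    push_cast at hv'
    set X := Real.log v with hX
    have hvX : v = rexp X := (exp_log hv).symm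
    rw [hvX]
    rcases le_total X Λ with hc1 | hc1
    · exact Dv_ind_small h2 hY1 hc1
    rw [hQ, Dv_ind_sum h2 hY1]
    apply mul_nonneg (exp_pos _).le
    apply le_of_lt
    rcases le_total X (XX (iP χ) 0 Λ) with hc2 | hc2
    · exact r2 Λ X (by linarith) (by linarith) hc2
    rw [sum_compl]
    set W := Sm lg (iP χ Λ) - X with hW
    have hW0 : W ≤ XX (iP χ) 0 Λ := by rw [hXX0, hW]; rw [hXX0] at hc2; linarith
    rcases le_total (XX (iP χ) (1 - a₁) Λ) W with hc3 | hc3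
    · exact r3 Λ W (by linarith) hc3 hW0
    rcases le_total (XX (iP χ) (1 - K / Λ) Λ) W with hc4 | hc4
    · have hcont : ContinuousOn (fun a => XX (iP χ) (1 - a) Λ) (Icc (K / Λ) a₁) :=
        ((hM.continuous_XX Λ).comp (continuous_const.sub continuous_id)).continuousOn
      obtain ⟨a, ha, haW⟩ := intermediate_value_Icc hKΛ hcont ⟨hc4, hc3⟩
      simp only at haW
      rw [← haW]
      exact r4 Λ a (by linarith) ha.1 ha.2
    · apply sum_fD_E6 (fun p hp => iP_prime hp) hN0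
      have hle : W ≤ rexp K * Λ := by
        refine hc4.trans ((hM.XX_le (by
          have : 0 ≤ K / Λ := by positivity
          linarith) (by linarith)).trans (le_of_eq ?_))
        congr 2
        field_simp
        ring
      have hxe : rexp (-W) / N = v / (N * Q) := by
        rw [hW, hT, neg_sub, exp_sub, exp_log hQR, ← hvX]
        field_simp
      have hx0 : 0 < rexp (-W) / N := by positivity
      refine lt_of_lt_of_le hc (r5 Λ (rexp (-W) / N) (by linarith) hx0 ?_ ?_)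
      · rw [hxe, div_le_iff₀ (by positivity)]
        linarith
      · rw [mul_div_cancel₀ _ hN0.ne', exp_le_exp]
        linarith
  intro u hu
  obtain ⟨v, hv0, hv1, hv2, -⟩ := Dv_reduce hine hie hu
  rw [hv2]
  rcases eq_or_lt_of_le hv0 with h | h
  · rw [← h, Dv_of_le_one zero_le_one]
  · exact low v h hv1

omit [NeZero N] in
lemma iterSum_two_eq (hN : N ≠ 1) (n : ℕ) :
    iterSum (indChar χ Q) 2 n = Dv (ind χ Q) ((n : ℝ) + 1) := by
  have e0 : ∀ m : ℕ, iterSum (indChar χ Q) 1 m = ∑ k ∈ Finset.range (m + 1), rchar (ind χ Q) k := by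
    intro m
    have : iterSum (indChar χ Q) 1 m = ∑ k ∈ Finset.range (m + 1), indChar χ Q k := rfl
    rw [this]
    exact Finset.sum_congr rfl fun k _ => indChar_eq hN k
  have e1 : iterSum (indChar χ Q) 2 n = ∑ m ∈ Finset.range (n + 1), iterSum (indChar χ Q) 1 m := rfl
  rw [e1]
  have e2 : ∀ n : ℕ, ∑ m ∈ Finset.range (n + 1), ∑ k ∈ Finset.range (m + 1), rchar (ind χ Q) k =
      ∑ k ∈ Finset.range (n + 1 + 1), rchar (ind χ Q) k * (((n : ℝ) + 1) - k) := by
    intro n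
    induction n with
    | zero => simp [Finset.sum_range_succ]
    | succ n ih =>
      rw [Finset.sum_range_succ, ih, Finset.sum_range_succ _ (n + 1 + 1)]
      push_cast
      have : ∑ k ∈ Finset.range (n + 1 + 1), rchar (ind χ Q) k * ((n : ℝ) + 1 + 1 - k) =
          ∑ k ∈ Finset.range (n + 1 + 1), rchar (ind χ Q) k * (((n : ℝ) + 1) - k) +
          ∑ k ∈ Finset.range (n + 1 + 1), rchar (ind χ Q) k := by
        rw [← Finset.sum_add_distrib]
        exact Finset.sum_congr rfl fun k _ => by ring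
      rw [this]
      ring
  rw [Finset.sum_congr rfl fun m _ => e0 m, e2]
  unfold Dv
  have : ⌊(n : ℝ) + 1⌋₊ = n + 1 := by
    have := Nat.floor_natCast (R := ℝ) (n + 1)
    push_cast at this
    exact this
  rw [this]

/-- all second iterated sums of the induced character are nonnegative -/
theorem ev_forward_two (hSW : SWd) (hχ : χ.IsPrimitive) (hne : χ ≠ 1) (h2 : χ ^ 2 = 1)
    (he : χ.Even) (hL : ∀ s : ℝ, 0 < s → s < 1 → 0 < Lr χ s) :
    ∀ᶠ Y : ℕ in atTop, ∀ n : ℕ, 0 ≤ iterSum (indChar χ (inertProduct χ Y)) 2 n := by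
  filter_upwards [ev_forward hSW hχ hne h2 he hL] with Y hY n
  rw [iterSum_two_eq (modulus_ne_one hne)]
  exact hY _ (by positivity)

lemma even_first_neg (hN : N ≠ 1) (hne : χ ≠ 1) (he : χ.Even) :
    ∑ k ∈ Finset.range (N - 1), rchar χ k = -1 := by
  have hN0 : N ≠ 0 := NeZero.ne N
  have hsum := sum_rchar_range' hne
  have h3 := rchar_reflect_even hN he (j := 1) (by omega)
  have h4 := rchar_modulus (χ := χ) hN
  rw [rchar_one] at h3
  have h5 : N + 1 = (N - 1) + 1 + 1 := by omega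
  rw [h5, Finset.sum_range_succ, Finset.sum_range_succ] at hsum
  have h6 : N - 1 + 1 = N := by omega
  rw [h6, h3, h4] at hsum
  linarith

/-- the exponent zero is never enough, and the exponent one is not enough for even characters -/
theorem exponent_lower (hQ : Q ≠ 0) (hne : χ ≠ 1) {k : ℕ}
    (h : ∀ n : ℕ, 0 ≤ iterSum (indChar χ Q) k n) : 1 ≤ k ∧ (χ.Even → 2 ≤ k) := by
  have hN := modulus_ne_one hne
  have hMM : NeZero (N * Q) := ⟨Nat.mul_ne_zero (NeZero.ne N) hQ⟩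
  have hine := ind_ne (χ := χ) hQ hne
  have hM1 : N * Q ≠ 1 := mul_ne_one hN
  have hM0 : N * Q ≠ 0 := NeZero.ne _
  have hk0 : k ≠ 0 := by
    rintro rfl
    have h1 : ∀ n : ℕ, 0 ≤ rchar (ind χ Q) n := fun n => by
      rw [← indChar_eq hN]
      exact h n
    have h3 := Finset.single_le_sum (s := Finset.range (N * Q + 1)) (f := fun n => rchar (ind χ Q) n)
      (fun n _ => h1 n) (Finset.mem_range.mpr (by omega : 1 < N * Q + 1))
    rw [sum_rchar_range' hine, rchar_one] at h3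
    linarith
  refine ⟨Nat.one_le_iff_ne_zero.mpr hk0, fun he => ?_⟩
  by_contra hk
  have hk1 : k = 1 := by omega
  subst hk1
  have h1 := h (N * Q - 2)
  have e1 : iterSum (indChar χ Q) 1 (N * Q - 2) =
      ∑ k ∈ Finset.range (N * Q - 2 + 1), rchar (ind χ Q) k := by
    have : iterSum (indChar χ Q) 1 (N * Q - 2) =
      ∑ k ∈ Finset.range (N * Q - 2 + 1), indChar χ Q k := rfl
    rw [this]
    exact Finset.sum_congr rfl fun k _ => indChar_eq hN k
  have h5 : N * Q - 2 + 1 = N * Q - 1 := by omega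
  rw [e1, h5, even_first_neg hM1 hine (ind_even he)] at h1
  linarith

end Pool.Agent.MP0016c7.Ros
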