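import Mathlib

open Real Set MeasureTheory Filter Topology

namespace Pool.Agent.MP0016c7

/-- The coefficient `π (k+1)²`. -/
noncomputable def ak (k : ℕ) : ℝ := π * ((k : ℝ) + 1) ^ 2

lemma ak_pos (k : ℕ) : 0 < ak k := by unfold ak; positivity

lemma ak_zero : ak 0 = π := by simp [ak]

lemma pi_le_ak (k : ℕ) : π ≤ ak k := by
  unfold ak
  have h : (1 : ℝ) ≤ ((k : ℝ) + 1) ^ 2 := by
    have : (0 : ℝ) ≤ (k : ℝ) := Nat.cast_nonneg k
    nlinarith
  nlinarith [pi_pos]

lemma pi_mul_le_ak (k : ℕ) : π * ((k : ℝ) + 1) ≤ ak k := by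
  unfold ak
  have h0 : (0 : ℝ) ≤ (k : ℝ) := Nat.cast_nonneg k
  have h : ((k : ℝ) + 1) ≤ ((k : ℝ) + 1) ^ 2 := by nlinarith
  exact mul_le_mul_of_nonneg_left h pi_pos.le

/-- `om1 z = ∑_{k ≥ 1} exp(-π k² z)`. -/
noncomputable def om1 (z : ℝ) : ℝ := ∑' k : ℕ, rexp (-(ak k * z))

/-- `dm1 z = ∑_{k ≥ 1} π k² exp(-π k² z)`, minus the derivative of `om1`. -/
noncomputable def dm1 (z : ℝ) : ℝ := ∑' k : ℕ, ak k * rexp (-(ak k * z))

/-- `eps1 z = -om1 z - 2 z om1' z`. -/
noncomputable def eps1 (z : ℝ) : ℝ := 2 * z * dm1 z - om1 z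

lemma summable_dm1 {z : ℝ} (hz : 0 < z) : Summable fun k : ℕ => ak k * rexp (-(ak k * z)) := by
  have hr : 0 < π * z := by positivity
  have h := (summable_nat_add_iff 1).mpr (summable_pow_mul_exp_neg_nat_mul 2 hr)
  refine Summable.of_nonneg_of_le (fun k => ?_) (fun k => ?_) (h.mul_left π)
  · have := ak_pos k; positivity
  · have h1 : rexp (-(ak k * z)) ≤ rexp (-(π * z) * ((k + 1 : ℕ) : ℝ)) := by
      apply exp_le_exp.mpr
      have := mul_le_mul_of_nonneg_right (pi_mul_le_ak k) hz.le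
      push_cast
      nlinarith
    calc ak k * rexp (-(ak k * z)) ≤ ak k * rexp (-(π * z) * ((k + 1 : ℕ) : ℝ)) :=
          mul_le_mul_of_nonneg_left h1 (ak_pos k).le
      _ = π * (((k + 1 : ℕ) : ℝ) ^ 2 * rexp (-(π * z) * ((k + 1 : ℕ) : ℝ))) := by
          unfold ak; push_cast; ring

lemma summable_om1 {z : ℝ} (hz : 0 < z) : Summable fun k : ℕ => rexp (-(ak k * z)) := by
  refine Summable.of_nonneg_of_le (fun _ => (exp_pos _).le) (fun k => ?_) (summable_dm1 hz)
  have h1 : 1 ≤ ak k := by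
    have := pi_le_ak k
    have := pi_gt_three
    linarith
  nlinarith [exp_pos (-(ak k * z))]

lemma om1_pos {z : ℝ} (hz : 0 < z) : 0 < om1 z :=
  (summable_om1 hz).tsum_pos (fun _ => (exp_pos _).le) 0 (exp_pos _)

lemma dm1_pos {z : ℝ} (hz : 0 < z) : 0 < dm1 z :=
  (summable_dm1 hz).tsum_pos (fun k => by have := ak_pos k; positivity) 0
    (by have := ak_pos 0; positivity)

lemma hasDerivAt_om1 {z : ℝ} (hz : 0 < z) : HasDerivAt om1 (-dm1 z) z := by
  have hz2 : 0 < z / 2 := by positivity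
  have key : HasDerivAt (fun w => ∑' k : ℕ, rexp (-(ak k * w)))
      (∑' k : ℕ, rexp (-(ak k * z)) * (-ak k)) z := by
    refine hasDerivAt_tsum_of_isPreconnected (t := Ioi (z / 2))
      (g := fun (k : ℕ) (w : ℝ) => rexp (-(ak k * w)))
      (g' := fun (k : ℕ) (w : ℝ) => rexp (-(ak k * w)) * (-ak k)) (y₀ := z) (y := z)
      (summable_dm1 hz2) isOpen_Ioi isPreconnected_Ioi ?_ ?_ ?_ (summable_om1 hz) ?_
    · intro k y hy
      have h1 : HasDerivAt (fun w : ℝ => -(ak k * w)) (-ak k) y := by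
        simpa using ((hasDerivAt_id' y).const_mul (ak k)).fun_neg
      exact h1.exp
    · intro k y hy
      have hy' : z / 2 < y := hy
      rw [Real.norm_eq_abs, abs_mul, abs_neg, abs_of_pos (exp_pos _), abs_of_pos (ak_pos k), mul_comm]
      apply mul_le_mul_of_nonneg_left _ (ak_pos k).le
      apply exp_le_exp.mpr
      have := mul_le_mul_of_nonneg_left hy'.le (ak_pos k).le
      linarith only [this]
    · show z / 2 < z
      linarith
    · show z / 2 < z
      linarith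
  have h2 : (∑' k : ℕ, rexp (-(ak k * z)) * (-ak k)) = -dm1 z := by
    unfold dm1
    rw [← tsum_neg]
    exact tsum_congr fun k => by ring
  rw [h2] at key
  exact key

lemma om1_fe {z : ℝ} (hz : 0 < z) :
    om1 z = (1 / √z - 1) / 2 + 1 / √z * om1 (1 / z) := by
  have hsum : ∀ w : ℝ, 0 < w → HasSum (fun n : ℤ => rexp (-π * w * (n : ℝ) ^ 2))
      (1 + 2 * om1 w) := by
    intro w hw
    have h1 : HasSum (fun k : ℕ => rexp (-(ak k * w))) (om1 w) := (summable_om1 hw).hasSum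
    have h2 : HasSum (fun k : ℕ => rexp (-π * w * (((k : ℤ) : ℝ)) ^ 2)) (om1 w + 1) := by
      rw [← hasSum_nat_add_iff' 1]
      simp only [Finset.range_one, Finset.sum_singleton]
      have h3 : om1 w + 1 - rexp (-π * w * (((0 : ℕ) : ℤ) : ℝ) ^ 2) = om1 w := by simp
      rw [h3]
      refine h1.congr_fun ?_ |> fun h => h
      intro k
      simp only [ak]
      congr 1
      push_cast
      ring
    have h3 : HasSum (fun k : ℕ => rexp (-π * w * ((((-((k : ℤ) + 1)) : ℤ)) : ℝ) ^ 2)) (om1 w) := by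
      convert h1 using 2 with k
      simp only [ak]
      congr 1
      push_cast
      ring
    have h4 := HasSum.of_nat_of_neg_add_one (f := fun n : ℤ => rexp (-π * w * (n : ℝ) ^ 2)) h2 h3
    convert h4 using 1
    ring
  have h1 := (hsum z hz).tsum_eq
  have hz' : 0 < 1 / z := by positivity
  have h2 := (hsum (1 / z) hz').tsum_eq
  have h3 := Real.tsum_exp_neg_mul_int_sq hz
  have h4 : (∑' n : ℤ, rexp (-π / z * (n : ℝ) ^ 2)) = 1 + 2 * om1 (1 / z) := by
    rw [← h2]
    exact tsum_congr fun n => by congr 1; ring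
  rw [h4, h1, ← Real.sqrt_eq_rpow] at h3
  linarith only [h3]


/-- Functional equation for `eps1`. -/
lemma eps1_eq {z : ℝ} (hz : 0 < z) :
    eps1 z = 1 / 2 - 2 * √z / z ^ 2 * dm1 (1 / z) := by
  have hs : 0 < √z := sqrt_pos.mpr hz
  have hss : √z * √z = z := mul_self_sqrt hz.le
  have hz' : 0 < 1 / z := by positivity
  -- derivative of the left side
  have h1 : HasDerivAt (fun w : ℝ => √w * om1 w) (1 / (2 * √z) * om1 z + √z * (-dm1 z)) z :=
    (hasDerivAt_sqrt hz.ne').mul (hasDerivAt_om1 hz)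
  have h2 : HasDerivAt (fun w : ℝ => (1 - √w) / 2 + om1 (1 / w))
      (-(1 / (2 * √z)) / 2 + (-dm1 (1 / z)) * (-(1 / z ^ 2))) z := by
    have h21 : HasDerivAt (fun w : ℝ => (1 - √w) / 2) (-(1 / (2 * √z)) / 2) z := by
      have := ((hasDerivAt_const z (1 : ℝ)).fun_sub (hasDerivAt_sqrt hz.ne')).div_const 2
      simpa using this
    have h22 : HasDerivAt (fun w : ℝ => 1 / w) (-(1 / z ^ 2)) z := by
      have := hasDerivAt_inv hz.ne'
      simpa [one_div] using this
    have h23 : HasDerivAt (fun w : ℝ => om1 (1 / w)) ((-dm1 (1 / z)) * (-(1 / z ^ 2))) z :=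
      (hasDerivAt_om1 hz').comp z h22
    exact h21.add h23
  have h3 : (fun w : ℝ => √w * om1 w) =ᶠ[𝓝 z] (fun w : ℝ => (1 - √w) / 2 + om1 (1 / w)) := by
    filter_upwards [Ioi_mem_nhds hz] with w hw
    have hw' : 0 < w := hw
    have hsw : 0 < √w := sqrt_pos.mpr hw'
    have := om1_fe hw'
    rw [this]
    field_simp
  have h4 := (h1.unique (h2.congr_of_eventuallyEq h3))
  unfold eps1
  have h5 : (1 / (2 * √z) * om1 z + √z * (-dm1 z)) * (-(2 * √z)) =
      (-(1 / (2 * √z)) / 2 + (-dm1 (1 / z)) * (-(1 / z ^ 2))) * (-(2 * √z)) := by rw [h4]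
  have h6 : (1 / (2 * √z) * om1 z + √z * (-dm1 z)) * (-(2 * √z)) = 2 * (√z * √z) * dm1 z - om1 z := by
    field_simp
    ring
  have h7 : (-(1 / (2 * √z)) / 2 + (-dm1 (1 / z)) * (-(1 / z ^ 2))) * (-(2 * √z)) =
      1 / 2 - 2 * √z / z ^ 2 * dm1 (1 / z) := by
    field_simp
    ring
  rw [h6, h7, hss] at h5
  exact h5

lemma exp_neg_pi_bounds : 0.0432 < rexp (-π) ∧ rexp (-π) < 0.04322 := by
  have h1 : rexp (-π) = 1 / rexp π := by rw [exp_neg]; simp
  have h3 : rexp π = rexp 1 ^ 3 * rexp (π - 3) := by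
    rw [← exp_nat_mul, ← exp_add]
    congr 1
    push_cast
    ring
  have e1 := exp_one_gt_d9
  have e2 := exp_one_lt_d9
  have p1 := pi_gt_d6
  have p2 := pi_lt_d6
  have hlow : (1.15210 : ℝ) < rexp (π - 3) := by
    have hx : (0.141592 : ℝ) < π - 3 := by linarith only [p1]
    have := quadratic_le_exp_of_nonneg (x := π - 3) (by linarith only [p1, p2])
    have h4 : rexp (0.141592 : ℝ) ≤ rexp (π - 3) := exp_le_exp.mpr hx.le
    have h5 := Real.sum_le_exp_of_nonneg (x := 0.141592) (by norm_num) 5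
    norm_num [Finset.sum_range_succ, Nat.factorial] at h5
    linarith only [p1, p2, h4, h5]
  have hup : rexp (π - 3) < 1.15212 := by
    have hx : π - 3 < (0.141593 : ℝ) := by linarith
    have h4 : rexp (π - 3) ≤ rexp (0.141593 : ℝ) := exp_le_exp.mpr hx.le
    have h5 := Real.exp_bound' (x := 0.141593) (by norm_num) (by norm_num) (n := 5) (by norm_num)
    norm_num [Finset.sum_range_succ, Nat.factorial] at h5
    linarith only [hlow, h4, h5]
  have hA : (20.0855 : ℝ) < rexp 1 ^ 3 := by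
    have : (2.718281 : ℝ) ^ 3 < rexp 1 ^ 3 := by
      apply pow_lt_pow_left₀ _ (by norm_num) (by norm_num)
      linarith only [e1, p1, p2]
    refine lt_trans (by norm_num) this
  have hB : rexp 1 ^ 3 < 20.0856 := by
    have : rexp 1 ^ 3 < (2.718282 : ℝ) ^ 3 := by
      apply pow_lt_pow_left₀ _ (by positivity) (by norm_num)
      linarith only [e2, p1, p2]
    refine lt_trans this (by norm_num)
  have hlo : (23.14 : ℝ) < rexp π := by
    rw [h3]; nlinarith only [p1, hlow, hA, hB, p2]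
  have hhi : rexp π < 23.142 := by
    rw [h3]; nlinarith only [hup, p1, hA, hB, p2, hlow, exp_pos (π - 3)]
  rw [h1]
  constructor
  · rw [lt_div_iff₀ (by positivity)]; nlinarith only [hA, hB, hhi]
  · rw [div_lt_iff₀ (by positivity)]; nlinarith only [hA, hB, hlo]

lemma dm1_one_lt : dm1 1 < 0.138 := by
  have hs : Summable fun k : ℕ => ak k * rexp (-(ak k * 1)) := summable_dm1 one_pos
  have h0 : dm1 1 = ak 0 * rexp (-(ak 0 * 1)) + ∑' k : ℕ, ak (k + 1) * rexp (-(ak (k + 1) * 1)) :=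
    hs.tsum_eq_zero_add
  have e := exp_neg_pi_bounds
  set x : ℝ := rexp (-π) ^ 2 with hx
  have hx0 : 0 < x := by positivity
  have hx1 : x < 0.001869 := by
    have : rexp (-π) ^ 2 < (0.04322 : ℝ) ^ 2 :=
      pow_lt_pow_left₀ e.2 (exp_pos _).le (by norm_num)
    refine lt_of_lt_of_le this (by norm_num)
  have hterm : ∀ k : ℕ, ak (k + 1) * rexp (-(ak (k + 1) * 1)) ≤ x * x ^ k := by
    intro k
    have h1 : ak (k + 1) ≤ rexp (ak (k + 1) / 2) := by
      have hp : 0 ≤ ak (k + 1) / 2 := by have := ak_pos (k + 1); positivity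
      have := quadratic_le_exp_of_nonneg hp
      nlinarith only [hx0, hx1, this, sq_nonneg (ak (k + 1) / 2 - 1)]
    have h2 : rexp (ak (k + 1) / 2) * rexp (-(ak (k + 1) * 1)) = rexp (-(ak (k + 1) / 2)) := by
      rw [← exp_add]; congr 1; ring
    have h3 : x * x ^ k = rexp (-(2 * π * ((k : ℝ) + 1))) := by
      rw [hx, ← exp_nat_mul, ← exp_nat_mul, ← exp_add]
      congr 1
      push_cast
      ring
    rw [h3]
    calc ak (k + 1) * rexp (-(ak (k + 1) * 1))
        ≤ rexp (ak (k + 1) / 2) * rexp (-(ak (k + 1) * 1)) :=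
          mul_le_mul_of_nonneg_right h1 (exp_pos _).le
      _ = rexp (-(ak (k + 1) / 2)) := h2
      _ ≤ rexp (-(2 * π * ((k : ℝ) + 1))) := by
          apply exp_le_exp.mpr
          have : 2 * π * ((k : ℝ) + 1) ≤ ak (k + 1) / 2 := by
            unfold ak
            push_cast
            have hk : (0 : ℝ) ≤ k := Nat.cast_nonneg k
            linarith only [hk, mul_nonneg pi_pos.le (mul_nonneg hk hk), mul_nonneg pi_pos.le hk, pi_pos]
          linarith only [this]
  have hgeo : HasSum (fun k : ℕ => x * x ^ k) (x * (1 - x)⁻¹) :=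
    (hasSum_geometric_of_lt_one hx0.le (by linarith)).mul_left x
  have htail : ∑' k : ℕ, ak (k + 1) * rexp (-(ak (k + 1) * 1)) ≤ x * (1 - x)⁻¹ := by
    rw [← hgeo.tsum_eq]
    have hs1 : Summable fun k : ℕ => ak (k + 1) * rexp (-(ak (k + 1) * 1)) :=
      (summable_nat_add_iff (f := fun k : ℕ => ak k * rexp (-(ak k * 1))) 1).mpr hs
    exact Summable.tsum_le_tsum hterm hs1 hgeo.summable
  have h4 : x * (1 - x)⁻¹ < 0.001874 := by
    rw [← div_eq_mul_inv, div_lt_iff₀ (by linarith)]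
    nlinarith only [hx0, hx1]
  have h5 : ak 0 * rexp (-(ak 0 * 1)) < 0.1358 := by
    rw [ak_zero, mul_one]
    have p2 := pi_lt_d6
    nlinarith only [e, p2, hx0, exp_pos (-π), pi_pos]
  rw [h0]
  linarith only [hx0, hx1, htail, h4, h5]

lemma dm1_le {w : ℝ} (hw : 1 ≤ w) : dm1 w ≤ rexp (-(π * (w - 1))) * dm1 1 := by
  have hw0 : 0 < w := by linarith
  unfold dm1
  rw [← tsum_mul_left]
  refine Summable.tsum_le_tsum (fun k => ?_) (summable_dm1 hw0) ((summable_dm1 one_pos).mul_left _)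
  have h1 : rexp (-(ak k * w)) = rexp (-(ak k * (w - 1))) * rexp (-(ak k * 1)) := by
    rw [← exp_add]; congr 1; ring
  have h2 : rexp (-(ak k * (w - 1))) ≤ rexp (-(π * (w - 1))) := by
    apply exp_le_exp.mpr
    have := mul_le_mul_of_nonneg_right (pi_le_ak k) (sub_nonneg.mpr hw)
    linarith
  rw [h1]
  have h3 : 0 ≤ ak k * rexp (-(ak k * 1)) := by have := ak_pos k; positivity
  nlinarith only [h2, h3]

lemma om1_le {z u : ℝ} (hz : 0 < z) (hu : 1 ≤ u) :
    om1 (z * u) ≤ rexp (-(π * z * (u - 1))) * om1 z := by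
  have hzu : 0 < z * u := by positivity
  unfold om1
  rw [← tsum_mul_left]
  refine Summable.tsum_le_tsum (fun k => ?_) (summable_om1 hzu) ((summable_om1 hz).mul_left _)
  rw [← exp_add]
  apply exp_le_exp.mpr
  have := mul_le_mul_of_nonneg_right (pi_le_ak k) (mul_nonneg hz.le (sub_nonneg.mpr hu))
  nlinarith

lemma pi_mul_om1_le {z : ℝ} (hz : 0 < z) : π * om1 z ≤ dm1 z := by
  unfold om1 dm1
  rw [← tsum_mul_left]
  refine Summable.tsum_le_tsum (fun k => ?_) ((summable_om1 hz).mul_left _) (summable_dm1 hz)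
  exact mul_le_mul_of_nonneg_right (pi_le_ak k) (exp_pos _).le

lemma om1_ge_exp {z : ℝ} (hz : 0 < z) : rexp (-(π * z)) ≤ om1 z := by
  have := (summable_om1 hz).le_tsum 0 (fun _ _ => (exp_pos _).le)
  rw [ak_zero] at this
  exact this

/-- lower bound for `eps1` at large arguments -/
lemma eps1_ge_mul {z : ℝ} (hz : 0 < z) : (2 * π * z - 1) * om1 z ≤ eps1 z := by
  unfold eps1
  have := mul_le_mul_of_nonneg_left (pi_mul_om1_le hz) (by positivity : 0 ≤ 2 * z)
  linarith

lemma eps1_ge_exp {z : ℝ} (hz : 0 < z) (hz1 : 1 ≤ 2 * π * z) :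
    (2 * π * z - 1) * rexp (-(π * z)) ≤ eps1 z :=
  le_trans (mul_le_mul_of_nonneg_left (om1_ge_exp hz) (by linarith)) (eps1_ge_mul hz)

lemma sqrt_div_sq_eq {z : ℝ} (hz : 0 < z) : √z / z ^ 2 = (1 / z) * √(1 / z) := by
  have hs : 0 < √z := sqrt_pos.mpr hz
  have hss : √z * √z = z := mul_self_sqrt hz.le
  rw [sqrt_div zero_le_one, sqrt_one]
  rw [div_mul_div_comm, one_mul, div_eq_div_iff (by positivity) (by positivity)]
  calc √z * (z * √z) = z * (√z * √z) := by ring
    _ = 1 * z ^ 2 := by rw [hss]; ring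

/-- lower bound for `eps1` at small arguments -/
lemma eps1_ge_small {z : ℝ} (hz : 0 < z) (hz1 : z ≤ 1) :
    1 / 2 - 2 * dm1 1 * ((1 / z) * √(1 / z) * rexp (-(π * (1 / z - 1)))) ≤ eps1 z := by
  have hw : 1 ≤ 1 / z := by rw [le_div_iff₀ hz]; linarith
  rw [eps1_eq hz]
  have h1 := dm1_le hw
  have h2 : 2 * √z / z ^ 2 = 2 * ((1 / z) * √(1 / z)) := by
    rw [mul_div_assoc, sqrt_div_sq_eq hz]
  rw [h2]
  have h3 : 0 ≤ 2 * ((1 / z) * √(1 / z)) := by positivity
  have := mul_le_mul_of_nonneg_left h1 h3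
  nlinarith only [this]

lemma mul_sqrt_mul_exp_le {w : ℝ} (hw : 1 ≤ w) : w * √w * rexp (-(π * (w - 1))) ≤ 1 := by
  have hw0 : 0 < w := by linarith
  have h1 : √w ≤ w := by
    rw [sqrt_le_left hw0.le]
    nlinarith
  have h2 : w ≤ rexp (w - 1) := by
    have := add_one_le_exp (w - 1)
    linarith
  have h3 : w * √w ≤ rexp (w - 1) * rexp (w - 1) :=
    mul_le_mul h2 (h1.trans h2) (sqrt_nonneg _) (exp_pos _).le
  have h4 : rexp (w - 1) * rexp (w - 1) * rexp (-(π * (w - 1))) ≤ 1 := by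
    rw [← exp_add, ← exp_add]
    apply exp_le_one_iff.mpr
    nlinarith [pi_gt_three]
  exact le_trans (mul_le_mul_of_nonneg_right h3 (exp_pos _).le) h4

lemma eps1_pos {z : ℝ} (hz : 0 < z) : 0 < eps1 z := by
  rcases le_total z 1 with h | h
  · have hw : 1 ≤ 1 / z := by rw [le_div_iff₀ hz]; linarith
    have h1 := eps1_ge_small hz h
    have h2 := mul_sqrt_mul_exp_le hw
    have h3 := dm1_one_lt
    have h4 := dm1_pos one_pos
    have h5 : 2 * dm1 1 * ((1 / z) * √(1 / z) * rexp (-(π * (1 / z - 1)))) ≤ 2 * dm1 1 * 1 :=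
      mul_le_mul_of_nonneg_left h2 (by linarith only [h4])
    linarith only [h1, h3, h4, h5]
  · have h1 : 0 < (2 * π * z - 1) * om1 z := by
      apply mul_pos _ (om1_pos hz)
      nlinarith [pi_gt_three]
    exact lt_of_lt_of_le h1 (eps1_ge_mul hz)

/-- `√z * om1 z` is antitone. -/
lemma sqrt_mul_om1_antitone : AntitoneOn (fun z : ℝ => √z * om1 z) (Ioi 0) := by
  have hd : ∀ z ∈ Ioi (0 : ℝ), HasDerivAt (fun w : ℝ => √w * om1 w)
      (1 / (2 * √z) * om1 z + √z * (-dm1 z)) z := fun z hz =>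
    (hasDerivAt_sqrt (ne_of_gt hz)).mul (hasDerivAt_om1 hz)
  refine antitoneOn_of_deriv_nonpos (convex_Ioi 0)
    (fun z hz => (hd z hz).continuousAt.continuousWithinAt) ?_ ?_
  · rw [interior_Ioi]
    exact fun z hz => (hd z hz).differentiableAt.differentiableWithinAt
  · rw [interior_Ioi]
    intro z hz
    have hz' : 0 < z := hz
    rw [(hd z hz).deriv]
    have hs : 0 < √z := sqrt_pos.mpr hz'
    have hss : √z * √z = z := mul_self_sqrt hz'.le
    have h1 : 1 / (2 * √z) * om1 z + √z * (-dm1 z) = -(eps1 z) / (2 * √z) := by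
      unfold eps1
      rw [eq_div_iff (by positivity)]
      have : (1 / (2 * √z) * om1 z + √z * (-dm1 z)) * (2 * √z) = om1 z - 2 * (√z * √z) * dm1 z := by
        field_simp
        ring
      rw [this, hss]
      ring
    rw [h1]
    have := eps1_pos hz'
    apply div_nonpos_of_nonpos_of_nonneg <;> linarith

lemma mul_om1_mul_le {z u : ℝ} (hz : 0 < z) (hu : 1 ≤ u) : u * om1 (z * u) ≤ om1 (z / u) := by
  have hu0 : 0 < u := by linarith
  have h1 : z / u ≤ z * u := by
    rw [div_le_iff₀ hu0, mul_assoc]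
    have : 1 ≤ u * u := by nlinarith
    nlinarith
  have h2 := sqrt_mul_om1_antitone (show z / u ∈ Ioi (0 : ℝ) from div_pos hz hu0)
    (show z * u ∈ Ioi (0 : ℝ) from mul_pos hz hu0) h1
  simp only at h2
  have h3 : √(z * u) = u * √(z / u) := by
    have : z * u = u ^ 2 * (z / u) := by field_simp
    rw [this, sqrt_mul (by positivity), sqrt_sq hu0.le]
  rw [h3] at h2
  have h4 : 0 < √(z / u) := sqrt_pos.mpr (div_pos hz hu0)
  have h5 : √(z / u) * (u * om1 (z * u)) ≤ √(z / u) * om1 (z / u) := by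
    calc √(z / u) * (u * om1 (z * u)) = u * √(z / u) * om1 (z * u) := by ring
      _ ≤ _ := h2
  exact le_of_mul_le_mul_left h5 h4

/-- The difference quotient whose limit is `eps1`. -/
lemma tendsto_quot {z : ℝ} (hz : 0 < z) :
    Tendsto (fun u : ℝ => (om1 (z / u) - u * om1 (z * u)) / (u - 1)) (𝓝[>] 1) (𝓝 (eps1 z)) := by
  have h1 : HasDerivAt (fun u : ℝ => z / u) (-z) 1 := by
    have := (hasDerivAt_inv (one_ne_zero (α := ℝ))).const_mul z
    simpa [div_eq_mul_inv] using this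
  have h2 : HasDerivAt (fun u : ℝ => z * u) z 1 := by
    simpa using (hasDerivAt_id' (1 : ℝ)).const_mul z
  have h3 : HasDerivAt (fun u : ℝ => om1 (z / u)) ((-dm1 z) * (-z)) 1 := by
    have h := hasDerivAt_om1 hz
    have : HasDerivAt om1 (-dm1 z) (z / 1) := by simpa using h
    exact this.comp (1 : ℝ) h1
  have h4 : HasDerivAt (fun u : ℝ => om1 (z * u)) ((-dm1 z) * z) 1 := by
    have h := hasDerivAt_om1 hz
    have : HasDerivAt om1 (-dm1 z) (z * 1) := by simpa using h
    exact this.comp (1 : ℝ) h2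
  have h5 : HasDerivAt (fun u : ℝ => om1 (z / u) - u * om1 (z * u))
      ((-dm1 z) * (-z) - (1 * om1 (z * 1) + 1 * ((-dm1 z) * z))) 1 :=
    h3.sub ((hasDerivAt_id' (1 : ℝ)).mul h4)
  have h6 : (-dm1 z) * (-z) - (1 * om1 (z * 1) + 1 * ((-dm1 z) * z)) = eps1 z := by
    unfold eps1; rw [mul_one]; ring
  rw [h6] at h5
  have h7 := h5.tendsto_slope.mono_left (nhdsWithin_mono 1 (fun x (hx : x ∈ Ioi (1 : ℝ)) =>
    (ne_of_gt hx : x ≠ 1)))
  refine h7.congr' ?_
  filter_upwards [self_mem_nhdsWithin] with u hu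
  rw [slope_def_field]
  simp

end Pool.Agent.MP0016c7
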