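import Mathlib
import Pool.Agent.Lib.MP_0016c7_nt.EvenTheta

open Real Set MeasureTheory Filter Topology
open scoped ENNReal

namespace Pool.Agent.MP0016c7

lemma om1_nonpos_arg {z : ℝ} (hz : z ≤ 0) : om1 z = 0 := by
  unfold om1
  apply tsum_eq_zero_of_not_summable
  intro h
  have h1 := h.tendsto_atTop_zero
  have h2 : ∀ k : ℕ, (1 : ℝ) ≤ rexp (-(ak k * z)) := by
    intro k
    apply one_le_exp
    have := mul_nonneg (ak_pos k).le (neg_nonneg.mpr hz)
    linarith
  have := ge_of_tendsto' h1 h2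
  linarith

lemma measurable_om1 : Measurable om1 := by
  classical
  have h1 : om1 = (Ioi (0 : ℝ)).piecewise om1 (fun _ => 0) := by
    ext z
    by_cases hz : z ∈ Ioi (0 : ℝ)
    · rw [piecewise_eq_of_mem _ _ _ hz]
    · rw [piecewise_eq_of_notMem _ _ _ hz]
      exact om1_nonpos_arg (not_lt.mp hz)
  rw [h1]
  refine ContinuousOn.measurable_piecewise (fun z hz => ?_) continuousOn_const measurableSet_Ioi
  exact (hasDerivAt_om1 hz).continuousAt.continuousWithinAt

lemma eps1_eq_deriv {z : ℝ} (hz : 0 < z) : eps1 z = 2 * z * (-deriv om1 z) - om1 z := by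
  unfold eps1
  rw [(hasDerivAt_om1 hz).deriv, neg_neg]

/-- the `W = 1` kernel integral -/
noncomputable def HI (z : ℝ) : ℝ≥0∞ :=
  ∫⁻ u in Ioi (1 : ℝ), ENNReal.ofReal (om1 (z * u) * (1 + 1 / u))

/-- the `W = -1` kernel integral -/
noncomputable def JI (z : ℝ) : ℝ≥0∞ :=
  ∫⁻ u in Ioi (1 : ℝ), ENNReal.ofReal (om1 (z * u) * (1 - 1 / u))

lemma lintegral_exp_shift {a : ℝ} (ha : 0 < a) :
    ∫⁻ u in Ioi (1 : ℝ), ENNReal.ofReal (rexp (-(a * (u - 1)))) = ENNReal.ofReal (1 / a) := by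
  have h1 : ∀ u : ℝ, rexp (-(a * (u - 1))) = rexp a * rexp (-a * u) := by
    intro u; rw [← exp_add]; congr 1; ring
  simp_rw [h1]
  have hint : IntegrableOn (fun u => rexp a * rexp (-a * u)) (Ioi 1) :=
    (integrableOn_exp_mul_Ioi (by linarith : -a < 0) 1).const_mul _
  rw [← ofReal_integral_eq_lintegral_ofReal hint
    (Filter.Eventually.of_forall fun u => by positivity)]
  rw [integral_const_mul, integral_exp_mul_Ioi (by linarith : -a < 0) 1]
  congr 1
  rw [mul_one, neg_div_neg_eq, ← mul_div_assoc, ← exp_add]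
  simp

lemma lintegral_mul_exp_shift {a : ℝ} (ha : 0 < a) :
    ∫⁻ u in Ioi (1 : ℝ), ENNReal.ofReal ((u - 1) * rexp (-(a * (u - 1)))) =
      ENNReal.ofReal (1 / a ^ 2) := by
  have hd : ∀ u : ℝ, HasDerivAt (fun u : ℝ => -(((u - 1) / a + 1 / a ^ 2) * rexp (-(a * (u - 1)))))
      ((u - 1) * rexp (-(a * (u - 1)))) u := by
    intro u
    have h1 : HasDerivAt (fun u : ℝ => -(a * (u - 1))) (-a) u := by
      simpa using (((hasDerivAt_id' u).sub_const 1).const_mul a).fun_neg
    have h2 : HasDerivAt (fun u : ℝ => (u - 1) / a + 1 / a ^ 2) (1 / a) u := by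
      simpa using (((hasDerivAt_id' u).sub_const 1).div_const a).add_const (1 / a ^ 2)
    refine ((h2.fun_mul h1.exp).fun_neg).congr_deriv ?_
    field_simp
    ring
  have hlim : Tendsto (fun u : ℝ => -(((u - 1) / a + 1 / a ^ 2) * rexp (-(a * (u - 1))))) atTop
      (𝓝 0) := by
    have h0 : Tendsto (fun u : ℝ => a * (u - 1)) atTop atTop :=
      (tendsto_atTop_add_const_right _ (-1) tendsto_id).const_mul_atTop ha
    have h1 : Tendsto (fun x : ℝ => x ^ 1 * rexp (-x)) atTop (𝓝 0) :=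
      tendsto_pow_mul_exp_neg_atTop_nhds_zero 1
    have h2 : Tendsto (fun x : ℝ => x ^ 0 * rexp (-x)) atTop (𝓝 0) :=
      tendsto_pow_mul_exp_neg_atTop_nhds_zero 0
    have h3 := ((h1.comp h0).add (h2.comp h0)).const_mul (-(1 / a ^ 2))
    simp only [add_zero, mul_zero] at h3
    refine h3.congr fun u => ?_
    simp only [Function.comp, pow_one, pow_zero, one_mul]
    have ha' : a ≠ 0 := ha.ne'
    have e1 : (u - 1) / a = (a * (u - 1)) / a ^ 2 := by
      field_simp
    rw [e1]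
    ring
  have hval := integral_Ioi_of_hasDerivAt_of_nonneg' (a := 1) (fun u _ => hd u)
    (fun u hu => by
      have : 0 < u - 1 := sub_pos.mpr hu
      positivity) hlim
  have hint := integrableOn_Ioi_deriv_of_nonneg' (a := 1) (fun u _ => hd u)
    (fun u hu => by
      have : 0 < u - 1 := sub_pos.mpr hu
      positivity) hlim
  rw [← ofReal_integral_eq_lintegral_ofReal hint, hval]
  · congr 1
    simp
  · filter_upwards [ae_restrict_mem measurableSet_Ioi] with u hu
    have : 0 < u - 1 := sub_pos.mpr hu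
    positivity

/-- `HI z ≤ 4 eps1 z` when `π z` is not too small. -/
lemma HI_le_eps {z : ℝ} (hz : 0.81 ≤ π * z) : HI z ≤ ENNReal.ofReal (4 * eps1 z) := by
  have hz0 : 0 < z := by
    by_contra h
    have := mul_nonpos_of_nonneg_of_nonpos pi_pos.le (not_lt.mp h)
    norm_num at hz
    linarith only [this, hz]
  have hpz : 0 < π * z := by positivity
  have h1 : HI z ≤ ∫⁻ u in Ioi (1 : ℝ),
      ENNReal.ofReal (2 * om1 z) * ENNReal.ofReal (rexp (-((π * z) * (u - 1)))) := by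
    unfold HI
    refine setLIntegral_mono' measurableSet_Ioi fun u hu => ?_
    have hu1 : 1 < u := hu
    have hu0 : 0 < u := by linarith
    have hom := om1_pos hz0
    rw [← ENNReal.ofReal_mul (by positivity)]
    apply ENNReal.ofReal_le_ofReal
    have ha := om1_le hz0 hu1.le
    have hb : 1 + 1 / u ≤ 2 := by
      have : 1 / u ≤ 1 := by rw [div_le_iff₀ hu0]; linarith
      linarith
    calc om1 (z * u) * (1 + 1 / u) ≤ (rexp (-(π * z * (u - 1))) * om1 z) * 2 :=
          mul_le_mul ha hb (by positivity) (by positivity)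
      _ = 2 * om1 z * rexp (-(π * z * (u - 1))) := by ring
  refine h1.trans ?_
  rw [lintegral_const_mul' _ _ ENNReal.ofReal_ne_top, lintegral_exp_shift hpz,
    ← ENNReal.ofReal_mul (by have := om1_pos hz0; positivity)]
  apply ENNReal.ofReal_le_ofReal
  have h2 := eps1_ge_mul hz0
  have hom := om1_pos hz0
  have h3 : 2 * om1 z * (1 / (π * z)) ≤ 4 * ((2 * π * z - 1) * om1 z) := by
    rw [mul_one_div, div_le_iff₀ hpz]
    have h4 : 1 ≤ 2 * (2 * (π * z) - 1) * (π * z) := by nlinarith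
    have h5 := mul_le_mul_of_nonneg_left h4 (by linarith : 0 ≤ 2 * om1 z)
    calc 2 * om1 z = 2 * om1 z * 1 := by ring
      _ ≤ _ := h5
      _ = _ := by ring
  linarith

lemma JI_le_om {z : ℝ} (hz0 : 0 < z) :
    JI z ≤ ENNReal.ofReal (om1 z / (π * z) ^ 2) := by
  have hpz : 0 < π * z := by positivity
  have h1 : JI z ≤ ∫⁻ u in Ioi (1 : ℝ),
      ENNReal.ofReal (om1 z) * ENNReal.ofReal ((u - 1) * rexp (-((π * z) * (u - 1)))) := by
    unfold JI
    refine setLIntegral_mono' measurableSet_Ioi fun u hu => ?_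
    have hu1 : 1 < u := hu
    have hu0 : 0 < u := by linarith
    have hom := om1_pos hz0
    rw [← ENNReal.ofReal_mul (by positivity)]
    apply ENNReal.ofReal_le_ofReal
    have ha := om1_le hz0 hu1.le
    have hb : 1 - 1 / u ≤ u - 1 := by
      rw [sub_le_iff_le_add, ← sub_le_iff_le_add', le_div_iff₀ hu0]
      nlinarith only [sq_nonneg (u - 1)]
    have hb0 : 0 ≤ 1 - 1 / u := by
      have : 1 / u ≤ 1 := by rw [div_le_iff₀ hu0]; linarith
      linarith
    calc om1 (z * u) * (1 - 1 / u) ≤ (rexp (-(π * z * (u - 1))) * om1 z) * (u - 1) :=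
          mul_le_mul ha hb hb0 (by positivity)
      _ = om1 z * ((u - 1) * rexp (-(π * z * (u - 1)))) := by ring
  refine h1.trans ?_
  rw [lintegral_const_mul' _ _ ENNReal.ofReal_ne_top, lintegral_mul_exp_shift hpz,
    ← ENNReal.ofReal_mul (by have := om1_pos hz0; positivity)]
  apply ENNReal.ofReal_le_ofReal
  rw [mul_one_div]

lemma lintegral_om1 {z : ℝ} (hz : 0 < z) :
    ∫⁻ u in Ioi (0 : ℝ), ENNReal.ofReal (om1 (z * u)) = ENNReal.ofReal (π / (6 * z)) := by
  have h1 : ∫⁻ u in Ioi (0 : ℝ), ENNReal.ofReal (om1 (z * u)) =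
      ∫⁻ u in Ioi (0 : ℝ), ∑' k : ℕ, ENNReal.ofReal (rexp (-(ak k * z) * u)) := by
    refine setLIntegral_congr_fun measurableSet_Ioi fun u hu => ?_
    have hu0 : 0 < u := hu
    have hzu : 0 < z * u := by positivity
    unfold om1
    rw [ENNReal.ofReal_tsum_of_nonneg (fun k => (exp_pos _).le) (summable_om1 hzu)]
    refine tsum_congr fun k => ?_
    congr 2
    ring
  rw [h1, lintegral_tsum (fun k => by fun_prop)]
  have h2 : ∀ k : ℕ, ∫⁻ u in Ioi (0 : ℝ), ENNReal.ofReal (rexp (-(ak k * z) * u)) =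
      ENNReal.ofReal ((1 / (π * z)) * (1 / (((k + 1 : ℕ) : ℝ)) ^ 2)) := by
    intro k
    have hak := ak_pos k
    have hneg : -(ak k * z) < 0 := by
      have : 0 < ak k * z := by positivity
      linarith
    rw [← ofReal_integral_eq_lintegral_ofReal (integrableOn_exp_mul_Ioi hneg 0)
      (Filter.Eventually.of_forall fun u => (exp_pos _).le), integral_exp_mul_Ioi hneg 0]
    congr 1
    rw [mul_zero, exp_zero, neg_div_neg_eq]
    unfold ak
    push_cast
    field_simp
  rw [tsum_congr h2]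
  have h3 : HasSum (fun k : ℕ => (1 / (π * z)) * (1 / (((k + 1 : ℕ) : ℝ)) ^ 2))
      ((1 / (π * z)) * (π ^ 2 / 6)) := by
    apply HasSum.mul_left
    have := hasSum_zeta_two
    rw [← hasSum_nat_add_iff' 1] at this
    simpa using this
  rw [← ENNReal.ofReal_tsum_of_nonneg (fun k => by positivity) h3.summable, h3.tsum_eq]
  congr 1
  field_simp

lemma lintegral_rpow_neg_half :
    ∫⁻ u in Ioc (0 : ℝ) 1, ENNReal.ofReal (u ^ (-(1 / 2) : ℝ)) = ENNReal.ofReal 2 := by
  have hint : IntervalIntegrable (fun u : ℝ => u ^ (-(1 / 2) : ℝ)) volume 0 1 :=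
    intervalIntegral.intervalIntegrable_rpow' (by norm_num)
  have hint' : IntegrableOn (fun u : ℝ => u ^ (-(1 / 2) : ℝ)) (Ioc 0 1) :=
    (intervalIntegrable_iff_integrableOn_Ioc_of_le zero_le_one).mp hint
  rw [← ofReal_integral_eq_lintegral_ofReal hint', ← intervalIntegral.integral_of_le zero_le_one,
    integral_rpow (Or.inl (by norm_num))]
  · congr 1
    norm_num
  · filter_upwards [ae_restrict_mem measurableSet_Ioc] with u hu
    exact rpow_nonneg hu.1.le _

lemma lintegral_rpow_three_half :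
    ∫⁻ u in Ioi (1 : ℝ), ENNReal.ofReal (u ^ (-(3 / 2) : ℝ)) = ENNReal.ofReal 2 := by
  have hint : IntegrableOn (fun u : ℝ => u ^ (-(3 / 2) : ℝ)) (Ioi 1) :=
    integrableOn_Ioi_rpow_of_lt (by norm_num) zero_lt_one
  rw [← ofReal_integral_eq_lintegral_ofReal hint,
    integral_Ioi_rpow_of_lt (by norm_num) zero_lt_one]
  · congr 1
    norm_num
  · filter_upwards [ae_restrict_mem measurableSet_Ioi] with u hu
    have : (0 : ℝ) < u := lt_trans zero_lt_one hu
    exact rpow_nonneg this.le _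

lemma om1_mul_le_rpow {z u : ℝ} (hz : 0 < z) (hu : 1 ≤ u) :
    om1 (z * u) ≤ om1 z * u ^ (-(1 / 2) : ℝ) := by
  have hu0 : 0 < u := by linarith
  have h1 : z ≤ z * u := by nlinarith
  have h2 := sqrt_mul_om1_antitone (show z ∈ Ioi (0 : ℝ) from hz)
    (show z * u ∈ Ioi (0 : ℝ) from mul_pos hz hu0) h1
  simp only at h2
  rw [sqrt_mul hz.le] at h2
  have hsz : 0 < √z := sqrt_pos.mpr hz
  have hsu : 0 < √u := sqrt_pos.mpr hu0
  rw [rpow_neg hu0.le, ← sqrt_eq_rpow, ← div_eq_mul_inv, le_div_iff₀ hsu]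
  have h3 : √z * (om1 (z * u) * √u) ≤ √z * om1 z := by
    calc √z * (om1 (z * u) * √u) = √z * √u * om1 (z * u) := by ring
      _ ≤ _ := h2
  exact le_of_mul_le_mul_left h3 hsz

lemma om1_mul_ge_rpow {z u : ℝ} (hz : 0 < z) (hu : 0 < u) (hu1 : u ≤ 1) :
    om1 z * u ^ (-(1 / 2) : ℝ) ≤ om1 (z * u) := by
  have h1 : z * u ≤ z := by nlinarith
  have h2 := sqrt_mul_om1_antitone (show z * u ∈ Ioi (0 : ℝ) from mul_pos hz hu)
    (show z ∈ Ioi (0 : ℝ) from hz) h1
  simp only at h2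
  rw [sqrt_mul hz.le] at h2
  have hsz : 0 < √z := sqrt_pos.mpr hz
  have hsu : 0 < √u := sqrt_pos.mpr hu
  rw [rpow_neg hu.le, ← sqrt_eq_rpow, ← div_eq_mul_inv, div_le_iff₀ hsu]
  have h3 : √z * om1 z ≤ √z * (om1 (z * u) * √u) := by
    calc √z * om1 z ≤ √z * √u * om1 (z * u) := h2
      _ = _ := by ring
  exact le_of_mul_le_mul_left h3 hsz

lemma HI_le {z : ℝ} (hz : 0 < z) : HI z ≤ ENNReal.ofReal (π / (6 * z)) := by
  have hom := om1_pos hz
  have hm : Measurable fun u : ℝ => ENNReal.ofReal (om1 (z * u)) :=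
    ENNReal.measurable_ofReal.comp (measurable_om1.comp (measurable_const_mul z))
  have h1 : HI z ≤ (∫⁻ u in Ioi (1 : ℝ), ENNReal.ofReal (om1 (z * u))) +
      ∫⁻ u in Ioi (1 : ℝ), ENNReal.ofReal (om1 z) * ENNReal.ofReal (u ^ (-(3 / 2) : ℝ)) := by
    unfold HI
    rw [← lintegral_add_left hm]
    refine setLIntegral_mono' measurableSet_Ioi fun u hu => ?_
    have hu1 : 1 < u := hu
    have hu0 : 0 < u := by linarith
    have hzu := om1_pos (mul_pos hz hu0)
    rw [← ENNReal.ofReal_mul hom.le, ← ENNReal.ofReal_add hzu.le (by positivity)]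
    apply ENNReal.ofReal_le_ofReal
    have ha := om1_mul_le_rpow hz hu1.le
    have hb : u ^ (-(3 / 2) : ℝ) = u ^ (-(1 / 2) : ℝ) * (1 / u) := by
      have hb1 : (1 / u : ℝ) = u ^ (-1 : ℝ) := by rw [rpow_neg_one, one_div]
      rw [hb1, ← rpow_add hu0]
      norm_num
    rw [hb]
    have hc : 0 ≤ 1 / u := by positivity
    nlinarith only [ha, hc, mul_le_mul_of_nonneg_right ha hc]
  have h2 : ∫⁻ u in Ioi (1 : ℝ), ENNReal.ofReal (om1 z) * ENNReal.ofReal (u ^ (-(3 / 2) : ℝ)) ≤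
      ∫⁻ u in Ioc (0 : ℝ) 1, ENNReal.ofReal (om1 (z * u)) := by
    rw [lintegral_const_mul' _ _ ENNReal.ofReal_ne_top, lintegral_rpow_three_half,
      ← lintegral_rpow_neg_half, ← lintegral_const_mul' _ _ ENNReal.ofReal_ne_top]
    refine setLIntegral_mono' measurableSet_Ioc fun u hu => ?_
    rw [← ENNReal.ofReal_mul hom.le]
    exact ENNReal.ofReal_le_ofReal (om1_mul_ge_rpow hz hu.1 hu.2)
  calc HI z ≤ _ := h1
    _ ≤ (∫⁻ u in Ioi (1 : ℝ), ENNReal.ofReal (om1 (z * u))) +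
        ∫⁻ u in Ioc (0 : ℝ) 1, ENNReal.ofReal (om1 (z * u)) := by gcongr
    _ = ∫⁻ u in Ioi (0 : ℝ), ENNReal.ofReal (om1 (z * u)) := by
        rw [add_comm, ← lintegral_union measurableSet_Ioi (by
          rw [disjoint_left]; intro x hx hx'; exact not_lt.mpr hx.2 hx')]
        rw [Ioc_union_Ioi_eq_Ioi zero_le_one]
    _ = _ := lintegral_om1 hz

lemma JI_le {z : ℝ} (hz : 0 < z) : JI z ≤ ENNReal.ofReal (π / (6 * z)) := by
  refine le_trans ?_ (HI_le hz)
  unfold JI HI
  refine setLIntegral_mono' measurableSet_Ioi fun u hu => ?_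
  have hu0 : (0 : ℝ) < u := lt_trans zero_lt_one hu
  have hzu := om1_pos (mul_pos hz hu0)
  apply ENNReal.ofReal_le_ofReal
  have : 0 ≤ 1 / u := by positivity
  nlinarith only [hzu, this]

end Pool.Agent.MP0016c7
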