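import Mathlib
import Pool.Agent.Lib.MP_0016c7_nt.EvenBounds

open Real Set MeasureTheory Filter Topology
open scoped ENNReal

namespace Pool.Agent.MP0016c7

lemma ofReal_sub_le_lintegral {a b : ℝ} (hab : a ≤ b) {F f g : ℝ → ℝ}
    (hF : ∀ x, HasDerivAt F (f x) x) (hf : Continuous f) (hle : ∀ x ∈ Ioc a b, f x ≤ g x) :
    ENNReal.ofReal (F b - F a) ≤ ∫⁻ x in Ioc a b, ENNReal.ofReal (g x) := by
  have hint : IntegrableOn f (Ioc a b) :=
    (intervalIntegrable_iff_integrableOn_Ioc_of_le hab).mp (hf.intervalIntegrable a b)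
  have h1 : ∫ x in Ioc a b, f x = F b - F a := by
    rw [← intervalIntegral.integral_of_le hab]
    exact intervalIntegral.integral_eq_sub_of_hasDerivAt (fun x _ => hF x)
      (hf.intervalIntegrable a b)
  have h2 := integral_eq_lintegral_pos_part_sub_lintegral_neg_part hint
  have h3 : ∫ x in Ioc a b, f x ≤ (∫⁻ x in Ioc a b, ENNReal.ofReal (f x)).toReal := by
    rw [h2]
    have : 0 ≤ (∫⁻ x in Ioc a b, ENNReal.ofReal (-f x)).toReal := ENNReal.toReal_nonneg
    linarith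
  calc ENNReal.ofReal (F b - F a) ≤ ENNReal.ofReal (∫⁻ x in Ioc a b, ENNReal.ofReal (f x)).toReal := by
        apply ENNReal.ofReal_le_ofReal
        rw [← h1]; exact h3
    _ ≤ ∫⁻ x in Ioc a b, ENNReal.ofReal (f x) := ENNReal.ofReal_toReal_le
    _ ≤ _ := setLIntegral_mono' measurableSet_Ioc fun x hx => ENNReal.ofReal_le_ofReal (hle x hx)

lemma lintegral_inv_cosh :
    ∫⁻ r in Ioi (0 : ℝ), ENNReal.ofReal (1 / (2 * cosh r)) = ENNReal.ofReal (π / 4) := by
  have hd : ∀ r : ℝ, HasDerivAt (fun r : ℝ => arctan (rexp r)) (1 / (2 * cosh r)) r := by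
    intro r
    have h1 := (hasDerivAt_arctan (rexp r)).comp r (Real.hasDerivAt_exp r)
    refine h1.congr_deriv ?_
    rw [cosh_eq, exp_neg]
    have := exp_pos r
    field_simp
    ring
  have hlim : Tendsto (fun r : ℝ => arctan (rexp r)) atTop (𝓝 (π / 2)) :=
    (tendsto_arctan_atTop.mono_right nhdsWithin_le_nhds).comp tendsto_exp_atTop
  have hpos : ∀ r ∈ Ioi (0 : ℝ), 0 ≤ 1 / (2 * cosh r) := fun r _ => by
    have := cosh_pos r; positivity
  have hval := integral_Ioi_of_hasDerivAt_of_nonneg' (a := 0) (fun u _ => hd u) hpos hlim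
  have hint := integrableOn_Ioi_deriv_of_nonneg' (a := 0) (fun u _ => hd u) hpos hlim
  rw [← ofReal_integral_eq_lintegral_ofReal hint, hval]
  · congr 1
    rw [exp_zero, arctan_one]
    ring
  · filter_upwards with u
    have := cosh_pos u
    positivity

/-- `∫ HI (y · 2 cosh r) dr` -/
noncomputable def HK (y : ℝ) : ℝ≥0∞ := ∫⁻ r in Ioi (0 : ℝ), HI (y * (2 * cosh r))

/-- `∫ JI (y · 2 cosh r) dr` -/
noncomputable def JK (y : ℝ) : ℝ≥0∞ := ∫⁻ r in Ioi (0 : ℝ), JI (y * (2 * cosh r))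

/-- `∫ om1 (y · 2 cosh r) dr` -/
noncomputable def OmI (y : ℝ) : ℝ≥0∞ := ∫⁻ r in Ioi (0 : ℝ), ENNReal.ofReal (om1 (y * (2 * cosh r)))

/-- `∫ eps1 (y · 2 cosh r) dr` -/
noncomputable def EI (y : ℝ) : ℝ≥0∞ := ∫⁻ r in Ioi (0 : ℝ), ENNReal.ofReal (eps1 (y * (2 * cosh r)))

lemma HK_le {y : ℝ} (hy : 0 < y) : HK y ≤ ENNReal.ofReal (π ^ 2 / (24 * y)) := by
  unfold HK
  have h1 : ∀ r : ℝ, HI (y * (2 * cosh r)) ≤
      ENNReal.ofReal (π / (6 * y)) * ENNReal.ofReal (1 / (2 * cosh r)) := by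
    intro r
    have hc := cosh_pos r
    refine (HI_le (by positivity : 0 < y * (2 * cosh r))).trans ?_
    rw [← ENNReal.ofReal_mul (by positivity)]
    apply ENNReal.ofReal_le_ofReal
    apply le_of_eq
    field_simp
  calc ∫⁻ r in Ioi (0 : ℝ), HI (y * (2 * cosh r))
      ≤ ∫⁻ r in Ioi (0 : ℝ), ENNReal.ofReal (π / (6 * y)) * ENNReal.ofReal (1 / (2 * cosh r)) :=
        lintegral_mono fun r => h1 r
    _ = ENNReal.ofReal (π / (6 * y)) * ENNReal.ofReal (π / 4) := by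
        rw [lintegral_const_mul' _ _ ENNReal.ofReal_ne_top, lintegral_inv_cosh]
    _ = _ := by
        rw [← ENNReal.ofReal_mul (by positivity)]
        congr 1
        field_simp
        ring

lemma HK_le_EI {y : ℝ} (hy : 0.13 ≤ y) : HK y ≤ ENNReal.ofReal 4 * EI y := by
  unfold HK EI
  rw [← lintegral_const_mul' _ _ ENNReal.ofReal_ne_top]
  refine lintegral_mono fun r => ?_
  simp only
  rw [← ENNReal.ofReal_mul (by norm_num)]
  apply HI_le_eps
  have hc := one_le_cosh r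
  have hp := pi_gt_d6
  have h1 : (0.26 : ℝ) ≤ y * (2 * cosh r) := by nlinarith only [hy, hc]
  nlinarith only [hp, h1]

/-- The comparison argument `v = y (e^r + 1)`. -/
noncomputable def vr (y r : ℝ) : ℝ := y * (rexp r + 1)

lemma vr_pos {y : ℝ} (hy : 0 < y) (r : ℝ) : 0 < vr y r := by
  unfold vr; positivity

lemma hasDerivAt_vr (y r : ℝ) : HasDerivAt (vr y) (vr y r - y) r := by
  have h : HasDerivAt (fun r : ℝ => y * (rexp r + 1)) (y * rexp r) r :=
    ((Real.hasDerivAt_exp r).add_const 1).const_mul y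
  refine h.congr_deriv ?_
  unfold vr
  ring

lemma continuous_vr (y : ℝ) : Continuous (vr y) := by
  unfold vr; fun_prop

lemma two_cosh_le {y r : ℝ} (hy : 0 < y) (hr : 0 ≤ r) : y * (2 * cosh r) ≤ vr y r := by
  unfold vr
  rw [cosh_eq]
  have : rexp (-r) ≤ 1 := exp_le_one_iff.mpr (by linarith)
  nlinarith

/-- monotonicity of `w ^ (3/2) exp(-π w)` -/
lemma mul_sqrt_exp_anti {w w' : ℝ} (h1 : 1 ≤ w') (h : w' ≤ w) :
    w * √w * rexp (-(π * (w - 1))) ≤ w' * √w' * rexp (-(π * (w' - 1))) := by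
  have hw' : 0 < w' := by linarith
  have hw : 0 < w := by linarith
  set t := w / w' with ht
  have ht1 : 1 ≤ t := by rw [ht, le_div_iff₀ hw']; linarith
  have hwt : w = w' * t := by rw [ht]; field_simp
  have h2 := mul_sqrt_mul_exp_le ht1
  have h3 : rexp (-(π * (w - 1))) ≤ rexp (-(π * (t - 1))) * rexp (-(π * (w' - 1))) := by
    rw [← exp_add]
    apply exp_le_exp.mpr
    have h4 : w - w' ≥ t - 1 := by rw [hwt]; nlinarith only [h1, ht1]
    nlinarith only [h4, pi_pos]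
  have h5 : √w = √w' * √t := by rw [hwt, sqrt_mul hw'.le]
  calc w * √w * rexp (-(π * (w - 1))) ≤ w * √w * (rexp (-(π * (t - 1))) * rexp (-(π * (w' - 1)))) := by
        gcongr
    _ = (t * √t * rexp (-(π * (t - 1)))) * (w' * √w' * rexp (-(π * (w' - 1)))) := by
        rw [h5]; nth_rewrite 1 [hwt]; ring
    _ ≤ 1 * (w' * √w' * rexp (-(π * (w' - 1)))) := by
        apply mul_le_mul_of_nonneg_right h2; positivity
    _ = _ := one_mul _

lemma two_sqrt_le {w : ℝ} (hw : 0 ≤ w) : 2 * √w ≤ w + 1 := by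
  have h1 : √w * √w = w := mul_self_sqrt hw
  nlinarith [sq_nonneg (√w - 1)]

/-- lower bound for `eps1` in the region `z ≤ v ≤ 1`. -/
lemma eps1_ge_region1 {z v : ℝ} (hz : 0 < z) (hzv : z ≤ v) (hv : v ≤ 1) :
    1 / 2 - dm1 1 * (((1 / v) ^ 2 + 1 / v) * rexp (-(π * (1 / v - 1)))) ≤ eps1 z := by
  have hv0 : 0 < v := by linarith
  have h1 := eps1_ge_small hz (hzv.trans hv)
  have hw' : 1 ≤ 1 / v := by rw [le_div_iff₀ hv0]; linarith
  have hww : 1 / v ≤ 1 / z := one_div_le_one_div_of_le hz hzv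
  have h2 := mul_sqrt_exp_anti hw' hww
  have h3 := two_sqrt_le (by positivity : 0 ≤ 1 / v)
  have hd := dm1_pos one_pos
  have h4 : 2 * ((1 / v) * √(1 / v) * rexp (-(π * (1 / v - 1)))) ≤
      ((1 / v) ^ 2 + 1 / v) * rexp (-(π * (1 / v - 1))) := by
    have : 2 * ((1 / v) * √(1 / v)) ≤ (1 / v) ^ 2 + 1 / v := by nlinarith only [h3, hw']
    calc 2 * ((1 / v) * √(1 / v) * rexp (-(π * (1 / v - 1))))
        = 2 * ((1 / v) * √(1 / v)) * rexp (-(π * (1 / v - 1))) := by ring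
      _ ≤ _ := mul_le_mul_of_nonneg_right this (exp_pos _).le
  have h5 : 2 * dm1 1 * ((1 / z) * √(1 / z) * rexp (-(π * (1 / z - 1)))) ≤
      dm1 1 * (((1 / v) ^ 2 + 1 / v) * rexp (-(π * (1 / v - 1)))) := by
    calc 2 * dm1 1 * ((1 / z) * √(1 / z) * rexp (-(π * (1 / z - 1))))
        = dm1 1 * (2 * ((1 / z) * √(1 / z) * rexp (-(π * (1 / z - 1))))) := by ring
      _ ≤ dm1 1 * (2 * ((1 / v) * √(1 / v) * rexp (-(π * (1 / v - 1))))) := by
          gcongr
      _ ≤ _ := mul_le_mul_of_nonneg_left h4 hd.le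
  linarith only [h1, h5]

lemma lin_mul_exp_anti {z v : ℝ} (hz : 1 ≤ z) (hzv : z ≤ v) :
    (2 * π * v - 1) * rexp (-(π * v)) ≤ (2 * π * z - 1) * rexp (-(π * z)) := by
  have hp := pi_gt_three
  have h1 : rexp (-(π * v)) = rexp (-(π * (v - z))) * rexp (-(π * z)) := by
    rw [← exp_add]; congr 1; ring
  have h2 : (2 * π * v - 1) ≤ (2 * π * z - 1) * rexp (π * (v - z)) := by
    have h3 := add_one_le_exp (π * (v - z))
    have h4 : 2 * π * z - 1 ≥ 5 := by nlinarith only [hz, hp]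
    have h5 : 0 ≤ π * (v - z) := by
      have : 0 ≤ v - z := by linarith
      positivity
    nlinarith only [h3, h5, h4]
  have h6 : rexp (π * (v - z)) * rexp (-(π * (v - z))) = 1 := by
    rw [← exp_add]; simp
  rw [h1]
  calc (2 * π * v - 1) * (rexp (-(π * (v - z))) * rexp (-(π * z)))
      ≤ ((2 * π * z - 1) * rexp (π * (v - z))) * (rexp (-(π * (v - z))) * rexp (-(π * z))) := by
        gcongr
    _ = (2 * π * z - 1) * (rexp (π * (v - z)) * rexp (-(π * (v - z)))) * rexp (-(π * z)) := by ring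
    _ = _ := by rw [h6]; ring

/-- lower bound for `eps1` in the region `v ≥ 1`. -/
lemma eps1_ge_region2 {z v : ℝ} (hz : 0 < z) (hzv : z ≤ v) (hv : 1 ≤ v) :
    (2 * π - 1) * v * rexp (-(π * v)) ≤ eps1 z := by
  have h0 : (2 * π - 1) * v * rexp (-(π * v)) ≤ (2 * π * v - 1) * rexp (-(π * v)) := by
    apply mul_le_mul_of_nonneg_right _ (exp_pos _).le
    linarith
  refine h0.trans ?_
  have hp := pi_gt_three
  rcases le_total 1 z with h | h
  · exact (lin_mul_exp_anti h hzv).trans (eps1_ge_exp hz (by nlinarith only [hz, h, hp]))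
  · have h1 := lin_mul_exp_anti (le_refl 1) hv
    have h2 := eps1_ge_exp one_pos (by nlinarith)
    have h3 : eps1 1 = 1 / 2 - 2 * dm1 1 := by
      have := eps1_eq one_pos
      rw [this]
      norm_num
    have h4 := eps1_ge_small hz h
    have hw : 1 ≤ 1 / z := by rw [le_div_iff₀ hz]; linarith only [h]
    have h5 := mul_sqrt_mul_exp_le hw
    have hd := dm1_pos one_pos
    have h6 : 2 * dm1 1 * ((1 / z) * √(1 / z) * rexp (-(π * (1 / z - 1)))) ≤ 2 * dm1 1 * 1 :=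
      mul_le_mul_of_nonneg_left h5 (by linarith)
    linarith only [h1, h2, h3, h4, h6]

end Pool.Agent.MP0016c7
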