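import Mathlib
import Pool.Agent.Lib.MP_0016c7_nt.EvenCosh

open Real Set MeasureTheory Filter Topology
open scoped ENNReal

namespace Pool.Agent.MP0016c7

/-- potential function for the small region -/
noncomputable def Psi (y w : ℝ) : ℝ :=
  rexp (-(π * (w - 1))) * ((w + 1) / π + 1 / π ^ 2 +
    2 * y * ((w ^ 2 + w) / π + (2 * w + 1) / π ^ 2 + 2 / π ^ 3))

lemma hasDerivAt_Psi (y w : ℝ) :
    HasDerivAt (Psi y) (-((w + 1) * (1 + 2 * y * w) * rexp (-(π * (w - 1))))) w := by
  have hp := pi_pos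
  have h1 : HasDerivAt (fun w : ℝ => -(π * (w - 1))) (-π) w := by
    simpa using (((hasDerivAt_id' w).sub_const 1).const_mul π).fun_neg
  have h2 : HasDerivAt (fun w : ℝ => (w + 1) / π + 1 / π ^ 2) (1 / π) w := by
    simpa using (((hasDerivAt_id' w).add_const 1).div_const π).add_const (1 / π ^ 2)
  have h3 : HasDerivAt (fun w : ℝ => (w ^ 2 + w) / π) ((2 * w + 1) / π) w := by
    simpa using (((hasDerivAt_id' w).fun_pow 2).fun_add (hasDerivAt_id' w)).div_const π
  have h4 : HasDerivAt (fun w : ℝ => (2 * w + 1) / π ^ 2) (2 / π ^ 2) w := by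
    simpa using (((hasDerivAt_id' w).const_mul 2).add_const 1).div_const (π ^ 2)
  have h5 : HasDerivAt (fun w : ℝ => 2 * y * ((w ^ 2 + w) / π + (2 * w + 1) / π ^ 2 + 2 / π ^ 3))
      (2 * y * ((2 * w + 1) / π + 2 / π ^ 2)) w :=
    ((h3.fun_add h4).add_const (2 / π ^ 3)).const_mul (2 * y)
  have h6 := h1.exp.fun_mul (h2.fun_add h5)
  refine h6.congr_deriv ?_
  field_simp
  ring

lemma hasDerivAt_PsiV {y : ℝ} (hy : 0 < y) (r : ℝ) :
    HasDerivAt (fun r : ℝ => Psi y (1 / vr y r))
      ((1 / vr y r + 1) * (1 + 2 * y * (1 / vr y r)) * rexp (-(π * (1 / vr y r - 1))) *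
        ((1 / vr y r) * (1 - y * (1 / vr y r)))) r := by
  have hv := vr_pos hy r
  have h1 : HasDerivAt (fun r : ℝ => 1 / vr y r) (-(vr y r - y) / (vr y r) ^ 2) r := by
    have := (hasDerivAt_vr y r).fun_inv hv.ne'
    simpa [one_div] using this
  have h2 := (hasDerivAt_Psi y (1 / vr y r)).comp r h1
  refine h2.congr_deriv ?_
  field_simp

/-- lower bound for the integral over the region `v ≤ 1`. -/
lemma region1_integral {y : ℝ} (hy : 0 < y) (hy2 : y < 1 / 2) :
    ENNReal.ofReal (log (1 / y - 1) / 2 - dm1 1 * Psi y 1) ≤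
      ∫⁻ r in Ioc 0 (log (1 / y - 1)), ENNReal.ofReal (eps1 (y * (2 * cosh r))) := by
  set R := log (1 / y - 1) with hR
  have hy1 : 1 < 1 / y - 1 := by
    rw [lt_sub_iff_add_lt, lt_div_iff₀ hy]
    linarith
  have hRpos : 0 < R := log_pos hy1
  have hexpR : rexp R = 1 / y - 1 := exp_log (by linarith)
  have hvR : vr y R = 1 := by
    unfold vr
    rw [hexpR]
    field_simp
    ring
  have hd := dm1_pos one_pos
  have hmain := ofReal_sub_le_lintegral (a := 0) (b := R) hRpos.le
    (F := fun r => r / 2 - dm1 1 * Psi y (1 / vr y r))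
    (f := fun r => 1 / 2 - dm1 1 * ((1 / vr y r + 1) * (1 + 2 * y * (1 / vr y r)) *
      rexp (-(π * (1 / vr y r - 1))) * ((1 / vr y r) * (1 - y * (1 / vr y r)))))
    (g := fun r => eps1 (y * (2 * cosh r)))
    (fun r => ((hasDerivAt_id' r).div_const 2).fun_sub ((hasDerivAt_PsiV hy r).const_mul (dm1 1)))
    (by
      have hc : Continuous fun r : ℝ => 1 / vr y r :=
        continuous_const.div (continuous_vr y) (fun r => (vr_pos hy r).ne')
      fun_prop)
    (by
      intro r hr
      have hr0 : 0 < r := hr.1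
      have hv0 := vr_pos hy r
      have hv1 : vr y r ≤ 1 := by
        rw [← hvR]
        unfold vr
        have : rexp r ≤ rexp R := exp_le_exp.mpr hr.2
        nlinarith only [hy, this]
      have hv2 : 2 * y ≤ vr y r := by
        unfold vr
        have : 1 ≤ rexp r := one_le_exp hr0.le
        nlinarith only [hy, this]
      have hz : 0 < y * (2 * cosh r) := by have := cosh_pos r; positivity
      have h1 := eps1_ge_region1 hz (two_cosh_le hy hr0.le) hv1
      refine le_trans ?_ h1
      set w := 1 / vr y r with hw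
      have hw0 : 0 < w := by positivity
      have hyw : y * w ≤ 1 / 2 := by
        rw [hw, mul_one_div, div_le_iff₀ hv0]
        linarith
      have hyw0 : 0 < y * w := by positivity
      have h3 : (w ^ 2 + w) ≤ (w + 1) * (1 + 2 * y * w) * (w * (1 - y * w)) := by
        have h4 : 1 ≤ (1 + 2 * y * w) * (1 - y * w) := by nlinarith only [hy, hy2, hyw, hyw0]
        have h5 : 0 ≤ w * (w + 1) := by positivity
        nlinarith only [h4, hy, hy2, hw0]
      have h6 : dm1 1 * ((w ^ 2 + w) * rexp (-(π * (w - 1)))) ≤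
          dm1 1 * ((w + 1) * (1 + 2 * y * w) * rexp (-(π * (w - 1))) * (w * (1 - y * w))) := by
        apply mul_le_mul_of_nonneg_left _ hd.le
        calc (w ^ 2 + w) * rexp (-(π * (w - 1)))
            ≤ ((w + 1) * (1 + 2 * y * w) * (w * (1 - y * w))) * rexp (-(π * (w - 1))) :=
              mul_le_mul_of_nonneg_right h3 (exp_pos _).le
          _ = _ := by ring
      linarith only [h6])
  refine le_trans ?_ hmain
  apply ENNReal.ofReal_le_ofReal
  rw [hvR]
  have hPsi0 : 0 ≤ Psi y (1 / vr y 0) := by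
    have := vr_pos hy 0
    unfold Psi
    positivity
  have := mul_nonneg hd.le hPsi0
  rw [div_one]
  linarith

/-- lower bound for the integral over the region `1 ≤ v ≤ 4`. -/
lemma region2_integral {y : ℝ} (hy : 0 < y) (hy2 : y < 1 / 2) :
    ENNReal.ofReal ((2 - 1 / π) * (rexp (-π) - rexp (-π) ^ 4)) ≤
      ∫⁻ r in Ioc (log (1 / y - 1)) (log (4 / y - 1)), ENNReal.ofReal (eps1 (y * (2 * cosh r))) := by
  set R := log (1 / y - 1) with hR
  set R' := log (4 / y - 1) with hR'
  have hy1 : 1 < 1 / y - 1 := by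
    rw [lt_sub_iff_add_lt, lt_div_iff₀ hy]
    linarith
  have hy4 : 1 / y ≤ 4 / y := by gcongr; norm_num
  have hRpos : 0 < R := log_pos hy1
  have hRR : R ≤ R' := log_le_log (by linarith only [hy, hy2, hy1]) (by linarith only [hy4])
  have hexpR : rexp R = 1 / y - 1 := exp_log (by linarith)
  have hexpR' : rexp R' = 4 / y - 1 := exp_log (by linarith only [hy, hy2, hy1, hy4])
  have hvR : vr y R = 1 := by
    unfold vr
    rw [hexpR]
    field_simp
    ring
  have hvR' : vr y R' = 4 := by
    unfold vr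
    rw [hexpR']
    field_simp
    ring
  have hp := pi_gt_three
  have hd : ∀ r, HasDerivAt (fun r => -((2 - 1 / π) * rexp (-(π * vr y r))))
      ((2 * π - 1) * (vr y r - y) * rexp (-(π * vr y r))) r := by
    intro r
    have h1 : HasDerivAt (fun r => -(π * vr y r)) (-(π * (vr y r - y))) r :=
      ((hasDerivAt_vr y r).const_mul π).fun_neg
    have h2 := (h1.exp.const_mul (2 - 1 / π)).fun_neg
    refine h2.congr_deriv ?_
    field_simp
  have hmain := ofReal_sub_le_lintegral (a := R) (b := R') hRR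
    (F := fun r => -((2 - 1 / π) * rexp (-(π * vr y r))))
    (f := fun r => (2 * π - 1) * (vr y r - y) * rexp (-(π * vr y r)))
    (g := fun r => eps1 (y * (2 * cosh r)))
    hd
    (by
      have hc := continuous_vr y
      fun_prop)
    (by
      intro r hr
      have hr0 : 0 < r := lt_trans hRpos hr.1
      have hv0 := vr_pos hy r
      have hv1 : 1 ≤ vr y r := by
        rw [← hvR]
        unfold vr
        have : rexp R ≤ rexp r := exp_le_exp.mpr hr.1.le
        nlinarith only [hy, this]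
      have hz : 0 < y * (2 * cosh r) := by have := cosh_pos r; positivity
      have h1 := eps1_ge_region2 hz (two_cosh_le hy hr0.le) hv1
      refine le_trans ?_ h1
      apply mul_le_mul_of_nonneg_right _ (exp_pos _).le
      have : vr y r - y ≤ vr y r := by linarith
      nlinarith only [hy, hy2, hp])
  refine le_trans ?_ hmain
  apply ENNReal.ofReal_le_ofReal
  rw [hvR, hvR', mul_one]
  have h4 : rexp (-(π * 4)) = rexp (-π) ^ 4 := by
    rw [← exp_nat_mul]; congr 1; push_cast; ring
  rw [h4]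
  apply le_of_eq
  ring

lemma EI_ge {y : ℝ} (hy : 0 < y) (hy2 : y ≤ 0.13) :
    ENNReal.ofReal (log (1 / y) / 2 - 0.03 - 0.86 * y) ≤ EI y := by
  have hyh : y < 1 / 2 := by norm_num at hy2 ⊢; linarith
  have h1 := region1_integral hy hyh
  have h2 := region2_integral hy hyh
  set R := log (1 / y - 1) with hR
  set R' := log (4 / y - 1) with hR'
  have hy1 : 1 < 1 / y - 1 := by
    rw [lt_sub_iff_add_lt, lt_div_iff₀ hy]
    linarith
  have hRpos : 0 < R := log_pos hy1
  have h3 : (∫⁻ r in Ioc 0 R, ENNReal.ofReal (eps1 (y * (2 * cosh r)))) +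
      (∫⁻ r in Ioc R R', ENNReal.ofReal (eps1 (y * (2 * cosh r)))) ≤ EI y := by
    rw [← lintegral_union measurableSet_Ioc (by
      rw [disjoint_left]; intro x hx hx'; exact not_lt.mpr hx.2 hx'.1)]
    unfold EI
    apply lintegral_mono_set
    intro x hx
    rcases hx with hx | hx
    · exact hx.1
    · exact lt_trans hRpos hx.1
  refine le_trans ?_ h3
  refine le_trans ?_ (add_le_add h1 h2)
  refine le_trans ?_ ENNReal.ofReal_add_le
  apply ENNReal.ofReal_le_ofReal
  -- numerical part
  have e := exp_neg_pi_bounds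
  have hp1 := pi_gt_d6
  have hp2 := pi_lt_d6
  have hd := dm1_one_lt
  have hd0 := dm1_pos one_pos
  have hip : 1 / π < 0.31831 := by
    rw [div_lt_iff₀ pi_pos]; linarith only [e, hp1]
  have hip0 : 0 < 1 / π := by positivity
  have hPsi : Psi y 1 ≤ 0.73796 + 2.0102 * y := by
    unfold Psi
    have h0 : rexp (-(π * (1 - 1))) = 1 := by simp
    rw [h0]
    have e1 : (1 + 1 : ℝ) / π = 2 * (1 / π) := by ring
    have e2 : 1 / π ^ 2 = (1 / π) ^ 2 := by ring
    have e3 : ((1 : ℝ) ^ 2 + 1) / π = 2 * (1 / π) := by ring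
    have e4 : (2 * 1 + 1) / π ^ 2 = 3 * (1 / π) ^ 2 := by ring
    have e5 : 2 / π ^ 3 = 2 * (1 / π) ^ 3 := by ring
    rw [e1, e2, e3, e4, e5]
    have f2 : (1 / π) ^ 2 < 0.101322 := by
      have : (1 / π) ^ 2 < (0.31831 : ℝ) ^ 2 := pow_lt_pow_left₀ hip hip0.le (by norm_num)
      refine lt_trans this (by norm_num)
    have f3 : (1 / π) ^ 3 < 0.032253 := by
      have : (1 / π) ^ 3 < (0.31831 : ℝ) ^ 3 := pow_lt_pow_left₀ hip hip0.le (by norm_num)
      refine lt_trans this (by norm_num)
    nlinarith only [hip, f2, hy2, hy, e, f3]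
  have hPsi' : dm1 1 * Psi y 1 ≤ 0.101839 + 0.27741 * y := by
    have hnn : 0 ≤ 0.73796 + 2.0102 * y := by positivity
    calc dm1 1 * Psi y 1 ≤ dm1 1 * (0.73796 + 2.0102 * y) :=
          mul_le_mul_of_nonneg_left hPsi hd0.le
      _ ≤ 0.138 * (0.73796 + 2.0102 * y) := mul_le_mul_of_nonneg_right hd.le hnn
      _ ≤ _ := by linarith only [hy, e]
  have hreg2 : 0.07263 ≤ (2 - 1 / π) * (rexp (-π) - rexp (-π) ^ 4) := by
    have f4 : rexp (-π) ^ 4 < 0.0000035 := by
      have : rexp (-π) ^ 4 < (0.04322 : ℝ) ^ 4 := pow_lt_pow_left₀ e.2 (exp_pos _).le (by norm_num)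
      refine lt_trans this (by norm_num)
    have f5 : (1.68169 : ℝ) ≤ 2 - 1 / π := by linarith only [hip]
    have f6 : (0.0431965 : ℝ) ≤ rexp (-π) - rexp (-π) ^ 4 := by linarith only [e, f4, e.1]
    calc (0.07263 : ℝ) ≤ 1.68169 * 0.0431965 := by norm_num
      _ ≤ _ := mul_le_mul f5 f6 (by norm_num) (by linarith only [e, hip])
  have hlog : log (1 / y) - 1.14944 * y ≤ R := by
    have h1y : 0 < 1 - y := by linarith only [hy2, e]
    have h5 : R = log (1 / y) + log (1 - y) := by
      rw [hR, ← log_mul (by positivity) h1y.ne']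
      congr 1
      field_simp
    have h6 := one_sub_inv_le_log_of_pos h1y
    have h7 : -(1.14944 * y) ≤ 1 - (1 - y)⁻¹ := by
      have : (1 - y)⁻¹ ≤ 1 + 1.14944 * y := by
        rw [inv_le_iff_one_le_mul₀ h1y]
        nlinarith only [hy, hy2]
      linarith only [this]
    rw [h5]
    linarith only [h6, h7]
  linarith only [hy, e, hPsi', hreg2, hlog]

end Pool.Agent.MP0016c7
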