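import Mathlib
import Pool.Agent.Lib.MP_0016c7_nt.EvenLower

open Real Set MeasureTheory Filter Topology
open scoped ENNReal

namespace Pool.Agent.MP0016c7

lemma six_div_pi_sq_bounds : 0.6079 < 6 / π ^ 2 ∧ 6 / π ^ 2 < 0.60793 := by
  have hp1 := pi_gt_d6
  have hp2 := pi_lt_d6
  constructor
  · rw [lt_div_iff₀ (by positivity)]
    nlinarith only [hp1, hp2]
  · rw [div_lt_iff₀ (by positivity)]
    nlinarith only [hp1, hp2]

/-- `log x ≤ x / e`. -/
lemma log_le_div_e {x : ℝ} (hx : 0 < x) : log x ≤ 0.36788 * x := by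
  have h1 := log_le_sub_one_of_pos (show 0 < x / rexp 1 by positivity)
  rw [log_div hx.ne' (exp_pos 1).ne', log_exp] at h1
  have h2 : x / rexp 1 ≤ 0.36788 * x := by
    rw [div_le_iff₀ (exp_pos 1)]
    have := exp_one_gt_d9
    nlinarith only [hx, this]
  linarith

lemma delta_le {N δ : ℝ} (hN : 0 < N) (hδ : δ * N ≤ 6 / π ^ 2 * (2 * log N - 1 / 8)) :
    δ ≤ 0.4474 := by
  have h1 := six_div_pi_sq_bounds
  have h2 := log_le_div_e hN
  have h3 : 6 / π ^ 2 * (2 * log N - 1 / 8) ≤ 6 / π ^ 2 * (0.73576 * N) := by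
    apply mul_le_mul_of_nonneg_left _ (by linarith only [h1])
    linarith only [h1, h2]
  have h4 : 6 / π ^ 2 * (0.73576 * N) ≤ 0.60793 * (0.73576 * N) :=
    mul_le_mul_of_nonneg_right h1.2.le (by positivity)
  have h5 : δ * N ≤ 0.4474 * N := by
    have : (0.60793 : ℝ) * (0.73576 * N) ≤ 0.4474 * N := by nlinarith only [hN]
    linarith only [hN, hδ, h3, h4]
  exact le_of_mul_le_mul_right h5 hN

lemma dd_le {N δ : ℝ} (hN : 0 < N) (hδ0 : 0 < δ)
    (hδ : δ * N ≤ 6 / π ^ 2 * (2 * log N - 1 / 8)) : δ * (1 - δ) ≤ 0.2473 := by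
  have := delta_le hN hδ
  nlinarith only [this, hδ0]

lemma measurable_eps_cosh (y : ℝ) (hy : 0 < y) :
    Measurable fun r : ℝ => ENNReal.ofReal (eps1 (y * (2 * cosh r))) := by
  have h1 : (fun r : ℝ => eps1 (y * (2 * cosh r))) = fun r : ℝ =>
      2 * (y * (2 * cosh r)) * (-deriv om1 (y * (2 * cosh r))) - om1 (y * (2 * cosh r)) := by
    ext r
    exact eps1_eq_deriv (by have := cosh_pos r; positivity)
  have h2 : Measurable fun r : ℝ => y * (2 * cosh r) := by fun_prop
  apply ENNReal.measurable_ofReal.comp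
  rw [h1]
  exact ((h2.const_mul 2).mul ((measurable_deriv om1).comp h2).neg).sub (measurable_om1.comp h2)

lemma EI_pos {y : ℝ} (hy : 0 < y) : 0 < EI y := by
  unfold EI
  rw [setLIntegral_pos_iff (measurable_eps_cosh y hy)]
  have : (Function.support fun r : ℝ => ENNReal.ofReal (eps1 (y * (2 * cosh r)))) = univ := by
    ext r
    simp only [Function.mem_support, mem_univ, iff_true]
    have := eps1_pos (show 0 < y * (2 * cosh r) by have := cosh_pos r; positivity)
    exact (ENNReal.ofReal_pos.mpr this).ne'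
  rw [this, univ_inter]
  simp

/-- The main comparison for root number `+1`. -/
lemma key_pos {N δ y : ℝ} (hN : 2 ≤ N) (hδ0 : 0 < δ)
    (hδ : δ * N ≤ 6 / π ^ 2 * (2 * log N - 1 / 8)) (hy : 1 / N ≤ y) :
    ENNReal.ofReal (δ * (1 - δ)) * HK y < EI y := by
  have hN0 : 0 < N := by linarith
  have hy0 : 0 < y := lt_of_lt_of_le (by positivity) hy
  have hδ1 := delta_le hN0 hδ
  have hd := dd_le hN0 hδ0 hδ
  have hd0 : 0 < δ * (1 - δ) := by
    apply mul_pos hδ0
    linarith only [hδ0, hδ1]
  rcases le_or_gt 0.13 y with h13 | h13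
  · have h1 := HK_le_EI h13
    by_cases htop : EI y = ∞
    · rw [htop]
      apply ENNReal.mul_lt_top ENNReal.ofReal_lt_top
      exact lt_of_le_of_lt (HK_le hy0) ENNReal.ofReal_lt_top
    · calc ENNReal.ofReal (δ * (1 - δ)) * HK y
          ≤ ENNReal.ofReal (δ * (1 - δ)) * (ENNReal.ofReal 4 * EI y) := by gcongr
        _ = ENNReal.ofReal (δ * (1 - δ) * 4) * EI y := by
            rw [← mul_assoc, ← ENNReal.ofReal_mul hd0.le]
        _ < 1 * EI y := by
            apply ENNReal.mul_lt_mul_left (EI_pos hy0).ne' htop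
            rw [← ENNReal.ofReal_one]
            apply (ENNReal.ofReal_lt_ofReal_iff one_pos).mpr
            linarith only [hd, hd0]
        _ = EI y := one_mul _
  · refine lt_of_le_of_lt (mul_le_mul_right (HK_le hy0) _) ?_
    refine lt_of_lt_of_le ?_ (EI_ge hy0 h13.le)
    rw [← ENNReal.ofReal_mul hd0.le]
    -- real inequality
    set t := 1 / y with ht
    have ht0 : 0 < t := by positivity
    have hyt : y = 1 / t := by rw [ht, one_div_one_div]
    have htN : t ≤ N := by
      rw [ht, div_le_iff₀ hy0]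
      rw [div_le_iff₀ hN0] at hy
      linarith
    have ht7 : 7.69 ≤ t := by
      rw [ht, le_div_iff₀ hy0]
      norm_num at h13 ⊢
      linarith only [hy0, h13]
    have hlogt : 2 ≤ log t := by
      rw [le_log_iff_exp_le ht0]
      have h2 : rexp 2 = rexp 1 ^ 2 := by rw [← exp_nat_mul]; norm_num
      have h3 := exp_one_lt_d9
      rw [h2]
      have h4 := pow_le_pow_left₀ (exp_pos 1).le h3.le 2
      exact h4.trans ((by norm_num : (2.7182818286 : ℝ) ^ 2 ≤ 7.69).trans ht7)
    have hlogN : 2 ≤ log N := hlogt.trans (log_le_log ht0 htN)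
    have h6 := six_div_pi_sq_bounds
    -- step 1: d * (π²/24) * N < φ(N)
    set M := 6 / π ^ 2 * (2 * log N - 1 / 8) with hM
    have hMN : M ≤ 0.4474 * N := by
      have h2 := log_le_div_e hN0
      have h3 : M ≤ 6 / π ^ 2 * (0.73576 * N) := by
        apply mul_le_mul_of_nonneg_left _ (by linarith only [hy0, h13, h6])
        linarith only [hy0, h13, h2]
      have h4 : 6 / π ^ 2 * (0.73576 * N) ≤ 0.60793 * (0.73576 * N) :=
        mul_le_mul_of_nonneg_right h6.2.le (by positivity)
      linarith only [h3, h4, hN0]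
    have hM0 : 0 < M := by
      apply mul_pos (by linarith only [hy0, h13, h6])
      linarith only [hy0, h13, hlogN]
    have hstep1 : δ * (1 - δ) * N ≤ M * (1 - M / N) := by
      have e1 : δ * (1 - δ) * N = (δ * N) * (1 - (δ * N) / N) := by field_simp
      rw [e1]
      set X := δ * N with hX
      have hX0 : 0 < X := by positivity
      have e2 : M * (1 - M / N) - X * (1 - X / N) = (M - X) * (1 - (M + X) / N) := by ring
      have e3 : (M + X) / N ≤ 1 := by rw [div_le_one hN0]; linarith only [hy0, h13, htN, ht7, hMN, hδ]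
      have e4 : 0 ≤ (M - X) * (1 - (M + X) / N) := mul_nonneg (by linarith only [hδ]) (by linarith only [e3])
      linarith only [e2, e4]
    have hpi2 : π ^ 2 / 24 * M = (2 * log N - 1 / 8) / 4 := by
      rw [hM]; field_simp; ring
    have hphiN : π ^ 2 / 24 * (δ * (1 - δ) * N) < log N / 2 - 0.03 - 0.86 * (1 / N) := by
      have e0 : π ^ 2 / 24 * (δ * (1 - δ) * N) ≤ π ^ 2 / 24 * (M * (1 - M / N)) :=
        mul_le_mul_of_nonneg_left hstep1 (by positivity)
      have e1 : π ^ 2 / 24 * (M * (1 - M / N)) = (2 * log N - 1 / 8) / 4 -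
          (2 * log N - 1 / 8) / 4 * M * (1 / N) := by
        rw [← hpi2]; ring
      have e2 : 0.87 ≤ (2 * log N - 1 / 8) / 4 * M := by
        have e3 : (0.96875 : ℝ) ≤ (2 * log N - 1 / 8) / 4 := by linarith only [hlogN]
        have e4 : (2.3 : ℝ) ≤ M := by
          rw [hM]
          calc (2.3 : ℝ) ≤ 0.6079 * 3.875 := by norm_num
            _ ≤ 6 / π ^ 2 * (2 * log N - 1 / 8) :=
              mul_le_mul h6.1.le (by linarith only [hlogN]) (by norm_num) (by linarith only [hy0, h13, h6])
        exact (by norm_num : (0.87 : ℝ) ≤ 0.96875 * 2.3).trans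
          (mul_le_mul e3 e4 (by norm_num) (le_trans (by norm_num) e3))
      have e5 : 0.87 * (1 / N) ≤ (2 * log N - 1 / 8) / 4 * M * (1 / N) :=
        mul_le_mul_of_nonneg_right e2 (by positivity)
      have e6 : 0 < 1 / N := by positivity
      linarith only [hy0, h13, e0, e1, e5, e6]
    -- step 2: compare φ(t)/t with φ(N)/N
    have hlogNt : log N ≤ log t + (N / t - 1) := by
      have h1 := log_le_sub_one_of_pos (show 0 < N / t by positivity)
      rw [log_div hN0.ne' ht0.ne'] at h1
      linarith only [h1]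
    have hphi : t * (log N / 2 - 0.03 - 0.86 * (1 / N)) ≤ N * (log t / 2 - 0.03 - 0.86 * (1 / t)) := by
      have e1 : t * (log N / 2) ≤ t * (log t / 2) + (N - t) / 2 := by
        have := mul_le_mul_of_nonneg_left hlogNt ht0.le
        have e2 : t * (N / t - 1) = N - t := by field_simp
        linarith only [this, e2]
      have e3 : N * (log t / 2 - 0.03 - 0.86 * (1 / t)) - (t * (log t / 2) + (N - t) / 2 - 0.03 * t -
          0.86 * (t * (1 / N))) = (N - t) * (log t / 2 - 0.53 - 0.86 * (1 / t + 1 / N)) := by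
        field_simp
        ring
      have e4 : 1 / t ≤ 0.1301 := by
        rw [div_le_iff₀ ht0]; linarith only [hy0, h13, ht7]
      have e5 : 1 / N ≤ 0.1301 := by
        rw [div_le_iff₀ hN0]; linarith only [hy0, h13, htN, ht7]
      have e6 : 0 ≤ (N - t) * (log t / 2 - 0.53 - 0.86 * (1 / t + 1 / N)) := by
        apply mul_nonneg (by linarith only [htN])
        linarith only [hy, hy0, h13, hyt, hlogt]
      linarith only [e1, e3, e6]
    have hfinal : δ * (1 - δ) * (π ^ 2 / (24 * y)) < log t / 2 - 0.03 - 0.86 * y := by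
      have e1 : δ * (1 - δ) * (π ^ 2 / (24 * y)) = π ^ 2 / 24 * (δ * (1 - δ)) * t := by
        rw [ht]; field_simp
      rw [e1, hyt]
      have e2 : t * (π ^ 2 / 24 * (δ * (1 - δ) * N)) < t * (log N / 2 - 0.03 - 0.86 * (1 / N)) :=
        mul_lt_mul_of_pos_left hphiN ht0
      have e3 : N * (π ^ 2 / 24 * (δ * (1 - δ)) * t) < N * (log t / 2 - 0.03 - 0.86 * (1 / t)) := by
        calc N * (π ^ 2 / 24 * (δ * (1 - δ)) * t) = t * (π ^ 2 / 24 * (δ * (1 - δ) * N)) := by ring
          _ < _ := e2
          _ ≤ _ := hphi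
      exact lt_of_mul_lt_mul_left e3 hN0.le
    apply (ENNReal.ofReal_lt_ofReal_iff _).mpr hfinal
    exact lt_trans (by positivity) hfinal

lemma exp_five_half : 12.18 < rexp (5 / 2) := by
  have h1 : rexp (5 / 2) ^ 2 = rexp 1 ^ 5 := by
    rw [← exp_nat_mul, ← exp_nat_mul]; norm_num
  have h2 : (148.4 : ℝ) < rexp 1 ^ 5 := by
    have e1 := exp_one_gt_d9
    have : (2.71828 : ℝ) ^ 5 < rexp 1 ^ 5 := by
      apply pow_lt_pow_left₀ _ (by norm_num) (by norm_num)
      linarith
    refine lt_trans (by norm_num) this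
  by_contra h
  have h3 : rexp (5 / 2) ^ 2 ≤ 12.18 ^ 2 := by
    apply pow_le_pow_left₀ (exp_pos _).le
    exact not_lt.mp h
  norm_num at h3
  linarith only [h1, h2, h3]

/-- The pointwise comparison for root number `-1`. -/
lemma key_neg {N δ z : ℝ} (hN : 2 ≤ N) (hδ0 : 0 < δ)
    (hδ : δ * N ≤ 6 / π ^ 2 * (2 * log N - 1 / 8)) (hz : 2 / N ≤ z) :
    ENNReal.ofReal (δ * (1 - δ)) * JI z ≤ ENNReal.ofReal 0.99 * ENNReal.ofReal (om1 z) := by
  have hN0 : 0 < N := by linarith
  have hz0 : 0 < z := lt_of_lt_of_le (by positivity) hz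
  have hδ1 := delta_le hN0 hδ
  have hd := dd_le hN0 hδ0 hδ
  have hd0 : 0 < δ * (1 - δ) := by
    apply mul_pos hδ0
    linarith only [hδ0, hδ1]
  have hom := om1_pos hz0
  have hp := pi_gt_d6
  have h6 := six_div_pi_sq_bounds
  -- reduction when `d ≤ 0.99 (π z)²`
  have hA : δ * (1 - δ) ≤ 0.99 * (π * z) ^ 2 →
      ENNReal.ofReal (δ * (1 - δ)) * JI z ≤ ENNReal.ofReal 0.99 * ENNReal.ofReal (om1 z) := by
    intro h
    refine (mul_le_mul_right (JI_le_om hz0) _).trans ?_
    rw [← ENNReal.ofReal_mul hd0.le, ← ENNReal.ofReal_mul (by norm_num)]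
    apply ENNReal.ofReal_le_ofReal
    rw [← mul_div_assoc, div_le_iff₀ (by positivity)]
    linarith only [mul_le_mul_of_nonneg_right h hom.le]
  rcases le_or_gt 0.1592 z with h1 | h1
  · apply hA
    have h2 : (0.5001 : ℝ) ≤ π * z := (by norm_num : (0.5001 : ℝ) ≤ 3.141592 * 0.1592).trans
      (mul_le_mul hp.le h1 (by norm_num) pi_pos.le)
    have h3 := pow_le_pow_left₀ (by norm_num) h2 2
    norm_num at h3
    linarith only [hd, h3]
  · -- here N ≥ 12.56
    have hN1 : 12.56 ≤ N := by
      rw [div_le_iff₀ hN0] at hz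
      have h1' : z * N ≤ 0.1592 * N := mul_le_mul_of_nonneg_right h1.le hN0.le
      linarith only [hz, hz0, h1, h1']
    have hδ2 : δ ≤ 0.2391 := by
      have h2 := log_le_sub_one_of_pos (show 0 < N / rexp (5 / 2) by positivity)
      rw [log_div hN0.ne' (exp_pos _).ne', log_exp] at h2
      have h3 : N / rexp (5 / 2) ≤ 0.08211 * N := by
        rw [div_le_iff₀ (exp_pos _)]
        have := exp_five_half
        linarith only [mul_le_mul_of_nonneg_left this.le (by linarith only [hz0, h1, hN1] : 0 ≤ 0.08211 * N), hN0]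
      have h4 : 6 / π ^ 2 * (2 * log N - 1 / 8) ≤ 6 / π ^ 2 * (0.16422 * N + 2.875) := by
        apply mul_le_mul_of_nonneg_left _ (by linarith only [hz0, h6, h1])
        linarith only [h2, h3]
      have h5 : 6 / π ^ 2 * (0.16422 * N + 2.875) ≤ 0.60793 * (0.16422 * N + 2.875) :=
        mul_le_mul_of_nonneg_right h6.2.le (by positivity)
      have h7 : δ * N ≤ 0.2391 * N := by linarith only [hδ, hz0, h1, hN1, h4, h5]
      exact le_of_mul_le_mul_right h7 hN0
    have hd2 : δ * (1 - δ) ≤ 0.182 := by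
      have := mul_nonneg (by linarith only [hδ2] : 0 ≤ 0.2391 - δ)
        (by linarith only [hδ2] : 0 ≤ 1 - 0.2391 - δ)
      linarith only [this]
    rcases le_or_gt 0.1375 z with h8 | h8
    · apply hA
      have h2 : (0.4319 : ℝ) ≤ π * z := (by norm_num : (0.4319 : ℝ) ≤ 3.141592 * 0.1375).trans
        (mul_le_mul hp.le h8 (by norm_num) pi_pos.le)
      have h3 := pow_le_pow_left₀ (by norm_num) h2 2
      norm_num at h3
      linarith only [hd2, h3]
    · refine (mul_le_mul_right (JI_le hz0) _).trans ?_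
      rw [← ENNReal.ofReal_mul hd0.le, ← ENNReal.ofReal_mul (by norm_num)]
      apply ENNReal.ofReal_le_ofReal
      -- om1 z ≥ (1/√z - 1)/2
      have hsz : 0 < √z := sqrt_pos.mpr hz0
      have hss : √z * √z = z := mul_self_sqrt hz0.le
      have h9 : (1 / √z - 1) / 2 ≤ om1 z := by
        rw [om1_fe hz0]
        have := om1_pos (show 0 < 1 / z by positivity)
        have : 0 < 1 / √z * om1 (1 / z) := by positivity
        linarith only [this]
      -- x = √(2/N)
      set x := √(2 / N) with hx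
      have h2N : 0 < 2 / N := by positivity
      have hx0 : 0 < x := sqrt_pos.mpr h2N
      have hxx : x * x = 2 / N := mul_self_sqrt h2N.le
      have hxz : x ≤ √z := sqrt_le_sqrt hz
      have hszle : √z ≤ 0.3709 := by
        rw [sqrt_le_left (by norm_num)]
        norm_num at h8 ⊢
        linarith only [hz0, h8]
      have hx1 : x ≤ 0.3709 := hxz.trans hszle
      have hmono : x - x ^ 2 ≤ √z - z := by
        have e0 : 0 ≤ (√z - x) * (1 - (√z + x)) := mul_nonneg (by linarith only [hxz]) (by linarith only [hz0, h8, hxz, hszle])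
        have e1 : (√z - x) * (1 - (√z + x)) = √z - x - √z * √z + x ^ 2 := by ring
        rw [e1, hss] at e0
        linarith only [e0]
      have hNx : N = 2 / x ^ 2 := by
        rw [pow_two, hxx]; field_simp
      have hlogN : log N = log 2 - 2 * log x := by
        rw [hNx, log_div (by norm_num) (by positivity), log_pow]
        norm_num
      have hxlog : -(x * log x) ≤ 0.36788 := by
        have h2 := log_le_div_e (show 0 < 1 / x by positivity)
        rw [one_div, log_inv] at h2
        have h3 := mul_le_mul_of_nonneg_left h2 hx0.le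
        have h4 : x * (0.36788 * x⁻¹) = 0.36788 := by field_simp
        linarith only [h3, h4]
      have hlog2 := log_two_lt_d9
      -- π/3 δ ≤ 0.99 (x - x²)
      have hkey : π / 3 * δ ≤ 0.99 * (x - x ^ 2) := by
        have e1 : δ ≤ 6 / π ^ 2 * (2 * log N - 1 / 8) / N := by
          rw [le_div_iff₀ hN0]; exact hδ
        have e2 : π / 3 * (6 / π ^ 2 * (2 * log N - 1 / 8) / N) =
            1 / π * (x * x) * (2 * log N - 1 / 8) := by
          rw [hxx]; field_simp; ring
        have e3 : π / 3 * δ ≤ 1 / π * (x * x) * (2 * log N - 1 / 8) := by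
          rw [← e2]
          exact mul_le_mul_of_nonneg_left e1 (by positivity)
        have e4 : (x * x) * (2 * log N - 1 / 8) = x * (x * (2 * log 2 - 1 / 8) + 4 * (-(x * log x))) := by
          rw [hlogN]; ring
        have e5 : x * (2 * log 2 - 1 / 8) + 4 * (-(x * log x)) ≤ 1.2613 * x + 1.47152 := by
          have e51 : x * (2 * log 2 - 1 / 8) ≤ x * 1.2613 :=
            mul_le_mul_of_nonneg_left (by linarith only [hlog2]) hx0.le
          linarith only [e51, hxlog]
        have hip : 1 / π < 0.31831 := by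
          rw [div_lt_iff₀ pi_pos]; linarith only [hp]
        have hip0 : 0 < 1 / π := by positivity
        have e6 : 1 / π * (1.2613 * x + 1.47152) ≤ 0.99 * (1 - x) := by
          have : 1 / π * (1.2613 * x + 1.47152) ≤ 0.31831 * (1.2613 * x + 1.47152) :=
            mul_le_mul_of_nonneg_right hip.le (by positivity)
          linarith only [this, hx1]
        calc π / 3 * δ ≤ 1 / π * (x * x) * (2 * log N - 1 / 8) := e3
          _ = x * (1 / π * (x * (2 * log 2 - 1 / 8) + 4 * (-(x * log x)))) := by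
              rw [mul_assoc, e4]; ring
          _ ≤ x * (1 / π * (1.2613 * x + 1.47152)) := by (clear * - e5 hN; gcongr)
          _ ≤ x * (0.99 * (1 - x)) := by gcongr
          _ = _ := by ring
      have hfin : δ * (1 - δ) * (π / (6 * z)) ≤ 0.99 * ((1 / √z - 1) / 2) := by
        have e1 : δ * (1 - δ) ≤ δ := mul_le_of_le_one_right hδ0.le (by linarith only [hδ0])
        have e2 : π / 3 * (δ * (1 - δ)) ≤ 0.99 * (√z - z) := by
          have : π / 3 * (δ * (1 - δ)) ≤ π / 3 * δ := mul_le_mul_of_nonneg_left e1 (by positivity)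
          linarith only [hmono, hkey, this]
        have e3 : δ * (1 - δ) * (π / (6 * z)) = (π / 3 * (δ * (1 - δ))) / (2 * z) := by
          field_simp
          ring
        have e4 : 0.99 * ((1 / √z - 1) / 2) = (0.99 * (√z - z)) / (2 * z) := by
          have : 1 / √z = √z / z := by
            rw [div_eq_div_iff hsz.ne' hz0.ne']; linarith only [hss]
          rw [this]
          field_simp
        rw [e3, e4]
        gcongr
      exact hfin.trans (by gcongr)

lemma key_neg_int {N δ y : ℝ} (hN : 2 ≤ N) (hδ0 : 0 < δ)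
    (hδ : δ * N ≤ 6 / π ^ 2 * (2 * log N - 1 / 8)) (hy : 1 / N ≤ y) :
    ENNReal.ofReal (δ * (1 - δ)) * JK y ≤ ENNReal.ofReal 0.99 * OmI y := by
  unfold JK OmI
  rw [← lintegral_const_mul' _ _ ENNReal.ofReal_ne_top,
    ← lintegral_const_mul' _ _ ENNReal.ofReal_ne_top]
  refine lintegral_mono fun r => ?_
  apply key_neg hN hδ0 hδ
  have hc := one_le_cosh r
  have hN0 : 0 < N := by linarith only [hN]
  have hy0 : 0 < y := lt_of_lt_of_le (by positivity) hy
  calc 2 / N = 1 / N * (2 * 1) := by ring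
    _ ≤ y * (2 * cosh r) := by (clear * - hy hc hy0; gcongr)

end Pool.Agent.MP0016c7
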