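import Mathlib
import Pool.Agent.Lib.MP_0016c7_nt.EvenFinal

open Real Set MeasureTheory Filter Topology
open scoped ENNReal

namespace Pool.Agent.MP0016c7

/-- The series `∑ rs m · Om (m u / N)`. -/
noncomputable def PsiI (rs : ℕ → ℝ) (N u : ℝ) : ℝ≥0∞ :=
  ∑' m : ℕ, ENNReal.ofReal (rs m) * OmI ((m : ℝ) / N * u)

/-- difference integral -/
noncomputable def DI (y u : ℝ) : ℝ≥0∞ :=
  ∫⁻ r in Ioi (0 : ℝ), ENNReal.ofReal
    (om1 (y * (2 * cosh r) / u) - u * om1 (y * (2 * cosh r) * u))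

lemma measurable_om1_cosh (y : ℝ) : Measurable fun r : ℝ => om1 (y * (2 * cosh r)) :=
  measurable_om1.comp (by fun_prop)

lemma OmI_div {y u : ℝ} (hy : 0 < y) (hu : 1 ≤ u) :
    OmI (y * (1 / u)) = ENNReal.ofReal u * OmI (y * u) + DI y u := by
  have hu0 : 0 < u := by linarith
  unfold OmI DI
  rw [← lintegral_const_mul' _ _ ENNReal.ofReal_ne_top, ← lintegral_add_left]
  · refine lintegral_congr fun r => ?_
    have hz : 0 < y * (2 * cosh r) := by have := cosh_pos r; positivity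
    have h1 : y * (1 / u) * (2 * cosh r) = y * (2 * cosh r) / u := by ring
    have h2 : y * u * (2 * cosh r) = y * (2 * cosh r) * u := by ring
    rw [h1, h2, ← ENNReal.ofReal_mul hu0.le, ← ENNReal.ofReal_add]
    · congr 1; ring
    · have := om1_pos (mul_pos hz hu0); positivity
    · have := mul_om1_mul_le hz hu
      linarith
  · exact ((measurable_om1_cosh (y * u)).ennreal_ofReal).const_mul _

lemma sum_DI {rs : ℕ → ℝ} {N κ : ℝ} (hN : 0 < N) (hrs0 : rs 0 = 0)
    (hfin : ∀ u : ℝ, 0 < u → PsiI rs N u ≠ ∞)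
    (hid : ∀ u : ℝ, 1 < u → PsiI rs N (1 / u) =
      ENNReal.ofReal u * PsiI rs N u + ENNReal.ofReal (κ * (u - 1))) {u : ℝ} (hu : 1 < u) :
    ∑' m : ℕ, ENNReal.ofReal (rs m) * DI ((m : ℝ) / N) u = ENNReal.ofReal (κ * (u - 1)) := by
  have hu0 : 0 < u := by linarith
  have h1 : PsiI rs N (1 / u) = ENNReal.ofReal u * PsiI rs N u +
      ∑' m : ℕ, ENNReal.ofReal (rs m) * DI ((m : ℝ) / N) u := by
    unfold PsiI
    rw [← ENNReal.tsum_mul_left, ← ENNReal.tsum_add]
    refine tsum_congr fun m => ?_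
    rcases Nat.eq_zero_or_pos m with hm | hm
    · subst hm
      rw [hrs0]
      simp
    · have hy : 0 < (m : ℝ) / N := by
        have : (0 : ℝ) < m := Nat.cast_pos.mpr hm
        positivity
      rw [OmI_div hy hu.le, mul_add]
      congr 1
      ring
  have h2 := hid u hu
  rw [h1] at h2
  have h3 : ENNReal.ofReal u * PsiI rs N u ≠ ∞ :=
    ENNReal.mul_ne_top ENNReal.ofReal_ne_top (hfin u hu0)
  exact (ENNReal.add_right_inj h3).mp h2

lemma sum_quot {rs : ℕ → ℝ} {N κ : ℝ} (hN : 0 < N) (hrs0 : rs 0 = 0)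
    (hfin : ∀ u : ℝ, 0 < u → PsiI rs N u ≠ ∞)
    (hid : ∀ u : ℝ, 1 < u → PsiI rs N (1 / u) =
      ENNReal.ofReal u * PsiI rs N u + ENNReal.ofReal (κ * (u - 1))) {u : ℝ} (hu : 1 < u) :
    ∑' m : ℕ, ENNReal.ofReal (rs m) * (∫⁻ r in Ioi (0 : ℝ), ENNReal.ofReal
      ((om1 ((m : ℝ) / N * (2 * cosh r) / u) - u * om1 ((m : ℝ) / N * (2 * cosh r) * u)) / (u - 1)))
      = ENNReal.ofReal κ := by
  have hu1 : 0 < u - 1 := by linarith
  have h1 := sum_DI hN hrs0 hfin hid hu
  have h2 : ∀ m : ℕ, (∫⁻ r in Ioi (0 : ℝ), ENNReal.ofReal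
      ((om1 ((m : ℝ) / N * (2 * cosh r) / u) - u * om1 ((m : ℝ) / N * (2 * cosh r) * u)) / (u - 1)))
      = DI ((m : ℝ) / N) u * ENNReal.ofReal (1 / (u - 1)) := by
    intro m
    unfold DI
    rw [← lintegral_mul_const' _ _ ENNReal.ofReal_ne_top]
    refine lintegral_congr fun r => ?_
    rw [← ENNReal.ofReal_mul' (by positivity)]
    congr 1
    ring
  simp_rw [h2, ← mul_assoc]
  rw [ENNReal.tsum_mul_right, h1, ← ENNReal.ofReal_mul' (by positivity)]
  congr 1
  field_simp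

/-- Lower bound for `κ` (root number `+1`), by Fatou's lemma. -/
lemma sum_EI_le {rs : ℕ → ℝ} {N κ : ℝ} (hN : 0 < N) (hrs0 : rs 0 = 0)
    (hfin : ∀ u : ℝ, 0 < u → PsiI rs N u ≠ ∞)
    (hid : ∀ u : ℝ, 1 < u → PsiI rs N (1 / u) =
      ENNReal.ofReal u * PsiI rs N u + ENNReal.ofReal (κ * (u - 1))) :
    ∑' m : ℕ, ENNReal.ofReal (rs m) * EI ((m : ℝ) / N) ≤ ENNReal.ofReal κ := by
  rw [ENNReal.tsum_eq_iSup_sum]
  refine iSup_le fun F => ?_
  -- the approximating sequence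
  set us : ℕ → ℝ := fun n => 1 + 1 / ((n : ℝ) + 1) with hus
  have hus1 : ∀ n, 1 < us n := by
    intro n
    have : (0 : ℝ) < 1 / ((n : ℝ) + 1) := by positivity
    simp only [hus]
    linarith
  have hlim : Tendsto us atTop (𝓝[>] 1) := by
    apply tendsto_nhdsWithin_iff.mpr
    constructor
    · have := (tendsto_one_div_add_atTop_nhds_zero_nat (𝕜 := ℝ)).const_add 1
      rw [add_zero] at this
      exact this
    · exact Filter.Eventually.of_forall fun n => hus1 n
  set fn : ℕ → ℝ → ℝ≥0∞ := fun n r => ∑ m ∈ F, ENNReal.ofReal (rs m) * ENNReal.ofReal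
      ((om1 ((m : ℝ) / N * (2 * cosh r) / us n) -
        us n * om1 ((m : ℝ) / N * (2 * cosh r) * us n)) / (us n - 1)) with hfn
  have hmeas0 : ∀ (n : ℕ) (m : ℕ), Measurable fun r : ℝ => ENNReal.ofReal
      ((om1 ((m : ℝ) / N * (2 * cosh r) / us n) -
        us n * om1 ((m : ℝ) / N * (2 * cosh r) * us n)) / (us n - 1)) := by
    intro n m
    apply ENNReal.measurable_ofReal.comp
    apply Measurable.div_const
    exact (measurable_om1.comp (by fun_prop)).sub
      ((measurable_om1.comp (by fun_prop)).const_mul _)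
  have hmeas : ∀ n, Measurable (fn n) := by
    intro n
    apply Finset.measurable_fun_sum
    intro m _
    exact (hmeas0 n m).const_mul _
  have hle : ∀ n, ∫⁻ r in Ioi (0 : ℝ), fn n r ≤ ENNReal.ofReal κ := by
    intro n
    simp only [hfn]
    rw [lintegral_finsetSum _ (fun m _ => (hmeas0 n m).const_mul _)]
    rw [← sum_quot hN hrs0 hfin hid (hus1 n)]
    refine le_trans (le_of_eq ?_) (ENNReal.sum_le_tsum F)
    refine Finset.sum_congr rfl fun m _ => ?_
    rw [lintegral_const_mul' _ _ ENNReal.ofReal_ne_top]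
  have hlimf : ∀ r : ℝ, Tendsto (fun n => fn n r) atTop
      (𝓝 (∑ m ∈ F, ENNReal.ofReal (rs m) * ENNReal.ofReal (eps1 ((m : ℝ) / N * (2 * cosh r))))) := by
    intro r
    simp only [hfn]
    apply tendsto_finsetSum
    intro m _
    rcases Nat.eq_zero_or_pos m with hm | hm
    · subst hm
      rw [hrs0]
      simp
    · apply ENNReal.Tendsto.const_mul _ (Or.inr ENNReal.ofReal_ne_top)
      apply (ENNReal.continuous_ofReal.tendsto _).comp
      have hz : 0 < (m : ℝ) / N * (2 * cosh r) := by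
        have : (0 : ℝ) < m := Nat.cast_pos.mpr hm
        have := cosh_pos r
        positivity
      exact (tendsto_quot hz).comp hlim
  have hEI : ∑ m ∈ F, ENNReal.ofReal (rs m) * EI ((m : ℝ) / N) =
      ∫⁻ r in Ioi (0 : ℝ), ∑ m ∈ F, ENNReal.ofReal (rs m) *
        ENNReal.ofReal (eps1 ((m : ℝ) / N * (2 * cosh r))) := by
    have hm0 : ∀ m ∈ F, Measurable fun r : ℝ => ENNReal.ofReal (rs m) *
        ENNReal.ofReal (eps1 ((m : ℝ) / N * (2 * cosh r))) := by
      intro m _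
      rcases Nat.eq_zero_or_pos m with hm | hm
      · subst hm
        rw [hrs0]
        simp
      · have hy : 0 < (m : ℝ) / N := by
          have : (0 : ℝ) < m := Nat.cast_pos.mpr hm
          positivity
        exact (measurable_eps_cosh _ hy).const_mul _
    rw [lintegral_finsetSum _ hm0]
    refine Finset.sum_congr rfl fun m _ => ?_
    rw [lintegral_const_mul' _ _ ENNReal.ofReal_ne_top]
    rfl
  rw [hEI]
  calc ∫⁻ r in Ioi (0 : ℝ), ∑ m ∈ F, ENNReal.ofReal (rs m) *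
        ENNReal.ofReal (eps1 ((m : ℝ) / N * (2 * cosh r)))
      = ∫⁻ r in Ioi (0 : ℝ), liminf (fun n => fn n r) atTop :=
        lintegral_congr fun r => ((hlimf r).liminf_eq).symm
    _ ≤ liminf (fun n => ∫⁻ r in Ioi (0 : ℝ), fn n r) atTop := lintegral_liminf_le hmeas
    _ ≤ ENNReal.ofReal κ := by
        refine le_trans (liminf_le_liminf (Filter.Eventually.of_forall hle)) ?_
        simp

lemma rpow_add_le {s u : ℝ} (hs : 1 / 2 < s) (hs1 : s < 1) (hu : 1 ≤ u) :
    u ^ (s - 1) + u ^ (-s) ≤ 1 + 1 / u := by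
  have hu0 : 0 < u := by linarith only [hs, hs1, hu]
  have h1 : u ^ (s - 1) ≤ 1 := rpow_le_one_of_one_le_of_nonpos hu (by linarith)
  have h2 : u ^ (-s) ≤ 1 := rpow_le_one_of_one_le_of_nonpos hu (by linarith)
  have h3 : u ^ (s - 1) * u ^ (-s) = 1 / u := by
    rw [← rpow_add hu0]
    have : s - 1 + -s = -1 := by ring
    rw [this, rpow_neg_one, one_div]
  nlinarith only [h3, hs, hs1, h1, h2]

lemma sinh_mul_le {θ x : ℝ} (h0 : 0 ≤ θ) (h1 : θ ≤ 1) (hx : 0 ≤ x) :
    sinh (θ * x) ≤ θ * sinh x := by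
  have hd : ∀ x : ℝ, HasDerivAt (fun x => θ * sinh x - sinh (θ * x))
      (θ * cosh x - cosh (θ * x) * θ) x := by
    intro x
    have h2 : HasDerivAt (fun x : ℝ => θ * x) θ x := by
      simpa using (hasDerivAt_id' x).const_mul θ
    exact ((Real.hasDerivAt_sinh x).const_mul θ).fun_sub
      ((Real.hasDerivAt_sinh (θ * x)).comp x h2)
  have hmono : MonotoneOn (fun x => θ * sinh x - sinh (θ * x)) (Ici 0) := by
    refine monotoneOn_of_deriv_nonneg (convex_Ici 0)
      (fun x _ => (hd x).continuousAt.continuousWithinAt)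
      (fun x _ => (hd x).differentiableAt.differentiableWithinAt) ?_
    intro x hx
    rw [interior_Ici] at hx
    have hx0 : 0 < x := hx
    rw [(hd x).deriv]
    have : cosh (θ * x) ≤ cosh x := by
      rw [cosh_le_cosh, abs_of_nonneg (by positivity), abs_of_pos hx0]
      nlinarith only [h1, hx0]
    nlinarith only [h0, this]
  have := hmono (Set.mem_Ici.mpr (le_refl (0 : ℝ))) (Set.mem_Ici.mpr hx) hx
  simp at this
  linarith

lemma rpow_sub_le {s u : ℝ} (hs : 1 / 2 < s) (hs1 : s < 1) (hu : 1 ≤ u) :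
    u ^ (s - 1) - u ^ (-s) ≤ (2 * s - 1) * (1 - 1 / u) := by
  have hu0 : 0 < u := by linarith
  set x := log u / 2 with hx
  have hx0 : 0 ≤ x := by have := log_nonneg hu; positivity
  have hlog : log u = 2 * x := by rw [hx]; ring
  have h1 : u ^ (s - 1) = rexp (-x) * rexp ((2 * s - 1) * x) := by
    rw [rpow_def_of_pos hu0, hlog, ← exp_add]; congr 1; ring
  have h2 : u ^ (-s) = rexp (-x) * rexp (-((2 * s - 1) * x)) := by
    rw [rpow_def_of_pos hu0, hlog, ← exp_add]; congr 1; ring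
  have h3 : 1 - 1 / u = rexp (-x) * (rexp x - rexp (-x)) := by
    have : u = rexp (2 * x) := by rw [← hlog, exp_log hu0]
    rw [this, mul_sub, ← exp_add, ← exp_add, one_div, ← exp_neg]
    have e1 : -x + x = 0 := by ring
    have e2 : -x + -x = -(2 * x) := by ring
    rw [e1, e2, exp_zero]
  have h4 := sinh_mul_le (θ := 2 * s - 1) (by linarith only [hs]) (by linarith) hx0
  rw [sinh_eq, sinh_eq] at h4
  rw [h1, h2, h3]
  have h5 := mul_le_mul_of_nonneg_left h4 (exp_pos (-x)).le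
  nlinarith only [h5]

lemma rpow_sub_nonneg {s u : ℝ} (hs : 1 / 2 < s) (hu : 1 ≤ u) :
    0 ≤ u ^ (s - 1) - u ^ (-s) := by
  have := rpow_le_rpow_of_exponent_le hu (show -s ≤ s - 1 by linarith)
  linarith

lemma lintegral_OmI_swap {y : ℝ} (c : ℝ → ℝ) (hc : Measurable c) :
    ∫⁻ u in Ioi (1 : ℝ), OmI (y * u) * ENNReal.ofReal (c u) =
      ∫⁻ r in Ioi (0 : ℝ), ∫⁻ u in Ioi (1 : ℝ),
        ENNReal.ofReal (om1 (y * (2 * cosh r) * u)) * ENNReal.ofReal (c u) := by
  have h1 : ∀ u : ℝ, OmI (y * u) * ENNReal.ofReal (c u) =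
      ∫⁻ r in Ioi (0 : ℝ), ENNReal.ofReal (om1 (y * (2 * cosh r) * u)) * ENNReal.ofReal (c u) := by
    intro u
    unfold OmI
    rw [← lintegral_mul_const' _ _ ENNReal.ofReal_ne_top]
    refine lintegral_congr fun r => ?_
    congr 3
    ring
  simp_rw [h1]
  rw [lintegral_lintegral_swap]
  apply Measurable.aemeasurable
  exact (ENNReal.measurable_ofReal.comp (measurable_om1.comp
    (by fun_prop : Measurable fun a : ℝ × ℝ => y * (2 * cosh a.2) * a.1))).mul
    (ENNReal.measurable_ofReal.comp (hc.comp measurable_fst))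

lemma lintegral_OmI_HK (y : ℝ) (hy : 0 < y) :
    ∫⁻ u in Ioi (1 : ℝ), OmI (y * u) * ENNReal.ofReal (1 + 1 / u) = HK y := by
  rw [lintegral_OmI_swap (fun u => 1 + 1 / u) (by fun_prop)]
  unfold HK HI
  refine lintegral_congr fun r => ?_
  refine setLIntegral_congr_fun measurableSet_Ioi fun u hu => ?_
  have hu0 : (0 : ℝ) < u := lt_trans zero_lt_one hu
  have hz : 0 < y * (2 * cosh r) * u := by have := cosh_pos r; positivity
  rw [← ENNReal.ofReal_mul (om1_pos hz).le]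

lemma lintegral_OmI_JK (y : ℝ) (hy : 0 < y) :
    ∫⁻ u in Ioi (1 : ℝ), OmI (y * u) * ENNReal.ofReal (1 - 1 / u) = JK y := by
  rw [lintegral_OmI_swap (fun u => 1 - 1 / u) (by fun_prop)]
  unfold JK JI
  refine lintegral_congr fun r => ?_
  refine setLIntegral_congr_fun measurableSet_Ioi fun u hu => ?_
  have hu0 : (0 : ℝ) < u := lt_trans zero_lt_one hu
  have hz : 0 < y * (2 * cosh r) * u := by have := cosh_pos r; positivity
  rw [← ENNReal.ofReal_mul (om1_pos hz).le]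

lemma measurable_OmI_mul (y : ℝ) : Measurable fun u : ℝ => OmI (y * u) := by
  unfold OmI
  apply Measurable.lintegral_prod_right'
    (f := fun p : ℝ × ℝ => ENNReal.ofReal (om1 (y * p.1 * (2 * cosh p.2))))
  exact ENNReal.measurable_ofReal.comp (measurable_om1.comp (by fun_prop))

lemma measurable_OmI_term (y : ℝ) {c : ℝ → ℝ} (hc : Measurable c) :
    Measurable fun u : ℝ => OmI (y * u) * ENNReal.ofReal (c u) :=
  (measurable_OmI_mul y).mul (ENNReal.measurable_ofReal.comp hc)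

lemma one_le_rs_aux {N : ℝ} {m : ℕ} (hm : 0 < m) (hN : 0 < N) :
    1 / N ≤ (m : ℝ) / N := by
  have : (1 : ℝ) ≤ m := by exact_mod_cast hm
  gcongr

/-- Assembly for root number `+1`. -/
theorem assembly_pos {rs : ℕ → ℝ} {N κ s : ℝ} (hN : 2 ≤ N) (hrs0 : rs 0 = 0) (hrs1 : rs 1 = 1)
    (hs1 : s < 1) (hs : (1 - s) * N ≤ 6 / π ^ 2 * (2 * log N - 1 / 8))
    (hfin : ∀ u : ℝ, 0 < u → PsiI rs N u ≠ ∞)
    (hid : ∀ u : ℝ, 1 < u → PsiI rs N (1 / u) =
      ENNReal.ofReal u * PsiI rs N u + ENNReal.ofReal (κ * (u - 1))) :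
    ∫⁻ u in Ioi (1 : ℝ), PsiI rs N u * ENNReal.ofReal (u ^ (s - 1) + u ^ (-s)) <
      ENNReal.ofReal (κ * (1 / (1 - s) + 1 / s)) := by
  have hN0 : 0 < N := by linarith only [hN]
  have hδ0 : 0 < 1 - s := by linarith
  have hδ1 := delta_le hN0 hs
  have hshalf : 1 / 2 < s := by norm_num at hδ1 ⊢; linarith
  have hs0 : 0 < s := by linarith
  set d := (1 - s) * (1 - (1 - s)) with hd
  have hd0 : 0 < d := by rw [hd]; apply mul_pos hδ0; linarith
  have hsum := sum_EI_le hN0 hrs0 hfin hid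
  set T := ∑' m : ℕ, ENNReal.ofReal (rs m) * HK ((m : ℝ) / N) with hT
  have h1 : ∫⁻ u in Ioi (1 : ℝ), PsiI rs N u * ENNReal.ofReal (u ^ (s - 1) + u ^ (-s)) ≤ T := by
    have h2 : ∫⁻ u in Ioi (1 : ℝ), PsiI rs N u * ENNReal.ofReal (u ^ (s - 1) + u ^ (-s)) ≤
        ∫⁻ u in Ioi (1 : ℝ), ∑' m : ℕ, ENNReal.ofReal (rs m) *
          (OmI ((m : ℝ) / N * u) * ENNReal.ofReal (1 + 1 / u)) := by
      refine setLIntegral_mono' measurableSet_Ioi fun u hu => ?_
      have hu1 : 1 < u := hu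
      simp_rw [← mul_assoc]
      rw [ENNReal.tsum_mul_right]
      unfold PsiI
      exact mul_le_mul_right (ENNReal.ofReal_le_ofReal (rpow_add_le hshalf hs1 hu1.le)) _
    refine h2.trans ?_
    rw [lintegral_tsum (fun m => ((measurable_OmI_term _
      (by fun_prop : Measurable fun u : ℝ => 1 + 1 / u)).const_mul _).aemeasurable)]
    rw [hT]
    refine ENNReal.tsum_le_tsum fun m => ?_
    rw [lintegral_const_mul' _ _ ENNReal.ofReal_ne_top]
    rcases Nat.eq_zero_or_pos m with hm | hm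
    · subst hm; rw [hrs0]; simp
    · have hy : 0 < (m : ℝ) / N := by
        have : (0 : ℝ) < m := Nat.cast_pos.mpr hm
        positivity
      rw [lintegral_OmI_HK _ hy]
  have h3 : ENNReal.ofReal d * T < ENNReal.ofReal κ := by
    refine lt_of_lt_of_le ?_ hsum
    rw [hT, ← ENNReal.tsum_mul_left]
    have hle : ∀ m : ℕ, ENNReal.ofReal d * (ENNReal.ofReal (rs m) * HK ((m : ℝ) / N)) ≤
        ENNReal.ofReal (rs m) * EI ((m : ℝ) / N) := by
      intro m
      rcases Nat.eq_zero_or_pos m with hm | hm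
      · subst hm; rw [hrs0]; simp
      · have hy : 1 / N ≤ (m : ℝ) / N := one_le_rs_aux hm hN0
        have := (key_pos hN hδ0 hs hy).le
        calc ENNReal.ofReal d * (ENNReal.ofReal (rs m) * HK ((m : ℝ) / N))
            = ENNReal.ofReal (rs m) * (ENNReal.ofReal d * HK ((m : ℝ) / N)) := by ring
          _ ≤ _ := by gcongr
    refine ENNReal.tsum_lt_tsum (i := 1) ?_ hle ?_
    · exact ne_top_of_le_ne_top ENNReal.ofReal_ne_top
        ((ENNReal.tsum_le_tsum hle).trans hsum)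
    · have hy : 1 / N ≤ ((1 : ℕ) : ℝ) / N := by simp
      have := key_pos hN hδ0 hs hy
      rw [hrs1, ENNReal.ofReal_one, one_mul, one_mul]
      exact this
  have h4 : κ * (1 / (1 - s) + 1 / s) = κ / d := by
    have h5 : (1 - s) ≠ 0 := hδ0.ne'
    have h6 : s ≠ 0 := hs0.ne'
    rw [hd]
    have h7 : 1 - (1 - s) = s := by ring
    rw [h7]
    field_simp
    ring
  rw [h4, ENNReal.ofReal_div_of_pos hd0]
  refine lt_of_le_of_lt h1 ?_
  rw [ENNReal.lt_div_iff_mul_lt (Or.inl (ENNReal.ofReal_pos.mpr hd0).ne')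
    (Or.inl ENNReal.ofReal_ne_top), mul_comm]
  exact h3

/-- Assembly for root number `-1`. -/
theorem assembly_neg {rs : ℕ → ℝ} {N κ s : ℝ} (hN : 2 ≤ N) (hκ : 0 < κ) (hrs0 : rs 0 = 0)
    (hs1 : s < 1) (hs : (1 - s) * N ≤ 6 / π ^ 2 * (2 * log N - 1 / 8))
    (hid : PsiI rs N 1 = ENNReal.ofReal κ) :
    ∫⁻ u in Ioi (1 : ℝ), PsiI rs N u * ENNReal.ofReal (u ^ (s - 1) - u ^ (-s)) <
      ENNReal.ofReal (κ * (1 / (1 - s) - 1 / s)) := by
  have hN0 : 0 < N := by linarith
  have hδ0 : 0 < 1 - s := by linarith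
  have hδ1 := delta_le hN0 hs
  have hshalf : 1 / 2 < s := by norm_num at hδ1 ⊢; linarith
  have hs0 : 0 < s := by linarith
  set d := (1 - s) * (1 - (1 - s)) with hd
  have hd0 : 0 < d := by rw [hd]; apply mul_pos hδ0; linarith
  set T := ∑' m : ℕ, ENNReal.ofReal (rs m) * JK ((m : ℝ) / N) with hT
  have h1 : ∫⁻ u in Ioi (1 : ℝ), PsiI rs N u * ENNReal.ofReal (u ^ (s - 1) - u ^ (-s)) ≤
      ENNReal.ofReal (2 * s - 1) * T := by
    have h2 : ∫⁻ u in Ioi (1 : ℝ), PsiI rs N u * ENNReal.ofReal (u ^ (s - 1) - u ^ (-s)) ≤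
        ∫⁻ u in Ioi (1 : ℝ), ENNReal.ofReal (2 * s - 1) * ∑' m : ℕ, ENNReal.ofReal (rs m) *
          (OmI ((m : ℝ) / N * u) * ENNReal.ofReal (1 - 1 / u)) := by
      refine setLIntegral_mono' measurableSet_Ioi fun u hu => ?_
      have hu1 : 1 < u := hu
      have h3 := rpow_sub_le hshalf hs1 hu1.le
      calc PsiI rs N u * ENNReal.ofReal (u ^ (s - 1) - u ^ (-s))
          ≤ PsiI rs N u * ENNReal.ofReal ((2 * s - 1) * (1 - 1 / u)) := by gcongr
        _ = ENNReal.ofReal (2 * s - 1) * (PsiI rs N u * ENNReal.ofReal (1 - 1 / u)) := by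
            rw [ENNReal.ofReal_mul (by linarith : 0 ≤ 2 * s - 1)]; ring
        _ = _ := by
            simp_rw [← mul_assoc]
            rw [ENNReal.tsum_mul_right]
            unfold PsiI
            ring
    refine h2.trans ?_
    rw [lintegral_const_mul' _ _ ENNReal.ofReal_ne_top]
    gcongr
    rw [lintegral_tsum (fun m => ((measurable_OmI_term _
      (by fun_prop : Measurable fun u : ℝ => 1 - 1 / u)).const_mul _).aemeasurable)]
    rw [hT]
    refine ENNReal.tsum_le_tsum fun m => ?_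
    rw [lintegral_const_mul' _ _ ENNReal.ofReal_ne_top]
    rcases Nat.eq_zero_or_pos m with hm | hm
    · subst hm; rw [hrs0]; simp
    · have hy : 0 < (m : ℝ) / N := by
        have : (0 : ℝ) < m := Nat.cast_pos.mpr hm
        positivity
      rw [lintegral_OmI_JK _ hy]
  have h3 : ENNReal.ofReal d * T ≤ ENNReal.ofReal (0.99 * κ) := by
    have e0 : ENNReal.ofReal (0.99 * κ) = ENNReal.ofReal 0.99 * ENNReal.ofReal κ :=
      ENNReal.ofReal_mul (by norm_num)
    rw [e0, ← hid]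
    unfold PsiI
    rw [hT, ← ENNReal.tsum_mul_left, ← ENNReal.tsum_mul_left]
    refine ENNReal.tsum_le_tsum fun m => ?_
    rcases Nat.eq_zero_or_pos m with hm | hm
    · subst hm; rw [hrs0]; simp
    · have hy : 1 / N ≤ (m : ℝ) / N := one_le_rs_aux hm hN0
      have := key_neg_int hN hδ0 hs hy
      rw [mul_one]
      calc ENNReal.ofReal d * (ENNReal.ofReal (rs m) * JK ((m : ℝ) / N))
          = ENNReal.ofReal (rs m) * (ENNReal.ofReal d * JK ((m : ℝ) / N)) := by ring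
        _ ≤ ENNReal.ofReal (rs m) * (ENNReal.ofReal 0.99 * OmI ((m : ℝ) / N)) := by gcongr
        _ = _ := by ring
  have h4 : κ * (1 / (1 - s) - 1 / s) = (2 * s - 1) * κ / d := by
    have h5 : (1 - s) ≠ 0 := hδ0.ne'
    have h6 : s ≠ 0 := hs0.ne'
    rw [hd]
    have h7 : 1 - (1 - s) = s := by ring
    rw [h7]
    field_simp
    ring
  rw [h4, ENNReal.ofReal_div_of_pos hd0]
  refine lt_of_le_of_lt h1 ?_
  rw [ENNReal.lt_div_iff_mul_lt (Or.inl (ENNReal.ofReal_pos.mpr hd0).ne')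
    (Or.inl ENNReal.ofReal_ne_top)]
  calc ENNReal.ofReal (2 * s - 1) * T * ENNReal.ofReal d
      = ENNReal.ofReal (2 * s - 1) * (ENNReal.ofReal d * T) := by ring
    _ ≤ ENNReal.ofReal (2 * s - 1) * ENNReal.ofReal (0.99 * κ) := by gcongr
    _ = ENNReal.ofReal ((2 * s - 1) * (0.99 * κ)) := by
        rw [← ENNReal.ofReal_mul (by linarith : 0 ≤ 2 * s - 1)]
    _ < ENNReal.ofReal ((2 * s - 1) * κ) := by
        have h2s : 0 < 2 * s - 1 := by linarith
        apply (ENNReal.ofReal_lt_ofReal_iff (by positivity)).mpr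
        nlinarith only [hκ, hs1, hδ1]

end Pool.Agent.MP0016c7
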