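import Mathlib
import Pool.Agent.Lib.MP_0016c7_nt.Arith
import Pool.Agent.Lib.MP_0016c7_nt.EvenAssembly

open Real Set MeasureTheory Filter Topology
open scoped ENNReal ArithmeticFunction

namespace Pool.Agent.MP0016c7

lemma tsum_dirichlet_mul {f g : ArithmeticFunction ℝ} (hf : ∀ n, 0 ≤ f n) (hg : ∀ n, 0 ≤ g n)
    (F : ℕ → ℝ≥0∞) :
    ∑' n : ℕ, ENNReal.ofReal ((f * g) n) * F n =
      ∑' b : ℕ, ENNReal.ofReal (g b) * ∑' a : ℕ, ENNReal.ofReal (f a) * F (a * b) := by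
  have h1 : ∑' b : ℕ, ENNReal.ofReal (g b) * ∑' a : ℕ, ENNReal.ofReal (f a) * F (a * b) =
      ∑' p : ℕ × ℕ, ENNReal.ofReal (f p.1) * ENNReal.ofReal (g p.2) * F (p.1 * p.2) := by
    rw [ENNReal.tsum_prod', ENNReal.tsum_comm]
    refine tsum_congr fun b => ?_
    rw [← ENNReal.tsum_mul_left]
    refine tsum_congr fun a => ?_
    ring
  rw [h1, ← (Equiv.sigmaFiberEquiv (fun p : ℕ × ℕ => p.1 * p.2)).tsum_eq, ENNReal.tsum_sigma']
  refine tsum_congr fun n => ?_
  have h2 : ∀ x : {p : ℕ × ℕ // p.1 * p.2 = n},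
      (Equiv.sigmaFiberEquiv (fun p : ℕ × ℕ => p.1 * p.2)) ⟨n, x⟩ = x.1 := fun x => rfl
  simp_rw [h2]
  rcases Nat.eq_zero_or_pos n with hn | hn
  · subst hn
    simp only [ArithmeticFunction.map_zero, ENNReal.ofReal_zero, zero_mul]
    symm
    rw [ENNReal.tsum_eq_zero]
    rintro ⟨⟨a, b⟩, hab⟩
    simp only at hab ⊢
    rcases Nat.mul_eq_zero.mp hab with h | h
    · rw [h]; simp
    · rw [h]; simp
  · rw [ArithmeticFunction.mul_apply, ENNReal.ofReal_sum_of_nonneg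
      (fun x _ => mul_nonneg (hf _) (hg _)), Finset.sum_mul]
    have h3 : ∑' x : {p : ℕ × ℕ // p.1 * p.2 = n},
        ENNReal.ofReal (f x.1.1) * ENNReal.ofReal (g x.1.2) * F (x.1.1 * x.1.2) =
        ∑' x : ((n.divisorsAntidiagonal : Finset (ℕ × ℕ)) : Set (ℕ × ℕ)),
        ENNReal.ofReal (f x.1.1) * ENNReal.ofReal (g x.1.2) * F (x.1.1 * x.1.2) := by
      have hset : {p : ℕ × ℕ | p.1 * p.2 = n} =
          ((n.divisorsAntidiagonal : Finset (ℕ × ℕ)) : Set (ℕ × ℕ)) := by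
        ext p
        simp [Nat.mem_divisorsAntidiagonal, hn.ne']
      exact tsum_congr_set_coe (fun p : ℕ × ℕ =>
        ENNReal.ofReal (f p.1) * ENNReal.ofReal (g p.2) * F (p.1 * p.2)) hset
    rw [h3, Finset.tsum_subtype' n.divisorsAntidiagonal (fun p : ℕ × ℕ =>
        ENNReal.ofReal (f p.1) * ENNReal.ofReal (g p.2) * F (p.1 * p.2))]
    refine Finset.sum_congr rfl fun x hx => ?_
    rw [(Nat.mem_divisorsAntidiagonal.mp hx).1, ENNReal.ofReal_mul (hf _)]

lemma tsum_sqInd (F : ℕ → ℝ≥0∞) :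
    ∑' a : ℕ, ENNReal.ofReal (sqInd a) * F a = ∑' k : ℕ, F ((k + 1) ^ 2) := by
  have hinj : Function.Injective (fun k : ℕ => (k + 1) ^ 2) := by
    intro a b hab
    have h := Nat.pow_left_injective (n := 2) (by norm_num) hab
    simpa using h
  rw [← hinj.tsum_eq (f := fun a : ℕ => ENNReal.ofReal (sqInd a) * F a)]
  · refine tsum_congr fun k => ?_
    have : sqInd ((k + 1) ^ 2) = 1 := by
      rw [sqInd_apply, if_pos]
      exact ⟨by positivity, ⟨k + 1, by ring⟩⟩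
    simp only [this, ENNReal.ofReal_one, one_mul]
  · intro a ha
    rw [Function.mem_support] at ha
    have h1 : sqInd a ≠ 0 := by
      intro h; apply ha; rw [h]; simp
    rw [sqInd_apply] at h1
    have h2 : a ≠ 0 ∧ IsSquare a := by
      by_contra h
      rw [if_neg h] at h1
      exact h1 rfl
    obtain ⟨b, hb⟩ := h2.2
    have hb0 : 0 < b := by
      rcases Nat.eq_zero_or_pos b with h | h
      · subst h; exact absurd hb (by simpa using h2.1)
      · exact h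
    refine ⟨b - 1, ?_⟩
    simp only
    rw [Nat.sub_add_cancel hb0, hb]
    ring

/-- `Bk v = ∫_0^∞ exp(-π v 2 cosh r) dr` -/
noncomputable def Bk (v : ℝ) : ℝ≥0∞ :=
  ∫⁻ r in Ioi (0 : ℝ), ENNReal.ofReal (rexp (-(π * v * (2 * cosh r))))

lemma OmI_eq_tsum {y : ℝ} (hy : 0 < y) : OmI y = ∑' k : ℕ, Bk (((k : ℝ) + 1) ^ 2 * y) := by
  unfold OmI Bk
  rw [← lintegral_tsum (fun k => by fun_prop)]
  refine lintegral_congr fun r => ?_
  have hz : 0 < y * (2 * cosh r) := by have := cosh_pos r; positivity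
  unfold om1
  rw [ENNReal.ofReal_tsum_of_nonneg (fun _ => (exp_pos _).le) (summable_om1 hz)]
  refine tsum_congr fun k => ?_
  congr 2
  unfold ak
  ring

lemma sqInd_nonneg (n : ℕ) : 0 ≤ sqInd n := by
  rw [sqInd_apply]; split_ifs <;> norm_num

/-- The series of the machine in terms of `PsiI`. -/
lemma PsiI_rstar {q : ℕ} {χ : DirichletCharacter ℂ q} (hχ : χ ^ 2 = 1) {N u : ℝ} (hN : 0 < N)
    (hu : 0 < u) :
    PsiI (rstar χ) N u = ∑' n : ℕ, ENNReal.ofReal (coeff1 χ n) * Bk ((n : ℝ) / N * u) := by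
  rw [coeff1_eq_sqInd_mul_rstar, tsum_dirichlet_mul sqInd_nonneg (rstar_nonneg hχ)]
  unfold PsiI
  refine tsum_congr fun m => ?_
  rcases Nat.eq_zero_or_pos m with hm | hm
  · subst hm; simp
  · congr 1
    have hy : 0 < (m : ℝ) / N * u := by
      have : (0 : ℝ) < m := Nat.cast_pos.mpr hm
      positivity
    rw [OmI_eq_tsum hy]
    have := tsum_sqInd (fun a => Bk (((a * m : ℕ) : ℝ) / N * u))
    rw [this]
    refine tsum_congr fun k => ?_
    congr 1
    push_cast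
    ring

end Pool.Agent.MP0016c7
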