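import Mathlib

open Real Set MeasureTheory Filter Topology

namespace Pool.Agent.MP0016c7

/-- decay hypotheses on the kernel `T` -/
structure KernelHyp (T : ℝ → ℝ) : Prop where
  cont : Continuous T
  pos : ∀ t, 0 < T t
  low : ∀ b r, 0 ≤ r → T b * exp (-r / 2) ≤ T (b - r)
  upp : ∀ b r, 0 ≤ b → 0 ≤ r → T (b + r) ≤ T b * exp (-(2 * π - 1) * r)

lemma two_pi_gt : 6.28 < 2 * π := by
  have := Real.pi_gt_d2
  linarith only [this]

lemma KernelHyp.integrableOn {T : ℝ → ℝ} (hT : KernelHyp T) {b L0 c : ℝ} (hb : 0 ≤ b)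
    (hc : c < 2 * π - 1) :
    IntegrableOn (fun t => T (t + b - L0) * exp (c * t)) (Ioi 0) := by
  have hcont : Continuous (fun t => T (t + b - L0) * exp (c * t)) :=
    (hT.cont.comp (by fun_prop)).mul (by fun_prop)
  have hsplit : Ioi (0 : ℝ) ⊆ Icc 0 L0 ∪ Ioi L0 := by
    intro t ht
    by_cases h : t ≤ L0
    · left; exact ⟨le_of_lt ht, h⟩
    · right; exact lt_of_not_ge h
  refine IntegrableOn.mono_set ?_ hsplit
  refine IntegrableOn.union (hcont.continuousOn.integrableOn_compact isCompact_Icc) ?_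
  have hdom : IntegrableOn (fun t => (T b * exp ((2 * π - 1) * L0)) * exp ((c - (2 * π - 1)) * t))
      (Ioi L0) := by
    exact (integrableOn_exp_mul_Ioi (by linarith) L0).const_mul _
  refine Integrable.mono' hdom hcont.aestronglyMeasurable ?_
  rw [ae_restrict_iff' measurableSet_Ioi]
  refine Filter.Eventually.of_forall fun t ht => ?_
  have ht' : 0 ≤ t - L0 := by
    have : L0 < t := ht
    linarith
  have h1 := hT.upp b (t - L0) hb ht'
  have h2 : T (t + b - L0) = T (b + (t - L0)) := by ring_nf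
  rw [Real.norm_of_nonneg (mul_nonneg (hT.pos _).le (exp_pos _).le), h2]
  calc T (b + (t - L0)) * exp (c * t) ≤ (T b * exp (-(2 * π - 1) * (t - L0))) * exp (c * t) :=
        mul_le_mul_of_nonneg_right h1 (exp_pos _).le
    _ = (T b * exp ((2 * π - 1) * L0)) * exp ((c - (2 * π - 1)) * t) := by
        rw [mul_assoc, mul_assoc, ← Real.exp_add, ← Real.exp_add]; congr 2; ring

/-- concavity: `1 - exp(-y ρ) ≥ ρ (1 - exp(-y))` for `0 ≤ ρ ≤ 1` -/
lemma one_sub_exp_ge {y ρ : ℝ} (h0 : 0 ≤ ρ) (h1 : ρ ≤ 1) :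
    ρ * (1 - exp (-y)) ≤ 1 - exp (-(y * ρ)) := by
  have h := convexOn_exp.2 (mem_univ (-y)) (mem_univ (0:ℝ)) h0 (by linarith : (0:ℝ) ≤ 1 - ρ)
    (by ring)
  simp only [smul_eq_mul, mul_zero, add_zero, exp_zero, mul_one] at h
  have h2 : ρ * -y = -(y * ρ) := by ring
  rw [h2] at h
  linarith

/-- concavity, other side: `1 - exp(-y ρ) ≤ ρ (1 - exp(-y))` for `ρ ≥ 1` -/
lemma one_sub_exp_le {y ρ : ℝ} (h1 : 1 ≤ ρ) :
    1 - exp (-(y * ρ)) ≤ ρ * (1 - exp (-y)) := by
  have hρ : 0 < ρ := by linarith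
  have h := one_sub_exp_ge (y := y * ρ) (ρ := 1 / ρ) (by positivity)
    (by rw [div_le_one hρ]; exact h1)
  have h2 : y * ρ * (1 / ρ) = y := by field_simp
  rw [h2] at h
  have h3 : 1 - exp (-(y * ρ)) = ρ * (1 / ρ * (1 - exp (-(y * ρ)))) := by field_simp
  rw [h3]
  exact mul_le_mul_of_nonneg_left h hρ.le

/-- the weight `C(t) = e^{zt} + W e^{-zt}` -/
noncomputable def Cw (W z t : ℝ) : ℝ := exp (z * t) + W * exp (-(z * t))

lemma Cw_one_pos (z t : ℝ) : 0 < Cw 1 z t := by unfold Cw; positivity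

lemma Cw_neg_one_eq (z t : ℝ) : Cw (-1) z t = exp (z * t) * (1 - exp (-(2 * z * t))) := by
  unfold Cw
  rw [mul_sub, ← Real.exp_add]
  ring_nf

lemma Cw_neg_one_pos {z t : ℝ} (hz : 0 < z) (ht : 0 < t) : 0 < Cw (-1) z t := by
  rw [Cw_neg_one_eq]
  have : exp (-(2 * z * t)) < 1 := by
    rw [Real.exp_lt_one_iff]
    have : 0 < 2 * z * t := by positivity
    linarith
  have h2 : 0 < 1 - exp (-(2 * z * t)) := by linarith
  positivity

lemma Cw_pos {W z t : ℝ} (hW : W = 1 ∨ W = -1) (hz : 0 < z) (ht : 0 < t) : 0 < Cw W z t := by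
  rcases hW with rfl | rfl
  · exact Cw_one_pos _ _
  · exact Cw_neg_one_pos hz ht

lemma Cw_one_upper {z L r : ℝ} (hz : 0 ≤ z) (hr : 0 ≤ r) :
    Cw 1 z (L + r) ≤ Cw 1 z L * exp (z * r) := by
  unfold Cw
  have h1 : exp (z * (L + r)) = exp (z * L) * exp (z * r) := by
    rw [← Real.exp_add]; ring_nf
  have h2 : exp (-(z * (L + r))) ≤ exp (-(z * L)) * exp (z * r) := by
    rw [← Real.exp_add]
    apply Real.exp_le_exp.mpr
    nlinarith only [hz, hr, mul_nonneg hz hr]
  rw [h1]; linarith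

lemma Cw_one_lower {z L r : ℝ} (hz : 0 ≤ z) (hr : 0 ≤ r) :
    Cw 1 z L * exp (-(z * r)) ≤ Cw 1 z (L - r) := by
  unfold Cw
  have h1 : exp (z * (L - r)) = exp (z * L) * exp (-(z * r)) := by
    rw [← Real.exp_add]; ring_nf
  have h2 : exp (-(z * L)) * exp (-(z * r)) ≤ exp (-(z * (L - r))) := by
    rw [← Real.exp_add]
    apply Real.exp_le_exp.mpr
    nlinarith only [hz, hr, mul_nonneg hz hr]
  rw [h1]; linarith

lemma Cw_neg_upper {z L r : ℝ} (hz : 0 < z) (hL : 0 < L) (hr : 0 ≤ r) :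
    Cw (-1) z (L + r) ≤ Cw (-1) z L * (exp (z * r) * (1 + r / L)) := by
  rw [Cw_neg_one_eq, Cw_neg_one_eq]
  have h := one_sub_exp_le (y := 2 * z * L) (ρ := 1 + r / L) (by
    have : 0 ≤ r / L := by positivity
    linarith)
  have h2 : 2 * z * L * (1 + r / L) = 2 * z * (L + r) := by field_simp
  rw [h2] at h
  have h1 : exp (z * (L + r)) = exp (z * L) * exp (z * r) := by
    rw [← Real.exp_add]; ring_nf
  rw [h1]
  have h3 : 0 ≤ exp (z * L) * exp (z * r) := by positivity
  calc exp (z * L) * exp (z * r) * (1 - exp (-(2 * z * (L + r))))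
      ≤ exp (z * L) * exp (z * r) * ((1 + r / L) * (1 - exp (-(2 * z * L)))) :=
        mul_le_mul_of_nonneg_left h h3
    _ = _ := by ring

lemma Cw_neg_lower {z L r : ℝ} (hL : 0 < L) (hr : 0 ≤ r) (hrL : r ≤ L) :
    Cw (-1) z L * (exp (-(z * r)) * (1 - r / L)) ≤ Cw (-1) z (L - r) := by
  rw [Cw_neg_one_eq, Cw_neg_one_eq]
  have h := one_sub_exp_ge (y := 2 * z * L) (ρ := 1 - r / L) (by
    have : r / L ≤ 1 := by rw [div_le_one hL]; exact hrL
    linarith) (by
    have : 0 ≤ r / L := by positivity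
    linarith)
  have h2 : 2 * z * L * (1 - r / L) = 2 * z * (L - r) := by field_simp
  rw [h2] at h
  have h1 : exp (z * (L - r)) = exp (z * L) * exp (-(z * r)) := by
    rw [← Real.exp_add]; ring_nf
  rw [h1]
  have h3 : 0 ≤ exp (z * L) * exp (-(z * r)) := by positivity
  calc exp (z * L) * (1 - exp (-(2 * z * L))) * (exp (-(z * r)) * (1 - r / L))
      = exp (z * L) * exp (-(z * r)) * ((1 - r / L) * (1 - exp (-(2 * z * L)))) := by ring
    _ ≤ _ := mul_le_mul_of_nonneg_left h h3

/-- uniform upper bound: factor `(1 + m r)` with `m = 0` if `W = 1` and `m = 1/L` if `W = -1` -/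
noncomputable def mW (W L : ℝ) : ℝ := if W = 1 then 0 else 1 / L

lemma mW_one (L : ℝ) : mW 1 L = 0 := by simp [mW]
lemma mW_neg_one (L : ℝ) : mW (-1) L = 1 / L := by
  unfold mW; rw [if_neg]; norm_num

lemma Cw_upper {W z L r : ℝ} (hW : W = 1 ∨ W = -1) (hz : 0 < z) (hL : 0 < L) (hr : 0 ≤ r) :
    Cw W z (L + r) ≤ Cw W z L * (exp (z * r) * (1 + mW W L * r)) := by
  rcases hW with rfl | rfl
  · rw [mW_one]; simpa using Cw_one_upper hz.le hr
  · rw [mW_neg_one, show 1 / L * r = r / L by ring]; exact Cw_neg_upper hz hL hr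

lemma Cw_lower {W z L r : ℝ} (hW : W = 1 ∨ W = -1) (hz : 0 < z) (hL : 0 < L) (hr : 0 ≤ r)
    (hrL : r ≤ L) :
    Cw W z L * (exp (-(z * r)) * (1 - mW W L * r)) ≤ Cw W z (L - r) := by
  rcases hW with rfl | rfl
  · rw [mW_one]; simpa using Cw_one_lower hz.le hr
  · rw [mW_neg_one, show 1 / L * r = r / L by ring]; exact Cw_neg_lower hL hr hrL


/-- integral of the positive majorant -/
lemma integral_pos_part {p m L : ℝ} (hp : 0 < p) (hm : 0 ≤ m) :
    IntegrableOn (fun t => (t - L) * (1 + m * (t - L)) * exp (-p * (t - L))) (Ioi L) ∧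
    ∫ t in Ioi L, (t - L) * (1 + m * (t - L)) * exp (-p * (t - L)) = 1 / p ^ 2 + 2 * m / p ^ 3 := by
  set a := m / p with ha
  set b := (1 + 2 * a) / p with hb
  set c := b / p with hc
  have hpa : p * a = m := by rw [ha]; field_simp
  have hpb : p * b = 1 + 2 * a := by rw [hb]; field_simp
  have hpc : p * c = b := by rw [hc]; field_simp
  let G : ℝ → ℝ := fun t => -((a * (t - L) ^ 2 + b * (t - L) + c) * exp (-p * (t - L)))
  have hder : ∀ t ∈ Ici L, HasDerivAt G ((t - L) * (1 + m * (t - L)) * exp (-p * (t - L))) t := by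
    intro t _
    have h1 : HasDerivAt (fun t : ℝ => t - L) 1 t := by simpa using (hasDerivAt_id t).sub_const L
    have h2 : HasDerivAt (fun t : ℝ => exp (-p * (t - L))) (exp (-p * (t - L)) * (-p * 1)) t :=
      (h1.const_mul (-p)).exp
    have h3 : HasDerivAt (fun t : ℝ => a * (t - L) ^ 2 + b * (t - L) + c)
        (a * (((2 : ℕ) : ℝ) * (t - L) ^ (2 - 1) * 1) + b * 1) t :=
      (((h1.pow 2).const_mul a).add (h1.const_mul b)).add_const c
    have h4 := (h3.mul h2).neg
    refine h4.congr_deriv ?_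
    have e1 : m = p * a := hpa.symm
    have e2 : (1 : ℝ) = p * b - 2 * a := by rw [hpb]; ring
    have e3 : b = p * c := hpc.symm
    simp only [Nat.cast_ofNat]
    have : (t - L) * (1 + m * (t - L)) = (t - L) * ((p * b - 2 * a) + p * a * (t - L)) := by
      rw [← e2, ← e1]
    rw [this]
    have e4 : b * 1 = p * c := by rw [mul_one, e3]
    rw [e4]
    ring
  have hlim : Tendsto G atTop (𝓝 0) := by
    have h1 : Tendsto (fun t : ℝ => t - L) atTop atTop := tendsto_atTop_add_const_right _ _ tendsto_id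
    have hk : ∀ n : ℕ, Tendsto (fun x : ℝ => x ^ n * exp (-p * x)) atTop (𝓝 0) := by
      intro n
      have := Real.tendsto_pow_mul_exp_neg_atTop_nhds_zero n
      have h2 : Tendsto (fun x : ℝ => (p * x) ^ n * exp (-(p * x))) atTop (𝓝 0) :=
        this.comp (tendsto_id.const_mul_atTop hp)
      have h3 : (fun x : ℝ => x ^ n * exp (-p * x)) =
          fun x => (1 / p) ^ n * ((p * x) ^ n * exp (-(p * x))) := by
        ext x
        rw [mul_pow, ← mul_assoc, ← mul_assoc, ← mul_pow]
        have : 1 / p * p = 1 := by field_simp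
        rw [this, one_pow, one_mul]; ring_nf
      rw [h3]
      simpa using h2.const_mul ((1 / p) ^ n)
    have h4 : Tendsto (fun x : ℝ => -(a * (x ^ 2 * exp (-p * x)) + b * (x ^ 1 * exp (-p * x))
        + c * (x ^ 0 * exp (-p * x)))) atTop (𝓝 (-(a * 0 + b * 0 + c * 0))) :=
      ((((hk 2).const_mul a).add ((hk 1).const_mul b)).add ((hk 0).const_mul c)).neg
    have h5 := h4.comp h1
    simp only [mul_zero, add_zero, neg_zero] at h5
    refine h5.congr fun t => ?_
    simp only [Function.comp, G]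
    ring
  have hnn : ∀ t ∈ Ioi L, 0 ≤ (t - L) * (1 + m * (t - L)) * exp (-p * (t - L)) := by
    intro t ht
    have : 0 < t - L := by have : L < t := ht; linarith
    (clear * - this hm; positivity)
  refine ⟨integrableOn_Ioi_deriv_of_nonneg' hder hnn hlim, ?_⟩
  rw [integral_Ioi_of_hasDerivAt_of_nonneg' hder hnn hlim]
  simp only [G, sub_self, mul_zero, exp_zero]
  rw [hc, hb, ha]
  field_simp
  ring

/-- integral of the negative minorant -/
lemma integral_neg_part {L ℓ m : ℝ} :
    ∫ t in (L - ℓ)..L, (L - t) * (1 - m * (L - t)) * exp (-(L - t)) =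
      (1 - 2 * m) + exp (-ℓ) * (m * ℓ ^ 2 - (1 - 2 * m) * ℓ - (1 - 2 * m)) := by
  let M : ℝ → ℝ := fun t =>
    ((-m) * (L - t) ^ 2 + (1 - 2 * m) * (L - t) + (1 - 2 * m)) * exp (-(L - t))
  have hder : ∀ t ∈ uIcc (L - ℓ) L,
      HasDerivAt M ((L - t) * (1 - m * (L - t)) * exp (-(L - t))) t := by
    intro t _
    have h1 : HasDerivAt (fun t : ℝ => L - t) (-1) t := by simpa using (hasDerivAt_id t).const_sub L
    have h2 : HasDerivAt (fun t : ℝ => exp (-(L - t))) (exp (-(L - t)) * (-(-1))) t := (h1.neg).exp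
    have h3 : HasDerivAt (fun t : ℝ => (-m) * (L - t) ^ 2 + (1 - 2 * m) * (L - t) + (1 - 2 * m))
        ((-m) * (((2 : ℕ) : ℝ) * (L - t) ^ (2 - 1) * (-1)) + (1 - 2 * m) * (-1)) t :=
      (((h1.pow 2).const_mul (-m)).add (h1.const_mul (1 - 2 * m))).add_const _
    refine (h3.mul h2).congr_deriv ?_
    simp only [Nat.cast_ofNat]
    ring
  rw [intervalIntegral.integral_eq_sub_of_hasDerivAt hder]
  · simp only [M, sub_self, neg_zero, exp_zero]
    have : L - (L - ℓ) = ℓ := by ring
    rw [this]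
    ring
  · apply Continuous.intervalIntegrable
    fun_prop

lemma sqrt5_bounds : 2.236 < √5 ∧ √5 < 2.237 := by
  constructor
  · rw [show (2.236:ℝ) = √(2.236^2) by rw [Real.sqrt_sq]; norm_num]
    exact Real.sqrt_lt_sqrt (by norm_num) (by norm_num)
  · rw [show (2.237:ℝ) = √(2.237^2) by rw [Real.sqrt_sq]; norm_num]
    exact Real.sqrt_lt_sqrt (by norm_num) (by norm_num)

lemma sqrt3_bounds : 1.732 < √3 ∧ √3 < 1.7321 := by
  constructor
  · rw [show (1.732:ℝ) = √(1.732^2) by rw [Real.sqrt_sq]; norm_num]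
    exact Real.sqrt_lt_sqrt (by norm_num) (by norm_num)
  · rw [show (1.7321:ℝ) = √(1.7321^2) by rw [Real.sqrt_sq]; norm_num]
    exact Real.sqrt_lt_sqrt (by norm_num) (by norm_num)

lemma log5_gt : 1.609 < log 5 := by
  have h : log ((2:ℝ) ^ 65) < log ((5:ℝ) ^ 28) := Real.log_lt_log (by positivity) (by norm_num)
  rw [Real.log_pow, Real.log_pow] at h
  have h2 := Real.log_two_gt_d9
  push_cast at h
  linarith only [h, h2]

lemma log3_lt : log 3 < 1.1091 := by
  have h : log ((3:ℝ) ^ 5) < log ((2:ℝ) ^ 8) := Real.log_lt_log (by positivity) (by norm_num)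
  rw [Real.log_pow, Real.log_pow] at h
  have h2 := Real.log_two_lt_d9
  push_cast at h
  linarith

lemma log3_gt : 1.09 < log 3 := by
  have h : log ((2:ℝ) ^ 19) < log ((3:ℝ) ^ 12) := Real.log_lt_log (by positivity) (by norm_num)
  rw [Real.log_pow, Real.log_pow] at h
  have h2 := Real.log_two_gt_d9
  push_cast at h
  linarith only [h, h2]

lemma exp_neg_half_log {x : ℝ} (hx : 0 < x) : exp (-(log x / 2)) = 1 / √x := by
  rw [Real.exp_neg, one_div]
  congr 1
  rw [Real.exp_half, Real.exp_log hx]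

/-- the threshold and slope used in the negative part -/
noncomputable def ellW (W : ℝ) : ℝ := if W = 1 then log 3 / 2 else log 5 / 2

lemma ellW_one : ellW 1 = log 3 / 2 := by simp [ellW]
lemma ellW_neg_one : ellW (-1) = log 5 / 2 := by
  unfold ellW; rw [if_neg]; norm_num

lemma ellW_pos {W : ℝ} (hW : W = 1 ∨ W = -1) : 0 < ellW W := by
  rcases hW with rfl | rfl
  · rw [ellW_one]; have := log3_gt; linarith only [this]
  · rw [ellW_neg_one]; have := log5_gt; linarith

lemma numeric_key {W : ℝ} (hW : W = 1 ∨ W = -1) :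
    1 / (2 * π - 3 / 2) ^ 2 + 2 * mW W (ellW W) / (2 * π - 3 / 2) ^ 3 <
      (1 - 2 * mW W (ellW W)) + exp (-ellW W) *
        (mW W (ellW W) * ellW W ^ 2 - (1 - 2 * mW W (ellW W)) * ellW W
          - (1 - 2 * mW W (ellW W))) := by
  have hp : 4.78 < 2 * π - 3 / 2 := by have := two_pi_gt; linarith only [this]
  have hp0 : 0 < 2 * π - 3 / 2 := by linarith only [hp]
  have h1 : 1 / (2 * π - 3 / 2) ^ 2 < 1 / 4.78 ^ 2 :=
    one_div_lt_one_div_of_lt (by norm_num) (by gcongr)
  have h2 : 1 / (2 * π - 3 / 2) ^ 3 < 1 / 4.78 ^ 3 :=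
    one_div_lt_one_div_of_lt (by norm_num) (by (clear * - hp; gcongr))
  rcases hW with rfl | rfl
  · rw [ellW_one, mW_one, exp_neg_half_log (by norm_num)]
    have h3 := log3_lt
    have h4 := sqrt3_bounds
    have h5 : 1 / √3 < 1 / 1.732 := one_div_lt_one_div_of_lt (by norm_num) h4.1
    have h6 : 1 / √3 * (1 + log 3 / 2) < 1 / 1.732 * (1 + 1.1091 / 2) := by
      apply mul_lt_mul'' h5 (by linarith only [h3]) (by positivity)
      have := log3_gt
      linarith only [h4, this]
    have h7 : (1 - 2 * 0) + 1 / √3 * (0 * (log 3 / 2) ^ 2 - (1 - 2 * 0) * (log 3 / 2) - (1 - 2 * 0))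
        = 1 - 1 / √3 * (1 + log 3 / 2) := by ring
    rw [h7]
    have h8 : (1:ℝ) / 4.78 ^ 2 + 2 * 0 / (2 * π - 3 / 2) ^ 3 < 1 - 1 / 1.732 * (1 + 1.1091 / 2) := by
      norm_num
    linarith only [h1, h6, h8]
  · rw [ellW_neg_one, mW_neg_one, exp_neg_half_log (by norm_num)]
    have h3 := log5_gt
    have h4 := sqrt5_bounds
    set x := log 5 / 2 with hx
    have hx1 : 0.8045 < x := by rw [hx]; linarith only [h3]
    have hx0 : 0 < x := by linarith only [h3, h4, hx]
    have hm : 1 / x < 1 / 0.8045 := one_div_lt_one_div_of_lt (by norm_num) hx1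
    set m := 1 / x with hm'
    have hm0 : 0 < m := by rw [hm']; positivity
    have hmx : m * x = 1 := by rw [hm']; field_simp
    have e1 : m * x ^ 2 - (1 - 2 * m) * x - (1 - 2 * m) = 1 + 2 * m := by
      have : m * x ^ 2 = x := by rw [sq, ← mul_assoc, hmx, one_mul]
      rw [this]
      have : (1 - 2 * m) * x = x - 2 := by rw [sub_mul, one_mul, mul_assoc, hmx]; ring
      rw [this]; ring
    rw [e1]
    have h5 : 1 / 2.237 < 1 / √5 := one_div_lt_one_div_of_lt (by positivity) h4.2
    have h6 : 1 / 2.237 * (1 + 2 * m) < 1 / √5 * (1 + 2 * m) := by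
      apply mul_lt_mul_of_pos_right h5; positivity
    have h7 : 2 * m / (2 * π - 3 / 2) ^ 3 ≤ 2 * m * (1 / 4.78 ^ 3) := by
      rw [div_eq_mul_one_div]
      apply mul_le_mul_of_nonneg_left h2.le; positivity
    have h8 : (1:ℝ) / 4.78 ^ 2 + 2 * m * (1 / 4.78 ^ 3) <
        (1 - 2 * m) + 1 / 2.237 * (1 + 2 * m) := by
      have : m < 1 / 0.8045 := hm
      norm_num at this ⊢
      linarith only [h4, hm]
    linarith only [h1, h4, hm, h6, h7]


lemma mW_nonneg {W L : ℝ} (hL : 0 < L) : 0 ≤ mW W L := by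
  unfold mW; split_ifs
  · exact le_rfl
  · positivity

lemma mW_anti {W ℓ L : ℝ} (hℓ : 0 < ℓ) (h : ℓ ≤ L) : mW W L ≤ mW W ℓ := by
  unfold mW; split_ifs
  · exact le_rfl
  · exact one_div_le_one_div_of_le hℓ h

lemma mW_mul_le {W ℓ r : ℝ} (hℓ : 0 < ℓ) (h : r ≤ ℓ) : mW W ℓ * r ≤ 1 := by
  unfold mW; split_ifs
  · simp
  · rw [one_div, inv_mul_le_iff₀ hℓ]; simpa using h

/-- integrability of the weighted kernel -/
lemma KernelHyp.integrableOn_Cw {T : ℝ → ℝ} (hT : KernelHyp T) {b L0 z W : ℝ} (hb : 0 ≤ b)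
    (hz : 0 ≤ z) (hz2 : z < 1 / 2) :
    IntegrableOn (fun t => T (t + b - L0) * Cw W z t) (Ioi 0) := by
  have hπ := two_pi_gt
  have h1 := hT.integrableOn (b := b) (L0 := L0) (c := z) hb (by linarith only [hz2, hπ])
  have h2 := hT.integrableOn (b := b) (L0 := L0) (c := -z) hb (by linarith only [hz, hπ])
  have h3 := h1.add (h2.const_mul W)
  refine h3.congr_fun ?_ measurableSet_Ioi
  intro t _
  simp only [Pi.add_apply, Cw]
  ring_nf

lemma KernelHyp.integrableOn_Cw_exp {T : ℝ → ℝ} (hT : KernelHyp T) {b L0 z η W : ℝ} (hb : 0 ≤ b)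
    (hz : 0 < z) (hη : 0 < η) (hz2 : z + η < 1 / 2) :
    IntegrableOn (fun t => T (t + b - L0) * Cw W z t * exp (η * t)) (Ioi 0) := by
  have hπ := two_pi_gt
  have h1 := hT.integrableOn (b := b) (L0 := L0) (c := z + η) hb (by linarith)
  have h2 := hT.integrableOn (b := b) (L0 := L0) (c := η - z) hb (by linarith)
  have h3 := h1.add (h2.const_mul W)
  refine h3.congr_fun ?_ measurableSet_Ioi
  intro t _
  simp only [Pi.add_apply, Cw]
  have e1 : exp ((z + η) * t) = exp (z * t) * exp (η * t) := by rw [← Real.exp_add]; ring_nf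
  have e2 : exp ((η - z) * t) = exp (-(z * t)) * exp (η * t) := by rw [← Real.exp_add]; ring_nf
  rw [e1, e2]; ring

/-- TASK C, main claim. -/
theorem kernel_neg {T : ℝ → ℝ} (hT : KernelHyp T) {b L0 z η W : ℝ} (hb : 0 ≤ b)
    (hz : 0 < z) (hη : 0 < η) (hz2 : z + η < 1 / 2) (hW : W = 1 ∨ W = -1)
    (hL : ellW W ≤ L0) :
    ∫ t in Ioi 0, T (t + b - L0) * Cw W z t * (exp (η * t) - exp (η * L0)) < 0 := by
  set ℓ := ellW W with hℓ
  have hℓ0 : 0 < ℓ := ellW_pos hW
  have hL0 : 0 < L0 := lt_of_lt_of_le hℓ0 hL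
  set m := mW W ℓ with hm
  have hm0 : 0 ≤ m := mW_nonneg hℓ0
  have hmL : mW W L0 ≤ m := mW_anti hℓ0 hL
  have hπ := two_pi_gt
  set p := 2 * π - 3 / 2 with hp
  have hp0 : 0 < p := by rw [hp]; linarith only [hz, hη, hz2, hπ]
  set f : ℝ → ℝ := fun t => T (t + b - L0) * Cw W z t * (exp (η * t) - exp (η * L0)) with hf
  have hfint : IntegrableOn f (Ioi 0) := by
    have h1 := hT.integrableOn_Cw_exp (b := b) (L0 := L0) (W := W) hb hz hη hz2
    have h2 := hT.integrableOn_Cw (b := b) (L0 := L0) (z := z) (W := W) hb hz.le (by linarith only [hη, hz2])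
    have h3 := h1.sub (h2.mul_const (exp (η * L0)))
    refine h3.congr_fun ?_ measurableSet_Ioi
    intro t _
    simp only [Pi.sub_apply, hf]
    ring
  have hCL : 0 < Cw W z L0 := Cw_pos hW hz hL0
  set A := T b * Cw W z L0 * exp (η * L0) * η with hA
  have hA0 : 0 < A := by
    have := hT.pos b
    positivity
  -- (a)
  have ha : ∀ t ∈ Ioi L0, f t ≤ A * ((t - L0) * (1 + m * (t - L0)) * exp (-p * (t - L0))) := by
    intro t ht
    have hr : 0 < t - L0 := by have : L0 < t := ht; linarith only [this]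
    set r := t - L0 with hrdef
    have htr : t = L0 + r := by rw [hrdef]; ring
    have h1 : T (t + b - L0) ≤ T b * exp (-(2 * π - 1) * r) := by
      have := hT.upp b r hb hr.le
      have e : t + b - L0 = b + r := by rw [htr]; ring
      rw [e]; exact this
    have h2 : Cw W z t ≤ Cw W z L0 * (exp (z * r) * (1 + m * r)) := by
      rw [htr]
      refine (Cw_upper hW hz hL0 hr.le).trans ?_
      apply mul_le_mul_of_nonneg_left _ hCL.le
      apply mul_le_mul_of_nonneg_left _ (exp_pos _).le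
      have := mul_le_mul_of_nonneg_right hmL hr.le
      linarith only [this]
    have h3 : exp (η * t) - exp (η * L0) ≤ exp (η * L0) * (η * r * exp (η * r)) := by
      have e : exp (η * t) = exp (η * L0) * exp (η * r) := by
        rw [← Real.exp_add, htr]; ring_nf
      rw [e]
      have h4 : exp (η * r) - 1 ≤ η * r * exp (η * r) := by
        have h5 := Real.add_one_le_exp (-(η * r))
        have h6 := Real.exp_pos (η * r)
        have h7 : exp (η * r) * exp (-(η * r)) = 1 := by rw [← Real.exp_add]; simp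
        have h8 := mul_le_mul_of_nonneg_left h5 h6.le
        linarith
      have h8 := mul_le_mul_of_nonneg_left h4 (Real.exp_pos (η * L0)).le
      linarith
    have hCt : 0 < Cw W z t := Cw_pos hW hz (by linarith)
    have h4 : 0 ≤ exp (η * t) - exp (η * L0) := by
      have : exp (η * L0) ≤ exp (η * t) := Real.exp_le_exp.mpr (by
        apply mul_le_mul_of_nonneg_left _ hη.le; linarith)
      linarith
    calc f t = T (t + b - L0) * Cw W z t * (exp (η * t) - exp (η * L0)) := rfl
      _ ≤ (T b * exp (-(2 * π - 1) * r)) * (Cw W z L0 * (exp (z * r) * (1 + m * r))) *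
          (exp (η * L0) * (η * r * exp (η * r))) := by
          have hTb := (hT.pos b).le
          apply mul_le_mul (mul_le_mul h1 h2 hCt.le (by positivity)) h3 h4
          have : 0 ≤ 1 + m * r := by positivity
          (clear * - hTb hCL hm0 hr; positivity)
      _ = A * (r * (1 + m * r) * exp ((-(2 * π - 1) + z + η) * r)) := by
          rw [hA]
          have : exp ((-(2 * π - 1) + z + η) * r) =
              exp (-(2 * π - 1) * r) * exp (z * r) * exp (η * r) := by
            rw [← Real.exp_add, ← Real.exp_add]; ring_nf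
          rw [this]; ring
      _ ≤ A * (r * (1 + m * r) * exp (-p * r)) := by
          apply mul_le_mul_of_nonneg_left _ hA0.le
          apply mul_le_mul_of_nonneg_left
          · apply Real.exp_le_exp.mpr
            apply mul_le_mul_of_nonneg_right _ hr.le
            rw [hp]; linarith only [hz2]
          · have : 0 ≤ 1 + m * r := by positivity
            (clear * - hr hm0; positivity)
  -- (b)
  have hbb : ∀ t ∈ Icc (L0 - ℓ) L0,
      f t ≤ -A * ((L0 - t) * (1 - m * (L0 - t)) * exp (-(L0 - t))) := by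
    intro t ht
    have hr : 0 ≤ L0 - t := by linarith only [ht, ht.2]
    have hrℓ : L0 - t ≤ ℓ := by linarith [ht.1]
    set r := L0 - t with hrdef
    have htr : t = L0 - r := by rw [hrdef]; ring
    have h1 : T b * exp (-r / 2) ≤ T (t + b - L0) := by
      have := hT.low b r hr
      have e : t + b - L0 = b - r := by rw [htr]; ring
      rw [e]; exact this
    have hmr : m * r ≤ 1 := mW_mul_le hℓ0 hrℓ
    have h2 : Cw W z L0 * (exp (-(z * r)) * (1 - m * r)) ≤ Cw W z t := by
      rw [htr]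
      refine le_trans ?_ (Cw_lower hW hz hL0 hr (hrℓ.trans hL))
      apply mul_le_mul_of_nonneg_left _ hCL.le
      apply mul_le_mul_of_nonneg_left _ (exp_pos _).le
      have := mul_le_mul_of_nonneg_right hmL hr
      linarith
    have h3 : exp (η * L0) * (η * r * exp (-(η * r))) ≤ exp (η * L0) - exp (η * t) := by
      have e : exp (η * t) = exp (η * L0) * exp (-(η * r)) := by
        rw [← Real.exp_add, htr]; ring_nf
      rw [e]
      have h4 : η * r * exp (-(η * r)) ≤ 1 - exp (-(η * r)) := by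
        have h5 := Real.add_one_le_exp (η * r)
        have h6 := Real.exp_pos (-(η * r))
        have h7 : exp (-(η * r)) * exp (η * r) = 1 := by rw [← Real.exp_add]; simp
        have h8 := mul_le_mul_of_nonneg_left h5 h6.le
        linarith
      have h8 := mul_le_mul_of_nonneg_left h4 (Real.exp_pos (η * L0)).le
      linarith
    have hTb := (hT.pos b).le
    have h1mr : 0 ≤ 1 - m * r := by linarith
    have key : A * (r * (1 - m * r) * exp (-r)) ≤
        T (t + b - L0) * Cw W z t * (exp (η * L0) - exp (η * t)) := by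
      calc A * (r * (1 - m * r) * exp (-r))
          ≤ A * (r * (1 - m * r) * exp (-(1 / 2 + z + η) * r)) := by
            apply mul_le_mul_of_nonneg_left _ hA0.le
            apply mul_le_mul_of_nonneg_left
            · apply Real.exp_le_exp.mpr
              have h12 := mul_le_mul_of_nonneg_right (by linarith : 1 / 2 + z + η ≤ 1) hr
              linarith only [h12]
            · (clear * - hr hmr; positivity)
        _ = (T b * exp (-r / 2)) * (Cw W z L0 * (exp (-(z * r)) * (1 - m * r))) *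
          (exp (η * L0) * (η * r * exp (-(η * r)))) := by
            rw [hA]
            have : exp (-(1 / 2 + z + η) * r) =
                exp (-r / 2) * exp (-(z * r)) * exp (-(η * r)) := by
              rw [← Real.exp_add, ← Real.exp_add]; ring_nf
            rw [this]; ring
        _ ≤ _ := by
            apply mul_le_mul (mul_le_mul h1 h2 (by (clear * - hCL hmr; positivity)) (hT.pos _).le) h3 (by (clear * - hη hr; positivity))
            apply mul_nonneg (hT.pos _).le
            refine le_trans ?_ h2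
            (clear * - hCL hmr; positivity)
    have : f t = -(T (t + b - L0) * Cw W z t * (exp (η * L0) - exp (η * t))) := by
      simp only [hf]; ring
    rw [this]
    linarith
  -- (c)
  have hc : ∀ t ∈ Icc 0 (L0 - ℓ), f t ≤ 0 := by
    intro t ht
    have h1 : exp (η * t) - exp (η * L0) ≤ 0 := by
      have : exp (η * t) ≤ exp (η * L0) := Real.exp_le_exp.mpr (by
        apply mul_le_mul_of_nonneg_left _ hη.le; linarith [ht.2])
      linarith
    have h2 : 0 ≤ Cw W z t := by
      rcases hW with rfl | rfl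
      · exact (Cw_one_pos _ _).le
      · rcases eq_or_lt_of_le ht.1 with h | h
        · rw [← h]; simp [Cw]
        · exact (Cw_neg_one_pos hz h).le
    have h3 := (hT.pos (t + b - L0)).le
    simp only [hf]
    exact mul_nonpos_of_nonneg_of_nonpos (mul_nonneg h3 h2) h1
  -- assemble
  have hLℓ : 0 ≤ L0 - ℓ := by linarith
  have hint1 : IntegrableOn f (Ioi (L0 - ℓ)) := hfint.mono_set (Ioi_subset_Ioi hLℓ)
  have hint2 : IntegrableOn f (Ioi L0) := hfint.mono_set (Ioi_subset_Ioi hL0.le)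
  have hs1 := intervalIntegral.integral_interval_add_Ioi hfint hint1
  have hs2 := intervalIntegral.integral_interval_add_Ioi hint1 hint2
  have hi1 : IntervalIntegrable f volume 0 (L0 - ℓ) := by
    rw [intervalIntegrable_iff_integrableOn_Ioc_of_le hLℓ]
    exact hfint.mono_set Ioc_subset_Ioi_self
  have hi2 : IntervalIntegrable f volume (L0 - ℓ) L0 := by
    rw [intervalIntegrable_iff_integrableOn_Ioc_of_le (by linarith)]
    exact hint1.mono_set Ioc_subset_Ioi_self
  have hI1 : ∫ t in (0:ℝ)..(L0 - ℓ), f t ≤ 0 := by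
    have := intervalIntegral.integral_mono_on hLℓ hi1 (g := fun _ => (0:ℝ)) (by simp) hc
    simpa using this
  have hI2 : ∫ t in (L0 - ℓ)..L0, f t ≤ -A * ((1 - 2 * m) + exp (-ℓ) *
      (m * ℓ ^ 2 - (1 - 2 * m) * ℓ - (1 - 2 * m))) := by
    have := intervalIntegral.integral_mono_on (by linarith : L0 - ℓ ≤ L0) hi2
      (g := fun t => -A * ((L0 - t) * (1 - m * (L0 - t)) * exp (-(L0 - t))))
      (by apply Continuous.intervalIntegrable; fun_prop) hbb
    rw [intervalIntegral.integral_const_mul, integral_neg_part] at this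
    exact this
  have hI3 : ∫ t in Ioi L0, f t ≤ A * (1 / p ^ 2 + 2 * m / p ^ 3) := by
    have h1 := integral_pos_part (p := p) (m := m) (L := L0) hp0 hm0
    have := setIntegral_mono_on hint2 (h1.1.const_mul A) measurableSet_Ioi ha
    rw [integral_const_mul, h1.2] at this
    exact this
  have hnum := numeric_key hW
  rw [← hℓ, ← hm, ← hp] at hnum
  have hfin : ∫ t in Ioi 0, f t ≤ A * (1 / p ^ 2 + 2 * m / p ^ 3) - A * ((1 - 2 * m) + exp (-ℓ) *
      (m * ℓ ^ 2 - (1 - 2 * m) * ℓ - (1 - 2 * m))) := by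
    rw [← hs1, ← hs2]; linarith only [hI1, hI2, hI3]
  have hlt : A * (1 / p ^ 2 + 2 * m / p ^ 3) - A * ((1 - 2 * m) + exp (-ℓ) *
      (m * ℓ ^ 2 - (1 - 2 * m) * ℓ - (1 - 2 * m))) < 0 := by
    have := mul_lt_mul_of_pos_left hnum hA0
    linarith only [this]
  exact lt_of_le_of_lt hfin hlt

/-- factor for passing from exponent `z1` to `z2` -/
noncomputable def kfac (W z1 z2 : ℝ) : ℝ := if W = 1 then 1 else z2 / z1

lemma Cw_ratio {W z1 z2 t : ℝ} (hW : W = 1 ∨ W = -1) (hz : 0 < z1) (hz2 : z1 < z2) (ht : 0 ≤ t) :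
    Cw W z2 t ≤ kfac W z1 z2 * (Cw W z1 t * exp ((z2 - z1) * t)) := by
  rcases hW with rfl | rfl
  · simp only [kfac, if_true, one_mul]
    have h := Cw_one_upper (z := 1) (L := z1 * t) (r := (z2 - z1) * t) (by norm_num)
      (mul_nonneg (by linarith) ht)
    simp only [Cw, one_mul] at h ⊢
    have e : z1 * t + (z2 - z1) * t = z2 * t := by ring
    rw [e] at h
    linarith
  · have hk : kfac (-1) z1 z2 = z2 / z1 := by unfold kfac; rw [if_neg]; norm_num
    rw [hk, Cw_neg_one_eq, Cw_neg_one_eq]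
    have h := one_sub_exp_le (y := 2 * z1 * t) (ρ := z2 / z1) (by
      rw [le_div_iff₀ hz]; linarith)
    have e : 2 * z1 * t * (z2 / z1) = 2 * z2 * t := by field_simp
    rw [e] at h
    have e2 : exp (z2 * t) = exp (z1 * t) * exp ((z2 - z1) * t) := by
      rw [← Real.exp_add]; ring_nf
    rw [e2]
    calc exp (z1 * t) * exp ((z2 - z1) * t) * (1 - exp (-(2 * z2 * t)))
        ≤ exp (z1 * t) * exp ((z2 - z1) * t) * (z2 / z1 * (1 - exp (-(2 * z1 * t)))) :=
          mul_le_mul_of_nonneg_left h (by positivity)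
      _ = _ := by ring

/-- TASK C, consequence in final shape. -/
theorem kernel_ratio {T : ℝ → ℝ} (hT : KernelHyp T) {b L0 z1 z2 W : ℝ} (hb : 0 ≤ b)
    (hz : 0 < z1) (hz12 : z1 < z2) (hz2 : z2 < 1 / 2) (hW : W = 1 ∨ W = -1)
    (hL : ellW W ≤ L0) :
    ∫ t in Ioi 0, T (t + b - L0) * Cw W z2 t <
      kfac W z1 z2 * (exp ((z2 - z1) * L0) * ∫ t in Ioi 0, T (t + b - L0) * Cw W z1 t) := by
  have hη : 0 < z2 - z1 := by linarith
  have hk : 0 < kfac W z1 z2 := by
    unfold kfac; split_ifs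
    · norm_num
    · exact div_pos (by linarith) hz
  have h1 := hT.integrableOn_Cw_exp (b := b) (L0 := L0) (W := W) (η := z2 - z1) hb hz hη
    (by linarith)
  have h2 := hT.integrableOn_Cw (b := b) (L0 := L0) (z := z1) (W := W) hb hz.le (by linarith)
  have h3 := hT.integrableOn_Cw (b := b) (L0 := L0) (z := z2) (W := W) hb (by linarith) hz2
  have hneg := kernel_neg hT hb hz hη (by linarith) hW hL
  have hstep1 : ∫ t in Ioi 0, T (t + b - L0) * Cw W z2 t ≤
      kfac W z1 z2 * ∫ t in Ioi 0, T (t + b - L0) * Cw W z1 t * exp ((z2 - z1) * t) := by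
    rw [← integral_const_mul]
    refine setIntegral_mono_on h3 (h1.const_mul _) measurableSet_Ioi ?_
    intro t ht
    have := mul_le_mul_of_nonneg_left (Cw_ratio hW hz hz12 (le_of_lt ht)) (hT.pos (t + b - L0)).le
    linarith
  have hstep2 : ∫ t in Ioi 0, T (t + b - L0) * Cw W z1 t * (exp ((z2 - z1) * t)
      - exp ((z2 - z1) * L0)) =
      (∫ t in Ioi 0, T (t + b - L0) * Cw W z1 t * exp ((z2 - z1) * t)) -
        exp ((z2 - z1) * L0) * ∫ t in Ioi 0, T (t + b - L0) * Cw W z1 t := by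
    rw [← integral_const_mul, ← integral_sub h1 (h2.const_mul _)]
    congr 1
    ext t
    ring
  rw [hstep2] at hneg
  calc ∫ t in Ioi 0, T (t + b - L0) * Cw W z2 t ≤ _ := hstep1
    _ < _ := mul_lt_mul_of_pos_left (by linarith) hk

end Pool.Agent.MP0016c7
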