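import Mathlib

open Filter Topology Set MeasureTheory
open scoped Real

namespace Pool.Agent.MP0016c7

/-! ### Additive convolution on the line -/

/-- Convolution of two real functions. -/
noncomputable def cv (f g : ℝ → ℝ) (t : ℝ) : ℝ := ∫ τ : ℝ, f τ * g (t - τ)

lemma cv_eq_convolution (f g : ℝ → ℝ) :
    cv f g = MeasureTheory.convolution f g (ContinuousLinearMap.mul ℝ ℝ) volume := by
  ext t
  rfl

lemma exp_mul_cv (z : ℝ) (f g : ℝ → ℝ) (t : ℝ) :
    rexp (z * t) * cv f g t = cv (fun τ => rexp (z * τ) * f τ) (fun τ => rexp (z * τ) * g τ) t := by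
  unfold cv
  rw [← integral_const_mul]
  congr 1
  ext τ
  have : rexp (z * t) = rexp (z * τ) * rexp (z * (t - τ)) := by
    rw [← Real.exp_add]; ring_nf
  rw [this]
  ring

lemma integrable_cv {f g : ℝ → ℝ} (hf : Integrable f) (hg : Integrable g) : Integrable (cv f g) := by
  rw [cv_eq_convolution]
  exact hf.integrable_convolution _ hg

lemma integral_cv {f g : ℝ → ℝ} (hf : Integrable f) (hg : Integrable g) :
    ∫ t, cv f g t = (∫ t, f t) * ∫ t, g t := by
  rw [cv_eq_convolution]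
  have := MeasureTheory.integral_convolution (L := ContinuousLinearMap.mul ℝ ℝ)
    (μ := (volume : Measure ℝ)) (ν := (volume : Measure ℝ)) (f := f) (g := g) hf hg
  rw [this]
  rfl

lemma integrable_exp_cv {f g : ℝ → ℝ} (z : ℝ) (hf : Integrable (fun t => rexp (z * t) * f t))
    (hg : Integrable (fun t => rexp (z * t) * g t)) :
    Integrable (fun t => rexp (z * t) * cv f g t) := by
  simp_rw [exp_mul_cv]
  exact integrable_cv hf hg

lemma integral_exp_cv {f g : ℝ → ℝ} (z : ℝ) (hf : Integrable (fun t => rexp (z * t) * f t))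
    (hg : Integrable (fun t => rexp (z * t) * g t)) :
    ∫ t, rexp (z * t) * cv f g t =
      (∫ t, rexp (z * t) * f t) * ∫ t, rexp (z * t) * g t := by
  simp_rw [exp_mul_cv]
  exact integral_cv hf hg

lemma integrable_sub_left {g : ℝ → ℝ} (hg : Integrable g) (t : ℝ) :
    Integrable (fun τ => g (t - τ)) := hg.comp_sub_left t

/-- The product integrand is integrable if `f` is integrable and `g` is bounded and measurable. -/
lemma integrable_cv_integrand {f g : ℝ → ℝ} (hf : Integrable f) (hgm : Measurable g) {C : ℝ}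
    (hC : ∀ t, |g t| ≤ C) (t : ℝ) : Integrable (fun τ => f τ * g (t - τ)) := by
  refine hf.mul_bdd (c := C) ?_ ?_
  · exact (hgm.comp (measurable_const.sub measurable_id)).aestronglyMeasurable
  · exact Eventually.of_forall fun τ => by simpa using hC (t - τ)

/-! ### Representations by a kernel and coefficients -/

/-- Admissible kernels. -/
structure Ker (T : ℝ → ℝ) : Prop where
  pos : ∀ t, 0 < T t
  cont : Continuous T
  int : ∀ z : ℝ, -(1 / 2) < z → Integrable (fun t => rexp (z * t) * T t)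
  bd : ∀ z : ℝ, -(1 / 2) < z → ∃ C, ∀ t, rexp (z * t) * T t ≤ C

/-- the `n`-th kernel -/
noncomputable def hn (T : ℝ → ℝ) (L : ℝ) (n : ℕ) (t : ℝ) : ℝ :=
  rexp ((L - Real.log n) / 2) * T (t + Real.log n - L)

/-- `g` is represented by coefficients `c`, kernel `T` and level `L`. -/
structure Rep (c : ArithmeticFunction ℝ) (T : ℝ → ℝ) (L : ℝ) (g : ℝ → ℝ) : Prop where
  csum : ∀ σ : ℝ, 1 < σ → Summable (fun n : ℕ => |c n| * rexp (-σ * Real.log n))
  ker : Ker T
  hs : ∀ t, HasSum (fun n : ℕ => c n * hn T L n t) (g t)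

namespace Ker

variable {T T₁ T₂ : ℝ → ℝ}

lemma int0 (h : Ker T) : Integrable T := by
  have := h.int 0 (by norm_num)
  simpa using this

lemma bd0 (h : Ker T) : ∃ C, ∀ t, |T t| ≤ C := by
  obtain ⟨C, hC⟩ := h.bd 0 (by norm_num)
  refine ⟨C, fun t => ?_⟩
  rw [abs_of_pos (h.pos t)]
  simpa using hC t

lemma cv_integrand (h₁ : Ker T₁) (h₂ : Ker T₂) (t : ℝ) :
    Integrable (fun τ => T₁ τ * T₂ (t - τ)) := by
  obtain ⟨C, hC⟩ := h₂.bd0
  exact integrable_cv_integrand h₁.int0 h₂.cont.measurable hC t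

/-- Admissible kernels are stable under convolution. -/
lemma conv (h₁ : Ker T₁) (h₂ : Ker T₂) : Ker (cv T₁ T₂) where
  pos t := by
    unfold cv
    rw [integral_pos_iff_support_of_nonneg]
    · have : Function.support (fun τ => T₁ τ * T₂ (t - τ)) = univ := by
        ext τ
        simp only [Function.mem_support, mem_univ, iff_true]
        exact (mul_pos (h₁.pos _) (h₂.pos _)).ne'
      rw [this]
      simp
    · intro τ
      exact (mul_pos (h₁.pos _) (h₂.pos _)).le
    · exact h₁.cv_integrand h₂ t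
  cont := by
    rw [cv_eq_convolution]
    obtain ⟨C, hC⟩ := h₂.bd0
    refine BddAbove.continuous_convolution_right_of_integrable _ ?_ h₁.int0 h₂.cont
    exact ⟨C, by rintro _ ⟨t, rfl⟩; exact hC t⟩
  int z hz := integrable_exp_cv z (h₁.int z hz) (h₂.int z hz)
  bd z hz := by
    obtain ⟨C, hC⟩ := h₂.bd z hz
    refine ⟨C * ∫ τ, rexp (z * τ) * T₁ τ, fun t => ?_⟩
    rw [exp_mul_cv, ← integral_const_mul]
    unfold cv
    refine integral_mono_of_nonneg ?_ ((h₁.int z hz).const_mul C) ?_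
    · refine Eventually.of_forall fun τ => ?_
      have := h₁.pos τ
      have := h₂.pos (t - τ)
      simp only [Pi.zero_apply]
      positivity
    · refine Eventually.of_forall fun τ => ?_
      have h3 : 0 ≤ rexp (z * τ) * T₁ τ := by have := h₁.pos τ; positivity
      simp only
      rw [mul_comm C]
      exact mul_le_mul_of_nonneg_left (hC (t - τ)) h3

lemma hn_pos (h : Ker T) (L : ℝ) (n : ℕ) (t : ℝ) : 0 < hn T L n t :=
  mul_pos (Real.exp_pos _) (h.pos _)

lemma hn_le (h : Ker T) (L : ℝ) {z : ℝ} (hz : -(1 / 2) < z) :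
    ∃ C, 0 ≤ C ∧ ∀ n t, hn T L n t ≤ C * rexp (-(z + 1 / 2) * Real.log n) * rexp (-z * t) := by
  obtain ⟨C, hC⟩ := h.bd z hz
  have hC0 : 0 ≤ C := le_trans (by have := h.pos 0; positivity) (hC 0)
  refine ⟨C * rexp ((1 / 2 + z) * L), by positivity, fun n t => ?_⟩
  have h1 := hC (t + Real.log n - L)
  have h2 : T (t + Real.log n - L) ≤ C * rexp (-z * (t + Real.log n - L)) := by
    have h3 : rexp (-z * (t + Real.log n - L)) * (rexp (z * (t + Real.log n - L)) *
        T (t + Real.log n - L)) = T (t + Real.log n - L) := by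
      rw [← mul_assoc, ← Real.exp_add]
      ring_nf
      rw [Real.exp_zero, one_mul]
    rw [← h3, mul_comm C]
    exact mul_le_mul_of_nonneg_left h1 (Real.exp_pos _).le
  unfold hn
  calc rexp ((L - Real.log n) / 2) * T (t + Real.log n - L)
      ≤ rexp ((L - Real.log n) / 2) * (C * rexp (-z * (t + Real.log n - L))) :=
        mul_le_mul_of_nonneg_left h2 (Real.exp_pos _).le
    _ = C * rexp ((1 / 2 + z) * L) * rexp (-(z + 1 / 2) * Real.log n) * rexp (-z * t) := by
        have : rexp ((L - Real.log n) / 2) * rexp (-z * (t + Real.log n - L)) =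
          rexp ((1 / 2 + z) * L) * rexp (-(z + 1 / 2) * Real.log n) * rexp (-z * t) := by
          rw [← Real.exp_add, ← Real.exp_add, ← Real.exp_add]
          ring_nf
        calc _ = C * (rexp ((L - Real.log n) / 2) * rexp (-z * (t + Real.log n - L))) := by ring
          _ = _ := by rw [this]; ring

lemma hn_integrable (h : Ker T) (L : ℝ) (n : ℕ) : Integrable (hn T L n) := by
  unfold hn
  refine Integrable.const_mul ?_ _
  have := h.int0.comp_add_right (Real.log n - L)
  refine this.congr (Eventually.of_forall fun t => ?_)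
  simp only
  congr 1
  ring

/-- Convolution of the scaled kernels. -/
lemma cv_hn (a b : ℕ) (ha : a ≠ 0) (hb : b ≠ 0) (L₁ L₂ t : ℝ) :
    ∫ τ, hn T₁ L₁ a τ * hn T₂ L₂ b (t - τ) = hn (cv T₁ T₂) (L₁ + L₂) (a * b) t := by
  unfold hn cv
  have ha' : (a : ℝ) ≠ 0 := by exact_mod_cast ha
  have hb' : (b : ℝ) ≠ 0 := by exact_mod_cast hb
  rw [Nat.cast_mul, Real.log_mul ha' hb']
  rw [← integral_add_right_eq_self (fun σ => T₁ σ * T₂ (t + (Real.log a + Real.log b) -
    (L₁ + L₂) - σ)) (Real.log a - L₁), ← integral_const_mul]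
  congr 1
  ext τ
  have e1 : rexp ((L₁ + L₂ - (Real.log a + Real.log b)) / 2) =
      rexp ((L₁ - Real.log a) / 2) * rexp ((L₂ - Real.log b) / 2) := by
    rw [← Real.exp_add]; ring_nf
  have e2 : t + (Real.log a + Real.log b) - (L₁ + L₂) - (τ + (Real.log a - L₁)) =
      t - τ + Real.log b - L₂ := by ring
  have e3 : τ + (Real.log a - L₁) = τ + Real.log a - L₁ := by ring
  rw [e1, e2, e3]
  ring

end Ker

lemma hasSum_dirichlet (c₁ c₂ : ArithmeticFunction ℝ) (G : ℕ → ℝ) {S : ℝ}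
    (h : HasSum (fun p : ℕ × ℕ => c₁ p.1 * c₂ p.2 * G (p.1 * p.2)) S) :
    HasSum (fun n : ℕ => (c₁ * c₂) n * G n) S := by
  have h1 := h.tsum_fiberwise (fun p : ℕ × ℕ => p.1 * p.2)
  refine h1.congr_fun fun n => ?_
  rcases eq_or_ne n 0 with rfl | hn
  · have : ∀ b : (fun p : ℕ × ℕ => p.1 * p.2) ⁻¹' {0},
        c₁ b.val.1 * c₂ b.val.2 * G (b.val.1 * b.val.2) = 0 := by
      rintro ⟨⟨a, b⟩, hab⟩
      have hab' : a * b = 0 := hab
      rcases Nat.mul_eq_zero.mp hab' with h | h <;> simp [h]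
    simp [this]
  · rw [show (fun p : ℕ × ℕ => p.1 * p.2) ⁻¹' {n} = n.divisorsAntidiagonal by ext; simp [hn],
      Finset.tsum_subtype' n.divisorsAntidiagonal
        (fun p : ℕ × ℕ => c₁ p.1 * c₂ p.2 * G (p.1 * p.2)),
      ArithmeticFunction.mul_apply, Finset.sum_mul]
    refine Finset.sum_congr rfl fun p hp => ?_
    rw [(Nat.mem_divisorsAntidiagonal.mp hp).1]


namespace Rep

variable {c : ArithmeticFunction ℝ} {T : ℝ → ℝ} {L : ℝ} {g : ℝ → ℝ}

/-- Pointwise decay of a represented function and of its absolute series. -/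
lemma abs_le (h : Rep c T L g) {z : ℝ} (hz : 1 / 2 < z) :
    ∃ C, 0 ≤ C ∧ ∀ t, |g t| ≤ C * rexp (-z * t) := by
  obtain ⟨C, hC0, hC⟩ := h.ker.hn_le L (z := z) (by linarith only [hz])
  have hs := h.csum (z + 1 / 2) (by linarith only [hz])
  set S := ∑' n : ℕ, |c n| * rexp (-(z + 1 / 2) * Real.log n) with hS
  have hS0 : 0 ≤ S := tsum_nonneg fun n => by positivity
  refine ⟨S * C, by positivity, fun t => ?_⟩
  have h1 : ∀ n : ℕ, ‖c n * hn T L n t‖ ≤
      (|c n| * rexp (-(z + 1 / 2) * Real.log n)) * (C * rexp (-z * t)) := by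
    intro n
    rw [Real.norm_eq_abs, abs_mul, abs_of_pos (h.ker.hn_pos L n t)]
    calc |c n| * hn T L n t ≤ |c n| * (C * rexp (-(z + 1 / 2) * Real.log n) * rexp (-z * t)) :=
          mul_le_mul_of_nonneg_left (hC n t) (abs_nonneg _)
      _ = _ := by ring
  have h3 := hs.mul_right (C * rexp (-z * t))
  have h4 := tsum_of_norm_bounded (h3.hasSum) h1
  rw [(h.hs t).tsum_eq, tsum_mul_right] at h4
  rw [Real.norm_eq_abs] at h4
  calc |g t| ≤ S * (C * rexp (-z * t)) := h4
    _ = _ := by ring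

lemma measurable (h : Rep c T L g) : Measurable g := by
  refine measurable_of_tendsto_metrizable (f := fun N : ℕ => fun t => ∑ n ∈ Finset.range N, c n *
    hn T L n t) ?_ ?_
  · intro N
    refine Finset.measurable_sum _ fun n _ => ?_
    have := h.ker.cont.measurable
    unfold hn
    fun_prop
  · rw [tendsto_pi_nhds]
    intro t
    exact (h.hs t).tendsto_sum_nat

lemma summable_conv {c₁ c₂ : ArithmeticFunction ℝ}
    (h₁ : ∀ σ : ℝ, 1 < σ → Summable (fun n : ℕ => |c₁ n| * rexp (-σ * Real.log n)))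
    (h₂ : ∀ σ : ℝ, 1 < σ → Summable (fun n : ℕ => |c₂ n| * rexp (-σ * Real.log n)))
    (σ : ℝ) (hσ : 1 < σ) : Summable (fun n : ℕ => |(c₁ * c₂) n| * rexp (-σ * Real.log n)) := by
  let d₁ : ArithmeticFunction ℝ := ⟨fun n => |c₁ n|, by simp⟩
  let d₂ : ArithmeticFunction ℝ := ⟨fun n => |c₂ n|, by simp⟩
  have e₁ := h₁ σ hσ
  have e₂ := h₂ σ hσ
  have hp := Summable.mul_of_nonneg e₁ e₂ (fun n => by positivity) (fun n => by positivity)
  have hp' : Summable (fun p : ℕ × ℕ => d₁ p.1 * d₂ p.2 *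
      (fun n : ℕ => rexp (-σ * Real.log n)) (p.1 * p.2)) := by
    refine hp.congr ?_
    rintro ⟨a, b⟩
    rcases eq_or_ne a 0 with rfl | ha
    · simp [d₁]
    rcases eq_or_ne b 0 with rfl | hb
    · simp [d₂]
    have ha' : (a : ℝ) ≠ 0 := by exact_mod_cast ha
    have hb' : (b : ℝ) ≠ 0 := by exact_mod_cast hb
    simp only [Nat.cast_mul]
    rw [Real.log_mul ha' hb', mul_add, Real.exp_add]
    change _ = |c₁ a| * |c₂ b| * _
    ring
  have h3 := hasSum_dirichlet d₁ d₂ (fun n : ℕ => rexp (-σ * Real.log n)) hp'.hasSum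
  refine h3.summable.of_nonneg_of_le (fun n => by positivity) fun n => ?_
  refine mul_le_mul_of_nonneg_right ?_ (Real.exp_pos _).le
  rw [ArithmeticFunction.mul_apply, ArithmeticFunction.mul_apply]
  refine (Finset.abs_sum_le_sum_abs _ _).trans (Finset.sum_le_sum fun p _ => ?_)
  have hd₁ : d₁ p.1 = |c₁ p.1| := rfl
  have hd₂ : d₂ p.2 = |c₂ p.2| := rfl
  rw [abs_mul, hd₁, hd₂]

variable {c₁ c₂ : ArithmeticFunction ℝ} {T₁ T₂ : ℝ → ℝ} {L₁ L₂ : ℝ} {g₁ g₂ : ℝ → ℝ}

/-- Representations are stable under convolution. -/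
theorem conv (h₁ : Rep c₁ T₁ L₁ g₁) (h₂ : Rep c₂ T₂ L₂ g₂) :
    Rep (c₁ * c₂) (cv T₁ T₂) (L₁ + L₂) (cv g₁ g₂) where
  csum := summable_conv h₁.csum h₂.csum
  ker := h₁.ker.conv h₂.ker
  hs t := by
    have hk := h₁.ker.conv h₂.ker
    let F : ℕ × ℕ → ℝ → ℝ := fun p τ => (c₁ p.1 * hn T₁ L₁ p.1 τ) * (c₂ p.2 * hn T₂ L₂ p.2 (t - τ))
    have hpw : ∀ p : ℕ × ℕ, Integrable (fun τ => hn T₁ L₁ p.1 τ * hn T₂ L₂ p.2 (t - τ)) := by
      intro p
      obtain ⟨C, hC0, hC⟩ := h₂.ker.hn_le L₂ (z := 0) (by norm_num)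
      refine integrable_cv_integrand (C := C * rexp (-(0 + 1 / 2) * Real.log p.2))
        (h₁.ker.hn_integrable L₁ p.1) ?_ ?_ t
      · have := h₂.ker.cont.measurable
        unfold hn
        fun_prop
      · intro τ
        rw [abs_of_pos (h₂.ker.hn_pos L₂ _ _)]
        simpa using hC p.2 τ
    have hFint : ∀ p, Integrable (F p) := by
      intro p
      refine ((hpw p).const_mul (c₁ p.1 * c₂ p.2)).congr (Eventually.of_forall fun τ => ?_)
      simp only [F]
      ring
    have hnorm : ∀ p : ℕ × ℕ, ∫ τ, ‖F p τ‖ =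
        |c₁ p.1| * |c₂ p.2| * ∫ τ, hn T₁ L₁ p.1 τ * hn T₂ L₂ p.2 (t - τ) := by
      intro p
      rw [← integral_const_mul]
      congr 1
      ext τ
      simp only [F]
      rw [Real.norm_eq_abs, abs_mul, abs_mul, abs_mul, abs_of_pos (h₁.ker.hn_pos L₁ _ _),
        abs_of_pos (h₂.ker.hn_pos L₂ _ _)]
      ring
    obtain ⟨C, hC0, hC⟩ := hk.hn_le (L₁ + L₂) (z := 1) (by norm_num)
    have hsumF : Summable fun p : ℕ × ℕ => ∫ τ, ‖F p τ‖ := by
      have e₁ := h₁.csum (1 + 1 / 2) (by norm_num)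
      have e₂ := h₂.csum (1 + 1 / 2) (by norm_num)
      have hp := (Summable.mul_of_nonneg e₁ e₂ (fun n => by positivity)
        (fun n => by positivity)).mul_right (C * rexp (-1 * t))
      refine hp.of_nonneg_of_le (fun p => integral_nonneg fun τ => norm_nonneg _) ?_
      rintro ⟨a, b⟩
      rw [hnorm]
      rcases eq_or_ne a 0 with rfl | ha
      · simp
      rcases eq_or_ne b 0 with rfl | hb
      · simp
      have ha' : (a : ℝ) ≠ 0 := by exact_mod_cast ha
      have hb' : (b : ℝ) ≠ 0 := by exact_mod_cast hb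
      simp only
      rw [Ker.cv_hn a b ha hb]
      have h5 := hC (a * b) t
      rw [Nat.cast_mul, Real.log_mul ha' hb', mul_add, Real.exp_add] at h5
      have h6 : 0 ≤ |c₁ a| * |c₂ b| := by positivity
      calc |c₁ a| * |c₂ b| * hn (cv T₁ T₂) (L₁ + L₂) (a * b) t
          ≤ |c₁ a| * |c₂ b| * (C * (rexp (-(1 + 1 / 2) * Real.log a) *
            rexp (-(1 + 1 / 2) * Real.log b)) * rexp (-1 * t)) :=
            mul_le_mul_of_nonneg_left h5 h6
        _ = _ := by ring
    have h7 := hasSum_integral_of_summable_integral_norm hFint hsumF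
    have h8 : ∀ τ, ∑' p, F p τ = g₁ τ * g₂ (t - τ) := by
      intro τ
      have s₁ := h₁.hs τ
      have s₂ := h₂.hs (t - τ)
      have h10 : Summable (fun p : ℕ × ℕ => (c₁ p.1 * hn T₁ L₁ p.1 τ) *
          (c₂ p.2 * hn T₂ L₂ p.2 (t - τ))) :=
        summable_mul_of_summable_norm (f := fun n => c₁ n * hn T₁ L₁ n τ)
          (g := fun n => c₂ n * hn T₂ L₂ n (t - τ)) s₁.summable.norm s₂.summable.norm
      exact (s₁.mul s₂ h10).tsum_eq
    simp_rw [h8] at h7
    have h9 : HasSum (fun p : ℕ × ℕ => c₁ p.1 * c₂ p.2 *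
        (fun n : ℕ => hn (cv T₁ T₂) (L₁ + L₂) n t) (p.1 * p.2)) (cv g₁ g₂ t) := by
      refine h7.congr_fun ?_
      rintro ⟨a, b⟩
      rcases eq_or_ne a 0 with rfl | ha
      · simp [F]
      rcases eq_or_ne b 0 with rfl | hb
      · simp [F]
      simp only [F]
      rw [← Ker.cv_hn a b ha hb, ← integral_const_mul]
      congr 1
      ext τ
      ring
    exact hasSum_dirichlet c₁ c₂ _ h9

end Rep

end Pool.Agent.MP0016c7
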