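import Mathlib
import Pool.Agent.Lib.MP_0016c7_nt.Theta
import Pool.Agent.Lib.MP_0016c7_nt.Machine

open Filter Topology Set MeasureTheory
open scoped Real

namespace Pool.Agent.MP0016c7

/-! ### The basic kernels -/

lemma Tk_exp_mul (a z t : ℝ) : rexp (z * t) * Tk a t = rexp ((z + a + 1 / 2) * t - π * rexp (2 * t)) := by
  unfold Tk
  rw [← Real.exp_add]
  ring_nf

lemma exp_sub_bd {b : ℝ} (hb : 0 < b) :
    ∃ C, ∀ t : ℝ, rexp (b * t - π * rexp (2 * t)) ≤ C * rexp (-b * |t|) := by
  -- for t ≤ 0 it is ≤ e^{b t}, for t ≥ 0 use e^{2t} ≥ 1 + 2t + 2t^2 ...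
  refine ⟨rexp (b ^ 2), fun t => ?_⟩
  rw [← Real.exp_add, Real.exp_le_exp]
  have hpi : 3 < π := Real.pi_gt_three
  have he : 0 < rexp (2 * t) := Real.exp_pos _
  rcases le_total t 0 with ht | ht
  · rw [abs_of_nonpos ht]
    nlinarith [sq_nonneg b]
  · rw [abs_of_nonneg ht]
    have h1 : (2 * t) ^ 2 / 2 + 2 * t + 1 ≤ rexp (2 * t) := by
      have := Real.quadratic_le_exp_of_nonneg (x := 2 * t) (by positivity)
      linarith
    nlinarith [sq_nonneg (b - t), sq_nonneg b, sq_nonneg t, mul_pos (by linarith : (0:ℝ) < π - 3) he]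

lemma integrable_exp_neg_mul_abs {b : ℝ} (hb : 0 < b) : Integrable (fun t : ℝ => rexp (-b * |t|)) := by
  rw [← integrableOn_univ, ← Iic_union_Ioi (a := (0 : ℝ)), integrableOn_union]
  constructor
  · refine (integrableOn_exp_mul_Iic hb 0).congr_fun ?_ measurableSet_Iic
    intro t (ht : t ≤ 0)
    simp only
    rw [abs_of_nonpos ht]
    ring_nf
  · refine (integrableOn_exp_mul_Ioi (a := -b) (by linarith) 0).congr_fun ?_ measurableSet_Ioi
    intro t (ht : 0 < t)
    simp only
    rw [abs_of_pos ht]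

lemma ker_Tk {a : ℝ} (ha : 0 ≤ a) : Ker (Tk a) where
  pos t := Real.exp_pos _
  cont := by unfold Tk; fun_prop
  int z hz := by
    obtain ⟨C, hC⟩ := exp_sub_bd (b := z + a + 1 / 2) (by linarith)
    simp_rw [Tk_exp_mul]
    refine Integrable.mono' ((integrable_exp_neg_mul_abs (b := z + a + 1 / 2)
      (by linarith)).const_mul C) ?_ ?_
    · exact (by fun_prop : Continuous _).aestronglyMeasurable
    · refine Eventually.of_forall fun t => ?_
      rw [Real.norm_eq_abs, abs_of_pos (Real.exp_pos _)]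
      exact hC t
  bd z hz := by
    obtain ⟨C, hC⟩ := exp_sub_bd (b := z + a + 1 / 2) (by linarith)
    have hC0 : 0 ≤ C := by
      have := (Real.exp_pos _).le.trans (hC 0)
      simpa using this
    refine ⟨C, fun t => ?_⟩
    rw [Tk_exp_mul]
    refine (hC t).trans ?_
    have : rexp (-(z + a + 1 / 2) * |t|) ≤ 1 := by
      rw [Real.exp_le_one_iff]
      nlinarith [abs_nonneg t]
    nlinarith

/-! ### Coefficient functions -/

/-- The real coefficients of a quadratic character as an arithmetic function. -/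
noncomputable def cA {q : ℕ} (χ : DirichletCharacter ℂ q) : ArithmeticFunction ℝ :=
  ⟨fun n => if n = 0 then 0 else (χ n).re, by simp⟩

/-- The constant function one as an arithmetic function. -/
noncomputable def oneA : ArithmeticFunction ℝ := ((ArithmeticFunction.zeta : ArithmeticFunction ℕ) :
  ArithmeticFunction ℝ)

lemma oneA_apply {n : ℕ} (hn : n ≠ 0) : oneA n = 1 := by
  simp [oneA, ArithmeticFunction.natCoe_apply, ArithmeticFunction.zeta_apply, hn]

lemma exp_neg_mul_log {n : ℕ} (hn : n ≠ 0) (σ : ℝ) :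
    rexp (-σ * Real.log n) = 1 / (n : ℝ) ^ σ := by
  have hn' : (0 : ℝ) < n := by exact_mod_cast Nat.pos_of_ne_zero hn
  rw [neg_mul, Real.exp_neg, Real.rpow_def_of_pos hn', one_div, mul_comm]

lemma csum_of_bdd (c : ArithmeticFunction ℝ) (hc : ∀ n, |c n| ≤ 1) (σ : ℝ) (hσ : 1 < σ) :
    Summable (fun n : ℕ => |c n| * rexp (-σ * Real.log n)) := by
  refine (Real.summable_one_div_nat_rpow.mpr hσ).of_nonneg_of_le (fun n => by positivity) ?_
  intro n
  rcases eq_or_ne n 0 with rfl | hn
  · simp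
    positivity
  · rw [exp_neg_mul_log hn]
    have : (0 : ℝ) ≤ 1 / (n : ℝ) ^ σ := by positivity
    exact mul_le_of_le_one_left this (hc n)

lemma rep_gth {q : ℕ} [NeZero q] (χ : DirichletCharacter ℂ q) (hq1 : q ≠ 1) (h2 : χ ^ 2 = 1) :
    Rep (cA χ) (Tk (par χ)) (Real.log q / 2) (gth χ) where
  csum := csum_of_bdd _ (fun n => by
    by_cases hn : n = 0
    · subst hn; simp
    · simp only [cA, ArithmeticFunction.coe_mk, hn, if_false]
      exact cR_abs_le χ h2 n)
  ker := ker_Tk (by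
    rcases χ.even_or_odd with he | ho
    · rw [par_even χ he]
    · rw [par_odd χ ho]; norm_num)
  hs t := by
    refine (gth_hasSum χ hq1 h2 t).congr_fun fun n => ?_
    by_cases hn : n = 0
    · subst hn
      simp [cR, χ.map_zero' hq1]
    · simp only [cA, ArithmeticFunction.coe_mk, hn, if_false]
      rfl

/-! ### The zeta theta function -/

lemma hn_Tk0 {n : ℕ} (hn0 : n ≠ 0) (t : ℝ) :
    hn (Tk 0) 0 n t = rexp (t / 2) * rexp (-π * (n : ℝ) ^ 2 * rexp (2 * t)) := by
  have hn' : (0 : ℝ) < n := by exact_mod_cast Nat.pos_of_ne_zero hn0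
  unfold hn Tk
  rw [← Real.exp_add, ← Real.exp_add]
  have : rexp (2 * (t + Real.log n - 0)) = (n : ℝ) ^ 2 * rexp (2 * t) := by
    rw [show 2 * (t + Real.log n - 0) = 2 * t + Real.log n + Real.log n by ring,
      Real.exp_add, Real.exp_add, Real.exp_log hn']
    ring
  rw [this]
  ring_nf

lemma summable_hn_Tk0 (t : ℝ) : Summable (fun n : ℕ => oneA n * hn (Tk 0) 0 n t) := by
  obtain ⟨C, hC0, hC⟩ := (ker_Tk le_rfl).hn_le 0 (z := 1) (by norm_num)
  have h1 := (csum_of_bdd oneA (fun n => by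
    by_cases hn : n = 0
    · subst hn; simp
    · rw [oneA_apply hn]; simp) (1 + 1 / 2) (by norm_num)).mul_right (C * rexp (-1 * t))
  refine h1.of_norm_bounded fun n => ?_
  rw [Real.norm_eq_abs, abs_mul, abs_of_pos ((ker_Tk le_rfl).hn_pos 0 n t)]
  calc |oneA n| * hn (Tk 0) 0 n t
      ≤ |oneA n| * (C * rexp (-(1 + 1 / 2) * Real.log n) * rexp (-1 * t)) :=
        mul_le_mul_of_nonneg_left (hC n t) (abs_nonneg _)
    _ = _ := by ring

/-- `e^{t/2} ∑_{n ≥ 1} exp(-π n² e^{2t})`. -/
noncomputable def omt (t : ℝ) : ℝ := ∑' n : ℕ, oneA n * hn (Tk 0) 0 n t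

lemma rep_omt : Rep oneA (Tk 0) 0 omt where
  csum := csum_of_bdd oneA (fun n => by
    by_cases hn : n = 0
    · subst hn; simp
    · rw [oneA_apply hn]; simp)
  ker := ker_Tk le_rfl
  hs t := (summable_hn_Tk0 t).hasSum

lemma omt_pos (t : ℝ) : 0 < omt t := by
  refine (summable_hn_Tk0 t).tsum_pos ?_ 1 ?_
  · intro n
    by_cases hn : n = 0
    · subst hn; simp
    · rw [oneA_apply hn, one_mul]
      exact ((ker_Tk le_rfl).hn_pos 0 n t).le
  · rw [oneA_apply one_ne_zero, one_mul]
    exact (ker_Tk le_rfl).hn_pos 0 1 t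

lemma tsum_int_theta (t : ℝ) :
    ∑' n : ℤ, rexp (-π * rexp (2 * t) * (n : ℝ) ^ 2) = 1 + 2 * (rexp (-(t / 2)) * omt t) := by
  have h1 : ∀ n : ℕ, n ≠ 0 → oneA n * hn (Tk 0) 0 n t =
      rexp (t / 2) * rexp (-π * (n : ℝ) ^ 2 * rexp (2 * t)) := by
    intro n hn
    rw [oneA_apply hn, one_mul, hn_Tk0 hn]
  have hs := (summable_hn_Tk0 t).hasSum
  have hs' : HasSum (fun n : ℕ => rexp (-π * rexp (2 * t) * (((n : ℤ) + 1 : ℤ) : ℝ) ^ 2))
      (rexp (-(t / 2)) * omt t) := by
    have h2 := (hasSum_nat_add_iff' 1).mpr hs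
    simp only [Finset.sum_range_one, ArithmeticFunction.map_zero, zero_mul, sub_zero] at h2
    refine (h2.mul_left (rexp (-(t / 2)))).congr_fun fun n => ?_
    rw [h1 (n + 1) (Nat.succ_ne_zero n), ← mul_assoc, ← Real.exp_add]
    push_cast
    ring_nf
    rw [Real.exp_zero, one_mul]
  have h3 := HasSum.of_add_one_of_neg_add_one (f := fun n : ℤ => rexp (-π * rexp (2 * t) * (n : ℝ) ^ 2))
    hs' (by
      refine hs'.congr_fun fun n => ?_
      push_cast
      ring_nf)
  rw [h3.tsum_eq]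
  simp
  ring

/-- The function `λ~(t) = omt(t) - e^{-t/2}/2`. -/
noncomputable def lam (t : ℝ) : ℝ := omt t - rexp (-(t / 2)) / 2

lemma lam_neg (t : ℝ) : lam (-t) = lam t := by
  have h1 := tsum_int_theta t
  have h2 := tsum_int_theta (-t)
  have h3 := Real.tsum_exp_neg_mul_int_sq (a := rexp (2 * t)) (Real.exp_pos _)
  have h4 : ∑' n : ℤ, rexp (-π / rexp (2 * t) * (n : ℝ) ^ 2) =
      ∑' n : ℤ, rexp (-π * rexp (2 * -t) * (n : ℝ) ^ 2) := by
    congr 1
    ext n
    have : rexp (2 * -t) = (rexp (2 * t))⁻¹ := by rw [← Real.exp_neg]; ring_nf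
    rw [this]
    congr 1
  rw [h4, h1, h2] at h3
  have h5 : (1 : ℝ) / rexp (2 * t) ^ (1 / 2 : ℝ) = rexp (-t) := by
    rw [← Real.exp_mul, one_div, ← Real.exp_neg]
    ring_nf
  rw [h5] at h3
  unfold lam
  have e1 : rexp (-(t / 2)) * rexp (t / 2) = 1 := by rw [← Real.exp_add]; simp
  have e2 : rexp (-t) = rexp (-(t / 2)) * rexp (-(t / 2)) := by rw [← Real.exp_add]; ring_nf
  have e3 : -(-t / 2) = t / 2 := by ring
  rw [e3] at h3 ⊢
  rw [e2] at h3
  have h6 : rexp (t / 2) * (1 + 2 * (rexp (-(t / 2)) * omt t)) =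
      rexp (t / 2) * (rexp (-(t / 2)) * rexp (-(t / 2)) * (1 + 2 * (rexp (t / 2) * omt (-t)))) := by
    rw [h3]
  have h7 : rexp (t / 2) * (1 + 2 * (rexp (-(t / 2)) * omt t)) = rexp (t / 2) + 2 * omt t := by
    linear_combination (2 * omt t) * e1
  have h8 : rexp (t / 2) * (rexp (-(t / 2)) * rexp (-(t / 2)) * (1 + 2 * (rexp (t / 2) * omt (-t))))
      = rexp (-(t / 2)) + 2 * omt (-t) := by
    linear_combination (rexp (-(t / 2)) + 2 * omt (-t) * (rexp (-(t / 2)) * rexp (t / 2) + 1)) * e1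
  rw [h7, h8] at h6
  linarith

lemma omt_lt {t : ℝ} (ht : 0 ≤ t) : omt t < rexp (-(t / 2)) / 2 := by
  -- compare with a geometric series
  set x : ℝ := rexp (-π * rexp (2 * t)) with hx
  have hx0 : 0 < x := Real.exp_pos _
  have hx1 : x < 1 := by
    rw [hx, Real.exp_lt_one_iff]
    have := Real.exp_pos (2 * t)
    nlinarith [Real.pi_pos]
  have h1 : omt t ≤ rexp (t / 2) * (x / (1 - x)) := by
    have hg := ((hasSum_geometric_of_lt_one hx0.le hx1).mul_left x).mul_left (rexp (t / 2))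
    have hs := (summable_hn_Tk0 t).hasSum
    have h2 := (hasSum_nat_add_iff' 1).mpr hs
    simp only [Finset.sum_range_one, ArithmeticFunction.map_zero, zero_mul, sub_zero] at h2
    have h3 := hasSum_le (fun n => ?_) h2 hg
    · rw [div_eq_mul_inv]
      exact h3
    · rw [oneA_apply (Nat.succ_ne_zero n), one_mul, hn_Tk0 (Nat.succ_ne_zero n)]
      refine mul_le_mul_of_nonneg_left ?_ (Real.exp_pos _).le
      have h4 : x * x ^ n = rexp (-π * ((n : ℝ) + 1) * rexp (2 * t)) := by
        rw [hx, ← Real.exp_nat_mul, ← Real.exp_add]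
        ring_nf
      rw [h4, Real.exp_le_exp]
      push_cast
      have h5 : 0 < π * rexp (2 * t) := by have := Real.pi_pos; positivity
      have h6 : (n : ℝ) + 1 ≤ ((n : ℝ) + 1) ^ 2 := by
        have : (0 : ℝ) ≤ n := Nat.cast_nonneg n
        nlinarith
      nlinarith
  have h7 : x / (1 - x) < rexp (-t) / 2 := by
    have h8 : 1 / x = rexp (π * rexp (2 * t)) := by
      rw [hx, one_div, ← Real.exp_neg]; ring_nf
    have h9 : π * rexp (2 * t) + 1 ≤ rexp (π * rexp (2 * t)) := Real.add_one_le_exp _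
    have h10 : rexp (2 * t) = rexp t * rexp t := by rw [← Real.exp_add]; ring_nf
    have h11 : 1 ≤ rexp t := Real.one_le_exp ht
    have h12 : 1 - x > 0 := by linarith
    have h13 : rexp (-t) = 1 / rexp t := by rw [Real.exp_neg, one_div]
    rw [h13, div_lt_div_iff₀ h12 two_pos, div_mul_eq_mul_div, one_mul, lt_div_iff₀ (Real.exp_pos t)]
    have h14 : x * (1 / x) = 1 := by field_simp
    rw [h8] at h14
    have h15 : 3 < π := Real.pi_gt_three
    have h16 : rexp t ≤ rexp t * rexp t := by nlinarith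
    have h17 : 3 * (rexp t * rexp t) ≤ π * (rexp t * rexp t) :=
      mul_le_mul_of_nonneg_right h15.le (by positivity)
    have h18 : x * (3 * rexp t + 1) ≤ x * rexp (π * rexp (2 * t)) := by
      refine mul_le_mul_of_nonneg_left ?_ hx0.le
      rw [h10] at h9 ⊢
      linarith
    have h19 : 0 < x * rexp t := by positivity
    rw [h14] at h18
    nlinarith
  calc omt t ≤ rexp (t / 2) * (x / (1 - x)) := h1
    _ < rexp (t / 2) * (rexp (-t) / 2) := mul_lt_mul_of_pos_left h7 (Real.exp_pos _)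
    _ = rexp (-(t / 2)) / 2 := by
      rw [mul_div_assoc', ← Real.exp_add]; ring_nf

lemma lam_lt_zero (t : ℝ) : lam t < 0 := by
  rcases le_total 0 t with ht | ht
  · unfold lam
    linarith [omt_lt ht]
  · rw [← lam_neg t]
    unfold lam
    linarith [omt_lt (t := -t) (by linarith)]

lemma abs_lam_le (t : ℝ) : |lam t| ≤ 1 / 2 * rexp (-(1 / 2) * |t|) := by
  have key : ∀ t : ℝ, 0 ≤ t → |lam t| ≤ 1 / 2 * rexp (-(1 / 2) * |t|) := by
    intro t ht
    rw [abs_of_neg (lam_lt_zero t), abs_of_nonneg ht]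
    unfold lam
    have h1 := omt_pos t
    have h2 : -(1 / 2) * t = -(t / 2) := by ring
    rw [h2]
    linarith
  rcases le_total 0 t with ht | ht
  · exact key t ht
  · have := key (-t) (by linarith)
    rwa [lam_neg, abs_neg] at this

lemma measurable_lam : Measurable lam := by
  unfold lam
  have := rep_omt.measurable
  fun_prop

lemma integrable_exp_lam {z : ℝ} (hz : |z| < 1 / 2) : Integrable (fun t => rexp (z * t) * lam t) := by
  refine Integrable.mono' ((integrable_exp_neg_mul_abs (b := 1 / 2 - |z|)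
    (by linarith)).const_mul (1 / 2)) ?_ ?_
  · have := measurable_lam
    exact (by fun_prop : Measurable _).aestronglyMeasurable
  · refine Eventually.of_forall fun t => ?_
    rw [Real.norm_eq_abs, abs_mul, abs_of_pos (Real.exp_pos _)]
    have h1 := abs_lam_le t
    have h2 : rexp (z * t) ≤ rexp (|z| * |t|) := by
      rw [Real.exp_le_exp, ← abs_mul]
      exact le_abs_self _
    calc rexp (z * t) * |lam t| ≤ rexp (|z| * |t|) * (1 / 2 * rexp (-(1 / 2) * |t|)) :=
          mul_le_mul h2 h1 (abs_nonneg _) (Real.exp_pos _).le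
      _ = 1 / 2 * rexp (-(1 / 2 - |z|) * |t|) := by
          have : rexp (-(1 / 2 - |z|) * |t|) = rexp (|z| * |t|) * rexp (-(1 / 2) * |t|) := by
            rw [← Real.exp_add]; ring_nf
          rw [this]; ring

lemma integral_exp_lam_neg {z : ℝ} (hz : |z| < 1 / 2) : ∫ t, rexp (z * t) * lam t < 0 := by
  have h1 : 0 < ∫ t, -(rexp (z * t) * lam t) := by
    rw [integral_pos_iff_support_of_nonneg]
    · have : Function.support (fun t => -(rexp (z * t) * lam t)) = univ := by
        ext t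
        simp only [Function.mem_support, mem_univ, iff_true]
        have := lam_lt_zero t
        have := Real.exp_pos (z * t)
        nlinarith
      rw [this]
      simp
    · intro t
      have := lam_lt_zero t
      have := Real.exp_pos (z * t)
      simp only [Pi.zero_apply]
      nlinarith
    · exact (integrable_exp_lam hz).neg
  rw [integral_neg] at h1
  linarith

end Pool.Agent.MP0016c7
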