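import Mathlib
import Pool.Agent.Lib.MP_0016c7_nt.Lambda
import Pool.Agent.Lib.MP_0016c7_nt.KernelIneq

open Filter Topology Set MeasureTheory
open scoped Real

namespace Pool.Agent.MP0016c7

variable {c : ArithmeticFunction ℝ} {T : ℝ → ℝ} {L W : ℝ} {F : ℝ → ℝ}

/-- Decay at both ends of a represented function with a functional equation. -/
lemma Rep.abs_le_abs (h : Rep c T L F) (hW : W = 1 ∨ W = -1) (hs : ∀ t, F (-t) = W * F t)
    {z : ℝ} (hz : 1 / 2 < z) : ∃ C, 0 ≤ C ∧ ∀ t, |F t| ≤ C * rexp (-z * |t|) := by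
  obtain ⟨C, hC0, hC⟩ := h.abs_le hz
  refine ⟨C, hC0, fun t => ?_⟩
  rcases le_total 0 t with ht | ht
  · rw [abs_of_nonneg ht]; exact hC t
  · have h1 := hC (-t)
    rw [hs t, abs_mul] at h1
    have : |W| = 1 := by rcases hW with rfl | rfl <;> simp
    rw [this, one_mul] at h1
    rw [abs_of_nonpos ht]
    exact h1

lemma Rep.integrable_exp (h : Rep c T L F) (hW : W = 1 ∨ W = -1) (hs : ∀ t, F (-t) = W * F t)
    (z : ℝ) : Integrable (fun t => rexp (z * t) * F t) := by
  obtain ⟨C, hC0, hC⟩ := h.abs_le_abs hW hs (z := |z| + 1) (by linarith [abs_nonneg z])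
  refine Integrable.mono' ((integrable_exp_neg_mul_abs (b := 1) one_pos).const_mul C) ?_ ?_
  · have := h.measurable
    exact (by fun_prop : Measurable _).aestronglyMeasurable
  · refine Eventually.of_forall fun t => ?_
    rw [Real.norm_eq_abs, abs_mul, abs_of_pos (Real.exp_pos _)]
    have h2 : rexp (z * t) ≤ rexp (|z| * |t|) := by
      rw [Real.exp_le_exp, ← abs_mul]
      exact le_abs_self _
    calc rexp (z * t) * |F t| ≤ rexp (|z| * |t|) * (C * rexp (-(|z| + 1) * |t|)) :=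
          mul_le_mul h2 (hC t) (abs_nonneg _) (Real.exp_pos _).le
      _ = C * rexp (-1 * |t|) := by
          have : rexp (-1 * |t|) = rexp (|z| * |t|) * rexp (-(|z| + 1) * |t|) := by
            rw [← Real.exp_add]; ring_nf
          rw [this]; ring

lemma Rep.bdd (h : Rep c T L F) (hW : W = 1 ∨ W = -1) (hs : ∀ t, F (-t) = W * F t) :
    ∃ C, ∀ t, |F t| ≤ C := by
  obtain ⟨C, hC0, hC⟩ := h.abs_le_abs hW hs (z := 1) (by norm_num)
  refine ⟨C, fun t => (hC t).trans ?_⟩
  have : rexp (-1 * |t|) ≤ 1 := by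
    rw [Real.exp_le_one_iff]; linarith [abs_nonneg t]
  nlinarith

/-- The constant `κ`. -/
noncomputable def kap (F : ℝ → ℝ) : ℝ := 1 / 2 * ∫ t, rexp (1 / 2 * t) * F t

lemma integrable_lam : Integrable lam := by
  have := integrable_exp_lam (z := 0) (by norm_num)
  simpa using this

lemma cv_lam (h : Rep c T L F) (hW : W = 1 ∨ W = -1) (hs : ∀ t, F (-t) = W * F t) (t : ℝ) :
    cv lam F t = cv omt F t - kap F * rexp (-(t / 2)) := by
  obtain ⟨C, hC⟩ := h.bdd hW hs
  have i1 : Integrable (fun τ => lam τ * F (t - τ)) :=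
    integrable_cv_integrand integrable_lam h.measurable hC t
  have i0 : Integrable (fun σ => rexp (-((t - σ) / 2)) / 2 * F σ) := by
    refine ((h.integrable_exp hW hs (1 / 2)).const_mul (rexp (-(t / 2)) / 2)).congr
      (Eventually.of_forall fun σ => ?_)
    simp only
    have : rexp (-((t - σ) / 2)) = rexp (-(t / 2)) * rexp (1 / 2 * σ) := by
      rw [← Real.exp_add]; ring_nf
    rw [this]; ring
  have i2 : Integrable (fun τ => rexp (-(τ / 2)) / 2 * F (t - τ)) := by
    have := i0.comp_sub_left t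
    refine this.congr (Eventually.of_forall fun τ => ?_)
    simp only
    ring_nf
  have e2 : ∫ τ, rexp (-(τ / 2)) / 2 * F (t - τ) = kap F * rexp (-(t / 2)) := by
    have := integral_sub_left_eq_self (fun σ => rexp (-((t - σ) / 2)) / 2 * F σ) volume t
    have e3 : ∀ τ : ℝ, rexp (-((t - (t - τ)) / 2)) / 2 * F (t - τ) =
        rexp (-(τ / 2)) / 2 * F (t - τ) := by intro τ; ring_nf
    simp_rw [e3] at this
    rw [this]
    unfold kap
    rw [← integral_const_mul, ← integral_mul_const]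
    congr 1
    ext σ
    have : rexp (-((t - σ) / 2)) = rexp (-(t / 2)) * rexp (1 / 2 * σ) := by
      rw [← Real.exp_add]; ring_nf
    rw [this]; ring
  have e4 : cv omt F t = ∫ τ, (lam τ * F (t - τ) + rexp (-(τ / 2)) / 2 * F (t - τ)) := by
    unfold cv lam
    congr 1
    ext τ
    ring
  rw [e4, integral_add i1 i2, e2]
  unfold cv
  ring

lemma cv_lam_neg (hs : ∀ t, F (-t) = W * F t) (t : ℝ) : cv lam F (-t) = W * cv lam F t := by
  unfold cv
  rw [← integral_neg_eq_self, ← integral_const_mul]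
  congr 1
  ext τ
  have : -t - -τ = -(t - τ) := by ring
  rw [lam_neg, this, hs]
  ring

lemma fold {k : ℝ → ℝ} (hk : ∀ t, k (-t) = W * k t) {z : ℝ}
    (h1 : Integrable (fun t => rexp (z * t) * k t))
    (h2 : Integrable (fun t => rexp (-z * t) * k t)) :
    IntegrableOn (fun t => Cw W z t * k t) (Ioi 0) ∧
    ∫ t, rexp (z * t) * k t = ∫ t in Ioi 0, Cw W z t * k t := by
  have e1 : ∫ t in Iic (0 : ℝ), rexp (z * t) * k t = ∫ t in Ioi 0, W * (rexp (-z * t) * k t) := by
    have := integral_comp_neg_Ioi 0 (fun t => rexp (z * t) * k t)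
    rw [neg_zero] at this
    rw [← this]
    congr 1
    ext t
    rw [hk]
    have : z * -t = -z * t := by ring
    rw [this]
    ring
  have i1 : IntegrableOn (fun t => rexp (z * t) * k t) (Ioi 0) := h1.integrableOn
  have i2 : IntegrableOn (fun t => W * (rexp (-z * t) * k t)) (Ioi 0) :=
    (h2.const_mul W).integrableOn
  have e0 : (fun t => Cw W z t * k t) =
      fun t => rexp (z * t) * k t + W * (rexp (-z * t) * k t) := by
    ext t
    unfold Cw
    have : -(z * t) = -z * t := by ring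
    rw [this]
    ring
  refine ⟨?_, ?_⟩
  · rw [e0]
    exact i1.add i2
  · rw [← intervalIntegral.integral_Iic_add_Ioi (b := 0) h1.integrableOn h1.integrableOn, e1,
      e0, integral_add i1 i2]
    ring

/-- The pole term. -/
noncomputable def Aw (W z : ℝ) : ℝ := 1 / (1 / 2 - z) + W / (1 / 2 + z)

lemma integral_Cw_exp {z : ℝ} (hz : |z| < 1 / 2) :
    IntegrableOn (fun t => Cw W z t * rexp (-(t / 2))) (Ioi 0) ∧
    ∫ t in Ioi (0 : ℝ), Cw W z t * rexp (-(t / 2)) = Aw W z := by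
  have hz' := abs_lt.mp hz
  have i1 := integrableOn_exp_mul_Ioi (a := z - 1 / 2) (by linarith) 0
  have i2 := (integrableOn_exp_mul_Ioi (a := -z - 1 / 2) (by linarith) 0).const_mul W
  have e0 : (fun t => Cw W z t * rexp (-(t / 2))) =
      fun t => rexp ((z - 1 / 2) * t) + W * rexp ((-z - 1 / 2) * t) := by
    ext t
    unfold Cw
    rw [add_mul, mul_assoc, ← Real.exp_add, ← Real.exp_add]
    ring_nf
  refine ⟨?_, ?_⟩
  · rw [e0]
    exact i1.add i2
  · rw [e0, integral_add i1 i2, integral_const_mul, integral_exp_mul_Ioi (by linarith),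
      integral_exp_mul_Ioi (by linarith)]
    simp only [mul_zero, Real.exp_zero]
    unfold Aw
    have h1 : z - 1 / 2 = -(1 / 2 - z) := by ring
    have h2 : -z - 1 / 2 = -(1 / 2 + z) := by ring
    rw [h1, h2, neg_div_neg_eq, neg_div_neg_eq]
    ring

/-- The basic identity. -/
theorem machine_id (h : Rep c T L F) (hW : W = 1 ∨ W = -1) (hs : ∀ t, F (-t) = W * F t)
    {z : ℝ} (hz : |z| < 1 / 2) :
    (∫ t, rexp (z * t) * lam t) * ∫ t, rexp (z * t) * F t =
      (∫ t in Ioi 0, Cw W z t * cv omt F t) - kap F * Aw W z := by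
  have hz' : |-z| < 1 / 2 := by rwa [abs_neg]
  rw [← integral_exp_cv z (integrable_exp_lam hz) (h.integrable_exp hW hs z)]
  have hf := fold (cv_lam_neg hs) (integrable_exp_cv z (integrable_exp_lam hz)
    (h.integrable_exp hW hs z)) (integrable_exp_cv (-z) (integrable_exp_lam hz')
    (h.integrable_exp hW hs (-z)))
  obtain ⟨i3, e3⟩ := integral_Cw_exp (W := W) hz
  rw [hf.2, ← e3, ← integral_const_mul, eq_sub_iff_add_eq, ← integral_add hf.1 (i3.const_mul _)]
  congr 1
  ext t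
  rw [cv_lam h hW hs t]
  ring

/-- Termwise integration. -/
lemma Rep.hasSum_Cw {ψ : ℝ → ℝ} (h : Rep c T L ψ) {z : ℝ} (hz0 : 0 ≤ z) (hz : z < 1 / 2)
    (hW : W = 1 ∨ W = -1) :
    HasSum (fun n : ℕ => c n * ∫ t in Ioi 0, Cw W z t * hn T L n t)
      (∫ t in Ioi 0, Cw W z t * ψ t) := by
  obtain ⟨C, hC0, hC⟩ := h.ker.hn_le L (z := 1) (by norm_num)
  have hcw : ∀ t ∈ Ioi (0 : ℝ), |Cw W z t| ≤ 2 * rexp (z * t) := by
    intro t ht
    have ht0 : (0 : ℝ) < t := ht
    unfold Cw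
    have h1 : rexp (-(z * t)) ≤ rexp (z * t) := by
      rw [Real.exp_le_exp]; nlinarith [mul_nonneg hz0 ht0.le]
    have h2 := Real.exp_pos (-(z * t))
    rcases hW with rfl | rfl
    · rw [_root_.abs_le]; constructor <;> linarith
    · rw [_root_.abs_le]; constructor <;> linarith
  have hTc := h.ker.cont
  have hmeas : ∀ n, Continuous (fun t => Cw W z t * hn T L n t) := by
    intro n
    unfold Cw hn
    fun_prop
  have hbound : ∀ n : ℕ, ∀ t ∈ Ioi (0 : ℝ), ‖Cw W z t * hn T L n t‖ ≤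
      (2 * C * rexp (-(1 + 1 / 2) * Real.log n)) * rexp ((z - 1) * t) := by
    intro n t ht
    rw [Real.norm_eq_abs, abs_mul, abs_of_pos (h.ker.hn_pos L n t)]
    calc |Cw W z t| * hn T L n t ≤ (2 * rexp (z * t)) *
          (C * rexp (-(1 + 1 / 2) * Real.log n) * rexp (-1 * t)) :=
          mul_le_mul (hcw t ht) (hC n t) (h.ker.hn_pos L n t).le (by positivity)
      _ = _ := by
          have : rexp ((z - 1) * t) = rexp (z * t) * rexp (-1 * t) := by
            rw [← Real.exp_add]; ring_nf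
          rw [this]; ring
  have hdom := integrableOn_exp_mul_Ioi (a := z - 1) (by linarith) 0
  have hint : ∀ n : ℕ, IntegrableOn (fun t => Cw W z t * hn T L n t) (Ioi 0) := by
    intro n
    refine Integrable.mono' (hdom.const_mul (2 * C * rexp (-(1 + 1 / 2) * Real.log n)))
      (hmeas n).aestronglyMeasurable ?_
    rw [ae_restrict_iff' measurableSet_Ioi]
    exact Eventually.of_forall fun t ht => hbound n t ht
  have hsum : Summable fun n : ℕ => ∫ t in Ioi 0, ‖c n * (Cw W z t * hn T L n t)‖ := by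
    have h1 := (h.csum (1 + 1 / 2) (by norm_num)).mul_right
      (2 * C * ∫ t in Ioi 0, rexp ((z - 1) * t))
    refine h1.of_nonneg_of_le (fun n => integral_nonneg fun t => norm_nonneg _) fun n => ?_
    have h2 : ∫ t in Ioi 0, ‖c n * (Cw W z t * hn T L n t)‖ ≤
        ∫ t in Ioi 0, |c n| * ((2 * C * rexp (-(1 + 1 / 2) * Real.log n)) *
          rexp ((z - 1) * t)) := by
      refine setIntegral_mono_on ((hint n).const_mul _).norm ((hdom.const_mul _).const_mul _)
        measurableSet_Ioi fun t ht => ?_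
      rw [norm_mul, Real.norm_eq_abs (c n)]
      exact mul_le_mul_of_nonneg_left (hbound n t ht) (abs_nonneg _)
    refine h2.trans (le_of_eq ?_)
    rw [integral_const_mul, integral_const_mul]
    ring
  have key := hasSum_integral_of_summable_integral_norm
    (F := fun (n : ℕ) (t : ℝ) => c n * (Cw W z t * hn T L n t))
    (fun n => (hint n).const_mul _) hsum
  have e1 : ∀ t, ∑' n : ℕ, c n * (Cw W z t * hn T L n t) = Cw W z t * ψ t := by
    intro t
    rw [← (h.hs t).tsum_eq, ← tsum_mul_left]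
    congr 1
    ext n
    ring
  simp_rw [e1] at key
  refine key.congr_fun fun n => ?_
  rw [integral_const_mul]

lemma Aw_one {z : ℝ} (hz0 : 0 < z) (hz : z < 1 / 2) : Aw 1 z = 1 / (1 / 4 - z ^ 2) := by
  unfold Aw
  have h1 : 1 / 2 - z ≠ 0 := by linarith
  have h2 : 1 / 2 + z ≠ 0 := by linarith
  have h3 : 1 / 4 - z ^ 2 = (1 / 2 - z) * (1 / 2 + z) := by ring
  rw [h3, div_add_div _ _ h1 h2]
  congr 1
  ring

lemma Aw_neg_one {z : ℝ} (hz0 : 0 < z) (hz : z < 1 / 2) :
    Aw (-1) z = 2 * z / (1 / 4 - z ^ 2) := by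
  unfold Aw
  have h1 : 1 / 2 - z ≠ 0 := by linarith
  have h2 : 1 / 2 + z ≠ 0 := by linarith
  have h3 : 1 / 4 - z ^ 2 = (1 / 2 - z) * (1 / 2 + z) := by ring
  rw [h3, div_add_div _ _ h1 h2]
  congr 1
  ring

lemma quarter_pos {z : ℝ} (hz0 : 0 < z) (hz : z < 1 / 2) : 0 < 1 / 4 - z ^ 2 := by nlinarith

lemma Aw_pos (hW : W = 1 ∨ W = -1) {z : ℝ} (hz0 : 0 < z) (hz : z < 1 / 2) : 0 < Aw W z := by
  have := quarter_pos hz0 hz
  rcases hW with rfl | rfl
  · rw [Aw_one hz0 hz]; positivity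
  · rw [Aw_neg_one hz0 hz]; positivity

lemma kfac_pos (hW : W = 1 ∨ W = -1) {z1 z2 : ℝ} (hz : 0 < z1) (hz12 : z1 < z2) :
    0 < kfac W z1 z2 := by
  rcases hW with rfl | rfl
  · simp [kfac]
  · have : kfac (-1) z1 z2 = z2 / z1 := by unfold kfac; rw [if_neg]; norm_num
    rw [this]
    exact div_pos (hz.trans hz12) hz

lemma kfac_Aw (hW : W = 1 ∨ W = -1) {z1 z2 : ℝ} (hz : 0 < z1) (hz12 : z1 < z2)
    (hz2 : z2 < 1 / 2) :
    kfac W z1 z2 * Aw W z1 = (1 / 4 - z2 ^ 2) / (1 / 4 - z1 ^ 2) * Aw W z2 := by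
  have h1 := quarter_pos hz (hz12.trans hz2)
  have h2 := quarter_pos (hz.trans hz12) hz2
  rcases hW with rfl | rfl
  · rw [Aw_one hz (hz12.trans hz2), Aw_one (hz.trans hz12) hz2]
    simp only [kfac, if_true]
    generalize 1 / 4 - z1 ^ 2 = u at *
    generalize 1 / 4 - z2 ^ 2 = v at *
    field_simp
  · rw [Aw_neg_one hz (hz12.trans hz2), Aw_neg_one (hz.trans hz12) hz2]
    have : kfac (-1) z1 z2 = z2 / z1 := by unfold kfac; rw [if_neg]; norm_num
    rw [this]
    generalize 1 / 4 - z1 ^ 2 = u at *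
    generalize 1 / 4 - z2 ^ 2 = v at *
    field_simp

/-- The normalised quantity: positive multiple of the product of `L`-values. -/
noncomputable def Xw (W : ℝ) (F : ℝ → ℝ) (z : ℝ) : ℝ :=
  (-(∫ t, rexp (z * t) * lam t)) * (∫ t, rexp (z * t) * F t) / Aw W z

/-- The `n`-th folded kernel integral. -/
noncomputable def Jn (W : ℝ) (T : ℝ → ℝ) (L : ℝ) (n : ℕ) (z : ℝ) : ℝ :=
  ∫ t in Ioi 0, Cw W z t * hn T L n t

/-- The quantitative propagation inequality, from a termwise kernel inequality. -/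
theorem machine_ineq_gen (h : Rep c T L F) (hW : W = 1 ∨ W = -1) (hs : ∀ t, F (-t) = W * F t)
    (ha : ∀ n, 0 ≤ (oneA * c) n) (ha1 : 0 < (oneA * c) 1) {z1 z2 R : ℝ} (hz : 0 < z1)
    (hz12 : z1 < z2) (hz2 : z2 < 1 / 2)
    (hJ : ∀ n : ℕ, n ≠ 0 → Jn W (cv (Tk 0) T) L n z2 <
      kfac W z1 z2 * R * Jn W (cv (Tk 0) T) L n z1) :
    (1 - R * ((1 / 4 - z2 ^ 2) / (1 / 4 - z1 ^ 2))) * kap F +
      R * ((1 / 4 - z2 ^ 2) / (1 / 4 - z1 ^ 2)) * Xw W F z1 < Xw W F z2 := by
  have hR := rep_omt.conv h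
  rw [zero_add] at hR
  have hz1' : z1 < 1 / 2 := hz12.trans hz2
  have hz2' : 0 < z2 := hz.trans hz12
  have s1 := hR.hasSum_Cw (z := z1) (W := W) hz.le hz1' hW
  have s2 := hR.hasSum_Cw (z := z2) (W := W) hz2'.le hz2 hW
  have hI : ∫ t in Ioi 0, Cw W z2 t * cv omt F t <
      kfac W z1 z2 * R * ∫ t in Ioi 0, Cw W z1 t * cv omt F t := by
    refine hasSum_lt (i := 1) (fun n => ?_) ?_ s2 (s1.mul_left _)
    · rcases eq_or_ne n 0 with rfl | hn0
      · simp
      · have := mul_le_mul_of_nonneg_left (hJ n hn0).le (ha n)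
        calc _ ≤ _ := this
          _ = _ := by unfold Jn; ring
    · have := mul_lt_mul_of_pos_left (hJ 1 one_ne_zero) ha1
      calc _ < _ := this
        _ = _ := by unfold Jn; ring
  have a1 : |z1| < 1 / 2 := by rw [abs_of_pos hz]; exact hz1'
  have a2 : |z2| < 1 / 2 := by rw [abs_of_pos hz2']; exact hz2
  have id1 := machine_id h hW hs a1
  have id2 := machine_id h hW hs a2
  have A1 := Aw_pos hW hz hz1'
  have A2 := Aw_pos hW hz2' hz2
  have hkA := kfac_Aw hW hz hz12 hz2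
  have x1 : Xw W F z1 * Aw W z1 =
      kap F * Aw W z1 - ∫ t in Ioi 0, Cw W z1 t * cv omt F t := by
    unfold Xw
    rw [div_mul_cancel₀ _ A1.ne', neg_mul, id1]
    ring
  have x2 : Xw W F z2 * Aw W z2 =
      kap F * Aw W z2 - ∫ t in Ioi 0, Cw W z2 t * cv omt F t := by
    unfold Xw
    rw [div_mul_cancel₀ _ A2.ne', neg_mul, id2]
    ring
  set ρ0 := (1 / 4 - z2 ^ 2) / (1 / 4 - z1 ^ 2) with hρ0
  have hfin : ((1 - R * ρ0) * kap F + R * ρ0 * Xw W F z1) * Aw W z2 < Xw W F z2 * Aw W z2 := by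
    rw [x2]
    have e1 : (∫ t in Ioi 0, Cw W z1 t * cv omt F t) = kap F * Aw W z1 - Xw W F z1 * Aw W z1 := by
      linarith
    rw [e1] at hI
    have e2 : kfac W z1 z2 * R * (kap F * Aw W z1 - Xw W F z1 * Aw W z1) =
        R * (kap F - Xw W F z1) * (kfac W z1 z2 * Aw W z1) := by ring
    rw [e2, hkA] at hI
    nlinarith
  exact lt_of_mul_lt_mul_right hfin A2.le

/-- The kernel inequality in terms of `Jn`. -/
lemma Jn_ratio (hT : KernelHyp T) (hW : W = 1 ∨ W = -1) (hL : ellW W ≤ L) {z1 z2 : ℝ}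
    (hz : 0 < z1) (hz12 : z1 < z2) (hz2 : z2 < 1 / 2) (n : ℕ) :
    Jn W T L n z2 < kfac W z1 z2 * rexp ((z2 - z1) * L) * Jn W T L n z1 := by
  have hlog : 0 ≤ Real.log n := Real.log_natCast_nonneg n
  have h1 := kernel_ratio hT (b := Real.log n) (L0 := L) hlog hz hz12 hz2 hW hL
  have e : ∀ z : ℝ, Jn W T L n z =
      rexp ((L - Real.log n) / 2) * ∫ t in Ioi 0, T (t + Real.log n - L) * Cw W z t := by
    intro z
    unfold Jn
    rw [← integral_const_mul]
    congr 1
    ext t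
    unfold hn
    ring
  rw [e, e]
  have h2 := mul_lt_mul_of_pos_left h1 (Real.exp_pos ((L - Real.log n) / 2))
  calc _ < _ := h2
    _ = _ := by ring

/-- The quantitative propagation inequality. -/
theorem machine_ineq (h : Rep c T L F) (hW : W = 1 ∨ W = -1) (hs : ∀ t, F (-t) = W * F t)
    (ha : ∀ n, 0 ≤ (oneA * c) n) (ha1 : 0 < (oneA * c) 1)
    (hT : KernelHyp (cv (Tk 0) T)) (hL : ellW W ≤ L) {z1 z2 : ℝ} (hz : 0 < z1)
    (hz12 : z1 < z2) (hz2 : z2 < 1 / 2) :
    (1 - rexp ((z2 - z1) * L) * ((1 / 4 - z2 ^ 2) / (1 / 4 - z1 ^ 2))) * kap F +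
      rexp ((z2 - z1) * L) * ((1 / 4 - z2 ^ 2) / (1 / 4 - z1 ^ 2)) * Xw W F z1 < Xw W F z2 :=
  machine_ineq_gen h hW hs ha ha1 hz hz12 hz2
    (fun n _ => Jn_ratio hT hW hL hz hz12 hz2 n)

end Pool.Agent.MP0016c7
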