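import Mathlib
import Pool.Agent.Lib.MP_0016c7_nt.EvenArith
import Pool.Agent.Lib.MP_0016c7_nt.Machine2

open Real Set MeasureTheory Filter Topology
open scoped ENNReal ArithmeticFunction

namespace Pool.Agent.MP0016c7

lemma oneA_mul_cA {q : ℕ} (χ : DirichletCharacter ℂ q) : oneA * cA χ = coeff1 χ := rfl

/-- real version of `Bk` -/
noncomputable def BR (v : ℝ) : ℝ := ∫ r in Ioi (0 : ℝ), rexp (-(π * v * (2 * cosh r)))

lemma cosh_ge_linear (r : ℝ) : r / 2 ≤ cosh r := by
  rw [cosh_eq]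
  have h1 := add_one_le_exp r
  have h2 := exp_pos (-r)
  linarith

lemma integrableOn_BR {v : ℝ} (hv : 0 < v) :
    IntegrableOn (fun r : ℝ => rexp (-(π * v * (2 * cosh r)))) (Ioi 0) := by
  have h1 : IntegrableOn (fun r : ℝ => rexp (-(π * v) * r)) (Ioi 0) :=
    integrableOn_exp_mul_Ioi (by have := pi_pos; nlinarith [mul_pos pi_pos hv]) 0
  refine Integrable.mono' h1 (by fun_prop) ?_
  filter_upwards [ae_restrict_mem measurableSet_Ioi] with r hr
  rw [Real.norm_eq_abs, abs_of_pos (exp_pos _)]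
  apply exp_le_exp.mpr
  have h2 := cosh_ge_linear r
  have h3 := mul_pos pi_pos hv
  nlinarith

lemma Bk_eq {v : ℝ} (hv : 0 < v) : Bk v = ENNReal.ofReal (BR v) := by
  unfold Bk BR
  rw [ofReal_integral_eq_lintegral_ofReal (integrableOn_BR hv)
    (Filter.Eventually.of_forall fun r => (exp_pos _).le)]

lemma cv_Tk0 (t : ℝ) : cv (Tk 0) (Tk 0) t = rexp (t / 2) * BR (rexp t) := by
  unfold cv
  have h1 : ∀ τ : ℝ, Tk 0 τ * Tk 0 (t - τ) =
      rexp (t / 2) * rexp (-(π * rexp t * (2 * cosh (2 * (τ - t / 2))))) := by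
    intro τ
    unfold Tk
    rw [← exp_add, ← exp_add]
    congr 1
    rw [cosh_eq]
    have e1 : rexp (2 * τ) = rexp t * rexp (2 * (τ - t / 2)) := by
      rw [← exp_add]; congr 1; ring
    have e2 : rexp (2 * (t - τ)) = rexp t * rexp (-(2 * (τ - t / 2))) := by
      rw [← exp_add]; congr 1; ring
    rw [e1, e2]
    ring
  simp_rw [h1]
  rw [integral_const_mul]
  congr 1
  have h2 : ∫ τ : ℝ, rexp (-(π * rexp t * (2 * cosh (2 * (τ - t / 2))))) =
      ∫ τ : ℝ, rexp (-(π * rexp t * (2 * cosh (2 * τ)))) :=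
    integral_sub_right_eq_self (fun τ => rexp (-(π * rexp t * (2 * cosh (2 * τ))))) (t / 2)
  rw [h2, Measure.integral_comp_mul_left (fun τ => rexp (-(π * rexp t * (2 * cosh τ)))) 2]
  have h3 : ∫ τ : ℝ, rexp (-(π * rexp t * (2 * cosh τ))) =
      2 * ∫ τ in Ioi (0 : ℝ), rexp (-(π * rexp t * (2 * cosh τ))) := by
    rw [← integral_comp_abs (f := fun τ => rexp (-(π * rexp t * (2 * cosh τ))))]
    congr 1
    ext τ
    rw [cosh_abs]
  rw [h3]
  unfold BR
  rw [abs_of_pos (by norm_num : (0 : ℝ) < 2⁻¹), smul_eq_mul]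
  ring

lemma exp_neg_half_log_q {q : ℕ} (hq : 0 < q) : rexp (-(Real.log q / 2)) = 1 / √(q : ℝ) := by
  have hq' : (0 : ℝ) < q := by exact_mod_cast hq
  rw [exp_neg, ← log_sqrt hq'.le, exp_log (sqrt_pos.mpr hq'), one_div]

lemma hn_even {q : ℕ} (hq : 0 < q) {n : ℕ} (hn0 : n ≠ 0) (t : ℝ) :
    hn (cv (Tk 0) (Tk 0)) (Real.log q / 2) n t =
      rexp (t / 2) * BR ((n : ℝ) / √(q : ℝ) * rexp t) := by
  have hn' : (0 : ℝ) < n := by exact_mod_cast Nat.pos_of_ne_zero hn0
  unfold hn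
  rw [cv_Tk0, ← mul_assoc, ← exp_add]
  have e1 : (Real.log q / 2 - Real.log n) / 2 + (t + Real.log n - Real.log q / 2) / 2 = t / 2 := by
    ring
  have e2 : rexp (t + Real.log n - Real.log q / 2) = (n : ℝ) / √(q : ℝ) * rexp t := by
    rw [sub_eq_add_neg, exp_add, exp_add, exp_log hn', exp_neg_half_log_q hq]
    ring
  rw [e1, e2]

variable {q : ℕ} [NeZero q] (χ : DirichletCharacter ℂ q)

lemma BR_nonneg (v : ℝ) : 0 ≤ BR v := by
  unfold BR
  exact integral_nonneg fun r => (exp_pos _).le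

/-- the machine series in the multiplicative variable -/
noncomputable def PR (u : ℝ) : ℝ := rexp (-(Real.log u / 2)) * cv omt (gth χ) (Real.log u)

lemma hasSum_PR (hq1 : q ≠ 1) (h2 : χ ^ 2 = 1) (he : χ.Even) {u : ℝ} (hu : 0 < u) :
    HasSum (fun n : ℕ => coeff1 χ n * BR ((n : ℝ) / √(q : ℝ) * u)) (PR χ u) := by
  have hrep := rep_omt.conv (rep_gth χ hq1 h2)
  rw [zero_add, par_even χ he, oneA_mul_cA] at hrep
  have h1 := (hrep.hs (Real.log u)).mul_left (rexp (-(Real.log u / 2)))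
  refine h1.congr_fun fun n => ?_
  rcases eq_or_ne n 0 with rfl | hn0
  · simp
  · rw [hn_even (NeZero.pos q) hn0, exp_log hu]
    have e1 : rexp (-(Real.log u / 2)) * rexp (Real.log u / 2) = 1 := by
      rw [← exp_add]; simp
    calc coeff1 χ n * BR ((n : ℝ) / √(q : ℝ) * u)
        = coeff1 χ n * ((rexp (-(Real.log u / 2)) * rexp (Real.log u / 2)) *
          BR ((n : ℝ) / √(q : ℝ) * u)) := by rw [e1, one_mul]
      _ = _ := by ring

lemma PR_nonneg (hq1 : q ≠ 1) (h2 : χ ^ 2 = 1) (he : χ.Even) {u : ℝ} (hu : 0 < u) :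
    0 ≤ PR χ u :=
  (hasSum_PR χ hq1 h2 he hu).nonneg fun n => mul_nonneg (coeff1_nonneg h2 n) (BR_nonneg _)

lemma PsiI_eq_PR (hq1 : q ≠ 1) (h2 : χ ^ 2 = 1) (he : χ.Even) {u : ℝ} (hu : 0 < u) :
    PsiI (rstar χ) (√(q : ℝ)) u = ENNReal.ofReal (PR χ u) := by
  have hq : (0 : ℝ) < q := by exact_mod_cast NeZero.pos q
  have hsq : 0 < √(q : ℝ) := sqrt_pos.mpr hq
  rw [PsiI_rstar h2 hsq hu]
  have hs := hasSum_PR χ hq1 h2 he hu
  rw [← hs.tsum_eq, ENNReal.ofReal_tsum_of_nonneg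
    (fun n => mul_nonneg (coeff1_nonneg h2 n) (BR_nonneg _)) hs.summable]
  refine tsum_congr fun n => ?_
  rw [ENNReal.ofReal_mul (coeff1_nonneg h2 n)]
  rcases Nat.eq_zero_or_pos n with hn | hn
  · subst hn; simp
  · rw [Bk_eq]
    have : (0 : ℝ) < n := Nat.cast_pos.mpr hn
    positivity

/-- functional equation of `PR` -/
lemma PR_fe (hq1 : q ≠ 1) (h2 : χ ^ 2 = 1) {W : ℝ} (hW : W = 1 ∨ W = -1)
    (hs : ∀ t, gth χ (-t) = W * gth χ t) {u : ℝ} (hu : 0 < u) :
    PR χ (1 / u) = W * u * PR χ u + kap (gth χ) * (u - W) := by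
  have hrep := rep_gth χ hq1 h2
  set t := Real.log u with ht
  have h1 := cv_lam hrep hW hs t
  have h2' := cv_lam hrep hW hs (-t)
  have h3 := cv_lam_neg hs t
  rw [h1, h2'] at h3
  unfold PR
  have hlog : Real.log (1 / u) = -t := by rw [one_div, log_inv]
  rw [hlog, ← ht]
  have hut : u = rexp t := (exp_log hu).symm
  have e1 : rexp (-(-t / 2)) = rexp (t / 2) := by congr 1; ring
  have e2 : rexp (t / 2) * rexp (t / 2) = u := by rw [hut, ← exp_add]; congr 1; ring
  have e3 : rexp (t / 2) * rexp (-(t / 2)) = 1 := by rw [← exp_add]; simp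
  rw [e1] at h3 ⊢
  have h4 : cv omt (gth χ) (-t) = W * (cv omt (gth χ) t - kap (gth χ) * rexp (-(t / 2))) +
      kap (gth χ) * rexp (t / 2) := by linarith
  rw [h4]
  calc rexp (t / 2) * (W * (cv omt (gth χ) t - kap (gth χ) * rexp (-(t / 2))) +
      kap (gth χ) * rexp (t / 2))
      = W * rexp (t / 2) * cv omt (gth χ) t - W * kap (gth χ) * (rexp (t / 2) * rexp (-(t / 2))) +
        kap (gth χ) * (rexp (t / 2) * rexp (t / 2)) := by ring
    _ = W * (rexp (t / 2) * (rexp (t / 2) * rexp (-(t / 2)))) * cv omt (gth χ) t -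
        W * kap (gth χ) + kap (gth χ) * u := by rw [e3, e2]; ring
    _ = W * (rexp (t / 2) * rexp (t / 2)) * (rexp (-(t / 2)) * cv omt (gth χ) t) +
        kap (gth χ) * (u - W) := by ring
    _ = _ := by rw [e2]

lemma image_exp_Ioi : rexp '' Ioi 0 = Ioi 1 := by
  ext u
  constructor
  · rintro ⟨t, ht, rfl⟩
    exact one_lt_exp_iff.mpr ht
  · intro hu
    exact ⟨Real.log u, log_pos hu, exp_log (lt_trans zero_lt_one hu)⟩

/-- the folded integral in the multiplicative variable -/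
lemma lintegral_change {W z : ℝ} (hCw : ∀ t : ℝ, 0 < t → 0 ≤ Cw W z t) :
    ∫⁻ u in Ioi (1 : ℝ), ENNReal.ofReal (PR χ u) *
        ENNReal.ofReal (u ^ ((z + 1 / 2) - 1) + W * u ^ (-(z + 1 / 2))) =
      ∫⁻ t in Ioi (0 : ℝ), ENNReal.ofReal (Cw W z t * cv omt (gth χ) t) := by
  rw [← image_exp_Ioi, lintegral_image_eq_lintegral_abs_deriv_mul measurableSet_Ioi
    (fun x _ => (Real.hasDerivAt_exp x).hasDerivWithinAt) Real.exp_injective.injOn]
  refine setLIntegral_congr_fun measurableSet_Ioi fun t ht => ?_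
  have ht0 : (0 : ℝ) < t := ht
  have h1 : (rexp t) ^ ((z + 1 / 2) - 1) + W * (rexp t) ^ (-(z + 1 / 2)) =
      rexp (-(t / 2)) * Cw W z t := by
    unfold Cw
    rw [← exp_mul, ← exp_mul, mul_add, ← exp_add]
    have e1 : rexp (-(t / 2)) * (W * rexp (-(z * t))) = W * rexp (-(t / 2) + -(z * t)) := by
      rw [exp_add]; ring
    rw [e1]
    congr 2
    · ring
    · congr 1; ring
  rw [h1]
  simp only [abs_of_pos (exp_pos t)]
  have hC := hCw t ht0
  rw [mul_comm (ENNReal.ofReal (PR χ (rexp t))), ← mul_assoc,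
    ← ENNReal.ofReal_mul (exp_pos t).le, ← ENNReal.ofReal_mul (by positivity)]
  congr 1
  unfold PR
  rw [log_exp]
  have e2 : rexp t * (rexp (-(t / 2)) * Cw W z t) * (rexp (-(t / 2)) * cv omt (gth χ) t) =
      (rexp t * (rexp (-(t / 2)) * rexp (-(t / 2)))) * (Cw W z t * cv omt (gth χ) t) := by ring
  rw [e2, ← exp_add, ← exp_add]
  have e3 : t + (-(t / 2) + -(t / 2)) = 0 := by ring
  rw [e3, exp_zero, one_mul]

lemma four_le_of_even (hχ : χ.IsPrimitive) (hq1 : q ≠ 1) (he : χ.Even) : 4 ≤ q := by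
  by_contra hlt
  have h0 : q ≠ 0 := NeZero.ne q
  have hne := primitive_ne_one χ hχ hq1
  apply hne
  have hcase : q = 2 ∨ q = 3 := by omega
  have hu : ∀ a : (ZMod q)ˣ, (a : ZMod q) = 1 ∨ (a : ZMod q) = -1 := by
    rcases hcase with h | h
    · subst h; decide
    · subst h; decide
  ext a
  rcases hu a with h | h
  · rw [h]; simp
  · rw [h, he, MulChar.one_apply]
    rw [← h]; exact a.isUnit

/-- Positivity of the completed integral near `1` for even characters. -/
theorem even_integral_pos (hχ : χ.IsPrimitive) (hq1 : q ≠ 1) (h2 : χ ^ 2 = 1) (he : χ.Even)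
    (hκ : 0 < kap (gth χ)) {s : ℝ} (hs1 : s < 1)
    (hs : (1 - s) * √(q : ℝ) ≤ 6 / π ^ 2 * (Real.log q - 1 / 8)) :
    0 < ∫ t : ℝ, rexp ((s - 1 / 2) * t) * gth χ t := by
  obtain ⟨W, hW, hfe⟩ := gth_fe χ hχ hq1 h2
  have hrep := rep_gth χ hq1 h2
  have hq4 := four_le_of_even χ hχ hq1 he
  have hq : (0 : ℝ) < q := by exact_mod_cast NeZero.pos q
  set N := √(q : ℝ) with hNdef
  have hN : 2 ≤ N := by
    rw [hNdef]
    apply le_sqrt_of_sq_le
    have : (4 : ℝ) ≤ q := by exact_mod_cast hq4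
    linarith
  have hN0 : 0 < N := by linarith
  have hlogN : Real.log q = 2 * Real.log N := by
    rw [hNdef, log_sqrt hq.le]; ring
  rw [hlogN] at hs
  have hδ1 := delta_le hN0 hs
  have hshalf : 1 / 2 < s := by norm_num at hδ1 ⊢; linarith
  set z := s - 1 / 2 with hz
  have hz0 : 0 < z := by rw [hz]; linarith
  have hz2 : z < 1 / 2 := by rw [hz]; linarith
  have hzabs : |z| < 1 / 2 := by rw [abs_of_pos hz0]; exact hz2
  have hsz : s = z + 1 / 2 := by rw [hz]; ring
  have hmach := machine_id hrep hW hfe hzabs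
  have hneg := integral_exp_lam_neg hzabs
  have hmeas : Measurable (cv omt (gth χ)) := (rep_omt.conv hrep).measurable
  have hCw : ∀ t : ℝ, 0 < t → 0 ≤ Cw W z t := by
    intro t ht
    unfold Cw
    have h1 : rexp (-(z * t)) ≤ rexp (z * t) := by
      apply exp_le_exp.mpr
      have := mul_pos hz0 ht
      linarith
    have h3 := exp_pos (-(z * t))
    rcases hW with rfl | rfl <;> linarith
  have hψ : ∀ t : ℝ, 0 ≤ cv omt (gth χ) t := by
    intro t
    have h1 := PR_nonneg χ hq1 h2 he (exp_pos t)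
    unfold PR at h1
    rw [log_exp] at h1
    exact nonneg_of_mul_nonneg_right h1 (exp_pos _)
  have hfin : ∀ u : ℝ, 0 < u → PsiI (rstar χ) N u ≠ ∞ := by
    intro u hu
    rw [PsiI_eq_PR χ hq1 h2 he hu]
    exact ENNReal.ofReal_ne_top
  have hchange := lintegral_change χ hCw
  rw [← hsz] at hchange
  have hkey : ∫⁻ t in Ioi (0 : ℝ), ENNReal.ofReal (Cw W z t * cv omt (gth χ) t) <
      ENNReal.ofReal (kap (gth χ) * Aw W z) := by
    rw [← hchange]
    have hAw : Aw W z = 1 / (1 - s) + W / s := by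
      unfold Aw
      rw [hsz]
      congr 2
      · ring
      · ring
    rw [hAw]
    have hcongr : ∫⁻ u in Ioi (1 : ℝ), ENNReal.ofReal (PR χ u) *
        ENNReal.ofReal (u ^ (s - 1) + W * u ^ (-s)) =
        ∫⁻ u in Ioi (1 : ℝ), PsiI (rstar χ) N u *
        ENNReal.ofReal (u ^ (s - 1) + W * u ^ (-s)) := by
      refine setLIntegral_congr_fun measurableSet_Ioi fun u hu => ?_
      have hu0 : (0 : ℝ) < u := lt_trans zero_lt_one hu
      simp only [PsiI_eq_PR χ hq1 h2 he hu0, hNdef]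
    rw [hcongr]
    rcases hW with rfl | rfl
    · have hasm := assembly_pos (rs := rstar χ) (κ := kap (gth χ)) hN (by simp) (rstar_one χ)
        hs1 hs hfin (by
          intro u hu
          have hu0 : 0 < u := by linarith
          rw [PsiI_eq_PR χ hq1 h2 he hu0, PsiI_eq_PR χ hq1 h2 he (by positivity : 0 < 1 / u),
            PR_fe χ hq1 h2 (Or.inl rfl) hfe hu0, one_mul, ENNReal.ofReal_add
              (mul_nonneg hu0.le (PR_nonneg χ hq1 h2 he hu0))
              (mul_nonneg hκ.le (by linarith)), ENNReal.ofReal_mul hu0.le])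
      simpa only [one_mul] using hasm
    · have hPR1 : PR χ 1 = kap (gth χ) := by
        have := PR_fe χ hq1 h2 (Or.inr rfl) hfe one_pos
        rw [div_one] at this
        linarith
      have hasm := assembly_neg (rs := rstar χ) (κ := kap (gth χ)) hN hκ (by simp)
        hs1 hs (by rw [PsiI_eq_PR χ hq1 h2 he one_pos, hPR1])
      have e1 : ∀ u : ℝ, u ^ (s - 1) + -1 * u ^ (-s) = u ^ (s - 1) - u ^ (-s) := by
        intro u; ring
      have e2 : 1 / (1 - s) + -1 / s = 1 / (1 - s) - 1 / s := by ring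
      simp_rw [e1, e2]
      exact hasm
  have hint : ∫ t in Ioi (0 : ℝ), Cw W z t * cv omt (gth χ) t < kap (gth χ) * Aw W z := by
    rw [integral_eq_lintegral_of_nonneg_ae]
    · have hA : 0 < kap (gth χ) * Aw W z := mul_pos hκ (Aw_pos hW hz0 hz2)
      exact (ENNReal.toReal_lt_of_lt_ofReal hkey)
    · filter_upwards [ae_restrict_mem measurableSet_Ioi] with t ht
      exact mul_nonneg (hCw t ht) (hψ t)
    · apply Measurable.aestronglyMeasurable
      apply Measurable.mul _ hmeas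
      unfold Cw
      fun_prop
  have hprod : (∫ t, rexp (z * t) * lam t) * ∫ t, rexp (z * t) * gth χ t < 0 := by
    rw [hmach]; linarith
  by_contra hcon
  have := mul_nonneg_of_nonpos_of_nonpos hneg.le (not_lt.mp hcon)
  linarith

end Pool.Agent.MP0016c7
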