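import Mathlib
import Pool.Agent.Lib.MP_0016c7_nt.Machine2

open Filter Topology Set MeasureTheory
open scoped Real

namespace Pool.Agent.MP0016c7

/-! ### Positivity to the right of one -/

lemma Rep.integrable_exp_gt {c : ArithmeticFunction ℝ} {T : ℝ → ℝ} {L : ℝ} {g : ℝ → ℝ}
    (h : Rep c T L g) {z : ℝ} (hz : 1 / 2 < z) : Integrable (fun t => rexp (z * t) * g t) := by
  obtain ⟨C1, hC10, hC1⟩ := h.abs_le (z := z + 1) (by linarith)
  obtain ⟨C2, hC20, hC2⟩ := h.abs_le (z := (z + 1 / 2) / 2) (by linarith)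
  set b := min 1 ((z - 1 / 2) / 2) with hb
  have hb0 : 0 < b := lt_min one_pos (by linarith)
  refine Integrable.mono' ((integrable_exp_neg_mul_abs (b := b) hb0).const_mul (max C1 C2)) ?_ ?_
  · have := h.measurable
    exact (by fun_prop : Measurable _).aestronglyMeasurable
  · refine Eventually.of_forall fun t => ?_
    rw [Real.norm_eq_abs, abs_mul, abs_of_pos (Real.exp_pos _)]
    rcases le_total 0 t with ht | ht
    · rw [abs_of_nonneg ht]
      calc rexp (z * t) * |g t| ≤ rexp (z * t) * (C1 * rexp (-(z + 1) * t)) :=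
            mul_le_mul_of_nonneg_left (hC1 t) (Real.exp_pos _).le
        _ = C1 * rexp (-1 * t) := by
            have : rexp (-1 * t) = rexp (z * t) * rexp (-(z + 1) * t) := by
              rw [← Real.exp_add]; ring_nf
            rw [this]; ring
        _ ≤ max C1 C2 * rexp (-b * t) := by
            refine mul_le_mul (le_max_left _ _) ?_ (Real.exp_pos _).le (le_max_of_le_left hC10)
            rw [Real.exp_le_exp]
            have : b ≤ 1 := min_le_left _ _
            nlinarith
    · rw [abs_of_nonpos ht]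
      calc rexp (z * t) * |g t| ≤ rexp (z * t) * (C2 * rexp (-((z + 1 / 2) / 2) * t)) :=
            mul_le_mul_of_nonneg_left (hC2 t) (Real.exp_pos _).le
        _ = C2 * rexp (((z - 1 / 2) / 2) * t) := by
            have : rexp (((z - 1 / 2) / 2) * t) = rexp (z * t) * rexp (-((z + 1 / 2) / 2) * t) := by
              rw [← Real.exp_add]; ring_nf
            rw [this]; ring
        _ ≤ max C1 C2 * rexp (-b * -t) := by
            refine mul_le_mul (le_max_right _ _) ?_ (Real.exp_pos _).le (le_max_of_le_left hC10)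
            rw [Real.exp_le_exp]
            have : b ≤ (z - 1 / 2) / 2 := min_le_right _ _
            nlinarith

lemma Rep.pos {a : ArithmeticFunction ℝ} {T : ℝ → ℝ} {L : ℝ} {g : ℝ → ℝ}
    (h : Rep a T L g) (ha : ∀ n, 0 ≤ a n) (ha1 : 0 < a 1) (t : ℝ) : 0 < g t := by
  rw [← (h.hs t).tsum_eq]
  refine (h.hs t).summable.tsum_pos ?_ 1 ?_
  · intro n
    exact mul_nonneg (ha n) (h.ker.hn_pos L n t).le
  · exact mul_pos ha1 (h.ker.hn_pos L 1 t)

lemma integral_exp_pos {g : ℝ → ℝ} {z : ℝ} (hg : ∀ t, 0 < g t)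
    (hi : Integrable (fun t => rexp (z * t) * g t)) : 0 < ∫ t, rexp (z * t) * g t := by
  rw [integral_pos_iff_support_of_nonneg]
  · have : Function.support (fun t => rexp (z * t) * g t) = univ := by
      ext t
      simp only [Function.mem_support, mem_univ, iff_true]
      exact (mul_pos (Real.exp_pos _) (hg t)).ne'
    rw [this]
    simp
  · intro t
    exact (mul_pos (Real.exp_pos _) (hg t)).le
  · exact hi

/-- Positivity of the Mellin transform to the right of the critical strip. -/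
lemma integral_pos_of_gt {c : ArithmeticFunction ℝ} {T : ℝ → ℝ} {L W : ℝ} {F : ℝ → ℝ}
    (h : Rep c T L F) (hW : W = 1 ∨ W = -1) (hs : ∀ t, F (-t) = W * F t)
    (ha : ∀ n, 0 ≤ (oneA * c) n) (ha1 : 0 < (oneA * c) 1) {z : ℝ} (hz : 1 / 2 < z) :
    0 < ∫ t, rexp (z * t) * F t := by
  have hR := rep_omt.conv h
  have i1 := rep_omt.integrable_exp_gt hz
  have i2 := h.integrable_exp hW hs z
  have e := integral_exp_cv z i1 i2
  have p1 := integral_exp_pos omt_pos i1
  have p2 := integral_exp_pos (hR.pos ha ha1) (hR.integrable_exp_gt hz)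
  rw [e] at p2
  exact (mul_pos_iff_of_pos_left p1).mp p2

/-! ### The archimedean factor -/

section single

open DirichletCharacter

variable {q : ℕ} [NeZero q] (χ : DirichletCharacter ℂ q)

/-- The archimedean factor. -/
noncomputable def gaf (s : ℝ) : ℝ := π ^ (-(s + par χ) / 2) * Real.Gamma ((s + par χ) / 2)

/-- The full factor between the Mellin transform and the `L`-function. -/
noncomputable def Gf (s : ℝ) : ℝ := 1 / 2 * (√q) ^ s * gaf χ s

lemma par_nonneg : 0 ≤ par χ := by
  rcases χ.even_or_odd with he | ho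
  · rw [par_even χ he]
  · rw [par_odd χ ho]; norm_num

lemma par_le_one : par χ ≤ 1 := by
  rcases χ.even_or_odd with he | ho
  · rw [par_even χ he]; norm_num
  · rw [par_odd χ ho]

lemma gammaFactor_real (s : ℝ) : gammaFactor χ (s : ℂ) = ((gaf χ s : ℝ) : ℂ) := by
  have key : ∀ x : ℝ, Complex.Gammaℝ (x : ℂ) =
      ((π ^ (-x / 2) * Real.Gamma (x / 2) : ℝ) : ℂ) := by
    intro x
    rw [Complex.Gammaℝ_def, Complex.ofReal_mul, Complex.ofReal_cpow Real.pi_pos.le,
      ← Complex.Gamma_ofReal]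
    push_cast
    rfl
  rcases χ.even_or_odd with he | ho
  · rw [he.gammaFactor_def, key]
    unfold gaf
    rw [par_even χ he, add_zero]
  · rw [ho.gammaFactor_def]
    have : (s : ℂ) + 1 = ((s + 1 : ℝ) : ℂ) := by push_cast; rfl
    rw [this, key]
    unfold gaf
    rw [par_odd χ ho]

lemma gaf_pos {s : ℝ} (hs : 0 < s) : 0 < gaf χ s := by
  have := par_nonneg χ
  unfold gaf
  exact mul_pos (Real.rpow_pos_of_pos Real.pi_pos _) (Real.Gamma_pos_of_pos (by linarith))

lemma Gf_pos {s : ℝ} (hs : 0 < s) : 0 < Gf χ s := by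
  have hq : (0 : ℝ) < q := by exact_mod_cast (NeZero.pos q)
  have := gaf_pos χ hs
  unfold Gf
  have : 0 < (√q : ℝ) ^ s := Real.rpow_pos_of_pos (Real.sqrt_pos.mpr hq) _
  positivity

lemma Gf_continuousOn : ContinuousOn (Gf χ) (Ioi 0) := by
  have hq : (0 : ℝ) < q := by exact_mod_cast (NeZero.pos q)
  have hp := par_nonneg χ
  unfold Gf gaf
  refine ContinuousOn.mul (ContinuousOn.mul continuousOn_const ?_) (ContinuousOn.mul ?_ ?_)
  · exact ((Real.continuous_const_rpow (Real.sqrt_pos.mpr hq).ne')).continuousOn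
  · refine ((Real.continuous_const_rpow Real.pi_pos.ne').comp ?_).continuousOn
    fun_prop
  · intro s hs
    have hs0 : (0 : ℝ) < s := hs
    refine ContinuousAt.continuousWithinAt ?_
    have h1 : ContinuousAt Real.Gamma ((s + par χ) / 2) := by
      refine (Real.differentiableAt_Gamma ?_).continuousAt
      intro m hm
      have : (0 : ℝ) ≤ m := Nat.cast_nonneg m
      linarith
    exact ContinuousAt.comp (f := fun s : ℝ => (s + par χ) / 2) h1
      (by fun_prop : Continuous fun s : ℝ => (s + par χ) / 2).continuousAt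

/-- Real value of the `L`-function. -/
noncomputable def Lr (s : ℝ) : ℝ := (LFunction χ (s : ℂ)).re

theorem gth_L (hχ : χ.IsPrimitive) (hq1 : q ≠ 1) (h2 : χ ^ 2 = 1) {s : ℝ} (hs : 0 < s) :
    LFunction χ (s : ℂ) = (Lr χ s : ℂ) ∧
    ∫ t, rexp ((s - 1 / 2) * t) * gth χ t = Gf χ s * Lr χ s := by
  have hq : (0 : ℝ) < q := by exact_mod_cast (NeZero.pos q)
  have h := gth_integral χ hχ hq1 h2 s
  have hg := gaf_pos χ hs
  have hG := Gf_pos χ hs
  have hL := LFunction_eq_completed_div_gammaFactor χ (s : ℂ) (Or.inr hq1)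
  rw [gammaFactor_real] at hL
  have hgc : ((gaf χ s : ℝ) : ℂ) ≠ 0 := by exact_mod_cast hg.ne'
  have hc : completedLFunction χ (s : ℂ) = LFunction χ (s : ℂ) * ((gaf χ s : ℝ) : ℂ) := by
    rw [hL, div_mul_cancel₀ _ hgc]
  rw [hc, ← Complex.ofReal_cpow (Real.sqrt_nonneg _)] at h
  have h3 : ((∫ t : ℝ, rexp ((s - 1 / 2) * t) * gth χ t : ℝ) : ℂ) =
      ((Gf χ s : ℝ) : ℂ) * LFunction χ (s : ℂ) := by
    rw [h]
    unfold Gf
    push_cast
    ring
  have hGc : ((Gf χ s : ℝ) : ℂ) ≠ 0 := by exact_mod_cast hG.ne'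
  have h4 : LFunction χ (s : ℂ) =
      (((∫ t : ℝ, rexp ((s - 1 / 2) * t) * gth χ t) / Gf χ s : ℝ) : ℂ) := by
    rw [Complex.ofReal_div, h3, mul_div_cancel_left₀ _ hGc]
  have h5 : Lr χ s = (∫ t : ℝ, rexp ((s - 1 / 2) * t) * gth χ t) / Gf χ s := by
    unfold Lr
    rw [h4, Complex.ofReal_re]
  refine ⟨?_, ?_⟩
  · rw [h5, ← h4]
  · rw [h5, mul_div_cancel₀ _ hG.ne']

lemma Lr_continuous (hne : χ ≠ 1) : Continuous (Lr χ) := by
  unfold Lr
  exact Complex.continuous_re.comp
    ((differentiable_LFunction hne).continuous.comp Complex.continuous_ofReal)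

end single

end Pool.Agent.MP0016c7
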