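import Mathlib
import Pool.Agent.Lib.MP_0016c7_nt.KernelIneq
import Pool.Agent.Lib.MP_0016c7_nt.Machine
import Pool.Agent.Lib.MP_0016c7_nt.Theta

open Filter Topology Set MeasureTheory
open scoped Real

namespace Pool.Agent.MP0016c7

/-- Decay property of kernels: `k` is the number of Gaussian factors, `A` the sum of the parities. -/
def KQ (k A : ℝ) (T : ℝ → ℝ) : Prop :=
  ∀ t r : ℝ, 0 ≤ r → T (t + r) ≤
    T t * rexp ((1 / 2 + A / k) * r - k * π * rexp (2 * t / k) * (rexp (2 * r / k) - 1))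

lemma kq_Tk (a : ℝ) : KQ 1 a (Tk a) := by
  intro t r _
  unfold Tk
  rw [← Real.exp_add, Real.exp_le_exp]
  have : rexp (2 * (t + r)) = rexp (2 * t) * rexp (2 * r) := by
    rw [← Real.exp_add]; ring_nf
  rw [this]
  apply le_of_eq
  simp only [div_one]
  ring

lemma KQ.conv {k₁ A₁ k₂ A₂ : ℝ} {T₁ T₂ : ℝ → ℝ} (hk₁ : 0 < k₁) (hk₂ : 0 < k₂)
    (h₁ : KQ k₁ A₁ T₁) (h₂ : KQ k₂ A₂ T₂) (K₁ : Ker T₁) (K₂ : Ker T₂) :
    KQ (k₁ + k₂) (A₁ + A₂) (cv T₁ T₂) := by
  intro t r hr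
  set k := k₁ + k₂ with hk
  have hk0 : 0 < k := by positivity
  set r₁ := r * (k₁ / k) with hr₁
  set r₂ := r * (k₂ / k) with hr₂
  have hr₁0 : 0 ≤ r₁ := by positivity
  have hr₂0 : 0 ≤ r₂ := by positivity
  have hr12 : r₁ + r₂ = r := by
    rw [hr₁, hr₂, hk]; field_simp
  set E := rexp ((1 / 2 + (A₁ + A₂) / k) * r - k * π * rexp (2 * t / k) * (rexp (2 * r / k) - 1))
    with hE
  have e1 : cv T₁ T₂ (t + r) = ∫ τ, T₁ (τ + r₁) * T₂ (t - τ + r₂) := by
    unfold cv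
    rw [← integral_add_right_eq_self (fun τ => T₁ τ * T₂ (t + r - τ)) r₁]
    congr 1
    ext τ
    congr 2
    linarith only [hr12]
  have i1 : Integrable (fun τ => T₁ (τ + r₁) * T₂ (t - τ + r₂)) := by
    have := (K₁.cv_integrand K₂ (t + r)).comp_add_right r₁
    refine this.congr (Eventually.of_forall fun τ => ?_)
    simp only
    congr 2
    linarith only [hr12]
  have i2 := (K₁.cv_integrand K₂ t).mul_const E
  rw [e1]
  unfold cv
  rw [← integral_mul_const]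
  refine integral_mono i1 i2 fun τ => ?_
  simp only
  have b1 := h₁ τ r₁ hr₁0
  have b2 := h₂ (t - τ) r₂ hr₂0
  have c1 : 2 * r₁ / k₁ = 2 * r / k := by rw [hr₁]; field_simp
  have c2 : 2 * r₂ / k₂ = 2 * r / k := by rw [hr₂]; field_simp
  rw [c1] at b1
  rw [c2] at b2
  refine (mul_le_mul b1 b2 (K₂.pos _).le (mul_nonneg (K₁.pos _).le (Real.exp_pos _).le)).trans ?_
  set u := rexp (2 * r / k) - 1 with hu
  have hu0 : 0 ≤ u := by
    have : 1 ≤ rexp (2 * r / k) := Real.one_le_exp (by positivity)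
    linarith
  have amgm : k * rexp (2 * t / k) ≤ k₁ * rexp (2 * τ / k₁) + k₂ * rexp (2 * (t - τ) / k₂) := by
    have hc := convexOn_exp.2 (mem_univ (2 * τ / k₁)) (mem_univ (2 * (t - τ) / k₂))
      (by positivity : 0 ≤ k₁ / k) (by positivity : 0 ≤ k₂ / k) (by rw [hk]; field_simp)
    simp only [smul_eq_mul] at hc
    have e2 : k₁ / k * (2 * τ / k₁) + k₂ / k * (2 * (t - τ) / k₂) = 2 * t / k := by
      field_simp; ring
    rw [e2] at hc
    have := mul_le_mul_of_nonneg_left hc hk0.le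
    calc k * rexp (2 * t / k) ≤ _ := this
      _ = _ := by field_simp
  have key : rexp ((1 / 2 + A₁ / k₁) * r₁ - k₁ * π * rexp (2 * τ / k₁) * u) *
      rexp ((1 / 2 + A₂ / k₂) * r₂ - k₂ * π * rexp (2 * (t - τ) / k₂) * u) ≤ E := by
    rw [hE, ← Real.exp_add, Real.exp_le_exp]
    have e3 : (1 / 2 + A₁ / k₁) * r₁ + (1 / 2 + A₂ / k₂) * r₂ = (1 / 2 + (A₁ + A₂) / k) * r := by
      rw [hr₁, hr₂]; field_simp; ring
    have e4 : π * u * (k * rexp (2 * t / k)) ≤
        π * u * (k₁ * rexp (2 * τ / k₁) + k₂ * rexp (2 * (t - τ) / k₂)) :=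
      mul_le_mul_of_nonneg_left amgm (mul_nonneg Real.pi_pos.le hu0)
    nlinarith only [e3, e4]
  calc _ = (T₁ τ * T₂ (t - τ)) * (rexp ((1 / 2 + A₁ / k₁) * r₁ - k₁ * π * rexp (2 * τ / k₁) * u) *
      rexp ((1 / 2 + A₂ / k₂) * r₂ - k₂ * π * rexp (2 * (t - τ) / k₂) * u)) := by ring
    _ ≤ _ := mul_le_mul_of_nonneg_left key (mul_nonneg (K₁.pos _).le (K₂.pos _).le)

/-- Lower bound property. -/
def KLow (T : ℝ → ℝ) : Prop := ∀ b r : ℝ, 0 ≤ r → T b * rexp (-r / 2) ≤ T (b - r)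

lemma klow_Tk0 : KLow (Tk 0) := by
  intro b r hr
  unfold Tk
  rw [← Real.exp_add, Real.exp_le_exp]
  have : rexp (2 * (b - r)) ≤ rexp (2 * b) := by
    rw [Real.exp_le_exp]; linarith
  nlinarith only [this, Real.pi_pos]

lemma KLow.conv {T₁ T₂ : ℝ → ℝ} (h₁ : KLow T₁) (K₁ : Ker T₁) (K₂ : Ker T₂) :
    KLow (cv T₁ T₂) := by
  intro b r hr
  have e1 : cv T₁ T₂ (b - r) = ∫ τ, T₁ (τ - r) * T₂ (b - τ) := by
    unfold cv
    rw [← integral_sub_right_eq_self (fun τ => T₁ τ * T₂ (b - r - τ)) r]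
    congr 1
    ext τ
    congr 2
    ring
  have i1 : Integrable (fun τ => T₁ (τ - r) * T₂ (b - τ)) := by
    have := (K₁.cv_integrand K₂ (b - r)).comp_sub_right r
    refine this.congr (Eventually.of_forall fun τ => ?_)
    simp only
    congr 2
    ring
  rw [e1]
  unfold cv
  rw [← integral_mul_const]
  refine integral_mono ((K₁.cv_integrand K₂ b).mul_const _) i1 fun τ => ?_
  simp only
  have := mul_le_mul_of_nonneg_right (h₁ τ r hr) (K₂.pos (b - τ)).le
  calc _ = _ := by ring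
    _ ≤ _ := this

lemma kernelHyp_of {k A : ℝ} {T : ℝ → ℝ} (hk : 0 < k) (hA : A / k ≤ 1 / 2) (K : Ker T)
    (hl : KLow T) (hq : KQ k A T) : KernelHyp T where
  cont := K.cont
  pos := K.pos
  low := hl
  upp b r hb hr := by
    refine (hq b r hr).trans ?_
    refine mul_le_mul_of_nonneg_left ?_ (K.pos b).le
    rw [Real.exp_le_exp]
    have h1 : 2 * r / k ≤ rexp (2 * r / k) - 1 := by
      have := Real.add_one_le_exp (2 * r / k)
      linarith only [this]
    have h2 : 1 ≤ rexp (2 * b / k) := Real.one_le_exp (by positivity)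
    have h3 : 0 ≤ 2 * r / k := by positivity
    have h4 : 2 * r / k ≤ rexp (2 * b / k) * (rexp (2 * r / k) - 1) := by nlinarith only [h1, h2, h3]
    have h5 : k * π * (2 * r / k) ≤ k * π * (rexp (2 * b / k) * (rexp (2 * r / k) - 1)) :=
      mul_le_mul_of_nonneg_left h4 (by have := Real.pi_pos; positivity)
    have h6 : k * π * (2 * r / k) = 2 * π * r := by field_simp
    rw [h6] at h5
    have h7 : (1 / 2 + A / k) * r ≤ 1 * r := mul_le_mul_of_nonneg_right (by linarith) hr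
    linarith

end Pool.Agent.MP0016c7
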