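import Mathlib
import Pool.Agent.Lib.MP_0016c7_nt.KernelConv

open Filter Topology Set MeasureTheory
open scoped Real

namespace Pool.Agent.MP0016c7

/-! ### Sharp decay hypotheses -/

/-- decay hypotheses used in the local kernel inequality -/
structure KH2 (T : ℝ → ℝ) : Prop where
  cont : Continuous T
  pos : ∀ t, 0 < T t
  up1 : ∀ u r, 0 ≤ r → u + r ≤ 0 →
    T (u + r) ≤ T u * rexp (r - 2 * π * rexp u * (rexp r - 1))
  up2 : ∀ u r, 0 ≤ u → 0 ≤ r → T (u + r) ≤ T u * rexp (-(2 * π - 1) * r)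
  low : ∀ u r, 0 ≤ r →
    T u * rexp (-r + 2 * π * rexp (min u 0) * (1 - rexp (-r))) ≤ T (u - r)

lemma kq_low {k A : ℝ} {T : ℝ → ℝ} (hk : 0 < k) (hA : A / k ≤ 1 / 2) (hT : ∀ t, 0 < T t)
    (hq : KQ k A T) (u r : ℝ) (hr : 0 ≤ r) :
    T u * rexp (-r + k * π * (rexp (2 * u / k) * (1 - rexp (-(2 * r / k))))) ≤ T (u - r) := by
  have h := hq (u - r) r hr
  have e0 : u - r + r = u := by ring
  rw [e0] at h
  have e1 : rexp (2 * (u - r) / k) * (rexp (2 * r / k) - 1) =
      rexp (2 * u / k) * (1 - rexp (-(2 * r / k))) := by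
    have x1 : 2 * (u - r) / k = 2 * u / k + -(2 * r / k) := by ring
    rw [x1, Real.exp_add]
    have x2 : rexp (-(2 * r / k)) * rexp (2 * r / k) = 1 := by rw [← Real.exp_add]; simp
    linear_combination rexp (2 * u / k) * x2
  rw [mul_assoc (k * π), e1] at h
  set Q := k * π * (rexp (2 * u / k) * (1 - rexp (-(2 * r / k)))) with hQ
  have h2 := mul_le_mul_of_nonneg_right h (Real.exp_pos (-r + Q)).le
  refine h2.trans ?_
  rw [mul_assoc, ← Real.exp_add]
  have h3 : rexp ((1 / 2 + A / k) * r - Q + (-r + Q)) ≤ 1 := by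
    rw [Real.exp_le_one_iff]
    have : (1 / 2 + A / k) * r ≤ 1 * r := mul_le_mul_of_nonneg_right (by linarith) hr
    linarith
  have := mul_le_mul_of_nonneg_left h3 (hT (u - r)).le
  linarith

lemma kh2_of_two {A : ℝ} {T : ℝ → ℝ} (hA : A / 2 ≤ 1 / 2) (K : Ker T) (hl : KLow T)
    (hq : KQ 2 A T) : KH2 T where
  cont := K.cont
  pos := K.pos
  up1 u r hr _ := by
    refine (hq u r hr).trans ?_
    refine mul_le_mul_of_nonneg_left ?_ (K.pos u).le
    rw [Real.exp_le_exp]
    have e1 : 2 * u / 2 = u := by ring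
    have e2 : 2 * r / 2 = r := by ring
    rw [e1, e2]
    have : (1 / 2 + A / 2) * r ≤ 1 * r := mul_le_mul_of_nonneg_right (by linarith) hr
    linarith
  up2 := (kernelHyp_of (by norm_num) hA K hl hq).upp
  low u r hr := by
    refine le_trans ?_ (kq_low (by norm_num) hA K.pos hq u r hr)
    refine mul_le_mul_of_nonneg_left ?_ (K.pos u).le
    rw [Real.exp_le_exp]
    have e1 : 2 * u / 2 = u := by ring
    have e2 : 2 * r / 2 = r := by ring
    rw [e1, e2]
    have h1 : rexp (min u 0) ≤ rexp u := Real.exp_le_exp.mpr (min_le_left _ _)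
    have h2 : 0 ≤ 1 - rexp (-r) := by
      have : rexp (-r) ≤ 1 := by rw [Real.exp_le_one_iff]; linarith
      linarith
    have h3 := mul_le_mul_of_nonneg_right h1 h2
    have h4 := mul_le_mul_of_nonneg_left h3 (by have := Real.pi_pos; positivity : 0 ≤ 2 * π)
    linarith

lemma kh2_of_four {A : ℝ} {T : ℝ → ℝ} (hA : A / 4 ≤ 1 / 2) (K : Ker T) (hl : KLow T)
    (hq : KQ 4 A T) : KH2 T where
  cont := K.cont
  pos := K.pos
  up1 u r hr hur := by
    refine (hq u r hr).trans ?_
    refine mul_le_mul_of_nonneg_left ?_ (K.pos u).le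
    rw [Real.exp_le_exp]
    have e1 : 2 * u / 4 = u / 2 := by ring
    have e2 : 2 * r / 4 = r / 2 := by ring
    rw [e1, e2]
    have h1 : (1 / 2 + A / 4) * r ≤ 1 * r := mul_le_mul_of_nonneg_right (by linarith) hr
    set x := rexp (u / 2) with hx
    set y := rexp (r / 2) with hy
    have hx0 : 0 < x := Real.exp_pos _
    have hy1 : 1 ≤ y := Real.one_le_exp (by linarith)
    have hxy : x * y ≤ 1 := by
      rw [hx, hy, ← Real.exp_add, Real.exp_le_one_iff]; linarith
    have hx1 : x ≤ 1 := by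
      rw [hx, Real.exp_le_one_iff]; linarith
    have e3 : rexp u = x * x := by rw [hx, ← Real.exp_add]; ring_nf
    have e4 : rexp r = y * y := by rw [hy, ← Real.exp_add]; ring_nf
    rw [e3, e4]
    have h2 : x * x * (y * y - 1) ≤ 2 * (x * (y - 1)) := by
      have : x * x * (y * y - 1) = x * (y - 1) * (x * y + x) := by ring
      rw [this, mul_comm 2]
      exact mul_le_mul_of_nonneg_left (by linarith) (mul_nonneg hx0.le (by linarith))
    have h3 := mul_le_mul_of_nonneg_left h2 (by have := Real.pi_pos; positivity : 0 ≤ 2 * π)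
    linarith
  up2 := (kernelHyp_of (by norm_num) hA K hl hq).upp
  low u r hr := by
    refine le_trans ?_ (kq_low (by norm_num) hA K.pos hq u r hr)
    refine mul_le_mul_of_nonneg_left ?_ (K.pos u).le
    rw [Real.exp_le_exp]
    have e1 : 2 * u / 4 = u / 2 := by ring
    have e2 : 2 * r / 4 = r / 2 := by ring
    rw [e1, e2]
    set y := rexp (-(r / 2)) with hy
    have hy0 : 0 < y := Real.exp_pos _
    have hy1 : y ≤ 1 := by rw [hy, Real.exp_le_one_iff]; linarith
    have e4 : rexp (-r) = y * y := by rw [hy, ← Real.exp_add]; ring_nf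
    rw [e4]
    have h1 : rexp (min u 0) ≤ rexp (u / 2) := by
      apply Real.exp_le_exp.mpr
      rcases le_total u 0 with h | h
      · rw [min_eq_left h]; linarith
      · rw [min_eq_right h]; linarith
    have hm := Real.exp_pos (min u 0)
    have h2 : rexp (min u 0) * (1 - y * y) ≤ 2 * (rexp (u / 2) * (1 - y)) := by
      have e5 : rexp (min u 0) * (1 - y * y) = rexp (min u 0) * (1 + y) * (1 - y) := by ring
      have e6 : 2 * (rexp (u / 2) * (1 - y)) = rexp (u / 2) * 2 * (1 - y) := by ring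
      rw [e5, e6]
      refine mul_le_mul_of_nonneg_right ?_ (by linarith)
      exact mul_le_mul h1 (by linarith) (by linarith) (Real.exp_pos _).le
    have h3 := mul_le_mul_of_nonneg_left h2 (by have := Real.pi_pos; positivity : 0 ≤ 2 * π)
    linarith

namespace KH2

variable {T : ℝ → ℝ}

lemma low' (h : KH2 T) (u r : ℝ) (hr : 0 ≤ r) : T u * rexp (-r) ≤ T (u - r) := by
  refine le_trans (mul_le_mul_of_nonneg_left ?_ (h.pos u).le) (h.low u r hr)
  rw [Real.exp_le_exp]
  have h2 : 0 ≤ 1 - rexp (-r) := by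
    have : rexp (-r) ≤ 1 := by rw [Real.exp_le_one_iff]; linarith
    linarith
  have : 0 ≤ 2 * π * rexp (min u 0) * (1 - rexp (-r)) := by
    have := Real.pi_pos; positivity
  linarith

lemma up_mid (h : KH2 T) {a u r : ℝ} (ha : 0 ≤ a) (hu : -a ≤ u) (hr : 0 ≤ r) (hra : r ≤ a) :
    T (u + r) ≤ T u * rexp (r - 2 * π * rexp (-a) * (rexp r - 1)) := by
  have hpi := Real.pi_pos
  have hr1 : 0 ≤ rexp r - 1 := by have := Real.one_le_exp hr; linarith
  rcases le_total (u + r) 0 with h1 | h1
  · refine (h.up1 u r hr h1).trans (mul_le_mul_of_nonneg_left ?_ (h.pos u).le)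
    rw [Real.exp_le_exp]
    have h2 : rexp (-a) ≤ rexp u := Real.exp_le_exp.mpr hu
    have h3 := mul_le_mul_of_nonneg_left (mul_le_mul_of_nonneg_right h2 hr1)
      (by positivity : 0 ≤ 2 * π)
    linarith
  · -- key estimate
    have key : rexp (-a) * (rexp r - 1) ≤ 1 - rexp (-r) := by
      have : rexp (-r) = rexp (-r) * 1 := (mul_one _).symm
      have e1 : 1 - rexp (-r) = rexp (-r) * (rexp r - 1) := by
        rw [mul_sub, ← Real.exp_add]; simp
      rw [e1]
      exact mul_le_mul_of_nonneg_right (Real.exp_le_exp.mpr (by linarith)) hr1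
    rcases le_total u 0 with h0 | h0
    · have s1 := h.up1 u (-u) (by linarith) (by linarith)
      have s2 := h.up2 0 (u + r) le_rfl h1
      rw [zero_add] at s2
      rw [add_neg_cancel] at s1
      refine s2.trans ((mul_le_mul_of_nonneg_right s1 (Real.exp_pos _).le).trans ?_)
      rw [mul_assoc, ← Real.exp_add]
      refine mul_le_mul_of_nonneg_left ?_ (h.pos u).le
      rw [Real.exp_le_exp]
      have e2 : rexp u * (rexp (-u) - 1) = 1 - rexp u := by
        rw [mul_sub, ← Real.exp_add]; simp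
      have e3 : -u - 2 * π * rexp u * (rexp (-u) - 1) + -(2 * π - 1) * (u + r) =
          r - 2 * π * (1 + u + r - rexp u) := by
        rw [mul_assoc (2 * π), e2]; ring
      rw [e3]
      -- 1 + u + r - e^u ≥ 1 - e^{-r}
      have h4 : rexp u - rexp (-r) ≤ u + r := by
        -- e^u (1 - e^{-(u+r)}) ≤ 1 - e^{-(u+r)} ≤ u + r
        have e4 : rexp (-r) = rexp u * rexp (-(u + r)) := by rw [← Real.exp_add]; ring_nf
        rw [e4]
        have h5 := Real.add_one_le_exp (-(u + r))
        have h6 : rexp u ≤ 1 := by rw [Real.exp_le_one_iff]; exact h0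
        have h7 : rexp (-(u + r)) ≤ 1 := by rw [Real.exp_le_one_iff]; linarith
        nlinarith [Real.exp_pos u]
      have h8 : rexp (-a) * (rexp r - 1) ≤ 1 + u + r - rexp u := by linarith
      have h9 := mul_le_mul_of_nonneg_left h8 (by positivity : 0 ≤ 2 * π)
      linarith
    · refine (h.up2 u r h0 hr).trans (mul_le_mul_of_nonneg_left ?_ (h.pos u).le)
      rw [Real.exp_le_exp]
      have h5 := Real.add_one_le_exp (-r)
      have h8 : rexp (-a) * (rexp r - 1) ≤ r := by linarith
      have h9 := mul_le_mul_of_nonneg_left h8 (by positivity : 0 ≤ 2 * π)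
      linarith

lemma up_tail (h : KH2 T) {a u r : ℝ} (ha : 0 ≤ a) (hu : -a ≤ u) (hr : 0 ≤ r) :
    T (u + a + r) ≤ T u * rexp (a - 2 * π * rexp (-a) * (rexp a - 1)) *
      rexp (-(2 * π - 1) * r) := by
  refine (h.up2 (u + a) r (by linarith) hr).trans
    (mul_le_mul_of_nonneg_right (h.up_mid ha hu ha le_rfl) (Real.exp_pos _).le)

lemma up_lin (h : KH2 T) {a u r : ℝ} (ha : 0 ≤ a) (hu : -a ≤ u) (hr : 0 ≤ r) :
    T (u + r) ≤ T u * rexp (-(2 * π * rexp (-a) - 1) * r) := by
  have hpi := Real.pi_pos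
  have hc : 0 ≤ 2 * π * rexp (-a) := by positivity
  rcases le_total r a with h1 | h1
  · refine (h.up_mid ha hu hr h1).trans (mul_le_mul_of_nonneg_left ?_ (h.pos u).le)
    rw [Real.exp_le_exp]
    have := mul_le_mul_of_nonneg_left (by linarith [Real.add_one_le_exp r] : r ≤ rexp r - 1) hc
    linarith
  · have e : u + r = u + a + (r - a) := by ring
    rw [e]
    refine (h.up_tail ha hu (by linarith)).trans ?_
    rw [mul_assoc, ← Real.exp_add]
    refine mul_le_mul_of_nonneg_left ?_ (h.pos u).le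
    rw [Real.exp_le_exp]
    have h2 := mul_le_mul_of_nonneg_left (by linarith [Real.add_one_le_exp a] : a ≤ rexp a - 1) hc
    have h3 : rexp (-a) ≤ 1 := by rw [Real.exp_le_one_iff]; linarith
    have h4 : 2 * π * rexp (-a) ≤ 2 * π := by nlinarith
    nlinarith

end KH2

/-! ### Elementary integrals -/

lemma setIntegral_Ioi_shift (f : ℝ → ℝ) (c : ℝ) :
    ∫ t in Ioi c, f t = ∫ r in Ioi 0, f (c + r) := by
  have h := (measurePreserving_add_left volume c).setIntegral_preimage_emb
    (measurableEmbedding_addLeft c) f (Ioi c)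
  have e : (fun x => c + x) ⁻¹' Ioi c = Ioi 0 := by ext x; simp
  rw [e] at h
  exact h.symm

lemma integrableOn_Ioi_shift {f : ℝ → ℝ} {c : ℝ} (hf : IntegrableOn f (Ioi c)) :
    IntegrableOn (fun r => f (c + r)) (Ioi 0) := by
  have h := ((measurePreserving_add_left volume c).integrableOn_comp_preimage
    (measurableEmbedding_addLeft c) (f := f) (s := Ioi c)).mpr hf
  have e : (fun x => c + x) ⁻¹' Ioi c = Ioi 0 := by ext x; simp
  rw [e] at h
  exact h

lemma int_pow_exp (n : ℕ) {α : ℝ} (hα : 0 < α) :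
    IntegrableOn (fun r : ℝ => r ^ n * rexp (-α * r)) (Ioi 0) ∧
    ∫ r in Ioi (0 : ℝ), r ^ n * rexp (-α * r) = n.factorial / α ^ (n + 1) := by
  have h1 := Real.integral_rpow_mul_exp_neg_mul_Ioi (a := (n : ℝ) + 1) (by positivity) hα
  have e1 : ∫ t : ℝ in Ioi 0, t ^ ((n : ℝ) + 1 - 1) * rexp (-(α * t)) =
      ∫ r in Ioi (0 : ℝ), r ^ n * rexp (-α * r) := by
    refine setIntegral_congr_fun measurableSet_Ioi fun t ht => ?_
    rw [add_sub_cancel_right, Real.rpow_natCast, neg_mul]
  rw [e1, Real.Gamma_nat_eq_factorial] at h1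
  have e2 : (1 / α) ^ ((n : ℝ) + 1) = 1 / α ^ (n + 1) := by
    rw [← Nat.cast_add_one, Real.rpow_natCast, div_pow, one_pow]
  rw [e2] at h1
  have h2 : ∫ r in Ioi (0 : ℝ), r ^ n * rexp (-α * r) = n.factorial / α ^ (n + 1) := by
    rw [h1]; ring
  refine ⟨?_, h2⟩
  refine Integrable.of_integral_ne_zero ?_
  rw [h2]
  positivity

lemma int_r_exp {α R : ℝ} (hα : 0 < α) :
    ∫ r in (0 : ℝ)..R, r * rexp (-α * r) = (1 - rexp (-α * R) * (1 + α * R)) / α ^ 2 := by
  have hd : ∀ r ∈ uIcc 0 R, HasDerivAt (fun r => -(rexp (-α * r) * (1 + α * r)) / α ^ 2)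
      (r * rexp (-α * r)) r := by
    intro r _
    have h1 : HasDerivAt (fun r => -α * r) (-α) r := by
      simpa using (hasDerivAt_id r).const_mul (-α)
    have h2 : HasDerivAt (fun r => 1 + α * r) α r := by
      simpa using ((hasDerivAt_id r).const_mul α).const_add 1
    have h3 := ((h1.exp.mul h2).neg).div_const (α ^ 2)
    refine h3.congr_deriv ?_
    field_simp
    ring
  rw [intervalIntegral.integral_eq_sub_of_hasDerivAt hd
    ((by fun_prop : Continuous fun r : ℝ => r * rexp (-α * r)).intervalIntegrable _ _)]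
  simp only [mul_zero, Real.exp_zero, add_zero, mul_one]
  ring

lemma int_r2_exp {α R : ℝ} (hα : 0 < α) :
    ∫ r in (0 : ℝ)..R, r ^ 2 * rexp (-α * r) =
      (2 - rexp (-α * R) * (2 + 2 * (α * R) + (α * R) ^ 2)) / α ^ 3 := by
  have hd : ∀ r ∈ uIcc 0 R, HasDerivAt
      (fun r => -(rexp (-α * r) * (2 + 2 * (α * r) + (α * r) ^ 2)) / α ^ 3)
      (r ^ 2 * rexp (-α * r)) r := by
    intro r _
    have h1 : HasDerivAt (fun r => -α * r) (-α) r := by
      simpa using (hasDerivAt_id r).const_mul (-α)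
    have h0 : HasDerivAt (fun r => α * r) α r := by
      simpa using (hasDerivAt_id r).const_mul α
    have h2 : HasDerivAt (fun r => 2 + 2 * (α * r) + (α * r) ^ 2) (2 * α + 2 * (α * r) * α) r := by
      have := ((h0.const_mul 2).const_add 2).add (h0.pow 2)
      refine this.congr_deriv ?_
      simp
    have h3 := ((h1.exp.mul h2).neg).div_const (α ^ 3)
    refine h3.congr_deriv ?_
    field_simp
    ring
  rw [intervalIntegral.integral_eq_sub_of_hasDerivAt hd
    ((by fun_prop : Continuous fun r : ℝ => r ^ 2 * rexp (-α * r)).intervalIntegrable _ _)]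
  simp only [mul_zero, Real.exp_zero, add_zero, mul_one]
  ring

/-- The pivot lemma: splitting the half line at `t0`. -/
lemma pivot_neg {f : ℝ → ℝ} (hf : IntegrableOn f (Ioi 0)) {t0 R K a P1 P2 N : ℝ}
    {p1 p2 n : ℝ → ℝ} (hK : 0 < K) (hR : 0 ≤ R) (hRt : R ≤ t0) (ha : 0 ≤ a)
    (h1 : ∀ r, 0 ≤ r → r ≤ a → f (t0 + r) ≤ K * p1 r)
    (h2 : ∀ r, 0 < r → f (t0 + a + r) ≤ K * p2 r)
    (h3 : ∀ r, 0 ≤ r → r ≤ R → f (t0 - r) ≤ K * -n r)
    (h4 : ∀ t, 0 < t → t ≤ t0 - R → f t ≤ 0)
    (hp1 : Continuous p1) (hn : Continuous n) (hp2 : IntegrableOn p2 (Ioi 0))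
    (i1 : ∫ r in (0 : ℝ)..a, p1 r ≤ P1) (i2 : ∫ r in Ioi (0 : ℝ), p2 r ≤ P2)
    (i3 : N ≤ ∫ r in (0 : ℝ)..R, n r) (hlt : P1 + P2 < N) :
    ∫ t in Ioi 0, f t < 0 := by
  have hA : 0 ≤ t0 - R := by linarith
  have hfA : IntegrableOn f (Ioi (t0 - R)) := hf.mono_set (Ioi_subset_Ioi hA)
  have hfB : IntegrableOn f (Ioi t0) := hf.mono_set (Ioi_subset_Ioi (by linarith))
  have hfC : IntegrableOn f (Ioi (t0 + a)) := hf.mono_set (Ioi_subset_Ioi (by linarith))
  have s1 := intervalIntegral.integral_interval_add_Ioi hf hfA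
  have s2 := intervalIntegral.integral_interval_add_Ioi hfA hfB
  have s3 := intervalIntegral.integral_interval_add_Ioi hfB hfC
  have j1 : IntervalIntegrable f volume 0 (t0 - R) := by
    rw [intervalIntegrable_iff_integrableOn_Ioc_of_le hA]
    exact hf.mono_set Ioc_subset_Ioi_self
  have b1 : ∫ t in (0 : ℝ)..(t0 - R), f t ≤ 0 := by
    rw [intervalIntegral.integral_of_le hA]
    exact setIntegral_nonpos measurableSet_Ioc fun t ht => h4 t ht.1 ht.2
  have j2 : IntervalIntegrable f volume (t0 - R) t0 := by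
    rw [intervalIntegrable_iff_integrableOn_Ioc_of_le (by linarith)]
    exact hfA.mono_set Ioc_subset_Ioi_self
  have b2 : ∫ t in (t0 - R)..t0, f t ≤ -(K * N) := by
    have e := intervalIntegral.integral_comp_sub_left (a := 0) (b := R) f t0
    rw [sub_zero] at e
    rw [← e]
    have j2' : IntervalIntegrable (fun r => f (t0 - r)) volume 0 R := by
      have := j2.comp_sub_left t0
      simp only [sub_sub_cancel, sub_self] at this
      exact this.symm
    have := intervalIntegral.integral_mono_on hR j2'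
      (g := fun r => K * -n r) ((hn.neg.const_mul K).intervalIntegrable _ _)
      (fun r hr => h3 r hr.1 hr.2)
    refine this.trans ?_
    rw [intervalIntegral.integral_const_mul, intervalIntegral.integral_neg]
    have := mul_le_mul_of_nonneg_left i3 hK.le
    linarith
  have j3 : IntervalIntegrable f volume t0 (t0 + a) := by
    rw [intervalIntegrable_iff_integrableOn_Ioc_of_le (by linarith)]
    exact hfB.mono_set Ioc_subset_Ioi_self
  have b3 : ∫ t in t0..(t0 + a), f t ≤ K * P1 := by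
    have e := intervalIntegral.integral_comp_add_left (a := 0) (b := a) f t0
    rw [add_zero] at e
    rw [← e]
    have j3' : IntervalIntegrable (fun r => f (t0 + r)) volume 0 a := by
      have := j3.comp_add_left t0
      simp only [sub_self, add_sub_cancel_left] at this
      exact this
    have := intervalIntegral.integral_mono_on ha j3'
      ((hp1.const_mul K).intervalIntegrable _ _) (fun r hr => h1 r hr.1 hr.2)
    refine this.trans ?_
    rw [intervalIntegral.integral_const_mul]
    exact mul_le_mul_of_nonneg_left i1 hK.le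
  have b4 : ∫ t in Ioi (t0 + a), f t ≤ K * P2 := by
    rw [setIntegral_Ioi_shift]
    have := setIntegral_mono_on (integrableOn_Ioi_shift hfC) (hp2.const_mul K) measurableSet_Ioi
      (fun r hr => h2 r hr)
    refine this.trans ?_
    rw [integral_const_mul]
    exact mul_le_mul_of_nonneg_left i2 hK.le
  have hfin := mul_lt_mul_of_pos_left hlt hK
  rw [← s1, ← s2, ← s3]
  linarith

end Pool.Agent.MP0016c7
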