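import Mathlib
import Pool.Agent.Lib.MP_0016c7_nt.KernelLocal
import Pool.Agent.Lib.MP_0016c7_nt.Machine2

open Filter Topology Set MeasureTheory
open scoped Real

namespace Pool.Agent.MP0016c7

/-- logarithmic derivative of `1 / (1/4 - z^2)` -/
noncomputable def tau (z : ℝ) : ℝ := 2 * z / (1 / 4 - z ^ 2)

/-- derivative in `z` of the weight -/
noncomputable def Cd (W z t : ℝ) : ℝ := t * (rexp (z * t) - W * rexp (-(z * t)))

/-- logarithmic derivative of `Aw W` -/
noncomputable def tauW (W z : ℝ) : ℝ := tau z + if W = 1 then 0 else 1 / z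

/-- the local weight -/
noncomputable def gloc (W z t : ℝ) : ℝ := Cd W z t - (tauW W z - z / 8) * Cw W z t

lemma tau_ge {z : ℝ} (h0 : 0 < z) (h1 : z < 1 / 2) : 8 * z ≤ tau z := by
  unfold tau
  have hq := quarter_pos h0 h1
  rw [le_div_iff₀ hq]
  nlinarith [sq_nonneg z, mul_pos h0 (mul_pos h0 h0)]

lemma exp_aux {x : ℝ} (hx : 0 ≤ x) : rexp x - rexp (-x) ≤ x * (rexp x + rexp (-x)) := by
  -- sinh x ≤ x cosh x
  have hd : ∀ y : ℝ, HasDerivAt (fun y => y * (rexp y + rexp (-y)) - (rexp y - rexp (-y)))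
      (y * (rexp y - rexp (-y))) y := by
    intro y
    have h1 : HasDerivAt (fun y : ℝ => rexp y) (rexp y) y := Real.hasDerivAt_exp y
    have h2 : HasDerivAt (fun y : ℝ => rexp (-y)) (-rexp (-y)) y := by
      have := (hasDerivAt_neg y).exp
      simpa using this
    have := ((hasDerivAt_id y).mul (h1.add h2)).sub (h1.sub h2)
    refine this.congr_deriv ?_
    simp only [id, Pi.add_apply]
    ring
  have hm : MonotoneOn (fun y => y * (rexp y + rexp (-y)) - (rexp y - rexp (-y))) (Ici 0) := by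
    refine monotoneOn_of_deriv_nonneg (convex_Ici 0)
      (fun y _ => (hd y).continuousAt.continuousWithinAt)
      (fun y _ => (hd y).differentiableAt.differentiableWithinAt) ?_
    intro y hy
    rw [interior_Ici] at hy
    have hy' : 0 < y := hy
    rw [(hd y).deriv]
    have : rexp (-y) ≤ rexp y := Real.exp_le_exp.mpr (by linarith)
    exact mul_nonneg hy'.le (by linarith)
  have := hm (mem_Ici.mpr le_rfl) (mem_Ici.mpr hx) hx
  simp only [zero_mul, neg_zero, sub_self] at this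
  linarith

/-- Upper bound for the local weight, regime A. -/
lemma gloc_le_A {z t : ℝ} (h0 : 0 < z) (h1 : z < 1 / 2) (ht : 0 ≤ t) :
    gloc 1 z t ≤ Cw 1 z t * (z * (t ^ 2 - 7.29)) := by
  have hC := Cw_one_pos z t
  have e1 : tauW 1 z = tau z := by simp [tauW]
  have h2 : Cd 1 z t ≤ z * t ^ 2 * Cw 1 z t := by
    unfold Cd Cw
    have := mul_le_mul_of_nonneg_left (exp_aux (x := z * t) (by positivity)) ht
    linarith
  have h3 := mul_le_mul_of_nonneg_right (tau_ge h0 h1) hC.le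
  unfold gloc
  rw [e1]
  have h4 := mul_pos h0 hC
  linarith

/-- Upper bound for the local weight, regime B. -/
lemma gloc_le_B {z t : ℝ} (h0 : 0 ≤ tau z - z / 8) (ht : 0 ≤ t) :
    gloc 1 z t ≤ (t - (tau z - z / 8)) * rexp (z * t) := by
  have e1 : tauW 1 z = tau z := by simp [tauW]
  unfold gloc Cd Cw
  rw [e1]
  nlinarith [mul_nonneg (add_nonneg ht h0) (Real.exp_pos (-(z * t))).le]

lemma exp_aux2 {x : ℝ} (hx : 0 ≤ x) :
    x * (rexp x + rexp (-x)) ≤ (1 + x ^ 2 / (1 + x)) * (rexp x - rexp (-x)) := by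
  have h1 : 1 + 2 * x + 2 * x ^ 2 ≤ rexp (2 * x) := by
    have := Real.quadratic_le_exp_of_nonneg (x := 2 * x) (by positivity)
    nlinarith
  have h2 : rexp x = rexp (2 * x) * rexp (-x) := by rw [← Real.exp_add]; ring_nf
  have h3 := Real.exp_pos (-x)
  have hx1 : 0 < 1 + x := by linarith
  have e : (1 + x ^ 2 / (1 + x)) = (1 + x + x ^ 2) / (1 + x) := by field_simp
  rw [e, div_mul_eq_mul_div, le_div_iff₀ hx1, h2]
  have h4 := mul_le_mul_of_nonneg_right h1 h3.le
  nlinarith

/-- Upper bound for the local weight, regime C. -/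
lemma gloc_le_C {z t : ℝ} (h0 : 0 < z) (ht : 0 ≤ t) :
    gloc (-1) z t ≤ Cw (-1) z t * (z * t ^ 2 / (1 + z * t) - tau z + z / 8) := by
  have e1 : tauW (-1) z = tau z + 1 / z := by
    unfold tauW; rw [if_neg]; norm_num
  have h2 : Cd (-1) z t ≤ (1 / z + z * t ^ 2 / (1 + z * t)) * Cw (-1) z t := by
    unfold Cd Cw
    have h3 := exp_aux2 (x := z * t) (by positivity)
    have h4 := mul_le_mul_of_nonneg_left h3 (by positivity : 0 ≤ 1 / z)
    have hne : 1 + z * t ≠ 0 := by positivity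
    calc t * (rexp (z * t) - -1 * rexp (-(z * t)))
        = 1 / z * (z * t * (rexp (z * t) + rexp (-(z * t)))) := by field_simp; ring
      _ ≤ _ := h4
      _ = _ := by field_simp; ring
  unfold gloc
  rw [e1]
  linarith

/-! ### Numerical facts -/

lemma exp_three_bounds : 20.0855 < rexp 3 ∧ rexp 3 < 20.0856 := by
  have h1 := Real.exp_one_gt_d9
  have h2 := Real.exp_one_lt_d9
  have e : rexp 3 = rexp 1 ^ 3 := by rw [← Real.exp_nat_mul]; norm_num
  rw [e]
  constructor
  · calc (20.0855 : ℝ) < 2.7182818283 ^ 3 := by norm_num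
      _ < rexp 1 ^ 3 := by gcongr
  · calc rexp 1 ^ 3 < 2.7182818286 ^ 3 := by gcongr
      _ < 20.0856 := by norm_num

lemma two_pi_bounds : 6.283 < 2 * π ∧ 2 * π < 6.2832 := by
  have h1 := Real.pi_gt_d4
  have h2 := Real.pi_lt_d4
  constructor <;> linarith

lemma exp_three_half_bounds : 4.48 < rexp (3 / 2) ∧ rexp (3 / 2) < 4.482 := by
  have h := exp_three_bounds
  have e : rexp 3 = rexp (3 / 2) ^ 2 := by rw [← Real.exp_nat_mul]; norm_num
  rw [e] at h
  have h0 := Real.exp_pos (3 / 2 : ℝ)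
  constructor
  · nlinarith
  · nlinarith

/-- the constant `2 π e^{-3/2}` -/
lemma cB_bounds : 1.4 < 2 * π * rexp (-(3 / 2)) ∧ 2 * π * rexp (-(3 / 2)) < 1.41 := by
  have h := exp_three_half_bounds
  have hp := two_pi_bounds
  rw [Real.exp_neg, ← div_eq_mul_inv]
  have h0 := Real.exp_pos (3 / 2 : ℝ)
  constructor
  · rw [lt_div_iff₀ h0]; linarith
  · rw [div_lt_iff₀ h0]; linarith

lemma cA_bound : 3.11 < 2 * π * rexp (-0.7) := by
  have hp := two_pi_bounds
  have h7 : rexp 0.7 ^ 10 < 2.02 ^ 10 := by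
    have e : rexp 0.7 ^ 10 = rexp 1 ^ 7 := by
      rw [← Real.exp_nat_mul, ← Real.exp_nat_mul]; norm_num
    rw [e]
    calc rexp 1 ^ 7 < 2.7182818286 ^ 7 := by have := Real.exp_one_lt_d9; gcongr
      _ < 2.02 ^ 10 := by norm_num
  have h8 : rexp 0.7 < 2.02 := lt_of_pow_lt_pow_left₀ 10 (by norm_num) h7
  have e : rexp (-0.7) = (rexp 0.7)⁻¹ := Real.exp_neg _
  rw [e, ← div_eq_mul_inv, lt_div_iff₀ (Real.exp_pos _)]
  linarith

lemma exp_26 : rexp (-2.6) < 0.08 := by
  have h := exp_three_bounds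
  have e : rexp (-2.6) = rexp 0.4 / rexp 3 := by
    rw [← Real.exp_sub]; norm_num
  rw [e, div_lt_iff₀ (Real.exp_pos _)]
  have h4 : rexp 0.4 < 1.6 := by
    have : rexp 0.4 ^ 5 < 1.6 ^ 5 := by
      have e : rexp 0.4 ^ 5 = rexp 1 ^ 2 := by
        rw [← Real.exp_nat_mul, ← Real.exp_nat_mul]; norm_num
      rw [e]
      calc rexp 1 ^ 2 < 2.7182818286 ^ 2 := by have := Real.exp_one_lt_d9; gcongr
        _ < 1.6 ^ 5 := by norm_num
    exact lt_of_pow_lt_pow_left₀ 5 (by norm_num) this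
  linarith

lemma exp_285 : rexp (-1.5 * 1.9) < 0.06 := by
  have h := exp_three_bounds
  have e : rexp (-1.5 * 1.9) = rexp 0.15 / rexp 3 := by
    rw [← Real.exp_sub]; norm_num
  rw [e, div_lt_iff₀ (Real.exp_pos _)]
  have h4 : rexp 0.15 < 1.2 := by
    have h5 := Real.add_one_le_exp (-0.15 : ℝ)
    have h6 : rexp (-0.15) * rexp 0.15 = 1 := by rw [← Real.exp_add]; norm_num
    have h7 := Real.exp_pos (0.15 : ℝ)
    nlinarith
  linarith

lemma exp_3267 : rexp (-1.21 * 2.7) < 0.05 := by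
  have h := exp_three_bounds
  have e : rexp (-1.21 * 2.7) ≤ rexp (-3) := Real.exp_le_exp.mpr (by norm_num)
  have e2 : rexp (-3) = (rexp 3)⁻¹ := Real.exp_neg _
  refine lt_of_le_of_lt e ?_
  rw [e2, inv_lt_comm₀ (Real.exp_pos _) (by norm_num)]
  norm_num
  linarith

/-! ### Integrability -/

lemma Ker.integrableOn_weight {T : ℝ → ℝ} (h : Ker T) (c : ℝ) (i : ℕ) {z : ℝ} (hz : z < 1) :
    IntegrableOn (fun t => T (t + c) * (t ^ i * rexp (z * t))) (Ioi 0) := by
  obtain ⟨C, hC⟩ := h.bd 1 (by norm_num)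
  have hint := (int_pow_exp i (α := 1 - z) (by linarith)).1
  refine Integrable.mono' (hint.const_mul (C * rexp (-c))) ?_ ?_
  · have := h.cont
    exact (by fun_prop : Continuous _).aestronglyMeasurable
  · rw [ae_restrict_iff' measurableSet_Ioi]
    refine Eventually.of_forall fun t ht => ?_
    have ht0 : (0 : ℝ) < t := ht
    have hT := h.pos (t + c)
    rw [Real.norm_of_nonneg (by positivity)]
    have h1 : T (t + c) ≤ C * (rexp (-c) * rexp (-t)) := by
      have h2 := hC (t + c)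
      have h3 : rexp (-(t + c)) * (rexp (1 * (t + c)) * T (t + c)) = T (t + c) := by
        rw [← mul_assoc, ← Real.exp_add]
        ring_nf
        rw [Real.exp_zero, one_mul]
      have h4 : rexp (-(t + c)) = rexp (-c) * rexp (-t) := by
        rw [← Real.exp_add]; ring_nf
      rw [← h3, ← h4, mul_comm C]
      exact mul_le_mul_of_nonneg_left h2 (Real.exp_pos _).le
    calc T (t + c) * (t ^ i * rexp (z * t)) ≤ C * (rexp (-c) * rexp (-t)) * (t ^ i * rexp (z * t)) :=
          mul_le_mul_of_nonneg_right h1 (by positivity)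
      _ = C * rexp (-c) * (t ^ i * rexp (-(1 - z) * t)) := by
          have : rexp (-(1 - z) * t) = rexp (-t) * rexp (z * t) := by
            rw [← Real.exp_add]; ring_nf
          rw [this]; ring

lemma Ker.integrableOn_gloc {T : ℝ → ℝ} (h : Ker T) (c W : ℝ) {z : ℝ} (hz0 : 0 < z)
    (hz : z < 1 / 2) :
    IntegrableOn (fun t => T (t + c) * gloc W z t) (Ioi 0) := by
  have i1 := h.integrableOn_weight c 1 (z := z) (by linarith)
  have i2 := (h.integrableOn_weight c 1 (z := -z) (by linarith)).const_mul (-W)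
  have i3 := (h.integrableOn_weight c 0 (z := z) (by linarith)).const_mul (-(tauW W z - z / 8))
  have i4 := (h.integrableOn_weight c 0 (z := -z) (by linarith)).const_mul
    (-(tauW W z - z / 8) * W)
  refine (((i1.add i2).add i3).add i4).congr_fun ?_ measurableSet_Ioi
  intro t _
  simp only [Pi.add_apply, gloc, Cd, Cw]
  have : -z * t = -(z * t) := by ring
  rw [this]
  ring

/-! ### Regime B -/

lemma tau_eq {z L0 : ℝ} (hz : z = 1 / 2 - 1 / L0) (h2 : 2 < L0) :
    tau z = L0 - 1 - 1 / (L0 - 1) := by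
  have h0 : L0 ≠ 0 := by linarith
  have h1 : L0 - 1 ≠ 0 := by linarith
  have e : 1 / 4 - z ^ 2 = (L0 - 1) / L0 ^ 2 := by
    rw [hz]; field_simp; ring
  have e2 : 2 * z = (L0 - 2) / L0 := by
    rw [hz]; field_simp
  unfold tau
  rw [e, e2]
  field_simp
  ring

lemma int_B {c a : ℝ} (hc0 : 0 < c) (ha : 0 ≤ a) :
    ∫ r in (0 : ℝ)..a, (rexp r - 1) * rexp r * rexp (-c * (rexp r - 1)) ≤ 1 / c ^ 2 := by
  have hd : ∀ r ∈ uIcc (0 : ℝ) a, HasDerivAt
      (fun r => -((rexp r - 1) / c + 1 / c ^ 2) * rexp (-c * (rexp r - 1)))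
      ((rexp r - 1) * rexp r * rexp (-c * (rexp r - 1))) r := by
    intro r _
    have d1 : HasDerivAt (fun r : ℝ => rexp r - 1) (rexp r) r :=
      (Real.hasDerivAt_exp r).sub_const 1
    have d2 := (d1.const_mul (-c)).exp
    have d3 := ((d1.div_const c).add_const (1 / c ^ 2)).neg
    refine (d3.mul d2).congr_deriv ?_
    simp only [Pi.neg_apply]
    field_simp
    ring
  rw [intervalIntegral.integral_eq_sub_of_hasDerivAt hd ((by fun_prop : Continuous fun r : ℝ =>
    (rexp r - 1) * rexp r * rexp (-c * (rexp r - 1))).intervalIntegrable _ _)]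
  have h5 : 0 ≤ rexp a - 1 := by
    have := Real.one_le_exp ha; linarith
  have h6 : 0 ≤ ((rexp a - 1) / c + 1 / c ^ 2) * rexp (-c * (rexp a - 1)) := by
    positivity
  simp only [Real.exp_zero, sub_self, mul_zero, zero_div, zero_add, mul_one]
  linarith

end Pool.Agent.MP0016c7
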