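import Mathlib
import Pool.Agent.Lib.MP_0016c7_nt.KernelLocal2a

open Filter Topology Set MeasureTheory
open scoped Real

namespace Pool.Agent.MP0016c7

/-! ### Regime A -/

theorem local_neg_A {T : ℝ → ℝ} (hT : KH2 T) (hK : Ker T) {b L L0 z : ℝ} (hb : 0 ≤ b)
    (hz : z = 1 / 2 - 1 / L0) (h2 : 2 < L0) (h3 : L0 ≤ 3.4) (hL : L ≤ L0) :
    ∫ t in Ioi 0, T (t + (b - L)) * gloc 1 z t < 0 := by
  have hL0 : 0 < L0 := by linarith
  have hinv : 1 / 3.4 ≤ 1 / L0 := one_div_le_one_div_of_le hL0 h3
  have hinv2 : 1 / L0 < 1 / 2 := one_div_lt_one_div_of_lt (by norm_num) h2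
  have hz0 : 0 < z := by rw [hz]; linarith
  have hz1 : z ≤ 0.206 := by
    rw [hz]
    have : (1 : ℝ) / 2 - 1 / 3.4 ≤ 0.206 := by norm_num
    linarith
  have hz2 : z < 1 / 2 := by linarith
  set u0 := 2.7 + (b - L) with hu0
  have hu : -0.7 ≤ u0 := by rw [hu0]; linarith only [hb, h3, hL]
  set K := T u0 * Cw 1 z 2.7 * z with hKdef
  have hK0 : 0 < K := by
    have := hT.pos u0
    have := Cw_one_pos z 2.7
    positivity
  have hc := cA_bound
  have iA := int_pow_exp 1 (α := 1.9) (by norm_num)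
  have iB := int_pow_exp 2 (α := 1.9) (by norm_num)
  have hp2 : IntegrableOn (fun r : ℝ => 5.4 * (r ^ 1 * rexp (-1.9 * r)) +
      r ^ 2 * rexp (-1.9 * r)) (Ioi 0) := (iA.1.const_mul 5.4).add iB.1
  refine pivot_neg (hK.integrableOn_gloc (b - L) 1 hz0 hz2) (t0 := 2.7) (R := 2.7) (K := K)
    (a := 0) (P1 := 0) (P2 := 5.4 / 1.9 ^ 2 + 2 / 1.9 ^ 3) (N := 2.3) (p1 := fun _ => 0)
    (p2 := fun r => 5.4 * (r ^ 1 * rexp (-1.9 * r)) + r ^ 2 * rexp (-1.9 * r))
    (n := fun r => 5.4 * (r * rexp (-1.21 * r)) - r ^ 2 * rexp (-1.21 * r))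
    hK0 (by norm_num) le_rfl le_rfl ?_ ?_ ?_ ?_ continuous_const (by fun_prop)
    hp2 ?_ ?_ ?_ ?_
  · intro r hr0 hr1
    have : r = 0 := le_antisymm hr1 hr0
    subst this
    simp only [add_zero, mul_zero]
    refine mul_nonpos_of_nonneg_of_nonpos (hT.pos _).le ?_
    refine (gloc_le_A hz0 hz2 (by norm_num)).trans ?_
    have := Cw_one_pos z 2.7
    norm_num
  · intro r hr
    have e1 : (2.7 : ℝ) + 0 + r = 2.7 + r := by ring
    rw [e1]
    have e2 : 2.7 + r + (b - L) = u0 + r := by rw [hu0]; ring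
    rw [e2]
    have hT1 := hT.up_lin (a := 0.7) (by norm_num) hu hr.le
    have hC1 := Cw_one_upper (z := z) (L := 2.7) (r := r) hz0.le hr.le
    have hg := gloc_le_A (z := z) (t := 2.7 + r) hz0 hz2 (by linarith only [hz, hinv, hz0, hr])
    have e3 : ((2.7 : ℝ) + r) ^ 2 - 7.29 = 5.4 * r + r ^ 2 := by ring
    rw [e3] at hg
    have hC0 := Cw_one_pos z 2.7
    have hCr := Cw_one_pos z (2.7 + r)
    have hq : 0 ≤ z * (5.4 * r + r ^ 2) := by positivity
    calc T (u0 + r) * gloc 1 z (2.7 + r)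
        ≤ T (u0 + r) * (Cw 1 z (2.7 + r) * (z * (5.4 * r + r ^ 2))) :=
          mul_le_mul_of_nonneg_left hg (hT.pos _).le
      _ ≤ (T u0 * rexp (-(2 * π * rexp (-0.7) - 1) * r)) *
          ((Cw 1 z 2.7 * rexp (z * r)) * (z * (5.4 * r + r ^ 2))) := by
          refine mul_le_mul hT1 (mul_le_mul_of_nonneg_right hC1 hq) (by positivity) ?_
          have := hT.pos u0
          positivity
      _ = K * ((5.4 * r + r ^ 2) * (rexp (-(2 * π * rexp (-0.7) - 1) * r) * rexp (z * r))) := by
          rw [hKdef]; ring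
      _ ≤ K * ((5.4 * r + r ^ 2) * rexp (-1.9 * r)) := by
          refine mul_le_mul_of_nonneg_left (mul_le_mul_of_nonneg_left ?_ (by positivity)) hK0.le
          rw [← Real.exp_add, Real.exp_le_exp]
          have h12 := mul_le_mul_of_nonneg_right
            (by linarith only [hz, hinv, hz0, hc] : z + 2.9 ≤ 2 * π * rexp (-0.7)) hr.le
          clear * - h12
          linarith
      _ = _ := by ring
  · intro r hr0 hr1
    have e2 : 2.7 - r + (b - L) = u0 - r := by rw [hu0]; ring
    rw [e2]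
    have hT1 := hT.low' u0 r hr0
    have hC1 := Cw_one_lower (z := z) (L := 2.7) (r := r) hz0.le hr0
    have hg := gloc_le_A (z := z) (t := 2.7 - r) hz0 hz2 (by linarith only [hr1])
    have e3 : ((2.7 : ℝ) - r) ^ 2 - 7.29 = -(5.4 * r - r ^ 2) := by ring
    rw [e3] at hg
    have hC0 := Cw_one_pos z 2.7
    have hCr := Cw_one_pos z (2.7 - r)
    have hq0 : 0 ≤ 5.4 * r - r ^ 2 := by
      have h := mul_nonneg hr0 (by linarith only [hz, hinv, hz0, hr1] : 0 ≤ 5.4 - r)
      clear * - h
      linarith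
    have hq : 0 ≤ z * (5.4 * r - r ^ 2) := by positivity
    have hTu := hT.pos u0
    have main : K * ((5.4 * r - r ^ 2) * rexp (-1.21 * r)) ≤
        T (u0 - r) * (Cw 1 z (2.7 - r) * (z * (5.4 * r - r ^ 2))) := by
      calc K * ((5.4 * r - r ^ 2) * rexp (-1.21 * r))
          ≤ K * ((5.4 * r - r ^ 2) * (rexp (-r) * rexp (-(z * r)))) := by
            refine mul_le_mul_of_nonneg_left (mul_le_mul_of_nonneg_left ?_ hq0) hK0.le
            rw [← Real.exp_add, Real.exp_le_exp]
            have h12 := mul_le_mul_of_nonneg_right hz1 hr0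
            clear * - h12 hr0
            linarith
        _ = (T u0 * rexp (-r)) * ((Cw 1 z 2.7 * rexp (-(z * r))) * (z * (5.4 * r - r ^ 2))) := by
            rw [hKdef]; ring
        _ ≤ _ := mul_le_mul hT1 (mul_le_mul_of_nonneg_right hC1 hq) (by positivity)
            (hT.pos _).le
    have step := mul_le_mul_of_nonneg_left hg (hT.pos (u0 - r)).le
    calc T (u0 - r) * gloc 1 z (2.7 - r) ≤ _ := step
      _ = -(T (u0 - r) * (Cw 1 z (2.7 - r) * (z * (5.4 * r - r ^ 2)))) := by ring
      _ ≤ -(K * ((5.4 * r - r ^ 2) * rexp (-1.21 * r))) := neg_le_neg main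
      _ = _ := by ring
  · intro t ht0 ht1
    linarith only [ht0, ht1]
  · simp
  · rw [integral_add (iA.1.const_mul _) iB.1, integral_const_mul, iA.2, iB.2]
    norm_num
  · rw [intervalIntegral.integral_sub, intervalIntegral.integral_const_mul,
      int_r_exp (by norm_num), int_r2_exp (by norm_num)]
    · have h5 := exp_3267
      have h6 := Real.exp_pos (-1.21 * 2.7 : ℝ)
      norm_num at h5 h6 ⊢
      linarith only [h5, h6]
    · exact (by fun_prop : Continuous _).intervalIntegrable _ _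
    · exact (by fun_prop : Continuous _).intervalIntegrable _ _
  · norm_num

theorem local_neg_B {T : ℝ → ℝ} (hT : KH2 T) (hK : Ker T) {b L L0 z : ℝ} (hb : 0 ≤ b)
    (hz : z = 1 / 2 - 1 / L0) (h3 : 3.4 ≤ L0) (hL : L ≤ L0) :
    ∫ t in Ioi 0, T (t + (b - L)) * gloc 1 z t < 0 := by
  have hL0 : 0 < L0 := by linarith
  have hinv : 1 / L0 ≤ 1 / 3.4 := one_div_le_one_div_of_le (by norm_num) h3
  have hinv3 : 0 < 1 / L0 := by positivity
  have hz0 : 0.2 ≤ z := by
    rw [hz]
    have : (0.2 : ℝ) ≤ 1 / 2 - 1 / 3.4 := by norm_num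
    linarith
  have hz00 : 0 < z := by linarith
  have hz2 : z < 1 / 2 := by rw [hz]; linarith
  have htau := tau_eq hz (by linarith)
  have hinv4 : 1 / (L0 - 1) ≤ 1 / 2.4 := one_div_le_one_div_of_le (by norm_num) (by linarith)
  set t0 := tau z - z / 8 with ht0
  have h24 : (1 : ℝ) / 2.4 ≤ 0.4167 := by norm_num
  have ht0a : L0 - 3 / 2 ≤ t0 := by rw [ht0, htau]; linarith
  have ht0b : 1.9 ≤ t0 := by linarith only [hz, h3, hinv3, hz00, htau, hinv4, ht0]
  set u0 := t0 + (b - L) with hu0
  have hu : -(3 / 2) ≤ u0 := by rw [hu0]; linarith only [hb, hz, hL, hinv3, hz00, htau, hinv4, ht0]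
  set c := 2 * π * rexp (-(3 / 2)) with hc
  obtain ⟨hc1, hc2⟩ := cB_bounds
  rw [← hc] at hc1 hc2
  set K := T u0 * rexp (z * t0) with hKdef
  have hTu := hT.pos u0
  have hK0 : 0 < K := by positivity
  set p := 2 * π - 3 / 2 with hp
  have hpi := two_pi_bounds
  have hp0 : 4.78 < p := by rw [hp]; linarith only [hc1, hc2, hpi]
  have hpp : 0 < p := by linarith only [hc1, hc2, hp, hpi]
  have iA := int_pow_exp 0 (α := p) hpp
  have iB := int_pow_exp 1 (α := p) hpp
  have hp2 : IntegrableOn (fun r : ℝ => rexp (9 / 4 - 2 * π + c) *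
      (3 / 2 * (r ^ 0 * rexp (-p * r)) + r ^ 1 * rexp (-p * r))) (Ioi 0) :=
    ((iA.1.const_mul (3 / 2)).add iB.1).const_mul _
  have hg : ∀ t, 0 ≤ t → gloc 1 z t ≤ (t - t0) * rexp (z * t) := fun t ht =>
    gloc_le_B (by linarith only [hz, h3, hinv3, htau, hinv4, hc1, hc2]) ht
  refine pivot_neg (hK.integrableOn_gloc (b - L) 1 hz00 hz2) (t0 := t0) (R := 1.9) (K := K)
    (a := 3 / 2) (P1 := 1 / c ^ 2) (P2 := 0.08 * (3 / 2 * (1 / 4.78) + 1 / 4.78 ^ 2)) (N := 0.59)
    (p1 := fun r => (rexp r - 1) * rexp r * rexp (-c * (rexp r - 1)))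
    (p2 := fun r => rexp (9 / 4 - 2 * π + c) *
      (3 / 2 * (r ^ 0 * rexp (-p * r)) + r ^ 1 * rexp (-p * r)))
    (n := fun r => (1 + c) * (r * rexp (-1.5 * r)) - c * (r * rexp (-2.5 * r)))
    hK0 (by norm_num) ht0b (by norm_num) ?_ ?_ ?_ ?_ (by fun_prop) (by fun_prop)
    hp2 ?_ ?_ ?_ ?_
  · intro r hr0 hr1
    have e2 : t0 + r + (b - L) = u0 + r := by rw [hu0]; ring
    rw [e2]
    have hT1 := hT.up_mid (a := 3 / 2) (by norm_num) hu hr0 hr1
    rw [← hc] at hT1
    have hgr := hg (t0 + r) (by linarith only [hz, h3, hinv3, htau, hinv4, ht0, hc1, hc2, hr0])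
    rw [add_sub_cancel_left] at hgr
    have h5 : r * rexp (z * r) ≤ rexp r - 1 := by
      have h6 : rexp (z * r) ≤ rexp (r / 2) := by
        have h12 := mul_le_mul_of_nonneg_right hz2.le hr0
        exact Real.exp_le_exp.mpr (by clear * - h12; linarith)
      have h7 : r * rexp (r / 2) ≤ rexp r - 1 := by
        -- r ≤ 2 sinh(r/2)
        have h8 : r ≤ rexp (r / 2) - rexp (-(r / 2)) := by
          have := Real.self_le_sinh_iff.mpr (by linarith only [hr0] : 0 ≤ r / 2)
          rw [Real.sinh_eq] at this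
          linarith only [this]
        have h9 := mul_le_mul_of_nonneg_right h8 (Real.exp_pos (r / 2)).le
        have e3 : (rexp (r / 2) - rexp (-(r / 2))) * rexp (r / 2) = rexp r - 1 := by
          rw [sub_mul, ← Real.exp_add, ← Real.exp_add]
          ring_nf
          rw [Real.exp_zero]
          ring
        linarith only [h9, e3]
      exact (mul_le_mul_of_nonneg_left h6 hr0).trans h7
    have hr1' : 0 ≤ rexp r - 1 := by have := Real.one_le_exp hr0; linarith only [this]
    calc T (u0 + r) * gloc 1 z (t0 + r)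
        ≤ T (u0 + r) * (r * rexp (z * (t0 + r))) := mul_le_mul_of_nonneg_left hgr (hT.pos _).le
      _ ≤ (T u0 * rexp (r - c * (rexp r - 1))) * (r * rexp (z * (t0 + r))) :=
          mul_le_mul_of_nonneg_right hT1 (by positivity)
      _ = K * ((r * rexp (z * r)) * rexp (r - c * (rexp r - 1))) := by
          have : rexp (z * (t0 + r)) = rexp (z * t0) * rexp (z * r) := by
            rw [← Real.exp_add]; ring_nf
          rw [this, hKdef]; ring
      _ ≤ K * ((rexp r - 1) * rexp (r - c * (rexp r - 1))) :=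
          mul_le_mul_of_nonneg_left (mul_le_mul_of_nonneg_right h5 (Real.exp_pos _).le) hK0.le
      _ = _ := by
          have : rexp (r - c * (rexp r - 1)) = rexp r * rexp (-c * (rexp r - 1)) := by
            rw [← Real.exp_add]; ring_nf
          rw [this]; ring
  · intro r hr
    have e2 : t0 + 3 / 2 + r + (b - L) = u0 + 3 / 2 + r := by rw [hu0]; ring
    rw [e2]
    have hT1 := hT.up_tail (a := 3 / 2) (by norm_num) hu hr.le
    rw [← hc] at hT1
    have hgr := hg (t0 + 3 / 2 + r) (by linarith only [hz, h3, hinv3, htau, hinv4, ht0, hc1, hc2, hr])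
    have e3 : t0 + 3 / 2 + r - t0 = 3 / 2 + r := by ring
    rw [e3] at hgr
    have e4 : c * (rexp (3 / 2) - 1) = 2 * π - c := by
      rw [hc]
      have : rexp (-(3 / 2)) * rexp (3 / 2) = 1 := by rw [← Real.exp_add]; simp
      linear_combination 2 * π * this
    rw [e4] at hT1
    calc T (u0 + 3 / 2 + r) * gloc 1 z (t0 + 3 / 2 + r)
        ≤ T (u0 + 3 / 2 + r) * ((3 / 2 + r) * rexp (z * (t0 + 3 / 2 + r))) :=
          mul_le_mul_of_nonneg_left hgr (hT.pos _).le
      _ ≤ (T u0 * rexp (3 / 2 - (2 * π - c)) * rexp (-(2 * π - 1) * r)) *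
          ((3 / 2 + r) * rexp (z * (t0 + 3 / 2 + r))) :=
          mul_le_mul_of_nonneg_right hT1 (by positivity)
      _ = K * ((3 / 2 + r) * (rexp (3 / 2 - (2 * π - c)) * rexp (-(2 * π - 1) * r) *
            rexp (z * (3 / 2 + r)))) := by
          have : rexp (z * (t0 + 3 / 2 + r)) = rexp (z * t0) * rexp (z * (3 / 2 + r)) := by
            rw [← Real.exp_add]; ring_nf
          rw [this, hKdef]; ring
      _ ≤ K * ((3 / 2 + r) * (rexp (9 / 4 - 2 * π + c) * rexp (-p * r))) := by
          refine mul_le_mul_of_nonneg_left (mul_le_mul_of_nonneg_left ?_ (by positivity)) hK0.le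
          rw [← Real.exp_add, ← Real.exp_add, ← Real.exp_add, Real.exp_le_exp, hp]
          have h12 := mul_le_mul_of_nonneg_right hz2.le (by linarith only [hc1, hc2, hr] : 0 ≤ 3 / 2 + r)
          clear * - h12
          linarith only [h12]
      _ = _ := by ring
  · intro r hr0 hr1
    have e2 : t0 - r + (b - L) = u0 - r := by rw [hu0]; ring
    rw [e2]
    have hT1 := hT.low u0 r hr0
    have hgr := hg (t0 - r) (by linarith only [hz, h3, hinv3, htau, hinv4, ht0, hc1, hc2, hr1])
    have e3 : t0 - r - t0 = -r := by ring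
    rw [e3] at hgr
    have hy : 0 ≤ 1 - rexp (-r) := by
      have : rexp (-r) ≤ 1 := by rw [Real.exp_le_one_iff]; linarith only [hr0]
      linarith only [this]
    have hcm : c ≤ 2 * π * rexp (min u0 0) := by
      rw [hc]
      refine mul_le_mul_of_nonneg_left ?_ (by have := Real.pi_pos; positivity)
      exact Real.exp_le_exp.mpr (le_min hu (by norm_num))
    have hlow : T u0 * (rexp (-r) * (1 + c * (1 - rexp (-r)))) ≤ T (u0 - r) := by
      refine le_trans (mul_le_mul_of_nonneg_left ?_ hTu.le) hT1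
      rw [Real.exp_add]
      refine mul_le_mul_of_nonneg_left ?_ (Real.exp_pos _).le
      have h6 := Real.add_one_le_exp (2 * π * rexp (min u0 0) * (1 - rexp (-r)))
      have h7 := mul_le_mul_of_nonneg_right hcm hy
      linarith only [h6, h7]
    have hc0 : 0 < c := by linarith only [hc1, hc2]
    have hq : 0 ≤ 1 + c * (1 - rexp (-r)) := by positivity
    have main : K * ((1 + c) * (r * rexp (-1.5 * r)) - c * (r * rexp (-2.5 * r))) ≤
        T (u0 - r) * (r * rexp (z * (t0 - r))) := by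
      calc K * ((1 + c) * (r * rexp (-1.5 * r)) - c * (r * rexp (-2.5 * r)))
          = K * (r * (rexp (-r) * (1 + c * (1 - rexp (-r)))) * rexp (-(r / 2))) := by
            have x1 : rexp (-1.5 * r) = rexp (-r) * rexp (-(r / 2)) := by
              rw [← Real.exp_add]; ring_nf
            have x2 : rexp (-2.5 * r) = rexp (-r) * rexp (-r) * rexp (-(r / 2)) := by
              rw [← Real.exp_add, ← Real.exp_add]; ring_nf
            rw [x1, x2]; ring
        _ ≤ K * (r * (rexp (-r) * (1 + c * (1 - rexp (-r)))) * rexp (-(z * r))) := by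
            refine mul_le_mul_of_nonneg_left (mul_le_mul_of_nonneg_left ?_ (by (clear * - hr0 hy; positivity))) hK0.le
            rw [Real.exp_le_exp]
            have h12 := mul_le_mul_of_nonneg_right hz2.le hr0
            clear * - h12
            linarith
        _ = (T u0 * (rexp (-r) * (1 + c * (1 - rexp (-r))))) * (r * rexp (z * (t0 - r))) := by
            have : rexp (z * (t0 - r)) = rexp (z * t0) * rexp (-(z * r)) := by
              rw [← Real.exp_add]; ring_nf
            rw [this, hKdef]; ring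
        _ ≤ _ := mul_le_mul_of_nonneg_right hlow (by positivity)
    have step := mul_le_mul_of_nonneg_left hgr (hT.pos (u0 - r)).le
    calc T (u0 - r) * gloc 1 z (t0 - r) ≤ _ := step
      _ = -(T (u0 - r) * (r * rexp (z * (t0 - r)))) := by ring
      _ ≤ -(K * ((1 + c) * (r * rexp (-1.5 * r)) - c * (r * rexp (-2.5 * r)))) := neg_le_neg main
      _ = _ := by ring
  · intro t ht0' ht1
    refine mul_nonpos_of_nonneg_of_nonpos (hT.pos _).le ((hg t ht0'.le).trans ?_)
    exact mul_nonpos_of_nonpos_of_nonneg (by linarith only [hc1, hc2, ht1]) (Real.exp_pos _).le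
  · exact int_B (by linarith only [hc1, hc2]) (by norm_num)
  · rw [integral_const_mul, integral_add (iA.1.const_mul _) iB.1, integral_const_mul, iA.2, iB.2]
    have h6 := exp_26
    have h7 : rexp (9 / 4 - 2 * π + c) ≤ rexp (-2.6) := Real.exp_le_exp.mpr (by norm_num; linarith only [hc1, hc2, hpi])
    have h8 : rexp (9 / 4 - 2 * π + c) ≤ 0.08 := by linarith only [h6, h7]
    have h9 : 1 / p ≤ 1 / 4.78 := one_div_le_one_div_of_le (by norm_num) hp0.le
    have h10 : 1 / p ^ 2 ≤ 1 / 4.78 ^ 2 := one_div_le_one_div_of_le (by norm_num) (by gcongr)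
    simp only [Nat.factorial_zero, Nat.factorial_one, Nat.cast_one, zero_add, pow_one]
    have h11 : (1 + 1 : ℕ) = 2 := rfl
    rw [h11]
    refine mul_le_mul h8 (by linarith only [h9, h10]) (by (clear * - hp0; positivity)) (by norm_num)
  · rw [intervalIntegral.integral_sub, intervalIntegral.integral_const_mul,
      intervalIntegral.integral_const_mul, int_r_exp (by norm_num), int_r_exp (by norm_num)]
    · have h5 := exp_285
      have h6 := Real.exp_pos (-2.5 * 1.9 : ℝ)
      have h7 : (1 - rexp (-1.5 * 1.9) * (1 + 1.5 * 1.9)) / 1.5 ^ 2 ≥ 0.34 := by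
        norm_num at h5 ⊢
        linarith only [hc1, hc2, h5]
      have h8 : (1 - rexp (-2.5 * 1.9) * (1 + 2.5 * 1.9)) / 2.5 ^ 2 ≤ 0.16 := by
        norm_num at h6 ⊢
        linarith only [h6]
      have h12 := mul_le_mul_of_nonneg_left h7 (by linarith only [hc1, hc2] : 0 ≤ 1 + c)
      have h13 := mul_le_mul_of_nonneg_left h8 (by linarith only [hc1, hc2] : 0 ≤ c)
      clear * - h12 h13 hc1
      linarith only [hc1, h12, h13]
    · exact (by fun_prop : Continuous _).intervalIntegrable _ _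
    · exact (by fun_prop : Continuous _).intervalIntegrable _ _
  · have h5 : 1 / c ^ 2 < 1 / 1.4 ^ 2 :=
      one_div_lt_one_div_of_lt (by norm_num) (by (clear * - hc1; gcongr))
    norm_num at h5 ⊢
    linarith only [hc1, hc2, h5]

end Pool.Agent.MP0016c7
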