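import Mathlib
import Pool.Agent.Lib.MP_0016c7_nt.KernelLocal2a

open Filter Topology Set MeasureTheory
open scoped Real

namespace Pool.Agent.MP0016c7

/-! ### Regime C -/

theorem local_neg_C {T : ℝ → ℝ} (hT : KH2 T) (hK : Ker T) {b L L0 z : ℝ} (hb : 0 ≤ b)
    (hz : z = 1 / 2 - 1 / L0) (h2 : 2 < L0) (hL : L ≤ L0) :
    ∫ t in Ioi 0, T (t + (b - L)) * gloc (-1) z t < 0 := by
  have hL0 : 0 < L0 := by linarith
  have hinv2 : 1 / L0 < 1 / 2 := one_div_lt_one_div_of_lt (by norm_num) h2
  have hinv3 : 0 < 1 / L0 := by positivity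
  have hz0 : 0 < z := by rw [hz]; linarith
  have hz2 : z < 1 / 2 := by rw [hz]; linarith
  set u0 := L0 + (b - L) with hu0
  have hu : 0 ≤ u0 := by rw [hu0]; linarith
  have hCL := Cw_neg_one_pos hz0 hL0
  set K := T u0 * Cw (-1) z L0 * z with hKdef
  have hTu := hT.pos u0
  have hK0 : 0 < K := by positivity
  set p := 2 * π - 3 / 2 with hp
  have hpi := two_pi_bounds
  have hp0 : 4.78 < p := by rw [hp]; linarith only [hpi]
  have hpp : 0 < p := by linarith only [hp, hpi]
  have i1 := int_pow_exp 1 (α := p) hpp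
  have i2 := int_pow_exp 2 (α := p) hpp
  have i3 := int_pow_exp 3 (α := p) hpp
  have hp2 : IntegrableOn (fun r : ℝ => 4 * (r ^ 1 * rexp (-p * r)) +
      3 * (r ^ 2 * rexp (-p * r)) + 1 / 2 * (r ^ 3 * rexp (-p * r))) (Ioi 0) :=
    ((i1.1.const_mul 4).add (i2.1.const_mul 3)).add (i3.1.const_mul (1 / 2))
  -- algebra for the bracket
  have hzL : z * L0 = L0 / 2 - 1 := by
    rw [hz]; field_simp
  have htau : 2 * (z * L0) + 2 * z ≤ tau z := by
    have h5 := tau_eq hz h2
    have h6 : 0 < L0 - 1 := by linarith only [h2, hpi]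
    rw [h5, hzL]
    have h7 : 2 * z = 1 - 2 * (1 / L0) := by rw [hz]; ring
    have h8 : 1 / (L0 - 1) ≤ 2 * (1 / L0) := by
      rw [mul_one_div, div_le_div_iff₀ h6 hL0]; linarith only [h2]
    linarith only [hz, h8]
  have hbr1 : ∀ t, 0 ≤ t → t ≤ L0 → z * t ^ 2 / (1 + z * t) - tau z + z / 8 ≤ -(15 / 8 * z) := by
    intro t ht0 ht1
    have h5 : z * t ^ 2 / (1 + z * t) ≤ 2 * (z * L0) := by
      rw [div_le_iff₀ (by positivity)]
      -- t^2 ≤ 2 L0 (1 + z t)
      have h6 : t ^ 2 ≤ 2 * L0 * (1 + z * t) := by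
        have h7 : 2 * L0 * (1 + z * t) = 2 * L0 + (L0 - 2) * t := by
          have : 2 * L0 * (z * t) = 2 * (z * L0) * t := by ring
          rw [mul_add, this, hzL]; ring
        rw [h7]
        have h12 := mul_le_mul_of_nonneg_right ht1 ht0
        clear * - h12 ht1
        linarith
      have := mul_le_mul_of_nonneg_left h6 hz0.le
      linarith only [this]
    linarith only [htau, h5]
  have hbr2 : ∀ r, 0 ≤ r → z * (L0 + r) ^ 2 / (1 + z * (L0 + r)) - tau z + z / 8 ≤
      z * (4 * r + r ^ 2) := by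
    intro r hr
    have h5 : z * (L0 + r) ^ 2 / (1 + z * (L0 + r)) ≤ 2 * (z * L0) + z * (4 * r + r ^ 2) := by
      rw [div_le_iff₀ (by positivity)]
      have h6 : (L0 + r) ^ 2 ≤ (2 * L0 + 4 * r + r ^ 2) * (L0 / 2) := by
        have h12 := mul_le_mul_of_nonneg_left h2.le (sq_nonneg r)
        clear * - h12
        linarith
      have h7 : L0 / 2 ≤ 1 + z * (L0 + r) := by
        have : z * (L0 + r) = z * L0 + z * r := by ring
        rw [this, hzL]
        have : 0 ≤ z * r := by positivity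
        linarith only [this]
      have h8 : (L0 + r) ^ 2 ≤ (2 * L0 + 4 * r + r ^ 2) * (1 + z * (L0 + r)) :=
        h6.trans (mul_le_mul_of_nonneg_left h7 (by (clear * - h2 hr; positivity)))
      have := mul_le_mul_of_nonneg_left h8 hz0.le
      calc z * (L0 + r) ^ 2 ≤ _ := this
        _ = _ := by ring
    linarith only [hz0, htau, h5]
  refine pivot_neg (hK.integrableOn_gloc (b - L) (-1) hz0 hz2) (t0 := L0) (R := 0.6) (K := K)
    (a := 0) (P1 := 0) (P2 := 4 * (1 / 4.78 ^ 2) + 3 * (2 / 4.78 ^ 3) + 1 / 2 * (6 / 4.78 ^ 4))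
    (N := 0.55) (p1 := fun _ => 0)
    (p2 := fun r => 4 * (r ^ 1 * rexp (-p * r)) +
      3 * (r ^ 2 * rexp (-p * r)) + 1 / 2 * (r ^ 3 * rexp (-p * r)))
    (n := fun r => 15 / 8 * ((1 - r / 2) * (1 - 3 / 2 * r)))
    hK0 (by norm_num) (by linarith only [h2, hpi]) le_rfl ?_ ?_ ?_ ?_ continuous_const (by fun_prop)
    hp2 ?_ ?_ ?_ ?_
  · intro r hr0 hr1
    have : r = 0 := le_antisymm hr1 hr0
    subst this
    simp only [add_zero, mul_zero]
    refine mul_nonpos_of_nonneg_of_nonpos (hT.pos _).le ?_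
    refine (gloc_le_C hz0 hL0.le).trans ?_
    have := hbr1 L0 hL0.le le_rfl
    exact mul_nonpos_of_nonneg_of_nonpos hCL.le (by linarith only [hz0, this])
  · intro r hr
    have e1 : L0 + 0 + r = L0 + r := by ring
    rw [e1]
    have e2 : L0 + r + (b - L) = u0 + r := by rw [hu0]; ring
    rw [e2]
    have hT1 := hT.up2 u0 r hu hr.le
    have hC1 := Cw_neg_upper (z := z) (L := L0) (r := r) hz0 hL0 hr.le
    have hg := gloc_le_C (z := z) (t := L0 + r) hz0 (by linarith only [h2, hpi, hr])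
    have hCr := Cw_neg_one_pos hz0 (by linarith only [h2, hpi, hr] : 0 < L0 + r)
    have hq : 0 ≤ z * (4 * r + r ^ 2) := by positivity
    have h1r : 1 + r / L0 ≤ 1 + r / 2 := by
      have : r / L0 ≤ r / 2 := div_le_div_of_nonneg_left hr.le (by norm_num) h2.le
      linarith only [this]
    calc T (u0 + r) * gloc (-1) z (L0 + r)
        ≤ T (u0 + r) * (Cw (-1) z (L0 + r) * (z * (4 * r + r ^ 2))) :=
          mul_le_mul_of_nonneg_left (hg.trans (mul_le_mul_of_nonneg_left (hbr2 r hr.le) hCr.le))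
            (hT.pos _).le
      _ ≤ (T u0 * rexp (-(2 * π - 1) * r)) *
          ((Cw (-1) z L0 * (rexp (z * r) * (1 + r / L0))) * (z * (4 * r + r ^ 2))) := by
          refine mul_le_mul hT1 (mul_le_mul_of_nonneg_right hC1 hq) (by positivity) ?_
          positivity
      _ = K * ((4 * r + r ^ 2) * ((1 + r / L0) * (rexp (-(2 * π - 1) * r) * rexp (z * r)))) := by
          rw [hKdef]; ring
      _ ≤ K * ((4 * r + r ^ 2) * ((1 + r / 2) * rexp (-p * r))) := by
          refine mul_le_mul_of_nonneg_left (mul_le_mul_of_nonneg_left ?_ (by positivity)) hK0.le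
          refine mul_le_mul h1r ?_ (by positivity) (by positivity)
          rw [← Real.exp_add, Real.exp_le_exp, hp]
          have h12 := mul_le_mul_of_nonneg_right hz2.le hr.le
          clear * - h12
          linarith
      _ = _ := by ring
  · intro r hr0 hr1
    have e2 : L0 - r + (b - L) = u0 - r := by rw [hu0]; ring
    rw [e2]
    have hT1 := hT.low' u0 r hr0
    have hC1 := Cw_neg_lower (z := z) (L := L0) (r := r) hL0 hr0 (by linarith only [h2, hpi, hr1])
    have hg := gloc_le_C (z := z) (t := L0 - r) hz0 (by linarith only [h2, hpi, hr1])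
    have hCr := Cw_neg_one_pos hz0 (by linarith only [h2, hpi, hr1] : 0 < L0 - r)
    have hb1 := hbr1 (L0 - r) (by linarith only [h2, hpi, hr1]) (by linarith only [hr0])
    have h1r : 1 - r / 2 ≤ 1 - r / L0 := by
      have : r / L0 ≤ r / 2 := div_le_div_of_nonneg_left hr0 (by norm_num) h2.le
      linarith only [this]
    have main : K * (15 / 8 * ((1 - r / 2) * (1 - 3 / 2 * r))) ≤
        T (u0 - r) * (Cw (-1) z (L0 - r) * (15 / 8 * z)) := by
      calc K * (15 / 8 * ((1 - r / 2) * (1 - 3 / 2 * r)))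
          ≤ K * (15 / 8 * ((1 - r / L0) * (rexp (-r) * rexp (-(z * r))))) := by
            refine mul_le_mul_of_nonneg_left (mul_le_mul_of_nonneg_left ?_ (by norm_num)) hK0.le
            refine mul_le_mul h1r ?_ (by linarith only [hpi, hr1]) (by linarith only [hpi, hr1, h1r])
            rw [← Real.exp_add]
            have h9 := Real.add_one_le_exp (-r + -(z * r))
            have h12 := mul_le_mul_of_nonneg_right hz2.le hr0
            clear * - h9 h12
            linarith
        _ = (T u0 * rexp (-r)) * ((Cw (-1) z L0 * (rexp (-(z * r)) * (1 - r / L0))) *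
            (15 / 8 * z)) := by rw [hKdef]; ring
        _ ≤ _ := by
            refine mul_le_mul hT1 (mul_le_mul_of_nonneg_right hC1 (by positivity)) ?_ (hT.pos _).le
            have : 0 ≤ 1 - r / L0 := by linarith only [hpi, hr1, h1r]
            (clear * - hCL this hz0; positivity)
    have step := mul_le_mul_of_nonneg_left (hg.trans (mul_le_mul_of_nonneg_left hb1 hCr.le))
      (hT.pos (u0 - r)).le
    calc T (u0 - r) * gloc (-1) z (L0 - r) ≤ _ := step
      _ = -(T (u0 - r) * (Cw (-1) z (L0 - r) * (15 / 8 * z))) := by ring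
      _ ≤ -(K * (15 / 8 * ((1 - r / 2) * (1 - 3 / 2 * r)))) := neg_le_neg main
      _ = _ := by ring
  · intro t ht0 ht1
    refine mul_nonpos_of_nonneg_of_nonpos (hT.pos _).le ((gloc_le_C hz0 ht0.le).trans ?_)
    have := hbr1 t ht0.le (by linarith only [hpi, ht1])
    exact mul_nonpos_of_nonneg_of_nonpos (Cw_neg_one_pos hz0 ht0).le (by linarith only [hz0, this])
  · simp
  · have j12 : IntegrableOn (fun r : ℝ => 4 * (r ^ 1 * rexp (-p * r)) +
        3 * (r ^ 2 * rexp (-p * r))) (Ioi 0) := (i1.1.const_mul 4).add (i2.1.const_mul 3)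
    rw [integral_add j12 (i3.1.const_mul _),
      integral_add (i1.1.const_mul _) (i2.1.const_mul _), integral_const_mul, integral_const_mul,
      integral_const_mul, i1.2, i2.2, i3.2]
    have h9 : 1 / p ^ 2 ≤ 1 / 4.78 ^ 2 := one_div_le_one_div_of_le (by norm_num) (by gcongr)
    have h10 : 1 / p ^ 3 ≤ 1 / 4.78 ^ 3 := one_div_le_one_div_of_le (by norm_num) (by gcongr)
    have h11 : 1 / p ^ 4 ≤ 1 / 4.78 ^ 4 := one_div_le_one_div_of_le (by norm_num) (by gcongr)
    have f2 : Nat.factorial 2 = 2 := rfl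
    have f3 : Nat.factorial 3 = 6 := rfl
    rw [Nat.factorial_one, f2, f3]
    push_cast
    have x2 : (2 : ℝ) / p ^ 3 = 2 * (1 / p ^ 3) := by ring
    have x3 : (6 : ℝ) / p ^ 4 = 6 * (1 / p ^ 4) := by ring
    have x4 : (2 : ℝ) / 4.78 ^ 3 = 2 * (1 / 4.78 ^ 3) := by ring
    have x5 : (6 : ℝ) / 4.78 ^ 4 = 6 * (1 / 4.78 ^ 4) := by ring
    rw [x2, x3, x4, x5]
    linarith only [h9, h10, h11]
  · have hd : ∀ r ∈ uIcc (0 : ℝ) 0.6, HasDerivAt
        (fun r : ℝ => 15 / 8 * (r - r ^ 2 + r ^ 3 / 4))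
        (15 / 8 * ((1 - r / 2) * (1 - 3 / 2 * r))) r := by
      intro r _
      have d1 := (((hasDerivAt_id r).sub ((hasDerivAt_id r).pow 2)).add
        (((hasDerivAt_id r).pow 3).div_const 4)).const_mul (15 / 8)
      refine d1.congr_deriv ?_
      simp only [id]
      ring
    rw [intervalIntegral.integral_eq_sub_of_hasDerivAt hd
      ((by fun_prop : Continuous fun r : ℝ =>
      15 / 8 * ((1 - r / 2) * (1 - 3 / 2 * r))).intervalIntegrable _ _)]
    norm_num
  · norm_num

end Pool.Agent.MP0016c7
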