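import Mathlib
import Pool.Agent.Lib.MP_0016c7_nt.KernelLocal2
import Pool.Agent.Lib.MP_0016c7_nt.KernelLocalC

open Filter Topology Set MeasureTheory
open scoped Real

namespace Pool.Agent.MP0016c7

/-- The local kernel inequality, for all levels. -/
theorem local_neg {T : ℝ → ℝ} (hT : KH2 T) (hK : Ker T) {b L z W : ℝ} (hb : 0 ≤ b)
    (hW : W = 1 ∨ W = -1) (hz0 : 0 < z) (hz2 : z < 1 / 2) (hL : L * (1 / 2 - z) ≤ 1) :
    ∫ t in Ioi 0, T (t + (b - L)) * gloc W z t < 0 := by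
  set L0 := 1 / (1 / 2 - z) with hL0
  have hd : 0 < 1 / 2 - z := by linarith
  have h2 : 2 < L0 := by
    rw [hL0, lt_div_iff₀ hd]; linarith
  have hLL : L ≤ L0 := by
    rw [hL0, le_div_iff₀ hd]; exact hL
  have hz : z = 1 / 2 - 1 / L0 := by
    rw [hL0, one_div_one_div]; ring
  rcases hW with rfl | rfl
  · rcases le_total L0 3.4 with h3 | h3
    · exact local_neg_A hT hK hb hz h2 h3 hLL
    · exact local_neg_B hT hK hb hz h3 hLL
  · exact local_neg_C hT hK hb hz h2 hLL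

end Pool.Agent.MP0016c7
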