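import Mathlib
import Pool.Agent.Lib.MP_0016c7_nt.KernelLocal3

open Filter Topology Set MeasureTheory
open scoped Real

namespace Pool.Agent.MP0016c7

variable {c : ArithmeticFunction ℝ} {T : ℝ → ℝ} {L W : ℝ} {F : ℝ → ℝ}

lemma hn_eq (T : ℝ → ℝ) (L : ℝ) (n : ℕ) (t : ℝ) :
    hn T L n t = rexp ((L - Real.log n) / 2) * T (t + (Real.log n - L)) := by
  unfold hn
  congr 2
  ring

lemma hasDerivAt_Cw (W z t : ℝ) : HasDerivAt (fun z => Cw W z t) (Cd W z t) z := by
  unfold Cw Cd
  have h1 : HasDerivAt (fun z => z * t) t z := by simpa using (hasDerivAt_id z).mul_const t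
  have h2 := h1.exp.add (h1.neg.exp.const_mul W)
  refine h2.congr_deriv ?_
  simp only [Pi.neg_apply]
  ring

lemma hasDerivAt_Jn (hK : Ker T) (hW : W = 1 ∨ W = -1) (L : ℝ) (n : ℕ) {z : ℝ} (hz0 : 0 < z)
    (hz : z < 1 / 2) :
    HasDerivAt (fun z => Jn W T L n z) (∫ t in Ioi 0, Cd W z t * hn T L n t) z := by
  have hWa : |W| = 1 := by rcases hW with rfl | rfl <;> simp
  have hc := hK.cont
  have hnc : Continuous (hn T L n) := by unfold hn; fun_prop
  have hint : ∀ (i : ℕ) (y : ℝ), y < 1 →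
      IntegrableOn (fun t => t ^ i * rexp (y * t) * hn T L n t) (Ioi 0) := by
    intro i y hy
    have h0 : IntegrableOn (fun t => rexp ((L - Real.log n) / 2) *
        (T (t + (Real.log n - L)) * (t ^ i * rexp (y * t)))) (Ioi 0) :=
      (hK.integrableOn_weight (Real.log n - L) i hy).const_mul _
    refine h0.congr_fun ?_ measurableSet_Ioi
    intro t _
    simp only [hn_eq]
    ring
  have hs : Ioo (0 : ℝ) (1 / 2) ∈ 𝓝 z := Ioo_mem_nhds hz0 hz
  refine (hasDerivAt_integral_of_dominated_loc_of_deriv_le (μ := volume.restrict (Ioi 0))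
    (F := fun z t => Cw W z t * hn T L n t) (F' := fun z t => Cd W z t * hn T L n t)
    (bound := fun t => 2 * (t ^ 1 * rexp (1 / 2 * t) * hn T L n t)) hs ?_ ?_ ?_ ?_ ?_ ?_).2
  · refine Eventually.of_forall fun y => ?_
    unfold Cw
    exact (by fun_prop : Continuous _).aestronglyMeasurable
  · have i1 := hint 0 z (by linarith)
    have i2 := (hint 0 (-z) (by linarith)).const_mul W
    refine (i1.add i2).congr_fun ?_ measurableSet_Ioi
    intro t _
    simp only [Pi.add_apply, Cw]
    have : -z * t = -(z * t) := by ring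
    rw [this]
    ring
  · unfold Cd
    exact (by fun_prop : Continuous _).aestronglyMeasurable
  · rw [ae_restrict_iff' measurableSet_Ioi]
    refine Eventually.of_forall fun t ht y hy => ?_
    have ht0 : (0 : ℝ) < t := ht
    have hpos := hK.hn_pos L n t
    rw [norm_mul, Real.norm_of_nonneg hpos.le]
    have h1 : ‖Cd W y t‖ ≤ 2 * (t ^ 1 * rexp (1 / 2 * t)) := by
      unfold Cd
      rw [norm_mul, Real.norm_of_nonneg ht0.le, Real.norm_eq_abs]
      have h2 : |rexp (y * t) - W * rexp (-(y * t))| ≤ rexp (y * t) + rexp (-(y * t)) := by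
        refine (abs_sub _ _).trans ?_
        rw [abs_mul, hWa, one_mul, abs_of_pos (Real.exp_pos _), abs_of_pos (Real.exp_pos _)]
      have h3 : rexp (y * t) ≤ rexp (1 / 2 * t) :=
        Real.exp_le_exp.mpr (mul_le_mul_of_nonneg_right hy.2.le ht0.le)
      have h4 : rexp (-(y * t)) ≤ rexp (1 / 2 * t) := by
        apply Real.exp_le_exp.mpr
        have := mul_pos hy.1 ht0
        linarith
      rw [pow_one]
      nlinarith
    calc ‖Cd W y t‖ * hn T L n t ≤ (2 * (t ^ 1 * rexp (1 / 2 * t))) * hn T L n t :=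
          mul_le_mul_of_nonneg_right h1 hpos.le
      _ = _ := by ring
  · exact (hint 1 (1 / 2) (by norm_num)).const_mul 2
  · refine Eventually.of_forall fun t y _ => ?_
    exact (hasDerivAt_Cw W y t).mul_const _

/-- the comparison factor -/
noncomputable def Bw (W z : ℝ) : ℝ :=
  rexp (z ^ 2 / 16) * (1 / 4 - z ^ 2) * (if W = 1 then 1 else 1 / z)

lemma Bw_pos (W : ℝ) {z : ℝ} (hz0 : 0 < z) (hz : z < 1 / 2) : 0 < Bw W z := by
  unfold Bw
  have := quarter_pos hz0 hz
  split_ifs <;> positivity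

lemma hasDerivAt_Bw (W : ℝ) {z : ℝ} (hz0 : 0 < z) (hz : z < 1 / 2) :
    HasDerivAt (Bw W) (-(tauW W z - z / 8) * Bw W z) z := by
  have hq := (quarter_pos hz0 hz).ne'
  have ht : tau z * (1 / 4 - z ^ 2) = 2 * z := div_mul_cancel₀ _ hq
  have h1 : HasDerivAt (fun z : ℝ => z ^ 2 / 16) (z / 8) z := by
    have := (hasDerivAt_pow 2 z).div_const 16
    refine this.congr_deriv ?_
    norm_num
    ring
  have h2 : HasDerivAt (fun z : ℝ => 1 / 4 - z ^ 2) (-(2 * z)) z := by
    have := (hasDerivAt_pow 2 z).const_sub (1 / 4)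
    refine this.congr_deriv ?_
    norm_num
  by_cases hW : W = 1
  · have e : Bw W = fun z => rexp (z ^ 2 / 16) * (1 / 4 - z ^ 2) := by
      ext z; simp [Bw, hW]
    rw [e]
    refine (h1.exp.mul h2).congr_deriv ?_
    simp only [tauW, hW, if_true, add_zero]
    linear_combination rexp (z ^ 2 / 16) * ht
  · have e : Bw W = fun z => rexp (z ^ 2 / 16) * (1 / 4 - z ^ 2) * (1 / z) := by
      ext z; simp [Bw, hW]
    rw [e]
    have h3 : HasDerivAt (fun z : ℝ => 1 / z) (-(1 / z ^ 2)) z := by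
      have := hasDerivAt_inv hz0.ne'
      simp only [one_div]
      exact this
    refine ((h1.exp.mul h2).mul h3).congr_deriv ?_
    simp only [tauW, hW, if_false, Pi.mul_apply]
    have hzz : z * (1 / z) = 1 := by field_simp
    have hz2 : (1 : ℝ) / z ^ 2 = (1 / z) * (1 / z) := by field_simp
    rw [hz2]
    linear_combination rexp (z ^ 2 / 16) * (1 / z) * ht

/-- Local kernel inequality integrated: the normalised integrals decrease. -/
theorem Jn_window (hT : KH2 T) (hK : Ker T) (hW : W = 1 ∨ W = -1) (hL : 0 ≤ L) {z1 z2 : ℝ}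
    (hz : 0 < z1) (hz12 : z1 < z2) (hz2 : z2 < 1 / 2) (hwin : L * (1 / 2 - z1) ≤ 1) {n : ℕ} :
    Jn W T L n z2 * Bw W z2 < Jn W T L n z1 * Bw W z1 := by
  have hder : ∀ z ∈ Icc z1 z2, HasDerivAt (fun z => Jn W T L n z * Bw W z)
      (Bw W z * (rexp ((L - Real.log n) / 2) *
        ∫ t in Ioi 0, T (t + (Real.log n - L)) * gloc W z t)) z := by
    intro z hzm
    have hz0 : 0 < z := lt_of_lt_of_le hz hzm.1
    have hz' : z < 1 / 2 := lt_of_le_of_lt hzm.2 hz2
    have h1 := (hasDerivAt_Jn hK hW L n hz0 hz').mul (hasDerivAt_Bw W hz0 hz')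
    refine h1.congr_deriv ?_
    have e1 : ∫ t in Ioi 0, Cd W z t * hn T L n t = rexp ((L - Real.log n) / 2) *
        ∫ t in Ioi 0, T (t + (Real.log n - L)) * Cd W z t := by
      rw [← integral_const_mul]
      congr 1
      ext t
      rw [hn_eq]; ring
    have e2 : Jn W T L n z = rexp ((L - Real.log n) / 2) *
        ∫ t in Ioi 0, T (t + (Real.log n - L)) * Cw W z t := by
      unfold Jn
      rw [← integral_const_mul]
      congr 1
      ext t
      rw [hn_eq]; ring
    have i1 := hK.integrableOn_weight (Real.log n - L) 1 (z := z) (by linarith)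
    have i2 := (hK.integrableOn_weight (Real.log n - L) 1 (z := -z) (by linarith)).const_mul (-W)
    have i3 := (hK.integrableOn_weight (Real.log n - L) 0 (z := z) (by linarith))
    have i4 := (hK.integrableOn_weight (Real.log n - L) 0 (z := -z) (by linarith)).const_mul W
    have en : ∀ t : ℝ, -z * t = -(z * t) := fun t => by ring
    have i5 : IntegrableOn (fun t => T (t + (Real.log n - L)) * Cd W z t) (Ioi 0) := by
      refine (i1.add i2).congr_fun ?_ measurableSet_Ioi
      intro t _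
      simp only [Pi.add_apply, Cd, en]
      ring
    have i6 : IntegrableOn (fun t => T (t + (Real.log n - L)) * Cw W z t) (Ioi 0) := by
      refine (i3.add i4).congr_fun ?_ measurableSet_Ioi
      intro t _
      simp only [Pi.add_apply, Cw, en]
      ring
    have e3 : ∫ t in Ioi 0, T (t + (Real.log n - L)) * gloc W z t =
        (∫ t in Ioi 0, T (t + (Real.log n - L)) * Cd W z t) -
        (tauW W z - z / 8) * ∫ t in Ioi 0, T (t + (Real.log n - L)) * Cw W z t := by
      rw [← integral_const_mul, ← integral_sub i5 (i6.const_mul _)]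
      congr 1
      ext t
      unfold gloc
      ring
    rw [e1, e3, e2]
    ring
  have hneg : ∀ z ∈ Icc z1 z2, Bw W z * (rexp ((L - Real.log n) / 2) *
        ∫ t in Ioi 0, T (t + (Real.log n - L)) * gloc W z t) < 0 := by
    intro z hzm
    have hz0 : 0 < z := lt_of_lt_of_le hz hzm.1
    have hz' : z < 1 / 2 := lt_of_le_of_lt hzm.2 hz2
    have h1 := local_neg hT hK (b := Real.log n) (L := L) (Real.log_natCast_nonneg n) hW hz0 hz'
      (by nlinarith [hzm.1])
    have h2 := Bw_pos W hz0 hz'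
    have h3 := Real.exp_pos ((L - Real.log n) / 2)
    have h4 := mul_neg_of_pos_of_neg h3 h1
    exact mul_neg_of_pos_of_neg h2 h4
  have hanti : StrictAntiOn (fun z => Jn W T L n z * Bw W z) (Icc z1 z2) := by
    refine strictAntiOn_of_deriv_neg (convex_Icc z1 z2)
      (fun z hzm => (hder z hzm).continuousAt.continuousWithinAt) ?_
    intro z hzm
    have hzm' := interior_subset hzm
    rw [(hder z hzm').deriv]
    exact hneg z hzm'
  exact hanti (left_mem_Icc.mpr hz12.le) (right_mem_Icc.mpr hz12.le) hz12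

/-- The window inequality: on the window the normalised product increases. -/
theorem window_ineq (h : Rep c T L F) (hW : W = 1 ∨ W = -1) (hs : ∀ t, F (-t) = W * F t)
    (ha : ∀ n, 0 ≤ (oneA * c) n) (ha1 : 0 < (oneA * c) 1)
    (hT : KH2 (cv (Tk 0) T)) (hL : 0 ≤ L) {z1 z2 : ℝ} (hz : 0 < z1)
    (hz12 : z1 < z2) (hz2 : z2 < 1 / 2) (hwin : L * (1 / 2 - z1) ≤ 1) :
    (1 - rexp (-(z2 ^ 2 - z1 ^ 2) / 16)) * kap F +
      rexp (-(z2 ^ 2 - z1 ^ 2) / 16) * Xw W F z1 < Xw W F z2 := by
  have hK : Ker (cv (Tk 0) T) := (ker_Tk le_rfl).conv h.ker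
  have q1 := quarter_pos hz (hz12.trans hz2)
  have q2 := quarter_pos (hz.trans hz12) hz2
  have hz20 := hz.trans hz12
  have key := machine_ineq_gen h hW hs ha ha1 hz hz12 hz2
    (R := rexp (-(z2 ^ 2 - z1 ^ 2) / 16) * ((1 / 4 - z1 ^ 2) / (1 / 4 - z2 ^ 2))) (fun n _ => by
      have h1 := Jn_window hT hK hW hL hz hz12 hz2 hwin (n := n)
      have b2 := Bw_pos W hz20 hz2
      have e : kfac W z1 z2 * (rexp (-(z2 ^ 2 - z1 ^ 2) / 16) *
          ((1 / 4 - z1 ^ 2) / (1 / 4 - z2 ^ 2))) * Bw W z2 = Bw W z1 := by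
        have e1 : rexp (z1 ^ 2 / 16) = rexp (-(z2 ^ 2 - z1 ^ 2) / 16) * rexp (z2 ^ 2 / 16) := by
          rw [← Real.exp_add]; ring_nf
        unfold Bw
        rw [e1]
        generalize rexp (-(z2 ^ 2 - z1 ^ 2) / 16) = E
        generalize 1 / 4 - z1 ^ 2 = u at *
        generalize 1 / 4 - z2 ^ 2 = v at *
        rcases hW with rfl | rfl
        · simp only [kfac, if_true]
          field_simp
        · have h3 : ¬ ((-1 : ℝ) = 1) := by norm_num
          simp only [kfac, h3, if_false]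
          field_simp
      refine lt_of_mul_lt_mul_right (a := Bw W z2) ?_ b2.le
      calc Jn W (cv (Tk 0) T) L n z2 * Bw W z2 < Jn W (cv (Tk 0) T) L n z1 * Bw W z1 := h1
        _ = _ := by rw [← e]; ring)
  have e5 : rexp (-(z2 ^ 2 - z1 ^ 2) / 16) * ((1 / 4 - z1 ^ 2) / (1 / 4 - z2 ^ 2)) *
      ((1 / 4 - z2 ^ 2) / (1 / 4 - z1 ^ 2)) = rexp (-(z2 ^ 2 - z1 ^ 2) / 16) := by
    generalize 1 / 4 - z1 ^ 2 = u at *
    generalize 1 / 4 - z2 ^ 2 = v at *
    field_simp
  rw [e5] at key
  exact key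

end Pool.Agent.MP0016c7
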