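import Mathlib
import Pool.Agent.Lib.MP_0016c7_nt.Final1
import Pool.Agent.Lib.MP_0016c7_nt.Window

open Filter Topology Set MeasureTheory
open scoped Real

namespace Pool.Agent.MP0016c7

/-- All the data needed for a product of `L`-functions. -/
structure LData (c : ArithmeticFunction ℝ) (T : ℝ → ℝ) (L W : ℝ) (F G P : ℝ → ℝ) : Prop where
  rep : Rep c T L F
  hW : W = 1 ∨ W = -1
  hs : ∀ t, F (-t) = W * F t
  ha : ∀ n, 0 ≤ (oneA * c) n
  ha1 : 0 < (oneA * c) 1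
  hT : KH2 (cv (Tk 0) T)
  hT' : KernelHyp (cv (Tk 0) T)
  hL : 0 ≤ L
  val : ∀ s, 0 < s → ∫ t, rexp ((s - 1 / 2) * t) * F t = G s * P s
  gpos : ∀ s, 0 < s → 0 < G s
  gcont : ContinuousOn G (Ioi 0)
  pcont : Continuous P
  pone : P 1 ≠ 0

namespace LData

variable {c : ArithmeticFunction ℝ} {T : ℝ → ℝ} {L W : ℝ} {F G P : ℝ → ℝ}

lemma pos_gt (h : LData c T L W F G P) {s : ℝ} (hs : 1 < s) : 0 < P s := by
  have h1 := integral_pos_of_gt h.rep h.hW h.hs h.ha h.ha1 (z := s - 1 / 2) (by linarith)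
  rw [h.val s (by linarith)] at h1
  exact (mul_pos_iff_of_pos_left (h.gpos s (by linarith))).mp h1

lemma pos_one (h : LData c T L W F G P) : 0 < P 1 := by
  have h1 : 0 ≤ P 1 := by
    have ht : Tendsto P (𝓝[>] 1) (𝓝 (P 1)) := (h.pcont.tendsto 1).mono_left nhdsWithin_le_nhds
    refine ge_of_tendsto ht ?_
    filter_upwards [self_mem_nhdsWithin] with s hs
    exact (h.pos_gt hs).le
  exact lt_of_le_of_ne h1 (Ne.symm h.pone)

lemma kap_pos (h : LData c T L W F G P) : 0 < kap F := by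
  have h1 := h.val 1 one_pos
  have h2 : (1 : ℝ) - 1 / 2 = 1 / 2 := by norm_num
  rw [h2] at h1
  unfold kap
  rw [h1]
  have := h.gpos 1 one_pos
  have := h.pos_one
  positivity

lemma Xw_eq (h : LData c T L W F G P) {s : ℝ} (hs : 0 < s) :
    Xw W F (s - 1 / 2) =
      (-(∫ t, rexp ((s - 1 / 2) * t) * lam t)) / Aw W (s - 1 / 2) * (G s * P s) := by
  unfold Xw
  rw [h.val s hs]
  ring

lemma M_pos (h : LData c T L W F G P) {s : ℝ} (hs : 1 / 2 < s) (hs1 : s < 1) :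
    0 < (-(∫ t, rexp ((s - 1 / 2) * t) * lam t)) / Aw W (s - 1 / 2) := by
  have h1 := integral_exp_lam_neg (z := s - 1 / 2) (by rw [abs_of_pos (by linarith)]; linarith)
  have h2 := Aw_pos h.hW (z := s - 1 / 2) (by linarith) (by linarith)
  exact div_pos (by linarith) h2

lemma Xw_nonneg (h : LData c T L W F G P) {s : ℝ} (hs : 1 / 2 < s) (hs1 : s < 1)
    (hP : 0 ≤ P s) : 0 ≤ Xw W F (s - 1 / 2) := by
  rw [h.Xw_eq (by linarith)]
  exact mul_nonneg (h.M_pos hs hs1).le (mul_nonneg (h.gpos s (by linarith)).le hP)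

lemma pos_of_Xw (h : LData c T L W F G P) {s : ℝ} (hs : 1 / 2 < s) (hs1 : s < 1)
    (hX : 0 < Xw W F (s - 1 / 2)) : 0 < P s := by
  rw [h.Xw_eq (by linarith)] at hX
  have h1 := (mul_pos_iff_of_pos_left (h.M_pos hs hs1)).mp hX
  exact (mul_pos_iff_of_pos_left (h.gpos s (by linarith))).mp h1

/-- Propagation of positivity in the window. -/
theorem window_pos (h : LData c T L W F G P) {s₁ s₂ : ℝ} (h1 : 1 / 2 < s₁) (h12 : s₁ < s₂)
    (h2 : s₂ < 1) (hwin : L * (1 - s₁) ≤ 1) (hP : 0 ≤ P s₁) : 0 < P s₂ := by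
  have key := window_ineq h.rep h.hW h.hs h.ha h.ha1 h.hT h.hL (z1 := s₁ - 1 / 2)
    (z2 := s₂ - 1 / 2) (by linarith) (by linarith) (by linarith)
    (by have : 1 / 2 - (s₁ - 1 / 2) = 1 - s₁ := by ring
        rw [this]; exact hwin)
  refine h.pos_of_Xw (by linarith) h2 (lt_of_le_of_lt ?_ key)
  have hE : rexp (-((s₂ - 1 / 2) ^ 2 - (s₁ - 1 / 2) ^ 2) / 16) ≤ 1 := by
    rw [Real.exp_le_one_iff]
    nlinarith
  have h3 := h.kap_pos
  have h4 := h.Xw_nonneg h1 (by linarith) hP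
  have h5 := Real.exp_pos (-((s₂ - 1 / 2) ^ 2 - (s₁ - 1 / 2) ^ 2) / 16)
  have h6 : 0 ≤ (1 - rexp (-((s₂ - 1 / 2) ^ 2 - (s₁ - 1 / 2) ^ 2) / 16)) * kap F :=
    mul_nonneg (by linarith) h3.le
  have h7 : 0 ≤ rexp (-((s₂ - 1 / 2) ^ 2 - (s₁ - 1 / 2) ^ 2) / 16) * Xw W F (s₁ - 1 / 2) :=
    mul_nonneg h5.le h4
  linarith

/-- Propagation of positivity by a jump. -/
theorem jump_pos (h : LData c T L W F G P) (hell : ellW W ≤ L) {s₁ s₂ : ℝ} (h1 : 1 / 2 < s₁)
    (h12 : s₁ < s₂) (h2 : s₂ < 1)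
    (hc : rexp ((s₂ - s₁) * L) * (s₂ * (1 - s₂)) ≤ s₁ * (1 - s₁)) (hP : 0 ≤ P s₁) :
    0 < P s₂ := by
  have key := machine_ineq h.rep h.hW h.hs h.ha h.ha1 h.hT' hell (z1 := s₁ - 1 / 2)
    (z2 := s₂ - 1 / 2) (by linarith) (by linarith) (by linarith)
  refine h.pos_of_Xw (by linarith) h2 (lt_of_le_of_lt ?_ key)
  have e1 : s₂ - 1 / 2 - (s₁ - 1 / 2) = s₂ - s₁ := by ring
  have e2 : 1 / 4 - (s₂ - 1 / 2) ^ 2 = s₂ * (1 - s₂) := by ring
  have e3 : 1 / 4 - (s₁ - 1 / 2) ^ 2 = s₁ * (1 - s₁) := by ring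
  rw [e1, e2, e3]
  have h01 : 0 < s₁ * (1 - s₁) := mul_pos (by linarith) (by linarith)
  have h02 : 0 < s₂ * (1 - s₂) := mul_pos (by linarith) (by linarith)
  have hρ : rexp ((s₂ - s₁) * L) * (s₂ * (1 - s₂) / (s₁ * (1 - s₁))) ≤ 1 := by
    rw [← mul_div_assoc, div_le_one h01]
    exact hc
  have hρ0 : 0 ≤ rexp ((s₂ - s₁) * L) * (s₂ * (1 - s₂) / (s₁ * (1 - s₁))) := by positivity
  have h3 := h.kap_pos
  have h4 := h.Xw_nonneg h1 (by linarith) hP
  have h6 := mul_nonneg (by linarith :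
    0 ≤ 1 - rexp ((s₂ - s₁) * L) * (s₂ * (1 - s₂) / (s₁ * (1 - s₁)))) h3.le
  have h7 := mul_nonneg hρ0 h4
  linarith

/-- Propagation of positivity by a jump, all levels. -/
theorem jump_pos' (h : LData c T L W F G P) (hL5 : Real.log 5 / 2 ≤ L ∨ L ≤ 2) {s₁ s₂ : ℝ}
    (h1 : 1 / 2 < s₁) (h12 : s₁ < s₂) (h2 : s₂ < 1)
    (hc : rexp ((s₂ - s₁) * L) * (s₂ * (1 - s₂)) ≤ s₁ * (1 - s₁)) (hP : 0 ≤ P s₁) :
    0 < P s₂ := by
  rcases hL5 with hL5 | hL5
  · refine h.jump_pos ?_ h1 h12 h2 hc hP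
    rcases h.hW with hW | hW
    · rw [hW, ellW_one]
      have : Real.log 3 ≤ Real.log 5 := Real.log_le_log (by norm_num) (by norm_num)
      linarith
    · rw [hW, ellW_neg_one]
      exact hL5
  · refine h.window_pos h1 h12 h2 ?_ hP
    have := h.hL
    nlinarith

/-- Linear lower bound to the right of a point where the product is nonnegative. -/
theorem window_lower (h : LData c T L W F G P) {s₁ : ℝ} (h1 : 1 / 2 < s₁) (h2 : s₁ < 1)
    (hwin : L * (1 - s₁) ≤ 1) (hP : 0 ≤ P s₁) :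
    ∃ C, 0 < C ∧ ∃ s₃, s₁ < s₃ ∧ ∀ s ∈ Ioo s₁ s₃, C * (s - s₁) ≤ P s := by
  set s₃ := (s₁ + 1) / 2 with hs3
  have h13 : s₁ < s₃ := by rw [hs3]; linarith
  have h31 : s₃ < 1 := by rw [hs3]; linarith
  set z1 := s₁ - 1 / 2 with hz1
  set z3 := s₃ - 1 / 2 with hz3
  have hz10 : 0 < z1 := by rw [hz1]; linarith
  have hz30 : 0 < z3 := by rw [hz3]; linarith
  -- bound for the lambda integral
  have i1 := integrable_exp_lam (z := z3) (by rw [abs_of_pos hz30, hz3]; linarith)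
  have i2 := integrable_exp_lam (z := -z3) (by rw [abs_neg, abs_of_pos hz30, hz3]; linarith)
  set C1 := -((∫ t, rexp (z3 * t) * lam t) + ∫ t, rexp (-z3 * t) * lam t) with hC1
  have n1 := integral_exp_lam_neg (z := z3) (by rw [abs_of_pos hz30, hz3]; linarith)
  have n2 := integral_exp_lam_neg (z := -z3) (by rw [abs_neg, abs_of_pos hz30, hz3]; linarith)
  have hC1pos : 0 < C1 := by rw [hC1]; linarith
  have hlam : ∀ z, 0 < z → z < z3 → -(∫ t, rexp (z * t) * lam t) ≤ C1 := by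
    intro z hz0 hz
    rw [hC1, ← integral_add i1 i2, ← integral_neg, ← integral_neg]
    have i0 := integrable_exp_lam (z := z) (by rw [abs_of_pos hz0]; linarith)
    refine integral_mono i0.neg (i1.add i2).neg fun t => ?_
    simp only [Pi.neg_apply, Pi.add_apply]
    have hl := lam_lt_zero t
    have h5 : rexp (z * t) ≤ rexp (z3 * t) + rexp (-z3 * t) := by
      rcases le_total 0 t with ht | ht
      · have : rexp (z * t) ≤ rexp (z3 * t) :=
          Real.exp_le_exp.mpr (mul_le_mul_of_nonneg_right hz.le ht)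
        linarith [Real.exp_pos (-z3 * t)]
      · have : rexp (z * t) ≤ rexp (-z3 * t) := by
          rw [Real.exp_le_exp]
          have a1 := mul_nonpos_of_nonneg_of_nonpos hz0.le ht
          have a2 := mul_nonpos_of_nonneg_of_nonpos hz30.le ht
          linarith
        linarith [Real.exp_pos (z3 * t)]
    have a3 := mul_le_mul_of_nonpos_right h5 hl.le
    linarith
  -- bound for the archimedean factor
  obtain ⟨C2, hC2⟩ : ∃ C2, ∀ s ∈ Icc s₁ s₃, G s ≤ C2 := by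
    have hcpt := isCompact_Icc (a := s₁) (b := s₃)
    obtain ⟨C2, hC2⟩ := hcpt.bddAbove_image
      (h.gcont.mono (fun s hs => (by linarith [hs.1] : (0 : ℝ) < s)))
    exact ⟨C2, fun s hs => hC2 ⟨s, hs, rfl⟩⟩
  have hC2pos : 0 < C2 := lt_of_lt_of_le (h.gpos s₁ (by linarith)) (hC2 s₁ ⟨le_rfl, h13.le⟩)
  -- lower bound for Aw
  have hA : ∀ z, z1 < z → z < 1 / 2 → 8 * z1 ≤ Aw W z := by
    intro z hz0 hz
    have hz0' : 0 < z := hz10.trans hz0
    have hq := quarter_pos hz0' hz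
    have hz4 : 1 / 4 - z ^ 2 ≤ 1 / 4 := by linarith [sq_nonneg z]
    rcases h.hW with hW | hW
    · rw [hW, Aw_one hz0' hz, le_div_iff₀ hq]
      have a1 := mul_le_mul_of_nonneg_left hz4 (by linarith : 0 ≤ 8 * z1)
      linarith
    · rw [hW, Aw_neg_one hz0' hz, le_div_iff₀ hq]
      have a1 := mul_le_mul_of_nonneg_left hz4 (by linarith : 0 ≤ 8 * z1)
      linarith
  have hk := h.kap_pos
  set C := (z1 / 16 * kap F) * (8 * z1) / (C1 * C2) with hCdef
  refine ⟨C, by positivity, s₃, h13, fun s hs => ?_⟩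
  have hs1 : s₁ < s := hs.1
  have hs3' : s < s₃ := hs.2
  have hz : z1 < s - 1 / 2 := by rw [hz1]; linarith
  have key := window_ineq h.rep h.hW h.hs h.ha h.ha1 h.hT h.hL (z1 := z1)
    (z2 := s - 1 / 2) hz10 hz (by linarith)
    (by have : 1 / 2 - z1 = 1 - s₁ := by rw [hz1]; ring
        rw [this]; exact hwin)
  have hX1 := h.Xw_nonneg h1 h2 hP
  rw [← hz1] at hX1
  set x := ((s - 1 / 2) ^ 2 - z1 ^ 2) / 16 with hx
  have hx0 : 0 ≤ x := by
    have a1 := pow_le_pow_left₀ hz10.le hz.le 2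
    rw [hx]; linarith
  have hx1 : x ≤ 1 := by
    have : s - 1 / 2 < 1 / 2 := by linarith
    have a1 := pow_le_pow_left₀ (by linarith : 0 ≤ s - 1 / 2) this.le 2
    have a2 := sq_nonneg z1
    rw [hx]; linarith
  have hE : rexp (-((s - 1 / 2) ^ 2 - z1 ^ 2) / 16) ≤ 1 - x / 2 := by
    have e : -((s - 1 / 2) ^ 2 - z1 ^ 2) / 16 = -x := by rw [hx]; ring
    rw [e, Real.exp_neg, inv_le_comm₀ (Real.exp_pos _) (by linarith)]
    have h5 := Real.add_one_le_exp x
    refine le_trans ?_ h5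
    rw [inv_le_comm₀ (by linarith) (by linarith), inv_eq_one_div, div_le_iff₀ (by linarith)]
    have a1 := mul_nonneg hx0 (by linarith : 0 ≤ 1 - x)
    linarith
  have hx2 : z1 / 8 * (s - s₁) ≤ x := by
    have e : s - s₁ = (s - 1 / 2) - z1 := by rw [hz1]; ring
    rw [hx, e]
    linarith [sq_nonneg ((s - 1 / 2) - z1)]
  have hlow : z1 / 16 * (s - s₁) * kap F ≤ Xw W F (s - 1 / 2) := by
    have h5 : (x / 2) * kap F ≤ (1 - rexp (-((s - 1 / 2) ^ 2 - z1 ^ 2) / 16)) * kap F :=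
      mul_le_mul_of_nonneg_right (by linarith) hk.le
    have h6 : 0 ≤ rexp (-((s - 1 / 2) ^ 2 - z1 ^ 2) / 16) * Xw W F z1 :=
      mul_nonneg (Real.exp_pos _).le hX1
    have h7 : z1 / 16 * (s - s₁) * kap F ≤ (x / 2) * kap F :=
      mul_le_mul_of_nonneg_right (by linarith) hk.le
    linarith
  -- now bound Xw above
  have hPpos : 0 < P s := h.window_pos h1 hs1 (by linarith) hwin hP
  rw [h.Xw_eq (by linarith : 0 < s)] at hlow
  have hAs := hA (s - 1 / 2) hz (by linarith)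
  have hls := hlam (s - 1 / 2) (by linarith) (by rw [hz3]; linarith)
  have hGs := hC2 s ⟨hs1.le, hs3'.le⟩
  have hGp := h.gpos s (by linarith)
  have hup : (-(∫ t, rexp ((s - 1 / 2) * t) * lam t)) / Aw W (s - 1 / 2) * (G s * P s) ≤
      C1 / (8 * z1) * (C2 * P s) := by
    refine mul_le_mul ?_ (mul_le_mul_of_nonneg_right hGs hPpos.le) (by positivity) (by positivity)
    exact div_le_div₀ hC1pos.le hls (by positivity) hAs
  have hfin := hlow.trans hup
  rw [hCdef]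
  rw [div_mul_eq_mul_div, div_le_iff₀ (by positivity)]
  have h8 := mul_le_mul_of_nonneg_right hfin (by positivity : 0 ≤ 8 * z1)
  calc z1 / 16 * kap F * (8 * z1) * (s - s₁) = z1 / 16 * (s - s₁) * kap F * (8 * z1) := by ring
    _ ≤ _ := h8
    _ = _ := by field_simp

end LData

end Pool.Agent.MP0016c7
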