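import Mathlib
import Pool.Agent.Lib.MP_0016c7_nt.Arith
import Pool.Agent.Lib.MP_0016c7_nt.Final2

open Filter Topology Set MeasureTheory
open scoped Real

namespace Pool.Agent.MP0016c7

open DirichletCharacter

lemma oneA_eq : oneA = rzeta := rfl

lemma cA_eq {q : ℕ} (χ : DirichletCharacter ℂ q) : cA χ = rchar χ := rfl

lemma kq_two {a : ℝ} (ha : 0 ≤ a) : KQ 2 a (cv (Tk 0) (Tk a)) := by
  have h := (kq_Tk 0).conv one_pos one_pos (kq_Tk a) (ker_Tk le_rfl) (ker_Tk ha)
  have e1 : (1 : ℝ) + 1 = 2 := by norm_num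
  rw [e1, zero_add] at h
  exact h

lemma klow_two {a : ℝ} (ha : 0 ≤ a) : KLow (cv (Tk 0) (Tk a)) :=
  klow_Tk0.conv (ker_Tk le_rfl) (ker_Tk ha)

section single

variable {q : ℕ} [NeZero q] (χ : DirichletCharacter ℂ q)

theorem exists_ldata_single (hχ : χ.IsPrimitive) (hne : χ ≠ 1) (hq1 : q ≠ 1) (h2 : χ ^ 2 = 1) :
    ∃ W : ℝ, LData (cA χ) (Tk (par χ)) (Real.log q / 2) W (gth χ) (Gf χ) (Lr χ) := by
  obtain ⟨W, hW, hfe⟩ := gth_fe χ hχ hq1 h2
  have hp0 := par_nonneg χ
  have hp1 := par_le_one χ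
  have hK : Ker (cv (Tk 0) (Tk (par χ))) := (ker_Tk le_rfl).conv (ker_Tk hp0)
  refine ⟨W, ?_⟩
  exact
  { rep := rep_gth χ hq1 h2
    hW := hW
    hs := hfe
    ha := fun n => by rw [oneA_eq, cA_eq]; exact coeff1_nonneg h2 n
    ha1 := by
      rw [oneA_eq, cA_eq]
      have := coeff1_one χ
      unfold coeff1 at this
      rw [this]; norm_num
    hT := kh2_of_two (by linarith) hK (klow_two hp0) (kq_two hp0)
    hT' := kernelHyp_of (by norm_num) (by linarith) hK (klow_two hp0) (kq_two hp0)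
    hL := by have := Real.log_natCast_nonneg q; linarith
    val := fun s hs => (gth_L χ hχ hq1 h2 hs).2
    gpos := fun s hs => Gf_pos χ hs
    gcont := Gf_continuousOn χ
    pcont := Lr_continuous χ hne
    pone := by
      have h1 := (gth_L χ hχ hq1 h2 one_pos).1
      intro h0
      rw [h0] at h1
      have h3 := LFunction_apply_one_ne_zero (χ := χ) hne
      apply h3
      rw [Complex.ofReal_one, Complex.ofReal_zero] at h1
      exact h1 }

end single

/-- A linear lower bound excludes a double zero. -/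
lemma deriv_ne_zero_of_lower {f : ℂ → ℂ} {s₁ s₃ C : ℝ} (hf : DifferentiableAt ℂ f s₁)
    (h0 : f s₁ = 0) (hC : 0 < C) (h13 : s₁ < s₃)
    (hlow : ∀ s ∈ Ioo s₁ s₃, C * (s - s₁) ≤ (f s).re) : deriv f s₁ ≠ 0 := by
  intro hd
  have h1 : HasDerivAt f 0 (s₁ : ℂ) := by
    have := hf.hasDerivAt
    rwa [hd] at this
  have h2 : HasDerivAt (fun s : ℝ => (f s).re) (0 : ℂ).re s₁ := h1.real_of_complex
  rw [Complex.zero_re, hasDerivAt_iff_tendsto_slope] at h2
  have h3 : Tendsto (slope (fun s : ℝ => (f s).re) s₁) (𝓝[>] s₁) (𝓝 0) :=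
    h2.mono_left (nhdsWithin_mono _ (fun s hs => ne_of_gt hs))
  have h4 : C ≤ 0 := by
    refine ge_of_tendsto h3 ?_
    have : Ioo s₁ s₃ ∈ 𝓝[>] s₁ := Ioo_mem_nhdsGT h13
    filter_upwards [this] with s hs
    rw [slope_def_field, h0, Complex.zero_re, sub_zero, le_div_iff₀ (by linarith [hs.1])]
    exact hlow s hs
  linarith

/-! ### Imprimitive characters -/

section imprimitive

variable {N : ℕ} [NeZero N] (χ : DirichletCharacter ℂ N)

instance neZero_conductor : NeZero χ.conductor :=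
  ⟨fun h => NeZero.ne N (Nat.eq_zero_of_zero_dvd (h ▸ χ.conductor_dvd_level))⟩

/-- The Euler factor relating a character to its primitive character. -/
noncomputable def Ef (s : ℂ) : ℂ :=
  ∏ p ∈ N.primeFactors, (1 - χ.primitiveCharacter p * (p : ℂ) ^ (-s))

lemma primitiveCharacter_ne_one (hne : χ ≠ 1) : χ.primitiveCharacter ≠ 1 := by
  intro h
  apply hne
  have h1 := χ.changeLevel_primitiveCharacter
  rw [h, map_one] at h1
  exact h1.symm

lemma primitiveCharacter_sq (h2 : χ ^ 2 = 1) : χ.primitiveCharacter ^ 2 = 1 := by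
  have h1 := χ.changeLevel_primitiveCharacter
  have h3 : changeLevel χ.conductor_dvd_level (χ.primitiveCharacter ^ 2) =
      changeLevel χ.conductor_dvd_level 1 := by
    rw [map_pow, h1, h2, map_one]
  exact changeLevel_injective χ.conductor_dvd_level h3

lemma LFunction_eq_mul_Ef (hne : χ ≠ 1) (s : ℂ) :
    LFunction χ s = LFunction χ.primitiveCharacter s * Ef χ s := by
  have h := LFunction_changeLevel χ.conductor_dvd_level χ.primitiveCharacter (s := s)
    (Or.inl (primitiveCharacter_ne_one χ hne))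
  rw [χ.changeLevel_primitiveCharacter] at h
  exact h

/-- The real Euler factor. -/
noncomputable def Er (s : ℝ) : ℝ :=
  ∏ p ∈ N.primeFactors, (1 - rchar χ.primitiveCharacter p * (p : ℝ) ^ (-s))

lemma Ef_real (h2 : χ ^ 2 = 1) (s : ℝ) : Ef χ (s : ℂ) = (Er χ s : ℂ) := by
  unfold Ef Er
  rw [Complex.ofReal_prod]
  refine Finset.prod_congr rfl fun p hp => ?_
  have hp0 : p ≠ 0 := (Nat.prime_of_mem_primeFactors hp).ne_zero
  rw [← ofReal_rchar (primitiveCharacter_sq χ h2) hp0, Complex.ofReal_sub, Complex.ofReal_mul,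
    Complex.ofReal_cpow (Nat.cast_nonneg p)]
  push_cast
  rfl

lemma Er_pos (h2 : χ ^ 2 = 1) {s : ℝ} (hs : 0 < s) : 0 < Er χ s := by
  unfold Er
  refine Finset.prod_pos fun p hp => ?_
  have hp1 : 1 < (p : ℝ) := by exact_mod_cast (Nat.prime_of_mem_primeFactors hp).one_lt
  have h1 : (p : ℝ) ^ (-s) < 1 := Real.rpow_lt_one_of_one_lt_of_neg hp1 (by linarith)
  have h0 : 0 < (p : ℝ) ^ (-s) := Real.rpow_pos_of_pos (by linarith) _
  rcases rchar_cases (primitiveCharacter_sq χ h2) p with h | h | h <;> rw [h] <;> linarith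

lemma Lr_eq_mul (hne : χ ≠ 1) (h2 : χ ^ 2 = 1) {s : ℝ} (_hs : 0 < s) :
    (LFunction χ (s : ℂ)).re = Lr χ.primitiveCharacter s * Er χ s := by
  rw [LFunction_eq_mul_Ef χ hne, Ef_real χ h2, Complex.re_mul_ofReal]
  rfl

lemma Ef_differentiableAt (s : ℂ) : DifferentiableAt ℂ (Ef χ) s := by
  unfold Ef
  refine DifferentiableAt.fun_finsetProd fun p hp => ?_
  have : NeZero p := ⟨(Nat.prime_of_mem_primeFactors hp).ne_zero⟩
  fun_prop

lemma conductor_ne_one (hne : χ ≠ 1) : χ.conductor ≠ 1 := by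
  intro h
  exact hne (χ.eq_one_iff_conductor_eq_one.mpr h)

lemma log_conductor_pos (hne : χ ≠ 1) : 0 < Real.log χ.conductor := by
  have h1 := conductor_ne_one χ hne
  have h0 : χ.conductor ≠ 0 := NeZero.ne _
  apply Real.log_pos
  exact_mod_cast (by omega : 1 < χ.conductor)

/-- Real value of the `L`-function of an arbitrary quadratic character. -/
lemma LFunction_real (hne : χ ≠ 1) (h2 : χ ^ 2 = 1) {s : ℝ} (hs : 0 < s) :
    LFunction χ (s : ℂ) = ((LFunction χ (s : ℂ)).re : ℂ) := by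
  have h1 := (gth_L χ.primitiveCharacter χ.primitiveCharacter_isPrimitive
    (conductor_ne_one χ hne) (primitiveCharacter_sq χ h2) hs).1
  rw [Lr_eq_mul χ hne h2 hs, LFunction_eq_mul_Ef χ hne, Ef_real χ h2, h1, ← Complex.ofReal_mul]

theorem window_single (hne : χ ≠ 1) (h2 : χ ^ 2 = 1) :
    (∀ s t : ℝ, 1 / 2 < s → 1 - 2 / Real.log χ.conductor ≤ s → s < t → t < 1 →
      0 ≤ (LFunction χ s).re → 0 < (LFunction χ t).re) ∧
    (∀ s : ℝ, 1 / 2 < s → 1 - 2 / Real.log χ.conductor ≤ s → s < 1 →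
      LFunction χ s = 0 → deriv (LFunction χ) s ≠ 0) := by
  have hlog := log_conductor_pos χ hne
  have hwin : ∀ s : ℝ, 1 - 2 / Real.log χ.conductor ≤ s →
      Real.log χ.conductor / 2 * (1 - s) ≤ 1 := by
    intro s hs
    have h1 : 1 - s ≤ 2 / Real.log χ.conductor := by linarith
    rw [le_div_iff₀ hlog] at h1
    linarith
  obtain ⟨W, hD⟩ := exists_ldata_single χ.primitiveCharacter χ.primitiveCharacter_isPrimitive
    (primitiveCharacter_ne_one χ hne) (conductor_ne_one χ hne) (primitiveCharacter_sq χ h2)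
  constructor
  · intro s t hs hsw hst ht hP
    rw [Lr_eq_mul χ hne h2 (by linarith)] at hP ⊢
    have hE := Er_pos χ h2 (s := s) (by linarith)
    have hE' := Er_pos χ h2 (s := t) (by linarith)
    have hP' : 0 ≤ Lr χ.primitiveCharacter s := nonneg_of_mul_nonneg_left hP hE
    exact mul_pos (hD.window_pos hs hst ht (hwin s hsw) hP') hE'
  · intro s hs hsw hs1 h0
    have hE := Er_pos χ h2 (s := s) (by linarith)
    have hEc : Ef χ (s : ℂ) ≠ 0 := by
      rw [Ef_real χ h2]; exact_mod_cast hE.ne'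
    have h0' : LFunction χ.primitiveCharacter (s : ℂ) = 0 := by
      rw [LFunction_eq_mul_Ef χ hne] at h0
      exact (mul_eq_zero.mp h0).resolve_right hEc
    have hP0 : Lr χ.primitiveCharacter s = 0 := by
      unfold Lr; rw [h0', Complex.zero_re]
    obtain ⟨C, hC, s₃, h13, hlow⟩ := hD.window_lower hs hs1 (hwin s hsw) hP0.ge
    have hdiff := (differentiable_LFunction (primitiveCharacter_ne_one χ hne)) (s : ℂ)
    have hd := deriv_ne_zero_of_lower hdiff h0' hC h13 hlow
    have e : LFunction χ = fun w => LFunction χ.primitiveCharacter w * Ef χ w :=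
      funext (LFunction_eq_mul_Ef χ hne)
    have h5 := hdiff.hasDerivAt.mul (Ef_differentiableAt χ (s : ℂ)).hasDerivAt
    have h6 : deriv (LFunction χ) (s : ℂ) =
        deriv (LFunction χ.primitiveCharacter) (s : ℂ) * Ef χ s := by
      rw [e]
      rw [show (fun w => LFunction χ.primitiveCharacter w * Ef χ w) =
        LFunction χ.primitiveCharacter * Ef χ from rfl, h5.deriv, h0']
      ring
    rw [h6]
    exact mul_ne_zero hd hEc

lemma level_cases (q : ℕ) : Real.log 5 / 2 ≤ Real.log q / 2 ∨ Real.log q / 2 ≤ 2 := by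
  rcases le_total 5 q with h | h
  · left
    have h5 : (5 : ℝ) ≤ q := by exact_mod_cast h
    have := Real.log_le_log (by norm_num) h5
    linarith
  · right
    have h5 : (q : ℝ) ≤ 5 := by exact_mod_cast h
    rcases Nat.eq_zero_or_pos q with h0 | h0
    · subst h0; simp
    · have hq : (0 : ℝ) < q := by exact_mod_cast h0
      have := Real.log_le_sub_one_of_pos hq
      linarith

theorem jump_single (hne : χ ≠ 1) (h2 : χ ^ 2 = 1) (s t : ℝ) (hs : 1 / 2 < s) (hst : s < t)
    (ht : t < 1)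
    (hc : (χ.conductor : ℝ) ^ ((t - s) / 2) * (t * (1 - t)) ≤ s * (1 - s))
    (hP : 0 ≤ (LFunction χ s).re) : 0 < (LFunction χ t).re := by
  obtain ⟨W, hD⟩ := exists_ldata_single χ.primitiveCharacter χ.primitiveCharacter_isPrimitive
    (primitiveCharacter_ne_one χ hne) (conductor_ne_one χ hne) (primitiveCharacter_sq χ h2)
  have hq : (0 : ℝ) < χ.conductor := by
    exact_mod_cast Nat.pos_of_ne_zero (NeZero.ne χ.conductor)
  rw [Lr_eq_mul χ hne h2 (by linarith)] at hP ⊢
  have hE := Er_pos χ h2 (s := s) (by linarith)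
  have hE' := Er_pos χ h2 (s := t) (by linarith)
  have hP' : 0 ≤ Lr χ.primitiveCharacter s := nonneg_of_mul_nonneg_left hP hE
  refine mul_pos (hD.jump_pos' (level_cases _) hs hst ht ?_ hP') hE'
  have e : rexp ((t - s) * (Real.log χ.conductor / 2)) = (χ.conductor : ℝ) ^ ((t - s) / 2) := by
    rw [Real.rpow_def_of_pos hq]
    ring_nf
  rw [e]
  exact hc

end imprimitive

end Pool.Agent.MP0016c7
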