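import Mathlib
import Pool.Agent.Lib.MP_0016c7_nt.EvenPlug
import Pool.Agent.Lib.MP_0016c7_nt.Final3

open Real Set MeasureTheory Filter Topology

namespace Pool.Agent.MP0016c7

open DirichletCharacter

lemma primitive_even {N : ℕ} [NeZero N] (χ : DirichletCharacter ℂ N) (he : χ.Even) :
    χ.primitiveCharacter.Even := by
  have hc : IsCoprime (-1 : ℤ) (N : ℤ) := isCoprime_one_left.neg_left
  have h1 := χ.primitiveCharacter_apply_of_isCoprime hc
  have h2 : χ (-1) = 1 := he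
  unfold DirichletCharacter.Even
  push_cast at h1
  rw [h1, h2]

lemma s_pos_of_range {q : ℕ} (hq : 0 < q) {s : ℝ}
    (hs : (1 - s) * √(q : ℝ) ≤ 6 / π ^ 2 * (Real.log q - 1 / 8)) : 0 < s := by
  have hq' : (0 : ℝ) < q := by exact_mod_cast hq
  have hsq : 0 < √(q : ℝ) := sqrt_pos.mpr hq'
  have h1 : Real.log q = 2 * Real.log (√(q : ℝ)) := by rw [log_sqrt hq'.le]; ring
  have h2 : Real.log (√(q : ℝ) / 2) ≤ √(q : ℝ) / 2 - 1 := log_le_sub_one_of_pos (by positivity)
  have h3 : Real.log (√(q : ℝ) / 2) = Real.log (√(q : ℝ)) - Real.log 2 :=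
    log_div hsq.ne' (by norm_num)
  have h4 := Real.log_two_lt_d9
  have h5 : Real.log q - 1 / 8 < √(q : ℝ) := by linarith
  have h6 : 6 / π ^ 2 ≤ 1 := by
    rw [div_le_one (by positivity)]
    nlinarith [pi_gt_three]
  have h7 : 0 < 6 / π ^ 2 := by positivity
  have h8 : 6 / π ^ 2 * (Real.log q - 1 / 8) < √(q : ℝ) := by
    rcases le_total 0 (Real.log q - 1 / 8) with h | h
    · calc 6 / π ^ 2 * (Real.log q - 1 / 8) ≤ 1 * (Real.log q - 1 / 8) :=
            mul_le_mul_of_nonneg_right h6 h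
        _ < _ := by linarith
    · have := mul_nonpos_of_nonneg_of_nonpos h7.le h
      linarith
  have h9 : (1 - s) * √(q : ℝ) < 1 * √(q : ℝ) := by linarith
  have := lt_of_mul_lt_mul_right h9 hsq.le
  linarith

theorem even_zero_free {N : ℕ} [NeZero N] (χ : DirichletCharacter ℂ N) (hne : χ ≠ 1)
    (hsq : χ ^ 2 = 1) (he : χ.Even) {s : ℝ} (hs1 : s < 1)
    (hs : (1 - s) * √(χ.conductor : ℝ) ≤ 6 / π ^ 2 * (Real.log χ.conductor - 1 / 8)) :
    (LFunction χ (s : ℂ)).im = 0 ∧ 0 < (LFunction χ (s : ℂ)).re := by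
  have hs0 : 0 < s := s_pos_of_range (NeZero.pos χ.conductor) hs
  constructor
  · rw [LFunction_real χ hne hsq hs0, Complex.ofReal_im]
  · rw [Lr_eq_mul χ hne hsq hs0]
    refine mul_pos ?_ (Er_pos χ hsq hs0)
    set ψ := χ.primitiveCharacter with hψ
    have hp : ψ.IsPrimitive := χ.primitiveCharacter_isPrimitive
    have hq1 : χ.conductor ≠ 1 := conductor_ne_one χ hne
    have hψ2 : ψ ^ 2 = 1 := primitiveCharacter_sq χ hsq
    obtain ⟨W, hD⟩ := exists_ldata_single ψ hp (primitiveCharacter_ne_one χ hne) hq1 hψ2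
    have h1 := even_integral_pos ψ hp hq1 hψ2 (primitive_even χ he) hD.kap_pos hs1 hs
    rw [hD.val s hs0] at h1
    exact (mul_pos_iff_of_pos_left (hD.gpos s hs0)).mp h1

end Pool.Agent.MP0016c7
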