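import Mathlib
import Pool.Agent.Lib.MP_0016c7_nt.EvenBounds

/-! Real-analytic inequalities for the explicit zero-free interval of odd quadratic characters
(piece O1; helper92). With `z = 2 v` the functions are those of `EvenTheta` and `EvenBounds`. -/

open Real Set MeasureTheory Filter Topology
open scoped ENNReal

namespace Pool.Agent.MP0016c7

/-- `OmE v = ∑_{k ≥ 1} exp(-2π k² v)`. -/
noncomputable def OmE (v : ℝ) : ℝ := ∑' k : ℕ, rexp (-(2 * π * ((k : ℝ) + 1) ^ 2 * v))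

/-- `gE v = ∑_{k ≥ 1} (4π k² v - 1) exp(-2π k² v)`. -/
noncomputable def gE (v : ℝ) : ℝ :=
  ∑' k : ℕ, (4 * π * ((k : ℝ) + 1) ^ 2 * v - 1) * rexp (-(2 * π * ((k : ℝ) + 1) ^ 2 * v))

/-- `∫_1^∞ (1 + 1/u) exp(-c u) du`. -/
noncomputable def e1p (c : ℝ) : ℝ := ∫ u in Ioi (1 : ℝ), (1 + 1 / u) * rexp (-c * u)

/-- `∫_1^∞ (1 - 1/u) exp(-c u) du`. -/
noncomputable def e1m (c : ℝ) : ℝ := ∫ u in Ioi (1 : ℝ), (1 - 1 / u) * rexp (-c * u)

noncomputable def Kq (x : ℝ) : ℝ := max 4 (π * x / 6 - Real.log x - 1 / 5)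

lemma two_pi_eq (k : ℕ) (v : ℝ) : 2 * π * ((k : ℝ) + 1) ^ 2 * v = ak k * (2 * v) := by
  unfold ak; ring

lemma OmE_eq (v : ℝ) : OmE v = om1 (2 * v) := by
  unfold OmE om1
  exact tsum_congr fun k => by rw [two_pi_eq]

lemma summable_OmE {v : ℝ} (hv : 0 < v) :
    Summable fun k : ℕ => rexp (-(2 * π * ((k : ℝ) + 1) ^ 2 * v)) := by
  have h := summable_om1 (show 0 < 2 * v by positivity)
  exact h.congr fun k => by rw [two_pi_eq]

lemma gE_term (k : ℕ) (v : ℝ) :
    (4 * π * ((k : ℝ) + 1) ^ 2 * v - 1) * rexp (-(2 * π * ((k : ℝ) + 1) ^ 2 * v)) =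
      2 * (2 * v) * (ak k * rexp (-(ak k * (2 * v)))) - rexp (-(ak k * (2 * v))) := by
  rw [two_pi_eq]
  have : 4 * π * ((k : ℝ) + 1) ^ 2 * v = 2 * (2 * v) * ak k := by unfold ak; ring
  rw [this]; ring

lemma summable_gE {v : ℝ} (hv : 0 < v) :
    Summable fun k : ℕ =>
      (4 * π * ((k : ℝ) + 1) ^ 2 * v - 1) * rexp (-(2 * π * ((k : ℝ) + 1) ^ 2 * v)) := by
  have h1 := summable_om1 (show 0 < 2 * v by positivity)
  have h2 := (summable_dm1 (show 0 < 2 * v by positivity)).mul_left (2 * (2 * v))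
  exact (h2.sub h1).congr fun k => (gE_term k v).symm

lemma gE_eq {v : ℝ} (hv : 0 < v) : gE v = eps1 (2 * v) := by
  have h1 := summable_om1 (show 0 < 2 * v by positivity)
  have h2 := (summable_dm1 (show 0 < 2 * v by positivity)).mul_left (2 * (2 * v))
  unfold gE eps1 dm1 om1
  rw [← tsum_mul_left, ← h2.tsum_sub h1]
  exact tsum_congr fun k => gE_term k v

lemma integrableOn_exp_neg {c : ℝ} (hc : 0 < c) (a : ℝ) :
    IntegrableOn (fun u : ℝ => rexp (-c * u)) (Ioi a) :=
  integrableOn_exp_mul_Ioi (by linarith : -c < 0) a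

lemma integrableOn_e1p {c : ℝ} (hc : 0 < c) :
    IntegrableOn (fun u : ℝ => (1 + 1 / u) * rexp (-c * u)) (Ioi 1) := by
  refine Integrable.mono' ((integrableOn_exp_neg hc 1).const_mul 2) ?_ ?_
  · exact (Measurable.aestronglyMeasurable (by fun_prop))
  · filter_upwards [ae_restrict_mem measurableSet_Ioi] with u hu
    have hu1 : (1 : ℝ) < u := hu
    have hu0 : 0 < u := by linarith
    have h1 : 1 / u ≤ 1 := by rw [div_le_iff₀ hu0]; linarith
    have h2 : 0 ≤ 1 / u := by positivity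
    rw [Real.norm_eq_abs, abs_of_nonneg (by positivity)]
    exact mul_le_mul_of_nonneg_right (by linarith) (exp_pos _).le

lemma integrableOn_e1m {c : ℝ} (hc : 0 < c) :
    IntegrableOn (fun u : ℝ => (1 - 1 / u) * rexp (-c * u)) (Ioi 1) := by
  refine Integrable.mono' (integrableOn_exp_neg hc 1) ?_ ?_
  · exact (Measurable.aestronglyMeasurable (by fun_prop))
  · filter_upwards [ae_restrict_mem measurableSet_Ioi] with u hu
    have hu1 : (1 : ℝ) < u := hu
    have hu0 : 0 < u := by linarith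
    have h1 : 1 / u ≤ 1 := by rw [div_le_iff₀ hu0]; linarith
    have h2 : 0 ≤ 1 / u := by positivity
    have h3 : 0 ≤ 1 - 1 / u := by linarith
    rw [Real.norm_eq_abs, abs_of_nonneg (by positivity)]
    have := mul_le_mul_of_nonneg_right (show 1 - 1 / u ≤ 1 by linarith) (exp_pos (-c * u)).le
    linarith only [this]

lemma e1p_ge {c : ℝ} (hc : 0 < c) : rexp (-c) / c ≤ e1p c := by
  have h1 : ∫ u in Ioi (1 : ℝ), rexp (-c * u) = rexp (-c) / c := by
    rw [integral_exp_mul_Ioi (by linarith : -c < 0) 1, mul_one, neg_div_neg_eq]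
  rw [← h1]
  refine setIntegral_mono_on (integrableOn_exp_neg hc 1) (integrableOn_e1p hc) measurableSet_Ioi
    fun u hu => ?_
  have hu1 : (1 : ℝ) < u := hu
  have h2 : 0 ≤ 1 / u := by positivity
  nlinarith only [h2, exp_pos (-c * u)]

lemma e1p_pos {c : ℝ} (hc : 0 < c) : 0 < e1p c :=
  lt_of_lt_of_le (by positivity) (e1p_ge hc)

lemma e1m_pos {c : ℝ} (hc : 0 < c) : 0 < e1m c := by
  have h1 : ∫ u in Ioi (2 : ℝ), (1 / 2) * rexp (-c * u) = (1 / 2) * (rexp (-c * 2) / c) := by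
    rw [integral_const_mul, integral_exp_mul_Ioi (by linarith : -c < 0) 2, neg_div_neg_eq]
  have h2 : ∫ u in Ioi (2 : ℝ), (1 / 2) * rexp (-c * u) ≤
      ∫ u in Ioi (2 : ℝ), (1 - 1 / u) * rexp (-c * u) := by
    refine setIntegral_mono_on ((integrableOn_exp_neg hc 2).const_mul _)
      ((integrableOn_e1m hc).mono_set (Ioi_subset_Ioi (by norm_num))) measurableSet_Ioi
      fun u hu => ?_
    have hu1 : (2 : ℝ) < u := hu
    have hu0 : 0 < u := by linarith only [hu1]
    have h3 : 1 / u ≤ 1 / 2 := by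
      rw [div_le_div_iff₀ hu0 (by norm_num)]; linarith
    exact mul_le_mul_of_nonneg_right (by linarith only [h3]) (exp_pos _).le
  have h3 : ∫ u in Ioi (2 : ℝ), (1 - 1 / u) * rexp (-c * u) ≤ e1m c := by
    unfold e1m
    refine setIntegral_mono_set (integrableOn_e1m hc) ?_
      (Ioi_subset_Ioi (by norm_num : (1 : ℝ) ≤ 2)).eventuallyLE
    filter_upwards [ae_restrict_mem measurableSet_Ioi] with u hu
    have hu1 : (1 : ℝ) < u := hu
    have hu0 : 0 < u := by linarith only [hu1]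
    have h1 : 1 / u ≤ 1 := by rw [div_le_iff₀ hu0]; linarith only [hu1]
    have h3 : 0 ≤ 1 - 1 / u := by linarith only [h1]
    exact mul_nonneg h3 (exp_pos _).le
  have h4 : 0 < (1 / 2) * (rexp (-c * 2) / c) := by positivity
  linarith only [h1, h2, h3, h4]

/-- the lower integral `HI` is the series of the `e1p`. -/
lemma HI_eq_tsum {z : ℝ} (hz : 0 < z) :
    HI z = ∑' k : ℕ, ENNReal.ofReal (e1p (ak k * z)) := by
  have h1 : HI z = ∫⁻ u in Ioi (1 : ℝ), ∑' k : ℕ,
      ENNReal.ofReal ((1 + 1 / u) * rexp (-(ak k * z) * u)) := by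
    unfold HI
    refine setLIntegral_congr_fun measurableSet_Ioi fun u hu => ?_
    have hu1 : (1 : ℝ) < u := hu
    have hu0 : 0 < u := by linarith
    have hzu : 0 < z * u := by positivity
    have hs := (summable_om1 hzu).mul_right (1 + 1 / u)
    unfold om1
    rw [← tsum_mul_right, ENNReal.ofReal_tsum_of_nonneg (fun k => by positivity) hs]
    refine tsum_congr fun k => ?_
    congr 1
    rw [mul_comm]
    congr 2
    ring
  rw [h1, lintegral_tsum (fun k => by fun_prop)]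
  refine tsum_congr fun k => ?_
  have hc : 0 < ak k * z := mul_pos (ak_pos k) hz
  unfold e1p
  rw [ofReal_integral_eq_lintegral_ofReal (integrableOn_e1p hc)]
  filter_upwards [ae_restrict_mem measurableSet_Ioi] with u hu
  have hu1 : (1 : ℝ) < u := hu
  have h2 : 0 ≤ 1 / u := by positivity
  have := exp_pos (-(ak k * z) * u)
  show 0 ≤ (1 + 1 / u) * rexp (-(ak k * z) * u)
  positivity

lemma JI_eq_tsum {z : ℝ} (hz : 0 < z) :
    JI z = ∑' k : ℕ, ENNReal.ofReal (e1m (ak k * z)) := by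
  have h1 : JI z = ∫⁻ u in Ioi (1 : ℝ), ∑' k : ℕ,
      ENNReal.ofReal ((1 - 1 / u) * rexp (-(ak k * z) * u)) := by
    unfold JI
    refine setLIntegral_congr_fun measurableSet_Ioi fun u hu => ?_
    have hu1 : (1 : ℝ) < u := hu
    have hu0 : 0 < u := by linarith
    have hzu : 0 < z * u := by positivity
    have h2 : 0 ≤ 1 - 1 / u := by
      have : 1 / u ≤ 1 := by rw [div_le_iff₀ hu0]; linarith
      linarith
    have hs := (summable_om1 hzu).mul_right (1 - 1 / u)
    unfold om1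
    rw [← tsum_mul_right, ENNReal.ofReal_tsum_of_nonneg (fun k => by positivity) hs]
    refine tsum_congr fun k => ?_
    congr 1
    rw [mul_comm]
    congr 2
    ring
  rw [h1, lintegral_tsum (fun k => by fun_prop)]
  refine tsum_congr fun k => ?_
  have hc : 0 < ak k * z := mul_pos (ak_pos k) hz
  unfold e1m
  rw [ofReal_integral_eq_lintegral_ofReal (integrableOn_e1m hc)]
  filter_upwards [ae_restrict_mem measurableSet_Ioi] with u hu
  have hu1 : (1 : ℝ) < u := hu
  have hu0 : 0 < u := by linarith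
  have h2 : 0 ≤ 1 - 1 / u := by
    have : 1 / u ≤ 1 := by rw [div_le_iff₀ hu0]; linarith
    linarith
  show 0 ≤ (1 - 1 / u) * rexp (-(ak k * z) * u)
  positivity

lemma tsum_le_of_ennreal {f : ℕ → ℝ} (hf : ∀ k, 0 ≤ f k) {C : ℝ} (hC : 0 ≤ C)
    (h : ∑' k, ENNReal.ofReal (f k) ≤ ENNReal.ofReal C) : Summable f ∧ ∑' k, f k ≤ C := by
  have h1 : ∑' k, ENNReal.ofReal (f k) ≠ ∞ := ne_top_of_le_ne_top ENNReal.ofReal_ne_top h
  have hs : Summable f := by
    have := ENNReal.summable_toReal h1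
    exact this.congr fun k => ENNReal.toReal_ofReal (hf k)
  refine ⟨hs, ?_⟩
  rw [← ENNReal.ofReal_tsum_of_nonneg hf hs] at h
  exact (ENNReal.ofReal_le_ofReal_iff hC).mp h

/-! ### pointwise bounds for `om1` -/

lemma om1_ge_low {y : ℝ} (hy : 0 < y) : (1 / √y - 1) / 2 ≤ om1 y := by
  rw [om1_fe hy]
  have h1 := om1_pos (show 0 < 1 / y by positivity)
  have h2 : 0 < 1 / √y := by positivity
  nlinarith only [h2, h1, mul_pos h2 h1]

lemma om1_two_le : om1 2 ≤ 0.0019 := by
  have h1 := pi_mul_om1_le (show (0 : ℝ) < 2 by norm_num)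
  have h2 := dm1_le (show (1 : ℝ) ≤ 2 by norm_num)
  have h3 := dm1_one_lt
  have h4 := exp_neg_pi_bounds.2
  have h5 : rexp (-(π * (2 - 1))) = rexp (-π) := by congr 1; ring
  rw [h5] at h2
  have h6 : rexp (-π) * dm1 1 ≤ 0.04322 * 0.138 :=
    mul_le_mul h4.le h3.le (dm1_pos one_pos).le (by norm_num)
  have h7 := pi_gt_d6
  have h8 := om1_pos (show (0 : ℝ) < 2 by norm_num)
  nlinarith only [h1, h2, h6, h8, h7]

lemma om1_half_le : om1 (1 / 2) ≤ 0.2098 := by
  have h1 := om1_fe (show (0 : ℝ) < 1 / 2 by norm_num)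
  have h2 : (1 : ℝ) / (1 / 2) = 2 := by norm_num
  have h3 : (1 : ℝ) / √(1 / 2) = √2 := by
    rw [sqrt_div zero_le_one, sqrt_one, one_div_one_div]
  rw [h2, h3] at h1
  have h4 : √2 < 1.414214 := by
    rw [sqrt_lt' (by norm_num)]; norm_num
  have h5 := om1_two_le
  have h6 := om1_pos (show (0 : ℝ) < 2 by norm_num)
  have h7 : √2 * om1 2 ≤ 1.414214 * 0.0019 :=
    mul_le_mul h4.le h5 h6.le (by norm_num)
  rw [h1]
  linarith only [h4, h5, h6, h7]

lemma om1_le_low {y : ℝ} (hy : 0 < y) (hy2 : y ≤ 1 / 2) :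
    om1 y ≤ (1 / √y - 1) / 2 + 0.0054 * y := by
  rw [om1_fe hy]
  have hw : 2 ≤ 1 / y := by rw [le_div_iff₀ hy]; linarith
  set w := 1 / y with hwdef
  have hw0 : 0 < w := by linarith
  have hyw : y = 1 / w := by rw [hwdef, one_div_one_div]
  have hsw : 1 / √y = √w := by
    rw [hwdef, sqrt_div zero_le_one, sqrt_one]
  rw [hsw]
  have h1 : om1 w ≤ rexp (-(π * 2 * (w / 2 - 1))) * om1 2 := by
    have := om1_le (show (0 : ℝ) < 2 by norm_num) (show 1 ≤ w / 2 by linarith only [hw])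
    rwa [show (2 : ℝ) * (w / 2) = w by ring] at this
  have h2 : √w * √w = w := mul_self_sqrt hw0.le
  have hs0 : 0 < √w := sqrt_pos.mpr hw0
  -- `w √w exp(-π(w-2)) ≤ 2 √2`
  have h3 : w / 2 ≤ rexp (w / 2 - 1) := by
    have := add_one_le_exp (w / 2 - 1); linarith only [this]
  have h4 : √(w / 2) ≤ w / 2 := by
    rw [sqrt_le_left (by linarith only [hy, hy2, hw])]; nlinarith only [hw]
  have h5 : w / 2 * √(w / 2) * rexp (-(π * 2 * (w / 2 - 1))) ≤ 1 := by
    have h51 : w / 2 * √(w / 2) ≤ rexp (w / 2 - 1) * rexp (w / 2 - 1) :=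
      mul_le_mul h3 (h4.trans h3) (sqrt_nonneg _) (exp_pos _).le
    have h52 : rexp (w / 2 - 1) * rexp (w / 2 - 1) * rexp (-(π * 2 * (w / 2 - 1))) ≤ 1 := by
      rw [← exp_add, ← exp_add]
      apply exp_le_one_iff.mpr
      nlinarith only [hw, hy, hy2, pi_gt_three]
    exact le_trans (mul_le_mul_of_nonneg_right h51 (exp_pos _).le) h52
  have h6 : √w = √2 * √(w / 2) := by
    rw [← sqrt_mul (by norm_num)]; congr 1; ring
  have h7 : √2 < 1.414214 := by
    rw [sqrt_lt' (by norm_num)]; norm_num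
  have h8 := om1_two_le
  have h9 := om1_pos (show (0 : ℝ) < 2 by norm_num)
  have h10 : √w * om1 w ≤ 0.0054 * y := by
    have e1 : √w * om1 w ≤ √w * (rexp (-(π * 2 * (w / 2 - 1))) * om1 2) :=
      mul_le_mul_of_nonneg_left h1 hs0.le
    have e2 : √w * (rexp (-(π * 2 * (w / 2 - 1))) * om1 2) =
        (w / 2 * √(w / 2) * rexp (-(π * 2 * (w / 2 - 1)))) * (2 * √2 * om1 2 * y) := by
      rw [h6, hyw]
      field_simp
    have e3 : 0 ≤ 2 * √2 * om1 2 * y := by positivity
    have e4 : 2 * √2 * om1 2 * y ≤ 0.0054 * y := by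
      apply mul_le_mul_of_nonneg_right _ hy.le
      have : √2 * om1 2 ≤ 1.414214 * 0.0019 := mul_le_mul h7.le h8 h9.le (by norm_num)
      linarith only [h8, h9, this]
    calc √w * om1 w ≤ _ := e1
      _ = _ := e2
      _ ≤ 1 * (2 * √2 * om1 2 * y) := mul_le_mul_of_nonneg_right h5 e3
      _ ≤ _ := by rw [one_mul]; exact e4
  linarith only [h10]

lemma om1_le_high {y : ℝ} (hy : 1 / 2 ≤ y) : om1 y ≤ 0.2098 * rexp (-(π * (y - 1 / 2))) := by
  have h1 := om1_le (show (0 : ℝ) < 1 / 2 by norm_num) (show 1 ≤ 2 * y by linarith)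
  rw [show (1 : ℝ) / 2 * (2 * y) = y by ring] at h1
  have h2 : -(π * (1 / 2) * (2 * y - 1)) = -(π * (y - 1 / 2)) := by ring
  rw [h2] at h1
  have h3 := om1_half_le
  calc om1 y ≤ _ := h1
    _ ≤ rexp (-(π * (y - 1 / 2))) * 0.2098 := mul_le_mul_of_nonneg_left h3 (exp_pos _).le
    _ = _ := by ring

/-! ### integrals of `om1 (z u)` -/

lemma integrableOn_om1_Ioi0 {z : ℝ} (hz : 0 < z) :
    IntegrableOn (fun u : ℝ => om1 (z * u)) (Ioi 0) := by
  refine ⟨(measurable_om1.comp (measurable_const_mul z)).aestronglyMeasurable, ?_⟩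
  rw [hasFiniteIntegral_iff_ofReal]
  · rw [lintegral_om1 hz]; exact ENNReal.ofReal_lt_top
  · filter_upwards [ae_restrict_mem measurableSet_Ioi] with u hu
    exact (om1_pos (mul_pos hz hu)).le

lemma integral_om1_Ioi0 {z : ℝ} (hz : 0 < z) :
    ∫ u in Ioi (0 : ℝ), om1 (z * u) = π / (6 * z) := by
  have h1 := lintegral_om1 hz
  rw [← ofReal_integral_eq_lintegral_ofReal (integrableOn_om1_Ioi0 hz)] at h1
  · have h2 : 0 ≤ ∫ u in Ioi (0 : ℝ), om1 (z * u) :=
      setIntegral_nonneg measurableSet_Ioi fun u hu => (om1_pos (mul_pos hz hu)).le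
    exact (ENNReal.ofReal_eq_ofReal_iff h2 (by positivity)).mp h1
  · filter_upwards [ae_restrict_mem measurableSet_Ioi] with u hu
    exact (om1_pos (mul_pos hz hu)).le

lemma integral_om1_Ioc01 {z : ℝ} (hz : 0 < z) :
    1 / √z - 1 / 2 ≤ ∫ u in Ioc (0 : ℝ) 1, om1 (z * u) := by
  have hsz : 0 < √z := sqrt_pos.mpr hz
  have hI : IntervalIntegrable (fun u : ℝ => u ^ (-(1 / 2) : ℝ)) volume 0 1 :=
    intervalIntegral.intervalIntegrable_rpow' (by norm_num)
  have hint : IntegrableOn (fun u : ℝ => u ^ (-(1 / 2) : ℝ)) (Ioc 0 1) :=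
    (intervalIntegrable_iff_integrableOn_Ioc_of_le zero_le_one).mp hI
  have hval : ∫ u in Ioc (0 : ℝ) 1, u ^ (-(1 / 2) : ℝ) = 2 := by
    rw [← intervalIntegral.integral_of_le zero_le_one, integral_rpow (Or.inl (by norm_num))]
    norm_num
  have hc : IntegrableOn (fun _ : ℝ => (1 : ℝ) / 2) (Ioc 0 1) :=
    (continuous_const : Continuous fun _ : ℝ => (1 : ℝ) / 2).integrableOn_Ioc
  have h1 : ∫ u in Ioc (0 : ℝ) 1, (1 / (2 * √z) * u ^ (-(1 / 2) : ℝ) - 1 / 2) =
      1 / √z - 1 / 2 := by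
    rw [integral_sub (hint.const_mul _) hc, integral_const_mul, hval]
    simp
  rw [← h1]
  refine setIntegral_mono_on ((hint.const_mul _).sub hc)
    ((integrableOn_om1_Ioi0 hz).mono_set Ioc_subset_Ioi_self) measurableSet_Ioc fun u hu => ?_
  have hu0 : 0 < u := hu.1
  have h2 := om1_ge_low (mul_pos hz hu0)
  have h3 : 1 / √(z * u) = 1 / √z * u ^ (-(1 / 2) : ℝ) := by
    rw [sqrt_mul hz.le, rpow_neg hu0.le, ← sqrt_eq_rpow]
    field_simp
  rw [h3] at h2
  have h4 : 1 / (2 * √z) * u ^ (-(1 / 2) : ℝ) = (1 / √z * u ^ (-(1 / 2) : ℝ)) / 2 := by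
    field_simp
  rw [h4]
  linarith only [h2]

lemma integral_om1_Ioi1 {z : ℝ} (hz : 0 < z) :
    ∫ u in Ioi (1 : ℝ), om1 (z * u) ≤ π / (6 * z) - 1 / √z + 1 / 2 := by
  have h1 := integral_om1_Ioi0 hz
  have h2 := integral_om1_Ioc01 hz
  rw [← Ioc_union_Ioi_eq_Ioi (zero_le_one (α := ℝ)), setIntegral_union
    (by rw [disjoint_left]; intro x hx hx'; exact not_lt.mpr hx.2 hx') measurableSet_Ioi
    ((integrableOn_om1_Ioi0 hz).mono_set Ioc_subset_Ioi_self)
    ((integrableOn_om1_Ioi0 hz).mono_set (Ioi_subset_Ioi zero_le_one))] at h1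
  linarith only [h1, h2]

lemma exp_neg_half_pi_le : rexp (-(π / 2)) ≤ 0.208 := by
  have h1 : rexp (-(π / 2)) ^ 2 = rexp (-π) := by
    rw [← exp_nat_mul]; congr 1; push_cast; ring
  have h2 := exp_neg_pi_bounds.2
  have h3 := exp_pos (-(π / 2))
  nlinarith only [h1, h2, h3]

lemma integrableOn_B {z : ℝ} (hz : 0 < z) :
    IntegrableOn (fun u : ℝ => om1 (z * u) * (1 / u)) (Ioi 1) := by
  refine Integrable.mono' ((integrableOn_om1_Ioi0 hz).mono_set (Ioi_subset_Ioi zero_le_one)) ?_ ?_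
  · exact ((measurable_om1.comp (measurable_const_mul z)).mul
      (by fun_prop : Measurable fun u : ℝ => 1 / u)).aestronglyMeasurable
  · filter_upwards [ae_restrict_mem measurableSet_Ioi] with u hu
    have hu1 : (1 : ℝ) < u := hu
    have hu0 : 0 < u := by linarith
    have h1 : 1 / u ≤ 1 := by rw [div_le_iff₀ hu0]; linarith
    have h2 : 0 < 1 / u := by positivity
    have h3 := om1_pos (mul_pos hz hu0)
    rw [Real.norm_eq_abs, abs_of_pos (by positivity)]
    nlinarith only [h1, h3]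

/-- first part: `1 < u ≤ 1/(2z)` -/
lemma integral_B1 {z : ℝ} (hz : 0 < z) (hz2 : z ≤ 1 / 2) :
    ∫ u in Ioc (1 : ℝ) (1 / (2 * z)), om1 (z * u) * (1 / u) ≤
      1 / √z - √2 + Real.log (2 * z) / 2 + 0.0027 := by
  set U : ℝ := 1 / (2 * z) with hU
  have hU1 : 1 ≤ U := by rw [hU, le_div_iff₀ (by positivity)]; linarith
  have hsz : 0 < √z := sqrt_pos.mpr hz
  set F : ℝ → ℝ := fun u => -(1 / √z) * (√u)⁻¹ - Real.log u / 2 + 0.0054 * z * u with hF
  set f : ℝ → ℝ := fun u => -(1 / √z) * (-(1 / (2 * √u)) / (√u) ^ 2) - u⁻¹ / 2 + 0.0054 * z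
    with hf
  have hder : ∀ u ∈ uIcc 1 U, HasDerivAt F (f u) u := by
    intro u hu
    rw [uIcc_of_le hU1] at hu
    have hu0 : 0 < u := by linarith only [hz, hz2, hu, hu.1]
    have hsu : √u ≠ 0 := (sqrt_pos.mpr hu0).ne'
    have h1 : HasDerivAt (fun u : ℝ => (√u)⁻¹) (-(1 / (2 * √u)) / (√u) ^ 2) u :=
      (hasDerivAt_sqrt hu0.ne').fun_inv hsu
    have h2 := (Real.hasDerivAt_log hu0.ne').div_const 2
    have h3 : HasDerivAt (fun u : ℝ => 0.0054 * z * u) (0.0054 * z) u := by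
      simpa using (hasDerivAt_id' u).const_mul (0.0054 * z)
    exact ((h1.const_mul (-(1 / √z))).sub h2).add h3
  have hcont : ContinuousOn f (uIcc 1 U) := by
    rw [uIcc_of_le hU1]
    intro u hu
    have hu0 : 0 < u := by linarith only [hz, hz2, hu, hu.1]
    have hsu : √u ≠ 0 := (sqrt_pos.mpr hu0).ne'
    apply ContinuousAt.continuousWithinAt
    have c1 : ContinuousAt (fun u : ℝ => √u) u := continuous_sqrt.continuousAt
    have c2 : ContinuousAt (fun u : ℝ => u⁻¹) u := continuousAt_inv₀ hu0.ne'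
    have c3 : ContinuousAt (fun u : ℝ => -(1 / (2 * √u)) / (√u) ^ 2) u := by
      apply ContinuousAt.div
      · apply ContinuousAt.neg
        apply ContinuousAt.div continuousAt_const (c1.const_mul 2)
        exact mul_ne_zero two_ne_zero hsu
      · exact c1.pow 2
      · exact pow_ne_zero 2 hsu
    exact ((c3.const_mul _).sub (c2.div_const 2)).add continuousAt_const
  have hii : IntervalIntegrable f volume 1 U := hcont.intervalIntegrable
  have hval : ∫ u in (1 : ℝ)..U, f u = F U - F 1 :=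
    intervalIntegral.integral_eq_sub_of_hasDerivAt hder hii
  have hle : ∫ u in Ioc (1 : ℝ) U, om1 (z * u) * (1 / u) ≤ ∫ u in Ioc (1 : ℝ) U, f u := by
    refine setIntegral_mono_on ((integrableOn_B hz).mono_set Ioc_subset_Ioi_self)
      ((intervalIntegrable_iff_integrableOn_Ioc_of_le hU1).mp hii) measurableSet_Ioc fun u hu => ?_
    have hu0 : 0 < u := by linarith only [hz, hz2, hu, hu.1]
    have hzu : 0 < z * u := by positivity
    have hsu : 0 < √u := sqrt_pos.mpr hu0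
    have hss : (√u) ^ 2 = u := sq_sqrt hu0.le
    have hy : z * u ≤ 1 / 2 := by
      have := mul_le_mul_of_nonneg_left hu.2 hz.le
      rw [hU] at this
      have e : z * (1 / (2 * z)) = 1 / 2 := by field_simp
      linarith only [this, e]
    have h1 := om1_le_low hzu hy
    have h2 := mul_le_mul_of_nonneg_right h1 (show 0 ≤ 1 / u by positivity)
    refine h2.trans (le_of_eq ?_)
    simp only [hf]
    rw [sqrt_mul hz.le, hss]
    field_simp
  rw [intervalIntegral.integral_of_le hU1] at hval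
  rw [hval] at hle
  refine hle.trans ?_
  have hsU : (√U)⁻¹ = √2 * √z := by
    rw [hU, sqrt_div zero_le_one, sqrt_one, one_div, inv_inv, sqrt_mul (by norm_num)]
  have hFU : F U = -√2 + Real.log (2 * z) / 2 + 0.0027 := by
    simp only [hF]
    rw [hsU, hU, one_div (2 * z), Real.log_inv]
    field_simp
    ring
  have hF1 : F 1 = -(1 / √z) + 0.0054 * z := by
    simp only [hF]; simp
  rw [hFU, hF1]
  have : 0 < 0.0054 * z := by positivity
  linarith only [hz]

/-- second part: `1/(2z) < u ≤ 1/z` -/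
lemma integral_B2 {z : ℝ} (hz : 0 < z) (hz2 : z ≤ 1 / 2) :
    ∫ u in Ioc (1 / (2 * z)) (1 / z), om1 (z * u) * (1 / u) ≤
      0.2098 * ((2 / π - 2 / π ^ 2) - rexp (-(π / 2)) * (1 / π - 2 / π ^ 2)) := by
  set U : ℝ := 1 / (2 * z) with hU
  have hU1 : 1 ≤ U := by rw [hU, le_div_iff₀ (by positivity)]; linarith
  have hUV : U ≤ 1 / z := by
    rw [hU]; apply one_div_le_one_div_of_le hz; linarith
  set F : ℝ → ℝ := fun u =>
    0.2098 * (-(rexp (-(π * (z * u - 1 / 2))) * ((3 - 2 * (z * u)) / π - 2 / π ^ 2))) with hF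
  set f : ℝ → ℝ := fun u => 0.2098 * (rexp (-(π * (z * u - 1 / 2))) * (z * (3 - 2 * (z * u))))
    with hf
  have hpi : π ≠ 0 := pi_ne_zero
  have hder : ∀ u ∈ uIcc U (1 / z), HasDerivAt F (f u) u := by
    intro u _
    have h1 : HasDerivAt (fun u : ℝ => z * u) z u := by
      simpa using (hasDerivAt_id' u).const_mul z
    have h2 : HasDerivAt (fun u : ℝ => -(π * (z * u - 1 / 2))) (-(π * z)) u :=
      ((h1.sub_const (1 / 2)).const_mul π).fun_neg
    have h3 : HasDerivAt (fun u : ℝ => (3 - 2 * (z * u)) / π - 2 / π ^ 2) (-(2 * z) / π) u :=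
      (((h1.const_mul 2).const_sub 3).div_const π).sub_const _
    have h4 := ((h2.exp.fun_mul h3).fun_neg).const_mul 0.2098
    refine h4.congr_deriv ?_
    simp only [hf]
    field_simp
    ring
  have hcont : Continuous f := by fun_prop
  have hii : IntervalIntegrable f volume U (1 / z) := hcont.intervalIntegrable _ _
  have hval : ∫ u in U..(1 / z), f u = F (1 / z) - F U :=
    intervalIntegral.integral_eq_sub_of_hasDerivAt hder hii
  have hle : ∫ u in Ioc U (1 / z), om1 (z * u) * (1 / u) ≤ ∫ u in Ioc U (1 / z), f u := by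
    refine setIntegral_mono_on ((integrableOn_B hz).mono_set ?_)
      ((intervalIntegrable_iff_integrableOn_Ioc_of_le hUV).mp hii) measurableSet_Ioc fun u hu => ?_
    · exact fun x hx => lt_of_le_of_lt hU1 hx.1
    have hu0 : 0 < u := by linarith only [hz, hz2, hU1, hu, hu.1]
    have hy1 : 1 / 2 ≤ z * u := by
      have := mul_le_mul_of_nonneg_left hu.1.le hz.le
      rw [hU] at this
      have e : z * (1 / (2 * z)) = 1 / 2 := by field_simp
      linarith only [this, e]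
    have hy2 : z * u ≤ 1 := by
      have := mul_le_mul_of_nonneg_left hu.2 hz.le
      have e : z * (1 / z) = 1 := by field_simp
      linarith only [this, e]
    have h1 := om1_le_high hy1
    have h2 : 1 / u ≤ z * (3 - 2 * (z * u)) := by
      rw [div_le_iff₀ hu0]
      nlinarith only [hz, hz2, hy1, hy2]
    have h3 : 0 ≤ 1 / u := by positivity
    simp only [hf]
    calc om1 (z * u) * (1 / u) ≤ (0.2098 * rexp (-(π * (z * u - 1 / 2)))) *
          (z * (3 - 2 * (z * u))) := mul_le_mul h1 h2 h3 (by positivity)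
      _ = _ := by ring
  rw [intervalIntegral.integral_of_le hUV] at hval
  rw [hval] at hle
  refine hle.trans (le_of_eq ?_)
  have e1 : z * (1 / z) = 1 := by field_simp
  have e2 : z * U = 1 / 2 := by rw [hU]; field_simp
  simp only [hF]
  rw [e1, e2]
  have e3 : -(π * (1 - 1 / 2)) = -(π / 2) := by ring
  have e4 : -(π * ((1 : ℝ) / 2 - 1 / 2)) = 0 := by ring
  rw [e3, e4, exp_zero]
  ring

/-- third part: `1/z < u` -/
lemma integral_B3 {z : ℝ} (hz : 0 < z) (hz2 : z ≤ 1 / 2) :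
    ∫ u in Ioi (1 / z), om1 (z * u) * (1 / u) ≤ 0.2098 * (rexp (-(π / 2)) / π) := by
  have hV1 : 1 ≤ 1 / z := by rw [le_div_iff₀ hz]; linarith
  have hpz : 0 < π * z := by positivity
  have hneg : -(π * z) < 0 := by linarith
  have hint : IntegrableOn (fun u : ℝ => (0.2098 * z * rexp (π / 2)) * rexp (-(π * z) * u))
      (Ioi (1 / z)) := (integrableOn_exp_mul_Ioi hneg _).const_mul _
  have hval : ∫ u in Ioi (1 / z), (0.2098 * z * rexp (π / 2)) * rexp (-(π * z) * u) =
      0.2098 * (rexp (-(π / 2)) / π) := by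
    rw [integral_const_mul, integral_exp_mul_Ioi hneg, neg_div_neg_eq]
    have e1 : -(π * z) * (1 / z) = -π := by field_simp
    have e2 : rexp (-(π / 2)) = rexp (π / 2) * rexp (-π) := by
      rw [← exp_add]; congr 1; ring
    rw [e1, e2]
    field_simp
  rw [← hval]
  refine setIntegral_mono_on ((integrableOn_B hz).mono_set (Ioi_subset_Ioi hV1)) hint
    measurableSet_Ioi fun u hu => ?_
  have hu1 : 1 / z < u := hu
  have hu0 : 0 < u := by linarith only [hz, hz2, hV1, hu1]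
  have hy1 : 1 ≤ z * u := by
    have := mul_le_mul_of_nonneg_left hu1.le hz.le
    have e : z * (1 / z) = 1 := by field_simp
    linarith only [this, e]
  have h1 := om1_le_high (show 1 / 2 ≤ z * u by linarith only [hz, hz2, hy1])
  have h2 : 1 / u ≤ z := by
    rw [div_le_iff₀ hu0]; exact hy1
  have h3 : 0 ≤ 1 / u := by positivity
  calc om1 (z * u) * (1 / u) ≤ (0.2098 * rexp (-(π * (z * u - 1 / 2)))) * z :=
        mul_le_mul h1 h2 h3 (by positivity)
    _ = _ := by
        have : rexp (-(π * (z * u - 1 / 2))) = rexp (π / 2) * rexp (-(π * z) * u) := by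
          rw [← exp_add]; congr 1; ring
        rw [this]; ring

lemma integral_B_le {z : ℝ} (hz : 0 < z) (hz2 : z ≤ 1 / 2) :
    ∫ u in Ioi (1 : ℝ), om1 (z * u) * (1 / u) ≤
      1 / √z + Real.log (z / 2) / 2 - 0.618 := by
  have hU1 : 1 ≤ 1 / (2 * z) := by rw [le_div_iff₀ (by positivity)]; linarith
  have hUV : 1 / (2 * z) ≤ 1 / z := by
    apply one_div_le_one_div_of_le hz; linarith
  have hB := integrableOn_B hz
  have s1 : ∫ u in Ioi (1 : ℝ), om1 (z * u) * (1 / u) =
      (∫ u in Ioc (1 : ℝ) (1 / (2 * z)), om1 (z * u) * (1 / u)) +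
        ((∫ u in Ioc (1 / (2 * z)) (1 / z), om1 (z * u) * (1 / u)) +
          ∫ u in Ioi (1 / z), om1 (z * u) * (1 / u)) := by
    rw [← setIntegral_union (s := Ioc (1 / (2 * z)) (1 / z)) (t := Ioi (1 / z))
      (by rw [disjoint_left]; intro x hx hx'; exact not_lt.mpr hx.2 hx') measurableSet_Ioi
      (hB.mono_set (fun x hx => lt_of_le_of_lt hU1 hx.1))
      (hB.mono_set (fun x hx => lt_of_le_of_lt (hU1.trans hUV) hx)),
      Ioc_union_Ioi_eq_Ioi hUV,
      ← setIntegral_union (s := Ioc 1 (1 / (2 * z))) (t := Ioi (1 / (2 * z)))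
      (by rw [disjoint_left]; intro x hx hx'; exact not_lt.mpr hx.2 hx') measurableSet_Ioi
      (hB.mono_set Ioc_subset_Ioi_self)
      (hB.mono_set (fun x hx => lt_of_le_of_lt hU1 hx)),
      Ioc_union_Ioi_eq_Ioi hU1]
  rw [s1]
  have h1 := integral_B1 hz hz2
  have h2 := integral_B2 hz hz2
  have h3 := integral_B3 hz hz2
  have h4 := exp_neg_half_pi_le
  have h5 : Real.log (2 * z) / 2 = Real.log (z / 2) / 2 + Real.log 2 := by
    rw [Real.log_mul (by norm_num) hz.ne', Real.log_div hz.ne' (by norm_num)]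
    ring
  have h6 : (1.41421 : ℝ) < √2 := by
    rw [lt_sqrt (by norm_num)]; norm_num
  have h7 := Real.log_two_lt_d9
  have p1 := pi_gt_d6
  have p2 := pi_lt_d6
  -- the value of the constant
  have h8 : (2 / π - 2 / π ^ 2) - rexp (-(π / 2)) * (1 / π - 2 / π ^ 2) + rexp (-(π / 2)) / π =
      2 / π - 2 / π ^ 2 + 2 * rexp (-(π / 2)) / π ^ 2 := by ring
  have h9 : 1 / π < 0.318311 := by
    rw [div_lt_iff₀ pi_pos]; linarith only [p1, p2]
  have h9' : 0.318309 < 1 / π := by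
    rw [lt_div_iff₀ pi_pos]; linarith only [p1, p2]
  have h10 : 2 / π - 2 / π ^ 2 + 2 * rexp (-(π / 2)) / π ^ 2 =
      2 * (1 / π) - 2 * (1 / π) ^ 2 * (1 - rexp (-(π / 2))) := by
    field_simp
    ring
  have h11 : 2 * (1 / π) - 2 * (1 / π) ^ 2 * (1 - rexp (-(π / 2))) ≤ 0.47615 := by
    have : (0.318309 : ℝ) ^ 2 ≤ (1 / π) ^ 2 := pow_le_pow_left₀ (by norm_num) h9'.le 2
    nlinarith only [p1, p2, h9, this, h4]
  have h12 : 0.2098 * ((2 / π - 2 / π ^ 2) - rexp (-(π / 2)) * (1 / π - 2 / π ^ 2)) +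
      0.2098 * (rexp (-(π / 2)) / π) ≤ 0.2098 * 0.47615 := by
    rw [← mul_add, h8, h10]
    exact mul_le_mul_of_nonneg_left h11 (by norm_num)
  rw [h5] at h1
  linarith only [h1, h2, h3, h6, h7, p1, p2, h8, h10, h11]

lemma HI_le_small {z : ℝ} (hz : 0 < z) (hz2 : z ≤ 1 / 2) :
    HI z ≤ ENNReal.ofReal (π / (6 * z) + Real.log (z / 2) / 2 - 0.118) := by
  have hA : IntegrableOn (fun u : ℝ => om1 (z * u)) (Ioi 1) :=
    (integrableOn_om1_Ioi0 hz).mono_set (Ioi_subset_Ioi zero_le_one)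
  have hB := integrableOn_B hz
  have hAB : IntegrableOn (fun u : ℝ => om1 (z * u) * (1 + 1 / u)) (Ioi 1) := by
    refine (hA.add hB).congr ?_
    filter_upwards with u
    simp only [Pi.add_apply]
    ring
  have h1 : ∫ u in Ioi (1 : ℝ), om1 (z * u) * (1 + 1 / u) =
      (∫ u in Ioi (1 : ℝ), om1 (z * u)) + ∫ u in Ioi (1 : ℝ), om1 (z * u) * (1 / u) := by
    rw [← integral_add hA hB]
    exact integral_congr_ae (by filter_upwards with u; ring)
  have h2 : HI z = ENNReal.ofReal (∫ u in Ioi (1 : ℝ), om1 (z * u) * (1 + 1 / u)) := by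
    unfold HI
    rw [ofReal_integral_eq_lintegral_ofReal hAB]
    filter_upwards [ae_restrict_mem measurableSet_Ioi] with u hu
    have hu1 : (1 : ℝ) < u := hu
    have hu0 : 0 < u := by linarith
    have := om1_pos (mul_pos hz hu0)
    show 0 ≤ om1 (z * u) * (1 + 1 / u)
    positivity
  rw [h2]
  apply ENNReal.ofReal_le_ofReal
  rw [h1]
  have h3 := integral_om1_Ioi1 hz
  have h4 := integral_B_le hz hz2
  linarith only [h3, h4]

lemma mul_exp_le_aux {w : ℝ} (hw : 3.84 ≤ w) : w * rexp (-(w - 1)) ≤ 0.34 := by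
  have ht : 0 ≤ w - 1 := by linarith only [hw]
  have h1 := Real.sum_le_exp_of_nonneg ht 4
  norm_num [Finset.sum_range_succ, Nat.factorial] at h1
  have h2 : rexp (-(w - 1)) * rexp (w - 1) = 1 := by rw [← exp_add]; simp
  have h3 := exp_pos (-(w - 1))
  have h4 : w ≤ 0.34 * rexp (w - 1) := by nlinarith only [hw, h1, mul_nonneg ht ht, mul_nonneg (mul_nonneg ht ht) ht]
  calc w * rexp (-(w - 1)) ≤ (0.34 * rexp (w - 1)) * rexp (-(w - 1)) :=
        mul_le_mul_of_nonneg_right h4 h3.le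
    _ = 0.34 * (rexp (-(w - 1)) * rexp (w - 1)) := by ring
    _ = 0.34 := by rw [h2, mul_one]

lemma eps1_ge_final {z : ℝ} (hz : 0 < z) (hz2 : z ≤ 0.258) :
    (1 / 2 - eps1 z) * (π / (3 * z)) ≤ 0.018 ∧ 0 ≤ eps1 z := by
  refine ⟨?_, (eps1_pos hz).le⟩
  have h1 := eps1_ge_small hz (by linarith)
  set w := 1 / z with hw
  have hw1 : 3.84 ≤ w := by
    rw [hw, le_div_iff₀ hz]; nlinarith only [hz, hz2]
  have hw0 : 0 < w := by linarith only [hz, hz2, hw1]
  have h2 : π / (3 * z) = π / 3 * w := by rw [hw]; field_simp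
  rw [h2]
  have h3 := mul_exp_le_aux hw1
  have h4 : √w ≤ w := by
    rw [sqrt_le_left hw0.le]; nlinarith only [hz2, hw1, hz]
  have h5 : rexp (-(π * (w - 1))) ≤ rexp (-(w - 1)) ^ 3 := by
    rw [← exp_nat_mul]
    apply exp_le_exp.mpr
    push_cast
    nlinarith only [hz, hz2, hw1, pi_gt_three]
  have h6 : w * √w * rexp (-(π * (w - 1))) * w ≤ (w * rexp (-(w - 1))) ^ 3 := by
    have e1 : w * √w * w ≤ w * w * w := by
      have := mul_le_mul_of_nonneg_left h4 (by positivity : 0 ≤ w * w)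
      linarith only [this]
    calc w * √w * rexp (-(π * (w - 1))) * w = (w * √w * w) * rexp (-(π * (w - 1))) := by ring
      _ ≤ (w * w * w) * rexp (-(w - 1)) ^ 3 := mul_le_mul e1 h5 (exp_pos _).le (by positivity)
      _ = _ := by ring
  have h7 : (w * rexp (-(w - 1))) ^ 3 ≤ 0.34 ^ 3 :=
    pow_le_pow_left₀ (by positivity) h3 3
  have h8 := dm1_one_lt
  have h9 := dm1_pos one_pos
  have h10 : 1 / 2 - eps1 z ≤ 2 * dm1 1 * (w * √w * rexp (-(π * (w - 1)))) := by linarith only [h1]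
  have h11 : 0 < π / 3 * w := by positivity
  have h12 := mul_le_mul_of_nonneg_right h10 h11.le
  have h13 : 2 * dm1 1 * (w * √w * rexp (-(π * (w - 1)))) * (π / 3 * w) =
      (2 * dm1 1 * (π / 3)) * (w * √w * rexp (-(π * (w - 1))) * w) := by ring
  have h14 : 2 * dm1 1 * (π / 3) ≤ 0.29 := by
    have := pi_lt_d6
    nlinarith only [hw1, hz, h9, this, hz2, h8, h11]
  have h15 : 0 ≤ w * √w * rexp (-(π * (w - 1))) * w := by positivity
  have h16 : (2 * dm1 1 * (π / 3)) * (w * √w * rexp (-(π * (w - 1))) * w) ≤ 0.29 * 0.34 ^ 3 :=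
    mul_le_mul h14 (h6.trans h7) h15 (by norm_num)
  calc (1 / 2 - eps1 z) * (π / 3 * w) ≤ _ := h12
    _ = _ := h13
    _ ≤ _ := h16
    _ ≤ 0.018 := by norm_num

lemma four_le_Kq (x : ℝ) : 4 ≤ Kq x := le_max_left _ _

lemma Kq_pos (x : ℝ) : 0 < Kq x := lt_of_lt_of_le (by norm_num) (four_le_Kq x)

lemma Kq_ge {x v : ℝ} (hx : 1 ≤ x) (hv : 1 / x ≤ v) (hv2 : v ≤ 1 / 2) :
    π / (6 * v) + Real.log v - 1 / 5 ≤ Kq x := by
  refine le_trans ?_ (le_max_right _ _)
  have hx0 : 0 < x := by linarith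
  have hv0 : 0 < v := lt_of_lt_of_le (by positivity) hv
  have hxv : 1 ≤ x * v := by
    have := mul_le_mul_of_nonneg_left hv hx0.le
    rwa [mul_one_div_cancel hx0.ne'] at this
  have h1 : Real.log x + Real.log v ≤ x * v - 1 := by
    rw [← Real.log_mul hx0.ne' hv0.ne']
    exact Real.log_le_sub_one_of_pos (by positivity)
  have h2 : π / (6 * v) * (x * v) = π * x / 6 := by field_simp
  have h3 : 1 ≤ π / (6 * v) := by
    rw [le_div_iff₀ (by positivity)]
    nlinarith only [hv2, pi_gt_three]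
  nlinarith only [h1, h2, hv2, hv0, hxv, h3]

lemma HI_le_Kq {x v : ℝ} (hx : 1 ≤ x) (hv : 1 / x ≤ v) :
    HI (2 * v) ≤ ENNReal.ofReal (Kq x * eps1 (2 * v)) := by
  have hx0 : 0 < x := by linarith
  have hv0 : 0 < v := lt_of_lt_of_le (by positivity) hv
  have hz : 0 < 2 * v := by positivity
  rcases le_total (2 * v) 0.258 with h | h
  · refine (HI_le_small hz (by linarith only [hv0, h])).trans (ENNReal.ofReal_le_ofReal ?_)
    obtain ⟨h1, h2⟩ := eps1_ge_final hz h
    have h3 := Kq_ge hx hv (by linarith only [hv0, h])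
    have h4 : (2 * v) / 2 = v := by ring
    rw [h4]
    set g := π / (6 * v) + Real.log v - 1 / 5 with hg
    have h5 : π / (3 * (2 * v)) = π / (6 * v) := by congr 1; ring
    rw [h5] at h1
    have hlog : Real.log v ≤ 0 := Real.log_nonpos hv0.le (by linarith only [hv0, h])
    have h6 : g ≤ π / (6 * v) := by rw [hg]; linarith only [hv0, h, hlog]
    have h7 : π / (6 * (2 * v)) = (π / (6 * v)) / 2 := by
      rw [show 6 * (2 * v) = (6 * v) * 2 by ring, ← div_div]
    rw [h7]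
    have h8 : g * eps1 (2 * v) ≤ Kq x * eps1 (2 * v) := mul_le_mul_of_nonneg_right h3 h2
    refine le_trans ?_ h8
    -- `g/2 - 0.018 ≤ g eps`
    have h9 : g * (1 / 2 - eps1 (2 * v)) ≤ 0.018 := by
      by_cases hc : 0 ≤ 1 / 2 - eps1 (2 * v)
      · calc g * (1 / 2 - eps1 (2 * v)) ≤ π / (6 * v) * (1 / 2 - eps1 (2 * v)) :=
              mul_le_mul_of_nonneg_right h6 hc
          _ ≤ 0.018 := by linarith only [h1]
      · -- eps1 ≤ 1/2 always
        exfalso
        apply hc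
        rw [eps1_eq hz]
        have : 0 < 2 * √(2 * v) / (2 * v) ^ 2 * dm1 (1 / (2 * v)) := by
          have := dm1_pos (show 0 < 1 / (2 * v) by positivity)
          (clear * - hv0 this; positivity)
        linarith only [this]
    have h10 : g = π / (6 * v) + Real.log v - 1 / 5 := hg
    linarith only [hg, h9]
  · have h1 : 0.81 ≤ π * (2 * v) := by nlinarith only [hv0, h, pi_gt_d6]
    refine (HI_le_eps h1).trans (ENNReal.ofReal_le_ofReal ?_)
    exact mul_le_mul_of_nonneg_right (four_le_Kq x) (eps1_pos hz).le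

lemma div_two_pi_le_Kq {x : ℝ} (hx : 1 ≤ x) : x / (2 * π) ≤ Kq x := by
  have p1 := pi_gt_d6
  have hx0 : 0 < x := by linarith
  rcases le_total x 25 with h | h
  · refine le_trans ?_ (four_le_Kq x)
    rw [div_le_iff₀ (by positivity)]
    linarith only [p1, h]
  · refine le_trans ?_ (le_max_right _ _)
    have h1 : x / (2 * π) ≤ 0.16 * x := by
      rw [div_le_iff₀ (by positivity)]
      nlinarith only [p1, h, hx]
    have h2 : Real.log x ≤ x / 25 - 1 + Real.log 25 := by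
      have := Real.log_le_sub_one_of_pos (show 0 < x / 25 by positivity)
      rw [Real.log_div hx0.ne' (by norm_num)] at this
      linarith only [this]
    have h3 : Real.log 25 ≤ 3.5 := by
      have e : Real.log 25 ≤ Real.log (2 ^ 5) := Real.log_le_log (by norm_num) (by norm_num)
      rw [Real.log_pow] at e
      have := Real.log_two_lt_d9
      push_cast at e
      linarith only [e, this]
    nlinarith only [p1, h, h1, h2, h3, hx]

lemma JI_le_Kq {x v : ℝ} (hx : 1 ≤ x) (hv : 1 / x ≤ v) :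
    JI (2 * v) ≤ ENNReal.ofReal (Kq x * om1 (2 * v)) := by
  have hx0 : 0 < x := by linarith
  have hv0 : 0 < v := lt_of_lt_of_le (by positivity) hv
  have hz : 0 < 2 * v := by positivity
  have hpz : 0 < π * (2 * v) := by positivity
  have hom := om1_pos hz
  have h1 : JI (2 * v) ≤ ∫⁻ u in Ioi (1 : ℝ),
      ENNReal.ofReal (om1 (2 * v)) * ENNReal.ofReal (rexp (-((π * (2 * v)) * (u - 1)))) := by
    unfold JI
    refine setLIntegral_mono' measurableSet_Ioi fun u hu => ?_
    have hu1 : 1 < u := hu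
    have hu0 : 0 < u := by linarith
    rw [← ENNReal.ofReal_mul hom.le]
    apply ENNReal.ofReal_le_ofReal
    have ha := om1_le hz hu1.le
    have hb : 1 - 1 / u ≤ 1 := by
      have : 0 < 1 / u := by positivity
      linarith
    have hb0 : 0 ≤ 1 - 1 / u := by
      have : 1 / u ≤ 1 := by rw [div_le_iff₀ hu0]; linarith
      linarith
    calc om1 (2 * v * u) * (1 - 1 / u)
        ≤ (rexp (-(π * (2 * v) * (u - 1))) * om1 (2 * v)) * 1 :=
          mul_le_mul ha hb hb0 (by positivity)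
      _ = om1 (2 * v) * rexp (-(π * (2 * v) * (u - 1))) := by ring
  refine h1.trans ?_
  rw [lintegral_const_mul' _ _ ENNReal.ofReal_ne_top, lintegral_exp_shift hpz,
    ← ENNReal.ofReal_mul hom.le]
  apply ENNReal.ofReal_le_ofReal
  rw [mul_comm]
  apply mul_le_mul_of_nonneg_right _ hom.le
  refine le_trans ?_ (div_two_pi_le_Kq hx)
  rw [div_le_div_iff₀ hpz (by positivity)]
  have hxv : 1 ≤ x * v := by
    have := mul_le_mul_of_nonneg_left hv hx0.le
    rwa [mul_one_div_cancel hx0.ne'] at this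
  nlinarith only [hxv, pi_pos, mul_le_mul_of_nonneg_left hxv (by positivity : 0 ≤ 2 * π)]

/-- general (`v > 0`) summability of the `e1p` series -/
lemma summable_e1p {v : ℝ} (hv : 0 < v) :
    Summable fun k : ℕ => e1p (2 * π * ((k : ℝ) + 1) ^ 2 * v) := by
  have hz : 0 < 2 * v := by positivity
  have h := HI_le hz
  rw [HI_eq_tsum hz] at h
  have h2 := (tsum_le_of_ennreal
    (fun k => (e1p_pos (mul_pos (ak_pos k) hz)).le) (by positivity) h).1
  exact h2.congr fun k => by rw [two_pi_eq]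

lemma summable_e1m {v : ℝ} (hv : 0 < v) :
    Summable fun k : ℕ => e1m (2 * π * ((k : ℝ) + 1) ^ 2 * v) := by
  have hz : 0 < 2 * v := by positivity
  have h := JI_le hz
  rw [JI_eq_tsum hz] at h
  have h2 := (tsum_le_of_ennreal
    (fun k => (e1m_pos (mul_pos (ak_pos k) hz)).le) (by positivity) h).1
  exact h2.congr fun k => by rw [two_pi_eq]

/-- (O1a) -/
theorem e1p_tsum_le {x v : ℝ} (hx : 1 ≤ x) (hv : 1 / x ≤ v) :
    ∑' k : ℕ, e1p (2 * π * ((k : ℝ) + 1) ^ 2 * v) ≤ Kq x * gE v := by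
  have hx0 : 0 < x := by linarith
  have hv0 : 0 < v := lt_of_lt_of_le (by positivity) hv
  have hz : 0 < 2 * v := by positivity
  have h := HI_le_Kq hx hv
  rw [HI_eq_tsum hz] at h
  have h2 := (tsum_le_of_ennreal (fun k => (e1p_pos (mul_pos (ak_pos k) hz)).le)
    (mul_nonneg (Kq_pos x).le (eps1_pos hz).le) h).2
  rw [gE_eq hv0]
  calc ∑' k : ℕ, e1p (2 * π * ((k : ℝ) + 1) ^ 2 * v) = ∑' k : ℕ, e1p (ak k * (2 * v)) :=
        tsum_congr fun k => by rw [two_pi_eq]
    _ ≤ _ := h2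

/-- (O1b) -/
theorem e1m_tsum_le {x v : ℝ} (hx : 1 ≤ x) (hv : 1 / x ≤ v) :
    ∑' k : ℕ, e1m (2 * π * ((k : ℝ) + 1) ^ 2 * v) ≤ Kq x * OmE v := by
  have hx0 : 0 < x := by linarith
  have hv0 : 0 < v := lt_of_lt_of_le (by positivity) hv
  have hz : 0 < 2 * v := by positivity
  have h := JI_le_Kq hx hv
  rw [JI_eq_tsum hz] at h
  have h2 := (tsum_le_of_ennreal (fun k => (e1m_pos (mul_pos (ak_pos k) hz)).le)
    (mul_nonneg (Kq_pos x).le (om1_pos hz).le) h).2
  rw [OmE_eq]
  calc ∑' k : ℕ, e1m (2 * π * ((k : ℝ) + 1) ^ 2 * v) = ∑' k : ℕ, e1m (ak k * (2 * v)) :=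
        tsum_congr fun k => by rw [two_pi_eq]
    _ ≤ _ := h2

lemma gE_pos {v : ℝ} (hv : 0 < v) : 0 < gE v := by
  rw [gE_eq hv]; exact eps1_pos (by positivity)

lemma OmE_pos {v : ℝ} (hv : 0 < v) : 0 < OmE v := by
  rw [OmE_eq]; exact om1_pos (by positivity)

end Pool.Agent.MP0016c7
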