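import Mathlib
import Pool.Agent.Lib.MP_0016c7_nt.OddIneq
import Pool.Agent.Lib.MP_0016c7_nt.EvenPlug

open Real Set MeasureTheory Filter Topology
open scoped ENNReal

namespace Pool.Agent.MP0016c7

/-! ### The full (weighted) explicit zero-free region, even characters -/

/-- `phi v = log (1/v) / 2 - 0.03 - 0.86 v` -/
noncomputable def phi (v : ℝ) : ℝ := Real.log (1 / v) / 2 - 0.03 - 0.86 * v

lemma one_sub_half_le {t : ℝ} (ht : 0 ≤ t) : 1 - t / 2 ≤ 1 / √(1 + t) := by
  have h0 : 0 < √(1 + t) := sqrt_pos.mpr (by linarith)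
  rw [le_div_iff₀ h0]
  rcases le_total (1 - t / 2) 0 with h | h
  · nlinarith only [h0, h]
  · have h1 : √(1 + t) ≤ 1 + t / 2 := by
      rw [sqrt_le_left (by linarith)]
      nlinarith
    nlinarith

lemma exp_three_half : 4.48 ≤ rexp (3 / 2) := by
  have h1 : rexp (3 / 2) ^ 2 = rexp 1 ^ 3 := by
    rw [← exp_nat_mul, ← exp_nat_mul]; norm_num
  have h2 : (20.08 : ℝ) < rexp 1 ^ 3 := by
    have e1 := exp_one_gt_d9
    have : (2.71828 : ℝ) ^ 3 < rexp 1 ^ 3 := by
      apply pow_lt_pow_left₀ _ (by norm_num) (by norm_num)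
      linarith only [e1]
    exact lt_trans (by norm_num) this
  by_contra h
  have h3 : rexp (3 / 2) ^ 2 ≤ 4.48 ^ 2 := by
    apply pow_le_pow_left₀ (exp_pos _).le
    exact (not_le.mp h).le
  norm_num at h3
  linarith

lemma OmI_ge {v : ℝ} (hv : 0 < v) (hv20 : v ≤ 1 / 20) : ENNReal.ofReal (phi v) ≤ OmI v := by
  have hsv : 0 < √v := sqrt_pos.mpr hv
  have hss : √v * √v = v := mul_self_sqrt hv.le
  set R := Real.log (1 / v) with hR
  have hR0 : 0 ≤ R := by
    apply Real.log_nonneg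
    rw [le_div_iff₀ hv]; linarith
  have heR : rexp R = 1 / v := exp_log (by positivity)
  have h1 : ∫⁻ r in Ioc (0 : ℝ) R, ENNReal.ofReal (om1 (v * (2 * cosh r))) ≤ OmI v := by
    unfold OmI
    exact lintegral_mono_set Ioc_subset_Ioi_self
  refine le_trans ?_ h1
  -- the primitive
  have hF : ∀ r : ℝ, HasDerivAt (fun r : ℝ => 1 / (2 * √v) * (-(2 * rexp (-(r / 2))) +
      1 / 5 * rexp (-(5 * r / 2))) - r / 2)
      (1 / (2 * √v) * (rexp (-(r / 2)) * (1 - rexp (-(2 * r)) / 2)) - 1 / 2) r := by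
    intro r
    have d1 : HasDerivAt (fun r : ℝ => rexp (-(r / 2))) (rexp (-(r / 2)) * (-(1 / 2))) r := by
      have : HasDerivAt (fun r : ℝ => -(r / 2)) (-(1 / 2)) r :=
        ((hasDerivAt_id' r).div_const 2).neg
      exact this.exp
    have d2 : HasDerivAt (fun r : ℝ => rexp (-(5 * r / 2))) (rexp (-(5 * r / 2)) * (-(5 / 2))) r := by
      have : HasDerivAt (fun r : ℝ => -(5 * r / 2)) (-(5 / 2)) r := by
        have := (((hasDerivAt_id' r).const_mul 5).div_const 2).fun_neg
        rwa [mul_one] at this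
      exact this.exp
    have d3 := (((d1.const_mul 2).neg.add (d2.const_mul (1 / 5))).const_mul
      (1 / (2 * √v))).sub ((hasDerivAt_id' r).div_const 2)
    refine d3.congr_deriv ?_
    have e : rexp (-(5 * r / 2)) = rexp (-(r / 2)) * rexp (-(2 * r)) := by
      rw [← exp_add]; congr 1; ring
    rw [e]
    ring
  have hle : ∀ r ∈ Ioc (0 : ℝ) R,
      1 / (2 * √v) * (rexp (-(r / 2)) * (1 - rexp (-(2 * r)) / 2)) - 1 / 2 ≤
        om1 (v * (2 * cosh r)) := by
    intro r hr
    have hz : 0 < v * (2 * cosh r) := by have := cosh_pos r; positivity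
    have h2 := om1_ge_low hz
    have h3 : v * (2 * cosh r) = v * (rexp r * (1 + rexp (-(2 * r)))) := by
      rw [cosh_eq, mul_add, ← exp_add]
      ring_nf
    have h4 : √(v * (2 * cosh r)) = √v * (rexp (r / 2) * √(1 + rexp (-(2 * r)))) := by
      rw [h3, sqrt_mul hv.le, sqrt_mul (exp_pos r).le]
      congr 2
      rw [show r = r / 2 + r / 2 by ring, exp_add, sqrt_mul_self (exp_pos _).le]
      congr 1; ring
    have h5 : 1 / √(v * (2 * cosh r)) =
        1 / √v * (rexp (-(r / 2)) * (1 / √(1 + rexp (-(2 * r))))) := by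
      have e : rexp (-(r / 2)) = 1 / rexp (r / 2) := by rw [exp_neg, one_div]
      rw [h4, e]
      have := exp_pos (r / 2)
      have h0 : 0 < √(1 + rexp (-(2 * r))) := sqrt_pos.mpr (by positivity)
      field_simp
    rw [h5] at h2
    have h6 := one_sub_half_le (exp_pos (-(2 * r))).le
    have h7 : 1 / √v * (rexp (-(r / 2)) * (1 - rexp (-(2 * r)) / 2)) ≤
        1 / √v * (rexp (-(r / 2)) * (1 / √(1 + rexp (-(2 * r))))) := by
      (clear * - h6 hv; gcongr)
    have h8 : 1 / (2 * √v) * (rexp (-(r / 2)) * (1 - rexp (-(2 * r)) / 2)) =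
        (1 / √v * (rexp (-(r / 2)) * (1 - rexp (-(2 * r)) / 2))) / 2 := by
      field_simp
    rw [h8]
    linarith only [h2, h7]
  have h9 := ofReal_sub_le_lintegral hR0 hF (by fun_prop) hle
  refine le_trans ?_ h9
  apply ENNReal.ofReal_le_ofReal
  -- values
  have e1 : rexp (-(R / 2)) = √v := by
    have : R / 2 = Real.log (1 / √v) := by
      rw [hR, one_div, one_div, Real.log_inv, Real.log_inv, Real.log_sqrt hv.le]
      ring
    rw [this, exp_neg, exp_log (by positivity), one_div, inv_inv]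
  have e2 : 0 ≤ rexp (-(5 * R / 2)) := (exp_pos _).le
  have e3 : 1 / (2 * √v) * (-(2 * rexp (-(R / 2))) + 1 / 5 * rexp (-(5 * R / 2))) - R / 2 -
      (1 / (2 * √v) * (-(2 * rexp (-((0 : ℝ) / 2))) + 1 / 5 * rexp (-(5 * (0 : ℝ) / 2))) - 0 / 2) ≥
      0.9 * (1 / √v) - 1 - R / 2 := by
    have e4 : rexp (-((0 : ℝ) / 2)) = 1 := by simp
    have e5 : rexp (-(5 * (0 : ℝ) / 2)) = 1 := by simp
    rw [e1, e4, e5]
    have e6 : 0 ≤ 1 / (2 * √v) * (1 / 5 * rexp (-(5 * R / 2))) := by positivity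
    have e7 : 1 / (2 * √v) * (-(2 * √v)) = -1 := by field_simp
    have e8 : 1 / (2 * √v) = (1 / √v) / 2 := by field_simp
    nlinarith only [e6, e7, e8]
  refine le_trans ?_ e3
  -- numeric
  set p := 1 / √v with hp
  have hp0 : 0 < p := by positivity
  have hp1 : 4.4 ≤ p := by
    rw [hp, le_div_iff₀ hsv]
    have : √v ≤ 0.2237 := by
      rw [sqrt_le_left (by norm_num)]
      norm_num at hv20 ⊢
      linarith only [hv, hv20]
    nlinarith only [hv, hv20, this]
  have hRp : R = 2 * Real.log p := by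
    rw [hR, hp, one_div, one_div, Real.log_inv, Real.log_inv, Real.log_sqrt hv.le]
    ring
  have hlogp : Real.log p ≤ 0.22322 * p + 1 / 2 := by
    have h10 := log_le_sub_one_of_pos (show 0 < p / rexp (3 / 2) by positivity)
    rw [Real.log_div hp0.ne' (exp_pos _).ne', log_exp] at h10
    have h11 : p / rexp (3 / 2) ≤ 0.22322 * p := by
      rw [div_le_iff₀ (exp_pos _)]
      have := exp_three_half
      nlinarith only [hv20, hp1, hv, hp0, this]
    linarith only [h10, h11]
  unfold phi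
  rw [← hR, hRp]
  linarith only [hv, hv20, hp1, hlogp]

lemma JK_le {v : ℝ} (hv : 0 < v) : JK v ≤ ENNReal.ofReal (π ^ 2 / (24 * v)) := by
  refine le_trans ?_ (HK_le hv)
  unfold JK HK
  refine lintegral_mono fun r => ?_
  unfold JI HI
  refine setLIntegral_mono' measurableSet_Ioi fun u hu => ?_
  have hu0 : (0 : ℝ) < u := lt_trans zero_lt_one hu
  have hz : 0 < v * (2 * cosh r) * u := by have := cosh_pos r; positivity
  have hzu := om1_pos hz
  apply ENNReal.ofReal_le_ofReal
  have : 0 < 1 / u := by positivity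
  nlinarith only [hzu, this]

lemma JI_le_om_lin {z : ℝ} (hz : 0 < z) : JI z ≤ ENNReal.ofReal (1 / (π * z) * om1 z) := by
  have hpz : 0 < π * z := by positivity
  have hom := om1_pos hz
  have h1 : JI z ≤ ∫⁻ u in Ioi (1 : ℝ),
      ENNReal.ofReal (om1 z) * ENNReal.ofReal (rexp (-((π * z) * (u - 1)))) := by
    unfold JI
    refine setLIntegral_mono' measurableSet_Ioi fun u hu => ?_
    have hu1 : 1 < u := hu
    have hu0 : 0 < u := by linarith
    rw [← ENNReal.ofReal_mul hom.le]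
    apply ENNReal.ofReal_le_ofReal
    have ha := om1_le hz hu1.le
    have hb : 1 - 1 / u ≤ 1 := by
      have : 0 < 1 / u := by positivity
      linarith
    have hb0 : 0 ≤ 1 - 1 / u := by
      have : 1 / u ≤ 1 := by rw [div_le_iff₀ hu0]; linarith
      linarith
    calc om1 (z * u) * (1 - 1 / u)
        ≤ (rexp (-(π * z * (u - 1))) * om1 z) * 1 :=
          mul_le_mul ha hb hb0 (by positivity)
      _ = om1 z * rexp (-(π * z * (u - 1))) := by ring
  refine h1.trans ?_
  rw [lintegral_const_mul' _ _ ENNReal.ofReal_ne_top, lintegral_exp_shift hpz,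
    ← ENNReal.ofReal_mul hom.le]
  apply ENNReal.ofReal_le_ofReal
  rw [mul_comm]

lemma JK_le_OmI {v : ℝ} (hv : 1 / 20 ≤ v) : JK v ≤ ENNReal.ofReal 4 * OmI v := by
  unfold JK OmI
  rw [← lintegral_const_mul' _ _ ENNReal.ofReal_ne_top]
  refine lintegral_mono fun r => ?_
  simp only
  have hc := one_le_cosh r
  have h1 : (0.1 : ℝ) ≤ v * (2 * cosh r) := by
    norm_num at hv ⊢
    nlinarith
  have hz : 0 < v * (2 * cosh r) := by linarith
  refine (JI_le_om_lin hz).trans ?_
  rw [← ENNReal.ofReal_mul (by norm_num)]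
  apply ENNReal.ofReal_le_ofReal
  apply mul_le_mul_of_nonneg_right _ (om1_pos hz).le
  rw [div_le_iff₀ (by positivity)]
  nlinarith only [h1, hz, pi_gt_three]

lemma log_ge_two_of {t : ℝ} (ht : 7.69 ≤ t) : 2 ≤ Real.log t := by
  rw [Real.le_log_iff_exp_le (by linarith)]
  have h2 : rexp 2 = rexp 1 ^ 2 := by rw [← exp_nat_mul]; norm_num
  have h3 := exp_one_lt_d9
  rw [h2]
  nlinarith only [ht, h3, exp_pos 1]

/-- `v · phi v` is increasing on `(0, 0.13]`. -/
lemma mul_phi_mono {v0 v : ℝ} (hv0 : 0 < v0) (hvv : v0 ≤ v) (hv13 : v ≤ 0.13) :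
    v0 * phi v0 ≤ v * phi v := by
  have hv : 0 < v := by linarith
  set N := 1 / v0 with hN
  set t := 1 / v with ht
  have hN0 : 0 < N := by positivity
  have ht0 : 0 < t := by positivity
  have htN : t ≤ N := one_div_le_one_div_of_le hv0 hvv
  have ht7 : 7.69 ≤ t := by
    rw [ht, le_div_iff₀ hv]
    norm_num at hv13 ⊢
    linarith only [hv0, hvv, hv13]
  have hlogt := log_ge_two_of ht7
  have hlogNt : Real.log N ≤ Real.log t + (N / t - 1) := by
    have h1 := log_le_sub_one_of_pos (show 0 < N / t by positivity)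
    rw [log_div hN0.ne' ht0.ne'] at h1
    linarith
  have hphi : t * (Real.log N / 2 - 0.03 - 0.86 * (1 / N)) ≤
      N * (Real.log t / 2 - 0.03 - 0.86 * (1 / t)) := by
    have e1 : t * (Real.log N / 2) ≤ t * (Real.log t / 2) + (N - t) / 2 := by
      have := mul_le_mul_of_nonneg_left hlogNt ht0.le
      have e2 : t * (N / t - 1) = N - t := by field_simp
      nlinarith only [this, e2]
    have e3 : N * (Real.log t / 2 - 0.03 - 0.86 * (1 / t)) - (t * (Real.log t / 2) + (N - t) / 2 -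
        0.03 * t - 0.86 * (t * (1 / N))) =
        (N - t) * (Real.log t / 2 - 0.53 - 0.86 * (1 / t + 1 / N)) := by
      field_simp
      ring
    have e4 : 1 / t ≤ 0.1301 := by
      rw [div_le_iff₀ ht0]; linarith only [hv0, hvv, hv13, ht7]
    have e5 : 1 / N ≤ 0.1301 := by
      rw [div_le_iff₀ hN0]; linarith only [hv0, hvv, hv13, htN, ht7]
    have e6 : 0 ≤ (N - t) * (Real.log t / 2 - 0.53 - 0.86 * (1 / t + 1 / N)) := by
      apply mul_nonneg (by linarith only [htN])
      linarith only [hv0, hvv, hv13, hlogt, e4, e5]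
    nlinarith only [e1, e3, e6]
  have f1 : Real.log N / 2 - 0.03 - 0.86 * (1 / N) = phi v0 := by
    unfold phi; rw [← hN]; rw [hN, one_div_one_div]
  have f2 : Real.log t / 2 - 0.03 - 0.86 * (1 / t) = phi v := by
    unfold phi; rw [← ht]; rw [ht, one_div_one_div]
  rw [f1, f2] at hphi
  have h3 := mul_le_mul_of_nonneg_left hphi (mul_nonneg hv0.le hv.le)
  have h4 : v0 * v * (t * phi v0) = v0 * phi v0 := by rw [ht]; field_simp
  have h5 : v0 * v * (N * phi v) = v * phi v := by rw [hN]; field_simp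
  linarith only [h3, h4, h5]

lemma phi_pos {v : ℝ} (hv : 0 < v) (hv13 : v ≤ 0.13) : 0 < phi v := by
  have h7 : 7.69 ≤ 1 / v := by
    rw [le_div_iff₀ hv]
    norm_num at hv13 ⊢
    linarith
  have := log_ge_two_of h7
  unfold phi
  linarith only [hv, hv13, this]

/-- The weighted comparison, extended-real form. -/
lemma even_weighted {r : ℕ → ℝ} (hr : ∀ m, 0 ≤ r m) (hr0 : r 0 = 0) (hr1 : r 1 = 1)
    {x d κ v1 : ℝ} (hx : 0 < x) (hd : 0 < d) (hd4 : d < 1 / 4) (hκ : 0 < κ) (hv1 : v1 ≤ 0.13)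
    {Hf Gf : ℝ → ℝ≥0∞}
    (hH : ∀ v, 0 < v → v ≤ v1 → Hf v ≤ ENNReal.ofReal (π ^ 2 / (24 * v)))
    (hG : ∀ v, 0 < v → v ≤ v1 → ENNReal.ofReal (phi v) ≤ Gf v)
    (hbig : ∀ v, v1 ≤ v → Hf v ≤ ENNReal.ofReal 4 * Gf v)
    (hsum : ∑' m : ℕ, ENNReal.ofReal (r m) * Gf ((m : ℝ) / x) ≤ ENNReal.ofReal κ)
    {n : ℕ} (hn : 1 ≤ n) (hn' : v1 ≤ 1 / x ∨ (n : ℝ) / x ≤ v1)
    (hyp : v1 ≤ 1 / x ∨ d * (π ^ 2 / 12 * x * ∑ m ∈ Finset.Icc 1 n, r m / m) ≤
      ∑ m ∈ Finset.Icc 1 n, r m * (Real.log (x / m) - 1 / 16 - 7 / 4 * (m / x))) :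
    ENNReal.ofReal d * ∑' m : ℕ, ENNReal.ofReal (r m) * Hf ((m : ℝ) / x) < ENNReal.ofReal κ := by
  have hbig' : ∀ m : ℕ, v1 ≤ (m : ℝ) / x →
      ENNReal.ofReal d * (ENNReal.ofReal (r m) * Hf ((m : ℝ) / x)) ≤
        ENNReal.ofReal (4 * d) * (ENNReal.ofReal (r m) * Gf ((m : ℝ) / x)) := by
    intro m hv
    have h1 := hbig _ hv
    have e : ENNReal.ofReal (4 * d) = ENNReal.ofReal d * ENNReal.ofReal 4 := by
      rw [mul_comm, ENNReal.ofReal_mul hd.le]
    calc ENNReal.ofReal d * (ENNReal.ofReal (r m) * Hf ((m : ℝ) / x))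
        ≤ ENNReal.ofReal d * (ENNReal.ofReal (r m) *
          (ENNReal.ofReal 4 * Gf ((m : ℝ) / x))) := by gcongr
      _ = _ := by rw [e]; ring
  rcases le_or_gt v1 (1 / x) with hA | hA
  · have h1 : ENNReal.ofReal d * ∑' m : ℕ, ENNReal.ofReal (r m) * Hf ((m : ℝ) / x) ≤
        ENNReal.ofReal (4 * d) * ∑' m : ℕ, ENNReal.ofReal (r m) * Gf ((m : ℝ) / x) := by
      rw [← ENNReal.tsum_mul_left, ← ENNReal.tsum_mul_left]
      refine ENNReal.tsum_le_tsum fun m => ?_
      rcases Nat.eq_zero_or_pos m with rfl | hm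
      · simp [hr0]
      · apply hbig' m
        refine hA.trans ?_
        have : (1 : ℝ) ≤ m := by exact_mod_cast hm
        gcongr
    calc ENNReal.ofReal d * ∑' m : ℕ, ENNReal.ofReal (r m) * Hf ((m : ℝ) / x)
        ≤ ENNReal.ofReal (4 * d) * ENNReal.ofReal κ := h1.trans (by gcongr)
      _ = ENNReal.ofReal (4 * d * κ) := by rw [← ENNReal.ofReal_mul (by positivity)]
      _ < ENNReal.ofReal κ := by
          apply (ENNReal.ofReal_lt_ofReal_iff hκ).mpr
          nlinarith only [hd4, hκ]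
  · have hnx : (n : ℝ) / x ≤ v1 := by
      rcases hn' with h | h
      · exact absurd hA (not_lt.mpr h)
      · exact h
    have hyp' := hyp.resolve_left (not_le.mpr hA)
    have hne : ∀ m ∈ Finset.Icc 1 n, (0 : ℝ) < m := by
      intro m hm
      have := (Finset.mem_Icc.mp hm).1
      exact_mod_cast this
    have hsm : ∀ m ∈ Finset.Icc 1 n, (m : ℝ) / x ≤ v1 := by
      intro m hm
      have h1 : (m : ℝ) ≤ n := by exact_mod_cast (Finset.mem_Icc.mp hm).2
      refine le_trans ?_ hnx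
      gcongr
    have hphi : ∀ m ∈ Finset.Icc 1 n, (Real.log (x / m) - 1 / 16 - 7 / 4 * (m / x)) / 2 <
        phi ((m : ℝ) / x) := by
      intro m hm
      unfold phi
      rw [one_div_div]
      have := hne m hm
      have : 0 < (m : ℝ) / x := by positivity
      linarith only [hd, hd4, this]
    -- head
    have hhead : ENNReal.ofReal d * ∑ m ∈ Finset.Icc 1 n,
        ENNReal.ofReal (r m) * Hf ((m : ℝ) / x) <
        ∑ m ∈ Finset.Icc 1 n, ENNReal.ofReal (r m) * Gf ((m : ℝ) / x) := by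
      have h1 : ∑ m ∈ Finset.Icc 1 n, ENNReal.ofReal (r m) * Hf ((m : ℝ) / x) ≤
          ENNReal.ofReal (π ^ 2 / 24 * x * ∑ m ∈ Finset.Icc 1 n, r m / m) := by
        rw [Finset.mul_sum, ENNReal.ofReal_sum_of_nonneg (fun m hm => by
          have := hne m hm; have := hr m; positivity)]
        refine Finset.sum_le_sum fun m hm => ?_
        have hm0 := hne m hm
        have h2 := hH _ (by positivity) (hsm m hm)
        calc ENNReal.ofReal (r m) * Hf ((m : ℝ) / x)
            ≤ ENNReal.ofReal (r m) * ENNReal.ofReal (π ^ 2 / (24 * (m / x))) := by gcongr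
          _ = ENNReal.ofReal (r m * (π ^ 2 / (24 * (m / x)))) := by
              rw [ENNReal.ofReal_mul (hr m)]
          _ = _ := by
              congr 1
              field_simp
      have h3 : ENNReal.ofReal (∑ m ∈ Finset.Icc 1 n, r m * phi ((m : ℝ) / x)) ≤
          ∑ m ∈ Finset.Icc 1 n, ENNReal.ofReal (r m) * Gf ((m : ℝ) / x) := by
        rw [ENNReal.ofReal_sum_of_nonneg (fun m hm => mul_nonneg (hr m)
          (phi_pos (by have := hne m hm; positivity) ((hsm m hm).trans hv1)).le)]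
        refine Finset.sum_le_sum fun m hm => ?_
        have hm0 := hne m hm
        rw [ENNReal.ofReal_mul (hr m)]
        have h2 := hG _ (by positivity : 0 < (m : ℝ) / x) (hsm m hm)
        gcongr
      refine lt_of_lt_of_le ?_ h3
      refine lt_of_le_of_lt (mul_le_mul_right h1 _) ?_
      rw [← ENNReal.ofReal_mul hd.le]
      have h4 : (∑ m ∈ Finset.Icc 1 n, r m *
          (Real.log (x / m) - 1 / 16 - 7 / 4 * (m / x))) / 2 <
          ∑ m ∈ Finset.Icc 1 n, r m * phi ((m : ℝ) / x) := by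
        rw [Finset.sum_div]
        apply Finset.sum_lt_sum
        · intro m hm
          have := mul_le_mul_of_nonneg_left (hphi m hm).le (hr m)
          linarith only [this]
        · refine ⟨1, Finset.mem_Icc.mpr ⟨le_refl 1, hn⟩, ?_⟩
          have := hphi 1 (Finset.mem_Icc.mpr ⟨le_refl 1, hn⟩)
          rw [hr1, one_mul, one_mul]
          exact this
      have h5 : d * (π ^ 2 / 24 * x * ∑ m ∈ Finset.Icc 1 n, r m / m) =
          (d * (π ^ 2 / 12 * x * ∑ m ∈ Finset.Icc 1 n, r m / m)) / 2 := by ring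
      have h6 : d * (π ^ 2 / 24 * x * ∑ m ∈ Finset.Icc 1 n, r m / m) <
          ∑ m ∈ Finset.Icc 1 n, r m * phi ((m : ℝ) / x) := by
        rw [h5]; linarith only [hyp', h4]
      apply (ENNReal.ofReal_lt_ofReal_iff _).mpr h6
      refine lt_of_le_of_lt ?_ h6
      have : 0 ≤ ∑ m ∈ Finset.Icc 1 n, r m / m :=
        Finset.sum_nonneg fun m hm => div_nonneg (hr m) (hne m hm).le
      (clear * - hd hx this; positivity)
    -- a good index
    have hex : ∃ m0 ∈ Finset.Icc 1 n, d * (π ^ 2 / 24) ≤ (m0 : ℝ) / x * phi ((m0 : ℝ) / x) := by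
      by_contra hcon
      push Not at hcon
      have h1 : ∀ m ∈ Finset.Icc 1 n, Real.log (x / m) - 1 / 16 - 7 / 4 * (m / x) <
          d * (π ^ 2 / 12 * x * (1 / m)) := by
        intro m hm
        have hm0 := hne m hm
        have h2 := hcon m hm
        have h3 := hphi m hm
        have h4 : phi ((m : ℝ) / x) < d * (π ^ 2 / 24) / ((m : ℝ) / x) := by
          rw [lt_div_iff₀ (by positivity)]
          linarith only [h2]
        have h5 : d * (π ^ 2 / 24) / ((m : ℝ) / x) = d * (π ^ 2 / 12 * x * (1 / m)) / 2 := by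
          field_simp
          ring
        linarith only [h3, h4, h5]
      have h2 : ∑ m ∈ Finset.Icc 1 n, r m * (Real.log (x / m) - 1 / 16 - 7 / 4 * (m / x)) <
          ∑ m ∈ Finset.Icc 1 n, r m * (d * (π ^ 2 / 12 * x * (1 / m))) := by
        apply Finset.sum_lt_sum
        · intro m hm
          exact mul_le_mul_of_nonneg_left (h1 m hm).le (hr m)
        · refine ⟨1, Finset.mem_Icc.mpr ⟨le_refl 1, hn⟩, ?_⟩
          rw [hr1, one_mul, one_mul]
          exact h1 1 (Finset.mem_Icc.mpr ⟨le_refl 1, hn⟩)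
      have h3 : d * (π ^ 2 / 12 * x * ∑ m ∈ Finset.Icc 1 n, r m / m) =
          ∑ m ∈ Finset.Icc 1 n, r m * (d * (π ^ 2 / 12 * x * (1 / m))) := by
        rw [Finset.mul_sum, Finset.mul_sum]
        exact Finset.sum_congr rfl fun m _ => by ring
      linarith only [hyp', h2, h3]
    obtain ⟨m0, hm0, hgood⟩ := hex
    have hm00 := hne m0 hm0
    have htail : ∀ m : ℕ, n < m → ENNReal.ofReal d * (ENNReal.ofReal (r m) * Hf ((m : ℝ) / x)) ≤
        ENNReal.ofReal (r m) * Gf ((m : ℝ) / x) := by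
      intro m hm
      have hmpos : (0 : ℝ) < m := by
        have : 0 < m := by omega
        exact_mod_cast this
      rcases le_total v1 ((m : ℝ) / x) with h | h
      · refine (hbig' m h).trans ?_
        calc ENNReal.ofReal (4 * d) * (ENNReal.ofReal (r m) * Gf ((m : ℝ) / x))
            ≤ 1 * (ENNReal.ofReal (r m) * Gf ((m : ℝ) / x)) := by
              gcongr
              rw [← ENNReal.ofReal_one]
              apply ENNReal.ofReal_le_ofReal
              linarith only [hd4]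
          _ = _ := one_mul _
      · have hv : 0 < (m : ℝ) / x := by positivity
        have hv0 : 0 < (m0 : ℝ) / x := by positivity
        have hmm : (m0 : ℝ) ≤ m := by
          have := (Finset.mem_Icc.mp hm0).2
          exact_mod_cast this.trans hm.le
        have hvv : (m0 : ℝ) / x ≤ (m : ℝ) / x := div_le_div_of_nonneg_right hmm hx.le
        have h1 := mul_phi_mono hv0 hvv (h.trans hv1)
        have h2 := hH _ hv h
        have h3 := hG _ hv h
        have h4 : d * (π ^ 2 / (24 * (m / x))) ≤ phi ((m : ℝ) / x) := by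
          have e : d * (π ^ 2 / (24 * (m / x))) = d * (π ^ 2 / 24) / (m / x) := by
            field_simp
          rw [e, div_le_iff₀ hv]
          linarith only [hgood, h1]
        have h5 : ENNReal.ofReal d * Hf ((m : ℝ) / x) ≤ Gf ((m : ℝ) / x) := by
          refine le_trans ?_ h3
          refine (mul_le_mul_right h2 _).trans ?_
          rw [← ENNReal.ofReal_mul hd.le]
          exact ENNReal.ofReal_le_ofReal h4
        calc ENNReal.ofReal d * (ENNReal.ofReal (r m) * Hf ((m : ℝ) / x))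
            = ENNReal.ofReal (r m) * (ENNReal.ofReal d * Hf ((m : ℝ) / x)) := by ring
          _ ≤ _ := by gcongr
    have hsplit : ∀ F : ℕ → ℝ≥0∞, F 0 = 0 →
        ∑' m : ℕ, F m = ∑ m ∈ Finset.Icc 1 n, F m + ∑' m : ℕ, F (m + (n + 1)) := by
      intro F hF0
      rw [← Summable.sum_add_tsum_nat_add' (k := n + 1) ENNReal.summable]
      congr 1
      rw [Finset.sum_range_succ', hF0, add_zero, Finset.range_eq_Ico, Finset.sum_Ico_add' F 0 n 1,
        zero_add]
      rfl
    rw [hsplit _ (by simp [hr0])] at hsum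
    rw [hsplit _ (by simp [hr0]), mul_add]
    refine lt_of_lt_of_le ?_ hsum
    have htl : ENNReal.ofReal d * ∑' m : ℕ, ENNReal.ofReal (r (m + (n + 1))) *
        Hf (((m + (n + 1) : ℕ) : ℝ) / x) ≤ ∑' m : ℕ, ENNReal.ofReal (r (m + (n + 1))) *
        Gf (((m + (n + 1) : ℕ) : ℝ) / x) := by
      rw [← ENNReal.tsum_mul_left]
      exact ENNReal.tsum_le_tsum fun m => htail _ (by omega)
    refine ENNReal.add_lt_add_of_lt_of_le ?_ hhead htl
    refine ne_top_of_le_ne_top ENNReal.ofReal_ne_top (htl.trans (le_trans ?_ hsum))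
    exact le_add_self

/-- Assembly for root number `+1`, weighted form. -/
theorem assembly_pos_weighted {rs : ℕ → ℝ} {N κ s : ℝ} (hN0 : 0 < N) (hrs : ∀ m, 0 ≤ rs m)
    (hrs0 : rs 0 = 0) (hrs1 : rs 1 = 1) (hκ : 0 < κ) (hs0 : 1 / 2 < s) (hs1 : s < 1)
    {n : ℕ} (hn : 1 ≤ n) (hn' : n = 1 ∨ 20 * (n : ℝ) ≤ N)
    (hyp : N ≤ 7.69 ∨ s * (1 - s) * (π ^ 2 / 12 * N * ∑ m ∈ Finset.Icc 1 n, rs m / m) ≤
      ∑ m ∈ Finset.Icc 1 n, rs m * (Real.log (N / m) - 1 / 16 - 7 / 4 * (m / N)))
    (hfin : ∀ u : ℝ, 0 < u → PsiI rs N u ≠ ∞)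
    (hid : ∀ u : ℝ, 1 < u → PsiI rs N (1 / u) =
      ENNReal.ofReal u * PsiI rs N u + ENNReal.ofReal (κ * (u - 1))) :
    ∫⁻ u in Ioi (1 : ℝ), PsiI rs N u * ENNReal.ofReal (u ^ (s - 1) + u ^ (-s)) <
      ENNReal.ofReal (κ * (1 / (1 - s) + 1 / s)) := by
  have hδ0 : 0 < 1 - s := by linarith
  have hs0' : 0 < s := by linarith
  set d := s * (1 - s) with hd
  have hd0 : 0 < d := mul_pos hs0' hδ0
  have hd4 : d < 1 / 4 := by
    rw [hd]; nlinarith only [hs0]
  have hsum := sum_EI_le hN0 hrs0 hfin hid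
  set T := ∑' m : ℕ, ENNReal.ofReal (rs m) * HK ((m : ℝ) / N) with hT
  have h1 : ∫⁻ u in Ioi (1 : ℝ), PsiI rs N u * ENNReal.ofReal (u ^ (s - 1) + u ^ (-s)) ≤ T := by
    have h2 : ∫⁻ u in Ioi (1 : ℝ), PsiI rs N u * ENNReal.ofReal (u ^ (s - 1) + u ^ (-s)) ≤
        ∫⁻ u in Ioi (1 : ℝ), ∑' m : ℕ, ENNReal.ofReal (rs m) *
          (OmI ((m : ℝ) / N * u) * ENNReal.ofReal (1 + 1 / u)) := by
      refine setLIntegral_mono' measurableSet_Ioi fun u hu => ?_
      have hu1 : 1 < u := hu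
      simp_rw [← mul_assoc]
      rw [ENNReal.tsum_mul_right]
      unfold PsiI
      exact mul_le_mul_right (ENNReal.ofReal_le_ofReal (rpow_add_le hs0 hs1 hu1.le)) _
    refine h2.trans ?_
    rw [lintegral_tsum (fun m => ((measurable_OmI_term _
      (by fun_prop : Measurable fun u : ℝ => 1 + 1 / u)).const_mul _).aemeasurable)]
    rw [hT]
    refine ENNReal.tsum_le_tsum fun m => ?_
    rw [lintegral_const_mul' _ _ ENNReal.ofReal_ne_top]
    rcases Nat.eq_zero_or_pos m with hm | hm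
    · subst hm; rw [hrs0]; simp
    · have hy : 0 < (m : ℝ) / N := by
        have : (0 : ℝ) < m := Nat.cast_pos.mpr hm
        positivity
      rw [lintegral_OmI_HK _ hy]
  have h3 : ENNReal.ofReal d * T < ENNReal.ofReal κ := by
    refine even_weighted (v1 := 0.13) hrs hrs0 hrs1 hN0 hd0 hd4 hκ le_rfl
      (fun v hv _ => HK_le hv) (fun v hv hv' => EI_ge hv hv') (fun v hv => HK_le_EI hv) hsum hn
      ?_ ?_
    · rcases le_or_gt 0.13 (1 / N) with h | h
      · exact Or.inl h
      · right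
        rcases hn' with rfl | h20
        · simpa using h.le
        · rw [div_le_iff₀ hN0]
          norm_num
          linarith
    · rcases hyp with h | h
      · left
        rw [le_div_iff₀ hN0]
        norm_num at h ⊢
        linarith only [hd0, hd4, h]
      · exact Or.inr h
  have h4 : κ * (1 / (1 - s) + 1 / s) = κ / d := by
    have h5 : (1 - s) ≠ 0 := hδ0.ne'
    have h6 : s ≠ 0 := hs0'.ne'
    rw [hd]
    field_simp
    ring
  rw [h4, ENNReal.ofReal_div_of_pos hd0]
  refine lt_of_le_of_lt h1 ?_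
  rw [ENNReal.lt_div_iff_mul_lt (Or.inl (ENNReal.ofReal_pos.mpr hd0).ne')
    (Or.inl ENNReal.ofReal_ne_top), mul_comm]
  exact h3

/-- Assembly for root number `-1`, weighted form. -/
theorem assembly_neg_weighted {rs : ℕ → ℝ} {N κ s : ℝ} (hN0 : 0 < N) (hrs : ∀ m, 0 ≤ rs m)
    (hrs0 : rs 0 = 0) (hrs1 : rs 1 = 1) (hκ : 0 < κ) (hs0 : 1 / 2 < s) (hs1 : s < 1)
    {n : ℕ} (hn : 1 ≤ n) (hn' : n = 1 ∨ 20 * (n : ℝ) ≤ N)
    (hyp : N ≤ 7.69 ∨ s * (1 - s) * (π ^ 2 / 12 * N * ∑ m ∈ Finset.Icc 1 n, rs m / m) ≤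
      ∑ m ∈ Finset.Icc 1 n, rs m * (Real.log (N / m) - 1 / 16 - 7 / 4 * (m / N)))
    (hid : PsiI rs N 1 = ENNReal.ofReal κ) :
    ∫⁻ u in Ioi (1 : ℝ), PsiI rs N u * ENNReal.ofReal (u ^ (s - 1) - u ^ (-s)) <
      ENNReal.ofReal (κ * (1 / (1 - s) - 1 / s)) := by
  have hδ0 : 0 < 1 - s := by linarith
  have hs0' : 0 < s := by linarith
  set d := s * (1 - s) with hd
  have hd0 : 0 < d := mul_pos hs0' hδ0
  have hd4 : d < 1 / 4 := by
    rw [hd]; nlinarith only [hs0]
  set T := ∑' m : ℕ, ENNReal.ofReal (rs m) * JK ((m : ℝ) / N) with hT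
  have h1 : ∫⁻ u in Ioi (1 : ℝ), PsiI rs N u * ENNReal.ofReal (u ^ (s - 1) - u ^ (-s)) ≤
      ENNReal.ofReal (2 * s - 1) * T := by
    have h2 : ∫⁻ u in Ioi (1 : ℝ), PsiI rs N u * ENNReal.ofReal (u ^ (s - 1) - u ^ (-s)) ≤
        ∫⁻ u in Ioi (1 : ℝ), ENNReal.ofReal (2 * s - 1) * ∑' m : ℕ, ENNReal.ofReal (rs m) *
          (OmI ((m : ℝ) / N * u) * ENNReal.ofReal (1 - 1 / u)) := by
      refine setLIntegral_mono' measurableSet_Ioi fun u hu => ?_
      have hu1 : 1 < u := hu
      have h3 := rpow_sub_le hs0 hs1 hu1.le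
      calc PsiI rs N u * ENNReal.ofReal (u ^ (s - 1) - u ^ (-s))
          ≤ PsiI rs N u * ENNReal.ofReal ((2 * s - 1) * (1 - 1 / u)) := by gcongr
        _ = ENNReal.ofReal (2 * s - 1) * (PsiI rs N u * ENNReal.ofReal (1 - 1 / u)) := by
            rw [ENNReal.ofReal_mul (by linarith : 0 ≤ 2 * s - 1)]; ring
        _ = _ := by
            simp_rw [← mul_assoc]
            rw [ENNReal.tsum_mul_right]
            unfold PsiI
            ring
    refine h2.trans ?_
    rw [lintegral_const_mul' _ _ ENNReal.ofReal_ne_top]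
    gcongr
    rw [lintegral_tsum (fun m => ((measurable_OmI_term _
      (by fun_prop : Measurable fun u : ℝ => 1 - 1 / u)).const_mul _).aemeasurable)]
    rw [hT]
    refine ENNReal.tsum_le_tsum fun m => ?_
    rw [lintegral_const_mul' _ _ ENNReal.ofReal_ne_top]
    rcases Nat.eq_zero_or_pos m with hm | hm
    · subst hm; rw [hrs0]; simp
    · have hy : 0 < (m : ℝ) / N := by
        have : (0 : ℝ) < m := Nat.cast_pos.mpr hm
        positivity
      rw [lintegral_OmI_JK _ hy]
  have h3 : ENNReal.ofReal d * T < ENNReal.ofReal κ := by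
    refine even_weighted (v1 := 1 / 20) (Gf := OmI) hrs hrs0 hrs1 hN0 hd0 hd4 hκ (by norm_num)
      (fun v hv _ => JK_le hv) (fun v hv hv' => OmI_ge hv hv') (fun v hv => JK_le_OmI hv) ?_ hn
      ?_ ?_
    · rw [← hid]
      unfold PsiI
      refine le_of_eq (tsum_congr fun m => ?_)
      rw [mul_one]
    · rcases le_or_gt (1 / 20) (1 / N) with h | h
      · exact Or.inl h
      · right
        rcases hn' with rfl | h20
        · simpa using h.le
        · rw [div_le_iff₀ hN0]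
          linarith only [h20]
    · rcases hyp with h | h
      · left
        rw [le_div_iff₀ hN0]
        norm_num at h ⊢
        linarith
      · exact Or.inr h
  have h4 : κ * (1 / (1 - s) - 1 / s) = (2 * s - 1) * κ / d := by
    have h5 : (1 - s) ≠ 0 := hδ0.ne'
    have h6 : s ≠ 0 := hs0'.ne'
    rw [hd]
    field_simp
    ring
  rw [h4, ENNReal.ofReal_div_of_pos hd0]
  refine lt_of_le_of_lt h1 ?_
  rw [ENNReal.lt_div_iff_mul_lt (Or.inl (ENNReal.ofReal_pos.mpr hd0).ne')
    (Or.inl ENNReal.ofReal_ne_top)]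
  have h2s : 0 < 2 * s - 1 := by linarith
  calc ENNReal.ofReal (2 * s - 1) * T * ENNReal.ofReal d
      = ENNReal.ofReal (2 * s - 1) * (ENNReal.ofReal d * T) := by ring
    _ < ENNReal.ofReal (2 * s - 1) * ENNReal.ofReal κ := by
        have hne : ENNReal.ofReal (2 * s - 1) ≠ 0 := (ENNReal.ofReal_pos.mpr h2s).ne'
        exact ENNReal.mul_lt_mul_right hne ENNReal.ofReal_ne_top h3
    _ = ENNReal.ofReal ((2 * s - 1) * κ) := by
        rw [← ENNReal.ofReal_mul (by linarith : 0 ≤ 2 * s - 1)]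

section even

open DirichletCharacter

variable {q : ℕ} [NeZero q] (χ : DirichletCharacter ℂ q)

/-- Positivity of the completed integral for even characters, weighted form. -/
theorem even_integral_pos_weighted (hχ : χ.IsPrimitive) (hq1 : q ≠ 1) (h2 : χ ^ 2 = 1)
    (he : χ.Even) (hκ : 0 < kap (gth χ)) {s : ℝ} (hs0 : 1 / 2 < s) (hs1 : s < 1) {n : ℕ}
    (hn : 1 ≤ n) (hn' : n = 1 ∨ 20 * (n : ℝ) ≤ √(q : ℝ))
    (hyp : √(q : ℝ) ≤ 7.69 ∨ s * (1 - s) * (π ^ 2 / 12 * √(q : ℝ) *
        ∑ m ∈ Finset.Icc 1 n, rstar χ m / m) ≤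
      ∑ m ∈ Finset.Icc 1 n, rstar χ m *
        (Real.log (√(q : ℝ) / m) - 1 / 16 - 7 / 4 * (m / √(q : ℝ)))) :
    0 < ∫ t : ℝ, rexp ((s - 1 / 2) * t) * gth χ t := by
  obtain ⟨W, hW, hfe⟩ := gth_fe χ hχ hq1 h2
  have hrep := rep_gth χ hq1 h2
  have hq : (0 : ℝ) < q := by exact_mod_cast NeZero.pos q
  set N := √(q : ℝ) with hNdef
  have hN0 : 0 < N := sqrt_pos.mpr hq
  set z := s - 1 / 2 with hz
  have hz0 : 0 < z := by rw [hz]; linarith
  have hz2 : z < 1 / 2 := by rw [hz]; linarith only [hs1]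
  have hzabs : |z| < 1 / 2 := by rw [abs_of_pos hz0]; exact hz2
  have hsz : s = z + 1 / 2 := by rw [hz]; ring
  have hmach := machine_id hrep hW hfe hzabs
  have hneg := integral_exp_lam_neg hzabs
  have hmeas : Measurable (cv omt (gth χ)) := (rep_omt.conv hrep).measurable
  have hCw : ∀ t : ℝ, 0 < t → 0 ≤ Cw W z t := by
    intro t ht
    unfold Cw
    have h1 : rexp (-(z * t)) ≤ rexp (z * t) := by
      apply exp_le_exp.mpr
      have := mul_pos hz0 ht
      linarith only [this]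
    have h3 := exp_pos (-(z * t))
    rcases hW with rfl | rfl <;> linarith only [h1, h3]
  have hψ : ∀ t : ℝ, 0 ≤ cv omt (gth χ) t := by
    intro t
    have h1 := PR_nonneg χ hq1 h2 he (exp_pos t)
    unfold PR at h1
    rw [log_exp] at h1
    exact nonneg_of_mul_nonneg_right h1 (exp_pos _)
  have hfin : ∀ u : ℝ, 0 < u → PsiI (rstar χ) N u ≠ ∞ := by
    intro u hu
    rw [PsiI_eq_PR χ hq1 h2 he hu]
    exact ENNReal.ofReal_ne_top
  have hchange := lintegral_change χ hCw
  rw [← hsz] at hchange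
  have hkey : ∫⁻ t in Ioi (0 : ℝ), ENNReal.ofReal (Cw W z t * cv omt (gth χ) t) <
      ENNReal.ofReal (kap (gth χ) * Aw W z) := by
    rw [← hchange]
    have hAw : Aw W z = 1 / (1 - s) + W / s := by
      unfold Aw
      rw [hsz]
      congr 2
      · ring
      · ring
    rw [hAw]
    have hcongr : ∫⁻ u in Ioi (1 : ℝ), ENNReal.ofReal (PR χ u) *
        ENNReal.ofReal (u ^ (s - 1) + W * u ^ (-s)) =
        ∫⁻ u in Ioi (1 : ℝ), PsiI (rstar χ) N u *
        ENNReal.ofReal (u ^ (s - 1) + W * u ^ (-s)) := by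
      refine setLIntegral_congr_fun measurableSet_Ioi fun u hu => ?_
      have hu0 : (0 : ℝ) < u := lt_trans zero_lt_one hu
      simp only [PsiI_eq_PR χ hq1 h2 he hu0, hNdef]
    rw [hcongr]
    rcases hW with rfl | rfl
    · have hasm := assembly_pos_weighted (rs := rstar χ) (κ := kap (gth χ)) hN0
        (rstar_nonneg h2) (by simp) (rstar_one χ) hκ hs0 hs1 hn hn' hyp hfin (by
          intro u hu
          have hu0 : 0 < u := by linarith only [hu]
          rw [PsiI_eq_PR χ hq1 h2 he hu0, PsiI_eq_PR χ hq1 h2 he (by positivity : 0 < 1 / u),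
            PR_fe χ hq1 h2 (Or.inl rfl) hfe hu0, one_mul, ENNReal.ofReal_add
              (mul_nonneg hu0.le (PR_nonneg χ hq1 h2 he hu0))
              (mul_nonneg hκ.le (by linarith only [hu])), ENNReal.ofReal_mul hu0.le])
      simpa only [one_mul] using hasm
    · have hPR1 : PR χ 1 = kap (gth χ) := by
        have := PR_fe χ hq1 h2 (Or.inr rfl) hfe one_pos
        rw [div_one] at this
        linarith
      have hasm := assembly_neg_weighted (rs := rstar χ) (κ := kap (gth χ)) hN0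
        (rstar_nonneg h2) (by simp) (rstar_one χ) hκ hs0 hs1 hn hn' hyp
        (by rw [PsiI_eq_PR χ hq1 h2 he one_pos, hPR1])
      have e1 : ∀ u : ℝ, u ^ (s - 1) + -1 * u ^ (-s) = u ^ (s - 1) - u ^ (-s) := by
        intro u; ring
      have e2 : 1 / (1 - s) + -1 / s = 1 / (1 - s) - 1 / s := by ring
      simp_rw [e1, e2]
      exact hasm
  have hint : ∫ t in Ioi (0 : ℝ), Cw W z t * cv omt (gth χ) t < kap (gth χ) * Aw W z := by
    rw [integral_eq_lintegral_of_nonneg_ae]
    · exact (ENNReal.toReal_lt_of_lt_ofReal hkey)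
    · filter_upwards [ae_restrict_mem measurableSet_Ioi] with t ht
      exact mul_nonneg (hCw t ht) (hψ t)
    · apply Measurable.aestronglyMeasurable
      apply Measurable.mul _ hmeas
      unfold Cw
      fun_prop
  have hprod : (∫ t, rexp (z * t) * lam t) * ∫ t, rexp (z * t) * gth χ t < 0 := by
    rw [hmach]; linarith
  by_contra hcon
  have := mul_nonneg_of_nonpos_of_nonpos hneg.le (not_lt.mp hcon)
  linarith

end even

end Pool.Agent.MP0016c7
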