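import Mathlib
import Pool.Agent.Lib.MP_0016c7_nt.FekPos
import Pool.Agent.Lib.MP_0016c7_nt.FekPos2

open Real Set MeasureTheory Filter Topology

namespace Pool.Agent.MP0016c7.Ros

open DirichletCharacter

variable {N : ℕ} [NeZero N] {χ : DirichletCharacter ℂ N}

lemma Mi_eq_GG {κ : ℕ} (hid : ∀ s : ℂ, -(κ : ℝ) < s.re → mellin (fC χ) s = GG χ κ s) {s : ℝ}
    (hs : -(κ : ℝ) < s) : ((Mi χ s : ℝ) : ℂ) = GG χ κ s := by
  rw [← hid s (by simpa using hs), mellin_fC_real]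
  rfl

/-- consequences of the identity for the Mellin transform -/
lemma data_of_id (hχ : χ.IsPrimitive) (hne : χ ≠ 1) (h2 : χ ^ 2 = 1)
    (hL : ∀ s : ℝ, 0 < s → s < 1 → 0 < Lr χ s) {κ : ℕ} (hκ : κ ≤ 1) {B : Polynomial ℝ}
    (hB : Ap χ = (1 - Polynomial.X) ^ κ * B)
    (hid : ∀ s : ℂ, -(κ : ℝ) < s.re → mellin (fC χ) s = GG χ κ s) :
    0 < qB N B 1 ∧ ∀ s : ℝ, -(κ : ℝ) < s → 0 < Mi χ s := by
  constructor
  · have h1 := Mi_residue hκ hB
    have h3 := GG_residue hne κ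
    have h4 : Tendsto (fun s : ℝ => (((s + κ) * Mi χ s : ℝ) : ℂ)) (𝓝[>] (-(κ : ℝ)))
        (𝓝 ((qB N B 1 : ℝ) : ℂ)) := (Complex.continuous_ofReal.tendsto _).comp h1
    have h5 : Tendsto (fun s : ℝ => (((s + κ) * Mi χ s : ℝ) : ℂ)) (𝓝[>] (-(κ : ℝ)))
        (𝓝 ((2 * π : ℂ) ^ (-(κ : ℂ)) * completedLFunction χ (-(κ : ℂ)))) := by
      refine h3.congr' ?_
      filter_upwards [self_mem_nhdsWithin] with s hs
      rw [← Mi_eq_GG hid hs]
      push_cast
      rfl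
    have h6 := tendsto_nhds_unique h4 h5
    obtain ⟨v, hv, hv'⟩ := completed_pos hχ hne h2 hL (-(κ : ℝ))
    push_cast at hv'
    rw [hv'] at h6
    have h7 : (2 * π : ℂ) ^ (-(κ : ℂ)) * (v : ℂ) = (((2 * π) ^ (-(κ : ℝ)) * v : ℝ) : ℂ) := by
      push_cast
      rw [Complex.ofReal_cpow (by positivity)]
      push_cast
      rfl
    rw [h7] at h6
    have h8 : qB N B 1 = (2 * π) ^ (-(κ : ℝ)) * v := by exact_mod_cast h6
    rw [h8]
    positivity
  · intro s hs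
    obtain ⟨v, hv, hv'⟩ := GG_pos hχ hne h2 hL hs
    rw [← Mi_eq_GG hid hs] at hv'
    have : Mi χ s = v := by exact_mod_cast hv'
    rw [this]; exact hv

lemma qB_one_eq_zero_of_even (hne : χ ≠ 1) (h2 : χ ^ 2 = 1) (he : χ.Even) :
    (Ap χ).eval 1 = 0 := by
  have hB : Ap χ = (1 - Polynomial.X) ^ 0 * Ap χ := by rw [pow_zero, one_mul]
  have h1 := Mi_residue (by norm_num) hB
  simp only [Nat.cast_zero, neg_zero, add_zero] at h1
  have h3 : Tendsto (fun s : ℝ => ((s * Mi χ s : ℝ) : ℂ)) (𝓝[>] 0) (𝓝 0) := by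
    have h4 : Tendsto (fun s : ℝ => (s : ℂ) * GG χ 1 s) (𝓝 (0 : ℝ)) (𝓝 (((0 : ℝ) : ℂ) * GG χ 1 ((0 : ℝ) : ℂ))) := by
      apply Tendsto.mul (Complex.continuous_ofReal.tendsto _)
      have h5 : ContinuousAt (GG χ 1) ((0 : ℝ) : ℂ) :=
        (differentiableAt_GG hne (by norm_num)).continuousAt
      exact h5.tendsto.comp (Complex.continuous_ofReal.tendsto 0)
    rw [Complex.ofReal_zero, zero_mul] at h4
    refine (h4.mono_left nhdsWithin_le_nhds).congr' ?_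
    filter_upwards [self_mem_nhdsWithin] with s hs
    have hs' : (0 : ℝ) < s := hs
    have h6 := mellin_fC hne h2 (s := (s : ℂ)) (by simpa using hs')
    rw [GG_eq_even hne he (by simpa using hs'), mellin_fC_real] at h6
    rw [← h6]
    push_cast
    rfl
  have h4 : Tendsto (fun s : ℝ => ((s * Mi χ s : ℝ) : ℂ)) (𝓝[>] 0)
        (𝓝 ((qB N (Ap χ) 1 : ℝ) : ℂ)) := (Complex.continuous_ofReal.tendsto _).comp h1
  have h5 := tendsto_nhds_unique h4 h3
  have h6 : qB N (Ap χ) 1 = 0 := by exact_mod_cast h5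
  unfold qB at h6
  have hD := Dp_ge (N := N) (x := 1) zero_le_one
  rcases div_eq_zero_iff.mp h6 with h | h
  · exact h
  · linarith

/-- everything needed about the kernel -/
theorem fek_data (hχ : χ.IsPrimitive) (hne : χ ≠ 1) (h2 : χ ^ 2 = 1)
    (hL : ∀ s : ℝ, 0 < s → s < 1 → 0 < Lr χ s) :
    ∃ κ : ℕ, κ ≤ 1 ∧ ∃ B : Polynomial ℝ, Ap χ = (1 - Polynomial.X) ^ κ * B ∧ 0 < qB N B 1 ∧
      ∀ s : ℝ, -(κ : ℝ) < s → 0 < Mi χ s := by
  rcases χ.even_or_odd with he | ho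
  · obtain ⟨B', hB'⟩ := Polynomial.dvd_iff_isRoot.mpr (qB_one_eq_zero_of_even hne h2 he)
    have hB : Ap χ = (1 - Polynomial.X) ^ 1 * (-B') := by
      rw [hB', pow_one, Polynomial.C_1]; ring
    refine ⟨1, le_rfl, -B', hB, ?_⟩
    refine data_of_id hχ hne h2 hL le_rfl hB fun s hs => ?_
    refine eq_on_half (a := -1) (by norm_num) (F := mellin (fC χ)) (G := GG χ 1)
      (fun s hs => differentiableAt_mellin_fC hB (by simpa using hs))
      (fun s hs => differentiableAt_GG hne (by simpa using hs)) (fun s hs => ?_)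
      (by simpa using hs)
    rw [mellin_fC_of_one_lt hne h2 hs, GG_eq_even hne he (by linarith)]
  · have hB : Ap χ = (1 - Polynomial.X) ^ 0 * Ap χ := by rw [pow_zero, one_mul]
    refine ⟨0, by norm_num, Ap χ, hB, ?_⟩
    refine data_of_id hχ hne h2 hL (by norm_num) hB fun s hs => ?_
    have hs' : 0 < s.re := by simpa using hs
    rw [mellin_fC hne h2 hs', GG_eq_odd hne ho hs']

end Pool.Agent.MP0016c7.Ros
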