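import Mathlib
import Pool.Agent.Lib.MP_0016c7_nt.FekCut
import Pool.Agent.Lib.MP_0016c7_nt.RosAsm

open Real Set MeasureTheory Filter Topology

namespace Pool.Agent.MP0016c7.Ros

variable {N : ℕ} [NeZero N] {χ : DirichletCharacter ℂ N}

/-! ### The sieve identity for the power series -/

/-- sifted coefficients -/
noncomputable def aP (χ : DirichletCharacter ℂ N) (P : Finset ℕ) (n : ℕ) : ℝ :=
  if ∀ p ∈ P, ¬ p ∣ n then rchar χ n else 0

/-- sifted series -/
noncomputable def TP (χ : DirichletCharacter ℂ N) (P : Finset ℕ) (t : ℝ) : ℝ :=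
  ∑' n : ℕ, aP χ P n * rexp (-(n * t))

omit [NeZero N] in
lemma abs_aP_le (h2 : χ ^ 2 = 1) (P : Finset ℕ) (n : ℕ) : |aP χ P n| ≤ 1 := by
  unfold aP
  split_ifs
  · exact abs_rchar_le h2 n
  · simp

lemma summable_exp {t : ℝ} (ht : 0 < t) : Summable fun n : ℕ => rexp (-(n * t)) := by
  have h := summable_geometric_of_lt_one (exp_pos (-t)).le (by rw [exp_lt_one_iff]; linarith)
  refine h.congr fun n => ?_
  rw [← exp_nat_mul]
  congr 1
  ring

lemma summable_bdd {a : ℕ → ℝ} (ha : ∀ n, |a n| ≤ 1) {t : ℝ} (ht : 0 < t) :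
    Summable fun n : ℕ => a n * rexp (-(n * t)) := by
  refine Summable.of_norm_bounded (summable_exp ht) fun n => ?_
  rw [Real.norm_eq_abs, abs_mul, abs_of_pos (exp_pos _)]
  calc |a n| * rexp (-(n * t)) ≤ 1 * rexp (-(n * t)) :=
        mul_le_mul_of_nonneg_right (ha n) (exp_pos _).le
    _ = _ := one_mul _

omit [NeZero N] in
lemma TP_insert (h2 : χ ^ 2 = 1) {P : Finset ℕ} {q : ℕ} (hq : q.Prime) (hP : ∀ p ∈ P, p.Prime)
    (hqP : q ∉ P) (hin : rchar χ q = -1) {t : ℝ} (ht : 0 < t) :
    TP χ (insert q P) t = TP χ P t + TP χ P (t * q) := by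
  have hq0 : (0 : ℝ) < q := by exact_mod_cast hq.pos
  have s1 := summable_bdd (abs_aP_le (χ := χ) h2 P) ht
  have s2 := summable_bdd (abs_aP_le (χ := χ) h2 (insert q P)) ht
  have e1 : TP χ P t - TP χ (insert q P) t = ∑' n : ℕ,
      (if q ∣ n then aP χ P n * rexp (-(n * t)) else 0) := by
    unfold TP
    rw [← s1.tsum_sub s2]
    congr 1
    ext n
    unfold aP
    by_cases hd : q ∣ n
    · rw [if_pos hd]
      have : ¬ ∀ p ∈ insert q P, ¬ p ∣ n := fun h => h q (Finset.mem_insert_self q P) hd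
      rw [if_neg this, zero_mul, sub_zero]
    · rw [if_neg hd]
      have : (∀ p ∈ insert q P, ¬ p ∣ n) ↔ ∀ p ∈ P, ¬ p ∣ n := by
        constructor
        · intro h p hp
          exact h p (Finset.mem_insert_of_mem hp)
        · intro h p hp
          rcases Finset.mem_insert.mp hp with rfl | hp
          · exact hd
          · exact h p hp
      rw [if_congr this rfl rfl, sub_self]
  have hinj : Function.Injective (fun m : ℕ => q * m) := fun a b h =>
    Nat.eq_of_mul_eq_mul_left hq.pos h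
  have e2 : ∑' n : ℕ, (if q ∣ n then aP χ P n * rexp (-(n * t)) else 0) =
      ∑' m : ℕ, (-1) * (aP χ P m * rexp (-(m * (t * q)))) := by
    rw [← hinj.tsum_eq (f := fun n : ℕ => if q ∣ n then aP χ P n * rexp (-(n * t)) else 0)]
    · congr 1
      ext m
      rw [if_pos (Dvd.intro m rfl)]
      have e3 : aP χ P (q * m) = -aP χ P m := by
        unfold aP
        have : (∀ p ∈ P, ¬ p ∣ q * m) ↔ ∀ p ∈ P, ¬ p ∣ m := by
          constructor
          · intro h p hp hd
            exact h p hp (Dvd.dvd.mul_left hd q)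
          · intro h p hp hd
            rcases (hP p hp).dvd_mul.mp hd with h' | h'
            · rw [(Nat.prime_dvd_prime_iff_eq (hP p hp) hq)] at h'
              subst h'
              exact hqP hp
            · exact h p hp h'
        rw [if_congr this rfl rfl, rchar_mul h2, hin]
        split_ifs <;> ring
      rw [e3]
      push_cast
      have e4 : rexp (-((q : ℝ) * m * t)) = rexp (-(m * (t * q))) := by congr 1; ring
      rw [e4]
      ring
    · intro n hn
      rw [Function.mem_support] at hn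
      by_contra hcon
      apply hn
      rw [if_neg]
      rintro ⟨m, rfl⟩
      exact hcon ⟨m, rfl⟩
  rw [e2, tsum_mul_left] at e1
  have : TP χ P (t * q) = ∑' m : ℕ, aP χ P m * rexp (-(m * (t * q))) := rfl
  rw [← this] at e1
  linarith

omit [NeZero N] in
theorem TP_eq (h2 : χ ^ 2 = 1) {P : Finset ℕ} (hP : ∀ p ∈ P, p.Prime)
    (hin : ∀ p ∈ P, rchar χ p = -1) {t : ℝ} (ht : 0 < t) :
    TP χ P t = ∑ A ∈ P.powerset, TP χ ∅ (t * ∏ p ∈ A, (p : ℝ)) := by
  classical
  induction P using Finset.induction_on generalizing t with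
  | empty => simp
  | insert q P hqP ih =>
    have hq := hP q (Finset.mem_insert_self q P)
    have hq0 : (0 : ℝ) < q := by exact_mod_cast hq.pos
    have hP' : ∀ p ∈ P, p.Prime := fun p hp => hP p (Finset.mem_insert_of_mem hp)
    have hin' : ∀ p ∈ P, rchar χ p = -1 := fun p hp => hin p (Finset.mem_insert_of_mem hp)
    rw [TP_insert h2 hq hP' hqP (hin q (Finset.mem_insert_self q P)) ht, ih hP' hin' ht,
      ih hP' hin' (by positivity), Finset.sum_powerset_insert hqP]
    congr 1
    apply Finset.sum_congr rfl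
    intro A hA
    have hqA : q ∉ A := fun h => hqP (Finset.mem_powerset.mp hA h)
    rw [Finset.prod_insert hqA, mul_assoc]

lemma TP_empty (hne : χ ≠ 1) (h2 : χ ^ 2 = 1) (y : ℝ) : TP χ ∅ (tt y) = gS χ y := by
  rw [gS_eq hne h2]
  unfold TP aP
  simp

/-- the sum over the divisors -/
noncomputable def FF (χ : DirichletCharacter ℂ N) (Λ X : ℝ) : ℝ :=
  ∑ A ∈ (iP χ Λ).powerset, gS χ (X - Sm lg A)

theorem TP_eq_FF (hne : χ ≠ 1) (h2 : χ ^ 2 = 1) (Λ X : ℝ) : TP χ (iP χ Λ) (tt X) = FF χ Λ X := by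
  rw [TP_eq h2 (fun p hp => iP_prime hp) (fun p hp => ((mem_iP χ).mp hp).2.1) (tt_pos X)]
  unfold FF
  apply Finset.sum_congr rfl
  intro A hA
  have hA' : ∀ p ∈ A, p.Prime := fun p hp => iP_prime (Finset.mem_powerset.mp hA hp)
  rw [← TP_empty hne h2]
  congr 1
  unfold tt
  have h3 : ∏ p ∈ A, (p : ℝ) = rexp (Sm lg A) := by
    unfold Sm
    rw [exp_sum]
    apply Finset.prod_congr rfl
    intro p hp
    unfold lg
    rw [Real.exp_log]
    exact_mod_cast (hA' p hp).pos
  rw [h3, ← exp_add]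
  congr 1
  ring

/-! ### The first range -/

lemma small_exp {w : ℝ} (hw : 2 ^ 17 * (Nat.factorial 16 : ℝ) < w) :
    rexp (-(w / 2)) < (1 / w) ^ 15 / 2 := by
  have hf : (0 : ℝ) < Nat.factorial 16 := by exact_mod_cast Nat.factorial_pos 16
  have hw0 : 0 < w := lt_trans (by positivity) hw
  have h1 := Real.pow_div_factorial_le_exp (w / 2) (by linarith) 16
  have h2 : 2 * w ^ 15 < (w / 2) ^ 16 / (Nat.factorial 16 : ℝ) := by
    rw [lt_div_iff₀ hf]
    calc 2 * w ^ 15 * (Nat.factorial 16 : ℝ) =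
          (2 ^ 17 * (Nat.factorial 16 : ℝ)) * (w ^ 15 / 2 ^ 16) := by ring
      _ < w * (w ^ 15 / 2 ^ 16) := mul_lt_mul_of_pos_right hw (by positivity)
      _ = (w / 2) ^ 16 := by ring
  have h3 : 2 * w ^ 15 < rexp (w / 2) := lt_of_lt_of_le h2 h1
  rw [exp_neg]
  have h4 : (1 / w) ^ 15 / 2 = (2 * w ^ 15)⁻¹ := by
    rw [one_div, inv_pow, mul_inv]; ring
  rw [h4]
  exact inv_strictAnti₀ (by positivity) h3

/-- positivity in the first range -/
theorem region1 (h2 : χ ^ 2 = 1) : ∃ Λ₀ : ℝ, 1 ≤ Λ₀ ∧ ∀ Λ X : ℝ, Λ₀ ≤ Λ →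
    X ≤ 15 * Λ / 16 → 0 < TP χ (iP χ Λ) (tt X) := by
  have hf : (0 : ℝ) < Nat.factorial 16 := by exact_mod_cast Nat.factorial_pos 16
  refine ⟨16 * (2 ^ 17 * (Nat.factorial 16 : ℝ)) + 1, by linarith [hf], fun Λ X hΛ hX => ?_⟩
  have hΛ0 : 0 < Λ := by
    have : 0 < 16 * (2 ^ 17 * (Nat.factorial 16 : ℝ)) := by positivity
    linarith
  set w := rexp (Λ / 16) with hw
  have hwΛ : 2 ^ 17 * (Nat.factorial 16 : ℝ) < w := by
    have := add_one_le_exp (Λ / 16)
    linarith
  have hw1 : 1 ≤ w := by rw [hw]; exact one_le_exp (by positivity)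
  set t := tt X with ht
  have ht0 : 0 < t := tt_pos X
  have htw : (1 / w) ^ 15 ≤ t := by
    rw [hw, one_div, ← exp_neg, ← exp_nat_mul, ht]
    unfold tt
    rw [exp_le_exp]
    push_cast
    linarith
  set K := ⌊rexp Λ⌋₊ with hK
  have hK1 : 1 ≤ K := by
    rw [hK, Nat.one_le_floor_iff]
    exact one_le_exp hΛ0.le
  have hKexp : rexp Λ < K + 1 := Nat.lt_floor_add_one _
  -- nonnegativity of the first coefficients
  have hnn : ∀ n, n ≤ K → 0 ≤ aP χ (iP χ Λ) n := by
    intro n hn
    unfold aP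
    split_ifs with hd
    · rcases Nat.eq_zero_or_pos n with rfl | hn0
      · simp
      apply rchar_nonneg_of h2
      intro p hp hpn
      rcases rchar_cases h2 p with h | h | h
      · rw [h]
      · rw [h]; exact zero_le_one
      · exfalso
        apply hd p _ hpn
        rw [mem_iP]
        refine ⟨hp, h, ?_⟩
        have hpn' : p ≤ n := Nat.le_of_dvd hn0 hpn
        have h3 : (p : ℝ) ≤ rexp Λ := by
          have : (n : ℝ) ≤ rexp Λ := (Nat.le_floor_iff (exp_pos Λ).le).mp hn
          exact le_trans (by exact_mod_cast hpn') this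
        rw [Real.log_le_iff_le_exp (by exact_mod_cast hp.pos)]
        exact h3
    · exact le_rfl
  have h1c : aP χ (iP χ Λ) 1 = 1 := by
    unfold aP
    rw [if_pos, rchar_one]
    intro p hp hd
    have := (iP_prime hp).one_lt
    rw [Nat.dvd_one] at hd
    omega
  have hs := summable_bdd (abs_aP_le (χ := χ) h2 (iP χ Λ)) ht0
  have hsplit := hs.sum_add_tsum_nat_add (K + 1)
  have hhead : rexp (-t) ≤ ∑ n ∈ Finset.range (K + 1), aP χ (iP χ Λ) n * rexp (-(n * t)) := by
    have h3 := Finset.single_le_sum (s := Finset.range (K + 1))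
      (f := fun n : ℕ => aP χ (iP χ Λ) n * rexp (-(n * t)))
      (fun n hn => mul_nonneg (hnn n (by rw [Finset.mem_range] at hn; omega)) (exp_pos _).le)
      (Finset.mem_range.mpr (by omega : 1 < K + 1))
    simp only [h1c, one_mul, Nat.cast_one] at h3
    exact h3
  have htail : |∑' n : ℕ, aP χ (iP χ Λ) (n + (K + 1)) * rexp (-(((n + (K + 1) : ℕ) : ℝ) * t))| ≤
      rexp (-((K + 1) * t)) / (1 - rexp (-t)) := by
    have hx1 : rexp (-t) < 1 := by rw [exp_lt_one_iff]; linarith
    have hgeo := hasSum_geometric_of_lt_one (exp_pos (-t)).le hx1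
    have hgeo2 : HasSum (fun n : ℕ => rexp (-(((n + (K + 1) : ℕ) : ℝ) * t)))
        (rexp (-((K + 1) * t)) / (1 - rexp (-t))) := by
      rw [div_eq_mul_inv]
      refine (hgeo.mul_left (rexp (-((K + 1) * t)))).congr_fun fun n => ?_
      rw [← exp_nat_mul, ← exp_add]
      congr 1
      push_cast
      ring
    rw [← Real.norm_eq_abs]
    refine tsum_of_norm_bounded hgeo2 fun n => ?_
    rw [Real.norm_eq_abs, abs_mul, abs_of_pos (exp_pos _)]
    calc _ ≤ 1 * rexp (-(((n + (K + 1) : ℕ) : ℝ) * t)) :=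
          mul_le_mul_of_nonneg_right (abs_aP_le h2 _ _) (exp_pos _).le
      _ = _ := one_mul _
  have hx1 : 0 < 1 - rexp (-t) := by
    have : rexp (-t) < 1 := by rw [exp_lt_one_iff]; linarith
    linarith
  have key : rexp (-((K + 1) * t)) < rexp (-t) * (1 - rexp (-t)) := by
    have e1 : rexp (-((K + 1) * t)) = rexp (-t) * rexp (-(K * t)) := by
      rw [← exp_add]; congr 1; ring
    rw [e1]
    apply mul_lt_mul_of_pos_left _ (exp_pos _)
    have hKr : rexp Λ / 2 ≤ K := by
      have : (1 : ℝ) ≤ K := by exact_mod_cast hK1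
      linarith
    have h16 : rexp Λ = w ^ 16 := by
      rw [hw, ← exp_nat_mul]; congr 1; push_cast; ring
    have hlow : t / (1 + t) ≤ 1 - rexp (-t) := by
      have h3 := add_one_le_exp t
      have h4 : rexp (-t) ≤ 1 / (1 + t) := by
        rw [exp_neg, ← one_div]
        exact one_div_le_one_div_of_le (by linarith) (by linarith)
      have h5 : t / (1 + t) = 1 - 1 / (1 + t) := by field_simp; ring
      linarith
    refine lt_of_lt_of_le ?_ hlow
    rcases le_total t 1 with h | h
    · have h3 : w / 2 ≤ K * t := by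
        calc w / 2 = (w ^ 16 / 2) * (1 / w) ^ 15 := by field_simp
          _ ≤ K * t := by
              apply mul_le_mul _ htw (by positivity) (by positivity)
              rw [← h16]; exact hKr
      have h4 : rexp (-(K * t)) ≤ rexp (-(w / 2)) := by rw [exp_le_exp]; linarith
      have h5 := small_exp hwΛ
      have h6 : t / 2 ≤ t / (1 + t) := div_le_div_of_nonneg_left ht0.le (by linarith) (by linarith)
      linarith
    · have h3 : (1 : ℝ) ≤ K * t := by
        have : (1 : ℝ) ≤ K := by exact_mod_cast hK1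
        nlinarith
      have h4 : rexp (-(K * t)) ≤ rexp (-1) := by rw [exp_le_exp]; linarith
      have h5 : rexp (-1) < 1 / 2 := by
        rw [exp_neg, ← one_div]
        apply one_div_lt_one_div_of_lt (by norm_num)
        have := Real.exp_one_gt_d9
        linarith
      have h6 : 1 / 2 ≤ t / (1 + t) := by
        rw [div_le_div_iff₀ (by norm_num) (by linarith)]; linarith
      linarith
  have h7 : rexp (-((K + 1) * t)) / (1 - rexp (-t)) < rexp (-t) := by
    rw [div_lt_iff₀ hx1]; exact key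
  have h8 := (abs_le.mp htail).1
  unfold TP
  rw [← hsplit]
  linarith

end Pool.Agent.MP0016c7.Ros
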