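import Mathlib
import Pool.Agent.Lib.MP_0016c7_nt.FekReg
import Pool.Agent.Lib.MP_0016c7_nt.FekTilt

open Real Set MeasureTheory Filter Topology

namespace Pool.Agent.MP0016c7.Ros

variable {N : ℕ} [NeZero N] {χ : DirichletCharacter ℂ N}

lemma cut_le (h : ℝ → ℝ) {n : ℕ} (hpos : ∀ y : ℝ, (n : ℝ) ≤ y → 0 ≤ h y) (y : ℝ) :
    h y * cut n y ≤ h y := by
  rcases le_total y n with h1 | h1
  · rw [cut_one h1, mul_one]
  · calc h y * cut n y ≤ h y * 1 := mul_le_mul_of_nonneg_left (cut_le_one n y) (hpos y h1)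
      _ = _ := mul_one _

/-- mirrored kernels are nice -/
lemma Nice.mirror {k k' : ℝ → ℝ} {B : ℝ} (h : Nice k k' B) :
    Nice (fun v => k (-v)) (fun v => -(k' (-v))) B where
  deriv v := by
    have h1 := (h.deriv (-v)).comp v (hasDerivAt_neg v)
    refine h1.congr_deriv ?_
    ring
  bound v := by
    have h1 := h.bound (-v)
    rw [abs_neg v] at h1
    change |k (-v)| + |-(k' (-v))| ≤ _
    rw [abs_neg]
    exact h1

/-- positivity in the main ranges -/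
theorem main_pos {P : ℝ → Finset ℕ} {C₀ : ℝ} {C₁ Cs : ℝ → ℝ} (hM : MDat P C₀ C₁ Cs) {ℓ B : ℝ}
    (hℓ : 0 < ℓ) (hB : 0 ≤ B) : ∃ Λ₀ : ℝ, 1 ≤ Λ₀ ∧ ∀ Λ X : ℝ, Λ₀ ≤ Λ →
    15 * Λ / 16 ≤ X → X ≤ XX P 0 Λ → ∃ σ, 0 ≤ σ ∧ σ ≤ 1 ∧ ∀ k k' : ℝ → ℝ, Nice k k' B →
      ℓ ≤ ∫ v, k v → 0 < Ef (P Λ) (xs σ) lg (fun s => k (X - s)) := by
  obtain ⟨D, hD, c, hc, hflat⟩ := hM.flatAll
  set ε : ℝ := min 1 (ℓ / (16 * (B + 1))) with hε
  have hε0 : 0 < ε := lt_min one_pos (by positivity)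
  have hε1 : ε ≤ 1 := min_le_left _ _
  set U : ℝ := max 0 (Real.log (8 * (B + 1) * (D + 1) / ℓ)) with hU
  have hU0 : 0 ≤ U := le_max_left _ _
  have hUe : (D + 1) * rexp (-U) ≤ ℓ / (8 * (B + 1)) := by
    have h1 : 8 * (B + 1) * (D + 1) / ℓ ≤ rexp U := by
      rw [← Real.log_le_iff_le_exp (by positivity)]
      exact le_max_right _ _
    have h2 : rexp (-U) ≤ ℓ / (8 * (B + 1) * (D + 1)) := by
      rw [exp_neg, inv_le_comm₀ (exp_pos _) (by positivity), inv_div]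
      exact h1
    calc (D + 1) * rexp (-U) ≤ (D + 1) * (ℓ / (8 * (B + 1) * (D + 1))) :=
          mul_le_mul_of_nonneg_left h2 (by positivity)
      _ = _ := by field_simp
  obtain ⟨Λ₁, hΛ₁, hfl⟩ := hflat ε U hε0 hε1 hU0
  refine ⟨Λ₁ + 10 / (ε * c), ?_, fun Λ X hΛ hX hX2 => ?_⟩
  · have : 0 < 10 / (ε * c) := by positivity
    linarith
  have hp : 0 < 10 / (ε * c) := by positivity
  have hX0 : 0 < X := by linarith
  obtain ⟨σ, hσ, hσ1, G, hG⟩ := hfl Λ X (by linarith) hX hX2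
  refine ⟨σ, hσ, hσ1, fun k k' hk hint => ?_⟩
  have hXe : X * rexp (-(X / 2)) ≤ ε * c := by
    have h1 := Real.pow_div_factorial_le_exp (X / 2) (by linarith) 2
    have h2 : ((2 : ℕ).factorial : ℝ) = 2 := by norm_num
    rw [h2] at h1
    have h3 : rexp (-(X / 2)) * rexp (X / 2) = 1 := by rw [← exp_add]; simp
    have h4 : (X / 2) ^ 2 / 2 * rexp (-(X / 2)) ≤ 1 := by
      calc _ ≤ rexp (X / 2) * rexp (-(X / 2)) := mul_le_mul_of_nonneg_right h1 (exp_pos _).le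
        _ = 1 := by rw [mul_comm]; exact h3
    have h5 : 9 / (ε * c) ≤ X := by
      have h6 : 10 / (ε * c) ≤ Λ := by linarith
      have h7 : 9 / (ε * c) = 9 / 10 * (10 / (ε * c)) := by ring
      rw [h7]
      linarith
    rw [div_le_iff₀ (by positivity)] at h5
    have h6 : X * (X * rexp (-(X / 2))) ≤ 8 := by nlinarith
    have h7 : 0 ≤ X * rexp (-(X / 2)) := by positivity
    by_contra hcon
    rw [not_le] at hcon
    have h8 : X * (ε * c) < X * (X * rexp (-(X / 2))) := mul_lt_mul_of_pos_left hcon hX0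
    linarith
  have h1 := hk.approx hG hε0 hD hX0 hXe
  refine lt_of_lt_of_le ?_ h1
  apply mul_pos hG.pos
  have h2 : 2 * B * (2 * ε + (D + 1) * rexp (-U)) ≤ ℓ / 2 := by
    have h3 : ε ≤ ℓ / (16 * (B + 1)) := min_le_right _ _
    have h4 : 2 * ε + (D + 1) * rexp (-U) ≤ ℓ / (4 * (B + 1)) := by
      have : ℓ / (4 * (B + 1)) = 2 * (ℓ / (16 * (B + 1))) + ℓ / (8 * (B + 1)) := by
        field_simp; ring
      rw [this]
      linarith
    calc 2 * B * (2 * ε + (D + 1) * rexp (-U)) ≤ 2 * (B + 1) * (ℓ / (4 * (B + 1))) := by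
          apply mul_le_mul (by linarith) h4 (by positivity) (by positivity)
      _ = ℓ / 2 := by field_simp; norm_num
  linarith

omit [NeZero N] in
/-- positivity on the left half -/
theorem region_left {n : ℕ} (hpos : ∀ y : ℝ, (n : ℝ) ≤ y → 0 ≤ gS χ y) {ℓ B : ℝ} {P : ℝ → Finset ℕ}
    {Λ X σ : ℝ} (hσ : 0 ≤ σ) (hσ1 : σ ≤ 1) (hke : ∀ s : ℝ, |s| ≤ 1 → Nice (ke χ s n) (ke' χ s n) B)
    (hIn : ∀ s : ℝ, 0 ≤ s → s ≤ 1 → ℓ ≤ In χ n s)
    (h : ∀ k k' : ℝ → ℝ, Nice k k' B →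
      ℓ ≤ ∫ v, k v → 0 < Ef (P Λ) (xs σ) lg (fun s => k (X - s))) :
    0 < ∑ A ∈ (P Λ).powerset, gS χ (X - Sm lg A) := by
  have h1 := h _ _ (hke σ (by rw [abs_of_nonneg hσ]; exact hσ1)) (hIn σ hσ hσ1)
  have h2 : ∑ A ∈ (P Λ).powerset, gS χ (X - Sm lg A) * cut n (X - Sm lg A) ≤
      ∑ A ∈ (P Λ).powerset, gS χ (X - Sm lg A) :=
    Finset.sum_le_sum fun A _ => cut_le (gS χ) hpos _
  refine lt_of_lt_of_le ?_ h2
  rw [sum_tilt P Λ σ X (fun y => gS χ y * cut n y)]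
  have hZ := Zt_pos (P := P Λ) fun p => xs_pos σ p
  apply mul_pos (exp_pos _)
  apply mul_pos hZ
  have e : (fun s => gS χ (X - s) * cut n (X - s) * rexp (-(σ * (X - s)))) =
      fun s => ke χ σ n (X - s) := by
    ext s
    unfold ke
    ring
  rw [e]
  exact h1

omit [NeZero N] in
/-- positivity on the right half, mirrored -/
theorem region_right {n : ℕ} (hpos : ∀ y : ℝ, (n : ℝ) ≤ y → 0 ≤ gS χ y) {ℓ B : ℝ}
    {P : ℝ → Finset ℕ}
    {Λ W σ : ℝ} (hσ : 0 ≤ σ) (hσ1 : σ ≤ 1) (hke : ∀ s : ℝ, |s| ≤ 1 → Nice (ke χ s n) (ke' χ s n) B)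
    (hIn : ∀ s : ℝ, -1 ≤ s → s ≤ 0 → ℓ ≤ In χ n s)
    (h : ∀ k k' : ℝ → ℝ, Nice k k' B →
      ℓ ≤ ∫ v, k v → 0 < Ef (P Λ) (xs σ) lg (fun s => k (W - s))) :
    0 < ∑ A ∈ (P Λ).powerset, gS χ (Sm lg A - W) := by
  have h1 := h _ _ (hke (-σ) (by rw [abs_neg, abs_of_nonneg hσ]; exact hσ1)).mirror (by
    rw [integral_neg_eq_self (ke χ (-σ) n) volume]
    exact hIn (-σ) (by linarith) (by linarith))
  have h2 : ∑ A ∈ (P Λ).powerset, gS χ (Sm lg A - W) * cut n (Sm lg A - W) ≤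
      ∑ A ∈ (P Λ).powerset, gS χ (Sm lg A - W) :=
    Finset.sum_le_sum fun A _ => cut_le (gS χ) hpos _
  refine lt_of_lt_of_le ?_ h2
  rw [sum_tilt' P Λ σ W (fun y => gS χ y * cut n y)]
  have hZ := Zt_pos (P := P Λ) fun p => xs_pos σ p
  apply mul_pos (exp_pos _)
  apply mul_pos hZ
  have e : (fun s => gS χ (s - W) * cut n (s - W) * rexp (σ * (s - W))) =
      fun s => ke χ (-σ) n (-(W - s)) := by
    ext s
    unfold ke
    have e1 : -(W - s) = s - W := by ring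
    have e2 : -(-σ * (s - W)) = σ * (s - W) := by ring
    rw [e1, e2]
    ring
  rw [e]
  exact h1

end Pool.Agent.MP0016c7.Ros
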