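import Mathlib
import Pool.Agent.Lib.MP_0016c7_nt.FekReg2

open Real Set MeasureTheory Filter Topology

namespace Pool.Agent.MP0016c7.Ros

variable {P : ℝ → Finset ℕ} {C₀ : ℝ} {C₁ Cs : ℝ → ℝ}

/-! ### Small local mass -/

/-- the density tends to zero uniformly -/
theorem MDat.al_small (hM : MDat P C₀ C₁ Cs) {η : ℝ} (hη : 0 < η) : ∃ Λ₀ : ℝ, 1 ≤ Λ₀ ∧
    ∀ σ Λ y : ℝ, 0 ≤ σ → σ ≤ 1 → Λ₀ ≤ Λ → al P 1 σ Λ y ≤ η := by
  obtain ⟨C, hC, Λ₁, hΛ₁, h⟩ := hM.JA (T := 1) le_rfl (τ₀ := 1) one_pos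
  have h32 := tendsto_rpow_neg_atTop (y := (1 / 32 : ℝ)) (by norm_num)
  have h33 := h32.eventually (gt_mem_nhds (by positivity : 0 < η / (rexp 2 * C)))
  obtain ⟨B, hB⟩ := Filter.eventually_atTop.mp h33
  refine ⟨Λ₁ + |B|, by have := abs_nonneg B; linarith, fun σ Λ y h0 h1 hΛ => ?_⟩
  have hB0 := abs_nonneg B
  have hB1 := le_abs_self B
  have h2 := h σ Λ 1 (y + 1) h0 h1 (by linarith) le_rfl
  have h3 := al_le_JJ P zero_le_one le_rfl one_pos zero_le_one σ Λ y
  have h4 := mass_ge_two one_pos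
  simp only [div_one, mul_one] at h3 h4
  have ha := al_nonneg P 1 σ Λ y
  have h5 : rexp (-2) * al P 1 σ Λ y * 2 ≤ JJ P 1 1 σ Λ (y + 1) := by
    refine le_trans ?_ h3
    exact mul_le_mul_of_nonneg_left h4 (by positivity)
  have h8 : rexp 2 * rexp (-2) = 1 := by rw [← exp_add]; norm_num
  have h9 := mul_le_mul_of_nonneg_left (h5.trans h2) (exp_pos 2).le
  have h10 : rexp 2 * (rexp (-2) * al P 1 σ Λ y * 2) = 2 * al P 1 σ Λ y := by
    calc _ = (rexp 2 * rexp (-2)) * (2 * al P 1 σ Λ y) := by ring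
      _ = _ := by rw [h8, one_mul]
  rw [h10] at h9
  have h11 := (hB Λ (by linarith)).le
  have h12 : rexp 2 * (C * Λ ^ (-(1 / 32) : ℝ)) ≤ η := by
    have := mul_le_mul_of_nonneg_left h11 (by positivity : 0 ≤ rexp 2 * C)
    have e : rexp 2 * C * (η / (rexp 2 * C)) = η := by field_simp
    rw [e] at this
    linarith
  linarith

/-- lower bound for expectations of functions that are positive on the right -/
lemma end_lower (P : ℝ → Finset ℕ) {h : ℝ → ℝ} {c H : ℝ} {n : ℕ}
    (h1 : ∀ y : ℝ, (n : ℝ) ≤ y → c ≤ h y)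
    (h2 : ∀ y : ℝ, y ≤ n → |h y| ≤ H * rexp (-(n - y))) (hH : 0 ≤ H) (σ Λ W : ℝ) :
    c * Ef (P Λ) (xs σ) lg (fun s => if W + n ≤ s then 1 else 0) - H * al P 1 σ Λ (W + n) ≤
      Ef (P Λ) (xs σ) lg (fun s => h (s - W)) := by
  unfold al
  rw [← Ef_const_mul, ← Ef_const_mul, ← Ef_sub]
  apply Ef_mono (fun p => xs_pos σ p)
  intro s
  unfold kt
  rcases le_total (W + n) s with hs | hs
  · rw [if_pos hs, mul_one]
    have h3 := h1 (s - W) (by linarith)
    split_ifs
    · have : 0 ≤ H * rexp (-(1 * (W + n - s))) := by positivity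
      linarith
    · linarith
  · have h3 := h2 (s - W) (by linarith)
    have h4 := (abs_le.mp h3).1
    rw [if_pos (by linarith : 0 ≤ W + n - s)]
    have e : rexp (-(1 * (W + n - s))) = rexp (-(n - (s - W))) := by congr 1; ring
    rw [e]
    split_ifs with hs'
    · have h5 : s = W + n := le_antisymm hs hs'
      have h6 := h1 (s - W) (by linarith)
      have : 0 ≤ H * rexp (-((n : ℝ) - (s - W))) := by positivity
      linarith
    · linarith

/-- half of the mass lies right of the centre -/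
lemma half_mass (P : ℝ → Finset ℕ) (Λ : ℝ) :
    1 / 2 ≤ Ef (P Λ) (xs 0) lg (fun s => if T0 P Λ / 2 ≤ s then 1 else 0) := by
  classical
  have hx : xs 0 = fun _ => (1 : ℝ) := by
    ext p; unfold xs; simp
  have hZ := Zt_pos (P := P Λ) fun p => xs_pos 0 p
  set f : ℝ → ℝ := fun s => if T0 P Λ / 2 ≤ s then 1 else 0 with hf
  have hsym : ∑ A ∈ (P Λ).powerset, f (Sm lg A) =
      ∑ A ∈ (P Λ).powerset, f (T0 P Λ - Sm lg A) := by
    have h1 := sum_compl (P Λ) f (T0 P Λ)
    have e : ∀ A : Finset ℕ, Sm lg A - (Sm lg (P Λ) - T0 P Λ) = Sm lg A := by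
      intro A; unfold T0; ring
    simp only [e] at h1
    exact h1.symm
  have hsum : (∑ A ∈ (P Λ).powerset, (1 : ℝ)) ≤
      ∑ A ∈ (P Λ).powerset, (f (Sm lg A) + f (T0 P Λ - Sm lg A)) := by
    apply Finset.sum_le_sum
    intro A _
    rw [hf]
    simp only
    rcases le_total (T0 P Λ / 2) (Sm lg A) with h | h
    · rw [if_pos h]
      split_ifs <;> norm_num
    · have h' : T0 P Λ / 2 ≤ T0 P Λ - Sm lg A := by linarith
      rw [if_pos h']
      split_ifs <;> norm_num
  rw [Finset.sum_add_distrib, ← hsym] at hsum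
  have hW : ∀ A : Finset ℕ, Wt (xs 0) A = 1 := by
    intro A; unfold Wt; rw [hx]; simp
  have hZ1 : Zt (P Λ) (xs 0) = ∑ A ∈ (P Λ).powerset, (1 : ℝ) := by
    rw [← sum_Wt]
    exact Finset.sum_congr rfl fun A _ => hW A
  unfold Ef
  rw [le_div_iff₀ hZ, hZ1]
  have h3 : ∑ A ∈ (P Λ).powerset, Wt (xs 0) A * f (Sm lg A) =
      ∑ A ∈ (P Λ).powerset, f (Sm lg A) := by
    apply Finset.sum_congr rfl
    intro A _
    rw [hW, one_mul]
  rw [h3]
  linarith

/-- mass right of `W + n` at tilt zero -/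
lemma mass_zero (hM : MDat P C₀ C₁ Cs) (n : ℕ) : ∃ Λ₀ : ℝ, 1 ≤ Λ₀ ∧ ∀ Λ W : ℝ, Λ₀ ≤ Λ →
    W ≤ T0 P Λ / 2 →
    1 / 4 ≤ Ef (P Λ) (xs 0) lg (fun s => if W + n ≤ s then 1 else 0) := by
  obtain ⟨Λ₀, hΛ₀, h⟩ := hM.al_small (η := rexp (-n) / 4) (by positivity)
  refine ⟨Λ₀, hΛ₀, fun Λ W hΛ hW => ?_⟩
  have h1 := half_mass P Λ
  have h2 := h 0 Λ (T0 P Λ / 2 + n) le_rfl zero_le_one hΛ
  have h3 : Ef (P Λ) (xs 0) lg (fun s => if T0 P Λ / 2 ≤ s then 1 else 0) ≤
      Ef (P Λ) (xs 0) lg (fun s => (if W + n ≤ s then 1 else 0) +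
        rexp n * kt 1 (T0 P Λ / 2 + n - s)) := by
    apply Ef_mono (fun p => xs_pos 0 p)
    intro s
    have hk := kt_nonneg 1 (T0 P Λ / 2 + n - s)
    rcases le_total (W + n) s with h4 | h4
    · rw [if_pos h4]
      have : 0 ≤ rexp n * kt 1 (T0 P Λ / 2 + n - s) := by positivity
      split_ifs <;> linarith
    · have h5 : 0 ≤ (if W + n ≤ s then (1 : ℝ) else 0) := by split_ifs <;> norm_num
      have h6 : 0 ≤ T0 P Λ / 2 + n - s := by linarith
      split_ifs with h7 h8
      · have : 0 ≤ rexp n * kt 1 (T0 P Λ / 2 + n - s) := by positivity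
        linarith
      · rw [zero_add]
        unfold kt
        rw [if_pos h6, ← exp_add]
        apply one_le_exp
        linarith
      · have : 0 ≤ rexp n * kt 1 (T0 P Λ / 2 + n - s) := by positivity
        linarith
      · have : 0 ≤ rexp n * kt 1 (T0 P Λ / 2 + n - s) := by positivity
        linarith
  rw [Ef_add, Ef_const_mul] at h3
  have h4 : Ef (P Λ) (xs 0) lg (fun s => kt 1 (T0 P Λ / 2 + n - s)) =
      al P 1 0 Λ (T0 P Λ / 2 + n) := rfl
  rw [h4] at h3
  have h5 : rexp n * al P 1 0 Λ (T0 P Λ / 2 + n) ≤ 1 / 4 := by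
    have h6 := mul_le_mul_of_nonneg_left h2 (exp_pos (n : ℝ)).le
    have e : rexp n * (rexp (-n) / 4) = 1 / 4 := by
      rw [← mul_div_assoc, ← exp_add, add_neg_cancel, exp_zero]
    rw [e] at h6
    exact h6
  linarith

/-- mass right of `Λ` at tilt one -/
lemma mass_one (hM : MDat P C₀ C₁ Cs) : ∃ c : ℝ, 0 < c ∧ ∃ Λ₀ : ℝ, 1 ≤ Λ₀ ∧ ∀ Λ : ℝ, Λ₀ ≤ Λ →
    c ≤ Ef (P Λ) (xs 1) lg (fun s => if Λ ≤ s then 1 else 0) := by
  have hC0 := hM.C0
  obtain ⟨c, hc, Λ₁, hΛ₁, hlow⟩ := hM.low (V₀ := 1) le_rfl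
  obtain ⟨Λ₂, hΛ₂, hsm⟩ := hM.al_small (η := c / 4) (by positivity)
  refine ⟨c / 8, by positivity, Λ₁ + Λ₂ + 8 * (4 * C₀ + 1), by linarith, fun Λ hΛ => ?_⟩
  have hΛ0 : 0 < Λ := by linarith
  have hΛ1 : 1 ≤ Λ := by linarith
  set m := ⌊Λ⌋₊ with hm
  have hm1 : Λ / 2 ≤ m := by
    have h1 : Λ < m + 1 := Nat.lt_floor_add_one Λ
    have h2 : (1 : ℝ) ≤ m := by
      have : 1 ≤ m := by rw [hm, Nat.one_le_floor_iff]; exact hΛ1
      exact_mod_cast this
    linarith
  have hmΛ : (m : ℝ) ≤ Λ := Nat.floor_le hΛ0.le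
  -- lower bound for the sum
  have h1 : c / 2 ≤ ∑ j ∈ Finset.range m, al P 1 1 Λ (Λ + (j + 1)) := by
    calc c / 2 = Λ / 2 * (c / Λ) := by field_simp
      _ ≤ m * (c / Λ) := mul_le_mul_of_nonneg_right hm1 (by positivity)
      _ = ∑ _j ∈ Finset.range m, c / Λ := by
          rw [Finset.sum_const, Finset.card_range, nsmul_eq_mul]
      _ ≤ _ := by
          apply Finset.sum_le_sum
          intro j hj
          have hj' : (j : ℝ) + 1 ≤ m := by exact_mod_cast Finset.mem_range.mp hj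
          have hj0 : (0 : ℝ) ≤ j := Nat.cast_nonneg j
          exact hlow Λ 1 _ (by linarith) zero_le_one le_rfl (by linarith) (by linarith)
  -- upper bound
  have h2 : ∑ j ∈ Finset.range m, al P 1 1 Λ (Λ + (j + 1)) ≤
      Ef (P Λ) (xs 1) lg (fun s => 2 * (if Λ ≤ s then 1 else 0) + kt 1 (Λ - s)) := by
    have e1 : ∑ j ∈ Finset.range m, al P 1 1 Λ (Λ + (j + 1)) =
        Ef (P Λ) (xs 1) lg (fun s => ∑ j ∈ Finset.range m, 1 * kt 1 (Λ + (j + 1) - s)) := by
      rw [Ef_sum (Finset.range m) (fun _ => 1) (fun (j : ℕ) s => kt 1 (Λ + (j + 1) - s))]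
      apply Finset.sum_congr rfl
      intro j _
      rw [one_mul]
      rfl
    rw [e1]
    apply Ef_mono (fun p => xs_pos 1 p)
    intro s
    simp only [one_mul]
    have hgeo : ∀ k : ℕ, ∑ j ∈ Finset.range k, rexp (-1) ^ j ≤ 2 := by
      intro k
      have h5 : rexp (-1) ≤ 1 / 2 := by
        rw [exp_neg, ← one_div]
        apply one_div_le_one_div_of_le (by norm_num)
        have := Real.exp_one_gt_d9
        linarith
      calc ∑ j ∈ Finset.range k, rexp (-1) ^ j ≤ ∑ j ∈ Finset.range k, (1 / 2 : ℝ) ^ j := by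
            apply Finset.sum_le_sum
            intro j _
            exact pow_le_pow_left₀ (exp_pos _).le h5 j
        _ ≤ 2 := sum_geometric_two_le k
    rcases le_or_gt Λ s with hs | hs
    · rw [if_pos hs]
      have hk0 := kt_nonneg 1 (Λ - s)
      -- only indices with `j + 1 ≥ s - Λ`
      set d := ⌈s - Λ - 1⌉₊ with hd
      have hterm : ∀ j ∈ Finset.range m, kt 1 (Λ + (j + 1) - s) ≤
          if d ≤ j then rexp (-1) ^ (j - d) else 0 := by
        intro j _
        unfold kt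
        split_ifs with h6 h7 h7
        · rw [← exp_nat_mul, exp_le_exp]
          have h8 : s - Λ - 1 ≤ d := Nat.le_ceil _
          rw [Nat.cast_sub h7]
          rcases Nat.eq_zero_or_pos d with h9 | h9
          · rw [h9]
            simp only [Nat.cast_zero, sub_zero]
            rw [h9] at h8
            simp only [Nat.cast_zero] at h8
            linarith
          · have h10 : (d : ℝ) < s - Λ - 1 + 1 := Nat.ceil_lt_add_one (by
              by_contra hcon
              rw [not_le] at hcon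
              have : d = 0 := Nat.ceil_eq_zero.mpr hcon.le
              omega)
            linarith
        · exfalso
          apply h7
          rw [hd, Nat.ceil_le]
          linarith
        · positivity
        · exact le_rfl
      have h6 : ∑ j ∈ Finset.range m, kt 1 (Λ + (j + 1) - s) ≤
          ∑ j ∈ Finset.range m, if d ≤ j then rexp (-1) ^ (j - d) else 0 :=
        Finset.sum_le_sum hterm
      have h7 : ∑ j ∈ Finset.range m, (if d ≤ j then rexp (-1) ^ (j - d) else 0) ≤ 2 := by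
        rw [← Finset.sum_filter]
        have h8 : (Finset.range m).filter (fun j => d ≤ j) = Finset.Ico d m := by
          ext j
          simp [Finset.mem_filter, Finset.mem_range, Finset.mem_Ico, and_comm]
        rw [h8, Finset.sum_Ico_eq_sum_range]
        simp only [Nat.add_sub_cancel_left]
        exact hgeo _
      linarith
    · rw [if_neg (not_le.mpr hs), mul_zero, zero_add]
      have h6 : ∀ j ∈ Finset.range m, kt 1 (Λ + (j + 1) - s) =
          rexp (-1) * rexp (-1) ^ j * kt 1 (Λ - s) := by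
        intro j _
        unfold kt
        have hj0 : (0 : ℝ) ≤ j := Nat.cast_nonneg j
        rw [if_pos (by linarith), if_pos (by linarith), ← exp_nat_mul, ← exp_add, ← exp_add]
        congr 1
        ring
      rw [Finset.sum_congr rfl h6, ← Finset.sum_mul, ← Finset.mul_sum]
      have h7 : rexp (-1) * ∑ j ∈ Finset.range m, rexp (-1) ^ j ≤ 1 := by
        have h5 : rexp (-1) ≤ 1 / 2 := by
          rw [exp_neg, ← one_div]
          apply one_div_le_one_div_of_le (by norm_num)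
          have := Real.exp_one_gt_d9
          linarith
        have h8 : rexp (-1) * ∑ j ∈ Finset.range m, rexp (-1) ^ j ≤ 1 / 2 * 2 :=
          mul_le_mul h5 (hgeo m) (Finset.sum_nonneg fun j _ => by positivity) (by norm_num)
        linarith
      calc _ ≤ 1 * kt 1 (Λ - s) := mul_le_mul_of_nonneg_right h7 (kt_nonneg _ _)
        _ = _ := one_mul _
  rw [Ef_add, Ef_const_mul] at h2
  have h4 : Ef (P Λ) (xs 1) lg (fun s => kt 1 (Λ - s)) = al P 1 1 Λ Λ := rfl
  rw [h4] at h2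
  have h5 := hsm 1 Λ Λ zero_le_one le_rfl (by linarith)
  linarith

end Pool.Agent.MP0016c7.Ros
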