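import Mathlib
import Pool.Agent.Lib.MP_0016c7_nt.FekReg3
import Pool.Agent.Lib.MP_0016c7_nt.FekPos3

open Real Set MeasureTheory Filter Topology

namespace Pool.Agent.MP0016c7.Ros

variable {N : ℕ} [NeZero N] {χ : DirichletCharacter ℂ N}

/-- the tilted kernel of the end range -/
lemma end_kernel (n κ : ℕ) (hκ : κ ≤ 1) : ∃ H : ℝ, 0 ≤ H ∧ ∀ y : ℝ, y ≤ n →
    |gS χ y * rexp (κ * y)| ≤ H * rexp (-(n - y)) := by
  obtain ⟨C, hC, h1, h2⟩ := gS_exp (χ := χ)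
  have hκ' : (κ : ℝ) ≤ 1 := by exact_mod_cast hκ
  have hκ0 : (0 : ℝ) ≤ κ := Nat.cast_nonneg κ
  have hn0 : (0 : ℝ) ≤ n := Nat.cast_nonneg n
  refine ⟨C * rexp (2 * n), by positivity, fun y hy => ?_⟩
  rw [abs_mul, abs_of_pos (exp_pos _)]
  rcases le_total y 0 with h | h
  · have h3 : |gS χ y| ≤ C * rexp (3 * y) := by
      have := h1 y h
      have := abs_nonneg (gS' χ y)
      linarith
    calc |gS χ y| * rexp (κ * y) ≤ C * rexp (3 * y) * rexp (κ * y) :=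
          mul_le_mul_of_nonneg_right h3 (exp_pos _).le
      _ = C * rexp (3 * y + κ * y) := by rw [mul_assoc, ← exp_add]
      _ ≤ C * rexp (2 * n + -(n - y)) := by
          apply mul_le_mul_of_nonneg_left _ hC
          rw [exp_le_exp]
          nlinarith
      _ = _ := by rw [exp_add, mul_assoc]
  · have h3 : |gS χ y| ≤ C := by
      have := h2 y h
      have := abs_nonneg (gS' χ y)
      linarith
    calc |gS χ y| * rexp (κ * y) ≤ C * rexp (κ * y) :=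
          mul_le_mul_of_nonneg_right h3 (exp_pos _).le
      _ ≤ C * rexp (2 * n + -(n - y)) := by
          apply mul_le_mul_of_nonneg_left _ hC
          rw [exp_le_exp]
          nlinarith
      _ = _ := by rw [exp_add, mul_assoc]

/-- positivity in the end range, given enough mass on the right -/
theorem end_pos {P : ℝ → Finset ℕ} {C₀ : ℝ} {C₁ Cs : ℝ → ℝ} (hM : MDat P C₀ C₁ Cs) {n κ : ℕ}
    (hκ : κ ≤ 1) {c m₀ : ℝ} (hc : 0 < c) (hm₀ : 0 < m₀)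
    (hg : ∀ y : ℝ, (n : ℝ) ≤ y → c * rexp (-(κ * y)) ≤ gS χ y) :
    ∃ Λ₀ : ℝ, 1 ≤ Λ₀ ∧ ∀ Λ W : ℝ, Λ₀ ≤ Λ →
    m₀ ≤ Ef (P Λ) (xs κ) lg (fun s => if W + n ≤ s then 1 else 0) →
    0 < ∑ A ∈ (P Λ).powerset, gS χ (Sm lg A - W) := by
  obtain ⟨H, hH, hH'⟩ := end_kernel (χ := χ) n κ hκ
  obtain ⟨Λ₀, hΛ₀, hsm⟩ := hM.al_small (η := c * m₀ / (2 * (H + 1))) (by positivity)
  have hκ' : (κ : ℝ) ≤ 1 := by exact_mod_cast hκ
  have hκ0 : (0 : ℝ) ≤ κ := Nat.cast_nonneg κ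
  refine ⟨Λ₀, hΛ₀, fun Λ W hΛ hmass => ?_⟩
  rw [sum_tilt' P Λ κ W (gS χ)]
  have hZ := Zt_pos (P := P Λ) fun p => xs_pos (κ : ℝ) p
  apply mul_pos (exp_pos _)
  apply mul_pos hZ
  have h1 := end_lower P (h := fun y => gS χ y * rexp (κ * y)) (c := c) (H := H) (n := n)
    (fun y hy => by
      have h2 := mul_le_mul_of_nonneg_right (hg y hy) (exp_pos (κ * y)).le
      rw [mul_assoc, ← exp_add, neg_add_cancel, exp_zero, mul_one] at h2
      exact h2) hH' hH κ Λ W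
  refine lt_of_lt_of_le ?_ h1
  have h3 := hsm κ Λ (W + n) hκ0 hκ' hΛ
  have h4 := mul_le_mul_of_nonneg_left h3 hH
  have h5 := mul_le_mul_of_nonneg_left hmass hc.le
  have h6 : H * (c * m₀ / (2 * (H + 1))) ≤ c * m₀ / 2 := by
    rw [← mul_div_assoc, div_le_div_iff₀ (by positivity) (by norm_num)]
    have : 0 < c * m₀ := by positivity
    nlinarith
  have : 0 < c * m₀ := by positivity
  linarith

/-- The Fekete series of the character induced by removing the inert primes is positive. -/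
theorem fek_forward (hχ : χ.IsPrimitive) (hne : χ ≠ 1) (h2 : χ ^ 2 = 1)
    (hL : ∀ s : ℝ, 0 < s → s < 1 → 0 < Lr χ s) :
    ∃ Λ₀ : ℝ, ∀ Λ, Λ₀ ≤ Λ → ∀ X : ℝ, 0 < TP χ (iP χ Λ) (tt X) := by
  obtain ⟨κ, hκ, B, hB, hc, hMi⟩ := fek_data hχ hne h2 hL
  obtain ⟨n, hg, ℓ, hℓ, hIn⟩ := In_unif hκ hB hc hMi
  set c := qB N B 1 / 2 with hcdef
  have hc0 : 0 < c := by positivity
  have hpos : ∀ y : ℝ, (n : ℝ) ≤ y → 0 ≤ gS χ y := fun y hy =>
    le_trans (by positivity) (hg y hy)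
  obtain ⟨B', hB', hke⟩ := ke_nice (χ := χ) n
  obtain ⟨C₀, C₁, Cs, hM⟩ := exists_mdat χ h2 hne
  have hκ0 : (0 : ℝ) ≤ κ := Nat.cast_nonneg κ
  obtain ⟨Λ₁, hΛ₁, hmain⟩ := main_pos hM hℓ hB'
  obtain ⟨Λ₂, hΛ₂, hreg1⟩ := region1 (χ := χ) h2
  -- the end range
  obtain ⟨m₀, hm₀, Λ₃, hΛ₃, hend⟩ : ∃ m₀ : ℝ, 0 < m₀ ∧ ∃ Λ₃ : ℝ, 1 ≤ Λ₃ ∧ ∀ Λ W : ℝ, Λ₃ ≤ Λ →
      W ≤ T0 (iP χ) Λ / 2 → (κ = 1 → W ≤ 15 * Λ / 16) →
      m₀ ≤ Ef (iP χ Λ) (xs κ) lg (fun s => if W + n ≤ s then 1 else 0) := by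
    interval_cases κ
    · obtain ⟨Λ₃, hΛ₃, h⟩ := mass_zero hM n
      refine ⟨1 / 4, by norm_num, Λ₃, hΛ₃, fun Λ W hΛ hW _ => ?_⟩
      rw [Nat.cast_zero]
      exact h Λ W hΛ hW
    · obtain ⟨c', hc', Λ₃, hΛ₃, h⟩ := mass_one hM
      have hn0 : (0 : ℝ) ≤ n := Nat.cast_nonneg n
      refine ⟨c', hc', Λ₃ + 16 * n, by linarith, fun Λ W hΛ _ hW => ?_⟩
      have hW' := hW rfl
      rw [Nat.cast_one]
      refine (h Λ (by linarith)).trans ?_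
      apply Ef_mono (fun p => xs_pos 1 p)
      intro s
      split_ifs with h3 h4 h4
      · exact le_rfl
      · exfalso; apply h4; linarith
      · exact zero_le_one
      · exact le_rfl
  obtain ⟨Λ₄, hΛ₄, hendpos⟩ := end_pos hM (χ := χ) hκ hc0 hm₀ hg
  refine ⟨Λ₁ + Λ₂ + Λ₃ + Λ₄, fun Λ hΛ X => ?_⟩
  rcases le_total X (15 * Λ / 16) with hX | hX
  · exact hreg1 Λ X (by linarith) hX
  rw [TP_eq_FF hne h2]
  unfold FF
  rcases le_total X (XX (iP χ) 0 Λ) with hX2 | hX2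
  · obtain ⟨σ, hσ, hσ1, h⟩ := hmain Λ X (by linarith) hX hX2
    exact region_left hpos hσ hσ1 hke (fun s hs hs1 => hIn s (by linarith) hs1) h
  · rw [sum_compl]
    set W := Sm lg (iP χ Λ) - X with hW
    rw [XX_zero] at hX2
    have hWle : W ≤ T0 (iP χ) Λ / 2 := by
      rw [hW]
      have : Sm lg (iP χ Λ) = T0 (iP χ) Λ := rfl
      rw [this]
      linarith
    by_cases hcase : κ = 1 → W ≤ 15 * Λ / 16
    · exact hendpos Λ W (by linarith) (hend Λ W (by linarith) hWle hcase)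
    · push Not at hcase
      obtain ⟨hκ1, hW2⟩ := hcase
      subst hκ1
      obtain ⟨σ, hσ, hσ1, h⟩ := hmain Λ W (by linarith) hW2.le (by rw [XX_zero]; exact hWle)
      exact region_right hpos hσ hσ1 hke
        (fun s hs hs1 => hIn s (by simpa using hs) (by linarith)) h

end Pool.Agent.MP0016c7.Ros
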