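import Mathlib
import Pool.Agent.Lib.MP_0016c7_nt.FekMain
import Pool.Agent.Lib.MP_0016c7_nt.FekBack

open Real Set MeasureTheory Filter Topology

namespace Pool.Agent.MP0016c7.Ros

open Pool.Agent.MP0016c7.Fek

section final

variable {N : ℕ} [NeZero N] {χ : DirichletCharacter ℂ N}

lemma indChar_inert (hN : N ≠ 1) (h2 : χ ^ 2 = 1) {Y : ℕ} (hY : 1 ≤ Y) (n : ℕ) :
    indChar χ (inertProduct χ Y) n = aP χ (iP χ (lg Y)) n := by
  have h1 : n.Coprime (inertProduct χ Y) ↔ ∀ p ∈ iP χ (lg Y), ¬ p ∣ n := by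
    rw [inertProduct_eq h2 hY, Nat.coprime_prod_right_iff]
    constructor
    · intro h p hp hd
      exact ((iP_prime hp).coprime_iff_not_dvd.mp (h p hp).symm) hd
    · intro h p hp
      exact ((iP_prime hp).coprime_iff_not_dvd.mpr (h p hp)).symm
  unfold indChar aP
  have h3 : (χ (n : ZMod N)).re = rchar χ n := by
    rcases Nat.eq_zero_or_pos n with rfl | hn
    · rw [Nat.cast_zero, χ.map_zero' hN]; simp
    · rw [rchar_apply χ hn.ne']
  rw [h3]
  by_cases h : n.Coprime (inertProduct χ Y)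
  · rw [if_pos h, if_pos (h1.mp h)]
  · rw [if_neg h, if_neg (fun h' => h (h1.mpr h'))]

/-- forward direction for the polynomials -/
theorem fek_forward_poly (hχ : χ.IsPrimitive) (hne : χ ≠ 1) (h2 : χ ^ 2 = 1)
    (hL : ∀ s : ℝ, 0 < s → s < 1 → 0 < Lr χ s) :
    ∀ᶠ Y : ℕ in atTop, ∀ x : ℝ, 0 < x → x < 1 →
      0 < (feketePoly χ (inertProduct χ Y)).eval x := by
  have hN := modulus_ne_one hne
  obtain ⟨Λ₀, hΛ₀⟩ := fek_forward hχ hne h2 hL
  have h3 : Tendsto (fun Y : ℕ => lg Y) atTop atTop := by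
    unfold lg
    exact Real.tendsto_log_atTop.comp tendsto_natCast_atTop_atTop
  filter_upwards [h3.eventually_ge_atTop Λ₀, eventually_ge_atTop 1] with Y hY hY1 x hx0 hx1
  have : NeZero (N * inertProduct χ Y) :=
    ⟨Nat.mul_ne_zero (NeZero.ne N) (inertProduct_ne_zero χ Y)⟩
  set X := -Real.log (-Real.log x) with hX
  have hlog : 0 < -Real.log x := by
    have := Real.log_neg hx0 hx1
    linarith
  have htt : tt X = -Real.log x := by
    unfold tt
    rw [hX, neg_neg, Real.exp_log hlog]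
  have h4 := hΛ₀ (lg Y) hY X
  have h5 : TP χ (iP χ (lg Y)) (tt X) = ∑' n : ℕ, rchar (ind χ (inertProduct χ Y)) n * x ^ n := by
    unfold TP
    congr 1
    ext n
    rw [← indChar_eq hN, indChar_inert hN h2 hY1, htt]
    congr 1
    have : -((n : ℝ) * -Real.log x) = n * Real.log x := by ring
    rw [this, Real.exp_nat_mul, Real.exp_log hx0]
  rw [h5] at h4
  rw [← period_tsum hN h2 hx0.le hx1]
  exact mul_pos h4 (one_sub_pow_pos hx0.le hx1)

end final

end Pool.Agent.MP0016c7.Ros
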