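import Mathlib
import Pool.Agent.Lib.MP_0016c7_nt.KernelLocal2a

open Filter Topology Set MeasureTheory
open scoped Real

namespace Pool.Agent.MP0016c7

/-- the level minus the shift -/
noncomputable def the (L z : ℝ) : ℝ := L - 1 / (1 / 2 + z)

/-- the weight for the global inequality -/
noncomputable def gl2 (W L z t : ℝ) : ℝ :=
  Cd W z t - (the L z + if W = 1 then 0 else 1 / z) * Cw W z t

lemma gl2_A {L z t : ℝ} (h0 : 0 < z) (ht : 0 ≤ t) :
    gl2 1 L z t ≤ Cw 1 z t * (z * t ^ 2 - the L z) := by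
  have h2 : Cd 1 z t ≤ z * t ^ 2 * Cw 1 z t := by
    unfold Cd Cw
    have := mul_le_mul_of_nonneg_left (exp_aux (x := z * t) (by positivity)) ht
    nlinarith
  unfold gl2
  simp only [if_true, add_zero]
  linarith

lemma gl2_B {L z t : ℝ} (h0 : 0 ≤ the L z) (ht : 0 ≤ t) :
    gl2 1 L z t ≤ (t - the L z) * rexp (z * t) := by
  unfold gl2 Cd Cw
  simp only [if_true, add_zero]
  nlinarith [mul_nonneg (add_nonneg ht h0) (Real.exp_pos (-(z * t))).le]

lemma gl2_C {L z t : ℝ} (h0 : 0 < z) (ht : 0 ≤ t) :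
    gl2 (-1) L z t ≤ Cw (-1) z t * (z * t ^ 2 / (1 + z * t) - the L z) := by
  have h2 : Cd (-1) z t ≤ (1 / z + z * t ^ 2 / (1 + z * t)) * Cw (-1) z t := by
    unfold Cd Cw
    have h3 := exp_aux2 (x := z * t) (by positivity)
    have h4 := mul_le_mul_of_nonneg_left h3 (by positivity : 0 ≤ 1 / z)
    calc t * (rexp (z * t) - -1 * rexp (-(z * t)))
        = 1 / z * (z * t * (rexp (z * t) + rexp (-(z * t)))) := by field_simp; ring
      _ ≤ _ := h4
      _ = _ := by field_simp; ring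
  have h5 : ¬ ((-1 : ℝ) = 1) := by norm_num
  unfold gl2
  simp only [h5, if_false]
  linarith

lemma Ker.integrableOn_gl2 {T : ℝ → ℝ} (h : Ker T) (c W L : ℝ) {z : ℝ} (hz0 : 0 < z)
    (hz : z < 1 / 2) :
    IntegrableOn (fun t => T (t + c) * gl2 W L z t) (Ioi 0) := by
  set κ := (the L z + if W = 1 then 0 else 1 / z) with hκ
  have i1 := h.integrableOn_weight c 1 (z := z) (by linarith)
  have i2 := (h.integrableOn_weight c 1 (z := -z) (by linarith)).const_mul (-W)
  have i3 := (h.integrableOn_weight c 0 (z := z) (by linarith)).const_mul (-κ)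
  have i4 := (h.integrableOn_weight c 0 (z := -z) (by linarith)).const_mul (-κ * W)
  refine (((i1.add i2).add i3).add i4).congr_fun ?_ measurableSet_Ioi
  intro t _
  simp only [Pi.add_apply, gl2, Cd, Cw, ← hκ]
  have : -z * t = -(z * t) := by ring
  rw [this]
  ring

/-- closed forms -/
noncomputable def cA1 (κ R : ℝ) : ℝ := (1 - rexp (-κ * R) * (1 + κ * R)) / κ ^ 2
noncomputable def cA2 (κ R : ℝ) : ℝ :=
  (2 - rexp (-κ * R) * (2 + 2 * (κ * R) + (κ * R) ^ 2)) / κ ^ 3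

lemma int_poly_v {α β γ c a : ℝ} (hα : 0 ≤ α) (hβ : 0 ≤ β) (hγ : 0 ≤ γ) (hc0 : 0 < c)
    (ha : 0 ≤ a) :
    ∫ r in (0 : ℝ)..a, (α + β * (rexp r - 1) + γ * (rexp r - 1) ^ 2) * rexp r *
      rexp (-c * (rexp r - 1)) ≤ α / c + β / c ^ 2 + 2 * γ / c ^ 3 := by
  have hd : ∀ r ∈ uIcc (0 : ℝ) a, HasDerivAt
      (fun r => -((α + β * (rexp r - 1) + γ * (rexp r - 1) ^ 2) / c +
        (β + 2 * γ * (rexp r - 1)) / c ^ 2 + 2 * γ / c ^ 3) * rexp (-c * (rexp r - 1)))
      ((α + β * (rexp r - 1) + γ * (rexp r - 1) ^ 2) * rexp r * rexp (-c * (rexp r - 1))) r := by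
    intro r _
    have d1 : HasDerivAt (fun r : ℝ => rexp r - 1) (rexp r) r :=
      (Real.hasDerivAt_exp r).sub_const 1
    have d2 := (d1.const_mul (-c)).exp
    have d3 : HasDerivAt (fun r : ℝ => α + β * (rexp r - 1) + γ * (rexp r - 1) ^ 2)
        (β * rexp r + γ * (2 * (rexp r - 1) * rexp r)) r := by
      have := ((d1.const_mul β).const_add α).add ((d1.pow 2).const_mul γ)
      refine this.congr_deriv ?_
      norm_num
    have d4 : HasDerivAt (fun r : ℝ => β + 2 * γ * (rexp r - 1)) (2 * γ * rexp r) r :=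
      (d1.const_mul (2 * γ)).const_add β
    have d5 := (((d3.div_const c).add (d4.div_const (c ^ 2))).add_const (2 * γ / c ^ 3)).neg
    refine (d5.mul d2).congr_deriv ?_
    simp only [Pi.neg_apply, Pi.add_apply]
    field_simp
    ring
  rw [intervalIntegral.integral_eq_sub_of_hasDerivAt hd ((by fun_prop : Continuous fun r : ℝ =>
    (α + β * (rexp r - 1) + γ * (rexp r - 1) ^ 2) * rexp r *
      rexp (-c * (rexp r - 1))).intervalIntegrable _ _)]
  have h5 : 0 ≤ rexp a - 1 := by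
    have := Real.one_le_exp ha; linarith
  have h6 : 0 ≤ ((α + β * (rexp a - 1) + γ * (rexp a - 1) ^ 2) / c +
        (β + 2 * γ * (rexp a - 1)) / c ^ 2 + 2 * γ / c ^ 3) * rexp (-c * (rexp a - 1)) := by
    positivity
  simp only [Real.exp_zero, sub_self, mul_zero, add_zero, mul_one,
    ne_eq, OfNat.ofNat_ne_zero, not_false_eq_true, zero_pow]
  linarith

lemma low_factor {T : ℝ → ℝ} (hT : KH2 T) {a u0 c r : ℝ} (ha : 0 ≤ a) (hu : -a ≤ u0)
    (hc : c = 2 * π * rexp (-a)) (hr0 : 0 ≤ r) :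
    T u0 * (rexp (-r) * (1 + c * (1 - rexp (-r)))) ≤ T (u0 - r) := by
  have hy : 0 ≤ 1 - rexp (-r) := by
    have : rexp (-r) ≤ 1 := by rw [Real.exp_le_one_iff]; linarith
    linarith
  have hcm : c ≤ 2 * π * rexp (min u0 0) := by
    rw [hc]
    refine mul_le_mul_of_nonneg_left ?_ (by have := Real.pi_pos; positivity)
    exact Real.exp_le_exp.mpr (le_min hu (by linarith))
  refine le_trans (mul_le_mul_of_nonneg_left ?_ (hT.pos u0).le) (hT.low u0 r hr0)
  rw [Real.exp_add]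
  refine mul_le_mul_of_nonneg_left ?_ (Real.exp_pos _).le
  have h6 := Real.add_one_le_exp (2 * π * rexp (min u0 0) * (1 - rexp (-r)))
  have h7 := mul_le_mul_of_nonneg_right hcm hy
  linarith

lemma tail_factor {T : ℝ → ℝ} (hT : KH2 T) {a u0 c r : ℝ} (ha : 0 ≤ a) (hu : -a ≤ u0)
    (hc : c = 2 * π * rexp (-a)) (hr0 : 0 ≤ r) :
    T (u0 + a + r) ≤ T u0 * rexp (a - 2 * π + c) * rexp (-(2 * π - 1) * r) := by
  have h := hT.up_tail ha hu hr0
  rw [← hc] at h
  have e4 : c * (rexp a - 1) = 2 * π - c := by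
    rw [hc]
    have : rexp (-a) * rexp a = 1 := by rw [← Real.exp_add]; simp
    linear_combination 2 * π * this
  rw [e4] at h
  have e5 : a - (2 * π - c) = a - 2 * π + c := by ring
  rw [e5] at h
  exact h

lemma v_ineq {z r : ℝ} (hz : z ≤ 1 / 2) (hr0 : 0 ≤ r) : r * rexp (z * r) ≤ rexp r - 1 := by
  have h6 : rexp (z * r) ≤ rexp (r / 2) := Real.exp_le_exp.mpr (by nlinarith)
  have h7 : r * rexp (r / 2) ≤ rexp r - 1 := by
    have h8 : r ≤ rexp (r / 2) - rexp (-(r / 2)) := by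
      have := Real.self_le_sinh_iff.mpr (by linarith : 0 ≤ r / 2)
      rw [Real.sinh_eq] at this
      linarith
    have h9 := mul_le_mul_of_nonneg_right h8 (Real.exp_pos (r / 2)).le
    have e3 : (rexp (r / 2) - rexp (-(r / 2))) * rexp (r / 2) = rexp r - 1 := by
      rw [sub_mul, ← Real.exp_add, ← Real.exp_add]
      ring_nf
      rw [Real.exp_zero]
      ring
    linarith
  exact (mul_le_mul_of_nonneg_left h6 hr0).trans h7

lemma v_ineq2 {z r : ℝ} (hz : z ≤ 1 / 2) (hr0 : 0 ≤ r) :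
    r ^ 2 * rexp (z * r) ≤ (rexp r - 1) ^ 2 := by
  have h1 := v_ineq (z := 1 / 2) le_rfl hr0
  have h0 : 0 ≤ r * rexp (1 / 2 * r) := by positivity
  have h2 := mul_self_le_mul_self h0 h1
  have h3 : rexp (z * r) ≤ rexp r := Real.exp_le_exp.mpr (by nlinarith)
  have h4 : r * rexp (1 / 2 * r) * (r * rexp (1 / 2 * r)) = r ^ 2 * rexp r := by
    have : rexp r = rexp (1 / 2 * r) * rexp (1 / 2 * r) := by
      rw [← Real.exp_add]; ring_nf
    rw [this]; ring
  rw [h4] at h2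
  calc r ^ 2 * rexp (z * r) ≤ r ^ 2 * rexp r := mul_le_mul_of_nonneg_left h3 (by positivity)
    _ ≤ (rexp r - 1) * (rexp r - 1) := h2
    _ = _ := by ring

end Pool.Agent.MP0016c7
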