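import Mathlib
import Pool.Agent.Lib.MP_0016c7_nt.KernelGlobal0

open Filter Topology Set MeasureTheory
open scoped Real

namespace Pool.Agent.MP0016c7

/-- General regime of type A. -/
theorem regA {T : ℝ → ℝ} (hT : KH2 T) {b L z t0 R a κ c E : ℝ} {g : ℝ → ℝ}
    (hb : 0 ≤ b) (hz0 : 0 < z) (hz2 : z < 1 / 2) (hκ : 1 + z ≤ κ) (hκ0 : 0 < κ) (hR : 0 ≤ R)
    (hRt : R ≤ t0) (ha : 0 ≤ a) (hu : -a ≤ t0 - L) (hc : c = 2 * π * rexp (-a))
    (hgint : IntegrableOn (fun t => T (t + (b - L)) * g t) (Ioi 0))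
    (hg : ∀ t, 0 ≤ t → g t ≤ Cw 1 z t * (z * (t ^ 2 - t0 ^ 2)))
    (hE : (1 + z) * a - 2 * π + c ≤ E)
    (hnum : 2 * t0 * (1 / c ^ 2) + 2 / c ^ 3 + rexp E * ((2 * t0 * a + a ^ 2) * (1 / 4.78) +
        (2 * t0 + 2 * a) * (1 / 4.78 ^ 2) + 2 / 4.78 ^ 3) <
      2 * t0 * ((1 + c) * cA1 κ R - c * cA1 (κ + 1) R) -
        ((1 + c) * cA2 κ R - c * cA2 (κ + 1) R)) :
    ∫ t in Ioi 0, T (t + (b - L)) * g t < 0 := by
  have hpi := two_pi_bounds
  have hc0 : 0 < c := by rw [hc]; have := Real.pi_pos; positivity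
  have ht00 : 0 ≤ t0 := hR.trans hRt
  set u0 := t0 + (b - L) with hu0
  have hu' : -a ≤ u0 := by rw [hu0]; linarith only [hb, hu]
  set K := T u0 * Cw 1 z t0 * z with hKdef
  have hTu := hT.pos u0
  have hCt0 := Cw_one_pos z t0
  have hK0 : 0 < K := by positivity
  set p := 2 * π - 3 / 2 with hp
  have hp0 : 4.78 < p := by rw [hp]; linarith only [hpi]
  have hpp : 0 < p := by linarith only [hpi, hp]
  have iA := int_pow_exp 0 (α := p) hpp
  have iB := int_pow_exp 1 (α := p) hpp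
  have iC := int_pow_exp 2 (α := p) hpp
  have j1 : IntegrableOn (fun r : ℝ => (2 * t0 * a + a ^ 2) * (r ^ 0 * rexp (-p * r)) +
      (2 * t0 + 2 * a) * (r ^ 1 * rexp (-p * r))) (Ioi 0) :=
    (iA.1.const_mul _).add (iB.1.const_mul _)
  have hp2' : IntegrableOn (fun r : ℝ => (2 * t0 * a + a ^ 2) * (r ^ 0 * rexp (-p * r)) +
      (2 * t0 + 2 * a) * (r ^ 1 * rexp (-p * r)) + r ^ 2 * rexp (-p * r)) (Ioi 0) :=
    j1.add iC.1
  have hp2 : IntegrableOn (fun r : ℝ => rexp E * ((2 * t0 * a + a ^ 2) * (r ^ 0 * rexp (-p * r)) +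
      (2 * t0 + 2 * a) * (r ^ 1 * rexp (-p * r)) + r ^ 2 * rexp (-p * r))) (Ioi 0) :=
    hp2'.const_mul _
  refine pivot_neg hgint (t0 := t0) (R := R) (K := K) (a := a)
    (P1 := 0 / c + (2 * t0) / c ^ 2 + 2 * 1 / c ^ 3)
    (P2 := rexp E * ((2 * t0 * a + a ^ 2) * (1 / 4.78) +
        (2 * t0 + 2 * a) * (1 / 4.78 ^ 2) + 2 / 4.78 ^ 3))
    (N := 2 * t0 * ((1 + c) * cA1 κ R - c * cA1 (κ + 1) R) -
        ((1 + c) * cA2 κ R - c * cA2 (κ + 1) R))
    (p1 := fun r => (0 + 2 * t0 * (rexp r - 1) + 1 * (rexp r - 1) ^ 2) * rexp r *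
      rexp (-c * (rexp r - 1)))
    (p2 := fun r => rexp E * ((2 * t0 * a + a ^ 2) * (r ^ 0 * rexp (-p * r)) +
      (2 * t0 + 2 * a) * (r ^ 1 * rexp (-p * r)) + r ^ 2 * rexp (-p * r)))
    (n := fun r => 2 * t0 * ((1 + c) * (r * rexp (-κ * r)) - c * (r * rexp (-(κ + 1) * r))) -
      ((1 + c) * (r ^ 2 * rexp (-κ * r)) - c * (r ^ 2 * rexp (-(κ + 1) * r))))
    hK0 hR hRt ha ?_ ?_ ?_ ?_ (by fun_prop) (by fun_prop) hp2 ?_ ?_ ?_ ?_
  · intro r hr0 hr1
    have e2 : t0 + r + (b - L) = u0 + r := by rw [hu0]; ring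
    rw [e2]
    have hT1 := hT.up_mid ha hu' hr0 hr1
    rw [← hc] at hT1
    have hgr := hg (t0 + r) (by linarith only [hR, hRt, hr0])
    have e3 : (t0 + r) ^ 2 - t0 ^ 2 = 2 * t0 * r + r ^ 2 := by ring
    rw [e3] at hgr
    have hC1 := Cw_one_upper (z := z) (L := t0) (r := r) hz0.le hr0
    have h5 := v_ineq hz2.le hr0
    have h6 := v_ineq2 hz2.le hr0
    have hq : 0 ≤ z * (2 * t0 * r + r ^ 2) := by (clear * - hz0 ht00 hr0; positivity)
    have hCr := Cw_one_pos z (t0 + r)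
    calc T (u0 + r) * g (t0 + r)
        ≤ T (u0 + r) * (Cw 1 z (t0 + r) * (z * (2 * t0 * r + r ^ 2))) :=
          mul_le_mul_of_nonneg_left hgr (hT.pos _).le
      _ ≤ (T u0 * rexp (r - c * (rexp r - 1))) *
          ((Cw 1 z t0 * rexp (z * r)) * (z * (2 * t0 * r + r ^ 2))) :=
          mul_le_mul hT1 (mul_le_mul_of_nonneg_right hC1 hq) (by (clear * - hCr hz0 ht00 hr0; positivity)) (by positivity)
      _ = K * ((2 * t0 * (r * rexp (z * r)) + r ^ 2 * rexp (z * r)) *
            rexp (r - c * (rexp r - 1))) := by rw [hKdef]; ring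
      _ ≤ K * ((2 * t0 * (rexp r - 1) + (rexp r - 1) ^ 2) * rexp (r - c * (rexp r - 1))) := by
          refine mul_le_mul_of_nonneg_left (mul_le_mul_of_nonneg_right ?_ (Real.exp_pos _).le)
            hK0.le
          exact add_le_add (mul_le_mul_of_nonneg_left h5 (by positivity)) h6
      _ = _ := by
          have : rexp (r - c * (rexp r - 1)) = rexp r * rexp (-c * (rexp r - 1)) := by
            rw [← Real.exp_add]; ring_nf
          rw [this]; ring
  · intro r hr
    have e2 : t0 + a + r + (b - L) = u0 + a + r := by rw [hu0]; ring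
    rw [e2]
    have hT1 := tail_factor hT ha hu' hc hr.le
    have hgr := hg (t0 + a + r) (by linarith only [hR, hRt, ha, hr])
    have e3 : (t0 + a + r) ^ 2 - t0 ^ 2 = (2 * t0 * a + a ^ 2) + (2 * t0 + 2 * a) * r + r ^ 2 := by
      ring
    rw [e3] at hgr
    have hC1 := Cw_one_upper (z := z) (L := t0) (r := a + r) hz0.le (by linarith only [ha, hr])
    have e4 : t0 + (a + r) = t0 + a + r := by ring
    rw [e4] at hC1
    have hQ : 0 ≤ (2 * t0 * a + a ^ 2) + (2 * t0 + 2 * a) * r + r ^ 2 := by (clear * - ht00 ha hr; positivity)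
    have hq : 0 ≤ z * ((2 * t0 * a + a ^ 2) + (2 * t0 + 2 * a) * r + r ^ 2) := by (clear * - hz0 ht00 ha hr; positivity)
    have hCr := Cw_one_pos z (t0 + a + r)
    calc T (u0 + a + r) * g (t0 + a + r)
        ≤ T (u0 + a + r) * (Cw 1 z (t0 + a + r) *
          (z * ((2 * t0 * a + a ^ 2) + (2 * t0 + 2 * a) * r + r ^ 2))) :=
          mul_le_mul_of_nonneg_left hgr (hT.pos _).le
      _ ≤ (T u0 * rexp (a - 2 * π + c) * rexp (-(2 * π - 1) * r)) *
          ((Cw 1 z t0 * rexp (z * (a + r))) *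
          (z * ((2 * t0 * a + a ^ 2) + (2 * t0 + 2 * a) * r + r ^ 2))) :=
          mul_le_mul hT1 (mul_le_mul_of_nonneg_right hC1 hq) (by (clear * - hCr hz0 ht00 ha hr; positivity)) (by positivity)
      _ = K * (((2 * t0 * a + a ^ 2) + (2 * t0 + 2 * a) * r + r ^ 2) *
          (rexp (a - 2 * π + c) * rexp (-(2 * π - 1) * r) * rexp (z * (a + r)))) := by
          rw [hKdef]; ring
      _ ≤ K * (((2 * t0 * a + a ^ 2) + (2 * t0 + 2 * a) * r + r ^ 2) *
          (rexp E * rexp (-p * r))) := by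
          refine mul_le_mul_of_nonneg_left (mul_le_mul_of_nonneg_left ?_ hQ) hK0.le
          rw [← Real.exp_add, ← Real.exp_add, ← Real.exp_add, Real.exp_le_exp, hp]
          clear * - hE hz2 hr
          have hzr : z * r ≤ 1 / 2 * r := mul_le_mul_of_nonneg_right hz2.le (le_of_lt hr)
          linarith
      _ = _ := by ring
  · intro r hr0 hr1
    have e2 : t0 - r + (b - L) = u0 - r := by rw [hu0]; ring
    rw [e2]
    have hgr := hg (t0 - r) (by linarith only [hRt, hr1])
    have e3 : (t0 - r) ^ 2 - t0 ^ 2 = -(2 * t0 * r - r ^ 2) := by ring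
    rw [e3] at hgr
    have hlow := low_factor hT ha hu' hc hr0
    have hC1 := Cw_one_lower (z := z) (L := t0) (r := r) hz0.le hr0
    have hCr := Cw_one_pos z (t0 - r)
    have hy : 0 ≤ 1 - rexp (-r) := by
      have : rexp (-r) ≤ 1 := by rw [Real.exp_le_one_iff]; linarith only [hr0]
      linarith only [this]
    have hq : 0 ≤ 1 + c * (1 - rexp (-r)) := by positivity
    have hQ : 0 ≤ 2 * t0 * r - r ^ 2 := by
      clear * - hr0 hr1 hRt ht00
      have h := mul_nonneg hr0 (show 0 ≤ 2 * t0 - r by linarith)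
      linarith
    have hQz : 0 ≤ z * (2 * t0 * r - r ^ 2) := by positivity
    have main : K * ((2 * t0 * r - r ^ 2) * ((1 + c) * rexp (-κ * r) - c * rexp (-(κ + 1) * r))) ≤
        T (u0 - r) * (Cw 1 z (t0 - r) * (z * (2 * t0 * r - r ^ 2))) := by
      calc K * ((2 * t0 * r - r ^ 2) * ((1 + c) * rexp (-κ * r) - c * rexp (-(κ + 1) * r)))
          = K * ((2 * t0 * r - r ^ 2) * (rexp (-r) * (1 + c * (1 - rexp (-r)))) *
              rexp (-((κ - 1) * r))) := by
            have x1 : rexp (-κ * r) = rexp (-r) * rexp (-((κ - 1) * r)) := by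
              rw [← Real.exp_add]; ring_nf
            have x2 : rexp (-(κ + 1) * r) = rexp (-r) * rexp (-r) * rexp (-((κ - 1) * r)) := by
              rw [← Real.exp_add, ← Real.exp_add]; ring_nf
            rw [x1, x2]; ring
        _ ≤ K * ((2 * t0 * r - r ^ 2) * (rexp (-r) * (1 + c * (1 - rexp (-r)))) *
              rexp (-(z * r))) := by
            refine mul_le_mul_of_nonneg_left (mul_le_mul_of_nonneg_left ?_ (by positivity)) hK0.le
            rw [Real.exp_le_exp]
            clear * - hκ hr0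
            have hzr : (1 + z) * r ≤ κ * r := mul_le_mul_of_nonneg_right hκ hr0
            linarith
        _ = (T u0 * (rexp (-r) * (1 + c * (1 - rexp (-r))))) *
            ((Cw 1 z t0 * rexp (-(z * r))) * (z * (2 * t0 * r - r ^ 2))) := by
            rw [hKdef]; ring
        _ ≤ _ := mul_le_mul hlow (mul_le_mul_of_nonneg_right hC1 hQz) (by positivity)
            (hT.pos _).le
    have step := mul_le_mul_of_nonneg_left hgr (hT.pos (u0 - r)).le
    calc T (u0 - r) * g (t0 - r) ≤ _ := step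
      _ = -(T (u0 - r) * (Cw 1 z (t0 - r) * (z * (2 * t0 * r - r ^ 2)))) := by ring
      _ ≤ -(K * ((2 * t0 * r - r ^ 2) *
          ((1 + c) * rexp (-κ * r) - c * rexp (-(κ + 1) * r)))) := neg_le_neg main
      _ = _ := by ring
  · intro t ht0' ht1
    refine mul_nonpos_of_nonneg_of_nonpos (hT.pos _).le ((hg t ht0'.le).trans ?_)
    have h1 : t ^ 2 - t0 ^ 2 ≤ 0 := sub_nonpos.mpr (pow_le_pow_left₀ ht0'.le (by linarith only [hR, ht1]) 2)
    exact mul_nonpos_of_nonneg_of_nonpos (Cw_one_pos z t).le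
      (mul_nonpos_of_nonneg_of_nonpos hz0.le h1)
  · exact int_poly_v le_rfl (by positivity) zero_le_one hc0 ha
  · rw [integral_const_mul, integral_add j1 iC.1, integral_add (iA.1.const_mul _)
      (iB.1.const_mul _), integral_const_mul, integral_const_mul, iA.2, iB.2, iC.2]
    have h9 : 1 / p ≤ 1 / 4.78 := one_div_le_one_div_of_le (by norm_num) hp0.le
    have h10 : 1 / p ^ 2 ≤ 1 / 4.78 ^ 2 := one_div_le_one_div_of_le (by norm_num) (by gcongr)
    have h11 : 2 / p ^ 3 ≤ 2 / 4.78 ^ 3 :=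
      div_le_div_of_nonneg_left (by norm_num) (by norm_num) (by gcongr)
    have h12 := mul_le_mul_of_nonneg_left h9 (by positivity : 0 ≤ 2 * t0 * a + a ^ 2)
    have h13 := mul_le_mul_of_nonneg_left h10 (by positivity : 0 ≤ 2 * t0 + 2 * a)
    have f2 : Nat.factorial 2 = 2 := rfl
    rw [f2]
    simp only [Nat.factorial_zero, Nat.factorial_one, Nat.cast_one, zero_add, pow_one,
      Nat.cast_ofNat]
    have h14 : (1 + 1 : ℕ) = 2 := rfl
    have h15 : (2 + 1 : ℕ) = 3 := rfl
    rw [h14, h15]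
    exact mul_le_mul_of_nonneg_left (by linarith only [h11, h12, h13]) (Real.exp_pos _).le
  · have k1 : Continuous fun r : ℝ => (1 + c) * (r * rexp (-κ * r)) := by fun_prop
    have k2 : Continuous fun r : ℝ => c * (r * rexp (-(κ + 1) * r)) := by fun_prop
    have k3 : Continuous fun r : ℝ => (1 + c) * (r ^ 2 * rexp (-κ * r)) := by fun_prop
    have k4 : Continuous fun r : ℝ => c * (r ^ 2 * rexp (-(κ + 1) * r)) := by fun_prop
    rw [intervalIntegral.integral_sub, intervalIntegral.integral_const_mul,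
      intervalIntegral.integral_sub, intervalIntegral.integral_sub,
      intervalIntegral.integral_const_mul, intervalIntegral.integral_const_mul,
      intervalIntegral.integral_const_mul, intervalIntegral.integral_const_mul,
      int_r_exp hκ0, int_r_exp (by linarith only [hz0, hκ, hpi]), int_r2_exp hκ0, int_r2_exp (by linarith only [hz0, hκ, hpi])]
    · exact le_rfl
    · exact k3.intervalIntegrable _ _
    · exact k4.intervalIntegrable _ _
    · exact k1.intervalIntegrable _ _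
    · exact k2.intervalIntegrable _ _
    · exact ((k1.sub k2).const_mul (2 * t0)).intervalIntegrable _ _
    · exact (k3.sub k4).intervalIntegrable _ _
  · have e : (0 : ℝ) / c + (2 * t0) / c ^ 2 + 2 * 1 / c ^ 3 = 2 * t0 * (1 / c ^ 2) + 2 / c ^ 3 := by
      ring
    rw [e]
    exact hnum

end Pool.Agent.MP0016c7
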