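import Mathlib
import Pool.Agent.Lib.MP_0016c7_nt.KernelGlobal0

open Filter Topology Set MeasureTheory
open scoped Real

namespace Pool.Agent.MP0016c7

/-! ### numerical exponentials -/

lemma exp_rat_lt {x B : ℝ} (m n : ℕ) (hx : x * n = m) (hB : 0 ≤ B)
    (h : (2.7182818286 : ℝ) ^ m < B ^ n) : rexp x < B := by
  refine lt_of_pow_lt_pow_left₀ n hB ?_
  have e : rexp x ^ n = rexp 1 ^ m := by
    rw [← Real.exp_nat_mul, ← Real.exp_nat_mul, mul_comm, hx]; ring_nf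
  rw [e]
  refine lt_of_le_of_lt ?_ h
  exact pow_le_pow_left₀ (Real.exp_pos _).le Real.exp_one_lt_d9.le m

lemma lt_exp_rat {x B : ℝ} (m n : ℕ) (hx : x * n = m)
    (h : B ^ n < (2.7182818283 : ℝ) ^ m) : B < rexp x := by
  refine lt_of_pow_lt_pow_left₀ n (Real.exp_pos _).le ?_
  have e : rexp x ^ n = rexp 1 ^ m := by
    rw [← Real.exp_nat_mul, ← Real.exp_nat_mul, mul_comm, hx]; ring_nf
  rw [e]
  refine lt_of_lt_of_le h ?_
  exact pow_le_pow_left₀ (by norm_num) Real.exp_one_gt_d9.le m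

lemma exp_neg_lt {x y B A : ℝ} (hxy : y = -x) (h : B < rexp x) (hA : 0 < A) (hAB : 1 ≤ A * B) :
    rexp y < A := by
  have h1 : rexp x * rexp y = 1 := by rw [← Real.exp_add, hxy]; simp
  have h2 := Real.exp_pos y
  have h3 : 1 < A * rexp x := lt_of_le_of_lt hAB (mul_lt_mul_of_pos_left h hA)
  have h4 := mul_lt_mul_of_pos_right h3 h2
  calc rexp y = 1 * rexp y := (one_mul _).symm
    _ < A * rexp x * rexp y := h4
    _ = A * (rexp x * rexp y) := by ring
    _ = A := by rw [h1, mul_one]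

lemma lt_exp_neg {x y B A : ℝ} (hxy : y = -x) (h : rexp x < B) (hA0 : 0 < A) (hAB : A * B ≤ 1) :
    A < rexp y := by
  have h1 : rexp x * rexp y = 1 := by rw [← Real.exp_add, hxy]; simp
  have h2 := Real.exp_pos y
  have h3 : A * rexp x < 1 := lt_of_lt_of_le (mul_lt_mul_of_pos_left h hA0) hAB
  have h4 := mul_lt_mul_of_pos_right h3 h2
  calc A = A * (rexp x * rexp y) := by rw [h1, mul_one]
    _ = A * rexp x * rexp y := by ring
    _ < 1 * rexp y := h4
    _ = rexp y := one_mul _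

lemma c_bounds {a lo hi elo ehi : ℝ} (h1 : elo < rexp a) (h2 : rexp a < ehi)
    (hlo0 : 0 < lo) (hlo : lo * ehi ≤ 6.283) (hhi : 6.2832 ≤ hi * elo) (he : 0 < elo) :
    lo < 2 * π * rexp (-a) ∧ 2 * π * rexp (-a) < hi := by
  have hp := two_pi_bounds
  have h0 := Real.exp_pos a
  have hhi0 : 0 < hi := by
    by_contra h
    push Not at h
    nlinarith
  rw [Real.exp_neg, ← div_eq_mul_inv]
  constructor
  · rw [lt_div_iff₀ h0]
    nlinarith
  · rw [div_lt_iff₀ h0]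
    nlinarith

/-- rational functions of `c` -/
lemma inv_c_bounds {c lo : ℝ} (h0 : 0 < lo) (h : lo < c) :
    1 / c ≤ 1 / lo ∧ 1 / c ^ 2 ≤ 1 / lo ^ 2 ∧ 1 / c ^ 3 ≤ 1 / lo ^ 3 :=
  ⟨one_div_le_one_div_of_le h0 h.le, one_div_le_one_div_of_le (by positivity) (by gcongr),
    one_div_le_one_div_of_le (by positivity) (by gcongr)⟩

lemma cA1_upper {κ R : ℝ} (hκ : 0 < κ) (hR : 0 ≤ R) : cA1 κ R ≤ 1 / κ ^ 2 := by
  unfold cA1
  refine div_le_div_of_nonneg_right ?_ (by positivity)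
  have : 0 ≤ rexp (-κ * R) * (1 + κ * R) := by positivity
  linarith

lemma kg_lower {c x y X Y B : ℝ} (hc : 0 ≤ c) (hx : X ≤ x) (hy : y ≤ Y)
    (hB : B ≤ X + c * (X - Y)) : B ≤ (1 + c) * x - c * y := by
  have h1 := mul_le_mul_of_nonneg_left hx (by linarith : 0 ≤ 1 + c)
  have h2 := mul_le_mul_of_nonneg_left hy hc
  linarith

lemma kg_upper {c x y X Y B : ℝ} (hc : 0 ≤ c) (hx : x ≤ X) (hy : Y ≤ y)
    (hB : X + c * (X - Y) ≤ B) : (1 + c) * x - c * y ≤ B := by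
  have h1 := mul_le_mul_of_nonneg_left hx (by linarith : 0 ≤ 1 + c)
  have h2 := mul_le_mul_of_nonneg_left hy hc
  linarith

/-! ### numeric facts used below -/

lemma e21 : rexp (-2.1) < 0.1226 ∧ 0.1224 < rexp (-2.1) := by
  have h1 : (8.166 : ℝ) < rexp 2.1 := lt_exp_rat 21 10 (by norm_num) (by norm_num)
  have h2 : rexp 2.1 < 8.167 := exp_rat_lt 21 10 (by norm_num) (by norm_num) (by norm_num)
  exact ⟨exp_neg_lt (x := 2.1) (by norm_num) h1 (by norm_num) (by norm_num),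
    lt_exp_neg (x := 2.1) (by norm_num) h2 (by norm_num) (by norm_num)⟩

lemma e35 : rexp (-3.5) < 0.0303 := by
  have h1 : (33.1 : ℝ) < rexp 3.5 := lt_exp_rat 35 10 (by norm_num) (by norm_num)
  exact exp_neg_lt (x := 3.5) (by norm_num) h1 (by norm_num) (by norm_num)

lemma e225 : rexp (-2.25) < 0.1055 ∧ 0.1053 < rexp (-2.25) := by
  have h1 : (9.487 : ℝ) < rexp 2.25 := lt_exp_rat 9 4 (by norm_num) (by norm_num)
  have h2 : rexp 2.25 < 9.488 := exp_rat_lt 9 4 (by norm_num) (by norm_num) (by norm_num)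
  exact ⟨exp_neg_lt (x := 2.25) (by norm_num) h1 (by norm_num) (by norm_num),
    lt_exp_neg (x := 2.25) (by norm_num) h2 (by norm_num) (by norm_num)⟩

lemma e405 : rexp (-4.05) < 0.0175 := by
  have h1 : (57.3 : ℝ) < rexp 4.05 := lt_exp_rat 81 20 (by norm_num) (by norm_num)
  exact exp_neg_lt (x := 4.05) (by norm_num) h1 (by norm_num) (by norm_num)

lemma e44 : rexp (-4.4) < 0.0123 := by
  have h1 : (81.4 : ℝ) < rexp 4.4 := lt_exp_rat 22 5 (by norm_num) (by norm_num)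
  exact exp_neg_lt (x := 4.4) (by norm_num) h1 (by norm_num) (by norm_num)

lemma e23 : rexp (-2.3) < 0.1005 := by
  have h1 : (9.97 : ℝ) < rexp 2.3 := lt_exp_rat 23 10 (by norm_num) (by norm_num)
  exact exp_neg_lt (x := 2.3) (by norm_num) h1 (by norm_num) (by norm_num)

lemma e30 : rexp (-3) < 0.0498 := by
  have h1 : (20.085 : ℝ) < rexp 3 := lt_exp_rat 3 1 (by norm_num) (by norm_num)
  exact exp_neg_lt (x := 3) (by norm_num) h1 (by norm_num) (by norm_num)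

lemma the_pos_aux {z : ℝ} (h0 : 0 < z) : 1 / (1 / 2 + z) < 2 := by
  rw [div_lt_iff₀ (by linarith)]; linarith

/-! ### `W = 1` -/

/-- `t0^2 ≤ S`, `z S ≤ the L z` gives the type A hypothesis. -/
lemma gl2_A' {L z t t0 : ℝ} (h0 : 0 < z) (ht : 0 ≤ t) (h : z * t0 ^ 2 ≤ the L z) :
    gl2 1 L z t ≤ Cw 1 z t * (z * (t ^ 2 - t0 ^ 2)) := by
  refine (gl2_A h0 ht).trans (mul_le_mul_of_nonneg_left ?_ (Cw_one_pos z t).le)
  linarith

end Pool.Agent.MP0016c7
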