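import Mathlib
import Pool.Agent.Lib.MP_0016c7_nt.KernelGlobal2
import Pool.Agent.Lib.MP_0016c7_nt.KernelGlobalNum

open Filter Topology Set MeasureTheory
open scoped Real

namespace Pool.Agent.MP0016c7

theorem neg_A1 {T : ℝ → ℝ} (hT : KH2 T) (hK : Ker T) {b L z : ℝ} (hb : 0 ≤ b)
    (hz0 : 0 < z) (hz2 : z < 1 / 2) (hL : 2 ≤ L) (hL2 : L ≤ 2.75) :
    ∫ t in Ioi 0, T (t + (b - L)) * gl2 1 L z t < 0 := by
  have hS : 0 ≤ 2 * L - 2 := by linarith
  set t0 := √(2 * L - 2) with ht0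
  have hsq : t0 ^ 2 = 2 * L - 2 := Real.sq_sqrt hS
  have ht00 : 0 ≤ t0 := Real.sqrt_nonneg _
  have h14 : 1.4 ≤ t0 := by
    rw [ht0]; apply Real.le_sqrt_of_sq_le; norm_num; linarith
  have h14' : t0 ≤ 1.9 := by
    rw [ht0]; apply Real.sqrt_le_iff.mpr; constructor <;> norm_num; linarith
  have hu : -(0.9 : ℝ) ≤ t0 - L := by
    have : L - 0.9 ≤ t0 := by
      rw [ht0]; apply Real.le_sqrt_of_sq_le; nlinarith only [hL2, hz0, hz2, hL]
    linarith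
  have hcb : 2.554 < 2 * π * rexp (-0.9) ∧ 2 * π * rexp (-0.9) < 2.556 := by
    have h1 : (2.459 : ℝ) < rexp 0.9 := lt_exp_rat 9 10 (by norm_num) (by norm_num)
    have h2 : rexp 0.9 < 2.46 := exp_rat_lt 9 10 (by norm_num) (by norm_num) (by norm_num)
    exact c_bounds h1 h2 (by norm_num) (by norm_num) (by norm_num) (by norm_num)
  set c := 2 * π * rexp (-0.9) with hc
  obtain ⟨hc1, hc2⟩ := hcb
  have hpi := two_pi_bounds
  have hth : z * t0 ^ 2 ≤ the L z := by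
    rw [hsq]
    unfold the
    have hs : 0 < 1 / 2 + z := by linarith only [hz0, hpi]
    rw [le_sub_iff_add_le, ← le_sub_iff_add_le', div_le_iff₀ hs]
    clear * - hz0 hz2 hL
    linarith only [hL, hz2, hz0, mul_nonneg (by linarith : 0 ≤ L - 2) (by linarith : 0 ≤ 1 - 2 * z),
      mul_nonneg (mul_nonneg (by linarith : 0 ≤ L - 2) (by linarith : 0 ≤ 1 - 2 * z)) hz0.le,
      mul_nonneg hz0.le (by linarith : 0 ≤ 1 - 2 * z)]
  refine regA hT hb hz0 hz2 (t0 := t0) (R := 1.4) (a := 0.9) (κ := 1.5) (c := c) (E := -2.3)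
    (by linarith only [hz2]) (by norm_num) (by norm_num) h14 (by norm_num) hu hc
    (hK.integrableOn_gl2 (b - L) 1 L hz0 hz2) (fun t ht => gl2_A' hz0 ht hth) (by linarith only [hz2, hc2, hpi]) ?_
  obtain ⟨i1, i2, i3⟩ := inv_c_bounds (by norm_num) hc1
  clear * - hc1 hc2 i1 i2 i3 h14 h14' ht00
  have x1 : 0.275 ≤ cA1 1.5 1.4 := by
    have h := e21.1
    unfold cA1; norm_num at h ⊢; linarith only [hc1, hc2, h]
  have y1 : cA1 (1.5 + 1) 1.4 ≤ 0.16 :=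
    (cA1_upper (by norm_num) (by norm_num)).trans (by norm_num)
  have x2 : cA2 1.5 1.4 ≤ 0.21 := by
    have h := e21.2
    unfold cA2; norm_num at h ⊢; linarith only [hc1, hc2, h]
  have y2 : 0.08 ≤ cA2 (1.5 + 1) 1.4 := by
    have h := e35
    unfold cA2; norm_num at h ⊢; linarith only [hc1, hc2, h]
  have hE := e23
  have q1 : (0.56 : ℝ) ≤ (1 + c) * cA1 1.5 1.4 - c * cA1 (1.5 + 1) 1.4 :=
    kg_lower (by linarith only [hc1, hc2]) x1 y1 (by linarith only [hc1, hc2])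
  have q2 : (1 + c) * cA2 1.5 1.4 - c * cA2 (1.5 + 1) 1.4 ≤ 0.56 :=
    kg_upper (by linarith only [hc1, hc2]) x2 y2 (by linarith only [hc1, hc2])
  have q3 : rexp (-2.3) * ((2 * t0 * 0.9 + 0.9 ^ 2) * (1 / 4.78) +
        (2 * t0 + 2 * 0.9) * (1 / 4.78 ^ 2) + 2 / 4.78 ^ 3) ≤ 0.13 := by
    have h1 : (2 * t0 * 0.9 + 0.9 ^ 2) * (1 / 4.78) +
        (2 * t0 + 2 * 0.9) * (1 / 4.78 ^ 2) + 2 / 4.78 ^ 3 ≤ 1.2 := by
      norm_num; linarith only [h14', hc1, hc2]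
    have h2 : 0 ≤ (2 * t0 * 0.9 + 0.9 ^ 2) * (1 / 4.78) +
        (2 * t0 + 2 * 0.9) * (1 / 4.78 ^ 2) + 2 / 4.78 ^ 3 := by positivity
    exact (mul_le_mul hE.le h1 h2 (by norm_num)).trans (by norm_num)
  have q4 : 2 * t0 * (1 / c ^ 2) ≤ 2 * t0 * 0.1534 := by
    refine mul_le_mul_of_nonneg_left (i2.trans ?_) (by positivity)
    norm_num
  have q5 : 2 / c ^ 3 ≤ 0.121 := by
    have : 2 / c ^ 3 = 2 * (1 / c ^ 3) := by ring
    rw [this]; norm_num at i3 ⊢; linarith only [hc1, hc2, i3]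
  have q6 : 2 * t0 * 0.56 ≤ 2 * t0 * ((1 + c) * cA1 1.5 1.4 - c * cA1 (1.5 + 1) 1.4) :=
    mul_le_mul_of_nonneg_left q1 (by positivity)
  linarith only [h14, hc1, hc2, q2, q3, q4, q5, q6]

theorem neg_A23 {T : ℝ → ℝ} (hT : KH2 T) (hK : Ker T) {b L z : ℝ} (hb : 0 ≤ b)
    (hz0 : 0 < z) (hz2 : z ≤ 1 / 4) (hL : 2.75 ≤ L)
    (hL2 : L ≤ 4.5 ∨ (4.5 ≤ L ∧ L ≤ 6 ∧ z ≤ 0.1)) :
    ∫ t in Ioi 0, T (t + (b - L)) * gl2 1 L z t < 0 := by
  set t0 := L - 0.95 with ht0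
  have h18 : 1.8 ≤ t0 := by rw [ht0]; linarith
  have hu : -(0.95 : ℝ) ≤ t0 - L := by rw [ht0]; linarith
  have h6 : t0 ≤ 5.05 := by
    rw [ht0]; rcases hL2 with h | h <;> linarith only [hz0, hz2, h]
  have hcb : 2.4295 < 2 * π * rexp (-0.95) ∧ 2 * π * rexp (-0.95) < 2.431 := by
    have h1 : (2.585 : ℝ) < rexp 0.95 := lt_exp_rat 19 20 (by norm_num) (by norm_num)
    have h2 : rexp 0.95 < 2.586 := exp_rat_lt 19 20 (by norm_num) (by norm_num) (by norm_num)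
    exact c_bounds h1 h2 (by norm_num) (by norm_num) (by norm_num) (by norm_num)
  set c := 2 * π * rexp (-0.95) with hc
  obtain ⟨hc1, hc2⟩ := hcb
  have hpi := two_pi_bounds
  have hth : z * t0 ^ 2 ≤ the L z := by
    clear * - hz0 hz2 hL hL2 h18 h6 ht0
    unfold the
    have hs : 0 < 1 / 2 + z := by linarith
    have h1 : 1 / (1 / 2 + z) ≤ 2 - 4 * z + 8 * z ^ 2 := by
      rw [div_le_iff₀ hs]
      linarith [mul_pos hz0 (mul_pos hz0 hz0)]
    rcases hL2 with h | ⟨h45, h, h'⟩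
    · -- (L - .95)^2 ≤ 3.55 (L-.95)
      have h2 : 1 / (1 / 2 + z) ≤ 2 - 8 / 3 * z := by
        rw [div_le_iff₀ hs]
        linarith only [hz0, hz2, mul_nonneg hz0.le (by linarith : 0 ≤ 1 - 4 * z)]
      have h3 : t0 ^ 2 ≤ 5.35 * L - 11.4725 := by
        have h12 := mul_nonneg (by linarith only [hL] : 0 ≤ L - 2.75) (by linarith only [h] : 0 ≤ 4.5 - L)
        rw [ht0]
        clear * - h12
        linarith
      have h4 : z * t0 ^ 2 ≤ z * (5.35 * L - 11.4725) := mul_le_mul_of_nonneg_left h3 hz0.le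
      have h5 : z * (5.35 * L - 11.4725) ≤ L - (2 - 8 / 3 * z) := by
        linarith only [hz0, hz2, hL, h, mul_nonneg (by linarith only [hz2] : 0 ≤ 1 - 4 * z) (by linarith only [hz0, hz2, hL] : 0 ≤ L - 2),
          mul_nonneg hz0.le (by linarith only [h] : 0 ≤ 4.5 - L)]
      linarith only [h2, h4, h5]
    · have h2 : 1 / (1 / 2 + z) < 2 := the_pos_aux hz0
      have h3 : t0 ^ 2 ≤ 5.05 * t0 := by
        rw [sq]
        exact mul_le_mul_of_nonneg_right h6 (by linarith only [hz0, ht0, h45, h'])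
      have h4 : z * t0 ^ 2 ≤ 0.1 * (5.05 * t0) :=
        mul_le_mul h' h3 (by positivity) (by norm_num)
      rw [ht0] at h4 ⊢
      linarith only [hz0, h45, h', h2, h4]
  have ht00 : 0 ≤ t0 := by linarith only [hL, ht0, hpi]
  refine regA hT hb hz0 (by linarith only [hz2, hpi]) (t0 := t0) (R := 1.8) (a := 0.95) (κ := 1.25) (c := c)
    (E := -2.6) (by linarith only [hz2]) (by norm_num) (by norm_num) h18 (by norm_num) hu hc
    (hK.integrableOn_gl2 (b - L) 1 L hz0 (by linarith only [hz2, hpi])) (fun t ht => gl2_A' hz0 ht hth)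
    (by linarith only [hz2, hc2, hpi]) ?_
  obtain ⟨i1, i2, i3⟩ := inv_c_bounds (by norm_num) hc1
  clear * - hc1 hc2 i1 i2 i3 h18 h6 ht00
  have x1 : 0.42 ≤ cA1 1.25 1.8 := by
    have h := e225.1
    unfold cA1; norm_num at h ⊢; linarith only [h]
  have y1 : cA1 (1.25 + 1) 1.8 ≤ 0.1976 :=
    (cA1_upper (by norm_num) (by norm_num)).trans (by norm_num)
  have x2 : cA2 1.25 1.8 ≤ 0.41 := by
    have h := e225.2
    unfold cA2; norm_num at h ⊢; linarith only [h]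
  have y2 : 0.13 ≤ cA2 (1.25 + 1) 1.8 := by
    have h := e405
    unfold cA2; norm_num at h ⊢; linarith only [h]
  have hE := exp_26
  have q1 : (0.95 : ℝ) ≤ (1 + c) * cA1 1.25 1.8 - c * cA1 (1.25 + 1) 1.8 :=
    kg_lower (by linarith only [hc1]) x1 y1 (by linarith only [hc1])
  have q2 : (1 + c) * cA2 1.25 1.8 - c * cA2 (1.25 + 1) 1.8 ≤ 1.1 :=
    kg_upper (by linarith only [hc1]) x2 y2 (by linarith only [hc2])
  have q3 : rexp (-2.6) * ((2 * t0 * 0.95 + 0.95 ^ 2) * (1 / 4.78) +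
        (2 * t0 + 2 * 0.95) * (1 / 4.78 ^ 2) + 2 / 4.78 ^ 3) ≤ 0.24 := by
    have h1 : (2 * t0 * 0.95 + 0.95 ^ 2) * (1 / 4.78) +
        (2 * t0 + 2 * 0.95) * (1 / 4.78 ^ 2) + 2 / 4.78 ^ 3 ≤ 3 := by
      norm_num; linarith only [h6]
    have h2 : 0 ≤ (2 * t0 * 0.95 + 0.95 ^ 2) * (1 / 4.78) +
        (2 * t0 + 2 * 0.95) * (1 / 4.78 ^ 2) + 2 / 4.78 ^ 3 := by positivity
    exact (mul_le_mul hE.le h1 h2 (by norm_num)).trans (by norm_num)
  have q4 : 2 * t0 * (1 / c ^ 2) ≤ 2 * t0 * 0.17 := by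
    refine mul_le_mul_of_nonneg_left (i2.trans ?_) (by positivity)
    norm_num
  have q5 : 2 / c ^ 3 ≤ 0.14 := by
    have : 2 / c ^ 3 = 2 * (1 / c ^ 3) := by ring
    rw [this]; norm_num at i3 ⊢; linarith only [i3]
  have q6 : 2 * t0 * 0.95 ≤ 2 * t0 * ((1 + c) * cA1 1.25 1.8 - c * cA1 (1.25 + 1) 1.8) :=
    mul_le_mul_of_nonneg_left q1 (by positivity)
  linarith only [h18, q2, q3, q4, q5, q6]

end Pool.Agent.MP0016c7
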