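import Mathlib
import Pool.Agent.Lib.MP_0016c7_nt.KernelGlobal0

open Filter Topology Set MeasureTheory
open scoped Real

namespace Pool.Agent.MP0016c7

/-- General regime of type B. -/
theorem regB {T : ℝ → ℝ} (hT : KH2 T) {b L z t0 R a κ c α β γ E : ℝ} {g : ℝ → ℝ}
    (hb : 0 ≤ b) (hz0 : 0 < z) (hz2 : z < 1 / 2) (hκ : 1 + z ≤ κ) (hκ0 : 0 < κ) (hR : 0 ≤ R)
    (hRt : R ≤ t0) (ha : 0 ≤ a) (hu : -a ≤ t0 - L) (hc : c = 2 * π * rexp (-a))
    (hgint : IntegrableOn (fun t => T (t + (b - L)) * g t) (Ioi 0))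
    (hg : ∀ t, 0 ≤ t → g t ≤ (t - t0) * rexp (z * t))
    (hα : 0 ≤ α) (hβ : 0 ≤ β) (hγ : 0 ≤ γ)
    (hpoly : ∀ r, 0 ≤ r → r * rexp (z * r) ≤ α + β * (rexp r - 1) + γ * (rexp r - 1) ^ 2)
    (hE : (1 + z) * a - 2 * π + c ≤ E)
    (hnum : α / c + β / c ^ 2 + 2 * γ / c ^ 3 + rexp E * (a * (1 / 4.78) + 1 / 4.78 ^ 2) <
      (1 + c) * cA1 κ R - c * cA1 (κ + 1) R) :
    ∫ t in Ioi 0, T (t + (b - L)) * g t < 0 := by
  have hpi := two_pi_bounds
  have hc0 : 0 < c := by rw [hc]; have := Real.pi_pos; positivity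
  set u0 := t0 + (b - L) with hu0
  have hu' : -a ≤ u0 := by rw [hu0]; linarith
  set K := T u0 * rexp (z * t0) with hKdef
  have hTu := hT.pos u0
  have hK0 : 0 < K := by positivity
  set p := 2 * π - 3 / 2 with hp
  have hp0 : 4.78 < p := by rw [hp]; linarith
  have hpp : 0 < p := by linarith
  have iA := int_pow_exp 0 (α := p) hpp
  have iB := int_pow_exp 1 (α := p) hpp
  have hp2 : IntegrableOn (fun r : ℝ => rexp E *
      (a * (r ^ 0 * rexp (-p * r)) + r ^ 1 * rexp (-p * r))) (Ioi 0) :=
    ((iA.1.const_mul a).add iB.1).const_mul _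
  refine pivot_neg hgint (t0 := t0) (R := R) (K := K) (a := a)
    (P1 := α / c + β / c ^ 2 + 2 * γ / c ^ 3)
    (P2 := rexp E * (a * (1 / 4.78) + 1 / 4.78 ^ 2))
    (N := (1 + c) * cA1 κ R - c * cA1 (κ + 1) R)
    (p1 := fun r => (α + β * (rexp r - 1) + γ * (rexp r - 1) ^ 2) * rexp r *
      rexp (-c * (rexp r - 1)))
    (p2 := fun r => rexp E * (a * (r ^ 0 * rexp (-p * r)) + r ^ 1 * rexp (-p * r)))
    (n := fun r => (1 + c) * (r * rexp (-κ * r)) - c * (r * rexp (-(κ + 1) * r)))
    hK0 hR hRt ha ?_ ?_ ?_ ?_ (by fun_prop) (by fun_prop) hp2 ?_ ?_ ?_ hnum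
  · intro r hr0 hr1
    have e2 : t0 + r + (b - L) = u0 + r := by rw [hu0]; ring
    rw [e2]
    have hT1 := hT.up_mid ha hu' hr0 hr1
    rw [← hc] at hT1
    have hgr := hg (t0 + r) (by linarith)
    rw [add_sub_cancel_left] at hgr
    have h5 := hpoly r hr0
    calc T (u0 + r) * g (t0 + r)
        ≤ T (u0 + r) * (r * rexp (z * (t0 + r))) := mul_le_mul_of_nonneg_left hgr (hT.pos _).le
      _ ≤ (T u0 * rexp (r - c * (rexp r - 1))) * (r * rexp (z * (t0 + r))) :=
          mul_le_mul_of_nonneg_right hT1 (by positivity)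
      _ = K * ((r * rexp (z * r)) * rexp (r - c * (rexp r - 1))) := by
          have : rexp (z * (t0 + r)) = rexp (z * t0) * rexp (z * r) := by
            rw [← Real.exp_add]; ring_nf
          rw [this, hKdef]; ring
      _ ≤ K * ((α + β * (rexp r - 1) + γ * (rexp r - 1) ^ 2) * rexp (r - c * (rexp r - 1))) :=
          mul_le_mul_of_nonneg_left (mul_le_mul_of_nonneg_right h5 (Real.exp_pos _).le) hK0.le
      _ = _ := by
          have : rexp (r - c * (rexp r - 1)) = rexp r * rexp (-c * (rexp r - 1)) := by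
            rw [← Real.exp_add]; ring_nf
          rw [this]; ring
  · intro r hr
    have e2 : t0 + a + r + (b - L) = u0 + a + r := by rw [hu0]; ring
    rw [e2]
    have hT1 := tail_factor hT ha hu' hc hr.le
    have hgr := hg (t0 + a + r) (by linarith)
    have e3 : t0 + a + r - t0 = a + r := by ring
    rw [e3] at hgr
    calc T (u0 + a + r) * g (t0 + a + r)
        ≤ T (u0 + a + r) * ((a + r) * rexp (z * (t0 + a + r))) :=
          mul_le_mul_of_nonneg_left hgr (hT.pos _).le
      _ ≤ (T u0 * rexp (a - 2 * π + c) * rexp (-(2 * π - 1) * r)) *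
          ((a + r) * rexp (z * (t0 + a + r))) :=
          mul_le_mul_of_nonneg_right hT1 (by positivity)
      _ = K * ((a + r) * (rexp (a - 2 * π + c) * rexp (-(2 * π - 1) * r) *
            rexp (z * (a + r)))) := by
          have : rexp (z * (t0 + a + r)) = rexp (z * t0) * rexp (z * (a + r)) := by
            rw [← Real.exp_add]; ring_nf
          rw [this, hKdef]; ring
      _ ≤ K * ((a + r) * (rexp E * rexp (-p * r))) := by
          refine mul_le_mul_of_nonneg_left (mul_le_mul_of_nonneg_left ?_ (by positivity)) hK0.le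
          rw [← Real.exp_add, ← Real.exp_add, ← Real.exp_add, Real.exp_le_exp, hp]
          have h12 := mul_le_mul_of_nonneg_right hz2.le hr.le
          clear * - h12 hE
          linarith
      _ = _ := by ring
  · intro r hr0 hr1
    have e2 : t0 - r + (b - L) = u0 - r := by rw [hu0]; ring
    rw [e2]
    have hgr := hg (t0 - r) (by linarith)
    have e3 : t0 - r - t0 = -r := by ring
    rw [e3] at hgr
    have hlow := low_factor hT ha hu' hc hr0
    have hy : 0 ≤ 1 - rexp (-r) := by
      have : rexp (-r) ≤ 1 := by rw [Real.exp_le_one_iff]; linarith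
      linarith
    have hq : 0 ≤ 1 + c * (1 - rexp (-r)) := by positivity
    have main : K * ((1 + c) * (r * rexp (-κ * r)) - c * (r * rexp (-(κ + 1) * r))) ≤
        T (u0 - r) * (r * rexp (z * (t0 - r))) := by
      calc K * ((1 + c) * (r * rexp (-κ * r)) - c * (r * rexp (-(κ + 1) * r)))
          = K * (r * (rexp (-r) * (1 + c * (1 - rexp (-r)))) * rexp (-((κ - 1) * r))) := by
            have x1 : rexp (-κ * r) = rexp (-r) * rexp (-((κ - 1) * r)) := by
              rw [← Real.exp_add]; ring_nf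
            have x2 : rexp (-(κ + 1) * r) = rexp (-r) * rexp (-r) * rexp (-((κ - 1) * r)) := by
              rw [← Real.exp_add, ← Real.exp_add]; ring_nf
            rw [x1, x2]; ring
        _ ≤ K * (r * (rexp (-r) * (1 + c * (1 - rexp (-r)))) * rexp (-(z * r))) := by
            refine mul_le_mul_of_nonneg_left (mul_le_mul_of_nonneg_left ?_ (by positivity)) hK0.le
            rw [Real.exp_le_exp]
            have h12 := mul_le_mul_of_nonneg_right hκ hr0
            clear * - h12
            linarith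
        _ = (T u0 * (rexp (-r) * (1 + c * (1 - rexp (-r))))) * (r * rexp (z * (t0 - r))) := by
            have : rexp (z * (t0 - r)) = rexp (z * t0) * rexp (-(z * r)) := by
              rw [← Real.exp_add]; ring_nf
            rw [this, hKdef]; ring
        _ ≤ _ := mul_le_mul_of_nonneg_right hlow (by positivity)
    have step := mul_le_mul_of_nonneg_left hgr (hT.pos (u0 - r)).le
    calc T (u0 - r) * g (t0 - r) ≤ _ := step
      _ = -(T (u0 - r) * (r * rexp (z * (t0 - r)))) := by ring
      _ ≤ -(K * ((1 + c) * (r * rexp (-κ * r)) - c * (r * rexp (-(κ + 1) * r)))) :=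
          neg_le_neg main
      _ = _ := by ring
  · intro t ht0' ht1
    refine mul_nonpos_of_nonneg_of_nonpos (hT.pos _).le ((hg t ht0'.le).trans ?_)
    exact mul_nonpos_of_nonpos_of_nonneg (by linarith) (Real.exp_pos _).le
  · exact int_poly_v hα hβ hγ hc0 ha
  · rw [integral_const_mul, integral_add (iA.1.const_mul _) iB.1, integral_const_mul, iA.2, iB.2]
    have h9 : 1 / p ≤ 1 / 4.78 := one_div_le_one_div_of_le (by norm_num) hp0.le
    have h10 : 1 / p ^ 2 ≤ 1 / 4.78 ^ 2 := one_div_le_one_div_of_le (by norm_num) (by gcongr)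
    have h11 := mul_le_mul_of_nonneg_left h9 ha
    simp only [Nat.factorial_zero, Nat.factorial_one, Nat.cast_one, zero_add, pow_one]
    have h12 : (1 + 1 : ℕ) = 2 := rfl
    rw [h12]
    exact mul_le_mul_of_nonneg_left (by linarith) (Real.exp_pos _).le
  · rw [intervalIntegral.integral_sub, intervalIntegral.integral_const_mul,
      intervalIntegral.integral_const_mul, int_r_exp hκ0, int_r_exp (by linarith)]
    · exact le_rfl
    · exact (by fun_prop : Continuous _).intervalIntegrable _ _
    · exact (by fun_prop : Continuous _).intervalIntegrable _ _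

end Pool.Agent.MP0016c7
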