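import Mathlib
import Pool.Agent.Lib.MP_0016c7_nt.KernelGlobal
import Pool.Agent.Lib.MP_0016c7_nt.KernelGlobalNum

open Filter Topology Set MeasureTheory
open scoped Real

namespace Pool.Agent.MP0016c7

theorem neg_B1 {T : ℝ → ℝ} (hT : KH2 T) (hK : Ker T) {b L z : ℝ} (hb : 0 ≤ b)
    (hz0 : 1 / 4 ≤ z) (hz2 : z < 1 / 2) (hL : 2.75 ≤ L) :
    ∫ t in Ioi 0, T (t + (b - L)) * gl2 1 L z t < 0 := by
  have hz00 : 0 < z := by linarith
  have hinv : 1 / (1 / 2 + z) ≤ 4 / 3 := by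
    rw [div_le_iff₀ (by linarith)]; linarith
  set t0 := the L z with ht0
  have ht0' : t0 = L - 1 / (1 / 2 + z) := rfl
  have h14 : 1.4 ≤ t0 := by rw [ht0']; linarith
  have hu : -(4 / 3 : ℝ) ≤ t0 - L := by rw [ht0']; linarith
  have hcb : 1.656 < 2 * π * rexp (-(4 / 3)) ∧ 2 * π * rexp (-(4 / 3)) < 1.657 := by
    have h1 : (3.793 : ℝ) < rexp (4 / 3) := lt_exp_rat 4 3 (by norm_num) (by norm_num)
    have h2 : rexp (4 / 3) < 3.794 := exp_rat_lt 4 3 (by norm_num) (by norm_num) (by norm_num)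
    exact c_bounds h1 h2 (by norm_num) (by norm_num) (by norm_num) (by norm_num)
  set c := 2 * π * rexp (-(4 / 3)) with hc
  obtain ⟨hc1, hc2⟩ := hcb
  have hpi := two_pi_bounds
  refine regB hT hb hz00 hz2 (t0 := t0) (R := 1.4) (a := 4 / 3) (κ := 1.5) (c := c)
    (E := -2.6) (α := 0) (β := 1) (γ := 0) (by linarith) (by norm_num) (by norm_num) h14
    (by norm_num) hu hc
    (hK.integrableOn_gl2 (b - L) 1 L hz00 hz2) (fun t ht => gl2_B (by linarith) ht)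
    le_rfl zero_le_one le_rfl ?_ (by linarith) ?_
  · intro r hr
    have := v_ineq hz2.le hr
    linarith
  obtain ⟨i1, i2, i3⟩ := inv_c_bounds (by norm_num) hc1
  clear * - hc1 hc2 i1 i2 i3
  have x1 : 0.275 ≤ cA1 1.5 1.4 := by
    have h := e21.1
    unfold cA1; norm_num at h ⊢; linarith
  have y1 : cA1 (1.5 + 1) 1.4 ≤ 0.16 :=
    (cA1_upper (by norm_num) (by norm_num)).trans (by norm_num)
  have hE := exp_26
  have q1 : (0.46 : ℝ) ≤ (1 + c) * cA1 1.5 1.4 - c * cA1 (1.5 + 1) 1.4 :=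
    kg_lower (by linarith) x1 y1 (by linarith)
  have q3 : rexp (-2.6) * (4 / 3 * (1 / 4.78) + 1 / 4.78 ^ 2) ≤ 0.03 := by
    norm_num at hE ⊢; linarith
  have q4 : 0 / c + 1 / c ^ 2 + 2 * 0 / c ^ 3 ≤ 0.3647 := by
    have : 0 / c + 1 / c ^ 2 + 2 * 0 / c ^ 3 = 1 / c ^ 2 := by ring
    rw [this]; refine i2.trans ?_; norm_num
  linarith

theorem neg_B2 {T : ℝ → ℝ} (hT : KH2 T) (hK : Ker T) {b L z : ℝ} (hb : 0 ≤ b)
    (hz0 : 0.1 ≤ z) (hz2 : z ≤ 1 / 4) (hL : 4.5 ≤ L) :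
    ∫ t in Ioi 0, T (t + (b - L)) * gl2 1 L z t < 0 := by
  have hz00 : 0 < z := by linarith
  have hinv : 1 / (1 / 2 + z) ≤ 5 / 3 := by
    rw [div_le_iff₀ (by linarith)]; linarith
  set t0 := the L z with ht0
  have ht0' : t0 = L - 1 / (1 / 2 + z) := rfl
  have h14 : 2.8 ≤ t0 := by rw [ht0']; linarith
  have hu : -(5 / 3 : ℝ) ≤ t0 - L := by rw [ht0']; linarith
  have hcb : 1.186 < 2 * π * rexp (-(5 / 3)) ∧ 2 * π * rexp (-(5 / 3)) < 1.187 := by
    have h1 : (5.294 : ℝ) < rexp (5 / 3) := lt_exp_rat 5 3 (by norm_num) (by norm_num)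
    have h2 : rexp (5 / 3) < 5.295 := exp_rat_lt 5 3 (by norm_num) (by norm_num) (by norm_num)
    exact c_bounds h1 h2 (by norm_num) (by norm_num) (by norm_num) (by norm_num)
  set c := 2 * π * rexp (-(5 / 3)) with hc
  obtain ⟨hc1, hc2⟩ := hcb
  have hpi := two_pi_bounds
  refine regB hT hb hz00 (by linarith) (t0 := t0) (R := 2.8) (a := 5 / 3) (κ := 1.25) (c := c)
    (E := -3) (α := 0) (β := 1) (γ := 0) (by linarith) (by norm_num) (by norm_num) h14
    (by norm_num) hu hc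
    (hK.integrableOn_gl2 (b - L) 1 L hz00 (by linarith)) (fun t ht => gl2_B (by linarith) ht)
    le_rfl zero_le_one le_rfl ?_ (by linarith) ?_
  · intro r hr
    have := v_ineq (by linarith : z ≤ 1 / 2) hr
    linarith
  obtain ⟨i1, i2, i3⟩ := inv_c_bounds (by norm_num) hc1
  clear * - hc1 hc2 i1 i2 i3
  have x1 : 0.55 ≤ cA1 1.25 2.8 := by
    have h := e35
    unfold cA1; norm_num at h ⊢; linarith
  have y1 : cA1 (1.25 + 1) 2.8 ≤ 0.1976 :=
    (cA1_upper (by norm_num) (by norm_num)).trans (by norm_num)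
  have hE := e30
  have q1 : (0.96 : ℝ) ≤ (1 + c) * cA1 1.25 2.8 - c * cA1 (1.25 + 1) 2.8 :=
    kg_lower (by linarith) x1 y1 (by linarith)
  have q3 : rexp (-3) * (5 / 3 * (1 / 4.78) + 1 / 4.78 ^ 2) ≤ 0.02 := by
    norm_num at hE ⊢; linarith
  have q4 : 0 / c + 1 / c ^ 2 + 2 * 0 / c ^ 3 ≤ 0.711 := by
    have : 0 / c + 1 / c ^ 2 + 2 * 0 / c ^ 3 = 1 / c ^ 2 := by ring
    rw [this]; refine i2.trans ?_; norm_num
  linarith

lemma exp_mul_le_one_add {z r : ℝ} (h0 : 0 ≤ z) (h1 : z ≤ 1) :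
    rexp (z * r) ≤ 1 + z * (rexp r - 1) := by
  have h := convexOn_exp.2 (mem_univ r) (mem_univ (0 : ℝ)) h0 (by linarith : 0 ≤ 1 - z)
    (by ring)
  simp only [smul_eq_mul, mul_zero, add_zero, Real.exp_zero, mul_one] at h
  linarith

theorem neg_B3 {T : ℝ → ℝ} (hT : KH2 T) (hK : Ker T) {b L z : ℝ} (hb : 0 ≤ b)
    (hz00 : 0 < z) (hz2 : z ≤ 0.1) (hL : 6 ≤ L) :
    ∫ t in Ioi 0, T (t + (b - L)) * gl2 1 L z t < 0 := by
  have hinv := the_pos_aux hz00
  set t0 := the L z with ht0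
  have ht0' : t0 = L - 1 / (1 / 2 + z) := rfl
  have h14 : 4 ≤ t0 := by rw [ht0']; linarith
  have hu : -(2 : ℝ) ≤ t0 - L := by rw [ht0']; linarith
  have hcb : 0.85 < 2 * π * rexp (-2) ∧ 2 * π * rexp (-2) < 0.851 := by
    have h1 : (7.389 : ℝ) < rexp 2 := lt_exp_rat 2 1 (by norm_num) (by norm_num)
    have h2 : rexp 2 < 7.3891 := exp_rat_lt 2 1 (by norm_num) (by norm_num) (by norm_num)
    exact c_bounds h1 h2 (by norm_num) (by norm_num) (by norm_num) (by norm_num)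
  set c := 2 * π * rexp (-2) with hc
  obtain ⟨hc1, hc2⟩ := hcb
  have hpi := two_pi_bounds
  refine regB hT hb hz00 (by linarith) (t0 := t0) (R := 4) (a := 2) (κ := 1.1) (c := c)
    (E := -3) (α := 0.1932) (β := 0.51932) (γ := 0.05) (by linarith) (by norm_num) (by norm_num)
    h14 (by norm_num) hu hc
    (hK.integrableOn_gl2 (b - L) 1 L hz00 (by linarith)) (fun t ht => gl2_B (by linarith) ht)
    (by norm_num) (by norm_num) (by norm_num) ?_ (by linarith) ?_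
  · intro r hr
    have hv : 0 ≤ rexp r - 1 := by have := Real.one_le_exp hr; linarith
    have h1 : rexp (z * r) ≤ 1 + 0.1 * (rexp r - 1) := by
      have := exp_mul_le_one_add (r := r) hz00.le (by linarith : z ≤ 1)
      have h12 := mul_le_mul_of_nonneg_right hz2 hv
      linarith
    have h2 : r ≤ 0.1932 + (rexp r - 1) / 2 := by
      -- r - log 2 + 1 ≤ exp (r - log 2) = e^r / 2
      have h3 := Real.add_one_le_exp (r - Real.log 2)
      rw [Real.exp_sub, Real.exp_log (by norm_num)] at h3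
      have h4 := Real.log_two_lt_d9
      linarith
    calc r * rexp (z * r) ≤ (0.1932 + (rexp r - 1) / 2) * (1 + 0.1 * (rexp r - 1)) :=
          mul_le_mul h2 h1 (Real.exp_pos _).le (by positivity)
      _ = _ := by ring
  obtain ⟨i1, i2, i3⟩ := inv_c_bounds (by norm_num) hc1
  clear * - hc1 hc2 i1 i2 i3
  have x1 : 0.7715 ≤ cA1 1.1 4 := by
    have h := e44
    unfold cA1; norm_num at h ⊢; linarith
  have y1 : cA1 (1.1 + 1) 4 ≤ 0.2268 :=
    (cA1_upper (by norm_num) (by norm_num)).trans (by norm_num)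
  have hE := e30
  have q1 : (1.23 : ℝ) ≤ (1 + c) * cA1 1.1 4 - c * cA1 (1.1 + 1) 4 :=
    kg_lower (by linarith) x1 y1 (by linarith)
  have q3 : rexp (-3) * (2 * (1 / 4.78) + 1 / 4.78 ^ 2) ≤ 0.024 := by
    norm_num at hE ⊢; linarith
  have q4 : 0.1932 / c + 0.51932 / c ^ 2 + 2 * 0.05 / c ^ 3 ≤ 1.11 := by
    have : 0.1932 / c + 0.51932 / c ^ 2 + 2 * 0.05 / c ^ 3 =
      0.1932 * (1 / c) + 0.51932 * (1 / c ^ 2) + 0.1 * (1 / c ^ 3) := by ring
    rw [this]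
    norm_num at i1 i2 i3 ⊢
    linarith
  linarith

end Pool.Agent.MP0016c7
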