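import Mathlib
import Pool.Agent.Lib.MP_0016c7_nt.KernelGlobal0

open Filter Topology Set MeasureTheory
open scoped Real

namespace Pool.Agent.MP0016c7

/-! ### `W = -1` -/

theorem neg_C {T : ℝ → ℝ} (hT : KH2 T) (hK : Ker T) {b L z : ℝ} (hb : 0 ≤ b)
    (hz0 : 0 < z) (hz2 : z < 1 / 2) (hL2 : 2 ≤ L) :
    ∫ t in Ioi 0, T (t + (b - L)) * gl2 (-1) L z t < 0 := by
  have hL0 : 0 < L := by linarith
  set A := 1 + z * L with hA
  have hzL : 0 < z * L := by positivity
  have hA1 : 1 < A := by rw [hA]; linarith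
  have hA0 : 0 < A := by linarith
  set m := z * L * (A + 1) / A ^ 2 with hm
  have hm0 : 0 < m := by positivity
  have hCL := Cw_neg_one_pos hz0 hL0
  have hTb := hT.pos b
  set K := T b * Cw (-1) z L * m with hKdef
  have hK0 : 0 < K := by positivity
  set p := 2 * π - 3 / 2 with hp
  have hpi := two_pi_bounds
  have hp0 : 4.78 < p := by rw [hp]; linarith
  have hpp : 0 < p := by linarith
  have i1 := int_pow_exp 1 (α := p) hpp
  have i2 := int_pow_exp 2 (α := p) hpp
  have i3 := int_pow_exp 3 (α := p) hpp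
  have hp2 : IntegrableOn (fun r : ℝ => (r ^ 1 * rexp (-p * r)) +
      3 / 4 * (r ^ 2 * rexp (-p * r)) + 1 / 8 * (r ^ 3 * rexp (-p * r))) (Ioi 0) :=
    (i1.1.add (i2.1.const_mul (3 / 4))).add (i3.1.const_mul (1 / 8))
  -- the value at `L`
  have hs : 0 < 1 / 2 + z := by linarith only [hz0, hpi]
  have hbL : z * L ^ 2 / A ≤ the L z := by
    have e1 : the L z = L - 1 / (1 / 2 + z) := rfl
    rw [e1, le_sub_iff_add_le, ← le_sub_iff_add_le', div_le_iff₀ hs]
    have e2 : L - z * L ^ 2 / A = L / A := by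
      rw [eq_div_iff hA0.ne', sub_mul, div_mul_cancel₀ _ hA0.ne', hA]; ring
    rw [e2, div_mul_eq_mul_div, le_div_iff₀ hA0, hA]
    clear * - hL2
    linarith
  have hbr0 : ∀ t, 0 ≤ t → t ≤ L → z * t ^ 2 / (1 + z * t) - the L z ≤ 0 := by
    intro t ht0 ht1
    have h1 : z * t ^ 2 / (1 + z * t) ≤ z * L ^ 2 / A := by
      rw [div_le_div_iff₀ (by positivity) hA0, hA]
      have h2 : t ^ 2 ≤ L ^ 2 := by gcongr
      have h3 : t * (t * (z * L)) ≤ L * (t * (z * L)) :=
        mul_le_mul_of_nonneg_right ht1 (by positivity)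
      have h4 := mul_le_mul_of_nonneg_left h2 hz0.le
      have h5 := mul_le_mul_of_nonneg_left h3 hz0.le
      clear * - h4 h5
      linarith
    linarith only [hbL, h1]
  have h4A : 1 ≤ L * (A + 1) / 4 := by
    have h := mul_le_mul hL2 (by linarith : (2 : ℝ) ≤ A + 1) (by norm_num) hL0.le
    clear * - h
    linarith
  have hbr1 : ∀ r, 0 ≤ r → r ≤ L →
      z * (L - r) ^ 2 / (1 + z * (L - r)) - the L z ≤ -(m * (r - r ^ 2 / 4)) := by
    intro r hr0 hr1
    have hB : 1 ≤ 1 + z * (L - r) := by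
      have : 0 ≤ z * (L - r) := mul_nonneg hz0.le (by linarith)
      linarith only [this]
    have hB0 : 0 < 1 + z * (L - r) := by linarith only [hpi, hB]
    have key : z * (L - r) ^ 2 / (1 + z * (L - r)) ≤ z * L ^ 2 / A - m * (r - r ^ 2 / 4) := by
      rw [div_le_iff₀ hB0]
      have e3 : (z * L ^ 2 / A - m * (r - r ^ 2 / 4)) * (1 + z * (L - r)) =
          z * (L - r) ^ 2 + z * r ^ 2 / A ^ 2 *
            (L * (A + 1) / 4 * (1 + z * (L - r)) - 1) := by
        rw [hm]
        have : A = 1 + z * L := hA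
        field_simp
        rw [this]
        ring
      rw [e3]
      have h5 : 0 ≤ L * (A + 1) / 4 * (1 + z * (L - r)) - 1 :=
        sub_nonneg.mpr (one_le_mul_of_one_le_of_one_le h4A hB)
      have h6 : 0 ≤ z * r ^ 2 / A ^ 2 := by positivity
      exact le_add_of_nonneg_right (mul_nonneg h6 h5)
    linarith only [hbL, key]
  have hbr2 : ∀ r, 0 ≤ r → z * (L + r) ^ 2 / (1 + z * (L + r)) - the L z ≤
      m * (r + r ^ 2 / 4) := by
    intro r hr0
    have hB0 : 0 < 1 + z * (L + r) := by positivity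
    have hBA : A ≤ 1 + z * (L + r) := by
      rw [hA]
      have : 0 ≤ z * r := by positivity
      linarith only [this]
    have key : z * (L + r) ^ 2 / (1 + z * (L + r)) ≤ z * L ^ 2 / A + m * (r + r ^ 2 / 4) := by
      rw [div_le_iff₀ hB0]
      have e3 : (z * L ^ 2 / A + m * (r + r ^ 2 / 4)) * (1 + z * (L + r)) =
          z * (L + r) ^ 2 + z * r ^ 2 / A ^ 2 *
            (L * (A + 1) / 4 * (1 + z * (L + r)) - 1) := by
        rw [hm]
        have : A = 1 + z * L := hA
        field_simp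
        rw [this]
        ring
      rw [e3]
      have h5 : 0 ≤ L * (A + 1) / 4 * (1 + z * (L + r)) - 1 :=
        sub_nonneg.mpr (one_le_mul_of_one_le_of_one_le h4A (hA1.le.trans hBA))
      have h6 : 0 ≤ z * r ^ 2 / A ^ 2 := by positivity
      exact le_add_of_nonneg_right (mul_nonneg h6 h5)
    linarith only [hbL, key]
  refine pivot_neg (hK.integrableOn_gl2 (b - L) (-1) L hz0 hz2) (t0 := L) (R := 1) (K := K)
    (a := 0) (P1 := 0) (P2 := (1 / 4.78 ^ 2) + 3 / 4 * (2 / 4.78 ^ 3) + 1 / 8 * (6 / 4.78 ^ 4))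
    (N := 0.19) (p1 := fun _ => 0)
    (p2 := fun r => (r ^ 1 * rexp (-p * r)) +
      3 / 4 * (r ^ 2 * rexp (-p * r)) + 1 / 8 * (r ^ 3 * rexp (-p * r)))
    (n := fun r => (r - r ^ 2 / 4) * ((1 - r / 2) * (1 - r / 2)))
    hK0 (by norm_num) (by linarith only [hL2, hpi]) le_rfl ?_ ?_ ?_ ?_ continuous_const (by fun_prop)
    hp2 ?_ ?_ ?_ ?_
  · intro r hr0 hr1
    have : r = 0 := le_antisymm hr1 hr0
    subst this
    simp only [add_zero, mul_zero]
    refine mul_nonpos_of_nonneg_of_nonpos (hT.pos _).le ?_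
    refine (gl2_C hz0 hL0.le).trans ?_
    have := hbr0 L hL0.le le_rfl
    exact mul_nonpos_of_nonneg_of_nonpos hCL.le (by linarith only [hbL])
  · intro r hr
    have e1 : L + 0 + r = L + r := by ring
    rw [e1]
    have e2 : L + r + (b - L) = b + r := by ring
    rw [e2]
    have hT1 := hT.up2 b r hb hr.le
    have hC1 := Cw_neg_upper (z := z) (L := L) (r := r) hz0 hL0 hr.le
    have hg := gl2_C (L := L) (z := z) (t := L + r) hz0 (by linarith only [hL2, hpi, hr])
    have hCr := Cw_neg_one_pos hz0 (by linarith only [hL2, hpi, hr] : 0 < L + r)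
    have hq : 0 ≤ m * (r + r ^ 2 / 4) := by positivity
    have h1r : 1 + r / L ≤ 1 + r / 2 := by
      have : r / L ≤ r / 2 := div_le_div_of_nonneg_left hr.le (by norm_num) hL2
      linarith only [this]
    calc T (b + r) * gl2 (-1) L z (L + r)
        ≤ T (b + r) * (Cw (-1) z (L + r) * (m * (r + r ^ 2 / 4))) :=
          mul_le_mul_of_nonneg_left (hg.trans (mul_le_mul_of_nonneg_left (hbr2 r hr.le) hCr.le))
            (hT.pos _).le
      _ ≤ (T b * rexp (-(2 * π - 1) * r)) *
          ((Cw (-1) z L * (rexp (z * r) * (1 + r / L))) * (m * (r + r ^ 2 / 4))) := by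
          refine mul_le_mul hT1 (mul_le_mul_of_nonneg_right hC1 hq) (by positivity) ?_
          positivity
      _ = K * ((r + r ^ 2 / 4) * ((1 + r / L) * (rexp (-(2 * π - 1) * r) * rexp (z * r)))) := by
          rw [hKdef]; ring
      _ ≤ K * ((r + r ^ 2 / 4) * ((1 + r / 2) * rexp (-p * r))) := by
          refine mul_le_mul_of_nonneg_left (mul_le_mul_of_nonneg_left ?_ (by positivity)) hK0.le
          refine mul_le_mul h1r ?_ (by positivity) (by positivity)
          rw [← Real.exp_add, Real.exp_le_exp, hp]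
          have h12 := mul_le_mul_of_nonneg_right hz2.le hr.le
          clear * - h12
          linarith
      _ = _ := by ring
  · intro r hr0 hr1
    have e2 : L - r + (b - L) = b - r := by ring
    rw [e2]
    have hT1 : T b ≤ T (b - r) := by
      refine le_trans ?_ (hT.low b r hr0)
      have h0 : 0 ≤ -r + 2 * π * rexp (min b 0) * (1 - rexp (-r)) := by
        have e5 : min b 0 = 0 := min_eq_right hb
        rw [e5, Real.exp_zero, mul_one]
        have h7 : r / 2 ≤ 1 - rexp (-r) := by
          have h8 := Real.add_one_le_exp r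
          have h9 : rexp (-r) * rexp r = 1 := by rw [← Real.exp_add]; simp
          have h10 := Real.exp_pos (-r)
          have h11 : rexp (-r) * (r + 1) ≤ 1 :=
            (mul_le_mul_of_nonneg_left h8 h10.le).trans_eq h9
          clear * - h11 hr0 hr1 h10
          by_contra hcon
          have h12 := mul_pos (by linarith : 0 < rexp (-r) - (1 - r / 2)) (by linarith : 0 < r + 1)
          have h13 := mul_nonneg hr0 (by linarith : 0 ≤ 1 - r)
          linarith
        have h11 := mul_le_mul_of_nonneg_left h7 (by positivity : 0 ≤ 2 * π)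
        have h12 := mul_le_mul_of_nonneg_left Real.pi_gt_three.le hr0
        clear * - h11 h12 hr0
        linarith
      have h1 : 1 ≤ rexp (-r + 2 * π * rexp (min b 0) * (1 - rexp (-r))) := Real.one_le_exp h0
      exact le_mul_of_one_le_right (hT.pos b).le h1
    have hC1 := Cw_neg_lower (z := z) (L := L) (r := r) hL0 hr0 (by linarith only [hL2, hpi, hr1])
    have hg := gl2_C (L := L) (z := z) (t := L - r) hz0 (by linarith only [hL2, hpi, hr1])
    have hCr := Cw_neg_one_pos hz0 (by linarith only [hL2, hpi, hr1] : 0 < L - r)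
    have hb1 := hbr1 r hr0 (by linarith only [hL2, hpi, hr1])
    have hQ : 0 ≤ r - r ^ 2 / 4 := by
      have h := mul_nonneg hr0 (by linarith only [hpi, hr1] : 0 ≤ 1 - r / 4)
      clear * - h
      linarith
    have h1r : 1 - r / 2 ≤ 1 - r / L := by
      have : r / L ≤ r / 2 := div_le_div_of_nonneg_left hr0 (by norm_num) hL2
      linarith only [this]
    have main : K * ((r - r ^ 2 / 4) * ((1 - r / 2) * (1 - r / 2))) ≤
        T (b - r) * (Cw (-1) z (L - r) * (m * (r - r ^ 2 / 4))) := by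
      calc K * ((r - r ^ 2 / 4) * ((1 - r / 2) * (1 - r / 2)))
          ≤ K * ((r - r ^ 2 / 4) * ((1 - r / L) * rexp (-(z * r)))) := by
            refine mul_le_mul_of_nonneg_left (mul_le_mul_of_nonneg_left ?_ hQ) hK0.le
            refine mul_le_mul h1r ?_ (by linarith only [hpi, hr1]) (by linarith only [hpi, hr1, h1r])
            have h9 := Real.add_one_le_exp (-(z * r))
            have h12 := mul_le_mul_of_nonneg_right hz2.le hr0
            clear * - h9 h12
            linarith
        _ = T b * ((Cw (-1) z L * (rexp (-(z * r)) * (1 - r / L))) *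
            (m * (r - r ^ 2 / 4))) := by
            rw [hKdef]; ring
        _ ≤ _ := by
            refine mul_le_mul hT1 (mul_le_mul_of_nonneg_right hC1 (by positivity)) ?_ (hT.pos _).le
            have : 0 ≤ 1 - r / L := by linarith only [hpi, hr1, h1r]
            (clear * - hCL this hz0 hL2 hQ; positivity)
    have step := mul_le_mul_of_nonneg_left (hg.trans (mul_le_mul_of_nonneg_left hb1 hCr.le))
      (hT.pos (b - r)).le
    calc T (b - r) * gl2 (-1) L z (L - r) ≤ _ := step
      _ = -(T (b - r) * (Cw (-1) z (L - r) * (m * (r - r ^ 2 / 4)))) := by ring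
      _ ≤ -(K * ((r - r ^ 2 / 4) * ((1 - r / 2) * (1 - r / 2)))) := neg_le_neg main
      _ = _ := by ring
  · intro t ht0 ht1
    refine mul_nonpos_of_nonneg_of_nonpos (hT.pos _).le ((gl2_C hz0 ht0.le).trans ?_)
    have := hbr0 t ht0.le (by linarith only [hpi, ht1])
    exact mul_nonpos_of_nonneg_of_nonpos (Cw_neg_one_pos hz0 ht0).le (by linarith only [this])
  · simp
  · have j12 : IntegrableOn (fun r : ℝ => (r ^ 1 * rexp (-p * r)) +
        3 / 4 * (r ^ 2 * rexp (-p * r))) (Ioi 0) := i1.1.add (i2.1.const_mul (3 / 4))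
    rw [integral_add j12 (i3.1.const_mul _),
      integral_add i1.1 (i2.1.const_mul _), integral_const_mul,
      integral_const_mul, i1.2, i2.2, i3.2]
    have h9 : 1 / p ^ 2 ≤ 1 / 4.78 ^ 2 := one_div_le_one_div_of_le (by norm_num) (by gcongr)
    have h10 : 1 / p ^ 3 ≤ 1 / 4.78 ^ 3 := one_div_le_one_div_of_le (by norm_num) (by gcongr)
    have h11 : 1 / p ^ 4 ≤ 1 / 4.78 ^ 4 := one_div_le_one_div_of_le (by norm_num) (by gcongr)
    have f2 : Nat.factorial 2 = 2 := rfl
    have f3 : Nat.factorial 3 = 6 := rfl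
    rw [Nat.factorial_one, f2, f3]
    push_cast
    have x2 : (2 : ℝ) / p ^ 3 = 2 * (1 / p ^ 3) := by ring
    have x3 : (6 : ℝ) / p ^ 4 = 6 * (1 / p ^ 4) := by ring
    have x4 : (2 : ℝ) / 4.78 ^ 3 = 2 * (1 / 4.78 ^ 3) := by ring
    have x5 : (6 : ℝ) / 4.78 ^ 4 = 6 * (1 / 4.78 ^ 4) := by ring
    rw [x2, x3, x4, x5]
    linarith only [h9, h10, h11]
  · have hd : ∀ r ∈ uIcc (0 : ℝ) 1, HasDerivAt
        (fun r : ℝ => r ^ 2 / 2 - 5 / 12 * r ^ 3 + r ^ 4 / 8 - r ^ 5 / 80)
        ((r - r ^ 2 / 4) * ((1 - r / 2) * (1 - r / 2))) r := by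
      intro r _
      have d1 := (((hasDerivAt_pow 2 r).div_const 2).sub ((hasDerivAt_pow 3 r).const_mul (5 / 12))
        |>.add ((hasDerivAt_pow 4 r).div_const 8)).sub ((hasDerivAt_pow 5 r).div_const 80)
      refine d1.congr_deriv ?_
      norm_num
      ring
    rw [intervalIntegral.integral_eq_sub_of_hasDerivAt hd
      ((by fun_prop : Continuous fun r : ℝ =>
      (r - r ^ 2 / 4) * ((1 - r / 2) * (1 - r / 2))).intervalIntegrable _ _)]
    norm_num
  · norm_num

end Pool.Agent.MP0016c7
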