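import Mathlib
import Pool.Agent.Lib.MP_0016c7_nt.KernelGlobalC
import Pool.Agent.Lib.MP_0016c7_nt.KernelGlobalB
import Pool.Agent.Lib.MP_0016c7_nt.KernelGlobalA
import Pool.Agent.Lib.MP_0016c7_nt.Window

open Filter Topology Set MeasureTheory
open scoped Real

namespace Pool.Agent.MP0016c7

/-- The kernel inequality for the clean jump criterion. -/
theorem gl2_neg {T : ℝ → ℝ} (hT : KH2 T) (hK : Ker T) {b L z W : ℝ} (hb : 0 ≤ b)
    (hW : W = 1 ∨ W = -1) (hz0 : 0 < z) (hz2 : z < 1 / 2) (hL : 2 ≤ L) :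
    ∫ t in Ioi 0, T (t + (b - L)) * gl2 W L z t < 0 := by
  rcases hW with rfl | rfl
  · rcases le_total L 2.75 with h1 | h1
    · exact neg_A1 hT hK hb hz0 hz2 hL h1
    rcases le_total (1 / 4) z with h2 | h2
    · exact neg_B1 hT hK hb h2 hz2 h1
    rcases le_total L 4.5 with h3 | h3
    · exact neg_A23 hT hK hb hz0 h2 h1 (Or.inl h3)
    rcases le_total 0.1 z with h4 | h4
    · exact neg_B2 hT hK hb h4 h2 h3
    rcases le_total L 6 with h5 | h5
    · exact neg_A23 hT hK hb hz0 h2 h1 (Or.inr ⟨h3, h5, h4⟩)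
    · exact neg_B3 hT hK hb hz0 h4 h5
  · exact neg_C hT hK hb hz0 hz2 hL

variable {c : ArithmeticFunction ℝ} {T : ℝ → ℝ} {L W : ℝ} {F : ℝ → ℝ}

/-- the comparison factor of the clean criterion -/
noncomputable def Bg (W L z : ℝ) : ℝ :=
  rexp (-L * z) * (1 / 2 + z) * (if W = 1 then 1 else 1 / z)

lemma Bg_pos (W L : ℝ) {z : ℝ} (hz0 : 0 < z) : 0 < Bg W L z := by
  unfold Bg
  split_ifs <;> positivity

lemma hasDerivAt_Bg (W L : ℝ) {z : ℝ} (hz0 : 0 < z) :
    HasDerivAt (Bg W L) (-(the L z + if W = 1 then 0 else 1 / z) * Bg W L z) z := by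
  have hs : (1 / 2 + z) ≠ 0 := by positivity
  have ht : 1 / (1 / 2 + z) * (1 / 2 + z) = 1 := div_mul_cancel₀ _ hs
  have h1 : HasDerivAt (fun z : ℝ => -L * z) (-L) z := by
    simpa using (hasDerivAt_id z).const_mul (-L)
  have h2 : HasDerivAt (fun z : ℝ => 1 / 2 + z) 1 z := (hasDerivAt_id z).const_add _
  by_cases hW : W = 1
  · have e : Bg W L = fun z => rexp (-L * z) * (1 / 2 + z) := by
      ext z; simp [Bg, hW]
    rw [e]
    refine (h1.exp.mul h2).congr_deriv ?_
    simp only [the, hW, if_true, add_zero]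
    linear_combination (-rexp (-L * z)) * ht
  · have e : Bg W L = fun z => rexp (-L * z) * (1 / 2 + z) * (1 / z) := by
      ext z; simp [Bg, hW]
    rw [e]
    have h3 : HasDerivAt (fun z : ℝ => 1 / z) (-(1 / z ^ 2)) z := by
      have := hasDerivAt_inv hz0.ne'
      simp only [one_div]
      exact this
    refine ((h1.exp.mul h2).mul h3).congr_deriv ?_
    simp only [the, hW, if_false, Pi.mul_apply]
    have hzz : z * (1 / z) = 1 := by field_simp
    have hz2 : (1 : ℝ) / z ^ 2 = (1 / z) * (1 / z) := by field_simp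
    rw [hz2]
    linear_combination (-rexp (-L * z) * (1 / z)) * ht

theorem Jn_global (hT : KH2 T) (hK : Ker T) (hW : W = 1 ∨ W = -1) (hL : 2 ≤ L) {z1 z2 : ℝ}
    (hz : 0 < z1) (hz12 : z1 < z2) (hz2 : z2 < 1 / 2) {n : ℕ} :
    Jn W T L n z2 * Bg W L z2 < Jn W T L n z1 * Bg W L z1 := by
  have hder : ∀ z ∈ Icc z1 z2, HasDerivAt (fun z => Jn W T L n z * Bg W L z)
      (Bg W L z * (rexp ((L - Real.log n) / 2) *
        ∫ t in Ioi 0, T (t + (Real.log n - L)) * gl2 W L z t)) z := by
    intro z hzm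
    have hz0 : 0 < z := lt_of_lt_of_le hz hzm.1
    have hz' : z < 1 / 2 := lt_of_le_of_lt hzm.2 hz2
    have h1 := (hasDerivAt_Jn hK hW L n hz0 hz').mul (hasDerivAt_Bg W L hz0)
    refine h1.congr_deriv ?_
    have e1 : ∫ t in Ioi 0, Cd W z t * hn T L n t = rexp ((L - Real.log n) / 2) *
        ∫ t in Ioi 0, T (t + (Real.log n - L)) * Cd W z t := by
      rw [← integral_const_mul]
      congr 1
      ext t
      rw [hn_eq]; ring
    have e2 : Jn W T L n z = rexp ((L - Real.log n) / 2) *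
        ∫ t in Ioi 0, T (t + (Real.log n - L)) * Cw W z t := by
      unfold Jn
      rw [← integral_const_mul]
      congr 1
      ext t
      rw [hn_eq]; ring
    have i1 := hK.integrableOn_weight (Real.log n - L) 1 (z := z) (by linarith only [hz, hz12, hz2, hz'])
    have i2 := (hK.integrableOn_weight (Real.log n - L) 1 (z := -z) (by linarith)).const_mul (-W)
    have i3 := (hK.integrableOn_weight (Real.log n - L) 0 (z := z) (by linarith))
    have i4 := (hK.integrableOn_weight (Real.log n - L) 0 (z := -z) (by linarith)).const_mul W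
    have en : ∀ t : ℝ, -z * t = -(z * t) := fun t => by ring
    have i5 : IntegrableOn (fun t => T (t + (Real.log n - L)) * Cd W z t) (Ioi 0) := by
      refine (i1.add i2).congr_fun ?_ measurableSet_Ioi
      intro t _
      simp only [Pi.add_apply, Cd, en]
      ring
    have i6 : IntegrableOn (fun t => T (t + (Real.log n - L)) * Cw W z t) (Ioi 0) := by
      refine (i3.add i4).congr_fun ?_ measurableSet_Ioi
      intro t _
      simp only [Pi.add_apply, Cw, en]
      ring
    have e3 : ∫ t in Ioi 0, T (t + (Real.log n - L)) * gl2 W L z t =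
        (∫ t in Ioi 0, T (t + (Real.log n - L)) * Cd W z t) -
        (the L z + if W = 1 then 0 else 1 / z) *
          ∫ t in Ioi 0, T (t + (Real.log n - L)) * Cw W z t := by
      rw [← integral_const_mul, ← integral_sub i5 (i6.const_mul _)]
      congr 1
      ext t
      unfold gl2
      ring
    rw [e1, e3, e2]
    ring
  have hneg : ∀ z ∈ Icc z1 z2, Bg W L z * (rexp ((L - Real.log n) / 2) *
        ∫ t in Ioi 0, T (t + (Real.log n - L)) * gl2 W L z t) < 0 := by
    intro z hzm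
    have hz0 : 0 < z := lt_of_lt_of_le hz hzm.1
    have hz' : z < 1 / 2 := lt_of_le_of_lt hzm.2 hz2
    have h1 := gl2_neg hT hK (b := Real.log n) (L := L) (Real.log_natCast_nonneg n) hW hz0 hz' hL
    have h2 := Bg_pos W L hz0
    have h3 := Real.exp_pos ((L - Real.log n) / 2)
    have h4 := mul_neg_of_pos_of_neg h3 h1
    exact mul_neg_of_pos_of_neg h2 h4
  have hanti : StrictAntiOn (fun z => Jn W T L n z * Bg W L z) (Icc z1 z2) := by
    refine strictAntiOn_of_deriv_neg (convex_Icc z1 z2)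
      (fun z hzm => (hder z hzm).continuousAt.continuousWithinAt) ?_
    intro z hzm
    have hzm' := interior_subset hzm
    rw [(hder z hzm').deriv]
    exact hneg z hzm'
  exact hanti (left_mem_Icc.mpr hz12.le) (right_mem_Icc.mpr hz12.le) hz12

/-- The global inequality: `ρ = e^{L(z2-z1)} (1/2-z2)/(1/2-z1)`. -/
theorem global_ineq (h : Rep c T L F) (hW : W = 1 ∨ W = -1) (hs : ∀ t, F (-t) = W * F t)
    (ha : ∀ n, 0 ≤ (oneA * c) n) (ha1 : 0 < (oneA * c) 1)
    (hT : KH2 (cv (Tk 0) T)) (hL : 2 ≤ L) {z1 z2 : ℝ} (hz : 0 < z1)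
    (hz12 : z1 < z2) (hz2 : z2 < 1 / 2) :
    (1 - rexp (L * (z2 - z1)) * ((1 / 2 - z2) / (1 / 2 - z1))) * kap F +
      rexp (L * (z2 - z1)) * ((1 / 2 - z2) / (1 / 2 - z1)) * Xw W F z1 < Xw W F z2 := by
  have hK : Ker (cv (Tk 0) T) := (ker_Tk le_rfl).conv h.ker
  have hz20 := hz.trans hz12
  have d1 : 0 < 1 / 2 - z1 := by linarith only [hz12, hz2]
  have d2 : 0 < 1 / 2 - z2 := by linarith only [hz2]
  have s1 : 0 < 1 / 2 + z1 := by linarith
  have s2 : 0 < 1 / 2 + z2 := by linarith only [hz, hz12, hz2]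
  have key := machine_ineq_gen h hW hs ha ha1 hz hz12 hz2
    (R := rexp (L * (z2 - z1)) * ((1 / 2 + z1) / (1 / 2 + z2))) (fun n _ => by
      have h1 := Jn_global hT hK hW hL hz hz12 hz2 (n := n)
      have b2 := Bg_pos W L hz20
      have e : kfac W z1 z2 * (rexp (L * (z2 - z1)) *
          ((1 / 2 + z1) / (1 / 2 + z2))) * Bg W L z2 = Bg W L z1 := by
        have e1 : rexp (-L * z1) = rexp (L * (z2 - z1)) * rexp (-L * z2) := by
          rw [← Real.exp_add]; ring_nf
        unfold Bg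
        rw [e1]
        generalize rexp (L * (z2 - z1)) = E
        generalize 1 / 2 + z1 = u at *
        generalize 1 / 2 + z2 = v at *
        rcases hW with rfl | rfl
        · simp only [kfac, if_true]
          field_simp
        · have h3 : ¬ ((-1 : ℝ) = 1) := by norm_num
          simp only [kfac, h3, if_false]
          field_simp
      refine lt_of_mul_lt_mul_right (a := Bg W L z2) ?_ b2.le
      calc Jn W (cv (Tk 0) T) L n z2 * Bg W L z2 < Jn W (cv (Tk 0) T) L n z1 * Bg W L z1 := h1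
        _ = _ := by rw [← e]; ring)
  have e5 : rexp (L * (z2 - z1)) * ((1 / 2 + z1) / (1 / 2 + z2)) *
      ((1 / 4 - z2 ^ 2) / (1 / 4 - z1 ^ 2)) =
      rexp (L * (z2 - z1)) * ((1 / 2 - z2) / (1 / 2 - z1)) := by
    have q1 : 1 / 4 - z1 ^ 2 = (1 / 2 - z1) * (1 / 2 + z1) := by ring
    have q2 : 1 / 4 - z2 ^ 2 = (1 / 2 - z2) * (1 / 2 + z2) := by ring
    rw [q1, q2]
    field_simp
  rw [e5] at key
  exact key

end Pool.Agent.MP0016c7
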