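import Mathlib
import Pool.Agent.Lib.MP_0016c7_nt.Final3
import Pool.Agent.Lib.MP_0016c7_nt.KernelGlobal4

open Filter Topology Set MeasureTheory
open scoped Real

namespace Pool.Agent.MP0016c7

open DirichletCharacter

namespace LData

variable {c : ArithmeticFunction ℝ} {T : ℝ → ℝ} {L W : ℝ} {F G P : ℝ → ℝ}

/-- Propagation of positivity, clean criterion. -/
theorem clean_pos (h : LData c T L W F G P) {s₁ s₂ : ℝ} (h1 : 1 / 2 < s₁)
    (h12 : s₁ < s₂) (h2 : s₂ < 1)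
    (hc : (1 - s₂) * rexp (L * s₂) ≤ (1 - s₁) * rexp (L * s₁)) (hP : 0 ≤ P s₁) :
    0 < P s₂ := by
  rcases le_total L 2 with hL | hL
  · refine h.window_pos h1 h12 h2 ?_ hP
    have := h.hL
    nlinarith only [hL, h1, this]
  have key := global_ineq h.rep h.hW h.hs h.ha h.ha1 h.hT hL (z1 := s₁ - 1 / 2)
    (z2 := s₂ - 1 / 2) (by linarith) (by linarith) (by linarith)
  refine h.pos_of_Xw (by linarith) h2 (lt_of_le_of_lt ?_ key)
  have e1 : s₂ - 1 / 2 - (s₁ - 1 / 2) = s₂ - s₁ := by ring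
  have e2 : 1 / 2 - (s₂ - 1 / 2) = 1 - s₂ := by ring
  have e3 : 1 / 2 - (s₁ - 1 / 2) = 1 - s₁ := by ring
  rw [e1, e2, e3]
  have h01 : 0 < 1 - s₁ := by linarith only [h12, h2]
  have h02 : 0 < 1 - s₂ := by linarith
  have hρ : rexp (L * (s₂ - s₁)) * ((1 - s₂) / (1 - s₁)) ≤ 1 := by
    rw [← mul_div_assoc, div_le_one h01]
    have h3 : rexp (L * s₂) = rexp (L * (s₂ - s₁)) * rexp (L * s₁) := by
      rw [← Real.exp_add]; ring_nf
    rw [h3] at hc
    refine le_of_mul_le_mul_right ?_ (Real.exp_pos (L * s₁))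
    linarith only [hc]
  have hρ0 : 0 ≤ rexp (L * (s₂ - s₁)) * ((1 - s₂) / (1 - s₁)) := by positivity
  have h3 := h.kap_pos
  have h4 := h.Xw_nonneg h1 (by linarith only [h12, h2]) hP
  have h6 := mul_nonneg (by linarith :
    0 ≤ 1 - rexp (L * (s₂ - s₁)) * ((1 - s₂) / (1 - s₁))) h3.le
  have h7 := mul_nonneg hρ0 h4
  linarith only [h6, h7]

/-- the criterion is unimodal -/
lemma unimodal {L β s : ℝ} (hs : 1 / 2 < s) (hsβ : s ≤ β) (hβ : β < 1)
    (hc : (1 - β) * rexp (L * (β - 1 / 2)) ≤ 1 / 2) :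
    (1 - β) * rexp (L * β) ≤ (1 - s) * rexp (L * s) := by
  have hd : 0 < β - 1 / 2 := by linarith only [hs, hsβ]
  set w := (s - 1 / 2) / (β - 1 / 2) with hw
  have hw0 : 0 ≤ w := div_nonneg (by linarith) hd.le
  have hw1 : w ≤ 1 := by rw [hw, div_le_one hd]; linarith
  have hsw : s = w * β + (1 - w) * (1 / 2) := by
    have : w * (β - 1 / 2) = s - 1 / 2 := div_mul_cancel₀ _ hd.ne'
    linarith only [this]
  have h1 : 0 < 1 - β := by linarith only [hβ]
  have h2 : 0 < 1 - s := by linarith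
  -- logarithms
  have l1 : Real.log (1 - β) + L * (β - 1 / 2) ≤ Real.log (1 / 2) := by
    have := Real.log_le_log (by positivity) hc
    rwa [Real.log_mul h1.ne' (Real.exp_pos _).ne', Real.log_exp] at this
  have l2 : w * Real.log (1 - β) + (1 - w) * Real.log (1 / 2) ≤ Real.log (1 - s) := by
    have h := strictConcaveOn_log_Ioi.concaveOn.2 (mem_Ioi.mpr h1)
      (mem_Ioi.mpr (by norm_num : (0 : ℝ) < 1 / 2)) hw0 (by linarith only [hw1] : 0 ≤ 1 - w) (by ring)
    simp only [smul_eq_mul] at h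
    have e : w * (1 - β) + (1 - w) * (1 / 2) = 1 - s := by
      rw [hsw]; ring
    rwa [e] at h
  have l3 : Real.log (1 - β) + L * β ≤ Real.log (1 - s) + L * s := by
    have e : L * β - L * s = (1 - w) * (L * (β - 1 / 2)) := by
      rw [hsw]; ring
    have := mul_le_mul_of_nonneg_left l1 (by linarith only [hw1] : 0 ≤ 1 - w)
    nlinarith only [l2, e, this]
  have e1 : (1 - β) * rexp (L * β) = rexp (Real.log (1 - β) + L * β) := by
    rw [Real.exp_add, Real.exp_log h1]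
  have e2 : (1 - s) * rexp (L * s) = rexp (Real.log (1 - s) + L * s) := by
    rw [Real.exp_add, Real.exp_log h2]
  rw [e1, e2]
  exact Real.exp_le_exp.mpr l3

lemma window_of_crit {L β : ℝ} (hβ0 : 1 / 2 < β) (hβ : β < 1)
    (hc : (1 - β) * rexp (L * (β - 1 / 2)) ≤ 1 / 2) : L * (1 - β) ≤ 1 := by
  have h1 : 0 < 1 - β := by linarith
  have hd : 0 < β - 1 / 2 := by linarith only [hβ0]
  have h2 := Real.add_one_le_exp (L * (β - 1 / 2))
  have h3 : (1 - β) * (L * (β - 1 / 2) + 1) ≤ 1 / 2 :=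
    (mul_le_mul_of_nonneg_left h2 h1.le).trans hc
  have h4 : (L * (1 - β)) * (β - 1 / 2) ≤ 1 * (β - 1 / 2) := by nlinarith only [h3]
  exact le_of_mul_le_mul_right h4 hd

/-- A zero close to one is the only one. -/
theorem unique_zero (h : LData c T L W F G P) {β : ℝ} (hβ0 : 1 / 2 < β) (hβ : β < 1)
    (hc : (1 - β) * rexp (L * (β - 1 / 2)) ≤ 1 / 2) (hP : P β = 0) :
    (∀ s, 1 / 2 < s → s < β → P s < 0) ∧ (∀ s, β < s → s < 1 → 0 < P s) := by
  constructor
  · intro s hs hsβ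
    by_contra hn
    push Not at hn
    have := h.clean_pos hs hsβ hβ (unimodal hs hsβ.le hβ hc) hn
    linarith
  · intro s hs hs1
    exact h.window_pos hβ0 hs hs1 (window_of_crit hβ0 hβ hc) hP.ge

end LData

section imprimitive

variable {N : ℕ} [NeZero N] (χ : DirichletCharacter ℂ N)

theorem clean_single (hne : χ ≠ 1) (h2 : χ ^ 2 = 1) (s t : ℝ) (hs : 1 / 2 < s) (hst : s < t)
    (ht : t < 1)
    (hc : (1 - t) * (χ.conductor : ℝ) ^ (t / 2) ≤ (1 - s) * (χ.conductor : ℝ) ^ (s / 2))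
    (hP : 0 ≤ (LFunction χ s).re) : 0 < (LFunction χ t).re := by
  obtain ⟨W, hD⟩ := exists_ldata_single χ.primitiveCharacter χ.primitiveCharacter_isPrimitive
    (primitiveCharacter_ne_one χ hne) (conductor_ne_one χ hne) (primitiveCharacter_sq χ h2)
  have hq : (0 : ℝ) < χ.conductor := by
    exact_mod_cast Nat.pos_of_ne_zero (NeZero.ne χ.conductor)
  rw [Lr_eq_mul χ hne h2 (by linarith)] at hP ⊢
  have hE := Er_pos χ h2 (s := s) (by linarith)
  have hE' := Er_pos χ h2 (s := t) (by linarith)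
  have hP' : 0 ≤ Lr χ.primitiveCharacter s := nonneg_of_mul_nonneg_left hP hE
  refine mul_pos (hD.clean_pos hs hst ht ?_ hP') hE'
  have e : ∀ x : ℝ, rexp (Real.log χ.conductor / 2 * x) = (χ.conductor : ℝ) ^ (x / 2) := by
    intro x
    rw [Real.rpow_def_of_pos hq]
    ring_nf
  rw [e, e]
  exact hc

theorem unique_single (hne : χ ≠ 1) (h2 : χ ^ 2 = 1) (β : ℝ) (hβ0 : 1 / 2 < β) (hβ : β < 1)
    (hc : (1 - β) * (χ.conductor : ℝ) ^ ((β - 1 / 2) / 2) ≤ 1 / 2)
    (h0 : LFunction χ β = 0) :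
    (∀ s : ℝ, 1 / 2 < s → s < β → (LFunction χ s).re < 0) ∧
    (∀ s : ℝ, β < s → s < 1 → 0 < (LFunction χ s).re) := by
  obtain ⟨W, hD⟩ := exists_ldata_single χ.primitiveCharacter χ.primitiveCharacter_isPrimitive
    (primitiveCharacter_ne_one χ hne) (conductor_ne_one χ hne) (primitiveCharacter_sq χ h2)
  have hq : (0 : ℝ) < χ.conductor := by
    exact_mod_cast Nat.pos_of_ne_zero (NeZero.ne χ.conductor)
  have hre : (LFunction χ (β : ℂ)).re = 0 := by rw [h0, Complex.zero_re]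
  rw [Lr_eq_mul χ hne h2 (by linarith)] at hre
  have hEβ := Er_pos χ h2 (s := β) (by linarith)
  have hP : Lr χ.primitiveCharacter β = 0 := (mul_eq_zero.mp hre).resolve_right hEβ.ne'
  have e : rexp (Real.log χ.conductor / 2 * (β - 1 / 2)) =
      (χ.conductor : ℝ) ^ ((β - 1 / 2) / 2) := by
    rw [Real.rpow_def_of_pos hq]
    ring_nf
  obtain ⟨u1, u2⟩ := hD.unique_zero hβ0 hβ (by rw [e]; exact hc) hP
  refine ⟨fun s hs hsβ => ?_, fun s hs hs1 => ?_⟩
  · rw [Lr_eq_mul χ hne h2 (by linarith)]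
    exact mul_neg_of_neg_of_pos (u1 s hs hsβ) (Er_pos χ h2 (by linarith))
  · rw [Lr_eq_mul χ hne h2 (by linarith)]
    exact mul_pos (u2 s hs hs1) (Er_pos χ h2 (by linarith))

end imprimitive

end Pool.Agent.MP0016c7
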