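import Mathlib
import Pool.Agent.Lib.MP_0016c7_nt.Final3

open Filter Topology Set MeasureTheory
open scoped Real

namespace Pool.Agent.MP0016c7

open DirichletCharacter

/-! ### Primitive characters of products -/

section prim

variable {N : ℕ} [NeZero N]

lemma prim_mul_apply (χ ψ : DirichletCharacter ℂ N) {a : ℤ}
    (h1 : IsCoprime a (χ.conductor : ℤ)) (h2 : IsCoprime a (ψ.conductor : ℤ)) :
    (χ * ψ).primitiveCharacter a = χ.primitiveCharacter a * ψ.primitiveCharacter a := by
  have hd : Nat.lcm χ.conductor ψ.conductor ∣ N :=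
    Nat.lcm_dvd χ.conductor_dvd_level ψ.conductor_dvd_level
  set M := Nat.lcm χ.conductor ψ.conductor with hM
  have hM0 : NeZero M := ⟨Nat.lcm_ne_zero (NeZero.ne _) (NeZero.ne _)⟩
  have hca : IsCoprime a (M : ℤ) := by
    have h3 : IsCoprime a ((χ.conductor * ψ.conductor : ℕ) : ℤ) := by
      push_cast
      exact h1.mul_right h2
    exact h3.of_isCoprime_of_dvd_right (by exact_mod_cast Nat.lcm_dvd_mul _ _)
  have e : changeLevel hd (χ.primitiveCharacter.mul ψ.primitiveCharacter) = χ * ψ := by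
    rw [DirichletCharacter.mul, MonoidHom.map_mul, ← changeLevel_trans, ← changeLevel_trans,
      changeLevel_primitiveCharacter, changeLevel_primitiveCharacter]
  rw [← e, primitiveCharacter_changeLevel_apply, primitiveCharacter_apply_of_isCoprime _ hca,
    DirichletCharacter.mul, MulChar.mul_apply, changeLevel_eq_cast_of_dvd' _ _ hca,
    changeLevel_eq_cast_of_dvd' _ _ hca]

lemma coprime_of_prim_ne {χ : DirichletCharacter ℂ N} {a : ℤ}
    (h : χ.primitiveCharacter a ≠ 0) : IsCoprime a (χ.conductor : ℤ) := by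
  by_contra hc
  exact h ((apply_eq_zero_iff ..).mpr hc)

/-- the real coefficients of the primitive character are multiplicative in the character -/
lemma rchar_prim_mul {χ ψ : DirichletCharacter ℂ N} (hχ : χ ^ 2 = 1) (hψ : ψ ^ 2 = 1) {n : ℕ}
    (h1 : rchar χ.primitiveCharacter n ≠ 0) (h2 : rchar ψ.primitiveCharacter n ≠ 0) :
    rchar (χ * ψ).primitiveCharacter n =
      rchar χ.primitiveCharacter n * rchar ψ.primitiveCharacter n := by
  have hn : n ≠ 0 := by
    rintro rfl
    exact h1 (by simp)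
  have hχψ : (χ * ψ) ^ 2 = 1 := by rw [mul_pow, hχ, hψ, one_mul]
  have e1 := ofReal_rchar (primitiveCharacter_sq χ hχ) hn
  have e2 := ofReal_rchar (primitiveCharacter_sq ψ hψ) hn
  have e3 := ofReal_rchar (primitiveCharacter_sq (χ * ψ) hχψ) hn
  have n1 : χ.primitiveCharacter (((n : ℕ) : ℤ) : ZMod χ.conductor) ≠ 0 := by
    rw [Int.cast_natCast, ← e1]
    exact_mod_cast h1
  have n2 : ψ.primitiveCharacter (((n : ℕ) : ℤ) : ZMod ψ.conductor) ≠ 0 := by
    rw [Int.cast_natCast, ← e2]
    exact_mod_cast h2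
  have key := prim_mul_apply χ ψ (coprime_of_prim_ne n1) (coprime_of_prim_ne n2)
  simp only [Int.cast_natCast] at key
  have : ((rchar (χ * ψ).primitiveCharacter n : ℝ) : ℂ) =
      ((rchar χ.primitiveCharacter n * rchar ψ.primitiveCharacter n : ℝ) : ℂ) := by
    rw [e3, key, Complex.ofReal_mul, e1, e2]
  exact_mod_cast this

lemma rchar_prim_one : rchar (1 : DirichletCharacter ℂ N).primitiveCharacter = rzeta := by
  ext n
  rcases eq_or_ne n 0 with rfl | hn
  · simp
  have hc : (1 : DirichletCharacter ℂ N).conductor = 1 := conductor_one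
  have h1 : (1 : DirichletCharacter ℂ N).primitiveCharacter = 1 := by
    rw [eq_one_iff_conductor_eq_one, (primitiveCharacter_isPrimitive _)]
    exact hc
  rw [rzeta_apply hn, rchar_apply _ hn, h1, MulChar.one_apply]
  · simp
  · have : Subsingleton (ZMod (1 : DirichletCharacter ℂ N).conductor) := by
      rw [hc]; infer_instance
    exact isUnit_of_subsingleton _

/-! ### Nonnegativity of the coefficients for a group of quadratic characters -/

/-- local nonnegativity at `p` -/
def LocNN (p : ℕ) (f : ArithmeticFunction ℝ) : Prop := ∀ k, 0 ≤ f (p ^ k)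

lemma LocNN.mul {p : ℕ} (hp : p.Prime) {f g : ArithmeticFunction ℝ} (hf : LocNN p f)
    (hg : LocNN p g) : LocNN p (f * g) := mul_prime_pow_nonneg hp hf hg

lemma locNN_one {p : ℕ} : LocNN p 1 := by
  intro k
  rw [ArithmeticFunction.one_apply]
  split_ifs <;> norm_num

lemma LocNN.prod {p : ℕ} (hp : p.Prime) {ι : Type*} (s : Finset ι) (f : ι → ArithmeticFunction ℝ)
    (h : ∀ i ∈ s, LocNN p (f i)) : LocNN p (∏ i ∈ s, f i) :=
  Finset.prod_induction f (LocNN p) (fun _ _ ha hb => ha.mul hp hb) locNN_one h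

lemma locNN_group (G : Finset (DirichletCharacter ℂ N)) (h2 : ∀ χ ∈ G, χ ^ 2 = 1)
    (hm : ∀ χ ∈ G, ∀ ψ ∈ G, χ * ψ ∈ G) {p : ℕ} (hp : p.Prime) :
    LocNN p (∏ χ ∈ G, rchar χ.primitiveCharacter) := by
  classical
  have hpow : ∀ χ ∈ G, ∀ i, rchar χ.primitiveCharacter (p ^ i) =
      rchar χ.primitiveCharacter p ^ i := fun χ hχ i =>
    rchar_pow (primitiveCharacter_sq χ (h2 χ hχ)) p i
  have hcase : ∀ χ ∈ G, rchar χ.primitiveCharacter p = 0 ∨ rchar χ.primitiveCharacter p = 1 ∨
      rchar χ.primitiveCharacter p = -1 := fun χ hχ =>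
    rchar_cases (primitiveCharacter_sq χ (h2 χ hχ)) p
  by_cases hη : ∃ η ∈ G, rchar η.primitiveCharacter p = -1
  · obtain ⟨η, hηG, hη1⟩ := hη
    have hηη : η * η = 1 := by rw [← sq]; exact h2 η hηG
    have hηne : rchar η.primitiveCharacter p ≠ 0 := by rw [hη1]; norm_num
    -- split
    set f : DirichletCharacter ℂ N → ArithmeticFunction ℝ := fun χ => rchar χ.primitiveCharacter
      with hf
    have s1 : ∏ χ ∈ G, f χ = (∏ χ ∈ G with f χ p = -1, f χ) * ∏ χ ∈ G with ¬ f χ p = -1, f χ :=
      (Finset.prod_filter_mul_prod_filter_not G (fun χ => f χ p = -1) f).symm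
    have s2 : ∏ χ ∈ G with ¬ f χ p = -1, f χ =
        (∏ χ ∈ (G.filter fun χ => ¬ f χ p = -1) with f χ p = 1, f χ) *
          ∏ χ ∈ (G.filter fun χ => ¬ f χ p = -1) with ¬ f χ p = 1, f χ :=
      (Finset.prod_filter_mul_prod_filter_not _ (fun χ => f χ p = 1) f).symm
    have s3 : ∏ χ ∈ (G.filter fun χ => ¬ f χ p = -1) with f χ p = 1, f χ =
        ∏ χ ∈ G with f χ p = -1, f (χ * η) := by
      refine (Finset.prod_bij' (fun χ _ => χ * η) (fun χ _ => χ * η) ?_ ?_ ?_ ?_ ?_).symm
      · intro χ hχ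
        rw [Finset.mem_filter] at hχ
        have hne : rchar χ.primitiveCharacter p ≠ 0 := by
          have := hχ.2
          simp only [hf] at this
          rw [this]; norm_num
        have hv : f (χ * η) p = 1 := by
          have := rchar_prim_mul (h2 χ hχ.1) (h2 η hηG) hne hηne
          simp only [hf] at hχ ⊢
          rw [this, hχ.2, hη1]; norm_num
        rw [Finset.mem_filter, Finset.mem_filter]
        refine ⟨⟨hm χ hχ.1 η hηG, ?_⟩, hv⟩
        rw [hv]; norm_num
      · intro χ hχ
        rw [Finset.mem_filter, Finset.mem_filter] at hχ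
        have hne : rchar χ.primitiveCharacter p ≠ 0 := by
          have := hχ.2
          simp only [hf] at this
          rw [this]; norm_num
        have hv : f (χ * η) p = -1 := by
          have := rchar_prim_mul (h2 χ hχ.1.1) (h2 η hηG) hne hηne
          have h3 := hχ.2
          simp only [hf] at h3 ⊢
          rw [this, h3, hη1]; norm_num
        rw [Finset.mem_filter]
        exact ⟨hm χ hχ.1.1 η hηG, hv⟩
      · intro χ _
        rw [mul_assoc, hηη, mul_one]
      · intro χ _
        rw [mul_assoc, hηη, mul_one]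
      · intro χ _
        rfl
    have s4 : ∏ χ ∈ G, f χ = (∏ χ ∈ G with f χ p = -1, (f χ * f (χ * η))) *
        ∏ χ ∈ (G.filter fun χ => ¬ f χ p = -1) with ¬ f χ p = 1, f χ := by
      rw [s1, s2, s3, Finset.prod_mul_distrib, mul_assoc]
    rw [s4]
    refine LocNN.mul hp (LocNN.prod hp _ _ ?_) (LocNN.prod hp _ _ ?_)
    · intro χ hχ
      rw [Finset.mem_filter] at hχ
      have hne : rchar χ.primitiveCharacter p ≠ 0 := by
        have := hχ.2
        simp only [hf] at this
        rw [this]; norm_num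
      have hv : rchar (χ * η).primitiveCharacter p = 1 := by
        have := rchar_prim_mul (h2 χ hχ.1) (h2 η hηG) hne hηne
        have h3 := hχ.2
        simp only [hf] at h3
        rw [this, h3, hη1]; norm_num
      intro k
      exact pair_nonneg hp (hpow χ hχ.1) (hpow (χ * η) (hm χ hχ.1 η hηG))
        (Or.inr (Or.inl ⟨hv, hcase χ hχ.1⟩)) k
    · intro χ hχ k
      rw [Finset.mem_filter, Finset.mem_filter] at hχ
      have hz : rchar χ.primitiveCharacter p = 0 := by
        rcases hcase χ hχ.1.1 with h | h | h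
        · exact h
        · exact absurd h hχ.2
        · exact absurd h hχ.1.2
      simp only [hf]
      rw [hpow χ hχ.1.1, hz]
      positivity
  · push Not at hη
    refine LocNN.prod hp _ _ ?_
    intro χ hχ k
    rw [hpow χ hχ]
    rcases hcase χ hχ with h | h | h
    · rw [h]; positivity
    · rw [h]; positivity
    · exact absurd h (hη χ hχ)

lemma isMultiplicative_prod (G : Finset (DirichletCharacter ℂ N)) (h2 : ∀ χ ∈ G, χ ^ 2 = 1) :
    (∏ χ ∈ G, rchar χ.primitiveCharacter).IsMultiplicative := by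
  refine Finset.prod_induction _ ArithmeticFunction.IsMultiplicative
    (fun _ _ ha hb => ha.mul hb) ArithmeticFunction.isMultiplicative_one ?_
  intro χ hχ
  exact isMultiplicative_rchar (primitiveCharacter_sq χ (h2 χ hχ))

theorem group_nonneg (G : Finset (DirichletCharacter ℂ N)) (h2 : ∀ χ ∈ G, χ ^ 2 = 1)
    (hm : ∀ χ ∈ G, ∀ ψ ∈ G, χ * ψ ∈ G) (n : ℕ) :
    0 ≤ (∏ χ ∈ G, rchar χ.primitiveCharacter) n :=
  nonneg_of_prime_pow (isMultiplicative_prod G h2)
    (fun _ hp k => locNN_group G h2 hm hp k) n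

/-- closure of the set of nontrivial elements -/
lemma closure_insert_one [DecidableEq (DirichletCharacter ℂ N)]
    {S : Finset (DirichletCharacter ℂ N)} (h2 : ∀ χ ∈ S, χ ^ 2 = 1)
    (hm : ∀ χ ∈ S, ∀ ψ ∈ S, χ ≠ ψ → χ * ψ ∈ S) :
    (∀ χ ∈ insert 1 S, χ ^ 2 = 1) ∧ (∀ χ ∈ insert 1 S, ∀ ψ ∈ insert 1 S, χ * ψ ∈ insert 1 S) := by
  refine ⟨fun χ hχ => ?_, fun χ hχ ψ hψ => ?_⟩
  · rcases Finset.mem_insert.mp hχ with rfl | h
    · exact one_pow 2
    · exact h2 χ h
  · rcases Finset.mem_insert.mp hχ with rfl | h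
    · rw [one_mul]; exact hψ
    rcases Finset.mem_insert.mp hψ with rfl | h'
    · rw [mul_one]; exact hχ
    by_cases he : χ = ψ
    · subst he
      rw [← sq, h2 χ h]
      exact Finset.mem_insert_self _ _
    · exact Finset.mem_insert_of_mem (hm χ h ψ h' he)

theorem coeffS_nonneg {S : Finset (DirichletCharacter ℂ N)} (h1 : 1 ∉ S)
    (h2 : ∀ χ ∈ S, χ ^ 2 = 1) (hm : ∀ χ ∈ S, ∀ ψ ∈ S, χ ≠ ψ → χ * ψ ∈ S) (n : ℕ) :
    0 ≤ (rzeta * ∏ χ ∈ S, rchar χ.primitiveCharacter) n := by
  classical
  obtain ⟨k2, km⟩ := closure_insert_one h2 hm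
  have := group_nonneg (insert 1 S) k2 km n
  rwa [Finset.prod_insert h1, rchar_prim_one] at this

lemma coeffS_one (S : Finset (DirichletCharacter ℂ N)) (h2 : ∀ χ ∈ S, χ ^ 2 = 1) :
    (rzeta * ∏ χ ∈ S, rchar χ.primitiveCharacter) 1 = 1 := by
  rw [ArithmeticFunction.mul_apply_one, rzeta_apply one_ne_zero, one_mul]
  exact (isMultiplicative_prod S h2).map_one

/-! ### Parities -/

lemma par_prim (χ : DirichletCharacter ℂ N) : par χ.primitiveCharacter = par χ := by
  have h : χ.primitiveCharacter (-1) = χ (-1) := by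
    have hc : IsCoprime (-1 : ℤ) (N : ℤ) := isCoprime_one_left.neg_left
    have := primitiveCharacter_apply_of_isCoprime χ hc
    push_cast at this
    exact this
  rcases χ.even_or_odd with he | ho
  · have he' : χ.primitiveCharacter.Even := by
      unfold DirichletCharacter.Even at he ⊢
      rw [h]; exact he
    rw [par_even _ he', par_even _ he]
  · have ho' : χ.primitiveCharacter.Odd := by
      unfold DirichletCharacter.Odd at ho ⊢
      rw [h]; exact ho
    rw [par_odd _ ho', par_odd _ ho]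

lemma par_mul_odd (χ η : DirichletCharacter ℂ N) (hη : η.Odd) : par (χ * η) = 1 - par χ := by
  rcases χ.even_or_odd with he | ho
  · have h3 : (χ * η).Odd := by
      unfold DirichletCharacter.Odd DirichletCharacter.Even at *
      rw [MulChar.mul_apply, he, hη, one_mul]
    rw [par_odd _ h3, par_even _ he]; norm_num
  · have h3 : (χ * η).Even := by
      unfold DirichletCharacter.Odd DirichletCharacter.Even at *
      rw [MulChar.mul_apply, ho, hη]; norm_num
    rw [par_even _ h3, par_odd _ ho]; norm_num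

lemma sum_par_le {S : Finset (DirichletCharacter ℂ N)} (h1 : 1 ∉ S)
    (h2 : ∀ χ ∈ S, χ ^ 2 = 1) (hm : ∀ χ ∈ S, ∀ ψ ∈ S, χ ≠ ψ → χ * ψ ∈ S) :
    ∑ χ ∈ S, par χ.primitiveCharacter ≤ ((S.card : ℝ) + 1) / 2 := by
  classical
  simp_rw [par_prim]
  by_cases hη : ∃ η ∈ S, η.Odd
  · obtain ⟨η, hηS, hηo⟩ := hη
    obtain ⟨k2, km⟩ := closure_insert_one h2 hm
    have hηη : η * η = 1 := by rw [← sq]; exact h2 η hηS
    have hone : par (1 : DirichletCharacter ℂ N) = 0 := by
      apply par_even
      unfold DirichletCharacter.Even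
      rw [MulChar.one_apply isUnit_one.neg]
    have e1 : ∑ χ ∈ insert 1 S, par χ = ∑ χ ∈ insert 1 S, (1 - par χ) := by
      refine Finset.sum_bij' (fun χ _ => χ * η) (fun χ _ => χ * η) ?_ ?_ ?_ ?_ ?_
      · intro χ hχ
        exact km χ hχ η (Finset.mem_insert_of_mem hηS)
      · intro χ hχ
        exact km χ hχ η (Finset.mem_insert_of_mem hηS)
      · intro χ _
        rw [mul_assoc, hηη, mul_one]
      · intro χ _
        rw [mul_assoc, hηη, mul_one]
      · intro χ _
        rw [par_mul_odd χ η hηo]; ring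
    rw [Finset.sum_sub_distrib, Finset.sum_const, Finset.card_insert_of_notMem h1,
      Finset.sum_insert h1, hone, nsmul_eq_mul, mul_one] at e1
    push_cast at e1
    linarith
  · push Not at hη
    have : ∑ χ ∈ S, par χ = 0 := by
      refine Finset.sum_eq_zero fun χ hχ => ?_
      rcases χ.even_or_odd with he | ho
      · exact par_even _ he
      · exact absurd ho (hη χ hχ)
    rw [this]; positivity

end prim

end Pool.Agent.MP0016c7
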