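import Mathlib
import Pool.Agent.Lib.MP_0016c7_nt.Group1

open Filter Topology Set MeasureTheory
open scoped Real

namespace Pool.Agent.MP0016c7

open DirichletCharacter

/-! ### Kernels with many factors -/

lemma phi_mono {a p r : ℝ} (ha0 : 0 < a) (ha : a ≤ 1) (hp : p ≤ 0) (hr : 0 ≤ r) :
    rexp p - rexp (p - r) ≤ 1 / a * (rexp (a * p) - rexp (a * (p - r))) := by
  have hd : ∀ y : ℝ, HasDerivAt (fun y => 1 / a * rexp (a * y) - rexp y)
      (rexp (a * y) - rexp y) y := by
    intro y
    have h1 : HasDerivAt (fun y : ℝ => a * y) a y := by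
      simpa using (hasDerivAt_id y).const_mul a
    have := (h1.exp.const_mul (1 / a)).sub (Real.hasDerivAt_exp y)
    refine this.congr_deriv ?_
    field_simp
  have hm : MonotoneOn (fun y => 1 / a * rexp (a * y) - rexp y) (Iic 0) := by
    refine monotoneOn_of_deriv_nonneg (convex_Iic 0)
      (fun y _ => (hd y).continuousAt.continuousWithinAt)
      (fun y _ => (hd y).differentiableAt.differentiableWithinAt) ?_
    intro y hy
    rw [interior_Iic] at hy
    have hy' : y < 0 := hy
    rw [(hd y).deriv]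
    have : rexp y ≤ rexp (a * y) := Real.exp_le_exp.mpr (by nlinarith)
    linarith
  have := hm (mem_Iic.mpr (by linarith : p - r ≤ 0)) (mem_Iic.mpr hp) (by linarith)
  simp only at this
  linarith

lemma kh2_of_gen {k A : ℝ} {T : ℝ → ℝ} (hk : 2 ≤ k) (hA : A / k ≤ 1 / 2) (K : Ker T)
    (hl : KLow T) (hq : KQ k A T) : KH2 T where
  cont := K.cont
  pos := K.pos
  up1 u r hr hur := by
    have hk0 : 0 < k := by linarith
    refine (hq u r hr).trans ?_
    refine mul_le_mul_of_nonneg_left ?_ (K.pos u).le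
    rw [Real.exp_le_exp]
    have h1 : (1 / 2 + A / k) * r ≤ 1 * r := mul_le_mul_of_nonneg_right (by linarith) hr
    have h2 := phi_mono (a := 2 / k) (p := u + r) (r := r) (by positivity)
      (by rw [div_le_one hk0]; exact hk) hur hr
    rw [add_sub_cancel_right] at h2
    have e1 : rexp (u + r) - rexp u = rexp u * (rexp r - 1) := by rw [Real.exp_add]; ring
    have e2 : rexp (2 / k * (u + r)) - rexp (2 / k * u) =
        rexp (2 * u / k) * (rexp (2 * r / k) - 1) := by
      have x1 : 2 / k * (u + r) = 2 * u / k + 2 * r / k := by ring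
      have x2 : 2 / k * u = 2 * u / k := by ring
      rw [x1, x2, Real.exp_add]; ring
    have e3 : 1 / (2 / k) = k / 2 := by field_simp
    rw [e1, e2, e3] at h2
    have h3 := mul_le_mul_of_nonneg_left h2 (by have := Real.pi_pos; positivity : 0 ≤ 2 * π)
    have e4 : 2 * π * (k / 2 * (rexp (2 * u / k) * (rexp (2 * r / k) - 1))) =
        k * π * rexp (2 * u / k) * (rexp (2 * r / k) - 1) := by ring
    rw [e4] at h3
    linarith
  up2 := (kernelHyp_of (by linarith) hA K hl hq).upp
  low u r hr := by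
    have hk0 : 0 < k := by linarith
    refine le_trans ?_ (kq_low hk0 hA K.pos hq u r hr)
    refine mul_le_mul_of_nonneg_left ?_ (K.pos u).le
    rw [Real.exp_le_exp]
    have h2 := phi_mono (a := 2 / k) (p := min u 0) (r := r) (by positivity)
      (by rw [div_le_one hk0]; exact hk) (min_le_right _ _) hr
    have e1 : rexp (min u 0) - rexp (min u 0 - r) = rexp (min u 0) * (1 - rexp (-r)) := by
      rw [mul_sub, ← Real.exp_add]; ring_nf
    have e2 : rexp (2 / k * min u 0) - rexp (2 / k * (min u 0 - r)) =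
        rexp (2 / k * min u 0) * (1 - rexp (-(2 * r / k))) := by
      have x1 : 2 / k * (min u 0 - r) = 2 / k * min u 0 + -(2 * r / k) := by ring
      rw [x1, Real.exp_add]; ring
    have e3 : 1 / (2 / k) = k / 2 := by field_simp
    rw [e1, e2, e3] at h2
    have h4 : rexp (2 / k * min u 0) ≤ rexp (2 * u / k) := by
      apply Real.exp_le_exp.mpr
      have : 2 * u / k = 2 / k * u := by ring
      rw [this]
      exact mul_le_mul_of_nonneg_left (min_le_left _ _) (by positivity)
    have h5 : 0 ≤ 1 - rexp (-(2 * r / k)) := by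
      have : rexp (-(2 * r / k)) ≤ 1 := by
        rw [Real.exp_le_one_iff]
        have : 0 ≤ 2 * r / k := by positivity
        linarith
      linarith
    have h6 : k / 2 * (rexp (2 / k * min u 0) * (1 - rexp (-(2 * r / k)))) ≤
        k / 2 * (rexp (2 * u / k) * (1 - rexp (-(2 * r / k)))) :=
      mul_le_mul_of_nonneg_left (mul_le_mul_of_nonneg_right h4 h5) (by positivity)
    have h3 := mul_le_mul_of_nonneg_left (h2.trans h6)
      (by have := Real.pi_pos; positivity : 0 ≤ 2 * π)
    have e4 : 2 * π * (k / 2 * (rexp (2 * u / k) * (1 - rexp (-(2 * r / k))))) =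
        k * π * (rexp (2 * u / k) * (1 - rexp (-(2 * r / k)))) := by ring
    rw [e4] at h3
    linarith

/-! ### The data of a finite set of characters -/

lemma cv_neg_gen {f g : ℝ → ℝ} {W₁ W₂ : ℝ} (hf : ∀ t, f (-t) = W₁ * f t)
    (hg : ∀ t, g (-t) = W₂ * g t) (t : ℝ) : cv f g (-t) = W₁ * W₂ * cv f g t := by
  unfold cv
  rw [← integral_neg_eq_self, ← integral_const_mul]
  congr 1
  ext τ
  have : -t - -τ = -(t - τ) := by ring
  rw [this, hf, hg]
  ring

section group

variable {N : ℕ} [NeZero N]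

/-- The multiplicative part of the data. -/
structure FD (S : Finset (DirichletCharacter ℂ N)) (T : ℝ → ℝ) (W : ℝ) (F G : ℝ → ℝ) :
    Prop where
  rep : Rep (∏ χ ∈ S, rchar χ.primitiveCharacter) T (∑ χ ∈ S, Real.log χ.conductor / 2) F
  hW : W = 1 ∨ W = -1
  hs : ∀ t, F (-t) = W * F t
  kq : KQ S.card (∑ χ ∈ S, par χ.primitiveCharacter) T
  val : ∀ s, 0 < s → ∫ t, rexp ((s - 1 / 2) * t) * F t =
    G s * ∏ χ ∈ S, Lr χ.primitiveCharacter s
  gpos : ∀ s, 0 < s → 0 < G s
  gcont : ContinuousOn G (Ioi 0)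

lemma fd_single (χ : DirichletCharacter ℂ N) (hne : χ ≠ 1) (h2 : χ ^ 2 = 1) :
    ∃ W, FD {χ} (Tk (par χ.primitiveCharacter)) W (gth χ.primitiveCharacter)
      (Gf χ.primitiveCharacter) := by
  have hprim := χ.primitiveCharacter_isPrimitive
  have hq1 := conductor_ne_one χ hne
  have hsq := primitiveCharacter_sq χ h2
  obtain ⟨W, hW, hfe⟩ := gth_fe χ.primitiveCharacter hprim hq1 hsq
  refine ⟨W, ?_⟩
  exact
  { rep := by
      rw [Finset.prod_singleton, Finset.sum_singleton]
      exact rep_gth χ.primitiveCharacter hq1 hsq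
    hW := hW
    hs := hfe
    kq := by
      rw [Finset.card_singleton, Finset.sum_singleton, Nat.cast_one]
      exact kq_Tk _
    val := fun s hs => by
      rw [Finset.prod_singleton]
      exact (gth_L χ.primitiveCharacter hprim hq1 hsq hs).2
    gpos := fun s hs => Gf_pos _ hs
    gcont := Gf_continuousOn _ }

theorem exists_fd (S : Finset (DirichletCharacter ℂ N)) (hne : S.Nonempty) (h1 : 1 ∉ S)
    (h2 : ∀ χ ∈ S, χ ^ 2 = 1) : ∃ T W F G, FD S T W F G := by
  induction hne using Finset.Nonempty.cons_induction with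
  | singleton χ =>
    have hχ : χ ≠ 1 := by
      rintro rfl
      exact h1 (Finset.mem_singleton_self _)
    obtain ⟨W, h⟩ := fd_single χ hχ (h2 χ (Finset.mem_singleton_self _))
    exact ⟨_, W, _, _, h⟩
  | cons χ S hχS hS ih =>
    have hχ : χ ≠ 1 := by
      rintro rfl
      exact h1 (Finset.mem_cons_self _ _)
    obtain ⟨T₂, W₂, F₂, G₂, f₂⟩ := ih (fun h => h1 (Finset.mem_cons_of_mem h))
      (fun ψ hψ => h2 ψ (Finset.mem_cons_of_mem hψ))
    obtain ⟨W₁, f₁⟩ := fd_single χ hχ (h2 χ (Finset.mem_cons_self _ _))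
    refine ⟨cv (Tk (par χ.primitiveCharacter)) T₂, W₁ * W₂, cv (gth χ.primitiveCharacter) F₂,
      fun s => Gf χ.primitiveCharacter s * G₂ s, ?_⟩
    exact
    { rep := by
        have := f₁.rep.conv f₂.rep
        rw [Finset.prod_singleton, Finset.sum_singleton] at this
        rw [Finset.prod_cons, Finset.sum_cons]
        exact this
      hW := by
        rcases f₁.hW with h | h <;> rcases f₂.hW with h' | h' <;> rw [h, h'] <;> norm_num
      hs := cv_neg_gen f₁.hs f₂.hs
      kq := by
        have hc : (0 : ℝ) < S.card := by exact_mod_cast hS.card_pos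
        have := (kq_Tk (par χ.primitiveCharacter)).conv one_pos hc f₂.kq
          (ker_Tk (par_nonneg _)) f₂.rep.ker
        rw [Finset.card_cons, Finset.sum_cons]
        push_cast
        rw [add_comm (S.card : ℝ) 1]
        exact this
      val := fun s hs => by
        rw [integral_exp_cv (s - 1 / 2) (f₁.rep.integrable_exp f₁.hW f₁.hs _)
          (f₂.rep.integrable_exp f₂.hW f₂.hs _), f₁.val s hs, f₂.val s hs,
          Finset.prod_singleton, Finset.prod_cons]
        ring
      gpos := fun s hs => mul_pos (Gf_pos _ hs) (f₂.gpos s hs)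
      gcont := (Gf_continuousOn _).mul f₂.gcont }

theorem exists_ldata_group (S : Finset (DirichletCharacter ℂ N)) (hne : S.Nonempty) (h1 : 1 ∉ S)
    (h2 : ∀ χ ∈ S, χ ^ 2 = 1) (hm : ∀ χ ∈ S, ∀ ψ ∈ S, χ ≠ ψ → χ * ψ ∈ S) :
    ∃ T W F G, LData (∏ χ ∈ S, rchar χ.primitiveCharacter) T
      (∑ χ ∈ S, Real.log χ.conductor / 2) W F G
      (fun s => ∏ χ ∈ S, Lr χ.primitiveCharacter s) := by
  obtain ⟨T, W, F, G, f⟩ := exists_fd S hne h1 h2
  refine ⟨T, W, F, G, ?_⟩
  have hcard : (1 : ℝ) ≤ S.card := by exact_mod_cast hne.card_pos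
  have hK : Ker (cv (Tk 0) T) := (ker_Tk le_rfl).conv f.rep.ker
  have hlow : KLow (cv (Tk 0) T) := klow_Tk0.conv (ker_Tk le_rfl) f.rep.ker
  have hkq : KQ (1 + S.card) (∑ χ ∈ S, par χ.primitiveCharacter) (cv (Tk 0) T) := by
    have := (kq_Tk 0).conv one_pos (by linarith : (0 : ℝ) < S.card) f.kq (ker_Tk le_rfl) f.rep.ker
    rwa [zero_add] at this
  have hA : (∑ χ ∈ S, par χ.primitiveCharacter) / (1 + S.card) ≤ 1 / 2 := by
    have := sum_par_le h1 h2 hm
    rw [div_le_iff₀ (by linarith)]
    linarith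
  have hneχ : ∀ χ ∈ S, χ ≠ 1 := by
    rintro χ hχ rfl
    exact h1 hχ
  exact
  { rep := f.rep
    hW := f.hW
    hs := f.hs
    ha := fun n => by rw [oneA_eq]; exact coeffS_nonneg h1 h2 hm n
    ha1 := by rw [oneA_eq, coeffS_one S h2]; norm_num
    hT := kh2_of_gen (by linarith) hA hK hlow hkq
    hT' := kernelHyp_of (by linarith) hA hK hlow hkq
    hL := Finset.sum_nonneg fun χ _ => by
      have := Real.log_natCast_nonneg χ.conductor
      linarith
    val := f.val
    gpos := f.gpos
    gcont := f.gcont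
    pcont := continuous_finsetProd _ fun χ hχ =>
      Lr_continuous χ.primitiveCharacter (primitiveCharacter_ne_one χ (hneχ χ hχ))
    pone := by
      refine Finset.prod_ne_zero_iff.mpr fun χ hχ => ?_
      have hq1 := conductor_ne_one χ (hneχ χ hχ)
      have h3 := (gth_L χ.primitiveCharacter χ.primitiveCharacter_isPrimitive hq1
        (primitiveCharacter_sq χ (h2 χ hχ)) one_pos).1
      intro h0
      rw [h0] at h3
      have h4 := LFunction_apply_one_ne_zero (χ := χ.primitiveCharacter)
        (primitiveCharacter_ne_one χ (hneχ χ hχ))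
      apply h4
      rw [Complex.ofReal_one, Complex.ofReal_zero] at h3
      exact h3 }

end group

end Pool.Agent.MP0016c7
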