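import Mathlib
import Pool.Agent.Lib.MP_0016c7_nt.Final4
import Pool.Agent.Lib.MP_0016c7_nt.Group2

open Filter Topology Set MeasureTheory
open scoped Real

namespace Pool.Agent.MP0016c7

open DirichletCharacter

section group

variable {N : ℕ} [NeZero N] {S : Finset (DirichletCharacter ℂ N)}

/-- product of the real values at the primitive characters -/
noncomputable def PS (S : Finset (DirichletCharacter ℂ N)) (s : ℝ) : ℝ :=
  ∏ χ ∈ S, Lr χ.primitiveCharacter s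

/-- product of the Euler factors -/
noncomputable def ES (S : Finset (DirichletCharacter ℂ N)) (s : ℝ) : ℝ := ∏ χ ∈ S, Er χ s

lemma ES_pos (h2 : ∀ χ ∈ S, χ ^ 2 = 1) {s : ℝ} (hs : 0 < s) : 0 < ES S s :=
  Finset.prod_pos fun χ hχ => Er_pos χ (h2 χ hχ) hs

lemma prod_LFunction_eq (h1 : 1 ∉ S) (h2 : ∀ χ ∈ S, χ ^ 2 = 1) {s : ℝ} (hs : 0 < s) :
    ∏ χ ∈ S, LFunction χ (s : ℂ) = ((PS S s * ES S s : ℝ) : ℂ) := by
  have hneχ : ∀ χ ∈ S, χ ≠ 1 := by
    rintro χ hχ rfl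
    exact h1 hχ
  unfold PS ES
  rw [← Finset.prod_mul_distrib, Complex.ofReal_prod]
  refine Finset.prod_congr rfl fun χ hχ => ?_
  rw [LFunction_real χ (hneχ χ hχ) (h2 χ hχ) hs, Lr_eq_mul χ (hneχ χ hχ) (h2 χ hχ) hs]

lemma re_prod_LFunction (h1 : 1 ∉ S) (h2 : ∀ χ ∈ S, χ ^ 2 = 1) {s : ℝ} (hs : 0 < s) :
    (∏ χ ∈ S, LFunction χ (s : ℂ)).re = PS S s * ES S s := by
  rw [prod_LFunction_eq h1 h2 hs, Complex.ofReal_re]

lemma prod_cond_pos (S : Finset (DirichletCharacter ℂ N)) :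
    0 < ∏ χ ∈ S, (χ.conductor : ℝ) :=
  Finset.prod_pos fun χ _ => by exact_mod_cast Nat.pos_of_ne_zero (NeZero.ne χ.conductor)

lemma log_prod_cond (S : Finset (DirichletCharacter ℂ N)) :
    ∑ χ ∈ S, Real.log χ.conductor / 2 = Real.log (∏ χ ∈ S, (χ.conductor : ℝ)) / 2 := by
  rw [Real.log_prod fun χ _ => by exact_mod_cast NeZero.ne χ.conductor, Finset.sum_div]

lemma log_prod_pos (hne : S.Nonempty) (h1 : 1 ∉ S) :
    0 < Real.log (∏ χ ∈ S, (χ.conductor : ℝ)) := by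
  have hneχ : ∀ χ ∈ S, χ ≠ 1 := by
    rintro χ hχ rfl
    exact h1 hχ
  rw [Real.log_prod fun χ _ => by exact_mod_cast NeZero.ne χ.conductor]
  exact Finset.sum_pos (fun χ hχ => log_conductor_pos χ (hneχ χ hχ)) hne

lemma exp_level (S : Finset (DirichletCharacter ℂ N)) (x : ℝ) :
    rexp ((∑ χ ∈ S, Real.log χ.conductor / 2) * x) =
      (∏ χ ∈ S, (χ.conductor : ℝ)) ^ (x / 2) := by
  rw [log_prod_cond, Real.rpow_def_of_pos (prod_cond_pos S)]
  ring_nf

lemma prod_LFunction_deriv (h1 : 1 ∉ S) (h2 : ∀ χ ∈ S, χ ^ 2 = 1) {β : ℝ} (hβ : 0 < β)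
    (h0 : PS S β = 0)
    (hlow : ∃ C, 0 < C ∧ ∃ s₃, β < s₃ ∧ ∀ s ∈ Ioo β s₃, C * (s - β) ≤ PS S s) :
    deriv (fun w : ℂ => ∏ χ ∈ S, LFunction χ w) β ≠ 0 := by
  have hneχ : ∀ χ ∈ S, χ ≠ 1 := by
    rintro χ hχ rfl
    exact h1 hχ
  set f : ℂ → ℂ := fun w => ∏ χ ∈ S, LFunction χ.primitiveCharacter w with hf
  set g : ℂ → ℂ := fun w => ∏ χ ∈ S, Ef χ w with hg
  have hfreal : ∀ s : ℝ, 0 < s → f s = ((PS S s : ℝ) : ℂ) := by
    intro s hs
    unfold PS
    rw [Complex.ofReal_prod]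
    refine Finset.prod_congr rfl fun χ hχ => ?_
    exact (gth_L χ.primitiveCharacter χ.primitiveCharacter_isPrimitive
      (conductor_ne_one χ (hneχ χ hχ)) (primitiveCharacter_sq χ (h2 χ hχ)) hs).1
  have hfd : DifferentiableAt ℂ f β := by
    rw [hf]
    refine DifferentiableAt.fun_finsetProd fun χ hχ => ?_
    exact (differentiable_LFunction (primitiveCharacter_ne_one χ (hneχ χ hχ))) (β : ℂ)
  have hgd : DifferentiableAt ℂ g β := by
    rw [hg]
    exact DifferentiableAt.fun_finsetProd fun χ _ => Ef_differentiableAt χ (β : ℂ)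
  have hf0 : f β = 0 := by rw [hfreal β hβ, h0, Complex.ofReal_zero]
  have hg0 : g β ≠ 0 := by
    rw [hg]
    refine Finset.prod_ne_zero_iff.mpr fun χ hχ => ?_
    rw [Ef_real χ (h2 χ hχ)]
    exact_mod_cast (Er_pos χ (h2 χ hχ) hβ).ne'
  obtain ⟨C, hC, s₃, h13, hlow⟩ := hlow
  have hd : deriv f β ≠ 0 := by
    refine deriv_ne_zero_of_lower hfd hf0 hC h13 ?_
    intro s hs
    rw [hfreal s (hβ.trans hs.1), Complex.ofReal_re]
    exact hlow s hs
  have e : (fun w : ℂ => ∏ χ ∈ S, LFunction χ w) = f * g := by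
    ext w
    simp only [hf, hg, Pi.mul_apply]
    rw [← Finset.prod_mul_distrib]
    exact Finset.prod_congr rfl fun χ hχ => LFunction_eq_mul_Ef χ (hneχ χ hχ) w
  rw [e, (hfd.hasDerivAt.mul hgd.hasDerivAt).deriv, hf0, zero_mul, add_zero]
  exact mul_ne_zero hd hg0

theorem group_main (hne : S.Nonempty) (h1 : 1 ∉ S)
    (h2 : ∀ χ ∈ S, χ ^ 2 = 1) (hm : ∀ χ ∈ S, ∀ ψ ∈ S, χ ≠ ψ → χ * ψ ∈ S)
    {D : ℝ} (hD : D = ∏ χ ∈ S, (χ.conductor : ℝ)) {P : ℂ → ℂ}
    (hP : P = fun w => ∏ χ ∈ S, LFunction χ w) :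
    (∀ s t : ℝ, 1 / 2 < s → s < t → t < 1 →
      (1 - 2 / Real.log D ≤ s ∨ (1 - t) * D ^ (t / 2) ≤ (1 - s) * D ^ (s / 2)) →
      0 ≤ (P s).re → 0 < (P t).re) ∧
    (∀ β : ℝ, 1 / 2 < β → β < 1 → P β = 0 →
      (1 - 2 / Real.log D ≤ β → deriv P β ≠ 0) ∧
      ((1 - β) * D ^ ((β - 1 / 2) / 2) ≤ 1 / 2 →
        (∀ s : ℝ, 1 / 2 < s → s < β → (P s).re < 0) ∧
        (∀ s : ℝ, β < s → s < 1 → 0 < (P s).re))) := by
  obtain ⟨T, W, F, G, h⟩ := exists_ldata_group S hne h1 h2 hm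
  have hlog := log_prod_pos hne h1
  set L := ∑ χ ∈ S, Real.log χ.conductor / 2 with hL
  have hLD : L = Real.log D / 2 := by rw [hL, log_prod_cond, hD]
  rw [← hD] at hlog
  have hexp : ∀ x, rexp (L * x) = D ^ (x / 2) := by
    intro x
    rw [hL, exp_level, hD]
  have hre : ∀ s : ℝ, 0 < s → (P s).re = PS S s * ES S s := by
    intro s hs
    rw [hP]
    exact re_prod_LFunction h1 h2 hs
  have hES : ∀ s : ℝ, 0 < s → 0 < ES S s := fun s hs => ES_pos h2 hs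
  have hwin : ∀ s : ℝ, 1 - 2 / Real.log D ≤ s → L * (1 - s) ≤ 1 := by
    intro s hs
    have h3 : 1 - s ≤ 2 / Real.log D := by linarith
    rw [le_div_iff₀ hlog] at h3
    rw [hLD]
    linarith
  have hPS : (fun s => ∏ χ ∈ S, Lr χ.primitiveCharacter s) = PS S := rfl
  rw [hPS] at h
  refine ⟨fun s t hs hst ht hcond hPs => ?_, fun β hβ0 hβ h0 => ⟨fun hw => ?_, fun hc => ?_⟩⟩
  · rw [hre s (by linarith)] at hPs
    rw [hre t (by linarith)]
    have hPs' : 0 ≤ PS S s := nonneg_of_mul_nonneg_left hPs (hES s (by linarith))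
    refine mul_pos ?_ (hES t (by linarith))
    rcases hcond with hcond | hcond
    · exact h.window_pos hs hst ht (hwin s hcond) hPs'
    · refine h.clean_pos hs hst ht ?_ hPs'
      rw [hexp, hexp]
      exact hcond
  · have hPβ : PS S β = 0 := by
      have : (P β).re = 0 := by rw [h0, Complex.zero_re]
      rw [hre β (by linarith)] at this
      exact (mul_eq_zero.mp this).resolve_right (hES β (by linarith)).ne'
    rw [hP]
    exact prod_LFunction_deriv h1 h2 (by linarith) hPβ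
      (h.window_lower hβ0 hβ (hwin β hw) hPβ.ge)
  · have hPβ : PS S β = 0 := by
      have : (P β).re = 0 := by rw [h0, Complex.zero_re]
      rw [hre β (by linarith)] at this
      exact (mul_eq_zero.mp this).resolve_right (hES β (by linarith)).ne'
    obtain ⟨u1, u2⟩ := h.unique_zero hβ0 hβ (by rw [hexp]; exact hc) hPβ
    refine ⟨fun s hs hsβ => ?_, fun s hs hs1 => ?_⟩
    · rw [hre s (by linarith)]
      exact mul_neg_of_neg_of_pos (u1 s hs hsβ) (hES s (by linarith))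
    · rw [hre s (by linarith)]
      exact mul_pos (u2 s hs hs1) (hES s (by linarith))

end group

end Pool.Agent.MP0016c7
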