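import Mathlib
import Pool.Agent.Lib.MP_0016c7_nt.RosBack

/-!
Completeness of the method of induced characters for real zeros of quadratic `L`-functions.

For a nontrivial quadratic character `χ` and `σ ∈ (0, 1)`, positivity of `L(s, χ)` on `[σ, 1)` is
equivalent to the existence of an integer `Q ≠ 0` for which every truncated sum
`∑ n ≤ x, (n, Q) = 1, χ(n) n ^ (-σ)` is at least `1`; when it holds, every product `Q` of the
inert primes up to a large enough bound has this property.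
-/

open Filter Pool.Agent.MP0016c7.Ros

theorem Pool.Agent.Results.MP_0016c7_nt.InducedSums.result
    (N : ℕ) [NeZero N] (χ : DirichletCharacter ℂ N) (hne : χ ≠ 1) (hsq : χ ^ 2 = 1) :
    (∀ σ : ℝ, 0 < σ → σ < 1 → List.TFAE
      [∀ s : ℝ, σ ≤ s → s < 1 → (χ.LFunction s).im = 0 ∧ 0 < (χ.LFunction s).re,
        ∃ Q : ℕ, Q ≠ 0 ∧ ∃ δ : ℝ, 0 < δ ∧ ∀ x : ℕ, 1 ≤ x → δ ≤ truncSum χ Q σ x,
        ∃ Q : ℕ, Q ≠ 0 ∧ ∀ x : ℕ, 1 ≤ x → 1 ≤ truncSum χ Q σ x,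
        ∃ Q : ℕ, Q ≠ 0 ∧ ∃ K : ℕ, (∀ x : ℕ, 1 ≤ x → x ≤ K → 1 ≤ truncSum χ Q σ x) ∧
          1 + N * Q * (K + 1 : ℝ) ^ (-σ) ≤ truncSum χ Q σ K,
        ∀ᶠ Y : ℕ in atTop, ∀ x : ℕ, 1 ≤ x → 1 ≤ truncSum χ (inertProduct χ Y) σ x]) ∧
    ((∀ s : ℝ, 0 < s → s < 1 → (χ.LFunction s).im = 0 ∧ 0 < (χ.LFunction s).re) ↔
      ∀ σ : ℝ, 0 < σ → σ < 1 → ∃ Q : ℕ, Q ≠ 0 ∧ ∀ x : ℕ, 1 ≤ x → 0 ≤ truncSum χ Q σ x) := by
  constructor
  · intro σ h0 h1
    tfae_have 1 → 5 := fun h =>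
      forward_eventually hne hsq h0 h1 fun s hs hs1 => (h s hs hs1).2
    tfae_have 5 → 3 := by
      intro h
      obtain ⟨Y, hY⟩ := h.exists
      exact ⟨inertProduct χ Y, inertProduct_ne_zero χ Y, hY⟩
    tfae_have 3 → 2 := by
      rintro ⟨Q, hQ, h⟩
      exact ⟨Q, hQ, 1, one_pos, h⟩
    tfae_have 2 → 1 := by
      rintro ⟨Q, hQ, δ, hδ, h⟩ s hs hs1
      exact ⟨LFunction_im hne hsq (by linarith), back_delta hQ hne hsq h0 hδ h hs⟩
    tfae_have 1 → 4 := by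
      intro h
      obtain ⟨Q, hQ, K, h3, h4⟩ :=
        forward_certificate hne hsq h0 h1 fun s hs hs1 => (h s hs hs1).2
      refine ⟨Q, hQ, K, h3, ?_⟩
      push_cast at h4
      exact h4
    tfae_have 4 → 3 := by
      rintro ⟨Q, hQ, K, h3, h4⟩
      refine ⟨Q, hQ, certificate hQ hne h0 h3 ?_⟩
      push_cast
      exact h4
    tfae_finish
  · constructor
    · intro h σ h0 h1
      obtain ⟨Y, hY⟩ := (forward_eventually hne hsq h0 h1 fun s hs hs1 =>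
        (h s (by linarith) hs1).2).exists
      exact ⟨inertProduct χ Y, inertProduct_ne_zero χ Y, fun x hx => zero_le_one.trans (hY x hx)⟩
    · intro h s hs0 hs1
      obtain ⟨Q, hQ, hQ'⟩ := h (s / 2) (by linarith) (by linarith)
      exact ⟨LFunction_im hne hsq hs0, back_pos hQ hne hsq (by linarith) hQ' (by linarith)⟩
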