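import Mathlib
import Pool.Agent.Lib.MP_0016c7_nt.EvenPlug

open Real Set MeasureTheory Filter Topology

namespace Pool.Agent.MP0016c7

/-! ### The convolution kernel of odd characters -/

lemma integral_cosh_gauss (b : ℝ) :
    ∫ r : ℝ, cosh r * rexp (-b * sinh r ^ 2) = √(π / b) := by
  have h2 : sinh '' univ = univ := by rw [image_univ, Real.sinh_surjective.range_eq]
  have h3 := integral_image_eq_integral_abs_deriv_smul MeasurableSet.univ (f := sinh) (f' := cosh)
    (fun x _ => (Real.hasDerivAt_sinh x).hasDerivWithinAt) Real.sinh_injective.injOn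
    (fun w => rexp (-b * w ^ 2))
  rw [h2, Measure.restrict_univ] at h3
  rw [← integral_gaussian b, h3]
  congr 1
  ext r
  rw [abs_of_pos (cosh_pos r), smul_eq_mul]

lemma cv_Tk01 (t : ℝ) :
    cv (Tk 0) (Tk 1) t = 1 / 2 * rexp (t / 2) * rexp (-(2 * π * rexp t)) := by
  have i1 : Integrable (fun τ => Tk 0 τ * Tk 1 (t - τ)) :=
    (ker_Tk le_rfl).cv_integrand (ker_Tk zero_le_one) t
  have i2 : Integrable (fun τ => Tk 0 (t - τ) * Tk 1 τ) := by
    have := i1.comp_sub_left t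
    simpa using this
  have e2 : ∫ τ, Tk 0 (t - τ) * Tk 1 τ = cv (Tk 0) (Tk 1) t := by
    unfold cv
    rw [← integral_sub_left_eq_self (fun τ => Tk 0 τ * Tk 1 (t - τ)) volume t]
    simp
  have h : 2 * cv (Tk 0) (Tk 1) t = ∫ τ, (Tk 0 τ * Tk 1 (t - τ) + Tk 0 (t - τ) * Tk 1 τ) := by
    rw [integral_add i1 i2, e2]
    unfold cv
    ring
  have h1 : ∀ τ, Tk 0 τ * Tk 1 (t - τ) + Tk 0 (t - τ) * Tk 1 τ =
      2 * rexp t * rexp (-(2 * π * rexp t)) *
        (cosh (τ - t / 2) * rexp (-(4 * π * rexp t) * sinh (τ - t / 2) ^ 2)) := by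
    intro τ
    set r := τ - t / 2 with hr
    have hx1 : rexp (2 * τ) = rexp t * (rexp r * rexp r) := by
      rw [← exp_add, ← exp_add]; congr 1; rw [hr]; ring
    have hx2 : rexp (2 * (t - τ)) = rexp t * (rexp (-r) * rexp (-r)) := by
      rw [← exp_add, ← exp_add]; congr 1; rw [hr]; ring
    have hx3 : rexp r * rexp (-r) = 1 := by rw [← exp_add]; simp
    have key : π * rexp (2 * τ) + π * rexp (2 * (t - τ)) =
        2 * π * rexp t + 4 * π * rexp t * sinh r ^ 2 := by
      rw [hx1, hx2, sinh_eq]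
      linear_combination (2 * π * rexp t) * hx3
    have e3 : Tk 0 τ * Tk 1 (t - τ) = rexp t * rexp (-r) *
        (rexp (-(2 * π * rexp t)) * rexp (-(4 * π * rexp t) * sinh r ^ 2)) := by
      unfold Tk
      rw [← exp_add, ← exp_add, ← exp_add, ← exp_add]
      congr 1
      rw [hr] at *
      linarith
    have e4 : Tk 0 (t - τ) * Tk 1 τ = rexp t * rexp r *
        (rexp (-(2 * π * rexp t)) * rexp (-(4 * π * rexp t) * sinh r ^ 2)) := by
      unfold Tk
      rw [← exp_add, ← exp_add, ← exp_add, ← exp_add]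
      congr 1
      rw [hr] at *
      linarith
    rw [e3, e4, cosh_eq]
    ring
  simp_rw [h1] at h
  rw [integral_const_mul, integral_sub_right_eq_self
    (fun τ => cosh τ * rexp (-(4 * π * rexp t) * sinh τ ^ 2)) (t / 2), integral_cosh_gauss] at h
  have h5 : √(π / (4 * π * rexp t)) = 1 / 2 * rexp (-(t / 2)) := by
    have : π / (4 * π * rexp t) = (1 / 2 * rexp (-(t / 2))) ^ 2 := by
      have e5 : rexp (-(t / 2)) ^ 2 = (rexp t)⁻¹ := by
        rw [sq, ← exp_add, ← exp_neg]; congr 1; ring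
      rw [mul_pow, e5]
      have := pi_pos.ne'
      have := (exp_pos t).ne'
      field_simp
      norm_num
    rw [this, sqrt_sq (by positivity)]
  rw [h5] at h
  have e6 : rexp t * rexp (-(t / 2)) = rexp (t / 2) := by rw [← exp_add]; congr 1; ring
  have : 2 * cv (Tk 0) (Tk 1) t = rexp (-(2 * π * rexp t)) * (rexp t * rexp (-(t / 2))) := by
    rw [h]; ring
  rw [e6] at this
  linarith

/-- the function `(1/2) e^{t/2} exp(-c e^t)` -/
noncomputable def ph (c t : ℝ) : ℝ := 1 / 2 * rexp (t / 2) * rexp (-(c * rexp t))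

/-- the frequencies -/
noncomputable def fq (q n : ℕ) : ℝ := 2 * π * n / √(q : ℝ)

lemma ph_pos (c t : ℝ) : 0 < ph c t := by unfold ph; positivity

lemma fq_pos {q n : ℕ} (hq : 0 < q) (hn : n ≠ 0) : 0 < fq q n := by
  have hn' : (0 : ℝ) < n := by exact_mod_cast Nat.pos_of_ne_zero hn
  have hq' : (0 : ℝ) < √(q : ℝ) := sqrt_pos.mpr (by exact_mod_cast hq)
  unfold fq
  positivity

lemma hn_odd {q : ℕ} (hq : 0 < q) {n : ℕ} (hn0 : n ≠ 0) (t : ℝ) :
    hn (cv (Tk 0) (Tk 1)) (Real.log q / 2) n t = ph (fq q n) t := by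
  have hn' : (0 : ℝ) < n := by exact_mod_cast Nat.pos_of_ne_zero hn0
  unfold hn ph fq
  rw [cv_Tk01]
  have e2 : rexp (t + Real.log n - Real.log q / 2) = (n : ℝ) / √(q : ℝ) * rexp t := by
    rw [sub_eq_add_neg, exp_add, exp_add, exp_log hn', exp_neg_half_log_q hq]
    ring
  have e1 : rexp ((Real.log q / 2 - Real.log n) / 2) *
      rexp ((t + Real.log n - Real.log q / 2) / 2) = rexp (t / 2) := by
    rw [← exp_add]; congr 1; ring
  rw [e2]
  calc rexp ((Real.log q / 2 - Real.log n) / 2) *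
      (1 / 2 * rexp ((t + Real.log n - Real.log q / 2) / 2) *
        rexp (-(2 * π * ((n : ℝ) / √(q : ℝ) * rexp t))))
      = 1 / 2 * (rexp ((Real.log q / 2 - Real.log n) / 2) *
          rexp ((t + Real.log n - Real.log q / 2) / 2)) *
        rexp (-(2 * π * ((n : ℝ) / √(q : ℝ) * rexp t))) := by ring
    _ = _ := by
        rw [e1]
        congr 2
        ring

section series

variable {q : ℕ} [NeZero q] (χ : DirichletCharacter ℂ q)

lemma rep_odd (hq1 : q ≠ 1) (h2 : χ ^ 2 = 1) (ho : χ.Odd) :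
    Rep (coeff1 χ) (cv (Tk 0) (Tk 1)) (Real.log q / 2) (cv omt (gth χ)) := by
  have hrep := rep_omt.conv (rep_gth χ hq1 h2)
  rw [zero_add, par_odd χ ho, oneA_mul_cA] at hrep
  exact hrep

lemma hasSum_odd (hq1 : q ≠ 1) (h2 : χ ^ 2 = 1) (ho : χ.Odd) (t : ℝ) :
    HasSum (fun n : ℕ => coeff1 χ n * ph (fq q n) t) (cv omt (gth χ) t) := by
  refine ((rep_odd χ hq1 h2 ho).hs t).congr_fun fun n => ?_
  rcases eq_or_ne n 0 with rfl | hn0
  · simp
  · rw [hn_odd (NeZero.pos q) hn0]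

/-- summability against the coefficients -/
lemma summable_coeff (hq1 : q ≠ 1) (h2 : χ ^ 2 = 1) (ho : χ.Odd) {f : ℕ → ℝ} {C : ℝ}
    (hf : ∀ n : ℕ, n ≠ 0 → |f n| ≤ C / (n : ℝ) ^ 2) :
    Summable (fun n : ℕ => |coeff1 χ n| * |f n|) := by
  have h1 := ((rep_odd χ hq1 h2 ho).csum 2 (by norm_num)).mul_right C
  refine h1.of_nonneg_of_le (fun n => by positivity) fun n => ?_
  rcases eq_or_ne n 0 with rfl | hn0
  · simp
  · have hn' : (0 : ℝ) < n := by exact_mod_cast Nat.pos_of_ne_zero hn0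
    have e1 : rexp (-2 * Real.log n) = 1 / (n : ℝ) ^ 2 := by
      rw [exp_neg_mul_log hn0, Real.rpow_two]
    rw [e1, mul_assoc]
    refine mul_le_mul_of_nonneg_left ((hf n hn0).trans (le_of_eq ?_)) (abs_nonneg _)
    ring

end series

/-- polynomial times exponential is bounded by an inverse square -/
lemma pow_mul_exp_le (k : ℕ) {c : ℝ} (hc : 0 < c) :
    ∃ C : ℝ, 0 ≤ C ∧ ∀ n : ℕ, n ≠ 0 → (n : ℝ) ^ k * rexp (-(c * n)) ≤ C / (n : ℝ) ^ 2 := by
  refine ⟨(k + 2).factorial / c ^ (k + 2), by positivity, fun n hn0 => ?_⟩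
  have hn' : (0 : ℝ) < n := by exact_mod_cast Nat.pos_of_ne_zero hn0
  have h1 := Real.pow_div_factorial_le_exp (c * n) (by positivity) (k + 2)
  have hf : (0 : ℝ) < (k + 2).factorial := by exact_mod_cast Nat.factorial_pos _
  rw [div_le_iff₀ hf] at h1
  rw [le_div_iff₀ (by positivity), le_div_iff₀ (by positivity)]
  have h2 : rexp (-(c * n)) * rexp (c * n) = 1 := by rw [← exp_add]; simp
  calc (n : ℝ) ^ k * rexp (-(c * n)) * (n : ℝ) ^ 2 * c ^ (k + 2)
      = (c * n) ^ (k + 2) * rexp (-(c * n)) := by ring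
    _ ≤ rexp (c * n) * (k + 2).factorial * rexp (-(c * n)) :=
        mul_le_mul_of_nonneg_right h1 (exp_pos _).le
    _ = (k + 2).factorial * (rexp (-(c * n)) * rexp (c * n)) := by ring
    _ = (k + 2).factorial := by rw [h2, mul_one]

end Pool.Agent.MP0016c7
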