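import Mathlib
import Pool.Agent.Lib.MP_0016c7_nt.OddKernel
import Pool.Agent.Lib.MP_0016c7_nt.Final1

open Real Set MeasureTheory Filter Topology

namespace Pool.Agent.MP0016c7

/-! ### The folded integral of odd characters -/

/-- `∫_1^∞ (1 + W/u) exp(-c u) du` -/
noncomputable def e1w (W c : ℝ) : ℝ := ∫ u in Ioi (1 : ℝ), (1 + W / u) * rexp (-c * u)

lemma one_add_div_nonneg {W u : ℝ} (hW : W = 1 ∨ W = -1) (hu : 1 < u) : 0 ≤ 1 + W / u := by
  have h1 : 1 / u < 1 := by rw [div_lt_one (by linarith)]; exact hu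
  have h2 : 0 < 1 / u := by positivity
  rcases hW with rfl | rfl
  · linarith
  · rw [neg_div]; linarith

lemma one_add_div_le {W u : ℝ} (hW : W = 1 ∨ W = -1) (hu : 1 < u) : 1 + W / u ≤ 2 := by
  have h1 : 1 / u < 1 := by rw [div_lt_one (by linarith)]; exact hu
  have h2 : 0 < 1 / u := by positivity
  rcases hW with rfl | rfl
  · linarith
  · rw [neg_div]; linarith

lemma integrableOn_e1w {W c : ℝ} (hW : W = 1 ∨ W = -1) (hc : 0 < c) :
    IntegrableOn (fun u : ℝ => (1 + W / u) * rexp (-c * u)) (Ioi 1) := by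
  have h1 := (integrableOn_exp_mul_Ioi (a := -c) (by linarith) 1).const_mul 2
  refine Integrable.mono' h1 ?_ ?_
  · exact (by fun_prop : Measurable _).aestronglyMeasurable
  · filter_upwards [ae_restrict_mem measurableSet_Ioi] with u hu
    rw [Real.norm_eq_abs, abs_mul, abs_of_pos (exp_pos _), abs_of_nonneg (one_add_div_nonneg hW hu)]
    exact mul_le_mul_of_nonneg_right (one_add_div_le hW hu) (exp_pos _).le

lemma e1w_nonneg {W : ℝ} (hW : W = 1 ∨ W = -1) (c : ℝ) : 0 ≤ e1w W c := by
  unfold e1w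
  refine setIntegral_nonneg measurableSet_Ioi fun u hu => ?_
  exact mul_nonneg (one_add_div_nonneg hW hu) (exp_pos _).le

lemma e1w_le {W c : ℝ} (hW : W = 1 ∨ W = -1) (hc : 0 < c) : e1w W c ≤ 2 * (rexp (-c) / c) := by
  have h1 : e1w W c ≤ ∫ u in Ioi (1 : ℝ), 2 * rexp (-c * u) := by
    unfold e1w
    refine setIntegral_mono_on (integrableOn_e1w hW hc)
      ((integrableOn_exp_mul_Ioi (a := -c) (by linarith) 1).const_mul 2) measurableSet_Ioi ?_
    intro u hu
    exact mul_le_mul_of_nonneg_right (one_add_div_le hW hu) (exp_pos _).le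
  rw [integral_const_mul, integral_exp_mul_Ioi (by linarith)] at h1
  have e : -rexp (-c * 1) / -c = rexp (-c) / c := by rw [mul_one, neg_div_neg_eq]
  rw [e] at h1
  exact h1

lemma integral_Cw_ph {W : ℝ} (c : ℝ) :
    ∫ t in Ioi (0 : ℝ), Cw W (1 / 2) t * ph c t = 1 / 2 * e1w W c := by
  unfold e1w
  rw [← image_exp_Ioi, integral_image_eq_integral_abs_deriv_smul measurableSet_Ioi
    (fun x _ => (Real.hasDerivAt_exp x).hasDerivWithinAt) Real.exp_injective.injOn,
    ← integral_const_mul]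
  refine setIntegral_congr_fun measurableSet_Ioi fun t _ => ?_
  rw [abs_of_pos (exp_pos t), smul_eq_mul]
  unfold Cw ph
  have e1 : rexp (1 / 2 * t) * rexp (t / 2) = rexp t := by rw [← exp_add]; congr 1; ring
  have e2 : rexp (-(1 / 2 * t)) * rexp (t / 2) = 1 := by
    rw [← exp_add]
    have : -(1 / 2 * t) + t / 2 = 0 := by ring
    rw [this, exp_zero]
  have e3 : rexp t * (1 + W / rexp t) = rexp t + W := by
    have := (exp_pos t).ne'
    field_simp
  have e4 : -(c * rexp t) = -c * rexp t := by ring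
  rw [e4]
  calc (rexp (1 / 2 * t) + W * rexp (-(1 / 2 * t))) *
        (1 / 2 * rexp (t / 2) * rexp (-c * rexp t))
      = 1 / 2 * ((rexp (1 / 2 * t) * rexp (t / 2)) + W * (rexp (-(1 / 2 * t)) * rexp (t / 2))) *
          rexp (-c * rexp t) := by ring
    _ = 1 / 2 * (rexp t + W) * rexp (-c * rexp t) := by rw [e1, e2, mul_one]
    _ = 1 / 2 * (rexp t * (1 + W / rexp t)) * rexp (-c * rexp t) := by rw [e3]
    _ = _ := by ring

/-- Termwise integration up to the edge of the strip. -/
lemma Rep.hasSum_Cw_half {c : ArithmeticFunction ℝ} {T : ℝ → ℝ} {L W : ℝ} {ψ : ℝ → ℝ}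
    (h : Rep c T L ψ) {z : ℝ} (hz0 : 0 ≤ z) (hz : z ≤ 1 / 2) (hW : W = 1 ∨ W = -1) :
    IntegrableOn (fun t => Cw W z t * ψ t) (Ioi 0) ∧
    HasSum (fun n : ℕ => c n * ∫ t in Ioi 0, Cw W z t * hn T L n t)
      (∫ t in Ioi 0, Cw W z t * ψ t) := by
  obtain ⟨C, hC0, hC⟩ := h.ker.hn_le L (z := 1) (by norm_num)
  have hcw : ∀ t ∈ Ioi (0 : ℝ), |Cw W z t| ≤ 2 * rexp (z * t) := by
    intro t ht
    have ht0 : (0 : ℝ) < t := ht
    unfold Cw
    have h1 : rexp (-(z * t)) ≤ rexp (z * t) := by
      rw [Real.exp_le_exp]; nlinarith [mul_nonneg hz0 ht0.le]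
    have h2 := Real.exp_pos (-(z * t))
    rcases hW with rfl | rfl
    · rw [_root_.abs_le]; constructor <;> linarith
    · rw [_root_.abs_le]; constructor <;> linarith
  have hTc := h.ker.cont
  have hmeas : ∀ n, Continuous (fun t => Cw W z t * hn T L n t) := by
    intro n
    unfold Cw hn
    fun_prop
  have hbound : ∀ n : ℕ, ∀ t ∈ Ioi (0 : ℝ), ‖Cw W z t * hn T L n t‖ ≤
      (2 * C * rexp (-(1 + 1 / 2) * Real.log n)) * rexp ((z - 1) * t) := by
    intro n t ht
    rw [Real.norm_eq_abs, abs_mul, abs_of_pos (h.ker.hn_pos L n t)]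
    calc |Cw W z t| * hn T L n t ≤ (2 * rexp (z * t)) *
          (C * rexp (-(1 + 1 / 2) * Real.log n) * rexp (-1 * t)) :=
          mul_le_mul (hcw t ht) (hC n t) (h.ker.hn_pos L n t).le (by positivity)
      _ = _ := by
          have : rexp ((z - 1) * t) = rexp (z * t) * rexp (-1 * t) := by
            rw [← Real.exp_add]; ring_nf
          rw [this]; ring
  have hdom := integrableOn_exp_mul_Ioi (a := z - 1) (by linarith) 0
  have hint : ∀ n : ℕ, IntegrableOn (fun t => Cw W z t * hn T L n t) (Ioi 0) := by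
    intro n
    refine Integrable.mono' (hdom.const_mul (2 * C * rexp (-(1 + 1 / 2) * Real.log n)))
      (hmeas n).aestronglyMeasurable ?_
    rw [ae_restrict_iff' measurableSet_Ioi]
    exact Eventually.of_forall fun t ht => hbound n t ht
  have hsum : Summable fun n : ℕ => ∫ t in Ioi 0, ‖c n * (Cw W z t * hn T L n t)‖ := by
    have h1 := (h.csum (1 + 1 / 2) (by norm_num)).mul_right
      (2 * C * ∫ t in Ioi 0, rexp ((z - 1) * t))
    refine h1.of_nonneg_of_le (fun n => integral_nonneg fun t => norm_nonneg _) fun n => ?_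
    have h2 : ∫ t in Ioi 0, ‖c n * (Cw W z t * hn T L n t)‖ ≤
        ∫ t in Ioi 0, |c n| * ((2 * C * rexp (-(1 + 1 / 2) * Real.log n)) *
          rexp ((z - 1) * t)) := by
      refine setIntegral_mono_on ((hint n).const_mul _).norm ((hdom.const_mul _).const_mul _)
        measurableSet_Ioi fun t ht => ?_
      rw [norm_mul, Real.norm_eq_abs (c n)]
      exact mul_le_mul_of_nonneg_left (hbound n t ht) (abs_nonneg _)
    refine h2.trans (le_of_eq ?_)
    rw [integral_const_mul, integral_const_mul]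
    ring
  have key := hasSum_integral_of_summable_integral_norm
    (F := fun (n : ℕ) (t : ℝ) => c n * (Cw W z t * hn T L n t))
    (fun n => (hint n).const_mul _) hsum
  have e1 : ∀ t, ∑' n : ℕ, c n * (Cw W z t * hn T L n t) = Cw W z t * ψ t := by
    intro t
    rw [← (h.hs t).tsum_eq, ← tsum_mul_left]
    congr 1
    ext n
    ring
  simp_rw [e1] at key
  constructor
  · obtain ⟨C', hC'0, hC'⟩ := h.abs_le (z := 1) (by norm_num)
    refine Integrable.mono' (hdom.const_mul (2 * C')) ?_ ?_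
    · have hm := h.measurable
      refine (Measurable.mul ?_ hm).aestronglyMeasurable
      unfold Cw
      fun_prop
    · filter_upwards [ae_restrict_mem measurableSet_Ioi] with t ht
      rw [Real.norm_eq_abs, abs_mul]
      calc |Cw W z t| * |ψ t| ≤ (2 * rexp (z * t)) * (C' * rexp (-1 * t)) :=
            mul_le_mul (hcw t ht) (hC' t) (abs_nonneg _) (by positivity)
        _ = _ := by
            have : rexp ((z - 1) * t) = rexp (z * t) * rexp (-1 * t) := by
              rw [← Real.exp_add]; ring_nf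
            rw [this]; ring
  · refine key.congr_fun fun n => ?_
    rw [integral_const_mul]

lemma sinh_mul_lt {θ x : ℝ} (h0 : 0 < θ) (h1 : θ < 1) (hx : 0 < x) :
    sinh (θ * x) < θ * sinh x := by
  have hd : ∀ x : ℝ, HasDerivAt (fun x => θ * sinh x - sinh (θ * x))
      (θ * cosh x - cosh (θ * x) * θ) x := by
    intro x
    have h2 : HasDerivAt (fun x : ℝ => θ * x) θ x := by
      simpa using (hasDerivAt_id' x).const_mul θ
    exact ((Real.hasDerivAt_sinh x).const_mul θ).fun_sub
      ((Real.hasDerivAt_sinh (θ * x)).comp x h2)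
  have hmono : StrictMonoOn (fun x => θ * sinh x - sinh (θ * x)) (Ici 0) := by
    refine strictMonoOn_of_deriv_pos (convex_Ici 0)
      (fun x _ => (hd x).continuousAt.continuousWithinAt) ?_
    intro x hx
    rw [interior_Ici] at hx
    have hx0 : 0 < x := hx
    rw [(hd x).deriv]
    have : cosh (θ * x) < cosh x := by
      rw [cosh_lt_cosh, abs_of_pos (by positivity), abs_of_pos hx0]
      nlinarith
    nlinarith
  have := hmono (Set.mem_Ici.mpr (le_refl (0 : ℝ))) (Set.mem_Ici.mpr hx.le) hx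
  simp at this
  linarith

/-- the comparison factor at the edge -/
noncomputable def edgeK (W z : ℝ) : ℝ := if W = 1 then 1 else 2 * z

lemma Cw_lt_edge {W z t : ℝ} (hW : W = 1 ∨ W = -1) (hz0 : 0 < z) (hz : z < 1 / 2) (ht : 0 < t) :
    Cw W z t < edgeK W z * Cw W (1 / 2) t := by
  rcases hW with rfl | rfl
  · have h1 : cosh (z * t) < cosh (1 / 2 * t) := by
      rw [cosh_lt_cosh, abs_of_pos (by positivity), abs_of_pos (by positivity)]
      nlinarith
    rw [cosh_eq, cosh_eq] at h1
    unfold Cw edgeK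
    rw [if_pos rfl]
    linarith
  · have h1 := sinh_mul_lt (θ := 2 * z) (x := 1 / 2 * t) (by linarith) (by linarith)
      (by positivity)
    have e : 2 * z * (1 / 2 * t) = z * t := by ring
    rw [e, sinh_eq, sinh_eq] at h1
    unfold Cw edgeK
    rw [if_neg (by norm_num)]
    linarith

section odd

variable {q : ℕ} [NeZero q] (χ : DirichletCharacter ℂ q)

/-- The folded integral is bounded by the coefficient sum of `e1w`. -/
theorem odd_integral_lt (hq1 : q ≠ 1) (h2 : χ ^ 2 = 1) (ho : χ.Odd) {W z : ℝ}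
    (hW : W = 1 ∨ W = -1) (hz0 : 0 < z) (hz : z < 1 / 2) :
    ∫ t in Ioi (0 : ℝ), Cw W z t * cv omt (gth χ) t <
      edgeK W z * (1 / 2 * ∑' n : ℕ, coeff1 χ n * e1w W (fq q n)) := by
  have hrep := rep_odd χ hq1 h2 ho
  obtain ⟨i1, -⟩ := hrep.hasSum_Cw_half (z := z) hz0.le hz.le hW
  obtain ⟨i2, s2⟩ := hrep.hasSum_Cw_half (z := 1 / 2) (by norm_num) le_rfl hW
  have hpos : ∀ t, 0 < cv omt (gth χ) t :=
    fun t => hrep.pos (coeff1_nonneg h2) (by rw [coeff1_one]; norm_num) t
  have e2 : ∫ t in Ioi (0 : ℝ), Cw W (1 / 2) t * cv omt (gth χ) t =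
      1 / 2 * ∑' n : ℕ, coeff1 χ n * e1w W (fq q n) := by
    rw [← s2.tsum_eq, ← tsum_mul_left]
    refine tsum_congr fun n => ?_
    rcases eq_or_ne n 0 with rfl | hn0
    · simp
    · have : ∀ t, hn (cv (Tk 0) (Tk 1)) (Real.log q / 2) n t = ph (fq q n) t :=
        fun t => hn_odd (NeZero.pos q) hn0 t
      simp_rw [this]
      rw [integral_Cw_ph]
      ring
  rw [← e2, ← integral_const_mul, ← sub_pos, ← integral_sub (i2.const_mul _) i1]
  have hcont : ∀ t ∈ Ioi (0 : ℝ), 0 < edgeK W z * (Cw W (1 / 2) t * cv omt (gth χ) t) -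
      Cw W z t * cv omt (gth χ) t := by
    intro t ht
    have h1 := mul_lt_mul_of_pos_right (Cw_lt_edge hW hz0 hz ht) (hpos t)
    linarith
  rw [setIntegral_pos_iff_support_of_nonneg_ae]
  · have : Function.support (fun t => edgeK W z * (Cw W (1 / 2) t * cv omt (gth χ) t) -
      Cw W z t * cv omt (gth χ) t) ∩ Ioi 0 = Ioi 0 := by
      rw [Set.inter_eq_right]
      intro t ht
      exact (hcont t ht).ne'
    rw [this]
    simp
  · filter_upwards [ae_restrict_mem measurableSet_Ioi] with t ht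
    exact (hcont t ht).le
  · exact (i2.const_mul _).sub i1

end odd

end Pool.Agent.MP0016c7
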