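import Mathlib
import Pool.Agent.Lib.MP_0016c7_nt.OddKernel

open Real Set MeasureTheory Filter Topology

namespace Pool.Agent.MP0016c7

/-! ### The pole coefficient of odd characters -/

lemma hasDerivAt_ph (c t : ℝ) : HasDerivAt (ph c) ((1 / 2 - c * rexp t) * ph c t) t := by
  unfold ph
  have h1 : HasDerivAt (fun t : ℝ => rexp (t / 2)) (rexp (t / 2) * (1 / 2)) t :=
    ((hasDerivAt_id' t).div_const 2).exp
  have h2 : HasDerivAt (fun t : ℝ => rexp (-(c * rexp t))) (rexp (-(c * rexp t)) *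
      (-(c * rexp t))) t := (((Real.hasDerivAt_exp t).const_mul c).fun_neg).exp
  have h3 := (h1.const_mul (1 / 2)).fun_mul h2
  refine h3.congr_deriv ?_
  ring

lemma fq_eq (q n : ℕ) : fq q n = (2 * π / √(q : ℝ)) * n := by unfold fq; ring

section kappa

variable {q : ℕ} [NeZero q] (χ : DirichletCharacter ℂ q)

lemma cfq_pos : 0 < 2 * π / √(q : ℝ) := by
  have hq' : (0 : ℝ) < √(q : ℝ) := sqrt_pos.mpr (by exact_mod_cast NeZero.pos q)
  positivity

lemma ph_deriv_bound {c t : ℝ} (hc : 0 ≤ c) (ht : t ∈ Ioo (-1 : ℝ) 1) :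
    |(1 / 2 - c * rexp t) * ph c t| ≤ 2 * ((1 + 3 * c) * rexp (-(c / 3))) := by
  have he1 : rexp 1 < 3 := by have := Real.exp_one_lt_d9; linarith
  have he2 : 1 / 3 < rexp (-1) := by
    rw [exp_neg, one_div]
    exact inv_strictAnti₀ (exp_pos 1) he1
  have h1 : rexp t < 3 := (exp_lt_exp.mpr ht.2).trans he1
  have h2 : 1 / 3 < rexp t := he2.trans (exp_lt_exp.mpr ht.1)
  have h3 : rexp (t / 2) < 3 := (exp_lt_exp.mpr (by linarith [ht.2])).trans he1
  have h4 : |1 / 2 - c * rexp t| ≤ 1 + 3 * c := by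
    rw [abs_le]
    constructor <;> nlinarith
  have h5 : ph c t ≤ 2 * rexp (-(c / 3)) := by
    unfold ph
    have h6 : rexp (-(c * rexp t)) ≤ rexp (-(c / 3)) := by
      apply exp_le_exp.mpr
      nlinarith
    have h7 := exp_pos (-(c * rexp t))
    have h8 := exp_pos (t / 2)
    nlinarith
  rw [abs_mul, abs_of_pos (ph_pos c t)]
  calc |1 / 2 - c * rexp t| * ph c t ≤ (1 + 3 * c) * (2 * rexp (-(c / 3))) :=
        mul_le_mul h4 h5 (ph_pos c t).le (by positivity)
    _ = _ := by ring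

lemma fq_decay (A B δ : ℝ) (hA : 0 ≤ A) (hB : 0 ≤ B) (hδ : 0 < δ) : ∃ C : ℝ, ∀ n : ℕ, n ≠ 0 →
    (A + B * fq q n) * rexp (-(δ * fq q n)) ≤ C / (n : ℝ) ^ 2 := by
  have hc := cfq_pos (q := q)
  obtain ⟨C0, hC0, h0⟩ := pow_mul_exp_le 0 (mul_pos hδ hc)
  obtain ⟨C1, hC1, h1⟩ := pow_mul_exp_le 1 (mul_pos hδ hc)
  refine ⟨A * C0 + B * (2 * π / √(q : ℝ)) * C1, fun n hn => ?_⟩
  have e : δ * fq q n = δ * (2 * π / √(q : ℝ)) * n := by rw [fq_eq]; ring
  rw [e, fq_eq]
  have k0 := mul_le_mul_of_nonneg_left (h0 n hn) hA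
  have k1 := mul_le_mul_of_nonneg_left (h1 n hn) (by positivity : 0 ≤ B * (2 * π / √(q : ℝ)))
  rw [pow_zero, one_mul] at k0
  rw [pow_one] at k1
  calc _ = A * rexp (-(δ * (2 * π / √(q : ℝ)) * n)) +
        B * (2 * π / √(q : ℝ)) * (n * rexp (-(δ * (2 * π / √(q : ℝ)) * n))) := by ring
    _ ≤ A * (C0 / (n : ℝ) ^ 2) + B * (2 * π / √(q : ℝ)) * (C1 / (n : ℝ) ^ 2) := add_le_add k0 k1
    _ = _ := by ring

/-- derivative of the series at zero -/
lemma hasDerivAt_odd (hq1 : q ≠ 1) (h2 : χ ^ 2 = 1) (ho : χ.Odd) :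
    HasDerivAt (cv omt (gth χ))
      (∑' n : ℕ, coeff1 χ n * ((1 / 2 - fq q n) * (1 / 2 * rexp (-fq q n)))) 0 := by
  obtain ⟨C, hC⟩ := fq_decay (q := q) 1 3 (1 / 3) zero_le_one (by norm_num) (by norm_num)
  have hs : Summable (fun n : ℕ => |coeff1 χ n| *
      |2 * ((1 + 3 * fq q n) * rexp (-(fq q n / 3)))|) := by
    refine summable_coeff χ hq1 h2 ho (C := 2 * C) fun n hn => ?_
    have hf := fq_pos (NeZero.pos q) hn
    rw [abs_of_pos (by positivity)]
    have := hC n hn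
    have e : -(fq q n / 3) = -(1 / 3 * fq q n) := by ring
    rw [e]
    calc _ ≤ 2 * (C / (n : ℝ) ^ 2) := mul_le_mul_of_nonneg_left this (by norm_num)
      _ = _ := by ring
  have h := hasDerivAt_tsum_of_isPreconnected (t := Ioo (-1 : ℝ) 1)
    (g := fun (n : ℕ) (t : ℝ) => coeff1 χ n * ph (fq q n) t)
    (g' := fun (n : ℕ) (t : ℝ) => coeff1 χ n * ((1 / 2 - fq q n * rexp t) * ph (fq q n) t))
    (y₀ := 0) (y := 0) hs isOpen_Ioo isPreconnected_Ioo
    (fun n y _ => (hasDerivAt_ph _ _).const_mul _)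
    (fun n y hy => by
      rw [norm_mul, Real.norm_eq_abs, Real.norm_eq_abs]
      refine mul_le_mul_of_nonneg_left ((ph_deriv_bound ?_ hy).trans (le_abs_self _)) (abs_nonneg _)
      unfold fq
      positivity)
    (by constructor <;> norm_num) (hasSum_odd χ hq1 h2 ho 0).summable
    (by constructor <;> norm_num)
  have e1 : (fun z => ∑' n : ℕ, coeff1 χ n * ph (fq q n) z) = cv omt (gth χ) := by
    ext z
    exact (hasSum_odd χ hq1 h2 ho z).tsum_eq
  rw [e1] at h
  refine h.congr_deriv (tsum_congr fun n => ?_)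
  unfold ph
  simp

/-- the two functions whose coefficient sums give `2 κ` -/
noncomputable def fk (W c : ℝ) : ℝ := (if W = 1 then 2 * c - 1 else 1) * rexp (-c)

lemma summable_fk_aux (W : ℝ) : ∃ C : ℝ, ∀ n : ℕ, n ≠ 0 → |fk W (fq q n)| ≤ C / (n : ℝ) ^ 2 := by
  obtain ⟨C, hC⟩ := fq_decay (q := q) 1 2 1 zero_le_one (by norm_num) one_pos
  refine ⟨C, fun n hn => ?_⟩
  have hf := fq_pos (NeZero.pos q) hn
  have h1 := hC n hn
  rw [one_mul] at h1
  refine le_trans ?_ h1
  unfold fk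
  rw [abs_mul, abs_of_pos (exp_pos _)]
  refine mul_le_mul_of_nonneg_right ?_ (exp_pos _).le
  split_ifs
  · rw [abs_le]; constructor <;> linarith
  · rw [abs_one]; linarith

lemma summable_fk (hq1 : q ≠ 1) (h2 : χ ^ 2 = 1) (ho : χ.Odd) (W : ℝ) :
    Summable (fun n : ℕ => coeff1 χ n * fk W (fq q n)) := by
  obtain ⟨C, hC⟩ := summable_fk_aux (q := q) W
  have := summable_coeff χ hq1 h2 ho hC
  refine Summable.of_norm (this.congr fun n => ?_)
  rw [norm_mul, Real.norm_eq_abs, Real.norm_eq_abs]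

theorem kap_odd (hq1 : q ≠ 1) (h2 : χ ^ 2 = 1) (ho : χ.Odd) {W : ℝ} (hW : W = 1 ∨ W = -1)
    (hs : ∀ t, gth χ (-t) = W * gth χ t) :
    2 * kap (gth χ) = ∑' n : ℕ, coeff1 χ n * fk W (fq q n) := by
  have hrep := rep_gth χ hq1 h2
  have hfe : ∀ t, cv omt (gth χ) (-t) - kap (gth χ) * rexp (t / 2) =
      W * (cv omt (gth χ) t - kap (gth χ) * rexp (-(t / 2))) := by
    intro t
    have h1 := cv_lam hrep hW hs t
    have h3 := cv_lam hrep hW hs (-t)
    have h4 := cv_lam_neg hs t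
    rw [h1, h3] at h4
    have e1 : rexp (-(-t / 2)) = rexp (t / 2) := by congr 1; ring
    rw [e1] at h4
    exact h4
  rcases hW with rfl | rfl
  · have hd := hasDerivAt_odd χ hq1 h2 ho
    set D := ∑' n : ℕ, coeff1 χ n * ((1 / 2 - fq q n) * (1 / 2 * rexp (-fq q n))) with hD
    have hd' : HasDerivAt (fun t => cv omt (gth χ) (-t)) (-D) 0 := by
      have hd0 : HasDerivAt (cv omt (gth χ)) D (-0 : ℝ) := by rwa [neg_zero]
      have := hd0.comp (0 : ℝ) (hasDerivAt_neg (0 : ℝ))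
      rw [mul_neg_one] at this
      exact this
    have he1 : HasDerivAt (fun t : ℝ => kap (gth χ) * rexp (t / 2)) (kap (gth χ) * (1 / 2)) 0 := by
      have := (((hasDerivAt_id' (0 : ℝ)).div_const 2).exp).const_mul (kap (gth χ))
      simpa using this
    have he2 : HasDerivAt (fun t : ℝ => kap (gth χ) * rexp (-(t / 2)))
        (-(kap (gth χ) * (1 / 2))) 0 := by
      have := ((((hasDerivAt_id' (0 : ℝ)).div_const 2).fun_neg).exp).const_mul (kap (gth χ))
      simpa using this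
    have hl := hd'.fun_sub he1
    have hr := hd.fun_sub he2
    have heq : (fun t => cv omt (gth χ) (-t) - kap (gth χ) * rexp (t / 2)) =
        fun t => cv omt (gth χ) t - kap (gth χ) * rexp (-(t / 2)) := by
      ext t
      rw [hfe t, one_mul]
    rw [heq] at hl
    have huniq := hl.unique hr
    have h5 : 2 * kap (gth χ) = -4 * D := by linarith
    rw [h5, hD, ← tsum_mul_left]
    refine tsum_congr fun n => ?_
    unfold fk
    rw [if_pos rfl]
    ring
  · have h0 := hfe 0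
    simp only [neg_zero, zero_div, exp_zero, mul_one] at h0
    have h1 : kap (gth χ) = cv omt (gth χ) 0 := by linarith
    rw [h1, ← (hasSum_odd χ hq1 h2 ho 0).tsum_eq, ← tsum_mul_left]
    refine tsum_congr fun n => ?_
    unfold fk ph
    rw [if_neg (by norm_num)]
    simp only [zero_div, exp_zero, mul_one]
    ring

end kappa

end Pool.Agent.MP0016c7
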