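import Mathlib
import Pool.Agent.Lib.MP_0016c7_nt.Lambda
import Pool.Agent.Lib.MP_0016c7_nt.Arith

open Real Set MeasureTheory Filter Topology

namespace Pool.Agent.MP0016c7

/-! ### Rearrangement along squares -/

lemma tsum_sqInd_real (F : ℕ → ℝ) :
    ∑' a : ℕ, sqInd a * F a = ∑' k : ℕ, F ((k + 1) ^ 2) := by
  have hinj : Function.Injective (fun k : ℕ => (k + 1) ^ 2) := by
    intro a b hab
    have h := Nat.pow_left_injective (n := 2) (by norm_num) hab
    simpa using h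
  rw [← hinj.tsum_eq (f := fun a : ℕ => sqInd a * F a)]
  · refine tsum_congr fun k => ?_
    have : sqInd ((k + 1) ^ 2) = 1 := by
      rw [sqInd_apply, if_pos]
      exact ⟨by positivity, ⟨k + 1, by ring⟩⟩
    simp only [this, one_mul]
  · intro a ha
    rw [Function.mem_support] at ha
    have h1 : sqInd a ≠ 0 := by
      intro h; apply ha; rw [h]; simp
    rw [sqInd_apply] at h1
    have h2 : a ≠ 0 ∧ IsSquare a := by
      by_contra h
      rw [if_neg h] at h1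
      exact h1 rfl
    obtain ⟨b, hb⟩ := h2.2
    have hb0 : 0 < b := by
      rcases Nat.eq_zero_or_pos b with h | h
      · subst h; exact absurd hb (by simpa using h2.1)
      · exact h
    refine ⟨b - 1, ?_⟩
    simp only
    rw [Nat.sub_add_cancel hb0, hb]
    ring

lemma csum_rstar {q : ℕ} {χ : DirichletCharacter ℂ q} (h2 : χ ^ 2 = 1) :
    Summable (fun n : ℕ => |rstar χ n| * rexp (-2 * Real.log n)) := by
  have h1 : ∀ σ : ℝ, 1 < σ → Summable (fun n : ℕ => |sfInd n| * rexp (-σ * Real.log n)) :=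
    csum_of_bdd sfInd (fun n => by rw [sfInd_apply]; split_ifs <;> simp)
  have h3 : ∀ σ : ℝ, 1 < σ → Summable (fun n : ℕ => |rchar χ n| * rexp (-σ * Real.log n)) :=
    csum_of_bdd (rchar χ) (fun n => abs_rchar_le h2 n)
  exact Rep.summable_conv h1 h3 2 (by norm_num)

/-- rearrangement of a coefficient sum -/
lemma sum_rearr {q : ℕ} {χ : DirichletCharacter ℂ q} (h2 : χ ^ 2 = 1) {G : ℕ → ℝ} {C : ℝ}
    (hG : ∀ n : ℕ, n ≠ 0 → |G n| ≤ C / (n : ℝ) ^ 2) :
    Summable (fun m : ℕ => rstar χ m * ∑' k : ℕ, G ((k + 1) ^ 2 * m)) ∧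
    ∑' n : ℕ, coeff1 χ n * G n = ∑' m : ℕ, rstar χ m * ∑' k : ℕ, G ((k + 1) ^ 2 * m) := by
  have hC : 0 ≤ C := by
    have := (abs_nonneg _).trans (hG 1 one_ne_zero)
    simpa using this
  have s1 : Summable (fun n : ℕ => |sqInd n| * rexp (-2 * Real.log n)) :=
    csum_of_bdd sqInd (fun n => by rw [sqInd_apply]; split_ifs <;> simp) 2 (by norm_num)
  have s2 := csum_rstar h2
  have hp : Summable (fun p : ℕ × ℕ => sqInd p.1 * rstar χ p.2 * G (p.1 * p.2)) := by
    have h3 := (Summable.mul_of_nonneg s1 s2 (fun n => by positivity)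
      (fun n => by positivity)).mul_right C
    refine Summable.of_norm_bounded h3 ?_
    rintro ⟨a, b⟩
    rcases eq_or_ne a 0 with rfl | ha
    · simp
    rcases eq_or_ne b 0 with rfl | hb
    · simp
    rw [norm_mul, norm_mul, Real.norm_eq_abs, Real.norm_eq_abs, Real.norm_eq_abs]
    have h4 := hG (a * b) (mul_ne_zero ha hb)
    have e1 : rexp (-2 * Real.log a) = 1 / (a : ℝ) ^ 2 := by
      rw [exp_neg_mul_log ha, Real.rpow_two]
    have e2 : rexp (-2 * Real.log b) = 1 / (b : ℝ) ^ 2 := by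
      rw [exp_neg_mul_log hb, Real.rpow_two]
    calc |sqInd a| * |rstar χ b| * |G (a * b)|
        ≤ |sqInd a| * |rstar χ b| * (C / ((a * b : ℕ) : ℝ) ^ 2) :=
          mul_le_mul_of_nonneg_left h4 (by positivity)
      _ = _ := by
          simp only
          rw [e1, e2]
          push_cast
          have : (a : ℝ) ≠ 0 := by exact_mod_cast ha
          have : (b : ℝ) ≠ 0 := by exact_mod_cast hb
          field_simp
  have h5 := hasSum_dirichlet sqInd (rstar χ) G hp.hasSum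
  rw [← coeff1_eq_sqInd_mul_rstar] at h5
  have hp' : Summable (fun p : ℕ × ℕ => sqInd p.2 * rstar χ p.1 * G (p.2 * p.1)) :=
    (Equiv.prodComm ℕ ℕ).summable_iff.mpr hp
  have e3 : ∀ m : ℕ, ∑' a : ℕ, sqInd a * rstar χ m * G (a * m) =
      rstar χ m * ∑' k : ℕ, G ((k + 1) ^ 2 * m) := by
    intro m
    rw [← tsum_sqInd_real (fun a => G (a * m)), ← tsum_mul_left]
    refine tsum_congr fun a => ?_
    ring
  have h6 : ∑' p : ℕ × ℕ, sqInd p.1 * rstar χ p.2 * G (p.1 * p.2) =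
      ∑' p : ℕ × ℕ, sqInd p.2 * rstar χ p.1 * G (p.2 * p.1) :=
    ((Equiv.prodComm ℕ ℕ).tsum_eq (fun p : ℕ × ℕ => sqInd p.1 * rstar χ p.2 *
      G (p.1 * p.2))).symm
  constructor
  · refine hp'.prod.congr fun m => ?_
    exact e3 m
  · rw [h5.tsum_eq, h6, hp'.tsum_prod]
    exact tsum_congr e3

/-- Termwise comparison of two coefficient sums. -/
lemma coeff_sum_le {q : ℕ} {χ : DirichletCharacter ℂ q} (h2 : χ ^ 2 = 1) {G H : ℕ → ℝ}
    {C D K : ℝ} (hG : ∀ n : ℕ, n ≠ 0 → |G n| ≤ C / (n : ℝ) ^ 2)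
    (hH : ∀ n : ℕ, n ≠ 0 → |H n| ≤ D / (n : ℝ) ^ 2)
    (hle : ∀ m : ℕ, m ≠ 0 → ∑' k : ℕ, G ((k + 1) ^ 2 * m) ≤ K * ∑' k : ℕ, H ((k + 1) ^ 2 * m)) :
    ∑' n : ℕ, coeff1 χ n * G n ≤ K * ∑' n : ℕ, coeff1 χ n * H n := by
  obtain ⟨s1, e1⟩ := sum_rearr h2 hG
  obtain ⟨s2, e2⟩ := sum_rearr h2 hH
  rw [e1, e2, ← tsum_mul_left]
  refine s1.tsum_le_tsum (fun m => ?_) (s2.mul_left K)
  rcases eq_or_ne m 0 with rfl | hm
  · simp
  · have := mul_le_mul_of_nonneg_left (hle m hm) (rstar_nonneg h2 m)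
    calc _ ≤ _ := this
      _ = _ := by ring

end Pool.Agent.MP0016c7
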