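import Mathlib
import Pool.Agent.Lib.MP_0016c7_nt.OddIneq
import Pool.Agent.Lib.MP_0016c7_nt.OddRearr
import Pool.Agent.Lib.MP_0016c7_nt.OddIntegral
import Pool.Agent.Lib.MP_0016c7_nt.OddKappa
import Pool.Agent.Lib.MP_0016c7_nt.Final3

open Real Set MeasureTheory Filter Topology

namespace Pool.Agent.MP0016c7

open DirichletCharacter

/-! ### Explicit zero-free interval for odd quadratic characters -/

lemma e1w_one (c : ℝ) : e1w 1 c = e1p c := rfl

lemma e1w_neg_one (c : ℝ) : e1w (-1) c = e1m c := by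
  unfold e1w e1m
  refine setIntegral_congr_fun measurableSet_Ioi fun u _ => ?_
  ring

lemma fq_sq (q k m : ℕ) :
    fq q ((k + 1) ^ 2 * m) = 2 * π * ((k : ℝ) + 1) ^ 2 * ((m : ℝ) / √(q : ℝ)) := by
  unfold fq
  push_cast
  ring

lemma e1w_decay {q : ℕ} [NeZero q] {W : ℝ} (hW : W = 1 ∨ W = -1) :
    ∃ C : ℝ, ∀ n : ℕ, n ≠ 0 → |e1w W (fq q n)| ≤ C / (n : ℝ) ^ 2 := by
  obtain ⟨C, hC⟩ := fq_decay (q := q) 1 0 1 zero_le_one le_rfl one_pos
  have hc := cfq_pos (q := q)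
  refine ⟨2 * (C / (2 * π / √(q : ℝ))), fun n hn => ?_⟩
  have hf := fq_pos (NeZero.pos q) hn
  have h1 := hC n hn
  rw [zero_mul, add_zero, one_mul, one_mul] at h1
  rw [abs_of_nonneg (e1w_nonneg hW _)]
  refine (e1w_le hW hf).trans ?_
  have h2 : 2 * π / √(q : ℝ) ≤ fq q n := by
    rw [fq_eq]
    have : (1 : ℝ) ≤ n := by exact_mod_cast Nat.one_le_iff_ne_zero.mpr hn
    nlinarith
  have h3 : rexp (-fq q n) / fq q n ≤ (C / (n : ℝ) ^ 2) / (2 * π / √(q : ℝ)) :=
    div_le_div₀ ((exp_pos _).le.trans h1) h1 hc h2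
  calc 2 * (rexp (-fq q n) / fq q n) ≤ 2 * ((C / (n : ℝ) ^ 2) / (2 * π / √(q : ℝ))) := by
        linarith
    _ = _ := by
        have := hc.ne'
        field_simp

section odd

variable {q : ℕ} [NeZero q] (χ : DirichletCharacter ℂ q)

/-- The coefficient sum of `e1w` is at most `2 κ Kq`. -/
theorem odd_sum_le (hq1 : q ≠ 1) (h2 : χ ^ 2 = 1) (ho : χ.Odd) {W : ℝ} (hW : W = 1 ∨ W = -1)
    (hs : ∀ t, gth χ (-t) = W * gth χ t) :
    ∑' n : ℕ, coeff1 χ n * e1w W (fq q n) ≤ Kq (√(q : ℝ)) * (2 * kap (gth χ)) := by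
  obtain ⟨C, hC⟩ := e1w_decay (q := q) hW
  obtain ⟨D, hD⟩ := summable_fk_aux (q := q) W
  rw [kap_odd χ hq1 h2 ho hW hs]
  have hq : (1 : ℝ) ≤ q := by exact_mod_cast NeZero.pos q
  have hx : 1 ≤ √(q : ℝ) := Real.one_le_sqrt.mpr hq
  refine coeff_sum_le h2 hC hD fun m hm => ?_
  have hm1 : (1 : ℝ) ≤ m := by exact_mod_cast Nat.one_le_iff_ne_zero.mpr hm
  have hv : 1 / √(q : ℝ) ≤ (m : ℝ) / √(q : ℝ) :=
    div_le_div_of_nonneg_right hm1 (by linarith)
  simp_rw [fq_sq]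
  rcases hW with rfl | rfl
  · have h := e1p_tsum_le hx hv
    unfold gE at h
    refine h.trans (le_of_eq ?_)
    congr 1
    refine tsum_congr fun k => ?_
    unfold fk
    rw [if_pos rfl]
    ring
  · have h := e1m_tsum_le hx hv
    unfold OmE at h
    simp_rw [e1w_neg_one]
    refine h.trans (le_of_eq ?_)
    congr 1
    refine tsum_congr fun k => ?_
    unfold fk
    rw [if_neg (by norm_num), one_mul]

/-- Positivity of the completed integral for odd characters. -/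
theorem odd_integral_pos (hχ : χ.IsPrimitive) (hq1 : q ≠ 1) (h2 : χ ^ 2 = 1) (ho : χ.Odd)
    (hκ : 0 < kap (gth χ)) {s : ℝ} (hs0 : 1 / 2 < s) (hs1 : s < 1)
    (hs : s * (1 - s) * (π * √(q : ℝ) / 6 - Real.log q / 2 - 1 / 5) ≤ 1) :
    0 < ∫ t : ℝ, rexp ((s - 1 / 2) * t) * gth χ t := by
  obtain ⟨W, hW, hfe⟩ := gth_fe χ hχ hq1 h2
  have hrep := rep_gth χ hq1 h2
  have hq : (0 : ℝ) < q := by exact_mod_cast NeZero.pos q
  set z := s - 1 / 2 with hz
  have hz0 : 0 < z := by rw [hz]; linarith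
  have hz2 : z < 1 / 2 := by rw [hz]; linarith
  have hzabs : |z| < 1 / 2 := by rw [abs_of_pos hz0]; exact hz2
  have hmach := machine_id hrep hW hfe hzabs
  have hneg := integral_exp_lam_neg hzabs
  have hlt := odd_integral_lt χ hq1 h2 ho hW hz0 hz2
  have hsum := odd_sum_le χ hq1 h2 ho hW hfe
  have hss : 1 / 4 - z ^ 2 = s * (1 - s) := by rw [hz]; ring
  have hss0 : 0 < s * (1 - s) := mul_pos (by linarith) (by linarith)
  have hK : Kq (√(q : ℝ)) * (s * (1 - s)) ≤ 1 := by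
    unfold Kq
    rw [max_mul_of_nonneg _ _ hss0.le]
    refine max_le ?_ ?_
    · nlinarith [sq_nonneg (s - 1 / 2)]
    · rw [log_sqrt hq.le]
      calc (π * √(q : ℝ) / 6 - Real.log q / 2 - 1 / 5) * (s * (1 - s))
          = s * (1 - s) * (π * √(q : ℝ) / 6 - Real.log q / 2 - 1 / 5) := by ring
        _ ≤ 1 := hs
  have hK' : Kq (√(q : ℝ)) ≤ 1 / (s * (1 - s)) := by
    rw [le_div_iff₀ hss0]
    exact hK
  have hedge : edgeK W z * (1 / 2 * ∑' n : ℕ, coeff1 χ n * e1w W (fq q n)) ≤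
      kap (gth χ) * Aw W z := by
    have he : 0 < edgeK W z := by
      unfold edgeK
      split_ifs
      · norm_num
      · linarith
    have hA : Aw W z = edgeK W z * (1 / (s * (1 - s))) := by
      rcases hW with rfl | rfl
      · rw [Aw_one hz0 hz2, hss]
        unfold edgeK
        rw [if_pos rfl, one_mul]
      · rw [Aw_neg_one hz0 hz2, hss]
        unfold edgeK
        rw [if_neg (by norm_num)]
        ring
    rw [hA]
    calc edgeK W z * (1 / 2 * ∑' n : ℕ, coeff1 χ n * e1w W (fq q n))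
        ≤ edgeK W z * (1 / 2 * (Kq (√(q : ℝ)) * (2 * kap (gth χ)))) := by
          refine mul_le_mul_of_nonneg_left ?_ he.le
          linarith
      _ = kap (gth χ) * edgeK W z * Kq (√(q : ℝ)) := by ring
      _ ≤ kap (gth χ) * edgeK W z * (1 / (s * (1 - s))) :=
          mul_le_mul_of_nonneg_left hK' (by positivity)
      _ = _ := by ring
  have hprod : (∫ t, rexp (z * t) * lam t) * ∫ t, rexp (z * t) * gth χ t < 0 := by
    rw [hmach]; linarith
  by_contra hcon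
  have := mul_nonneg_of_nonpos_of_nonpos hneg.le (not_lt.mp hcon)
  linarith

end odd

lemma primitive_odd {N : ℕ} [NeZero N] (χ : DirichletCharacter ℂ N) (ho : χ.Odd) :
    χ.primitiveCharacter.Odd := by
  have hc : IsCoprime (-1 : ℤ) (N : ℤ) := isCoprime_one_left.neg_left
  have h1 := χ.primitiveCharacter_apply_of_isCoprime hc
  have h2 : χ (-1) = -1 := ho
  unfold DirichletCharacter.Odd
  push_cast at h1
  rw [h1, h2]

theorem odd_zero_free {N : ℕ} [NeZero N] (χ : DirichletCharacter ℂ N) (hne : χ ≠ 1)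
    (hsq : χ ^ 2 = 1) (ho : χ.Odd) {s : ℝ} (hs0 : 1 / 2 < s) (hs1 : s < 1)
    (hs : s * (1 - s) *
      (π * √(χ.conductor : ℝ) / 6 - Real.log χ.conductor / 2 - 1 / 5) ≤ 1) :
    (LFunction χ (s : ℂ)).im = 0 ∧ 0 < (LFunction χ (s : ℂ)).re := by
  have hs0' : 0 < s := by linarith
  constructor
  · rw [LFunction_real χ hne hsq hs0', Complex.ofReal_im]
  · rw [Lr_eq_mul χ hne hsq hs0']
    refine mul_pos ?_ (Er_pos χ hsq hs0')
    set ψ := χ.primitiveCharacter with hψ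
    have hp : ψ.IsPrimitive := χ.primitiveCharacter_isPrimitive
    have hq1 : χ.conductor ≠ 1 := conductor_ne_one χ hne
    have hψ2 : ψ ^ 2 = 1 := primitiveCharacter_sq χ hsq
    obtain ⟨W, hD⟩ := exists_ldata_single ψ hp (primitiveCharacter_ne_one χ hne) hq1 hψ2
    have h1 := odd_integral_pos ψ hp hq1 hψ2 (primitive_odd χ ho) hD.kap_pos hs0 hs1 hs
    rw [hD.val s hs0'] at h1
    exact (mul_pos_iff_of_pos_left (hD.gpos s hs0')).mp h1

end Pool.Agent.MP0016c7
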