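import Mathlib
import Pool.Agent.Lib.MP_0016c7_nt.OddAssembly

open Real Set MeasureTheory Filter Topology
open scoped ENNReal

namespace Pool.Agent.MP0016c7

open DirichletCharacter

/-! ### The full (weighted) explicit zero-free region, odd characters -/

/-- `To v = π / (6 v) + log v - 0.22` -/
noncomputable def To (v : ℝ) : ℝ := π / (6 * v) + Real.log v - 0.22

lemma exp_lin_aux {w : ℝ} (hw : 9 ≤ w) : w * rexp (-w) ≤ 0.0013 := by
  -- e^{-w} ≤ e^{-9} * e^{-(w-9)}
  have h1 : rexp (-w) = rexp (-9) * rexp (-(w - 9)) := by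
    rw [← exp_add]; congr 1; ring
  have h2 : (w - 9) + 1 ≤ rexp (w - 9) := add_one_le_exp _
  have h3 : rexp (-(w - 9)) * rexp (w - 9) = 1 := by rw [← exp_add]; simp
  have h4 : rexp (-9) ≤ 0.00014 := by
    have e1 : rexp (-9) * rexp 9 = 1 := by rw [← exp_add]; norm_num
    have e2 : rexp 9 = rexp 1 ^ 9 := by rw [← exp_nat_mul]; norm_num
    have e3 : (2.7 : ℝ) ^ 9 ≤ rexp 1 ^ 9 := by
      apply pow_le_pow_left₀ (by norm_num)
      have := exp_one_gt_d9
      linarith only [this]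
    have e4 : (7500 : ℝ) ≤ rexp 9 := by
      rw [e2]; refine le_trans (by norm_num) e3
    have e5 := exp_pos (-9)
    nlinarith only [e1, e5, e2, e3]
  have h5 := exp_pos (-(w - 9))
  have h6 : w * rexp (-(w - 9)) ≤ 9 := by
    have : w ≤ 9 * rexp (w - 9) := by linarith
    calc w * rexp (-(w - 9)) ≤ (9 * rexp (w - 9)) * rexp (-(w - 9)) :=
          mul_le_mul_of_nonneg_right this h5.le
      _ = 9 * (rexp (-(w - 9)) * rexp (w - 9)) := by ring
      _ = 9 := by rw [h3, mul_one]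
  rw [h1]
  have h7 := exp_pos (-9)
  calc w * (rexp (-9) * rexp (-(w - 9))) = rexp (-9) * (w * rexp (-(w - 9))) := by ring
    _ ≤ 0.00014 * 9 := mul_le_mul h4 h6 (by positivity) (by norm_num)
    _ ≤ 0.0013 := by norm_num

/-- lower bound of `gE` near `0` -/
lemma gE_ge {v : ℝ} (hv : 0 < v) (hv9 : v ≤ 1 / 9) : (1 - rexp (-(1 / v))) / 2 ≤ gE v := by
  rw [gE_eq hv]
  have h1 := eps1_ge_small (show 0 < 2 * v by positivity) (by linarith only [hv, hv9])
  have h2 := dm1_one_lt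
  have h2' := dm1_pos one_pos
  set w := 1 / (2 * v) with hw
  have hw0 : 0 < w := by positivity
  have hw1 : 4.5 ≤ w := by
    rw [hw, le_div_iff₀ (by positivity)]
    linarith only [hv9]
  have h3 : 1 / v = 2 * w := by rw [hw]; field_simp
  rw [h3]
  -- claim: w √w e^{-π(w-1)} ≤ 1.8 e^{-2w}
  have h4 : w * √w * rexp (-(π * (w - 1))) ≤ 1.8 * rexp (-(2 * w)) := by
    have h5 : rexp (-(π * (w - 1))) = rexp (-(2 * w)) * rexp (π - (π - 2) * w) := by
      rw [← exp_add]; congr 1; ring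
    rw [h5]
    have h6 : √w ≤ (w + 4.5) / 4.24 := by
      rw [sqrt_le_left (by positivity)]
      have : 0 ≤ (w - 4.5) ^ 2 := sq_nonneg _
      rw [div_pow, le_div_iff₀ (by norm_num)]
      nlinarith only [hv, hv9, hw1]
    set t := w - 4.5 with ht
    have ht0 : 0 ≤ t := by rw [ht]; linarith only [hw1]
    have hwt : w = t + 4.5 := by rw [ht]; ring
    have h7 : w * √w ≤ 9.5520 + 3.184 * t + 0.236 * t ^ 2 := by
      have e1 : w * √w ≤ w * ((w + 4.5) / 4.24) := mul_le_mul_of_nonneg_left h6 hw0.le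
      have e2 : w * ((w + 4.5) / 4.24) ≤ 9.5520 + 3.184 * t + 0.236 * t ^ 2 := by
        rw [← mul_div_assoc, div_le_iff₀ (by norm_num), hwt]
        nlinarith only [hv, hv9, hw1, ht, mul_nonneg ht0 ht0]
      exact e1.trans e2
    have hp1 := pi_gt_d6
    have h8 : rexp (π - (π - 2) * w) * (rexp 1.99 * rexp (1.14 * t)) ≤ 1 := by
      rw [← exp_add, ← exp_add, exp_le_one_iff, hwt]
      nlinarith only [hv, hv9, hp1, ht0, mul_nonneg (by linarith only [hv, hv9, hp1] : 0 ≤ π - 3.14) ht0]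
    have h9 : (6.93 : ℝ) ≤ rexp 1.99 := by
      have := Real.sum_le_exp_of_nonneg (show (0 : ℝ) ≤ 1.99 by norm_num) 5
      norm_num [Finset.sum_range_succ, Nat.factorial] at this ⊢
      linarith only [hv, hv9, this]
    have h10 : 1 + 1.14 * t + 0.6498 * t ^ 2 ≤ rexp (1.14 * t) := by
      have := Real.quadratic_le_exp_of_nonneg (show (0 : ℝ) ≤ 1.14 * t by positivity)
      nlinarith only [this]
    have h11 : 9.5520 + 3.184 * t + 0.236 * t ^ 2 ≤ 1.8 * (rexp 1.99 * rexp (1.14 * t)) := by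
      have e1 : 6.93 * (1 + 1.14 * t + 0.6498 * t ^ 2) ≤ rexp 1.99 * rexp (1.14 * t) :=
        mul_le_mul h9 h10 (by (clear * - hw1; positivity)) (exp_pos _).le
      nlinarith only [hv, hv9, hw1, ht, e1, mul_nonneg ht0 ht0]
    have h12 := exp_pos (π - (π - 2) * w)
    have h13 : w * √w * rexp (π - (π - 2) * w) ≤ 1.8 := by
      calc w * √w * rexp (π - (π - 2) * w)
          ≤ (1.8 * (rexp 1.99 * rexp (1.14 * t))) * rexp (π - (π - 2) * w) :=
            mul_le_mul_of_nonneg_right (h7.trans h11) h12.le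
        _ = 1.8 * (rexp (π - (π - 2) * w) * (rexp 1.99 * rexp (1.14 * t))) := by ring
        _ ≤ 1.8 * 1 := mul_le_mul_of_nonneg_left h8 (by norm_num)
        _ = 1.8 := by norm_num
    have h14 := exp_pos (-(2 * w))
    calc w * √w * (rexp (-(2 * w)) * rexp (π - (π - 2) * w))
        = (w * √w * rexp (π - (π - 2) * w)) * rexp (-(2 * w)) := by ring
      _ ≤ 1.8 * rexp (-(2 * w)) := mul_le_mul_of_nonneg_right h13 h14.le
  have h7 : 2 * dm1 1 * (w * √w * rexp (-(π * (w - 1)))) ≤ 2 * 0.138 * (1.8 * rexp (-(2 * w))) := by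
    have := exp_pos (-(2 * w))
    exact mul_le_mul (by linarith only [h2]) h4 (by positivity) (by norm_num)
  have h8 := exp_pos (-(2 * w))
  linarith only [h1, h7, h8]

/-- lower bound of `OmE` near `0` -/
lemma OmE_ge {v : ℝ} (hv : 0 < v) (hv9 : v ≤ 1 / 9) : (1 - rexp (-(1 / v))) / 2 ≤ OmE v := by
  rw [OmE_eq]
  have h1 := om1_ge_low (show 0 < 2 * v by positivity)
  have h2 : √(2 * v) ≤ 1 / 2 := by
    rw [sqrt_le_left (by norm_num)]
    linarith only [hv, hv9]
  have h3 : 2 ≤ 1 / √(2 * v) := by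
    rw [le_div_iff₀ (sqrt_pos.mpr (by positivity))]
    linarith
  have h4 := exp_pos (-(1 / v))
  linarith only [h1, h3, h4]

lemma gE_nonneg {v : ℝ} (hv : 0 < v) : 0 ≤ gE v := (gE_pos hv).le

lemma OmE_nonneg {v : ℝ} (hv : 0 < v) : 0 ≤ OmE v := (OmE_pos hv).le

/-- upper bound of the `e1p` series near `0` -/
lemma e1p_tsum_small {v : ℝ} (hv : 0 < v) (hv9 : v ≤ 1 / 9) :
    ∑' k : ℕ, e1p (2 * π * ((k : ℝ) + 1) ^ 2 * v) ≤ (To v - 0.016) / 2 := by
  have hz : 0 < 2 * v := by positivity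
  have h := HI_le_small hz (by linarith only [hv, hv9])
  have e : π / (6 * (2 * v)) + Real.log (2 * v / 2) / 2 - 0.118 = (To v - 0.016) / 2 := by
    unfold To
    have e1 : 2 * v / 2 = v := by ring
    have e2 : π / (6 * (2 * v)) = (π / (6 * v)) / 2 := by
      rw [show 6 * (2 * v) = (6 * v) * 2 by ring, ← div_div]
    rw [e1, e2]; ring
  rw [HI_eq_tsum hz, e] at h
  have hpos : 0 ≤ (To v - 0.016) / 2 := by
    by_contra hneg
    rw [ENNReal.ofReal_of_nonpos (not_le.mp hneg).le] at h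
    have h0 := le_antisymm h zero_le
    rw [ENNReal.tsum_eq_zero] at h0
    have h1 := h0 0
    rw [ENNReal.ofReal_eq_zero] at h1
    exact absurd h1 (not_le.mpr (e1p_pos (mul_pos (ak_pos 0) hz)))
  have h2 := (tsum_le_of_ennreal (fun k => (e1p_pos (mul_pos (ak_pos k) hz)).le) hpos h).2
  calc ∑' k : ℕ, e1p (2 * π * ((k : ℝ) + 1) ^ 2 * v) = ∑' k : ℕ, e1p (ak k * (2 * v)) :=
        tsum_congr fun k => by rw [two_pi_eq]
    _ ≤ _ := h2

lemma sqrt_ge_log_aux {v : ℝ} (hv : 0 < v) (hv9 : v ≤ 1 / 9) :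
    0.618 - Real.log v / 2 ≤ 1 / √(2 * v) := by
  have hs : 0 < √(2 * v) := sqrt_pos.mpr (by positivity)
  have hss : √(2 * v) * √(2 * v) = 2 * v := mul_self_sqrt (by positivity)
  set r := 1 / √(2 * v) with hr
  have hr0 : 0 < r := by positivity
  have h1 : √(2 * v) ≤ 0.4715 := by
    rw [sqrt_le_left (by norm_num)]
    norm_num at hv9 ⊢
    linarith
  have h2 : 2.12 ≤ r := by
    rw [hr, le_div_iff₀ hs]
    nlinarith only [hv, hv9, h1]
  have h3 : v = 1 / (2 * r ^ 2) := by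
    have e : r ^ 2 = 1 / (2 * v) := by rw [hr, div_pow, one_pow, sq, hss]
    rw [e]
    field_simp
  have h4 : Real.log v = -(Real.log 2 + 2 * Real.log r) := by
    rw [h3, one_div, Real.log_inv, Real.log_mul (by norm_num) (by positivity), Real.log_pow]
    norm_num
  have h5 := Real.log_le_sub_one_of_pos (show 0 < r / 2 by positivity)
  rw [Real.log_div hr0.ne' (by norm_num)] at h5
  have h6 := Real.log_two_lt_d9
  rw [h4]
  linarith only [hv, hv9, h2, h5, h6]

lemma JI_le_small {v : ℝ} (hv : 0 < v) (hv9 : v ≤ 1 / 9) :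
    JI (2 * v) ≤ ENNReal.ofReal ((To v - 0.016) / 2) := by
  have hz : 0 < 2 * v := by positivity
  have h1 : JI (2 * v) ≤ ∫⁻ u in Ioi (1 : ℝ), ENNReal.ofReal (om1 (2 * v * u)) := by
    unfold JI
    refine setLIntegral_mono' measurableSet_Ioi fun u hu => ?_
    have hu0 : (0 : ℝ) < u := lt_trans zero_lt_one hu
    have hzu := om1_pos (mul_pos hz hu0)
    apply ENNReal.ofReal_le_ofReal
    have : 0 < 1 / u := by positivity
    nlinarith only [hv, hv9, hzu, this]
  refine h1.trans ?_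
  rw [← ofReal_integral_eq_lintegral_ofReal
    ((integrableOn_om1_Ioi0 hz).mono_set (Ioi_subset_Ioi zero_le_one))]
  · apply ENNReal.ofReal_le_ofReal
    refine (integral_om1_Ioi1 hz).trans ?_
    have h2 := sqrt_ge_log_aux hv hv9
    have e2 : π / (6 * (2 * v)) = (π / (6 * v)) / 2 := by
      rw [show 6 * (2 * v) = (6 * v) * 2 by ring, ← div_div]
    rw [e2]
    unfold To
    linarith only [h2]
  · filter_upwards [ae_restrict_mem measurableSet_Ioi] with u hu
    exact (om1_pos (mul_pos hz (lt_trans zero_lt_one hu))).le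

/-- upper bound of the `e1m` series near `0` -/
lemma e1m_tsum_small {v : ℝ} (hv : 0 < v) (hv9 : v ≤ 1 / 9) :
    ∑' k : ℕ, e1m (2 * π * ((k : ℝ) + 1) ^ 2 * v) ≤ (To v - 0.016) / 2 := by
  have hz : 0 < 2 * v := by positivity
  have h := JI_le_small hv hv9
  rw [JI_eq_tsum hz] at h
  have hpos : 0 ≤ (To v - 0.016) / 2 := by
    by_contra hneg
    rw [ENNReal.ofReal_of_nonpos (not_le.mp hneg).le] at h
    have h0 := le_antisymm h zero_le
    rw [ENNReal.tsum_eq_zero] at h0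
    have h1 := h0 0
    rw [ENNReal.ofReal_eq_zero] at h1
    exact absurd h1 (not_le.mpr (e1m_pos (mul_pos (ak_pos 0) hz)))
  have h2 := (tsum_le_of_ennreal (fun k => (e1m_pos (mul_pos (ak_pos k) hz)).le) hpos h).2
  calc ∑' k : ℕ, e1m (2 * π * ((k : ℝ) + 1) ^ 2 * v) = ∑' k : ℕ, e1m (ak k * (2 * v)) :=
        tsum_congr fun k => by rw [two_pi_eq]
    _ ≤ _ := h2

lemma Kq_nine : Kq 9 = 4 := by
  unfold Kq
  apply max_eq_left
  have h1 := pi_lt_d6
  have h2 : 1 ≤ Real.log 9 := by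
    rw [Real.le_log_iff_exp_le (by norm_num)]
    have := exp_one_lt_d9
    linarith only [this]
  linarith only [h1, h2]

lemma e1p_tsum_big {v : ℝ} (hv : 1 / 9 ≤ v) :
    ∑' k : ℕ, e1p (2 * π * ((k : ℝ) + 1) ^ 2 * v) ≤ 4 * gE v := by
  have := e1p_tsum_le (x := 9) (by norm_num) hv
  rwa [Kq_nine] at this

lemma e1m_tsum_big {v : ℝ} (hv : 1 / 9 ≤ v) :
    ∑' k : ℕ, e1m (2 * π * ((k : ℝ) + 1) ^ 2 * v) ≤ 4 * OmE v := by
  have := e1m_tsum_le (x := 9) (by norm_num) hv
  rwa [Kq_nine] at this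

lemma To_antitone {v0 v : ℝ} (hv0 : 0 < v0) (hvv : v0 ≤ v) (hv9 : v ≤ 1 / 9) : To v ≤ To v0 := by
  have hv : 0 < v := by linarith
  unfold To
  have h1 := Real.log_le_sub_one_of_pos (show 0 < v / v0 by positivity)
  rw [Real.log_div hv.ne' hv0.ne'] at h1
  have h2 : v / v0 - 1 ≤ π / (6 * v0) - π / (6 * v) := by
    rw [← sub_nonneg]
    have e : π / (6 * v0) - π / (6 * v) - (v / v0 - 1) = (v - v0) * (π / (6 * v) - 1) / v0 := by
      field_simp
    rw [e]
    have h3 : 1 ≤ π / (6 * v) := by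
      rw [le_div_iff₀ (by positivity)]
      nlinarith only [hv0, hvv, hv9, pi_gt_three]
    apply div_nonneg (mul_nonneg (by linarith) (by linarith)) hv0.le
  linarith only [h1, h2]

lemma tail_aux {v0 v d : ℝ} (hv0 : 0 < v0) (hvv : v0 ≤ v) (hv9 : v ≤ 1 / 9) (hd : 0 < d)
    (h : d * To v0 ≤ 1 - rexp (-(1 / v0))) : d * (To v - 0.016) ≤ 1 - rexp (-(1 / v)) := by
  have hv : 0 < v := by linarith
  have h1 := To_antitone hv0 hvv hv9
  have h2 := exp_pos (-(1 / v0))
  have h3 : d * To v ≤ 1 := by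
    have := mul_le_mul_of_nonneg_left h1 hd.le
    linarith only [h, h2, this]
  have hw : 9 ≤ 1 / v := by
    rw [le_div_iff₀ hv]; linarith
  have h4 := exp_lin_aux hw
  have h5 := exp_pos (-(1 / v))
  rcases le_total (d * To v) (1 / 2) with hc | hc
  · have h6 : rexp (-(1 / v)) ≤ 0.0017 := by
      nlinarith only [h4, hv0, h5, hvv, hv9, hw]
    nlinarith only [hd, h5, hc, h6]
  · -- `d ≥ 3 v / π`
    have h6 : To v ≤ π / (6 * v) := by
      unfold To
      have := Real.log_nonpos hv.le (by linarith only [hv0, hvv, hv9])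
      linarith only [hv0, hvv, hv9, this]
    have h7 : 1 / 2 ≤ d * (π / (6 * v)) := hc.trans (mul_le_mul_of_nonneg_left h6 hd.le)
    have h8 : 0.954 * v ≤ d := by
      have e : d * (π / (6 * v)) = d * π / (6 * v) := by ring
      rw [e, le_div_iff₀ (by positivity)] at h7
      have := pi_lt_d6
      nlinarith only [hvv, h7, hv0, hv9, hd, this]
    have h9 : rexp (-(1 / v)) ≤ 0.0013 * v := by
      have e : 1 / v * rexp (-(1 / v)) = rexp (-(1 / v)) / v := by ring
      rw [e, div_le_iff₀ hv] at h4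
      exact h4
    nlinarith only [h3, h5, h8, h9]

/-- The weighted comparison. -/
lemma weighted_le {r : ℕ → ℝ} (hr : ∀ m, 0 ≤ r m) (hr0 : r 0 = 0) (hr1 : r 1 = 1) {H G : ℝ → ℝ}
    {x d : ℝ} (hd : 0 < d) (hd4 : d ≤ 1 / 4) (hx : 0 < x) {n : ℕ} (hn : 1 ≤ n)
    (hn9 : n = 1 ∨ 9 * (n : ℝ) ≤ x)
    (hH : ∀ v, 0 < v → v ≤ 1 / 9 → H v ≤ (To v - 0.016) / 2)
    (hG : ∀ v, 0 < v → v ≤ 1 / 9 → (1 - rexp (-(1 / v))) / 2 ≤ G v)
    (hbig : ∀ v, 1 / 9 ≤ v → H v ≤ 4 * G v) (hG0 : ∀ v, 0 < v → 0 ≤ G v)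
    (hyp : d * ∑ m ∈ Finset.Icc 1 n, r m * To ((m : ℝ) / x) ≤
      ∑ m ∈ Finset.Icc 1 n, r m * (1 - rexp (-(x / m))))
    (hsH : Summable fun m : ℕ => r m * H ((m : ℝ) / x))
    (hsG : Summable fun m : ℕ => r m * G ((m : ℝ) / x)) :
    d * ∑' m : ℕ, r m * H ((m : ℝ) / x) ≤ ∑' m : ℕ, r m * G ((m : ℝ) / x) := by
  have hxm : ∀ m : ℕ, 1 / ((m : ℝ) / x) = x / m := fun m => by rw [one_div_div]
  have hvpos : ∀ m : ℕ, m ≠ 0 → 0 < (m : ℝ) / x := fun m hm => by
    have : (0 : ℝ) < m := by exact_mod_cast Nat.pos_of_ne_zero hm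
    (clear * - hm hx; positivity)
  have hbig' : ∀ m : ℕ, m ≠ 0 → 1 / 9 ≤ (m : ℝ) / x →
      d * (r m * H ((m : ℝ) / x)) ≤ r m * G ((m : ℝ) / x) := by
    intro m hm hv
    have h1 := hbig _ hv
    have h2 := hG0 _ (hvpos m hm)
    have h3 : d * H ((m : ℝ) / x) ≤ G ((m : ℝ) / x) := by
      calc d * H ((m : ℝ) / x) ≤ d * (4 * G ((m : ℝ) / x)) := mul_le_mul_of_nonneg_left h1 hd.le
        _ ≤ 1 * G ((m : ℝ) / x) := by nlinarith only [hd4, h2]
        _ = _ := one_mul _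
    calc d * (r m * H ((m : ℝ) / x)) = r m * (d * H ((m : ℝ) / x)) := by ring
      _ ≤ _ := mul_le_mul_of_nonneg_left h3 (hr m)
  by_cases hx9 : x ≤ 9
  · -- all terms are in the big range
    rw [← tsum_mul_left]
    refine (hsH.mul_left d).tsum_le_tsum (fun m => ?_) hsG
    rcases eq_or_ne m 0 with rfl | hm
    · simp [hr0]
    · apply hbig' m hm
      have : (1 : ℝ) ≤ m := by exact_mod_cast Nat.one_le_iff_ne_zero.mpr hm
      rw [le_div_iff₀ hx]
      linarith only [hx9, this]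
  · have hx9' : 9 < x := not_le.mp hx9
    have hn9' : 9 * (n : ℝ) ≤ x := by
      rcases hn9 with rfl | h
      · push_cast; linarith only [hx9]
      · exact h
    -- the small range for `m ≤ n`
    have hsm : ∀ m ∈ Finset.Icc 1 n, (m : ℝ) / x ≤ 1 / 9 := by
      intro m hm
      have h1 : (m : ℝ) ≤ n := by exact_mod_cast (Finset.mem_Icc.mp hm).2
      rw [div_le_iff₀ hx]
      linarith only [hn9', h1]
    have hne : ∀ m ∈ Finset.Icc 1 n, m ≠ 0 := by
      intro m hm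
      have := (Finset.mem_Icc.mp hm).1
      omega
    -- head
    have hhead : d * ∑ m ∈ Finset.Icc 1 n, r m * H ((m : ℝ) / x) ≤
        ∑ m ∈ Finset.Icc 1 n, r m * G ((m : ℝ) / x) := by
      have h1 : ∑ m ∈ Finset.Icc 1 n, r m * H ((m : ℝ) / x) ≤
          (∑ m ∈ Finset.Icc 1 n, r m * To ((m : ℝ) / x)) / 2 := by
        rw [Finset.sum_div]
        refine Finset.sum_le_sum fun m hm => ?_
        have h2 := hH _ (hvpos m (hne m hm)) (hsm m hm)
        have h3 : H ((m : ℝ) / x) ≤ To ((m : ℝ) / x) / 2 := by linarith only [hd, hd4, h2]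
        calc r m * H ((m : ℝ) / x) ≤ r m * (To ((m : ℝ) / x) / 2) :=
              mul_le_mul_of_nonneg_left h3 (hr m)
          _ = _ := by ring
      have h4 : (∑ m ∈ Finset.Icc 1 n, r m * (1 - rexp (-(x / m)))) / 2 ≤
          ∑ m ∈ Finset.Icc 1 n, r m * G ((m : ℝ) / x) := by
        rw [Finset.sum_div]
        refine Finset.sum_le_sum fun m hm => ?_
        have h2 := hG _ (hvpos m (hne m hm)) (hsm m hm)
        rw [hxm] at h2
        calc r m * (1 - rexp (-(x / m))) / 2 = r m * ((1 - rexp (-(x / m))) / 2) := by ring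
          _ ≤ _ := mul_le_mul_of_nonneg_left h2 (hr m)
      have h5 := mul_le_mul_of_nonneg_left h1 hd.le
      linarith only [hyp, h4, h5]
    -- a good index
    have hex : ∃ m0 ∈ Finset.Icc 1 n, d * To ((m0 : ℝ) / x) ≤ 1 - rexp (-(x / m0)) := by
      by_contra hcon
      push Not at hcon
      have hlt : ∑ m ∈ Finset.Icc 1 n, r m * (1 - rexp (-(x / m))) <
          ∑ m ∈ Finset.Icc 1 n, r m * (d * To ((m : ℝ) / x)) := by
        apply Finset.sum_lt_sum
        · intro m hm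
          exact mul_le_mul_of_nonneg_left (hcon m hm).le (hr m)
        · refine ⟨1, Finset.mem_Icc.mpr ⟨le_refl 1, hn⟩, ?_⟩
          rw [hr1, one_mul, one_mul]
          exact hcon 1 (Finset.mem_Icc.mpr ⟨le_refl 1, hn⟩)
      rw [Finset.mul_sum] at hyp
      have e : ∑ m ∈ Finset.Icc 1 n, d * (r m * To ((m : ℝ) / x)) =
          ∑ m ∈ Finset.Icc 1 n, r m * (d * To ((m : ℝ) / x)) :=
        Finset.sum_congr rfl fun m _ => by ring
      linarith only [hyp, hlt, e]
    obtain ⟨m0, hm0, hgood⟩ := hex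
    -- tail terms
    have htail : ∀ m : ℕ, n < m → d * (r m * H ((m : ℝ) / x)) ≤ r m * G ((m : ℝ) / x) := by
      intro m hm
      have hm' : m ≠ 0 := by omega
      rcases le_total (1 / 9) ((m : ℝ) / x) with h | h
      · exact hbig' m hm' h
      · have hv := hvpos m hm'
        have hv0 := hvpos m0 (hne m0 hm0)
        have hmm : (m0 : ℝ) ≤ m := by
          have := (Finset.mem_Icc.mp hm0).2
          exact_mod_cast this.trans hm.le
        have hvv : (m0 : ℝ) / x ≤ (m : ℝ) / x := div_le_div_of_nonneg_right hmm hx.le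
        have h1 := tail_aux hv0 hvv h hd (by rw [hxm]; exact hgood)
        have h2 := hH _ hv h
        have h3 := hG _ hv h
        have h4 : d * H ((m : ℝ) / x) ≤ G ((m : ℝ) / x) := by
          have := mul_le_mul_of_nonneg_left h2 hd.le
          linarith only [h1, h3, this]
        calc d * (r m * H ((m : ℝ) / x)) = r m * (d * H ((m : ℝ) / x)) := by ring
          _ ≤ _ := mul_le_mul_of_nonneg_left h4 (hr m)
    -- put together
    have hsplit : ∀ F : ℕ → ℝ, F 0 = 0 → Summable F →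
        ∑' m : ℕ, F m = ∑ m ∈ Finset.Icc 1 n, F m + ∑' m : ℕ, F (m + (n + 1)) := by
      intro F hF0 hF
      rw [← hF.sum_add_tsum_nat_add (n + 1)]
      congr 1
      rw [Finset.sum_range_succ', hF0, add_zero, Finset.range_eq_Ico, Finset.sum_Ico_add' F 0 n 1,
        zero_add]
      rfl
    rw [hsplit _ (by simp [hr0]) hsH, hsplit _ (by simp [hr0]) hsG, mul_add]
    refine add_le_add hhead ?_
    rw [← tsum_mul_left]
    exact (((summable_nat_add_iff (n + 1)).mpr hsH).mul_left d).tsum_le_tsum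
      (fun m => htail _ (by omega)) ((summable_nat_add_iff (n + 1)).mpr hsG)

lemma tsum_fk_one (v : ℝ) : ∑' k : ℕ, fk 1 (2 * π * ((k : ℝ) + 1) ^ 2 * v) = gE v := by
  unfold gE
  refine tsum_congr fun k => ?_
  unfold fk
  rw [if_pos rfl]
  ring

lemma tsum_fk_neg_one (v : ℝ) :
    ∑' k : ℕ, fk (-1) (2 * π * ((k : ℝ) + 1) ^ 2 * v) = OmE v := by
  unfold OmE
  refine tsum_congr fun k => ?_
  unfold fk
  rw [if_neg (by norm_num), one_mul]

section odd

variable {q : ℕ} [NeZero q] (χ : DirichletCharacter ℂ q)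

theorem odd_sum_weighted (hq1 : q ≠ 1) (h2 : χ ^ 2 = 1) (ho : χ.Odd) {W : ℝ}
    (hW : W = 1 ∨ W = -1) (hs : ∀ t, gth χ (-t) = W * gth χ t) {d : ℝ} (hd : 0 < d)
    (hd4 : d ≤ 1 / 4) {n : ℕ} (hn : 1 ≤ n) (hn9 : n = 1 ∨ 9 * (n : ℝ) ≤ √(q : ℝ))
    (hyp : d * ∑ m ∈ Finset.Icc 1 n, rstar χ m * To ((m : ℝ) / √(q : ℝ)) ≤
      ∑ m ∈ Finset.Icc 1 n, rstar χ m * (1 - rexp (-(√(q : ℝ) / m)))) :
    d * ∑' n : ℕ, coeff1 χ n * e1w W (fq q n) ≤ 2 * kap (gth χ) := by
  obtain ⟨C, hC⟩ := e1w_decay (q := q) hW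
  obtain ⟨D, hD⟩ := summable_fk_aux (q := q) W
  rw [kap_odd χ hq1 h2 ho hW hs]
  have hq : (1 : ℝ) ≤ q := by exact_mod_cast NeZero.pos q
  have hx : 1 ≤ √(q : ℝ) := Real.one_le_sqrt.mpr hq
  obtain ⟨s1, e1⟩ := sum_rearr h2 hC
  obtain ⟨s2, e2⟩ := sum_rearr h2 hD
  rw [e1, e2]
  simp_rw [fq_sq] at s1 s2 ⊢
  refine weighted_le (r := rstar χ) (H := fun v => ∑' k : ℕ, e1w W (2 * π * ((k : ℝ) + 1) ^ 2 * v))
    (G := fun v => ∑' k : ℕ, fk W (2 * π * ((k : ℝ) + 1) ^ 2 * v)) (rstar_nonneg h2) (by simp)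
    (rstar_one χ) hd hd4 (by linarith only [hd, hd4, hx]) hn hn9 ?_ ?_ ?_ ?_ hyp s1 s2
  · rintro v hv hv9
    rcases hW with rfl | rfl
    · exact e1p_tsum_small hv hv9
    · simp_rw [e1w_neg_one]
      exact e1m_tsum_small hv hv9
  · rintro v hv hv9
    rcases hW with rfl | rfl
    · simp only [tsum_fk_one]
      exact gE_ge hv hv9
    · simp only [tsum_fk_neg_one]
      exact OmE_ge hv hv9
  · rintro v hv
    rcases hW with rfl | rfl
    · simp only [tsum_fk_one]
      exact e1p_tsum_big hv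
    · simp only [tsum_fk_neg_one, e1w_neg_one]
      exact e1m_tsum_big hv
  · rintro v hv
    rcases hW with rfl | rfl
    · simp only [tsum_fk_one]
      exact gE_nonneg hv
    · simp only [tsum_fk_neg_one]
      exact OmE_nonneg hv

/-- Positivity of the completed integral for odd characters, weighted form. -/
theorem odd_integral_pos_weighted (hχ : χ.IsPrimitive) (hq1 : q ≠ 1) (h2 : χ ^ 2 = 1)
    (ho : χ.Odd) (hκ : 0 < kap (gth χ)) {s : ℝ} (hs0 : 1 / 2 < s) (hs1 : s < 1) {n : ℕ}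
    (hn : 1 ≤ n) (hn9 : n = 1 ∨ 9 * (n : ℝ) ≤ √(q : ℝ))
    (hyp : s * (1 - s) * ∑ m ∈ Finset.Icc 1 n, rstar χ m * To ((m : ℝ) / √(q : ℝ)) ≤
      ∑ m ∈ Finset.Icc 1 n, rstar χ m * (1 - rexp (-(√(q : ℝ) / m)))) :
    0 < ∫ t : ℝ, rexp ((s - 1 / 2) * t) * gth χ t := by
  obtain ⟨W, hW, hfe⟩ := gth_fe χ hχ hq1 h2
  have hrep := rep_gth χ hq1 h2
  set z := s - 1 / 2 with hz
  have hz0 : 0 < z := by rw [hz]; linarith only [hs0]
  have hz2 : z < 1 / 2 := by rw [hz]; linarith only [hs1]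
  have hzabs : |z| < 1 / 2 := by rw [abs_of_pos hz0]; exact hz2
  have hmach := machine_id hrep hW hfe hzabs
  have hneg := integral_exp_lam_neg hzabs
  have hlt := odd_integral_lt χ hq1 h2 ho hW hz0 hz2
  have hss : 1 / 4 - z ^ 2 = s * (1 - s) := by rw [hz]; ring
  have hss0 : 0 < s * (1 - s) := mul_pos (by linarith only [hs0, hs1]) (by linarith only [hs1])
  have hss4 : s * (1 - s) ≤ 1 / 4 := by nlinarith only [sq_nonneg (s - 1 / 2)]
  have hsum := odd_sum_weighted χ hq1 h2 ho hW hfe hss0 hss4 hn hn9 hyp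
  have hsum' : ∑' n : ℕ, coeff1 χ n * e1w W (fq q n) ≤ 1 / (s * (1 - s)) * (2 * kap (gth χ)) := by
    rw [one_div_mul_eq_div, le_div_iff₀ hss0]
    linarith
  have hedge : edgeK W z * (1 / 2 * ∑' n : ℕ, coeff1 χ n * e1w W (fq q n)) ≤
      kap (gth χ) * Aw W z := by
    have he : 0 < edgeK W z := by
      unfold edgeK
      split_ifs
      · norm_num
      · linarith only [hz0]
    have hA : Aw W z = edgeK W z * (1 / (s * (1 - s))) := by
      rcases hW with rfl | rfl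
      · rw [Aw_one hz0 hz2, hss]
        unfold edgeK
        rw [if_pos rfl, one_mul]
      · rw [Aw_neg_one hz0 hz2, hss]
        unfold edgeK
        rw [if_neg (by norm_num)]
        ring
    rw [hA]
    calc edgeK W z * (1 / 2 * ∑' n : ℕ, coeff1 χ n * e1w W (fq q n))
        ≤ edgeK W z * (1 / 2 * (1 / (s * (1 - s)) * (2 * kap (gth χ)))) := by
          refine mul_le_mul_of_nonneg_left ?_ he.le
          linarith
      _ = _ := by ring
  have hprod : (∫ t, rexp (z * t) * lam t) * ∫ t, rexp (z * t) * gth χ t < 0 := by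
    rw [hmach]; linarith
  by_contra hcon
  have := mul_nonneg_of_nonpos_of_nonpos hneg.le (not_lt.mp hcon)
  linarith

end odd

end Pool.Agent.MP0016c7
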