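import Mathlib
import Pool.Agent.Lib.MP_0016c7_nt.EvenSum
import Pool.Agent.Lib.MP_0016c7_nt.OddSum
import Pool.Agent.Lib.MP_0016c7_nt.EvenHand

open Real Set MeasureTheory Filter Topology

namespace Pool.Agent.MP0016c7

open DirichletCharacter

lemma rstar_eq_sum {q : ℕ} (ψ : DirichletCharacter ℂ q) {m : ℕ} (hm : m ≠ 0) :
    rstar ψ m = ∑ d ∈ m.divisors with Squarefree d, (ψ ((m / d : ℕ) : ZMod q)).re := by
  rw [rstar, ArithmeticFunction.mul_apply,
    Nat.sum_divisorsAntidiagonal (f := fun a b => sfInd a * rchar ψ b), Finset.sum_filter]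
  refine Finset.sum_congr rfl fun d hd => ?_
  have hd' := Nat.dvd_of_mem_divisors hd
  have hmd : m / d ≠ 0 := by
    have := Nat.div_pos (Nat.le_of_dvd (Nat.pos_of_ne_zero hm) hd')
      (Nat.pos_of_mem_divisors hd)
    omega
  rw [sfInd_apply, rchar_apply ψ hmd]
  split_ifs <;> simp

theorem odd_zero_free_weighted {N : ℕ} [NeZero N] (χ : DirichletCharacter ℂ N) (hne : χ ≠ 1)
    (hsq : χ ^ 2 = 1) (ho : χ.Odd) {s : ℝ} (hs0 : 1 / 2 < s) (hs1 : s < 1) {n : ℕ}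
    (hn : 1 ≤ n) (hn9 : n = 1 ∨ 9 * (n : ℝ) ≤ √(χ.conductor : ℝ))
    (hyp : s * (1 - s) * ∑ m ∈ Finset.Icc 1 n, rstar χ.primitiveCharacter m *
        To ((m : ℝ) / √(χ.conductor : ℝ)) ≤
      ∑ m ∈ Finset.Icc 1 n, rstar χ.primitiveCharacter m *
        (1 - rexp (-(√(χ.conductor : ℝ) / m)))) :
    (LFunction χ (s : ℂ)).im = 0 ∧ 0 < (LFunction χ (s : ℂ)).re := by
  have hs0' : 0 < s := by linarith
  constructor
  · rw [LFunction_real χ hne hsq hs0', Complex.ofReal_im]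
  · rw [Lr_eq_mul χ hne hsq hs0']
    refine mul_pos ?_ (Er_pos χ hsq hs0')
    set ψ := χ.primitiveCharacter with hψ
    have hp : ψ.IsPrimitive := χ.primitiveCharacter_isPrimitive
    have hq1 : χ.conductor ≠ 1 := conductor_ne_one χ hne
    have hψ2 : ψ ^ 2 = 1 := primitiveCharacter_sq χ hsq
    obtain ⟨W, hD⟩ := exists_ldata_single ψ hp (primitiveCharacter_ne_one χ hne) hq1 hψ2
    have h1 := odd_integral_pos_weighted ψ hp hq1 hψ2 (primitive_odd χ ho) hD.kap_pos hs0 hs1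
      hn hn9 hyp
    rw [hD.val s hs0'] at h1
    exact (mul_pos_iff_of_pos_left (hD.gpos s hs0')).mp h1

theorem even_zero_free_weighted {N : ℕ} [NeZero N] (χ : DirichletCharacter ℂ N) (hne : χ ≠ 1)
    (hsq : χ ^ 2 = 1) (he : χ.Even) {s : ℝ} (hs0 : 1 / 2 < s) (hs1 : s < 1) {n : ℕ}
    (hn : 1 ≤ n) (hn' : n = 1 ∨ 20 * (n : ℝ) ≤ √(χ.conductor : ℝ))
    (hyp : √(χ.conductor : ℝ) ≤ 7.69 ∨ s * (1 - s) * (π ^ 2 / 12 * √(χ.conductor : ℝ) *
        ∑ m ∈ Finset.Icc 1 n, rstar χ.primitiveCharacter m / m) ≤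
      ∑ m ∈ Finset.Icc 1 n, rstar χ.primitiveCharacter m *
        (Real.log (√(χ.conductor : ℝ) / m) - 1 / 16 - 7 / 4 * (m / √(χ.conductor : ℝ)))) :
    (LFunction χ (s : ℂ)).im = 0 ∧ 0 < (LFunction χ (s : ℂ)).re := by
  have hs0' : 0 < s := by linarith
  constructor
  · rw [LFunction_real χ hne hsq hs0', Complex.ofReal_im]
  · rw [Lr_eq_mul χ hne hsq hs0']
    refine mul_pos ?_ (Er_pos χ hsq hs0')
    set ψ := χ.primitiveCharacter with hψ
    have hp : ψ.IsPrimitive := χ.primitiveCharacter_isPrimitive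
    have hq1 : χ.conductor ≠ 1 := conductor_ne_one χ hne
    have hψ2 : ψ ^ 2 = 1 := primitiveCharacter_sq χ hsq
    obtain ⟨W, hD⟩ := exists_ldata_single ψ hp (primitiveCharacter_ne_one χ hne) hq1 hψ2
    have h1 := even_integral_pos_weighted ψ hp hq1 hψ2 (primitive_even χ he) hD.kap_pos hs0 hs1
      hn hn' hyp
    rw [hD.val s hs0'] at h1
    exact (mul_pos_iff_of_pos_left (hD.gpos s hs0')).mp h1

end Pool.Agent.MP0016c7
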