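import Mathlib
import Pool.Agent.Lib.MP_0016c7_nt.SumHand

/-!
Explicit zero-free intervals to the left of `1` for every quadratic character `χ`, in terms of the
values of the inducing character `ψ` at small integers. With `q` the conductor and
`ρ(m) = ∑ ψ(m/d)` over the squarefree divisors `d` of `m` (so `ρ ≥ 0`, `ρ(1) = 1`,
`ρ(p) = 1 + ψ(p)`), `L(s, χ) > 0` as soon as one of the inequalities below holds for some `n`.
The case `n = 1` needs no information about `ψ`.
-/

open Finset

/-- `ρ(m) = ∑ ψ(m/d)` over the squarefree divisors `d` of `m`; multiplicative and nonnegative for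
quadratic `ψ`: it is the number of primitive ideals of norm `m`. -/
noncomputable def Pool.Agent.Results.MP_0016c7_nt.ExplicitZeroFree.rho {q : ℕ}
    (ψ : DirichletCharacter ℂ q) (m : ℕ) : ℝ :=
  ∑ d ∈ m.divisors with Squarefree d, (ψ ((m / d : ℕ) : ZMod q)).re

open Pool.Agent.Results.MP_0016c7_nt.ExplicitZeroFree in
theorem Pool.Agent.Results.MP_0016c7_nt.ExplicitZeroFree.result
    (N : ℕ) [NeZero N] (χ : DirichletCharacter ℂ N) (hne : χ ≠ 1) (hsq : χ ^ 2 = 1)
    (s : ℝ) (hs0 : 1 / 2 < s) (hs1 : s < 1) (n : ℕ) (hn : 1 ≤ n)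
    (hs : (χ.Odd ∧ (n = 1 ∨ 9 * (n : ℝ) ≤ √χ.conductor) ∧
        s * (1 - s) * ∑ m ∈ Icc 1 n, rho χ.primitiveCharacter m *
          (Real.pi * √χ.conductor / (6 * m) - Real.log (√χ.conductor / m) - 11 / 50) ≤
        ∑ m ∈ Icc 1 n, rho χ.primitiveCharacter m * (1 - Real.exp (-(√χ.conductor / m))))
      ∨ (χ.Even ∧ (n = 1 ∨ 20 * (n : ℝ) ≤ √χ.conductor) ∧ (χ.conductor ≤ 59 ∨
        s * (1 - s) * ∑ m ∈ Icc 1 n, rho χ.primitiveCharacter m *
          (Real.pi ^ 2 * √χ.conductor / (12 * m)) ≤
        ∑ m ∈ Icc 1 n, rho χ.primitiveCharacter m *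
          (Real.log (√χ.conductor / m) - 1 / 16 - 7 * m / (4 * √χ.conductor))))) :
    (χ.LFunction s).im = 0 ∧ 0 < (χ.LFunction s).re := by
  have hq : (0 : ℝ) < χ.conductor := by exact_mod_cast NeZero.pos χ.conductor
  have hx : (0 : ℝ) < √χ.conductor := Real.sqrt_pos.mpr hq
  have hr : ∀ m ∈ Icc 1 n, Pool.Agent.MP0016c7.rstar χ.primitiveCharacter m =
      rho χ.primitiveCharacter m := by
    intro m hm
    have := (mem_Icc.mp hm).1
    exact Pool.Agent.MP0016c7.rstar_eq_sum _ (by omega)
  have hm0 : ∀ m ∈ Icc 1 n, (0 : ℝ) < m := by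
    intro m hm
    have := (mem_Icc.mp hm).1
    exact_mod_cast this
  rcases hs with ⟨ho, hn9, hs⟩ | ⟨he, hn20, hs⟩
  · refine Pool.Agent.MP0016c7.odd_zero_free_weighted χ hne hsq ho hs0 hs1 hn hn9 ?_
    convert hs using 2
    · refine sum_congr rfl fun m hm => ?_
      have := hm0 m hm
      rw [hr m hm]
      congr 1
      unfold Pool.Agent.MP0016c7.To
      have e1 : Real.log (√χ.conductor / m) = - Real.log ((m : ℝ) / √χ.conductor) := by
        rw [← Real.log_inv, inv_div]
      have e2 : Real.pi / (6 * ((m : ℝ) / √χ.conductor)) = Real.pi * √χ.conductor / (6 * m) := by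
        field_simp
      rw [e1, e2]
      norm_num
    · rw [hr _ (by assumption)]
  · refine Pool.Agent.MP0016c7.even_zero_free_weighted χ hne hsq he hs0 hs1 hn hn20 ?_
    rcases hs with hs | hs
    · left
      have h59 : (χ.conductor : ℝ) ≤ 59 := by exact_mod_cast hs
      rw [Real.sqrt_le_left (by norm_num)]
      norm_num
      linarith
    · right
      convert hs using 2
      · rw [mul_sum]
        refine sum_congr rfl fun m hm => ?_
        have := hm0 m hm
        rw [hr m hm]
        field_simp
      · rw [hr _ (by assumption)]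
        congr 1
        ring

/-!
Former hand-in (moved out of Results when PrescribedSplitting was handed in). Its claim:

Proves: Let chi be any nontrivial quadratic Dirichlet character (any modulus), q its conductor, psi the primitive character inducing it, r(m) the sum of psi(m/d) over the squarefree divisors d of m. Let 1/2 < s < 1 and n >= 1. Then L(s,chi) is real and > 0 if, with all sums over 1 <= m <= n, either chi is odd, n = 1 or 9n <= sqrt q, and s(1-s) sum r(m)(pi sqrt q/(6m) - log(sqrt q/m) - 11/50) <= sum r(m)(1 - exp(-sqrt q/m)); or chi is even, n = 1 or 20n <= sqrt q, and q <= 59 or s(1-s) sum r(m) pi^2 sqrt q/(12m) <= sum r(m)(log(sqrt q/m) - 1/16 - 7m/(4 sqrt q)).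
Definitions: rho(psi,m) is r(m) above; L(s,chi), Odd, Even, conductor, primitiveCharacter are Mathlib's.
Relation: Partial answer to Q1, unconditional and explicit for all quadratic characters. n = 1 (r(1) = 1) gives zero-free intervals next to 1 of length about (6/pi)/sqrt q (odd) and (6/pi^2)(log q)/sqrt q (even); larger n use the values of psi up to n and can give a constant over log q. Earlier: Goldfeld and Schinzel 1975 (asymptotic relation of a real zero with sums over reduced forms, error not explicit), Pintz 1976 (not explicit); explicit: Bennett, Martin, O'Bryant, Rechnitzer 2018 and Bordignon 2019/2020, length c/(sqrt q log^2 q) for q > 4*10^5 (c = 800 odd, 100 even). New: an explicit Goldfeld-Schinzel criterion, sums over small norms included, for every conductor.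

-/
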