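import Mathlib

open Filter Topology Set MeasureTheory
open scoped Real

namespace Pool.Agent.MP0016c7

open DirichletCharacter

/-! ### Elementary inequalities -/

lemma two_add_mul_exp_neg {v : ℝ} (hv : 0 ≤ v) : 2 - v ≤ (2 + v) * rexp (-v) := by
  have hd : ∀ y : ℝ, HasDerivAt (fun y => (2 + y) - (2 - y) * rexp y)
      (1 - (2 - y) * rexp y + rexp y) y := by
    intro y
    have h1 : HasDerivAt (fun y : ℝ => 2 + y) 1 y := (hasDerivAt_id y).const_add 2
    have h2 : HasDerivAt (fun y : ℝ => 2 - y) (-1) y := (hasDerivAt_id y).const_sub 2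
    have := h1.sub (h2.mul (Real.hasDerivAt_exp y))
    refine this.congr_deriv ?_
    ring
  have hm : MonotoneOn (fun y => (2 + y) - (2 - y) * rexp y) (Ici 0) := by
    refine monotoneOn_of_deriv_nonneg (convex_Ici 0)
      (fun y _ => (hd y).continuousAt.continuousWithinAt)
      (fun y _ => (hd y).differentiableAt.differentiableWithinAt) ?_
    intro y _
    rw [(hd y).deriv]
    have h3 := Real.add_one_le_exp (-y)
    have h4 : rexp (-y) * rexp y = 1 := by rw [← Real.exp_add]; simp
    nlinarith [Real.exp_pos y]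
  have h5 := hm (mem_Ici.mpr le_rfl) (mem_Ici.mpr hv) hv
  simp only [add_zero, sub_zero, Real.exp_zero, mul_one, sub_self] at h5
  have h4 : rexp (-v) * rexp v = 1 := by rw [← Real.exp_add]; simp
  have h6 := mul_le_mul_of_nonneg_left h5 (Real.exp_pos (-v)).le
  nlinarith

/-- The key inequality behind the uniform repulsion theorem. -/
lemma tatu_ineq {w v : ℝ} (hw : 0 ≤ w) (hv : 0 ≤ v) :
    (2 * w + v) * rexp (-w) * (1 - rexp (-v)) ≤ v := by
  have hE0 : 0 ≤ 1 - rexp (-v) := by
    have : rexp (-v) ≤ 1 := by rw [Real.exp_le_one_iff]; linarith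
    linarith
  have hE1 : rexp (-v) > 0 := Real.exp_pos _
  have hEv : 1 - rexp (-v) ≤ v := by
    have := Real.add_one_le_exp (-v); linarith
  have hq := Real.quadratic_le_exp_of_nonneg hw
  have key : (2 * w + v) * (1 - rexp (-v)) ≤ v * (1 + w + w ^ 2 / 2) := by
    rcases le_total v 2 with h2 | h2
    · have h3 := two_add_mul_exp_neg hv
      set E := rexp (-v) with hE
      -- v (1 + w + w^2/2) - (2 w + v)(1 - E) = v E + w (v - 2 + 2 E) + v w^2 / 2
      have h4 : 0 ≤ (2 + v) * (v * (1 + w + w ^ 2 / 2) - (2 * w + v) * (1 - E)) := by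
        have e : (2 + v) * (v * (1 + w + w ^ 2 / 2) - (2 * w + v) * (1 - E)) =
            (v + 2 * w) * ((2 + v) * E - (2 - v)) + v * ((2 - v) * (1 - w) + (2 + v) * w ^ 2 / 2)
            := by ring
        rw [e]
        have h5 : 0 ≤ (2 - v) * (1 - w) + (2 + v) * w ^ 2 / 2 := by
          have : (2 - v) * (1 - w) + (2 + v) * w ^ 2 / 2 =
            (2 - v) * ((1 - w) ^ 2 + 1) / 2 + v * w ^ 2 := by ring
          rw [this]
          have : 0 ≤ 2 - v := by linarith
          positivity
        have h6 : 0 ≤ (v + 2 * w) * ((2 + v) * E - (2 - v)) :=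
          mul_nonneg (by linarith) (by linarith)
        have h7 := mul_nonneg hv h5
        linarith
      have h8 : 0 < 2 + v := by linarith
      have := (mul_nonneg_iff_of_pos_left h8).mp h4
      linarith
    · have h3 : (2 * w + v) * (1 - rexp (-v)) ≤ 2 * w + v := by
        have : (2 * w + v) * (1 - rexp (-v)) ≤ (2 * w + v) * 1 :=
          mul_le_mul_of_nonneg_left (by linarith) (by linarith)
        linarith
      have h4 : 2 * w + v ≤ v * (1 + w + w ^ 2 / 2) := by nlinarith [sq_nonneg w, mul_nonneg hv hw]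
      linarith
  have h9 : (2 * w + v) * (1 - rexp (-v)) ≤ v * rexp w := by
    refine key.trans (mul_le_mul_of_nonneg_left ?_ hv)
    linarith
  have h10 := mul_le_mul_of_nonneg_right h9 (Real.exp_pos (-w)).le
  have h11 : rexp w * rexp (-w) = 1 := by rw [← Real.exp_add]; simp
  calc (2 * w + v) * rexp (-w) * (1 - rexp (-v)) =
      (2 * w + v) * (1 - rexp (-v)) * rexp (-w) := by ring
    _ ≤ v * rexp w * rexp (-w) := h10
    _ = v * (rexp w * rexp (-w)) := by ring
    _ = v := by rw [h11, mul_one]

lemma mul_exp_neg_le (x : ℝ) : x * rexp (-x) ≤ rexp (-1) := by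
  have h := Real.add_one_le_exp (x - 1)
  have h2 : x ≤ rexp (x - 1) := by linarith
  calc x * rexp (-x) ≤ rexp (x - 1) * rexp (-x) :=
        mul_le_mul_of_nonneg_right h2 (Real.exp_pos _).le
    _ = rexp (-1) := by rw [← Real.exp_add]; ring_nf

/-- The comparison in logarithmic form. -/
lemma tatu_compare {ε la lb Λ δa δb : ℝ} (hε : 0 < ε) (hla : 0 < la) (hlb : 0 < lb)
    (hΛ0 : 0 < Λ) (hΛ : Λ ≤ la + lb) (ha0 : 0 < δa) (hb0 : 0 < δb)
    (ha : δa ≤ ε * rexp (-(ε * la))) (hb : δb ≤ ε * rexp (-(ε * lb))) (hba : 1 < Λ * δa) :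
    δb * rexp (-(Λ * δb)) ≤ δa * rexp (-(Λ * δa)) := by
  set da := ε * rexp (-(ε * la)) with hda
  set db := ε * rexp (-(ε * lb)) with hdb
  have hda0 : 0 < da := by positivity
  have hdb0 : 0 < db := by positivity
  have he1 : 2 * rexp (-1) < 1 := by
    have h1 : (2.7 : ℝ) < rexp 1 := by have := Real.exp_one_gt_d9; linarith
    have h2 : rexp (-1) * rexp 1 = 1 := by rw [← Real.exp_add]; simp
    nlinarith [Real.exp_pos (-1)]
  -- la < lb
  have hlt : la < lb := by
    by_contra hcon
    push Not at hcon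
    have h1 : Λ * δa ≤ 2 * la * da := by
      have : Λ * δa ≤ (la + lb) * da := mul_le_mul hΛ ha ha0.le (by linarith)
      nlinarith
    have h2 : 2 * la * da = 2 * (ε * la * rexp (-(ε * la))) := by rw [hda]; ring
    have h3 := mul_exp_neg_le (ε * la)
    nlinarith
  -- Λ db ≤ 1
  have hΛb : Λ * db ≤ 1 := by
    have h1 : Λ * db ≤ 2 * lb * db := mul_le_mul_of_nonneg_right (by linarith) hdb0.le
    have h2 : 2 * lb * db = 2 * (ε * lb * rexp (-(ε * lb))) := by rw [hdb]; ring
    have h3 := mul_exp_neg_le (ε * lb)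
    nlinarith
  -- step 1
  have s1 : Real.log δb - Λ * δb ≤ Real.log db - Λ * db := by
    have h1 := Real.log_le_sub_one_of_pos (div_pos hb0 hdb0)
    rw [Real.log_div hb0.ne' hdb0.ne'] at h1
    have h2 : Λ * (db - δb) ≤ 1 - δb / db := by
      have : 1 - δb / db = (db - δb) / db := by field_simp
      rw [this, le_div_iff₀ hdb0]
      have h12 := mul_le_mul_of_nonneg_right hΛb (by linarith : 0 ≤ db - δb)
      clear * - h12
      linarith
    linarith
  have s3 : Real.log da - Λ * da ≤ Real.log δa - Λ * δa := by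
    have h1 := Real.log_le_sub_one_of_pos (div_pos hda0 ha0)
    rw [Real.log_div hda0.ne' ha0.ne'] at h1
    have h2 : da / δa - 1 ≤ Λ * (da - δa) := by
      have : da / δa - 1 = (da - δa) / δa := by field_simp
      rw [this, div_le_iff₀ ha0]
      have h12 := mul_le_mul_of_nonneg_right hba.le (by linarith : 0 ≤ da - δa)
      clear * - h12
      linarith
    linarith
  have s2 : Real.log db - Λ * db ≤ Real.log da - Λ * da := by
    have l1 : Real.log da = Real.log ε - ε * la := by
      rw [hda, Real.log_mul hε.ne' (Real.exp_pos _).ne', Real.log_exp]; ring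
    have l2 : Real.log db = Real.log ε - ε * lb := by
      rw [hdb, Real.log_mul hε.ne' (Real.exp_pos _).ne', Real.log_exp]; ring
    rw [l1, l2]
    have key := tatu_ineq (w := ε * la) (v := ε * (lb - la)) (by positivity)
      (mul_nonneg hε.le (by linarith))
    have e1 : da - db = ε * rexp (-(ε * la)) * (1 - rexp (-(ε * (lb - la)))) := by
      have : rexp (-(ε * lb)) = rexp (-(ε * la)) * rexp (-(ε * (lb - la))) := by
        rw [← Real.exp_add]; ring_nf
      rw [hda, hdb, this]; ring
    have h1 : 0 ≤ da - db := by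
      rw [e1]
      have : rexp (-(ε * (lb - la))) ≤ 1 := by
        rw [Real.exp_le_one_iff]
        have := mul_nonneg hε.le (by linarith : 0 ≤ lb - la)
        linarith
      have h2 : 0 ≤ 1 - rexp (-(ε * (lb - la))) := by linarith
      positivity
    have h2 : Λ * (da - db) ≤ (la + lb) * (da - db) := mul_le_mul_of_nonneg_right hΛ h1
    have h3 : (la + lb) * (da - db) = (2 * (ε * la) + ε * (lb - la)) * rexp (-(ε * la)) *
        (1 - rexp (-(ε * (lb - la)))) := by rw [e1]; ring
    linarith
  have e1 : δb * rexp (-(Λ * δb)) = rexp (Real.log δb - Λ * δb) := by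
    rw [Real.exp_sub, Real.exp_log hb0, Real.exp_neg]; field_simp
  have e2 : δa * rexp (-(Λ * δa)) = rexp (Real.log δa - Λ * δa) := by
    rw [Real.exp_sub, Real.exp_log ha0, Real.exp_neg]; field_simp
  rw [e1, e2]
  exact Real.exp_le_exp.mpr (s1.trans (s2.trans s3))

end Pool.Agent.MP0016c7
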