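import Mathlib
import Pool.Agent.Lib.MP_0016c7_nt.Group3
import Pool.Agent.Lib.MP_0016c7_nt.Tatu

open Filter Topology Set MeasureTheory
open scoped Real

namespace Pool.Agent.MP0016c7

open DirichletCharacter

section pair

variable {N : ℕ} [NeZero N]

lemma char_two_eq_one (χ : DirichletCharacter ℂ 2) : χ = 1 := by
  refine MulChar.ext fun a => ?_
  have : a = 1 := Subsingleton.elim _ _
  rw [this]; simp

lemma conductor_ge_three {χ : DirichletCharacter ℂ N} (hne : χ ≠ 1) : 3 ≤ χ.conductor := by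
  have h1 := conductor_ne_one χ hne
  have h0 : χ.conductor ≠ 0 := NeZero.ne _
  have h2 : χ.conductor ≠ 2 := by
    intro h
    have hp := primitiveCharacter_ne_one χ hne
    apply hp
    revert hp
    generalize χ.primitiveCharacter = ψ
    revert ψ
    rw [h]
    intro ψ _
    exact char_two_eq_one ψ
  omega

lemma log_conductor_ge {χ : DirichletCharacter ℂ N} (hne : χ ≠ 1) :
    1.09 ≤ Real.log χ.conductor := by
  have h3 : (3 : ℝ) ≤ χ.conductor := by exact_mod_cast conductor_ge_three hne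
  have h4 := Real.log_le_log (by norm_num) h3
  have h5 : (1.09 : ℝ) ≤ Real.log 3 := by
    rw [Real.le_log_iff_exp_le (by norm_num)]
    have := exp_rat_lt (x := 1.09) (B := 3) 109 100 (by norm_num) (by norm_num) (by norm_num)
    linarith
  linarith

lemma eps_rpow {χ : DirichletCharacter ℂ N} (ε : ℝ) :
    ε * (χ.conductor : ℝ) ^ (-ε) = ε * rexp (-(ε * Real.log χ.conductor)) := by
  have hq : (0 : ℝ) < χ.conductor := by
    exact_mod_cast Nat.pos_of_ne_zero (NeZero.ne χ.conductor)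
  rw [Real.rpow_def_of_pos hq]
  ring_nf

lemma exp_neg_one_lt : rexp (-1) < 0.37 := by
  have h1 : (2.71 : ℝ) < rexp 1 := by have := Real.exp_one_gt_d9; linarith only [this]
  exact exp_neg_lt (x := 1) (by norm_num) h1 (by norm_num) (by norm_num)

lemma eps_small {χ : DirichletCharacter ℂ N} (hne : χ ≠ 1) (ε : ℝ) :
    ε * (χ.conductor : ℝ) ^ (-ε) < 1 / 2 := by
  rw [eps_rpow]
  have hl := log_conductor_ge hne
  have h1 := mul_exp_neg_le (ε * Real.log χ.conductor)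
  have h2 := exp_neg_one_lt
  have h3 : ε * rexp (-(ε * Real.log χ.conductor)) * Real.log χ.conductor < 0.37 := by
    calc _ = ε * Real.log χ.conductor * rexp (-(ε * Real.log χ.conductor)) := by ring
      _ ≤ _ := h1
      _ < _ := h2
  by_contra hcon
  push Not at hcon
  have h12 := mul_le_mul_of_nonneg_right hcon (by linarith only [hl] : 0 ≤ Real.log χ.conductor)
  linarith only [hl, h1, h2, h12]

/-- the three characters attached to a pair -/
lemma triple_props {χ₁ χ₂ : DirichletCharacter ℂ N} (n1 : χ₁ ≠ 1) (n2 : χ₂ ≠ 1)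
    (s1 : χ₁ ^ 2 = 1) (s2 : χ₂ ^ 2 = 1) (hne : χ₁ ≠ χ₂) :
    ∃ S : Finset (DirichletCharacter ℂ N), S.Nonempty ∧ 1 ∉ S ∧ (∀ χ ∈ S, χ ^ 2 = 1) ∧
      (∀ χ ∈ S, ∀ ψ ∈ S, χ ≠ ψ → χ * ψ ∈ S) ∧
      (∀ f : DirichletCharacter ℂ N → ℂ, ∏ χ ∈ S, f χ = f χ₁ * (f χ₂ * f (χ₁ * χ₂))) ∧
      (∀ f : DirichletCharacter ℂ N → ℝ, ∏ χ ∈ S, f χ = f χ₁ * (f χ₂ * f (χ₁ * χ₂))) := by
  classical
  have m1 : χ₁ * χ₁ = 1 := by rw [← sq]; exact s1
  have m2 : χ₂ * χ₂ = 1 := by rw [← sq]; exact s2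
  have n12 : χ₁ * χ₂ ≠ 1 := by
    intro h
    apply hne
    calc χ₁ = χ₁ * (χ₂ * χ₂) := by rw [m2, mul_one]
      _ = (χ₁ * χ₂) * χ₂ := by rw [mul_assoc]
      _ = χ₂ := by rw [h, one_mul]
  have e1 : χ₁ ≠ χ₁ * χ₂ := by
    intro h
    exact n2 (mul_eq_left.mp h.symm)
  have e2 : χ₂ ≠ χ₁ * χ₂ := by
    intro h
    exact n1 (mul_eq_right.mp h.symm)
  have c12 : χ₂ * χ₁ = χ₁ * χ₂ := mul_comm _ _
  have c1 : χ₁ * (χ₁ * χ₂) = χ₂ := by rw [← mul_assoc, m1, one_mul]
  have c2 : χ₂ * (χ₁ * χ₂) = χ₁ := by rw [mul_comm χ₁ χ₂, ← mul_assoc, m2, one_mul]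
  have c3 : χ₁ * χ₂ * χ₁ = χ₂ := by rw [mul_comm (χ₁ * χ₂), c1]
  have c4 : χ₁ * χ₂ * χ₂ = χ₁ := by rw [mul_assoc, m2, mul_one]
  refine ⟨{χ₁, χ₂, χ₁ * χ₂}, ⟨χ₁, by simp⟩, ?_, ?_, ?_, ?_, ?_⟩
  · simp only [Finset.mem_insert, Finset.mem_singleton, not_or]
    exact ⟨n1.symm, n2.symm, n12.symm⟩
  · intro χ hχ
    simp only [Finset.mem_insert, Finset.mem_singleton] at hχ
    rcases hχ with rfl | rfl | rfl
    · exact s1
    · exact s2
    · rw [mul_pow, s1, s2, one_mul]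
  · intro χ hχ ψ hψ hn
    simp only [Finset.mem_insert, Finset.mem_singleton] at hχ hψ ⊢
    rcases hχ with rfl | rfl | rfl <;> rcases hψ with rfl | rfl | rfl
    · exact absurd rfl hn
    · right; right; rfl
    · right; left; exact c1
    · right; right; exact c12
    · exact absurd rfl hn
    · left; exact c2
    · right; left; exact c3
    · left; exact c4
    · exact absurd rfl hn
  · intro f
    rw [Finset.prod_insert, Finset.prod_insert, Finset.prod_singleton]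
    · simpa using e2
    · simp only [Finset.mem_insert, Finset.mem_singleton, not_or]
      exact ⟨hne, e1⟩
  · intro f
    rw [Finset.prod_insert, Finset.prod_insert, Finset.prod_singleton]
    · simpa using e2
    · simp only [Finset.mem_insert, Finset.mem_singleton, not_or]
      exact ⟨hne, e1⟩

/-- bound for the product of the three conductors -/
lemma cond_mul_le (χ₁ χ₂ : DirichletCharacter ℂ N) :
    Real.log (χ₁ * χ₂).conductor ≤ Real.log χ₁.conductor + Real.log χ₂.conductor := by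
  have h1 : (χ₁ * χ₂).conductor ∣ χ₁.conductor * χ₂.conductor :=
    (conductor_mul_dvd_lcm_conductor χ₁ χ₂).trans (Nat.lcm_dvd_mul _ _)
  have p1 : 0 < χ₁.conductor := Nat.pos_of_ne_zero (NeZero.ne _)
  have p2 : 0 < χ₂.conductor := Nat.pos_of_ne_zero (NeZero.ne _)
  have p3 : 0 < (χ₁ * χ₂).conductor := Nat.pos_of_ne_zero (NeZero.ne _)
  have h2 : ((χ₁ * χ₂).conductor : ℝ) ≤ χ₁.conductor * χ₂.conductor := by
    exact_mod_cast Nat.le_of_dvd (Nat.mul_pos p1 p2) h1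
  rw [← Real.log_mul (by exact_mod_cast p1.ne') (by exact_mod_cast p2.ne')]
  exact Real.log_le_log (by exact_mod_cast p3) h2

/-- two zeros at different points -/
lemma tatu_lt {χ₁ χ₂ : DirichletCharacter ℂ N} (n1 : χ₁ ≠ 1) (n2 : χ₂ ≠ 1)
    (s1 : χ₁ ^ 2 = 1) (s2 : χ₂ ^ 2 = 1) (hne : χ₁ ≠ χ₂) {ε β₁ β₂ : ℝ} (hε : 0 < ε)
    (b1 : 1 - ε * (χ₁.conductor : ℝ) ^ (-ε) ≤ β₁) (z1 : LFunction χ₁ β₁ = 0)
    (b2 : 1 - ε * (χ₂.conductor : ℝ) ^ (-ε) ≤ β₂) (l2 : β₂ < 1) (z2 : LFunction χ₂ β₂ = 0)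
    (hlt : β₁ < β₂) : False := by
  obtain ⟨S, hS, h1, h2, hm, hC, hR⟩ := triple_props n1 n2 s1 s2 hne
  have hmain := group_main hS h1 h2 hm rfl rfl
  have hD : ∏ χ ∈ S, (χ.conductor : ℝ) =
      χ₁.conductor * (χ₂.conductor * (χ₁ * χ₂).conductor) := hR (fun χ => (χ.conductor : ℝ))
  set D : ℝ := ∏ χ ∈ S, (χ.conductor : ℝ) with hDdef
  have p1 : (0 : ℝ) < χ₁.conductor := by exact_mod_cast Nat.pos_of_ne_zero (NeZero.ne _)
  have p2 : (0 : ℝ) < χ₂.conductor := by exact_mod_cast Nat.pos_of_ne_zero (NeZero.ne _)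
  have p3 : (0 : ℝ) < (χ₁ * χ₂).conductor := by
    exact_mod_cast Nat.pos_of_ne_zero (NeZero.ne _)
  have hD0 : 0 < D := by rw [hD]; (clear * - p1 p2 p3; positivity)
  have hlogD : Real.log D = Real.log χ₁.conductor + (Real.log χ₂.conductor +
      Real.log (χ₁ * χ₂).conductor) := by
    rw [hD, Real.log_mul p1.ne' (by positivity), Real.log_mul p2.ne' p3.ne']
  have la := log_conductor_ge n1
  have lb := log_conductor_ge n2
  have lab := cond_mul_le χ₁ χ₂
  have l3 : 0 ≤ Real.log (χ₁ * χ₂).conductor := Real.log_natCast_nonneg _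
  have e1 := eps_small n1 ε
  have e2 := eps_small n2 ε
  have hβ1 : 1 / 2 < β₁ := by linarith only [b1, e1]
  have hlog0 : 0 < Real.log D := by rw [hlogD]; linarith only [b1, l2, hlt, la, lb, l3, e1]
  -- the criterion
  have hcrit : 1 - 2 / Real.log D ≤ β₁ ∨
      (1 - β₂) * D ^ (β₂ / 2) ≤ (1 - β₁) * D ^ (β₁ / 2) := by
    rcases le_or_gt (Real.log D / 2 * (1 - β₁)) 1 with h | h
    · left
      have : 1 - β₁ ≤ 2 / Real.log D := by
        rw [le_div_iff₀ hlog0]; linarith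
      linarith
    · right
      have hc := tatu_compare (Λ := Real.log D / 2) (δa := 1 - β₁) (δb := 1 - β₂) hε
        (by linarith : 0 < Real.log χ₁.conductor) (by linarith : 0 < Real.log χ₂.conductor)
        (by linarith only [b1, l2, hlt, hlogD, la, lb, l3, e1]) (by rw [hlogD]; linarith) (by linarith) (by linarith)
        (by rw [← eps_rpow]; linarith) (by rw [← eps_rpow]; linarith) h
      have hE : ∀ x, D ^ (x / 2) = rexp (Real.log D / 2) * rexp (-(Real.log D / 2 * (1 - x))) := by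
        intro x
        rw [Real.rpow_def_of_pos hD0, ← Real.exp_add]
        ring_nf
      rw [hE, hE]
      have := mul_le_mul_of_nonneg_left hc (Real.exp_pos (Real.log D / 2)).le
      linarith only [this]
  have hz : ∀ w : ℂ, LFunction χ₁ w = 0 ∨ LFunction χ₂ w = 0 →
      ∏ χ ∈ S, LFunction χ w = 0 := by
    intro w hw
    rw [hC (fun χ => LFunction χ w)]
    rcases hw with h | h <;> rw [h] <;> simp
  have hP1 := hz β₁ (Or.inl z1)
  have hP2 := hz β₂ (Or.inr z2)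
  have hpos := hmain.1 β₁ β₂ hβ1 hlt l2 hcrit (by rw [hP1, Complex.zero_re])
  rw [hP2, Complex.zero_re] at hpos
  exact lt_irrefl _ hpos

/-- a common zero -/
lemma tatu_eq {χ₁ χ₂ : DirichletCharacter ℂ N} (n1 : χ₁ ≠ 1) (n2 : χ₂ ≠ 1)
    (s1 : χ₁ ^ 2 = 1) (s2 : χ₂ ^ 2 = 1) (hne : χ₁ ≠ χ₂) {ε β : ℝ} (hε : 0 < ε)
    (b1 : 1 - ε * (χ₁.conductor : ℝ) ^ (-ε) ≤ β) (l1 : β < 1) (z1 : LFunction χ₁ β = 0)
    (b2 : 1 - ε * (χ₂.conductor : ℝ) ^ (-ε) ≤ β) (z2 : LFunction χ₂ β = 0) : False := by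
  obtain ⟨S, hS, h1, h2, hm, hC, hR⟩ := triple_props n1 n2 s1 s2 hne
  have hmain := group_main hS h1 h2 hm rfl rfl
  have hD : ∏ χ ∈ S, (χ.conductor : ℝ) =
      χ₁.conductor * (χ₂.conductor * (χ₁ * χ₂).conductor) := hR (fun χ => (χ.conductor : ℝ))
  set D : ℝ := ∏ χ ∈ S, (χ.conductor : ℝ) with hDdef
  have p1 : (0 : ℝ) < χ₁.conductor := by exact_mod_cast Nat.pos_of_ne_zero (NeZero.ne _)
  have p2 : (0 : ℝ) < χ₂.conductor := by exact_mod_cast Nat.pos_of_ne_zero (NeZero.ne _)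
  have p3 : (0 : ℝ) < (χ₁ * χ₂).conductor := by
    exact_mod_cast Nat.pos_of_ne_zero (NeZero.ne _)
  have hlogD : Real.log D = Real.log χ₁.conductor + (Real.log χ₂.conductor +
      Real.log (χ₁ * χ₂).conductor) := by
    rw [hD, Real.log_mul p1.ne' (by positivity), Real.log_mul p2.ne' p3.ne']
  have la := log_conductor_ge n1
  have lb := log_conductor_ge n2
  have lab := cond_mul_le χ₁ χ₂
  have l3 : 0 ≤ Real.log (χ₁ * χ₂).conductor := Real.log_natCast_nonneg _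
  have e1 := eps_small n1 ε
  have hβ1 : 1 / 2 < β := by linarith
  have hlog0 : 0 < Real.log D := by rw [hlogD]; linarith
  rw [eps_rpow] at b1 b2
  have hwin : 1 - 2 / Real.log D ≤ β := by
    have hw : Real.log D * (1 - β) ≤ 2 := by
      have he := exp_neg_one_lt
      rcases le_total (Real.log χ₁.conductor) (Real.log χ₂.conductor) with h | h
      · have h5 := mul_exp_neg_le (ε * Real.log χ₂.conductor)
        have h6 : Real.log D * (1 - β) ≤ (4 * Real.log χ₂.conductor) *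
            (ε * rexp (-(ε * Real.log χ₂.conductor))) :=
          mul_le_mul (by rw [hlogD]; linarith) (by linarith) (by linarith) (by linarith)
        linarith
      · have h5 := mul_exp_neg_le (ε * Real.log χ₁.conductor)
        have h6 : Real.log D * (1 - β) ≤ (4 * Real.log χ₁.conductor) *
            (ε * rexp (-(ε * Real.log χ₁.conductor))) :=
          mul_le_mul (by rw [hlogD]; linarith) (by linarith) (by linarith) (by linarith)
        linarith
    have : 1 - β ≤ 2 / Real.log D := by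
      rw [le_div_iff₀ hlog0]; linarith
    linarith
  have hP0 : (fun w : ℂ => ∏ χ ∈ S, LFunction χ w) β = 0 := by
    simp only
    rw [hC (fun χ => LFunction χ β), z1, zero_mul]
  have hd := (hmain.2 β hβ1 l1 hP0).1 hwin
  apply hd
  have e : (fun w : ℂ => ∏ χ ∈ S, LFunction χ w) =
      LFunction χ₁ * (LFunction χ₂ * LFunction (χ₁ * χ₂)) := by
    ext w
    simp only [Pi.mul_apply]
    exact hC (fun χ => LFunction χ w)
  have m2 : χ₂ * χ₂ = 1 := by rw [← sq]; exact s2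
  have n12 : χ₁ * χ₂ ≠ 1 := by
    intro h
    apply hne
    calc χ₁ = χ₁ * (χ₂ * χ₂) := by rw [m2, mul_one]
      _ = (χ₁ * χ₂) * χ₂ := by rw [mul_assoc]
      _ = χ₂ := by rw [h, one_mul]
  have d1 := ((differentiable_LFunction n1) (β : ℂ)).hasDerivAt
  have d2 := ((differentiable_LFunction n2) (β : ℂ)).hasDerivAt
  have d3 := ((differentiable_LFunction n12) (β : ℂ)).hasDerivAt
  rw [e, (d1.mul (d2.mul d3)).deriv, z1, Pi.mul_apply, z2]
  ring

/-- At most one of two distinct characters of the same modulus is exceptional. -/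
theorem tatu_core {χ₁ χ₂ : DirichletCharacter ℂ N} (n1 : χ₁ ≠ 1) (n2 : χ₂ ≠ 1)
    (s1 : χ₁ ^ 2 = 1) (s2 : χ₂ ^ 2 = 1) (hne : χ₁ ≠ χ₂) {ε β₁ β₂ : ℝ} (hε : 0 < ε)
    (b1 : 1 - ε * (χ₁.conductor : ℝ) ^ (-ε) ≤ β₁) (l1 : β₁ < 1) (z1 : LFunction χ₁ β₁ = 0)
    (b2 : 1 - ε * (χ₂.conductor : ℝ) ^ (-ε) ≤ β₂) (l2 : β₂ < 1) (z2 : LFunction χ₂ β₂ = 0) :
    False := by
  rcases lt_trichotomy β₁ β₂ with h | h | h
  · exact tatu_lt n1 n2 s1 s2 hne hε b1 z1 b2 l2 z2 h
  · subst h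
    exact tatu_eq n1 n2 s1 s2 hne hε b1 l1 z1 b2 z2
  · exact tatu_lt n2 n1 s2 s1 hne.symm hε b2 z2 b1 l1 z1 h

/-- a single character has at most one exceptional zero, which is simple -/
theorem tatu_single {χ : DirichletCharacter ℂ N} (n1 : χ ≠ 1) (s1 : χ ^ 2 = 1) {ε β₁ β₂ : ℝ}
    (b1 : 1 - ε * (χ.conductor : ℝ) ^ (-ε) ≤ β₁) (l1 : β₁ < 1)
    (z1 : LFunction χ β₁ = 0)
    (b2 : 1 - ε * (χ.conductor : ℝ) ^ (-ε) ≤ β₂) (l2 : β₂ < 1) (z2 : LFunction χ β₂ = 0) :
    β₁ = β₂ ∧ deriv (LFunction χ) β₁ ≠ 0 := by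
  obtain ⟨w1, w2⟩ := window_single χ n1 s1
  have hlog := log_conductor_pos χ n1
  have e1 := eps_small n1 ε
  have hwin : ∀ β : ℝ, 1 - ε * (χ.conductor : ℝ) ^ (-ε) ≤ β →
      1 - 2 / Real.log χ.conductor ≤ β := by
    intro β hb
    rw [eps_rpow] at hb
    have h5 := mul_exp_neg_le (ε * Real.log χ.conductor)
    have he := exp_neg_one_lt
    have h6 : (1 - β) * Real.log χ.conductor ≤
        ε * rexp (-(ε * Real.log χ.conductor)) * Real.log χ.conductor :=
      mul_le_mul_of_nonneg_right (by linarith) hlog.le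
    have : 1 - β ≤ 2 / Real.log χ.conductor := by
      rw [le_div_iff₀ hlog]; linarith
    linarith
  refine ⟨?_, w2 β₁ (by linarith) (hwin β₁ b1) l1 z1⟩
  rcases lt_trichotomy β₁ β₂ with h | h | h
  · have := w1 β₁ β₂ (by linarith) (hwin β₁ b1) h l2 (by rw [z1, Complex.zero_re])
    rw [z2, Complex.zero_re] at this
    exact absurd this (lt_irrefl _)
  · exact h
  · have := w1 β₂ β₁ (by linarith) (hwin β₂ b2) h l1 (by rw [z2, Complex.zero_re])
    rw [z1, Complex.zero_re] at this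
    exact absurd this (lt_irrefl _)

end pair

end Pool.Agent.MP0016c7
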