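import Mathlib
import Pool.Agent.Lib.MP_0016c7_nt.Tatu2

open Filter Topology Set MeasureTheory
open scoped Real

namespace Pool.Agent.MP0016c7

open DirichletCharacter

lemma lift_props {N M : ℕ} [NeZero N] [NeZero M] (h : N ∣ M) {χ : DirichletCharacter ℂ N}
    (hne : χ ≠ 1) (hsq : χ ^ 2 = 1) :
    changeLevel h χ ≠ 1 ∧ (changeLevel h χ) ^ 2 = 1 ∧
    (changeLevel h χ).conductor = χ.conductor ∧
    ∀ s : ℂ, LFunction χ s = 0 → LFunction (changeLevel h χ) s = 0 := by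
  refine ⟨?_, changeLevel_sq hsq h, conductor_changeLevel χ h, fun s hs => ?_⟩
  · intro h1
    apply hne
    apply changeLevel_injective (m := M) h
    rw [h1, map_one]
  · rw [LFunction_changeLevel h χ (Or.inl hne), hs, zero_mul]

/-- Uniform repulsion between exceptional zeros of different quadratic characters. -/
theorem tatuzawa {ε : ℝ} (hε : 0 < ε) {N₁ N₂ : ℕ} [NeZero N₁] [NeZero N₂]
    (χ₁ : DirichletCharacter ℂ N₁) (χ₂ : DirichletCharacter ℂ N₂)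
    (n1 : χ₁ ≠ 1) (n2 : χ₂ ≠ 1) (s1 : χ₁ ^ 2 = 1) (s2 : χ₂ ^ 2 = 1) {β₁ β₂ : ℝ}
    (b1 : 1 - ε * (χ₁.conductor : ℝ) ^ (-ε) ≤ β₁) (l1 : β₁ < 1) (z1 : LFunction χ₁ β₁ = 0)
    (b2 : 1 - ε * (χ₂.conductor : ℝ) ^ (-ε) ≤ β₂) (l2 : β₂ < 1) (z2 : LFunction χ₂ β₂ = 0) :
    (χ₁.conductor = χ₂.conductor ∧
      ∀ n : ℤ, χ₁.primitiveCharacter n = χ₂.primitiveCharacter n) ∧
    β₁ = β₂ ∧ deriv (LFunction χ₁) β₁ ≠ 0 := by
  have hM0 : NeZero (Nat.lcm N₁ N₂) := ⟨Nat.lcm_ne_zero (NeZero.ne _) (NeZero.ne _)⟩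
  have d1 : N₁ ∣ Nat.lcm N₁ N₂ := Nat.dvd_lcm_left _ _
  have d2 : N₂ ∣ Nat.lcm N₁ N₂ := Nat.dvd_lcm_right _ _
  obtain ⟨p1, q1, c1, r1⟩ := lift_props d1 n1 s1
  obtain ⟨p2, q2, c2, r2⟩ := lift_props d2 n2 s2
  by_cases he : changeLevel d1 χ₁ = changeLevel d2 χ₂
  · have hc : χ₁.conductor = χ₂.conductor := by rw [← c1, ← c2, he]
    refine ⟨⟨hc, fun n => ?_⟩, ?_, (tatu_single n1 s1 b1 l1 z1 b1 l1 z1).2⟩
    · rw [← primitiveCharacter_changeLevel_apply d1 χ₁ n,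
        ← primitiveCharacter_changeLevel_apply d2 χ₂ n]
      generalize changeLevel d1 χ₁ = a at *
      generalize changeLevel d2 χ₂ = b at *
      subst he
      rfl
    · refine (tatu_single (χ := changeLevel d1 χ₁) p1 q1 (ε := ε) ?_ l1 (r1 _ z1) ?_ l2 ?_).1
      · rw [c1]; exact b1
      · rw [he, c2]; exact b2
      · rw [he]; exact r2 _ z2
  · exact (tatu_core p1 p2 q1 q2 he hε (by rw [c1]; exact b1) l1 (r1 _ z1)
      (by rw [c2]; exact b2) l2 (r2 _ z2)).elim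

end Pool.Agent.MP0016c7
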